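import Pool.Agent.TriPerc.Defs
import Mathlib.CategoryTheory.Countable
import Mathlib.MeasureTheory.Measure.Haar.Unique
import Mathlib.MeasureTheory.Measure.RegularityCompacts
import Mathlib.Order.CompletePartialOrder
import Mathlib.Topology.UniformSpace.Uniformizable

/-!
# The measure: measurability, independence, symmetries, resampling

* `Ev s A` means: `A` is measurable and depends only on the labels of the vertices in `s`.
* `ev_of_fin`: for a finite set `s` and finitely many levels: if membership in `A` is determined by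
  the traces on `s` of the `p`-open sets for `p` in a finite set `L` of levels, then `Ev s A`.
  PROOF: the map `w ↦ (fun p : L, v : s => decide (w v ≤ p))` takes values in a finite discrete
  space and is measurable (each coordinate is the indicator of `{w | w v ≤ p}`, which is the
  preimage of `Set.Iic p` under a coordinate projection); `A` is the preimage of a subset.
* `ev_op`: the case of one level, `A = {w | Q (Op p w ∩ s)}`; `ev_cl` the same for `Cl`
  (`Cl p w = (Op p w)ᶜ`).
* `ev_order`: events which are determined by the ORDER of the labels in a finite set (and nothing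
  else) are measurable: if `w ∈ A ↔ w' ∈ A` whenever `w u ≤ w v ↔ w' u ≤ w' v` for all
  `u, v ∈ s`, then `Ev s A`.
  PROOF: as before, with the measurable finite-valued map `w ↦ (fun u v : s => decide (w u ≤ w v))`.
* `ev_order_lev`: the same with finitely many levels in addition.
* `indep`: `Ev s A`, `Ev t B`, `s, t` disjoint: `P (A ∩ B) = P A * P B`.
  PROOF: the coordinates are independent (`iIndepFun_infinitePi` or `infinitePi` and its
  restriction to `s` and `t`): `A = {w | s.restrict w ∈ A'}` with a measurable `A'`: take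
  `A' = {x : s → ℝ | (extension of x by 0) ∈ A}`, measurable because the extension map is
  measurable.  Same for `B`.  Then use the independence of the restrictions to disjoint index sets
  (`iIndepFun.indepFun_finset` is only for finite sets; for arbitrary sets use
  `measurePreserving` of the map `(w, w') ↦ mix s w w'`, see `mp_mix`): by `mp_mix`,
  `P (A ∩ B) = (P.prod P) {(w, w') | mix s w w' ∈ A ∩ B}`; membership in `A` depends only on `w'`
  (on `s`), membership in `B` only on `w` (outside `s`), so this is a product set: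
  `= P B * P A`.
* `mp_mix`: the map `(w, w') ↦ mix s w w'` from `P.prod P` to `P` is measure preserving.
  PROOF: `Measure.eq_infinitePi`: for a box `Set.pi u t` (`u` finite) the preimage is the product of
  the boxes `Set.pi (u \ s) t` and `Set.pi (u ∩ s) t`; use `Measure.infinitePi_pi` twice and
  `Measure.prod_prod`.
* `mp_comp`: for a bijection `g` of `V` the map `w ↦ (fun v => w (g v))` preserves `P`
  (`Measure.eq_infinitePi` and `infinitePi_pi`; box `Set.pi u t` goes to the box over `g '' u`).
* `mp_flip`: the map `w ↦ (fun v => 1 - w v)` preserves `P` (boxes again; `unif` is preserved by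
  `x ↦ 1 - x`).
* `unif_Iic`: `unif (Set.Iic p) = p` for `0 ≤ p ≤ 1`.
* `ae_label`: almost surely all labels are in `[0,1]`, pairwise different, and different from a
  given number `p`.
* `mp_update`: the map `(w, x) ↦ Function.update w v x` from `P.prod unif` to `P` preserves the
  measure.
-/

namespace Pool.Agent.TriPerc

open MeasureTheory Set

variable {s t : Set V} {A B : Set Lab}

theorem Ev.mono (h : Ev s A) (hst : s ⊆ t) : Ev t A :=
  ⟨h.1, fun w w' hw => h.2 w w' fun v hv => hw v (hst hv)⟩

theorem Ev.inter (h : Ev s A) (h' : Ev s B) : Ev s (A ∩ B) :=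
  ⟨h.1.inter h'.1, fun w w' hw hA => ⟨h.2 w w' hw hA.1, h'.2 w w' hw hA.2⟩⟩

theorem Ev.union (h : Ev s A) (h' : Ev s B) : Ev s (A ∪ B) :=
  ⟨h.1.union h'.1, fun w w' hw hA => hA.imp (h.2 w w' hw) (h'.2 w w' hw)⟩

theorem Ev.compl (h : Ev s A) : Ev s Aᶜ :=
  ⟨h.1.compl, fun w w' hw hA hA' => hA (h.2 w' w (fun v hv => (hw v hv).symm) hA')⟩

theorem Ev.iUnion {ι : Type} [Countable ι] {A : ι → Set Lab} (h : ∀ i, Ev s (A i)) :
    Ev s (⋃ i, A i) := by
  refine ⟨MeasurableSet.iUnion fun i => (h i).1, fun w w' hw hA => ?_⟩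
  obtain ⟨i, hi⟩ := mem_iUnion.1 hA
  exact mem_iUnion.2 ⟨i, (h i).2 w w' hw hi⟩

theorem Ev.iInter {ι : Type} [Countable ι] {A : ι → Set Lab} (h : ∀ i, Ev s (A i)) :
    Ev s (⋂ i, A i) :=
  ⟨MeasurableSet.iInter fun i => (h i).1, fun w w' hw hA =>
    mem_iInter.2 fun i => (h i).2 w w' hw (mem_iInter.1 hA i)⟩

theorem ev_univ : Ev s (Set.univ : Set Lab) :=
  ⟨MeasurableSet.univ, fun _ _ _ _ => mem_univ _⟩

theorem ev_empty : Ev s (∅ : Set Lab) :=
  ⟨MeasurableSet.empty, fun _ _ _ h => h⟩

/-- A union of fibres of a measurable map to a countable discrete space is measurable. -/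
private theorem meas_of_fib {β : Type} [Countable β] [MeasurableSpace β]
    [MeasurableSingletonClass β] (f : Lab → β) (hf : Measurable f)
    (h : ∀ w w', f w = f w' → w ∈ A → w' ∈ A) : MeasurableSet A := by
  have : A = f ⁻¹' (f '' A) := by
    ext w
    constructor
    · intro hw
      exact ⟨w, hw, rfl⟩
    · rintro ⟨w', hw', e⟩
      exact h w' w e hw'
  rw [this]
  exact hf (Set.to_countable _).measurableSet

/-- The common form of the measurability statements. -/
private theorem ev_aux (hs : s.Finite) (L : Finset ℝ)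
    (h : ∀ w w' : Lab, (∀ u ∈ s, ∀ v ∈ s, w u ≤ w v ↔ w' u ≤ w' v) →
      (∀ p ∈ L, ∀ u ∈ s, w u ≤ p ↔ w' u ≤ p) → w ∈ A → w' ∈ A) : Ev s A := by
  constructor
  · have : Finite s := hs
    refine meas_of_fib (β := (s → s → Prop) × (L → s → Prop))
      (fun w => (fun u v => w u ≤ w v, fun p u => w u ≤ p)) ?_ ?_
    · refine Measurable.prodMk ?_ ?_
      · refine measurable_pi_iff.2 fun u => measurable_pi_iff.2 fun v => ?_
        exact measurableSet_setOf.1
          (measurableSet_le (measurable_pi_apply (u : V)) (measurable_pi_apply (v : V)))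
      · refine measurable_pi_iff.2 fun p => measurable_pi_iff.2 fun u => ?_
        exact measurableSet_setOf.1
          (measurableSet_le (measurable_pi_apply (u : V)) measurable_const)
    · intro w w' e
      have e1 := congrArg Prod.fst e
      have e2 := congrArg Prod.snd e
      refine h w w' ?_ ?_
      · intro u hu v hv
        have := congrFun (congrFun e1 ⟨u, hu⟩) ⟨v, hv⟩
        exact iff_of_eq this
      · intro p hp u hu
        have := congrFun (congrFun e2 ⟨p, hp⟩) ⟨u, hu⟩
        exact iff_of_eq this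
  · intro w w' hw
    refine h w w' ?_ ?_
    · intro u hu v hv
      rw [hw u hu, hw v hv]
    · intro p _ u hu
      rw [hw u hu]

theorem ev_of_fin (hs : s.Finite) (L : Finset ℝ)
    (h : ∀ w w' : Lab, (∀ p ∈ L, Op p w ∩ s = Op p w' ∩ s) → w ∈ A → w' ∈ A) : Ev s A := by
  refine ev_aux hs L fun w w' _ h2 => h w w' fun p hp => ?_
  ext u
  simp only [Op, mem_inter_iff, mem_setOf_eq]
  constructor
  · rintro ⟨h3, h4⟩
    exact ⟨(h2 p hp u h4).1 h3, h4⟩
  · rintro ⟨h3, h4⟩
    exact ⟨(h2 p hp u h4).2 h3, h4⟩

theorem ev_op (hs : s.Finite) (p : ℝ) (Q : Set V → Prop) : Ev s {w | Q (Op p w ∩ s)} := by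
  refine ev_of_fin hs {p} fun w w' h hw => ?_
  have := h p (Finset.mem_singleton_self p)
  simp only [mem_setOf_eq] at hw ⊢
  rwa [← this]

theorem ev_cl (hs : s.Finite) (p : ℝ) (Q : Set V → Prop) : Ev s {w | Q (Cl p w ∩ s)} := by
  refine ev_of_fin hs {p} fun w w' h hw => ?_
  have := h p (Finset.mem_singleton_self p)
  have h2 : Cl p w ∩ s = Cl p w' ∩ s := by
    ext u
    have h3 := Set.ext_iff.1 this u
    simp only [Op, Cl, mem_inter_iff, mem_setOf_eq] at h3 ⊢
    constructor
    · rintro ⟨h4, h5⟩
      refine ⟨?_, h5⟩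
      by_contra h6
      exact absurd (h3.2 ⟨not_lt.1 h6, h5⟩).1 (not_le.2 h4)
    · rintro ⟨h4, h5⟩
      refine ⟨?_, h5⟩
      by_contra h6
      exact absurd (h3.1 ⟨not_lt.1 h6, h5⟩).1 (not_le.2 h4)
  simp only [mem_setOf_eq] at hw ⊢
  rwa [← h2]

theorem ev_order_lev (hs : s.Finite) (L : Finset ℝ)
    (h : ∀ w w' : Lab, (∀ u ∈ s, ∀ v ∈ s, w u ≤ w v ↔ w' u ≤ w' v) →
      (∀ p ∈ L, ∀ u ∈ s, w u ≤ p ↔ w' u ≤ p) → w ∈ A → w' ∈ A) : Ev s A :=
  ev_aux hs L h

theorem measurable_mix (s : Set V) : Measurable (fun z : Lab × Lab => mix s z.1 z.2) := by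
  refine measurable_pi_iff.2 fun v => ?_
  by_cases hv : v ∈ s
  · simp only [mix, hv, if_true]
    exact (measurable_pi_apply v).comp measurable_snd
  · simp only [mix, hv, if_false]
    exact (measurable_pi_apply v).comp measurable_fst

theorem mp_mix (s : Set V) :
    MeasurePreserving (fun z : Lab × Lab => mix s z.1 z.2) (P.prod P) P := by
  classical
  refine ⟨measurable_mix s, ?_⟩
  unfold P
  refine Measure.eq_infinitePi _ fun u t ht => ?_
  rw [Measure.map_apply (measurable_mix s)
    (MeasurableSet.pi u.countable_toSet fun i _ => ht i)]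
  have : (fun z : Lab × Lab => mix s z.1 z.2) ⁻¹' (Set.pi (u : Set V) t) =
      (Set.pi ((u.filter (fun v => ¬ v ∈ s) : Finset V) : Set V) t) ×ˢ
        (Set.pi ((u.filter (fun v => v ∈ s) : Finset V) : Set V) t) := by
    ext z
    simp only [mem_preimage, Set.mem_pi, Finset.mem_coe, mem_prod, Finset.mem_filter, mix]
    constructor
    · intro h
      refine ⟨fun v hv => ?_, fun v hv => ?_⟩
      · have := h v hv.1
        rwa [if_neg hv.2] at this
      · have := h v hv.1
        rwa [if_pos hv.2] at this
    · rintro ⟨h1, h2⟩ v hv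
      by_cases hvs : v ∈ s
      · rw [if_pos hvs]
        exact h2 v ⟨hv, hvs⟩
      · rw [if_neg hvs]
        exact h1 v ⟨hv, hvs⟩
  rw [this, Measure.prod_prod, Measure.infinitePi_pi _ fun i _ => ht i,
    Measure.infinitePi_pi _ fun i _ => ht i, mul_comm, Finset.prod_filter_mul_prod_filter_not]

theorem mp_update (v : V) :
    MeasurePreserving (fun z : Lab × ℝ => Function.update z.1 v z.2) (P.prod unif) P := by
  classical
  have hm : Measurable (fun z : Lab × ℝ => Function.update z.1 v z.2) := by
    refine measurable_pi_iff.2 fun u => ?_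
    by_cases hu : u = v
    · subst hu
      simp only [Function.update_self]
      exact measurable_snd
    · simp only [Function.update_of_ne hu]
      exact (measurable_pi_apply u).comp measurable_fst
  refine ⟨hm, ?_⟩
  unfold P
  refine Measure.eq_infinitePi _ fun u t ht => ?_
  rw [Measure.map_apply hm (MeasurableSet.pi u.countable_toSet fun i _ => ht i)]
  by_cases hv : v ∈ u
  · have : (fun z : Lab × ℝ => Function.update z.1 v z.2) ⁻¹' (Set.pi (u : Set V) t) =
        (Set.pi ((u.erase v : Finset V) : Set V) t) ×ˢ (t v) := by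
      ext z
      simp only [mem_preimage, Set.mem_pi, Finset.mem_coe, mem_prod, Finset.mem_erase]
      constructor
      · intro h
        refine ⟨fun x hx => ?_, ?_⟩
        · have := h x hx.2
          rwa [Function.update_of_ne hx.1] at this
        · have := h v hv
          rwa [Function.update_self] at this
      · rintro ⟨h1, h2⟩ x hx
        by_cases hxv : x = v
        · subst hxv
          rwa [Function.update_self]
        · rw [Function.update_of_ne hxv]
          exact h1 x ⟨hxv, hx⟩
    rw [this, Measure.prod_prod, Measure.infinitePi_pi _ fun i _ => ht i,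
      Finset.prod_erase_mul _ _ hv]
  · have : (fun z : Lab × ℝ => Function.update z.1 v z.2) ⁻¹' (Set.pi (u : Set V) t) =
        (Set.pi (u : Set V) t) ×ˢ (Set.univ : Set ℝ) := by
      ext z
      simp only [mem_preimage, Set.mem_pi, Finset.mem_coe, mem_prod, mem_univ, and_true]
      refine forall₂_congr fun x hx => ?_
      rw [Function.update_of_ne]
      rintro rfl
      exact hv hx
    rw [this, Measure.prod_prod, Measure.infinitePi_pi _ fun i _ => ht i, measure_univ, mul_one]

theorem mp_comp (g : V ≃ V) : MeasurePreserving (fun w : Lab => fun v => w (g v)) P P := by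
  classical
  have hm : Measurable (fun w : Lab => fun v => w (g v)) :=
    measurable_pi_iff.2 fun u => measurable_pi_apply (g u)
  refine ⟨hm, ?_⟩
  unfold P
  refine Measure.eq_infinitePi _ fun u t ht => ?_
  rw [Measure.map_apply hm (MeasurableSet.pi u.countable_toSet fun i _ => ht i)]
  have : (fun w : Lab => fun v => w (g v)) ⁻¹' (Set.pi (u : Set V) t) =
      Set.pi ((u.map g.toEmbedding : Finset V) : Set V) (fun v => t (g.symm v)) := by
    ext w
    simp only [mem_preimage, Set.mem_pi, Finset.mem_coe, Finset.mem_map_equiv]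
    constructor
    · intro h v hv
      have := h (g.symm v) hv
      rwa [Equiv.apply_symm_apply] at this
    · intro h v hv
      have := h (g v) (by rwa [Equiv.symm_apply_apply])
      rwa [Equiv.symm_apply_apply] at this
  rw [this, Measure.infinitePi_pi _ fun i _ => ht _, Finset.prod_map]
  simp

theorem mp_flip : MeasurePreserving (fun w : Lab => fun v => 1 - w v) P P := by
  have hm : Measurable (fun w : Lab => fun v => 1 - w v) :=
    measurable_pi_iff.2 fun u => measurable_const.sub (measurable_pi_apply u)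
  refine ⟨hm, ?_⟩
  have h1 : unif.map (fun x : ℝ => 1 - x) = unif := by
    have h2 := (Measure.measurePreserving_sub_left (volume : Measure ℝ) 1).restrict_preimage
      (measurableSet_Icc (a := (0 : ℝ)) (b := 1))
    have h3 : (fun x : ℝ => 1 - x) ⁻¹' (Set.Icc 0 1) = Set.Icc 0 1 := by
      ext x
      simp only [mem_preimage, mem_Icc]
      constructor <;> rintro ⟨h4, h5⟩ <;> constructor <;> linarith
    rw [h3] at h2
    exact h2.map_eq
  unfold P
  have h4 := Measure.infinitePi_map_pi (μ := fun _ : V => unif) (f := fun _ (x : ℝ) => 1 - x)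
    (fun _ => measurable_const.sub measurable_id)
  rw [h4]
  congr 1
  funext v
  exact h1

theorem unif_Iic {p : ℝ} (h0 : 0 ≤ p) (h1 : p ≤ 1) : unif (Set.Iic p) = ENNReal.ofReal p := by
  unfold unif
  rw [Measure.restrict_apply measurableSet_Iic]
  have : Set.Iic p ∩ Set.Icc 0 1 = Set.Icc 0 p := by
    ext x
    simp only [mem_inter_iff, mem_Iic, mem_Icc]
    constructor
    · rintro ⟨h2, h3, -⟩
      exact ⟨h3, h2⟩
    · rintro ⟨h2, h3⟩
      exact ⟨h3, h2, h3.trans h1⟩
  rw [this, Real.volume_Icc, sub_zero]

theorem indep (hA : Ev s A) (hB : Ev t B) (hd : Disjoint s t) : P (A ∩ B) = P A * P B := by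
  rw [← (mp_mix s).measure_preimage (hA.1.inter hB.1).nullMeasurableSet]
  have : (fun z : Lab × Lab => mix s z.1 z.2) ⁻¹' (A ∩ B) = B ×ˢ A := by
    ext z
    simp only [mem_preimage, mem_inter_iff, mem_prod]
    have h1 : mix s z.1 z.2 ∈ A ↔ z.2 ∈ A := by
      constructor
      · exact hA.2 _ _ fun v hv => by simp [mix, hv]
      · exact hA.2 _ _ fun v hv => by simp [mix, hv]
    have h2 : mix s z.1 z.2 ∈ B ↔ z.1 ∈ B := by
      constructor
      · refine hB.2 _ _ fun v hv => ?_
        have : v ∉ s := fun h => Set.disjoint_left.1 hd h hv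
        simp [mix, this]
      · refine hB.2 _ _ fun v hv => ?_
        have : v ∉ s := fun h => Set.disjoint_left.1 hd h hv
        simp [mix, this]
    rw [h1, h2]
    exact and_comm
  rw [this, Measure.prod_prod, mul_comm]

/-- Independence for finitely many events. -/
theorem indep_iInter {n : ℕ} {s : Fin n → Set V} {A : Fin n → Set Lab} (hA : ∀ i, Ev (s i) (A i))
    (hd : ∀ i j, i ≠ j → Disjoint (s i) (s j)) : P (⋂ i, A i) = ∏ i, P (A i) := by
  induction n with
  | zero => simp
  | succ n ih =>
    have h1 : (⋂ i, A i) = A 0 ∩ ⋂ i : Fin n, A i.succ := by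
      ext w
      simp only [mem_iInter, mem_inter_iff]
      exact Fin.forall_fin_succ
    have h2 : Ev (⋃ i : Fin n, s i.succ) (⋂ i : Fin n, A i.succ) :=
      Ev.iInter fun i => (hA i.succ).mono (Set.subset_iUnion (fun i : Fin n => s i.succ) i)
    have h3 : Disjoint (s 0) (⋃ i : Fin n, s i.succ) :=
      Set.disjoint_iUnion_right.2 fun i => hd 0 i.succ (Fin.succ_ne_zero i).symm
    rw [h1, indep (hA 0) h2 h3, Fin.prod_univ_succ,
      ih (fun i => hA i.succ) fun i j hij => hd _ _ fun h => hij (Fin.succ_injective _ h)]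

theorem ae_label (p : ℝ) :
    ∀ᵐ w ∂P, (∀ v, 0 ≤ w v ∧ w v ≤ 1 ∧ w v ≠ p) ∧ ∀ u v, u ≠ v → w u ≠ w v := by
  have h0 : ∀ x : ℝ, unif {x} = 0 := fun x =>
    le_antisymm ((Measure.restrict_apply_le _ _).trans (by simp)) bot_le
  rw [Filter.eventually_and, ae_all_iff, ae_all_iff]
  refine ⟨fun v => ?_, fun u => ae_all_iff.2 fun v => ?_⟩
  · have h1 : ∀ᵐ x ∂unif, 0 ≤ x ∧ x ≤ 1 ∧ x ≠ p := by
      have h2 : ∀ᵐ x ∂unif, x ∈ Set.Icc (0 : ℝ) 1 := ae_restrict_mem measurableSet_Icc
      have h3 : ∀ᵐ x ∂unif, x ≠ p := by
        rw [ae_iff]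
        simpa using h0 p
      filter_upwards [h2, h3] with x hx hx'
      exact ⟨hx.1, hx.2, hx'⟩
    exact (measurePreserving_eval_infinitePi (fun _ : V => unif) v).quasiMeasurePreserving.ae h1
  · by_cases huv : u = v
    · exact Filter.Eventually.of_forall fun w h => absurd huv h
    · rw [ae_iff]
      have hms : MeasurableSet {w : Lab | w u = w v} :=
        measurableSet_eq_fun (measurable_pi_apply u) (measurable_pi_apply v)
      have h1 : {w : Lab | ¬ (u ≠ v → w u ≠ w v)} = {w | w u = w v} := by
        ext w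
        simp [huv]
      rw [h1, ← (mp_update v).measure_preimage hms.nullMeasurableSet,
        Measure.measure_prod_null ((mp_update v).measurable hms)]
      refine Filter.Eventually.of_forall fun w => ?_
      have h2 : Prod.mk w ⁻¹' ((fun z : Lab × ℝ => Function.update z.1 v z.2) ⁻¹'
          {w : Lab | w u = w v}) = {w u} := by
        ext x
        simp only [mem_preimage, mem_setOf_eq, Function.update_self, Function.update_of_ne huv,
          mem_singleton_iff]
        exact eq_comm
      exact (congrArg unif h2).trans (h0 _)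

theorem op_comp (p : ℝ) (g : V ≃ V) (w : Lab) : Op p (fun v => w (g v)) = g ⁻¹' Op p w := rfl

theorem cl_compl (p : ℝ) (w : Lab) : Cl p w = (Op p w)ᶜ := by
  ext v
  simp [Cl, Op]

theorem op_mono {p q : ℝ} (h : p ≤ q) (w : Lab) : Op p w ⊆ Op q w :=
  fun _ hv => le_trans hv h

theorem cl_mono {p q : ℝ} (h : p ≤ q) (w : Lab) : Cl q w ⊆ Cl p w :=
  fun _ hv => lt_of_le_of_lt h hv

end Pool.Agent.TriPerc
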