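import Pool.Agent.TriPerc.StabC

/-!
# The near-critical window `wd M r`: growth, smallness, mixed arms, RSW

`wd M r = M / (r ^ 2 xf (1/2) 2 r)`.  All statements assume `QmFr` (and later `RusFr`); the constants
`c0, C, g, a` are those of `cst`.  For `2 ≤ m ≤ r`, with `G m = m ^ 2 xf (1/2) 2 m > 0`:
`(m / r) ^ 2 G r ≤ G m` (`xf_anti`) and `G m ≤ (C / g) (m / r) ^ a G r` (`gro_le`).

* `wd_pos`; `wd_up`: `wd M m ≤ (r / m) ^ 2 wd M r` for `2 ≤ m ≤ r`.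
* `wd_grow`: there is `K0` such that `8 wd M r ≤ wd M m` for all `M > 0`, `2 ≤ m`, `K0 m ≤ r`:
  `(C / g) K0 ^ (-a) ≤ 1 / 8`.
* `wd_small`: for `M > 0`, `e > 0` there is `r0` with `wd M r ≤ e` for `r ≥ r0`: `G r ≥ g 2 ^ (2 - a) r ^ a`.
* `wd_mix`: for `M > 0`, `A ≥ 1`, `δ > 0` there are `C2`, `r0` such that for `r ≥ r0`, `w = wd M r` and
  all `m` with `δ r ≤ m`: `2 ≤ m`, `A w ≤ 1 / 4` and `w r ^ 2 yf (1/2 - A w) (1/2 + A w) 2 m ≤ C2`.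
  PROOF.  `e0`, `C1` from `stab`.  Choose `ε` with `A M (C / g) ε ^ a ≤ e0`, `0 < ε ≤ δ`, `ε ≤ 1`, and
  `N = ⌊ε r⌋`; `2 ≤ N` for `r ≥ r0`.  `A w G N ≤ A w (C / g) ε ^ a G r = A M (C / g) ε ^ a ≤ e0`, so `stab`
  applies with `λ = A w`.  As `N ≤ δ r ≤ m`: `yf .. 2 m ≤ yf .. 2 N ≤ C1 xf (1/2) 2 N` (`yf_anti`, `2 < N`) and
  `w r ^ 2 xf (1/2) 2 N = w (r / N) ^ 2 G N ≤ (r / N) ^ 2 (C / g) w G r ≤ (2 / ε) ^ 2 (C / g) M`.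
* `wd_rsw`: for `M > 0`, `A ≥ 1`, `B ≥ 1` there are `c' > 0`, `r0` such that `Rsw c' p (B r)` for
  `r ≥ r0` and all `p` with `|p - 1/2| ≤ A wd M r`.  PROOF.  As before with `N = ⌊ε r⌋` (`δ = 1`);
  `stab` gives `Rsw c1 p N`; `rsw_exN` with the factor `B * ⌈2 / ε⌉`, and `Rsw.mono`
  (`r ≤ (2 / ε) N`).
-/

namespace Pool.Agent.TriPerc

open MeasureTheory Set

/-- The near-critical window of the scale `r`. -/
noncomputable def wd (M : ℝ) (r : ℤ) : ℝ := M / ((r : ℝ) ^ 2 * xf (1 / 2) 2 r)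

private theorem dat (H : QmFr) : ∃ C g a : ℝ, 0 < g ∧ 0 < a ∧ a ≤ 1 / 2 ∧ 1 ≤ C ∧
    (∀ m : ℤ, 2 ≤ m → g * (m : ℝ) ^ a ≤ (m : ℝ) ^ 2 * xf (1 / 2) 2 m) ∧
    ∀ m r : ℤ, 2 ≤ m → m ≤ r → (m : ℝ) ^ 2 * xf (1 / 2) 2 m ≤
      C / g * ((m : ℝ) / r) ^ a * ((r : ℝ) ^ 2 * xf (1 / 2) 2 r) := by
  obtain ⟨c0, C, g, a, hg, ha, ha2, hq, hgr⟩ := cst H
  refine ⟨C, g, a, hg, ha, ha2, (hq 0).one, ?_, ?_⟩
  · intro m hm
    have hm0 : (0 : ℝ) < m := by exact_mod_cast (by omega : (0 : ℤ) < m)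
    have h1 := hgr 2 m (by norm_num) hm
    have h2 : ((2 : ℤ) : ℝ) = 2 := by norm_num
    rw [h2] at h1
    have h3 : (m : ℝ) ^ 2 = (m : ℝ) ^ (2 - a) * (m : ℝ) ^ a := by
      rw [← Real.rpow_add hm0, show (2 - a + a : ℝ) = ((2 : ℕ) : ℝ) by push_cast; ring,
        Real.rpow_natCast]
    have h4 : (0 : ℝ) < (m : ℝ) ^ (2 - a) := Real.rpow_pos_of_pos hm0 _
    have h5 : (0 : ℝ) < (m : ℝ) ^ a := Real.rpow_pos_of_pos hm0 _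
    have h6 : (1 : ℝ) ≤ (2 : ℝ) ^ (2 - a) := Real.one_le_rpow (by norm_num) (by linarith)
    have h7 : (m : ℝ) ^ 2 * (g * ((2 : ℝ) / m) ^ (2 - a)) =
        g * ((2 : ℝ) ^ (2 - a) * (m : ℝ) ^ a) := by
      rw [Real.div_rpow (by norm_num) hm0.le, h3]
      field_simp
    calc g * (m : ℝ) ^ a ≤ g * ((2 : ℝ) ^ (2 - a) * (m : ℝ) ^ a) :=
          mul_le_mul_of_nonneg_left (le_mul_of_one_le_left h5.le h6) hg.le
      _ = (m : ℝ) ^ 2 * (g * ((2 : ℝ) / m) ^ (2 - a)) := h7.symm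
      _ ≤ (m : ℝ) ^ 2 * xf (1 / 2) 2 m := mul_le_mul_of_nonneg_left h1 (by positivity)
  · intro m r hm hmr
    exact gro_le (hq r) hg ha (by linarith) (fun n m h1 h2 _ => hgr n m (by omega) h2) hm hmr
      le_rfl

private theorem gpos (H : QmFr) {m : ℤ} (hm : 2 ≤ m) : 0 < (m : ℝ) ^ 2 * xf (1 / 2) 2 m := by
  obtain ⟨C, g, a, hg, ha, -, -, h, -⟩ := dat H
  have hm0 : (0 : ℝ) < m := by exact_mod_cast (by omega : (0 : ℤ) < m)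
  exact (mul_pos hg (Real.rpow_pos_of_pos hm0 _)).trans_le (h m hm)

private theorem exists_big {a : ℝ} (ha : 0 < a) (B : ℝ) : ∃ K : ℤ, 2 ≤ K ∧ ∀ x : ℝ,
    (K : ℝ) ≤ x → B ≤ x ^ a := by
  obtain ⟨x0, hx0⟩ := Filter.eventually_atTop.1
    ((tendsto_rpow_atTop ha).eventually_ge_atTop B)
  refine ⟨max 2 ⌈x0⌉, le_max_left _ _, fun x hx => hx0 x ((Int.le_ceil x0).trans ?_)⟩
  exact le_trans (by exact_mod_cast le_max_right (2 : ℤ) ⌈x0⌉) hx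

theorem wd_pos (H : QmFr) {M : ℝ} (hM : 0 < M) {r : ℤ} (hr : 2 ≤ r) : 0 < wd M r := by
  exact div_pos hM (gpos H hr)

theorem wd_up (H : QmFr) {M : ℝ} (hM : 0 < M) {m r : ℤ} (hm : 2 ≤ m) (hmr : m ≤ r) :
    wd M m ≤ ((r : ℝ) / m) ^ 2 * wd M r := by
  have hm0 : (0 : ℝ) < m := by exact_mod_cast (by omega : (0 : ℤ) < m)
  have hr0 : (0 : ℝ) < r := by exact_mod_cast (by omega : (0 : ℤ) < r)
  have h1 := gpos H hm
  have h2 := gpos H (hm.trans hmr)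
  have h3 : xf (1 / 2) 2 r ≤ xf (1 / 2) 2 m := xf_anti le_rfl hm hmr
  have h4 : (r : ℝ) ^ 2 * xf (1 / 2) 2 r ≤
      ((r : ℝ) / m) ^ 2 * ((m : ℝ) ^ 2 * xf (1 / 2) 2 m) := by
    have h5 : ((r : ℝ) / m) ^ 2 * ((m : ℝ) ^ 2 * xf (1 / 2) 2 m) =
        (r : ℝ) ^ 2 * xf (1 / 2) 2 m := by
      field_simp
    rw [h5]
    exact mul_le_mul_of_nonneg_left h3 (by positivity)
  unfold wd
  rw [← mul_div_assoc, div_le_div_iff₀ h1 h2]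
  calc M * ((r : ℝ) ^ 2 * xf (1 / 2) 2 r)
      ≤ M * (((r : ℝ) / m) ^ 2 * ((m : ℝ) ^ 2 * xf (1 / 2) 2 m)) :=
        mul_le_mul_of_nonneg_left h4 hM.le
    _ = ((r : ℝ) / m) ^ 2 * M * ((m : ℝ) ^ 2 * xf (1 / 2) 2 m) := by ring

theorem wd_grow (H : QmFr) : ∃ K0 : ℤ, 2 ≤ K0 ∧ ∀ (M : ℝ) (m r : ℤ), 0 < M → 2 ≤ m →
    K0 * m ≤ r → 8 * wd M r ≤ wd M m := by
  obtain ⟨C, g, a, hg, ha, -, hC, -, hgro⟩ := dat H
  obtain ⟨K0, hK0, hK⟩ := exists_big ha (8 * C / g)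
  refine ⟨K0, hK0, fun M m r hM hm hr => ?_⟩
  have hmr : m ≤ r := by nlinarith
  have hm0 : (0 : ℝ) < m := by exact_mod_cast (by omega : (0 : ℤ) < m)
  have hr0 : (0 : ℝ) < r := by exact_mod_cast (by omega : (0 : ℤ) < r)
  have h1 := gpos H hm
  have h2 := gpos H (hm.trans hmr)
  have h3 : (K0 : ℝ) ≤ (r : ℝ) / m := by
    rw [le_div_iff₀ hm0]
    exact_mod_cast hr
  have h4 := hK _ h3
  have h5 : ((m : ℝ) / r) ^ a * ((r : ℝ) / m) ^ a = 1 := by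
    rw [← Real.mul_rpow (by positivity) (by positivity)]
    have : (m : ℝ) / r * ((r : ℝ) / m) = 1 := by field_simp
    rw [this, Real.one_rpow]
  have h6 : 0 < ((m : ℝ) / r) ^ a := Real.rpow_pos_of_pos (by positivity) _
  have h7 : C / g * ((m : ℝ) / r) ^ a ≤ 1 / 8 := by
    have h8 : 8 * C / g * ((m : ℝ) / r) ^ a ≤ 1 := by
      calc 8 * C / g * ((m : ℝ) / r) ^ a ≤ ((r : ℝ) / m) ^ a * ((m : ℝ) / r) ^ a :=
            mul_le_mul_of_nonneg_right h4 h6.le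
        _ = 1 := by rw [mul_comm]; exact h5
    have h9 : 8 * C / g * ((m : ℝ) / r) ^ a = 8 * (C / g * ((m : ℝ) / r) ^ a) := by ring
    linarith
  have h8 := (hgro m r hm hmr).trans (mul_le_mul_of_nonneg_right h7 h2.le)
  unfold wd
  rw [← mul_div_assoc, div_le_div_iff₀ h2 h1]
  nlinarith

theorem wd_small (H : QmFr) {M e : ℝ} (hM : 0 < M) (he : 0 < e) : ∃ r0 : ℤ, 2 ≤ r0 ∧
    ∀ r : ℤ, r0 ≤ r → wd M r ≤ e := by
  obtain ⟨C, g, a, hg, ha, -, hC, hlow, -⟩ := dat H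
  obtain ⟨K0, hK0, hK⟩ := exists_big ha (M / (e * g))
  refine ⟨K0, hK0, fun r hr => ?_⟩
  have h1 := gpos H (hK0.trans hr)
  have h2 := hK r (by exact_mod_cast hr)
  have h3 := hlow r (hK0.trans hr)
  unfold wd
  rw [div_le_iff₀ h1]
  rw [div_le_iff₀ (by positivity)] at h2
  calc M ≤ e * (g * (r : ℝ) ^ a) := by linarith
    _ ≤ e * ((r : ℝ) ^ 2 * xf (1 / 2) 2 r) := mul_le_mul_of_nonneg_left h3 he.le

private theorem scl (H : QmFr) {M A δ e0 : ℝ} (hM : 0 < M) (hA : 1 ≤ A) (hδ : 0 < δ)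
    (he0 : 0 < e0) : ∃ ε : ℝ, 0 < ε ∧ ε ≤ δ ∧ ε ≤ 1 ∧ ∃ r0 : ℤ, 2 ≤ r0 ∧ ∀ r : ℤ, r0 ≤ r →
      ∃ N : ℤ, 3 ≤ N ∧ N ≤ r ∧ A * wd M r ≤ 1 / 4 ∧
        A * wd M r * ((N : ℝ) ^ 2 * xf (1 / 2) 2 N) ≤ e0 ∧ (r : ℝ) ≤ 2 / ε * N ∧
        (N : ℝ) ≤ ε * r := by
  obtain ⟨C, g, a, hg, ha, -, hC, -, hgro⟩ := dat H
  have hA0 : 0 < A := by linarith
  have hC0 : 0 < C := by linarith
  set B : ℝ := e0 * g / (A * M * C) with hB
  have hB0 : 0 < B := by positivity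
  set ε : ℝ := min (min δ 1) (B ^ a⁻¹) with hεd
  have hε : 0 < ε := lt_min (lt_min hδ one_pos) (Real.rpow_pos_of_pos hB0 _)
  have hεδ : ε ≤ δ := (min_le_left _ _).trans (min_le_left _ _)
  have hε1 : ε ≤ 1 := (min_le_left _ _).trans (min_le_right _ _)
  have hεa : ε ^ a ≤ B := by
    have h1 : ε ≤ B ^ a⁻¹ := min_le_right _ _
    have h2 := Real.rpow_le_rpow hε.le h1 ha.le
    rwa [Real.rpow_inv_rpow hB0.le ha.ne'] at h2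
  obtain ⟨r1, hr1, hsm⟩ := wd_small H (e := 1 / (4 * A)) hM (by positivity)
  refine ⟨ε, hε, hεδ, hε1, max r1 ⌈4 / ε⌉, hr1.trans (le_max_left _ _), fun r hr => ?_⟩
  have hr1' : r1 ≤ r := (le_max_left _ _).trans hr
  have hr2 : 2 ≤ r := hr1.trans hr1'
  have hrr : (0 : ℝ) < r := by exact_mod_cast (by omega : (0 : ℤ) < r)
  have hre : 4 / ε ≤ r := (Int.le_ceil _).trans (by exact_mod_cast (le_max_right _ _).trans hr)
  have hre' : 4 ≤ ε * r := by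
    rw [div_le_iff₀ hε] at hre
    linarith
  have hN1 : ((⌊ε * r⌋ : ℤ) : ℝ) ≤ ε * r := Int.floor_le _
  have hN2 : ε * r < ((⌊ε * r⌋ : ℤ) : ℝ) + 1 := Int.lt_floor_add_one _
  have hN4 : 4 ≤ ⌊ε * r⌋ := Int.le_floor.2 (by exact_mod_cast hre')
  have hN0 : (0 : ℝ) < ((⌊ε * r⌋ : ℤ) : ℝ) := by
    exact_mod_cast (by omega : (0 : ℤ) < ⌊ε * r⌋)
  have hNr : ⌊ε * r⌋ ≤ r := by
    have h1 : ((⌊ε * r⌋ : ℤ) : ℝ) ≤ r := hN1.trans (mul_le_of_le_one_left hrr.le hε1)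
    exact_mod_cast h1
  have hw := wd_pos H hM hr2
  have hG := gpos H hr2
  refine ⟨⌊ε * r⌋, by omega, hNr, ?_, ?_, ?_, hN1⟩
  · have h1 := mul_le_mul_of_nonneg_left (hsm r hr1') hA0.le
    have h2 : A * (1 / (4 * A)) = 1 / 4 := by field_simp
    rwa [h2] at h1
  · have h1 := hgro ⌊ε * r⌋ r (by omega) hNr
    have h2 : (((⌊ε * r⌋ : ℤ) : ℝ) / r) ^ a ≤ B := by
      refine le_trans (Real.rpow_le_rpow (by positivity) ?_ ha.le) hεa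
      rw [div_le_iff₀ hrr]
      exact hN1
    have h7 : wd M r * ((r : ℝ) ^ 2 * xf (1 / 2) 2 r) = M := by
      unfold wd
      exact div_mul_cancel₀ _ hG.ne'
    calc A * wd M r * (((⌊ε * r⌋ : ℤ) : ℝ) ^ 2 * xf (1 / 2) 2 ⌊ε * r⌋)
        ≤ A * wd M r * (C / g * (((⌊ε * r⌋ : ℤ) : ℝ) / r) ^ a *
          ((r : ℝ) ^ 2 * xf (1 / 2) 2 r)) := mul_le_mul_of_nonneg_left h1 (by positivity)
      _ ≤ A * wd M r * (C / g * B * ((r : ℝ) ^ 2 * xf (1 / 2) 2 r)) :=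
          mul_le_mul_of_nonneg_left (mul_le_mul_of_nonneg_right
            (mul_le_mul_of_nonneg_left h2 (by positivity)) hG.le) (by positivity)
      _ = A * (C / g) * B * (wd M r * ((r : ℝ) ^ 2 * xf (1 / 2) 2 r)) := by ring
      _ = A * (C / g) * B * M := by rw [h7]
      _ = e0 := by
          rw [hB]
          field_simp
  · have h1 : ε * r ≤ 2 * ((⌊ε * r⌋ : ℤ) : ℝ) := by linarith
    rw [div_mul_eq_mul_div, le_div_iff₀ hε]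
    linarith

theorem wd_mix (H : QmFr) {M A δ : ℝ} (hM : 0 < M) (hA : 1 ≤ A) (hδ : 0 < δ) :
    ∃ (C2 : ℝ) (r0 : ℤ), 0 < C2 ∧ 2 ≤ r0 ∧ ∀ r m : ℤ, r0 ≤ r → δ * (r : ℝ) ≤ m →
      2 ≤ m ∧ A * wd M r ≤ 1 / 4 ∧
      wd M r * ((r : ℝ) ^ 2 * yf (1 / 2 - A * wd M r) (1 / 2 + A * wd M r) 2 m) ≤ C2 := by
  obtain ⟨C, g, a, hg, ha, -, hC, -, hgro⟩ := dat H
  obtain ⟨e0, c', C1, he0, hc', hC1, hst⟩ := stab H
  obtain ⟨ε, hε, hεδ, hε1, r0, hr0, hN⟩ := scl H hM hA hδ he0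
  refine ⟨C1 * (2 / ε) ^ 2 * (C / g) * M, r0, by positivity, hr0, fun r m hr hm => ?_⟩
  obtain ⟨N, hN3, hNr, hw4, hwG, hrN, hNe⟩ := hN r hr
  have hr2 : 2 ≤ r := hr0.trans hr
  have hrr : (0 : ℝ) < r := by exact_mod_cast (by omega : (0 : ℤ) < r)
  have hN0 : (0 : ℝ) < N := by exact_mod_cast (by omega : (0 : ℤ) < N)
  have hw := wd_pos H hM hr2
  have hNm : N ≤ m := by
    have h1 : (N : ℝ) ≤ m := hNe.trans ((mul_le_mul_of_nonneg_right hεδ hrr.le).trans hm)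
    exact_mod_cast h1
  refine ⟨by omega, hw4, ?_⟩
  obtain ⟨h1, -⟩ := hst N (A * wd M r) (by omega) (by positivity) hw4 hwG
  have h2 := h1 2 N le_rfl (by omega) le_rfl
  have h3 : yf (1 / 2 - A * wd M r) (1 / 2 + A * wd M r) 2 m ≤ C1 * xf (1 / 2) 2 N :=
    (yf_anti le_rfl (by omega) hNm).trans h2
  have h4 := hgro N r (by omega) hNr
  have hG := gpos H hr2
  have hNr1 : ((N : ℝ) / r) ^ a ≤ 1 := by
    refine Real.rpow_le_one (by positivity) ?_ ha.le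
    rw [div_le_one hrr]
    exact_mod_cast hNr
  have h5 : (N : ℝ) ^ 2 * xf (1 / 2) 2 N ≤ C / g * ((r : ℝ) ^ 2 * xf (1 / 2) 2 r) := by
    refine h4.trans ?_
    have h6 : C / g * ((N : ℝ) / r) ^ a ≤ C / g :=
      mul_le_of_le_one_right (by positivity) hNr1
    exact mul_le_mul_of_nonneg_right h6 hG.le
  have h7 : wd M r * ((r : ℝ) ^ 2 * xf (1 / 2) 2 r) = M := by
    unfold wd
    exact div_mul_cancel₀ _ hG.ne'
  have h8 : (r : ℝ) ^ 2 * xf (1 / 2) 2 N ≤ (2 / ε) ^ 2 * ((N : ℝ) ^ 2 * xf (1 / 2) 2 N) := by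
    have h9 : (r : ℝ) ^ 2 ≤ (2 / ε) ^ 2 * (N : ℝ) ^ 2 := by
      rw [← mul_pow]
      exact pow_le_pow_left₀ hrr.le hrN 2
    rw [← mul_assoc]
    exact mul_le_mul_of_nonneg_right h9 xf_nonneg
  calc wd M r * ((r : ℝ) ^ 2 * yf (1 / 2 - A * wd M r) (1 / 2 + A * wd M r) 2 m)
      ≤ wd M r * ((r : ℝ) ^ 2 * (C1 * xf (1 / 2) 2 N)) :=
        mul_le_mul_of_nonneg_left (mul_le_mul_of_nonneg_left h3 (by positivity)) hw.le
    _ = C1 * (wd M r * ((r : ℝ) ^ 2 * xf (1 / 2) 2 N)) := by ring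
    _ ≤ C1 * (wd M r * ((2 / ε) ^ 2 * ((N : ℝ) ^ 2 * xf (1 / 2) 2 N))) :=
        mul_le_mul_of_nonneg_left (mul_le_mul_of_nonneg_left h8 hw.le) hC1.le
    _ ≤ C1 * (wd M r * ((2 / ε) ^ 2 * (C / g * ((r : ℝ) ^ 2 * xf (1 / 2) 2 r)))) :=
        mul_le_mul_of_nonneg_left (mul_le_mul_of_nonneg_left
          (mul_le_mul_of_nonneg_left h5 (by positivity)) hw.le) hC1.le
    _ = C1 * (2 / ε) ^ 2 * (C / g) * (wd M r * ((r : ℝ) ^ 2 * xf (1 / 2) 2 r)) := by ring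
    _ = C1 * (2 / ε) ^ 2 * (C / g) * M := by rw [h7]

theorem wd_rsw (H : QmFr) {M A : ℝ} (hM : 0 < M) (hA : 1 ≤ A) {B : ℤ} (hB : 1 ≤ B) :
    ∃ (c' : ℝ) (r0 : ℤ), 0 < c' ∧ 2 ≤ r0 ∧ ∀ (r : ℤ) (p : ℝ), r0 ≤ r →
      |p - 1 / 2| ≤ A * wd M r → Rsw c' p (B * r) := by
  obtain ⟨e0, c1, C1, he0, hc1, hC1, hst⟩ := stab H
  obtain ⟨ε, hε, -, hε1, r0, hr0, hN⟩ := scl H hM hA (δ := 1) one_pos he0
  have hB0 : (0 : ℝ) < B := by exact_mod_cast (by omega : (0 : ℤ) < B)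
  have hce : 1 ≤ ⌈2 / ε⌉ := by
    rw [Int.one_le_ceil_iff]
    positivity
  obtain ⟨c', hc', hext⟩ := rsw_exN c1 hc1 (B * ⌈2 / ε⌉) (by nlinarith)
  refine ⟨c', r0, hc', hr0, fun r p hr hp => ?_⟩
  obtain ⟨N, hN3, hNr, hw4, hwG, hrN, hNe⟩ := hN r hr
  have hr2 : 2 ≤ r := hr0.trans hr
  have hN0 : (0 : ℝ) < N := by exact_mod_cast (by omega : (0 : ℤ) < N)
  have hw := wd_pos H hM hr2
  obtain ⟨-, h1⟩ := hst N (A * wd M r) (by omega) (by positivity) hw4 hwG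
  obtain ⟨h2, h3⟩ := abs_le.1 hp
  have h4 := hext p N (by omega) (h1 p (by linarith) (by linarith))
  refine h4.mono ?_
  have h5 : (r : ℝ) ≤ ⌈2 / ε⌉ * N :=
    hrN.trans (mul_le_mul_of_nonneg_right (Int.le_ceil _) hN0.le)
  have h6 : r ≤ ⌈2 / ε⌉ * N := by exact_mod_cast h5
  rw [mul_assoc]
  exact mul_le_mul_of_nonneg_left h6 (by omega)

end Pool.Agent.TriPerc
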