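import Pool.Agent.TriPerc.FourG

/-!
# Mixed four arms (intermediate sets of EDGES)

`MxG a b z n m`: MIXED four arms: some graph between `EG (Op a w)` and `EG (Op b w)` has four arms.
(Two `b`-open arms which may touch, but are not joined by edges with both ends `≤ a`.)

* `fg_switch`: the SWITCHING LEMMA.  Let `G, H ≤ EG univ` have the same edges except
  the edge `uv`, `FourG G z n m`, not `FourG H z n m`, `n + r ≤ nrm (u - z)`,
  `nrm (u - z) + r ≤ m`, `2 ≤ r`.  Then `FourG G u 1 r`.  PROOF.  Let `A = Ann z n m`; `a ~ b`,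
  `a' ~ b'` in `cut G A`, not `a ~ a'` in `cut G A`, with the norm conditions.  `u, v ∈ A`
  (`nrm_adj`).  (E): if `K'` is `K` plus the edge `uv` and `x ~ y` in `K'`, then `x ~ y` in `K`, or
  `x ~ u` and `v ~ y` in `K`, or `x ~ v` and `u ~ y` in `K` (induction on the path).
  The edge `uv` is in exactly one of `G`, `H` (otherwise they have the same edges).
  Case 1: `uv ∈ H`, `uv ∉ G`.  `a ~ b`, `a' ~ b'` in `cut H A`, so `a ~ a'` in `cut H A` (otherwise
  `FourG H z n m`).  By (E) with `K = cut G A`: `a ~ u`, `v ~ a'` or `a ~ v`, `u ~ a'` in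
  `cut G A`.  In both cases apply `fg_of_reach` with the centre `u`, `n = 1`, `m = r`, `D = A`: `u` and
  `v` have distance `≤ 1` from `u`, they are joined in `cut G A` to `b` and `b'` (in some order),
  which have distance `≥ m - nrm (u - z) ≥ r` from `u`, and they are not joined to each other.
  `Ann u 1 r ⊆ A` by the triangle inequality.
  Case 2: `uv ∈ G`, `uv ∉ H`.  If `a ~ b` and `a' ~ b'` in `cut H A`, then `FourG H z n m`
  (`cut H A ≤ cut G A`), contradiction.  By symmetry let `a ≁ b` in `cut H A`.  (E) with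
  `K = cut H A`: `a ~ u`, `v ~ b` or `a ~ v`, `u ~ b` in `cut H A`; `u ≁ v` in `cut H A`.
  `nrm (a - u) ≥ nrm (u - z) - n ≥ r`, `nrm (b - u) ≥ r`.  `fg_of_reach` for `H` gives
  `FourG H u 1 r`; the edge `uv` is not inside `Ann u 1 r`, so `FourG G u 1 r` (`fg_congr`).
* `ev_mxg`: if `w`, `w'` have the same `Op a`, `Op b` in `Ann z n m` (`ev_of_fin` with
  `{a, b}`) and `G` is good for `w`, take `cut G (Ann z n m) ⊔ EG (Op a w')` for `w'`: inside the
  annulus it has the same edges as `G`, since `EG (Op a w) ≤ G`.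
* `mxg_tr`: translation invariance: `w ∈ MxG a b z n m ↔ (fun v => w (v + z)) ∈ MxG a b 0 n m`
  (`G.comap (tr z)`), `mp_comp (tr z)`.
-/

namespace Pool.Agent.TriPerc

open MeasureTheory Set

/-- Mixed four arms: some graph between the `a`-open edges and the `b`-open edges has four
arms. -/
def MxG (a b : ℝ) (z : V) (n m : ℤ) : Set Lab :=
  {w | ∃ G : SimpleGraph V, EG (Op a w) ≤ G ∧ G ≤ EG (Op b w) ∧ FourG G z n m}

variable {S T D : Set V} {G H : SimpleGraph V} {z z' u v u' v' x y : V} {n m n' m' d r : ℤ}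
  {a b a' b' p : ℝ}

/-- Removing one edge. -/
private theorem reach_edge {K K' : SimpleGraph V}
    (hK : ∀ x y, K'.Adj x y → K.Adj x y ∨ (x = u ∧ y = v) ∨ (x = v ∧ y = u))
    (h : K'.Reachable x y) : K.Reachable x y ∨ (K.Reachable x u ∧ K.Reachable v y) ∨
      (K.Reachable x v ∧ K.Reachable u y) := by
  rw [SimpleGraph.reachable_iff_reflTransGen] at h
  induction h with
  | refl => exact Or.inl (SimpleGraph.Reachable.refl _)
  | tail _ hbc ih =>
    rcases hK _ _ hbc with hs | ⟨rfl, rfl⟩ | ⟨rfl, rfl⟩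
    · have hs' := hs.reachable
      rcases ih with h1 | ⟨h1, h2⟩ | ⟨h1, h2⟩
      · exact Or.inl (h1.trans hs')
      · exact Or.inr (Or.inl ⟨h1, h2.trans hs'⟩)
      · exact Or.inr (Or.inr ⟨h1, h2.trans hs'⟩)
    · rcases ih with h1 | ⟨h1, h2⟩ | ⟨h1, h2⟩
      · exact Or.inr (Or.inl ⟨h1, SimpleGraph.Reachable.refl _⟩)
      · exact Or.inr (Or.inl ⟨h1, SimpleGraph.Reachable.refl _⟩)
      · exact Or.inl h1
    · rcases ih with h1 | ⟨h1, h2⟩ | ⟨h1, h2⟩
      · exact Or.inr (Or.inr ⟨h1, SimpleGraph.Reachable.refl _⟩)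
      · exact Or.inl h1
      · exact Or.inr (Or.inr ⟨h1, SimpleGraph.Reachable.refl _⟩)

private theorem nrm_tri (x y z : V) : nrm (x - z) ≤ nrm (x - y) + nrm (y - z) := by
  have h := nrm_add (x - y) (y - z)
  rwa [sub_add_sub_cancel] at h

private theorem nrm_sym (x y : V) : nrm (x - y) = nrm (y - x) := by
  rw [← nrm_neg, neg_sub]

private theorem nrm_self (x : V) : nrm (x - x) = 0 := by
  rw [sub_self]
  exact nrm_zero_iff.2 rfl

private theorem ann_sub (h1 : n + r ≤ nrm (u - z)) (h2 : nrm (u - z) + r ≤ m) :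
    Ann u 1 r ⊆ Ann z n m := by
  rintro x ⟨-, hx⟩
  have h3 := nrm_tri x u z
  have h4 := nrm_tri u x z
  rw [nrm_sym u x] at h4
  exact ⟨by omega, by omega⟩

/-- The first case: the edge is not in `G`; the second case is applied to `H`. -/
private theorem fg_two (hG : G ≤ EG univ) (huv : Adj u v) (hr : 2 ≤ r)
    (h1 : n + r ≤ nrm (u - z)) (h2 : nrm (u - z) + r ≤ m)
    (hn : ¬ (cut G (Ann z n m)).Reachable u v)
    (hx : (cut G (Ann z n m)).Reachable u x) (hy : (cut G (Ann z n m)).Reachable v y)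
    (hx' : nrm (x - z) ≤ n ∨ m ≤ nrm (x - z)) (hy' : nrm (y - z) ≤ n ∨ m ≤ nrm (y - z)) :
    FourG G u 1 r := by
  have key : ∀ x : V, (nrm (x - z) ≤ n ∨ m ≤ nrm (x - z)) → r ≤ nrm (x - u) := by
    intro x hx
    have h3 := nrm_tri x u z
    have h4 := nrm_tri u x z
    rw [nrm_sym u x] at h4
    omega
  have h3 := abs_le.1 (nrm_adj huv u)
  rw [nrm_self] at h3
  exact fg_of_reach hG hx hy hn (by rw [nrm_self]; norm_num) (key x hx') (by omega) (key y hy')
    (by omega) (ann_sub h1 h2)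

private theorem fg_tr (d : V) (h : FourG G z n m) :
    FourG (G.comap (fun x => x + d)) (z - d) n m := by
  obtain ⟨u, v, u', v', h1, h2, h3, h4, h5, h6, h7⟩ := h
  have key : ∀ {x y : V}, (cut G (Ann z n m)).Reachable x y →
      (cut (G.comap (fun x => x + d)) (Ann (z - d) n m)).Reachable (x - d) (y - d) := by
    intro x y h
    rw [SimpleGraph.reachable_iff_reflTransGen] at h ⊢
    refine h.lift (fun x => x - d) ?_
    rintro a b ⟨k1, ⟨k2, k2'⟩, ⟨k3, k3'⟩⟩
    refine ⟨?_, ⟨?_, ?_⟩, ⟨?_, ?_⟩⟩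
    · change G.Adj (a - d + d) (b - d + d)
      rwa [sub_add_cancel, sub_add_cancel]
    · rwa [sub_sub_sub_cancel_right]
    · rwa [sub_sub_sub_cancel_right]
    · rwa [sub_sub_sub_cancel_right]
    · rwa [sub_sub_sub_cancel_right]
  have key' : ∀ {x y : V},
      (cut (G.comap (fun x => x + d)) (Ann (z - d) n m)).Reachable x y →
      (cut G (Ann z n m)).Reachable (x + d) (y + d) := by
    intro x y h
    rw [SimpleGraph.reachable_iff_reflTransGen] at h ⊢
    refine h.lift (fun x => x + d) ?_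
    rintro a b ⟨k1, ⟨k2, k2'⟩, ⟨k3, k3'⟩⟩
    have e : ∀ x : V, x - (z - d) = x + d - z := fun x => by abel
    rw [e] at k2 k2' k3 k3'
    exact ⟨k1, ⟨k2, k2'⟩, ⟨k3, k3'⟩⟩
  refine ⟨u - d, v - d, u' - d, v' - d, ?_, ?_, ?_, ?_, key h5, key h6, fun h => h7 ?_⟩
  · rwa [sub_sub_sub_cancel_right]
  · rwa [sub_sub_sub_cancel_right]
  · rwa [sub_sub_sub_cancel_right]
  · rwa [sub_sub_sub_cancel_right]
  · have h8 := key' h
    rwa [sub_add_cancel, sub_add_cancel] at h8

private theorem mxg_shift (d : V) {w : Lab} (h : w ∈ MxG a b z n m) :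
    (fun v => w (v + d)) ∈ MxG a b (z - d) n m := by
  obtain ⟨G, h1, h2, h3⟩ := h
  refine ⟨G.comap (fun x => x + d), ?_, ?_, fg_tr d h3⟩
  · rintro x y ⟨k1, k2, k3⟩
    exact h1 ⟨(isAut_tr d x y).2 k1, k2, k3⟩
  · intro x y k
    obtain ⟨k1, k2, k3⟩ := h2 (show G.Adj (x + d) (y + d) from k)
    exact ⟨(isAut_tr d x y).1 k1, k2, k3⟩

theorem fg_switch (hG : G ≤ EG univ) (hH : H ≤ EG univ) (huv : Adj u v)
    (hGH : ∀ x y, ¬ (x = u ∧ y = v) → ¬ (x = v ∧ y = u) → (G.Adj x y ↔ H.Adj x y))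
    (h : FourG G z n m) (h' : ¬ FourG H z n m) (hr : 2 ≤ r) (h1 : n + r ≤ nrm (u - z))
    (h2 : nrm (u - z) + r ≤ m) : FourG G u 1 r := by
  obtain ⟨a, b, a', b', ha, hb, ha', hb', hab, hab', hn⟩ := h
  by_cases hg : G.Adj u v
  · by_cases hh : H.Adj u v
    · exfalso
      apply h'
      have hGH' : G = H := by
        ext x y
        by_cases k1 : x = u ∧ y = v
        · rw [k1.1, k1.2]
          exact ⟨fun _ => hh, fun _ => hg⟩
        · by_cases k2 : x = v ∧ y = u
          · rw [k2.1, k2.2]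
            exact ⟨fun _ => hh.symm, fun _ => hg.symm⟩
          · exact hGH x y k1 k2
      rw [← hGH']
      exact ⟨a, b, a', b', ha, hb, ha', hb', hab, hab', hn⟩
    · have hle : H ≤ G := by
        intro x y hxy
        refine (hGH x y ?_ ?_).2 hxy
        · rintro ⟨rfl, rfl⟩
          exact hh hxy
        · rintro ⟨rfl, rfl⟩
          exact hh hxy.symm
      have hK : ∀ x y, (cut G (Ann z n m)).Adj x y → (cut H (Ann z n m)).Adj x y ∨
          (x = u ∧ y = v) ∨ (x = v ∧ y = u) := by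
        rintro x y ⟨k1, k2, k3⟩
        by_cases e1 : x = u ∧ y = v
        · exact Or.inr (Or.inl e1)
        · by_cases e2 : x = v ∧ y = u
          · exact Or.inr (Or.inr e2)
          · exact Or.inl ⟨(hGH x y e1 e2).1 k1, k2, k3⟩
      have hcon : FourG G u 1 r ↔ FourG H u 1 r := by
        refine fg_congr fun x hx y hy => hGH x y ?_ ?_
        · rintro ⟨rfl, -⟩
          have := hx.1
          rw [nrm_self] at this
          omega
        · rintro ⟨-, rfl⟩
          have := hy.1
          rw [nrm_self] at this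
          omega
      have key : ∀ a b : V, nrm (a - z) ≤ n → m ≤ nrm (b - z) →
          (cut G (Ann z n m)).Reachable a b → ¬ (cut H (Ann z n m)).Reachable a b →
          FourG G u 1 r := by
        intro a b ha hb hab hnab
        rw [hcon]
        rcases reach_edge hK hab with k | ⟨k1, k2⟩ | ⟨k1, k2⟩
        · exact absurd k hnab
        · exact fg_two hH huv hr h1 h2 (fun k => hnab (k1.trans (k.trans k2))) k1.symm k2
            (Or.inl ha) (Or.inr hb)
        · exact fg_two hH huv hr h1 h2 (fun k => hnab (k1.trans (k.symm.trans k2))) k2 k1.symm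
            (Or.inr hb) (Or.inl ha)
      by_cases e1 : (cut H (Ann z n m)).Reachable a b
      · by_cases e2 : (cut H (Ann z n m)).Reachable a' b'
        · exact absurd ⟨a, b, a', b', ha, hb, ha', hb', e1, e2,
            fun k => hn (k.mono (cut_mono hle subset_rfl))⟩ h'
        · exact key a' b' ha' hb' hab' e2
      · exact key a b ha hb hab e1
  · have hle : G ≤ H := by
      intro x y hxy
      refine (hGH x y ?_ ?_).1 hxy
      · rintro ⟨rfl, rfl⟩
        exact hg hxy
      · rintro ⟨rfl, rfl⟩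
        exact hg hxy.symm
    have hK : ∀ x y, (cut H (Ann z n m)).Adj x y → (cut G (Ann z n m)).Adj x y ∨
        (x = u ∧ y = v) ∨ (x = v ∧ y = u) := by
      rintro x y ⟨k1, k2, k3⟩
      by_cases e1 : x = u ∧ y = v
      · exact Or.inr (Or.inl e1)
      · by_cases e2 : x = v ∧ y = u
        · exact Or.inr (Or.inr e2)
        · exact Or.inl ⟨(hGH x y e1 e2).2 k1, k2, k3⟩
    have haa : (cut H (Ann z n m)).Reachable a a' := by
      by_contra hcon
      exact h' ⟨a, b, a', b', ha, hb, ha', hb', hab.mono (cut_mono hle subset_rfl),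
        hab'.mono (cut_mono hle subset_rfl), hcon⟩
    rcases reach_edge hK haa with k | ⟨k1, k2⟩ | ⟨k1, k2⟩
    · exact absurd k hn
    · exact fg_two hG huv hr h1 h2 (fun k => hn (k1.trans (k.trans k2))) (k1.symm.trans hab)
        (k2.trans hab') (Or.inr hb) (Or.inr hb')
    · exact fg_two hG huv hr h1 h2 (fun k => hn (k1.trans (k.symm.trans k2))) (k2.trans hab')
        (k1.symm.trans hab) (Or.inr hb') (Or.inr hb)

theorem ev_mxg (hab : a ≤ b) (z : V) (n m : ℤ) : Ev (Ann z n m) (MxG a b z n m) := by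
  classical
  refine ev_of_fin (finite_ann z n m) {a, b} fun w w' hw ⟨G, h1, h2, h3⟩ => ?_
  have ha := hw a (Finset.mem_insert_self a _)
  have hb := hw b (Finset.mem_insert_of_mem (Finset.mem_singleton_self b))
  have ha' : ∀ x ∈ Ann z n m, x ∈ Op a w' → x ∈ Op a w := by
    intro x hx hx'
    have : x ∈ Op a w' ∩ Ann z n m := ⟨hx', hx⟩
    rw [← ha] at this
    exact this.1
  have hb' : ∀ x ∈ Ann z n m, x ∈ Op b w → x ∈ Op b w' := by
    intro x hx hx'
    have : x ∈ Op b w ∩ Ann z n m := ⟨hx', hx⟩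
    rw [hb] at this
    exact this.1
  refine ⟨cut G (Ann z n m) ⊔ EG (Op a w'), le_sup_right, sup_le ?_ (eg_mono (op_mono hab w')),
    (fg_congr fun x hx y hy => ?_).1 h3⟩
  · rintro x y ⟨k1, k2, k3⟩
    obtain ⟨k4, k5, k6⟩ := h2 k1
    exact ⟨k4, hb' x k2 k5, hb' y k3 k6⟩
  · rw [SimpleGraph.sup_adj]
    constructor
    · intro k
      exact Or.inl ⟨k, hx, hy⟩
    · rintro (k | k)
      · exact k.1
      · exact h1 ⟨k.1, ha' x hx k.2.1, ha' y hy k.2.2⟩

theorem mxg_tr (a b : ℝ) (z : V) (n m : ℤ) : P (MxG a b z n m) = P (MxG a b 0 n m) := by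
  let e : Lab ≃ᵐ Lab :=
    { toFun := fun w v => w (tr z v)
      invFun := fun w v => w ((tr z).symm v)
      left_inv := fun w => by
        funext v
        exact congrArg w (Equiv.apply_symm_apply _ _)
      right_inv := fun w => by
        funext v
        exact congrArg w (Equiv.symm_apply_apply _ _)
      measurable_toFun := (mp_comp (tr z)).measurable
      measurable_invFun := (mp_comp (tr z).symm).measurable }
  have hset : MxG a b z n m = e ⁻¹' MxG a b 0 n m := by
    ext w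
    constructor
    · intro h
      have h1 := mxg_shift z h
      rw [sub_self] at h1
      exact h1
    · intro h
      have h1 : (fun v => w (v + z)) ∈ MxG a b 0 n m := h
      have h2 := mxg_shift (-z) h1
      simp only [neg_add_cancel_right, sub_neg_eq_add, zero_add] at h2
      exact h2
  rw [hset]
  exact MeasurePreserving.measure_preimage_equiv (f := e) (mp_comp (tr z)) _

theorem mxg_mono (ha : a' ≤ a) (hb : b ≤ b') : MxG a b z n m ⊆ MxG a' b' z n m :=
  fun w ⟨G, h1, h2, h3⟩ => ⟨G, (eg_mono (op_mono ha w)).trans h1, h2.trans (eg_mono (op_mono hb w)),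
    h3⟩

theorem mxg_sub (hn : n ≤ n') (hnm : n' < m') (hm : m' ≤ m) :
    MxG a b z n m ⊆ MxG a b z n' m' :=
  fun _ ⟨G, h1, h2, h3⟩ => ⟨G, h1, h2, fg_sub (h2.trans (eg_mono (subset_univ _))) hn hnm hm h3⟩

theorem mxg_centre (hd : nrm (z' - z) ≤ d) (hnm : n + d < m - d) :
    MxG a b z n m ⊆ MxG a b z' (n + d) (m - d) :=
  fun _ ⟨G, h1, h2, h3⟩ => ⟨G, h1, h2, fg_centre (h2.trans (eg_mono (subset_univ _))) hd hnm h3⟩

theorem four_mxg (ha : a ≤ p) (hb : p ≤ b) (hnm : n < m) :
    {w | Four (Op p w) z n m} ⊆ MxG a b z n m :=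
  fun w h => ⟨EG (Op p w), eg_mono (op_mono ha w), eg_mono (op_mono hb w), fg_of_four hnm h⟩

/-- The version with intermediate sets of VERTICES is contained in the version with edges. -/
theorem mxg_of_set {w : Lab} (hnm : n < m) (ha : Op a w ⊆ S) (hb : S ⊆ Op b w)
    (h : Four S z n m) : w ∈ MxG a b z n m :=
  ⟨EG S, eg_mono ha, eg_mono hb, fg_of_four hnm h⟩

/-- Probability of mixed four arms across `Ann 0 n m`. -/
noncomputable def yf (a b : ℝ) (n m : ℤ) : ℝ := (P (MxG a b 0 n m)).toReal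

theorem yf_nonneg : 0 ≤ yf a b n m := ENNReal.toReal_nonneg

private theorem tm {A B : Set Lab} (h : A ⊆ B) : (P A).toReal ≤ (P B).toReal :=
  ENNReal.toReal_mono (measure_ne_top P B) (measure_mono h)

theorem yf_le_one : yf a b n m ≤ 1 := by
  have h := tm (A := MxG a b 0 n m) (subset_univ _)
  rwa [measure_univ, ENNReal.toReal_one] at h

theorem xf_le_yf (ha : a ≤ p) (hb : p ≤ b) (hnm : n < m) : xf p n m ≤ yf a b n m :=
  tm (four_mxg ha hb hnm)

theorem yf_mono (ha : a' ≤ a) (hb : b ≤ b') : yf a b n m ≤ yf a' b' n m := tm (mxg_mono ha hb)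

theorem yf_anti (hn : n ≤ n') (hnm : n' < m') (hm : m' ≤ m) : yf a b n m ≤ yf a b n' m' :=
  tm (mxg_sub hn hnm hm)

end Pool.Agent.TriPerc
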