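import Pool.Agent.TriPerc.Four
import Mathlib.Combinatorics.SimpleGraph.Connectivity.Connected

/-!
# Four arms of a graph (sets of EDGES)

`EG S`: the graph of the lattice edges with both ends in `S`.  `cut G D`: the edges of `G` with both
ends in `D`.  `FourG G z n m`: two crossings of the annulus by paths of `cut G (Ann z n m)` in
different components.

Throughout, `G ≤ EG univ` means that `G` consists of lattice edges, so a step changes `nrm` by at
most one (`nrm_adj`).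

* `cut_eg`: `cut (EG S) D = EG (S ∩ D)`.  `reach_eg`: for `u ∈ S`, `u` and `v` are joined in
  `EG S` iff `Conn S u v`.
* `fg_of_reach`: the analogue of `four_of_conn`: if `u ~ v`, `u' ~ v'` in `cut G D`, not `u ~ u'`,
  `nrm (u - z) ≤ n`, `m ≤ nrm (v - z)`, the same for `u'`, `v'`, `n < m`, `Ann z n m ⊆ D`,
  `G ≤ EG univ`, then `FourG G z n m`.  PROOF.  Claim: if `u ~ v` in `cut G D`,
  `nrm (u - z) ≤ n < m ≤ nrm (v - z)`, then there are `x, y` with `nrm (x - z) = n`,
  `nrm (y - z) = m`, `u ~ x` in `cut G D` and `x ~ y` in `cut G (Ann z n m)`.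
  Proof of the claim by induction on the path (`Relation.ReflTransGen` via
  `SimpleGraph.reachable_iff_reflTransGen`), more generally: if `u ~ v` in `cut G D`,
  `nrm (u - z) ≤ n`, `n ≤ nrm (v - z)`, then there is `x` with `nrm (x - z) = n`, `u ~ x` in `cut G D`
  and either `x ~ v` in `cut G (Ann z n m)` or there is `y` with `nrm (y - z) = m` and
  `x ~ y` in `cut G (Ann z n m)` (last step `v1 → v`: if `nrm (v1 - z) < n`, then
  `nrm (v - z) = n` and `x = v`; if `n ≤ nrm (v1 - z)`, use the induction hypothesis for `v1`: in the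
  second case nothing is to do; in the first case, if `v1` has norm `≥ m` then `v1 ≠ x`, so `v1` is
  an end of an edge inside the annulus and its norm is `m`, take `y = v1`; otherwise `v1` and `v`
  are both in the annulus).
  For the end point: `x ~ v` in `cut G (Ann z n m)` and `v ≠ x` (norms) imply `v ∈ Ann z n m`, so
  `nrm (v - z) = m`.  Then `x ~ y`, `x' ~ y'` in `cut G (Ann z n m)`, and `x ~ x'` in
  `cut G (Ann z n m) ≤ cut G D` would give `u ~ u'`.
* `fg_sub`, `fg_centre`: from `fg_of_reach` with `D = Ann z n m` (triangle inequality `nrm_add`,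
  `nrm_neg` for `fg_centre`).
* `fg_congr`: only the edges inside the annulus matter.
* `fg_of_four`, `four_of_fg`: comparison with `Four` for `n < m` (`cut_eg`, `reach_eg`; in
  `four_of_fg` the points `u ≠ v` are joined in `cut G (Ann z n m) = EG (S ∩ Ann z n m)`, so
  `u ∈ S ∩ Ann z n m`; the same for `u'`).
-/

namespace Pool.Agent.TriPerc

open MeasureTheory Set

/-- The graph of the lattice edges with both ends in `S`. -/
def EG (S : Set V) : SimpleGraph V where
  Adj u v := Adj u v ∧ u ∈ S ∧ v ∈ S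
  symm := ⟨fun _ _ h => ⟨h.1.symm, h.2.2, h.2.1⟩⟩
  loopless := ⟨fun _ h => h.1.ne rfl⟩

/-- The edges of `G` with both ends in `D`. -/
def cut (G : SimpleGraph V) (D : Set V) : SimpleGraph V where
  Adj u v := G.Adj u v ∧ u ∈ D ∧ v ∈ D
  symm := ⟨fun _ _ h => ⟨h.1.symm, h.2.2, h.2.1⟩⟩
  loopless := ⟨fun _ h => h.1.ne rfl⟩

/-- Two crossings of the annulus by paths of `G` in different components of
`cut G (Ann z n m)`. -/
def FourG (G : SimpleGraph V) (z : V) (n m : ℤ) : Prop :=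
  ∃ u v u' v', nrm (u - z) ≤ n ∧ m ≤ nrm (v - z) ∧ nrm (u' - z) ≤ n ∧ m ≤ nrm (v' - z) ∧
    (cut G (Ann z n m)).Reachable u v ∧ (cut G (Ann z n m)).Reachable u' v' ∧
    ¬ (cut G (Ann z n m)).Reachable u u'

variable {S T D : Set V} {G H : SimpleGraph V} {z z' u v u' v' x y : V} {n m n' m' d r : ℤ}

theorem eg_mono (h : S ⊆ T) : EG S ≤ EG T := fun _ _ k => ⟨k.1, h k.2.1, h k.2.2⟩

theorem cut_le : cut G D ≤ G := fun _ _ k => k.1

theorem cut_mono (h : G ≤ H) (h' : S ⊆ T) : cut G S ≤ cut H T :=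
  fun _ _ k => ⟨h k.1, h' k.2.1, h' k.2.2⟩

theorem cut_eg : cut (EG S) D = EG (S ∩ D) := by
  ext a b
  change ((Adj a b ∧ a ∈ S ∧ b ∈ S) ∧ a ∈ D ∧ b ∈ D) ↔ (Adj a b ∧ (a ∈ S ∧ a ∈ D) ∧ b ∈ S ∧ b ∈ D)
  tauto

theorem reach_eg (hu : u ∈ S) : (EG S).Reachable u v ↔ Conn S u v := by
  rw [SimpleGraph.reachable_iff_reflTransGen]
  constructor
  · intro h
    exact ⟨hu, h.lift id fun a b k => ⟨k.1, k.2.2⟩⟩
  · rintro ⟨-, h⟩
    have key : u ∈ S ∧ Relation.ReflTransGen (EG S).Adj u v ∧ v ∈ S := by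
      induction h with
      | refl => exact ⟨hu, Relation.ReflTransGen.refl, hu⟩
      | tail _ hbc ih => exact ⟨hu, ih.2.1.tail ⟨hbc.1, ih.2.2, hbc.2⟩, hbc.2⟩
    exact key.2.1

private theorem end_mem (h : Relation.ReflTransGen (cut G D).Adj x y) (hxy : x ≠ y) : y ∈ D := by
  rcases h.cases_tail with h1 | ⟨c, -, hc⟩
  · exact absurd h1.symm hxy
  · exact hc.2.2

private theorem step_nrm (hG : G ≤ EG univ) (h : G.Adj x y) (z : V) :
    |nrm (y - z) - nrm (x - z)| ≤ 1 := nrm_adj (hG h).1 z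

private theorem key1 (hG : G ≤ EG univ) (hu : nrm (u - z) ≤ n)
    (h : Relation.ReflTransGen (cut G D).Adj u v) (hnm : n < m) : n ≤ nrm (v - z) →
    ∃ x, nrm (x - z) = n ∧ Relation.ReflTransGen (cut G D).Adj u x ∧
      (Relation.ReflTransGen (cut G (Ann z n m)).Adj x v ∨
        ∃ y, nrm (y - z) = m ∧ Relation.ReflTransGen (cut G (Ann z n m)).Adj x y) := by
  induction h with
  | refl =>
    intro hv
    exact ⟨u, le_antisymm hu hv, Relation.ReflTransGen.refl, Or.inl Relation.ReflTransGen.refl⟩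
  | @tail v1 v h1 h2 ih =>
    intro hv
    have hs := abs_le.1 (step_nrm hG h2.1 z)
    by_cases hlt : nrm (v1 - z) < n
    · exact ⟨v, by omega, h1.tail h2, Or.inl Relation.ReflTransGen.refl⟩
    obtain ⟨x, hx, hux, hr | hr⟩ := ih (not_lt.1 hlt)
    · by_cases hm : m ≤ nrm (v1 - z)
      · have hne : x ≠ v1 := by
          rintro rfl
          omega
        have h3 := (end_mem hr hne).2
        exact ⟨x, hx, hux, Or.inr ⟨v1, le_antisymm h3 hm, hr⟩⟩
      · refine ⟨x, hx, hux, Or.inl (hr.tail ⟨h2.1, ⟨?_, ?_⟩, ⟨?_, ?_⟩⟩)⟩ <;> omega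
    · exact ⟨x, hx, hux, Or.inr hr⟩

private theorem key2 (hG : G ≤ EG univ) (hu : nrm (u - z) ≤ n) (hv : m ≤ nrm (v - z))
    (h : (cut G D).Reachable u v) (hnm : n < m) :
    ∃ x y, nrm (x - z) = n ∧ nrm (y - z) = m ∧ (cut G D).Reachable u x ∧
      (cut G (Ann z n m)).Reachable x y := by
  rw [SimpleGraph.reachable_iff_reflTransGen] at h
  obtain ⟨x, hx, hux, hr | ⟨y, hy, hr⟩⟩ := key1 hG hu h hnm (by omega)
  · have hne : x ≠ v := by
      rintro rfl
      omega
    have h3 := (end_mem hr hne).2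
    exact ⟨x, v, hx, le_antisymm h3 hv, (SimpleGraph.reachable_iff_reflTransGen _ _).2 hux,
      (SimpleGraph.reachable_iff_reflTransGen _ _).2 hr⟩
  · exact ⟨x, y, hx, hy, (SimpleGraph.reachable_iff_reflTransGen _ _).2 hux,
      (SimpleGraph.reachable_iff_reflTransGen _ _).2 hr⟩

theorem fg_of_reach (hG : G ≤ EG univ) (h : (cut G D).Reachable u v)
    (h' : (cut G D).Reachable u' v') (hn : ¬ (cut G D).Reachable u u') (hu : nrm (u - z) ≤ n)
    (hv : m ≤ nrm (v - z)) (hu' : nrm (u' - z) ≤ n) (hv' : m ≤ nrm (v' - z)) (hnm : n < m)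
    (hD : Ann z n m ⊆ D) : FourG G z n m := by
  obtain ⟨x, y, hx, hy, hux, hxy⟩ := key2 hG hu hv h hnm
  obtain ⟨x', y', hx', hy', hux', hxy'⟩ := key2 hG hu' hv' h' hnm
  refine ⟨x, y, x', y', hx.le, hy.ge, hx'.le, hy'.ge, hxy, hxy', fun hc => hn ?_⟩
  exact hux.trans ((hc.mono (cut_mono le_rfl hD)).trans hux'.symm)

private theorem cut_congr (h : ∀ x ∈ D, ∀ y ∈ D, G.Adj x y ↔ H.Adj x y) : cut G D = cut H D := by
  ext a b
  change (G.Adj a b ∧ a ∈ D ∧ b ∈ D) ↔ (H.Adj a b ∧ a ∈ D ∧ b ∈ D)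
  constructor
  · rintro ⟨h1, h2, h3⟩
    exact ⟨(h a h2 b h3).1 h1, h2, h3⟩
  · rintro ⟨h1, h2, h3⟩
    exact ⟨(h a h2 b h3).2 h1, h2, h3⟩

theorem fg_congr (h : ∀ x ∈ Ann z n m, ∀ y ∈ Ann z n m, G.Adj x y ↔ H.Adj x y) :
    FourG G z n m ↔ FourG H z n m := by
  unfold FourG
  rw [cut_congr h]

theorem fg_sub (hG : G ≤ EG univ) (hn : n ≤ n') (hnm : n' < m') (hm : m' ≤ m)
    (h : FourG G z n m) : FourG G z n' m' := by
  obtain ⟨u, v, u', v', hu, hv, hu', hv', h1, h2, h3⟩ := h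
  exact fg_of_reach hG h1 h2 h3 (hu.trans hn) (hm.trans hv) (hu'.trans hn) (hm.trans hv') hnm
    fun w hw => ⟨hn.trans hw.1, hw.2.trans hm⟩

theorem fg_centre (hG : G ≤ EG univ) (hd : nrm (z' - z) ≤ d) (hnm : n + d < m - d)
    (h : FourG G z n m) : FourG G z' (n + d) (m - d) := by
  obtain ⟨u, v, u', v', hu, hv, hu', hv', h1, h2, h3⟩ := h
  have hz : nrm (z - z') = nrm (z' - z) := by rw [← nrm_neg, neg_sub]
  have key : ∀ w, nrm (w - z') ≤ nrm (w - z) + d ∧ nrm (w - z) ≤ nrm (w - z') + d := by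
    intro w
    have k1 := nrm_add (w - z) (z - z')
    rw [sub_add_sub_cancel] at k1
    have k2 := nrm_add (w - z') (z' - z)
    rw [sub_add_sub_cancel] at k2
    constructor <;> omega
  refine fg_of_reach hG h1 h2 h3 ?_ ?_ ?_ ?_ hnm fun w hw => ?_
  · have := (key u).1
    omega
  · have := (key v).2
    omega
  · have := (key u').1
    omega
  · have := (key v').2
    omega
  · have k1 := key w
    have k2 := hw.1
    have k3 := hw.2
    exact ⟨by omega, by omega⟩

theorem fg_of_four (hnm : n < m) (h : Four S z n m) : FourG (EG S) z n m := by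
  obtain ⟨u, v, u', v', hu, hv, hu', hv', h1, h2, h3⟩ := h
  refine ⟨u, v, u', v', hu, hv, hu', hv', ?_, ?_, ?_⟩
  · rw [cut_eg, reach_eg h1.1]
    exact h1
  · rw [cut_eg, reach_eg h2.1]
    exact h2
  · rw [cut_eg, reach_eg h1.1]
    exact h3

private theorem start_mem (h : (EG S).Reachable u v) (huv : u ≠ v) : u ∈ S := by
  rw [SimpleGraph.reachable_iff_reflTransGen] at h
  rcases h.cases_head with h1 | ⟨c, hc, -⟩
  · exact absurd h1 huv
  · exact hc.2.1

theorem four_of_fg (hnm : n < m) (h : FourG G z n m)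
    (hS : ∀ x ∈ Ann z n m, ∀ y ∈ Ann z n m, G.Adj x y ↔ (EG S).Adj x y) : Four S z n m := by
  obtain ⟨u, v, u', v', hu, hv, hu', hv', h1, h2, h3⟩ := h
  rw [cut_congr hS, cut_eg] at h1 h2 h3
  have hne : u ≠ v := by
    rintro rfl
    omega
  have hne' : u' ≠ v' := by
    rintro rfl
    omega
  have k1 := start_mem h1 hne
  have k2 := start_mem h2 hne'
  rw [reach_eg k1] at h1 h3
  rw [reach_eg k2] at h2
  exact ⟨u, v, u', v', hu, hv, hu', hv', h1, h2, h3⟩

end Pool.Agent.TriPerc
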