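import Pool.Agent.TriPerc.Rect

/-!
# Annuli, arms and circuits (deterministic)

`Ann z n m = {n ≤ nrm (v - z) ≤ m}`.  `Arm S z n m`: a path in `S ∩ Ann z n m` from the inner to the
outer boundary.  A circuit in `O` round the inner ball is, by definition, the absence of an arm in
`Oᶜ`; `circ_set` produces a connected set of vertices of `O ∩ Ann` which separates.

* `nrm_rows`: `nrm v` is the maximum of `(rot^k v).2`, `k = 0..5`; these are
  `b, a + b, a, -b, -(a+b), -a` for `v = (a, b)`.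
* `nrm_down`, `nrm_up`: neighbours with smaller / larger norm: if `nrm v = (rot^k v).2` move in the
  direction which changes this row by one and keeps the other two coordinates in range.  By
  rotation (`nrm_rot`) one may assume `v.2 = nrm v > 0` (so `-v.2 ≤ v.1 ≤ 0`); then `(a, b+1)` or
  `(a-1, b+1)` has norm `b + 1`, and one of `(a, b-1)`, `(a+1, b-1)` has norm `b - 1`.  Or a direct
  case analysis with `abs_le`, `max_le_iff`, `omega` on the signs.
* `isConn_out`: `{v | m < nrm (v - z)}` is connected: for `m < 0` it is everything; otherwise it is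
  the union of the six half planes `{v | m < (rot^k (v - z)).2}`, each connected (`isConn_rows` and
  `conn_preimage`), consecutive ones meet (`IsConn.union`).
* `arm_of_conn`: if `Conn S u v`, `nrm (u - z) ≤ n`, `m ≤ nrm (v - z)`, `n ≤ m`, then `Arm S z n m`
  (last exit from `{nrm ≤ n}`: the last vertex `x` has norm exactly `n`, unless `v` itself has norm
  `≤ n`, then `n = m`, one vertex; then first visit of `{nrm ≥ m}`; steps change `nrm` by at most
  one, `nrm_adj`).
* `arm_sub`, `arm_mono`.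
* `circ_set`: let `1 ≤ n ≤ m` and `¬ Arm Oᶜ z n m`.  Then there is `C ⊆ O ∩ Ann z n m`, connected,
  such that no `u` with `nrm (u - z) ≤ n` is joined to a `v` with `m ≤ nrm (v - z)` outside `C`.
  PROOF.  `S = O ∩ Ann z n m` (finite), `x = z`, `y` with `nrm (y - z) = m + 1`.  `x, y ∉ S`.
  `x, y` are not joined outside `S`: a path outside `S` from `x` to `y` would give an arm of
  `Sᶜ` (`arm_of_conn`), and `Sᶜ ∩ Ann = Oᶜ ∩ Ann`.  By `jan_comp` there is `s ∈ S` such that `x, y`
  are not joined outside `C = comp S s`.  Let now `u, v` be joined outside `C`, `nrm (u-z) ≤ n`,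
  `nrm (v - z) ≥ m`.  `u` is joined to `z` outside `C`: `u ∉ C`; if `nrm (u - z) = n` go to a
  neighbour of norm `n - 1` (`nrm_down`); the ball of radius `n - 1` is connected (`isConn_ball`) and
  disjoint from `C`.  Similarly `v` is joined to `y` (`nrm_up`, `isConn_out`).  Contradiction.
* `circ_hit`: a connected set which contains a vertex of norm `≤ n` and a vertex of norm `≥ m`
  meets `C`.
* `circ_circ`: if `C` separates as above in `Ann z n m` and `C'` is a set with the same property for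
  `Ann z n' m'`, `m < n'`, and `S` is connected and meets `Ball z n` and the outside of `Ball z m'`,
  then `C ∪ S ∪ C'` is connected (`circ_hit` twice).
* `six`: let `1 ≤ n < m`.  If for each `k = 0..5` the set `O` has a horizontal crossing of the
  rectangle `Rec (-2 m) (2 m) n m` in the `k`-th rotated frame, i.e.
  `HC ((rot^k) '' ...)`: `HC {v | ((rot^k).symm v) + z ∈ O} (-2 m) (2 m) n m`, then `¬ Arm Oᶜ z n m`.
  PROOF.  Let a path in `Oᶜ ∩ Ann z n m` go from `u` to `v`, `nrm (v - z) = m`.  There is `k` with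
  `(rot^k (v - z)).2 = m` (`nrm_rows`); `(rot^k (u - z)).2 ≤ n`.  Move the path by
  `x ↦ rot^k (x - z)`: it is a path from row `≤ n` to row `m` in the image of `Oᶜ`, and all
  vertices have norm `≤ m`, so `|X| ≤ 2 m`.  `vc_of_conn` gives a vertical crossing of
  `Rec (-2 m) (2 m) n m`; contradiction to `rec_not`.
-/

namespace Pool.Agent.TriPerc

/-- The annulus. -/
def Ann (z : V) (n m : ℤ) : Set V := {v | n ≤ nrm (v - z) ∧ nrm (v - z) ≤ m}

/-- A crossing of the annulus `Ann z n m` by a path in `S`. -/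
def Arm (S : Set V) (z : V) (n m : ℤ) : Prop :=
  Join (S ∩ Ann z n m) {v | nrm (v - z) ≤ n} {v | m ≤ nrm (v - z)}

/-- `rot` iterated, with a translation: the frame number `k` with centre `z`. -/
def fr (z : V) (k : ℕ) : V ≃ V := (tr (-z)).trans (rot ^ k)

variable {S T O : Set V} {z u v : V} {n m n' m' : ℤ}

private theorem isAut_pow (k : ℕ) : IsAut (rot ^ k) := by
  induction k with
  | zero =>
    intro u v
    exact Iff.rfl
  | succ k ih =>
    intro u v
    rw [pow_succ']
    exact (isAut_rot _ _).trans (ih u v)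

private theorem nrm_pow (k : ℕ) (w : V) : nrm ((rot ^ k) w) = nrm w := by
  induction k with
  | zero => rfl
  | succ k ih =>
    rw [pow_succ']
    exact (nrm_rot _).trans ih

private theorem fr_apply (z : V) (k : ℕ) (v : V) : fr z k v = (rot ^ k) (v - z) := by
  rw [sub_eq_add_neg]
  rfl

private theorem fr_succ (z : V) (k : ℕ) (v : V) : fr z (k + 1) v = rot (fr z k v) := by
  rw [fr_apply, fr_apply, pow_succ']
  rfl

private theorem rot_eq (w : V) : rot w = (-w.2, w.1 + w.2) := rfl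

private theorem nrm_le_iff {w : V} : nrm w ≤ n ↔ |w.1| ≤ n ∧ |w.2| ≤ n ∧ |w.1 + w.2| ≤ n := by
  unfold nrm
  rw [max_le_iff, max_le_iff, and_assoc]

theorem isAut_fr (z : V) (k : ℕ) : IsAut (fr z k) :=
  (isAut_tr (-z)).trans (isAut_pow k)

theorem nrm_fr (z : V) (k : ℕ) (v : V) : nrm (fr z k v) = nrm (v - z) := by
  rw [fr_apply, nrm_pow]

theorem nrm_rows (z v : V) : ∃ k < 6, (fr z k v).2 = nrm (v - z) := by
  have e0 : fr z 0 v = v - z := by
    rw [fr_apply]
    rfl
  have e1 := fr_succ z 0 v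
  have e2 := fr_succ z 1 v
  have e3 := fr_succ z 2 v
  have e4 := fr_succ z 3 v
  have e5 := fr_succ z 4 v
  rw [e0] at e1
  generalize v - z = w at *
  rw [rot_eq] at e1 e2 e3 e4 e5
  rw [e1] at e2
  rw [e2] at e3
  rw [e3] at e4
  rw [e4] at e5
  obtain ⟨a, b⟩ := w
  simp only at e1 e2 e3 e4 e5
  have key : nrm (a, b) = b ∨ nrm (a, b) = a + b ∨ nrm (a, b) = a ∨ nrm (a, b) = -b ∨
      nrm (a, b) = -(a + b) ∨ nrm (a, b) = -a := by
    change max (max |a| |b|) |a + b| = b ∨ max (max |a| |b|) |a + b| = a + b ∨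
      max (max |a| |b|) |a + b| = a ∨ max (max |a| |b|) |a + b| = -b ∨
      max (max |a| |b|) |a + b| = -(a + b) ∨ max (max |a| |b|) |a + b| = -a
    rcases max_choice (max |a| |b|) |a + b| with h | h
    · rw [h]
      rcases max_choice |a| |b| with h' | h'
      · rw [h']
        rcases abs_choice a with h'' | h'' <;> rw [h''] <;> simp
      · rw [h']
        rcases abs_choice b with h'' | h'' <;> rw [h''] <;> simp
    · rw [h]
      rcases abs_choice (a + b) with h'' | h'' <;> rw [h''] <;> simp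
  rcases key with h | h | h | h | h | h
  · refine ⟨0, by norm_num, ?_⟩
    rw [e0, h]
  · refine ⟨1, by norm_num, ?_⟩
    rw [e1, h]
  · refine ⟨2, by norm_num, ?_⟩
    rw [e2, h]
    simp
  · refine ⟨3, by norm_num, ?_⟩
    rw [e3, h]
    simp
  · refine ⟨4, by norm_num, ?_⟩
    rw [e4, h]
    simp only
    ring
  · refine ⟨5, by norm_num, ?_⟩
    rw [e5, h]
    simp

theorem row_le_nrm (z v : V) (k : ℕ) : (fr z k v).2 ≤ nrm (v - z) := by
  rw [← nrm_fr z k v]
  have h := (nrm_le_iff.1 (le_refl (nrm (fr z k v)))).2.1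
  exact (le_abs_self _).trans h

theorem X_le_nrm (v : V) : |X v| ≤ 2 * nrm v := by
  obtain ⟨h1, h2, h3⟩ := nrm_le_iff.1 (le_refl (nrm v))
  generalize nrm v = m at *
  unfold X
  simp only [abs_le] at *
  constructor <;> omega

private theorem down0 {w : V} (hw : w.2 = nrm w) (h : 0 < nrm w) :
    ∃ u, Adj w u ∧ nrm u = nrm w - 1 := by
  obtain ⟨h1, h2, h3⟩ := nrm_le_iff.1 (le_refl (nrm w))
  have hlow : ∀ u : V, u.2 = w.2 - 1 → w.2 - 1 ≤ nrm u := by
    intro u hu
    have := (nrm_le_iff.1 (le_refl (nrm u))).2.1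
    have := le_abs_self u.2
    omega
  by_cases hc : -nrm w < w.1
  · refine ⟨(w.1, w.2 - 1), Or.inr (Or.inr (Or.inr (Or.inr (Or.inl ⟨rfl, rfl⟩)))), ?_⟩
    refine le_antisymm ?_ ?_
    · rw [nrm_le_iff]
      generalize nrm w = m at *
      simp only [abs_le] at *
      omega
    · rw [← hw]
      exact hlow _ rfl
  · refine ⟨(w.1 + 1, w.2 - 1), Or.inr (Or.inr (Or.inr (Or.inr (Or.inr ⟨rfl, rfl⟩)))), ?_⟩
    refine le_antisymm ?_ ?_
    · rw [nrm_le_iff]
      generalize nrm w = m at *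
      simp only [abs_le] at *
      omega
    · rw [← hw]
      exact hlow _ rfl

private theorem up0 {w : V} (hw : w.2 = nrm w) : ∃ u, Adj w u ∧ nrm u = nrm w + 1 := by
  obtain ⟨h1, h2, h3⟩ := nrm_le_iff.1 (le_refl (nrm w))
  refine ⟨(w.1, w.2 + 1), Or.inr (Or.inl ⟨rfl, rfl⟩), ?_⟩
  refine le_antisymm ?_ ?_
  · rw [nrm_le_iff]
    generalize nrm w = m at *
    simp only [abs_le] at *
    omega
  · have h4 := (nrm_le_iff.1 (le_refl (nrm ((w.1, w.2 + 1) : V)))).2.1
    have h5 := le_abs_self (w.2 + 1)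
    rw [← hw]
    exact h5.trans h4

theorem nrm_down (h : 0 < nrm (v - z)) : ∃ u, Adj v u ∧ nrm (u - z) = nrm (v - z) - 1 := by
  obtain ⟨k, -, hk⟩ := nrm_rows z v
  rw [← nrm_fr z k v] at h hk
  obtain ⟨u, hu, hu'⟩ := down0 hk h
  refine ⟨(fr z k).symm u, ?_, ?_⟩
  · rw [← isAut_fr z k, Equiv.apply_symm_apply]
    exact hu
  · rw [← nrm_fr z k ((fr z k).symm u), Equiv.apply_symm_apply, hu', nrm_fr]

theorem nrm_up (z v : V) : ∃ u, Adj v u ∧ nrm (u - z) = nrm (v - z) + 1 := by
  obtain ⟨k, -, hk⟩ := nrm_rows z v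
  rw [← nrm_fr z k v] at hk
  obtain ⟨u, hu, hu'⟩ := up0 hk
  refine ⟨(fr z k).symm u, ?_, ?_⟩
  · rw [← isAut_fr z k, Equiv.apply_symm_apply]
    exact hu
  · rw [← nrm_fr z k ((fr z k).symm u), Equiv.apply_symm_apply, hu', nrm_fr]

private theorem isConn_half (m : ℤ) : IsConn {w : V | m < w.2} := by
  refine isConn_rows (fun a a' b c h _ _ _ => h) fun u hu v _ _ => ?_
  refine ⟨u, hu, (u.1, u.2 + 1), ?_, rfl, rfl, Or.inr (Or.inl ⟨rfl, rfl⟩)⟩
  have hu' : m < u.2 := hu
  change m < u.2 + 1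
  omega

theorem isConn_out (z : V) (m : ℤ) : IsConn {v : V | m < nrm (v - z)} := by
  have hH : ∀ k a b, m < (fr z k a).2 → m < (fr z k b).2 →
      Conn {v : V | m < nrm (v - z)} a b := by
    intro k a b ha hb
    have h1 := isConn_half m (fr z k a) ha (fr z k b) hb
    rw [← conn_preimage (isAut_fr z k)] at h1
    exact h1.mono fun w hw => lt_of_lt_of_le hw (row_le_nrm z w k)
  obtain ⟨p, hp⟩ : ∃ p : ℕ → V, ∀ k, fr z k (p k) = (0, m + 1) :=
    ⟨fun k => (fr z k).symm (0, m + 1), fun k => Equiv.apply_symm_apply _ _⟩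
  have hp0 : ∀ k, m < (fr z k (p k)).2 := by
    intro k
    rw [hp]
    exact lt_add_one m
  have hp1 : ∀ k, m < (fr z (k + 1) (p k)).2 := by
    intro k
    rw [fr_succ, hp]
    change m < 0 + (m + 1)
    omega
  have hall : ∀ k, Conn {v : V | m < nrm (v - z)} (p 0) (p k) := by
    intro k
    induction k with
    | zero => exact hH 0 _ _ (hp0 0) (hp0 0)
    | succ k ih => exact ih.trans (hH (k + 1) _ _ (hp1 k) (hp0 (k + 1)))
  intro a ha b hb
  obtain ⟨i, -, hi⟩ := nrm_rows z a
  obtain ⟨j, -, hj⟩ := nrm_rows z b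
  have ha' : m < (fr z i a).2 := by
    rw [hi]
    exact ha
  have hb' : m < (fr z j b).2 := by
    rw [hj]
    exact hb
  exact (hH i a (p i) ha' (hp0 i)).trans ((hall i).symm.trans ((hall j).trans
    (hH j (p j) b (hp0 j) hb')))

theorem finite_ann (z : V) (n m : ℤ) : (Ann z n m).Finite :=
  (finite_ball z m).subset fun _ hv => hv.2

theorem arm_of_conn (h : Conn S u v) (hu : nrm (u - z) ≤ n) (hv : m ≤ nrm (v - z))
    (hnm : n ≤ m) : Arm S z n m := by
  by_cases h1 : nrm (v - z) ≤ n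
  · exact ⟨v, h1, v, hv, Conn.refl ⟨h.right, by omega, by omega⟩⟩
  · obtain ⟨x, y, hx, hy, hxy, hux, hyv⟩ := h.last (A := {w | nrm (w - z) ≤ n}) hu h1
    have hx' : nrm (x - z) ≤ n := hx
    have hy' : ¬ nrm (y - z) ≤ n := hy
    have h2 := abs_le.1 (nrm_adj hxy z)
    have hxn : nrm (x - z) = n := by omega
    have hyn : nrm (y - z) = n + 1 := by omega
    by_cases h3 : m ≤ n
    · exact ⟨x, hx, x, by change m ≤ nrm (x - z); omega,
        Conn.refl ⟨hux.right, by omega, by omega⟩⟩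
    · have hxA : x ∈ S ∩ Ann z n m := ⟨hux.right, by omega, by omega⟩
      have hyA : y ∈ S ∩ Ann z n m := ⟨hyv.left.1, by omega, by omega⟩
      have hxy' : Conn (S ∩ Ann z n m) x y := Conn.of_adj hxA hyA hxy
      by_cases h4 : m ≤ nrm (y - z)
      · exact ⟨x, hx, y, h4, hxy'⟩
      · obtain ⟨x2, y2, k1, k2, k3, k4, k5⟩ := hyv.exit (A := {w | nrm (w - z) < m})
          (by change nrm (y - z) < m; omega) (by change ¬ nrm (v - z) < m; omega)
        have k1' : nrm (x2 - z) < m := k1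
        have k2' : ¬ nrm (y2 - z) < m := k2
        have k6 := abs_le.1 (nrm_adj k3 z)
        have k7 : ¬ nrm (x2 - z) ≤ n := k4.right.1.2
        have hy2A : y2 ∈ S ∩ Ann z n m := ⟨k5.left.1, by omega, by omega⟩
        have hx2 : Conn (S ∩ Ann z n m) y x2 := by
          refine k4.mono ?_
          rintro w ⟨⟨w1, w2⟩, w3⟩
          have w2' : ¬ nrm (w - z) ≤ n := w2
          have w3' : nrm (w - z) < m := w3
          exact ⟨w1, by omega, by omega⟩
        exact ⟨x, hx, y2, by change m ≤ nrm (y2 - z); omega,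
          hxy'.trans (hx2.trans (Conn.of_adj hx2.right hy2A k3))⟩

theorem arm_mono (hST : S ⊆ T) (h : Arm S z n m) : Arm T z n m :=
  Join.mono h (Set.inter_subset_inter_left _ hST) subset_rfl subset_rfl

theorem arm_sub (hn : n ≤ n') (hm : m' ≤ m) (hnm : n' ≤ m') (h : Arm S z n m) :
    Arm S z n' m' := by
  obtain ⟨u, hu, v, hv, h⟩ := h
  have hu' : nrm (u - z) ≤ n := hu
  have hv' : m ≤ nrm (v - z) := hv
  exact arm_of_conn (h.mono Set.inter_subset_left) (by omega) (by omega) hnm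

/-- The centre may be moved. -/
theorem arm_centre {z' : V} {d : ℤ} (hd : nrm (z' - z) ≤ d) (hnm : n + d ≤ m - d)
    (h : Arm S z n m) : Arm S z' (n + d) (m - d) := by
  obtain ⟨u, hu, v, hv, h⟩ := h
  have hu' : nrm (u - z) ≤ n := hu
  have hv' : m ≤ nrm (v - z) := hv
  have h1 := nrm_add (u - z) (z - z')
  rw [sub_add_sub_cancel] at h1
  have h2 : nrm (z - z') = nrm (z' - z) := by
    rw [← nrm_neg, neg_sub]
  have h3 := nrm_add (v - z') (z' - z)
  rw [sub_add_sub_cancel] at h3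
  exact arm_of_conn (h.mono Set.inter_subset_left) (by omega) (by omega) hnm

theorem circ_set (hn : 1 ≤ n) (hnm : n ≤ m) (h : ¬ Arm Oᶜ z n m) :
    ∃ C : Set V, C ⊆ O ∩ Ann z n m ∧ C.Nonempty ∧ IsConn C ∧
      ∀ u v, nrm (u - z) ≤ n → m ≤ nrm (v - z) → ¬ Conn Cᶜ u v := by
  have hzz : nrm (z - z) = 0 := by
    rw [sub_self]
    exact nrm_zero_iff.2 rfl
  obtain ⟨y, hy⟩ : ∃ y : V, nrm (y - z) = m + 1 := by
    refine ⟨z + (0, m + 1), ?_⟩
    rw [add_sub_cancel_left]
    change max (max |(0 : ℤ)| |m + 1|) |0 + (m + 1)| = m + 1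
    rw [zero_add, abs_of_nonneg (by omega : (0 : ℤ) ≤ m + 1), abs_zero,
      max_eq_right (by omega : (0 : ℤ) ≤ m + 1), max_self]
  have hxS : z ∉ O ∩ Ann z n m := by
    rintro ⟨-, h1, -⟩
    omega
  have hyS : y ∉ O ∩ Ann z n m := by
    rintro ⟨-, -, h1⟩
    omega
  have hno : ¬ Conn (O ∩ Ann z n m)ᶜ z y := by
    intro h1
    apply h
    have h2 := arm_of_conn (z := z) (n := n) (m := m) h1 (by omega) (by omega) hnm
    refine Join.mono h2 ?_ subset_rfl subset_rfl
    rintro w ⟨w1, w2⟩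
    exact ⟨fun w3 => w1 ⟨w3, w2⟩, w2⟩
  obtain ⟨s, hs, hsep⟩ := jan_comp _ ((finite_ann z n m).subset Set.inter_subset_right) z y
    hxS hyS hno
  have hCA : ∀ w ∈ comp (O ∩ Ann z n m) s, n ≤ nrm (w - z) ∧ nrm (w - z) ≤ m :=
    fun w hw => (comp_subset hw).2
  refine ⟨comp (O ∩ Ann z n m) s, comp_subset, ⟨s, Conn.refl hs⟩, isConn_comp, ?_⟩
  intro u v hu hv huv
  apply hsep
  have h1 : Conn (comp (O ∩ Ann z n m) s)ᶜ u z := by
    have hball : ∀ w, nrm (w - z) ≤ n - 1 → Conn (comp (O ∩ Ann z n m) s)ᶜ w z := by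
      intro w hw
      refine (isConn_ball z (n - 1) w hw z ?_).mono ?_
      · change nrm (z - z) ≤ n - 1
        omega
      · intro x hx hx'
        have hx1 : nrm (x - z) ≤ n - 1 := hx
        have := (hCA x hx').1
        omega
    by_cases h2 : nrm (u - z) = n
    · obtain ⟨u', hu', hu''⟩ := nrm_down (z := z) (v := u) (by omega)
      have h3 := hball u' (by omega)
      exact (Conn.of_adj huv.left h3.left hu').trans h3
    · exact hball u (by omega)
  have h2 : Conn (comp (O ∩ Ann z n m) s)ᶜ v y := by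
    have hout : ∀ w, m < nrm (w - z) → Conn (comp (O ∩ Ann z n m) s)ᶜ w y := by
      intro w hw
      refine (isConn_out z m w hw y ?_).mono ?_
      · change m < nrm (y - z)
        omega
      · intro x hx hx'
        have hx1 : m < nrm (x - z) := hx
        have := (hCA x hx').2
        omega
    by_cases h2 : nrm (v - z) = m
    · obtain ⟨v', hv', hv''⟩ := nrm_up z v
      have h3 := hout v' (by omega)
      exact (Conn.of_adj huv.right h3.left hv').trans h3
    · exact hout v (by omega)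
  exact h1.symm.trans (huv.trans h2)

theorem circ_hit {C : Set V} (hC : ∀ u v, nrm (u - z) ≤ n → m ≤ nrm (v - z) → ¬ Conn Cᶜ u v)
    (h : Conn S u v) (hu : nrm (u - z) ≤ n) (hv : m ≤ nrm (v - z)) :
    ∃ x ∈ C, x ∈ S ∧ Conn S u x := by
  by_contra hno
  refine hC u v hu hv (h.in_comp.mono fun w hw hwC => hno ⟨w, hwC, Conn.right hw, hw⟩)

theorem six (hn : 1 ≤ n) (hnm : n < m)
    (h : ∀ k < 6, HC {v | (fr z k).symm v ∈ O} (-2 * m) (2 * m) n m) : ¬ Arm Oᶜ z n m := by
  rintro ⟨u, hu, v, hv, huv⟩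
  have hu' : nrm (u - z) ≤ n := hu
  have hv' : m ≤ nrm (v - z) := hv
  have hvm : nrm (v - z) = m := le_antisymm huv.right.2.2 hv'
  obtain ⟨k, hk, hkv⟩ := nrm_rows z v
  have h1 : Conn {w | (fr z k).symm w ∈ Oᶜ ∩ Ann z n m} (fr z k u) (fr z k v) := by
    rw [← conn_preimage (isAut_fr z k)]
    refine huv.mono fun w hw => ?_
    change (fr z k).symm (fr z k w) ∈ Oᶜ ∩ Ann z n m
    rw [Equiv.symm_apply_apply]
    exact hw
  refine rec_not {v | (fr z k).symm v ∈ O} (l := -2 * m) (r := 2 * m) (b := n) (t := m)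
    (by omega) hnm.le ⟨h k hk, ?_⟩
  refine vc_of_conn (h1.mono ?_) ((row_le_nrm z u k).trans hu') (by omega) hnm.le
  rintro w ⟨w1, w2⟩
  have w3 : nrm ((fr z k).symm w - z) ≤ m := w2.2
  rw [← nrm_fr z k, Equiv.apply_symm_apply] at w3
  have w4 := abs_le.1 (X_le_nrm w)
  exact ⟨w1, by omega, by omega⟩

/-- A path which crosses the annulus `Ann z n m` from outside to inside and a circuit: an arm in
`S` and a circuit of `O` meet. -/
theorem arm_circ (hn : 1 ≤ n) (hnm : n ≤ m) (h : Arm S z n m) (h' : ¬ Arm Oᶜ z n m) :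
    ∃ x, x ∈ S ∩ O ∩ Ann z n m := by
  by_contra hno
  refine h' (Join.mono h ?_ subset_rfl subset_rfl)
  rintro w ⟨w1, w2⟩
  exact ⟨fun w3 => hno ⟨w, ⟨w1, w3⟩, w2⟩, w2⟩

end Pool.Agent.TriPerc
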