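import Pool.Agent.TriPerc.Meas

/-!
# Harris' inequality for the labels, generalized FKG, square root trick

Lower sets of labels are the events which become more likely when more vertices are open.

* `harris_fun`: let `f, g : Lab → ℝ` be measurable, bounded, both antitone (or both monotone), and
  depend only on the labels in a finite set `s`.  Then `(∫ f) (∫ g) ≤ ∫ f g` (with respect to `P`).
  PROOF by induction on `s` (`Finset.induction_on`).  `s = ∅`: `f, g` are constant.
  `s = insert v s'`: for a function `f` put `f' w = ∫ x, f (Function.update w v x) ∂unif`.  By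
  `mp_update` and Fubini `∫ f ∂P = ∫ f' ∂P`.  `f'` is measurable, bounded, monotone in the same
  direction and depends only on `s'`.  One-dimensional Chebyshev: for `w` fixed,
  `a x = f (update w v x)` and `b x = g (update w v x)` are monotone in the same direction, so
  `∫∫ (a x - a y) (b x - b y) ≥ 0`, i.e. `(∫ a) (∫ b) ≤ ∫ a b`.  Hence
  `∫ f g = ∫ (f g)' ≥ ∫ f' g' ≥ (∫ f') (∫ g') = (∫ f) (∫ g)`.
* `harris_low`: for lower sets `A, B` with `Ev s A`, `Ev s B`, `s` finite:
  `P A * P B ≤ P (A ∩ B)` (indicator functions; lower set = antitone indicator).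
  `harris_up`: for upper sets.  `harris_opp`: `A` lower, `B` upper: `P (A ∩ B) ≤ P A * P B`
  (apply `harris_low` to `A` and `Bᶜ`).
* `harris_low_list`: finitely many lower sets: the product of the probabilities is at most the
  probability of the intersection (induction).
* `harris_mixed` (generalized FKG): a third set of vertices.  Let `s1, s2, s3` be disjoint finite
  sets.  `A1` lower depends on `s1 ∪ s3`, `A2` upper depends on `s2 ∪ s3`, `B1` lower depends on
  `s1`, `B2` upper depends on `s2`.  Then `P (A1 ∩ A2 ∩ B1 ∩ B2) ≥ P (A1 ∩ A2) P B1 P B2`.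
  PROOF.  Condition on the labels outside `s1 ∪ s2`.  By `mp_mix` with `s1 ∪ s2`:
  `P (A1 ∩ A2 ∩ B1 ∩ B2) = ∫ P {w' | mix (s1 ∪ s2) w w' ∈ A1 ∩ B1 ∩ A2 ∩ B2} dP(w)`.
  For fixed `w` the event `mix w w' ∈ A1 ∩ B1` depends on `w'` in `s1` only and
  `mix w w' ∈ A2 ∩ B2` on `s2` only (on `s3` the label is that of `w`), so they are independent
  (`indep`), and by `harris_low` / `harris_up` in the variable `w'`:
  `P {mix w w' ∈ A1 ∩ B1} ≥ P {mix w w' ∈ A1} P B1`, the same for `A2, B2`.  Hence the integrand is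
  at least `P {mix w w' ∈ A1 ∩ A2} P B1 P B2`; integrate.
* `sqrt_trick`: for lower events `A i`, `i ∈ Fin n`, `Ev s`, `s` finite:
  `∏ (1 - P (A i)) ≤ 1 - P (⋃ A i)`, since the complements are upper sets.  Hence if
  `P (⋃ A i) ≥ 1 - ε ^ n` then some `P (A i) ≥ 1 - ε` (`0 ≤ ε`).
-/

namespace Pool.Agent.TriPerc

open MeasureTheory Set

private theorem intb {α : Type} [MeasurableSpace α] (μ : Measure α) [IsFiniteMeasure μ]
    {f : α → ℝ} (hf : Measurable f) {C : ℝ} (h : ∀ x, |f x| ≤ C) : Integrable f μ :=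
  Integrable.of_bound hf.aestronglyMeasurable C (Filter.Eventually.of_forall h)

theorem cheb (a b : ℝ → ℝ) (ha : Measurable a) (hb : Measurable b) (C : ℝ)
    (hCa : ∀ x, |a x| ≤ C) (hCb : ∀ x, |b x| ≤ C)
    (hm : (Antitone a ∧ Antitone b) ∨ (Monotone a ∧ Monotone b)) :
    (∫ x, a x ∂unif) * (∫ x, b x ∂unif) ≤ ∫ x, a x * b x ∂unif := by
  have ia := intb unif ha hCa
  have ib := intb unif hb hCb
  have iab : Integrable (fun x => a x * b x) unif := by
    refine intb unif (ha.mul hb) (C := C * C) fun x => ?_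
    rw [abs_mul]
    exact mul_le_mul (hCa x) (hCb x) (abs_nonneg _) ((abs_nonneg _).trans (hCa x))
  have h1 : ∀ x y, 0 ≤ (a x - a y) * (b x - b y) := by
    intro x y
    rcases hm with ⟨h1, h2⟩ | ⟨h1, h2⟩
    · rcases le_total x y with h | h
      · exact mul_nonneg (sub_nonneg.2 (h1 h)) (sub_nonneg.2 (h2 h))
      · exact mul_nonneg_of_nonpos_of_nonpos (sub_nonpos.2 (h1 h)) (sub_nonpos.2 (h2 h))
    · rcases le_total x y with h | h
      · exact mul_nonneg_of_nonpos_of_nonpos (sub_nonpos.2 (h1 h)) (sub_nonpos.2 (h2 h))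
      · exact mul_nonneg (sub_nonneg.2 (h1 h)) (sub_nonneg.2 (h2 h))
  have h2 : ∀ x, ∫ y, (a x - a y) * (b x - b y) ∂unif =
      a x * b x - a x * (∫ y, b y ∂unif) - b x * (∫ y, a y ∂unif) + ∫ y, a y * b y ∂unif := by
    intro x
    have e1 : (fun y => (a x - a y) * (b x - b y)) =
        fun y => (a x * b x - a x * b y - b x * a y) + a y * b y := by
      funext y; ring
    have j1 : Integrable (fun _ : ℝ => a x * b x) unif := integrable_const _
    have j2 : Integrable (fun y => a x * b y) unif := ib.const_mul _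
    have j3 : Integrable (fun y => b x * a y) unif := ia.const_mul _
    have j4 : Integrable (fun y => a x * b x - a x * b y) unif := j1.sub j2
    have j5 : Integrable (fun y => a x * b x - a x * b y - b x * a y) unif := j4.sub j3
    have k2 : ∫ y, a x * b y ∂unif = a x * ∫ y, b y ∂unif := integral_const_mul _ _
    have k3 : ∫ y, b x * a y ∂unif = b x * ∫ y, a y ∂unif := integral_const_mul _ _
    rw [e1, integral_add j5 iab, integral_sub j4 j3, integral_sub j1 j2, k2, k3, integral_const]
    simp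
  have h3 : 0 ≤ ∫ x, (a x * b x - a x * (∫ y, b y ∂unif) - b x * (∫ y, a y ∂unif) +
      ∫ y, a y * b y ∂unif) ∂unif := by
    refine integral_nonneg fun x => ?_
    rw [← h2]
    exact integral_nonneg fun y => h1 x y
  have j1 : Integrable (fun x => a x * ∫ y, b y ∂unif) unif := ia.mul_const _
  have j2 : Integrable (fun x => b x * ∫ y, a y ∂unif) unif := ib.mul_const _
  have j3 : Integrable (fun x => a x * b x - a x * ∫ y, b y ∂unif) unif := iab.sub j1
  have j4 : Integrable (fun x => a x * b x - a x * (∫ y, b y ∂unif) - b x * ∫ y, a y ∂unif) unif :=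
    j3.sub j2
  have j5 : Integrable (fun _ : ℝ => ∫ y, a y * b y ∂unif) unif := integrable_const _
  rw [integral_add j4 j5, integral_sub j3 j2, integral_sub iab j1, integral_mul_const,
    integral_mul_const, integral_const] at h3
  simp only [probReal_univ, smul_eq_mul, one_mul] at h3
  linarith

/-- Averaging over the label of `v`. -/
private noncomputable def av (v : V) (f : Lab → ℝ) (w : Lab) : ℝ :=
  ∫ x, f (Function.update w v x) ∂unif

private theorem av_meas (v : V) {f : Lab → ℝ} (hf : Measurable f) : Measurable (av v f) :=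
  ((hf.comp (mp_update v).measurable).stronglyMeasurable.integral_prod_right').measurable

private theorem upd_meas (v : V) {f : Lab → ℝ} (hf : Measurable f) (w : Lab) :
    Measurable fun x => f (Function.update w v x) :=
  hf.comp ((mp_update v).measurable.comp measurable_prodMk_left)

private theorem av_int (v : V) {f : Lab → ℝ} (hf : Measurable f) {C : ℝ} (hC : ∀ w, |f w| ≤ C) :
    ∫ w, f w ∂P = ∫ w, av v f w ∂P := by
  have h1 : ∫ w, f w ∂P = ∫ z, f (Function.update z.1 v z.2) ∂(P.prod unif) := by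
    conv_lhs => rw [← (mp_update v).map_eq]
    exact integral_map (mp_update v).measurable.aemeasurable hf.aestronglyMeasurable
  have h2 : Integrable (fun z : Lab × ℝ => f (Function.update z.1 v z.2)) (P.prod unif) :=
    intb _ (hf.comp (mp_update v).measurable) fun z => hC _
  rw [h1, integral_prod _ h2]
  rfl

private theorem av_bd (v : V) {f : Lab → ℝ} {C : ℝ} (hC : ∀ w, |f w| ≤ C) (w : Lab) :
    |av v f w| ≤ C := by
  have := norm_integral_le_of_norm_le_const (μ := unif) (C := C)
    (f := fun x => f (Function.update w v x)) (Filter.Eventually.of_forall fun x => hC _)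
  rwa [probReal_univ, mul_one] at this

private theorem upd_mono (v : V) (x : ℝ) {w w' : Lab} (h : w ≤ w') :
    Function.update w v x ≤ Function.update w' v x := by
  intro u
  by_cases hu : u = v
  · subst hu; simp
  · simp [hu, h u]

private theorem upd_mono' (v : V) (w : Lab) {x y : ℝ} (h : x ≤ y) :
    Function.update w v x ≤ Function.update w v y := by
  intro u
  by_cases hu : u = v
  · subst hu; simpa using h
  · simp [hu]

theorem harris_fun (s : Finset V) (f g : Lab → ℝ) (hf : Measurable f) (hg : Measurable g) (C : ℝ)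
    (hCf : ∀ w, |f w| ≤ C) (hCg : ∀ w, |g w| ≤ C)
    (hsf : ∀ w w' : Lab, (∀ v ∈ s, w v = w' v) → f w = f w')
    (hsg : ∀ w w' : Lab, (∀ v ∈ s, w v = w' v) → g w = g w')
    (hm : (Antitone f ∧ Antitone g) ∨ (Monotone f ∧ Monotone g)) :
    (∫ w, f w ∂P) * (∫ w, g w ∂P) ≤ ∫ w, f w * g w ∂P := by
  induction s using Finset.induction_on generalizing f g with
  | empty =>
    have e1 : f = fun _ => f 0 := funext fun w => hsf w 0 (by simp)
    have e2 : g = fun _ => g 0 := funext fun w => hsg w 0 (by simp)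
    rw [e1, e2]
    simp
  | insert v s hv ih =>
    have hfg : ∀ w, |f w * g w| ≤ C * C := fun w => by
      rw [abs_mul]
      exact mul_le_mul (hCf w) (hCg w) (abs_nonneg _) ((abs_nonneg _).trans (hCf w))
    have hfgm : Measurable fun w => f w * g w := hf.mul hg
    rw [av_int v hf hCf, av_int v hg hCg, av_int v hfgm hfg]
    have hdep : ∀ {h : Lab → ℝ}, (∀ w w' : Lab, (∀ u ∈ insert v s, w u = w' u) → h w = h w') →
        ∀ w w' : Lab, (∀ u ∈ s, w u = w' u) → av v h w = av v h w' := by
      intro h hh w w' hw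
      unfold av
      congr 1
      funext x
      refine hh _ _ fun u hu => ?_
      by_cases huv : u = v
      · subst huv; simp
      · simp only [Function.update_of_ne huv]
        exact hw u ((Finset.mem_insert.1 hu).resolve_left huv)
    have hmon : ∀ {h : Lab → ℝ}, Measurable h → (∀ w, |h w| ≤ C) → Monotone h →
        Monotone (av v h) := by
      intro h h1 h2 h3 w w' hw
      exact integral_mono (intb _ (upd_meas v h1 w) fun x => h2 _)
        (intb _ (upd_meas v h1 w') fun x => h2 _) fun x => h3 (upd_mono v x hw)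
    have hant : ∀ {h : Lab → ℝ}, Measurable h → (∀ w, |h w| ≤ C) → Antitone h →
        Antitone (av v h) := by
      intro h h1 h2 h3 w w' hw
      exact integral_mono (intb _ (upd_meas v h1 w') fun x => h2 _)
        (intb _ (upd_meas v h1 w) fun x => h2 _) fun x => h3 (upd_mono v x hw)
    refine (ih (av v f) (av v g) (av_meas v hf) (av_meas v hg) (av_bd v hCf) (av_bd v hCg)
      (hdep hsf) (hdep hsg) ?_).trans ?_
    · rcases hm with ⟨h1, h2⟩ | ⟨h1, h2⟩
      · exact Or.inl ⟨hant hf hCf h1, hant hg hCg h2⟩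
      · exact Or.inr ⟨hmon hf hCf h1, hmon hg hCg h2⟩
    · refine integral_mono ?_ ?_ fun w => ?_
      · refine intb _ ((av_meas v hf).mul (av_meas v hg)) (C := C * C) fun w => ?_
        rw [abs_mul]
        exact mul_le_mul (av_bd v hCf w) (av_bd v hCg w) (abs_nonneg _)
          ((abs_nonneg _).trans (av_bd v hCf w))
      · exact intb _ (av_meas v hfgm) (C := C * C) fun w => av_bd v hfg w
      · refine cheb _ _ (upd_meas v hf w) (upd_meas v hg w) C (fun x => hCf _) (fun x => hCg _) ?_
        rcases hm with ⟨h1, h2⟩ | ⟨h1, h2⟩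
        · exact Or.inl ⟨fun x y hxy => h1 (upd_mono' v w hxy),
            fun x y hxy => h2 (upd_mono' v w hxy)⟩
        · exact Or.inr ⟨fun x y hxy => h1 (upd_mono' v w hxy),
            fun x y hxy => h2 (upd_mono' v w hxy)⟩

variable {s s1 s2 s3 : Set V} {A B A1 A2 B1 B2 : Set Lab}

private theorem ind_dep (hs : s.Finite) (hA : Ev s A) (w w' : Lab)
    (h : ∀ v ∈ hs.toFinset, w v = w' v) :
    A.indicator (fun _ => (1 : ℝ)) w = A.indicator (fun _ => (1 : ℝ)) w' := by
  have h1 : ∀ v ∈ s, w v = w' v := fun v hv => h v (hs.mem_toFinset.2 hv)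
  have h2 : w ∈ A ↔ w' ∈ A := ⟨hA.2 w w' h1, hA.2 w' w fun v hv => (h1 v hv).symm⟩
  by_cases h3 : w ∈ A
  · rw [indicator_of_mem h3, indicator_of_mem (h2.1 h3)]
  · rw [indicator_of_notMem h3, indicator_of_notMem fun h4 => h3 (h2.2 h4)]

private theorem ind_bd (A : Set Lab) (w : Lab) : |A.indicator (fun _ => (1 : ℝ)) w| ≤ 1 := by
  by_cases h3 : w ∈ A
  · rw [indicator_of_mem h3, abs_one]
  · rw [indicator_of_notMem h3, abs_zero]; exact zero_le_one

private theorem hh (hs : s.Finite) (hA : Ev s A) (hB : Ev s B)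
    (h : (IsLowerSet A ∧ IsLowerSet B) ∨ (IsUpperSet A ∧ IsUpperSet B)) :
    P A * P B ≤ P (A ∩ B) := by
  have key := harris_fun hs.toFinset (A.indicator fun _ => (1 : ℝ)) (B.indicator fun _ => (1 : ℝ))
    (measurable_const.indicator hA.1) (measurable_const.indicator hB.1) 1 (ind_bd A) (ind_bd B)
    (ind_dep hs hA) (ind_dep hs hB) (by
      have low : ∀ {A : Set Lab}, IsLowerSet A → Antitone (A.indicator fun _ => (1 : ℝ)) := by
        intro A hl w w' hw
        by_cases h3 : w' ∈ A
        · rw [indicator_of_mem h3, indicator_of_mem (hl hw h3)]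
        · rw [indicator_of_notMem h3]
          exact indicator_nonneg (fun _ _ => zero_le_one) _
      have up : ∀ {A : Set Lab}, IsUpperSet A → Monotone (A.indicator fun _ => (1 : ℝ)) := by
        intro A hl w w' hw
        by_cases h3 : w ∈ A
        · rw [indicator_of_mem h3, indicator_of_mem (hl hw h3)]
        · rw [indicator_of_notMem h3]
          exact indicator_nonneg (fun _ _ => zero_le_one) _
      rcases h with ⟨h1, h2⟩ | ⟨h1, h2⟩
      · exact Or.inl ⟨low h1, low h2⟩
      · exact Or.inr ⟨up h1, up h2⟩)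
  have e1 : (fun w => A.indicator (fun _ => (1 : ℝ)) w * B.indicator (fun _ => (1 : ℝ)) w) =
      (A ∩ B).indicator fun _ => (1 : ℝ) := by
    funext w
    by_cases h1 : w ∈ A
    · by_cases h2 : w ∈ B
      · rw [indicator_of_mem h1, indicator_of_mem h2, indicator_of_mem (mem_inter h1 h2), one_mul]
      · have h3 : w ∉ A ∩ B := fun h3 => h2 h3.2
        rw [indicator_of_notMem h2, indicator_of_notMem h3, mul_zero]
    · have h3 : w ∉ A ∩ B := fun h3 => h1 h3.1
      rw [indicator_of_notMem h1, indicator_of_notMem h3, zero_mul]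
  rw [e1, integral_indicator hA.1, integral_indicator hB.1,
    integral_indicator (hA.1.inter hB.1)] at key
  simp only [integral_const, smul_eq_mul, mul_one, measureReal_restrict_apply_univ] at key
  rw [← ENNReal.toReal_le_toReal (ENNReal.mul_ne_top (measure_ne_top _ _) (measure_ne_top _ _))
    (measure_ne_top _ _), ENNReal.toReal_mul]
  exact key

theorem harris_low (hs : s.Finite) (hA : Ev s A) (hB : Ev s B) (lA : IsLowerSet A)
    (lB : IsLowerSet B) : P A * P B ≤ P (A ∩ B) := hh hs hA hB (Or.inl ⟨lA, lB⟩)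

theorem harris_up (hs : s.Finite) (hA : Ev s A) (hB : Ev s B) (lA : IsUpperSet A)
    (lB : IsUpperSet B) : P A * P B ≤ P (A ∩ B) := hh hs hA hB (Or.inr ⟨lA, lB⟩)

private theorem compl_real {A : Set Lab} (hA : MeasurableSet A) :
    (P Aᶜ).toReal = 1 - (P A).toReal := by
  rw [prob_compl_eq_one_sub hA, ENNReal.toReal_sub_of_le prob_le_one ENNReal.one_ne_top,
    ENNReal.toReal_one]

theorem harris_opp (hs : s.Finite) (hA : Ev s A) (hB : Ev s B) (lA : IsLowerSet A)
    (lB : IsUpperSet B) : P (A ∩ B) ≤ P A * P B := by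
  have h1 := harris_low hs hA hB.compl lA lB.compl
  have h2 : P (A ∩ B) + P (A ∩ Bᶜ) = P A := by
    have := measure_inter_add_sdiff (μ := P) A hB.1
    rwa [sdiff_eq] at this
  rw [← ENNReal.toReal_le_toReal (measure_ne_top _ _)
    (ENNReal.mul_ne_top (measure_ne_top _ _) (measure_ne_top _ _)), ENNReal.toReal_mul]
  have h3 := (ENNReal.toReal_le_toReal (ENNReal.mul_ne_top (measure_ne_top _ _)
    (measure_ne_top _ _)) (measure_ne_top _ _)).2 h1
  rw [ENNReal.toReal_mul, compl_real hB.1] at h3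
  have h4 := congrArg ENNReal.toReal h2
  rw [ENNReal.toReal_add (measure_ne_top _ _) (measure_ne_top _ _)] at h4
  nlinarith

theorem harris_low_fin (hs : s.Finite) {n : ℕ} {A : Fin n → Set Lab} (hA : ∀ i, Ev s (A i))
    (lA : ∀ i, IsLowerSet (A i)) : ∏ i, P (A i) ≤ P (⋂ i, A i) := by
  induction n with
  | zero => simp
  | succ n ih =>
    rw [Fin.prod_univ_succ]
    have e : (⋂ i, A i) = A 0 ∩ ⋂ i : Fin n, A i.succ := by
      ext w
      simp only [mem_iInter, mem_inter_iff]
      exact Fin.forall_fin_succ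
    rw [e]
    refine (mul_le_mul_right (ih (fun i => hA i.succ) fun i => lA i.succ) _).trans ?_
    exact harris_low hs (hA 0) (Ev.iInter fun i => hA i.succ) (lA 0)
      (isLowerSet_iInter fun i => lA i.succ)

theorem harris_up_fin (hs : s.Finite) {n : ℕ} {A : Fin n → Set Lab} (hA : ∀ i, Ev s (A i))
    (lA : ∀ i, IsUpperSet (A i)) : ∏ i, P (A i) ≤ P (⋂ i, A i) := by
  induction n with
  | zero => simp
  | succ n ih =>
    rw [Fin.prod_univ_succ]
    have e : (⋂ i, A i) = A 0 ∩ ⋂ i : Fin n, A i.succ := by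
      ext w
      simp only [mem_iInter, mem_inter_iff]
      exact Fin.forall_fin_succ
    rw [e]
    refine (mul_le_mul_right (ih (fun i => hA i.succ) fun i => lA i.succ) _).trans ?_
    exact harris_up hs (hA 0) (Ev.iInter fun i => hA i.succ) (lA 0)
      (isUpperSet_iInter fun i => lA i.succ)

private theorem mix_in {s : Set V} {v : V} (hv : v ∈ s) (w w' : Lab) : mix s w w' v = w' v := by
  simp [mix, hv]

private theorem mix_out {s : Set V} {v : V} (hv : v ∉ s) (w w' : Lab) : mix s w w' v = w v := by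
  simp [mix, hv]

private theorem mix_prod (s : Set V) {E : Set Lab} (hE : MeasurableSet E) :
    P E = ∫⁻ w, P {w' | mix s w w' ∈ E} ∂P := by
  conv_lhs => rw [← (mp_mix s).map_eq]
  rw [Measure.map_apply (mp_mix s).measurable hE, Measure.prod_apply ((mp_mix s).measurable hE)]
  rfl

/-- The section of an event which depends on `t ∪ u`, `u` outside `s`, `t` inside `s`. -/
private theorem ev_sec {s t u : Set V} {A : Set Lab} (hA : Ev (t ∪ u) A)
    (hu : ∀ v ∈ u, v ∉ s) (w : Lab) : Ev t {w' | mix s w w' ∈ A} := by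
  refine ⟨((mp_mix s).measurable.comp measurable_prodMk_left) hA.1, fun w' w'' h1 h2 => ?_⟩
  refine hA.2 _ _ (fun v hv => ?_) h2
  by_cases hs : v ∈ s
  · rw [mix_in hs, mix_in hs]
    rcases hv with hv | hv
    · exact h1 v hv
    · exact absurd hs (hu v hv)
  · rw [mix_out hs, mix_out hs]

theorem harris_mixed (h1 : s1.Finite) (h2 : s2.Finite) (h3 : s3.Finite)
    (d12 : Disjoint s1 s2) (d13 : Disjoint s1 s3) (d23 : Disjoint s2 s3)
    (eA1 : Ev (s1 ∪ s3) A1) (eA2 : Ev (s2 ∪ s3) A2) (eB1 : Ev s1 B1) (eB2 : Ev s2 B2)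
    (lA1 : IsLowerSet A1) (uA2 : IsUpperSet A2) (lB1 : IsLowerSet B1) (uB2 : IsUpperSet B2) :
    P (A1 ∩ A2) * P B1 * P B2 ≤ P (A1 ∩ A2 ∩ (B1 ∩ B2)) := by
  have hu : ∀ v ∈ s3, v ∉ s1 ∪ s2 := by
    rintro v hv (h | h)
    · exact Set.disjoint_left.1 d13 h hv
    · exact Set.disjoint_left.1 d23 h hv
  rw [mix_prod (s1 ∪ s2) ((eA1.1.inter eA2.1).inter (eB1.1.inter eB2.1)),
    mix_prod (s1 ∪ s2) (eA1.1.inter eA2.1), mul_assoc, ← lintegral_mul_const']
  swap
  · exact ENNReal.mul_ne_top (measure_ne_top _ _) (measure_ne_top _ _)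
  refine lintegral_mono fun w => ?_
  have mono : ∀ {w' w'' : Lab}, w' ≤ w'' → mix (s1 ∪ s2) w w' ≤ mix (s1 ∪ s2) w w'' := by
    intro w' w'' h v
    by_cases hv : v ∈ s1 ∪ s2
    · rw [mix_in hv, mix_in hv]; exact h v
    · rw [mix_out hv, mix_out hv]
  have E1 := ev_sec eA1 hu w
  have E2 := ev_sec eA2 hu w
  have F1 : {w' | mix (s1 ∪ s2) w w' ∈ B1} = B1 := by
    ext w'
    constructor
    · exact eB1.2 _ _ fun v hv => mix_in (Or.inl hv) _ _
    · exact eB1.2 _ _ fun v hv => (mix_in (Or.inl hv) _ _).symm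
  have F2 : {w' | mix (s1 ∪ s2) w w' ∈ B2} = B2 := by
    ext w'
    constructor
    · exact eB2.2 _ _ fun v hv => mix_in (Or.inr hv) _ _
    · exact eB2.2 _ _ fun v hv => (mix_in (Or.inr hv) _ _).symm
  have e1 : {w' | mix (s1 ∪ s2) w w' ∈ A1 ∩ A2 ∩ (B1 ∩ B2)} =
      ({w' | mix (s1 ∪ s2) w w' ∈ A1} ∩ B1) ∩ ({w' | mix (s1 ∪ s2) w w' ∈ A2} ∩ B2) := by
    conv_rhs => rw [← F1, ← F2]
    ext w'
    simp only [mem_inter_iff, mem_ofPred_eq]
    tauto
  have e2 : {w' | mix (s1 ∪ s2) w w' ∈ A1 ∩ A2} =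
      {w' | mix (s1 ∪ s2) w w' ∈ A1} ∩ {w' | mix (s1 ∪ s2) w w' ∈ A2} := rfl
  rw [e1, e2, indep E1 E2 d12, indep (E1.inter eB1) (E2.inter eB2) d12]
  have g1 := harris_low h1 E1 eB1 (fun _ _ h h' => lA1 (mono h) h') lB1
  have g2 := harris_up h2 E2 eB2 (fun _ _ h h' => uA2 (mono h) h') uB2
  refine le_trans (le_of_eq ?_) (mul_le_mul' g1 g2)
  ring

theorem sqrt_trick (hs : s.Finite) {n : ℕ} {A : Fin n → Set Lab} (hA : ∀ i, Ev s (A i))
    (lA : ∀ i, IsLowerSet (A i)) :
    (P (⋃ i, A i)).toReal ≤ 1 - ∏ i, (1 - (P (A i)).toReal) := by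
  have h1 := harris_up_fin hs (fun i => (hA i).compl) fun i => (lA i).compl
  rw [← compl_iUnion, ← ENNReal.toReal_le_toReal
    (ENNReal.prod_ne_top fun i _ => measure_ne_top _ _) (measure_ne_top _ _),
    ENNReal.toReal_prod, compl_real (MeasurableSet.iUnion fun i => (hA i).1)] at h1
  have h2 : ∏ i, (P (A i)ᶜ).toReal = ∏ i, (1 - (P (A i)).toReal) :=
    Finset.prod_congr rfl fun i _ => compl_real (hA i).1
  rw [h2] at h1
  linarith

theorem sqrt_trick_exists (hs : s.Finite) {n : ℕ} {A : Fin n → Set Lab}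
    (hA : ∀ i, Ev s (A i)) (lA : ∀ i, IsLowerSet (A i)) {e : ℝ} (he : 0 ≤ e) (hn : 0 < n)
    (h : 1 - e ^ n ≤ (P (⋃ i, A i)).toReal) : ∃ i, 1 - e ≤ (P (A i)).toReal := by
  by_contra hc
  push Not at hc
  have h1 := sqrt_trick hs hA lA
  have h2 : e ^ n < ∏ i, (1 - (P (A i)).toReal) := by
    rcases he.eq_or_lt with h0 | h0
    · rw [← h0, zero_pow hn.ne']
      refine Finset.prod_pos fun i _ => ?_
      have := hc i
      rw [← h0] at this
      linarith
    · have hne : (Finset.univ : Finset (Fin n)).Nonempty := ⟨⟨0, hn⟩, Finset.mem_univ _⟩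
      have := Finset.prod_lt_prod_of_nonempty (f := fun _ : Fin n => e)
        (g := fun i => 1 - (P (A i)).toReal) (s := Finset.univ) (fun _ _ => h0)
        (fun i _ => by have := hc i; linarith) hne
      rwa [Finset.prod_const, Finset.card_univ, Fintype.card_fin] at this
  linarith

end Pool.Agent.TriPerc
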