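import Pool.Agent.TriPerc.Rect

/-!
# RSW, deterministic part

`m ≥ 2`, `n ≥ 0`.  `R2 = Rec 0 (2 m) 0 n`, `Rl = Rec 0 (m - 1) 0 n` its left part, `rho = vref m`
the reflection in `X = m` (an involution and an automorphism which maps `R2` to itself).
For a set `O` of open vertices:
`cc O` = closed cluster of the top row of `Rl`, inside `Rl`;
`ex c` = explored set = `c`, its neighbours in `Rl`, and the top row of `Rl`;
`art O e` = artificial colouring: `e` is declared open, its mirror image is declared closed, the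
other vertices keep their colours.

Sides of `R2` (always intersected with `R2` in use):
`A1 = {n ≤ row, X ≤ m + 1}` (top left), `A2 = {n ≤ row, m ≤ X}` (top right),
`A3 = {2 m - 1 ≤ X} ∪ {row ≤ 0, m - 1 ≤ X}` (right or bottom right),
`A4 = {X ≤ 1} ∪ {row ≤ 0, X ≤ m}` (left or bottom left).
`Mm O`: an open path in `R2` from the left side to `A3`.

* `arc_or`: `Join (O ∩ R2) A1 A3 ∨ Join (Oᶜ ∩ R2) A2 A4`.  PROOF: `jan_walls` with `D = R2`,
  `W1 = {row > n, X ≤ m}`, `W2 = {row > n, X > m}`,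
  `W3 = {X > 2 m, 0 ≤ row ≤ n} ∪ {row < 0, X ≥ m}`,
  `W4 = {X < 0, 0 ≤ row ≤ n} ∪ {row < 0, X < m}`; the end of a path in `(D ∩ O) ∪ W1 ∪ W3` is
  treated with `Conn.between` (`W1`, `W3` are not adjacent since `m ≥ 2`); a vertex of `R2`
  adjacent to `Wi`
  is in `Ai` (an upward step changes `X` by `± 1`, a horizontal one by `± 2`).  The two auxiliary
  connections: from `x ∈ W1` (row `n + 1`, `X ≤ 0` far left) along row `n + 1` to the far right
  and down to row `0` in `{X > 2 m}`; and from `x` further left, down to row `-1` in `{X < 0}`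
  and along row `-1` to the far right, up to `y` (choose `y` in row `0`, far right).
* `arcM_or`: `Mm O ∨ Join (Oᶜ ∩ R2) {n ≤ row} {row ≤ 0, X ≤ m}`.  PROOF: the same with
  `W1 = {X < 0, 0 ≤ row ≤ n}`, `W2 = {row > n}`, `W3` as before, `W4 = {row < 0, X < m}`.
* `cc_closed`: if `v ∈ ex (cc O)` is closed (`v ∉ O`), then `v ∈ cc O`.  (A closed neighbour in `Rl`
  of the closed cluster is in the cluster; a closed vertex of the top row of `Rl` also.)
* `keyA`: `HC O 0 (m - 1) 0 n` and `Join (art O (ex (cc O)) ∩ R2) A1 A3` imply `Mm O`.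
  PROOF.  Let `c = cc O`, `e = ex c`, `E = e ∪ rho ⁻¹' e`.  `e ⊆ Rl`, so `e` and `rho ⁻¹' e` are
  disjoint.  Suppose `Mm O` fails.  By `arcM_or` there is a closed path in `R2` from `z0`
  (row `0`, `X z0 ≤ m`) to `t` in the top row `n`.
  `z0 ∉ E`: if `z0 ∈ e`, then `z0 ∈ c` by `cc_closed`, so `c` joins the top row to the bottom row by
  a closed path in `Rl`, i.e. `VC Oᶜ 0 (m-1) 0 n`, which contradicts `rec_not`; if `rho z0 ∈ e` then
  `X z0 ≥ m + 1`, contradiction.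
  Claim: `Join ((art O e)ᶜ ∩ R2) {row ≤ 0, X ≤ m} {n ≤ row, m ≤ X}`.  Closed vertices outside `E`
  and all vertices of `rho ⁻¹' e` are in `(art O e)ᶜ`.
  Case 1: the closed path from `z0` to `t` stays outside `E`.  Then `t ∉ E`, `t` is in the top row;
  `X t ≤ m - 1` would give `t ∈ e`, `X t ≥ m + 1` would give `rho t ∈ e`; so `X t = m`.  Done.
  Case 2: otherwise (`Conn.exit` with `A = Eᶜ`) there are adjacent closed `x ∉ E`, `y ∈ E` of `R2`,
  and
  a closed path outside `E` from `z0` to `x`.  If `rho y ∈ e`: `y` or a neighbour of `y` in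
  `rho ⁻¹' c` or `y` itself in the top row; every vertex of `c` is joined in `c` to the top row of
  `Rl` (`clus_conn`), and by reflection every vertex of `rho ⁻¹' c` is joined in `rho ⁻¹' c` to the
  top row with `X ≥ m + 1`; done (all these vertices are in `rho ⁻¹' e ∩ R2`).  If `y ∈ e`: `y` is
  closed, so `y ∈ c`; `x` is not in `Rl` (otherwise `x ∈ e`), so `X x ≥ m`; `X y ≤ m - 1`.  If
  `X x = m + 1` then `X y = m - 1` in the same row (a step with `|X x - X y| = 2` is horizontal), so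
  `rho x = y ∈ e`, contradiction to `x ∉ E`.  So `X x = m`, `rho x = x`, and `rho y` is adjacent to
  `rho x = x` and is in `rho ⁻¹' c`; continue as before.
  Now the open path (for `art O e`) from `u ∈ A1` to `u' ∈ A3` and the closed path from `w` (top
  row, `X w ≥ m`) to `w'` (row `0`, `X w' ≤ m`) lie in disjoint sets.  `X u ≤ m + 1`, `X w ≥ m`,
  `u ≠ w` in the same row (equal parity of `X`), so `X u < X w`, `u.1 < w.1`.  If `2 m - 1 ≤ X u'`:
  `no_TR` (on the right: `X y ≤ 2 m`, `X u' ≥ 2 m - 1`, equal parity in the same row).  If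
  `u'` is in row `0` with `m - 1 ≤ X u'`: `X w' ≤ m`, `u' ≠ w'`, equal parity, so `X w' < X u'`:
  `no_TB`.
* `keyB`: `Mm O` and `Mm (rho ⁻¹' O)` imply `HC O 0 (2 m) 0 n`.  PROOF: the first path goes from `u`
  (`X u ≤ 1`) to `u' ∈ A3`, the second one (reflected) from `w` (`X w ≥ 2 m - 1`) to `w'` with
  `X w' ≤ 1`, or row `0` and `X w' ≤ m + 1`.  If `X u' ≥ 2 m - 1` or `X w' ≤ 1`, done.  Otherwise
  `u'`, `w'` are in row `0`.  If `u` and `w` are in the same component of `O ∩ R2`, done.  Otherwise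
  the two components are disjoint and not adjacent; `u' ≠ w'`, `X u' ≥ m - 1`, `X w' ≤ m + 1`, and
  `X w' = X u' + 2` would make them adjacent; so `X w' < X u'` and `no_B` gives a contradiction.
* `cc_eq_iff`, `cc_prop`: description of `cc O = c` by the labels in `ex c`: if `c ⊆ Rl m n` is
  such that every
  vertex of `c` is joined in `c` to a vertex of `c` in the top row (row `n`), then
  `cc O = c` iff `c ∩ O = ∅` and `ex c \ c ⊆ O`; and `cc O` always has this property.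
  (`clus_eq`, `clus_conn`.)
* `hc_iff_cc`: `HC O 0 (m-1) 0 n` iff `cc O` has no vertex in a row `≤ 0` (`rec_or`, `rec_not`).
-/

namespace Pool.Agent.TriPerc

/-- The left part. -/
def Rl (m n : ℤ) : Set V := Rec 0 (m - 1) 0 n
/-- The double rectangle. -/
def R2 (m n : ℤ) : Set V := Rec 0 (2 * m) 0 n
/-- top left -/
def A1 (m n : ℤ) : Set V := {v | n ≤ v.2 ∧ X v ≤ m + 1}
/-- top right -/
def A2 (m n : ℤ) : Set V := {v | n ≤ v.2 ∧ m ≤ X v}
/-- right or bottom right -/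
def A3 (m : ℤ) : Set V := {v | 2 * m - 1 ≤ X v ∨ (v.2 ≤ 0 ∧ m - 1 ≤ X v)}
/-- left or bottom left -/
def A4 (m : ℤ) : Set V := {v | X v ≤ 1 ∨ (v.2 ≤ 0 ∧ X v ≤ m)}

/-- closed cluster of the top row of `Rl` -/
def cc (m n : ℤ) (O : Set V) : Set V := clus (Oᶜ ∩ Rl m n) {v | n ≤ v.2}

/-- explored set -/
def ex (m n : ℤ) (c : Set V) : Set V :=
  {v | v ∈ Rl m n ∧ (v ∈ c ∨ (∃ u ∈ c, Adj u v) ∨ n ≤ v.2)}

/-- artificial colouring -/
def art (m : ℤ) (O e : Set V) : Set V := {v | v ∈ e ∨ (v ∈ O ∧ vref m v ∉ e)}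

/-- an open path from the left side to the right side or to the bottom right -/
def Mm (m n : ℤ) (O : Set V) : Prop := Join (O ∩ R2 m n) {v | X v ≤ 1} (A3 m)

variable {m n : ℤ} {O : Set V}

private theorem walls (D W1 W2 W3 W4 : Set V)
    (hcov : ∀ v, v ∈ D ∨ v ∈ W1 ∨ v ∈ W2 ∨ v ∈ W3 ∨ v ∈ W4)
    (d1 : Disjoint D W1) (d2 : Disjoint D W2) (d3 : Disjoint D W3) (d4 : Disjoint D W4)
    (d12 : Disjoint W1 W2) (d13 : Disjoint W1 W3) (d14 : Disjoint W1 W4) (d23 : Disjoint W2 W3)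
    (d24 : Disjoint W2 W4) (d34 : Disjoint W3 W4) (x y : V) (hx : x ∈ W1) (hy : y ∈ W3)
    (h123 : Conn (W1 ∪ W2 ∪ W3) x y) (h143 : Conn (W1 ∪ W4 ∪ W3) x y)
    (n13 : ∀ a ∈ W1, ∀ b ∈ W3, ¬ Adj a b) (n24 : ∀ a ∈ W2, ∀ b ∈ W4, ¬ Adj a b) (O : Set V) :
    (∃ a ∈ W1, ∃ b ∈ W3, ∃ x' y', Adj a x' ∧ Adj y' b ∧ Conn (O ∩ D) x' y') ∨
      (∃ a ∈ W2, ∃ b ∈ W4, ∃ x' y', Adj a x' ∧ Adj y' b ∧ Conn (Oᶜ ∩ D) x' y') := by
  rcases jan_walls D W1 W2 W3 W4 hcov d1 d2 d3 d4 d12 d13 d14 d23 d24 d34 x y hx hy h123 h143 O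
    with h | h
  · left
    obtain ⟨a, ha, b, hb, -, -, h1⟩ := h.between hx hy d13
    rcases h1 with h1 | ⟨x', y', h2, h3, h4⟩
    · exact absurd h1 (n13 a ha b hb)
    · refine ⟨a, ha, b, hb, x', y', h2, h3, h4.mono ?_⟩
      rintro v ⟨hv, hn⟩
      rcases hv with (hv | hv) | hv
      · exact ⟨hv.2, hv.1⟩
      · exact absurd (Or.inl hv) hn
      · exact absurd (Or.inr hv) hn
  · right
    obtain ⟨u, hu, v, hv, h⟩ := h
    obtain ⟨a, ha, b, hb, -, -, h1⟩ := h.between hu hv d24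
    rcases h1 with h1 | ⟨x', y', h2, h3, h4⟩
    · exact absurd h1 (n24 a ha b hb)
    · refine ⟨a, ha, b, hb, x', y', h2, h3, h4.mono ?_⟩
      rintro v ⟨hv, hn⟩
      rcases hv with (hv | hv) | hv
      · exact ⟨hv.2, hv.1⟩
      · exact absurd (Or.inl hv) hn
      · exact absurd (Or.inr hv) hn

private theorem mR2 {v : V} : v ∈ R2 m n ↔ 0 ≤ X v ∧ X v ≤ 2 * m ∧ 0 ≤ v.2 ∧ v.2 ≤ n := Iff.rfl

private theorem mRl {v : V} : v ∈ Rl m n ↔ 0 ≤ X v ∧ X v ≤ m - 1 ∧ 0 ≤ v.2 ∧ v.2 ≤ n := Iff.rfl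

theorem arc_or (hm : 2 ≤ m) (hn : 0 ≤ n) (O : Set V) :
    Join (O ∩ R2 m n) (A1 m n) (A3 m) ∨ Join (Oᶜ ∩ R2 m n) (A2 m n) (A4 m) := by
  obtain ⟨W1, hW1⟩ : ∃ W : Set V, W = {v | n < v.2 ∧ X v ≤ m} := ⟨_, rfl⟩
  obtain ⟨W2, hW2⟩ : ∃ W : Set V, W = {v | n < v.2 ∧ m < X v} := ⟨_, rfl⟩
  obtain ⟨W3, hW3⟩ : ∃ W : Set V, W = {v | (2 * m < X v ∧ 0 ≤ v.2 ∧ v.2 ≤ n) ∨
    (v.2 < 0 ∧ m ≤ X v)} := ⟨_, rfl⟩
  obtain ⟨W4, hW4⟩ : ∃ W : Set V, W = {v | (X v < 0 ∧ 0 ≤ v.2 ∧ v.2 ≤ n) ∨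
    (v.2 < 0 ∧ X v < m)} := ⟨_, rfl⟩
  have m1 : ∀ v : V, v ∈ W1 ↔ n < v.2 ∧ X v ≤ m := fun v => by rw [hW1]; rfl
  have m2 : ∀ v : V, v ∈ W2 ↔ n < v.2 ∧ m < X v := fun v => by rw [hW2]; rfl
  have m3 : ∀ v : V, v ∈ W3 ↔ (2 * m < X v ∧ 0 ≤ v.2 ∧ v.2 ≤ n) ∨ (v.2 < 0 ∧ m ≤ X v) :=
    fun v => by rw [hW3]; rfl
  have m4 : ∀ v : V, v ∈ W4 ↔ (X v < 0 ∧ 0 ≤ v.2 ∧ v.2 ≤ n) ∨ (v.2 < 0 ∧ X v < m) :=
    fun v => by rw [hW4]; rfl
  clear hW1 hW2 hW3 hW4
  have e1 : ((-(n + 1), n + 1) : V) ∈ W1 := by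
    rw [m1]
    unfold X
    simp only
    omega
  have c1 : ∀ c, 0 ≤ c → c ≤ n → ((-(n + 1), c) : V) ∈ W4 := by
    intro c h1 h2
    rw [m4]
    unfold X
    simp only
    omega
  have c3 : ∀ c, 0 ≤ c → c ≤ n → ((m + 1, c) : V) ∈ W3 := by
    intro c h1 h2
    rw [m3]
    unfold X
    simp only
    omega
  have r1 : ∀ a, ((a, n + 1) : V) ∈ W1 ∪ W2 ∪ W3 := by
    intro a
    rcases le_or_gt (X (a, n + 1)) m with h | h
    · exact Or.inl (Or.inl ((m1 _).2 ⟨by simp only; omega, h⟩))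
    · exact Or.inl (Or.inr ((m2 _).2 ⟨by simp only; omega, h⟩))
  have r2 : ∀ a, ((a, -1) : V) ∈ W1 ∪ W4 ∪ W3 := by
    intro a
    rcases lt_or_ge (X (a, -1)) m with h | h
    · exact Or.inl (Or.inr ((m4 _).2 (Or.inr ⟨by simp only; omega, h⟩)))
    · exact Or.inr ((m3 _).2 (Or.inr ⟨by simp only; omega, h⟩))
  have h123 : Conn (W1 ∪ W2 ∪ W3) (-(n + 1), n + 1) (m + 1, 0) := by
    refine (conn_row (a' := m + 1) fun c _ _ => r1 c).trans (conn_col ?_)
    intro c h1 h2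
    rw [min_eq_right (by omega)] at h1
    rw [max_eq_left (by omega)] at h2
    rcases lt_or_ge n c with h3 | h3
    · obtain rfl : c = n + 1 := by omega
      exact r1 _
    · exact Or.inr (c3 c h1 h3)
  have h143 : Conn (W1 ∪ W4 ∪ W3) (-(n + 1), n + 1) (m + 1, 0) := by
    refine (conn_col (b' := -1) ?_).trans ((conn_row (a' := m + 1) fun c _ _ => r2 c).trans
      (conn_col ?_))
    · intro c h1 h2
      rw [min_eq_right (by omega)] at h1
      rw [max_eq_left (by omega)] at h2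
      rcases lt_or_ge n c with h3 | h3
      · obtain rfl : c = n + 1 := by omega
        exact Or.inl (Or.inl e1)
      · rcases lt_or_ge c 0 with h4 | h4
        · obtain rfl : c = -1 := by omega
          exact r2 _
        · exact Or.inl (Or.inr (c1 c h4 h3))
    · intro c h1 h2
      rw [min_eq_left (by omega)] at h1
      rw [max_eq_right (by omega)] at h2
      rcases lt_or_ge c 0 with h4 | h4
      · obtain rfl : c = -1 := by omega
        exact r2 _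
      · exact Or.inr (c3 c h4 (by omega))
  have key := walls (R2 m n) W1 W2 W3 W4
    (by intro v; rw [mR2, m1, m2, m3, m4]; omega)
    (Set.disjoint_left.2 fun v h1 h2 => by rw [mR2] at h1; rw [m1] at h2; omega)
    (Set.disjoint_left.2 fun v h1 h2 => by rw [mR2] at h1; rw [m2] at h2; omega)
    (Set.disjoint_left.2 fun v h1 h2 => by rw [mR2] at h1; rw [m3] at h2; omega)
    (Set.disjoint_left.2 fun v h1 h2 => by rw [mR2] at h1; rw [m4] at h2; omega)
    (Set.disjoint_left.2 fun v h1 h2 => by rw [m1] at h1; rw [m2] at h2; omega)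
    (Set.disjoint_left.2 fun v h1 h2 => by rw [m1] at h1; rw [m3] at h2; omega)
    (Set.disjoint_left.2 fun v h1 h2 => by rw [m1] at h1; rw [m4] at h2; omega)
    (Set.disjoint_left.2 fun v h1 h2 => by rw [m2] at h1; rw [m3] at h2; omega)
    (Set.disjoint_left.2 fun v h1 h2 => by rw [m2] at h1; rw [m4] at h2; omega)
    (Set.disjoint_left.2 fun v h1 h2 => by rw [m3] at h1; rw [m4] at h2; omega)
    (-(n + 1), n + 1) (m + 1, 0) e1 (c3 0 le_rfl hn) h123 h143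
    (fun a ha b hb hab => by
      rw [m1] at ha
      rw [m3] at hb
      unfold Adj X at *
      omega)
    (fun a ha b hb hab => by
      rw [m2] at ha
      rw [m4] at hb
      unfold Adj X at *
      omega) O
  rcases key with ⟨a, ha, b, hb, x', y', h1, h2, h3⟩ | ⟨a, ha, b, hb, x', y', h1, h2, h3⟩
  · left
    have k1 := h3.left.2
    have k2 := h3.right.2
    rw [mR2] at k1 k2
    rw [m1] at ha
    rw [m3] at hb
    refine ⟨x', ?_, y', ?_, h3⟩
    · show n ≤ x'.2 ∧ X x' ≤ m + 1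
      unfold Adj X at *
      omega
    · show 2 * m - 1 ≤ X y' ∨ (y'.2 ≤ 0 ∧ m - 1 ≤ X y')
      unfold Adj X at *
      omega
  · right
    have k1 := h3.left.2
    have k2 := h3.right.2
    rw [mR2] at k1 k2
    rw [m2] at ha
    rw [m4] at hb
    refine ⟨x', ?_, y', ?_, h3⟩
    · show n ≤ x'.2 ∧ m ≤ X x'
      unfold Adj X at *
      omega
    · show X y' ≤ 1 ∨ (y'.2 ≤ 0 ∧ X y' ≤ m)
      unfold Adj X at *
      omega

theorem arcM_or (hm : 2 ≤ m) (hn : 0 ≤ n) (O : Set V) :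
    Mm m n O ∨ Join (Oᶜ ∩ R2 m n) {v | n ≤ v.2} {v | v.2 ≤ 0 ∧ X v ≤ m} := by
  obtain ⟨W1, hW1⟩ : ∃ W : Set V, W = {v | X v < 0 ∧ 0 ≤ v.2 ∧ v.2 ≤ n} := ⟨_, rfl⟩
  obtain ⟨W2, hW2⟩ : ∃ W : Set V, W = {v | n < v.2} := ⟨_, rfl⟩
  obtain ⟨W3, hW3⟩ : ∃ W : Set V, W = {v | (2 * m < X v ∧ 0 ≤ v.2 ∧ v.2 ≤ n) ∨
    (v.2 < 0 ∧ m ≤ X v)} := ⟨_, rfl⟩
  obtain ⟨W4, hW4⟩ : ∃ W : Set V, W = {v | v.2 < 0 ∧ X v < m} := ⟨_, rfl⟩
  have m1 : ∀ v : V, v ∈ W1 ↔ X v < 0 ∧ 0 ≤ v.2 ∧ v.2 ≤ n := fun v => by rw [hW1]; rfl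
  have m2 : ∀ v : V, v ∈ W2 ↔ n < v.2 := fun v => by rw [hW2]; rfl
  have m3 : ∀ v : V, v ∈ W3 ↔ (2 * m < X v ∧ 0 ≤ v.2 ∧ v.2 ≤ n) ∨ (v.2 < 0 ∧ m ≤ X v) :=
    fun v => by rw [hW3]; rfl
  have m4 : ∀ v : V, v ∈ W4 ↔ v.2 < 0 ∧ X v < m := fun v => by rw [hW4]; rfl
  clear hW1 hW2 hW3 hW4
  have c1 : ∀ c, 0 ≤ c → c ≤ n → ((-(n + 1), c) : V) ∈ W1 := by
    intro c h1 h2
    rw [m1]
    unfold X
    simp only
    omega
  have c3 : ∀ c, 0 ≤ c → c ≤ n → ((m + 1, c) : V) ∈ W3 := by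
    intro c h1 h2
    rw [m3]
    unfold X
    simp only
    omega
  have r1 : ∀ a, ((a, n + 1) : V) ∈ W2 := by
    intro a
    rw [m2]
    simp only
    omega
  have r2 : ∀ a, ((a, -1) : V) ∈ W1 ∪ W4 ∪ W3 := by
    intro a
    rcases lt_or_ge (X (a, -1)) m with h | h
    · exact Or.inl (Or.inr ((m4 _).2 ⟨by simp only; omega, h⟩))
    · exact Or.inr ((m3 _).2 (Or.inr ⟨by simp only; omega, h⟩))
  have h123 : Conn (W1 ∪ W2 ∪ W3) (-(n + 1), 0) (m + 1, 0) := by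
    refine (conn_col (b' := n + 1) ?_).trans ((conn_row (a' := m + 1) fun c _ _ =>
      Or.inl (Or.inr (r1 c))).trans (conn_col ?_))
    · intro c h1 h2
      rw [min_eq_left (by omega)] at h1
      rw [max_eq_right (by omega)] at h2
      rcases lt_or_ge n c with h3 | h3
      · obtain rfl : c = n + 1 := by omega
        exact Or.inl (Or.inr (r1 _))
      · exact Or.inl (Or.inl (c1 c h1 h3))
    · intro c h1 h2
      rw [min_eq_right (by omega)] at h1
      rw [max_eq_left (by omega)] at h2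
      rcases lt_or_ge n c with h3 | h3
      · obtain rfl : c = n + 1 := by omega
        exact Or.inl (Or.inr (r1 _))
      · exact Or.inr (c3 c h1 h3)
  have h143 : Conn (W1 ∪ W4 ∪ W3) (-(n + 1), 0) (m + 1, 0) := by
    refine (conn_col (b' := -1) ?_).trans ((conn_row (a' := m + 1) fun c _ _ => r2 c).trans
      (conn_col ?_))
    · intro c h1 h2
      rw [min_eq_right (by omega)] at h1
      rw [max_eq_left (by omega)] at h2
      rcases lt_or_ge c 0 with h4 | h4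
      · obtain rfl : c = -1 := by omega
        exact r2 _
      · exact Or.inl (Or.inl (c1 c h4 (by omega)))
    · intro c h1 h2
      rw [min_eq_left (by omega)] at h1
      rw [max_eq_right (by omega)] at h2
      rcases lt_or_ge c 0 with h4 | h4
      · obtain rfl : c = -1 := by omega
        exact r2 _
      · exact Or.inr (c3 c h4 (by omega))
  have key := walls (R2 m n) W1 W2 W3 W4
    (by intro v; rw [mR2, m1, m2, m3, m4]; omega)
    (Set.disjoint_left.2 fun v h1 h2 => by rw [mR2] at h1; rw [m1] at h2; omega)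
    (Set.disjoint_left.2 fun v h1 h2 => by rw [mR2] at h1; rw [m2] at h2; omega)
    (Set.disjoint_left.2 fun v h1 h2 => by rw [mR2] at h1; rw [m3] at h2; omega)
    (Set.disjoint_left.2 fun v h1 h2 => by rw [mR2] at h1; rw [m4] at h2; omega)
    (Set.disjoint_left.2 fun v h1 h2 => by rw [m1] at h1; rw [m2] at h2; omega)
    (Set.disjoint_left.2 fun v h1 h2 => by rw [m1] at h1; rw [m3] at h2; omega)
    (Set.disjoint_left.2 fun v h1 h2 => by rw [m1] at h1; rw [m4] at h2; omega)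
    (Set.disjoint_left.2 fun v h1 h2 => by rw [m2] at h1; rw [m3] at h2; omega)
    (Set.disjoint_left.2 fun v h1 h2 => by rw [m2] at h1; rw [m4] at h2; omega)
    (Set.disjoint_left.2 fun v h1 h2 => by rw [m3] at h1; rw [m4] at h2; omega)
    (-(n + 1), 0) (m + 1, 0) (c1 0 le_rfl hn) (c3 0 le_rfl hn) h123 h143
    (fun a ha b hb hab => by
      rw [m1] at ha
      rw [m3] at hb
      unfold Adj X at *
      omega)
    (fun a ha b hb hab => by
      rw [m2] at ha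
      rw [m4] at hb
      unfold Adj X at *
      omega) O
  rcases key with ⟨a, ha, b, hb, x', y', h1, h2, h3⟩ | ⟨a, ha, b, hb, x', y', h1, h2, h3⟩
  · left
    have k1 := h3.left.2
    have k2 := h3.right.2
    rw [mR2] at k1 k2
    rw [m1] at ha
    rw [m3] at hb
    refine ⟨x', ?_, y', ?_, h3⟩
    · show X x' ≤ 1
      unfold Adj X at *
      omega
    · show 2 * m - 1 ≤ X y' ∨ (y'.2 ≤ 0 ∧ m - 1 ≤ X y')
      unfold Adj X at *
      omega
  · right
    have k1 := h3.left.2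
    have k2 := h3.right.2
    rw [mR2] at k1 k2
    rw [m2] at ha
    rw [m4] at hb
    refine ⟨x', ?_, y', ?_, h3⟩
    · show n ≤ x'.2
      unfold Adj X at *
      omega
    · show y'.2 ≤ 0 ∧ X y' ≤ m
      unfold Adj X at *
      omega

theorem cc_closed {v : V} (hv : v ∈ ex m n (cc m n O)) (h : v ∉ O) : v ∈ cc m n O := by
  obtain ⟨h1, h2 | ⟨u, hu, huv⟩ | h2⟩ := hv
  · exact h2
  · exact clus_adj hu ⟨h, h1⟩ huv
  · exact subset_clus ⟨h2, h, h1⟩

private theorem cc_prop' (O : Set V) : cc m n O ⊆ Oᶜ ∩ Rl m n ∧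
    ∀ x ∈ cc m n O, ∃ u ∈ cc m n O, n ≤ u.2 ∧ Conn (cc m n O) u x := by
  refine ⟨clus_subset, fun x hx => ?_⟩
  obtain ⟨u, hu, h1⟩ := clus_conn hx
  exact ⟨u, h1.left, hu, h1⟩

private theorem hc_iff (hm : 2 ≤ m) (hn : 0 ≤ n) (O : Set V) :
    HC O 0 (m - 1) 0 n ↔ ∀ v ∈ cc m n O, 0 < v.2 := by
  obtain ⟨hp1, hp2⟩ := cc_prop' (m := m) (n := n) O
  constructor
  · intro h v hv
    by_contra h0
    obtain ⟨u, hu, h1, h2⟩ := hp2 v hv
    refine rec_not O (l := 0) (r := m - 1) (b := 0) (t := n) (by omega) hn ⟨h, v, ?_, u, h1, ?_⟩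
    · show v.2 ≤ 0
      omega
    · exact h2.symm.mono hp1
  · intro h
    rcases rec_or O (l := 0) (r := m - 1) (b := 0) (t := n) (by omega) hn with h1 | h1
    · exact h1
    · exfalso
      obtain ⟨w, hw, w', hw', h1⟩ := h1
      have h2 := h w ⟨w', hw', h1.symm⟩
      replace hw : w.2 ≤ 0 := hw
      omega

private theorem vv (v : V) : vref m (vref m v) = v := by
  refine Prod.ext ?_ rfl
  show m - (m - v.1 - v.2) - v.2 = v.1
  ring

theorem keyA (hm : 2 ≤ m) (hn : 0 ≤ n) (h : HC O 0 (m - 1) 0 n)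
    (hJ : Join (art m O (ex m n (cc m n O)) ∩ R2 m n) (A1 m n) (A3 m)) : Mm m n O := by
  obtain ⟨hp1, hp2⟩ := cc_prop' (m := m) (n := n) O
  have hlow := (hc_iff hm hn O).1 h
  have hcl : ∀ v ∈ ex m n (cc m n O), v ∉ O → v ∈ cc m n O := fun v hv h' => cc_closed hv h'
  have hexc : ∀ v, v ∈ ex m n (cc m n O) ↔ v ∈ Rl m n ∧ (v ∈ cc m n O ∨
      (∃ u ∈ cc m n O, Adj u v) ∨ n ≤ v.2) := fun v => Iff.rfl
  generalize cc m n O = c at *
  generalize ex m n c = e at *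
  have art_iff : ∀ v, v ∈ art m O e ↔ v ∈ e ∨ (v ∈ O ∧ vref m v ∉ e) := fun v => Iff.rfl
  have hce : ∀ v ∈ c, v ∈ e := fun v hv => (hexc v).2 ⟨(hp1 hv).2, Or.inl hv⟩
  have heR : ∀ v ∈ e, 0 ≤ X v ∧ X v ≤ m - 1 ∧ 0 ≤ v.2 ∧ v.2 ≤ n := fun v hv => ((hexc v).1 hv).1
  by_contra hM
  rcases arcM_or hm hn O with h1 | h1
  · exact hM h1
  obtain ⟨t, ht, z, hz, h1⟩ := h1
  replace ht : n ≤ t.2 := ht
  replace hz : z.2 ≤ 0 ∧ X z ≤ m := hz
  have hpath := h1.symm
  clear h1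
  -- the artificial closed set
  have hT1 : ∀ v ∈ R2 m n, v ∉ O → v ∉ e → v ∈ (art m O e)ᶜ ∩ R2 m n := by
    intro v h2 h3 h4
    refine ⟨fun h5 => ?_, h2⟩
    rcases (art_iff v).1 h5 with h6 | h6
    · exact h4 h6
    · exact h3 h6.1
  have hT2 : ∀ v, vref m v ∈ e → v ∈ (art m O e)ᶜ ∩ R2 m n := by
    intro v h2
    have h3 := heR _ h2
    rw [(X_vref m v).1, (X_vref m v).2] at h3
    refine ⟨fun h5 => ?_, ?_⟩
    · rcases (art_iff v).1 h5 with h6 | h6
      · have h7 := heR _ h6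
        omega
      · exact h6.2 h2
    · rw [mR2]
      omega
  have hT0 : ∀ v ∈ (art m O e)ᶜ ∩ R2 m n, v ∈ R2 m n := fun v hv => hv.2
  have hdis : Disjoint (art m O e ∩ R2 m n) ((art m O e)ᶜ ∩ R2 m n) := by
    rw [Set.disjoint_left]
    intro v h1 h2
    exact h2.1 h1.1
  generalize (art m O e)ᶜ ∩ R2 m n = T at hT0 hT1 hT2 hdis
  -- the reflected cluster is joined to the top
  have href : ∀ v, vref m v ∈ c → ∃ t', n ≤ t'.2 ∧ m ≤ X t' ∧ Conn T v t' := by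
    intro v hv
    obtain ⟨u, hu, h2, h3⟩ := hp2 _ hv
    have h4 := (X_vref m u).1
    have h5 := (hp1 hu).2
    rw [mRl] at h5
    refine ⟨vref m u, h2, by omega, ?_⟩
    have h6 : Conn (vref m ⁻¹' c) (vref m u) v := by
      rw [conn_preimage (isAut_vref m), vv]
      exact h3
    exact (h6.mono fun x hx => hT2 x (hce _ hx)).symm
  have hrefE : ∀ v, vref m v ∈ e → ∃ t', n ≤ t'.2 ∧ m ≤ X t' ∧ Conn T v t' := by
    intro v hv
    have hvT := hT2 v hv
    obtain ⟨h2, h3 | ⟨u, hu, h3⟩ | h3⟩ := (hexc _).1 hv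
    · exact href v h3
    · have h4 : Adj (vref m u) v := by
        rw [← isAut_vref m, vv]
        exact h3
      obtain ⟨t', h5, h6, h7⟩ := href (vref m u) (by rw [vv]; exact hu)
      exact ⟨t', h5, h6, (Conn.of_adj hvT h7.left h4.symm).trans h7⟩
    · refine ⟨v, h3, ?_, Conn.refl hvT⟩
      rw [mRl, (X_vref m v).1] at h2
      omega
  -- the claim
  have claim : ∃ t', n ≤ t'.2 ∧ m ≤ X t' ∧ Conn T z t' := by
    obtain ⟨E, hE⟩ : ∃ E : Set V, E = {v | v ∈ e ∨ vref m v ∈ e} := ⟨_, rfl⟩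
    have mE : ∀ v, v ∈ E ↔ v ∈ e ∨ vref m v ∈ e := fun v => by rw [hE]; rfl
    clear hE
    have hzR := hpath.left
    have hzE : z ∉ E := by
      rw [mE]
      rintro (h2 | h2)
      · have h3 := hlow z (hcl z h2 hzR.1)
        omega
      · have h3 := heR _ h2
        rw [(X_vref m z).1] at h3
        omega
    have hET : ∀ v ∈ (Oᶜ ∩ R2 m n) \ E, v ∈ T := by
      rintro v ⟨⟨h2, h3⟩, h4⟩
      exact hT1 v h3 h2 fun h5 => h4 ((mE v).2 (Or.inl h5))
    by_cases hc : Conn ((Oᶜ ∩ R2 m n) \ E) z t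
    · have htR := hc.right
      have h2 := htR.1.2
      have h3 := htR.2
      rw [mE] at h3
      rw [mR2] at h2
      refine ⟨t, ht, ?_, hc.mono hET⟩
      by_contra h4
      refine h3 (Or.inl ((hexc t).2 ⟨?_, Or.inr (Or.inr ht)⟩))
      rw [mRl]
      omega
    · obtain ⟨x, y, hx, hy, hxy, -, h5⟩ := hpath.exit (A := comp ((Oᶜ ∩ R2 m n) \ E) z)
        (Conn.refl ⟨hzR, hzE⟩) hc
      have hyR := h5.left
      have hyE : y ∈ E := by
        by_contra h2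
        exact hy (comp_adj hx ⟨hyR, h2⟩ hxy)
      have hxE := comp_subset hx
      have hzx : Conn T z x := Conn.mono hET hx
      have hstep : ∀ v, vref m v ∈ e → Adj x v → ∃ t', n ≤ t'.2 ∧ m ≤ X t' ∧ Conn T z t' := by
        intro v hv hxv
        obtain ⟨t', h6, h7, h8⟩ := hrefE v hv
        exact ⟨t', h6, h7, (hzx.trans (Conn.of_adj hzx.right h8.left hxv)).trans h8⟩
      rcases (mE y).1 hyE with h2 | h2
      · have h3 := hcl y h2 hyR.1
        have h4 := heR y h2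
        have h6 : x ∉ Rl m n := fun h7 =>
          hxE.2 ((mE x).2 (Or.inl ((hexc x).2 ⟨h7, Or.inr (Or.inl ⟨y, h3, hxy.symm⟩)⟩)))
        have h7 := hxE.1.2
        rw [mRl] at h6
        rw [mR2] at h7
        have h8 : X x = m ∨ (X x = m + 1 ∧ X y = m - 1 ∧ x.2 = y.2) := by
          unfold Adj X at *
          omega
        rcases h8 with h8 | ⟨h8, h9, h10⟩
        · have h9 : vref m x = x := by
            refine Prod.ext ?_ rfl
            show m - x.1 - x.2 = x.1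
            unfold X at h8
            omega
          refine hstep (vref m y) (by rw [vv]; exact h2) ?_
          rw [← isAut_vref m, vv, h9]
          exact hxy
        · exfalso
          have h11 : vref m x = y := by
            refine Prod.ext ?_ h10
            show m - x.1 - x.2 = y.1
            unfold X at h8 h9
            omega
          exact hxE.2 ((mE x).2 (Or.inr (by rw [h11]; exact h2)))
      · exact hstep y h2 hxy
  obtain ⟨w, hw1, hw2, hw⟩ := claim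
  obtain ⟨u, hu, u', hu', hS⟩ := hJ
  replace hu : n ≤ u.2 ∧ X u ≤ m + 1 := hu
  replace hu' : 2 * m - 1 ≤ X u' ∨ (u'.2 ≤ 0 ∧ m - 1 ≤ X u') := hu'
  have bS : ∀ x ∈ art m O e ∩ R2 m n, 0 ≤ X x ∧ X x ≤ 2 * m ∧ 0 ≤ x.2 ∧ x.2 ≤ n :=
    fun x hx => hx.2
  have bT : ∀ x ∈ T, 0 ≤ X x ∧ X x ≤ 2 * m ∧ 0 ≤ x.2 ∧ x.2 ≤ n := fun x hx => hT0 x hx
  have b1 := bS u hS.left
  have b2 := bS u' hS.right
  have b3 := bT z hw.left
  have b4 := bT w hw.right
  have hwz := hw.symm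
  have huw : u ≠ w := fun h2 => Set.disjoint_left.1 hdis hS.left (h2 ▸ hw.right)
  have huz : u' ≠ z := fun h2 => Set.disjoint_left.1 hdis hS.right (h2 ▸ hw.left)
  have hlt : u.1 < w.1 := by
    by_contra h2
    refine huw (Prod.ext ?_ (by omega))
    unfold X at *
    omega
  rcases hu' with hu' | hu'
  · refine no_TR hdis hS hwz ?_ ?_ hlt ?_ ?_
    · intro y hy
      have h2 := bT y hy
      omega
    · intro x hx
      have h2 := bS x hx
      omega
    · intro x hx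
      have h2 := bS x hx
      omega
    · intro y hy h3
      have h2 := bT y hy
      unfold X at *
      omega
  · have hlt' : z.1 < u'.1 := by
      by_contra h2
      refine huz (Prod.ext ?_ (by omega))
      unfold X at *
      omega
    refine no_TB hdis hS hwz ?_ ?_ hlt ?_ ?_ hlt'
    · intro y hy
      have h2 := bT y hy
      omega
    · intro x hx
      have h2 := bS x hx
      omega
    · intro y hy
      have h2 := bT y hy
      omega
    · intro x hx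
      have h2 := bS x hx
      omega

theorem keyB (hm : 2 ≤ m) (hn : 0 ≤ n) (h : Mm m n O) (h' : Mm m n (vref m ⁻¹' O)) :
    HC O 0 (2 * m) 0 n := by
  obtain ⟨u, hu, u', hu', h⟩ := h
  obtain ⟨w0, hw, w0', hw', h'⟩ := h'
  replace hu : X u ≤ 1 := hu
  replace hw : X w0 ≤ 1 := hw
  replace hu' : 2 * m - 1 ≤ X u' ∨ (u'.2 ≤ 0 ∧ m - 1 ≤ X u') := hu'
  replace hw' : 2 * m - 1 ≤ X w0' ∨ (w0'.2 ≤ 0 ∧ m - 1 ≤ X w0') := hw'
  have h2 : vref m ⁻¹' (O ∩ R2 m n) = vref m ⁻¹' O ∩ R2 m n := by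
    ext v
    constructor
    · rintro ⟨h3, h4⟩
      refine ⟨h3, ?_⟩
      rw [mR2, (X_vref m v).1, (X_vref m v).2] at h4
      rw [mR2]
      omega
    · rintro ⟨h3, h4⟩
      refine ⟨h3, ?_⟩
      rw [mR2, (X_vref m v).1, (X_vref m v).2]
      rw [mR2] at h4
      omega
  rw [← h2, conn_preimage (isAut_vref m)] at h'
  obtain ⟨w, hw1⟩ : ∃ w, w = vref m w0 := ⟨_, rfl⟩
  obtain ⟨w', hw2⟩ : ∃ w, w = vref m w0' := ⟨_, rfl⟩
  rw [← hw1, ← hw2] at h'
  have x1 := (X_vref m w0).1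
  have x2 := (X_vref m w0').1
  have x3 := (X_vref m w0').2
  rw [← hw1] at x1
  rw [← hw2] at x2 x3
  rcases hu' with hu' | hu'
  · exact ⟨u, hu, u', hu', h⟩
  rcases hw' with hw' | hw'
  · refine ⟨w', ?_, w, ?_, h'.symm⟩
    · show X w' ≤ 0 + 1
      omega
    · show 2 * m - 1 ≤ X w
      omega
  by_cases hc : Conn (O ∩ R2 m n) u w
  · refine ⟨u, hu, w, ?_, hc⟩
    show 2 * m - 1 ≤ X w
    omega
  exfalso
  have hd : Disjoint (comp (O ∩ R2 m n) u) (comp (O ∩ R2 m n) w) := by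
    rw [Set.disjoint_left]
    intro z h3 h4
    have h5 : Conn (O ∩ R2 m n) u z := h3
    have h6 : Conn (O ∩ R2 m n) w z := h4
    exact hc (h5.trans h6.symm)
  have hS : ∀ x ∈ comp (O ∩ R2 m n) u, 0 ≤ X x ∧ X x ≤ 2 * m ∧ 0 ≤ x.2 ∧ x.2 ≤ n :=
    fun x hx => (comp_subset hx).2
  have hT : ∀ x ∈ comp (O ∩ R2 m n) w, 0 ≤ X x ∧ X x ≤ 2 * m ∧ 0 ≤ x.2 ∧ x.2 ≤ n :=
    fun x hx => (comp_subset hx).2
  have hf := h.in_comp
  have hg := h'.in_comp
  have q1 := hS _ hf.right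
  have q2 := hT _ hg.right
  have hne : u' ≠ w' := fun h3 => Set.disjoint_left.1 hd hf.right (h3 ▸ hg.right)
  have hna : ¬ Adj u' w' := fun h3 =>
    Set.disjoint_left.1 hd (comp_adj hf.right (comp_subset hg.right) h3) hg.right
  have hlt : w'.1 < u'.1 := by
    by_contra h3
    have h4 : w'.1 = u'.1 ∨ w'.1 = u'.1 + 1 := by
      unfold X at *
      omega
    rcases h4 with h4 | h4
    · exact hne (Prod.ext h4.symm (by omega))
    · exact hna (Or.inl ⟨h4, by omega⟩)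
  refine no_B hd hf hg ?_ ?_ ?_ ?_ hlt
  · intro y hy h3
    have h4 := hT y hy
    unfold X at *
    omega
  · intro x hx h3
    have h4 := hS x hx
    unfold X at *
    omega
  · intro y hy
    have h4 := hT y hy
    omega
  · intro x hx
    have h4 := hS x hx
    omega

theorem cc_eq_iff {c : Set V} (hc : c ⊆ Rl m n)
    (hj : ∀ x ∈ c, ∃ u ∈ c, n ≤ u.2 ∧ Conn c u x) :
    cc m n O = c ↔ (∀ v ∈ c, v ∉ O) ∧ ∀ v ∈ ex m n c, v ∉ c → v ∈ O := by
  constructor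
  · rintro rfl
    refine ⟨fun v hv => ((cc_prop' O).1 hv).1, fun v hv h1 => ?_⟩
    by_contra h2
    exact h1 (cc_closed hv h2)
  · rintro ⟨h1, h2⟩
    refine clus_eq (fun v hv => ⟨h1 v hv, hc hv⟩) (fun x hx => ?_) (fun x hx hxc => ?_)
    · obtain ⟨u, hu, h3, h4⟩ := hj x hx
      exact ⟨u, h3, h4⟩
    · refine ⟨fun h3 => ?_, fun k hk h3 => ?_⟩
      · exact hx.1 (h2 x ⟨hx.2, Or.inr (Or.inr h3)⟩ hxc)
      · exact hx.1 (h2 x ⟨hx.2, Or.inr (Or.inl ⟨k, hk, h3⟩)⟩ hxc)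

theorem cc_prop (O : Set V) : cc m n O ⊆ Rl m n ∧
    ∀ x ∈ cc m n O, ∃ u ∈ cc m n O, n ≤ u.2 ∧ Conn (cc m n O) u x :=
  ⟨fun _ hv => ((cc_prop' O).1 hv).2, (cc_prop' O).2⟩

theorem hc_iff_cc (hm : 2 ≤ m) (hn : 0 ≤ n) (O : Set V) :
    HC O 0 (m - 1) 0 n ↔ ∀ v ∈ cc m n O, 0 < v.2 := hc_iff hm hn O

end Pool.Agent.TriPerc
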