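import Pool.Agent.TriPerc.Half
import Pool.Agent.TriPerc.Harris
import Pool.Agent.TriPerc.RswA

/-!
# RSW at `p = 1/2`

Notation of `RswA`; `m ≥ 2`, `n ≥ 0`, `h w n = P (oHC (1/2) 0 w 0 n)`.

* `ev_cc`: for `c ⊆ Rl m n` the event `{w | cc m n (Op p w) = c}` depends only on the labels in
  `ex m n c`.  PROOF: if `c` has the property of `cc_prop`, use `cc_eq_iff` (an intersection of
  finitely many conditions `w v ≤ p` or `w v > p`, `v ∈ ex m n c`, note `c ⊆ ex m n c`; the set `Rl`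
  is finite); otherwise the event is empty.
* `ev_art`: for `e ⊆ Rl m n` the event `{w | Join (art m (Op p w) e ∩ R2 m n) A B}` depends only on
  the labels in `{v ∈ R2 m n | v ∉ e ∧ vref m v ∉ e}` (`ev_of_fin`: `art m O e ∩ R2` is determined
  by `O ∩` this set).
* `art_half`: for `e ⊆ Rl m n`: `1/2 ≤ P {w | Join (art m (Op (1/2) w) e ∩ R2 m n) (A1 m n) (A3 m)}`.
  PROOF.  Call this event `J` and let `J' = {w | Join ((art m (Op (1/2) w) e)ᶜ ∩ R2) A2 A4}`.  By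
  `arc_or`, `J ∪ J' = univ`.  Let `T w = fun v => 1 - w (vref m v)`; it preserves `P` (`mp_comp`,
  `mp_flip`).  `J' ⊆ T ⁻¹' J`: let `w ∈ J'` and let `v` be a vertex of the path: `v ∉ e` and
  (`w v > 1/2` or `vref m v ∈ e`).  Its mirror image `v' = vref m v` is in
  `art m (Op (1/2) (T w)) e`: if `v' ∈ e` clear; otherwise `w v > 1/2`, so
  `T w v' = 1 - w v < 1/2` and `vref m v' = v ∉ e`.  The mirror image of `R2` is `R2`, that of `A2`
  is contained in `A1`, that of `A4` in `A3`.  So the reflected path shows `T w ∈ J`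
  (`join_preimage`).  Hence `1 ≤ P J + P J' ≤ 2 P J`.
* `mm_half`: `P {w | Mm m n (Op (1/2) w)} ≥ (1/2) h (m - 1) n`.
  PROOF.  Sum over all subsets `c` of the finite set `Rl` all of whose vertices are in rows `> 0`:
  the events `{cc = c} ∩ J_{ex c}` are disjoint and contained in `{Mm}` (`keyA`, `hc_iff_cc`);
  `P ({cc = c} ∩ J_{ex c}) = P {cc = c} P (J_{ex c}) ≥ (1/2) P {cc = c}` by `indep` (the supports
  `ex c` and `{v ∉ ex c, ...}` are disjoint); and the sum of `P {cc = c}` over these `c` is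
  `P (oHC (1/2) 0 (m-1) 0 n)` (`hc_iff_cc`).
* `rsw_step`: `h (2 m) n ≥ (h (m - 1) n / 2) ^ 2`: `{Mm}` is a lower event depending on `R2`, and so
  is its mirror image `{w | Mm m n (vref m ⁻¹' Op (1/2) w)}`, which has the same probability
  (`mp_comp`); `harris_low` and `keyB`.
* `rsw`: for every `K` there is `c > 0` such that for all `n ≥ 1` and all `l, b` the rectangle
  `Rec l (l + K n) b (b + n)` is crossed horizontally by a `1/2`-open path with probability at least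
  `c`, and by a `1/2`-closed path.  PROOF: `h n n ≥ 1/2` (`half_rec`); by `rsw_step` with
  `m = w + 1`: `h (2 w + 2) n ≥ (h w n / 2) ^ 2` for `w ≥ 1`; `h` is decreasing in the width
  (`hc_sub`); so by induction `h (2 ^ k n) n ≥ c_k > 0` with `c_0 = 1/2`, `c_(k+1) = (c_k / 2)^2`.
  Choose `k` with `2 ^ k ≥ K + 1` and use `oHC_lb` (`K n + 1 ≤ (K + 1) n`; for `K = 0` use
  monotonicity from `K = 1`... state and prove for `K ≥ 1`).  Closed crossings: `flip_oHC`.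
-/

namespace Pool.Agent.TriPerc

open MeasureTheory Set

variable {m n : ℤ} {p : ℝ}

theorem ev_cc {c : Set V} (hc : c ⊆ Rl m n) :
    Ev (ex m n c) {w | cc m n (Op p w) = c} := by
  by_cases hj : ∀ x ∈ c, ∃ u ∈ c, n ≤ u.2 ∧ Conn c u x
  · have hfin : (ex m n c).Finite := (finite_rec 0 (m - 1) 0 n).subset fun v hv => hv.1
    refine ev_of_fin hfin {p} fun w w' h hw => ?_
    have h1 := h p (Finset.mem_singleton_self p)
    have h2 : ∀ v ∈ ex m n c, (v ∈ Op p w ↔ v ∈ Op p w') := fun v hv =>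
      ⟨fun h3 => (h1.subset ⟨h3, hv⟩).1, fun h3 => (h1.superset ⟨h3, hv⟩).1⟩
    obtain ⟨h3, h4⟩ := (cc_eq_iff hc hj).1 (show cc m n (Op p w) = c from hw)
    refine (cc_eq_iff hc hj).2 ⟨fun v hv h5 => h3 v hv ((h2 v ⟨hc hv, Or.inl hv⟩).2 h5),
      fun v hv hvc => (h2 v hv).1 (h4 v hv hvc)⟩
  · have h1 : {w | cc m n (Op p w) = c} = ∅ := by
      ext w
      refine ⟨fun hw => hj ?_, fun hw => absurd hw (notMem_empty w)⟩
      have h2 := (cc_prop (m := m) (n := n) (Op p w)).2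
      rw [show cc m n (Op p w) = c from hw] at h2
      exact h2
    rw [h1]
    exact ev_empty

theorem ev_art {e A B : Set V} (he : e ⊆ Rl m n) :
    Ev {v | v ∈ R2 m n ∧ v ∉ e ∧ vref m v ∉ e} {w | Join (art m (Op p w) e ∩ R2 m n) A B} := by
  have hfin : {v | v ∈ R2 m n ∧ v ∉ e ∧ vref m v ∉ e}.Finite :=
    (finite_rec 0 (2 * m) 0 n).subset fun v hv => hv.1
  refine ev_of_fin hfin {p} fun w w' h hw => ?_
  have h1 := h p (Finset.mem_singleton_self p)
  have h2 : art m (Op p w) e ∩ R2 m n = art m (Op p w') e ∩ R2 m n := by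
    ext v
    constructor
    · rintro ⟨h3 | ⟨h3, h4⟩, h5⟩
      · exact ⟨Or.inl h3, h5⟩
      · by_cases h6 : v ∈ e
        · exact ⟨Or.inl h6, h5⟩
        · exact ⟨Or.inr ⟨(h1.subset ⟨h3, h5, h6, h4⟩).1, h4⟩, h5⟩
    · rintro ⟨h3 | ⟨h3, h4⟩, h5⟩
      · exact ⟨Or.inl h3, h5⟩
      · by_cases h6 : v ∈ e
        · exact ⟨Or.inl h6, h5⟩
        · exact ⟨Or.inr ⟨(h1.superset ⟨h3, h5, h6, h4⟩).1, h4⟩, h5⟩
  show Join (art m (Op p w') e ∩ R2 m n) A B
  rw [← h2]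
  exact hw

private theorem vref_vref (m : ℤ) (v : V) : vref m (vref m v) = v := by
  ext
  · show m - (m - v.1 - v.2) - v.2 = v.1
    ring
  · rfl

private theorem vref_R2 (m n : ℤ) (v : V) : vref m v ∈ R2 m n ↔ v ∈ R2 m n := by
  obtain ⟨h1, h2⟩ := X_vref m v
  show (0 ≤ X (vref m v) ∧ X (vref m v) ≤ 2 * m ∧ 0 ≤ (vref m v).2 ∧ (vref m v).2 ≤ n) ↔
    (0 ≤ X v ∧ X v ≤ 2 * m ∧ 0 ≤ v.2 ∧ v.2 ≤ n)
  rw [h1, h2]
  constructor <;> rintro ⟨a1, a2, a3, a4⟩ <;> refine ⟨?_, ?_, a3, a4⟩ <;> omega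

theorem art_half (hm : 2 ≤ m) (hn : 0 ≤ n) {e : Set V} (he : e ⊆ Rl m n) :
    1 / 2 ≤ P {w | Join (art m (Op (1 / 2) w) e ∩ R2 m n) (A1 m n) (A3 m)} := by
  set J : Set Lab := {w | Join (art m (Op (1 / 2) w) e ∩ R2 m n) (A1 m n) (A3 m)} with hJ
  set J' : Set Lab := {w | Join ((art m (Op (1 / 2) w) e)ᶜ ∩ R2 m n) (A2 m n) (A4 m)} with hJ'
  have hmJ : MeasurableSet J := (ev_art he).1
  have hcov : (Set.univ : Set Lab) ⊆ J ∪ J' := fun w _ => arc_or hm hn _
  have hmp : MeasurePreserving (fun w : Lab => fun v => 1 - w (vref m v)) P P :=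
    mp_flip.comp (mp_comp (vref m))
  have hsub : J' ⊆ (fun w : Lab => fun v => 1 - w (vref m v)) ⁻¹' J := by
    intro w hw
    have h1 : Join ((art m (Op (1 / 2) w) e)ᶜ ∩ R2 m n) (A2 m n) (A4 m) := hw
    refine Join.mono ((join_preimage (isAut_vref m)).2 h1) ?_ ?_ ?_
    · rintro v ⟨h2, h3⟩
      refine ⟨?_, (vref_R2 m n v).1 h3⟩
      by_cases h4 : v ∈ e
      · exact Or.inl h4
      · have h5 : vref m v ∉ e := fun h => h2 (Or.inl h)
        have h6 : vref m v ∉ Op (1 / 2) w := fun h => h2 (Or.inr ⟨h, by rwa [vref_vref]⟩)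
        refine Or.inr ⟨?_, h5⟩
        have h7 : 1 / 2 < w (vref m v) := not_le.1 h6
        show 1 - w (vref m v) ≤ 1 / 2
        linarith
    · rintro v ⟨h2, h3⟩
      rw [(X_vref m v).1] at h3
      exact ⟨h2, by omega⟩
    · rintro v (h2 | ⟨h2, h3⟩)
      · left
        have h4 : X (vref m v) ≤ 1 := h2
        rw [(X_vref m v).1] at h4
        omega
      · right
        rw [(X_vref m v).1] at h3
        exact ⟨h2, by omega⟩
  have h1 : P J' ≤ P J :=
    (measure_mono hsub).trans_eq (hmp.measure_preimage hmJ.nullMeasurableSet)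
  have h2 : (1 : ENNReal) ≤ P J + P J := by
    calc (1 : ENNReal) = P Set.univ := measure_univ.symm
      _ ≤ P (J ∪ J') := measure_mono hcov
      _ ≤ P J + P J' := measure_union_le _ _
      _ ≤ P J + P J := by gcongr
  by_contra hlt
  rw [not_le] at hlt
  have h3 : P J + P J < 1 / 2 + 1 / 2 := ENNReal.add_lt_add hlt hlt
  rw [ENNReal.add_halves] at h3
  exact absurd h2 (not_le.2 h3)

theorem mm_half (hm : 2 ≤ m) (hn : 0 ≤ n) :
    1 / 2 * P (oHC (1 / 2) 0 (m - 1) 0 n) ≤ P {w | Mm m n (Op (1 / 2) w)} := by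
  classical
  set Rf : Finset V := (finite_rec 0 (m - 1) 0 n).toFinset with hRf
  set I : Finset (Finset V) := Rf.powerset.filter fun c => ∀ v ∈ c, 0 < v.2 with hI
  have hsubI : ∀ c ∈ I, (c : Set V) ⊆ Rl m n := fun c hc v hv => by
    have h1 := Finset.mem_powerset.1 (Finset.mem_filter.1 hc).1 (Finset.mem_coe.1 hv)
    exact (finite_rec 0 (m - 1) 0 n).mem_toFinset.1 h1
  have hex : ∀ c : Finset V, ex m n (c : Set V) ⊆ Rl m n := fun c v hv => hv.1
  set E : Finset V → Set Lab := fun c => {w | cc m n (Op (1 / 2) w) = (c : Set V)} with hE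
  set J : Finset V → Set Lab := fun c =>
    {w | Join (art m (Op (1 / 2) w) (ex m n c) ∩ R2 m n) (A1 m n) (A3 m)} with hJ
  have h1 : P (oHC (1 / 2) 0 (m - 1) 0 n) ≤ ∑ c ∈ I, P (E c) := by
    refine (measure_mono ?_).trans (measure_biUnion_finset_le I E)
    intro w hw
    have h2 := (hc_iff_cc hm hn (Op (1 / 2) w)).1 hw
    have h3 : (cc m n (Op (1 / 2) w)).Finite :=
      (finite_rec 0 (m - 1) 0 n).subset (cc_prop (Op (1 / 2) w)).1
    refine mem_iUnion₂.2 ⟨h3.toFinset, ?_, ?_⟩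
    · refine Finset.mem_filter.2 ⟨Finset.mem_powerset.2 fun v hv => ?_, fun v hv => ?_⟩
      · exact (finite_rec 0 (m - 1) 0 n).mem_toFinset.2
          ((cc_prop (Op (1 / 2) w)).1 (h3.mem_toFinset.1 hv))
      · exact h2 v (h3.mem_toFinset.1 hv)
    · show cc m n (Op (1 / 2) w) = (h3.toFinset : Set V)
      rw [h3.coe_toFinset]
  have h2 : ∑ c ∈ I, P (E c ∩ J c) ≤ P {w | Mm m n (Op (1 / 2) w)} := by
    rw [← measure_biUnion_finset]
    · refine measure_mono fun w hw => ?_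
      obtain ⟨c, hc, h3, h4⟩ := mem_iUnion₂.1 hw
      have h5 : cc m n (Op (1 / 2) w) = (c : Set V) := h3
      refine keyA hm hn ((hc_iff_cc hm hn _).2 ?_) ?_
      · rw [h5]
        exact fun v hv => (Finset.mem_filter.1 hc).2 v (Finset.mem_coe.1 hv)
      · rw [h5]
        exact h4
    · intro c _ d _ hcd
      refine Set.disjoint_left.2 fun w h3 h4 => hcd ?_
      have h5 : cc m n (Op (1 / 2) w) = (c : Set V) := h3.1
      have h6 : cc m n (Op (1 / 2) w) = (d : Set V) := h4.1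
      exact Finset.coe_injective (h5.symm.trans h6)
    · intro c hc
      exact (ev_cc (hsubI c hc)).1.inter (ev_art (hex c)).1
  have h3 : ∀ c ∈ I, 1 / 2 * P (E c) ≤ P (E c ∩ J c) := by
    intro c hc
    rw [indep (ev_cc (hsubI c hc)) (ev_art (hex c))
      (Set.disjoint_left.2 fun v hv hv' => hv'.2.1 hv), mul_comm]
    gcongr
    exact art_half hm hn (hex c)
  calc 1 / 2 * P (oHC (1 / 2) 0 (m - 1) 0 n) ≤ 1 / 2 * ∑ c ∈ I, P (E c) := by gcongr
    _ = ∑ c ∈ I, 1 / 2 * P (E c) := Finset.mul_sum _ _ _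
    _ ≤ ∑ c ∈ I, P (E c ∩ J c) := Finset.sum_le_sum h3
    _ ≤ P {w | Mm m n (Op (1 / 2) w)} := h2

theorem rsw_step (hm : 2 ≤ m) (hn : 0 ≤ n) :
    (1 / 2 * P (oHC (1 / 2) 0 (m - 1) 0 n)) ^ 2 ≤ P (oHC (1 / 2) 0 (2 * m) 0 n) := by
  set M1 : Set Lab := {w | Mm m n (Op (1 / 2) w)} with hM1
  set M2 : Set Lab := {w | Mm m n (vref m ⁻¹' Op (1 / 2) w)} with hM2
  have hfin : (R2 m n).Finite := finite_rec 0 (2 * m) 0 n
  have e1 := ev_join (p := 1 / 2) (A := {v | X v ≤ 1}) (B := A3 m) hfin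
  have e2 := ev_join (p := 1 / 2) (A := vref m ⁻¹' {v | X v ≤ 1}) (B := vref m ⁻¹' A3 m) hfin
  have h2 : M2 = {w | Join (Op (1 / 2) w ∩ R2 m n) (vref m ⁻¹' {v | X v ≤ 1})
      (vref m ⁻¹' A3 m)} := by
    ext w
    have h3 : vref m ⁻¹' Op (1 / 2) w ∩ R2 m n = vref m ⁻¹' (Op (1 / 2) w ∩ R2 m n) := by
      ext v
      exact and_congr Iff.rfl (vref_R2 m n v).symm
    have h4 : ∀ A : Set V, vref m ⁻¹' (vref m ⁻¹' A) = A := fun A => by
      ext v
      show vref m (vref m v) ∈ A ↔ v ∈ A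
      rw [vref_vref]
    show Join (vref m ⁻¹' Op (1 / 2) w ∩ R2 m n) {v | X v ≤ 1} (A3 m) ↔ _
    rw [h3]
    conv_lhs => rw [← h4 {v | X v ≤ 1}, ← h4 (A3 m)]
    exact join_preimage (isAut_vref m)
  have h5 : P M2 = P M1 := by
    rw [← (mp_comp (vref m)).measure_preimage (show MeasurableSet M1 from e1.1.1).nullMeasurableSet]
    rfl
  have h6 : P M1 * P M2 ≤ P (M1 ∩ M2) :=
    harris_low hfin e1.1 (by rw [h2]; exact e2.1) e1.2 (by rw [h2]; exact e2.2)
  calc (1 / 2 * P (oHC (1 / 2) 0 (m - 1) 0 n)) ^ 2 ≤ (P M1) ^ 2 := by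
        gcongr
        exact mm_half hm hn
    _ = P M1 * P M2 := by rw [h5, sq]
    _ ≤ P (M1 ∩ M2) := h6
    _ ≤ P (oHC (1 / 2) 0 (2 * m) 0 n) :=
        measure_mono fun w hw => keyB hm hn hw.1 hw.2

private theorem rsw_aux (k : ℕ) : ∃ c : ENNReal, c ≠ 0 ∧ c ≠ ⊤ ∧ ∀ n : ℤ, 1 ≤ n →
    c ≤ P (oHC (1 / 2) 0 (2 ^ k * n) 0 n) := by
  induction k with
  | zero =>
    refine ⟨1 / 2, by simp, by simp, fun n hn => ?_⟩
    rw [pow_zero, one_mul]
    exact half_rec hn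
  | succ k ih =>
    obtain ⟨c, h0, h1, h2⟩ := ih
    refine ⟨(1 / 2 * c) ^ 2, pow_ne_zero 2 (mul_ne_zero (by simp) h0),
      ENNReal.pow_ne_top (ENNReal.mul_ne_top (by simp) h1), fun n hn => ?_⟩
    have h3 : (1 : ℤ) ≤ 2 ^ k * n := by
      have h4 : (1 : ℤ) ≤ 2 ^ k := one_le_pow₀ (by norm_num)
      nlinarith
    have h5 := rsw_step (m := 2 ^ k * n + 1) (n := n) (by omega) (by omega)
    rw [add_sub_cancel_right] at h5
    calc (1 / 2 * c) ^ 2 ≤ (1 / 2 * P (oHC (1 / 2) 0 (2 ^ k * n) 0 n)) ^ 2 := by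
          gcongr
          exact h2 n hn
      _ ≤ P (oHC (1 / 2) 0 (2 * (2 ^ k * n + 1)) 0 n) := h5
      _ ≤ P (oHC (1 / 2) 0 (2 ^ (k + 1) * n) 0 n) := by
          refine measure_mono fun w hw => hc_sub le_rfl ?_ ?_ hw
          · rw [pow_succ]
            nlinarith
          · rw [pow_succ]
            nlinarith

theorem rsw (K : ℤ) (hK : 1 ≤ K) : ∃ c : ℝ, 0 < c ∧ ∀ n : ℤ, 1 ≤ n → ∀ l b : ℤ,
    c ≤ (P (oHC (1 / 2) l (l + K * n) b (b + n))).toReal ∧
    c ≤ (P (cHC (1 / 2) l (l + K * n) b (b + n))).toReal := by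
  obtain ⟨c, hc0, hc1, hc⟩ := rsw_aux (K + 1).toNat
  have hk : K + 1 ≤ 2 ^ (K + 1).toNat := by
    have h1 : (K + 1).toNat < 2 ^ (K + 1).toNat := Nat.lt_two_pow_self
    have h2 : ((K + 1).toNat : ℤ) = K + 1 := Int.toNat_of_nonneg (by omega)
    have h3 : ((K + 1).toNat : ℤ) < 2 ^ (K + 1).toNat := by exact_mod_cast h1
    omega
  refine ⟨c.toReal, ENNReal.toReal_pos hc0 hc1, fun n hn l b => ?_⟩
  have hKn : 1 ≤ K * n := by nlinarith
  have h1 : c ≤ P (oHC (1 / 2) 0 (K * n + 1) 0 n) := by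
    refine (hc n hn).trans (measure_mono fun w hw => ?_)
    exact hc_sub le_rfl (by nlinarith) (by omega) hw
  constructor
  · exact ENNReal.toReal_mono (measure_ne_top _ _) (h1.trans (oHC_lb hKn l b))
  · refine ENNReal.toReal_mono (measure_ne_top _ _) (le_trans ?_ (cHC_lb hKn l b))
    rw [flip_oHC]
    exact h1

end Pool.Agent.TriPerc
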