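import Pool.Agent.TriPerc.Ann
import Pool.Agent.TriPerc.RswB

/-!
# The hypothesis `Rsw c p N` and its first consequences (all frames, circuits, vertical crossings)

`Rsw c p N`: at level `p` and at all scales `1 ≤ n ≤ N` all rectangles of `X`-width `64 n` and
height `n` are crossed horizontally by an open path and by a closed path with probability at least
`c`.  It holds for `p = 1/2` and all `N` (`rsw_half`).  Everything about arms is proved under this
hypothesis, so that it can be used inside the near-critical window.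

* `frame`: for every automorphism `g` and every predicate on sets the probability of
  `{w | Q {v | g v ∈ Op p w}}` is that of `{w | Q (Op p w)}` (`mp_comp`); the same for `Cl`.
* `rsw_vert`: under `Rsw c p N`, for `1 ≤ n ≤ N`, `3 n + 2 ≤ k`: `P (oVC p l (l + k) b (b + n)) ≥ c`, the
  same for closed crossings.  PROOF.  Choose `b'` with `b + n - l - k ≤ 2 b' ≤ b - 2 n - l` (possible since
  `k - 3 n ≥ 2`) and `l' = 2 b - b' - n - 1`.  A horizontal
  crossing by a path in `{u | rot u ∈ O}` of `Rec l' (l' + 64 n) b' (b' + n)` becomes under `rot` a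
  path in `O`; for `v = rot u` one has `v.2 = (X u + u.2) / 2` and `X v = v.2 - 2 u.2`.  It starts at
  `2 v.2 ≤ l' + 1 + b' + n = 2 b` and ends at `2 v.2 ≥ l' + 64 n - 1 + b' = 2 b + 63 n - 2 ≥ 2 b + 2 n`.
  Restrict it to the rows `b..b + n` (last exit from `{row < b}`... as in `vc_of_conn`): there
  `X v = v.2 - 2 u.2` is between `b - 2 b' - 2 n` and `b + n - 2 b'`.  (First cut the path with
  `Conn.last` / `Conn.exit` to the rows `b..b+n`, then it is a vertical crossing.)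
* `rsw_long`: for every `K ≥ 1` there is `c' > 0`, depending only on `c` and `K`, such that under
  `Rsw c p N` all rectangles of width `K n` and height `n`, `1 ≤ n ≤ N`, are crossed horizontally
  (open and closed) with probability `≥ c'`.  PROOF by induction: width `64 n + 32 n j`: glue
  (`hc_glue`) a crossing of `[l, l + 64 n + 32 n j]`, one of
  `[l + 32 n + 32 n j, l + 96 n + 32 n j]` and a vertical crossing of the overlap (width `32 n`), with
  `harris_low` / `harris_up`: `c_(j+1) = c_j c^2`.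
* `circ_open`: under `Rsw c p N`, for `1 ≤ n < m`, `m - n ≤ N`, `4 m ≤ 64 (m - n)`:
  `P {w | ¬ Arm (Cl p w) z n m} ≥ c ^ 6` (open circuit); `circ_closed` the same with the colours
  exchanged.  PROOF: `six` and `harris_low_fin`; each of the six events is
  `oHC p (-2m) (2m) n m` in another frame, it has probability `≥ c` by `Rsw` with the scale
  `m - n` (width `4 m ≤ 64 (m - n)`, use `hc_sub`), and it is a lower set; `Cl p w = (Op p w)ᶜ`.
* `ev_arm`: `{w | Arm (Op p w) z n m}` is an event of `Ann z n m`, a lower set; for `Cl` an upper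
  set.
-/

namespace Pool.Agent.TriPerc

open MeasureTheory Set

/-- The RSW hypothesis at level `p` up to scale `N`. -/
def Rsw (c p : ℝ) (N : ℤ) : Prop := 0 < c ∧ c ≤ 1 / 4 ∧ 0 < p ∧ p < 1 ∧
  ∀ n : ℤ, 1 ≤ n → n ≤ N → ∀ l b : ℤ,
    c ≤ (P (oHC p l (l + 64 * n) b (b + n))).toReal ∧
    c ≤ (P (cHC p l (l + 64 * n) b (b + n))).toReal

theorem rsw_half : ∃ c : ℝ, ∀ N : ℤ, Rsw c (1 / 2) N := by
  obtain ⟨c, hc, h⟩ := rsw 64 (by norm_num)
  refine ⟨min c (1 / 4), fun N => ⟨lt_min hc (by norm_num), min_le_right _ _, by norm_num,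
    by norm_num, fun n hn _ l b => ?_⟩⟩
  exact ⟨(min_le_left _ _).trans (h n hn l b).1, (min_le_left _ _).trans (h n hn l b).2⟩

theorem Rsw.mono {c p : ℝ} {N M : ℤ} (h : Rsw c p N) (hM : M ≤ N) : Rsw c p M :=
  ⟨h.1, h.2.1, h.2.2.1, h.2.2.2.1, fun n hn hN l b => h.2.2.2.2 n hn (hN.trans hM) l b⟩

variable {c p : ℝ} {N n m l b k : ℤ} {z : V}

theorem frame (g : V ≃ V) (Q : Set V → Prop) (p : ℝ)
    (hQ : MeasurableSet {w : Lab | Q (Op p w)}) :
    P {w : Lab | Q {v | g v ∈ Op p w}} = P {w : Lab | Q (Op p w)} :=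
  (mp_comp g).measure_preimage hQ.nullMeasurableSet

private theorem frame_cl (g : V ≃ V) (Q : Set V → Prop) (p : ℝ)
    (hQ : MeasurableSet {w : Lab | Q (Cl p w)}) :
    P {w : Lab | Q {v | g v ∈ Cl p w}} = P {w : Lab | Q (Cl p w)} :=
  (mp_comp g).measure_preimage hQ.nullMeasurableSet

private theorem toReal_mono' {A B : Set Lab} (h : P A ≤ P B) : (P A).toReal ≤ (P B).toReal :=
  ENNReal.toReal_mono (measure_ne_top P B) h

private theorem rot_facts (u : V) : 2 * (rot u).2 = X u + u.2 ∧ 2 * X (rot u) = X u - 3 * u.2 ∧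
    X (rot u) = (rot u).2 - 2 * u.2 := by
  have h1 : (rot u).1 = -u.2 := rfl
  have h2 : (rot u).2 = u.1 + u.2 := rfl
  have h3 : X (rot u) = 2 * (rot u).1 + (rot u).2 := rfl
  have h4 : X u = 2 * u.1 + u.2 := rfl
  refine ⟨?_, ?_, ?_⟩ <;> omega

private theorem vc_of_rot (O : Set V) {l' b' : ℤ} (hn : 1 ≤ n)
    (h1 : b + n - l - k ≤ 2 * b') (h2 : 2 * b' ≤ b - 2 * n - l) (h3 : l' = 2 * b - b' - n - 1)
    (h : HC {v | rot v ∈ O} l' (l' + 64 * n) b' (b' + n)) : VC O l (l + k) b (b + n) := by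
  obtain ⟨u, hu, v, hv, huv⟩ := h
  have hu' : X u ≤ l' + 1 := hu
  have hv' : l' + 64 * n - 1 ≤ X v := hv
  have hcu := huv.left
  have hcv := huv.right
  obtain ⟨-, -, -, -, hu4⟩ := hcu
  obtain ⟨-, -, -, hv3, -⟩ := hcv
  have hu4' : u.2 ≤ b' + n := hu4
  have hv3' : b' ≤ v.2 := hv3
  set O' : Set V := {w | w ∈ O ∧ ∃ x, w = rot x ∧ b' ≤ x.2 ∧ x.2 ≤ b' + n} with hO'
  have hc := (conn_image isAut_rot).2 huv
  have hc2 : Conn (O' ∩ {z | (l' - 3 * b' - 3 * n) / 2 ≤ X z ∧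
      X z ≤ (l' + 64 * n - 3 * b') / 2}) (rot u) (rot v) := by
    refine hc.mono ?_
    rintro _ ⟨x, ⟨hx1, hx2, hx3, hx4, hx5⟩, rfl⟩
    obtain ⟨f1, f2, f3⟩ := rot_facts x
    refine ⟨⟨hx1, x, rfl, hx4, hx5⟩, ?_, ?_⟩
    · show (l' - 3 * b' - 3 * n) / 2 ≤ X (rot x)
      omega
    · show X (rot x) ≤ (l' + 64 * n - 3 * b') / 2
      omega
  obtain ⟨fu, -, -⟩ := rot_facts u
  obtain ⟨fv, -, -⟩ := rot_facts v
  have hvc := vc_of_conn (b := b) (t := b + n) hc2 (by omega) (by omega) (by omega)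
  refine Join.mono hvc ?_ subset_rfl subset_rfl
  rintro w ⟨⟨hw, x, rfl, hx4, hx5⟩, hw1, hw2, hw3, hw4⟩
  obtain ⟨f1, f2, f3⟩ := rot_facts x
  refine ⟨hw, ?_, ?_, hw3, hw4⟩
  · omega
  · omega

theorem rsw_vert (h : Rsw c p N) (hn : 1 ≤ n) (hN : n ≤ N) (hk : 3 * n + 2 ≤ k) :
    c ≤ (P (oVC p l (l + k) b (b + n))).toReal ∧ c ≤ (P (cVC p l (l + k) b (b + n))).toReal := by
  obtain ⟨b', hb1, hb2⟩ : ∃ b' : ℤ, b + n - l - k ≤ 2 * b' ∧ 2 * b' ≤ b - 2 * n - l :=
    ⟨(b - 2 * n - l) / 2, by omega, by omega⟩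
  obtain ⟨h1, h2⟩ := h.2.2.2.2 n hn hN (2 * b - b' - n - 1) b'
  refine ⟨h1.trans (toReal_mono' ?_), h2.trans (toReal_mono' ?_)⟩
  · have hf := frame rot (fun S => HC S (2 * b - b' - n - 1) (2 * b - b' - n - 1 + 64 * n) b'
      (b' + n)) p ev_oHC.1
    show P {w | HC (Op p w) (2 * b - b' - n - 1) (2 * b - b' - n - 1 + 64 * n) b' (b' + n)} ≤ _
    rw [← hf]
    exact measure_mono fun w hw => vc_of_rot (Op p w) hn hb1 hb2 rfl hw
  · have hf := frame_cl rot (fun S => HC S (2 * b - b' - n - 1)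
      (2 * b - b' - n - 1 + 64 * n) b' (b' + n)) p ev_cHC.1
    show P {w | HC (Cl p w) (2 * b - b' - n - 1) (2 * b - b' - n - 1 + 64 * n) b' (b' + n)} ≤ _
    rw [← hf]
    exact measure_mono fun w hw => vc_of_rot (Cl p w) hn hb1 hb2 rfl hw

private theorem hl_real {s : Set V} (hs : s.Finite) {A B : Set Lab} (hA : Ev s A) (hB : Ev s B)
    (lA : IsLowerSet A) (lB : IsLowerSet B) {x y : ℝ} (hy : 0 ≤ y)
    (h1 : x ≤ (P A).toReal) (h2 : y ≤ (P B).toReal) : x * y ≤ (P (A ∩ B)).toReal := by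
  have h3 := toReal_mono' (A := A ∩ B) (B := A ∩ B) le_rfl
  have h4 : (P A * P B).toReal ≤ (P (A ∩ B)).toReal :=
    ENNReal.toReal_mono (measure_ne_top P _) (harris_low hs hA hB lA lB)
  rw [ENNReal.toReal_mul] at h4
  exact (mul_le_mul h1 h2 hy ENNReal.toReal_nonneg).trans h4

private theorem hu_real {s : Set V} (hs : s.Finite) {A B : Set Lab} (hA : Ev s A) (hB : Ev s B)
    (lA : IsUpperSet A) (lB : IsUpperSet B) {x y : ℝ} (hy : 0 ≤ y)
    (h1 : x ≤ (P A).toReal) (h2 : y ≤ (P B).toReal) : x * y ≤ (P (A ∩ B)).toReal := by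
  have h4 : (P A * P B).toReal ≤ (P (A ∩ B)).toReal :=
    ENNReal.toReal_mono (measure_ne_top P _) (harris_up hs hA hB lA lB)
  rw [ENNReal.toReal_mul] at h4
  exact (mul_le_mul h1 h2 hy ENNReal.toReal_nonneg).trans h4

private theorem rec_sub {l r b t l' r' : ℤ} (h1 : l ≤ l') (h2 : r' ≤ r) :
    Rec l' r' b t ⊆ Rec l r b t :=
  fun _ hv => ⟨h1.trans hv.1, hv.2.1.trans h2, hv.2.2⟩

private theorem rsw_long_aux (h : Rsw c p N) (hn : 1 ≤ n) (hN : n ≤ N) (l b : ℤ) (j : ℕ) :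
    c ^ (2 * j + 1) ≤ (P (oHC p l (l + 64 * n + 32 * n * j) b (b + n))).toReal ∧
    c ^ (2 * j + 1) ≤ (P (cHC p l (l + 64 * n + 32 * n * j) b (b + n))).toReal := by
  have hc := h.1
  induction j with
  | zero =>
    have h1 := h.2.2.2.2 n hn hN l b
    simpa using h1
  | succ j ih =>
    have hj : 0 ≤ 32 * n * (j : ℤ) := by positivity
    set r := l + 64 * n + 32 * n * (j : ℤ) with hr
    set l' := l + 32 * n + 32 * n * (j : ℤ) with hl'
    have hr' : l + 64 * n + 32 * n * ((j + 1 : ℕ) : ℤ) = l' + 64 * n := by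
      rw [hl']
      push_cast
      ring
    have hrl : r = l' + 32 * n := by rw [hr, hl']; ring
    rw [hr']
    have h2 := h.2.2.2.2 n hn hN l' b
    have h3 := rsw_vert (l := l') (b := b) (k := 32 * n) h hn hN (by omega)
    rw [← hrl] at h3
    have hpow : c ^ (2 * (j + 1) + 1) = c ^ (2 * j + 1) * c * c := by ring
    rw [hpow]
    have hsub1 : Rec l r b (b + n) ⊆ Rec l (l' + 64 * n) b (b + n) :=
      rec_sub le_rfl (by omega)
    have hsub2 : Rec l' (l' + 64 * n) b (b + n) ⊆ Rec l (l' + 64 * n) b (b + n) :=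
      rec_sub (by omega) le_rfl
    have hsub3 : Rec l' r b (b + n) ⊆ Rec l (l' + 64 * n) b (b + n) :=
      rec_sub (by omega) (by omega)
    have hfin := finite_rec l (l' + 64 * n) b (b + n)
    constructor
    · have e1 := ((ev_oHC (p := p) (l := l) (r := r) (b := b) (t := b + n)).mono hsub1)
      have e2 := ((ev_oHC (p := p) (l := l') (r := l' + 64 * n) (b := b) (t := b + n)).mono hsub2)
      have e3 := ((ev_oVC (p := p) (l := l') (r := r) (b := b) (t := b + n)).mono hsub3)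
      have g1 := hl_real hfin e1 e2 low_oHC low_oHC hc.le ih.1 h2.1
      have g2 := hl_real hfin (e1.inter e2) e3 (low_oHC.inter low_oHC) low_oVC hc.le g1 h3.1
      refine g2.trans (toReal_mono' (measure_mono ?_))
      rintro w ⟨⟨w1, w2⟩, w3⟩
      exact hc_glue (by omega) (by omega) (by omega) (by omega) w1 w2 w3
    · have e1 := ((ev_cHC (p := p) (l := l) (r := r) (b := b) (t := b + n)).mono hsub1)
      have e2 := ((ev_cHC (p := p) (l := l') (r := l' + 64 * n) (b := b) (t := b + n)).mono hsub2)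
      have e3 := ((ev_cVC (p := p) (l := l') (r := r) (b := b) (t := b + n)).mono hsub3)
      have g1 := hu_real hfin e1 e2 up_cHC up_cHC hc.le ih.2 h2.2
      have g2 := hu_real hfin (e1.inter e2) e3 (up_cHC.inter up_cHC) up_cVC hc.le g1 h3.2
      refine g2.trans (toReal_mono' (measure_mono ?_))
      rintro w ⟨⟨w1, w2⟩, w3⟩
      exact hc_glue (by omega) (by omega) (by omega) (by omega) w1 w2 w3

theorem rsw_long (c : ℝ) (hc : 0 < c) (K : ℤ) (hK : 1 ≤ K) : ∃ c' : ℝ, 0 < c' ∧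
    ∀ (p : ℝ) (N : ℤ), Rsw c p N → ∀ n : ℤ, 1 ≤ n → n ≤ N → ∀ l b : ℤ,
    c' ≤ (P (oHC p l (l + K * n) b (b + n))).toReal ∧
    c' ≤ (P (cHC p l (l + K * n) b (b + n))).toReal := by
  refine ⟨c ^ (2 * K.toNat + 1), pow_pos hc _, fun p N h n hn hN l b => ?_⟩
  obtain ⟨h1, h2⟩ := rsw_long_aux h hn hN l b K.toNat
  have hK' : ((K.toNat : ℕ) : ℤ) = K := Int.toNat_of_nonneg (by omega)
  rw [hK'] at h1 h2
  have hKn : 0 < K * n := by positivity
  have hle : l + K * n ≤ l + 64 * n + 32 * n * K := by nlinarith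
  exact ⟨h1.trans (toReal_mono' (measure_mono fun w hw => hc_sub le_rfl hle (by omega) hw)),
    h2.trans (toReal_mono' (measure_mono fun w hw => hc_sub le_rfl hle (by omega) hw))⟩

theorem ev_arm (p : ℝ) (z : V) (n m : ℤ) :
    Ev (Ann z n m) {w | Arm (Op p w) z n m} ∧ IsLowerSet {w | Arm (Op p w) z n m} :=
  ev_join (finite_ann z n m)

theorem ev_arm_cl (p : ℝ) (z : V) (n m : ℤ) :
    Ev (Ann z n m) {w | Arm (Cl p w) z n m} ∧ IsUpperSet {w | Arm (Cl p w) z n m} :=
  ev_join_cl (finite_ann z n m)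

private theorem hc_frame {g : V ≃ V} (hg : IsAut g) (S : Set V) {l r b t : ℤ} :
    HC {v | g v ∈ S} l r b t ↔ Join (S ∩ (g.symm ⁻¹' Rec l r b t))
      (g.symm ⁻¹' {v | X v ≤ l + 1}) (g.symm ⁻¹' {v | r - 1 ≤ X v}) := by
  have e : ∀ T : Set V, g ⁻¹' (g.symm ⁻¹' T) = T := fun T => by
    ext v
    simp
  rw [← join_preimage hg, Set.preimage_inter, e, e, e]
  rfl

private theorem frame_low {g : V ≃ V} (hg : IsAut g) {l r b t : ℤ} :
    Ev (g.symm ⁻¹' Rec l r b t) {w | HC {v | g v ∈ Op p w} l r b t} ∧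
      IsLowerSet {w | HC {v | g v ∈ Op p w} l r b t} := by
  have h1 : {w | HC {v | g v ∈ Op p w} l r b t} = {w | Join (Op p w ∩ (g.symm ⁻¹' Rec l r b t))
      (g.symm ⁻¹' {v | X v ≤ l + 1}) (g.symm ⁻¹' {v | r - 1 ≤ X v})} := by
    ext w
    exact hc_frame hg (Op p w)
  rw [h1]
  exact ev_join ((finite_rec l r b t).preimage g.symm.injective.injOn)

private theorem frame_up {g : V ≃ V} (hg : IsAut g) {l r b t : ℤ} :
    Ev (g.symm ⁻¹' Rec l r b t) {w | HC {v | g v ∈ Cl p w} l r b t} ∧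
      IsUpperSet {w | HC {v | g v ∈ Cl p w} l r b t} := by
  have h1 : {w | HC {v | g v ∈ Cl p w} l r b t} = {w | Join (Cl p w ∩ (g.symm ⁻¹' Rec l r b t))
      (g.symm ⁻¹' {v | X v ≤ l + 1}) (g.symm ⁻¹' {v | r - 1 ≤ X v})} := by
    ext w
    exact hc_frame hg (Cl p w)
  rw [h1]
  exact ev_join_cl ((finite_rec l r b t).preimage g.symm.injective.injOn)

/-- the finite set on which the six crossings depend -/
private def sixSet (z : V) (n m : ℤ) : Set V :=
  ⋃ k : Fin 6, (fr z k).symm.symm ⁻¹' Rec (-2 * m) (2 * m) n m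

private theorem sixSet_finite (z : V) (n m : ℤ) : (sixSet z n m).Finite :=
  Set.finite_iUnion fun _ =>
    (finite_rec _ _ _ _).preimage (Equiv.injective _).injOn

private theorem six_lb (h : Rsw c p N) (hnm : n < m) (hN : m - n ≤ N)
    (hn : 1 ≤ n) (hm : m ≤ 16 * (m - n)) : c ≤ (P (oHC p (-2 * m) (2 * m) n m)).toReal ∧
      c ≤ (P (cHC p (-2 * m) (2 * m) n m)).toReal := by
  obtain ⟨h1, h2⟩ := h.2.2.2.2 (m - n) (by omega) hN (-2 * m) n
  rw [add_sub_cancel] at h1 h2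
  exact ⟨h1.trans (toReal_mono' (measure_mono fun w hw =>
      hc_sub le_rfl (by omega) (by omega) hw)),
    h2.trans (toReal_mono' (measure_mono fun w hw =>
      hc_sub le_rfl (by omega) (by omega) hw))⟩

private theorem prod_lb {A : Fin 6 → Set Lab} (hc : 0 ≤ c) (h : ∀ i, c ≤ (P (A i)).toReal)
    {B : Set Lab} (h2 : ∏ i, P (A i) ≤ P B) : c ^ 6 ≤ (P B).toReal := by
  have h3 : (∏ i, P (A i)).toReal ≤ (P B).toReal :=
    ENNReal.toReal_mono (measure_ne_top P B) h2
  rw [ENNReal.toReal_prod] at h3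
  refine le_trans ?_ h3
  have h4 : ∏ _i : Fin 6, c ≤ ∏ i, (P (A i)).toReal :=
    Finset.prod_le_prod (fun _ _ => hc) fun i _ => h i
  simpa using h4

theorem circ_open (h : Rsw c p N) (hn : 1 ≤ n) (hnm : n < m) (hN : m - n ≤ N)
    (hm : m ≤ 16 * (m - n)) : c ^ 6 ≤ (P {w | ¬ Arm (Cl p w) z n m}).toReal := by
  have hs := sixSet_finite z n m
  obtain ⟨hlb, -⟩ := six_lb h hnm hN hn hm
  have haut : ∀ k : Fin 6, IsAut (fr z k).symm := fun k => (isAut_fr z k).symm
  set A : Fin 6 → Set Lab := fun k =>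
    {w | HC {v | (fr z k).symm v ∈ Op p w} (-2 * m) (2 * m) n m} with hA
  have hev : ∀ k, Ev (sixSet z n m) (A k) := fun k =>
    (frame_low (haut k)).1.mono (Set.subset_iUnion
      (fun k : Fin 6 => (fr z k).symm.symm ⁻¹' Rec (-2 * m) (2 * m) n m) k)
  have hlow : ∀ k, IsLowerSet (A k) := fun k => (frame_low (haut k)).2
  have hP : ∀ k, c ≤ (P (A k)).toReal := fun k => by
    have hf := frame (fr z k).symm (fun S => HC S (-2 * m) (2 * m) n m) p
      (ev_oHC (p := p) (l := -2 * m) (r := 2 * m) (b := n) (t := m)).1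
    have hf2 : P (A k) = P (oHC p (-2 * m) (2 * m) n m) := hf
    rw [hf2]
    exact hlb
  refine prod_lb h.1.le hP ((harris_low_fin hs hev hlow).trans (measure_mono ?_))
  intro w hw
  rw [Set.mem_iInter] at hw
  show ¬ Arm (Cl p w) z n m
  rw [cl_compl]
  exact six hn hnm fun k hk => hw ⟨k, hk⟩

theorem circ_closed (h : Rsw c p N) (hn : 1 ≤ n) (hnm : n < m) (hN : m - n ≤ N)
    (hm : m ≤ 16 * (m - n)) : c ^ 6 ≤ (P {w | ¬ Arm (Op p w) z n m}).toReal := by
  have hs := sixSet_finite z n m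
  obtain ⟨-, hlb⟩ := six_lb h hnm hN hn hm
  have haut : ∀ k : Fin 6, IsAut (fr z k).symm := fun k => (isAut_fr z k).symm
  set A : Fin 6 → Set Lab := fun k =>
    {w | HC {v | (fr z k).symm v ∈ Cl p w} (-2 * m) (2 * m) n m} with hA
  have hev : ∀ k, Ev (sixSet z n m) (A k) := fun k =>
    (frame_up (haut k)).1.mono (Set.subset_iUnion
      (fun k : Fin 6 => (fr z k).symm.symm ⁻¹' Rec (-2 * m) (2 * m) n m) k)
  have hup : ∀ k, IsUpperSet (A k) := fun k => (frame_up (haut k)).2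
  have hP : ∀ k, c ≤ (P (A k)).toReal := fun k => by
    have hf := frame_cl (fr z k).symm (fun S => HC S (-2 * m) (2 * m) n m) p
      (ev_cHC (p := p) (l := -2 * m) (r := 2 * m) (b := n) (t := m)).1
    have hf2 : P (A k) = P (cHC p (-2 * m) (2 * m) n m) := hf
    rw [hf2]
    exact hlb
  refine prod_lb h.1.le hP ((harris_up_fin hs hev hup).trans (measure_mono ?_))
  intro w hw
  rw [Set.mem_iInter] at hw
  show ¬ Arm (Op p w) z n m
  rw [← compl_compl (Op p w), ← cl_compl]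
  exact six hn hnm fun k hk => hw ⟨k, hk⟩

end Pool.Agent.TriPerc
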