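import Pool.Agent.TriPerc.Ann

/-!
# Sup-norm squares and square annuli

`sn v = max |v.1| |v.2|`; `Sq z n = {sn (v - z) ≤ n}` is a box `Par`; `SA z n m` is the square annulus,
`Rg z n` the ring.  All facts are elementary.
* `sn_nrm`: `sn v ≤ nrm v ≤ 2 sn v`.
* `sn_adj`: a step changes `sn (· - z)` by at most `1`.
* `isConn_sq`: `isConn_par`.  `isConn_sout`: the outside of a square is the union of four half planes
  (`isConn_rows` for the half planes given by the second coordinate, and their images under `swp`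
  for those given by the first one; consecutive ones meet; `IsConn.union`).
* `sarm_of_conn`: a path from the square of radius `n` to the outside of the open square of radius
  `m`, `n ≤ m`, contains a path in the annulus `SA z n m` from the ring `Rg z n` to the ring `Rg z m`: last
  exit from `{sn ≤ n}` and then first visit of `{sn ≥ m}` (as `arm_of_conn`); more precisely
  `sarm_from`: if the starting point `u` is in `SA z n m` and the path stays outside the open square,
  i.e. `S ⊆ {n ≤ sn (· - z)}`, then `u` itself is joined to `Rg z m` inside the annulus (first visit).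
* `swp_sn`, `neg_sn`: the symmetries `swp` and `v ↦ -v` preserve `sn`.
* `hit_arm`: an arm across the hexagonal annulus: if `u, v` are joined in `S`, `sn (u - x) ≤ n`... see
  the statement: `nrm (u - x) ≤ n`, `m ≤ sn (v - x)`; then `Arm S x n m` (`sn ≤ nrm`, `arm_of_conn`).
-/

namespace Pool.Agent.TriPerc

/-- The sup norm. -/
def sn (v : V) : ℤ := max |v.1| |v.2|

/-- The square of radius `n` round `z`. -/
def Sq (z : V) (n : ℤ) : Set V := {v | sn (v - z) ≤ n}

/-- The square annulus. -/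
def SA (z : V) (n m : ℤ) : Set V := {v | n ≤ sn (v - z) ∧ sn (v - z) ≤ m}

/-- The ring. -/
def Rg (z : V) (n : ℤ) : Set V := {v | sn (v - z) = n}

/-- The point reflection `v ↦ -v`. -/
def neg : V ≃ V := Equiv.neg V

variable {S T : Set V} {u v w x y z : V} {n m n' m' : ℤ}

private theorem sn_le_iff : sn w ≤ n ↔ |w.1| ≤ n ∧ |w.2| ≤ n := by
  unfold sn
  exact max_le_iff

private theorem le_sn_iff : n ≤ sn w ↔ n ≤ |w.1| ∨ n ≤ |w.2| := by
  unfold sn
  exact le_max_iff

private theorem lt_sn_iff : n < sn w ↔ n < |w.1| ∨ n < |w.2| := by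
  unfold sn
  exact lt_max_iff

private theorem sub1 (v z : V) : (v - z).1 = v.1 - z.1 := rfl

private theorem sub2 (v z : V) : (v - z).2 = v.2 - z.2 := rfl

theorem sn_nonneg (v : V) : 0 ≤ sn v := by
  exact (abs_nonneg v.1).trans (le_max_left _ _)

theorem sn_le_nrm (v : V) : sn v ≤ nrm v := by
  unfold sn nrm
  exact le_max_left _ _

theorem nrm_le_sn (v : V) : nrm v ≤ 2 * sn v := by
  have h1 : |v.1| ≤ sn v := le_max_left _ _
  have h2 : |v.2| ≤ sn v := le_max_right _ _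
  have h3 := abs_add_le v.1 v.2
  have h4 := sn_nonneg v
  unfold nrm
  exact max_le (max_le (by omega) (by omega)) (by omega)

theorem sn_adj (h : Adj u v) (z : V) : |sn (v - z) - sn (u - z)| ≤ 1 := by
  obtain ⟨h1, h2, -⟩ := h.abs
  have key : ∀ a b : V, |b.1 - a.1| ≤ 1 → |b.2 - a.2| ≤ 1 → sn (b - z) ≤ sn (a - z) + 1 := by
    intro a b hab1 hab2
    obtain ⟨k1, k2⟩ := sn_le_iff.1 (le_refl (sn (a - z)))
    rw [sn_le_iff]
    rw [sub1] at k1 ⊢
    rw [sub2] at k2 ⊢
    generalize sn (a - z) = M at *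
    simp only [abs_le] at *
    omega
  have k1 := key u v h1 h2
  have k2 := key v u (by rw [abs_sub_comm]; exact h1) (by rw [abs_sub_comm]; exact h2)
  rw [abs_le]
  omega

theorem sn_add (u v : V) : sn (u + v) ≤ sn u + sn v := by
  have h1 : |u.1| ≤ sn u := le_max_left _ _
  have h2 : |u.2| ≤ sn u := le_max_right _ _
  have h3 : |v.1| ≤ sn v := le_max_left _ _
  have h4 : |v.2| ≤ sn v := le_max_right _ _
  have h5 := abs_add_le u.1 v.1
  have h6 := abs_add_le u.2 v.2
  rw [sn_le_iff]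
  exact ⟨h5.trans (add_le_add h1 h3), h6.trans (add_le_add h2 h4)⟩

theorem sn_neg (u : V) : sn (-u) = sn u := by
  change max |-u.1| |-u.2| = max |u.1| |u.2|
  rw [abs_neg, abs_neg]

theorem sq_eq (z : V) (n : ℤ) : Sq z n = Par (z.1 - n) (z.1 + n) (z.2 - n) (z.2 + n) := by
  ext v
  change sn (v - z) ≤ n ↔ z.1 - n ≤ v.1 ∧ v.1 ≤ z.1 + n ∧ z.2 - n ≤ v.2 ∧ v.2 ≤ z.2 + n
  rw [sn_le_iff, sub1, sub2]
  simp only [abs_le]
  constructor <;> intro h <;> omega

theorem sq_mono (h : n ≤ m) : Sq z n ⊆ Sq z m := by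
  exact fun _ hv => le_trans hv h

theorem finite_sq (z : V) (n : ℤ) : (Sq z n).Finite := by
  rw [sq_eq]
  exact finite_par _ _ _ _

theorem finite_sa (z : V) (n m : ℤ) : (SA z n m).Finite := by
  exact (finite_sq z m).subset fun _ hv => hv.2

theorem sa_sub (h : n ≤ n') (h' : m' ≤ m) : SA z n' m' ⊆ SA z n m := by
  exact fun _ hv => ⟨h.trans hv.1, hv.2.trans h'⟩

theorem sa_sub_sq : SA z n m ⊆ Sq z m := by
  exact fun _ hv => hv.2

theorem isConn_sq (z : V) (n : ℤ) : IsConn (Sq z n) := by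
  rw [sq_eq]
  exact isConn_par _ _ _ _

theorem isConn_sout (z : V) (n : ℤ) : IsConn {v : V | n < sn (v - z)} := by
  have hv : ∀ S : Set V, (∀ a a' b c : ℤ, (a, b) ∈ S → (a', b) ∈ S → a ≤ c → c ≤ a' →
      (c, b) ∈ S) → (∀ u ∈ S, ∀ v ∈ S, u.2 < v.2 → ((u.1, u.2 + 1) : V) ∈ S) → IsConn S :=
    fun S h1 h2 => isConn_rows h1 fun u hu v hv huv =>
      ⟨u, hu, (u.1, u.2 + 1), h2 u hu v hv huv, rfl, rfl, Or.inr (Or.inl ⟨rfl, rfl⟩)⟩
  have hA : IsConn {v : V | z.2 + n < v.2} := by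
    refine hv _ (fun a a' b c h _ _ _ => h) fun u hu v hv huv => ?_
    have hu' : z.2 + n < u.2 := hu
    change z.2 + n < u.2 + 1
    omega
  have hC : IsConn {v : V | v.2 < z.2 - n} := by
    refine hv _ (fun a a' b c h _ _ _ => h) fun u hu v hv huv => ?_
    have hu' : v.2 < z.2 - n := hv
    change u.2 + 1 < z.2 - n
    omega
  have hB : IsConn {v : V | z.1 + n < v.1} := by
    refine hv _ (fun a a' b c h _ h' _ => ?_) fun u hu v hv huv => hu
    have h1 : z.1 + n < a := h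
    change z.1 + n < c
    omega
  have hD : IsConn {v : V | v.1 < z.1 - n} := by
    refine hv _ (fun a a' b c _ h _ h' => ?_) fun u hu v hv huv => hu
    have h1 : a' < z.1 - n := h
    change c < z.1 - n
    omega
  have h1 := hA.union hB ⟨((z.1 + n + 1, z.2 + n + 1) : V), by
    change z.2 + n < z.2 + n + 1
    omega, ((z.1 + n + 1, z.2 + n + 1) : V), by
    change z.1 + n < z.1 + n + 1
    omega, Or.inl rfl⟩
  have h2 := h1.union hC ⟨((z.1 + n + 1, z.2 - n - 1) : V), by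
    right
    change z.1 + n < z.1 + n + 1
    omega, ((z.1 + n + 1, z.2 - n - 1) : V), by
    change z.2 - n - 1 < z.2 - n
    omega, Or.inl rfl⟩
  have h3 := h2.union hD ⟨((z.1 - n - 1, z.2 - n - 1) : V), by
    right
    change z.2 - n - 1 < z.2 - n
    omega, ((z.1 - n - 1, z.2 - n - 1) : V), by
    change z.1 - n - 1 < z.1 - n
    omega, Or.inl rfl⟩
  have h4 : {v : V | n < sn (v - z)} = {v : V | z.2 + n < v.2} ∪ {v : V | z.1 + n < v.1} ∪
      {v : V | v.2 < z.2 - n} ∪ {v : V | v.1 < z.1 - n} := by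
    ext v
    change n < sn (v - z) ↔ ((z.2 + n < v.2 ∨ z.1 + n < v.1) ∨ v.2 < z.2 - n) ∨ v.1 < z.1 - n
    rw [lt_sn_iff, sub1, sub2, lt_abs, lt_abs]
    constructor <;> intro h <;> omega
  rw [h4]
  exact h3

/-- The ring is the rim of the square. -/
theorem rg_eq (hn : 0 ≤ n) (z : V) :
    {v : V | v ∈ Par (z.1 - n) (z.1 + n) (z.2 - n) (z.2 + n) ∧
      (v.1 = z.1 - n ∨ v.1 = z.1 + n ∨ v.2 = z.2 - n ∨ v.2 = z.2 + n)} = Rg z n := by
  ext v
  change ((z.1 - n ≤ v.1 ∧ v.1 ≤ z.1 + n ∧ z.2 - n ≤ v.2 ∧ v.2 ≤ z.2 + n) ∧ (v.1 = z.1 - n ∨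
    v.1 = z.1 + n ∨ v.2 = z.2 - n ∨ v.2 = z.2 + n)) ↔ sn (v - z) = n
  rw [le_antisymm_iff (a := sn (v - z)), sn_le_iff, le_sn_iff, sub1, sub2, le_abs, le_abs]
  simp only [abs_le]
  constructor <;> intro h <;> omega

theorem sq_sub_ball : Sq z n ⊆ Ball z (2 * n) := by
  intro v hv
  have h1 := nrm_le_sn (v - z)
  have h2 : sn (v - z) ≤ n := hv
  change nrm (v - z) ≤ 2 * n
  omega

theorem ball_sub_sq : Ball z n ⊆ Sq z n := by
  exact fun v hv => (sn_le_nrm _).trans hv

/-- A path across a square annulus. -/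
theorem sarm_of_conn (h : Conn S u v) (hu : sn (u - z) ≤ n) (hv : m ≤ sn (v - z))
    (hnm : n ≤ m) : ∃ a ∈ Rg z n, ∃ b ∈ Rg z m, Conn (S ∩ SA z n m) a b ∧ Conn S u a ∧
      Conn S b v := by
  have hfirst : ∀ y, Conn (S \ {w | sn (w - z) ≤ n}) y v → sn (y - z) ≤ m →
      n ≤ sn (y - z) → ∃ b ∈ Rg z m, Conn (S ∩ SA z n m) y b ∧ Conn S b v := by
    intro y hyv hym hyn
    by_cases h4 : m ≤ sn (y - z)
    · exact ⟨y, le_antisymm hym h4, Conn.refl ⟨hyv.left.1, hyn, hym⟩,
        hyv.mono fun w hw => hw.1⟩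
    · obtain ⟨x2, y2, k1, k2, k3, k4, k5⟩ := hyv.exit (A := {w | sn (w - z) < m})
        (by change sn (y - z) < m; omega) (by change ¬ sn (v - z) < m; omega)
      have k1' : sn (x2 - z) < m := k1
      have k2' : ¬ sn (y2 - z) < m := k2
      have k6 := abs_le.1 (sn_adj k3 z)
      have k7 : ¬ sn (x2 - z) ≤ n := k4.right.1.2
      have hy2A : y2 ∈ S ∩ SA z n m := ⟨k5.left.1, by omega, by omega⟩
      have hx2 : Conn (S ∩ SA z n m) y x2 := by
        refine k4.mono ?_
        rintro w ⟨⟨w1, w2⟩, w3⟩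
        have w2' : ¬ sn (w - z) ≤ n := w2
        have w3' : sn (w - z) < m := w3
        exact ⟨w1, by omega, by omega⟩
      refine ⟨y2, ?_, hx2.trans (Conn.of_adj hx2.right hy2A k3), k5.mono fun w hw => hw.1⟩
      change sn (y2 - z) = m
      omega
  by_cases h1 : sn (v - z) ≤ n
  · have h2 : sn (v - z) = n := by omega
    have h3 : sn (v - z) = m := by omega
    exact ⟨v, h2, v, h3, Conn.refl ⟨h.right, by omega, by omega⟩, h, Conn.refl h.right⟩
  · obtain ⟨x, y, hx, hy, hxy, hux, hyv⟩ := h.last (A := {w | sn (w - z) ≤ n}) hu h1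
    have hx' : sn (x - z) ≤ n := hx
    have hy' : ¬ sn (y - z) ≤ n := hy
    have h2 := abs_le.1 (sn_adj hxy z)
    have hxn : sn (x - z) = n := by omega
    have hyn : sn (y - z) = n + 1 := by omega
    by_cases h3 : m ≤ n
    · have h4 : sn (x - z) = m := by omega
      exact ⟨x, hxn, x, h4, Conn.refl ⟨hux.right, by omega, by omega⟩, hux,
        (Conn.of_adj hux.right hyv.left.1 hxy).trans (hyv.mono fun w hw => hw.1)⟩
    · have hxA : x ∈ S ∩ SA z n m := ⟨hux.right, by omega, by omega⟩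
      have hyA : y ∈ S ∩ SA z n m := ⟨hyv.left.1, by omega, by omega⟩
      have hxy' : Conn (S ∩ SA z n m) x y := Conn.of_adj hxA hyA hxy
      obtain ⟨b, hb, hb1, hb2⟩ := hfirst y hyv (by omega) (by omega)
      exact ⟨x, hxn, b, hb, hxy'.trans hb1, hux, hb2⟩

/-- Outward arm of a given vertex. -/
theorem sarm_from (h : Conn S u v) (hS : S ⊆ {x | n ≤ sn (x - z)}) (hu : sn (u - z) ≤ m)
    (hv : m ≤ sn (v - z)) : ∃ b ∈ Rg z m, Conn (S ∩ SA z n m) u b := by
  by_cases h4 : m ≤ sn (u - z)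
  · exact ⟨u, le_antisymm hu h4, Conn.refl ⟨h.left, hS h.left, hu⟩⟩
  · obtain ⟨x2, y2, k1, k2, k3, k4, k5⟩ := h.exit (A := {w | sn (w - z) < m})
      (by change sn (u - z) < m; omega) (by change ¬ sn (v - z) < m; omega)
    have k1' : sn (x2 - z) < m := k1
    have k2' : ¬ sn (y2 - z) < m := k2
    have k6 := abs_le.1 (sn_adj k3 z)
    have hy2A : y2 ∈ S ∩ SA z n m := ⟨k5.left, hS k5.left, by omega⟩
    have hx2 : Conn (S ∩ SA z n m) u x2 := by
      refine k4.mono ?_
      rintro w ⟨w1, w3⟩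
      have w3' : sn (w - z) < m := w3
      exact ⟨w1, hS w1, by omega⟩
    refine ⟨y2, ?_, hx2.trans (Conn.of_adj hx2.right hy2A k3)⟩
    change sn (y2 - z) = m
    omega

/-- Inward arm of a given vertex. -/
theorem sarm_in (h : Conn S u v) (hS : S ⊆ {x | sn (x - z) ≤ m}) (hu : n ≤ sn (u - z))
    (hv : sn (v - z) ≤ n) : ∃ a ∈ Rg z n, Conn (S ∩ SA z n m) u a := by
  by_cases h4 : sn (u - z) ≤ n
  · exact ⟨u, le_antisymm h4 hu, Conn.refl ⟨h.left, hu, hS h.left⟩⟩
  · obtain ⟨x2, y2, k1, k2, k3, k4, k5⟩ := h.exit (A := {w | n < sn (w - z)})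
      (by change n < sn (u - z); omega) (by change ¬ n < sn (v - z); omega)
    have k1' : n < sn (x2 - z) := k1
    have k2' : ¬ n < sn (y2 - z) := k2
    have k6 := abs_le.1 (sn_adj k3 z)
    have hy2A : y2 ∈ S ∩ SA z n m := ⟨k5.left, by omega, hS k5.left⟩
    have hx2 : Conn (S ∩ SA z n m) u x2 := by
      refine k4.mono ?_
      rintro w ⟨w1, w3⟩
      have w3' : n < sn (w - z) := w3
      exact ⟨w1, by omega, hS w1⟩
    refine ⟨y2, ?_, hx2.trans (Conn.of_adj hx2.right hy2A k3)⟩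
    change sn (y2 - z) = n
    omega

theorem swp_sn (v : V) : sn (swp v) = sn v := by
  exact max_comm _ _

theorem neg_sn (v : V) : sn (neg v) = sn v := by
  exact sn_neg v

theorem isAut_neg : IsAut neg := by
  intro u v
  change Adj (-u) (-v) ↔ Adj u v
  unfold Adj
  simp only [Prod.fst_neg, Prod.snd_neg]
  constructor <;> intro h <;> omega

theorem hit_arm (h : Conn S u v) (hu : nrm (u - x) ≤ n) (hv : m ≤ sn (v - x)) (hnm : n ≤ m) :
    Arm S x n m := by
  exact arm_of_conn h hu (hv.trans (sn_le_nrm _)) hnm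

end Pool.Agent.TriPerc
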