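import Pool.Agent.TriPerc.HarrisB
import Pool.Agent.TriPerc.RswC
import Pool.Agent.TriPerc.Sqr

/-!
# RSW for the boxes `Par`; the four crossings round a vertex; tubes of circuits

* `ph_of_conn`, `pv_of_conn`: a path in a horizontal (vertical) strip which goes from `v.1 ≤ l` to
  `r ≤ v.1` contains a crossing (last exit, first visit; a step changes `v.1` by at most `1`); as
  `hc_of_conn`.
* `ph_col`: a crossing path from `v.1 ≤ a` to `a ≤ v.1` contains a vertex with `v.1 = a`.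
* `ph_of_hc`: `HC S (2l + b - 1) (2l + b - 1 + k) b t` with `k ≥ 2(r - l) + (t - b) + 2` implies
  `PH S l r b t`: the path starts at `X ≤ 2l + b`, row `≥ b`, so `v.1 ≤ l`; it ends at
  `X ≥ 2 l + b - 2 + k`, row `≤ t`, so `v.1 ≥ r`.
* `pv_swp`: `PV S l r b t ↔ PH (swp ⁻¹' S) b t l r`.
* `rsp`: under `Rsw c p N`, for `1 ≤ n ≤ N`, `0 ≤ k ≤ K n` the box of width `k` and height `n` is
  crossed
  horizontally, the box of width `n` and height `k` vertically, by both colours, with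
  probability `≥ c'`: `rsw_long` with `2 K + 3`, `ph_of_hc`, `frame` for `swp`.
* `Cr4 S z n m`: the four long crossings of the four sides of the annulus `SA z n m`.
  `cr4_prob`: `≥ c'` for `1 ≤ n`, `m = 2 n`, `n ≤ N`, by `harris_low_fin` / `harris_up_fin` (four
  events).
* `circ_join` (tubes): let `C, C'` be connected separating sets of the annuli `Ann x n (2n)`,
  `Ann x' n (2n)` as given by `circ_set`, where `x' = x ± (k, 0)` or `x ± (0, k)`, `n ≤ k ≤ 2 n`,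
  `1 ≤ n`.
  Then `C` and `C'` have a common vertex.  PROOF.  Consider the straight segments from `x'` in the
  direction of `x` and in the opposite direction, of length `2n`; each of them joins `x'` to a
  vertex with `nrm (· - x') = 2 n`, so it meets `C'` (`circ_hit`), at a vertex at distance
  `d ∈ [n, 2n]` from `x'`.  In the first direction its distance from `x` is `|k - d| ≤ n`, in the
  other direction it is `k + d ≥ 2 n`.  So the connected set `C'` meets `Ball x n` and the set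
  `nrm (· - x) ≥ 2 n`; hence it meets `C` by `circ_hit`.
* `tube`: let `Z` be a finite set of pairs of integers, connected for the four neighbour relation,
  and suppose that `¬ Arm Sᶜ (cz x u i j) u (2u)` for all `(i,j) ∈ Z`, `cz x u i j = x + (2 u i,
  2 u j)`,
  `1 ≤ u`.  Then there is a connected set `T ⊆ S`, contained in the union of the annuli
  `Ann (cz ..) u (2u)`, which contains for every `(i, j) ∈ Z` a separating set of
  `Ann (cz x u i j) u (2u)`.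
* `tube_prob`: the probability is at least `(c ^ 6) ^ |Z|`, and the event is a lower (upper)
  event of
  the union of the annuli (`circ_open`, `circ_closed`, `harris_low_fin`, `harris_up_fin`).
-/

namespace Pool.Agent.TriPerc

open MeasureTheory

/-- vertical `p`-open crossing of a parallelogram -/
def oPV (p : ℝ) (l r b t : ℤ) : Set Lab := {w | PV (Op p w) l r b t}

/-- vertical `p`-closed crossing of a parallelogram -/
def cPV (p : ℝ) (l r b t : ℤ) : Set Lab := {w | PV (Cl p w) l r b t}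

/-- The long crossings of the four sides of the square annulus. -/
def Cr4 (S : Set V) (z : V) (n m : ℤ) : Prop :=
  PH S (z.1 - m) (z.1 + m) (z.2 - m) (z.2 - n) ∧ PH S (z.1 - m) (z.1 + m) (z.2 + n) (z.2 + m) ∧
  PV S (z.1 - m) (z.1 - n) (z.2 - m) (z.2 + m) ∧ PV S (z.1 + n) (z.1 + m) (z.2 - m) (z.2 + m)

/-- Centres of tubes. -/
def cz (x : V) (u i j : ℤ) : V := x + (2 * u * i, 2 * u * j)

/-- Four neighbour relation. -/
def Nb (e f : ℤ × ℤ) : Prop := (e.1 = f.1 ∧ |e.2 - f.2| = 1) ∨ (e.2 = f.2 ∧ |e.1 - f.1| = 1)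

/-- Connected for the four neighbour relation. -/
def NbConn (Z : Set (ℤ × ℤ)) : Prop :=
  ∀ e ∈ Z, ∀ f ∈ Z, Relation.ReflTransGen (fun a b => Nb a b ∧ b ∈ Z) e f

variable {l r b t l' r' b' t' k a : ℤ} {S T : Set V} {u v x x' z : V} {n m N : ℤ} {c p : ℝ}

private theorem strip {f : V → ℤ} (hf : ∀ u v, Adj u v → |f v - f u| ≤ 1) (h : Conn S u v)
    (hu : f u ≤ l) (hv : r ≤ f v) (hlr : l ≤ r) :
    ∃ x y, f x = l ∧ f y = r ∧ Conn S u x ∧ Conn (S ∩ {z | l ≤ f z ∧ f z ≤ r}) x y ∧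
      Conn S y v := by
  by_cases hvl : f v ≤ l
  · exact ⟨v, v, by omega, by omega, h, Conn.refl ⟨h.right, by omega, by omega⟩,
      Conn.refl h.right⟩
  obtain ⟨x, y, hx, hy, hxy, h1, h2⟩ := h.last (A := {z | f z ≤ l}) hu hvl
  replace hx : f x ≤ l := hx
  replace hy : ¬ f y ≤ l := hy
  have e1 := abs_le.1 (hf _ _ hxy)
  by_cases hr : f x = r
  · exact ⟨x, x, by omega, hr, h1, Conn.refl ⟨h1.right, by omega, by omega⟩, h1.symm.trans h⟩
  have hc : Conn (S ∩ {z | l ≤ f z}) x v := by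
    have hxS : x ∈ S ∩ {z | l ≤ f z} := ⟨h1.right, by show l ≤ f x; omega⟩
    have hyS : y ∈ S ∩ {z | l ≤ f z} := ⟨h2.left.1, by show l ≤ f y; omega⟩
    refine (Conn.of_adj hxS hyS hxy).trans (h2.mono ?_)
    rintro z ⟨hz, hz'⟩
    replace hz' : ¬ f z ≤ l := hz'
    exact ⟨hz, by show l ≤ f z; omega⟩
  obtain ⟨x₁, y₁, hx₁, hy₁, hxy₁, h3, h4⟩ := hc.exit (A := {z | f z ≤ r - 1})
    (by show f x ≤ r - 1; omega) (by show ¬ f v ≤ r - 1; omega)
  replace hx₁ : f x₁ ≤ r - 1 := hx₁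
  replace hy₁ : ¬ f y₁ ≤ r - 1 := hy₁
  have e2 := abs_le.1 (hf _ _ hxy₁)
  obtain ⟨k1, k2⟩ := h4.left
  replace k2 : l ≤ f y₁ := k2
  obtain ⟨⟨j1, j2⟩, -⟩ := h3.right
  replace j2 : l ≤ f x₁ := j2
  refine ⟨x, y₁, by omega, by omega, h1, Conn.trans (h3.mono ?_)
    (Conn.of_adj ⟨j1, j2, by omega⟩ ⟨k1, k2, by omega⟩ hxy₁), h4.mono Set.inter_subset_left⟩
  rintro z ⟨⟨z1, z2⟩, z3⟩
  replace z2 : l ≤ f z := z2
  replace z3 : f z ≤ r - 1 := z3
  exact ⟨z1, z2, by omega⟩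

private theorem adj1 : ∀ u v : V, Adj u v → |v.1 - u.1| ≤ 1 := fun _ _ h => h.abs.1

private theorem adj2 : ∀ u v : V, Adj u v → |v.2 - u.2| ≤ 1 := fun _ _ h => h.abs.2.1

private theorem mono' {A B : Set Lab} (h : A ⊆ B) : (P A).toReal ≤ (P B).toReal :=
  ENNReal.toReal_mono (measure_ne_top P B) (measure_mono h)

private theorem frame' (g : V ≃ V) (Q : Set V → Prop) (p : ℝ)
    (hQ : MeasurableSet {w : Lab | Q (Cl p w)}) :
    P {w : Lab | Q {v | g v ∈ Cl p w}} = P {w : Lab | Q (Cl p w)} :=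
  (mp_comp g).measure_preimage hQ.nullMeasurableSet

theorem ph_of_conn (h : Conn (S ∩ {v | b ≤ v.2 ∧ v.2 ≤ t}) u v) (hu : u.1 ≤ l) (hv : r ≤ v.1)
    (hlr : l ≤ r) : PH S l r b t := by
  obtain ⟨x, y, hx, hy, -, h1, -⟩ := strip (f := Prod.fst) adj1 h hu hv hlr
  refine ⟨x, hx.le, y, hy.ge, h1.mono ?_⟩
  rintro z ⟨⟨z1, z2, z3⟩, z4, z5⟩
  exact ⟨z1, z4, z5, z2, z3⟩

theorem pv_of_conn (h : Conn (S ∩ {v | l ≤ v.1 ∧ v.1 ≤ r}) u v) (hu : u.2 ≤ b) (hv : t ≤ v.2)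
    (hbt : b ≤ t) : PV S l r b t := by
  obtain ⟨x, y, hx, hy, -, h1, -⟩ := strip (f := Prod.snd) adj2 h hu hv hbt
  refine ⟨x, hx.le, y, hy.ge, h1.mono ?_⟩
  rintro z ⟨⟨z1, z2, z3⟩, z4, z5⟩
  exact ⟨z1, z2, z3, z4, z5⟩

theorem hit_col (h : Conn S u v) (hu : u.1 ≤ a) (hv : a ≤ v.1) :
    ∃ x ∈ S, x.1 = a ∧ Conn S u x ∧ Conn S x v := by
  obtain ⟨x, y, hx, -, h1, -, -⟩ := strip (f := Prod.fst) adj1 h hu hv le_rfl
  exact ⟨x, h1.right, hx, h1, h1.symm.trans h⟩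

theorem hit_row (h : Conn S u v) (hu : u.2 ≤ a) (hv : a ≤ v.2) :
    ∃ x ∈ S, x.2 = a ∧ Conn S u x ∧ Conn S x v := by
  obtain ⟨x, y, hx, -, h1, -, -⟩ := strip (f := Prod.snd) adj2 h hu hv le_rfl
  exact ⟨x, h1.right, hx, h1, h1.symm.trans h⟩

theorem phs_mono (hST : S ⊆ T) (h : PH S l r b t) : PH T l r b t := by
  exact Join.mono h (Set.inter_subset_inter_left _ hST) subset_rfl subset_rfl

theorem pvs_mono (hST : S ⊆ T) (h : PV S l r b t) : PV T l r b t := by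
  exact Join.mono h (Set.inter_subset_inter_left _ hST) subset_rfl subset_rfl

theorem ph_sub (hl : l ≤ l') (hr : r' ≤ r) (hlr : l' ≤ r') (hb : b' ≤ b) (ht : t ≤ t')
    (h : PH S l r b t) : PH S l' r' b' t' := by
  obtain ⟨u, hu, v, hv, h⟩ := h
  replace hu : u.1 ≤ l := hu
  replace hv : r ≤ v.1 := hv
  refine ph_of_conn (h.mono ?_) (hu.trans hl) (hr.trans hv) hlr
  rintro z ⟨z1, z2, z3, z4, z5⟩
  exact ⟨z1, hb.trans z4, z5.trans ht⟩

theorem pv_sub (hb : b ≤ b') (ht : t' ≤ t) (hbt : b' ≤ t') (hl : l' ≤ l) (hr : r ≤ r')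
    (h : PV S l r b t) : PV S l' r' b' t' := by
  obtain ⟨u, hu, v, hv, h⟩ := h
  replace hu : u.2 ≤ b := hu
  replace hv : t ≤ v.2 := hv
  refine pv_of_conn (h.mono ?_) (hu.trans hb) (ht.trans hv) hbt
  rintro z ⟨z1, z2, z3, z4, z5⟩
  exact ⟨z1, hl.trans z2, z3.trans hr⟩

theorem ph_of_hc (hlr : l < r) (hk : 2 * (r - l) + (t - b) + 2 ≤ k)
    (h : HC S (2 * l + b - 1) (2 * l + b - 1 + k) b t) : PH S l r b t := by
  obtain ⟨u, hu, v, hv, h⟩ := h
  replace hu : X u ≤ 2 * l + b - 1 + 1 := hu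
  replace hv : 2 * l + b - 1 + k - 1 ≤ X v := hv
  obtain ⟨-, u1, u2, u3, u4⟩ := h.left
  obtain ⟨-, v1, v2, v3, v4⟩ := h.right
  unfold X at hu hv
  refine ph_of_conn (h.mono ?_) (by omega) (by omega) hlr.le
  rintro z ⟨z1, z2, z3, z4, z5⟩
  exact ⟨z1, z4, z5⟩

theorem pv_swp : PV S l r b t ↔ PH (swp ⁻¹' S) b t l r := by
  have e : swp ⁻¹' (S ∩ Par l r b t) = swp ⁻¹' S ∩ Par b t l r := by
    ext v
    constructor
    · rintro ⟨h1, h2, h3, h4, h5⟩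
      exact ⟨h1, h4, h5, h2, h3⟩
    · rintro ⟨h1, h2, h3, h4, h5⟩
      exact ⟨h1, h4, h5, h2, h3⟩
  have h := join_preimage (S := S ∩ Par l r b t) (A := {v | v.2 ≤ b}) (B := {v | t ≤ v.2})
    isAut_swp
  rw [e] at h
  exact h.symm

theorem ev_oPV : Ev (Par l r b t) (oPV p l r b t) ∧ IsLowerSet (oPV p l r b t) := by
  exact ev_join (finite_par l r b t)

theorem ev_cPV : Ev (Par l r b t) (cPV p l r b t) ∧ IsUpperSet (cPV p l r b t) := by
  exact ev_join_cl (finite_par l r b t)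

theorem low_oPH : IsLowerSet (oPH p l r b t) ∧ IsUpperSet (cPH p l r b t) := by
  exact ⟨(ev_join (finite_par l r b t)).2, (ev_join_cl (finite_par l r b t)).2⟩

theorem rsp (c : ℝ) (hc : 0 < c) (K : ℤ) (hK : 1 ≤ K) : ∃ c' : ℝ, 0 < c' ∧ c' ≤ 1 / 4 ∧
    ∀ (p : ℝ) (N : ℤ), Rsw c p N → ∀ n : ℤ, 1 ≤ n → n ≤ N → ∀ l b k : ℤ, 0 ≤ k → k ≤ K * n →
    c' ≤ (P (oPH p l (l + k) b (b + n))).toReal ∧ c' ≤ (P (cPH p l (l + k) b (b + n))).toReal ∧
    c' ≤ (P (oPV p l (l + n) b (b + k))).toReal ∧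
    c' ≤ (P (cPV p l (l + n) b (b + k))).toReal := by
  obtain ⟨c₁, hc₁, hlong⟩ := rsw_long c hc (2 * K + 3) (by omega)
  refine ⟨min c₁ (1 / 4), lt_min hc₁ (by norm_num), min_le_right _ _, ?_⟩
  intro p N hR n hn hN
  have key : ∀ l b k : ℤ, 0 ≤ k → k ≤ K * n →
      min c₁ (1 / 4) ≤ (P (oPH p l (l + k) b (b + n))).toReal ∧
      min c₁ (1 / 4) ≤ (P (cPH p l (l + k) b (b + n))).toReal := by
    intro l b k hk0 hk
    have hKn : 1 ≤ K * n := by nlinarith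
    obtain ⟨k', hk1, hk2, hk3⟩ : ∃ k' : ℤ, 1 ≤ k' ∧ k ≤ k' ∧ k' ≤ K * n :=
      ⟨max k 1, le_max_right _ _, le_max_left _ _, max_le hk hKn⟩
    have e : (2 * K + 3) * n = 2 * (K * n) + 3 * n := by ring
    obtain ⟨h1, h2⟩ := hlong p N hR n hn hN (2 * l + b - 1) b
    have hS : ∀ S : Set V, HC S (2 * l + b - 1) (2 * l + b - 1 + (2 * K + 3) * n) b (b + n) →
        PH S l (l + k) b (b + n) := fun S hS =>
      ph_sub le_rfl (by omega) (by omega) le_rfl le_rfl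
        (ph_of_hc (r := l + k') (by omega) (by omega) hS)
    exact ⟨((min_le_left _ _).trans h1).trans (mono' fun w hw => hS _ hw),
      ((min_le_left _ _).trans h2).trans (mono' fun w hw => hS _ hw)⟩
  intro l b k hk0 hk
  refine ⟨(key l b k hk0 hk).1, (key l b k hk0 hk).2, ?_, ?_⟩
  · have h1 := frame swp (fun S => PH S b (b + k) l (l + n)) p ev_oPH.1
    have h2 : oPV p l (l + n) b (b + k) =
        {w : Lab | PH {v | swp v ∈ Op p w} b (b + k) l (l + n)} := by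
      ext w
      exact pv_swp
    rw [h2, h1]
    exact (key b l k hk0 hk).1
  · have h1 := frame' swp (fun S => PH S b (b + k) l (l + n)) p ev_cPH.1
    have h2 : cPV p l (l + n) b (b + k) =
        {w : Lab | PH {v | swp v ∈ Cl p w} b (b + k) l (l + n)} := by
      ext w
      exact pv_swp
    rw [h2, h1]
    exact (key b l k hk0 hk).2

theorem cr4_mono (hST : S ⊆ T) (h : Cr4 S z n m) : Cr4 T z n m := by
  exact ⟨phs_mono hST h.1, phs_mono hST h.2.1, pvs_mono hST h.2.2.1, pvs_mono hST h.2.2.2⟩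

private theorem box_sub {v : V} (hn : 0 ≤ n) (h1 : z.1 - m ≤ v.1) (h2 : v.1 ≤ z.1 + m)
    (h3 : z.2 - m ≤ v.2) (h4 : v.2 ≤ z.2 + m)
    (h5 : v.1 ≤ z.1 - n ∨ z.1 + n ≤ v.1 ∨ v.2 ≤ z.2 - n ∨ z.2 + n ≤ v.2) : v ∈ SA z n m := by
  have e1 : (v - z).1 = v.1 - z.1 := rfl
  have e2 : (v - z).2 = v.2 - z.2 := rfl
  show n ≤ max |(v - z).1| |(v - z).2| ∧ max |(v - z).1| |(v - z).2| ≤ m
  rw [e1, e2, le_max_iff, max_le_iff, abs_le, abs_le, le_abs, le_abs]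
  omega

private theorem sub1 (hn : 0 ≤ n) : Par (z.1 - m) (z.1 + m) (z.2 - m) (z.2 - n) ⊆ SA z n m := by
  rintro v ⟨h1, h2, h3, h4⟩
  exact box_sub hn h1 h2 h3 (by omega) (by omega)

private theorem sub2 (hn : 0 ≤ n) : Par (z.1 - m) (z.1 + m) (z.2 + n) (z.2 + m) ⊆ SA z n m := by
  rintro v ⟨h1, h2, h3, h4⟩
  exact box_sub hn h1 h2 (by omega) h4 (by omega)

private theorem sub3 (hn : 0 ≤ n) : Par (z.1 - m) (z.1 - n) (z.2 - m) (z.2 + m) ⊆ SA z n m := by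
  rintro v ⟨h1, h2, h3, h4⟩
  exact box_sub hn h1 (by omega) h3 h4 (by omega)

private theorem sub4 (hn : 0 ≤ n) : Par (z.1 + n) (z.1 + m) (z.2 - m) (z.2 + m) ⊆ SA z n m := by
  rintro v ⟨h1, h2, h3, h4⟩
  exact box_sub hn (by omega) h2 h3 h4 (by omega)

theorem ev_cr4 (σ : Bool) (p : ℝ) (z : V) (hn : 0 ≤ n) :
    Ev (SA z n m) {w | Cr4 (Co σ p w) z n m} := by
  cases σ with
  | true => exact (ev_oPH.mono (sub1 hn)).inter ((ev_oPH.mono (sub2 hn)).inter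
      ((ev_oPV.1.mono (sub3 hn)).inter (ev_oPV.1.mono (sub4 hn))))
  | false => exact (ev_cPH.mono (sub1 hn)).inter ((ev_cPH.mono (sub2 hn)).inter
      ((ev_cPV.1.mono (sub3 hn)).inter (ev_cPV.1.mono (sub4 hn))))

private theorem four_low {s : Set V} (hs : s.Finite) {A B D E : Set Lab} (hA : Ev s A)
    (hB : Ev s B) (hD : Ev s D) (hE : Ev s E)
    (hl : (IsLowerSet A ∧ IsLowerSet B ∧ IsLowerSet D ∧ IsLowerSet E) ∨
      (IsUpperSet A ∧ IsUpperSet B ∧ IsUpperSet D ∧ IsUpperSet E)) {x : ℝ} (hx : 0 ≤ x)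
    (h1 : x ≤ (P A).toReal) (h2 : x ≤ (P B).toReal) (h3 : x ≤ (P D).toReal)
    (h4 : x ≤ (P E).toReal) : x ^ 4 ≤ (P (A ∩ (B ∩ (D ∩ E)))).toReal := by
  have k1 : P D * P E ≤ P (D ∩ E) := by
    rcases hl with ⟨_, _, a, b⟩ | ⟨_, _, a, b⟩
    · exact harris_low hs hD hE a b
    · exact harris_up hs hD hE a b
  have k2 : P B * P (D ∩ E) ≤ P (B ∩ (D ∩ E)) := by
    rcases hl with ⟨_, a, b, e⟩ | ⟨_, a, b, e⟩
    · exact harris_low hs hB (hD.inter hE) a (b.inter e)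
    · exact harris_up hs hB (hD.inter hE) a (b.inter e)
  have k3 : P A * P (B ∩ (D ∩ E)) ≤ P (A ∩ (B ∩ (D ∩ E))) := by
    rcases hl with ⟨a, b, e, f⟩ | ⟨a, b, e, f⟩
    · exact harris_low hs hA (hB.inter (hD.inter hE)) a (b.inter (e.inter f))
    · exact harris_up hs hA (hB.inter (hD.inter hE)) a (b.inter (e.inter f))
  have tr : ∀ U V W : Set Lab, P U * P V ≤ P W →
      (P U).toReal * (P V).toReal ≤ (P W).toReal := by
    intro U V W h
    rw [← ENNReal.toReal_mul]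
    exact ENNReal.toReal_mono (measure_ne_top P _) h
  have t1 := tr _ _ _ k1
  have t2 := tr _ _ _ k2
  have t3 := tr _ _ _ k3
  have s1 : x * x ≤ (P (D ∩ E)).toReal := (mul_le_mul h3 h4 hx (hx.trans h3)).trans t1
  have s2 : x * (x * x) ≤ (P (B ∩ (D ∩ E))).toReal :=
    (mul_le_mul h2 s1 (by positivity) (hx.trans h2)).trans t2
  have s3 : x * (x * (x * x)) ≤ (P (A ∩ (B ∩ (D ∩ E)))).toReal :=
    (mul_le_mul h1 s2 (by positivity) (hx.trans h1)).trans t3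
  calc x ^ 4 = x * (x * (x * x)) := by ring
    _ ≤ _ := s3

theorem cr4_prob (c : ℝ) (hc : 0 < c) : ∃ c' : ℝ, 0 < c' ∧ c' ≤ 1 / 4 ∧
    ∀ (p : ℝ) (N : ℤ), Rsw c p N → ∀ (z : V) (n : ℤ) (σ : Bool), 1 ≤ n → n ≤ N →
    c' ≤ (P {w | Cr4 (Co σ p w) z n (2 * n)}).toReal := by
  obtain ⟨d, hd, hd4, hr⟩ := rsp c hc 4 (by norm_num)
  refine ⟨d ^ 4, by positivity, ?_, ?_⟩
  · calc d ^ 4 = d * d ^ 3 := by ring
      _ ≤ (1 / 4) * 1 := mul_le_mul hd4 (pow_le_one₀ hd.le (by linarith)) (by positivity)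
          (by norm_num)
      _ = 1 / 4 := by norm_num
  intro p N hR z n σ hn hN
  have h0 : (0 : ℤ) ≤ n := by omega
  have r1 := hr p N hR n hn hN (z.1 - 2 * n) (z.2 - 2 * n) (4 * n) (by omega) le_rfl
  have r2 := hr p N hR n hn hN (z.1 - 2 * n) (z.2 + n) (4 * n) (by omega) le_rfl
  have r3 := hr p N hR n hn hN (z.1 + n) (z.2 - 2 * n) (4 * n) (by omega) le_rfl
  have e1 : z.1 - 2 * n + 4 * n = z.1 + 2 * n := by ring
  have e2 : z.2 - 2 * n + n = z.2 - n := by ring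
  have e3 : z.2 + n + n = z.2 + 2 * n := by ring
  have e4 : z.1 - 2 * n + n = z.1 - n := by ring
  have e5 : z.2 - 2 * n + 4 * n = z.2 + 2 * n := by ring
  have e6 : z.1 + n + n = z.1 + 2 * n := by ring
  rw [e1, e2, e4, e5] at r1
  rw [e1, e3] at r2
  rw [e5, e6] at r3
  cases σ with
  | true =>
    exact four_low (finite_sa z n (2 * n)) (ev_oPH.mono (sub1 h0)) (ev_oPH.mono (sub2 h0))
      (ev_oPV.1.mono (sub3 h0)) (ev_oPV.1.mono (sub4 h0))
      (Or.inl ⟨low_oPH.1, low_oPH.1, ev_oPV.2, ev_oPV.2⟩) hd.le r1.1 r2.1 r1.2.2.1 r3.2.2.1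
  | false =>
    exact four_low (finite_sa z n (2 * n)) (ev_cPH.mono (sub1 h0)) (ev_cPH.mono (sub2 h0))
      (ev_cPV.1.mono (sub3 h0)) (ev_cPV.1.mono (sub4 h0))
      (Or.inr ⟨low_oPH.2, low_oPH.2, ev_cPV.2, ev_cPV.2⟩) hd.le r1.2.1 r2.2.1 r1.2.2.2 r3.2.2.2

private theorem seg {e : V} (he : ∀ v, Adj v (v + e)) (y : V) (i : ℕ) :
    Conn {v | ∃ j : ℤ, 0 ≤ j ∧ j ≤ i ∧ v = y + j • e} y (y + (i : ℤ) • e) := by
  have h := Conn.of_walk (S := {v | ∃ j : ℤ, 0 ≤ j ∧ j ≤ i ∧ v = y + j • e}) (n := i)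
    (f := fun j => y + (j : ℤ) • e)
    (fun j _ => by
      have h1 := he (y + (j : ℤ) • e)
      have h2 : y + (j : ℤ) • e + e = y + ((j + 1 : ℕ) : ℤ) • e := by
        push_cast
        rw [add_smul, one_smul, add_assoc]
      rwa [h2] at h1)
    (fun j hj => ⟨j, by positivity, by exact_mod_cast hj, rfl⟩)
  simpa using h

private theorem join_e {C C' : Set V} {e : V} (he : ∀ v, Adj v (v + e))
    (hne : ∀ j : ℤ, nrm (j • e) = |j|) (hn : 1 ≤ n) (hC' : C' ⊆ Ann x' n (2 * n))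
    (hc' : IsConn C')
    (hs : ∀ u v, nrm (u - x) ≤ n → 2 * n ≤ nrm (v - x) → ¬ Conn Cᶜ u v)
    (hs' : ∀ u v, nrm (u - x') ≤ n → 2 * n ≤ nrm (v - x') → ¬ Conn C'ᶜ u v)
    (hk : n ≤ k) (hk2 : k ≤ 2 * n) (hx : x' = x + k • e) : ∃ y, y ∈ C ∧ y ∈ C' := by
  obtain ⟨i, hi⟩ : ∃ i : ℕ, (i : ℤ) = 2 * n := ⟨(2 * n).toNat, Int.toNat_of_nonneg (by omega)⟩
  have he' : ∀ v, Adj v (v + -e) := fun v => by
    have h := (he (v + -e)).symm
    rwa [neg_add_cancel_right] at h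
  have hne' : ∀ j : ℤ, nrm (j • -e) = |j| := fun j => by
    rw [smul_neg, nrm_neg, hne]
  have hit : ∀ f : V, (∀ v, Adj v (v + f)) → (∀ j : ℤ, nrm (j • f) = |j|) →
      ∃ y ∈ C', ∃ j : ℤ, n ≤ j ∧ j ≤ 2 * n ∧ y = x' + j • f := by
    intro f h1 h2
    obtain ⟨y, y1, ⟨j, j1, j2, j3⟩, -⟩ := circ_hit hs' (seg h1 x' i)
      (by rw [sub_self, nrm_zero_iff.2 rfl]; omega)
      (by rw [add_sub_cancel_left, h2, hi, abs_of_nonneg (by omega)])
    refine ⟨y, y1, j, ?_, by omega, j3⟩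
    have h3 := (hC' y1).1
    rw [j3, add_sub_cancel_left, h2, abs_of_nonneg j1] at h3
    exact h3
  obtain ⟨y, y1, j, j1, j2, j3⟩ := hit (-e) he' hne'
  obtain ⟨y', y1', j', j1', j2', j3'⟩ := hit e he hne
  have h1 : nrm (y - x) ≤ n := by
    have e1 : y - x = (k - j) • e := by
      rw [j3, hx, sub_smul, smul_neg]
      abel
    rw [e1, hne, abs_le]
    omega
  have h2 : 2 * n ≤ nrm (y' - x) := by
    have e1 : y' - x = (k + j') • e := by
      rw [j3', hx, add_smul]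
      abel
    rw [e1, hne, abs_of_nonneg (by omega)]
    omega
  obtain ⟨q, q1, q2, -⟩ := circ_hit hs (hc' y y1 y' y1') h1 h2
  exact ⟨q, q1, q2⟩

private theorem dir_ok {e : V} (he : e = (1, 0) ∨ e = (-1, 0) ∨ e = (0, 1) ∨ e = (0, -1)) :
    (∀ v, Adj v (v + e)) ∧ ∀ j : ℤ, nrm (j • e) = |j| := by
  constructor
  · intro v
    rcases he with rfl | rfl | rfl | rfl
    · exact Or.inl ⟨rfl, add_zero _⟩
    · exact Or.inr (Or.inr (Or.inr (Or.inl ⟨(sub_eq_add_neg _ _).symm, add_zero _⟩)))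
    · exact Or.inr (Or.inl ⟨add_zero _, rfl⟩)
    · exact Or.inr (Or.inr (Or.inr (Or.inr (Or.inl ⟨add_zero _, (sub_eq_add_neg _ _).symm⟩))))
  · intro j
    rcases he with rfl | rfl | rfl | rfl <;> unfold nrm <;> simp

theorem circ_join {C C' : Set V} (hn : 1 ≤ n) (hC : C ⊆ Ann x n (2 * n))
    (hC' : C' ⊆ Ann x' n (2 * n)) (hc : IsConn C) (hc' : IsConn C')
    (hs : ∀ u v, nrm (u - x) ≤ n → 2 * n ≤ nrm (v - x) → ¬ Conn Cᶜ u v)
    (hs' : ∀ u v, nrm (u - x') ≤ n → 2 * n ≤ nrm (v - x') → ¬ Conn C'ᶜ u v)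
    (hk : n ≤ k) (hk2 : k ≤ 2 * n)
    (hx : x' = x + (k, 0) ∨ x' = x - (k, 0) ∨ x' = x + (0, k) ∨ x' = x - (0, k)) :
    ∃ y, y ∈ C ∧ y ∈ C' := by
  have key : ∀ e : V, (e = (1, 0) ∨ e = (-1, 0) ∨ e = (0, 1) ∨ e = (0, -1)) →
      x' = x + k • e → ∃ y, y ∈ C ∧ y ∈ C' := fun e he h =>
    join_e (dir_ok he).1 (dir_ok he).2 hn hC' hc' hs hs' hk hk2 h
  rcases hx with h | h | h | h
  · refine key (1, 0) (by tauto) (h.trans ?_)
    ext <;> simp
  · refine key (-1, 0) (by tauto) (h.trans ?_)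
    ext <;> simp [sub_eq_add_neg]
  · refine key (0, 1) (by tauto) (h.trans ?_)
    ext <;> simp
  · refine key (0, -1) (by tauto) (h.trans ?_)
    ext <;> simp [sub_eq_add_neg]

private theorem cz_nb {e f : ℤ × ℤ} (h : Nb e f) :
    cz x n f.1 f.2 = cz x n e.1 e.2 + (2 * n, 0) ∨ cz x n f.1 f.2 = cz x n e.1 e.2 - (2 * n, 0) ∨
    cz x n f.1 f.2 = cz x n e.1 e.2 + (0, 2 * n) ∨
    cz x n f.1 f.2 = cz x n e.1 e.2 - (0, 2 * n) := by
  unfold cz
  rcases h with ⟨h1, h2⟩ | ⟨h1, h2⟩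
  · rcases abs_eq (by norm_num : (0 : ℤ) ≤ 1) |>.1 h2 with h3 | h3
    · have h4 : f.2 = e.2 - 1 := by omega
      right; right; right
      rw [h4, ← h1]
      ext
      · simp
      · simp only [Prod.snd_add, Prod.snd_sub]
        ring
    · have h4 : f.2 = e.2 + 1 := by omega
      right; right; left
      rw [h4, ← h1]
      ext
      · simp
      · simp only [Prod.snd_add]
        ring
  · rcases abs_eq (by norm_num : (0 : ℤ) ≤ 1) |>.1 h2 with h3 | h3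
    · have h4 : f.1 = e.1 - 1 := by omega
      right; left
      rw [h4, ← h1]
      ext
      · simp only [Prod.fst_add, Prod.fst_sub]
        ring
      · simp
    · have h4 : f.1 = e.1 + 1 := by omega
      left
      rw [h4, ← h1]
      ext
      · simp only [Prod.fst_add]
        ring
      · simp

theorem tube (Z : Finset (ℤ × ℤ)) (hZ : NbConn (Z : Set (ℤ × ℤ))) (hu : 1 ≤ n)
    (h : ∀ e ∈ Z, ¬ Arm Sᶜ (cz x n e.1 e.2) n (2 * n)) :
    ∃ T : Set V, T ⊆ S ∧ (T ⊆ ⋃ e ∈ Z, Ann (cz x n e.1 e.2) n (2 * n)) ∧ IsConn T ∧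
      ∀ e ∈ Z, ∃ C ⊆ T, C ⊆ Ann (cz x n e.1 e.2) n (2 * n) ∧ IsConn C ∧
        ∀ u v, nrm (u - cz x n e.1 e.2) ≤ n → 2 * n ≤ nrm (v - cz x n e.1 e.2) →
          ¬ Conn Cᶜ u v := by
  have hex : ∀ e : ℤ × ℤ, e ∈ Z → ∃ C : Set V, C ⊆ S ∩ Ann (cz x n e.1 e.2) n (2 * n) ∧
      C.Nonempty ∧ IsConn C ∧ ∀ u v, nrm (u - cz x n e.1 e.2) ≤ n →
        2 * n ≤ nrm (v - cz x n e.1 e.2) → ¬ Conn Cᶜ u v := fun e he =>
    circ_set hu (by omega) (h e he)
  choose! C hC using hex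
  have hCT : ∀ e ∈ Z, C e ⊆ ⋃ e ∈ Z, C e := fun e he v hv =>
    Set.mem_iUnion₂.2 ⟨e, he, hv⟩
  refine ⟨⋃ e ∈ Z, C e, ?_, ?_, ?_, ?_⟩
  · intro v hv
    obtain ⟨e, he, hv⟩ := Set.mem_iUnion₂.1 hv
    exact ((hC e he).1 hv).1
  · intro v hv
    obtain ⟨e, he, hv⟩ := Set.mem_iUnion₂.1 hv
    exact Set.mem_iUnion₂.2 ⟨e, he, ((hC e he).1 hv).2⟩
  · intro u hu1 v hv1
    obtain ⟨e, he, hu1⟩ := Set.mem_iUnion₂.1 hu1
    obtain ⟨f, hf, hv1⟩ := Set.mem_iUnion₂.1 hv1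
    have key : f ∈ Z ∧ ∀ w ∈ C f, Conn (⋃ e ∈ Z, C e) u w := by
      have hef := hZ e he f hf
      clear hf hv1
      induction hef with
      | refl => exact ⟨he, fun w hw => ((hC e he).2.2.1 u hu1 w hw).mono (hCT e he)⟩
      | @tail b c _ hbc ih =>
        obtain ⟨hb, ih⟩ := ih
        have hc : c ∈ Z := hbc.2
        obtain ⟨y, y1, y2⟩ := circ_join hu (fun v hv => ((hC b hb).1 hv).2)
          (fun v hv => ((hC c hc).1 hv).2) (hC b hb).2.2.1 (hC c hc).2.2.1 (hC b hb).2.2.2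
          (hC c hc).2.2.2 (by omega) le_rfl (cz_nb hbc.1)
        exact ⟨hc, fun w hw => (ih y y1).trans
          (((hC c hc).2.2.1 y y2 w hw).mono (hCT c hc))⟩
    exact key.2 v hv1
  · intro e he
    exact ⟨C e, hCT e he, fun v hv => ((hC e he).1 hv).2, (hC e he).2.2.1, (hC e he).2.2.2⟩

/-- The tube event of colour `σ`. -/
def Tub (σ : Bool) (p : ℝ) (x : V) (n : ℤ) (Z : Finset (ℤ × ℤ)) : Set Lab :=
  {w | ∀ e ∈ Z, ¬ Arm (Co (!σ) p w) (cz x n e.1 e.2) n (2 * n)}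

theorem ev_tub (σ : Bool) (p : ℝ) (x : V) (n : ℤ) (Z : Finset (ℤ × ℤ)) :
    Ev (⋃ e ∈ Z, Ann (cz x n e.1 e.2) n (2 * n)) (Tub σ p x n Z) := by
  have h1 : Tub σ p x n Z =
      ⋂ e : Z, {w | ¬ Arm (Co (!σ) p w) (cz x n e.1.1 e.1.2) n (2 * n)} := by
    ext w
    simp only [Tub, Set.mem_iInter, Set.mem_ofPred_eq, Subtype.forall]
  rw [h1]
  refine Ev.iInter fun e => ?_
  have h2 : Ann (cz x n e.1.1 e.1.2) n (2 * n) ⊆ ⋃ e ∈ Z, Ann (cz x n e.1 e.2) n (2 * n) :=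
    fun v hv => Set.mem_iUnion₂.2 ⟨e.1, e.2, hv⟩
  cases σ with
  | true => exact (ev_arm_cl p _ _ _).1.compl.mono h2
  | false => exact (ev_arm p _ _ _).1.compl.mono h2

theorem tub_low (p : ℝ) (x : V) (n : ℤ) (Z : Finset (ℤ × ℤ)) :
    IsLowerSet (Tub true p x n Z) ∧ IsUpperSet (Tub false p x n Z) := by
  constructor
  · intro w w' hle hw e he
    exact (ev_arm_cl p (cz x n e.1 e.2) n (2 * n)).2.compl hle (hw e he)
  · intro w w' hle hw e he
    exact (ev_arm p (cz x n e.1 e.2) n (2 * n)).2.compl hle (hw e he)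

theorem tub_prob (h : Rsw c p N) (σ : Bool) (x : V) (hn : 1 ≤ n) (hN : n ≤ N)
    (Z : Finset (ℤ × ℤ)) : (c ^ 6) ^ Z.card ≤ (P (Tub σ p x n Z)).toReal := by
  classical
  induction Z using Finset.induction_on with
  | empty =>
    have h1 : Tub σ p x n ∅ = Set.univ := by
      ext w
      simp [Tub]
    rw [h1]
    simp
  | insert a Z ha ih =>
    have hins : Tub σ p x n (insert a Z) = Tub σ p x n {a} ∩ Tub σ p x n Z := by
      ext w
      simp only [Tub, Set.mem_ofPred_eq, Set.mem_inter_iff, Finset.mem_insert,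
        Finset.mem_singleton, forall_eq_or_imp, forall_eq]
    have hc0 : 0 ≤ c := h.1.le
    have h1 : c ^ 6 ≤ (P (Tub σ p x n {a})).toReal := by
      have h2 : Tub σ p x n {a} = {w | ¬ Arm (Co (!σ) p w) (cz x n a.1 a.2) n (2 * n)} := by
        ext w
        simp only [Tub, Set.mem_ofPred_eq, Finset.mem_singleton, forall_eq]
      rw [h2]
      cases σ with
      | true => exact circ_open h hn (by omega) (by omega) (by omega)
      | false => exact circ_closed h hn (by omega) (by omega) (by omega)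
    have hfin : (⋃ e ∈ insert a Z, Ann (cz x n e.1 e.2) n (2 * n)).Finite :=
      Set.Finite.biUnion (insert a Z).finite_toSet fun e _ => finite_ann _ _ _
    have s1 : (⋃ e ∈ ({a} : Finset (ℤ × ℤ)), Ann (cz x n e.1 e.2) n (2 * n)) ⊆
        ⋃ e ∈ insert a Z, Ann (cz x n e.1 e.2) n (2 * n) := by
      intro v hv
      obtain ⟨e, he, hv⟩ := Set.mem_iUnion₂.1 hv
      exact Set.mem_iUnion₂.2 ⟨e, Finset.mem_insert.2 (Or.inl (Finset.mem_singleton.1 he)), hv⟩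
    have s2 : (⋃ e ∈ Z, Ann (cz x n e.1 e.2) n (2 * n)) ⊆
        ⋃ e ∈ insert a Z, Ann (cz x n e.1 e.2) n (2 * n) := by
      intro v hv
      obtain ⟨e, he, hv⟩ := Set.mem_iUnion₂.1 hv
      exact Set.mem_iUnion₂.2 ⟨e, Finset.mem_insert_of_mem he, hv⟩
    have h3 : P (Tub σ p x n {a}) * P (Tub σ p x n Z) ≤
        P (Tub σ p x n {a} ∩ Tub σ p x n Z) := by
      cases σ with
      | true =>
        exact harris_low hfin ((ev_tub _ _ _ _ _).mono s1) ((ev_tub _ _ _ _ _).mono s2)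
          (tub_low _ _ _ _).1 (tub_low _ _ _ _).1
      | false =>
        exact harris_up hfin ((ev_tub _ _ _ _ _).mono s1) ((ev_tub _ _ _ _ _).mono s2)
          (tub_low _ _ _ _).2 (tub_low _ _ _ _).2
    have h4 : (P (Tub σ p x n {a})).toReal * (P (Tub σ p x n Z)).toReal ≤
        (P (Tub σ p x n {a} ∩ Tub σ p x n Z)).toReal := by
      rw [← ENNReal.toReal_mul]
      exact ENNReal.toReal_mono (measure_ne_top P _) h3
    rw [hins, Finset.card_insert_of_notMem ha, pow_succ, mul_comm]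
    exact (mul_le_mul h1 ih (by positivity) ((by positivity : (0 : ℝ) ≤ c ^ 6).trans h1)).trans
      h4

end Pool.Agent.TriPerc
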