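import Pool.Agent.TriPerc.RswC
import Mathlib.Analysis.SpecialFunctions.Log.Base

/-!
# Gluing of arms; polynomial bounds for one arm

* `arm_glue` (deterministic): if `S` has an arm across `Ann z n m1` and an arm across `Ann z n1 m`,
  `n ≤ n1 ≤ m1 ≤ m`, `1 ≤ n1`, and a circuit in `Ann z n1 m1` (`¬ Arm Sᶜ z n1 m1`), then `S` has
  an arm across `Ann z n m`.
* `arm_of_hc`: a horizontal crossing of `Rec 0 (2 m) 0 n` (translated to `z`) by `S`,
  `1 ≤ n ≤ m`, is an arm across `Ann z n m`.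
* `one_arm_up`: there are `C, a > 0` depending only on `c` such that under `Rsw c p N` for
  `1 ≤ n ≤ m ≤ N`: `P (Arm (Op p w) z n m) ≤ C (n / m) ^ a`, the same for `Cl`.
  Proof: an arm across `Ann z n m` contains disjoint arms across `Ann z n (3 n - 1)` and
  `Ann z (3 n) m` (`up_step`); the first has probability `≤ 1 - c ^ 6`; induction on the scale.
* `one_arm_low`: there are `C, a > 0` depending only on `c` such that under `Rsw c p N` for
  `1 ≤ n ≤ m ≤ N`: `P (Arm (Op p w) z n m) ≥ C (n / m) ^ a`, the same for `Cl`.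
  Proof: an arm across `Ann z n (4 n)` (from `rsw_long` with `K = 8`), a circuit in
  `Ann z (2 n) (4 n)` and an arm across `Ann z (2 n) m` give an arm across `Ann z n m`
  (`arm_glue`); Harris' inequality; induction on the scale.
-/

namespace Pool.Agent.TriPerc

open MeasureTheory Set

variable {S : Set V} {z : V} {n m n1 m1 : ℤ}

theorem arm_glue (h1 : n ≤ n1) (h2 : n1 ≤ m1) (h3 : m1 ≤ m) (hn : 1 ≤ n1) (h : Arm S z n m1)
    (h' : Arm S z n1 m) (hc : ¬ Arm Sᶜ z n1 m1) : Arm S z n m := by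
  obtain ⟨C, hCS, -, hCc, hsep⟩ := circ_set hn h2 hc
  obtain ⟨u, hu, v, hv, huv⟩ := h
  obtain ⟨u', hu', v', hv', huv'⟩ := h'
  simp only [Set.mem_ofPred_eq] at hu hv hu' hv'
  have a1 : Conn S u v := huv.mono Set.inter_subset_left
  have a2 : Conn S u' v' := huv'.mono Set.inter_subset_left
  obtain ⟨x, hxC, -, hx⟩ := circ_hit hsep a1 (by omega) hv
  obtain ⟨y, hyC, -, hy⟩ := circ_hit hsep a2 hu' (by omega)
  have hxy : Conn S x y := (hCc x hxC y hyC).mono (hCS.trans Set.inter_subset_left)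
  exact arm_of_conn ((hx.trans hxy).trans (hy.symm.trans a2)) hu hv' (by omega)

private theorem nrm_start {u : V} (h0 : 0 ≤ X u) (h1 : X u ≤ 1) (hb : 0 ≤ u.2) (ht : u.2 ≤ n)
    (hn : 1 ≤ n) : nrm u ≤ n := by
  unfold X at h0 h1
  unfold nrm
  refine max_le (max_le ?_ ?_) ?_ <;> rw [abs_le] <;> constructor <;> omega

theorem arm_of_hc (hn : 1 ≤ n) (hnm : n ≤ m)
    (h : HC {v | v + z ∈ S} 0 (2 * m) 0 n) : Arm S z n m := by
  obtain ⟨u, hu, v, hv, huv⟩ := h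
  simp only [Set.mem_ofPred_eq] at hu hv
  have hu2 : u ∈ Rec 0 (2 * m) 0 n := huv.left.2
  have hc1 : Conn (tr z ⁻¹' S) u v := huv.mono Set.inter_subset_left
  have hc2 : Conn S (u + z) (v + z) := (conn_preimage (isAut_tr z)).1 hc1
  refine arm_of_conn hc2 ?_ ?_ hnm
  · rw [add_sub_cancel_right]
    exact nrm_start hu2.1 (by omega) hu2.2.2.1 hu2.2.2.2 hn
  · rw [add_sub_cancel_right]
    have h1 := X_le_nrm v
    have h2 := le_abs_self (X v)
    omega

private theorem X_sub (v z : V) : X (v - z) = X v - X z := by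
  unfold X
  simp only [Prod.fst_sub, Prod.snd_sub]
  ring

private theorem arm_of_hc' (hn : 1 ≤ n) (hnm : n ≤ m) (hm : m ≤ 4 * n)
    (h : HC S (X z) (X z + 8 * n) z.2 (z.2 + n)) : Arm S z n m := by
  obtain ⟨u, hu, v, hv, huv⟩ := h
  simp only [Set.mem_ofPred_eq] at hu hv
  have hu2 : u ∈ Rec (X z) (X z + 8 * n) z.2 (z.2 + n) := huv.left.2
  obtain ⟨r1, r2, r3, r4⟩ := hu2
  refine arm_of_conn (huv.mono Set.inter_subset_left) ?_ ?_ hnm
  · have e1 := X_sub u z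
    have e2 : (u - z).2 = u.2 - z.2 := rfl
    exact nrm_start (by omega) (by omega) (by omega) (by omega) hn
  · have h1 := X_le_nrm (v - z)
    have h2 := le_abs_self (X (v - z))
    have e1 := X_sub v z
    omega

private theorem ex_a {q B : ℝ} (h0 : 0 < q) (h1 : q < 1) (hB : 1 < B) :
    ∃ a : ℝ, 0 < a ∧ (1 / B : ℝ) ^ a = q := by
  have b0 : (0 : ℝ) < 1 / B := by positivity
  have b1 : 1 / B < 1 := by
    rw [div_lt_one (by linarith)]
    exact hB
  exact ⟨Real.logb (1 / B) q, Real.logb_pos_of_base_lt_one b0 b1 h0 h1,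
    Real.rpow_logb b0 b1.ne h0⟩

private theorem near (n m : ℤ) (hn : 1 ≤ n) (hnm : n ≤ m) (B : ℤ) (hB : 1 < B) :
    ∃ j : ℕ, B ^ j * n ≤ m ∧ m < B ^ (j + 1) * n ∧
      (1 / (B : ℝ)) ^ (j + 1) ≤ (n : ℝ) / m ∧ (n : ℝ) / m ≤ (1 / (B : ℝ)) ^ j := by
  have hn0 : (0 : ℝ) < n := by exact_mod_cast (by omega : 0 < n)
  have hm0 : (0 : ℝ) < m := by exact_mod_cast (by omega : 0 < m)
  have hx : (1 : ℝ) ≤ (m : ℝ) / n := by
    rw [le_div_iff₀ hn0, one_mul]
    exact_mod_cast hnm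
  have hB' : (1 : ℝ) < (B : ℝ) := by exact_mod_cast hB
  obtain ⟨j, h1, h2⟩ := exists_nat_pow_near hx hB'
  have hb : ∀ k : ℕ, (0 : ℝ) < (B : ℝ) ^ k := fun k => by positivity
  rw [le_div_iff₀ hn0] at h1
  rw [div_lt_iff₀ hn0] at h2
  refine ⟨j, by exact_mod_cast h1, by exact_mod_cast h2, ?_, ?_⟩
  · rw [div_pow, one_pow, div_le_div_iff₀ (hb _) hm0]
    nlinarith
  · rw [div_pow, one_pow, div_le_div_iff₀ hm0 (hb _)]
    nlinarith

private theorem up_real {q : ℝ} (h0 : 0 < q) (h1 : q < 1) : ∃ a : ℝ, 0 < a ∧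
    ∀ (f : ℤ → ℤ → ℝ) (N : ℤ), (∀ n m, f n m ≤ 1) →
    (∀ n m, 1 ≤ n → 3 * n ≤ m → m ≤ N → f n m ≤ q * f (3 * n) m) →
    ∀ n m : ℤ, 1 ≤ n → n ≤ m → m ≤ N → f n m ≤ 1 / q * ((n : ℝ) / m) ^ a := by
  obtain ⟨a, ha, he⟩ := ex_a h0 h1 (by norm_num : (1 : ℝ) < ((3 : ℤ) : ℝ))
  refine ⟨a, ha, fun f N hf1 hst => ?_⟩
  have ind : ∀ (j : ℕ) (n m : ℤ), 1 ≤ n → 3 ^ j * n ≤ m → m ≤ N → f n m ≤ q ^ j := by
    intro j
    induction j with
    | zero =>
      intro n m _ _ _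
      simpa using hf1 n m
    | succ j ih =>
      intro n m hn hm hN
      have e : (3 : ℤ) ^ (j + 1) * n = 3 ^ j * (3 * n) := by ring
      have h3 : (1 : ℤ) ≤ 3 ^ j := one_le_pow₀ (by norm_num)
      have := hst n m hn (by nlinarith) hN
      have h2 := ih (3 * n) m (by omega) (by rw [← e]; exact hm) hN
      calc f n m ≤ q * f (3 * n) m := this
        _ ≤ q * q ^ j := mul_le_mul_of_nonneg_left h2 h0.le
        _ = q ^ (j + 1) := by ring
  intro n m hn hnm hN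
  obtain ⟨j, j1, j2, j3, j4⟩ := near n m hn hnm 3 (by norm_num)
  have hb : (0 : ℝ) ≤ 1 / ((3 : ℤ) : ℝ) := by norm_num
  have k1 : q ^ (j + 1) ≤ ((n : ℝ) / m) ^ a := by
    rw [← he, Real.rpow_pow_comm hb]
    exact Real.rpow_le_rpow (pow_nonneg hb _) j3 ha.le
  calc f n m ≤ q ^ j := ind j n m hn j1 hN
    _ = 1 / q * q ^ (j + 1) := by
        field_simp
        ring
    _ ≤ 1 / q * ((n : ℝ) / m) ^ a := mul_le_mul_of_nonneg_left k1 (by positivity)

private theorem low_real {d q : ℝ} (hd : 0 < d) (h0 : 0 < q) (h1 : q < 1) :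
    ∃ a : ℝ, 0 < a ∧ ∀ (f : ℤ → ℤ → ℝ) (N : ℤ),
    (∀ n m, 1 ≤ n → n ≤ m → m ≤ 4 * n → m ≤ N → d ≤ f n m) →
    (∀ n m, 1 ≤ n → 4 * n ≤ m → m ≤ N → q * f (2 * n) m ≤ f n m) →
    ∀ n m : ℤ, 1 ≤ n → n ≤ m → m ≤ N → d * ((n : ℝ) / m) ^ a ≤ f n m := by
  obtain ⟨a, ha, he⟩ := ex_a h0 h1 (by norm_num : (1 : ℝ) < ((2 : ℤ) : ℝ))
  refine ⟨a, ha, fun f N hfd hst => ?_⟩
  have ind : ∀ (j : ℕ) (n m : ℤ), 1 ≤ n → n ≤ m → m ≤ 2 ^ (j + 1) * n → m ≤ N →
      d * q ^ j ≤ f n m := by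
    intro j
    induction j with
    | zero =>
      intro n m hn hnm hm hN
      have e : (2 : ℤ) ^ (0 + 1) = 2 := by norm_num
      rw [e] at hm
      simpa using hfd n m hn hnm (by omega) hN
    | succ j ih =>
      intro n m hn hnm hm hN
      rcases le_total m (4 * n) with h4 | h4
      · have hq : q ^ (j + 1) ≤ 1 := pow_le_one₀ h0.le h1.le
        calc d * q ^ (j + 1) ≤ d * 1 := mul_le_mul_of_nonneg_left hq hd.le
          _ = d := mul_one d
          _ ≤ f n m := hfd n m hn hnm h4 hN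
      · have e : (2 : ℤ) ^ (j + 1 + 1) * n = 2 ^ (j + 1) * (2 * n) := by ring
        have h2 := ih (2 * n) m (by omega) (by omega) (by rw [← e]; exact hm) hN
        calc d * q ^ (j + 1) = q * (d * q ^ j) := by ring
          _ ≤ q * f (2 * n) m := mul_le_mul_of_nonneg_left h2 h0.le
          _ ≤ f n m := hst n m hn h4 hN
  intro n m hn hnm hN
  obtain ⟨j, j1, j2, j3, j4⟩ := near n m hn hnm 2 (by norm_num)
  have hb : (0 : ℝ) ≤ 1 / ((2 : ℤ) : ℝ) := by norm_num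
  have hnm0 : (0 : ℝ) ≤ (n : ℝ) / m := by
    have : (0 : ℝ) ≤ n := by exact_mod_cast (by omega : 0 ≤ n)
    have : (0 : ℝ) ≤ m := by exact_mod_cast (by omega : 0 ≤ m)
    positivity
  have k1 : ((n : ℝ) / m) ^ a ≤ q ^ j := by
    rw [← he, Real.rpow_pow_comm hb]
    exact Real.rpow_le_rpow hnm0 j4 ha.le
  calc d * ((n : ℝ) / m) ^ a ≤ d * q ^ j := mul_le_mul_of_nonneg_left k1 hd.le
    _ ≤ f n m := ind j n m hn hnm j2.le hN

private theorem toReal_le_one (A : Set Lab) : (P A).toReal ≤ 1 := by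
  have h := ENNReal.toReal_mono (by norm_num) (prob_le_one (μ := P) (s := A))
  simpa using h

private theorem toReal_mono' {A B : Set Lab} (h : A ⊆ B) : (P A).toReal ≤ (P B).toReal :=
  ENNReal.toReal_mono (measure_ne_top P B) (measure_mono h)

/-- abstract step for the upper bound -/
private theorem up_step {A : ℤ → ℤ → Set Lab} {z : V} {q : ℝ}
    (hE : ∀ n m, Ev (Ann z n m) (A n m))
    (hsub : ∀ n m n' m', n ≤ n' → m' ≤ m → n' ≤ m' → A n m ⊆ A n' m')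
    {N : ℤ} (hc : ∀ n m, 1 ≤ n → n < m → m - n ≤ N → m ≤ 16 * (m - n) →
      1 - q ≤ (P (A n m)ᶜ).toReal) {n m : ℤ} (hn : 1 ≤ n) (hm : 3 * n ≤ m) (hN : m ≤ N) :
    (P (A n m)).toReal ≤ q * (P (A (3 * n) m)).toReal := by
  have hd : Disjoint (Ann z n (3 * n - 1)) (Ann z (3 * n) m) := by
    rw [Set.disjoint_left]
    intro v h1 h2
    have := h1.2
    have := h2.1
    omega
  have h1 : A n m ⊆ A n (3 * n - 1) ∩ A (3 * n) m :=
    Set.subset_inter (hsub _ _ _ _ le_rfl (by omega) (by omega))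
      (hsub _ _ _ _ (by omega) le_rfl (by omega))
  have h2 := indep (hE n (3 * n - 1)) (hE (3 * n) m) hd
  have h3 := hc n (3 * n - 1) hn (by omega) (by omega) (by omega)
  have h4 : (P (A n (3 * n - 1))ᶜ).toReal = 1 - (P (A n (3 * n - 1))).toReal := by
    rw [prob_compl_eq_one_sub (hE n (3 * n - 1)).1, ENNReal.toReal_sub_of_le prob_le_one (by simp)]
    simp
  calc (P (A n m)).toReal ≤ (P (A n (3 * n - 1) ∩ A (3 * n) m)).toReal := toReal_mono' h1
    _ = (P (A n (3 * n - 1))).toReal * (P (A (3 * n) m)).toReal := by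
        rw [h2, ENNReal.toReal_mul]
    _ ≤ q * (P (A (3 * n) m)).toReal :=
        mul_le_mul_of_nonneg_right (by linarith) ENNReal.toReal_nonneg

theorem one_arm_up (c : ℝ) (hc : 0 < c) : ∃ C a : ℝ, 0 < C ∧ 0 < a ∧
    ∀ (p : ℝ) (N : ℤ), Rsw c p N → ∀ (z : V) (n m : ℤ), 1 ≤ n → n ≤ m → m ≤ N →
    (P {w | Arm (Op p w) z n m}).toReal ≤ C * ((n : ℝ) / m) ^ a ∧
    (P {w | Arm (Cl p w) z n m}).toReal ≤ C * ((n : ℝ) / m) ^ a := by
  by_cases hc4 : c ≤ 1 / 4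
  swap
  · exact ⟨1, 1, one_pos, one_pos, fun p N h => absurd h.2.1 hc4⟩
  have hc6 : 0 < c ^ 6 := by positivity
  have hc6' : c ^ 6 < 1 := by
    calc c ^ 6 ≤ (1 / 4) ^ 6 := pow_le_pow_left₀ hc.le hc4 6
      _ < 1 := by norm_num
  obtain ⟨a, ha, hf⟩ := up_real (q := 1 - c ^ 6) (by linarith) (by linarith)
  refine ⟨1 / (1 - c ^ 6), a, by
    have : 0 < 1 - c ^ 6 := by linarith
    positivity, ha, fun p N hR z n m hn hnm hN => ⟨?_, ?_⟩⟩
  · exact hf (fun n m => (P {w | Arm (Op p w) z n m}).toReal) N (fun _ _ => toReal_le_one _)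
      (fun n m h1 h2 h3 => up_step (A := fun n m => {w | Arm (Op p w) z n m}) (z := z)
        (fun n m => (ev_arm p z n m).1)
        (fun n m n' m' a1 a2 a3 w hw => arm_sub a1 a2 a3 hw) (N := N)
        (fun n m a1 a2 a3 a4 => by
          have := circ_closed (z := z) hR a1 a2 a3 a4
          rw [sub_sub_cancel]
          exact this) h1 h2 h3) n m hn hnm hN
  · exact hf (fun n m => (P {w | Arm (Cl p w) z n m}).toReal) N (fun _ _ => toReal_le_one _)
      (fun n m h1 h2 h3 => up_step (A := fun n m => {w | Arm (Cl p w) z n m}) (z := z)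
        (fun n m => (ev_arm_cl p z n m).1)
        (fun n m n' m' a1 a2 a3 w hw => arm_sub a1 a2 a3 hw) (N := N)
        (fun n m a1 a2 a3 a4 => by
          have := circ_open (z := z) hR a1 a2 a3 a4
          rw [sub_sub_cancel]
          exact this) h1 h2 h3) n m hn hnm hN

private theorem three_low {s : Set V} (hs : s.Finite) {A B D E : Set Lab} (hA : Ev s A)
    (hB : Ev s B) (hD : Ev s D)
    (hl : (IsLowerSet A ∧ IsLowerSet B ∧ IsLowerSet D) ∨
      (IsUpperSet A ∧ IsUpperSet B ∧ IsUpperSet D)) {x y : ℝ} (hx : 0 ≤ x) (hy : 0 ≤ y)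
    (h1 : x ≤ (P A).toReal) (h2 : y ≤ (P B).toReal) (hE : A ∩ B ∩ D ⊆ E) :
    x * y * (P D).toReal ≤ (P E).toReal := by
  have k1 : P A * P B ≤ P (A ∩ B) := by
    rcases hl with ⟨a, b, _⟩ | ⟨a, b, _⟩
    · exact harris_low hs hA hB a b
    · exact harris_up hs hA hB a b
  have k2 : P (A ∩ B) * P D ≤ P (A ∩ B ∩ D) := by
    rcases hl with ⟨a, b, e⟩ | ⟨a, b, e⟩
    · exact harris_low hs (hA.inter hB) hD (a.inter b) e
    · exact harris_up hs (hA.inter hB) hD (a.inter b) e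
  have k3 : (P A).toReal * (P B).toReal ≤ (P (A ∩ B)).toReal := by
    rw [← ENNReal.toReal_mul]
    exact ENNReal.toReal_mono (measure_ne_top P _) k1
  have k4 : (P (A ∩ B)).toReal * (P D).toReal ≤ (P (A ∩ B ∩ D)).toReal := by
    rw [← ENNReal.toReal_mul]
    exact ENNReal.toReal_mono (measure_ne_top P _) k2
  calc x * y * (P D).toReal ≤ (P A).toReal * (P B).toReal * (P D).toReal :=
        mul_le_mul_of_nonneg_right (mul_le_mul h1 h2 hy (hx.trans h1)) ENNReal.toReal_nonneg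
    _ ≤ (P (A ∩ B)).toReal * (P D).toReal :=
        mul_le_mul_of_nonneg_right k3 ENNReal.toReal_nonneg
    _ ≤ _ := k4
    _ ≤ _ := toReal_mono' hE

theorem one_arm_low (c : ℝ) (hc : 0 < c) : ∃ C a : ℝ, 0 < C ∧ 0 < a ∧
    ∀ (p : ℝ) (N : ℤ), Rsw c p N → ∀ (z : V) (n m : ℤ), 1 ≤ n → n ≤ m → m ≤ N →
    C * ((n : ℝ) / m) ^ a ≤ (P {w | Arm (Op p w) z n m}).toReal ∧
    C * ((n : ℝ) / m) ^ a ≤ (P {w | Arm (Cl p w) z n m}).toReal := by
  by_cases hc4 : c ≤ 1 / 4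
  swap
  · exact ⟨1, 1, one_pos, one_pos, fun p N h => absurd h.2.1 hc4⟩
  obtain ⟨d', hd', hlong⟩ := rsw_long c hc 8 (by norm_num)
  have hc6 : 0 < c ^ 6 := by positivity
  have hc6' : c ^ 6 < 1 := by
    calc c ^ 6 ≤ (1 / 4) ^ 6 := pow_le_pow_left₀ hc.le hc4 6
      _ < 1 := by norm_num
  obtain ⟨d, hd, hd1, hdd⟩ : ∃ d : ℝ, 0 < d ∧ d ≤ 1 ∧ d ≤ d' :=
    ⟨min d' 1, lt_min hd' one_pos, min_le_right _ _, min_le_left _ _⟩
  obtain ⟨a, ha, hf⟩ := low_real (d := d) (q := d * c ^ 6) hd (by positivity) (by nlinarith)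
  refine ⟨d, a, hd, ha, fun p N hR z n m hn hnm hN => ⟨?_, ?_⟩⟩
  · have hb : ∀ n m : ℤ, 1 ≤ n → n ≤ m → m ≤ 4 * n → n ≤ N →
        d ≤ (P {w | Arm (Op p w) z n m}).toReal := fun n m h1 h2 h3 h4 =>
      (hdd.trans (hlong p N hR n h1 h4 (X z) z.2).1).trans
        (toReal_mono' fun w hw => arm_of_hc' h1 h2 h3 hw)
    refine hf (fun n m => (P {w | Arm (Op p w) z n m}).toReal) N
      (fun n m h1 h2 h3 h4 => hb n m h1 h2 h3 (by omega)) (fun n m h1 h2 h3 => ?_) n m hn hnm hN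
    have s1 : Ann z n (4 * n) ⊆ Ann z n m := fun v hv => ⟨hv.1, hv.2.trans h2⟩
    have s2 : Ann z (2 * n) (4 * n) ⊆ Ann z n m := fun v hv =>
      ⟨by have := hv.1; omega, hv.2.trans h2⟩
    have s3 : Ann z (2 * n) m ⊆ Ann z n m := fun v hv => ⟨by have := hv.1; omega, hv.2⟩
    refine three_low (s := Ann z n m) (finite_ann z n m)
      (A := {w | Arm (Op p w) z n (4 * n)}) (B := {w | ¬ Arm (Cl p w) z (2 * n) (4 * n)})
      (D := {w | Arm (Op p w) z (2 * n) m})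
      ((ev_arm p z _ _).1.mono s1) ((ev_arm_cl p z _ _).1.compl.mono s2)
      ((ev_arm p z _ _).1.mono s3)
      (Or.inl ⟨(ev_arm p z _ _).2, (ev_arm_cl p z _ _).2.compl, (ev_arm p z _ _).2⟩)
      hd.le hc6.le (hb n (4 * n) h1 (by omega) le_rfl (by omega))
      (circ_open hR (by omega) (by omega) (by omega) (by omega)) ?_
    rintro w ⟨⟨w1, w2⟩, w3⟩
    refine arm_glue (n1 := 2 * n) (m1 := 4 * n) (by omega) (by omega) h2 (by omega) w1 w3 ?_
    rw [← cl_compl]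
    exact w2
  · have hb : ∀ n m : ℤ, 1 ≤ n → n ≤ m → m ≤ 4 * n → n ≤ N →
        d ≤ (P {w | Arm (Cl p w) z n m}).toReal := fun n m h1 h2 h3 h4 =>
      (hdd.trans (hlong p N hR n h1 h4 (X z) z.2).2).trans
        (toReal_mono' fun w hw => arm_of_hc' h1 h2 h3 hw)
    refine hf (fun n m => (P {w | Arm (Cl p w) z n m}).toReal) N
      (fun n m h1 h2 h3 h4 => hb n m h1 h2 h3 (by omega)) (fun n m h1 h2 h3 => ?_) n m hn hnm hN
    have s1 : Ann z n (4 * n) ⊆ Ann z n m := fun v hv => ⟨hv.1, hv.2.trans h2⟩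
    have s2 : Ann z (2 * n) (4 * n) ⊆ Ann z n m := fun v hv =>
      ⟨by have := hv.1; omega, hv.2.trans h2⟩
    have s3 : Ann z (2 * n) m ⊆ Ann z n m := fun v hv => ⟨by have := hv.1; omega, hv.2⟩
    refine three_low (s := Ann z n m) (finite_ann z n m)
      (A := {w | Arm (Cl p w) z n (4 * n)}) (B := {w | ¬ Arm (Op p w) z (2 * n) (4 * n)})
      (D := {w | Arm (Cl p w) z (2 * n) m})
      ((ev_arm_cl p z _ _).1.mono s1) ((ev_arm p z _ _).1.compl.mono s2)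
      ((ev_arm_cl p z _ _).1.mono s3)
      (Or.inr ⟨(ev_arm_cl p z _ _).2, (ev_arm p z _ _).2.compl, (ev_arm_cl p z _ _).2⟩)
      hd.le hc6.le (hb n (4 * n) h1 (by omega) le_rfl (by omega))
      (circ_closed hR (by omega) (by omega) (by omega) (by omega)) ?_
    rintro w ⟨⟨w1, w2⟩, w3⟩
    refine arm_glue (n1 := 2 * n) (m1 := 4 * n) (by omega) (by omega) h2 (by omega) w1 w3 ?_
    rw [cl_compl, compl_compl]
    exact w2

end Pool.Agent.TriPerc
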