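import Pool.Agent.TriPerc.LandA

/-!
# Standard four-arm events: every arm ends in a box on its own side

`BE ε q i` is a box on the side `i` of the ring of radius `q`, outside (`ε = 1`) or inside (`ε =
-1`); in
the frame `gf i` it is `Par (-(q/4)) (q/4) (-2q) (-q-1)` resp. `Par (-(q/8)) (q/8) (-q+1)
(-(q/2))`; `en ε q` is
the row of its far end.  `ST`: four arms of the colours `σ, !σ, σ, !σ`, the arm number `i` joins a
base
vertex to the far end of `BE ε q i` inside `SA 0 n m ∪ BE ε q i`.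
`StO p σ n m` (outer version, `q = m`, the arms start at the inner square), `StI p σ n m` (inner
version, `q = n`, the arms start at four vertices of the outer ring with separated keys).

* `be_disj`: boxes of different sides are disjoint from each other (`q / 4 < q + 1`, `q / 8 < q /
2`).
* `ev_sto`, `ev_sti`: supports (`ev_arms`; `BE 1 m i ⊆ SA 0 (m + 1) (2 m)`, `BE (-1) n i ⊆ SA 0 (n
/ 2) (n - 1)`).
* `sto_fr`: `StO p σ n m` implies `Fr (Op p w) 0 n (2 m)`.  PROOF: the far ends are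
  `pt i τ (2 m)` with `|τ| ≤ m / 4`, so their keys on the ring of radius `2 m` are increasing in `i`
  (`kq_pt`, `sep_lt`), and they are typed (`BE 1 m i ⊆ SA 0 n (2 m)`); `fr_of_sep`, `co_not`,
  `fr_compl`.
* `sto_swap`, `sti_swap`: the two colourings have the same probability.  PROOF: the reflection `swp`
  preserves `sn`, `SA`, `Sq`, `Rg`, `Adj` and maps `BE ε q i` to `BE ε q (3 - i)`; `swp (pt k τ q) =
  pt (3 - k) (-τ) q`; `alt σ (3 - i) = alt (!σ) i`; on the ring of radius `m` it changes the key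
  `κ` to
  `8 m - κ` (and fixes the key `0`), so `Sep4` is preserved.  So `w ∈ StO p (!σ) n m` iff
  `w ∘ swp ∈ StO p σ n m`; `prob_frame`, `co_comp`.
* `sto_low`: `P (StO p σ n m) ≥ c'` for `m ≤ Λ n`.  PROOF.  Let `w0 = min (n - 1) (m / 4)` and
  `D i` = preimage under `gf i` of `Par 0 w0 (-2m) (-n)`; these four sets are pairwise disjoint
  (`i = 0`: `v.1 ∈ [0, w0]`, `v.2 ≤ -n`; `i = 1`: `v.1 ≥ n`, `v.2 ∈ [-w0, 0]`; `i = 2`: `v.1 ∈
  [-w0, 0]`,
  `v.2 ≥ n`; `i = 3`: `v.1 ≤ -n`, `v.2 ∈ [0, w0]`).  If all four are crossed from bottom to top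
  (in the
  frame) by the colour `alt σ i`, then `StO` holds: the crossing starts in the row `-2m`, ends at
  `(x, -n)`, `0 ≤ x ≤ n - 1`, which is adjacent to `(x, -n+1) ∈ Sq 0 (n - 1)`; its vertices in the
  rows
  `≥ -m` are in `SA 0 n m`, the others in the box.  Probability: `indep_iInter`, `prob_frame`, and
  `rspc` with `K = 2 Λ + 8` (`2 m - n ≤ K (w0 + 1)`).
* `sti_low`: the same with `D i` = preimage of `Par (-(n/8)) (n/8) (-m) (-(n/2))`, `2 ≤ n`, `K = 8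
Λ`.
-/

namespace Pool.Agent.TriPerc

open MeasureTheory

/-- The box on the side `i`. -/
def BE (ε q : ℤ) (i : ℕ) : Set V :=
  {v | gf i v ∈ if ε = 1 then Par (-(q / 4)) (q / 4) (-(2 * q)) (-q - 1)
    else Par (-(q / 8)) (q / 8) (-q + 1) (-(q / 2))}

/-- The row of the far end. -/
def en (ε q : ℤ) : ℤ := if ε = 1 then -(2 * q) else -(q / 2)

/-- Four standard arms. -/
def ST (ε : ℤ) (Base : (Fin 4 → V) → Prop) (p : ℝ) (σ : Bool) (n m q : ℤ) : Set Lab :=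
  Arms (alt σ) p (fun i => SA 0 n m ∪ BE ε q (i : ℕ)) fun z =>
    Base (fun i => (z i).2) ∧
      ∀ i : Fin 4, (z i).1 ∈ BE ε q (i : ℕ) ∧ (gf (i : ℕ) (z i).1).2 = en ε q

/-- Outer standard event. -/
def StO (p : ℝ) (σ : Bool) (n m : ℤ) : Set Lab := ST 1 (BaseO n) p σ n m m

/-- Inner standard event. -/
def StI (p : ℝ) (σ : Bool) (n m : ℤ) : Set Lab := ST (-1) (BaseI m) p σ n m n

variable {ε n m q : ℤ} {p : ℝ} {w : Lab} {σ : Bool}

private theorem gf0 (v : V) : gf 0 v = v := rfl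

private theorem gf1 (v : V) : gf 1 v = (-v.2, -v.1) := rfl

private theorem gf2 (v : V) : gf 2 v = (-v.1, -v.2) := rfl

private theorem gf3 (v : V) : gf 3 v = (v.2, v.1) := rfl

private theorem gf_sn0 {i : ℕ} (hi : i < 4) (v : V) : sn (gf i v) = sn v := by
  have h := gf_sn hi v 0
  rwa [gf_zero hi, sub_zero, sub_zero] at h

private theorem cases4' {i : ℕ} (hi : i < 4) : i = 0 ∨ i = 1 ∨ i = 2 ∨ i = 3 := by omega

private theorem mem_be1 {i : ℕ} {v : V} :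
    v ∈ BE 1 q i ↔ gf i v ∈ Par (-(q / 4)) (q / 4) (-(2 * q)) (-q - 1) := by
  unfold BE
  rw [Set.mem_ofPred_eq, if_pos rfl]

private theorem mem_be2 {i : ℕ} {v : V} :
    v ∈ BE (-1) q i ↔ gf i v ∈ Par (-(q / 8)) (q / 8) (-q + 1) (-(q / 2)) := by
  unfold BE
  rw [Set.mem_ofPred_eq, if_neg (by norm_num)]

/-- the norm of a vertex with large second coordinate -/
private theorem sn_dom {u : V} (h : |u.1| ≤ -u.2) : sn u = -u.2 := by
  have h1 := (abs_nonneg u.1).trans h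
  unfold sn
  rw [abs_of_nonpos (by omega : u.2 ≤ 0)]
  exact max_eq_right h

theorem finite_be (ε q : ℤ) {i : ℕ} (hi : i < 4) : (BE ε q i).Finite := by
  have h1 : ∀ l r b t : ℤ, {v : V | gf i v ∈ Par l r b t}.Finite := by
    intro l r b t
    have e : {v : V | gf i v ∈ Par l r b t} = gf i ⁻¹' Par l r b t := rfl
    rw [e]
    exact (finite_par l r b t).preimage (gf i).injective.injOn
  have _ := hi
  unfold BE
  split_ifs
  · exact h1 _ _ _ _
  · exact h1 _ _ _ _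

theorem be_out (hq : 1 ≤ q) {i : ℕ} (hi : i < 4) : BE 1 q i ⊆ SA 0 (q + 1) (2 * q) := by
  intro v hv
  rw [mem_be1] at hv
  obtain ⟨h1, h2, h3, h4⟩ := hv
  have h5 : |(gf i v).1| ≤ -(gf i v).2 := by
    rw [abs_le]
    constructor <;> omega
  have h6 := sn_dom h5
  rw [gf_sn0 hi] at h6
  change q + 1 ≤ sn (v - 0) ∧ sn (v - 0) ≤ 2 * q
  rw [sub_zero, h6]
  constructor <;> omega

theorem be_in (hq : 2 ≤ q) {i : ℕ} (hi : i < 4) : BE (-1) q i ⊆ SA 0 (q / 2) (q - 1) := by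
  intro v hv
  rw [mem_be2] at hv
  obtain ⟨h1, h2, h3, h4⟩ := hv
  have h5 : |(gf i v).1| ≤ -(gf i v).2 := by
    rw [abs_le]
    constructor <;> omega
  have h6 := sn_dom h5
  rw [gf_sn0 hi] at h6
  change q / 2 ≤ sn (v - 0) ∧ sn (v - 0) ≤ q - 1
  rw [sub_zero, h6]
  constructor <;> omega

theorem be_disj (hε : ε = 1 ∨ ε = -1) (hq : 2 ≤ q) {i j : ℕ} (hi : i < 4) (hj : j < 4)
    (hij : i ≠ j) : Disjoint (BE ε q i) (BE ε q j) := by
  rw [Set.disjoint_left]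
  intro v h1 h2
  rcases hε with rfl | rfl
  · rw [mem_be1] at h1 h2
    obtain ⟨a1, a2, a3, a4⟩ := h1
    obtain ⟨b1, b2, b3, b4⟩ := h2
    rcases cases4' hi with rfl | rfl | rfl | rfl <;>
      rcases cases4' hj with rfl | rfl | rfl | rfl <;>
      simp only [gf0, gf1, gf2, gf3] at a1 a2 a3 a4 b1 b2 b3 b4 <;> omega
  · rw [mem_be2] at h1 h2
    obtain ⟨a1, a2, a3, a4⟩ := h1
    obtain ⟨b1, b2, b3, b4⟩ := h2
    rcases cases4' hi with rfl | rfl | rfl | rfl <;>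
      rcases cases4' hj with rfl | rfl | rfl | rfl <;>
      simp only [gf0, gf1, gf2, gf3] at a1 a2 a3 a4 b1 b2 b3 b4 <;> omega

private theorem st_fin (ε n m q : ℤ) (i : Fin 4) : (SA 0 n m ∪ BE ε q (i : ℕ)).Finite :=
  (finite_sa 0 n m).union (finite_be ε q i.isLt)

theorem ev_sto (hn : n ≤ m) (hm : 1 ≤ m) (p : ℝ) (σ : Bool) :
    Ev (SA 0 n (2 * m)) (StO p σ n m) := by
  refine (ev_arms (st_fin 1 n m m)).mono (Set.iUnion_subset fun i => Set.union_subset ?_ ?_)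
  · exact sa_sub le_rfl (by omega)
  · exact (be_out hm i.isLt).trans (sa_sub (by omega) le_rfl)

theorem ev_sti (hn : 2 ≤ n) (hnm : n ≤ m) (p : ℝ) (σ : Bool) :
    Ev (SA 0 (n / 2) m) (StI p σ n m) := by
  refine (ev_arms (st_fin (-1) n m n)).mono
    (Set.iUnion_subset fun i => Set.union_subset ?_ ?_)
  · exact sa_sub (by omega) le_rfl
  · exact (be_in hn i.isLt).trans (sa_sub le_rfl (by omega))

/-- a vertex whose frame coordinates are `(t, -q)` -/
private theorem pt_of_gf {i : ℕ} (hi : i < 4) {v : V} {t q : ℤ} (h1 : (gf i v).1 = t)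
    (h2 : (gf i v).2 = -q) : v = pt i (sg i * t) q := by
  have h3 : gf i v = (t, -q) := Prod.ext h1 h2
  have h4 : v = gf i (t, -q) := by
    rw [← h3, gf_invol hi]
  rw [pt_gf hi]
  have h5 : sg i * (sg i * t) = t := by
    rcases sg_cases i with h | h <;> rw [h] <;> ring
  rw [h5]
  exact h4

private theorem sg_abs (i : ℕ) (t : ℤ) : |sg i * t| = |t| := by
  rcases sg_cases i with h | h
  · rw [h, one_mul]
  · rw [h, neg_one_mul, abs_neg]

private theorem kq_box {i : ℕ} (hi : i < 4) {v : V} {t q : ℤ} (ht : |t| < q)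
    (h1 : (gf i v).1 = t) (h2 : (gf i v).2 = -q) :
    2 * q * i + q - |t| ≤ kq 0 q v ∧ kq 0 q v ≤ 2 * q * i + q + |t| := by
  have h3 := pt_of_gf hi h1 h2
  have h4 : |sg i * t| < q := by
    rw [sg_abs]
    exact ht
  have h5 := kq_pt hi h4
  rw [← h3] at h5
  have h6 := sg_abs i t
  have h7 := neg_abs_le (sg i * t)
  have h8 := le_abs_self (sg i * t)
  rw [h5]
  constructor <;> omega

private theorem sep_box4 {y : Fin 4 → V} {s q : ℤ} (hs : 2 * s < 2 * q)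
    (h1 : ∀ i : Fin 4, |(gf (i : ℕ) (y i)).1| ≤ s) (h2 : ∀ i : Fin 4, (gf (i : ℕ) (y i)).2 = -q) :
    Sep4 (kq 0 q (y 0)) (kq 0 q (y 1)) (kq 0 q (y 2)) (kq 0 q (y 3)) := by
  have key : ∀ i : Fin 4, 2 * q * (i : ℕ) + q - s ≤ kq 0 q (y i) ∧
      kq 0 q (y i) ≤ 2 * q * (i : ℕ) + q + s := by
    intro i
    have h3 := h1 i
    obtain ⟨h4, h5⟩ := kq_box i.isLt (lt_of_le_of_lt h3 (by omega)) rfl (h2 i)
    constructor <;> omega
  have k0 := key 0
  have k1 := key 1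
  have k2 := key 2
  have k3 := key 3
  simp only [Fin.val_zero, Fin.val_one, Fin.val_two, Fin.isValue] at k0 k1 k2 k3
  have e3 : ((3 : Fin 4) : ℕ) = 3 := rfl
  rw [e3] at k3
  push_cast at k0 k1 k2 k3
  exact sep_lt (by omega) (by omega) (by omega)

private theorem fr_co (hn : 1 ≤ n) (hnm : n ≤ m) (h : Fr (Co σ p w) 0 n m) :
    Fr (Op p w) 0 n m := by
  cases σ
  · have e : Co false p w = (Op p w)ᶜ := cl_compl p w
    rw [e] at h
    exact (fr_compl hn hnm).1 h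
  · exact h

theorem sto_fr (hn : 1 ≤ n) (hnm : n ≤ m) (h : w ∈ StO p σ n m) :
    Fr (Op p w) 0 n (2 * m) := by
  obtain ⟨z, ⟨hB, hz⟩, hc⟩ := h
  have hm : n ≤ 2 * m := by omega
  have hty : ∀ i : Fin 4, Ty (Co (alt σ i) p w) 0 n (2 * m) (z i).1 := by
    intro i
    obtain ⟨x, hx, hax⟩ := hB i
    refine ⟨?_, (z i).2, x, hx, hax, (hc i).mono ?_⟩
    · change sn ((z i).1 - 0) = 2 * m
      rw [sub_zero, ← gf_sn0 i.isLt]
      have h1 := mem_be1.1 (hz i).1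
      obtain ⟨h2, h3, -, -⟩ := h1
      have h4 : (gf (i : ℕ) (z i).1).2 = -(2 * m) := (hz i).2
      have h5 : |(gf (i : ℕ) (z i).1).1| ≤ -(gf (i : ℕ) (z i).1).2 := by
        rw [abs_le]
        constructor <;> omega
      rw [sn_dom h5, h4, neg_neg]
    · rintro v ⟨hv1, hv2 | hv2⟩
      · exact ⟨hv1, sa_sub le_rfl (by omega) hv2⟩
      · exact ⟨hv1, sa_sub (by omega) le_rfl (be_out (by omega) i.isLt hv2)⟩
  have hsep := sep_box4 (y := fun i => (z i).1) (s := m / 4) (q := 2 * m) (by omega)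
    (fun i => by
      obtain ⟨h2, h3, -, -⟩ := mem_be1.1 (hz i).1
      rw [abs_le]
      constructor <;> omega) (fun i => (hz i).2)
  have t0 := hty 0
  have t1 := hty 1
  have t2 := hty 2
  have t3 := hty 3
  have a0 : alt σ 0 = σ := rfl
  have a1 : alt σ 1 = !σ := rfl
  have a2 : alt σ 2 = σ := rfl
  have a3 : alt σ 3 = !σ := rfl
  rw [a0] at t0
  rw [a1, co_not] at t1
  rw [a2] at t2
  rw [a3, co_not] at t3
  exact fr_co hn hm (fr_of_sep hn hm t0 t1 t2 t3 hsep)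

private theorem gf_swp (i : Fin 4) (v : V) :
    gf (i : ℕ) (swp v) = gf ((Fin.rev i : Fin 4) : ℕ) v := by
  fin_cases i
  · rfl
  · rfl
  · rfl
  · rfl

private theorem alt_rev (σ : Bool) (i : Fin 4) : alt (!σ) (Fin.rev i) = alt σ i := by
  fin_cases i
  · cases σ <;> rfl
  · cases σ <;> rfl
  · cases σ <;> rfl
  · cases σ <;> rfl

private theorem swp_swp (v : V) : swp (swp v) = v := rfl

private theorem be_swp (ε q : ℤ) (i : Fin 4) (v : V) :
    swp v ∈ BE ε q ((Fin.rev i : Fin 4) : ℕ) ↔ v ∈ BE ε q (i : ℕ) := by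
  unfold BE
  rw [Set.mem_ofPred_eq, Set.mem_ofPred_eq, gf_swp, Fin.rev_rev]

private theorem swp_sa (n m : ℤ) (v : V) : swp v ∈ SA 0 n m ↔ v ∈ SA 0 n m := by
  change n ≤ sn (swp v - 0) ∧ sn (swp v - 0) ≤ m ↔ n ≤ sn (v - 0) ∧ sn (v - 0) ≤ m
  rw [sub_zero, sub_zero, swp_sn]

private theorem st_swp {Base : (Fin 4 → V) → Prop}
    (hB : ∀ y, Base y → Base fun i => swp (y (Fin.rev i))) {ε : ℤ} {p : ℝ} {σ : Bool} {n m q : ℤ}
    {w : Lab} (hw : w ∈ ST ε Base p (!σ) n m q) :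
    (fun v => w (swp v)) ∈ ST ε Base p σ n m q := by
  obtain ⟨z, ⟨hz1, hz2⟩, hc⟩ := hw
  refine ⟨fun i => (swp (z (Fin.rev i)).1, swp (z (Fin.rev i)).2), ⟨hB _ hz1, fun i => ?_⟩,
    fun i => ?_⟩
  · obtain ⟨h1, h2⟩ := hz2 (Fin.rev i)
    constructor
    · have h3 := (be_swp ε q i (swp (z (Fin.rev i)).1)).1
      rw [swp_swp] at h3
      exact h3 h1
    · change (gf (i : ℕ) (swp (z (Fin.rev i)).1)).2 = en ε q
      rw [gf_swp]
      exact h2
  · have e : Co (alt σ i) p (fun v => w (swp v)) ∩ (SA 0 n m ∪ BE ε q (i : ℕ)) =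
        swp ⁻¹' (Co (alt σ i) p w ∩ (SA 0 n m ∪ BE ε q ((Fin.rev i : Fin 4) : ℕ))) := by
      rw [co_comp]
      ext v
      change swp v ∈ Co (alt σ i) p w ∧ (v ∈ SA 0 n m ∨ v ∈ BE ε q (i : ℕ)) ↔
        swp v ∈ Co (alt σ i) p w ∧ (swp v ∈ SA 0 n m ∨
          swp v ∈ BE ε q ((Fin.rev i : Fin 4) : ℕ))
      rw [swp_sa, be_swp]
    rw [e, conn_preimage isAut_swp, swp_swp, swp_swp]
    have h1 := hc (Fin.rev i)
    rw [alt_rev] at h1
    exact h1

private theorem st_swp_prob {Base : (Fin 4 → V) → Prop}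
    (hB : ∀ y, Base y → Base fun i => swp (y (Fin.rev i))) (ε : ℤ) (p : ℝ) (σ : Bool)
    (n m q : ℤ) : P (ST ε Base p (!σ) n m q) = P (ST ε Base p σ n m q) := by
  have hm : MeasurableSet (ST ε Base p σ n m q) := (ev_arms (st_fin ε n m q)).1
  have h1 := prob_frame swp hm
  rw [← h1]
  congr 1
  ext w
  constructor
  · exact fun h => st_swp hB h
  · intro h
    have h2 : (fun v => w (swp v)) ∈ ST ε Base p (!(!σ)) n m q := by
      rw [Bool.not_not]
      exact h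
    exact st_swp hB h2

theorem sto_swap (p : ℝ) (σ : Bool) (n m : ℤ) : P (StO p (!σ) n m) = P (StO p σ n m) := by
  refine st_swp_prob (fun y hy i => ?_) 1 p σ n m m
  obtain ⟨x, hx, hax⟩ := hy (Fin.rev i)
  refine ⟨swp x, ?_, (isAut_swp _ _).2 hax⟩
  change sn (swp x - 0) ≤ n - 1
  rw [sub_zero, swp_sn]
  have h1 : sn (x - 0) ≤ n - 1 := hx
  rwa [sub_zero] at h1

private theorem rg_cases {v : V} (hv : v ∈ Rg 0 m) : -m ≤ v.1 ∧ v.1 ≤ m ∧ -m ≤ v.2 ∧ v.2 ≤ m ∧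
    (v.1 = m ∨ v.1 = -m ∨ v.2 = m ∨ v.2 = -m) := by
  have h : sn (v - 0) = m := hv
  rw [sub_zero] at h
  unfold sn at h
  have h1 : |v.1| ≤ m := h ▸ le_max_left _ _
  have h2 : |v.2| ≤ m := h ▸ le_max_right _ _
  rw [abs_le] at h1 h2
  refine ⟨h1.1, h1.2, h2.1, h2.2, ?_⟩
  rcases le_total |v.1| |v.2| with h3 | h3
  · rw [max_eq_right h3] at h
    rcases abs_choice v.2 with h4 | h4 <;> omega
  · rw [max_eq_left h3] at h
    rcases abs_choice v.1 with h4 | h4 <;> omega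

private theorem kq_swp (hm : 1 ≤ m) {v : V} (hv : v ∈ Rg 0 m) : 0 ≤ kq 0 m v ∧
    kq 0 m v < 8 * m ∧ ((kq 0 m v = 0 ∧ kq 0 m (swp v) = 0) ∨
      (kq 0 m v ≠ 0 ∧ kq 0 m (swp v) = 8 * m - kq 0 m v)) := by
  obtain ⟨h1, h2, h3, h4, h5⟩ := rg_cases hv
  have e1 : (0 : V).1 = 0 := rfl
  have e2 : (0 : V).2 = 0 := rfl
  have e3 : (swp v).1 = v.2 := rfl
  have e4 : (swp v).2 = v.1 := rfl
  unfold kq key
  rw [e1, e2, e3, e4]
  split_ifs <;> omega

private theorem btw_refl {a b c a1 b1 c1 N : ℤ} (ha : 0 ≤ a) (hb : 0 ≤ b) (hc : 0 ≤ c)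
    (ha' : a < N) (hb' : b < N) (hc' : c < N)
    (ea : (a = 0 ∧ a1 = 0) ∨ (a ≠ 0 ∧ a1 = N - a))
    (eb : (b = 0 ∧ b1 = 0) ∨ (b ≠ 0 ∧ b1 = N - b))
    (ec : (c = 0 ∧ c1 = 0) ∨ (c ≠ 0 ∧ c1 = N - c)) (h : Btw a b c) : Btw c1 b1 a1 := by
  unfold Btw at h ⊢
  omega

theorem sti_swap (hm : 1 ≤ m) (p : ℝ) (σ : Bool) (n : ℤ) :
    P (StI p (!σ) n m) = P (StI p σ n m) := by
  refine st_swp_prob (fun y hy => ⟨fun i => ?_, ?_⟩) (-1) p σ n m n
  · have h1 : sn (y (Fin.rev i) - 0) = m := hy.1 (Fin.rev i)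
    change sn (swp (y (Fin.rev i)) - 0) = m
    rw [sub_zero, swp_sn]
    rwa [sub_zero] at h1
  · obtain ⟨k0, k0', l0⟩ := kq_swp hm (hy.1 0)
    obtain ⟨k1, k1', l1⟩ := kq_swp hm (hy.1 1)
    obtain ⟨k2, k2', l2⟩ := kq_swp hm (hy.1 2)
    obtain ⟨k3, k3', l3⟩ := kq_swp hm (hy.1 3)
    have h : Sep4 (kq 0 m (swp (y 0))) (kq 0 m (swp (y 3))) (kq 0 m (swp (y 2)))
        (kq 0 m (swp (y 1))) := by
      rcases hy.2 with ⟨g1, g2⟩ | ⟨g1, g2⟩
      · exact Or.inl ⟨btw_refl k2 k3 k0 k2' k3' k0' l2 l3 l0 g2,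
          btw_refl k0 k1 k2 k0' k1' k2' l0 l1 l2 g1⟩
      · exact Or.inr ⟨btw_refl k2 k1 k0 k2' k1' k0' l2 l1 l0 g2,
          btw_refl k0 k3 k2 k0' k3' k2' l0 l3 l2 g1⟩
    exact sep_rot h

private theorem low_aux {l r b t : ℤ} {c' : ℝ} (hc : 0 ≤ c') (σ : Bool) (p : ℝ)
    (hd : ∀ i j : Fin 4, i ≠ j →
      Disjoint {v : V | gf (i : ℕ) v ∈ Par l r b t} {v : V | gf (j : ℕ) v ∈ Par l r b t})
    (hp : ∀ τ, c' ≤ (P {w | PV (Co τ p w) l r b t}).toReal) {A : Set Lab}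
    (hA : ∀ w, (∀ i : Fin 4, ∃ u ∈ Par l r b t, ∃ v ∈ Par l r b t, u.2 = b ∧ v.2 = t ∧
      Conn (Co (alt σ i) p w ∩ {v : V | gf (i : ℕ) v ∈ Par l r b t}) (gf (i : ℕ) u)
        (gf (i : ℕ) v)) → w ∈ A) :
    c' ^ 4 ≤ (P A).toReal := by
  have ev : ∀ τ, Ev (Par l r b t) {w | PV (Co τ p w) l r b t} := fun τ =>
    ev_co (finite_par l r b t) τ p fun T => Join T {v | v.2 ≤ b} {v | t ≤ v.2}
  have evE : ∀ i : Fin 4, Ev {v : V | gf (i : ℕ) v ∈ Par l r b t}
      {w | (fun v => w (gf (i : ℕ) v)) ∈ {w | PV (Co (alt σ i) p w) l r b t}} := by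
    intro i
    refine ⟨(mp_comp (gf (i : ℕ))).measurable (ev (alt σ i)).1, fun w w' h hw => ?_⟩
    refine (ev (alt σ i)).2 _ _ (fun v hv => ?_) hw
    refine h _ ?_
    change gf (i : ℕ) (gf (i : ℕ) v) ∈ Par l r b t
    rw [gf_invol i.isLt]
    exact hv
  have hind := indep_iInter evE hd
  have hpr : ∀ i : Fin 4, c' ≤
      (P {w | (fun v => w (gf (i : ℕ) v)) ∈ {w | PV (Co (alt σ i) p w) l r b t}}).toReal := by
    intro i
    rw [prob_frame _ (ev (alt σ i)).1]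
    exact hp _
  have h1 : c' ^ 4 ≤ (P (⋂ i : Fin 4,
      {w | (fun v => w (gf (i : ℕ) v)) ∈ {w | PV (Co (alt σ i) p w) l r b t}})).toReal := by
    rw [hind, ENNReal.toReal_prod]
    have h2 : c' ^ 4 = ∏ _i : Fin 4, c' := by
      rw [Finset.prod_const, Finset.card_univ, Fintype.card_fin]
    rw [h2]
    exact Finset.prod_le_prod (fun _ _ => hc) fun i _ => hpr i
  refine h1.trans (ENNReal.toReal_mono (measure_ne_top _ _) (measure_mono fun w hw => ?_))
  refine hA w fun i => ?_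
  have h3 : PV (Co (alt σ i) p fun v => w (gf (i : ℕ) v)) l r b t := Set.mem_iInter.1 hw i
  obtain ⟨u, hu, v, hv, huv⟩ := h3
  have hu' := huv.left
  have hv' := huv.right
  have e : Co (alt σ i) p (fun v => w (gf (i : ℕ) v)) ∩ Par l r b t =
      gf (i : ℕ) ⁻¹' (Co (alt σ i) p w ∩ {v : V | gf (i : ℕ) v ∈ Par l r b t}) := by
    rw [co_comp]
    ext x
    change gf (i : ℕ) x ∈ Co (alt σ i) p w ∧ x ∈ Par l r b t ↔
      gf (i : ℕ) x ∈ Co (alt σ i) p w ∧ gf (i : ℕ) (gf (i : ℕ) x) ∈ Par l r b t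
    rw [gf_invol i.isLt]
  rw [e, conn_preimage (gf_aut i.isLt)] at huv
  have hu3 : u.2 ≤ b := hu
  have hv3 : t ≤ v.2 := hv
  exact ⟨u, hu'.2, v, hv'.2, le_antisymm hu3 hu'.2.2.2.1, le_antisymm hv'.2.2.2.2 hv3, huv⟩

theorem sto_low (c : ℝ) (hc : 0 < c) (A : ℤ) (hA : 1 ≤ A) : ∃ c' : ℝ, 0 < c' ∧
    ∀ (p : ℝ) (N : ℤ), Rsw c p N → ∀ (n m : ℤ) (σ : Bool), 1 ≤ n → n ≤ m → m ≤ A * n → m ≤ N →
    c' ≤ (P (StO p σ n m)).toReal := by
  obtain ⟨c', hc', -, h⟩ := rspc c hc (2 * A + 8) (by omega)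
  refine ⟨c' ^ 4, by positivity, fun p N hR n m σ hn hnm hmA hmN => ?_⟩
  obtain ⟨w0, hw0, hw1, hw2, hw3⟩ : ∃ w0 : ℤ, 0 ≤ w0 ∧ w0 ≤ n - 1 ∧ w0 ≤ m / 4 ∧
      (w0 = n - 1 ∨ w0 = m / 4) := by
    rcases le_total (n - 1) (m / 4) with h1 | h1
    · exact ⟨n - 1, by omega, le_rfl, h1, Or.inl rfl⟩
    · exact ⟨m / 4, by omega, h1, le_rfl, Or.inr rfl⟩
  have hk : 2 * m - n ≤ (2 * A + 8) * (w0 + 1) := by
    rcases hw3 with h1 | h1
    · have h2 : w0 + 1 = n := by omega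
      rw [h2]
      nlinarith
    · have h2 : m < 4 * (w0 + 1) := by omega
      nlinarith
  refine low_aux (l := 0) (r := w0) (b := -(2 * m)) (t := -n) hc'.le σ p ?_ ?_ ?_
  · intro i j hij
    have hij' : (i : ℕ) ≠ (j : ℕ) := fun h => hij (Fin.ext h)
    rw [Set.disjoint_left]
    rintro v ⟨a1, a2, a3, a4⟩ ⟨b1, b2, b3, b4⟩
    have hi := i.isLt
    have hj := j.isLt
    generalize (i : ℕ) = i' at hi hij' a1 a2 a3 a4
    generalize (j : ℕ) = j' at hj hij' b1 b2 b3 b4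
    rcases cases4' hi with rfl | rfl | rfl | rfl <;>
      rcases cases4' hj with rfl | rfl | rfl | rfl <;>
      simp only [gf0, gf1, gf2, gf3] at a1 a2 a3 a4 b1 b2 b3 b4 <;> omega
  · intro τ
    have h1 := (h p N hR (by omega) w0 hw0 (by omega) τ 0 (-(2 * m)) (2 * m - n) (by omega)
      hk).2
    rwa [zero_add, show -(2 * m) + (2 * m - n) = -n by ring] at h1
  · intro w hw
    choose u hu v hv hub hvt huv using hw
    refine ⟨fun i => (gf (i : ℕ) (u i), gf (i : ℕ) (v i)), ⟨fun i => ?_, fun i => ?_⟩,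
      fun i => ?_⟩
    · refine ⟨gf (i : ℕ) ((v i).1, (v i).2 + 1), ?_, (gf_aut i.isLt _ _).2 ?_⟩
      · change sn (gf (i : ℕ) ((v i).1, (v i).2 + 1) - 0) ≤ n - 1
        rw [sub_zero, gf_sn0 i.isLt]
        obtain ⟨h1, h2, h3, h4⟩ := hv i
        have h5 := hvt i
        unfold sn
        refine max_le ?_ ?_
        · rw [abs_le]
          constructor <;> dsimp only <;> omega
        · rw [abs_le]
          constructor <;> dsimp only <;> omega
      · exact Or.inr (Or.inl ⟨rfl, rfl⟩)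
    · constructor
      · rw [mem_be1]
        change gf (i : ℕ) (gf (i : ℕ) (u i)) ∈ _
        rw [gf_invol i.isLt]
        obtain ⟨h1, h2, h3, h4⟩ := hu i
        have h5 := hub i
        exact ⟨by omega, by omega, by omega, by omega⟩
      · change (gf (i : ℕ) (gf (i : ℕ) (u i))).2 = en 1 m
        rw [gf_invol i.isLt, hub i]
        rfl
    · refine (huv i).mono ?_
      rintro x ⟨hx1, hx2⟩
      refine ⟨hx1, ?_⟩
      obtain ⟨h1, h2, h3, h4⟩ := hx2
      by_cases h5 : (gf (i : ℕ) x).2 ≤ -m - 1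
      · right
        rw [mem_be1]
        exact ⟨by omega, by omega, by omega, by omega⟩
      · left
        have h6 : |(gf (i : ℕ) x).1| ≤ -(gf (i : ℕ) x).2 := by
          rw [abs_le]
          constructor <;> omega
        have h7 := sn_dom h6
        rw [gf_sn0 i.isLt] at h7
        change n ≤ sn (x - 0) ∧ sn (x - 0) ≤ m
        rw [sub_zero, h7]
        constructor <;> omega

theorem sti_low (c : ℝ) (hc : 0 < c) (A : ℤ) (hA : 1 ≤ A) : ∃ c' : ℝ, 0 < c' ∧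
    ∀ (p : ℝ) (N : ℤ), Rsw c p N → ∀ (n m : ℤ) (σ : Bool), 2 ≤ n → n ≤ m → m ≤ A * n → m ≤ N →
    c' ≤ (P (StI p σ n m)).toReal := by
  obtain ⟨c', hc', -, h⟩ := rspc c hc (8 * A) (by omega)
  refine ⟨c' ^ 4, by positivity, fun p N hR n m σ hn hnm hmA hmN => ?_⟩
  have hk : m - n / 2 ≤ 8 * A * (2 * (n / 8) + 1) := by
    have h1 : n ≤ 8 * (2 * (n / 8) + 1) := by omega
    have h2 : A * n ≤ A * (8 * (2 * (n / 8) + 1)) := mul_le_mul_of_nonneg_left h1 (by omega)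
    have h3 : A * (8 * (2 * (n / 8) + 1)) = 8 * A * (2 * (n / 8) + 1) := by ring
    rw [h3] at h2
    have h4 : 0 ≤ n / 2 := by omega
    linarith
  refine low_aux (l := -(n / 8)) (r := n / 8) (b := -m) (t := -(n / 2)) hc'.le σ p ?_ ?_ ?_
  · intro i j hij
    have hij' : (i : ℕ) ≠ (j : ℕ) := fun h => hij (Fin.ext h)
    rw [Set.disjoint_left]
    rintro v ⟨a1, a2, a3, a4⟩ ⟨b1, b2, b3, b4⟩
    have hi := i.isLt
    have hj := j.isLt
    generalize (i : ℕ) = i' at hi hij' a1 a2 a3 a4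
    generalize (j : ℕ) = j' at hj hij' b1 b2 b3 b4
    rcases cases4' hi with rfl | rfl | rfl | rfl <;>
      rcases cases4' hj with rfl | rfl | rfl | rfl <;>
      simp only [gf0, gf1, gf2, gf3] at a1 a2 a3 a4 b1 b2 b3 b4 <;> omega
  · intro τ
    have h1 := (h p N hR (by omega) (2 * (n / 8)) (by omega) (by omega) τ (-(n / 8)) (-m)
      (m - n / 2) (by omega) hk).2
    rwa [show -(n / 8) + 2 * (n / 8) = n / 8 by ring,
      show -m + (m - n / 2) = -(n / 2) by ring] at h1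
  · intro w hw
    choose u hu v hv hub hvt huv using hw
    refine ⟨fun i => (gf (i : ℕ) (v i), gf (i : ℕ) (u i)), ⟨⟨fun i => ?_, ?_⟩, fun i => ?_⟩,
      fun i => ?_⟩
    · change sn (gf (i : ℕ) (u i) - 0) = m
      rw [sub_zero, gf_sn0 i.isLt]
      obtain ⟨h1, h2, h3, h4⟩ := hu i
      have h5 := hub i
      have h6 : |(u i).1| ≤ -(u i).2 := by
        rw [abs_le]
        constructor <;> omega
      rw [sn_dom h6]
      omega
    · refine sep_box4 (y := fun i => gf (i : ℕ) (u i)) (s := n / 8) (q := m) (by omega)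
        (fun i => ?_) fun i => ?_
      · rw [gf_invol i.isLt]
        obtain ⟨h1, h2, h3, h4⟩ := hu i
        rw [abs_le]
        constructor <;> omega
      · rw [gf_invol i.isLt, hub i]
    · constructor
      · rw [mem_be2]
        change gf (i : ℕ) (gf (i : ℕ) (v i)) ∈ _
        rw [gf_invol i.isLt]
        obtain ⟨h1, h2, h3, h4⟩ := hv i
        have h5 := hvt i
        exact ⟨by omega, by omega, by omega, by omega⟩
      · change (gf (i : ℕ) (gf (i : ℕ) (v i))).2 = en (-1) n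
        rw [gf_invol i.isLt, hvt i]
        rfl
    · refine (huv i).symm.mono ?_
      rintro x ⟨hx1, hx2⟩
      refine ⟨hx1, ?_⟩
      obtain ⟨h1, h2, h3, h4⟩ := hx2
      by_cases h5 : -n + 1 ≤ (gf (i : ℕ) x).2
      · right
        rw [mem_be2]
        exact ⟨by omega, by omega, by omega, by omega⟩
      · left
        have h6 : |(gf (i : ℕ) x).1| ≤ -(gf (i : ℕ) x).2 := by
          rw [abs_le]
          constructor <;> omega
        have h7 := sn_dom h6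
        rw [gf_sn0 i.isLt] at h7
        change n ≤ sn (x - 0) ∧ sn (x - 0) ≤ m
        rw [sub_zero, h7]
        constructor <;> omega

end Pool.Agent.TriPerc
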