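import Pool.Agent.TriPerc.RusB
import Pool.Agent.TriPerc.Std

/-!
# A vertex with four standard arms is pivotal, probability

`pvt_sto`: `c1 P (StO p false 1 m) ≤ P (Pvt p N v)` for `N ≤ 64 m` and `v` at distance at least `2 m` from
the sides of the rhombus `Par 0 N 0 N` (`arms_harris1`, corridors to the four sides, `corr_gf`,
`pvt_of_arms`).
-/

namespace Pool.Agent.TriPerc

open MeasureTheory Set

variable {m L L' N : ℤ} {i j : ℕ} {x v : V} {p : ℝ} {σ : Bool} {w : Lab}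

/-- The corridor on the side `i`. -/
private def CD (m L : ℤ) (i : ℕ) : Set V := gf i ⁻¹' Par (-(m / 4)) (m / 4) (-L) (-m - 1)

/-- The crossings of the box and of the corridor. -/
private def CB (p : ℝ) (m L : ℤ) (i : ℕ) (σ : Bool) : Set Lab :=
  {w | PH (gf i ⁻¹' Co σ p w) (-(m / 4)) (m / 4) (-(2 * m)) (-m - 1)} ∩
    {w | PV (gf i ⁻¹' Co σ p w) (-(m / 4)) (m / 4) (-L) (-m - 1)}

private theorem ph_iff {S T : Set V} {l r b t : ℤ} (h : ∀ x ∈ Par l r b t, x ∈ S ↔ x ∈ T) :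
    PH S l r b t ↔ PH T l r b t := by
  have h1 : S ∩ Par l r b t = T ∩ Par l r b t := by
    ext x
    constructor
    · rintro ⟨h2, h3⟩
      exact ⟨(h x h3).1 h2, h3⟩
    · rintro ⟨h2, h3⟩
      exact ⟨(h x h3).2 h2, h3⟩
  unfold PH
  rw [h1]

private theorem pv_iff {S T : Set V} {l r b t : ℤ} (h : ∀ x ∈ Par l r b t, x ∈ S ↔ x ∈ T) :
    PV S l r b t ↔ PV T l r b t := by
  have h1 : S ∩ Par l r b t = T ∩ Par l r b t := by
    ext x
    constructor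
    · rintro ⟨h2, h3⟩
      exact ⟨(h x h3).1 h2, h3⟩
    · rintro ⟨h2, h3⟩
      exact ⟨(h x h3).2 h2, h3⟩
  unfold PV
  rw [h1]

private theorem cd_fin : (CD m L i).Finite :=
  (finite_par _ _ _ _).preimage (gf i).injective.injOn

private theorem mem_cd (hi : i < 4) (h : x ∈ CD m L i) :
    (i = 0 ∧ -(m / 4) ≤ x.1 ∧ x.1 ≤ m / 4 ∧ -L ≤ x.2 ∧ x.2 ≤ -m - 1) ∨
    (i = 1 ∧ -(m / 4) ≤ x.2 ∧ x.2 ≤ m / 4 ∧ x.1 ≤ L ∧ m + 1 ≤ x.1) ∨
    (i = 2 ∧ -(m / 4) ≤ x.1 ∧ x.1 ≤ m / 4 ∧ x.2 ≤ L ∧ m + 1 ≤ x.2) ∨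
    (i = 3 ∧ -(m / 4) ≤ x.2 ∧ x.2 ≤ m / 4 ∧ -L ≤ x.1 ∧ x.1 ≤ -m - 1) := by
  obtain ⟨h1, h2, h3, h4⟩ := h
  rcases (by omega : i = 0 ∨ i = 1 ∨ i = 2 ∨ i = 3) with rfl | rfl | rfl | rfl
  · have e1 : (gf 0 x).1 = x.1 := rfl
    have e2 : (gf 0 x).2 = x.2 := rfl
    rw [e1] at h1 h2
    rw [e2] at h3 h4
    omega
  · have e1 : (gf 1 x).1 = -x.2 := rfl
    have e2 : (gf 1 x).2 = -x.1 := rfl
    rw [e1] at h1 h2
    rw [e2] at h3 h4
    omega
  · have e1 : (gf 2 x).1 = -x.1 := rfl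
    have e2 : (gf 2 x).2 = -x.2 := rfl
    rw [e1] at h1 h2
    rw [e2] at h3 h4
    omega
  · have e1 : (gf 3 x).1 = x.2 := rfl
    have e2 : (gf 3 x).2 = x.1 := rfl
    rw [e1] at h1 h2
    rw [e2] at h3 h4
    omega

private theorem mem_sa {n : ℤ} (h : x ∈ SA 0 n m) : -m ≤ x.1 ∧ x.1 ≤ m ∧ -m ≤ x.2 ∧ x.2 ≤ m := by
  obtain ⟨-, h1⟩ := h
  rw [sub_zero] at h1
  have h2 := abs_le.1 ((le_max_left _ _).trans h1)
  have h3 := abs_le.1 ((le_max_right _ _).trans h1)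
  exact ⟨h2.1, h2.2, h3.1, h3.2⟩

private theorem be_cd (h : x ∈ BE 1 m i) : x ∈ CD m (2 * m) i := by
  unfold BE at h
  rw [if_pos rfl] at h
  exact h

private theorem cd_disj (hm : 4 ≤ m) (hi : i < 4) (hj : j < 4) (hij : i ≠ j) :
    Disjoint (CD m L i) (CD m L' j) := by
  refine Set.disjoint_left.2 fun x h1 h2 => ?_
  have h3 := mem_cd hi h1
  have h4 := mem_cd hj h2
  omega

private theorem cd_disj' (hm : 4 ≤ m) (hi : i < 4) (hj : j < 4) (hij : i ≠ j) :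
    Disjoint (CD m L i) (SA 0 1 m ∪ BE 1 m j) := by
  refine Set.disjoint_left.2 fun x h1 h2 => ?_
  rcases h2 with h2 | h2
  · have h3 := mem_cd hi h1
    have h4 := mem_sa h2
    omega
  · exact Set.disjoint_left.1 (cd_disj hm hi hj hij) h1 (be_cd h2)

private theorem pre_cd (hi : i < 4) {S : Set V} (hL : 2 * m ≤ L) :
    (PH (gf i ⁻¹' (S ∩ CD m L i)) (-(m / 4)) (m / 4) (-(2 * m)) (-m - 1) ↔
      PH (gf i ⁻¹' S) (-(m / 4)) (m / 4) (-(2 * m)) (-m - 1)) ∧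
    (PV (gf i ⁻¹' (S ∩ CD m L i)) (-(m / 4)) (m / 4) (-L) (-m - 1) ↔
      PV (gf i ⁻¹' S) (-(m / 4)) (m / 4) (-L) (-m - 1)) := by
  have key : ∀ x ∈ Par (-(m / 4)) (m / 4) (-L) (-m - 1),
      (x ∈ gf i ⁻¹' (S ∩ CD m L i) ↔ x ∈ gf i ⁻¹' S) := by
    intro x hx
    refine ⟨fun h => h.1, fun h => ⟨h, ?_⟩⟩
    change gf i (gf i x) ∈ Par (-(m / 4)) (m / 4) (-L) (-m - 1)
    rwa [gf_invol hi]
  refine ⟨ph_iff fun x hx => key x ?_, pv_iff key⟩
  obtain ⟨h1, h2, h3, h4⟩ := hx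
  exact ⟨h1, h2, by omega, h4⟩

private theorem ev_cb (hi : i < 4) (hL : 2 * m ≤ L) : Ev (CD m L i)
      {w | PH (gf i ⁻¹' Co σ p w) (-(m / 4)) (m / 4) (-(2 * m)) (-m - 1)} ∧
    Ev (CD m L i) {w | PV (gf i ⁻¹' Co σ p w) (-(m / 4)) (m / 4) (-L) (-m - 1)} := by
  constructor
  · have h1 := ev_co (cd_fin (m := m) (L := L) (i := i)) σ p
      (fun T => PH (gf i ⁻¹' T) (-(m / 4)) (m / 4) (-(2 * m)) (-m - 1))
    convert h1 using 1
    ext w
    exact (pre_cd hi hL).1.symm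
  · have h1 := ev_co (cd_fin (m := m) (L := L) (i := i)) σ p
      (fun T => PV (gf i ⁻¹' T) (-(m / 4)) (m / 4) (-L) (-m - 1))
    convert h1 using 1
    ext w
    exact (pre_cd hi hL).2.symm

private theorem inc_cb : Inc σ {w | PH (gf i ⁻¹' Co σ p w) (-(m / 4)) (m / 4) (-(2 * m))
      (-m - 1)} ∧ Inc σ {w | PV (gf i ⁻¹' Co σ p w) (-(m / 4)) (m / 4) (-L) (-m - 1)} :=
  ⟨inc_co σ p (fun T => PH (gf i ⁻¹' T) (-(m / 4)) (m / 4) (-(2 * m)) (-m - 1))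
      fun _ _ h k => phs_mono (preimage_mono h) k,
    inc_co σ p (fun T => PV (gf i ⁻¹' T) (-(m / 4)) (m / 4) (-L) (-m - 1))
      fun _ _ h k => pvs_mono (preimage_mono h) k⟩

private theorem cb_prob (c : ℝ) (hc : 0 < c) : ∃ c1 : ℝ, 0 < c1 ∧ ∀ (p : ℝ) (N m L : ℤ) (i : ℕ)
    (σ : Bool), Rsw c p N → 4 ≤ m → m ≤ N → N ≤ 64 * m → 2 * m ≤ L → L ≤ N → i < 4 →
    c1 ≤ (P (CB p m L i σ)).toReal := by
  obtain ⟨c2, hc2, -, h2⟩ := rspc c hc 200 (by norm_num)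
  refine ⟨c2 * c2, by positivity, fun p N m L i σ hR hm hmN hNm hL hLN hi => ?_⟩
  have e1 := (ev_cb (σ := σ) (p := p) hi hL).1
  have e2 := (ev_cb (σ := σ) (p := p) hi hL).2
  have h3 := inc_harris2 cd_fin e1 e2 (inc_cb (L := L)).1 (inc_cb (m := m)).2
  have h4 := ENNReal.toReal_mono (measure_ne_top P _) h3
  rw [ENNReal.toReal_mul] at h4
  refine le_trans ?_ h4
  have f1 : P {w | PH (gf i ⁻¹' Co σ p w) (-(m / 4)) (m / 4) (-(2 * m)) (-m - 1)} =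
      P {w | PH (Co σ p w) (-(m / 4)) (m / 4) (-(2 * m)) (-m - 1)} := by
    have h5 := prob_frame (gf i) (A := {w | PH (Co σ p w) (-(m / 4)) (m / 4) (-(2 * m)) (-m - 1)})
      (by
        have h6 := ev_co (finite_par (-(m / 4)) (m / 4) (-(2 * m)) (-m - 1)) σ p
          (fun T => PH T (-(m / 4)) (m / 4) (-(2 * m)) (-m - 1))
        convert h6.1 using 1
        ext w
        exact ph_iff fun x hx => ⟨fun h => ⟨h, hx⟩, fun h => h.1⟩)
    rw [← h5]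
    congr 1
    ext w
    change _ ↔ PH (Co σ p (fun v => w (gf i v))) _ _ _ _
    rw [co_comp]
    rfl
  have f2 : P {w | PV (gf i ⁻¹' Co σ p w) (-(m / 4)) (m / 4) (-L) (-m - 1)} =
      P {w | PV (Co σ p w) (-(m / 4)) (m / 4) (-L) (-m - 1)} := by
    have h5 := prob_frame (gf i) (A := {w | PV (Co σ p w) (-(m / 4)) (m / 4) (-L) (-m - 1)})
      (by
        have h6 := ev_co (finite_par (-(m / 4)) (m / 4) (-L) (-m - 1)) σ p
          (fun T => PV T (-(m / 4)) (m / 4) (-L) (-m - 1))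
        convert h6.1 using 1
        ext w
        exact pv_iff fun x hx => ⟨fun h => ⟨h, hx⟩, fun h => h.1⟩)
    rw [← h5]
    congr 1
    ext w
    change _ ↔ PV (Co σ p (fun v => w (gf i v))) _ _ _ _
    rw [co_comp]
    rfl
  rw [f1, f2]
  have g1 := (h2 p N hR (by omega) (m - 1) (by omega) (by omega) σ (-(m / 4)) (-(2 * m))
    (2 * (m / 4)) (by omega) (by omega)).1
  have g2 := (h2 p N hR (by omega) (2 * (m / 4)) (by omega) (by omega) σ (-(m / 4)) (-L)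
    (L - m - 1) (by omega) (by omega)).2
  rw [show -(m / 4) + 2 * (m / 4) = m / 4 by ring, show -(2 * m) + (m - 1) = -m - 1 by ring] at g1
  rw [show -(m / 4) + 2 * (m / 4) = m / 4 by ring, show -L + (L - m - 1) = -m - 1 by ring] at g2
  exact mul_le_mul g1 g2 hc2.le ENNReal.toReal_nonneg

private theorem base_sa (hm : 4 ≤ m) (h : ∃ y ∈ Sq 0 (1 - 1), Adj x y) : x ∈ SA 0 1 m ∧ Adj x 0 := by
  obtain ⟨y, hy, hxy⟩ := h
  have h1 : sn (y - 0) ≤ 0 := by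
    have : sn (y - 0) ≤ 1 - 1 := hy
    omega
  rw [sub_zero] at h1
  have h2 := abs_le.1 ((le_max_left _ _).trans h1)
  have h3 := abs_le.1 ((le_max_right _ _).trans h1)
  have h4 : y = 0 := Prod.ext (by change y.1 = 0; omega) (by change y.2 = 0; omega)
  subst h4
  have h5 := abs_le.1 (sn_adj hxy.symm 0)
  have h7 : sn ((0 : V) - 0) = 0 := by
    rw [sub_zero]
    rfl
  have h6 : x ≠ 0 := hxy.ne
  have h8 : 1 ≤ sn (x - 0) := by
    rw [sub_zero]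
    by_contra hc
    have h9 : sn x ≤ 0 := by omega
    have k2 := abs_le.1 ((le_max_left _ _).trans h9)
    have k3 := abs_le.1 ((le_max_right _ _).trans h9)
    exact h6 (Prod.ext (by change x.1 = 0; omega) (by change x.2 = 0; omega))
  exact ⟨⟨h8, by omega⟩, hxy⟩

/-- The distances of `v` from the sides. -/
private def dst (N : ℤ) (v : V) (i : ℕ) : ℤ :=
  if i = 0 then v.2 else if i = 1 then N - v.1 else if i = 2 then N - v.2 else v.1

private theorem det (hm : 4 ≤ m) (h1 : 2 * m ≤ v.1) (h2 : v.1 + 2 * m ≤ N) (h3 : 2 * m ≤ v.2)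
    (h4 : v.2 + 2 * m ≤ N)
    (hw : w ∈ StO p false 1 m ∩ ⋂ i : Fin 4, CB p m (dst N v i) i (alt false i)) :
    (fun x => w (tr (-v) x)) ∈ Pvt p N v := by
  obtain ⟨⟨z, ⟨hb, hz⟩, hc⟩, hB⟩ := hw
  rw [mem_iInter] at hB
  have hv : v ∈ Par 0 N 0 N := ⟨by omega, by omega, by omega, by omega⟩
  have hd : ∀ i : Fin 4, 2 * m ≤ dst N v i := by
    intro i
    unfold dst
    split_ifs <;> omega
  have key : ∀ i : Fin 4, ∃ x y, Adj x v ∧
      Conn (Co (alt false i) p (fun x => w (tr (-v) x)) ∩ Par 0 N 0 N) x (y + v) ∧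
      (gf (i : ℕ) y).2 ≤ -(dst N v i) := by
    intro i
    obtain ⟨k1, k2⟩ := base_sa hm (hb i)
    have hc' : Conn (Co (alt false i) p w ∩ (SA 0 1 m ∪ gf (i : ℕ) ⁻¹'
        Par (-(m / 4)) (m / 4) (-(2 * m)) (-m - 1))) (z i).2 (z i).1 := by
      refine (hc i).symm.mono ?_
      rintro q ⟨q1, q2 | q2⟩
      · exact ⟨q1, Or.inl q2⟩
      · exact ⟨q1, Or.inr (be_cd q2)⟩
    have hend : (gf (i : ℕ) (z i).1).2 ≤ -(2 * m) := by
      have := (hz i).2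
      rw [this]
      unfold en
      rw [if_pos rfl]
    obtain ⟨y, hy, h5⟩ := corr_gf i.2 hm (hd i) hc' k1 hend (hB i).1 (hB i).2
    refine ⟨(z i).2 + v, y, ?_, ?_, hy⟩
    · have := (isAut_tr v ((z i).2) 0).2 k2
      change Adj ((z i).2 + v) (0 + v) at this
      rwa [zero_add] at this
    · have h6 := (conn_image (isAut_tr v)).2 h5
      refine h6.mono ?_
      rintro _ ⟨q, ⟨q1, q2⟩, rfl⟩
      refine ⟨?_, ?_⟩
      · rw [co_comp]
        change tr (-v) (tr v q) ∈ Co (alt false i) p w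
        have : tr (-v) (tr v q) = q := by
          change q + v + -v = q
          rw [add_neg_cancel_right]
        rwa [this]
      · have e1 : (tr v q).1 = q.1 + v.1 := rfl
        have e2 : (tr v q).2 = q.2 + v.2 := rfl
        have hi := i.2
        unfold dst at q2
        rcases q2 with q2 | q2
        · have := mem_sa q2
          refine ⟨?_, ?_, ?_, ?_⟩ <;> omega
        · have q3 := mem_cd i.2 q2
          rcases q3 with ⟨i0, q4, q5, q6, q7⟩ | ⟨i0, q4, q5, q6, q7⟩ | ⟨i0, q4, q5, q6, q7⟩ |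
            ⟨i0, q4, q5, q6, q7⟩ <;> rw [i0] at q6 <;> norm_num at q6 <;>
            refine ⟨?_, ?_, ?_, ?_⟩ <;> omega
  refine pvt_of_arms hv ?_ ?_ ?_ ?_
  · obtain ⟨x, y, k1, k2, k3⟩ := key 0
    refine ⟨x, y + v, k1, k2, ?_⟩
    have k4 : y.2 ≤ -v.2 := k3
    change y.2 + v.2 ≤ 0
    omega
  · obtain ⟨x, y, k1, k2, k3⟩ := key 1
    refine ⟨x, y + v, k1, k2, ?_⟩
    have k4 : -y.1 ≤ -(N - v.1) := k3
    change N ≤ y.1 + v.1
    omega
  · obtain ⟨x, y, k1, k2, k3⟩ := key 2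
    refine ⟨x, y + v, k1, k2, ?_⟩
    have k4 : -y.2 ≤ -(N - v.2) := k3
    change N ≤ y.2 + v.2
    omega
  · obtain ⟨x, y, k1, k2, k3⟩ := key 3
    refine ⟨x, y + v, k1, k2, ?_⟩
    have k4 : y.1 ≤ -v.1 := k3
    change y.1 + v.1 ≤ 0
    omega

theorem pvt_sto (c : ℝ) (hc : 0 < c) : ∃ c1 : ℝ, 0 < c1 ∧ ∀ (p : ℝ) (N m : ℤ) (v : V),
    Rsw c p N → 4 ≤ m → N ≤ 64 * m → 2 * m ≤ v.1 → v.1 + 2 * m ≤ N → 2 * m ≤ v.2 →
    v.2 + 2 * m ≤ N → c1 * (P (StO p false 1 m)).toReal ≤ (P (Pvt p N v)).toReal := by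
  obtain ⟨c1, hc1, h1⟩ := cb_prob c hc
  refine ⟨c1 ^ 4, by positivity, fun p N m v hR hm hNm a1 a2 a3 a4 => ?_⟩
  have hd : ∀ i : Fin 4, 2 * m ≤ dst N v i ∧ dst N v i ≤ N := by
    intro i
    unfold dst
    split_ifs <;> omega
  have hne : ∀ i j : Fin 4, i ≠ j → (i : ℕ) ≠ (j : ℕ) := fun i j h h' => h (Fin.ext h')
  have h2 := arms_harris1 (σ := alt false) (p := p) (R := fun i : Fin 4 => SA 0 1 m ∪ BE 1 m i)
    (Γ := fun z => BaseO 1 (fun i => (z i).2) ∧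
      ∀ i : Fin 4, (z i).1 ∈ BE 1 m (i : ℕ) ∧ (gf (i : ℕ) (z i).1).2 = en 1 m)
    (D := fun i : Fin 4 => CD m (dst N v i) i)
    (fun i => (finite_sa _ _ _).union (finite_be 1 m i.2)) (fun i => cd_fin)
    (fun i j hij => cd_disj hm i.2 j.2 (hne i j hij))
    (fun i j hij => cd_disj' hm i.2 j.2 (hne i j hij))
    (B := fun i : Fin 4 => CB p m (dst N v i) i (alt false i))
    (fun i => (ev_cb i.2 (hd i).1).1.inter (ev_cb i.2 (hd i).1).2)
    (fun i => inc_inter (inc_cb (m := m) (L := dst N v i)).1 (inc_cb (m := m) (L := dst N v i)).2)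
  have h3 : P (StO p false 1 m) * ∏ i : Fin 4, P (CB p m (dst N v i) i (alt false i)) ≤
      P (StO p false 1 m ∩ ⋂ i : Fin 4, CB p m (dst N v i) i (alt false i)) := h2
  have h4 : P (StO p false 1 m ∩ ⋂ i : Fin 4, CB p m (dst N v i) i (alt false i)) ≤
      P (Pvt p N v) := by
    rw [← prob_frame (tr (-v)) (ev_pvt p N v).1]
    exact measure_mono fun w hw => det hm a1 a2 a3 a4 hw
  have h5 := ENNReal.toReal_mono (measure_ne_top P _) (h3.trans h4)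
  rw [ENNReal.toReal_mul, ENNReal.toReal_prod] at h5
  refine le_trans ?_ h5
  have h6 : c1 ^ 4 ≤ ∏ i : Fin 4, (P (CB p m (dst N v i) i (alt false i))).toReal := by
    rw [show c1 ^ 4 = ∏ _i : Fin 4, c1 by rw [Finset.prod_const, Finset.card_univ, Fintype.card_fin]]
    exact Finset.prod_le_prod (fun _ _ => hc1.le) fun i _ =>
      h1 p N m _ i _ hR hm (by omega) hNm (hd i).1 (hd i).2 i.2
  rw [mul_comm]
  exact mul_le_mul_of_nonneg_left h6 ENNReal.toReal_nonneg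

end Pool.Agent.TriPerc
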