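import Pool.Agent.TriPerc.SepO

/-!
# Separation of arms at the inner ring; quasi-multiplicativity

`t j = P (StI p true (2 ^ j) m)`.

* `step_in`: with the constants of `badR_prob` for `δ` and `C1 = 2 * (number of sources) * C` (`C`
  from
  `ext`): for `q = 2 M u`, `2 q ≤ m`, `q ≤ N`: `ff p q m ≤ δ ff p (2 q) m + C1 P (StI p true (q /
  4) m)`.
  PROOF.  By `land_in` the event `Fr (Op p w) 0 q m` is contained in the union of
  `BadR ∩ Fr (Op p w) 0 (2 q) m` (`fr_sub`) and of the events `FA (-1) (BaseI m) p σ q m u M k j a`.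
  `ev_badR`: support in `sn ≤ q + q / 4 < 2 q`; `indep`.  `ext` with `Base = BaseI m` (`sn (y i) =
  m ≥ 2 q`),
  `ST (-1) (BaseI m) p σ (q/4) m (q/4) = StI ..`, `sti_swap`.
* `sep_in`: `ff p (2 ^ (j + 2)) m ≤ C t j` for `1 ≤ j`, `2 ^ (j + 2) ≤ m ≤ N`.
  PROOF.  Let `C0 ≥ 1` be the constant of `sti_ext`, `δ = 1 / (2 C0)`, `M = 2 ^ e` and `C1` from
  `step_in`.
  (1) Let `j + 1 ≥ e`.  Claim with `C = max (1 / c') (2 C1)`, `c'` from `sti_low` with `A = 8`, by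
  induction on
  `r`, where `m < 2 ^ (j + 3 + r)`.  If `m < 2 ^ (j + 3) = 8 * 2 ^ j`: `t j ≥ c'`.  Otherwise
  `2 * 2 ^ (j + 2) ≤ m`; `step_in` with `u = 2 ^ (j + 1 - e)`, the induction hypothesis for `j + 1`
  (`r - 1`), `t (j + 1) ≤ C0 t j` (`sti_ext`).
  (2) Let `j + 1 < e`, `q0 = 2 ^ (e + 1)`.  If `q0 ≤ m`: `ff p (2 ^ (j + 2)) m ≤ ff p q0 m ≤ C t
  (e - 1) ≤
  C C0 ^ e t j`.  If `q0 > m`: `m ≤ 2 ^ (e + 1) ≤ A 2 ^ j` with `A = 2 ^ (e + 1)`: `sti_low`.
* `qm`: PROOF.  `rsw_ext` with `F = 2 ^ 12`: `Rsw c' p N'` with `N' = 2 ^ 12 N`; all constants are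
  taken for
  `c'`.  Let `4 k ≤ 2 ^ i < 8 k`, `l = 2 ^ i`.  `ff p n k ≤ C P (StO p true n l)` (`sep_out'`).
  Case `2 ^ (i + 5) ≤ m`: `ff p k m ≤ ff p (2 ^ (i + 5)) m ≤ C P (StI p true (2 ^ (i + 3)) m)`
  (`sep_in`),
  `2 ^ (i + 3) = 8 l`; the two events are independent (`ev_sto`: `SA 0 n (2 l)`, `ev_sti`: `SA 0
  (4 l) m`),
  so the product is `≤ C ^ 2 P (StO ∩ StI) ≤ C ^ 3 ff p n m` by `st_glue`.
  Case `m < 2 ^ (i + 5)`: `ff p k m ≤ 1`, and `P (StO p true n (2 ^ i)) ≤ C0 ^ 4 P (StO p true n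
  (2 ^ (i + 4)))
  ≤ C0 ^ 4 ff p n (2 ^ (i + 5)) ≤ C0 ^ 4 ff p n m` (`sto_ext`, `sto_fr`, `ff_anti`).
-/

namespace Pool.Agent.TriPerc

open MeasureTheory

private theorem si_mono {A B : Set Lab} (h : A ⊆ B) : (P A).toReal ≤ (P B).toReal :=
  ENNReal.toReal_mono (measure_ne_top P B) (measure_mono h)

private theorem si_le_one (A : Set Lab) : (P A).toReal ≤ 1 := by
  have h := ENNReal.toReal_mono ENNReal.one_ne_top (prob_le_one (μ := P) (s := A))
  simpa using h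

private theorem si_nonneg (A : Set Lab) : 0 ≤ (P A).toReal := ENNReal.toReal_nonneg

private theorem si_ff1 (p : ℝ) (n m : ℤ) : ff p n m ≤ 1 := si_le_one _

private theorem si_ff0 (p : ℝ) (n m : ℤ) : 0 ≤ ff p n m := si_nonneg _

private theorem si_swap {m : ℤ} (hm : 1 ≤ m) (p : ℝ) (σ : Bool) (n : ℤ) :
    (P (StI p σ n m)).toReal = (P (StI p true n m)).toReal := by
  cases σ
  · have h := sti_swap hm p true n
    rw [Bool.not_true] at h
    rw [h]
  · rfl

private theorem si_union {α : Type*} (F : Finset α) (A : Set Lab) (f : Bool → α → Set Lab)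
    {E : Set Lab} (h : E ⊆ A ∪ ⋃ σ : Bool, ⋃ x ∈ F, f σ x) {b : ℝ}
    (hb : ∀ σ, ∀ x ∈ F, (P (f σ x)).toReal ≤ b) :
    (P E).toReal ≤ (P A).toReal + 2 * F.card * b := by
  have h1 : P E ≤ P A + ∑ σ : Bool, ∑ x ∈ F, P (f σ x) := by
    refine (measure_mono h).trans ((measure_union_le _ _).trans ?_)
    refine add_le_add le_rfl ?_
    refine (measure_iUnion_le _).trans ?_
    rw [tsum_fintype]
    exact Finset.sum_le_sum fun σ _ => measure_biUnion_finset_le F (f σ)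
  have h2 : ∑ σ : Bool, ∑ x ∈ F, P (f σ x) ≠ ⊤ := by
    refine ENNReal.sum_ne_top.2 fun σ _ => ENNReal.sum_ne_top.2 fun x _ => ?_
    exact measure_ne_top P _
  have h3 := ENNReal.toReal_mono (ENNReal.add_ne_top.2 ⟨measure_ne_top P A, h2⟩) h1
  rw [ENNReal.toReal_add (measure_ne_top P A) h2, ENNReal.toReal_sum (fun σ _ =>
    ENNReal.sum_ne_top.2 fun x _ => measure_ne_top P _)] at h3
  refine h3.trans (add_le_add le_rfl ?_)
  have h4 : ∀ σ : Bool, (∑ x ∈ F, P (f σ x)).toReal ≤ F.card * b := by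
    intro σ
    rw [ENNReal.toReal_sum fun x _ => measure_ne_top P _]
    have h5 := Finset.sum_le_card_nsmul F (fun x => (P (f σ x)).toReal) b (hb σ)
    rwa [nsmul_eq_mul] at h5
  rw [Fintype.sum_bool]
  have h5 := h4 true
  have h6 := h4 false
  linarith

private theorem si_pow {e : ℕ} (h : (64 : ℤ) * 101 ≤ 2 ^ e) : 6 ≤ e := by
  by_contra hcon
  have h1 : (2 : ℤ) ^ e ≤ 2 ^ 6 := pow_le_pow_right₀ (by norm_num) (by omega)
  norm_num at h1
  omega

theorem step_in (c : ℝ) (hc : 0 < c) (δ : ℝ) (hδ : 0 < δ) : ∃ (e : ℕ) (C1 : ℝ), 6 ≤ e ∧ 0 < C1 ∧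
    ∀ (p : ℝ) (N : ℤ), Rsw c p N → ∀ m u : ℤ, 1 ≤ u → 2 * (2 * 2 ^ e * u) ≤ m →
    2 * 2 ^ e * u ≤ N →
    ff p (2 * 2 ^ e * u) m ≤ δ * ff p (2 * (2 * 2 ^ e * u)) m +
      C1 * (P (StI p true (2 * 2 ^ e * u / 4) m)).toReal := by
  obtain ⟨κ, G, D, M, hP, hB⟩ := badR_prob c hc δ hδ
  obtain ⟨C, hC, hE⟩ := ext c hc κ G D M hP
  obtain ⟨hP1, hP2, hP3, e, hMe⟩ := id hP
  have h4k : (1 : ℤ) ≤ 4 ^ κ := one_le_pow₀ (by norm_num)
  have he : 6 ≤ e := si_pow (by omega)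
  subst hMe
  set F := (src_fin κ (2 ^ e)).toFinset with hF
  refine ⟨e, 2 * F.card * C + 1, he, by positivity, fun p N hR m u hu hm hN => ?_⟩
  set q : ℤ := 2 * 2 ^ e * u with hq
  have h2e : (1 : ℤ) ≤ 2 ^ e := one_le_pow₀ (by norm_num)
  have hq1 : 2 ≤ q := by
    have : (1 : ℤ) ≤ 2 ^ e * u := by nlinarith
    have h2 : q = 2 * (2 ^ e * u) := by rw [hq]; ring
    omega
  have hm1 : 1 ≤ m := by omega
  have hsub : {w | Fr (Op p w) 0 q m} ⊆
      (BadR (-1) p q (8 * (G * u)) (G * u) (D * u) (scl u κ) ∩ {w | Fr (Op p w) 0 (2 * q) m}) ∪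
      ⋃ σ : Bool, ⋃ x ∈ F, FA (-1) (BaseI m) p σ q m u (2 ^ e) x.1 x.2.1 x.2.2 := by
    intro w hw
    by_cases hb : w ∈ BadR (-1) p q (8 * (G * u)) (G * u) (D * u) (scl u κ)
    · left
      exact ⟨hb, fr_sub (by omega) hm le_rfl hw⟩
    · right
      obtain ⟨σ, k, j, a, h1, h2⟩ := land_in hP hu hm hb hw
      rw [Set.mem_iUnion]
      refine ⟨σ, ?_⟩
      rw [Set.mem_iUnion₂]
      refine ⟨(k, j, a), ?_, h2⟩
      rw [hF, Set.Finite.mem_toFinset]
      exact h1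
  have hfa : ∀ σ : Bool, ∀ x ∈ F,
      (P (FA (-1) (BaseI m) p σ q m u (2 ^ e) x.1 x.2.1 x.2.2)).toReal ≤
        C * (P (StI p true (q / 4) m)).toReal := by
    intro σ x hx
    rw [hF, Set.Finite.mem_toFinset] at hx
    have h1 := hE p N hR (-1) q m u (q / 4) m (q / 4) hu hN (Or.inr ⟨rfl, rfl, hm, rfl, rfl, rfl⟩)
      (BaseI m) σ (fun y hy i => ?_) x.1 x.2.1 x.2.2 hx
    · refine h1.trans (le_of_eq ?_)
      change C * (P (StI p σ (q / 4) m)).toReal = _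
      rw [si_swap hm1]
    · have h2 : sn (y i - 0) = m := hy.1 i
      rw [sub_zero] at h2
      rw [h2, abs_of_nonneg (by omega)]
      have h3 : q = 2 * (2 ^ e * u) := by rw [hq]; ring
      omega
  have h1 := si_union F _ _ hsub hfa
  have h2 : (P (BadR (-1) p q (8 * (G * u)) (G * u) (D * u) (scl u κ) ∩
      {w | Fr (Op p w) 0 (2 * q) m})).toReal ≤ δ * ff p (2 * q) m := by
    rw [indep (ev_badR (Or.inr rfl) hP hu p) (ev_fr p (2 * q) m) ?_, ENNReal.toReal_mul]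
    · exact mul_le_mul_of_nonneg_right (hB p N hR (-1) u (Or.inr rfl) hu hN) (si_nonneg _)
    · refine Set.disjoint_left.2 fun v hv1 hv2 => ?_
      have h3 := hv1.2
      have h4 := hv2.1
      omega
  have h3 := si_nonneg (StI p true (q / 4) m)
  calc ff p q m ≤ _ := h1
    _ ≤ δ * ff p (2 * q) m + 2 * F.card * (C * (P (StI p true (q / 4) m)).toReal) :=
        add_le_add h2 le_rfl
    _ ≤ δ * ff p (2 * q) m + (2 * F.card * C + 1) * (P (StI p true (q / 4) m)).toReal := by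
        nlinarith

private theorem si_iter {t : ℕ → ℝ} {C0 : ℝ} {b : ℕ} (hC0 : 1 ≤ C0)
    (h : ∀ i, 1 ≤ i → i + 1 ≤ b → t (i + 1) ≤ C0 * t i) (j : ℕ) (hj : 1 ≤ j) :
    ∀ s, j + s ≤ b → t (j + s) ≤ C0 ^ s * t j
  | 0, _ => by simp
  | s + 1, hs => by
    have h1 := si_iter hC0 h j hj s (by omega)
    have h2 := h (j + s) (by omega) (by omega)
    have h3 : (0 : ℝ) ≤ C0 := by linarith
    calc t (j + (s + 1)) ≤ C0 * t (j + s) := h2
      _ ≤ C0 * (C0 ^ s * t j) := mul_le_mul_of_nonneg_left h1 h3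
      _ = C0 ^ (s + 1) * t j := by ring

theorem sep_in (c : ℝ) (hc : 0 < c) : ∃ C : ℝ, 0 < C ∧ ∀ (p : ℝ) (N : ℤ), Rsw c p N →
    ∀ (m : ℤ) (j : ℕ), 1 ≤ j → 2 ^ (j + 2) ≤ m → m ≤ N →
    ff p (2 ^ (j + 2)) m ≤ C * (P (StI p true (2 ^ j) m)).toReal := by
  obtain ⟨C0', hC0', hx⟩ := sti_ext c hc
  obtain ⟨C0, hC0, hC00⟩ : ∃ C0 : ℝ, 1 ≤ C0 ∧ C0' ≤ C0 := ⟨max 1 C0', le_max_left _ _,
    le_max_right _ _⟩
  have hC0p : 0 < C0 := by linarith
  obtain ⟨e, C1, he, hC1, hst⟩ := step_in c hc (1 / (2 * C0)) (by positivity)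
  obtain ⟨c1, hc1, hl1⟩ := sti_low c hc 8 (by norm_num)
  obtain ⟨c2, hc2, hl2⟩ := sti_low c hc (2 ^ (e + 1)) (one_le_pow₀ (by norm_num))
  set C := max (1 / c1) (2 * C1) with hCdef
  have hCa : 1 / c1 ≤ C := le_max_left _ _
  have hCb : 2 * C1 ≤ C := le_max_right _ _
  have hCp : 0 < C := by linarith
  have hsx : ∀ (p : ℝ) (N : ℤ), Rsw c p N → ∀ m : ℤ, m ≤ N → ∀ i : ℕ, 1 ≤ i →
      2 ^ (i + 1) ≤ m →
      (P (StI p true (2 ^ (i + 1)) m)).toReal ≤ C0 * (P (StI p true (2 ^ i) m)).toReal := by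
    intro p N hR m hmN i hi him
    have h2 : (2 : ℤ) ^ (i + 1) = 2 * 2 ^ i := by ring
    have h3 : (2 : ℤ) ≤ 2 ^ i := by
      calc (2 : ℤ) = 2 ^ 1 := by norm_num
        _ ≤ 2 ^ i := pow_le_pow_right₀ (by norm_num) hi
    rw [h2] at him ⊢
    refine (hx p N hR (2 ^ i) m true h3 him (by omega)).trans ?_
    exact mul_le_mul_of_nonneg_right hC00 (si_nonneg _)
  have main : ∀ (p : ℝ) (N : ℤ), Rsw c p N → ∀ m : ℤ, m ≤ N → ∀ r j : ℕ, 1 ≤ j → e ≤ j + 1 →
      2 ^ (j + 2) ≤ m → m < 2 ^ (j + 3 + r) →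
      ff p (2 ^ (j + 2)) m ≤ C * (P (StI p true (2 ^ j) m)).toReal := by
    intro p N hR m hmN r
    have base : ∀ j : ℕ, 1 ≤ j → 2 ^ (j + 2) ≤ m → m < 2 ^ (j + 3) →
        ff p (2 ^ (j + 2)) m ≤ C * (P (StI p true (2 ^ j) m)).toReal := by
      intro j hj h1 h2
      have h3 : (2 : ℤ) ≤ 2 ^ j := by
        calc (2 : ℤ) = 2 ^ 1 := by norm_num
          _ ≤ 2 ^ j := pow_le_pow_right₀ (by norm_num) hj
      have e1 : (2 : ℤ) ^ (j + 2) = 4 * 2 ^ j := by ring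
      have e2 : (2 : ℤ) ^ (j + 3) = 8 * 2 ^ j := by ring
      have h4 := hl1 p N hR (2 ^ j) m true h3 (by omega) (by omega) hmN
      calc ff p (2 ^ (j + 2)) m ≤ 1 := si_ff1 _ _ _
        _ = 1 / c1 * c1 := by field_simp
        _ ≤ C * (P (StI p true (2 ^ j) m)).toReal :=
          mul_le_mul hCa h4 hc1.le hCp.le
    induction r with
    | zero =>
      intro j hj _ h1 h2
      exact base j hj h1 h2
    | succ r ih =>
      intro j hj hej h1 h2
      by_cases hm : m < 2 ^ (j + 3)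
      · exact base j hj h1 hm
      · have e1 : (2 : ℤ) * 2 ^ e * 2 ^ (j + 1 - e) = 2 ^ (j + 2) := by
          have : j + 2 = 1 + e + (j + 1 - e) := by omega
          rw [this, pow_add, pow_add]
          norm_num
        have e2 : (2 : ℤ) ^ (j + 2) / 4 = 2 ^ j := by
          have : (2 : ℤ) ^ (j + 2) = 4 * 2 ^ j := by ring
          rw [this]
          omega
        have e3 : (2 : ℤ) * 2 ^ (j + 2) = 2 ^ (j + 3) := by ring
        have hu : (1 : ℤ) ≤ 2 ^ (j + 1 - e) := one_le_pow₀ (by norm_num)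
        have h3 := hst p N hR m (2 ^ (j + 1 - e)) hu (by rw [e1, e3]; omega)
          (by rw [e1]; omega)
        rw [e1, e2, e3] at h3
        have h4 := ih (j + 1) (by omega) (by omega) (by
          have : j + 1 + 2 = j + 3 := by omega
          rw [this]
          omega) (by
          have : j + 1 + 3 + r = j + 3 + (r + 1) := by omega
          rw [this]
          exact h2)
        have e4 : j + 1 + 2 = j + 3 := by omega
        rw [e4] at h4
        have h5 := hsx p N hR m hmN j hj (by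
          have : (2 : ℤ) ^ (j + 1) ≤ 2 ^ (j + 2) := pow_le_pow_right₀ (by norm_num) (by omega)
          omega)
        set t := (P (StI p true (2 ^ j) m)).toReal with ht
        have ht0 : 0 ≤ t := si_nonneg _
        have h6 : ff p (2 ^ (j + 3)) m ≤ C * (C0 * t) :=
          h4.trans (mul_le_mul_of_nonneg_left h5 hCp.le)
        have h7 : 1 / (2 * C0) * ff p (2 ^ (j + 3)) m ≤ 1 / (2 * C0) * (C * (C0 * t)) :=
          mul_le_mul_of_nonneg_left h6 (by positivity)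
        have h8 : 1 / (2 * C0) * (C * (C0 * t)) = C / 2 * t := by
          field_simp
        have h9 : C1 * t ≤ C / 2 * t := mul_le_mul_of_nonneg_right (by linarith) ht0
        calc ff p (2 ^ (j + 2)) m ≤ _ := h3
          _ ≤ C / 2 * t + C / 2 * t := by linarith
          _ = C * t := by ring
  have hpw : (1 : ℝ) ≤ C0 ^ e := one_le_pow₀ hC0
  refine ⟨max (C * C0 ^ e) (1 / c2), lt_max_of_lt_left (by positivity),
    fun p N hR m j hj hm hmN => ?_⟩
  have ht0 := si_nonneg (StI p true (2 ^ j) m)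
  by_cases hje : e ≤ j + 1
  · obtain ⟨r, hr⟩ : ∃ r : ℕ, m < 2 ^ (j + 3 + r) := by
      obtain ⟨r, hr⟩ := pow_unbounded_of_one_lt m (by norm_num : (1 : ℤ) < 2)
      exact ⟨r, hr.trans_le (pow_le_pow_right₀ (by norm_num) (by omega))⟩
    refine (main p N hR m hmN r j hj hje hm hr).trans ?_
    refine mul_le_mul_of_nonneg_right ?_ ht0
    refine le_trans ?_ (le_max_left _ _)
    exact le_mul_of_one_le_right hCp.le hpw
  · by_cases hq : 2 ^ (e + 1) ≤ m
    · have e1 : e - 1 + 2 = e + 1 := by omega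
      have e0 : (2 : ℤ) ^ (e - 1 + 2) = 2 ^ (e + 1) := by rw [e1]
      obtain ⟨r, hr⟩ : ∃ r : ℕ, m < 2 ^ (e - 1 + 3 + r) := by
        obtain ⟨r, hr⟩ := pow_unbounded_of_one_lt m (by norm_num : (1 : ℤ) < 2)
        exact ⟨r, hr.trans_le (pow_le_pow_right₀ (by norm_num) (by omega))⟩
      have h1 := main p N hR m hmN r (e - 1) (by omega) (by omega) (by rw [e0]; exact hq) hr
      rw [e0] at h1
      have h2 : ff p (2 ^ (j + 2)) m ≤ ff p (2 ^ (e + 1)) m :=
        ff_anti (pow_le_pow_right₀ (by norm_num) (by omega)) hq le_rfl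
      have h3 := si_iter (t := fun i => (P (StI p true (2 ^ i) m)).toReal) (b := e + 1) hC0
        (fun i hi hib => hsx p N hR m hmN i hi
          ((pow_le_pow_right₀ (by norm_num) hib).trans hq)) j hj (e - 1 - j) (by omega)
      have e2 : j + (e - 1 - j) = e - 1 := by omega
      simp only [e2] at h3
      have h4 : C0 ^ (e - 1 - j) ≤ C0 ^ e := pow_le_pow_right₀ hC0 (by omega)
      calc ff p (2 ^ (j + 2)) m ≤ C * (P (StI p true (2 ^ (e - 1)) m)).toReal := h2.trans h1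
        _ ≤ C * (C0 ^ (e - 1 - j) * (P (StI p true (2 ^ j) m)).toReal) :=
          mul_le_mul_of_nonneg_left h3 hCp.le
        _ ≤ C * (C0 ^ e * (P (StI p true (2 ^ j) m)).toReal) :=
          mul_le_mul_of_nonneg_left (mul_le_mul_of_nonneg_right h4 ht0) hCp.le
        _ = C * C0 ^ e * (P (StI p true (2 ^ j) m)).toReal := by ring
        _ ≤ _ := mul_le_mul_of_nonneg_right (le_max_left _ _) ht0
    · have h3 : (2 : ℤ) ≤ 2 ^ j := by
        calc (2 : ℤ) = 2 ^ 1 := by norm_num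
          _ ≤ 2 ^ j := pow_le_pow_right₀ (by norm_num) hj
      have h5 : (0 : ℤ) < 2 ^ (e + 1) := by positivity
      have e1 : (2 : ℤ) ^ (j + 2) = 4 * 2 ^ j := by ring
      have h4 := hl2 p N hR (2 ^ j) m true h3 (by omega) (by nlinarith) hmN
      calc ff p (2 ^ (j + 2)) m ≤ 1 := si_ff1 _ _ _
        _ = 1 / c2 * c2 := by field_simp
        _ ≤ max (C * C0 ^ e) (1 / c2) * (P (StI p true (2 ^ j) m)).toReal :=
          mul_le_mul (le_max_right _ _) h4 hc2.le (le_max_of_le_right (by positivity))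

/-- Quasi-multiplicativity. -/
theorem qm (c : ℝ) (hc : 0 < c) : ∃ C : ℝ, 0 < C ∧ ∀ (p : ℝ) (N : ℤ), Rsw c p N →
    ∀ n k m : ℤ, 1 ≤ n → n ≤ k → k ≤ m → m ≤ N → ff p n k * ff p k m ≤ C * ff p n m := by
  obtain ⟨c', hc', -, hxt⟩ := rsw_ext c hc (2 ^ 12) (by norm_num)
  obtain ⟨Ca, hCa, ha⟩ := sep_out' c' hc'
  obtain ⟨Cb, hCb, hb⟩ := sep_in c' hc'
  obtain ⟨Cg, hCg, hg⟩ := st_glue c' hc'
  obtain ⟨C0, hC0, h0⟩ := sto_ext c' hc'
  refine ⟨Ca * Cb * Cg + Ca * C0 ^ 4, by positivity, fun p N hR n k m hn hnk hkm hmN => ?_⟩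
  have hR' := hxt p N hR
  set N' : ℤ := 2 ^ 12 * N with hN'
  have hN1 : 1 ≤ N := by omega
  obtain ⟨i, hi1, hi2⟩ : ∃ i : ℕ, 4 * k ≤ 2 ^ i ∧ 2 ^ i < 8 * k := by
    obtain ⟨r, hr⟩ := pow_unbounded_of_one_lt (4 * k) (by norm_num : (1 : ℤ) < 2)
    have hex : ∃ i : ℕ, 4 * k ≤ 2 ^ i := ⟨r, hr.le⟩
    classical
    refine ⟨Nat.find hex, Nat.find_spec hex, ?_⟩
    have h1 : Nat.find hex ≠ 0 := by
      intro h2
      have h3 := Nat.find_spec hex
      rw [h2] at h3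
      norm_num at h3
      omega
    obtain ⟨s, hs⟩ := Nat.exists_eq_succ_of_ne_zero h1
    have h2 : ¬ 4 * k ≤ 2 ^ s := Nat.find_min hex (by omega)
    rw [hs, Nat.succ_eq_add_one, pow_succ]
    omega
  have hf := si_ff0 p n m
  have hA := ha p N' hR' n k i true hn hnk hi1 (by omega) (by omega)
  have e5 : (2 : ℤ) ^ (i + 5) = 32 * 2 ^ i := by ring
  have e3 : (2 : ℤ) ^ (i + 3) = 8 * 2 ^ i := by ring
  have hl4 : (4 : ℤ) ≤ 2 ^ i := by omega
  by_cases hm : 2 ^ (i + 5) ≤ m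
  · have h1 : ff p k m ≤ ff p (2 ^ (i + 5)) m := ff_anti (by omega) hm le_rfl
    have h2 := hb p N' hR' m (i + 3) (by omega) hm (by omega)
    have e6 : (2 : ℤ) ^ (i + 3 + 2) = 2 ^ (i + 5) := rfl
    rw [e6, e3] at h2
    have h3 := hg p N' hR' n (2 ^ i) m true hn (by omega) hl4 (by omega) (by omega)
    rw [indep (ev_sto (by omega) (by omega) p true) (ev_sti (by omega) (by omega) p true) ?_,
      ENNReal.toReal_mul] at h3
    · set a := (P (StO p true n (2 ^ i))).toReal with hadef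
      set b := (P (StI p true (8 * 2 ^ i) m)).toReal with hbdef
      have ha0 : 0 ≤ a := si_nonneg _
      have hb0 : 0 ≤ b := si_nonneg _
      calc ff p n k * ff p k m ≤ (Ca * a) * (Cb * b) :=
            mul_le_mul hA (h1.trans h2) (si_ff0 _ _ _) (by positivity)
        _ = Ca * Cb * (a * b) := by ring
        _ ≤ Ca * Cb * (Cg * ff p n m) := mul_le_mul_of_nonneg_left h3 (by positivity)
        _ ≤ (Ca * Cb * Cg + Ca * C0 ^ 4) * ff p n m := by
          have h4 : 0 ≤ Ca * C0 ^ 4 * ff p n m := by positivity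
          linarith
    · refine Set.disjoint_left.2 fun v hv1 hv2 => ?_
      have h4 := hv1.2
      have h5 := hv2.1
      omega
  · have hst : ∀ s : ℕ, s ≤ 4 → (P (StO p true n (2 ^ i))).toReal ≤
        C0 ^ s * (P (StO p true n (2 ^ (i + s)))).toReal := by
      intro s
      induction s with
      | zero =>
        intro _
        simp
      | succ s ih =>
        intro hs
        have h1 := ih (by omega)
        have h2 : (2 : ℤ) ^ i ≤ 2 ^ (i + s) := pow_le_pow_right₀ (by norm_num) (by omega)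
        have h3 : (2 : ℤ) ^ (i + s) ≤ 2 ^ (i + 3) := pow_le_pow_right₀ (by norm_num) (by omega)
        have h4 := h0 p N' hR' n (2 ^ (i + s)) true hn (by omega) (by omega) (by omega)
        have e7 : (2 : ℤ) * 2 ^ (i + s) = 2 ^ (i + (s + 1)) := by ring
        rw [e7] at h4
        calc (P (StO p true n (2 ^ i))).toReal ≤
            C0 ^ s * (P (StO p true n (2 ^ (i + s)))).toReal := h1
          _ ≤ C0 ^ s * (C0 * (P (StO p true n (2 ^ (i + (s + 1))))).toReal) :=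
            mul_le_mul_of_nonneg_left h4 (by positivity)
          _ = C0 ^ (s + 1) * (P (StO p true n (2 ^ (i + (s + 1))))).toReal := by ring
    have h1 := hst 4 le_rfl
    have e8 : (2 : ℤ) * 2 ^ (i + 4) = 2 ^ (i + 5) := by ring
    have h2 : (P (StO p true n (2 ^ (i + 4)))).toReal ≤ ff p n (2 ^ (i + 5)) := by
      rw [← e8]
      have h3 : (2 : ℤ) ^ i ≤ 2 ^ (i + 4) := pow_le_pow_right₀ (by norm_num) (by omega)
      exact si_mono fun w hw => sto_fr hn (by omega) hw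
    have h3 : ff p n (2 ^ (i + 5)) ≤ ff p n m := ff_anti le_rfl (by omega) (by omega)
    have h4 : ff p n k ≤ Ca * (C0 ^ 4 * ff p n m) := by
      refine hA.trans (mul_le_mul_of_nonneg_left ?_ hCa.le)
      exact h1.trans (mul_le_mul_of_nonneg_left (h2.trans h3) (by positivity))
    calc ff p n k * ff p k m ≤ ff p n k * 1 :=
          mul_le_mul_of_nonneg_left (si_ff1 _ _ _) (si_ff0 _ _ _)
      _ = ff p n k := mul_one _
      _ ≤ Ca * (C0 ^ 4 * ff p n m) := h4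
      _ ≤ (Ca * Cb * Cg + Ca * C0 ^ 4) * ff p n m := by
        have h5 : 0 ≤ Ca * Cb * Cg * ff p n m := by positivity
        linarith

end Pool.Agent.TriPerc
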