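import Pool.Agent.TriPerc.Off
import Pool.Agent.TriPerc.RusC
import Pool.Agent.TriPerc.SepI

/-!
# The two inputs of the window package: quasi-multiplicativity and Russo's formula

`qmFr : QmFr` (`qm`), `rusFr : RusFr`: `russo_lb` with the `(N - 4 m + 1) ^ 2` vertices at distance at least
`2 m` from the sides, `m = 2 ^ i`, `8 m ≤ N < 16 m`, `pvt_sto`, `sep_out'`; for `N ≤ 256` the vertex `0`.
-/

namespace Pool.Agent.TriPerc

open MeasureTheory Set

variable {c p : ℝ} {N : ℤ}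

theorem qmFr : QmFr := fun c hc => qm c hc

private theorem pm {A B : Set Lab} (h : A ⊆ B) : (P A).toReal ≤ (P B).toReal :=
  ENNReal.toReal_mono (measure_ne_top P B) (measure_mono h)

private theorem ev_incl (σ : Bool) (p : ℝ) (A : Finset V) :
    Ev (A : Set V) {w | (A : Set V) ⊆ Co σ p w} := by
  have h := ev_co A.finite_toSet σ p (fun T => (A : Set V) ⊆ T)
  convert h using 1
  ext w
  exact ⟨fun h x hx => ⟨h hx, hx⟩, fun h x hx => (h hx).1⟩

/-- The corner is pivotal with positive probability. -/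
theorem pvt_small (h : Rsw c p N) (hN : 1 ≤ N) :
    (c / 2) ^ (2 * N.toNat) ≤ (P (Pvt p N 0)).toReal := by
  classical
  have hc0 : 0 < c := h.1
  have hc4 : c ≤ 1 / 4 := h.2.1
  obtain ⟨A, hA⟩ : ∃ A : Finset V, A = (Finset.Icc 1 N).image fun a => ((a, 0) : V) := ⟨_, rfl⟩
  obtain ⟨B, hB⟩ : ∃ B : Finset V, B = (Finset.Icc 1 N).image fun a => ((0, a) : V) := ⟨_, rfl⟩
  have cA : A.card ≤ N.toNat := by
    rw [hA]
    refine Finset.card_image_le.trans ?_
    rw [Int.card_Icc]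
    omega
  have cB : B.card ≤ N.toNat := by
    rw [hB]
    refine Finset.card_image_le.trans ?_
    rw [Int.card_Icc]
    omega
  have hd : Disjoint (A : Set V) (B : Set V) := by
    refine Set.disjoint_left.2 fun x h1 h2 => ?_
    rw [hA, Finset.mem_coe, Finset.mem_image] at h1
    rw [hB, Finset.mem_coe, Finset.mem_image] at h2
    obtain ⟨a, ha, rfl⟩ := h1
    obtain ⟨b, hb, hab⟩ := h2
    rw [Finset.mem_Icc] at ha
    have := congrArg Prod.fst hab
    change 0 = a at this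
    omega
  have h1 := set_prob h hN true A
  have h2 := set_prob h hN false B
  have h3 : (c / 2) ^ N.toNat ≤ (P {w | (A : Set V) ⊆ Co true p w}).toReal :=
    (pow_le_pow_of_le_one (by linarith) (by linarith) cA).trans h1
  have h4 : (c / 2) ^ N.toNat ≤ (P {w | (B : Set V) ⊆ Co false p w}).toReal :=
    (pow_le_pow_of_le_one (by linarith) (by linarith) cB).trans h2
  have h5 := indep (ev_incl true p A) (ev_incl false p B) hd
  have h6 : (c / 2) ^ (2 * N.toNat) ≤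
      (P ({w | (A : Set V) ⊆ Co true p w} ∩ {w | (B : Set V) ⊆ Co false p w})).toReal := by
    rw [h5, ENNReal.toReal_mul, two_mul, pow_add]
    exact mul_le_mul h3 h4 (by positivity) ENNReal.toReal_nonneg
  refine h6.trans (pm ?_)
  rintro w ⟨w1, w2⟩
  have w3 : ∀ a, 1 ≤ a → a ≤ N → ((a, 0) : V) ∈ Op p w := fun a h1 h2 => w1 (by
    rw [hA, Finset.mem_coe, Finset.mem_image]
    exact ⟨a, Finset.mem_Icc.2 ⟨h1, h2⟩, rfl⟩)
  have w4 : ∀ a, 1 ≤ a → a ≤ N → ((0, a) : V) ∈ Cl p w := fun a h1 h2 => w2 (by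
    rw [hB, Finset.mem_coe, Finset.mem_image]
    exact ⟨a, Finset.mem_Icc.2 ⟨h1, h2⟩, rfl⟩)
  refine ⟨⟨(0, 0), le_refl (0 : ℤ), (N, 0), le_refl N, conn_row fun a h1 h2 => ?_⟩,
    fun hph => par_not (Op p w \ {0}) (by omega) (by omega)
      ⟨hph, (0, 0), le_refl (0 : ℤ), (0, N), le_refl N, conn_col fun a h1 h2 => ?_⟩⟩
  · rw [min_eq_left (by omega)] at h1
    rw [max_eq_right (by omega)] at h2
    refine ⟨?_, h1, h2, le_refl 0, by change (0 : ℤ) ≤ N; omega⟩
    rcases (by omega : a = 0 ∨ 1 ≤ a) with rfl | h3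
    · exact Or.inr rfl
    · exact Or.inl (w3 a h3 h2)
  · rw [min_eq_left (by omega)] at h1
    rw [max_eq_right (by omega)] at h2
    refine ⟨?_, le_refl 0, by change (0 : ℤ) ≤ N; omega, h1, h2⟩
    rcases (by omega : a = 0 ∨ 1 ≤ a) with rfl | h3
    · exact fun h => h.2 rfl
    · exact fun h => absurd (show w (0, a) ≤ p from h.1) (not_le.2 (w4 a h3 h2))

private theorem scale {N : ℤ} (hN : 256 ≤ N) : ∃ i : ℕ, 8 * (2 : ℤ) ^ i ≤ N ∧
    N < 16 * (2 : ℤ) ^ i ∧ 4 ≤ (2 : ℤ) ^ i ∧ (2 : ℤ) ^ i = 4 * ((2 : ℤ) ^ i / 4) := by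
  obtain ⟨n, rfl⟩ : ∃ n : ℕ, N = n := ⟨N.toNat, by omega⟩
  have hn : 256 ≤ n := by omega
  have h1 : n / 8 ≠ 0 := by omega
  have h2 := Nat.pow_log_le_self 2 h1
  have h3 := Nat.lt_pow_succ_log_self (b := 2) (by norm_num) (n / 8)
  have h4 : 5 ≤ Nat.log 2 (n / 8) := Nat.le_log_of_pow_le (by norm_num) (by omega)
  refine ⟨Nat.log 2 (n / 8), ?_, ?_, ?_, ?_⟩
  · have : 8 * 2 ^ Nat.log 2 (n / 8) ≤ n := by omega
    exact_mod_cast this
  · rw [pow_succ] at h3
    have : n < 16 * 2 ^ Nat.log 2 (n / 8) := by omega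
    exact_mod_cast this
  · obtain ⟨k, hk⟩ := Nat.exists_eq_add_of_le h4
    rw [hk, pow_add]
    have : (1 : ℤ) ≤ 2 ^ k := one_le_pow₀ (by norm_num)
    norm_num
    omega
  · obtain ⟨k, hk⟩ := Nat.exists_eq_add_of_le h4
    rw [hk, pow_add]
    norm_num
    omega

theorem rusFr : RusFr := by
  classical
  intro c hc
  obtain ⟨C, hC, hS⟩ := sep_out' c hc
  obtain ⟨c1, hc1, hP⟩ := pvt_sto c hc
  obtain ⟨c2, hc2⟩ : ∃ c2 : ℝ, c2 = min ((c / 2) ^ (2 * 256) / 256 ^ 2) (c1 / (4 * C)) := ⟨_, rfl⟩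
  have hc20 : 0 < c2 := by
    rw [hc2]
    exact lt_min (by positivity) (by positivity)
  refine ⟨c2, hc20, fun N q1 q2 hN h12 hR θ hθ hF => ?_⟩
  have hR1 := hR q1 le_rfl h12
  have hR2 := hR q2 h12 le_rfl
  have hc4 : c ≤ 1 / 4 := hR1.2.1
  have hq1 : 0 ≤ q1 := hR1.2.2.1.le
  have hq2 : q2 ≤ 1 := hR2.2.2.2.1.le
  have hff : ∀ t n m, frp t n m = ff t n m := fun _ _ _ => rfl
  have hf1 : ∀ t n m, frp t n m ≤ 1 := by
    intro t n m
    have h := pm (A := {w | Fr (Op t w) 0 n m}) (subset_univ _)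
    rwa [measure_univ, ENNReal.toReal_one] at h
  rcases le_or_gt N 256 with hc' | hc'
  · have h1 : ∀ t, q1 ≤ t → t ≤ q2 → ∀ v ∈ ({0} : Finset V),
        (c / 2) ^ (2 * 256) ≤ (P (Pvt t N v)).toReal := by
      intro t ht1 ht2 v hv
      rw [Finset.mem_singleton] at hv
      subst hv
      refine le_trans ?_ (pvt_small (hR t ht1 ht2) hN)
      exact pow_le_pow_of_le_one (by linarith) (by linarith) (by omega)
    have h2 := russo_lb hq1 h12 hq2 {0} (by positivity) h1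
    rw [Finset.card_singleton, Nat.cast_one, one_mul] at h2
    refine le_trans (mul_le_mul_of_nonneg_right ?_ (sub_nonneg.2 h12)) h2
    have h3 : θ ≤ 256 ^ 2 := by
      refine (hF q1 le_rfl h12).trans ?_
      have h4 : (N : ℝ) ≤ 256 := by exact_mod_cast hc'
      have h5 : (1 : ℝ) ≤ N := by exact_mod_cast hN
      have h6 : (N : ℝ) ^ 2 ≤ 256 ^ 2 := pow_le_pow_left₀ (by linarith) h4 2
      calc (N : ℝ) ^ 2 * frp q1 1 N ≤ (N : ℝ) ^ 2 * 1 :=
            mul_le_mul_of_nonneg_left (hf1 _ _ _) (by positivity)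
        _ ≤ 256 ^ 2 := by linarith
    calc c2 * θ ≤ (c / 2) ^ (2 * 256) / 256 ^ 2 * 256 ^ 2 := by
          refine mul_le_mul ?_ h3 hθ (by positivity)
          rw [hc2]
          exact min_le_left _ _
      _ = (c / 2) ^ (2 * 256) := by
          rw [div_mul_cancel₀ _ (by norm_num)]
  · obtain ⟨i, hi1, hi2, hi4, hi5⟩ := scale hc'.le
    obtain ⟨m, hm⟩ : ∃ m : ℤ, m = (2 : ℤ) ^ i := ⟨_, rfl⟩
    rw [← hm] at hi1 hi2 hi4 hi5
    obtain ⟨k, hk⟩ : ∃ k : ℤ, k = m / 4 := ⟨_, rfl⟩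
    rw [← hk] at hi5
    have hk1 : 1 ≤ k := by omega
    obtain ⟨B, hB⟩ : ∃ B : Finset V, B = (Finset.Icc (2 * m) (N - 2 * m)) ×ˢ
      (Finset.Icc (2 * m) (N - 2 * m)) := ⟨_, rfl⟩
    have hcard : (N : ℝ) ^ 2 / 4 ≤ (B.card : ℝ) := by
      have h1 : B.card = (N - 4 * m + 1).toNat * (N - 4 * m + 1).toNat := by
        rw [hB, Finset.card_product, Int.card_Icc,
          show N - 2 * m + 1 - 2 * m = N - 4 * m + 1 by ring]
      have h2 : ((N - 4 * m + 1).toNat : ℤ) = N - 4 * m + 1 := Int.toNat_of_nonneg (by omega)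
      have h3 : ((N - 4 * m + 1).toNat : ℝ) = N - 4 * m + 1 := by exact_mod_cast h2
      rw [h1, Nat.cast_mul, h3]
      have h4 : 8 * (m : ℝ) ≤ N := by exact_mod_cast hi1
      have h5 : (0 : ℝ) ≤ N := by exact_mod_cast (by omega : (0 : ℤ) ≤ N)
      nlinarith
    have hNpos : (0 : ℝ) < N := by exact_mod_cast (by omega : (0 : ℤ) < N)
    have h1 : ∀ t, q1 ≤ t → t ≤ q2 → ∀ v ∈ B,
        c1 / C * (θ / (N : ℝ) ^ 2) ≤ (P (Pvt t N v)).toReal := by
      intro t ht1 ht2 v hv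
      rw [hB, Finset.mem_product, Finset.mem_Icc, Finset.mem_Icc] at hv
      have h2 := hP t N m v (hR t ht1 ht2) hi4 (by omega) hv.1.1 (by omega) hv.2.1 (by omega)
      refine le_trans ?_ h2
      have h3 := hS t N (hR t ht1 ht2) 1 k i false le_rfl hk1 (by rw [← hm]; omega)
        (by rw [← hm]; omega) (by rw [← hm]; omega)
      rw [← hm] at h3
      have h4 : frp t 1 N ≤ frp t 1 k := ff_anti le_rfl hk1 (by omega)
      have h5 : θ / (N : ℝ) ^ 2 ≤ frp t 1 N := by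
        rw [div_le_iff₀ (by positivity)]
        have := hF t ht1 ht2
        linarith
      have h6 : θ / (N : ℝ) ^ 2 ≤ C * (P (StO t false 1 m)).toReal := (h5.trans h4).trans h3
      calc c1 / C * (θ / (N : ℝ) ^ 2) ≤ c1 / C * (C * (P (StO t false 1 m)).toReal) :=
            mul_le_mul_of_nonneg_left h6 (by positivity)
        _ = c1 * (P (StO t false 1 m)).toReal := by
            field_simp
    have h2 := russo_lb hq1 h12 hq2 B (by positivity) h1
    refine le_trans (mul_le_mul_of_nonneg_right ?_ (sub_nonneg.2 h12)) h2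
    calc c2 * θ ≤ c1 / (4 * C) * θ := by
          refine mul_le_mul_of_nonneg_right ?_ hθ
          rw [hc2]
          exact min_le_right _ _
      _ = (N : ℝ) ^ 2 / 4 * (c1 / C * (θ / (N : ℝ) ^ 2)) := by
          field_simp
      _ ≤ (B.card : ℝ) * (c1 / C * (θ / (N : ℝ) ^ 2)) :=
          mul_le_mul_of_nonneg_right hcard (by positivity)

end Pool.Agent.TriPerc
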