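import Pool.Agent.TriPerc.Off
import Pool.Agent.TriPerc.WinA

/-!
# The levels `1/2 - wd M r` and `1/2 + wd M r` are off-critical at the scale `r`

Hypotheses `QmFr`, `RusFr`.  `DiamO p B D`: some `p`-open path starts in `Ball 0 B` and has
`nrm`-diameter at least `D`; `DiamC` the same for closed paths.

* `wd_ph`: for every `e > 0`, `ρ > 0` there is `M0` such that for all `M ≥ M0` there is `r0` such that
  `ph (1/2 - wd M r) n < e` for `r ≥ r0`, `ρ r ≤ n ≤ r` (and `0 ≤ 1/2 - wd M r`).  PROOF.  `off` gives `M1`.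
  Let `M0 = 2 M1 / ρ ^ 2`, `q = 1/2 - wd M r`, `q ≥ 0` for `r ≥ r0` (`wd_small`), `2 ≤ n` for `r ≥ r0`.  If
  `e ≤ ph q n`, then `wd M r * n ^ 2 xf (1/2) 2 n ≤ M1`; but `n ^ 2 xf (1/2) 2 n ≥
  (n / r) ^ 2 r ^ 2 xf (1/2) 2 r` (`xf_anti`), so the left side is `≥ (n / r) ^ 2 M ≥ ρ ^ 2 M > M1`.
* `wd_arm`: for every `e > 0`, `ρ > 0` there is `M0` such that for all `M ≥ M0` there is `r0` such that for
  `r ≥ r0` and `ρ r ≤ m`: `af (1/2 - wd M r) m ≤ e` and `ac (1/2 + wd M r) m ≤ e`.  PROOF.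
  `ac (1/2 + w) m = af (1/2 - w) m` (`ac_flip`).  Let `e' = min e (1 / (2 (100 * 256 ^ 2) ^ 2))`, `d` from
  `hi_arm e'`, `ρ' = min ρ 1`, `M0` from `wd_ph` with `d`, `ρ' / 128`.  Let `n` be an integer with
  `ρ' r / 128 ≤ n ≤ ρ' r / 64` (`r` large).  `ph q n ≤ d`, so `af q (2 n) ≤ e'` and `af q m ≤ e'` for
  `m ≤ 4096 n` (`n + 1 ≤ m` since `m ≥ ρ r`).  For `m > 4096 n ≥ 16 (2 n)`: `af_le` with `2 n`.
* `wd_decay`: there is `M0` such that for all `M ≥ M0` there is `r0` such that for `r0 ≤ r ≤ m`: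
  `af (1/2 - wd M r) m ≤ (1 / 2) ^ ((m / r) ^ (1 / 4) / 4)`, the same for `ac (1/2 + wd M r) m`.  PROOF.
  As in `wd_arm` with `ρ = 1`: an `n` with `r / 128 ≤ n ≤ r / 64` and
  `(100 * 256 ^ 2) ^ 2 * af q (2 n) ≤ 1 / 2`; `decay` from `2 n` to `m ≥ r ≥ 16 (2 n)`, and `2 n ≤ r`,
  `(100 * 256 ^ 2) ^ 2 ≥ 1`.
* `wd_diam`: for every `e > 0`, `ρ > 0`, `B ≥ 1` there is `M0` such that for all `M ≥ M0` there is `r0` such
  that for `r ≥ r0`: `P (DiamO (1/2 - wd M r) (B r) (ρ r)) ≤ e`, `P (DiamC (1/2 + wd M r) (B r) (ρ r)) ≤ e`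
  (real numbers `ρ r`; the measure of the set, outer measure, no measurability is claimed).
  PROOF.  We may assume `ρ ≤ 1`.  Let `m` be an integer with `ρ r / 8 ≤ m ≤ ρ r / 4`, and
  `s = (m + 1) / 2`.  If `u ~ v` is an open path, `u ∈ Ball 0 (B r)`, `ρ r ≤ nrm (v - u)`, let
  `z = (s (u.1 / s), s (u.2 / s))`; `nrm (u - z) ≤ m`, `nrm (v - z) ≥ ρ r - m ≥ 2 m`: an arm across
  `Ann z m (2 m)` (`arm_of_conn`).  `nrm z ≤ 2 B r`, so there are at most `(4 B r / s + 1) ^ 2 ≤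
  (128 B / ρ) ^ 2` such `z`; union bound with `wd_arm` for `e / (128 B / ρ) ^ 2`, `ρ / 8`.
-/

namespace Pool.Agent.TriPerc

open MeasureTheory Set

/-- Some `p`-open path which starts in the ball of radius `B` has diameter at least `D`. -/
def DiamO (p : ℝ) (B : ℤ) (D : ℝ) : Set Lab :=
  {w | ∃ u v, nrm u ≤ B ∧ D ≤ (nrm (v - u) : ℝ) ∧ Conn (Op p w) u v}

/-- Some `p`-closed path which starts in the ball of radius `B` has diameter at least `D`. -/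
def DiamC (p : ℝ) (B : ℤ) (D : ℝ) : Set Lab :=
  {w | ∃ u v, nrm u ≤ B ∧ D ≤ (nrm (v - u) : ℝ) ∧ Conn (Cl p w) u v}

theorem wd_ph (H : QmFr) (R : RusFr) {e ρ : ℝ} (he : 0 < e) (hρ : 0 < ρ) : ∃ M0 : ℝ, 0 < M0 ∧
    ∀ M : ℝ, M0 ≤ M → ∃ r0 : ℤ, 2 ≤ r0 ∧ ∀ r n : ℤ, r0 ≤ r → ρ * (r : ℝ) ≤ n → n ≤ r →
      0 ≤ 1 / 2 - wd M r ∧ ph (1 / 2 - wd M r) n < e := by
  obtain ⟨M1, hM1, h1⟩ := off H R e he
  have hρ2 : 0 < ρ ^ 2 := by positivity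
  refine ⟨2 * M1 / ρ ^ 2, by positivity, fun M hM => ?_⟩
  have hM0 : 0 < M := lt_of_lt_of_le (by positivity) hM
  obtain ⟨r1, hr1, h2⟩ := wd_small H hM0 (by norm_num : (0 : ℝ) < 1 / 2)
  refine ⟨max r1 ⌈2 / ρ⌉, hr1.trans (le_max_left _ _), fun r n hr hn hnr => ?_⟩
  have h3 := h2 r ((le_max_left _ _).trans hr)
  have hr0 : 2 ≤ r := hr1.trans ((le_max_left _ _).trans hr)
  have h4 : 2 / ρ ≤ (r : ℝ) := by
    refine (Int.le_ceil _).trans ?_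
    exact_mod_cast (le_max_right _ _).trans hr
  have h5 : (2 : ℝ) ≤ n := by
    rw [div_le_iff₀ hρ] at h4
    linarith
  have hn2 : 2 ≤ n := by exact_mod_cast h5
  refine ⟨by linarith, ?_⟩
  by_contra hcon
  rw [not_lt] at hcon
  have h6 := h1 _ n (by linarith : 0 ≤ 1 / 2 - wd M r)
    (by linarith [wd_pos H hM0 hr0]) hn2 hcon
  rw [sub_sub_cancel] at h6
  have h7 := wd_up H hM0 hn2 hnr
  have h8 := wd_pos H hM0 hn2
  have h9 : 0 < (n : ℝ) ^ 2 * xf (1 / 2) 2 n := by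
    by_contra h10
    rw [not_lt] at h10
    exact absurd h8 (not_lt.2 (div_nonpos_of_nonneg_of_nonpos hM0.le h10))
  have h11 : wd M n * ((n : ℝ) ^ 2 * xf (1 / 2) 2 n) = M := by
    rw [wd, div_mul_cancel₀ _ h9.ne']
  have hn0 : (0 : ℝ) < n := by linarith
  have hr00 : (0 : ℝ) < r := by exact_mod_cast (by omega : 0 < r)
  have h12 : ((r : ℝ) / n) ^ 2 ≤ 1 / ρ ^ 2 := by
    rw [div_pow, div_le_div_iff₀ (by positivity) hρ2]
    have := pow_le_pow_left₀ (by positivity) hn 2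
    linarith
  have h13 : M ≤ 1 / ρ ^ 2 * M1 := by
    calc M = wd M n * ((n : ℝ) ^ 2 * xf (1 / 2) 2 n) := h11.symm
      _ ≤ ((r : ℝ) / n) ^ 2 * wd M r * ((n : ℝ) ^ 2 * xf (1 / 2) 2 n) :=
        mul_le_mul_of_nonneg_right h7 h9.le
      _ = ((r : ℝ) / n) ^ 2 * (wd M r * ((n : ℝ) ^ 2 * xf (1 / 2) 2 n)) := by ring
      _ ≤ ((r : ℝ) / n) ^ 2 * M1 := mul_le_mul_of_nonneg_left h6 (by positivity)
      _ ≤ 1 / ρ ^ 2 * M1 := mul_le_mul_of_nonneg_right h12 hM1.le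
  have h14 : 2 * M1 / ρ ^ 2 = 2 * (1 / ρ ^ 2 * M1) := by ring
  have h15 : 0 < 1 / ρ ^ 2 * M1 := by positivity
  linarith

private theorem pick {ρ K : ℝ} (hρ : 0 < ρ) (hK : 0 < K) : ∃ r1 : ℤ, 2 ≤ r1 ∧
    ∀ r : ℤ, r1 ≤ r → ∃ n : ℤ, 1 ≤ n ∧ ρ * (r : ℝ) ≤ 2 * K * n ∧ K * n ≤ ρ * (r : ℝ) := by
  refine ⟨max 2 ⌈2 * K / ρ⌉, le_max_left _ _, fun r hr => ?_⟩
  have h1 : 2 * K / ρ ≤ (r : ℝ) := by
    refine (Int.le_ceil _).trans ?_
    exact_mod_cast (le_max_right _ _).trans hr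
  have h2 : 2 * K ≤ ρ * r := by
    rw [div_le_iff₀ hρ] at h1
    linarith
  have h3 : 2 ≤ ρ * r / K := by
    rw [le_div_iff₀ hK]
    linarith
  have h4 := Int.floor_le (ρ * r / K)
  have h5 := Int.lt_floor_add_one (ρ * r / K)
  refine ⟨⌊ρ * r / K⌋, ?_, ?_, ?_⟩
  · rw [Int.le_floor]
    push_cast
    linarith
  · have h6 : ρ * r / K ≤ 2 * ⌊ρ * r / K⌋ := by linarith
    rw [div_le_iff₀ hK] at h6
    linarith
  · rw [le_div_iff₀ hK] at h4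
    linarith

private theorem core (H : QmFr) (R : RusFr) {e ρ : ℝ} (he : 0 < e) (hρ : 0 < ρ) (hρ1 : ρ ≤ 1) :
    ∃ M0 : ℝ, 0 < M0 ∧ ∀ M : ℝ, M0 ≤ M → ∃ r0 : ℤ, 2 ≤ r0 ∧ ∀ r : ℤ, r0 ≤ r →
      ∃ n : ℤ, 1 ≤ n ∧ ρ * (r : ℝ) ≤ 128 * n ∧ 64 * n ≤ ρ * (r : ℝ) ∧
        ∀ m : ℤ, n + 1 ≤ m → m ≤ 4096 * n → af (1 / 2 - wd M r) m ≤ e := by
  obtain ⟨d, hd, h1⟩ := hi_arm e he
  obtain ⟨M0, hM0, h2⟩ := wd_ph H R hd (by positivity : 0 < ρ / 128)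
  obtain ⟨r1, hr1, h3⟩ := pick hρ (by norm_num : (0 : ℝ) < 64)
  refine ⟨M0, hM0, fun M hM => ?_⟩
  obtain ⟨r0, hr0, h4⟩ := h2 M hM
  refine ⟨max r0 r1, hr0.trans (le_max_left _ _), fun r hr => ?_⟩
  have hra : r0 ≤ r := (le_max_left _ _).trans hr
  have hrb : r1 ≤ r := (le_max_right _ _).trans hr
  obtain ⟨n, hn, hn1, hn2⟩ := h3 r hrb
  have hr2 : (0 : ℝ) < r := by exact_mod_cast (by omega : 0 < r)
  have hn3 : (1 : ℝ) ≤ n := by exact_mod_cast hn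
  have hnr : (n : ℝ) ≤ r := by nlinarith
  obtain ⟨h5, h6⟩ := h4 r n hra (by linarith) (by exact_mod_cast hnr)
  have h7 : 0 < wd M r := wd_pos H (by linarith) (by omega)
  exact ⟨n, hn, by linarith, by linarith, fun m hm1 hm2 =>
    h1 _ n m h5 (by linarith) hn h6.le hm1 hm2⟩

private theorem ac_eq (M : ℝ) (r m : ℤ) : ac (1 / 2 + wd M r) m = af (1 / 2 - wd M r) m := by
  rw [ac_flip]
  congr 1
  ring

theorem wd_arm (H : QmFr) (R : RusFr) {e ρ : ℝ} (he : 0 < e) (hρ : 0 < ρ) : ∃ M0 : ℝ, 0 < M0 ∧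
    ∀ M : ℝ, M0 ≤ M → ∃ r0 : ℤ, 2 ≤ r0 ∧ ∀ r m : ℤ, r0 ≤ r → ρ * (r : ℝ) ≤ m →
      af (1 / 2 - wd M r) m ≤ e ∧ ac (1 / 2 + wd M r) m ≤ e := by
  obtain ⟨e', he'⟩ : ∃ e' : ℝ, e' = min e (1 / (2 * (100 * 256 ^ 2) ^ 2)) := ⟨_, rfl⟩
  have he0 : 0 < e' := by
    rw [he']
    exact lt_min he (by positivity)
  have he1 : e' ≤ e := by
    rw [he']
    exact min_le_left _ _
  have he2 : e' ≤ 1 / (2 * (100 * 256 ^ 2) ^ 2) := by
    rw [he']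
    exact min_le_right _ _
  obtain ⟨M0, hM0, h1⟩ := core H R he0 (lt_min hρ one_pos) (min_le_right ρ 1)
  refine ⟨M0, hM0, fun M hM => ?_⟩
  obtain ⟨r0, hr0, h2⟩ := h1 M hM
  refine ⟨r0, hr0, fun r m hr hm => ?_⟩
  rw [ac_eq, and_self]
  obtain ⟨n, hn, -, hn2, h3⟩ := h2 r hr
  have hr2 : (0 : ℝ) < r := by exact_mod_cast (by omega : 0 < r)
  have h4 : min ρ 1 * (r : ℝ) ≤ ρ * r := mul_le_mul_of_nonneg_right (min_le_left _ _) hr2.le
  have h5 : 64 * (n : ℝ) ≤ m := by linarith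
  have h6 : 64 * n ≤ m := by exact_mod_cast h5
  rcases le_or_gt m (4096 * n) with hc | hc
  · exact (h3 m (by omega) hc).trans he1
  have h7 := h3 (2 * n) (by omega) (by omega)
  have h8 := h7.trans he2
  rw [le_div_iff₀ (by positivity)] at h8
  exact ((af_le (by omega : 1 ≤ 2 * n) (by omega) (by linarith)).trans h7).trans he1

theorem wd_decay (H : QmFr) (R : RusFr) : ∃ M0 : ℝ, 0 < M0 ∧
    ∀ M : ℝ, M0 ≤ M → ∃ r0 : ℤ, 2 ≤ r0 ∧ ∀ r m : ℤ, r0 ≤ r → r ≤ m →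
      af (1 / 2 - wd M r) m ≤ (1 / 2 : ℝ) ^ (((m : ℝ) / r) ^ (1 / 4 : ℝ) / 4) ∧
      ac (1 / 2 + wd M r) m ≤ (1 / 2 : ℝ) ^ (((m : ℝ) / r) ^ (1 / 4 : ℝ) / 4) := by
  obtain ⟨M0, hM0, h1⟩ := core H R (e := 1 / (2 * (100 * 256 ^ 2) ^ 2)) (by positivity)
    one_pos le_rfl
  refine ⟨M0, hM0, fun M hM => ?_⟩
  obtain ⟨r0, hr0, h2⟩ := h1 M hM
  refine ⟨r0, hr0, fun r m hr hm => ?_⟩
  rw [ac_eq, and_self]
  obtain ⟨n, hn, -, hn2, h3⟩ := h2 r hr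
  rw [one_mul] at hn2
  have hn3 : 64 * n ≤ r := by exact_mod_cast hn2
  have h8 := h3 (2 * n) (by omega) (by omega)
  rw [le_div_iff₀ (by positivity)] at h8
  have h9 := decay (p := 1 / 2 - wd M r) (by omega : 1 ≤ 2 * n) (by omega : 16 * (2 * n) ≤ m)
    (by linarith)
  have h10 : (0 : ℝ) ≤ af (1 / 2 - wd M r) m := ENNReal.toReal_nonneg
  have h11 : af (1 / 2 - wd M r) m ≤ (100 * 256 ^ 2) ^ 2 * af (1 / 2 - wd M r) m :=
    le_mul_of_one_le_left h10 (by norm_num)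
  refine (h11.trans h9).trans ?_
  refine Real.rpow_le_rpow_of_exponent_ge (by norm_num) (by norm_num) ?_
  have hr2 : (0 : ℝ) < r := by exact_mod_cast (by omega : 0 < r)
  have hm2 : (0 : ℝ) < m := by exact_mod_cast (by omega : 0 < m)
  have hn4 : (0 : ℝ) < ((2 * n : ℤ) : ℝ) := by exact_mod_cast (by omega : 0 < 2 * n)
  have hn5 : ((2 * n : ℤ) : ℝ) ≤ r := by exact_mod_cast (by omega : 2 * n ≤ r)
  have h12 : (m : ℝ) / r ≤ (m : ℝ) / ((2 * n : ℤ) : ℝ) :=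
    div_le_div_of_nonneg_left hm2.le hn4 hn5
  have h13 := Real.rpow_le_rpow (by positivity) h12 (by norm_num : (0 : ℝ) ≤ 1 / 4)
  linarith

private theorem nrm_le_iff {v : V} {k : ℤ} :
    nrm v ≤ k ↔ |v.1| ≤ k ∧ |v.2| ≤ k ∧ |v.1 + v.2| ≤ k := by
  unfold nrm
  rw [max_le_iff, max_le_iff, and_assoc]

/-- the net point of a vertex -/
private def np (s : ℤ) (v : V) : V := (s * (v.1 / s), s * (v.2 / s))

private theorem np_near {n : ℤ} (hn : 1 ≤ n) (v : V) : nrm (v - np ((n + 1) / 2) v) ≤ n := by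
  have hs : 1 ≤ (n + 1) / 2 := by omega
  have hs2 : 2 * ((n + 1) / 2) ≤ n + 1 := by omega
  generalize (n + 1) / 2 = s at *
  have e1 : v.1 - s * (v.1 / s) = v.1 % s := by rw [Int.emod_def]
  have e2 : v.2 - s * (v.2 / s) = v.2 % s := by rw [Int.emod_def]
  have b1 := Int.emod_nonneg v.1 (by omega : s ≠ 0)
  have b2 := Int.emod_lt_of_pos v.1 (by omega : 0 < s)
  have b3 := Int.emod_nonneg v.2 (by omega : s ≠ 0)
  have b4 := Int.emod_lt_of_pos v.2 (by omega : 0 < s)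
  rw [nrm_le_iff]
  change |v.1 - s * (v.1 / s)| ≤ n ∧ |v.2 - s * (v.2 / s)| ≤ n ∧
    |v.1 - s * (v.1 / s) + (v.2 - s * (v.2 / s))| ≤ n
  rw [e1, e2]
  refine ⟨abs_le.2 ⟨?_, ?_⟩, abs_le.2 ⟨?_, ?_⟩, abs_le.2 ⟨?_, ?_⟩⟩ <;> omega

/-- the net points of norm at most `R` -/
private noncomputable def net (n R : ℤ) : Finset V :=
  (Finset.Icc (-(R / ((n + 1) / 2))) (R / ((n + 1) / 2)) ×ˢ
    Finset.Icc (-(R / ((n + 1) / 2))) (R / ((n + 1) / 2))).image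
    (fun q : ℤ × ℤ => (((n + 1) / 2 * q.1, (n + 1) / 2 * q.2) : V))

private theorem np_mem {n R : ℤ} (hn : 1 ≤ n) {v : V} (h : nrm (np ((n + 1) / 2) v) ≤ R) :
    np ((n + 1) / 2) v ∈ net n R := by
  have hs : 1 ≤ (n + 1) / 2 := by omega
  unfold net
  generalize (n + 1) / 2 = s at *
  obtain ⟨h1, h2, -⟩ := nrm_le_iff.1 h
  change |s * (v.1 / s)| ≤ R at h1
  change |s * (v.2 / s)| ≤ R at h2
  obtain ⟨h3, h4⟩ := abs_le.1 h1
  obtain ⟨h5, h6⟩ := abs_le.1 h2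
  have key : ∀ q : ℤ, -R ≤ s * q → s * q ≤ R → q ∈ Finset.Icc (-(R / s)) (R / s) := by
    intro q h7 h8
    have h9 : q ≤ R / s := (Int.le_ediv_iff_mul_le (by omega)).2 (by rw [mul_comm]; exact h8)
    have h10 : -q ≤ R / s := (Int.le_ediv_iff_mul_le (by omega)).2 (by
      rw [neg_mul, mul_comm]
      omega)
    exact Finset.mem_Icc.2 ⟨by omega, h9⟩
  exact Finset.mem_image.2 ⟨(v.1 / s, v.2 / s),
    Finset.mem_product.2 ⟨key _ h3 h4, key _ h5 h6⟩, rfl⟩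

private theorem net_card {n R : ℤ} (hn : 1 ≤ n) (hR : n ≤ R) :
    ((net n R).card : ℝ) ≤ 25 * ((R : ℝ) / n) ^ 2 := by
  have hs : 1 ≤ (n + 1) / 2 := by omega
  have hs2 : n ≤ 2 * ((n + 1) / 2) := by omega
  have h1 : (net n R).card ≤
      (R / ((n + 1) / 2) + 1 - -(R / ((n + 1) / 2))).toNat ^ 2 := by
    refine Finset.card_image_le.trans ?_
    rw [Finset.card_product, Int.card_Icc, sq]
  have h1' : ((net n R).card : ℝ) ≤
      ((R / ((n + 1) / 2) + 1 - -(R / ((n + 1) / 2))).toNat : ℝ) ^ 2 := by exact_mod_cast h1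
  refine h1'.trans ?_
  clear h1 h1'
  generalize (n + 1) / 2 = s at *
  have h2 : 0 ≤ R / s := Int.ediv_nonneg (by omega) (by omega)
  have h3 : ((R / s + 1 - -(R / s)).toNat : ℝ) = 2 * ((R / s : ℤ) : ℝ) + 1 := by
    have h : ((R / s + 1 - -(R / s)).toNat : ℤ) = 2 * (R / s) + 1 := by omega
    exact_mod_cast h
  have h4 : (R / s) * n ≤ 2 * R := by
    have h5 := Int.ediv_mul_le R (by omega : s ≠ 0)
    nlinarith
  have h4' : ((R / s : ℤ) : ℝ) * n ≤ 2 * R := by exact_mod_cast h4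
  have hn' : (0 : ℝ) < n := by exact_mod_cast (by omega : (0 : ℤ) < n)
  have hR' : (n : ℝ) ≤ R := by exact_mod_cast hR
  have h2' : (0 : ℝ) ≤ ((R / s : ℤ) : ℝ) := by exact_mod_cast h2
  rw [h3]
  have h5 : 2 * ((R / s : ℤ) : ℝ) + 1 ≤ 5 * ((R : ℝ) / n) := by
    rw [← mul_div_assoc, le_div_iff₀ hn']
    nlinarith
  calc (2 * ((R / s : ℤ) : ℝ) + 1) ^ 2 ≤ (5 * ((R : ℝ) / n)) ^ 2 :=
        pow_le_pow_left₀ (by linarith) h5 2
    _ = 25 * ((R : ℝ) / n) ^ 2 := by ring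

private theorem nrm_tri {a b : V} : nrm a ≤ nrm b + nrm (a - b) ∧ nrm b ≤ nrm a + nrm (a - b) := by
  constructor
  · have h := nrm_add b (a - b)
    rwa [add_sub_cancel] at h
  · have h := nrm_add a (b - a)
    rw [add_sub_cancel, ← neg_sub a b, nrm_neg] at h
    exact h

/-- an arm at a net point from a path which leaves a neighbourhood -/
private theorem arm_np {S : Set V} {n : ℤ} (hn : 1 ≤ n) {u y : V} (h : Conn S y u)
    (hu : 3 * n ≤ nrm (u - y)) :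
    Arm S (np ((n + 1) / 2) y) n (2 * n) := by
  have h1 := np_near hn y
  refine arm_of_conn h h1 ?_ (by omega)
  have h2 := (nrm_tri (a := u - y) (b := u - np ((n + 1) / 2) y)).1
  have e : u - y - (u - np ((n + 1) / 2) y) = -(y - np ((n + 1) / 2) y) := by abel
  rw [e, nrm_neg] at h2
  omega

private theorem union_gen {n R : ℤ} (hn : 1 ≤ n) (hR : n ≤ R) {A : Set Lab} (B : V → Set Lab)
    {b : ℝ} (hb0 : 0 ≤ b) (hb : ∀ z, (P (B z)).toReal ≤ b)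
    (hA : ∀ w ∈ A, ∃ z ∈ net n R, w ∈ B z) : (P A).toReal ≤ 25 * ((R : ℝ) / n) ^ 2 * b := by
  have h1 : P.real A ≤ ∑ z ∈ net n R, P.real (B z) := by
    refine (measureReal_mono (s₂ := ⋃ z ∈ net n R, B z) ?_
      (measure_ne_top _ _)).trans (measureReal_biUnion_finset_le _ _)
    intro w hw
    obtain ⟨z, hz, hz'⟩ := hA w hw
    exact mem_iUnion₂.2 ⟨z, hz, hz'⟩
  have h2 : ∑ z ∈ net n R, P.real (B z) ≤ ∑ z ∈ net n R, b :=
    Finset.sum_le_sum fun z _ => hb z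
  rw [Finset.sum_const, nsmul_eq_mul] at h2
  exact (h1.trans h2).trans (mul_le_mul_of_nonneg_right (net_card hn hR) hb0)

private theorem arm_shift (S : Set V) (z : V) (n m : ℤ) :
    Arm {v | tr z v ∈ S} 0 n m ↔ Arm S z n m := by
  have e : ∀ v : V, tr z v - z = v - 0 := fun v => by
    change v + z - z = v - 0
    rw [add_sub_cancel_right, sub_zero]
  have h := join_preimage (S := S ∩ Ann z n m) (A := {v | nrm (v - z) ≤ n})
    (B := {v | m ≤ nrm (v - z)}) (isAut_tr z)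
  have e1 : tr z ⁻¹' (S ∩ Ann z n m) = {v | tr z v ∈ S} ∩ Ann 0 n m := by
    ext v
    change (tr z v ∈ S ∧ n ≤ nrm (tr z v - z) ∧ nrm (tr z v - z) ≤ m) ↔
      (tr z v ∈ S ∧ n ≤ nrm (v - 0) ∧ nrm (v - 0) ≤ m)
    rw [e]
  have e2 : tr z ⁻¹' {v | nrm (v - z) ≤ n} = {v | nrm (v - 0) ≤ n} := by
    ext v
    change nrm (tr z v - z) ≤ n ↔ nrm (v - 0) ≤ n
    rw [e]
  have e3 : tr z ⁻¹' {v | m ≤ nrm (v - z)} = {v | m ≤ nrm (v - 0)} := by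
    ext v
    change m ≤ nrm (tr z v - z) ↔ m ≤ nrm (v - 0)
    rw [e]
  rw [e1, e2, e3] at h
  exact h

private theorem P_arm (p : ℝ) (z : V) (n : ℤ) :
    (P {w | Arm (Op p w) z n (2 * n)}).toReal = af p n := by
  have h := frame (tr z) (fun S => Arm S 0 n (2 * n)) p (ev_arm p 0 n (2 * n)).1.1
  have e : {w : Lab | Arm {v | tr z v ∈ Op p w} 0 n (2 * n)} =
      {w | Arm (Op p w) z n (2 * n)} := by
    ext w
    exact arm_shift _ _ _ _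
  rw [af, ← h, ← e]

private theorem P_arm_cl (p : ℝ) (z : V) (n : ℤ) :
    (P {w | Arm (Cl p w) z n (2 * n)}).toReal = ac p n := by
  rw [ac_flip, ← P_arm (1 - p) z n]
  exact congrArg ENNReal.toReal (flip_lev (finite_ann z n (2 * n)) p
    (fun T => Join T {v | nrm (v - z) ≤ n} {v | 2 * n ≤ nrm (v - z)}))

theorem wd_diam (H : QmFr) (R : RusFr) {e ρ : ℝ} (he : 0 < e) (hρ : 0 < ρ) {B : ℤ}
    (hB : 1 ≤ B) : ∃ M0 : ℝ, 0 < M0 ∧ ∀ M : ℝ, M0 ≤ M → ∃ r0 : ℤ, 2 ≤ r0 ∧ ∀ r : ℤ, r0 ≤ r →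
      (P (DiamO (1 / 2 - wd M r) (B * r) (ρ * r))).toReal ≤ e ∧
      (P (DiamC (1 / 2 + wd M r) (B * r) (ρ * r))).toReal ≤ e := by
  obtain ⟨ρ', hρ'⟩ : ∃ ρ' : ℝ, ρ' = min ρ 1 := ⟨_, rfl⟩
  have h0 : 0 < ρ' := by
    rw [hρ']
    exact lt_min hρ one_pos
  have h01 : ρ' ≤ ρ := by
    rw [hρ']
    exact min_le_left _ _
  have h02 : ρ' ≤ 1 := by
    rw [hρ']
    exact min_le_right _ _
  have hB' : (1 : ℝ) ≤ B := by exact_mod_cast hB
  have hK : 0 < 25 * (16 * (B : ℝ) / ρ') ^ 2 := by positivity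
  obtain ⟨M0, hM0, h1⟩ := wd_arm H R (div_pos he hK) (by positivity : 0 < ρ' / 8)
  obtain ⟨r1, hr1, h3⟩ := pick h0 (by norm_num : (0 : ℝ) < 4)
  refine ⟨M0, hM0, fun M hM => ?_⟩
  obtain ⟨r0, hr0, h2⟩ := h1 M hM
  refine ⟨max r0 r1, hr0.trans (le_max_left _ _), fun r hr => ?_⟩
  have hra : r0 ≤ r := (le_max_left _ _).trans hr
  have hrb : r1 ≤ r := (le_max_right _ _).trans hr
  obtain ⟨m, hm, hm1, hm2⟩ := h3 r hrb
  obtain ⟨h4, h5⟩ := h2 r m hra (by linarith)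
  have hr2 : (0 : ℝ) < r := by exact_mod_cast (by omega : 0 < r)
  have hm3 : (1 : ℝ) ≤ m := by exact_mod_cast hm
  have hmr : (m : ℝ) ≤ r := by nlinarith
  have hmr' : m ≤ r := by exact_mod_cast hmr
  have hBr : r ≤ B * r := by nlinarith
  have hR : m ≤ 2 * (B * r) := by omega
  have h6 : 25 * (((2 * (B * r) : ℤ) : ℝ) / m) ^ 2 ≤ 25 * (16 * (B : ℝ) / ρ') ^ 2 := by
    have h7 : ((2 * (B * r) : ℤ) : ℝ) / m ≤ 16 * (B : ℝ) / ρ' := by
      rw [div_le_div_iff₀ (by linarith) h0]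
      push_cast
      nlinarith
    have h8 : 0 ≤ ((2 * (B * r) : ℤ) : ℝ) / m := by
      push_cast
      positivity
    have h9 := pow_le_pow_left₀ h8 h7 2
    linarith
  have hep : 0 ≤ e / (25 * (16 * (B : ℝ) / ρ') ^ 2) := (div_pos he hK).le
  have h7 : 25 * (((2 * (B * r) : ℤ) : ℝ) / m) ^ 2 * (e / (25 * (16 * (B : ℝ) / ρ') ^ 2)) ≤ e := by
    refine (mul_le_mul_of_nonneg_right h6 hep).trans (le_of_eq ?_)
    exact mul_div_cancel₀ e hK.ne'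
  have key : ∀ {S : Set V} {u v : V}, nrm u ≤ B * r → ρ * r ≤ (nrm (v - u) : ℝ) → Conn S u v →
      ∃ z ∈ net m (2 * (B * r)), Arm S z m (2 * m) := by
    intro S u v hu hv hc
    have h8 : 4 * (m : ℝ) ≤ (nrm (v - u) : ℝ) := by nlinarith
    have h9 : 4 * m ≤ nrm (v - u) := by exact_mod_cast h8
    have h10 := np_near hm u
    have h11 := nrm_tri (a := u) (b := np ((m + 1) / 2) u)
    exact ⟨np ((m + 1) / 2) u, np_mem hm (by omega), arm_np hm hc (by omega)⟩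
  constructor
  · refine (union_gen hm hR (fun z => {w | Arm (Op (1 / 2 - wd M r) w) z m (2 * m)}) hep
      (fun z => (P_arm _ z m).trans_le h4) ?_).trans h7
    rintro w ⟨u, v, hu, hv, hc⟩
    exact key hu hv hc
  · refine (union_gen hm hR (fun z => {w | Arm (Cl (1 / 2 + wd M r) w) z m (2 * m)}) hep
      (fun z => (P_arm_cl _ z m).trans_le h5) ?_).trans h7
    rintro w ⟨u, v, hu, hv, hc⟩
    exact key hu hv hc

end Pool.Agent.TriPerc
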