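import Pool.Agent.TriPerc.Ann
import Pool.Agent.TriPerc.Meas

/-!
# Four arms (single level)

`Four S z n m`: the set `S` has two crossings of `Ann z n m` which lie in different components of
`S ∩ Ann z n m`.  For `S = Op p w` this is the four-arm event round `z` at the level `p`; the state
of `z` itself is irrelevant for `1 ≤ n`.

* `four_of_conn`: if `u ~ v` and `u' ~ v'` in `S ∩ D`, `u` and `u'` are not joined in `S ∩ D`,
  `nrm (u - z) ≤ n`, `m ≤ nrm (v - z)`, the same for `u'`, `v'`, `n ≤ m`, `Ann z n m ⊆ D`, then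
  `Four S z n m`.  PROOF.  `u` and `v` are joined in `comp (S ∩ D) u` (`Conn.in_comp`), so by
  `arm_of_conn` the set `comp (S ∩ D) u` has a crossing `x ~ y` of the annulus; the same with
  `x' ~ y'` in `comp (S ∩ D) u'`.  These sets are contained in `S` (`comp_subset`), so the crossings
  are crossings by `S ∩ Ann z n m`.  If `x` and `x'` were joined in `S ∩ Ann z n m ⊆ S ∩ D`, then
  `u ~ x ~ x' ~ u'` in `S ∩ D` (`x ∈ comp (S ∩ D) u` means `Conn (S ∩ D) u x`), contradiction.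
* `four_sub` (use `D = Ann z n m ⊇ Ann z n' m'`), `four_centre` (`D = Ann z n m ⊇
  Ann z' (n + d) (m - d)` by the triangle inequality `nrm_add`, `nrm_neg`): immediate from
  `four_of_conn`.
* `four_congr`: `Four` depends on `S ∩ Ann z n m` only.
* `ev_four`: `ev_op (finite_ann z n m) p (fun T => Four T z n m)` gives the event
  `{w | Four (Op p w ∩ Ann z n m) z n m}`, which is the same set by `four_congr`.
* `four_tr`: translation invariance: `Four (tr z ⁻¹' S) 0 n m ↔ Four S z n m` (`conn_preimage`,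
  `tr z v = v + z`), `mp_comp (tr z)`, `op_comp`.
* `xf p n m`: the probability of `Four (Op p w) 0 n m`; `xf_anti`: it is monotone in the annulus.
-/

namespace Pool.Agent.TriPerc

open MeasureTheory Set

/-- Two crossings of the annulus by `S` in different components of `S ∩ Ann z n m`. -/
def Four (S : Set V) (z : V) (n m : ℤ) : Prop :=
  ∃ u v u' v', nrm (u - z) ≤ n ∧ m ≤ nrm (v - z) ∧ nrm (u' - z) ≤ n ∧ m ≤ nrm (v' - z) ∧
    Conn (S ∩ Ann z n m) u v ∧ Conn (S ∩ Ann z n m) u' v' ∧ ¬ Conn (S ∩ Ann z n m) u u'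

variable {S T D : Set V} {z z' u v u' v' : V} {n m n' m' d : ℤ} {p : ℝ}

theorem four_of_conn (h : Conn (S ∩ D) u v) (h' : Conn (S ∩ D) u' v')
    (hn : ¬ Conn (S ∩ D) u u') (hu : nrm (u - z) ≤ n) (hv : m ≤ nrm (v - z))
    (hu' : nrm (u' - z) ≤ n) (hv' : m ≤ nrm (v' - z)) (hnm : n ≤ m) (hD : Ann z n m ⊆ D) :
    Four S z n m := by
  obtain ⟨x, hx, y, hy, hxy⟩ := arm_of_conn h.in_comp hu hv hnm
  obtain ⟨x', hx', y', hy', hxy'⟩ := arm_of_conn h'.in_comp hu' hv' hnm
  have hsub : ∀ a, comp (S ∩ D) a ∩ Ann z n m ⊆ S ∩ Ann z n m :=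
    fun a w hw => ⟨(comp_subset hw.1).1, hw.2⟩
  refine ⟨x, y, x', y', hx, hy, hx', hy', hxy.mono (hsub u), hxy'.mono (hsub u'),
    fun hc => hn ?_⟩
  have h1 : Conn (S ∩ D) x x' := hc.mono fun w hw => ⟨hw.1, hD hw.2⟩
  have h2 : Conn (S ∩ D) u x := hxy.left.1
  have h3 : Conn (S ∩ D) u' x' := hxy'.left.1
  exact h2.trans (h1.trans h3.symm)

theorem four_congr (h : S ∩ Ann z n m = T ∩ Ann z n m) : Four S z n m ↔ Four T z n m := by
  unfold Four
  rw [h]

theorem four_sub (hn : n ≤ n') (hnm : n' ≤ m') (hm : m' ≤ m) (h : Four S z n m) :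
    Four S z n' m' := by
  obtain ⟨u, v, u', v', hu, hv, hu', hv', h1, h2, h3⟩ := h
  exact four_of_conn h1 h2 h3 (hu.trans hn) (hm.trans hv) (hu'.trans hn) (hm.trans hv') hnm
    fun w hw => ⟨hn.trans hw.1, hw.2.trans hm⟩

theorem four_centre (hd : nrm (z' - z) ≤ d) (hnm : n + d ≤ m - d) (h : Four S z n m) :
    Four S z' (n + d) (m - d) := by
  obtain ⟨u, v, u', v', hu, hv, hu', hv', h1, h2, h3⟩ := h
  have hz : nrm (z - z') = nrm (z' - z) := by rw [← nrm_neg, neg_sub]
  have key : ∀ w, nrm (w - z') ≤ nrm (w - z) + d ∧ nrm (w - z) ≤ nrm (w - z') + d := by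
    intro w
    have k1 := nrm_add (w - z) (z - z')
    rw [sub_add_sub_cancel] at k1
    have k2 := nrm_add (w - z') (z' - z)
    rw [sub_add_sub_cancel] at k2
    constructor <;> omega
  refine four_of_conn h1 h2 h3 ?_ ?_ ?_ ?_ hnm fun w hw => ?_
  · have := (key u).1
    omega
  · have := (key v).2
    omega
  · have := (key u').1
    omega
  · have := (key v').2
    omega
  · have k1 := key w
    have k2 := hw.1
    have k3 := hw.2
    exact ⟨by omega, by omega⟩

theorem ev_four (p : ℝ) (z : V) (n m : ℤ) : Ev (Ann z n m) {w | Four (Op p w) z n m} := by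
  have h := ev_op (finite_ann z n m) p (fun T => Four T z n m)
  have e : {w : Lab | Four (Op p w ∩ Ann z n m) z n m} = {w | Four (Op p w) z n m} := by
    ext w
    exact four_congr (by rw [inter_assoc, inter_self])
  rwa [e] at h

private theorem four_pre (S : Set V) (z : V) (n m : ℤ) :
    Four (tr z ⁻¹' S) 0 n m ↔ Four S z n m := by
  have e : tr z ⁻¹' S ∩ Ann 0 n m = tr z ⁻¹' (S ∩ Ann z n m) := by
    ext w
    change w + z ∈ S ∧ (n ≤ nrm (w - 0) ∧ nrm (w - 0) ≤ m) ↔
      w + z ∈ S ∧ (n ≤ nrm (w + z - z) ∧ nrm (w + z - z) ≤ m)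
    rw [sub_zero, add_sub_cancel_right]
  have c : ∀ a b, Conn (tr z ⁻¹' S ∩ Ann 0 n m) a b ↔ Conn (S ∩ Ann z n m) (a + z) (b + z) := by
    intro a b
    rw [e]
    exact conn_preimage (isAut_tr z)
  have c' : ∀ a b, Conn (S ∩ Ann z n m) a b ↔
      Conn (tr z ⁻¹' S ∩ Ann 0 n m) (a - z) (b - z) := by
    intro a b
    rw [c, sub_add_cancel, sub_add_cancel]
  constructor
  · rintro ⟨u, v, u', v', hu, hv, hu', hv', h1, h2, h3⟩
    rw [sub_zero] at hu hv hu' hv'
    refine ⟨u + z, v + z, u' + z, v' + z, ?_, ?_, ?_, ?_, (c u v).1 h1, (c u' v').1 h2,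
      fun h => h3 ((c u u').2 h)⟩ <;> rwa [add_sub_cancel_right]
  · rintro ⟨u, v, u', v', hu, hv, hu', hv', h1, h2, h3⟩
    refine ⟨u - z, v - z, u' - z, v' - z, ?_, ?_, ?_, ?_, (c' u v).1 h1, (c' u' v').1 h2,
      fun h => h3 ((c' u u').2 h)⟩ <;> rwa [sub_zero]

theorem four_tr (p : ℝ) (z : V) (n m : ℤ) :
    P {w | Four (Op p w) z n m} = P {w | Four (Op p w) 0 n m} := by
  rw [← (mp_comp (tr z)).measure_preimage (ev_four p 0 n m).1.nullMeasurableSet]
  congr 1
  ext w
  exact (four_pre (Op p w) z n m).symm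

/-- Probability of four arms at the level `p` across `Ann 0 n m`. -/
noncomputable def xf (p : ℝ) (n m : ℤ) : ℝ := (P {w | Four (Op p w) 0 n m}).toReal

theorem xf_nonneg : 0 ≤ xf p n m := ENNReal.toReal_nonneg

private theorem tm {A B : Set Lab} (h : A ⊆ B) : (P A).toReal ≤ (P B).toReal :=
  ENNReal.toReal_mono (measure_ne_top P B) (measure_mono h)

theorem xf_le_one : xf p n m ≤ 1 := by
  have h := tm (A := {w | Four (Op p w) 0 n m}) (subset_univ _)
  rwa [measure_univ, ENNReal.toReal_one] at h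

theorem xf_anti (hn : n ≤ n') (hnm : n' ≤ m') (hm : m' ≤ m) : xf p n m ≤ xf p n' m' :=
  tm fun _ h => four_sub hn hnm hm h

end Pool.Agent.TriPerc
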