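import Pool.Agent.TriPerc.DefsA
import Mathlib.Order.CompletePartialOrder

/-!
# Paths in the triangular lattice: basic facts

Everything here is elementary.  Hints.

* `Adj`: unfold, `omega` (with `Prod.ext_iff`).
* `Conn.symm`: induct over `Relation.ReflTransGen`; the reversed path uses `Conn.of_adj` and
  `Conn.trans`.
* `Conn.walk`: induction on `ReflTransGen` (tail form): extend `f` by `fun i => if i ≤ n then f i
  else c`.
* `Conn.exit` (first exit): use `Conn.walk` and the least `i` with `f i ∉ A` (`Nat.find`); then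
  `i ≥ 1`, `x = f (i - 1)`, `y = f i`; or directly by induction on `ReflTransGen`.
* `Conn.last` (last exit): apply `Conn.exit` to the reversed path with `Aᶜ` in place of `A`.
* `Conn.between`: first `Conn.last` for `A` (this gives the last vertex `x ∈ A`, and a path
  `y ⟶ v` in `S \ A`), then `Conn.exit` for `Bᶜ` on the rest (if `y ∈ B` already, then `Adj x y`).
* `isConn_rows`: first two vertices in one row (the row is an interval: induction on the
  difference of the first coordinates, `conn_row`); then induction on `v.2 - u.2` with the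
  hypothesis `hup`: go from `u` to `x` in the row of `u`, to `y`, then by induction from `y` to
  `v`; the case `v.2 < u.2` by symmetry.
* `Conn.finset`: the set of the vertices of a path (image of `Finset.range (n + 1)` under the
  walk `f`); any two of them are joined inside (both are joined to `f 0`).
-/

namespace Pool.Agent.TriPerc

variable {S T A B : Set V} {u v x y : V}

theorem Adj.symm (h : Adj u v) : Adj v u := by
  unfold Adj at h ⊢
  omega

theorem Adj.ne (h : Adj u v) : u ≠ v := by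
  rintro rfl
  unfold Adj at h
  omega

/-- A neighbour differs by at most `1` in each coordinate and in the sum of the coordinates. -/
theorem Adj.abs (h : Adj u v) : |v.1 - u.1| ≤ 1 ∧ |v.2 - u.2| ≤ 1 ∧
    |(v.1 + v.2) - (u.1 + u.2)| ≤ 1 ∧ |X v - X u| ≤ 2 := by
  unfold Adj at h
  unfold X
  simp only [abs_le]
  refine ⟨⟨?_, ?_⟩, ⟨?_, ?_⟩, ⟨?_, ?_⟩, ⟨?_, ?_⟩⟩ <;> omega

private theorem nrm_le_iff {n : ℤ} :
    nrm u ≤ n ↔ |u.1| ≤ n ∧ |u.2| ≤ n ∧ |u.1 + u.2| ≤ n := by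
  unfold nrm
  rw [max_le_iff, max_le_iff, and_assoc]

private theorem mem_ball' {z : V} {n : ℤ} : u ∈ Ball z n ↔
    |u.1 - z.1| ≤ n ∧ |u.2 - z.2| ≤ n ∧ |u.1 - z.1 + (u.2 - z.2)| ≤ n := by
  change nrm (u - z) ≤ n ↔ _
  rw [nrm_le_iff, Prod.fst_sub, Prod.snd_sub]

theorem nrm_adj (h : Adj u v) (z : V) : |nrm (v - z) - nrm (u - z)| ≤ 1 := by
  have key : ∀ {u v : V}, Adj u v → nrm (v - z) ≤ nrm (u - z) + 1 := by
    intro u v h
    obtain ⟨h1, h2, h3⟩ := nrm_le_iff.1 (le_refl (nrm (u - z)))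
    obtain ⟨h4, h5, h6, -⟩ := h.abs
    rw [nrm_le_iff]
    generalize nrm (u - z) = m at h1 h2 h3 ⊢
    simp only [Prod.fst_sub, Prod.snd_sub, abs_le] at *
    refine ⟨⟨?_, ?_⟩, ⟨?_, ?_⟩, ⟨?_, ?_⟩⟩ <;> omega
  have h1 := key h
  have h2 := key h.symm
  rw [abs_le]
  constructor <;> omega

theorem nrm_zero_iff : nrm u = 0 ↔ u = 0 := by
  constructor
  · intro h
    obtain ⟨h1, h2, -⟩ := nrm_le_iff.1 h.le
    exact Prod.ext (abs_nonpos_iff.1 h1) (abs_nonpos_iff.1 h2)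
  · rintro rfl
    rfl

theorem nrm_nonneg (u : V) : 0 ≤ nrm u := by
  exact (abs_nonneg _).trans (le_max_right _ _)

theorem nrm_add (u v : V) : nrm (u + v) ≤ nrm u + nrm v := by
  obtain ⟨h1, h2, h3⟩ := nrm_le_iff.1 (le_refl (nrm u))
  obtain ⟨h4, h5, h6⟩ := nrm_le_iff.1 (le_refl (nrm v))
  rw [nrm_le_iff]
  generalize nrm u = m at h1 h2 h3 ⊢
  generalize nrm v = k at h4 h5 h6 ⊢
  simp only [Prod.fst_add, Prod.snd_add, abs_le] at *
  refine ⟨⟨?_, ?_⟩, ⟨?_, ?_⟩, ⟨?_, ?_⟩⟩ <;> omega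

theorem nrm_neg (u : V) : nrm (-u) = nrm u := by
  unfold nrm
  rw [Prod.fst_neg, Prod.snd_neg, ← neg_add, abs_neg, abs_neg, abs_neg]

theorem Conn.left (h : Conn S u v) : u ∈ S := h.1

theorem Conn.right (h : Conn S u v) : v ∈ S := by
  rcases h.2.cases_tail with h1 | ⟨c, -, hc⟩
  · rw [h1]
    exact h.1
  · exact hc.2

theorem Conn.refl (h : u ∈ S) : Conn S u u := ⟨h, Relation.ReflTransGen.refl⟩

theorem Conn.trans {w : V} (h : Conn S u v) (h' : Conn S v w) : Conn S u w := by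
  exact ⟨h.1, h.2.trans h'.2⟩

theorem Conn.of_adj (hu : u ∈ S) (hv : v ∈ S) (h : Adj u v) : Conn S u v := by
  exact ⟨hu, Relation.ReflTransGen.single ⟨h, hv⟩⟩

theorem Conn.symm (h : Conn S u v) : Conn S v u := by
  obtain ⟨hu, h⟩ := h
  induction h with
  | refl => exact Conn.refl hu
  | tail _ hbc ih => exact (Conn.of_adj hbc.2 ih.left hbc.1.symm).trans ih

theorem Conn.mono (hST : S ⊆ T) (h : Conn S u v) : Conn T u v := by
  obtain ⟨hu, h⟩ := h
  refine ⟨hST hu, ?_⟩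
  induction h with
  | refl => exact Relation.ReflTransGen.refl
  | tail _ hbc ih => exact ih.tail ⟨hbc.1, hST hbc.2⟩

theorem Conn.walk (h : Conn S u v) : ∃ n : ℕ, ∃ f : ℕ → V, f 0 = u ∧ f n = v ∧
    (∀ i < n, Adj (f i) (f (i + 1))) ∧ ∀ i ≤ n, f i ∈ S := by
  obtain ⟨hu, h⟩ := h
  induction h with
  | refl => exact ⟨0, fun _ => u, rfl, rfl, fun i hi => absurd hi (Nat.not_lt_zero i),
      fun _ _ => hu⟩
  | @tail b c _ hbc ih =>
    obtain ⟨n, f, h0, hn, ha, hS⟩ := ih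
    refine ⟨n + 1, fun i => if i ≤ n then f i else c, ?_, ?_, fun i hi => ?_, fun i hi => ?_⟩
    · change (if 0 ≤ n then f 0 else c) = u
      rw [if_pos (Nat.zero_le n), h0]
    · change (if n + 1 ≤ n then f (n + 1) else c) = c
      rw [if_neg (by omega)]
    · change Adj (if i ≤ n then f i else c) (if i + 1 ≤ n then f (i + 1) else c)
      rw [if_pos (by omega : i ≤ n)]
      by_cases h1 : i + 1 ≤ n
      · rw [if_pos h1]
        exact ha i (by omega)
      · rw [if_neg h1, show i = n by omega, hn]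
        exact hbc.1
    · change (if i ≤ n then f i else c) ∈ S
      by_cases h1 : i ≤ n
      · rw [if_pos h1]
        exact hS i h1
      · rw [if_neg h1]
        exact hbc.2

theorem Conn.of_walk {n : ℕ} {f : ℕ → V} (ha : ∀ i < n, Adj (f i) (f (i + 1)))
    (hS : ∀ i ≤ n, f i ∈ S) : Conn S (f 0) (f n) := by
  induction n with
  | zero => exact Conn.refl (hS 0 le_rfl)
  | succ n ih =>
    exact (ih (fun i hi => ha i (by omega)) fun i hi => hS i (by omega)).trans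
      (Conn.of_adj (hS n (by omega)) (hS (n + 1) le_rfl) (ha n (by omega)))

/-- A walk that may stand still. -/
theorem Conn.of_lazy {n : ℕ} {f : ℕ → V} (ha : ∀ i < n, f i = f (i + 1) ∨ Adj (f i) (f (i + 1)))
    (hS : ∀ i ≤ n, f i ∈ S) : Conn S (f 0) (f n) := by
  induction n with
  | zero => exact Conn.refl (hS 0 le_rfl)
  | succ n ih =>
    have h1 := ih (fun i hi => ha i (by omega)) fun i hi => hS i (by omega)
    rcases ha n (by omega) with h2 | h2
    · rwa [h2] at h1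
    · exact h1.trans (Conn.of_adj (hS n (by omega)) (hS (n + 1) le_rfl) h2)

/-- First exit from `A`. -/
theorem Conn.exit (h : Conn S u v) (hu : u ∈ A) (hv : v ∉ A) :
    ∃ x y, x ∈ A ∧ y ∉ A ∧ Adj x y ∧ Conn (S ∩ A) u x ∧ Conn S y v := by
  have key : Conn (S ∩ A) u v ∨
      ∃ x y, x ∈ A ∧ y ∉ A ∧ Adj x y ∧ Conn (S ∩ A) u x ∧ Conn S y v := by
    obtain ⟨hu', h⟩ := h
    clear hv
    induction h with
    | refl => exact Or.inl (Conn.refl ⟨hu', hu⟩)
    | @tail b c _ hbc ih =>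
      rcases ih with ih | ⟨x, y, h1, h2, h3, h4, h5⟩
      · by_cases hc : c ∈ A
        · exact Or.inl (ih.trans (Conn.of_adj ih.right ⟨hbc.2, hc⟩ hbc.1))
        · exact Or.inr ⟨b, c, ih.right.2, hc, hbc.1, ih, Conn.refl hbc.2⟩
      · exact Or.inr ⟨x, y, h1, h2, h3, h4, h5.trans (Conn.of_adj h5.right hbc.2 hbc.1)⟩
  rcases key with h1 | h1
  · exact absurd h1.right.2 hv
  · exact h1

/-- Last exit from `A`. -/
theorem Conn.last (h : Conn S u v) (hu : u ∈ A) (hv : v ∉ A) :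
    ∃ x y, x ∈ A ∧ y ∉ A ∧ Adj x y ∧ Conn S u x ∧ Conn (S \ A) y v := by
  obtain ⟨x, y, h1, h2, h3, h4, h5⟩ := h.symm.exit (A := Aᶜ) hv (not_not_intro hu)
  have h6 : Conn (S \ A) v x := h4.mono fun z hz => ⟨hz.1, hz.2⟩
  exact ⟨y, x, not_not.1 h2, h1, h3.symm, h5.symm, h6.symm⟩

/-- An excursion from `A` to `B`. -/
theorem Conn.between (h : Conn S u v) (hu : u ∈ A) (hv : v ∈ B) (hAB : Disjoint A B) :
    ∃ x ∈ A, ∃ y ∈ B, Conn S u x ∧ Conn S y v ∧
      (Adj x y ∨ ∃ x' y', Adj x x' ∧ Adj y' y ∧ Conn (S \ (A ∪ B)) x' y') := by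
  obtain ⟨x, w, h1, h2, h3, h4, h5⟩ := h.last hu fun hv' => Set.disjoint_left.1 hAB hv' hv
  by_cases hw : w ∈ B
  · exact ⟨x, h1, w, hw, h4, h5.mono fun z hz => hz.1, Or.inl h3⟩
  · obtain ⟨x2, y2, k1, k2, k3, k4, k5⟩ := h5.exit (A := Bᶜ) hw (not_not_intro hv)
    refine ⟨x, h1, y2, not_not.1 k2, h4, k5.mono fun z hz => hz.1, Or.inr ⟨w, x2, h3, k3, ?_⟩⟩
    exact k4.mono fun z hz => ⟨hz.1.1, fun hz' => hz'.elim hz.1.2 hz.2⟩

/-- A path is contained in the component of its starting point. -/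
theorem Conn.in_comp (h : Conn S u v) : Conn (comp S u) u v := by
  obtain ⟨hu, h⟩ := h
  induction h with
  | refl => exact Conn.refl (Conn.refl hu)
  | @tail b c _ hbc ih =>
    have h1 : Conn S u b := ih.right
    have h2 : c ∈ comp S u := h1.trans (Conn.of_adj h1.right hbc.2 hbc.1)
    exact ih.trans (Conn.of_adj ih.right h2 hbc.1)

theorem comp_subset : comp S u ⊆ S := by
  exact fun v hv => Conn.right hv

theorem isConn_comp : IsConn (comp S u) := by
  intro a ha b hb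
  exact (Conn.in_comp ha).symm.trans (Conn.in_comp hb)

theorem comp_adj (hx : x ∈ comp S u) (hy : y ∈ S) (h : Adj x y) : y ∈ comp S u := by
  have h1 : Conn S u x := hx
  exact h1.trans (Conn.of_adj h1.right hy h)

theorem clus_subset : clus S A ⊆ S := by
  rintro x ⟨u, -, h⟩
  exact h.right

theorem subset_clus : A ∩ S ⊆ clus S A := by
  exact fun x hx => ⟨x, hx.1, Conn.refl hx.2⟩

theorem clus_adj (hx : x ∈ clus S A) (hy : y ∈ S) (h : Adj x y) : y ∈ clus S A := by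
  obtain ⟨u, hu, h1⟩ := hx
  exact ⟨u, hu, h1.trans (Conn.of_adj h1.right hy h)⟩

/-- Every vertex of `clus S A` is joined to `A` inside `clus S A`. -/
theorem clus_conn (hx : x ∈ clus S A) : ∃ u ∈ A, Conn (clus S A) u x := by
  obtain ⟨u, hu, h1⟩ := hx
  exact ⟨u, hu, h1.in_comp.mono fun v hv => ⟨u, hu, hv⟩⟩

theorem clus_mono (h : S ⊆ T) (h' : A ⊆ B) : clus S A ⊆ clus T B := by
  rintro x ⟨u, hu, h1⟩
  exact ⟨u, h' hu, h1.mono h⟩

/-- If `K` is contained in `S`, every vertex of `K` is joined to `A` inside `K`, and no vertex of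
`S \ K` is in `A` or adjacent to `K`, then `K` is the cluster of `A`. -/
theorem clus_eq {K : Set V} (hK : K ⊆ S) (hA : ∀ x ∈ K, ∃ u ∈ A, Conn K u x)
    (hout : ∀ x ∈ S, x ∉ K → x ∉ A ∧ ∀ k ∈ K, ¬ Adj k x) : clus S A = K := by
  refine Set.Subset.antisymm ?_ fun x hx => ?_
  · rintro x ⟨u, hu, huS, h⟩
    have huK : u ∈ K := by
      by_contra h1
      exact (hout u huS h1).1 hu
    clear hu
    induction h with
    | refl => exact huK
    | @tail b c _ hbc ih =>
      by_contra h1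
      exact (hout c hbc.2 h1).2 b ih hbc.1
  · obtain ⟨u, hu, h⟩ := hA x hx
    exact ⟨u, hu, h.mono hK⟩

theorem IsConn.union (hS : IsConn S) (hT : IsConn T)
    (h : ∃ a ∈ S, ∃ b ∈ T, a = b ∨ Adj a b) : IsConn (S ∪ T) := by
  obtain ⟨a, ha, b, hb, hab⟩ := h
  have h1 : Conn (S ∪ T) a b := by
    rcases hab with rfl | hab
    · exact Conn.refl (Or.inl ha)
    · exact Conn.of_adj (Or.inl ha) (Or.inr hb) hab
  have hS' : ∀ u ∈ S, Conn (S ∪ T) u a := fun u hu => (hS u hu a ha).mono fun z hz => Or.inl hz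
  have hT' : ∀ u ∈ T, Conn (S ∪ T) b u := fun u hu => (hT b hb u hu).mono fun z hz => Or.inr hz
  rintro u (hu | hu) v (hv | hv)
  · exact (hS' u hu).trans (hS' v hv).symm
  · exact (hS' u hu).trans (h1.trans (hT' v hv))
  · exact (hT' u hu).symm.trans (h1.symm.trans (hS' v hv).symm)
  · exact (hT' u hu).symm.trans (hT' v hv)

theorem Conn.finset (h : Conn S u v) :
    ∃ K : Finset V, (K : Set V) ⊆ S ∧ u ∈ K ∧ v ∈ K ∧ IsConn (K : Set V) := by
  classical
  obtain ⟨n, f, h0, hn, ha, hS⟩ := h.walk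
  have hm : ∀ i ≤ n, f i ∈ ((Finset.range (n + 1)).image f : Finset V) := fun i hi =>
    Finset.mem_image_of_mem f (Finset.mem_range.2 (by omega))
  refine ⟨(Finset.range (n + 1)).image f, ?_, ?_, ?_, ?_⟩
  · intro x hx
    obtain ⟨i, hi, rfl⟩ := Finset.mem_image.1 (Finset.mem_coe.1 hx)
    exact hS i (by have := Finset.mem_range.1 hi; omega)
  · rw [← h0]
    exact hm 0 (Nat.zero_le n)
  · rw [← hn]
    exact hm n le_rfl
  · have h1 : ∀ i ≤ n, Conn (((Finset.range (n + 1)).image f : Finset V) : Set V) (f 0) (f i) :=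
      fun i hi => Conn.of_walk (fun j hj => ha j (by omega)) fun j hj =>
        Finset.mem_coe.2 (hm j (by omega))
    intro x hx y hy
    obtain ⟨i, hi, rfl⟩ := Finset.mem_image.1 (Finset.mem_coe.1 hx)
    obtain ⟨j, hj, rfl⟩ := Finset.mem_image.1 (Finset.mem_coe.1 hy)
    exact (h1 i (by have := Finset.mem_range.1 hi; omega)).symm.trans
      (h1 j (by have := Finset.mem_range.1 hj; omega))

theorem Join.mono {A' B' : Set V} (h : Join S A B) (hS : S ⊆ T) (hA : A ⊆ A') (hB : B ⊆ B') :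
    Join T A' B' := by
  obtain ⟨u, hu, v, hv, h1⟩ := h
  exact ⟨u, hA hu, v, hB hv, h1.mono hS⟩

theorem Join.symm (h : Join S A B) : Join S B A := by
  obtain ⟨u, hu, v, hv, h1⟩ := h
  exact ⟨v, hv, u, hu, h1.symm⟩

/-! ### Connected regions -/

theorem conn_row {a a' b : ℤ} (h : ∀ c, min a a' ≤ c → c ≤ max a a' → (c, b) ∈ S) :
    Conn S (a, b) (a', b) := by
  have key : ∀ (a : ℤ) (n : ℕ), (∀ c, a ≤ c → c ≤ a + n → (c, b) ∈ S) →
      Conn S (a, b) (a + n, b) := by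
    intro a n h
    have h1 := Conn.of_walk (S := S) (n := n) (f := fun i : ℕ => (a + (i : ℤ), b))
      (fun i _ => Or.inl ⟨by push_cast; ring, rfl⟩)
      fun i hi => h _ (by omega) (by omega)
    have h2 : (a + ((0 : ℕ) : ℤ), b) = (a, b) := by rw [Nat.cast_zero, add_zero]
    rw [h2] at h1
    exact h1
  rcases le_total a a' with h1 | h1
  · obtain ⟨n, rfl⟩ := Int.le.dest h1
    rw [min_eq_left h1, max_eq_right h1] at h
    exact key a n h
  · obtain ⟨n, rfl⟩ := Int.le.dest h1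
    rw [min_eq_right h1, max_eq_left h1] at h
    exact (key a' n h).symm

theorem conn_col {a b b' : ℤ} (h : ∀ c, min b b' ≤ c → c ≤ max b b' → (a, c) ∈ S) :
    Conn S (a, b) (a, b') := by
  have key : ∀ (b : ℤ) (n : ℕ), (∀ c, b ≤ c → c ≤ b + n → (a, c) ∈ S) →
      Conn S (a, b) (a, b + n) := by
    intro b n h
    have h1 := Conn.of_walk (S := S) (n := n) (f := fun i : ℕ => (a, b + (i : ℤ)))
      (fun i _ => Or.inr (Or.inl ⟨rfl, by push_cast; ring⟩))
      fun i hi => h _ (by omega) (by omega)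
    have h2 : (a, b + ((0 : ℕ) : ℤ)) = (a, b) := by rw [Nat.cast_zero, add_zero]
    rw [h2] at h1
    exact h1
  rcases le_total b b' with h1 | h1
  · obtain ⟨n, rfl⟩ := Int.le.dest h1
    rw [min_eq_left h1, max_eq_right h1] at h
    exact key b n h
  · obtain ⟨n, rfl⟩ := Int.le.dest h1
    rw [min_eq_right h1, max_eq_left h1] at h
    exact (key b' n h).symm

/-- A set whose rows are intervals, consecutive rows being adjacent, is connected. -/
theorem isConn_rows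
    (hrow : ∀ a a' b c : ℤ, (a, b) ∈ S → (a', b) ∈ S → a ≤ c → c ≤ a' → (c, b) ∈ S)
    (hup : ∀ u ∈ S, ∀ v ∈ S, u.2 < v.2 → ∃ x ∈ S, ∃ y ∈ S, x.2 = u.2 ∧ y.2 = u.2 + 1 ∧ Adj x y) :
    IsConn S := by
  have row : ∀ u ∈ S, ∀ v ∈ S, v.2 = u.2 → Conn S u v := by
    rintro ⟨a, b⟩ hu ⟨a', b'⟩ hv (rfl : b' = b)
    refine conn_row fun c h1 h2 => ?_
    rcases le_total a a' with h3 | h3
    · rw [min_eq_left h3] at h1
      rw [max_eq_right h3] at h2
      exact hrow a a' b' c hu hv h1 h2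
    · rw [min_eq_right h3] at h1
      rw [max_eq_left h3] at h2
      exact hrow a' a b' c hv hu h1 h2
  have key : ∀ n : ℕ, ∀ u ∈ S, ∀ v ∈ S, v.2 = u.2 + n → Conn S u v := by
    intro n
    induction n with
    | zero =>
      intro u hu v hv h
      exact row u hu v hv (by rw [h, Nat.cast_zero, add_zero])
    | succ n ih =>
      intro u hu v hv h
      push_cast at h
      obtain ⟨x, hx, y, hy, h1, h2, h3⟩ := hup u hu v hv (by omega)
      exact (row u hu x hx h1).trans ((Conn.of_adj hx hy h3).trans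
        (ih y hy v hv (by omega)))
  intro u hu v hv
  rcases le_total u.2 v.2 with h | h
  · obtain ⟨n, hn⟩ := Int.le.dest h
    exact key n u hu v hv hn.symm
  · obtain ⟨n, hn⟩ := Int.le.dest h
    exact (key n v hv u hu hn.symm).symm

theorem isConn_univ : IsConn (Set.univ : Set V) := by
  exact isConn_rows (fun _ _ _ _ _ _ _ _ => trivial) fun u _ v _ _ =>
    ⟨u, trivial, (u.1, u.2 + 1), trivial, rfl, rfl, Or.inr (Or.inl ⟨rfl, rfl⟩)⟩

theorem isConn_par (l r b t : ℤ) : IsConn (Par l r b t) := by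
  refine isConn_rows ?_ ?_
  · rintro a a' b' c ⟨h1, h2, h3, h4⟩ ⟨k1, k2, k3, k4⟩ h5 h6
    exact ⟨h1.trans h5, h6.trans k2, h3, h4⟩
  · rintro u ⟨h1, h2, h3, h4⟩ v ⟨k1, k2, k3, k4⟩ h5
    exact ⟨u, ⟨h1, h2, h3, h4⟩, (u.1, u.2 + 1), ⟨h1, h2, h3.trans (by omega), by
      change u.2 + 1 ≤ t
      omega⟩, rfl, rfl, Or.inr (Or.inl ⟨rfl, rfl⟩)⟩

theorem isConn_rec (l r b t : ℤ) (h : l < r) : IsConn (Rec l r b t) := by
  refine isConn_rows ?_ ?_
  · rintro a a' b' c ⟨h1, h2, h3, h4⟩ ⟨k1, k2, k3, k4⟩ h5 h6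
    simp only [X] at h1 h2 h3 h4 k1 k2 k3 k4
    refine ⟨?_, ?_, h3, h4⟩
    · change l ≤ 2 * c + b'
      omega
    · change 2 * c + b' ≤ r
      omega
  · rintro u ⟨h1, h2, h3, h4⟩ v ⟨k1, k2, k3, k4⟩ h5
    by_cases h6 : X u + 1 ≤ r
    · refine ⟨u, ⟨h1, h2, h3, h4⟩, (u.1, u.2 + 1), ⟨?_, ?_, ?_, ?_⟩, rfl, rfl,
        Or.inr (Or.inl ⟨rfl, rfl⟩)⟩
      · simp only [X] at *
        omega
      · simp only [X] at *
        omega
      · change b ≤ u.2 + 1
        omega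
      · change u.2 + 1 ≤ t
        omega
    · refine ⟨u, ⟨h1, h2, h3, h4⟩, (u.1 - 1, u.2 + 1), ⟨?_, ?_, ?_, ?_⟩, rfl, rfl,
        Or.inr (Or.inr (Or.inl ⟨rfl, rfl⟩))⟩
      · simp only [X] at *
        omega
      · simp only [X] at *
        omega
      · change b ≤ u.2 + 1
        omega
      · change u.2 + 1 ≤ t
        omega

theorem isConn_ball (z : V) (n : ℤ) : IsConn (Ball z n) := by
  refine isConn_rows ?_ ?_
  · intro a a' b c h1 h2 h3 h4
    rw [mem_ball'] at h1 h2 ⊢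
    simp only [abs_le] at *
    omega
  · intro u hu v hv h
    rw [mem_ball'] at hu hv
    simp only [abs_le] at hu hv
    by_cases h6 : u.1 - z.1 + (u.2 - z.2) + 1 ≤ n
    · refine ⟨u, ?_, (u.1, u.2 + 1), ?_, rfl, rfl, Or.inr (Or.inl ⟨rfl, rfl⟩)⟩
      · rw [mem_ball']
        simp only [abs_le]
        exact hu
      · rw [mem_ball']
        simp only [abs_le]
        omega
    · refine ⟨u, ?_, (u.1 - 1, u.2 + 1), ?_, rfl, rfl, Or.inr (Or.inr (Or.inl ⟨rfl, rfl⟩))⟩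
      · rw [mem_ball']
        simp only [abs_le]
        exact hu
      · rw [mem_ball']
        simp only [abs_le]
        omega

theorem finite_par (l r b t : ℤ) : (Par l r b t).Finite := by
  exact (Set.finite_Icc ((l, b) : V) (r, t)).subset fun v hv =>
    ⟨Prod.mk_le_mk.2 ⟨hv.1, hv.2.2.1⟩, Prod.mk_le_mk.2 ⟨hv.2.1, hv.2.2.2⟩⟩

theorem finite_rec (l r b t : ℤ) : (Rec l r b t).Finite := by
  refine (finite_par ((l - t) / 2) ((r - b) / 2) b t).subset ?_
  rintro v ⟨h1, h2, h3, h4⟩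
  simp only [X] at h1 h2
  exact ⟨by omega, by omega, h3, h4⟩

theorem finite_ball (z : V) (n : ℤ) : (Ball z n).Finite := by
  refine (finite_par (z.1 - n) (z.1 + n) (z.2 - n) (z.2 + n)).subset ?_
  intro v hv
  rw [mem_ball'] at hv
  simp only [abs_le] at hv
  exact ⟨by omega, by omega, by omega, by omega⟩

/-! ### Automorphisms -/

theorem isAut_tr (z : V) : IsAut (tr z) := by
  intro u v
  change Adj (u + z) (v + z) ↔ Adj u v
  unfold Adj
  simp only [Prod.fst_add, Prod.snd_add]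
  constructor <;> rintro (⟨h1, h2⟩ | ⟨h1, h2⟩ | ⟨h1, h2⟩ | ⟨h1, h2⟩ | ⟨h1, h2⟩ | ⟨h1, h2⟩) <;>
    first
      | exact Or.inl ⟨by omega, by omega⟩
      | exact Or.inr (Or.inl ⟨by omega, by omega⟩)
      | exact Or.inr (Or.inr (Or.inl ⟨by omega, by omega⟩))
      | exact Or.inr (Or.inr (Or.inr (Or.inl ⟨by omega, by omega⟩)))
      | exact Or.inr (Or.inr (Or.inr (Or.inr (Or.inl ⟨by omega, by omega⟩))))
      | exact Or.inr (Or.inr (Or.inr (Or.inr (Or.inr ⟨by omega, by omega⟩))))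

theorem isAut_rot : IsAut rot := by
  intro u v
  change Adj (-u.2, u.1 + u.2) (-v.2, v.1 + v.2) ↔ Adj u v
  unfold Adj
  constructor <;> rintro (⟨h1, h2⟩ | ⟨h1, h2⟩ | ⟨h1, h2⟩ | ⟨h1, h2⟩ | ⟨h1, h2⟩ | ⟨h1, h2⟩) <;>
    dsimp only at h1 h2 ⊢ <;>
    first
      | exact Or.inl ⟨by omega, by omega⟩
      | exact Or.inr (Or.inl ⟨by omega, by omega⟩)
      | exact Or.inr (Or.inr (Or.inl ⟨by omega, by omega⟩))
      | exact Or.inr (Or.inr (Or.inr (Or.inl ⟨by omega, by omega⟩)))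
      | exact Or.inr (Or.inr (Or.inr (Or.inr (Or.inl ⟨by omega, by omega⟩))))
      | exact Or.inr (Or.inr (Or.inr (Or.inr (Or.inr ⟨by omega, by omega⟩))))

theorem isAut_swp : IsAut swp := by
  intro u v
  change Adj (u.2, u.1) (v.2, v.1) ↔ Adj u v
  unfold Adj
  constructor <;> rintro (⟨h1, h2⟩ | ⟨h1, h2⟩ | ⟨h1, h2⟩ | ⟨h1, h2⟩ | ⟨h1, h2⟩ | ⟨h1, h2⟩) <;>
    dsimp only at h1 h2 ⊢ <;>
    first
      | exact Or.inl ⟨by omega, by omega⟩
      | exact Or.inr (Or.inl ⟨by omega, by omega⟩)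
      | exact Or.inr (Or.inr (Or.inl ⟨by omega, by omega⟩))
      | exact Or.inr (Or.inr (Or.inr (Or.inl ⟨by omega, by omega⟩)))
      | exact Or.inr (Or.inr (Or.inr (Or.inr (Or.inl ⟨by omega, by omega⟩))))
      | exact Or.inr (Or.inr (Or.inr (Or.inr (Or.inr ⟨by omega, by omega⟩))))

theorem isAut_vref (m : ℤ) : IsAut (vref m) := by
  intro u v
  change Adj (m - u.1 - u.2, u.2) (m - v.1 - v.2, v.2) ↔ Adj u v
  unfold Adj
  constructor <;> rintro (⟨h1, h2⟩ | ⟨h1, h2⟩ | ⟨h1, h2⟩ | ⟨h1, h2⟩ | ⟨h1, h2⟩ | ⟨h1, h2⟩) <;>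
    dsimp only at h1 h2 ⊢ <;>
    first
      | exact Or.inl ⟨by omega, by omega⟩
      | exact Or.inr (Or.inl ⟨by omega, by omega⟩)
      | exact Or.inr (Or.inr (Or.inl ⟨by omega, by omega⟩))
      | exact Or.inr (Or.inr (Or.inr (Or.inl ⟨by omega, by omega⟩)))
      | exact Or.inr (Or.inr (Or.inr (Or.inr (Or.inl ⟨by omega, by omega⟩))))
      | exact Or.inr (Or.inr (Or.inr (Or.inr (Or.inr ⟨by omega, by omega⟩))))

theorem isAut_href (k : ℤ) : IsAut (href k) := by
  intro u v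
  change Adj (u.1 + u.2 - k, 2 * k - u.2) (v.1 + v.2 - k, 2 * k - v.2) ↔ Adj u v
  unfold Adj
  constructor <;> rintro (⟨h1, h2⟩ | ⟨h1, h2⟩ | ⟨h1, h2⟩ | ⟨h1, h2⟩ | ⟨h1, h2⟩ | ⟨h1, h2⟩) <;>
    dsimp only at h1 h2 ⊢ <;>
    first
      | exact Or.inl ⟨by omega, by omega⟩
      | exact Or.inr (Or.inl ⟨by omega, by omega⟩)
      | exact Or.inr (Or.inr (Or.inl ⟨by omega, by omega⟩))
      | exact Or.inr (Or.inr (Or.inr (Or.inl ⟨by omega, by omega⟩)))
      | exact Or.inr (Or.inr (Or.inr (Or.inr (Or.inl ⟨by omega, by omega⟩))))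
      | exact Or.inr (Or.inr (Or.inr (Or.inr (Or.inr ⟨by omega, by omega⟩))))

theorem IsAut.symm {g : V ≃ V} (hg : IsAut g) : IsAut g.symm := by
  intro u v
  have h := hg (g.symm u) (g.symm v)
  rw [g.apply_symm_apply, g.apply_symm_apply] at h
  exact h.symm

theorem IsAut.trans {g h : V ≃ V} (hg : IsAut g) (hh : IsAut h) : IsAut (g.trans h) := by
  exact fun u v => (hh (g u) (g v)).trans (hg u v)

private theorem conn_map {f : V → V} (hf : ∀ u v, Adj u v → Adj (f u) (f v))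
    (hST : ∀ x ∈ S, f x ∈ T) (h : Conn S u v) : Conn T (f u) (f v) :=
  ⟨hST _ h.1, h.2.lift f fun a b hab => ⟨hf _ _ hab.1, hST _ hab.2⟩⟩

theorem conn_preimage {g : V ≃ V} (hg : IsAut g) : Conn (g ⁻¹' S) u v ↔ Conn S (g u) (g v) := by
  constructor
  · intro h
    exact conn_map (fun a b hab => (hg a b).2 hab) (fun x hx => hx) h
  · intro h
    have h1 := conn_map (T := g ⁻¹' S) (f := g.symm) (fun a b hab => (hg.symm a b).2 hab)
      (fun x hx => by
        change g (g.symm x) ∈ S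
        rwa [g.apply_symm_apply]) h
    rwa [g.symm_apply_apply, g.symm_apply_apply] at h1

theorem conn_image {g : V ≃ V} (hg : IsAut g) : Conn (g '' S) (g u) (g v) ↔ Conn S u v := by
  constructor
  · intro h
    have h1 := conn_map (T := S) (f := g.symm) (fun a b hab => (hg.symm a b).2 hab)
      (fun x hx => by
        obtain ⟨y, hy, rfl⟩ := hx
        rwa [g.symm_apply_apply]) h
    rwa [g.symm_apply_apply, g.symm_apply_apply] at h1
  · intro h
    exact conn_map (fun a b hab => (hg a b).2 hab) (fun x hx => Set.mem_image_of_mem g hx) h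

theorem join_preimage {g : V ≃ V} (hg : IsAut g) :
    Join (g ⁻¹' S) (g ⁻¹' A) (g ⁻¹' B) ↔ Join S A B := by
  constructor
  · rintro ⟨u, hu, v, hv, h⟩
    exact ⟨g u, hu, g v, hv, (conn_preimage hg).1 h⟩
  · rintro ⟨u, hu, v, hv, h⟩
    refine ⟨g.symm u, ?_, g.symm v, ?_, (conn_preimage hg).2 ?_⟩
    · change g (g.symm u) ∈ A
      rwa [g.apply_symm_apply]
    · change g (g.symm v) ∈ B
      rwa [g.apply_symm_apply]
    · rwa [g.apply_symm_apply, g.apply_symm_apply]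

theorem X_vref (m : ℤ) (v : V) : X (vref m v) = 2 * m - X v ∧ (vref m v).2 = v.2 := by
  refine ⟨?_, rfl⟩
  change 2 * (m - v.1 - v.2) + v.2 = 2 * m - (2 * v.1 + v.2)
  ring

theorem X_href (k : ℤ) (v : V) : X (href k v) = X v ∧ (href k v).2 = 2 * k - v.2 := by
  refine ⟨?_, rfl⟩
  change 2 * (v.1 + v.2 - k) + (2 * k - v.2) = 2 * v.1 + v.2
  ring

theorem nrm_rot (v : V) : nrm (rot v) = nrm v := by
  change max (max |-v.2| |v.1 + v.2|) |-v.2 + (v.1 + v.2)| = max (max |v.1| |v.2|) |v.1 + v.2|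
  rw [abs_neg, show -v.2 + (v.1 + v.2) = v.1 by ring, max_comm, ← max_assoc]

theorem nrm_swp (v : V) : nrm (swp v) = nrm v := by
  change max (max |v.2| |v.1|) |v.2 + v.1| = max (max |v.1| |v.2|) |v.1 + v.2|
  rw [max_comm |v.2|, add_comm v.2]

end Pool.Agent.TriPerc
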