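import Pool.Agent.TriPerc.Pot
import Pool.Agent.TriPerc.Pth

/-!
# Janiszewski's theorem for vertex sets of the triangular lattice

`jan`: let `S1, S2` be sets of vertices which do not meet and are not adjacent.  If `x, y` are
joined outside `S1` and joined outside `S2`, then they are joined outside `S1 ∪ S2`.

PROOF.  Let `S = S1 ∪ S2`; `x, y ∉ S`.  Let `K = comp Sᶜ x` and suppose `y ∉ K`.  Define
`φ u v = 1` if one of `u, v` is in `K` and the other one is in `S1`, and `0` otherwise (symmetric).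
Triangle relation: let `u, v, w` be mutually adjacent.  If none of them is in `K` or none in `S1`,
all three values are `0`.  Otherwise say `u ∈ K`, `v ∈ S1`.  The third vertex `w` is in `K` or in
`S1`: if `w ∉ S` then `w` is adjacent to `u ∈ K` and so in `K`; `w ∈ S2` is impossible since `w` is
adjacent to `v ∈ S1`.  In both cases exactly two of the three edges have the value `1` (note that
`K` and `S1` are disjoint).  By `h1` there is `h` with `φ u v = h u + h v` on all edges.

Along a path from `x` to `y` outside `S1` all `φ` are `0`, hence `h x = h y`.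
Along a path from `x` to `y` outside `S2`: let `k v = 1` if `v ∈ K`, else `0`.  For an edge `u, v`
of this path, `φ u v = k u + k v`: if both or none of `u, v` are in `K` both sides are `0`; if
`u ∈ K`, `v ∉ K`, then `v ∈ S` (otherwise `v ∈ K`), and `v ∉ S2`, so `v ∈ S1` and both sides are
`1`.  Hence `h + k` is constant along the path: `h x + 1 = h y + 0`.  Contradiction.
(For the two paths use induction on `Relation.ReflTransGen`, or `Conn.walk`.)

`jan_comp`: if `S` is finite, `x, y ∉ S`, and `x, y` are not joined outside `S`, then for some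
`s ∈ S` they are not joined outside the component `comp S s`.

PROOF by strong induction on the number of vertices of `S`.  `S` is not empty, because any two
vertices are joined in the whole lattice (`isConn_univ`).  Take `s ∈ S`, `C = comp S s`,
`S' = S \ C`.  `C` and `S'` are disjoint and not adjacent (`comp_adj`).  If `x, y` are joined
outside `C`, then by `jan` they are not joined outside `S'`; by induction there is `s' ∈ S'` such
that they are not joined outside `comp S' s'`; and `comp S' s' = comp S s'`: a path in `S` which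
starts in `S'` never enters `C`.

`jan_walls`: (hex lemma with walls) `V = D ∪ W1 ∪ W2 ∪ W3 ∪ W4` with pairwise disjoint sets,
`x ∈ W1`, `y ∈ W3`, `x, y` are joined in `W1 ∪ W2 ∪ W3` and in `W1 ∪ W4 ∪ W3`.  For every set `O`
(the open vertices): either `x, y` are joined in `(D ∩ O) ∪ W1 ∪ W3`, or some vertex of `W2` is
joined to some vertex of `W4` in `(D \ O) ∪ W2 ∪ W4`.

PROOF.  Let `S = (D \ O) ∪ W2 ∪ W4`, `S1 = clus S W2`, `S2 = S \ S1`.  Suppose no vertex of `W2` is
joined to a vertex of `W4` in `S`, i.e. `S1 ∩ W4 = ∅`.  Then `S1 ⊆ D ∪ W2`, `W2 ⊆ S1` and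
`S2 ⊆ D ∪ W4`.  `S1` and `S2` are disjoint and not adjacent (`clus_adj`).  `x, y` are joined in
`W1 ∪ W4 ∪ W3 ⊆ S1ᶜ` and in `W1 ∪ W2 ∪ W3 ⊆ S2ᶜ`.  By `jan` they are joined in
`Sᶜ = (D ∩ O) ∪ W1 ∪ W3` (this uses the disjointness of the five sets and the cover).

`jan_ext`: version for a separating set `S` and a set `A`: if `x, y` are not joined outside `S`
but joined outside `clus S A`, then they are not joined outside `S \ clus S A` (immediate from
`jan`).
-/

namespace Pool.Agent.TriPerc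

private theorem conn_const {α : Type*} {S : Set V} {x y : V} (f : V → α) (h : Conn S x y)
    (hf : ∀ u v, u ∈ S → v ∈ S → Adj u v → f u = f v) : f x = f y := by
  obtain ⟨hx, hr⟩ := h
  induction hr with
  | refl => rfl
  | tail h3 h4 ih => exact ih.trans (hf _ _ (Conn.right ⟨hx, h3⟩) h4.2 h4.1)

/-- Forbidden pairs of states of adjacent vertices. -/
private def RR (p q : Fin 4) : Prop :=
  ¬ (p = 0 ∧ q = 3) ∧ ¬ (p = 3 ∧ q = 0) ∧ ¬ (p = 1 ∧ q = 2) ∧ ¬ (p = 2 ∧ q = 1)

private instance (p q : Fin 4) : Decidable (RR p q) := by unfold RR; infer_instance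

private def FF (p q : Fin 4) : ZMod 2 := if (p = 0 ∧ q = 1) ∨ (p = 1 ∧ q = 0) then 1 else 0

private def KK (p : Fin 4) : ZMod 2 := if p = 0 then 1 else 0

private theorem FF_symm : ∀ p q : Fin 4, FF p q = FF q p := by decide

private theorem FF_tri : ∀ p q r : Fin 4, RR p q → RR q r → RR p r →
    FF p q + FF q r + FF p r = 0 := by decide

private theorem FF_one : ∀ p q : Fin 4, p ≠ 1 → q ≠ 1 → FF p q = 0 := by decide

private theorem FF_two : ∀ p q : Fin 4, p ≠ 2 → q ≠ 2 → RR p q → FF p q = KK p + KK q := by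
  decide

private theorem zm1 : ∀ a b : ZMod 2, 0 = a + b → a = b := by decide

private theorem zm2 : ∀ a b c d : ZMod 2, c + d = a + b → a + c = b + d := by decide

private theorem zm3 : ∀ a b c d : ZMod 2, a = b → a + c = b + d → c = d := by decide

theorem jan (S1 S2 : Set V) (hd : Disjoint S1 S2) (hna : ∀ a ∈ S1, ∀ b ∈ S2, ¬ Adj a b)
    (x y : V) (h1 : Conn S1ᶜ x y) (h2 : Conn S2ᶜ x y) : Conn (S1 ∪ S2)ᶜ x y := by
  classical
  by_contra hy
  have hx : x ∈ comp (S1 ∪ S2)ᶜ x := by
    refine Conn.refl ?_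
    rintro (h | h)
    · exact h1.1 h
    · exact h2.1 h
  have hK : ∀ v, v ∈ comp (S1 ∪ S2)ᶜ x → v ∉ S1 ∧ v ∉ S2 := fun v hv =>
    ⟨fun h => comp_subset hv (Or.inl h), fun h => comp_subset hv (Or.inr h)⟩
  let st : V → Fin 4 := fun v =>
    if v ∈ comp (S1 ∪ S2)ᶜ x then 0 else if v ∈ S1 then 1 else if v ∈ S2 then 2 else 3
  have sa : ∀ v, v ∈ comp (S1 ∪ S2)ᶜ x → st v = 0 := fun v h => if_pos h
  have sb : ∀ v, v ∉ comp (S1 ∪ S2)ᶜ x → v ∈ S1 → st v = 1 := fun v h h' =>
    (if_neg h).trans (if_pos h')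
  have sc : ∀ v, v ∉ comp (S1 ∪ S2)ᶜ x → v ∉ S1 → v ∈ S2 → st v = 2 := fun v h h' h'' =>
    (if_neg h).trans ((if_neg h').trans (if_pos h''))
  have sd : ∀ v, v ∉ comp (S1 ∪ S2)ᶜ x → v ∉ S1 → v ∉ S2 → st v = 3 := fun v h h' h'' =>
    (if_neg h).trans ((if_neg h').trans (if_neg h''))
  have st0 : ∀ v, st v = 0 ↔ v ∈ comp (S1 ∪ S2)ᶜ x := by
    intro v
    refine ⟨fun h => ?_, sa v⟩
    by_contra ha
    by_cases hb : v ∈ S1
    · rw [sb v ha hb] at h
      exact absurd h (by decide)
    · by_cases hc : v ∈ S2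
      · rw [sc v ha hb hc] at h
        exact absurd h (by decide)
      · rw [sd v ha hb hc] at h
        exact absurd h (by decide)
  have st1 : ∀ v, st v = 1 ↔ v ∈ S1 := by
    intro v
    refine ⟨fun h => ?_, fun h => sb v (fun h' => (hK v h').1 h) h⟩
    by_contra hb
    by_cases ha : v ∈ comp (S1 ∪ S2)ᶜ x
    · rw [sa v ha] at h
      exact absurd h (by decide)
    · by_cases hc : v ∈ S2
      · rw [sc v ha hb hc] at h
        exact absurd h (by decide)
      · rw [sd v ha hb hc] at h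
        exact absurd h (by decide)
  have st2 : ∀ v, st v = 2 ↔ v ∈ S2 := by
    intro v
    refine ⟨fun h => ?_, fun h => sc v (fun h' => (hK v h').2 h)
      (fun h' => Set.disjoint_left.1 hd h' h) h⟩
    by_contra hc
    by_cases ha : v ∈ comp (S1 ∪ S2)ᶜ x
    · rw [sa v ha] at h
      exact absurd h (by decide)
    · by_cases hb : v ∈ S1
      · rw [sb v ha hb] at h
        exact absurd h (by decide)
      · rw [sd v ha hb hc] at h
        exact absurd h (by decide)
  have st3 : ∀ v, st v = 3 → v ∉ comp (S1 ∪ S2)ᶜ x ∧ v ∈ (S1 ∪ S2)ᶜ := by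
    intro v hv
    refine ⟨fun h => ?_, ?_⟩
    · rw [(st0 v).2 h] at hv
      exact absurd hv (by decide)
    · rintro (h | h)
      · rw [(st1 v).2 h] at hv
        exact absurd hv (by decide)
      · rw [(st2 v).2 h] at hv
        exact absurd hv (by decide)
  have hR : ∀ u v, Adj u v → RR (st u) (st v) := by
    intro u v huv
    refine ⟨fun h => ?_, fun h => ?_, fun h => ?_, fun h => ?_⟩
    · exact (st3 v h.2).1 (comp_adj ((st0 u).1 h.1) (st3 v h.2).2 huv)
    · exact (st3 u h.1).1 (comp_adj ((st0 v).1 h.2) (st3 u h.1).2 huv.symm)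
    · exact hna u ((st1 u).1 h.1) v ((st2 v).1 h.2) huv
    · exact hna v ((st1 v).1 h.2) u ((st2 u).1 h.1) huv.symm
  obtain ⟨f, hf⟩ := Pool.Agent.TriPerc.h1 (fun u v => FF (st u) (st v))
    (fun u v => FF_symm _ _)
    (fun u v w a b c => FF_tri _ _ _ (hR u v a) (hR v w b) (hR u w c))
  have e1 : f x = f y := by
    refine conn_const f h1 fun u v hu hv huv => zm1 _ _ ?_
    rw [← hf u v huv]
    exact (FF_one _ _ (fun h => hu ((st1 u).1 h)) (fun h => hv ((st1 v).1 h))).symm
  have e2 : f x + KK (st x) = f y + KK (st y) := by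
    refine conn_const (fun v => f v + KK (st v)) h2 fun u v hu hv huv => zm2 _ _ _ _ ?_
    rw [← hf u v huv]
    exact (FF_two _ _ (fun h => hu ((st2 u).1 h)) (fun h => hv ((st2 v).1 h))
      (hR u v huv)).symm
  have e3 := zm3 _ _ _ _ e1 e2
  have e4 : st y ≠ 0 := fun h => hy ((st0 y).1 h)
  rw [(st0 x).2 hx] at e3
  unfold KK at e3
  rw [if_pos rfl, if_neg e4] at e3
  exact absurd e3 (by decide)

private theorem comp_diff (S : Set V) (s s' : V) (h' : s' ∈ S \ comp S s) :
    comp (S \ comp S s) s' = comp S s' := by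
  refine Set.Subset.antisymm (fun v hv => Conn.mono Set.sdiff_subset hv) ?_
  rintro v ⟨-, hr⟩
  induction hr with
  | refl => exact Conn.refl h'
  | @tail b c h3 h4 ih =>
    have hb : b ∈ S \ comp S s := comp_subset ih
    have hc : c ∈ S \ comp S s :=
      ⟨h4.2, fun hc => hb.2 (comp_adj hc hb.1 h4.1.symm)⟩
    exact Conn.trans ih (Conn.of_adj hb hc h4.1)

theorem jan_comp (S : Set V) (hS : S.Finite) (x y : V) (hx : x ∉ S) (hy : y ∉ S)
    (h : ¬ Conn Sᶜ x y) : ∃ s ∈ S, ¬ Conn (comp S s)ᶜ x y := by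
  obtain ⟨n, hn⟩ : ∃ n, S.ncard = n := ⟨_, rfl⟩
  induction n using Nat.strong_induction_on generalizing S with
  | _ n ih =>
    rcases S.eq_empty_or_nonempty with h0 | ⟨s, hs⟩
    · exfalso
      refine h ?_
      rw [h0, Set.compl_empty]
      exact isConn_univ x trivial y trivial
    · by_cases hC : Conn (comp S s)ᶜ x y
      · have hun : comp S s ∪ (S \ comp S s) = S := Set.union_sdiff_cancel comp_subset
        have hS' : ¬ Conn (S \ comp S s)ᶜ x y := fun h2 => h (by
          have := jan (comp S s) (S \ comp S s) Set.disjoint_sdiff_right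
            (fun a ha b hb hab => hb.2 (comp_adj ha hb.1 hab)) x y hC h2
          rwa [hun] at this)
        have hcard : (S \ comp S s).ncard < n := by
          rw [← hn]
          refine Set.ncard_lt_ncard ⟨Set.sdiff_subset, fun hsub => ?_⟩ hS
          exact (hsub hs).2 (Conn.refl hs)
        obtain ⟨s', hs', h3⟩ := ih _ hcard (S \ comp S s) (hS.subset Set.sdiff_subset)
          (fun hh => hx hh.1) (fun hh => hy hh.1) hS' rfl
        refine ⟨s', hs'.1, ?_⟩
        rwa [comp_diff S s s' hs'] at h3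
      · exact ⟨s, hs, hC⟩

theorem jan_walls (D W1 W2 W3 W4 : Set V)
    (hcov : ∀ v, v ∈ D ∨ v ∈ W1 ∨ v ∈ W2 ∨ v ∈ W3 ∨ v ∈ W4)
    (d1 : Disjoint D W1) (d2 : Disjoint D W2) (d3 : Disjoint D W3) (d4 : Disjoint D W4)
    (d12 : Disjoint W1 W2) (d13 : Disjoint W1 W3) (d14 : Disjoint W1 W4) (d23 : Disjoint W2 W3)
    (d24 : Disjoint W2 W4) (d34 : Disjoint W3 W4) (x y : V) (hx : x ∈ W1) (hy : y ∈ W3)
    (h123 : Conn (W1 ∪ W2 ∪ W3) x y) (h143 : Conn (W1 ∪ W4 ∪ W3) x y) (O : Set V) :
    Conn ((D ∩ O) ∪ W1 ∪ W3) x y ∨ Join ((D \ O) ∪ W2 ∪ W4) W2 W4 := by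
  by_cases hJ : Join ((D \ O) ∪ W2 ∪ W4) W2 W4
  · exact Or.inr hJ
  left
  obtain ⟨S, hSd⟩ : ∃ S, S = (D \ O) ∪ W2 ∪ W4 := ⟨_, rfl⟩
  rw [← hSd] at hJ
  have hun : clus S W2 ∪ (S \ clus S W2) = S := Set.union_sdiff_cancel clus_subset
  have w1 : ∀ v ∈ W1, v ∉ S := by
    intro v hv hS
    rw [hSd] at hS
    rcases hS with (hS | hS) | hS
    · exact Set.disjoint_left.1 d1 hS.1 hv
    · exact Set.disjoint_left.1 d12 hv hS
    · exact Set.disjoint_left.1 d14 hv hS
  have w3 : ∀ v ∈ W3, v ∉ S := by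
    intro v hv hS
    rw [hSd] at hS
    rcases hS with (hS | hS) | hS
    · exact Set.disjoint_left.1 d3 hS.1 hv
    · exact Set.disjoint_left.1 d23 hS hv
    · exact Set.disjoint_left.1 d34 hv hS
  have k := jan (clus S W2) (S \ clus S W2) Set.disjoint_sdiff_right
    (fun a ha b hb hab => hb.2 (clus_adj ha hb.1 hab)) x y
    (h143.mono (by
      rintro v ((hv | hv) | hv) hc
      · exact w1 v hv (clus_subset hc)
      · obtain ⟨u, hu, huv⟩ := hc
        exact hJ ⟨u, hu, v, hv, huv⟩
      · exact w3 v hv (clus_subset hc)))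
    (h123.mono (by
      rintro v ((hv | hv) | hv) hc
      · exact w1 v hv hc.1
      · exact hc.2 (subset_clus ⟨hv, hc.1⟩)
      · exact w3 v hv hc.1))
  rw [hun] at k
  refine k.mono fun v hv => ?_
  rw [hSd] at hv
  rcases hcov v with h | h | h | h | h
  · by_cases hO : v ∈ O
    · exact Or.inl (Or.inl ⟨h, hO⟩)
    · exact absurd (Or.inl (Or.inl ⟨h, hO⟩)) hv
  · exact Or.inl (Or.inr h)
  · exact absurd (Or.inl (Or.inr h)) hv
  · exact Or.inr h
  · exact absurd (Or.inr h) hv

theorem jan_ext (S A : Set V) (x y : V) (h : ¬ Conn Sᶜ x y) (h' : Conn (clus S A)ᶜ x y) :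
    ¬ Conn (S \ clus S A)ᶜ x y := by
  intro h2
  have hun : clus S A ∪ (S \ clus S A) = S := Set.union_sdiff_cancel clus_subset
  have k := jan (clus S A) (S \ clus S A) Set.disjoint_sdiff_right
    (fun a ha b hb hab => hb.2 (clus_adj ha hb.1 hab)) x y h' h2
  rw [hun] at k
  exact h k

end Pool.Agent.TriPerc
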