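import Pool.Agent.TriPerc.Grid
import Pool.Agent.TriPerc.Jan

/-!
# The hex lemma for rectangles and parallelograms; gluing of crossings

`rec_or`: for `l < r`, `b ≤ t` and every set `O`: `HC O l r b t ∨ VC Oᶜ l r b t`.
PROOF: `jan_walls` with `D = Rec l r b t`, `W1 = {X < l, b ≤ row ≤ t}`, `W2 = {row > t}`,
`W3 = {X > r, b ≤ row ≤ t}`, `W4 = {row < b}`; `x = (l - |b| - |t| - 1, b)`-like vertices far to the
left, `y` far to the right in row `b`.  `x, y` are joined in `W1 ∪ W2 ∪ W3`: go up the column of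
`x` (in `W1` as long as row `≤ t`; choose `x.1` so small that `X < l` in all rows `b..t`), then along
row `t + 1` (`conn_row`, `conn_col`), then down.  The same through row `b - 1` for `W4`.
First alternative: a path in `(D ∩ O) ∪ W1 ∪ W3` from `x ∈ W1` to `y ∈ W3`; apply `Conn.between`
with `A = W1`, `B = W3`; `W1, W3` are not adjacent (the `X`-difference is at least
`r - l + 2 ≥ 3`, a step changes `X` by at most `2`); so there are `x', y'` with
`Conn (D ∩ O) x' y'`, `x'` adjacent to `W1`, hence `X x' ≤ l + 1`, `y'` adjacent to `W3`, hence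
`X y' ≥ r - 1`.  Second alternative: a path from `W2` to `W4` in `(D \ O) ∪ W2 ∪ W4`; again
`Conn.between`; `W2, W4` are not adjacent since `b ≤ t`; the end vertices of the middle part are in
`D`, adjacent to `W2` resp. `W4`, so they are in rows `≥ t` and `≤ b`.  (`Conn.symm` for the
direction.)

`rec_not`: not both.  `no_LR` with `S = O ∩ Rec`, `T = Oᶜ ∩ Rec`: the horizontal path starts at `u`
with `X u ≤ l + 1`; if `y ∈ T` is in the same row and `y.1 < u.1` then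
`X y ≤ X u - 2 ≤ l - 1`, contradiction; similarly on the right.  The vertical path starts in a row
`≤ b`, i.e. in row `b`.

`par_or`, `par_not`: the same for the parallelogram (`W1 = {v.1 < l, b ≤ v.2 ≤ t}` etc., a step
changes `v.1` by at most one, and `W1, W3` are not adjacent as `l ≤ r`).

`hc_meet_vc`: a horizontal crossing in `S` and a vertical crossing in `T` of the same rectangle
have a common vertex: if `HC S` and `VC T` then there is `z ∈ S ∩ T ∩ Rec` joined in `S ∩ Rec` to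
the left and to the right side and joined in `T ∩ Rec` to the bottom and to the top.
PROOF: otherwise the component (in `S ∩ Rec`) of the horizontal path and the component (in
`T ∩ Rec`) of the vertical path are disjoint; apply `no_LR` to these two components
(`Conn.in_comp`).

`hc_mono`: monotone in the set.
`hc_of_conn`: if `u, v` are joined in `S ∩ {b ≤ row ≤ t}` and `X u ≤ l + 1`, `r - 1 ≤ X v`, `l < r`,
then `HC S l r b t`.  PROOF: if `X v ≤ l + 1`, then `l ≤ r - 1 ≤ X v ≤ r` and the one-vertex path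
`v` is a crossing.  Otherwise take the LAST exit from `A = {X ≤ l + 1}` (`Conn.last`): `x ∈ A`,
`y ∉ A`, the rest from `y` on stays in `{X ≥ l + 2}`, and `X x ≥ X y - 2 ≥ l`.  If `X x ≥ r - 1`,
the vertex `x` alone is a crossing.  Otherwise cut the path `x, y, ...` at its first vertex with
`X ≥ r - 1` (`Conn.exit` with the set `{X ≤ r - 2}`); this vertex has `X ≤ r`.  All vertices of
the piece have `l ≤ X ≤ r`.
`vc_of_conn`: if `u, v` are joined in `S ∩ {l ≤ X ≤ r}`, `u.2 ≤ b`, `t ≤ v.2`, `b ≤ t`, then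
`VC S l r b t` (same cutting, steps of the row are at most one).
`hc_sub`, `vc_sub`: immediate from these two.
`hc_wide`: a horizontal crossing of a lower rectangle is one of a higher one (`b' ≤ b`, `t ≤ t'`).
`vc_wide`: `l' ≤ l`, `r ≤ r'`.
`hc_glue`: `HC S l r b t`, `HC S l' r' b t`, `VC S l' r b t` with `l ≤ l' < r ≤ r'` imply
`HC S l r' b t`: the vertical crossing of the overlap meets both horizontal crossings
(restricted to the overlap by `hc_sub`... in fact: the first crossing contains a crossing of the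
overlap `[l', r]`; more precisely show that every path from `X ≤ l + 1` to `X ≥ r - 1` in the
rectangle `[l, r]` meets the vertical crossing of `[l', r]`: otherwise `no_LR` applied to the two
disjoint components, where the condition on the left is that the start is not strictly to the right
of a vertex of `T ⊆ Rec l' r b t` in the same row).  The two horizontal paths and the vertical
path together are connected and contained in `Rec l r' b t`.
-/

namespace Pool.Agent.TriPerc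

variable {S T O : Set V} {l r b t l' r' b' t' : ℤ}

private theorem adjX {u v : V} (h : Adj u v) : X v - X u ≤ 2 ∧ X u - X v ≤ 2 ∧
    v.1 - u.1 ≤ 1 ∧ u.1 - v.1 ≤ 1 ∧ v.2 - u.2 ≤ 1 ∧ u.2 - v.2 ≤ 1 := by
  unfold Adj at h
  unfold X
  omega

private theorem meet {S T : Set V} {u u' w w' : V} (hf : Conn S u u')
    (hg : Conn T w w') (hb : ∀ x ∈ S, w.2 ≤ x.2) (ht : ∀ x ∈ S, x.2 ≤ w'.2)
    (hl : ∀ y ∈ T, u.2 = y.2 → u.1 ≤ y.1) (hr : ∀ y ∈ T, u'.2 = y.2 → y.1 ≤ u'.1) :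
    ∃ z, Conn S u z ∧ Conn T w z := by
  by_contra hno
  push Not at hno
  have hd : Disjoint (comp S u) (comp T w) := by
    rw [Set.disjoint_left]
    intro z h1 h2
    exact hno z h1 h2
  exact no_LR hd hf.in_comp hg.in_comp (fun x hx => hb x (comp_subset hx))
    (fun x hx => ht x (comp_subset hx)) (fun y hy => hl y (comp_subset hy))
    (fun y hy => hr y (comp_subset hy))

theorem rec_or (O : Set V) (hlr : l < r) (hbt : b ≤ t) : HC O l r b t ∨ VC Oᶜ l r b t := by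
  obtain ⟨a, ha⟩ : ∃ a : ℤ, a = -(|l| + |b| + |t| + 1) := ⟨_, rfl⟩
  obtain ⟨a', ha'⟩ : ∃ a' : ℤ, a' = |r| + |b| + |t| + 1 := ⟨_, rfl⟩
  have hl1 := neg_abs_le l
  have hb1 := neg_abs_le b
  have hb2 := le_abs_self b
  have ht1 := neg_abs_le t
  have ht2 := le_abs_self t
  have hr2 := le_abs_self r
  have hl0 := abs_nonneg l
  have hr0 := abs_nonneg r
  obtain ⟨W1, hW1⟩ : ∃ W : Set V, W = {v | X v < l ∧ b ≤ v.2 ∧ v.2 ≤ t} := ⟨_, rfl⟩
  obtain ⟨W2, hW2⟩ : ∃ W : Set V, W = {v | t < v.2} := ⟨_, rfl⟩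
  obtain ⟨W3, hW3⟩ : ∃ W : Set V, W = {v | r < X v ∧ b ≤ v.2 ∧ v.2 ≤ t} := ⟨_, rfl⟩
  obtain ⟨W4, hW4⟩ : ∃ W : Set V, W = {v | v.2 < b} := ⟨_, rfl⟩
  have m1 : ∀ v : V, v ∈ W1 ↔ X v < l ∧ b ≤ v.2 ∧ v.2 ≤ t := fun v => by rw [hW1]; rfl
  have m2 : ∀ v : V, v ∈ W2 ↔ t < v.2 := fun v => by rw [hW2]; rfl
  have m3 : ∀ v : V, v ∈ W3 ↔ r < X v ∧ b ≤ v.2 ∧ v.2 ≤ t := fun v => by rw [hW3]; rfl
  have m4 : ∀ v : V, v ∈ W4 ↔ v.2 < b := fun v => by rw [hW4]; rfl
  have mD : ∀ v : V, v ∈ Rec l r b t ↔ l ≤ X v ∧ X v ≤ r ∧ b ≤ v.2 ∧ v.2 ≤ t := fun v => Iff.rfl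
  have ca : ∀ c, b ≤ c → c ≤ t → ((a, c) : V) ∈ W1 := by
    intro c h1 h2
    rw [m1]
    unfold X
    simp only
    omega
  have ca' : ∀ c, b ≤ c → c ≤ t → ((a', c) : V) ∈ W3 := by
    intro c h1 h2
    rw [m3]
    unfold X
    simp only
    omega
  have h123 : Conn (W1 ∪ W2 ∪ W3) (a, b) (a', b) := by
    refine (conn_col (b' := t + 1) ?_).trans ((conn_row (a' := a') ?_).trans (conn_col ?_))
    · intro c h1 h2
      rw [min_eq_left (by omega)] at h1
      rw [max_eq_right (by omega)] at h2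
      rcases lt_or_ge t c with h3 | h3
      · exact Or.inl (Or.inr ((m2 _).2 h3))
      · exact Or.inl (Or.inl (ca c h1 h3))
    · intro c _ _
      exact Or.inl (Or.inr ((m2 _).2 (by simp only; omega)))
    · intro c h1 h2
      rw [min_eq_right (by omega)] at h1
      rw [max_eq_left (by omega)] at h2
      rcases lt_or_ge t c with h3 | h3
      · exact Or.inl (Or.inr ((m2 _).2 h3))
      · exact Or.inr (ca' c h1 h3)
  have h143 : Conn (W1 ∪ W4 ∪ W3) (a, b) (a', b) := by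
    refine (conn_col (b' := b - 1) ?_).trans ((conn_row (a' := a') ?_).trans (conn_col ?_))
    · intro c h1 h2
      rw [min_eq_right (by omega)] at h1
      rw [max_eq_left (by omega)] at h2
      rcases lt_or_ge c b with h3 | h3
      · exact Or.inl (Or.inr ((m4 _).2 h3))
      · exact Or.inl (Or.inl (ca c h3 (by omega)))
    · intro c _ _
      exact Or.inl (Or.inr ((m4 _).2 (by simp only; omega)))
    · intro c h1 h2
      rw [min_eq_left (by omega)] at h1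
      rw [max_eq_right (by omega)] at h2
      rcases lt_or_ge c b with h3 | h3
      · exact Or.inl (Or.inr ((m4 _).2 h3))
      · exact Or.inr (ca' c h3 (by omega))
  have h13 : Disjoint W1 W3 := by
    rw [Set.disjoint_left]
    intro v h1 h2
    rw [m1] at h1
    rw [m3] at h2
    omega
  have h24 : Disjoint W2 W4 := by
    rw [Set.disjoint_left]
    intro v h1 h2
    rw [m2] at h1
    rw [m4] at h2
    omega
  rcases jan_walls (Rec l r b t) W1 W2 W3 W4 (by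
      intro v
      rw [mD, m1, m2, m3, m4]
      omega) (by
      rw [Set.disjoint_left]
      intro v h1 h2
      rw [mD] at h1
      rw [m1] at h2
      omega) (by
      rw [Set.disjoint_left]
      intro v h1 h2
      rw [mD] at h1
      rw [m2] at h2
      omega) (by
      rw [Set.disjoint_left]
      intro v h1 h2
      rw [mD] at h1
      rw [m3] at h2
      omega) (by
      rw [Set.disjoint_left]
      intro v h1 h2
      rw [mD] at h1
      rw [m4] at h2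
      omega) (by
      rw [Set.disjoint_left]
      intro v h1 h2
      rw [m1] at h1
      rw [m2] at h2
      omega) h13 (by
      rw [Set.disjoint_left]
      intro v h1 h2
      rw [m1] at h1
      rw [m4] at h2
      omega) (by
      rw [Set.disjoint_left]
      intro v h1 h2
      rw [m2] at h1
      rw [m3] at h2
      omega) h24 (by
      rw [Set.disjoint_left]
      intro v h1 h2
      rw [m3] at h1
      rw [m4] at h2
      omega) (a, b) (a', b) (ca b le_rfl hbt) (ca' b le_rfl hbt) h123 h143 O with h | h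
  · left
    obtain ⟨x, hx, y, hy, -, -, h1⟩ := h.between (ca b le_rfl hbt) (ca' b le_rfl hbt) h13
    rw [m1] at hx
    rw [m3] at hy
    rcases h1 with h1 | ⟨x', y', h2, h3, h4⟩
    · have := adjX h1
      omega
    · have e2 := adjX h2
      have e3 := adjX h3
      refine ⟨x', ?_, y', ?_, h4.mono ?_⟩
      · show X x' ≤ l + 1
        omega
      · show r - 1 ≤ X y'
        omega
      · rintro v ⟨hv, hn⟩
        rcases hv with (hv | hv) | hv
        · exact ⟨hv.2, hv.1⟩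
        · exact absurd (Or.inl hv) hn
        · exact absurd (Or.inr hv) hn
  · right
    obtain ⟨u, hu, v, hv, h⟩ := h
    obtain ⟨x, hx, y, hy, -, -, h1⟩ := h.between hu hv h24
    rw [m2] at hx
    rw [m4] at hy
    rcases h1 with h1 | ⟨x', y', h2, h3, h4⟩
    · have := adjX h1
      omega
    · have e2 := adjX h2
      have e3 := adjX h3
      refine ⟨y', ?_, x', ?_, (h4.mono ?_).symm⟩
      · show y'.2 ≤ b
        omega
      · show t ≤ x'.2
        omega
      · rintro v ⟨hv, hn⟩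
        rcases hv with (hv | hv) | hv
        · exact ⟨hv.2, hv.1⟩
        · exact absurd (Or.inl hv) hn
        · exact absurd (Or.inr hv) hn

theorem rec_not (O : Set V) (hlr : l < r) (hbt : b ≤ t) : ¬ (HC O l r b t ∧ VC Oᶜ l r b t) := by
  rintro ⟨⟨u, hu, u', hu', h⟩, w, hw, w', hw', h'⟩
  replace hu : X u ≤ l + 1 := hu
  replace hu' : r - 1 ≤ X u' := hu'
  replace hw : w.2 ≤ b := hw
  replace hw' : t ≤ w'.2 := hw'
  have hd : Disjoint (O ∩ Rec l r b t) (Oᶜ ∩ Rec l r b t) := by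
    rw [Set.disjoint_left]
    intro v h1 h2
    exact h2.1 h1.1
  refine no_LR hd h h' ?_ ?_ ?_ ?_
  · rintro x ⟨-, h1, h2, h3, h4⟩
    omega
  · rintro x ⟨-, h1, h2, h3, h4⟩
    omega
  · rintro y ⟨-, h1, h2, h3, h4⟩ he
    unfold X at *
    omega
  · rintro y ⟨-, h1, h2, h3, h4⟩ he
    unfold X at *
    omega

/-- The same with the colours exchanged. -/
theorem rec_or' (O : Set V) (hlr : l < r) (hbt : b ≤ t) : HC Oᶜ l r b t ∨ VC O l r b t := by
  have h := rec_or (l := l) (r := r) (b := b) (t := t) Oᶜ hlr hbt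
  rwa [compl_compl] at h

theorem rec_not' (O : Set V) (hlr : l < r) (hbt : b ≤ t) : ¬ (HC Oᶜ l r b t ∧ VC O l r b t) := by
  have h := rec_not (l := l) (r := r) (b := b) (t := t) Oᶜ hlr hbt
  rwa [compl_compl] at h

theorem par_or (O : Set V) (hlr : l ≤ r) (hbt : b ≤ t) : PH O l r b t ∨ PV Oᶜ l r b t := by
  obtain ⟨a, ha⟩ : ∃ a : ℤ, a = l - 1 := ⟨_, rfl⟩
  obtain ⟨a', ha'⟩ : ∃ a' : ℤ, a' = r + 1 := ⟨_, rfl⟩
  obtain ⟨W1, hW1⟩ : ∃ W : Set V, W = {v | v.1 < l ∧ b ≤ v.2 ∧ v.2 ≤ t} := ⟨_, rfl⟩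
  obtain ⟨W2, hW2⟩ : ∃ W : Set V, W = {v | t < v.2} := ⟨_, rfl⟩
  obtain ⟨W3, hW3⟩ : ∃ W : Set V, W = {v | r < v.1 ∧ b ≤ v.2 ∧ v.2 ≤ t} := ⟨_, rfl⟩
  obtain ⟨W4, hW4⟩ : ∃ W : Set V, W = {v | v.2 < b} := ⟨_, rfl⟩
  have m1 : ∀ v : V, v ∈ W1 ↔ v.1 < l ∧ b ≤ v.2 ∧ v.2 ≤ t := fun v => by rw [hW1]; rfl
  have m2 : ∀ v : V, v ∈ W2 ↔ t < v.2 := fun v => by rw [hW2]; rfl
  have m3 : ∀ v : V, v ∈ W3 ↔ r < v.1 ∧ b ≤ v.2 ∧ v.2 ≤ t := fun v => by rw [hW3]; rfl
  have m4 : ∀ v : V, v ∈ W4 ↔ v.2 < b := fun v => by rw [hW4]; rfl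
  have mD : ∀ v : V, v ∈ Par l r b t ↔ l ≤ v.1 ∧ v.1 ≤ r ∧ b ≤ v.2 ∧ v.2 ≤ t := fun v => Iff.rfl
  have ca : ∀ c, b ≤ c → c ≤ t → ((a, c) : V) ∈ W1 := by
    intro c h1 h2
    rw [m1]
    simp only
    omega
  have ca' : ∀ c, b ≤ c → c ≤ t → ((a', c) : V) ∈ W3 := by
    intro c h1 h2
    rw [m3]
    simp only
    omega
  have h123 : Conn (W1 ∪ W2 ∪ W3) (a, b) (a', b) := by
    refine (conn_col (b' := t + 1) ?_).trans ((conn_row (a' := a') ?_).trans (conn_col ?_))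
    · intro c h1 h2
      rw [min_eq_left (by omega)] at h1
      rw [max_eq_right (by omega)] at h2
      rcases lt_or_ge t c with h3 | h3
      · exact Or.inl (Or.inr ((m2 _).2 h3))
      · exact Or.inl (Or.inl (ca c h1 h3))
    · intro c _ _
      exact Or.inl (Or.inr ((m2 _).2 (by simp only; omega)))
    · intro c h1 h2
      rw [min_eq_right (by omega)] at h1
      rw [max_eq_left (by omega)] at h2
      rcases lt_or_ge t c with h3 | h3
      · exact Or.inl (Or.inr ((m2 _).2 h3))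
      · exact Or.inr (ca' c h1 h3)
  have h143 : Conn (W1 ∪ W4 ∪ W3) (a, b) (a', b) := by
    refine (conn_col (b' := b - 1) ?_).trans ((conn_row (a' := a') ?_).trans (conn_col ?_))
    · intro c h1 h2
      rw [min_eq_right (by omega)] at h1
      rw [max_eq_left (by omega)] at h2
      rcases lt_or_ge c b with h3 | h3
      · exact Or.inl (Or.inr ((m4 _).2 h3))
      · exact Or.inl (Or.inl (ca c h3 (by omega)))
    · intro c _ _
      exact Or.inl (Or.inr ((m4 _).2 (by simp only; omega)))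
    · intro c h1 h2
      rw [min_eq_left (by omega)] at h1
      rw [max_eq_right (by omega)] at h2
      rcases lt_or_ge c b with h3 | h3
      · exact Or.inl (Or.inr ((m4 _).2 h3))
      · exact Or.inr (ca' c h3 (by omega))
  have h13 : Disjoint W1 W3 := by
    rw [Set.disjoint_left]
    intro v h1 h2
    rw [m1] at h1
    rw [m3] at h2
    omega
  have h24 : Disjoint W2 W4 := by
    rw [Set.disjoint_left]
    intro v h1 h2
    rw [m2] at h1
    rw [m4] at h2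
    omega
  rcases jan_walls (Par l r b t) W1 W2 W3 W4 (by
      intro v
      rw [mD, m1, m2, m3, m4]
      omega) (by
      rw [Set.disjoint_left]
      intro v h1 h2
      rw [mD] at h1
      rw [m1] at h2
      omega) (by
      rw [Set.disjoint_left]
      intro v h1 h2
      rw [mD] at h1
      rw [m2] at h2
      omega) (by
      rw [Set.disjoint_left]
      intro v h1 h2
      rw [mD] at h1
      rw [m3] at h2
      omega) (by
      rw [Set.disjoint_left]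
      intro v h1 h2
      rw [mD] at h1
      rw [m4] at h2
      omega) (by
      rw [Set.disjoint_left]
      intro v h1 h2
      rw [m1] at h1
      rw [m2] at h2
      omega) h13 (by
      rw [Set.disjoint_left]
      intro v h1 h2
      rw [m1] at h1
      rw [m4] at h2
      omega) (by
      rw [Set.disjoint_left]
      intro v h1 h2
      rw [m2] at h1
      rw [m3] at h2
      omega) h24 (by
      rw [Set.disjoint_left]
      intro v h1 h2
      rw [m3] at h1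
      rw [m4] at h2
      omega) (a, b) (a', b) (ca b le_rfl hbt) (ca' b le_rfl hbt) h123 h143 O with h | h
  · left
    obtain ⟨x, hx, y, hy, -, -, h1⟩ := h.between (ca b le_rfl hbt) (ca' b le_rfl hbt) h13
    rw [m1] at hx
    rw [m3] at hy
    rcases h1 with h1 | ⟨x', y', h2, h3, h4⟩
    · have := adjX h1
      omega
    · have e2 := adjX h2
      have e3 := adjX h3
      refine ⟨x', ?_, y', ?_, h4.mono ?_⟩
      · show x'.1 ≤ l
        omega
      · show r ≤ y'.1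
        omega
      · rintro v ⟨hv, hn⟩
        rcases hv with (hv | hv) | hv
        · exact ⟨hv.2, hv.1⟩
        · exact absurd (Or.inl hv) hn
        · exact absurd (Or.inr hv) hn
  · right
    obtain ⟨u, hu, v, hv, h⟩ := h
    obtain ⟨x, hx, y, hy, -, -, h1⟩ := h.between hu hv h24
    rw [m2] at hx
    rw [m4] at hy
    rcases h1 with h1 | ⟨x', y', h2, h3, h4⟩
    · have := adjX h1
      omega
    · have e2 := adjX h2
      have e3 := adjX h3
      refine ⟨y', ?_, x', ?_, (h4.mono ?_).symm⟩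
      · show y'.2 ≤ b
        omega
      · show t ≤ x'.2
        omega
      · rintro v ⟨hv, hn⟩
        rcases hv with (hv | hv) | hv
        · exact ⟨hv.2, hv.1⟩
        · exact absurd (Or.inl hv) hn
        · exact absurd (Or.inr hv) hn

theorem par_not (O : Set V) (hlr : l ≤ r) (hbt : b ≤ t) : ¬ (PH O l r b t ∧ PV Oᶜ l r b t) := by
  rintro ⟨⟨u, hu, u', hu', h⟩, w, hw, w', hw', h'⟩
  replace hu : u.1 ≤ l := hu
  replace hu' : r ≤ u'.1 := hu'
  replace hw : w.2 ≤ b := hw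
  replace hw' : t ≤ w'.2 := hw'
  have hd : Disjoint (O ∩ Par l r b t) (Oᶜ ∩ Par l r b t) := by
    rw [Set.disjoint_left]
    intro v h1 h2
    exact h2.1 h1.1
  refine no_LR hd h h' ?_ ?_ ?_ ?_
  · rintro x ⟨-, h1, h2, h3, h4⟩
    omega
  · rintro x ⟨-, h1, h2, h3, h4⟩
    omega
  · rintro y ⟨-, h1, h2, h3, h4⟩ he
    omega
  · rintro y ⟨-, h1, h2, h3, h4⟩ he
    omega

theorem hc_meet_vc (h : HC S l r b t) (h' : VC T l r b t) :
    ∃ z, Join (S ∩ Rec l r b t) {v | X v ≤ l + 1} {z} ∧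
      Join (S ∩ Rec l r b t) {v | r - 1 ≤ X v} {z} ∧
      Join (T ∩ Rec l r b t) {v | v.2 ≤ b} {z} ∧ Join (T ∩ Rec l r b t) {v | t ≤ v.2} {z} := by
  obtain ⟨u, hu, u', hu', h⟩ := h
  obtain ⟨w, hw, w', hw', h'⟩ := h'
  replace hu : X u ≤ l + 1 := hu
  replace hu' : r - 1 ≤ X u' := hu'
  replace hw : w.2 ≤ b := hw
  replace hw' : t ≤ w'.2 := hw'
  obtain ⟨z, h1, h2⟩ := meet h h' (by
    rintro x ⟨-, h1, h2, h3, h4⟩
    omega) (by
    rintro x ⟨-, h1, h2, h3, h4⟩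
    omega) (by
    rintro y ⟨-, h1, h2, h3, h4⟩ he
    unfold X at *
    omega) (by
    rintro y ⟨-, h1, h2, h3, h4⟩ he
    unfold X at *
    omega)
  exact ⟨z, ⟨u, hu, z, rfl, h1⟩, ⟨u', hu', z, rfl, h.symm.trans h1⟩, ⟨w, hw, z, rfl, h2⟩,
    ⟨w', hw', z, rfl, h'.symm.trans h2⟩⟩

theorem ph_meet_pv (h : PH S l r b t) (h' : PV T l r b t) :
    ∃ z, Join (S ∩ Par l r b t) {v | v.1 ≤ l} {z} ∧ Join (S ∩ Par l r b t) {v | r ≤ v.1} {z} ∧
      Join (T ∩ Par l r b t) {v | v.2 ≤ b} {z} ∧ Join (T ∩ Par l r b t) {v | t ≤ v.2} {z} := by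
  obtain ⟨u, hu, u', hu', h⟩ := h
  obtain ⟨w, hw, w', hw', h'⟩ := h'
  replace hu : u.1 ≤ l := hu
  replace hu' : r ≤ u'.1 := hu'
  replace hw : w.2 ≤ b := hw
  replace hw' : t ≤ w'.2 := hw'
  obtain ⟨z, h1, h2⟩ := meet h h' (by
    rintro x ⟨-, h1, h2, h3, h4⟩
    omega) (by
    rintro x ⟨-, h1, h2, h3, h4⟩
    omega) (by
    rintro y ⟨-, h1, h2, h3, h4⟩ he
    omega) (by
    rintro y ⟨-, h1, h2, h3, h4⟩ he
    omega)
  exact ⟨z, ⟨u, hu, z, rfl, h1⟩, ⟨u', hu', z, rfl, h.symm.trans h1⟩, ⟨w, hw, z, rfl, h2⟩,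
    ⟨w', hw', z, rfl, h'.symm.trans h2⟩⟩

theorem hc_mono (hST : S ⊆ T) (h : HC S l r b t) : HC T l r b t :=
  Join.mono h (Set.inter_subset_inter_left _ hST) subset_rfl subset_rfl

theorem vc_mono (hST : S ⊆ T) (h : VC S l r b t) : VC T l r b t :=
  Join.mono h (Set.inter_subset_inter_left _ hST) subset_rfl subset_rfl

theorem hc_of_conn {u v : V} (h : Conn (S ∩ {z | b ≤ z.2 ∧ z.2 ≤ t}) u v) (hu : X u ≤ l + 1)
    (hv : r - 1 ≤ X v) (hlr : l < r) : HC S l r b t := by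
  have one : ∀ z, z ∈ S ∩ {z : V | b ≤ z.2 ∧ z.2 ≤ t} → X z ≤ l + 1 → r - 1 ≤ X z →
      HC S l r b t := by
    intro z hz h1 h2
    exact ⟨z, h1, z, h2, Conn.refl ⟨hz.1, by omega, by omega, hz.2.1, hz.2.2⟩⟩
  by_cases hvl : X v ≤ l + 1
  · exact one v h.right hvl hv
  obtain ⟨x, y, hx, hy, hxy, h1, h2⟩ := h.last (A := {z | X z ≤ l + 1}) hu hvl
  replace hx : X x ≤ l + 1 := hx
  replace hy : ¬ X y ≤ l + 1 := hy
  have e1 := adjX hxy
  by_cases hxr : r - 1 ≤ X x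
  · exact one x h1.right hx hxr
  have hc : Conn ((S ∩ {z : V | b ≤ z.2 ∧ z.2 ≤ t}) ∩ {z | l ≤ X z}) x v := by
    have hxS : x ∈ (S ∩ {z : V | b ≤ z.2 ∧ z.2 ≤ t}) ∩ {z | l ≤ X z} :=
      ⟨h1.right, by show l ≤ X x; omega⟩
    have hyS : y ∈ (S ∩ {z : V | b ≤ z.2 ∧ z.2 ≤ t}) ∩ {z | l ≤ X z} :=
      ⟨h2.left.1, by show l ≤ X y; omega⟩
    refine (Conn.of_adj hxS hyS hxy).trans (h2.mono ?_)
    rintro z ⟨hz, hz'⟩
    replace hz' : ¬ X z ≤ l + 1 := hz'
    exact ⟨hz, by show l ≤ X z; omega⟩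
  obtain ⟨x₁, y₁, hx₁, hy₁, hxy₁, h3, h4⟩ := hc.exit (A := {z | X z ≤ r - 2})
    (by show X x ≤ r - 2; omega) (by show ¬ X v ≤ r - 2; omega)
  replace hx₁ : X x₁ ≤ r - 2 := hx₁
  replace hy₁ : ¬ X y₁ ≤ r - 2 := hy₁
  have e2 := adjX hxy₁
  have hy₁S := h4.left
  obtain ⟨⟨k1, k2, k3⟩, k4⟩ := hy₁S
  replace k4 : l ≤ X y₁ := k4
  obtain ⟨⟨⟨j1, j2, j3⟩, j4⟩, -⟩ := h3.right
  replace j4 : l ≤ X x₁ := j4
  refine ⟨x, hx, y₁, by show r - 1 ≤ X y₁; omega, Conn.trans (h3.mono ?_)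
    (Conn.of_adj ⟨j1, j4, by omega, j2, j3⟩ ⟨k1, k4, by omega, k2, k3⟩ hxy₁)⟩
  rintro z ⟨⟨⟨z1, z2, z3⟩, z4⟩, z5⟩
  replace z4 : l ≤ X z := z4
  replace z5 : X z ≤ r - 2 := z5
  exact ⟨z1, z4, by omega, z2, z3⟩

theorem vc_of_conn {u v : V} (h : Conn (S ∩ {z | l ≤ X z ∧ X z ≤ r}) u v) (hu : u.2 ≤ b)
    (hv : t ≤ v.2) (hbt : b ≤ t) : VC S l r b t := by
  have one : ∀ z, z ∈ S ∩ {z : V | l ≤ X z ∧ X z ≤ r} → z.2 ≤ b → t ≤ z.2 →
      VC S l r b t := by
    intro z hz h1 h2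
    exact ⟨z, h1, z, h2, Conn.refl ⟨hz.1, hz.2.1, hz.2.2, by omega, by omega⟩⟩
  by_cases hvl : v.2 ≤ b
  · exact one v h.right hvl hv
  obtain ⟨x, y, hx, hy, hxy, h1, h2⟩ := h.last (A := {z | z.2 ≤ b}) hu hvl
  replace hx : x.2 ≤ b := hx
  replace hy : ¬ y.2 ≤ b := hy
  have e1 := adjX hxy
  by_cases hxr : t ≤ x.2
  · exact one x h1.right hx hxr
  have hc : Conn ((S ∩ {z : V | l ≤ X z ∧ X z ≤ r}) ∩ {z | b ≤ z.2}) x v := by
    have hxS : x ∈ (S ∩ {z : V | l ≤ X z ∧ X z ≤ r}) ∩ {z | b ≤ z.2} :=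
      ⟨h1.right, by show b ≤ x.2; omega⟩
    have hyS : y ∈ (S ∩ {z : V | l ≤ X z ∧ X z ≤ r}) ∩ {z | b ≤ z.2} :=
      ⟨h2.left.1, by show b ≤ y.2; omega⟩
    refine (Conn.of_adj hxS hyS hxy).trans (h2.mono ?_)
    rintro z ⟨hz, hz'⟩
    replace hz' : ¬ z.2 ≤ b := hz'
    exact ⟨hz, by show b ≤ z.2; omega⟩
  obtain ⟨x₁, y₁, hx₁, hy₁, hxy₁, h3, h4⟩ := hc.exit (A := {z | z.2 ≤ t - 1})
    (by show x.2 ≤ t - 1; omega) (by show ¬ v.2 ≤ t - 1; omega)
  replace hx₁ : x₁.2 ≤ t - 1 := hx₁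
  replace hy₁ : ¬ y₁.2 ≤ t - 1 := hy₁
  have e2 := adjX hxy₁
  obtain ⟨⟨k1, k2, k3⟩, k4⟩ := h4.left
  replace k4 : b ≤ y₁.2 := k4
  obtain ⟨⟨⟨j1, j2, j3⟩, j4⟩, -⟩ := h3.right
  replace j4 : b ≤ x₁.2 := j4
  refine ⟨x, hx, y₁, by show t ≤ y₁.2; omega, Conn.trans (h3.mono ?_)
    (Conn.of_adj ⟨j1, j2, j3, j4, by omega⟩ ⟨k1, k2, k3, k4, by omega⟩ hxy₁)⟩
  rintro z ⟨⟨⟨z1, z2, z3⟩, z4⟩, z5⟩
  replace z4 : b ≤ z.2 := z4
  replace z5 : z.2 ≤ t - 1 := z5
  exact ⟨z1, z2, z3, z4, by omega⟩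

theorem hc_sub (hl : l ≤ l') (hr : r' ≤ r) (hlr : l' < r') (h : HC S l r b t) :
    HC S l' r' b t := by
  obtain ⟨u, hu, v, hv, h⟩ := h
  replace hu : X u ≤ l + 1 := hu
  replace hv : r - 1 ≤ X v := hv
  exact hc_of_conn (h.mono fun z hz => ⟨hz.1, hz.2.2.2⟩) (by omega) (by omega) hlr

theorem vc_sub (hb : b ≤ b') (ht : t' ≤ t) (hbt : b' ≤ t') (h : VC S l r b t) :
    VC S l r b' t' := by
  obtain ⟨u, hu, v, hv, h⟩ := h
  replace hu : u.2 ≤ b := hu
  replace hv : t ≤ v.2 := hv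
  exact vc_of_conn (h.mono fun z hz => ⟨hz.1, hz.2.1, hz.2.2.1⟩) (by omega) (by omega) hbt

theorem hc_wide (hb : b' ≤ b) (ht : t ≤ t') (h : HC S l r b t) : HC S l r b' t' := by
  refine Join.mono h ?_ subset_rfl subset_rfl
  rintro z ⟨hz, h1, h2, h3, h4⟩
  exact ⟨hz, h1, h2, by omega, by omega⟩

theorem vc_wide (hl : l' ≤ l) (hr : r ≤ r') (h : VC S l r b t) : VC S l' r' b t := by
  refine Join.mono h ?_ subset_rfl subset_rfl
  rintro z ⟨hz, h1, h2, h3, h4⟩
  exact ⟨hz, by omega, by omega, h3, h4⟩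

theorem hc_glue (h1 : l ≤ l') (h2 : l' < r) (h3 : r ≤ r') (hbt : b ≤ t) (h : HC S l r b t)
    (h' : HC S l' r' b t) (hv : VC S l' r b t) : HC S l r' b t := by
  obtain ⟨u, hu, u', hu', h⟩ := h
  obtain ⟨v, hv1, v', hv1', h'⟩ := h'
  obtain ⟨w, hw, w', hw', hv⟩ := hv
  replace hu : X u ≤ l + 1 := hu
  replace hu' : r - 1 ≤ X u' := hu'
  replace hv1 : X v ≤ l' + 1 := hv1
  replace hv1' : r' - 1 ≤ X v' := hv1'
  replace hw : w.2 ≤ b := hw
  replace hw' : t ≤ w'.2 := hw'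
  obtain ⟨z, k1, k2⟩ := meet h hv (by
    rintro x ⟨-, h1, h2, h3, h4⟩
    omega) (by
    rintro x ⟨-, h1, h2, h3, h4⟩
    omega) (by
    rintro y ⟨-, h1, h2, h3, h4⟩ he
    unfold X at *
    omega) (by
    rintro y ⟨-, h1, h2, h3, h4⟩ he
    unfold X at *
    omega)
  obtain ⟨z', k1', k2'⟩ := meet h' hv (by
    rintro x ⟨-, h1, h2, h3, h4⟩
    omega) (by
    rintro x ⟨-, h1, h2, h3, h4⟩
    omega) (by
    rintro y ⟨-, h1, h2, h3, h4⟩ he
    unfold X at *
    omega) (by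
    rintro y ⟨-, h1, h2, h3, h4⟩ he
    unfold X at *
    omega)
  have s1 : S ∩ Rec l r b t ⊆ S ∩ Rec l r' b t := by
    rintro x ⟨hx, x1, x2, x3, x4⟩
    exact ⟨hx, x1, by omega, x3, x4⟩
  have s2 : S ∩ Rec l' r' b t ⊆ S ∩ Rec l r' b t := by
    rintro x ⟨hx, x1, x2, x3, x4⟩
    exact ⟨hx, by omega, x2, x3, x4⟩
  have s3 : S ∩ Rec l' r b t ⊆ S ∩ Rec l r' b t := by
    rintro x ⟨hx, x1, x2, x3, x4⟩
    exact ⟨hx, by omega, by omega, x3, x4⟩
  refine ⟨u, hu, v', hv1', ?_⟩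
  exact (k1.mono s1).trans ((k2.symm.mono s3).trans ((k2'.mono s3).trans
    ((k1'.symm.mono s2).trans (h'.mono s2))))

/-- A left-right crossing of the rhombus crosses a rectangle. -/
theorem hc_of_ph {n : ℤ} (hn : 1 ≤ n) (h : PH S 0 n 0 n) : HC S n (2 * n) 0 n := by
  obtain ⟨u, hu, v, hv, h⟩ := h
  replace hu : u.1 ≤ 0 := hu
  replace hv : n ≤ v.1 := hv
  obtain ⟨-, u1, u2, u3, u4⟩ := h.left
  obtain ⟨-, v1, v2, v3, v4⟩ := h.right
  refine hc_of_conn (h.mono fun z hz => ⟨hz.1, hz.2.2.2⟩) ?_ ?_ (by omega)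
  · unfold X
    omega
  · unfold X
    omega

end Pool.Agent.TriPerc
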