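import Pool.Agent.TriPerc.FourD

/-!
# The ring of a square: sides, frames, cyclic order, first vertices

The ring of radius `q` round `0` has four sides, numbered counterclockwise `0` (bottom), `1` (right),
`2` (top), `3` (left); `pt k τ q` is the point of side `k` with counterclockwise coordinate `τ`:
`(τ, -q)`, `(q, τ)`, `(-τ, q)`, `(-q, -τ)`.  Its key is `2 q k + τ + q`.
`gf k` is a lattice automorphism which preserves `sn`, is an involution, and maps the side `k` to the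
bottom side: the identity, `v ↦ (-v.2, -v.1)`, `v ↦ -v`, `swp`; `sg k = 1, -1, 1, -1`;
`pt k τ q = gf k (sg k * τ, -q)`.
`Btw a b c`: the numbers `a, b, c` are pairwise different and in this cyclic order.

* `kq_pt`, `ring_pt`, `pt_gf`: unfold (`key`, four cases for `k`).
* `nrm_pt`: `nrm (pt k τ q - pt k τ' q') ≤ |τ - τ'| + |q - q'|`.
* `first_ex`: a nonempty set `C` of ring vertices (it is finite) and a ring vertex `e` not in `C`: there
  is `y ∈ C` such that no `v ∈ C` is strictly between `e` and `y` (minimize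
  `(kq v - kq e) mod (8 q)` over `C`; or: if some element of `C` has a key `> kq e` take the smallest
  such key, otherwise the smallest key).
* `ty_arc`: let `u, u'` be typed for `T`, `e, e'` typed for `Tᶜ`, keys interlaced; then every ring vertex
  `x` joined to `u` in `T ∩ SA 0 n m` is on the same side of `{e, e'}` as `u`:
  `Inter (kq x) (kq e) (kq u') (kq e')` up to renaming; we state it as: not
  (`Btw (kq e) (kq u) (kq e')` and `Btw (kq e') (kq x) (kq e)`) and the same with `e, e'` exchanged.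
  PROOF: `sep_box` with `A = T ∩ SA 0 n m` (contains `u ~ x`) and
  `B = (Tᶜ ∩ SA 0 n m) ∪ Sq 0 (n - 1)` (contains `e ~ 0 ~ e'`, `ty_center`).
* `four_first` (outer ring): from `Fr S 0 n m`, `1 ≤ n ≤ m`, one gets four ring vertices `y0, y1, y2, y3`
  with increasing keys, of alternating colours (`y0, y2` in `T`, `y1, y3` in `Tᶜ`, where `T = S` or
  `T = Sᶜ`), each typed, and for each `i` a ring vertex `e` typed for the other colour such that no
  ring vertex of the cluster of `y_i` is strictly between `e` and `y_i`.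
  PROOF.  `fr_alt` gives typed `p, p'` (for `S`), `q, q'` (for `Sᶜ`) with interlaced keys; cyclic order
  `p, q, p', q'`.  For `p` take the first vertex after `q'` of the set
  `C_p = {x ∈ Rg 0 m | Conn (S ∩ SA 0 n m) p x}`, for `p'` the first one of `C_p'` after `q`, for `q` the
  first one of `C_q` after `p`, for `q'` the first one of `C_q'` after `p'` (`first_ex`).  They are typed.
  By `ty_arc` the new `p` is in the arc from `q'` to `q` and the new `p'` in the arc from `q` to `q'`;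
  so the new `p, p'` are interlaced with the old `q, q'`; by `ty_arc` again (for the pair `q, q'` and
  the new `p, p'`) all four new vertices are interlaced.  Interlaced keys `a < b < a'` and (`b' < a` or
  `a' < b'`): sort them: `(p, q, p', q')` with `T = S`, or `(q', p, q, p')` with `T = Sᶜ`.
-/

namespace Pool.Agent.TriPerc

/-- The point of side `k` of the ring of radius `q` with counterclockwise coordinate `τ`. -/
def pt (k : ℕ) (τ q : ℤ) : V :=
  if k = 0 then (τ, -q) else if k = 1 then (q, τ) else if k = 2 then (-τ, q) else (-q, -τ)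

/-- The frame of side `k`. -/
def gf (k : ℕ) : V ≃ V :=
  if k = 0 then Equiv.refl V else if k = 1 then swp.trans neg else if k = 2 then neg else swp

/-- The orientation sign of side `k`. -/
def sg (k : ℕ) : ℤ := if k = 0 then 1 else if k = 1 then -1 else if k = 2 then 1 else -1

/-- Cyclic order. -/
def Btw (a b c : ℤ) : Prop := (a < b ∧ b < c) ∨ (b < c ∧ c < a) ∨ (c < a ∧ a < b)

/-- `y` is the first vertex after `e` of its `T`-cluster on the ring `Rg 0 q` (region `R`). -/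
def FirstAft (T R : Set V) (q : ℤ) (e y : V) : Prop :=
  ∀ v ∈ Rg 0 q, Conn (T ∩ R) y v → ¬ Btw (kq 0 q e) (kq 0 q v) (kq 0 q y)

variable {S T A B R : Set V} {u v x y e e' u' p p' : V} {n m q τ τ' q' : ℤ} {k : ℕ}

private theorem cases4 (hk : k < 4) : k = 0 ∨ k = 1 ∨ k = 2 ∨ k = 3 := by omega

private theorem gf0 (v : V) : gf 0 v = v := rfl

private theorem gf1 (v : V) : gf 1 v = (-v.2, -v.1) := rfl

private theorem gf2 (v : V) : gf 2 v = (-v.1, -v.2) := rfl

private theorem gf3 (v : V) : gf 3 v = (v.2, v.1) := rfl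

private theorem pt0 (τ q : ℤ) : pt 0 τ q = (τ, -q) := rfl

private theorem pt1 (τ q : ℤ) : pt 1 τ q = (q, τ) := rfl

private theorem pt2 (τ q : ℤ) : pt 2 τ q = (-τ, q) := rfl

private theorem pt3 (τ q : ℤ) : pt 3 τ q = (-q, -τ) := rfl

private theorem rg_mem (hv : v ∈ Rg 0 q) : max |v.1| |v.2| = q := by
  have h : sn (v - 0) = q := hv
  rw [sub_zero] at h
  exact h

private theorem rg_box (hv : v ∈ Rg 0 q) : -q ≤ v.1 ∧ v.1 ≤ q ∧ -q ≤ v.2 ∧ v.2 ≤ q ∧
    (v.1 = q ∨ v.1 = -q ∨ v.2 = q ∨ v.2 = -q) := by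
  have h := rg_mem hv
  have h1 : |v.1| ≤ q := h ▸ le_max_left _ _
  have h2 : |v.2| ≤ q := h ▸ le_max_right _ _
  rw [abs_le] at h1 h2
  refine ⟨h1.1, h1.2, h2.1, h2.2, ?_⟩
  rcases le_total |v.1| |v.2| with h3 | h3
  · rw [max_eq_right h3] at h
    rcases abs_choice v.2 with h4 | h4 <;> omega
  · rw [max_eq_left h3] at h
    rcases abs_choice v.1 with h4 | h4 <;> omega

theorem sg_cases (k : ℕ) : sg k = 1 ∨ sg k = -1 := by
  unfold sg
  split_ifs <;> simp

theorem pt_gf (hk : k < 4) (τ q : ℤ) : pt k τ q = gf k (sg k * τ, -q) := by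
  rcases cases4 hk with rfl | rfl | rfl | rfl
  · rw [pt0, gf0]
    ext <;> simp [sg]
  · rw [pt1, gf1]
    ext <;> simp [sg]
  · rw [pt2, gf2]
    ext <;> simp [sg]
  · rw [pt3, gf3]
    ext <;> simp [sg]

theorem gf_invol (hk : k < 4) (v : V) : gf k (gf k v) = v := by
  rcases cases4 hk with rfl | rfl | rfl | rfl
  · rw [gf0, gf0]
  · rw [gf1, gf1]
    ext <;> simp
  · rw [gf2, gf2]
    ext <;> simp
  · rw [gf3, gf3]

theorem gf_aut (hk : k < 4) : IsAut (gf k) := by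
  rcases cases4 hk with rfl | rfl | rfl | rfl
  · exact fun u v => Iff.rfl
  · exact isAut_swp.trans isAut_neg
  · exact isAut_neg
  · exact isAut_swp

theorem gf_sn (hk : k < 4) (x y : V) : sn (gf k x - gf k y) = sn (x - y) := by
  unfold sn
  rcases cases4 hk with rfl | rfl | rfl | rfl
  · rfl
  · rw [gf1, gf1]
    simp only [Prod.fst_sub, Prod.snd_sub]
    rw [max_comm]
    congr 1
    · rw [← abs_neg]
      congr 1
      ring
    · rw [← abs_neg]
      congr 1
      ring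
  · rw [gf2, gf2]
    simp only [Prod.fst_sub, Prod.snd_sub]
    congr 1
    · rw [← abs_neg]
      congr 1
      ring
    · rw [← abs_neg]
      congr 1
      ring
  · rw [gf3, gf3]
    simp only [Prod.fst_sub, Prod.snd_sub]
    rw [max_comm]

theorem gf_zero (hk : k < 4) : gf k 0 = 0 := by
  rcases cases4 hk with rfl | rfl | rfl | rfl <;> rfl

theorem gf_neg (hk : k < 4) (v : V) : gf k (-v) = - gf k v := by
  rcases cases4 hk with rfl | rfl | rfl | rfl <;> rfl

theorem gf_add (hk : k < 4) (v w : V) : gf k (v + w) = gf k v + gf k w := by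
  rcases cases4 hk with rfl | rfl | rfl | rfl
  · rfl
  · rw [gf1, gf1, gf1]
    ext
    · simp only [Prod.snd_add, Prod.fst_add]
      ring
    · simp only [Prod.snd_add, Prod.fst_add]
      ring
  · rw [gf2, gf2, gf2]
    ext
    · simp only [Prod.fst_add]
      ring
    · simp only [Prod.snd_add]
      ring
  · rfl

theorem gf_nrm (hk : k < 4) (v : V) : nrm (gf k v) = nrm v := by
  unfold nrm
  rcases cases4 hk with rfl | rfl | rfl | rfl
  · rfl
  · rw [gf1]
    simp only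
    rw [abs_neg, abs_neg, max_comm |v.2|, ← abs_neg (v.1 + v.2)]
    congr 2
    ring
  · rw [gf2]
    simp only
    rw [abs_neg, abs_neg, ← abs_neg (v.1 + v.2)]
    congr 2
    ring
  · rw [gf3]
    simp only
    rw [max_comm |v.2|, add_comm]

theorem sn_pt (hk : k < 4) (hτ : |τ| ≤ q) : sn (pt k τ q) = q := by
  have hq : 0 ≤ q := (abs_nonneg τ).trans hτ
  unfold sn
  rcases cases4 hk with rfl | rfl | rfl | rfl
  · rw [pt0]
    simp only
    rw [abs_neg, abs_of_nonneg hq, max_eq_right hτ]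
  · rw [pt1]
    simp only
    rw [abs_of_nonneg hq, max_eq_left hτ]
  · rw [pt2]
    simp only
    rw [abs_neg, abs_of_nonneg hq, max_eq_right hτ]
  · rw [pt3]
    simp only
    rw [abs_neg, abs_neg, abs_of_nonneg hq, max_eq_left hτ]

theorem kq_pt (hk : k < 4) (hτ : |τ| < q) : kq 0 q (pt k τ q) = 2 * q * k + τ + q := by
  rw [abs_lt] at hτ
  unfold kq key
  have e1 : (0 : V).1 = 0 := rfl
  have e2 : (0 : V).2 = 0 := rfl
  rw [e1, e2]
  rcases cases4 hk with rfl | rfl | rfl | rfl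
  · rw [pt0]
    simp only
    rw [if_pos (by omega)]
    push_cast
    ring
  · rw [pt1]
    simp only
    rw [if_neg (by omega), if_pos (by omega)]
    push_cast
    ring
  · rw [pt2]
    simp only
    rw [if_neg (by omega), if_neg (by omega), if_pos (by omega)]
    push_cast
    ring
  · rw [pt3]
    simp only
    rw [if_neg (by omega), if_neg (by omega), if_neg (by omega)]
    push_cast
    ring

theorem ring_pt (hq : 0 < q) (hv : v ∈ Rg 0 q) : ∃ k < 4, ∃ τ, |τ| ≤ q ∧ v = pt k τ q := by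
  obtain ⟨h1, h2, h3, h4, h5⟩ := rg_box hv
  rcases h5 with h5 | h5 | h5 | h5
  · refine ⟨1, by norm_num, v.2, abs_le.2 ⟨h3, h4⟩, ?_⟩
    rw [pt1, ← h5]
  · refine ⟨3, by norm_num, -v.2, abs_le.2 ⟨by omega, by omega⟩, ?_⟩
    rw [pt3, ← h5, neg_neg]
  · refine ⟨2, by norm_num, -v.1, abs_le.2 ⟨by omega, by omega⟩, ?_⟩
    rw [pt2, ← h5, neg_neg]
  · refine ⟨0, by norm_num, v.1, abs_le.2 ⟨h1, h2⟩, ?_⟩
    rw [pt0, ← h5]

theorem nrm_pt (hk : k < 4) (τ τ' q q' : ℤ) :
    nrm (pt k τ q - pt k τ' q') ≤ |τ - τ'| + |q - q'| := by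
  have a1 := abs_nonneg (τ - τ')
  have a2 := abs_nonneg (q - q')
  have a3 := abs_add_le (τ - τ') (q - q')
  have a4 := abs_sub (τ - τ') (q - q')
  unfold nrm
  rcases cases4 hk with rfl | rfl | rfl | rfl
  · rw [pt0, pt0]
    simp only [Prod.fst_sub, Prod.snd_sub]
    have e1 : |-q - -q'| = |q - q'| := by
      rw [← abs_neg]
      congr 1
      ring
    have e2 : |τ - τ' + (-q - -q')| = |τ - τ' - (q - q')| := by
      congr 1
      ring
    rw [e1, e2]
    exact max_le (max_le (by omega) (by omega)) a4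
  · rw [pt1, pt1]
    simp only [Prod.fst_sub, Prod.snd_sub]
    have e2 : |q - q' + (τ - τ')| = |τ - τ' + (q - q')| := by
      congr 1
      ring
    rw [e2]
    exact max_le (max_le (by omega) (by omega)) a3
  · rw [pt2, pt2]
    simp only [Prod.fst_sub, Prod.snd_sub]
    have e1 : |-τ - -τ'| = |τ - τ'| := by
      rw [← abs_neg]
      congr 1
      ring
    have e2 : |-τ - -τ' + (q - q')| = |τ - τ' - (q - q')| := by
      rw [← abs_neg]
      congr 1
      ring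
    rw [e1, e2]
    exact max_le (max_le (by omega) (by omega)) a4
  · rw [pt3, pt3]
    simp only [Prod.fst_sub, Prod.snd_sub]
    have e1 : |-τ - -τ'| = |τ - τ'| := by
      rw [← abs_neg]
      congr 1
      ring
    have e3 : |-q - -q'| = |q - q'| := by
      rw [← abs_neg]
      congr 1
      ring
    have e2 : |-q - -q' + (-τ - -τ')| = |τ - τ' + (q - q')| := by
      rw [← abs_neg]
      congr 1
      ring
    rw [e1, e2, e3]
    exact max_le (max_le (by omega) (by omega)) a3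

theorem kq_range (hq : 0 < q) (hv : v ∈ Rg 0 q) : 0 ≤ kq 0 q v ∧ kq 0 q v < 8 * q := by
  obtain ⟨h1, h2, h3, h4, h5⟩ := rg_box hv
  have e1 : (0 : V).1 = 0 := rfl
  have e2 : (0 : V).2 = 0 := rfl
  unfold kq key
  rw [e1, e2]
  split_ifs <;> omega

theorem first_ex (hq : 0 < q) {C : Set V} (hC : C ⊆ Rg 0 q) (hne : C.Nonempty) (he : e ∈ Rg 0 q)
    (heC : e ∉ C) : ∃ y ∈ C, ∀ v ∈ C, ¬ Btw (kq 0 q e) (kq 0 q v) (kq 0 q y) := by
  have hfin : C.Finite := (finite_sq 0 q).subset fun v hv => le_of_eq (hC hv)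
  obtain ⟨y, hy, h⟩ := Set.exists_min_image C (fun v => if kq 0 q v < kq 0 q e
    then kq 0 q v - kq 0 q e + 8 * q else kq 0 q v - kq 0 q e) hfin hne
  refine ⟨y, hy, fun v hv hb => ?_⟩
  have h1 := h v hv
  have r1 := kq_range hq (hC hv)
  have r2 := kq_range hq (hC hy)
  unfold Btw at hb
  split_ifs at h1 <;> omega

theorem ty_arc (hn : 1 ≤ n) (hnm : n ≤ m) (hu : Ty T 0 n m u) (he : Ty Tᶜ 0 n m e)
    (he' : Ty Tᶜ 0 n m e') (hx : x ∈ Rg 0 m) (hux : Conn (T ∩ SA 0 n m) u x)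
    (h : Btw (kq 0 m e) (kq 0 m u) (kq 0 m e')) :
    Btw (kq 0 m e) (kq 0 m x) (kq 0 m e') := by
  have hm : 0 < m := by omega
  have hxT : x ∈ T := hux.right.1
  have he1 : e ∉ T := by
    obtain ⟨-, w, y, -, -, hc⟩ := he
    exact hc.left.1
  have he1' : e' ∉ T := by
    obtain ⟨-, w, y, -, -, hc⟩ := he'
    exact hc.left.1
  have hd : Disjoint (T ∩ SA 0 n m) ((Tᶜ ∩ SA 0 n m) ∪ Sq 0 (n - 1)) := by
    rw [Set.disjoint_left]
    rintro w ⟨hw1, hw2⟩ (⟨hw3, -⟩ | hw3)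
    · exact hw3 hw1
    · have h1 : n ≤ sn (w - 0) := hw2.1
      have h2 : sn (w - 0) ≤ n - 1 := hw3
      omega
  have hB : Conn (((Tᶜ ∩ SA 0 n m) ∪ Sq 0 (n - 1)) ∩ Sq 0 m) e e' := by
    refine ((ty_center hn he).trans (ty_center hn he').symm).mono fun w hw => ⟨hw, ?_⟩
    rcases hw with hw | hw
    · exact hw.2.2
    · have h2 : sn (w - 0) ≤ n - 1 := hw
      show sn (w - 0) ≤ m
      omega
  have hA : Conn ((T ∩ SA 0 n m) ∩ Sq 0 m) u x :=
    hux.mono fun w hw => ⟨hw, hw.2.2⟩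
  have n1 : kq 0 m x ≠ kq 0 m e := by
    intro h1
    have h2 := kq_inj hm hx he.1 h1
    exact he1 (h2 ▸ hxT)
  have n2 : kq 0 m x ≠ kq 0 m e' := by
    intro h1
    have h2 := kq_inj hm hx he'.1 h1
    exact he1' (h2 ▸ hxT)
  have s1 := sep_box hm hd hx hu.1 he.1 he'.1 hA.symm hB
  have s2 := sep_box hm hd hu.1 hx he'.1 he.1 hA hB.symm
  unfold Inter at s1 s2
  unfold Btw at h ⊢
  omega

theorem four_first (hn : 1 ≤ n) (hnm : n ≤ m) (h : Fr S 0 n m) :
    ∃ T : Set V, (T = S ∨ T = Sᶜ) ∧ ∃ y0 y1 y2 y3 e0 e1 e2 e3 : V,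
      kq 0 m y0 < kq 0 m y1 ∧ kq 0 m y1 < kq 0 m y2 ∧ kq 0 m y2 < kq 0 m y3 ∧
      Ty T 0 n m y0 ∧ Ty Tᶜ 0 n m y1 ∧ Ty T 0 n m y2 ∧ Ty Tᶜ 0 n m y3 ∧
      Ty Tᶜ 0 n m e0 ∧ Ty T 0 n m e1 ∧ Ty Tᶜ 0 n m e2 ∧ Ty T 0 n m e3 ∧
      FirstAft T (SA 0 n m) m e0 y0 ∧ FirstAft Tᶜ (SA 0 n m) m e1 y1 ∧
      FirstAft T (SA 0 n m) m e2 y2 ∧ FirstAft Tᶜ (SA 0 n m) m e3 y3 := by
  have hm : 0 < m := by omega
  have first : ∀ {T : Set V} {u e : V}, Ty T 0 n m u → Ty Tᶜ 0 n m e →
      ∃ y, Ty T 0 n m y ∧ Conn (T ∩ SA 0 n m) u y ∧ FirstAft T (SA 0 n m) m e y := by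
    intro T u e hu he
    have hu2 := hu
    obtain ⟨hur, a, b, hb, hab, hc⟩ := hu
    have heT : e ∉ T := by
      obtain ⟨-, w, y, -, -, hc'⟩ := he
      exact hc'.left.1
    obtain ⟨y, ⟨hy1, hy2⟩, hy3⟩ := first_ex (e := e) hm
      (C := {x | x ∈ Rg 0 m ∧ Conn (T ∩ SA 0 n m) u x}) (fun x hx => hx.1)
      ⟨u, hur, Conn.refl hc.left⟩ he.1 (fun h1 => heT h1.2.right.1)
    refine ⟨y, ⟨hy1, a, b, hb, hab, hy2.symm.trans hc⟩, hy2, ?_⟩
    intro v hv1 hv2
    exact hy3 v ⟨hv1, hy2.trans hv2⟩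
  obtain ⟨p, q, p', q', hp, hp', hq, hq', hI⟩ := fr_alt hn hnm h
  have cp : Ty Sᶜᶜ 0 n m p := by rwa [compl_compl]
  have cp' : Ty Sᶜᶜ 0 n m p' := by rwa [compl_compl]
  obtain ⟨a, ha1, ha2, ha3⟩ := first hp hq'
  obtain ⟨b, hb1, hb2, hb3⟩ := first hq cp
  obtain ⟨c, hc1, hc2, hc3⟩ := first hp' hq
  obtain ⟨d, hd1, hd2, hd3⟩ := first hq' cp'
  have ca : Ty Sᶜᶜ 0 n m a := by rwa [compl_compl]
  have cc : Ty Sᶜᶜ 0 n m c := by rwa [compl_compl]
  have b1 : Btw (kq 0 m q') (kq 0 m p) (kq 0 m q) := by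
    unfold Inter at hI
    unfold Btw
    omega
  have b2 : Btw (kq 0 m q) (kq 0 m p') (kq 0 m q') := by
    unfold Inter at hI
    unfold Btw
    omega
  have b3 := ty_arc hn hnm hp hq' hq ha1.1 ha2 b1
  have b4 := ty_arc hn hnm hp' hq hq' hc1.1 hc2 b2
  have b5 : Btw (kq 0 m a) (kq 0 m q) (kq 0 m c) := by
    unfold Btw at b3 b4 ⊢
    omega
  have b6 : Btw (kq 0 m c) (kq 0 m q') (kq 0 m a) := by
    unfold Btw at b3 b4 ⊢
    omega
  have b7 := ty_arc hn hnm hq ca cc hb1.1 hb2 b5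
  have b8 := ty_arc hn hnm hq' cc ca hd1.1 hd2 b6
  have hcases : (kq 0 m a < kq 0 m b ∧ kq 0 m b < kq 0 m c ∧ kq 0 m c < kq 0 m d) ∨
      (kq 0 m b < kq 0 m c ∧ kq 0 m c < kq 0 m d ∧ kq 0 m d < kq 0 m a) ∨
      (kq 0 m c < kq 0 m d ∧ kq 0 m d < kq 0 m a ∧ kq 0 m a < kq 0 m b) ∨
      (kq 0 m d < kq 0 m a ∧ kq 0 m a < kq 0 m b ∧ kq 0 m b < kq 0 m c) := by
    unfold Btw at b7 b8
    omega
  rcases hcases with ⟨g1, g2, g3⟩ | ⟨g1, g2, g3⟩ | ⟨g1, g2, g3⟩ | ⟨g1, g2, g3⟩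
  · exact ⟨S, Or.inl rfl, a, b, c, d, q', p, q, p', g1, g2, g3, ha1, hb1, hc1, hd1, hq', hp,
      hq, hp', ha3, hb3, hc3, hd3⟩
  · refine ⟨Sᶜ, Or.inr rfl, b, c, d, a, p, q, p', q', g1, g2, g3, hb1, cc, hd1, ca, cp, hq,
      cp', hq', hb3, ?_, hd3, ?_⟩
    · rwa [compl_compl]
    · rwa [compl_compl]
  · exact ⟨S, Or.inl rfl, c, d, a, b, q, p', q', p, g1, g2, g3, hc1, hd1, ha1, hb1, hq, hp',
      hq', hp, hc3, hd3, ha3, hb3⟩
  · refine ⟨Sᶜ, Or.inr rfl, d, a, b, c, p', q', p, q, g1, g2, g3, hd1, ca, hb1, cc, cp', hq',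
      cp, hq, hd3, ?_, hb3, ?_⟩
    · rwa [compl_compl]
    · rwa [compl_compl]

end Pool.Agent.TriPerc
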