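import Pool.Agent.TriPerc.HarrisB
import Pool.Agent.TriPerc.Ring

/-!
# Four arms with prescribed regions; the generalized Harris inequality for them

`alt σ`: the alternating colours `σ, !σ, σ, !σ`.  `Sep4 a b a' b'`: the numbers `a, a'` separate `b, b'`
cyclically.  `Arms σ p R Γ`: there are four pairs of end vertices `z i` with `Γ z`, the pair number `i`
is joined by a path of colour `σ i` in the region `R i`.  `Inc τ B`: the event `B` becomes more likely
when there are more vertices of colour `τ`.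

* `sep_lt`: increasing numbers.  `sep_rot`: rotation.  `sep_inter`: from `Sep4 a b a' b'` one gets
  `Inter` after exchanging `a, a'` or `b, b'` if necessary.
* `fr_of_sep`: typed vertices of alternating colours with separated keys give `Fr`
  (`sep_inter`, `fr_of_alt`).
* `ev_arms`: `R i` finite; the event depends on the labels of `⋃ R i`: it is
  `{w | ∃ z, Γ z ∧ ∀ i, ...}` where `z` ranges over a countable set; for fixed `z` use `ev_co`.
* `inc_co`: monotone in the set (`co_mono`).  `inc_harris`: `harris_low_fin` or `harris_up_fin`.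
* `arms_mono`: if `w'` has the same labels as `w` outside `D i`, if `D i` is disjoint from all `R j`,
  `j ≠ i`, and `Co (σ i) p w ⊆ Co (σ i) p w'`, then `w ∈ Arms` implies `w' ∈ Arms` (same `z`).
* `arms_harris`: let the finite sets `D i` be pairwise disjoint and disjoint from `R j`, `R' j` for
  `j ≠ i`; let `B i` be an event of `D i` with `Inc (σ i)`.  Then
  `P (A ∩ A') ∏ P (B i) ≤ P (A ∩ A' ∩ ⋂ B i)` for `A = Arms σ p R Γ`, `A' = Arms σ p R' Γ'`.
  PROOF.  `harris_two` with `s1` the union of the `D i` with `σ i = true`, `s2` the union of those with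
  `σ i = false`, `B1 = ⋂ B i` over `σ i = true`, `B2 = ⋂ B i` over `σ i = false`.  `MM s1 s2 (A ∩ A')`:
  change the labels on `D 0, D 1, D 2, D 3` one after the other and apply `arms_mono` each time
  (for `i` with `σ i = true` the labels in `D i` decrease, so `Co true` increases).
  `P B1 = ∏ P (B i)` by independence (`indep_iInter` with `B i` replaced by `univ` for the other
  indices), so the product of all is `P B1 * P B2`.
* `arms_harris1`: the same for one family of arms (take `R' = fun _ => ∅`... or repeat the proof).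
-/

namespace Pool.Agent.TriPerc

open MeasureTheory

/-- Alternating colours. -/
def alt (σ : Bool) (i : Fin 4) : Bool := if i = 0 ∨ i = 2 then σ else !σ

/-- The numbers `a, a'` separate `b, b'` cyclically. -/
def Sep4 (a b a' b' : ℤ) : Prop := (Btw a b a' ∧ Btw a' b' a) ∨ (Btw a b' a' ∧ Btw a' b a)

/-- Four arms of the colours `σ i` in the regions `R i` with end vertices in the relation `Γ`. -/
def Arms (σ : Fin 4 → Bool) (p : ℝ) (R : Fin 4 → Set V) (Γ : (Fin 4 → V × V) → Prop) :
    Set Lab :=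
  {w | ∃ z, Γ z ∧ ∀ i, Conn (Co (σ i) p w ∩ R i) (z i).1 (z i).2}

/-- Increasing in the colour `τ`. -/
def Inc (τ : Bool) (B : Set Lab) : Prop := if τ then IsLowerSet B else IsUpperSet B

variable {S : Set V} {z0 y0 y1 y2 y3 : V} {n m a b a' b' : ℤ} {p : ℝ} {σ : Fin 4 → Bool}
  {τ : Bool} {R R' D : Fin 4 → Set V} {Γ Γ' : (Fin 4 → V × V) → Prop}

theorem sep_lt (h1 : a < b) (h2 : b < a') (h3 : a' < b') : Sep4 a b a' b' := by
  unfold Sep4 Btw
  omega

theorem sep_rot (h : Sep4 a b a' b') : Sep4 b a' b' a := by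
  unfold Sep4 Btw at *
  rcases h with ⟨h1 | h1 | h1, h2 | h2 | h2⟩ | ⟨h1 | h1 | h1, h2 | h2 | h2⟩ <;>
    first
      | (exfalso; omega)
      | exact Or.inl ⟨Or.inl (by omega), Or.inr (by omega)⟩
      | omega

theorem sep_inter (h : Sep4 a b a' b') :
    Inter a b a' b' ∨ Inter a b' a' b ∨ Inter a' b a b' ∨ Inter a' b' a b := by
  unfold Sep4 Btw at h
  unfold Inter
  omega

theorem fr_of_sep (hn : 1 ≤ n) (hnm : n ≤ m) (h0 : Ty S z0 n m y0) (h1 : Ty Sᶜ z0 n m y1)
    (h2 : Ty S z0 n m y2) (h3 : Ty Sᶜ z0 n m y3)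
    (h : Sep4 (kq z0 m y0) (kq z0 m y1) (kq z0 m y2) (kq z0 m y3)) : Fr S z0 n m := by
  rcases sep_inter h with h | h | h | h
  · exact ⟨y0, y2, h0, h2, (fr_of_alt hn hnm h0 h2 h1 h3 h).1⟩
  · exact ⟨y0, y2, h0, h2, (fr_of_alt hn hnm h0 h2 h3 h1 h).1⟩
  · exact ⟨y2, y0, h2, h0, (fr_of_alt hn hnm h2 h0 h1 h3 h).1⟩
  · exact ⟨y2, y0, h2, h0, (fr_of_alt hn hnm h2 h0 h3 h1 h).1⟩

theorem alt_not (σ : Bool) (i : Fin 4) : alt (!σ) i = !(alt σ i) := by
  unfold alt
  split_ifs <;> rfl

theorem ev_arms (hR : ∀ i, (R i).Finite) : Ev (⋃ i, R i) (Arms σ p R Γ) := by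
  have e : Arms σ p R Γ = ⋃ z : {z : Fin 4 → V × V // Γ z}, ⋂ i : Fin 4,
      {w : Lab | Conn (Co (σ i) p w ∩ R i) (z.1 i).1 (z.1 i).2} := by
    ext w
    simp only [Arms, Set.mem_ofPred_eq, Set.mem_iUnion, Set.mem_iInter, Subtype.exists,
      exists_prop]
  rw [e]
  refine Ev.iUnion fun z => Ev.iInter fun i => ?_
  exact (ev_co (hR i) (σ i) p fun T => Conn T (z.1 i).1 (z.1 i).2).mono
    (Set.subset_iUnion R i)

theorem arms_mono_gam (h : ∀ z, Γ z → Γ' z) (hR : ∀ i, R i ⊆ R' i) :
    Arms σ p R Γ ⊆ Arms σ p R' Γ' := by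
  rintro w ⟨z, hz, h1⟩
  exact ⟨z, h z hz, fun i => (h1 i).mono fun v hv => ⟨hv.1, hR i hv.2⟩⟩

theorem inc_co (τ : Bool) (p : ℝ) (Q : Set V → Prop) (hQ : ∀ S T, S ⊆ T → Q S → Q T) :
    Inc τ {w | Q (Co τ p w)} := by
  cases τ
  · intro w w' h hw
    refine hQ _ _ (co_mono false p fun v => ?_) hw
    simpa using h v
  · intro w w' h hw
    refine hQ _ _ (co_mono true p fun v => ?_) hw
    simpa using h v

theorem inc_inter {A B : Set Lab} (hA : Inc τ A) (hB : Inc τ B) : Inc τ (A ∩ B) := by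
  cases τ
  · exact IsUpperSet.inter hA hB
  · exact IsLowerSet.inter hA hB

theorem inc_harris {s : Set V} (hs : s.Finite) {n : ℕ} {B : Fin n → Set Lab}
    (eB : ∀ i, Ev s (B i)) (mB : ∀ i, Inc τ (B i)) : ∏ i, P (B i) ≤ P (⋂ i, B i) := by
  cases τ
  · exact harris_up_fin hs eB mB
  · exact harris_low_fin hs eB mB

theorem inc_harris2 {s : Set V} (hs : s.Finite) {A B : Set Lab} (eA : Ev s A) (eB : Ev s B)
    (mA : Inc τ A) (mB : Inc τ B) : P A * P B ≤ P (A ∩ B) := by
  cases τ
  · exact harris_up hs eA eB mA mB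
  · exact harris_low hs eA eB mA mB

private theorem co_at {τ : Bool} {p : ℝ} {w w' : Lab} {v : V} (h : w v = w' v) :
    v ∈ Co τ p w ↔ v ∈ Co τ p w' := by
  cases τ
  · change p < w v ↔ p < w' v
    rw [h]
  · change w v ≤ p ↔ w' v ≤ p
    rw [h]

theorem arms_mono (i : Fin 4) (hDR : ∀ j, i ≠ j → Disjoint (D i) (R j)) {w w' : Lab}
    (h : ∀ v, v ∉ D i → w v = w' v) (hc : Co (σ i) p w ⊆ Co (σ i) p w')
    (hw : w ∈ Arms σ p R Γ) : w' ∈ Arms σ p R Γ := by
  obtain ⟨z, hz, h1⟩ := hw
  refine ⟨z, hz, fun j => (h1 j).mono fun v hv => ⟨?_, hv.2⟩⟩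
  by_cases hij : i = j
  · subst hij
    exact hc hv.1
  · have h2 : v ∉ D i := fun h3 => Set.disjoint_left.1 (hDR j hij) h3 hv.2
    exact (co_at (h v h2)).1 hv.1

private theorem arms_mm {s1 s2 : Set V}
    (m1' : ∀ v, v ∈ s1 → ∃ i, σ i = true ∧ v ∈ D i)
    (m2' : ∀ v, v ∈ s2 → ∃ i, σ i = false ∧ v ∈ D i)
    (hDR : ∀ i j, i ≠ j → Disjoint (D i) (R j)) : MM s1 s2 (Arms σ p R Γ) := by
  rintro w w' h h1 h2 ⟨z, hz, hc⟩
  refine ⟨z, hz, fun i => (hc i).mono fun v hv => ⟨?_, hv.2⟩⟩
  by_cases hv1 : v ∈ s1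
  · obtain ⟨j, hj, hvj⟩ := m1' v hv1
    have hji : j = i := by
      by_contra hne
      exact Set.disjoint_left.1 (hDR j i hne) hvj hv.2
    subst hji
    have h3 := h1 v hv1
    have h4 := hv.1
    rw [hj] at h4 ⊢
    exact le_trans h3 h4
  · by_cases hv2 : v ∈ s2
    · obtain ⟨j, hj, hvj⟩ := m2' v hv2
      have hji : j = i := by
        by_contra hne
        exact Set.disjoint_left.1 (hDR j i hne) hvj hv.2
      subst hji
      have h3 := h2 v hv2
      have h4 := hv.1
      rw [hj] at h4 ⊢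
      exact lt_of_lt_of_le h4 h3
    · exact (co_at (h v hv1 hv2)).1 hv.1

theorem arms_harris (hR : ∀ i, (R i).Finite) (hR' : ∀ i, (R' i).Finite)
    (hD : ∀ i, (D i).Finite) (hd : ∀ i j, i ≠ j → Disjoint (D i) (D j))
    (hDR : ∀ i j, i ≠ j → Disjoint (D i) (R j)) (hDR' : ∀ i j, i ≠ j → Disjoint (D i) (R' j))
    {B : Fin 4 → Set Lab} (eB : ∀ i, Ev (D i) (B i)) (mB : ∀ i, Inc (σ i) (B i)) :
    P (Arms σ p R Γ ∩ Arms σ p R' Γ') * ∏ i, P (B i) ≤
      P (Arms σ p R Γ ∩ Arms σ p R' Γ' ∩ ⋂ i, B i) := by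
  classical
  have mem1 : ∀ v, v ∈ (⋃ i, if σ i = true then D i else ∅) ↔ ∃ i, σ i = true ∧ v ∈ D i := by
    intro v
    simp only [Set.mem_iUnion]
    refine exists_congr fun i => ?_
    by_cases hi : σ i = true <;> simp [hi]
  have mem2 : ∀ v, v ∈ (⋃ i, if σ i = true then ∅ else D i) ↔ ∃ i, σ i = false ∧ v ∈ D i := by
    intro v
    simp only [Set.mem_iUnion]
    refine exists_congr fun i => ?_
    by_cases hi : σ i = true <;> simp [hi]
  have f1 : (⋃ i, if σ i = true then D i else ∅).Finite := by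
    refine Set.finite_iUnion fun i => ?_
    by_cases hi : σ i = true
    · simp only [hi, if_true]
      exact hD i
    · rw [if_neg hi]
      exact Set.finite_empty
  have f2 : (⋃ i, if σ i = true then ∅ else D i).Finite := by
    refine Set.finite_iUnion fun i => ?_
    by_cases hi : σ i = true
    · simp only [hi, if_true]
      exact Set.finite_empty
    · rw [if_neg hi]
      exact hD i
  have d12 : Disjoint (⋃ i, if σ i = true then D i else ∅)
      (⋃ i, if σ i = true then ∅ else D i) := by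
    refine Set.disjoint_left.2 fun v h1 h2 => ?_
    obtain ⟨i, hi, hvi⟩ := (mem1 v).1 h1
    obtain ⟨j, hj, hvj⟩ := (mem2 v).1 h2
    have hij : i ≠ j := by
      rintro rfl
      rw [hi] at hj
      exact Bool.noConfusion hj
    exact Set.disjoint_left.1 (hd i j hij) hvi hvj
  have mA : MM (⋃ i, if σ i = true then D i else ∅) (⋃ i, if σ i = true then ∅ else D i)
      (Arms σ p R Γ ∩ Arms σ p R' Γ') := by
    refine MM.inter ?_ ?_
    · exact arms_mm (fun v h => (mem1 v).1 h) (fun v h => (mem2 v).1 h) hDR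
    · exact arms_mm (fun v h => (mem1 v).1 h) (fun v h => (mem2 v).1 h) hDR'
  have eA : Ev ((⋃ i, R i) ∪ ⋃ i, R' i) (Arms σ p R Γ ∩ Arms σ p R' Γ') :=
    ((ev_arms hR).mono Set.subset_union_left).inter
      ((ev_arms hR').mono Set.subset_union_right)
  have fs : ((⋃ i, R i) ∪ ⋃ i, R' i).Finite :=
    (Set.finite_iUnion hR).union (Set.finite_iUnion hR')
  have eB1' : ∀ i, Ev (D i) (if σ i = true then B i else Set.univ) := by
    intro i
    split_ifs
    · exact eB i
    · exact ev_univ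
  have eB2' : ∀ i, Ev (D i) (if σ i = true then Set.univ else B i) := by
    intro i
    split_ifs
    · exact ev_univ
    · exact eB i
  have eB1 : Ev (⋃ i, if σ i = true then D i else ∅)
      (⋂ i, if σ i = true then B i else Set.univ) := by
    refine Ev.iInter fun i => ?_
    by_cases hi : σ i = true
    · simp only [hi, if_true]
      exact (eB i).mono fun v hv => (mem1 v).2 ⟨i, hi, hv⟩
    · rw [if_neg hi]
      exact ev_univ
  have eB2 : Ev (⋃ i, if σ i = true then ∅ else D i)
      (⋂ i, if σ i = true then Set.univ else B i) := by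
    refine Ev.iInter fun i => ?_
    by_cases hi : σ i = true
    · simp only [hi, if_true]
      exact ev_univ
    · rw [if_neg hi]
      exact (eB i).mono fun v hv => (mem2 v).2 ⟨i, Bool.eq_false_of_not_eq_true hi, hv⟩
  have lB1 : IsLowerSet (⋂ i, if σ i = true then B i else Set.univ) := by
    refine isLowerSet_iInter fun i => ?_
    have h1 := mB i
    unfold Inc at h1
    by_cases hi : σ i = true
    · simp only [hi, if_true] at h1 ⊢
      exact h1
    · rw [if_neg hi]
      exact isLowerSet_univ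
  have uB2 : IsUpperSet (⋂ i, if σ i = true then Set.univ else B i) := by
    refine isUpperSet_iInter fun i => ?_
    have h1 := mB i
    unfold Inc at h1
    by_cases hi : σ i = true
    · simp only [hi, if_true]
      exact isUpperSet_univ
    · rw [if_neg hi] at h1 ⊢
      exact h1
  have key := harris_two fs f1 f2 d12 eA mA eB1 lB1 eB2 uB2
  have e1 : P (⋂ i, if σ i = true then B i else Set.univ) *
      P (⋂ i, if σ i = true then Set.univ else B i) = ∏ i, P (B i) := by
    rw [indep_iInter eB1' hd, indep_iInter eB2' hd, ← Finset.prod_mul_distrib]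
    refine Finset.prod_congr rfl fun i _ => ?_
    by_cases hi : σ i = true
    · simp only [hi, if_true, measure_univ, mul_one]
    · rw [if_neg hi, if_neg hi, measure_univ, one_mul]
  have e2 : ((⋂ i, if σ i = true then B i else Set.univ) ∩
      ⋂ i, if σ i = true then Set.univ else B i) = ⋂ i, B i := by
    rw [← Set.iInter_inter_distrib]
    refine Set.iInter_congr fun i => ?_
    by_cases hi : σ i = true
    · simp only [hi, if_true, Set.inter_univ]
    · rw [if_neg hi, if_neg hi, Set.univ_inter]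
  rw [mul_assoc, e1, e2] at key
  exact key

theorem arms_harris1 (hR : ∀ i, (R i).Finite) (hD : ∀ i, (D i).Finite)
    (hd : ∀ i j, i ≠ j → Disjoint (D i) (D j)) (hDR : ∀ i j, i ≠ j → Disjoint (D i) (R j))
    {B : Fin 4 → Set Lab} (eB : ∀ i, Ev (D i) (B i)) (mB : ∀ i, Inc (σ i) (B i)) :
    P (Arms σ p R Γ) * ∏ i, P (B i) ≤ P (Arms σ p R Γ ∩ ⋂ i, B i) := by
  have h1 := arms_harris (Γ := Γ) (Γ' := Γ) (p := p) hR hR hD hd hDR hDR eB mB
  rwa [Set.inter_self] at h1

end Pool.Agent.TriPerc
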