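import Pool.Agent.TriPerc.LandA

/-!
# The bad event of a ring: support and probability

* `ev_badR`: with `q = 2 M u`, `h = 8 G u`, `g = G u`, `d = D u` and the scales `scl u κ` the event `BadR`
  depends on the labels of `SA 0 (q - q / 4) (q + q / 4)` only.  PROOF: `ev_of_fin` with `L = {p}`; the boxes
  are in `|sn - q| ≤ h ≤ q / 4` (`gg_box`), the squares `Sq (a, b) (16 k)` of `Fnc` in
  `|sn - q| ≤ 16 k ≤ 4 * 4 ^ κ * u ≤ q / 4`, and the annuli `Ann e (4 h) (q / 4)` in `sn (v - e) ≤ q / 4`.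
* `badR_prob`: for every `δ > 0` the constants can be chosen so that the probability is at most `δ`,
  for both `ε` and all `u ≥ 1` with `2 M u ≤ N`.
  PROOF.  Let `C, α` be the constants of `one_arm_up`.  Choose in this order: `l ≥ 6` with
  `8 C (64 / 2 ^ l) ^ α ≤ δ / 2`; `ε' = δ / (8 (4 * 2 ^ l + 1))`; `κ, Θ` by `badL_prob` for `ε'`; `D` a power
  of `2` with `100 * 4 ^ κ + 100 ≤ D`; `G` a power of `2` with `Θ D ≤ G`; `M = 2 ^ l G`.
  Corners: `4 h = 32 G u`, `q / 4 = M u / 2`, the ratio is `64 G / M = 64 / 2 ^ l`; there are `4` corners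
  and `2` colours; `4 h ≥ 1`, `q / 4 ≤ N`.
  Boxes: for each of the `4` sides there are at most `2 (q / g) + 1 = 4 M / G + 1` multiples `x` of `g`
  with `|x| ≤ q`; each has probability `≤ ε'` (`prob_frame`, `badL_prob`, `ε * sg k = ± 1`).
  So the sum is at most `δ / 2 + 4 (4 * 2 ^ l + 1) ε' ≤ δ`.
-/

namespace Pool.Agent.TriPerc

open MeasureTheory

variable {ε u G D M : ℤ} {κ : ℕ} {p : ℝ}

private theorem bp_snsub (u v : V) : |sn u - sn v| ≤ sn (u - v) := by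
  have h1 := sn_add (u - v) v
  have h2 := sn_add (v - u) u
  rw [sub_add_cancel] at h1 h2
  have h3 : sn (v - u) = sn (u - v) := by rw [← sn_neg, neg_sub]
  rw [abs_le]
  constructor <;> omega

private theorem fst_congr {s l r b t a : ℤ} {T T' : Set V}
    (h : T ∩ Par l r b t = T' ∩ Par l r b t) : Fst s T l r b t a ↔ Fst s T' l r b t a := by
  unfold Fst
  rw [h]

private theorem fnc_congr {l r b t a k : ℤ} {T T' : Set V}
    (h : T ∩ (Par l r b t ∪ Sq (a, b) (16 * k)) = T' ∩ (Par l r b t ∪ Sq (a, b) (16 * k))) :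
    Fnc T l r b t a k ↔ Fnc T' l r b t a k := by
  unfold Fnc
  rw [h]

/-- `BadL` depends on the colours in `F` only. -/
private theorem badL_congr {s x b h d : ℤ} {ks : Finset ℤ} {w w' : Lab} (F : Set V)
    (h1 : Par (x - h) (x + h) b (b + h) ⊆ F)
    (h2 : ∀ a, 4 * |a - x| ≤ h → ∀ k ∈ ks, Sq (a, b) (16 * k) ⊆ F)
    (hw : ∀ σ, Co σ p w ∩ F = Co σ p w' ∩ F) (hB : w ∈ BadL s p x b h d ks) :
    w' ∈ BadL s p x b h d ks := by
  have key : ∀ (σ : Bool) {G : Set V}, G ⊆ F → Co σ p w ∩ G = Co σ p w' ∩ G := by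
    intro σ G hG
    have e : ∀ S : Set V, S ∩ G = S ∩ F ∩ G := fun S => by
      rw [Set.inter_assoc, Set.inter_eq_right.2 hG]
    rw [e, hw σ, ← e]
  obtain ⟨a, ha, σ, hF, hC⟩ := hB
  refine ⟨a, ha, σ, (fst_congr (key σ h1)).1 hF, ?_⟩
  rcases hC with hC | ⟨a', σ', c1, c2, c3, c4⟩
  · left
    intro k hk hf
    exact hC k hk ((fnc_congr (key σ (Set.union_subset h1 (h2 a ha k hk)))).2 hf)
  · right
    exact ⟨a', σ', c1, c2, c3, (fst_congr (key σ' h1)).1 c4⟩

private theorem co_of_op {w w' : Lab} {F : Set V} (h : Op p w ∩ F = Op p w' ∩ F) (σ : Bool) :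
    Co σ p w ∩ F = Co σ p w' ∩ F := by
  cases σ
  · have e : ∀ w : Lab, Co false p w = (Op p w)ᶜ := fun w => co_not true p w
    rw [e, e]
    ext v
    have h1 := Set.ext_iff.1 h v
    simp only [Set.mem_inter_iff, Set.mem_compl_iff] at h1 ⊢
    by_cases hv : v ∈ F
    · simp only [hv, and_true] at h1 ⊢
      rw [h1]
    · simp only [hv, and_false]
  · exact h

private theorem meas_badL (s x b h d : ℤ) (ks : Finset ℤ) (p : ℝ) :
    MeasurableSet (BadL s p x b h d ks) := by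
  have hfin : (Par (x - h) (x + h) b (b + h) ∪ ⋃ k ∈ ks, ⋃ a ∈ Finset.Icc (x - h) (x + h),
      Sq (a, b) (16 * k)).Finite :=
    (finite_par _ _ _ _).union (Set.Finite.biUnion ks.finite_toSet fun k _ =>
      Set.Finite.biUnion (Finset.Icc (x - h) (x + h)).finite_toSet fun a _ => finite_sq _ _)
  refine (ev_of_fin hfin {p} fun w w' hww hw =>
    badL_congr _ Set.subset_union_left (fun a ha k hk => ?_)
      (co_of_op (hww p (Finset.mem_singleton_self p))) hw).1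
  have h1 := abs_le.1 (show |a - x| ≤ h / 4 by omega)
  have h2 := abs_nonneg (a - x)
  refine Set.subset_union_of_subset_right ?_ _
  refine Set.subset_biUnion_of_mem (u := fun k => ⋃ a ∈ Finset.Icc (x - h) (x + h),
    Sq (a, b) (16 * k)) hk |>.trans' ?_
  exact Set.subset_biUnion_of_mem (u := fun a => Sq (a, b) (16 * k))
    (Finset.mem_Icc.2 ⟨by omega, by omega⟩)

private theorem bp_num (hP : Prm κ G D M) (hu : 1 ≤ u) : 1 ≤ G * u ∧ 128 * (G * u) ≤ 2 * M * u ∧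
    ∀ i < κ, 64 * (16 * (4 ^ i * u)) ≤ 2 * M * u := by
  obtain ⟨h1, h2, h3, -⟩ := hP
  have h4 : (1 : ℤ) ≤ 4 ^ κ := one_le_pow₀ (by norm_num)
  have h5 : G ≤ G * u := le_mul_of_one_le_right (by omega) hu
  have h6 : 64 * (G * u) ≤ M * u := by
    have := mul_le_mul_of_nonneg_right h3 (by omega : 0 ≤ u)
    linarith
  have h7 : 2 * M * u = 2 * (M * u) := by ring
  refine ⟨by omega, by omega, fun i hi => ?_⟩
  have h8 : (4 : ℤ) ^ i ≤ 4 ^ κ := pow_le_pow_right₀ (by norm_num) hi.le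
  have h9 : 100 * (4 ^ i * u) ≤ G * u := by
    have h10 : 100 * (4 : ℤ) ^ i ≤ G := by omega
    have := mul_le_mul_of_nonneg_right h10 (by omega : 0 ≤ u)
    linarith
  have h11 : 0 ≤ (4 : ℤ) ^ i * u := by positivity
  omega

private theorem bp_sn0 {k : ℕ} (hk : k < 4) (v : V) : sn (gg ε k v) = sn v := by
  have h := gg_sn (ε := ε) hk v 0
  rwa [gg_zero hk, sub_zero, sub_zero] at h

theorem ev_badR (hε : ε = 1 ∨ ε = -1) (hP : Prm κ G D M) (hu : 1 ≤ u) (p : ℝ) :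
    Ev (SA 0 (2 * M * u - 2 * M * u / 4) (2 * M * u + 2 * M * u / 4))
      (BadR ε p (2 * M * u) (8 * (G * u)) (G * u) (D * u) (scl u κ)) := by
  obtain ⟨hG, hM, hi⟩ := bp_num hP hu
  generalize G * u = g at *
  generalize 2 * M * u = q at *
  refine ev_of_fin (finite_sa _ _ _) {p} fun w w' hww hw => ?_
  have hco := co_of_op (hww p (Finset.mem_singleton_self p))
  rcases hw with ⟨k, hk, x, hgx, hxq, hB⟩ | ⟨e, he1, he2, σ, hA⟩
  · left
    have hx1 := le_abs_self x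
    have hx2 := neg_abs_le x
    refine ⟨k, hk, x, hgx, hxq, badL_congr
      (gg ε k ⁻¹' SA 0 (q - q / 4) (q + q / 4)) ?_ ?_ ?_ hB⟩
    · intro v hv
      have h1 := gg_box hε hk (by omega) (by omega) hxq hv
      change q - q / 4 ≤ sn (gg ε k v - 0) ∧ sn (gg ε k v - 0) ≤ q + q / 4
      rw [sub_zero]
      rcases hε with rfl | rfl <;> omega
    · intro a ha k' hk' v hv
      obtain ⟨i, hi1, rfl⟩ := Finset.mem_image.1 hk'
      have h2 := hi i (Finset.mem_range.1 hi1)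
      have hv' : sn (v - (a, -(ε * q))) ≤ 16 * (4 ^ i * u) := hv
      have h3 := abs_le.1 (show |a - x| ≤ 8 * g / 4 by omega)
      have h4 : |a| ≤ q := abs_le.2 ⟨by omega, by omega⟩
      have h5 : sn ((a, -(ε * q)) : V) = q := by
        have h6 : |(-(ε * q) : ℤ)| = q := by
          rcases hε with rfl | rfl
          · rw [one_mul, abs_neg, abs_of_pos (by omega)]
          · rw [neg_mul, one_mul, neg_neg, abs_of_pos (by omega)]
        change max |a| |(-(ε * q) : ℤ)| = q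
        rw [h6]
        exact max_eq_right h4
      have h7 := abs_le.1 (bp_snsub v (a, -(ε * q)))
      rw [h5] at h7
      change q - q / 4 ≤ sn (gg ε k v - 0) ∧ sn (gg ε k v - 0) ≤ q + q / 4
      rw [sub_zero, bp_sn0 hk]
      omega
    · intro σ
      rw [co_comp, co_comp, ← Set.preimage_inter, ← Set.preimage_inter, hco σ]
  · right
    refine ⟨e, he1, he2, σ, Join.mono hA ?_ subset_rfl subset_rfl⟩
    rintro v ⟨hv1, hv2⟩
    refine ⟨?_, hv2⟩
    have h1 : v ∈ SA 0 (q - q / 4) (q + q / 4) := by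
      have h2 : sn e = q := by
        unfold sn
        rw [he1, he2, max_self]
      have h3 := abs_le.1 (bp_snsub v e)
      have h4 := sn_le_nrm (v - e)
      have h5 : nrm (v - e) ≤ q / 4 := hv2.2
      change q - q / 4 ≤ sn (v - 0) ∧ sn (v - 0) ≤ q + q / 4
      rw [sub_zero]
      omega
    have h2 : v ∈ Co σ p w ∩ SA 0 (q - q / 4) (q + q / 4) := ⟨hv1, h1⟩
    rw [hco σ] at h2
    exact h2.1

private theorem bp_corner {q : ℤ} {e : V} (h1 : |e.1| = q) (h2 : |e.2| = q) :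
    e ∈ ({(q, q), (q, -q), (-q, q), (-q, -q)} : Finset V) := by
  obtain ⟨a, b⟩ := e
  have h1' : |a| = q := h1
  have h2' : |b| = q := h2
  simp only [Finset.mem_insert, Finset.mem_singleton, Prod.mk.injEq]
  rcases abs_choice a with h3 | h3 <;> rcases abs_choice b with h4 | h4 <;> omega

theorem badR_prob (c : ℝ) (hc : 0 < c) (δ : ℝ) (hδ : 0 < δ) : ∃ (κ : ℕ) (G D M : ℤ),
    Prm κ G D M ∧ ∀ (p : ℝ) (N : ℤ), Rsw c p N → ∀ ε u : ℤ, (ε = 1 ∨ ε = -1) → 1 ≤ u →
    2 * M * u ≤ N →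
    (P (BadR ε p (2 * M * u) (8 * (G * u)) (G * u) (D * u) (scl u κ))).toReal ≤ δ := by
  classical
  obtain ⟨C, α, hC, hα, harm⟩ := one_arm_up c hc
  -- the number `l`
  obtain ⟨l, hl6, hl⟩ : ∃ l : ℕ, 6 ≤ l ∧ C * (64 / (2 : ℝ) ^ l) ^ α ≤ δ / 16 := by
    have hδ' : 0 < (δ / 16 / C) ^ (1 / α) := by positivity
    obtain ⟨l, hl⟩ := pow_unbounded_of_one_lt (64 / (δ / 16 / C) ^ (1 / α)) (one_lt_two (α := ℝ))
    refine ⟨l + 6, by omega, ?_⟩
    have h1 : 64 / (2 : ℝ) ^ (l + 6) ≤ (δ / 16 / C) ^ (1 / α) := by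
      rw [div_lt_iff₀ hδ'] at hl
      rw [div_le_iff₀ (by positivity)]
      have h2 : (2 : ℝ) ^ l ≤ 2 ^ (l + 6) := pow_le_pow_right₀ one_le_two (by omega)
      nlinarith
    have h2 : (64 / (2 : ℝ) ^ (l + 6)) ^ α ≤ δ / 16 / C := by
      calc (64 / (2 : ℝ) ^ (l + 6)) ^ α ≤ ((δ / 16 / C) ^ (1 / α)) ^ α :=
            Real.rpow_le_rpow (by positivity) h1 hα.le
        _ = δ / 16 / C := by
            rw [← Real.rpow_mul (by positivity), one_div_mul_cancel hα.ne', Real.rpow_one]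
    calc C * (64 / (2 : ℝ) ^ (l + 6)) ^ α ≤ C * (δ / 16 / C) := by gcongr
      _ = δ / 16 := mul_div_cancel₀ _ hC.ne'
  -- the other constants
  obtain ⟨κ, Θ, hΘ, hbad⟩ := badL_prob c hc (δ / (8 * (4 * 2 ^ l + 1))) (by positivity)
  set D : ℤ := 100 * 4 ^ κ + 100 with hD
  have h4κ : (0 : ℤ) < 4 ^ κ := by positivity
  have hD0 : 1 ≤ D := by omega
  obtain ⟨e, he⟩ : ∃ e : ℕ, Θ * D ≤ 2 ^ e := by
    obtain ⟨e, he⟩ := pow_unbounded_of_one_lt (Θ * D) (one_lt_two (α := ℤ))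
    exact ⟨e, he.le⟩
  have hΘD : D ≤ Θ * D := le_mul_of_one_le_left (by omega) hΘ
  have hΘD' : Θ ≤ Θ * D := le_mul_of_one_le_right (by omega) hD0
  have h2l : (64 : ℤ) ≤ 2 ^ l := by
    calc (64 : ℤ) = 2 ^ 6 := by norm_num
      _ ≤ 2 ^ l := pow_le_pow_right₀ (by norm_num) hl6
  have hG0 : (0 : ℤ) < 2 ^ e := by positivity
  have hPrm : Prm κ (2 ^ e) D (2 ^ l * 2 ^ e) :=
    ⟨le_rfl, hΘD.trans he, mul_le_mul_of_nonneg_right h2l hG0.le, l + e, (pow_add _ _ _).symm⟩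
  refine ⟨κ, 2 ^ e, D, 2 ^ l * 2 ^ e, hPrm, fun p N hR ε u hε hu hN => ?_⟩
  obtain ⟨hG, hM, -⟩ := bp_num hPrm hu
  -- the scale `q`
  obtain ⟨l', rfl⟩ : ∃ l', l = l' + 2 := ⟨l - 2, by omega⟩
  have hq : 2 * (2 ^ (l' + 2) * 2 ^ e) * u = 4 * (2 ^ (l' + 1) * (2 ^ e * u)) := by
    rw [pow_add, pow_add]
    ring
  have hq4 : 2 * (2 ^ (l' + 2) * 2 ^ e) * u / 4 = 2 ^ (l' + 1) * (2 ^ e * u) := by
    rw [hq]
    exact Int.mul_ediv_cancel_left _ (by norm_num)
  have hsg : ∀ k, ε * sg k = 1 ∨ ε * sg k = -1 := by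
    intro k
    rcases hε with rfl | rfl <;> rcases sg_cases k with h | h <;> rw [h] <;> norm_num
  have hΘu : Θ * (D * u) ≤ 2 ^ e * u := by
    have := mul_le_mul_of_nonneg_right he (by omega : 0 ≤ u)
    linarith
  have hΘu' : Θ * u ≤ 2 ^ e * u := mul_le_mul_of_nonneg_right (hΘD'.trans he) (by omega)
  have hDu : 1 ≤ D * u := one_le_mul_of_one_le_of_one_le hD0 hu
  set g : ℤ := 2 ^ e * u with hg
  set q : ℤ := 2 * (2 ^ (l' + 2) * 2 ^ e) * u with hqq
  -- the boxes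
  have hbox : ∀ k : ℕ, ∀ x : ℤ, (P {w : Lab | (fun v => w (gg ε k v)) ∈
      BadL (ε * sg k) p x (-(ε * q)) (8 * g) (D * u) (scl u κ)}).toReal ≤
      δ / (8 * (4 * 2 ^ (l' + 2) + 1)) := by
    intro k x
    rw [prob_frame (gg ε k) (meas_badL _ _ _ _ _ _ _)]
    exact hbad p N hR _ _ _ _ _ _ (hsg k) hu hDu (by omega) (by omega) (by omega)
  -- the corners
  have hcor : ∀ (z : V) (σ : Bool), (P {w : Lab | Arm (Co σ p w) z (4 * (8 * g)) (q / 4)}).toReal ≤
      δ / 16 := by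
    intro z σ
    have h1 := harm p N hR z (4 * (8 * g)) (q / 4) (by omega) (by omega) (by omega)
    have h2 : ((4 * (8 * g) : ℤ) : ℝ) / ((q / 4 : ℤ) : ℝ) = 64 / 2 ^ (l' + 2) := by
      rw [hq4]
      have h3 : (g : ℝ) ≠ 0 := by
        have : g ≠ 0 := by omega
        exact_mod_cast this
      push_cast
      rw [pow_succ (2 : ℝ) (l' + 1)]
      field_simp
      norm_num
    rw [h2] at h1
    cases σ
    · exact h1.2.trans hl
    · exact h1.1.trans hl
  -- the union bound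
  have hsub : BadR ε p q (8 * g) g (D * u) (scl u κ) ⊆
      (⋃ k ∈ Finset.range 4, ⋃ i ∈ Finset.Icc (-(2 * 2 ^ (l' + 2)) : ℤ) (2 * 2 ^ (l' + 2)),
        {w : Lab | (fun v => w (gg ε k v)) ∈
          BadL (ε * sg k) p (g * i) (-(ε * q)) (8 * g) (D * u) (scl u κ)}) ∪
      ⋃ z ∈ ({(q, q), (q, -q), (-q, q), (-q, -q)} : Finset V), ⋃ σ ∈ (Finset.univ : Finset Bool),
        {w : Lab | Arm (Co σ p w) z (4 * (8 * g)) (q / 4)} := by
    rintro w (⟨k, hk, x, ⟨i, rfl⟩, hxq, hB⟩ | ⟨z, hz1, hz2, σ, hA⟩)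
    · left
      simp only [Set.mem_iUnion]
      refine ⟨k, Finset.mem_range.2 hk, i, ?_, hB⟩
      have h1 : |g * i| ≤ 2 * 2 ^ (l' + 2) * g := by
        have h2 : q = 2 * 2 ^ (l' + 2) * g := by
          rw [hqq, hg]
          ring
        omega
      rw [abs_mul, abs_of_pos (by omega : 0 < g), mul_comm] at h1
      have h3 := le_of_mul_le_mul_right h1 (by omega : 0 < g)
      rw [Finset.mem_Icc]
      exact abs_le.1 h3
    · right
      simp only [Set.mem_iUnion]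
      exact ⟨z, bp_corner hz1 hz2, σ, Finset.mem_univ σ, hA⟩
  have hreal : ∀ A : Set Lab, (P A).toReal = P.real A := fun _ => rfl
  simp only [hreal] at hbox hcor ⊢
  have hcard : ((Finset.Icc (-(2 * 2 ^ (l' + 2)) : ℤ) (2 * 2 ^ (l' + 2))).card : ℝ) =
      4 * 2 ^ (l' + 2) + 1 := by
    rw [Int.card_Icc]
    have h1 : (2 * 2 ^ (l' + 2) + 1 - -(2 * 2 ^ (l' + 2)) : ℤ).toNat = 4 * 2 ^ (l' + 2) + 1 := by
      have h2 : (2 * 2 ^ (l' + 2) + 1 - -(2 * 2 ^ (l' + 2)) : ℤ) =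
          ((4 * 2 ^ (l' + 2) + 1 : ℕ) : ℤ) := by
        push_cast
        ring
      rw [h2, Int.toNat_natCast]
    rw [h1]
    push_cast
    ring
  calc P.real (BadR ε p q (8 * g) g (D * u) (scl u κ)) ≤ P.real _ :=
        measureReal_mono hsub (measure_ne_top _ _)
    _ ≤ P.real (⋃ k ∈ Finset.range 4,
        ⋃ i ∈ Finset.Icc (-(2 * 2 ^ (l' + 2)) : ℤ) (2 * 2 ^ (l' + 2)),
        {w : Lab | (fun v => w (gg ε k v)) ∈
          BadL (ε * sg k) p (g * i) (-(ε * q)) (8 * g) (D * u) (scl u κ)}) +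
        P.real (⋃ z ∈ ({(q, q), (q, -q), (-q, q), (-q, -q)} : Finset V),
          ⋃ σ ∈ (Finset.univ : Finset Bool),
          {w : Lab | Arm (Co σ p w) z (4 * (8 * g)) (q / 4)}) := measureReal_union_le _ _
    _ ≤ ∑ k ∈ Finset.range 4, ∑ i ∈ Finset.Icc (-(2 * 2 ^ (l' + 2)) : ℤ) (2 * 2 ^ (l' + 2)),
          δ / (8 * (4 * 2 ^ (l' + 2) + 1)) +
        ∑ z ∈ ({(q, q), (q, -q), (-q, q), (-q, -q)} : Finset V),
          ∑ σ ∈ (Finset.univ : Finset Bool), δ / 16 := by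
        refine add_le_add ?_ ?_
        · refine (measureReal_biUnion_finset_le _ _).trans (Finset.sum_le_sum fun k _ => ?_)
          exact (measureReal_biUnion_finset_le _ _).trans
            (Finset.sum_le_sum fun i _ => hbox k (g * i))
        · refine (measureReal_biUnion_finset_le _ _).trans (Finset.sum_le_sum fun z _ => ?_)
          exact (measureReal_biUnion_finset_le _ _).trans
            (Finset.sum_le_sum fun σ _ => hcor z σ)
    _ ≤ δ := by
        simp only [Finset.sum_const, nsmul_eq_mul, hcard, Finset.card_range, Finset.card_univ,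
          Fintype.card_bool]
        have h1 : (({(q, q), (q, -q), (-q, q), (-q, -q)} : Finset V).card : ℝ) ≤ 4 := by
          exact_mod_cast Finset.card_le_four
        have h2 : ((4 : ℕ) : ℝ) * ((4 * 2 ^ (l' + 2) + 1) *
            (δ / (8 * (4 * 2 ^ (l' + 2) + 1)))) = δ / 2 := by
          push_cast
          field_simp
          norm_num
        rw [h2]
        have h3 : (({(q, q), (q, -q), (-q, q), (-q, -q)} : Finset V).card : ℝ) *
            (((2 : ℕ) : ℝ) * (δ / 16)) ≤ 4 * (((2 : ℕ) : ℝ) * (δ / 16)) := by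
          gcongr
        push_cast at h3
        push_cast
        linarith

end Pool.Agent.TriPerc
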