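import Pool.Agent.TriPerc.Pth
import Mathlib.Algebra.Order.Ring.Star
import Mathlib.Data.Int.Star

/-!
# Boxes `Par l r b t`, their rims, the clamp retraction

Everything is elementary (unfold, `max`, `min`, `split_ifs`, `omega`).  `Rim` is the set of the
boundary vertices of the box, `key` numbers them counterclockwise: bottom side from left to right,
right side upwards, top side from right to left, left side downwards; `0 ≤ key < rlen`.
* `key_succ`: rim vertices with consecutive keys are neighbours; `key_wrap`: the first one and the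
  last one are neighbours.
* `conn_arc`, `conn_arc'`: the two arcs of the rim between two rim vertices are connected.  Proof of
  `conn_arc` by induction on `key v - key u` with `key_surj` and `key_succ`.  `conn_arc'`: go from
  `u` down to the vertex with key `0`, step to the vertex with key `rlen - 1`, go down to `v`.
* `clamp` is a retraction of the lattice onto the box: neighbours are mapped to neighbours or to
  the same vertex; a vertex outside the box is mapped to the rim.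
* `Cyc k k'`: the two keys are equal or cyclically consecutive.
* `cyc_touch`: if `u` is in the box, `v` outside, `Adj u v`, then `u` is on the rim and the keys of
  `u` and of `clamp v` satisfy `Cyc`.  (Case analysis on the position of `v`: below, to the right,
  above, to the left, or in one of the four corner quadrants.)
* `cyc_out`: if `u, v` are outside and adjacent, the keys of their clamps satisfy `Cyc`.
* `conn_out`, `conn_out'`: the outside vertices whose clamp has a key between the keys of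
  `clamp u` and `clamp v` form a connected set; the same for the complementary arc.  Proof: every
  outside vertex `x` is joined, inside its fibre `{y outside, clamp y = clamp x}`, to a fixed vertex
  of this fibre (fibres: vertical or horizontal half lines, or quadrants without their corner);
  fibres of consecutive keys are adjacent.
-/

namespace Pool.Agent.TriPerc

/-- The rim of the box `Par l r b t`. -/
def Rim (l r b t : ℤ) : Set V :=
  {v | v ∈ Par l r b t ∧ (v.1 = l ∨ v.1 = r ∨ v.2 = b ∨ v.2 = t)}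

/-- The position of a rim vertex, counterclockwise from the corner `(l, b)`. -/
def key (l r b t : ℤ) (v : V) : ℤ :=
  if v.2 = b then v.1 - l
  else if v.1 = r then (r - l) + (v.2 - b)
  else if v.2 = t then (r - l) + (t - b) + (r - v.1)
  else 2 * (r - l) + (t - b) + (t - v.2)

/-- The number of rim vertices (for `l < r`, `b < t`). -/
def rlen (l r b t : ℤ) : ℤ := 2 * (r - l) + 2 * (t - b)

/-- The retraction of the lattice onto the box. -/
def clamp (l r b t : ℤ) (v : V) : V := (max l (min r v.1), max b (min t v.2))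

/-- Equal or cyclically consecutive keys. -/
def Cyc (l r b t k k' : ℤ) : Prop := |k - k'| ≤ 1 ∨ |k - k'| = rlen l r b t - 1

variable {l r b t : ℤ} {u v : V} {S : Set V}

theorem rim_sub : Rim l r b t ⊆ Par l r b t := fun _ h => h.1

private theorem mem_par' : v ∈ Par l r b t ↔ l ≤ v.1 ∧ v.1 ≤ r ∧ b ≤ v.2 ∧ v.2 ≤ t := Iff.rfl

private theorem mem_rim' : v ∈ Rim l r b t ↔ (l ≤ v.1 ∧ v.1 ≤ r ∧ b ≤ v.2 ∧ v.2 ≤ t) ∧
    (v.1 = l ∨ v.1 = r ∨ v.2 = b ∨ v.2 = t) := Iff.rfl

/-- `w` is the successor of `u` on the rim -/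
private def Edg (l r b t : ℤ) (u w : V) : Prop :=
  (u.2 = b ∧ w.2 = b ∧ w.1 = u.1 + 1) ∨ (u.1 = r ∧ w.1 = r ∧ w.2 = u.2 + 1) ∨
  (u.2 = t ∧ w.2 = t ∧ w.1 = u.1 - 1) ∨ (u.1 = l ∧ w.1 = l ∧ w.2 = u.2 - 1)

private theorem Edg.adj (h : Edg l r b t u v) : Adj u v := by
  rcases h with ⟨_, _, h3⟩ | ⟨_, _, h3⟩ | ⟨_, _, h3⟩ | ⟨_, _, h3⟩
  · exact Or.inl ⟨h3, by omega⟩
  · exact Or.inr (Or.inl ⟨by omega, h3⟩)
  · exact Or.inr (Or.inr (Or.inr (Or.inl ⟨h3, by omega⟩)))
  · exact Or.inr (Or.inr (Or.inr (Or.inr (Or.inl ⟨by omega, h3⟩))))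

private theorem key_of_edg (hlr : l < r) (hbt : b < t) (hu : u ∈ Rim l r b t)
    (hv : v ∈ Rim l r b t) (h : Edg l r b t u v) : key l r b t v = key l r b t u + 1 ∨
      (key l r b t v = 0 ∧ key l r b t u = rlen l r b t - 1) := by
  rw [mem_rim'] at hu hv
  unfold key rlen
  rcases h with ⟨_, _, _⟩ | ⟨_, _, _⟩ | ⟨_, _, _⟩ | ⟨_, _, _⟩ <;> split_ifs <;> omega

private theorem key_bd (hlr : l < r) (hbt : b < t) (hu : u ∈ Rim l r b t) :
    0 ≤ key l r b t u ∧ key l r b t u < rlen l r b t := by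
  rw [mem_rim'] at hu
  unfold key rlen
  split_ifs <;> omega

private theorem key_uniq (hlr : l < r) (hbt : b < t) (hu : u ∈ Rim l r b t)
    (hv : v ∈ Rim l r b t) (h : key l r b t u = key l r b t v) : u = v := by
  rw [mem_rim'] at hu hv
  have h1 : u.1 = v.1 ∧ u.2 = v.2 := by
    unfold key at h
    split_ifs at h <;> omega
  exact Prod.ext h1.1 h1.2

private theorem ex_edg (hlr : l < r) (hbt : b < t) (hu : u ∈ Rim l r b t) :
    ∃ w ∈ Rim l r b t, Edg l r b t u w := by
  rw [mem_rim'] at hu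
  obtain ⟨p, q⟩ := u
  dsimp only at hu
  by_cases h1 : q = b ∧ p < r
  · refine ⟨(p + 1, b), ?_, Or.inl ⟨h1.1, rfl, rfl⟩⟩
    rw [mem_rim']
    dsimp only
    omega
  by_cases h2 : p = r ∧ q < t
  · refine ⟨(r, q + 1), ?_, Or.inr (Or.inl ⟨h2.1, rfl, rfl⟩)⟩
    rw [mem_rim']
    dsimp only
    omega
  by_cases h3 : q = t ∧ l < p
  · refine ⟨(p - 1, t), ?_, Or.inr (Or.inr (Or.inl ⟨h3.1, rfl, rfl⟩))⟩
    rw [mem_rim']
    dsimp only
    omega
  · refine ⟨(l, q - 1), ?_, Or.inr (Or.inr (Or.inr ⟨?_, rfl, rfl⟩))⟩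
    · rw [mem_rim']
      dsimp only
      omega
    · dsimp only
      omega

private theorem edg_of_key (hlr : l < r) (hbt : b < t) (hu : u ∈ Rim l r b t)
    (hv : v ∈ Rim l r b t) (h : key l r b t v = key l r b t u + 1 ∨
      (key l r b t v = 0 ∧ key l r b t u = rlen l r b t - 1)) : Edg l r b t u v := by
  obtain ⟨w, hw, he⟩ := ex_edg hlr hbt hu
  have h1 := key_of_edg hlr hbt hu hw he
  have h2 := key_bd hlr hbt hv
  have h3 := key_bd hlr hbt hw
  have h4 : w = v := key_uniq hlr hbt hw hv (by omega)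
  rwa [← h4]

/-- clamping two neighbouring integers -/
private theorem cl_cases {l r x x' : ℤ} (hlr : l ≤ r) (h : x' = x + 1) :
    (max l (min r x) = x ∧ max l (min r x') = x + 1 ∧ l ≤ x ∧ x < r) ∨
      (max l (min r x') = max l (min r x) ∧
        ((x < l ∧ max l (min r x) = l) ∨ (r ≤ x ∧ max l (min r x) = r))) := by
  omega

private theorem cl_out {l r x : ℤ} (hlr : l ≤ r) : (x < l ∧ max l (min r x) = l) ∨
    (r < x ∧ max l (min r x) = r) ∨ (l ≤ x ∧ x ≤ r ∧ max l (min r x) = x) := by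
  omega

private theorem not_par (h : v ∉ Par l r b t) : v.1 < l ∨ r < v.1 ∨ v.2 < b ∨ t < v.2 := by
  rw [mem_par'] at h
  omega

/-- the three positive directions -/
private def Dir (u v : V) : Prop :=
  (v.1 = u.1 + 1 ∧ v.2 = u.2) ∨ (v.1 = u.1 ∧ v.2 = u.2 + 1) ∨ (u.1 = v.1 + 1 ∧ v.2 = u.2 + 1)

private theorem Dir.adj (h : Dir u v) : Adj u v := by
  rcases h with h | h | ⟨_, h2⟩
  · exact Or.inl h
  · exact Or.inr (Or.inl h)
  · exact Or.inr (Or.inr (Or.inl ⟨by omega, h2⟩))

private theorem dir_of_adj (h : Adj u v) : Dir u v ∨ Dir v u := by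
  unfold Adj at h
  unfold Dir
  rcases h with h | h | h | h | h | h
  · exact Or.inl (Or.inl h)
  · exact Or.inl (Or.inr (Or.inl h))
  · exact Or.inl (Or.inr (Or.inr ⟨by omega, h.2⟩))
  · exact Or.inr (Or.inl ⟨by omega, by omega⟩)
  · exact Or.inr (Or.inr (Or.inl ⟨by omega, by omega⟩))
  · exact Or.inr (Or.inr (Or.inr ⟨by omega, by omega⟩))

private theorem clamp_dir (hlr : l ≤ r) (hbt : b ≤ t) (h : Dir u v) :
    clamp l r b t u = clamp l r b t v ∨ Adj (clamp l r b t u) (clamp l r b t v) := by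
  obtain ⟨p, q⟩ := u
  obtain ⟨p', q'⟩ := v
  unfold Dir at h
  unfold clamp Adj
  dsimp only at h ⊢
  rcases h with ⟨h1, rfl⟩ | ⟨rfl, h1⟩ | ⟨h1, h2⟩
  · rcases cl_cases hlr h1 with ⟨e1, e2, -⟩ | ⟨e1, -⟩
    · exact Or.inr (Or.inl ⟨by rw [e1, e2], rfl⟩)
    · exact Or.inl (by rw [e1])
  · rcases cl_cases hbt h1 with ⟨e1, e2, -⟩ | ⟨e1, -⟩
    · exact Or.inr (Or.inr (Or.inl ⟨rfl, by rw [e1, e2]⟩))
    · exact Or.inl (by rw [e1])
  · rcases cl_cases hlr h1 with ⟨e1, e2, -⟩ | ⟨e1, -⟩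
    · rcases cl_cases hbt h2 with ⟨e3, e4, -⟩ | ⟨e3, -⟩
      · exact Or.inr (Or.inr (Or.inr (Or.inl ⟨by rw [e1, e2]; ring, by rw [e3, e4]⟩)))
      · exact Or.inr (Or.inr (Or.inr (Or.inr (Or.inl ⟨by rw [e1, e2]; ring, e3⟩))))
    · rcases cl_cases hbt h2 with ⟨e3, e4, -⟩ | ⟨e3, -⟩
      · exact Or.inr (Or.inr (Or.inl ⟨e1.symm, by rw [e3, e4]⟩))
      · exact Or.inl (by rw [e1, e3])

/-- the possible positions of the clamps of two outside neighbours -/
private theorem out_dir (hlr : l < r) (hbt : b < t) (hu : u ∉ Par l r b t)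
    (hv : v ∉ Par l r b t) (h : Dir u v) :
    clamp l r b t u = clamp l r b t v ∨
      Edg l r b t (clamp l r b t u) (clamp l r b t v) ∨
      Edg l r b t (clamp l r b t v) (clamp l r b t u) := by
  have hu' := not_par hu
  have hv' := not_par hv
  clear hu hv
  obtain ⟨p, q⟩ := u
  obtain ⟨p', q'⟩ := v
  unfold Dir at h
  unfold clamp Edg
  dsimp only at h hu' hv' ⊢
  rcases h with ⟨h1, rfl⟩ | ⟨rfl, h1⟩ | ⟨h1, h2⟩
  · rcases cl_cases hlr.le h1 with ⟨e1, e2, e6, e7⟩ | ⟨e1, -⟩
    · rcases cl_out (x := q') hbt.le with ⟨e3, e4⟩ | ⟨e3, e4⟩ | ⟨e3, e4, e5⟩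
      · exact Or.inr (Or.inl (Or.inl ⟨e4, e4, by rw [e1, e2]⟩))
      · exact Or.inr (Or.inr (Or.inr (Or.inr (Or.inl ⟨e4, e4, by rw [e1, e2]; ring⟩))))
      · exfalso
        clear e1 e2 e5
        omega
    · exact Or.inl (by rw [e1])
  · rcases cl_cases hbt.le h1 with ⟨e1, e2, e6, e7⟩ | ⟨e1, -⟩
    · rcases cl_out (x := p') hlr.le with ⟨e3, e4⟩ | ⟨e3, e4⟩ | ⟨e3, e4, e5⟩
      · exact Or.inr (Or.inr (Or.inr (Or.inr (Or.inr ⟨e4, e4, by rw [e1, e2]; ring⟩))))
      · exact Or.inr (Or.inl (Or.inr (Or.inl ⟨e4, e4, by rw [e1, e2]⟩)))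
      · exfalso
        clear e1 e2 e5
        omega
    · exact Or.inl (by rw [e1])
  · rcases cl_cases hlr.le h1 with ⟨e1, e2, e5, e6⟩ | ⟨e1, e5⟩
    · rcases cl_cases hbt.le h2 with ⟨e3, e4, e7, e8⟩ | ⟨e3, e7⟩
      · exfalso
        clear e1 e2 e3 e4
        omega
      · rcases e7 with ⟨e7, e8⟩ | ⟨e7, e8⟩
        · exact Or.inr (Or.inr (Or.inl ⟨e3.trans e8, e8, by rw [e1, e2]⟩))
        · exact Or.inr (Or.inl (Or.inr (Or.inr (Or.inl ⟨e8, e3.trans e8,
            by rw [e1, e2]; ring⟩))))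
    · rcases cl_cases hbt.le h2 with ⟨e3, e4, e7, e8⟩ | ⟨e3, e7⟩
      · rcases e5 with ⟨e5, e6⟩ | ⟨e5, e6⟩
        · exact Or.inr (Or.inr (Or.inr (Or.inr (Or.inr ⟨e6, e1.trans e6,
            by rw [e3, e4]; ring⟩))))
        · exact Or.inr (Or.inl (Or.inr (Or.inl ⟨e1.trans e6, e6, by rw [e3, e4]⟩)))
      · exact Or.inl (by rw [e1, e3])

private theorem cyc_self (k : ℤ) : Cyc l r b t k k := Or.inl (by simp)

private theorem cyc_symm {k k' : ℤ} (h : Cyc l r b t k k') : Cyc l r b t k' k := by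
  unfold Cyc at h ⊢
  rwa [abs_sub_comm k' k]

private theorem cyc_of_edg (hlr : l < r) (hbt : b < t) (hu : u ∈ Rim l r b t)
    (hv : v ∈ Rim l r b t) (h : Edg l r b t u v) :
    Cyc l r b t (key l r b t u) (key l r b t v) := by
  rcases key_of_edg hlr hbt hu hv h with h1 | ⟨h1, h2⟩
  · left
    rw [h1]
    simp
  · right
    rw [h1, h2, sub_zero, abs_of_nonneg]
    unfold rlen
    omega

theorem key_nonneg (hlr : l < r) (hbt : b < t) (hu : u ∈ Rim l r b t) :
    0 ≤ key l r b t u ∧ key l r b t u < rlen l r b t := by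
  exact key_bd hlr hbt hu

theorem key_inj (hlr : l < r) (hbt : b < t) (hu : u ∈ Rim l r b t) (hv : v ∈ Rim l r b t)
    (h : key l r b t u = key l r b t v) : u = v := by
  exact key_uniq hlr hbt hu hv h

theorem key_surj (hlr : l < r) (hbt : b < t) {k : ℤ} (h0 : 0 ≤ k) (hk : k < rlen l r b t) :
    ∃ v ∈ Rim l r b t, key l r b t v = k := by
  unfold rlen at hk
  by_cases h1 : k ≤ r - l
  · refine ⟨(l + k, b), ?_, ?_⟩
    · rw [mem_rim']
      dsimp only
      omega
    · unfold key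
      dsimp only
      split_ifs <;> omega
  by_cases h2 : k ≤ (r - l) + (t - b)
  · refine ⟨(r, b + (k - (r - l))), ?_, ?_⟩
    · rw [mem_rim']
      dsimp only
      omega
    · unfold key
      dsimp only
      split_ifs <;> omega
  by_cases h3 : k ≤ (r - l) + (t - b) + (r - l)
  · refine ⟨(r - (k - (r - l) - (t - b)), t), ?_, ?_⟩
    · rw [mem_rim']
      dsimp only
      omega
    · unfold key
      dsimp only
      split_ifs <;> omega
  · refine ⟨(l, t - (k - 2 * (r - l) - (t - b))), ?_, ?_⟩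
    · rw [mem_rim']
      dsimp only
      omega
    · unfold key
      dsimp only
      split_ifs <;> omega

theorem key_succ (hlr : l < r) (hbt : b < t) (hu : u ∈ Rim l r b t) (hv : v ∈ Rim l r b t)
    (h : key l r b t v = key l r b t u + 1) : Adj u v := by
  exact (edg_of_key hlr hbt hu hv (Or.inl h)).adj

theorem key_wrap (hlr : l < r) (hbt : b < t) (hu : u ∈ Rim l r b t) (hv : v ∈ Rim l r b t)
    (h : key l r b t u = 0) (h' : key l r b t v = rlen l r b t - 1) : Adj u v := by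
  exact (edg_of_key hlr hbt hv hu (Or.inr ⟨h, h'⟩)).adj.symm

/-- all rim vertices in the order of their keys -/
private theorem enum (hlr : l < r) (hbt : b < t) : ∃ c : ℤ → V, ∀ k, 0 ≤ k →
    k < rlen l r b t → c k ∈ Rim l r b t ∧ key l r b t (c k) = k := by
  have h : ∀ k : ℤ, ∃ x : V, 0 ≤ k → k < rlen l r b t →
      x ∈ Rim l r b t ∧ key l r b t x = k := by
    intro k
    by_cases h : 0 ≤ k ∧ k < rlen l r b t
    · obtain ⟨v, h1, h2⟩ := key_surj hlr hbt h.1 h.2
      exact ⟨v, fun _ _ => ⟨h1, h2⟩⟩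
    · exact ⟨0, fun h1 h2 => absurd ⟨h1, h2⟩ h⟩
  choose c hc using h
  exact ⟨c, hc⟩

theorem conn_arc (hlr : l < r) (hbt : b < t) (hu : u ∈ Rim l r b t) (hv : v ∈ Rim l r b t)
    (h : key l r b t u ≤ key l r b t v) :
    Conn {x | x ∈ Rim l r b t ∧ key l r b t u ≤ key l r b t x ∧ key l r b t x ≤ key l r b t v}
      u v := by
  obtain ⟨c, hc⟩ := enum hlr hbt
  obtain ⟨hu0, hu1⟩ := key_nonneg hlr hbt hu
  obtain ⟨hv0, hv1⟩ := key_nonneg hlr hbt hv
  obtain ⟨n, hn⟩ := Int.le.dest h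
  have hcu : c (key l r b t u + (0 : ℕ)) = u := by
    obtain ⟨h1, h2⟩ := hc (key l r b t u) hu0 hu1
    rw [Nat.cast_zero, add_zero]
    exact key_inj hlr hbt h1 hu h2
  have hcv : c (key l r b t u + (n : ℕ)) = v := by
    obtain ⟨h1, h2⟩ := hc (key l r b t v) hv0 hv1
    rw [hn]
    exact key_inj hlr hbt h1 hv h2
  have key0 := Conn.of_walk (n := n) (f := fun i => c (key l r b t u + (i : ℕ)))
    (S := {x | x ∈ Rim l r b t ∧ key l r b t u ≤ key l r b t x ∧ key l r b t x ≤ key l r b t v})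
    (fun i hi => by
      obtain ⟨h1, h2⟩ := hc (key l r b t u + (i : ℕ)) (by omega) (by omega)
      obtain ⟨h3, h4⟩ := hc (key l r b t u + ((i + 1 : ℕ) : ℤ)) (by omega) (by omega)
      exact key_succ hlr hbt h1 h3 (by rw [h2, h4]; push_cast; ring))
    (fun i hi => by
      obtain ⟨h1, h2⟩ := hc (key l r b t u + (i : ℕ)) (by omega) (by omega)
      refine ⟨h1, ?_, ?_⟩
      · rw [h2]
        omega
      · rw [h2]
        omega)
  rwa [hcu, hcv] at key0

theorem conn_arc' (hlr : l < r) (hbt : b < t) (hu : u ∈ Rim l r b t) (hv : v ∈ Rim l r b t)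
    (h : key l r b t u ≤ key l r b t v) :
    Conn {x | x ∈ Rim l r b t ∧ (key l r b t x ≤ key l r b t u ∨ key l r b t v ≤ key l r b t x)}
      u v := by
  obtain ⟨c, hc⟩ := enum hlr hbt
  have hpos : 0 < rlen l r b t := by
    unfold rlen
    omega
  obtain ⟨hu0, hu1⟩ := key_nonneg hlr hbt hu
  obtain ⟨hv0, hv1⟩ := key_nonneg hlr hbt hv
  obtain ⟨h1, h2⟩ := hc 0 le_rfl hpos
  obtain ⟨h3, h4⟩ := hc (rlen l r b t - 1) (by omega) (by omega)
  have h5 := (conn_arc hlr hbt h1 hu (by rw [h2]; exact hu0)).symm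
  have h6 := (conn_arc hlr hbt hv h3 (by rw [h4]; omega)).symm
  refine (h5.mono ?_).trans ((Conn.of_adj ?_ ?_ (key_wrap hlr hbt h1 h3 h2 h4)).trans
    (h6.mono ?_))
  · rintro x ⟨a1, -, a3⟩
    exact ⟨a1, Or.inl a3⟩
  · exact ⟨h1, Or.inl (by rw [h2]; exact hu0)⟩
  · exact ⟨h3, Or.inr (by rw [h4]; omega)⟩
  · rintro x ⟨a1, a2, -⟩
    exact ⟨a1, Or.inr a2⟩

theorem clamp_mem (hlr : l ≤ r) (hbt : b ≤ t) : clamp l r b t v ∈ Par l r b t := by
  rw [mem_par']
  exact ⟨le_max_left _ _, max_le hlr (min_le_left _ _), le_max_left _ _,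
    max_le hbt (min_le_left _ _)⟩

theorem clamp_of_mem (h : v ∈ Par l r b t) : clamp l r b t v = v := by
  rw [mem_par'] at h
  obtain ⟨h1, h2, h3, h4⟩ := h
  refine Prod.ext ?_ ?_
  · change max l (min r v.1) = v.1
    omega
  · change max b (min t v.2) = v.2
    omega

theorem clamp_rim (hlr : l ≤ r) (hbt : b ≤ t) (h : v ∉ Par l r b t) :
    clamp l r b t v ∈ Rim l r b t := by
  refine ⟨clamp_mem hlr hbt, ?_⟩
  change max l (min r v.1) = l ∨ max l (min r v.1) = r ∨ max b (min t v.2) = b ∨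
    max b (min t v.2) = t
  rcases not_par h with h1 | h1 | h1 | h1
  · exact Or.inl (by omega)
  · exact Or.inr (Or.inl (by omega))
  · exact Or.inr (Or.inr (Or.inl (by omega)))
  · exact Or.inr (Or.inr (Or.inr (by omega)))

theorem clamp_adj (hlr : l ≤ r) (hbt : b ≤ t) (h : Adj u v) :
    clamp l r b t u = clamp l r b t v ∨ Adj (clamp l r b t u) (clamp l r b t v) := by
  rcases dir_of_adj h with h1 | h1
  · exact clamp_dir hlr hbt h1
  · rcases clamp_dir hlr hbt h1 with h2 | h2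
    · exact Or.inl h2.symm
    · exact Or.inr h2.symm

/-- A path can be clamped. -/
theorem conn_clamp (hlr : l ≤ r) (hbt : b ≤ t)
    (h : Conn {x | clamp l r b t x ∈ S} u v) :
    Conn (S ∩ Par l r b t) (clamp l r b t u) (clamp l r b t v) := by
  obtain ⟨hu, h⟩ := h
  have hmem : ∀ x, clamp l r b t x ∈ S → clamp l r b t x ∈ S ∩ Par l r b t :=
    fun x hx => ⟨hx, clamp_mem hlr hbt⟩
  induction h with
  | refl => exact Conn.refl (hmem _ hu)
  | tail _ hbc ih =>
    rcases clamp_adj hlr hbt hbc.1 with h1 | h1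
    · rwa [← h1]
    · exact ih.trans (Conn.of_adj ih.right (hmem _ hbc.2) h1)

theorem cyc_touch (hlr : l < r) (hbt : b < t) (hu : u ∈ Par l r b t) (hv : v ∉ Par l r b t)
    (h : Adj u v) : u ∈ Rim l r b t ∧
      Cyc l r b t (key l r b t u) (key l r b t (clamp l r b t v)) ∧
      (u = clamp l r b t v ∨ Adj u (clamp l r b t v)) := by
  have hc := clamp_rim hlr.le hbt.le hv
  have hu1 : u ∈ Rim l r b t := by
    refine ⟨hu, ?_⟩
    rw [mem_par'] at hu
    have hv' := not_par hv
    unfold Adj at h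
    omega
  have huv : u = clamp l r b t v ∨ Edg l r b t u (clamp l r b t v) ∨
      Edg l r b t (clamp l r b t v) u := by
    rw [mem_par'] at hu
    have hv' := not_par hv
    obtain ⟨p, q⟩ := u
    obtain ⟨p', q'⟩ := v
    clear hc hu1
    unfold Adj at h
    unfold clamp Edg
    simp only [Prod.mk.injEq]
    dsimp only at h hu hv'
    obtain ⟨a1, a2, a3, a4⟩ := hu
    rcases h with ⟨rfl, rfl⟩ | ⟨rfl, rfl⟩ | ⟨rfl, rfl⟩ | ⟨rfl, rfl⟩ | ⟨rfl, rfl⟩ | ⟨rfl, rfl⟩
    · exact Or.inl ⟨by omega, by omega⟩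
    · exact Or.inl ⟨by omega, by omega⟩
    · by_cases hl : p = l
      · by_cases ht : q = t
        · exact Or.inl ⟨by omega, by omega⟩
        · exact Or.inr (Or.inr (Or.inr (Or.inr (Or.inr ⟨by omega, by omega, by omega⟩))))
      · by_cases ht : q = t
        · exact Or.inr (Or.inl (Or.inr (Or.inr (Or.inl ⟨by omega, by omega, by omega⟩))))
        · exfalso
          omega
    · exact Or.inl ⟨by omega, by omega⟩
    · exact Or.inl ⟨by omega, by omega⟩
    · by_cases hr : p = r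
      · by_cases hb : q = b
        · exact Or.inl ⟨by omega, by omega⟩
        · exact Or.inr (Or.inr (Or.inr (Or.inl ⟨by omega, by omega, by omega⟩)))
      · by_cases hb : q = b
        · exact Or.inr (Or.inl (Or.inl ⟨by omega, by omega, by omega⟩))
        · exfalso
          omega
  refine ⟨hu1, ?_, ?_⟩
  · rcases huv with h2 | h2 | h2
    · rw [← h2]
      exact cyc_self _
    · exact cyc_of_edg hlr hbt hu1 hc h2
    · exact cyc_symm (cyc_of_edg hlr hbt hc hu1 h2)
  · rcases huv with h2 | h2 | h2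
    · exact Or.inl h2
    · exact Or.inr h2.adj
    · exact Or.inr h2.adj.symm

theorem cyc_out (hlr : l < r) (hbt : b < t) (hu : u ∉ Par l r b t) (hv : v ∉ Par l r b t)
    (h : Adj u v) :
    Cyc l r b t (key l r b t (clamp l r b t u)) (key l r b t (clamp l r b t v)) := by
  have hcu := clamp_rim hlr.le hbt.le hu
  have hcv := clamp_rim hlr.le hbt.le hv
  have huv : clamp l r b t u = clamp l r b t v ∨
      Edg l r b t (clamp l r b t u) (clamp l r b t v) ∨
      Edg l r b t (clamp l r b t v) (clamp l r b t u) := by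
    rcases dir_of_adj h with h1 | h1
    · exact out_dir hlr hbt hu hv h1
    · rcases out_dir hlr hbt hv hu h1 with h2 | h2 | h2
      · exact Or.inl h2.symm
      · exact Or.inr (Or.inr h2)
      · exact Or.inr (Or.inl h2)
  rcases huv with h2 | h2 | h2
  · rw [h2]
    exact cyc_self _
  · exact cyc_of_edg hlr hbt hcu hcv h2
  · exact cyc_symm (cyc_of_edg hlr hbt hcv hcu h2)

/-- Every rim vertex is the clamp of some outside neighbour. -/
theorem out_nbr (hlr : l < r) (hbt : b < t) (hu : u ∈ Rim l r b t) :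
    ∃ x, x ∉ Par l r b t ∧ clamp l r b t x = u ∧ Adj u x := by
  rw [mem_rim'] at hu
  obtain ⟨p, q⟩ := u
  dsimp only at hu
  by_cases h1 : q = b
  · refine ⟨(p, q - 1), ?_, ?_, ?_⟩
    · rw [mem_par']
      dsimp only
      omega
    · unfold clamp
      refine Prod.ext ?_ ?_ <;> dsimp only <;> omega
    · unfold Adj
      dsimp only
      omega
  by_cases h2 : p = r
  · refine ⟨(p + 1, q), ?_, ?_, ?_⟩
    · rw [mem_par']
      dsimp only
      omega
    · unfold clamp
      refine Prod.ext ?_ ?_ <;> dsimp only <;> omega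
    · unfold Adj
      dsimp only
      omega
  by_cases h3 : q = t
  · refine ⟨(p, q + 1), ?_, ?_, ?_⟩
    · rw [mem_par']
      dsimp only
      omega
    · unfold clamp
      refine Prod.ext ?_ ?_ <;> dsimp only <;> omega
    · unfold Adj
      dsimp only
      omega
  · refine ⟨(p - 1, q), ?_, ?_, ?_⟩
    · rw [mem_par']
      dsimp only
      omega
    · unfold clamp
      refine Prod.ext ?_ ?_ <;> dsimp only <;> omega
    · unfold Adj
      dsimp only
      omega

/-- the set of the outside vertices over the rim vertex `w` -/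
private def Fib (l r b t : ℤ) (w : V) : Set V := {y | y ∉ Par l r b t ∧ clamp l r b t y = w}

private theorem mem_fib {w : V} : v ∈ Fib l r b t w ↔
    ¬ (l ≤ v.1 ∧ v.1 ≤ r ∧ b ≤ v.2 ∧ v.2 ≤ t) ∧ max l (min r v.1) = w.1 ∧
      max b (min t v.2) = w.2 := by
  unfold Fib
  constructor
  · rintro ⟨h1, h2⟩
    exact ⟨h1, by rw [← h2]; rfl, by rw [← h2]; rfl⟩
  · rintro ⟨h1, h2, h3⟩
    exact ⟨h1, Prod.ext h2 h3⟩

/-- every vertex over `w` is joined over `w` to a fixed one -/
private theorem fib_hub (hlr : l < r) (hbt : b < t) {w : V} (hw : w ∈ Rim l r b t) :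
    ∃ o : V, ∀ x ∈ Fib l r b t w, Conn (Fib l r b t w) x o := by
  rw [mem_rim'] at hw
  obtain ⟨p, q⟩ := w
  dsimp only at hw
  by_cases h1 : q = b
  · refine ⟨(p, b - 1), ?_⟩
    have key : ∀ x y, (x, y) ∈ Fib l r b t (p, q) → y < b →
        Conn (Fib l r b t (p, q)) (x, y) (p, b - 1) := by
      intro x y hx hy
      rw [mem_fib] at hx
      dsimp only at hx
      refine (conn_row (a' := p) fun c hc hc' => ?_).trans (conn_col fun c hc hc' => ?_)
      · rw [mem_fib]
        dsimp only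
        omega
      · rw [mem_fib]
        dsimp only
        omega
    rintro ⟨x, y⟩ hx
    by_cases hy : y < b
    · exact key x y hx hy
    · have hx' := hx
      rw [mem_fib] at hx'
      dsimp only at hx'
      have h2 : (x, b - 1) ∈ Fib l r b t (p, q) := by
        rw [mem_fib]
        dsimp only
        omega
      exact (Conn.of_adj hx h2 (Or.inr (Or.inr (Or.inr (Or.inr (Or.inl
        ⟨rfl, by dsimp only; omega⟩)))))).trans (key x (b - 1) h2 (by omega))
  by_cases h2 : p = r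
  · refine ⟨(r + 1, q), ?_⟩
    have key : ∀ x y, (x, y) ∈ Fib l r b t (p, q) → r < x →
        Conn (Fib l r b t (p, q)) (x, y) (r + 1, q) := by
      intro x y hx hy
      rw [mem_fib] at hx
      dsimp only at hx
      refine (conn_col (b' := q) fun c hc hc' => ?_).trans (conn_row fun c hc hc' => ?_)
      · rw [mem_fib]
        dsimp only
        omega
      · rw [mem_fib]
        dsimp only
        omega
    rintro ⟨x, y⟩ hx
    by_cases hy : r < x
    · exact key x y hx hy
    · have hx' := hx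
      rw [mem_fib] at hx'
      dsimp only at hx'
      have h2 : (r + 1, y) ∈ Fib l r b t (p, q) := by
        rw [mem_fib]
        dsimp only
        omega
      exact (Conn.of_adj hx h2 (Or.inl ⟨by dsimp only; omega, rfl⟩)).trans
        (key (r + 1) y h2 (by omega))
  by_cases h3 : q = t
  · refine ⟨(p, t + 1), ?_⟩
    have key : ∀ x y, (x, y) ∈ Fib l r b t (p, q) → t < y →
        Conn (Fib l r b t (p, q)) (x, y) (p, t + 1) := by
      intro x y hx hy
      rw [mem_fib] at hx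
      dsimp only at hx
      refine (conn_row (a' := p) fun c hc hc' => ?_).trans (conn_col fun c hc hc' => ?_)
      · rw [mem_fib]
        dsimp only
        omega
      · rw [mem_fib]
        dsimp only
        omega
    rintro ⟨x, y⟩ hx
    by_cases hy : t < y
    · exact key x y hx hy
    · have hx' := hx
      rw [mem_fib] at hx'
      dsimp only at hx'
      have h2 : (x, t + 1) ∈ Fib l r b t (p, q) := by
        rw [mem_fib]
        dsimp only
        omega
      exact (Conn.of_adj hx h2 (Or.inr (Or.inl ⟨rfl, by dsimp only; omega⟩))).trans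
        (key x (t + 1) h2 (by omega))
  · refine ⟨(l - 1, q), ?_⟩
    rintro ⟨x, y⟩ hx
    rw [mem_fib] at hx
    dsimp only at hx
    obtain rfl : y = q := by omega
    refine conn_row fun c hc hc' => ?_
    rw [mem_fib]
    dsimp only
    omega

private theorem fib_conn (hlr : l < r) (hbt : b < t) {w x y : V} (hw : w ∈ Rim l r b t)
    (hx : x ∈ Fib l r b t w) (hy : y ∈ Fib l r b t w) : Conn (Fib l r b t w) x y := by
  obtain ⟨o, ho⟩ := fib_hub hlr hbt hw
  exact (ho x hx).trans (ho y hy).symm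

/-- adjacent fibres -/
private theorem fib_edg (hlr : l < r) (hbt : b < t) (hu : u ∈ Rim l r b t)
    (hv : v ∈ Rim l r b t) (h : Edg l r b t u v) :
    ∃ x ∈ Fib l r b t u, ∃ y ∈ Fib l r b t v, Adj x y := by
  rw [mem_rim'] at hu hv
  obtain ⟨p, q⟩ := u
  obtain ⟨p', q'⟩ := v
  unfold Edg at h
  dsimp only at h hu hv
  rcases h with h | h | h | h
  · refine ⟨(p, b - 1), ?_, (p + 1, b - 1), ?_, Or.inl ⟨rfl, rfl⟩⟩
    · rw [mem_fib]
      dsimp only
      omega
    · rw [mem_fib]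
      dsimp only
      omega
  · refine ⟨(r + 1, q), ?_, (r + 1, q + 1), ?_, Or.inr (Or.inl ⟨rfl, rfl⟩)⟩
    · rw [mem_fib]
      dsimp only
      omega
    · rw [mem_fib]
      dsimp only
      omega
  · refine ⟨(p, t + 1), ?_, (p - 1, t + 1), ?_,
      Or.inr (Or.inr (Or.inr (Or.inl ⟨rfl, rfl⟩)))⟩
    · rw [mem_fib]
      dsimp only
      omega
    · rw [mem_fib]
      dsimp only
      omega
  · refine ⟨(l - 1, q), ?_, (l - 1, q - 1), ?_,
      Or.inr (Or.inr (Or.inr (Or.inr (Or.inl ⟨rfl, rfl⟩))))⟩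
    · rw [mem_fib]
      dsimp only
      omega
    · rw [mem_fib]
      dsimp only
      omega

/-- a path on the rim can be lifted -/
private theorem lift (hlr : l < r) (hbt : b < t) {T : Set V} (hT : T ⊆ Rim l r b t) {w w' : V}
    (h : Relation.ReflTransGen (fun x y => (Edg l r b t x y ∨ Edg l r b t y x) ∧ y ∈ T) w w')
    (hw : w ∈ T) {x y : V} (hx : x ∈ Fib l r b t w) (hy : y ∈ Fib l r b t w') :
    Conn {z | z ∉ Par l r b t ∧ clamp l r b t z ∈ T} x y := by
  have hsub : ∀ w ∈ T, Fib l r b t w ⊆ {z | z ∉ Par l r b t ∧ clamp l r b t z ∈ T} := by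
    rintro w hw z ⟨h1, h2⟩
    exact ⟨h1, by rw [h2]; exact hw⟩
  have key : w' ∈ T ∧ ∀ y ∈ Fib l r b t w',
      Conn {z | z ∉ Par l r b t ∧ clamp l r b t z ∈ T} x y := by
    clear hy
    induction h with
    | refl => exact ⟨hw, fun y hy => (fib_conn hlr hbt (hT hw) hx hy).mono (hsub w hw)⟩
    | @tail c d _ hcd ih =>
      refine ⟨hcd.2, fun y hy => ?_⟩
      obtain ⟨x', hx', y', hy', hadj⟩ : ∃ x' ∈ Fib l r b t c, ∃ y' ∈ Fib l r b t d,
          Adj x' y' := by
        rcases hcd.1 with h1 | h1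
        · exact fib_edg hlr hbt (hT ih.1) (hT hcd.2) h1
        · obtain ⟨y', hy', x', hx', h2⟩ := fib_edg hlr hbt (hT hcd.2) (hT ih.1) h1
          exact ⟨x', hx', y', hy', h2.symm⟩
      exact (ih.2 x' hx').trans ((Conn.of_adj (hsub c ih.1 hx') (hsub d hcd.2 hy') hadj).trans
        ((fib_conn hlr hbt (hT hcd.2) hy' hy).mono (hsub d hcd.2)))
  exact key.2 y hy

/-- the walk from a rim vertex to one with a larger key -/
private theorem up (hlr : l < r) (hbt : b < t) (hu : u ∈ Rim l r b t)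
    (hv : v ∈ Rim l r b t) (h : key l r b t u ≤ key l r b t v) {T : Set V}
    (hT : ∀ x ∈ Rim l r b t, key l r b t u ≤ key l r b t x → key l r b t x ≤ key l r b t v →
      x ∈ T) :
    Relation.ReflTransGen (fun x y => (Edg l r b t x y ∨ Edg l r b t y x) ∧ y ∈ T) u v := by
  obtain ⟨hu0, hu1⟩ := key_nonneg hlr hbt hu
  obtain ⟨hv0, hv1⟩ := key_nonneg hlr hbt hv
  obtain ⟨n, hn⟩ := Int.le.dest h
  induction n generalizing v with
  | zero =>
    have h1 : u = v := key_inj hlr hbt hu hv (by omega)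
    rw [h1]
  | succ n ih =>
    obtain ⟨x, hx, hxk⟩ := key_surj hlr hbt (k := key l r b t u + n) (by omega) (by omega)
    refine (ih hx (by omega) (fun y hy h1 h2 => hT y hy h1 (by omega)) (by omega) (by omega)
      (by omega)).tail ⟨Or.inl (edg_of_key hlr hbt hx hv (Or.inl (by omega))),
      hT v hv h le_rfl⟩

theorem conn_out (hlr : l < r) (hbt : b < t) (hu : u ∉ Par l r b t) (hv : v ∉ Par l r b t)
    (h : key l r b t (clamp l r b t u) ≤ key l r b t (clamp l r b t v)) :
    Conn {x | x ∉ Par l r b t ∧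
      key l r b t (clamp l r b t u) ≤ key l r b t (clamp l r b t x) ∧
      key l r b t (clamp l r b t x) ≤ key l r b t (clamp l r b t v)} u v := by
  have hcu := clamp_rim hlr.le hbt.le hu
  have hcv := clamp_rim hlr.le hbt.le hv
  have h1 := lift hlr hbt (T := {x | x ∈ Rim l r b t ∧
      key l r b t (clamp l r b t u) ≤ key l r b t x ∧
      key l r b t x ≤ key l r b t (clamp l r b t v)}) (fun x hx => hx.1)
    (up hlr hbt hcu hcv h fun x hx h1 h2 => ⟨hx, h1, h2⟩) ⟨hcu, le_rfl, h⟩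
    (x := u) (y := v) ⟨hu, rfl⟩ ⟨hv, rfl⟩
  exact h1.mono fun x hx => ⟨hx.1, hx.2.2⟩

theorem conn_out' (hlr : l < r) (hbt : b < t) (hu : u ∉ Par l r b t) (hv : v ∉ Par l r b t)
    (h : key l r b t (clamp l r b t u) ≤ key l r b t (clamp l r b t v)) :
    Conn {x | x ∉ Par l r b t ∧
      (key l r b t (clamp l r b t x) ≤ key l r b t (clamp l r b t u) ∨
      key l r b t (clamp l r b t v) ≤ key l r b t (clamp l r b t x))} u v := by
  have hcu := clamp_rim hlr.le hbt.le hu
  have hcv := clamp_rim hlr.le hbt.le hv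
  have hpos : 0 < rlen l r b t := by
    unfold rlen
    omega
  obtain ⟨hu0, hu1⟩ := key_nonneg hlr hbt hcu
  obtain ⟨hv0, hv1⟩ := key_nonneg hlr hbt hcv
  obtain ⟨z, hz, hz0⟩ := key_surj hlr hbt le_rfl hpos
  obtain ⟨w, hw, hw0⟩ := key_surj hlr hbt (k := rlen l r b t - 1) (by omega) (by omega)
  obtain ⟨z', hz1, hz2, -⟩ := out_nbr hlr hbt hz
  obtain ⟨w', hw1, hw2, -⟩ := out_nbr hlr hbt hw
  have h1 := lift hlr hbt (T := {x | x ∈ Rim l r b t ∧
      key l r b t x ≤ key l r b t (clamp l r b t u)}) (fun x hx => hx.1)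
    (up hlr hbt hz hcu (by omega) fun x hx _ h2 => ⟨hx, h2⟩) ⟨hz, by omega⟩
    (x := z') (y := u) ⟨hz1, hz2⟩ ⟨hu, rfl⟩
  have h2 := lift hlr hbt (T := {x | x ∈ Rim l r b t ∧
      key l r b t (clamp l r b t v) ≤ key l r b t x}) (fun x hx => hx.1)
    (up hlr hbt hcv hw (by omega) fun x hx h2 _ => ⟨hx, h2⟩) ⟨hcv, le_rfl⟩
    (x := v) (y := w') ⟨hv, rfl⟩ ⟨hw1, hw2⟩
  have h3 := lift hlr hbt (T := {x | x ∈ Rim l r b t ∧
      (x = z ∨ x = w)}) (fun x hx => hx.1)
    (w := z) (w' := w) (Relation.ReflTransGen.single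
      ⟨Or.inr (edg_of_key hlr hbt hw hz (Or.inr ⟨hz0, hw0⟩)), hw, Or.inr rfl⟩)
    ⟨hz, Or.inl rfl⟩ (x := z') (y := w') ⟨hz1, hz2⟩ ⟨hw1, hw2⟩
  refine (h1.symm.mono ?_).trans ((h3.mono ?_).trans (h2.symm.mono ?_))
  · rintro x ⟨a1, a2, a3⟩
    exact ⟨a1, Or.inl a3⟩
  · rintro x ⟨a1, a2, a3 | a3⟩
    · exact ⟨a1, Or.inl (by rw [a3]; omega)⟩
    · exact ⟨a1, Or.inr (by rw [a3]; omega)⟩
  · rintro x ⟨a1, a2, a3⟩
    exact ⟨a1, Or.inr a3⟩

end Pool.Agent.TriPerc
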