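import Pool.Agent.TriPerc.Osss
import Mathlib.MeasureTheory.Order.Group.Lattice

/-!
# The OSSS inequality, conditionally on the labels outside a set

Let `F` be a property of the set of open vertices of the finite set `Q`, `M` a set which contains the
blocks `B i`, and for every set `o` (the open vertices of `Q \ M`) let `T o` be a tree which
computes `F` if the open vertices outside `M` are `o`.  If for all `o` the block `i` is asked with
probability at most `D i`, then
`P.prod P {F (w) and not F (mix M w w')} ≤ ∑ i, D i * P.prod P {F (w) and F (mix (B i) w w')` are not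
equivalent`}`.

PROOF.  Put `φ w = 1` if `F (Op p w ∩ Q)` and `0` otherwise; measurable (`ev_op`).  For
`w0 : Lab` let `g w = φ (mix M w0 w)` (labels in `M` from `w`, outside from `w0`).  By hypothesis
`hval` with `o = Op p w0 ∩ (Q \ M)`, `g w = val (T o) w`.  `osss` with this `g` and `T = T o`:
`∫ g - (∫ g)^2 ≤ ∑ i, P (i ∈ rv (T o)) inf (B i) g ≤ ∑ i, D i * inf (B i) g` (`g ^ 2 = g`).  Moreover
`∫ g - (∫ g)^2 = ∫∫ φ (mix M w0 w) (1 - φ (mix M w0 w')) dP(w) dP(w')`.  Integrate over `w0` and put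
`u = mix M w0 w`, which has the law `P` (`mp_mix`) and is independent of `w'`; `mix M w0 w' =
mix M u w'`, so the left side becomes `∫∫ φ u (1 - φ (mix M u w'))`.  On the right side
`inf (B i) g = ∫∫ |φ (mix M w0 w) - φ (mix M w0 (mix (B i) w w'))|`, and
`mix M w0 (mix (B i) w w') = mix (B i) (mix M w0 w) w'` as `B i ⊆ M`, so after the integration it is
`∫∫ |φ u - φ (mix (B i) u w')|`, the probability that the two properties are not equivalent.
-/

namespace Pool.Agent.TriPerc

open MeasureTheory Set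

private theorem intb {α : Type} [MeasurableSpace α] (μ : Measure α) [IsFiniteMeasure μ]
    {f : α → ℝ} (hf : Measurable f) {C : ℝ} (h : ∀ x, |f x| ≤ C) : Integrable f μ :=
  Integrable.of_bound hf.aestronglyMeasurable C (Filter.Eventually.of_forall h)

private theorem mix_in {s : Set V} {v : V} (hv : v ∈ s) (w w' : Lab) : mix s w w' v = w' v := by
  simp [mix, hv]

private theorem mix_out {s : Set V} {v : V} (hv : v ∉ s) (w w' : Lab) : mix s w w' v = w v := by
  simp [mix, hv]

private theorem ind_one {α : Type} {S : Set α} {z : α} (h : z ∈ S) :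
    S.indicator (1 : α → ℝ) z = 1 := by
  rw [indicator_of_mem h, Pi.one_apply]

private theorem ind_zero {α : Type} {S : Set α} {z : α} (h : z ∉ S) :
    S.indicator (1 : α → ℝ) z = 0 := indicator_of_notMem h _

private theorem mixint (M : Set V) {f : Lab → ℝ} (hf : Measurable f) {C : ℝ}
    (hC : ∀ w, |f w| ≤ C) : ∫ w, f w ∂P = ∫ w0, ∫ w, f (mix M w0 w) ∂P ∂P := by
  have h1 : ∫ w, f w ∂P = ∫ z, f (mix M z.1 z.2) ∂(P.prod P) := by
    conv_lhs => rw [← (mp_mix M).map_eq]
    exact integral_map (mp_mix M).measurable.aemeasurable hf.aestronglyMeasurable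
  have h2 : Integrable (fun z : Lab × Lab => f (mix M z.1 z.2)) (P.prod P) :=
    intb _ (hf.comp (mp_mix M).measurable) fun z => hC _
  rw [h1, integral_prod _ h2]

theorem osss_cond {ι : Type} [Fintype ι] {B : ι → Set V} {M Q : Set V} {p : ℝ}
    (hB : ∀ i, (B i).Finite) (hd : ∀ i j, i ≠ j → Disjoint (B i) (B j)) (hM : ∀ i, B i ⊆ M)
    (hQ : Q.Finite) (F : Set V → Prop) (T : Set V → Tr ι) (hT : ∀ o, (T o).Fresh ∅)
    (hval : ∀ w0 w : Lab,
      ((T (Op p w0 ∩ (Q \ M))).val B p w = 1 ↔ F (Op p (mix M w0 w) ∩ Q)))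
    (D : ι → ℝ) (hD : ∀ o i, (P {w | i ∈ (T o).rv B p w}).toReal ≤ D i) :
    ((P.prod P) {z : Lab × Lab | F (Op p z.1 ∩ Q) ∧ ¬ F (Op p (mix M z.1 z.2) ∩ Q)}).toReal ≤
      ∑ i, D i * ((P.prod P) {z : Lab × Lab |
        ¬ (F (Op p z.1 ∩ Q) ↔ F (Op p (mix (B i) z.1 z.2) ∩ Q))}).toReal := by
  classical
  have hA : MeasurableSet {w : Lab | F (Op p w ∩ Q)} := (ev_op hQ p F).1
  obtain ⟨φ, hφ⟩ : ∃ φ : Lab → ℝ, φ = {w : Lab | F (Op p w ∩ Q)}.indicator fun _ => (1 : ℝ) :=
    ⟨_, rfl⟩
  have hφ1 : ∀ w, F (Op p w ∩ Q) → φ w = 1 := fun w hw => by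
    rw [hφ]
    exact indicator_of_mem (show w ∈ {w : Lab | F (Op p w ∩ Q)} from hw) _
  have hφ0 : ∀ w, ¬ F (Op p w ∩ Q) → φ w = 0 := fun w hw => by
    rw [hφ]
    exact indicator_of_notMem (show w ∉ {w : Lab | F (Op p w ∩ Q)} from hw) _
  have hφm : Measurable φ := by
    rw [hφ]
    exact measurable_const.indicator hA
  have hφc : ∀ w, φ w = 0 ∨ φ w = 1 := fun w => by
    by_cases h : F (Op p w ∩ Q)
    · exact Or.inr (hφ1 w h)
    · exact Or.inl (hφ0 w h)
  have hφb : ∀ w, |φ w| ≤ 1 := fun w => by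
    rcases hφc w with h | h <;> rw [h] <;> simp
  have hmM : ∀ s : Set V, Measurable fun z : Lab × Lab => φ (mix s z.1 z.2) := fun s =>
    hφm.comp (mp_mix s).measurable
  have hmw : ∀ (s : Set V) (w0 : Lab), Measurable fun w => φ (mix s w0 w) := fun s w0 =>
    hφm.comp ((mp_mix s).measurable.comp measurable_prodMk_left)
  obtain ⟨ψ, hψ⟩ : ∃ ψ : Lab → ℝ, ∀ u, ψ u = ∫ w, φ (mix M u w) ∂P := ⟨_, fun _ => rfl⟩
  have hψm : Measurable ψ := by
    have h1 : ψ = fun u => ∫ w, φ (mix M u w) ∂P := funext hψ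
    rw [h1]
    exact ((hmM M).stronglyMeasurable.integral_prod_right').measurable
  have hψb : ∀ u, |ψ u| ≤ 1 := by
    intro u
    have := norm_integral_le_of_norm_le_const (μ := P) (C := 1)
      (f := fun w => φ (mix M u w)) (Filter.Eventually.of_forall fun x => hφb _)
    rw [probReal_univ, mul_one] at this
    rw [hψ]
    exact this
  have hψmix : ∀ w0 w, ψ (mix M w0 w) = ψ w0 := by
    intro w0 w
    rw [hψ, hψ]
    congr 1
    funext w'
    congr 1
    funext v
    by_cases hv : v ∈ M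
    · rw [mix_in hv, mix_in hv]
    · rw [mix_out hv, mix_out hv, mix_out hv]
  -- the left side
  have hL : ((P.prod P) {z : Lab × Lab | F (Op p z.1 ∩ Q) ∧
      ¬ F (Op p (mix M z.1 z.2) ∩ Q)}).toReal = ∫ w0, ψ w0 * (1 - ψ w0) ∂P := by
    have hS : MeasurableSet {z : Lab × Lab | F (Op p z.1 ∩ Q) ∧
        ¬ F (Op p (mix M z.1 z.2) ∩ Q)} :=
      (measurable_fst hA).inter ((mp_mix M).measurable hA).compl
    have h1 : ((P.prod P) {z : Lab × Lab | F (Op p z.1 ∩ Q) ∧
        ¬ F (Op p (mix M z.1 z.2) ∩ Q)}).toReal =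
        ∫ z : Lab × Lab, φ z.1 * (1 - φ (mix M z.1 z.2)) ∂(P.prod P) := by
      have h2 := integral_indicator_one (μ := P.prod P) hS
      rw [Measure.real] at h2
      rw [← h2]
      congr 1
      funext z
      by_cases h3 : F (Op p z.1 ∩ Q)
      · by_cases h4 : F (Op p (mix M z.1 z.2) ∩ Q)
        · have h5 : z ∉ {z : Lab × Lab | F (Op p z.1 ∩ Q) ∧
              ¬ F (Op p (mix M z.1 z.2) ∩ Q)} := fun h => h.2 h4
          rw [hφ1 _ h3, hφ1 _ h4, ind_zero h5]
          ring
        · have h5 : z ∈ {z : Lab × Lab | F (Op p z.1 ∩ Q) ∧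
              ¬ F (Op p (mix M z.1 z.2) ∩ Q)} := ⟨h3, h4⟩
          rw [hφ1 _ h3, hφ0 _ h4, ind_one h5]
          ring
      · have h5 : z ∉ {z : Lab × Lab | F (Op p z.1 ∩ Q) ∧
            ¬ F (Op p (mix M z.1 z.2) ∩ Q)} := fun h => h3 h.1
        rw [hφ0 _ h3, ind_zero h5]
        ring
    have h2 : Integrable (fun z : Lab × Lab => φ z.1 * (1 - φ (mix M z.1 z.2))) (P.prod P) := by
      refine intb _ ((hφm.comp measurable_fst).mul (measurable_const.sub (hmM M))) (C := 1)
        fun z => ?_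
      rcases hφc z.1 with h | h <;> rcases hφc (mix M z.1 z.2) with h' | h' <;> rw [h, h'] <;> simp
    have h3 : ∀ u, ∫ w, φ u * (1 - φ (mix M u w)) ∂P = φ u * (1 - ψ u) := by
      intro u
      rw [integral_const_mul, integral_sub (integrable_const _)
        (intb P (hmw M u) fun w => hφb _), hψ]
      simp
    rw [h1, integral_prod _ h2]
    simp only [h3]
    rw [mixint M (f := fun u => φ u * (1 - ψ u)) (hφm.mul (measurable_const.sub hψm)) (C := 2)]
    · congr 1
      funext w0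
      simp only [hψmix]
      rw [integral_mul_const, hψ]
    · intro w
      rw [abs_mul]
      have h4 : |1 - ψ w| ≤ 2 := by
        have := abs_le.1 (hψb w)
        rw [abs_le]
        constructor <;> linarith [this.1, this.2]
      calc |φ w| * |1 - ψ w| ≤ 1 * 2 :=
            mul_le_mul (hφb w) h4 (abs_nonneg _) zero_le_one
        _ = 2 := by norm_num
  -- the right side
  obtain ⟨H, hH⟩ : ∃ H : ι → Lab → ℝ, ∀ i u, H i u =
      ∫ w, |φ u - φ (mix (B i) u w)| ∂P := ⟨_, fun _ _ => rfl⟩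
  have hhm : ∀ i, Measurable fun z : Lab × Lab => |φ z.1 - φ (mix (B i) z.1 z.2)| := fun i =>
    ((hφm.comp measurable_fst).sub (hmM (B i))).abs
  have hhb : ∀ i (z : Lab × Lab), |(|φ z.1 - φ (mix (B i) z.1 z.2)|)| ≤ 2 := by
    intro i z
    rw [abs_abs]
    rcases hφc z.1 with h | h <;> rcases hφc (mix (B i) z.1 z.2) with h' | h' <;>
      rw [h, h'] <;> norm_num
  have hHm : ∀ i, Measurable (H i) := by
    intro i
    have h1 : H i = fun u => ∫ w, |φ u - φ (mix (B i) u w)| ∂P := funext (hH i)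
    rw [h1]
    exact ((hhm i).stronglyMeasurable.integral_prod_right').measurable
  have hHb : ∀ i u, |H i u| ≤ 2 := by
    intro i u
    have := norm_integral_le_of_norm_le_const (μ := P) (C := 2)
      (f := fun w => |φ u - φ (mix (B i) u w)|)
      (Filter.Eventually.of_forall fun x => hhb i (u, x))
    rw [probReal_univ, mul_one] at this
    rw [hH]
    exact this
  have hR : ∀ i, ((P.prod P) {z : Lab × Lab |
      ¬ (F (Op p z.1 ∩ Q) ↔ F (Op p (mix (B i) z.1 z.2) ∩ Q))}).toReal = ∫ u, H i u ∂P := by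
    intro i
    have hS : MeasurableSet {z : Lab × Lab |
        ¬ (F (Op p z.1 ∩ Q) ↔ F (Op p (mix (B i) z.1 z.2) ∩ Q))} := by
      have e1 : {z : Lab × Lab |
          ¬ (F (Op p z.1 ∩ Q) ↔ F (Op p (mix (B i) z.1 z.2) ∩ Q))} =
          ({z : Lab × Lab | F (Op p z.1 ∩ Q)} ∩
            {z : Lab × Lab | F (Op p (mix (B i) z.1 z.2) ∩ Q)}ᶜ) ∪
          ({z : Lab × Lab | F (Op p z.1 ∩ Q)}ᶜ ∩
            {z : Lab × Lab | F (Op p (mix (B i) z.1 z.2) ∩ Q)}) := by
        ext z
        change ¬ (F (Op p z.1 ∩ Q) ↔ F (Op p (mix (B i) z.1 z.2) ∩ Q)) ↔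
          (F (Op p z.1 ∩ Q) ∧ ¬ F (Op p (mix (B i) z.1 z.2) ∩ Q)) ∨
          (¬ F (Op p z.1 ∩ Q) ∧ F (Op p (mix (B i) z.1 z.2) ∩ Q))
        tauto
      rw [e1]
      have m1 : MeasurableSet {z : Lab × Lab | F (Op p z.1 ∩ Q)} := measurable_fst hA
      have m2 : MeasurableSet {z : Lab × Lab | F (Op p (mix (B i) z.1 z.2) ∩ Q)} :=
        (mp_mix (B i)).measurable hA
      exact (m1.inter m2.compl).union (m1.compl.inter m2)
    have h1 : ((P.prod P) {z : Lab × Lab |
        ¬ (F (Op p z.1 ∩ Q) ↔ F (Op p (mix (B i) z.1 z.2) ∩ Q))}).toReal =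
        ∫ z : Lab × Lab, |φ z.1 - φ (mix (B i) z.1 z.2)| ∂(P.prod P) := by
      have h2 := integral_indicator_one (μ := P.prod P) hS
      rw [Measure.real] at h2
      rw [← h2]
      congr 1
      funext z
      have e3 : z ∈ {z : Lab × Lab |
          ¬ (F (Op p z.1 ∩ Q) ↔ F (Op p (mix (B i) z.1 z.2) ∩ Q))} ↔
          ¬ (F (Op p z.1 ∩ Q) ↔ F (Op p (mix (B i) z.1 z.2) ∩ Q)) := Iff.rfl
      by_cases h3 : F (Op p z.1 ∩ Q)
      · by_cases h4 : F (Op p (mix (B i) z.1 z.2) ∩ Q)
        · rw [hφ1 _ h3, hφ1 _ h4, ind_zero (by rw [e3]; tauto)]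
          simp
        · rw [hφ1 _ h3, hφ0 _ h4, ind_one (by rw [e3]; tauto)]
          simp
      · by_cases h4 : F (Op p (mix (B i) z.1 z.2) ∩ Q)
        · rw [hφ0 _ h3, hφ1 _ h4, ind_one (by rw [e3]; tauto)]
          simp
        · rw [hφ0 _ h3, hφ0 _ h4, ind_zero (by rw [e3]; tauto)]
          simp
    rw [h1, integral_prod _ (intb _ (hhm i) (hhb i))]
    simp only [← hH]
  have hinf : ∀ i w0, inf (B i) (fun w => φ (mix M w0 w)) = ∫ w, H i (mix M w0 w) ∂P := by
    intro i w0
    have hmix : ∀ w w', mix M w0 (mix (B i) w w') = mix (B i) (mix M w0 w) w' := by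
      intro w w'
      funext v
      by_cases hv : v ∈ B i
      · rw [mix_in (hM i hv), mix_in hv, mix_in hv]
      · rw [mix_out hv]
        by_cases hv' : v ∈ M
        · rw [mix_in hv', mix_in hv', mix_out hv]
        · rw [mix_out hv', mix_out hv']
    unfold inf
    simp only [hmix]
    have hm1 : Measurable fun z : Lab × Lab => (mix M w0 z.1, z.2) :=
      ((mp_mix M).measurable.comp (measurable_const.prodMk measurable_fst)).prodMk measurable_snd
    have hI : Integrable (fun z : Lab × Lab =>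
        |φ (mix M w0 z.1) - φ (mix (B i) (mix M w0 z.1) z.2)|) (P.prod P) :=
      intb _ ((hhm i).comp hm1) fun z => hhb i (mix M w0 z.1, z.2)
    rw [integral_prod _ hI]
    simp only [hH]
  have hinfm : ∀ i, Measurable fun w0 => inf (B i) (fun w => φ (mix M w0 w)) := by
    intro i
    have e : (fun w0 => inf (B i) (fun w => φ (mix M w0 w))) =
        fun w0 => ∫ w, H i (mix M w0 w) ∂P := funext (hinf i)
    rw [e]
    exact (((hHm i).comp (mp_mix M).measurable).stronglyMeasurable.integral_prod_right').measurable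
  have hinfb : ∀ i w0, |inf (B i) (fun w => φ (mix M w0 w))| ≤ 2 := by
    intro i w0
    have := norm_integral_le_of_norm_le_const (μ := P) (C := 2)
      (f := fun w => H i (mix M w0 w)) (Filter.Eventually.of_forall fun x => hHb i _)
    rw [probReal_univ, mul_one] at this
    rw [hinf]
    exact this
  -- the inequality for fixed labels outside
  have hpt : ∀ w0, ψ w0 * (1 - ψ w0) ≤
      ∑ i, D i * inf (B i) (fun w => φ (mix M w0 w)) := by
    intro w0
    have hv : ∀ w, (T (Op p w0 ∩ (Q \ M))).val B p w = φ (mix M w0 w) := by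
      intro w
      by_cases h : F (Op p (mix M w0 w) ∩ Q)
      · rw [hφ1 _ h]
        exact (hval w0 w).2 h
      · rw [hφ0 _ h]
        rcases val_bound (B := B) (p := p) (T (Op p w0 ∩ (Q \ M))) w with h1 | h1
        · exact h1
        · exact absurd ((hval w0 w).1 h1) h
    have h1 := osss (p := p) hB hd (hT (Op p w0 ∩ (Q \ M))) (hmw M w0) fun w => hφb _
    simp only [hv] at h1
    have h2 : ∀ w, φ (mix M w0 w) * φ (mix M w0 w) = φ (mix M w0 w) := by
      intro w
      rcases hφc (mix M w0 w) with h | h <;> rw [h] <;> simp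
    simp only [h2, ← hψ] at h1
    have h3 := (le_abs_self _).trans h1
    have h4 : ψ w0 * (1 - ψ w0) = ψ w0 - ψ w0 * ψ w0 := by ring
    rw [h4]
    refine h3.trans (Finset.sum_le_sum fun i _ => ?_)
    refine mul_le_mul_of_nonneg_right (hD _ i) ?_
    exact integral_nonneg fun z => abs_nonneg _
  rw [hL]
  have h5 : ∫ w0, ∑ i, D i * inf (B i) (fun w => φ (mix M w0 w)) ∂P =
      ∑ i, D i * ((P.prod P) {z : Lab × Lab |
        ¬ (F (Op p z.1 ∩ Q) ↔ F (Op p (mix (B i) z.1 z.2) ∩ Q))}).toReal := by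
    rw [integral_finsetSum _ fun i _ => (intb P (hinfm i) (hinfb i)).const_mul _]
    refine Finset.sum_congr rfl fun i _ => ?_
    rw [integral_const_mul, hR i]
    congr 1
    simp only [hinf]
    exact (mixint M (hHm i) (hHb i)).symm
  rw [← h5]
  refine integral_mono ?_ ?_ hpt
  · refine intb P (hψm.mul (measurable_const.sub hψm)) (C := 2) fun w => ?_
    rw [abs_mul]
    have h4 : |1 - ψ w| ≤ 2 := by
      have := abs_le.1 (hψb w)
      rw [abs_le]
      constructor <;> linarith [this.1, this.2]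
    calc |ψ w| * |1 - ψ w| ≤ 1 * 2 :=
          mul_le_mul (hψb w) h4 (abs_nonneg _) zero_le_one
      _ = 2 := by norm_num
  · exact integrable_finsetSum _ fun i _ => (intb P (hinfm i) (hinfb i)).const_mul _

end Pool.Agent.TriPerc
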