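import Pool.Agent.TriPerc.WinMx

/-!
# The recursion for mixed four arms

* `card_sph`: the sphere `{v | nrm v = d}`, `d ≥ 1`, has at most `12 d` elements.  PROOF.  By
  definition of `nrm` every such `v = (a, b)` satisfies `b = d` and `-d ≤ a ≤ 0`, or `b = -d` and
  `0 ≤ a ≤ d`, or `a = d` and `-d ≤ b ≤ 0`, or `a = -d` and `0 ≤ b ≤ d`, or `a + b = d` and
  `0 ≤ a ≤ d`, or `a + b = -d` and `-d ≤ a ≤ 0`: at most `6 (d + 1) ≤ 12 d` points.
* `unif_Ioc`: `P {w | a < w v ≤ b} = b - a` for `0 ≤ a ≤ b ≤ 1` (`Ev {v}`; `unif_Iic`, the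
  coordinate is measure preserving, `measurePreserving_eval_infinitePi`).
* `mxg_rec`: from `mxg_split` by the union bound over `u` (`d = nrm u`) and independence: the
  events `a < w u ≤ b`, `Four (Op p w) 0 (8 n) (d / 2)`, `MxG a b u 1 (d / 4)` and
  `MxG a b 0 (2 d) m` depend on the labels in `{u}`, `Ann 0 (8 n) (d / 2)`, `Ann u 1 (d / 4)` and
  `Ann 0 (2 d) m`, which are pairwise disjoint (a vertex `x` of `Ann u 1 (d / 4)` has
  `x ≠ u` and `3 d / 4 ≤ nrm x ≤ 5 d / 4`, `d ≥ 8`); `indep_iInter` or `indep` three times, `ev_mxg`,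
  `ev_four`, `mxg_tr`.
-/

namespace Pool.Agent.TriPerc

open MeasureTheory Set

/-- The candidates for the sphere. -/
private noncomputable def sph (d : ℤ) : Finset V :=
  (((((Finset.Icc (-d) 0).image (fun a => ((a, d) : V)) ∪
    (Finset.Icc 0 d).image (fun a => ((a, -d) : V))) ∪
    (Finset.Icc (-d) 0).image (fun b => ((d, b) : V))) ∪
    (Finset.Icc 0 d).image (fun b => ((-d, b) : V))) ∪
    (Finset.Icc 0 d).image (fun a => ((a, d - a) : V))) ∪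
    (Finset.Icc (-d) 0).image (fun a => ((a, -d - a) : V))

private theorem nrm_eq_iff (v : V) (d : ℤ) : nrm v = d ↔
    ((-d ≤ v.1 ∧ v.1 ≤ d) ∧ (-d ≤ v.2 ∧ v.2 ≤ d) ∧ (-d ≤ v.1 + v.2 ∧ v.1 + v.2 ≤ d)) ∧
    ((v.1 ≤ -d ∨ d ≤ v.1) ∨ (v.2 ≤ -d ∨ d ≤ v.2) ∨ (v.1 + v.2 ≤ -d ∨ d ≤ v.1 + v.2)) := by
  unfold nrm
  rw [le_antisymm_iff, max_le_iff, max_le_iff, le_max_iff, le_max_iff, abs_le, abs_le, abs_le,
    le_abs', le_abs', le_abs', or_assoc]
  constructor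
  · rintro ⟨⟨⟨h1, h2⟩, h3⟩, h4⟩
    exact ⟨⟨h1, h2, h3⟩, h4⟩
  · rintro ⟨⟨h1, h2, h3⟩, h4⟩
    exact ⟨⟨⟨h1, h2⟩, h3⟩, h4⟩

private theorem mem_sph (d : ℤ) (hd : 1 ≤ d) (v : V) : v ∈ sph d ↔ nrm v = d := by
  rw [nrm_eq_iff]
  obtain ⟨x, y⟩ := v
  simp only [sph, Finset.mem_union, Finset.mem_image, Finset.mem_Icc, Prod.mk.injEq]
  constructor
  · rintro (((((⟨a, ha, rfl, rfl⟩ | ⟨a, ha, rfl, rfl⟩) | ⟨a, ha, rfl, rfl⟩) |
      ⟨a, ha, rfl, rfl⟩) | ⟨a, ha, rfl, rfl⟩) | ⟨a, ha, rfl, rfl⟩) <;> omega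
  · rintro ⟨⟨h1, h2, h3⟩, (h | h) | (h | h) | (h | h)⟩
    · exact Or.inl (Or.inl (Or.inr ⟨y, by omega, by omega, rfl⟩))
    · exact Or.inl (Or.inl (Or.inl (Or.inr ⟨y, by omega, by omega, rfl⟩)))
    · exact Or.inl (Or.inl (Or.inl (Or.inl (Or.inr ⟨x, by omega, rfl, by omega⟩))))
    · exact Or.inl (Or.inl (Or.inl (Or.inl (Or.inl ⟨x, by omega, rfl, by omega⟩))))
    · exact Or.inr ⟨x, by omega, rfl, by omega⟩
    · exact Or.inl (Or.inr ⟨x, by omega, rfl, by omega⟩)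

private theorem card_sph' (d : ℤ) (hd : 1 ≤ d) : (sph d).card ≤ 12 * d.toNat := by
  have h1 : ∀ f : ℤ → V, ((Finset.Icc (-d) 0).image f).card ≤ d.toNat + 1 := by
    intro f
    refine Finset.card_image_le.trans ?_
    rw [Int.card_Icc]
    omega
  have h2 : ∀ f : ℤ → V, ((Finset.Icc 0 d).image f).card ≤ d.toNat + 1 := by
    intro f
    refine Finset.card_image_le.trans ?_
    rw [Int.card_Icc]
    omega
  unfold sph
  refine (Finset.card_union_le _ _).trans ?_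
  refine (Nat.add_le_add ((Finset.card_union_le _ _).trans (Nat.add_le_add
    ((Finset.card_union_le _ _).trans (Nat.add_le_add ((Finset.card_union_le _ _).trans
    (Nat.add_le_add ((Finset.card_union_le _ _).trans (Nat.add_le_add (h1 _) (h2 _)))
    (h1 _))) (h2 _))) (h2 _))) (h1 _)).trans ?_
  omega

theorem card_sph (d : ℤ) (hd : 1 ≤ d) :
    ∃ s : Finset V, (∀ v, v ∈ s ↔ nrm v = d) ∧ (s.card : ℝ) ≤ 12 * d := by
  refine ⟨sph d, mem_sph d hd, ?_⟩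
  have h1 : ((sph d).card : ℝ) ≤ ((12 * d.toNat : ℕ) : ℝ) := Nat.cast_le.2 (card_sph' d hd)
  refine h1.trans (le_of_eq ?_)
  have h2 : ((d.toNat : ℤ) : ℝ) = (d : ℝ) := by
    rw [Int.toNat_of_nonneg (by omega)]
  rw [Nat.cast_mul, ← h2]
  push_cast
  ring

theorem unif_Ioc {a b : ℝ} (h0 : 0 ≤ a) (hab : a ≤ b) (h1 : b ≤ 1) (v : V) :
    Ev {v} {w : Lab | a < w v ∧ w v ≤ b} ∧ (P {w : Lab | a < w v ∧ w v ≤ b}).toReal = b - a := by
  have hs : {w : Lab | a < w v ∧ w v ≤ b} = (fun w : Lab => w v) ⁻¹' (Set.Ioc a b) := rfl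
  refine ⟨⟨?_, ?_⟩, ?_⟩
  · rw [hs]
    exact measurable_pi_apply v measurableSet_Ioc
  · rintro w w' h ⟨h2, h3⟩
    have h4 := h v rfl
    exact ⟨by rw [← h4]; exact h2, by rw [← h4]; exact h3⟩
  · have h5 := (measurePreserving_eval_infinitePi (fun _ : V => unif) v).measure_preimage
      (s := Set.Ioc a b) measurableSet_Ioc.nullMeasurableSet
    have h6 : P {w : Lab | a < w v ∧ w v ≤ b} = unif (Set.Ioc a b) := h5
    have h7 : Set.Ioc a b ∩ Set.Icc 0 1 = Set.Ioc a b :=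
      Set.inter_eq_left.2 fun x hx => ⟨h0.trans hx.1.le, hx.2.trans h1⟩
    rw [h6, unif, Measure.restrict_apply measurableSet_Ioc, h7, Real.volume_Ioc,
      ENNReal.toReal_ofReal (sub_nonneg.2 hab)]

/-- The event at the vertex `u`. -/
private def Evt (a b p : ℝ) (n m d : ℤ) (u : V) : Set Lab :=
  {w : Lab | a < w u ∧ w u ≤ b} ∩ ({w : Lab | 32 * n ≤ d → Four (Op p w) 0 (8 * n) (d / 2)} ∩
    (MxG a b u 1 (d / 4) ∩ MxG a b 0 (2 * d) m))

private theorem ev_imp (p : ℝ) (n d : ℤ) :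
    Ev (Ann 0 (8 * n) (d / 2)) {w : Lab | 32 * n ≤ d → Four (Op p w) 0 (8 * n) (d / 2)} := by
  by_cases h : 32 * n ≤ d
  · have h1 := ev_four p 0 (8 * n) (d / 2)
    have h2 : {w : Lab | 32 * n ≤ d → Four (Op p w) 0 (8 * n) (d / 2)} =
        {w : Lab | Four (Op p w) 0 (8 * n) (d / 2)} := by
      ext w
      exact ⟨fun h3 => h3 h, fun h3 _ => h3⟩
    rw [h2]
    exact h1
  · have h2 : {w : Lab | 32 * n ≤ d → Four (Op p w) 0 (8 * n) (d / 2)} = Set.univ := by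
      ext w
      exact ⟨fun _ => trivial, fun _ h4 => absurd h4 h⟩
    rw [h2]
    exact ev_univ

private theorem pr_imp (p : ℝ) (n d : ℤ) :
    (P {w : Lab | 32 * n ≤ d → Four (Op p w) 0 (8 * n) (d / 2)}).toReal =
      if 32 * n ≤ d then xf p (8 * n) (d / 2) else 1 := by
  by_cases h : 32 * n ≤ d
  · have h2 : {w : Lab | 32 * n ≤ d → Four (Op p w) 0 (8 * n) (d / 2)} =
        {w : Lab | Four (Op p w) 0 (8 * n) (d / 2)} := by
      ext w
      exact ⟨fun h3 => h3 h, fun h3 _ => h3⟩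
    rw [h2, if_pos h]
    rfl
  · have h2 : {w : Lab | 32 * n ≤ d → Four (Op p w) 0 (8 * n) (d / 2)} = Set.univ := by
      ext w
      exact ⟨fun _ => trivial, fun _ h4 => absurd h4 h⟩
    rw [h2, if_neg h, measure_univ, ENNReal.toReal_one]

private theorem pr_evt {a b p : ℝ} {n m d : ℤ} {u : V} (h0 : 0 ≤ a) (hab : a ≤ b) (h1 : b ≤ 1)
    (hn : 1 ≤ n) (hd : 8 * n ≤ d) (hu : nrm u = d) :
    (P (Evt a b p n m d u)).toReal = (b - a) * ((if 32 * n ≤ d then xf p (8 * n) (d / 2) else 1) *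
      (yf a b 1 (d / 4) * yf a b (2 * d) m)) := by
  have e1 := (unif_Ioc h0 hab h1 u).1
  have e2 := ev_imp p n d
  have e3 := ev_mxg hab u 1 (d / 4)
  have e4 := ev_mxg hab 0 (2 * d) m
  have d34 : Disjoint (Ann u 1 (d / 4)) (Ann 0 (2 * d) m) := by
    rw [Set.disjoint_left]
    rintro x ⟨-, hx⟩ ⟨hx', -⟩
    rw [sub_zero] at hx'
    have h2 := nrm_add (x - u) u
    rw [sub_add_cancel, hu] at h2
    omega
  have d2 : Disjoint (Ann 0 (8 * n) (d / 2)) (Ann u 1 (d / 4) ∪ Ann 0 (2 * d) m) := by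
    rw [Set.disjoint_left]
    rintro x ⟨-, hx⟩ (⟨-, hx'⟩ | ⟨hx', -⟩)
    · rw [sub_zero] at hx
      have h2 := nrm_add x (-(x - u))
      rw [nrm_neg, ← sub_eq_add_neg, sub_sub_cancel, hu] at h2
      omega
    · rw [sub_zero] at hx hx'
      omega
  have d1 : Disjoint ({u} : Set V) (Ann 0 (8 * n) (d / 2) ∪
      (Ann u 1 (d / 4) ∪ Ann 0 (2 * d) m)) := by
    rw [Set.disjoint_left]
    rintro x hx h2
    rw [Set.mem_singleton_iff] at hx
    subst hx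
    rcases h2 with ⟨-, h2⟩ | ⟨h2, -⟩ | ⟨h2, -⟩
    · rw [sub_zero] at h2
      omega
    · rw [sub_self, nrm_zero_iff.2 rfl] at h2
      omega
    · rw [sub_zero] at h2
      omega
  have e34 := (e3.mono Set.subset_union_left).inter
    (e4.mono (Set.subset_union_right (s := Ann u 1 (d / 4))))
  have e234 := (e2.mono Set.subset_union_left).inter
    (e34.mono (Set.subset_union_right (s := Ann 0 (8 * n) (d / 2))))
  unfold Evt
  rw [indep e1 e234 d1, indep e2 e34 d2, indep e3 e4 d34, mxg_tr a b u 1 (d / 4),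
    ENNReal.toReal_mul, ENNReal.toReal_mul, ENNReal.toReal_mul, (unif_Ioc h0 hab h1 u).2, pr_imp]
  rfl

theorem mxg_rec {a b p : ℝ} {n m : ℤ} (h0 : 0 ≤ a) (ha : a ≤ p) (hb : p ≤ b) (h1 : b ≤ 1)
    (hn : 1 ≤ n) (hm : 128 * n ≤ m) :
    yf a b n m ≤ xf p (8 * n) (m / 8) + ∑ d ∈ Finset.Icc (8 * n) (m / 8),
      12 * (d : ℝ) * (b - a) * (if 32 * n ≤ d then xf p (8 * n) (d / 2) else 1) *
        yf a b 1 (d / 4) * yf a b (2 * d) m := by
  have hab : a ≤ b := ha.trans hb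
  have hS : ∀ d : ℤ, ∃ s : Finset V, 1 ≤ d → (∀ v, v ∈ s ↔ nrm v = d) ∧
      (s.card : ℝ) ≤ 12 * d := by
    intro d
    by_cases hd : 1 ≤ d
    · obtain ⟨s, hs⟩ := card_sph d hd
      exact ⟨s, fun _ => hs⟩
    · exact ⟨∅, fun h => absurd h hd⟩
  choose S hS using hS
  have hsub : MxG a b 0 n m ⊆ {w : Lab | Four (Op p w) 0 (8 * n) (m / 8)} ∪
      ⋃ d ∈ Finset.Icc (8 * n) (m / 8), ⋃ u ∈ S d, Evt a b p n m d u := by
    intro w hw
    rcases mxg_split hn hm ha hb hw with h | ⟨u, h2, h3, h4, h5, h6, h7, h8⟩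
    · exact Or.inl h
    · refine Or.inr ?_
      rw [Set.mem_iUnion₂]
      refine ⟨nrm u, Finset.mem_Icc.2 ⟨h2, h3⟩, ?_⟩
      rw [Set.mem_iUnion₂]
      exact ⟨u, ((hS (nrm u) (by omega)).1 u).2 rfl, ⟨h4, h5⟩, h6, h7, h8⟩
  have hr : (P (MxG a b 0 n m)).toReal ≤ (P {w : Lab | Four (Op p w) 0 (8 * n) (m / 8)}).toReal +
      ∑ d ∈ Finset.Icc (8 * n) (m / 8), ∑ u ∈ S d, (P (Evt a b p n m d u)).toReal := by
    have k1 : P.real (MxG a b 0 n m) ≤ P.real ({w : Lab | Four (Op p w) 0 (8 * n) (m / 8)} ∪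
      ⋃ d ∈ Finset.Icc (8 * n) (m / 8), ⋃ u ∈ S d, Evt a b p n m d u) := measureReal_mono hsub
    refine k1.trans ((measureReal_union_le _ _).trans (add_le_add le_rfl ?_))
    refine (measureReal_biUnion_finset_le _ _).trans (Finset.sum_le_sum fun d _ => ?_)
    exact measureReal_biUnion_finset_le _ _
  refine hr.trans (add_le_add le_rfl (Finset.sum_le_sum fun d hd => ?_))
  rw [Finset.mem_Icc] at hd
  have hd1 : 1 ≤ d := by omega
  rw [Finset.sum_congr rfl fun u hu => pr_evt (p := p) (m := m) h0 hab h1 hn hd.1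
    (((hS d hd1).1 u).1 hu), Finset.sum_const, nsmul_eq_mul]
  have hx : 0 ≤ (if 32 * n ≤ d then xf p (8 * n) (d / 2) else (1 : ℝ)) := by
    split_ifs
    · exact xf_nonneg
    · exact zero_le_one
  have hnn : 0 ≤ (b - a) * ((if 32 * n ≤ d then xf p (8 * n) (d / 2) else 1) *
      (yf a b 1 (d / 4) * yf a b (2 * d) m)) :=
    mul_nonneg (sub_nonneg.2 hab) (mul_nonneg hx (mul_nonneg yf_nonneg yf_nonneg))
  refine (mul_le_mul_of_nonneg_right (hS d hd1).2 hnn).trans (le_of_eq ?_)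
  ring

end Pool.Agent.TriPerc
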