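import Pool.Agent.TriPerc.GrowB
import Pool.Agent.TriPerc.OneArm
import Pool.Agent.TriPerc.OsssC
import Pool.Agent.TriPerc.WinRec

/-!
# Growth of the number of four-arm points: `(m / n)^2 * xf p n m ≥ C (m / n)^a`

* `sum_ix`: for `0 < a ≤ 1 / 2`, `1 ≤ C` there is `C2` such that for all `K ≥ 8` the sum over
  `i : Ix K` of `D i` is at most `C2 K ^ (2 - a)`, where `D i = C (2 / (K - 1 - nrm i)) ^ a` if
  `nrm i ≤ K - 4` and `D i = 1` otherwise.  PROOF.  There are at most `12 (d + 1)` indices with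
  `nrm i = d` (`card_sph`; one index with `d = 0`).  The sum is at most
  `4 * 12 (K + 1) + ∑ d ∈ 0..K-4, 12 (d + 1) C 2 ^ a (K - 1 - d) ^ (-a)`
  `≤ 48 (K + 1) + 12 (K + 1) C 2 ^ a ∑ j ∈ 1..K, j ^ (-a)`, and
  `∑ j ∈ 1..K, j ^ (-a) ≤ K ^ (1 - a) / (1 - a) ≤ 2 K ^ (1 - a)` (induction on `K`, or
  `j ^ (-a) ≤ 2 (j ^ (1 - a) - (j - 1) ^ (1 - a))`).
* `grow_main`: for every `c > 0` there are `c2 > 0`, `0 < a ≤ 1 / 2` such that under `Rsw c p N` for
  `1 ≤ n`, `8 ≤ K`, `K n ≤ N`: `c2 ≤ K ^ (2 - a) * xf p (2 n - 1) (4 K n)`.  PROOF.  `H = 10 K n`,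
  `M = MKn n K`, `Q = Par (-H) H (-H) H`, `A1 = {v | v.2 ≤ -H}`, `A2 = {v | H ≤ v.2}`.  Every vertex of
  `M` has norm `≤ K n + 2 (n - 1) < H` (`blk_nrm`, `nrm_cn`), so `A1` is disjoint from `M`.  Let
  `T` be the trees of `expl` for the blocks `blk n i`, `i : Ix K`.  `osss_cond` with
  `F S = Join S A1 A2` (so `F (Op p w ∩ Q)` is `PV (Op p w) (-H) H (-H) H`) and
  `D i = C (2 / (K - 1 - nrm i)) ^ a` for `nrm i ≤ K - 4`, `D i = 1` otherwise: by `expl` and `rv_arm` a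
  block which is asked has an arm across `Ann z (2 n - 1) (n (K - 1 - nrm i))`, and
  `one_arm_up` bounds its probability by `C ((2 n - 1) / (n (K - 1 - nrm i))) ^ a` (take `a ≤ 1 / 2`
  and `C ≥ 1`: the exponent may be made smaller since the ratio is `≤ 1`).  The influence of the
  block `i` is at most `xf p (2 n - 1) (4 K n)` by `piv_four` and `four_tr` (if the two
  crossing properties are not equivalent, then `Four (Op p z.1) (cn n i) (2 n - 1) (4 K n)`; the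
  probability of `{z | z.1 ∈ E}` under `P.prod P` is `P E`).  With `grow_low`:
  `c1 ≤ (∑ i, D i) * xf p (2 n - 1) (4 K n)`, and `sum_ix`.
* `grow`: final form.  Given `1 ≤ n ≤ m ≤ N` let `n' = (n + 1) / 2`,
  `K = max 8 ((m + 4 n' - 1) / (4 n'))`.  Then `1 ≤ n'`, `2 n' - 1 ≤ n`, `m ≤ 4 K n'`, `K n' ≤ 16 N`,
  `K ≤ 9 m / n` (reals).  `rsw_exN` with `A = 16` and `grow_main`:
  `xf p n m ≥ xf p (2 n' - 1) (4 K n') ≥ c2 K ^ (a - 2) ≥ c2 9 ^ (a - 2) (n / m) ^ (2 - a)`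
  (`xf_anti`).
-/

namespace Pool.Agent.TriPerc

open MeasureTheory Set

/-- One step of the sum of `j ^ (-a)`. -/
private theorem step_pow {a : ℝ} (ha : 0 < a) (ha' : a ≤ 1 / 2) (k : ℕ) :
    2 * (k : ℝ) ^ (1 - a) + ((k : ℝ) + 1) ^ (-a) ≤ 2 * ((k : ℝ) + 1) ^ (1 - a) := by
  have hk : (0 : ℝ) < (k : ℝ) + 1 := by positivity
  have h1 : (1 + -(1 / ((k : ℝ) + 1))) ^ (1 - a) ≤ 1 + (1 - a) * -(1 / ((k : ℝ) + 1)) := by
    refine rpow_one_add_le_one_add_mul_self ?_ (by linarith) (by linarith)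
    have : 1 / ((k : ℝ) + 1) ≤ 1 := by
      rw [div_le_one hk]
      have : (0 : ℝ) ≤ k := Nat.cast_nonneg k
      linarith
    linarith
  have h2 : (k : ℝ) = ((k : ℝ) + 1) * (1 + -(1 / ((k : ℝ) + 1))) := by
    field_simp
    ring
  have h3 : (0 : ℝ) ≤ 1 + -(1 / ((k : ℝ) + 1)) := by
    have : 1 / ((k : ℝ) + 1) ≤ 1 := by
      rw [div_le_one hk]
      have : (0 : ℝ) ≤ k := Nat.cast_nonneg k
      linarith
    linarith
  have h4 : (k : ℝ) ^ (1 - a) = ((k : ℝ) + 1) ^ (1 - a) * (1 + -(1 / ((k : ℝ) + 1))) ^ (1 - a) := by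
    rw [← Real.mul_rpow hk.le h3, ← h2]
  have h5 : ((k : ℝ) + 1) ^ (1 - a) = ((k : ℝ) + 1) * ((k : ℝ) + 1) ^ (-a) := by
    rw [sub_eq_add_neg, Real.rpow_add hk, Real.rpow_one]
  have h6 : 0 < ((k : ℝ) + 1) ^ (-a) := Real.rpow_pos_of_pos hk _
  have h7 : (k : ℝ) ^ (1 - a) ≤ ((k : ℝ) + 1) ^ (1 - a) * (1 + (1 - a) * -(1 / ((k : ℝ) + 1))) := by
    rw [h4]
    exact mul_le_mul_of_nonneg_left h1 (Real.rpow_nonneg hk.le _)
  have h8 : ((k : ℝ) + 1) ^ (1 - a) * (1 + (1 - a) * -(1 / ((k : ℝ) + 1))) =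
      ((k : ℝ) + 1) ^ (1 - a) - (1 - a) * ((k : ℝ) + 1) ^ (-a) := by
    rw [h5]
    field_simp
    ring
  rw [h8] at h7
  nlinarith

private theorem sum_pow {a : ℝ} (ha : 0 < a) (ha' : a ≤ 1 / 2) (k : ℕ) :
    ∑ j ∈ Finset.range k, ((j : ℝ) + 1) ^ (-a) ≤ 2 * (k : ℝ) ^ (1 - a) := by
  induction k with
  | zero =>
    simp only [Finset.range_zero, Finset.sum_empty, Nat.cast_zero]
    positivity
  | succ k ih =>
    rw [Finset.sum_range_succ]
    push_cast
    have := step_pow ha ha' k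
    linarith

/-- The value at distance `j + 1` from the boundary. -/
private theorem val_le {C a : ℝ} (hC : 1 ≤ C) (ha : 0 < a) (ha' : a ≤ 1 / 2) {k j : ℕ}
    (hj : j < k) :
    (if ((k - (j + 1) : ℕ) : ℤ) ≤ (k : ℤ) - 4 then
      C * (2 / ((k : ℝ) - 1 - (((k - (j + 1) : ℕ) : ℤ) : ℝ))) ^ a else 1) ≤
      2 * C * ((j : ℝ) + 1) ^ (-a) := by
  have hj1 : (0 : ℝ) < (j : ℝ) + 1 := by positivity
  have hcast : (((k - (j + 1) : ℕ) : ℤ) : ℝ) = (k : ℝ) - ((j : ℝ) + 1) := by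
    rw [Int.cast_natCast, Nat.cast_sub (by omega)]
    push_cast
    ring
  have hpos : 0 < ((j : ℝ) + 1) ^ (-a) := Real.rpow_pos_of_pos hj1 _
  split_ifs with h
  · have h3 : 3 ≤ j := by omega
    have h3' : (3 : ℝ) ≤ j := by exact_mod_cast h3
    rw [hcast]
    have h4 : (k : ℝ) - 1 - ((k : ℝ) - ((j : ℝ) + 1)) = j := by ring
    rw [h4]
    have h5 : 2 / (j : ℝ) ≤ 4 / ((j : ℝ) + 1) := by
      rw [div_le_div_iff₀ (by linarith) hj1]
      linarith
    have h6 : (2 / (j : ℝ)) ^ a ≤ (4 / ((j : ℝ) + 1)) ^ a :=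
      Real.rpow_le_rpow (by positivity) h5 ha.le
    have h7 : (4 / ((j : ℝ) + 1)) ^ a = 4 ^ a * ((j : ℝ) + 1) ^ (-a) := by
      rw [div_eq_mul_inv, Real.mul_rpow (by norm_num) (by positivity), Real.rpow_neg hj1.le,
        Real.inv_rpow hj1.le]
    have h8 : (4 : ℝ) ^ a ≤ 2 := by
      calc (4 : ℝ) ^ a ≤ (4 : ℝ) ^ (1 / 2 : ℝ) :=
            Real.rpow_le_rpow_of_exponent_le (by norm_num) ha'
        _ = 2 := by
            rw [← Real.sqrt_eq_rpow, show (4 : ℝ) = 2 ^ 2 by norm_num]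
            exact Real.sqrt_sq (by norm_num)
    have h9 : (2 / (j : ℝ)) ^ a ≤ 2 * ((j : ℝ) + 1) ^ (-a) := by
      rw [h7] at h6
      exact h6.trans (mul_le_mul_of_nonneg_right h8 hpos.le)
    calc C * (2 / (j : ℝ)) ^ a ≤ C * (2 * ((j : ℝ) + 1) ^ (-a)) :=
          mul_le_mul_of_nonneg_left h9 (by linarith)
      _ = 2 * C * ((j : ℝ) + 1) ^ (-a) := by ring
  · have h3 : j ≤ 2 := by omega
    have h3' : (j : ℝ) ≤ 2 := by exact_mod_cast h3
    have h4 : (1 : ℝ) / 2 ≤ ((j : ℝ) + 1) ^ (-a) := by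
      calc (1 : ℝ) / 2 = (4 : ℝ) ^ (-(1 / 2) : ℝ) := by
            rw [Real.rpow_neg (by norm_num), ← Real.sqrt_eq_rpow,
              show (4 : ℝ) = 2 ^ 2 by norm_num, Real.sqrt_sq (by norm_num)]
            norm_num
        _ ≤ (4 : ℝ) ^ (-a) := Real.rpow_le_rpow_of_exponent_le (by norm_num) (by linarith)
        _ ≤ ((j : ℝ) + 1) ^ (-a) := by
            refine Real.rpow_le_rpow_of_nonpos hj1 (by linarith) (by linarith)
    nlinarith

private theorem card_le {K : ℤ} (d : ℕ) :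
    ((((finite_ball 0 K).toFinset.filter fun i => (nrm i).toNat = d).card : ℕ) : ℝ) ≤
      12 * ((d : ℝ) + 1) := by
  rcases Nat.eq_zero_or_pos d with rfl | hd
  · have : ((finite_ball 0 K).toFinset.filter fun i => (nrm i).toNat = 0) ⊆ {0} := by
      intro i hi
      rw [Finset.mem_filter] at hi
      rw [Finset.mem_singleton, ← nrm_zero_iff]
      have := nrm_nonneg i
      omega
    have h := Finset.card_le_card this
    rw [Finset.card_singleton] at h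
    have h' : ((((finite_ball 0 K).toFinset.filter fun i => (nrm i).toNat = 0).card : ℕ) : ℝ) ≤
        1 := by exact_mod_cast h
    push_cast
    linarith
  · obtain ⟨s, hs, hs2⟩ := card_sph (d : ℤ) (by exact_mod_cast hd)
    have : ((finite_ball 0 K).toFinset.filter fun i => (nrm i).toNat = d) ⊆ s := by
      intro i hi
      rw [Finset.mem_filter] at hi
      rw [hs]
      have := nrm_nonneg i
      omega
    have h := Finset.card_le_card this
    have h' : ((((finite_ball 0 K).toFinset.filter fun i => (nrm i).toNat = d).card : ℕ) : ℝ) ≤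
        (s.card : ℝ) := by exact_mod_cast h
    push_cast at hs2
    linarith

theorem sum_ix (C a : ℝ) (hC : 1 ≤ C) (ha : 0 < a) (ha' : a ≤ 1 / 2) : ∃ C2 : ℝ, 0 < C2 ∧
    ∀ K : ℤ, 8 ≤ K → ∑ i : Ix K, (if nrm i.1 ≤ K - 4 then
      C * (2 / ((K : ℝ) - 1 - (nrm i.1 : ℝ))) ^ a else 1) ≤ C2 * (K : ℝ) ^ (2 - a) := by
  refine ⟨120 * C, by linarith, ?_⟩
  intro K hK
  obtain ⟨k, rfl⟩ : ∃ k : ℕ, K = k := ⟨K.toNat, by omega⟩
  have hk : 8 ≤ k := by omega
  have hk' : (8 : ℝ) ≤ k := by exact_mod_cast hk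
  let f : V → ℝ := fun i => if nrm i ≤ (k : ℤ) - 4 then
      C * (2 / (((k : ℤ) : ℝ) - 1 - (nrm i : ℝ))) ^ a else 1
  let G : ℕ → ℝ := fun d => if (d : ℤ) ≤ (k : ℤ) - 4 then
      C * (2 / ((k : ℝ) - 1 - ((d : ℤ) : ℝ))) ^ a else 1
  have e1 : ∑ i : Ix (k : ℤ), (if nrm i.1 ≤ (k : ℤ) - 4 then
      C * (2 / (((k : ℤ) : ℝ) - 1 - (nrm i.1 : ℝ))) ^ a else 1) =
      ∑ i ∈ (finite_ball 0 (k : ℤ)).toFinset, f i :=
    Finset.sum_coe_sort (finite_ball 0 (k : ℤ)).toFinset f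
  rw [e1]
  have hG0 : ∀ d ∈ Finset.range (k + 1), 0 ≤ G d := by
    intro d hd
    rw [Finset.mem_range] at hd
    change 0 ≤ (if (d : ℤ) ≤ (k : ℤ) - 4 then
      C * (2 / ((k : ℝ) - 1 - ((d : ℤ) : ℝ))) ^ a else 1)
    split_ifs with h
    · refine mul_nonneg (by linarith) (Real.rpow_nonneg (div_nonneg (by norm_num) ?_) _)
      have : ((d : ℤ) : ℝ) ≤ ((k : ℤ) : ℝ) - 4 := by exact_mod_cast h
      rw [Int.cast_natCast] at this ⊢
      rw [Int.cast_natCast] at this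
      linarith
    · norm_num
  have e2 : ∑ i ∈ (finite_ball 0 (k : ℤ)).toFinset, f i =
      ∑ d ∈ Finset.range (k + 1), ∑ i ∈ (finite_ball 0 (k : ℤ)).toFinset with
        (nrm i).toNat = d, f i := by
    refine (Finset.sum_fiberwise_of_maps_to ?_ _).symm
    intro i hi
    rw [mem_ix] at hi
    rw [Finset.mem_range]
    have := nrm_nonneg i
    omega
  rw [e2]
  have e3 : ∀ d ∈ Finset.range (k + 1), ∑ i ∈ (finite_ball 0 (k : ℤ)).toFinset with
        (nrm i).toNat = d, f i ≤ 12 * ((k : ℝ) + 1) * G d := by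
    intro d hd
    have h1 : ∀ i ∈ (finite_ball 0 (k : ℤ)).toFinset.filter (fun i => (nrm i).toNat = d),
        f i = G d := by
      intro i hi
      rw [Finset.mem_filter] at hi
      have h2 := nrm_nonneg i
      have h3 : nrm i = (d : ℤ) := by omega
      simp only [f, G, h3, Int.cast_natCast]
    rw [Finset.sum_congr rfl h1, Finset.sum_const, nsmul_eq_mul]
    refine mul_le_mul_of_nonneg_right ?_ (hG0 d hd)
    refine (card_le d).trans ?_
    rw [Finset.mem_range] at hd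
    have : (d : ℝ) ≤ k := by exact_mod_cast (by omega : d ≤ k)
    linarith
  refine (Finset.sum_le_sum e3).trans ?_
  rw [← Finset.mul_sum]
  have e4 : ∑ d ∈ Finset.range (k + 1), G d ≤ 1 + 2 * C * (2 * (k : ℝ) ^ (1 - a)) := by
    rw [← Finset.sum_range_reflect, Finset.sum_range_succ']
    have h1 : G (k + 1 - 1 - 0) = 1 := by
      change (if ((k + 1 - 1 - 0 : ℕ) : ℤ) ≤ (k : ℤ) - 4 then
        C * (2 / ((k : ℝ) - 1 - (((k + 1 - 1 - 0 : ℕ) : ℤ) : ℝ))) ^ a else 1) = 1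
      rw [if_neg]
      omega
    rw [h1]
    have h2 : ∑ j ∈ Finset.range k, G (k + 1 - 1 - (j + 1)) ≤
        ∑ j ∈ Finset.range k, 2 * C * ((j : ℝ) + 1) ^ (-a) := by
      refine Finset.sum_le_sum fun j hj => ?_
      rw [Finset.mem_range] at hj
      exact val_le hC ha ha' hj
    rw [← Finset.mul_sum] at h2
    have h3 := mul_le_mul_of_nonneg_left (sum_pow ha ha' k) (by linarith : 0 ≤ 2 * C)
    linarith
  have hk0 : (0 : ℝ) < k := by linarith
  have e5 : (1 : ℝ) ≤ (k : ℝ) ^ (1 - a) := Real.one_le_rpow (by linarith) (by linarith)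
  have e6 : (k : ℝ) ^ (2 - a) = k * (k : ℝ) ^ (1 - a) := by
    rw [show (2 - a : ℝ) = 1 + (1 - a) by ring, Real.rpow_add hk0, Real.rpow_one]
  rw [Int.cast_natCast, e6]
  have e7 : ∑ d ∈ Finset.range (k + 1), G d ≤ 5 * C * (k : ℝ) ^ (1 - a) := by
    nlinarith
  calc 12 * ((k : ℝ) + 1) * ∑ d ∈ Finset.range (k + 1), G d
      ≤ 12 * ((k : ℝ) + 1) * (5 * C * (k : ℝ) ^ (1 - a)) :=
        mul_le_mul_of_nonneg_left e7 (by linarith)
    _ ≤ (24 * k) * (5 * C * (k : ℝ) ^ (1 - a)) := by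
        refine mul_le_mul_of_nonneg_right (by linarith) ?_
        have : 0 ≤ C := by linarith
        positivity
    _ = 120 * C * (k * (k : ℝ) ^ (1 - a)) := by ring

private theorem not_blk_mix {s : Set V} {p : ℝ} {w w' : Lab} {v : V} (hv : v ∉ s) :
    v ∈ Op p w ↔ v ∈ Op p (mix s w w') := by
  simp only [Op, mix, Set.mem_ofPred_eq, if_neg hv]

theorem grow_main (c : ℝ) (hc : 0 < c) : ∃ c2 a : ℝ, 0 < c2 ∧ 0 < a ∧ a ≤ 1 / 2 ∧
    ∀ (p : ℝ) (N : ℤ), Rsw c p N → ∀ n K : ℤ, 1 ≤ n → 8 ≤ K → K * n ≤ N →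
    c2 ≤ (K : ℝ) ^ (2 - a) * xf p (2 * n - 1) (4 * K * n) := by
  obtain ⟨C0, a0, hC0, ha0, hup⟩ := one_arm_up c hc
  obtain ⟨c1, hc1, hlow⟩ := grow_low c hc
  have ha : 0 < min a0 (1 / 2) := lt_min ha0 (by norm_num)
  obtain ⟨C2, hC2, hsum⟩ := sum_ix (max C0 1) (min a0 (1 / 2)) (le_max_right _ _) ha
    (min_le_right _ _)
  refine ⟨c1 / C2, min a0 (1 / 2), div_pos hc1 hC2, ha, min_le_right _ _, ?_⟩
  intro p N hR n K hn hK hKN
  have hH : 0 < K * n := by positivity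
  set a := min a0 (1 / 2) with ha_def
  set C := max C0 1 with hC_def
  have hC1 : 1 ≤ C := le_max_right _ _
  set D : Ix K → ℝ := fun i => if nrm i.1 ≤ K - 4 then
      C * (2 / ((K : ℝ) - 1 - (nrm i.1 : ℝ))) ^ a else 1 with hD_def
  have hix : ∀ i : Ix K, nrm i.1 ≤ K := fun i => mem_ix.1 i.2
  have hA : Disjoint {v : V | v.2 ≤ -(10 * K * n)} (MKn n K) := by
    rw [Set.disjoint_left]
    intro v hv hvM
    obtain ⟨i, hi⟩ := Set.mem_iUnion.1 hvM
    have h1 := blk_nrm hi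
    have h2 := nrm_cn hn i.1
    have h3 := nrm_add (v - cn n i.1) (cn n i.1)
    rw [sub_add_cancel] at h3
    have h4 : |v.2| ≤ nrm v := (le_max_right _ _).trans (le_max_left _ _)
    have h5 := neg_le_abs v.2
    have h6 : n * nrm i.1 ≤ K * n := by
      rw [mul_comm]
      exact mul_le_mul_of_nonneg_right (hix i) (by omega)
    have h7 : n ≤ K * n := le_mul_of_one_le_left (by omega) (by omega)
    have h8 : v.2 ≤ -(10 * K * n) := hv
    have h9 : 10 * K * n = 10 * (K * n) := by ring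
    omega
  obtain ⟨T, hT, hval, hrv⟩ := expl (ι := Ix K) (B := fun i => blk n i.1) (M := MKn n K)
    (Q := Par (-(10 * K * n)) (10 * K * n) (-(10 * K * n)) (10 * K * n))
    (A1 := {v | v.2 ≤ -(10 * K * n)}) (A2 := {v | 10 * K * n ≤ v.2}) (p := p)
    (fun i j hij => blk_disj hn fun h => hij (Subtype.ext h)) rfl hA
  have hDb : ∀ o (i : Ix K), (P {w | i ∈ (T o).rv (fun i => blk n i.1) p w}).toReal ≤ D i := by
    intro o i
    simp only [hD_def]
    split_ifs with h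
    · have h1 : {w | i ∈ (T o).rv (fun i => blk n i.1) p w} ⊆
          {w | Arm (Op p w) (cn n i.1) (2 * n - 1) (n * (K - 1 - nrm i.1))} := by
        intro w hw
        obtain ⟨x, hx, y, hxy, hy⟩ := hrv o w i hw
        exact rv_arm hn h hx hxy hy
      have hn0 := nrm_nonneg i.1
      have h2 : (P {w | i ∈ (T o).rv (fun i => blk n i.1) p w}).toReal ≤
          (P {w | Arm (Op p w) (cn n i.1) (2 * n - 1) (n * (K - 1 - nrm i.1))}).toReal :=
        ENNReal.toReal_mono (measure_ne_top P _) (measure_mono h1)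
      have h3 : n * 3 ≤ n * (K - 1 - nrm i.1) :=
        mul_le_mul_of_nonneg_left (by omega) (by omega)
      have h4 : n * (K - 1 - nrm i.1) ≤ n * K :=
        mul_le_mul_of_nonneg_left (by omega) (by omega)
      have h5 : n * K = K * n := mul_comm _ _
      have h6 := (hup p N hR (cn n i.1) (2 * n - 1) (n * (K - 1 - nrm i.1)) (by omega)
        (by omega) (by omega)).1
      refine h2.trans (h6.trans ?_)
      have hnR : (1 : ℝ) ≤ n := by exact_mod_cast hn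
      have hdR : (3 : ℝ) ≤ (K : ℝ) - 1 - (nrm i.1 : ℝ) := by
        have : (nrm i.1 : ℝ) ≤ (K : ℝ) - 4 := by exact_mod_cast h
        linarith
      have hcast : (((2 * n - 1 : ℤ)) : ℝ) / ((n * (K - 1 - nrm i.1) : ℤ) : ℝ) =
          (2 * (n : ℝ) - 1) / ((n : ℝ) * ((K : ℝ) - 1 - (nrm i.1 : ℝ))) := by
        push_cast
        ring
      rw [hcast]
      have hr0 : 0 < (2 * (n : ℝ) - 1) / ((n : ℝ) * ((K : ℝ) - 1 - (nrm i.1 : ℝ))) :=
        div_pos (by linarith) (mul_pos (by linarith) (by linarith))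
      have hr2 : (2 * (n : ℝ) - 1) / ((n : ℝ) * ((K : ℝ) - 1 - (nrm i.1 : ℝ))) ≤
          2 / ((K : ℝ) - 1 - (nrm i.1 : ℝ)) := by
        rw [div_le_div_iff₀ (mul_pos (by linarith) (by linarith)) (by linarith)]
        nlinarith
      have hr1 : (2 * (n : ℝ) - 1) / ((n : ℝ) * ((K : ℝ) - 1 - (nrm i.1 : ℝ))) ≤ 1 := by
        refine hr2.trans ?_
        rw [div_le_one (by linarith)]
        linarith
      calc C0 * ((2 * (n : ℝ) - 1) / ((n : ℝ) * ((K : ℝ) - 1 - (nrm i.1 : ℝ)))) ^ a0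
          ≤ C * ((2 * (n : ℝ) - 1) / ((n : ℝ) * ((K : ℝ) - 1 - (nrm i.1 : ℝ)))) ^ a :=
            mul_le_mul (le_max_left _ _)
              (Real.rpow_le_rpow_of_exponent_ge hr0 hr1 (min_le_left _ _))
              (Real.rpow_nonneg hr0.le _) (by linarith)
        _ ≤ C * (2 / ((K : ℝ) - 1 - (nrm i.1 : ℝ))) ^ a :=
            mul_le_mul_of_nonneg_left (Real.rpow_le_rpow hr0.le hr2 ha.le) (by linarith)
    · exact ENNReal.toReal_le_of_le_ofReal (by norm_num) (by simpa using prob_le_one)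
  have hmain := osss_cond (ι := Ix K) (B := fun i => blk n i.1) (M := MKn n K)
    (Q := Par (-(10 * K * n)) (10 * K * n) (-(10 * K * n)) (10 * K * n)) (p := p)
    (fun i => blk_fin n i.1) (fun i j hij => blk_disj hn fun h => hij (Subtype.ext h))
    (fun i => Set.subset_iUnion (fun i : Ix K => blk n i.1) i) (finite_par _ _ _ _)
    (fun S => Join S {v | v.2 ≤ -(10 * K * n)} {v | 10 * K * n ≤ v.2}) T hT hval D hDb
  have hl := (hlow p N hR n K hn hK hKN).trans hmain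
  have hD0 : ∀ i, 0 ≤ D i := fun i => ENNReal.toReal_nonneg.trans (hDb ∅ i)
  have hinf : ∀ i : Ix K, ((P.prod P) {z : Lab × Lab |
      ¬ (Join (Op p z.1 ∩ Par (-(10 * K * n)) (10 * K * n) (-(10 * K * n)) (10 * K * n))
          {v | v.2 ≤ -(10 * K * n)} {v | 10 * K * n ≤ v.2} ↔
        Join (Op p (mix (blk n i.1) z.1 z.2) ∩
          Par (-(10 * K * n)) (10 * K * n) (-(10 * K * n)) (10 * K * n))
          {v | v.2 ≤ -(10 * K * n)} {v | 10 * K * n ≤ v.2})}).toReal ≤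
      xf p (2 * n - 1) (4 * K * n) := by
    intro i
    have h1 : {z : Lab × Lab |
      ¬ (Join (Op p z.1 ∩ Par (-(10 * K * n)) (10 * K * n) (-(10 * K * n)) (10 * K * n))
          {v | v.2 ≤ -(10 * K * n)} {v | 10 * K * n ≤ v.2} ↔
        Join (Op p (mix (blk n i.1) z.1 z.2) ∩
          Par (-(10 * K * n)) (10 * K * n) (-(10 * K * n)) (10 * K * n))
          {v | v.2 ≤ -(10 * K * n)} {v | 10 * K * n ≤ v.2})} ⊆
        Prod.fst ⁻¹' {w | Four (Op p w) (cn n i.1) (2 * n - 1) (4 * K * n)} := by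
      intro z hz
      rw [Set.mem_ofPred_eq, not_iff] at hz
      rw [Set.mem_preimage, Set.mem_ofPred_eq]
      by_cases hJ : Join (Op p z.1 ∩ Par (-(10 * K * n)) (10 * K * n) (-(10 * K * n))
          (10 * K * n)) {v | v.2 ≤ -(10 * K * n)} {v | 10 * K * n ≤ v.2}
      · have h2 : ¬ Join (Op p (mix (blk n i.1) z.1 z.2) ∩
          Par (-(10 * K * n)) (10 * K * n) (-(10 * K * n)) (10 * K * n))
          {v | v.2 ≤ -(10 * K * n)} {v | 10 * K * n ≤ v.2} := fun h3 => (hz.2 h3) hJ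
        exact (piv_four hn (by omega) (hix i) (fun v hv => not_blk_mix hv) hJ h2).1
      · exact (piv_four hn (by omega) (hix i) (fun v hv => (not_blk_mix hv).symm)
          (hz.1 hJ) hJ).2
    have h2 : (P.prod P) (Prod.fst ⁻¹'
        {w | Four (Op p w) (cn n i.1) (2 * n - 1) (4 * K * n)}) =
        P {w | Four (Op p w) (cn n i.1) (2 * n - 1) (4 * K * n)} :=
      measurePreserving_fst.measure_preimage (ev_four p _ _ _).1.nullMeasurableSet
    unfold xf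
    rw [← four_tr p (cn n i.1), ← h2]
    exact ENNReal.toReal_mono (measure_ne_top _ _) (measure_mono h1)
  have hx0 : 0 ≤ xf p (2 * n - 1) (4 * K * n) := xf_nonneg
  have hfin : c1 ≤ (C2 * (K : ℝ) ^ (2 - a)) * xf p (2 * n - 1) (4 * K * n) := by
    calc c1 ≤ _ := hl
      _ ≤ ∑ i, D i * xf p (2 * n - 1) (4 * K * n) :=
          Finset.sum_le_sum fun i _ => mul_le_mul_of_nonneg_left (hinf i) (hD0 i)
      _ = (∑ i, D i) * xf p (2 * n - 1) (4 * K * n) := (Finset.sum_mul _ _ _).symm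
      _ ≤ (C2 * (K : ℝ) ^ (2 - a)) * xf p (2 * n - 1) (4 * K * n) :=
          mul_le_mul_of_nonneg_right (hsum K hK) hx0
  rw [div_le_iff₀ hC2]
  linarith

theorem grow (c : ℝ) (hc : 0 < c) : ∃ C a : ℝ, 0 < C ∧ 0 < a ∧ a ≤ 1 / 2 ∧
    ∀ (p : ℝ) (N : ℤ), Rsw c p N → ∀ n m : ℤ, 1 ≤ n → n ≤ m → m ≤ N →
    C * ((n : ℝ) / m) ^ (2 - a) ≤ xf p n m := by
  obtain ⟨c', hc', hext⟩ := rsw_exN c hc 16 (by norm_num)
  obtain ⟨c2, a, hc2, ha, ha', hmain⟩ := grow_main c' hc'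
  refine ⟨c2 * (1 / 9) ^ (2 - a), a, by positivity, ha, ha', ?_⟩
  intro p N hR n m hn hnm hm
  have hR' := hext p N (by omega) hR
  obtain ⟨n', hn'1, hn'2, hn'3⟩ : ∃ n' : ℤ, 1 ≤ n' ∧ 2 * n' - 1 ≤ n ∧ n ≤ 2 * n' :=
    ⟨(n + 1) / 2, by omega, by omega, by omega⟩
  obtain ⟨q, hq1, hq2⟩ : ∃ q : ℤ, m ≤ 4 * (q * n') ∧ 4 * (q * n') ≤ m + 4 * n' - 1 := by
    refine ⟨(m + 4 * n' - 1) / (4 * n'), ?_, ?_⟩
    · have h1 := Int.emod_add_mul_ediv (m + 4 * n' - 1) (4 * n')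
      have h2 := Int.emod_lt_of_pos (m + 4 * n' - 1) (by omega : 0 < 4 * n')
      have h3 : 4 * ((m + 4 * n' - 1) / (4 * n') * n') =
        4 * n' * ((m + 4 * n' - 1) / (4 * n')) := by ring
      omega
    · have h1 := Int.emod_add_mul_ediv (m + 4 * n' - 1) (4 * n')
      have h2 := Int.emod_nonneg (m + 4 * n' - 1) (by omega : 4 * n' ≠ 0)
      have h3 : 4 * ((m + 4 * n' - 1) / (4 * n') * n') =
        4 * n' * ((m + 4 * n' - 1) / (4 * n')) := by ring
      omega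
  have hq0 : 0 ≤ q := by
    by_contra hneg
    have : q * n' ≤ 0 := mul_nonpos_of_nonpos_of_nonneg (by omega) (by omega)
    omega
  have hnR : (1 : ℝ) ≤ n := by exact_mod_cast hn
  have hmR : (n : ℝ) ≤ m := by exact_mod_cast hnm
  have hm0 : (0 : ℝ) < m := by linarith
  have hn0 : (0 : ℝ) < n := by linarith
  obtain ⟨K, hK8, hK1, hK2, hK3⟩ : ∃ K : ℤ, 8 ≤ K ∧ m ≤ 4 * K * n' ∧ K * n' ≤ 16 * N ∧
      (K : ℝ) ≤ 9 * m / n := by
    rcases le_total q 8 with h8 | h8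
    · refine ⟨8, le_refl _, ?_, by omega, ?_⟩
      · have : q * n' ≤ 8 * n' := mul_le_mul_of_nonneg_right h8 (by omega)
        omega
      · rw [le_div_iff₀ hn0]
        push_cast
        linarith
    · refine ⟨q, h8, ?_, by omega, ?_⟩
      · have : 4 * q * n' = 4 * (q * n') := by ring
        omega
      · rw [le_div_iff₀ hn0]
        have h1 : (4 * (q * n') : ℝ) ≤ m + 4 * n' - 1 := by exact_mod_cast hq2
        have h2 : (n : ℝ) ≤ 2 * n' := by exact_mod_cast hn'3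
        have h3 : (2 * n' - 1 : ℝ) ≤ n := by exact_mod_cast hn'2
        have h4 : (0 : ℝ) ≤ q := by exact_mod_cast hq0
        nlinarith
  have h1 := hmain p (16 * N) hR' n' K hn'1 hK8 hK2
  have h2 : xf p (2 * n' - 1) (4 * K * n') ≤ xf p n m := xf_anti hn'2 hnm hK1
  have hK0 : (0 : ℝ) < K := by
    have : (8 : ℝ) ≤ K := by exact_mod_cast hK8
    linarith
  have h3 : c2 * (1 / (K : ℝ)) ^ (2 - a) ≤ xf p (2 * n' - 1) (4 * K * n') := by
    rw [one_div, Real.inv_rpow hK0.le, ← div_eq_mul_inv, div_le_iff₀ (Real.rpow_pos_of_pos hK0 _)]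
    linarith
  refine le_trans ?_ (h3.trans h2)
  rw [mul_assoc, ← Real.mul_rpow (by norm_num) (by positivity)]
  refine mul_le_mul_of_nonneg_left (Real.rpow_le_rpow (by positivity) ?_ (by linarith)) hc2.le
  rw [div_mul_div_comm, one_mul, div_le_div_iff₀ (by positivity) hK0, one_mul]
  rw [le_div_iff₀ hn0] at hK3
  linarith

end Pool.Agent.TriPerc
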