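import Pool.Agent.TriPerc.WinRec

/-!
# Mixed four arms are comparable to four arms inside the window

`Qm c0 C N x`: the function `x n m` (four arms of a single level across the annulus `n, m`) is
nonnegative, monotone in the annulus, bounded below by `c0` for bounded ratios and
quasi-multiplicative (with a gap).

* `win_ind` (elementary induction).  Let `Qm c0 C N x`, `0 ≤ y n m ≤ 1`, `0 ≤ L`, let `y` satisfy the
  recursion for `2 ≤ n`, `128 n ≤ m ≤ N`, and
  `L * ∑ d ∈ Icc 2 N, d * x 2 d ≤ (c0 / C) ^ 5 / 48`.  Then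
  `y n m ≤ 2 (C / c0)^2 * x n m` for `2 ≤ n ≤ m ≤ N`.
  PROOF.  Put `C1 = 2 (C / c0)^2`; `C1 ≥ 1 / c0` as `c0 ≤ 1 ≤ C`.  Strong induction on `m - n`.
  If `m < 128 n` then `y n m ≤ 1 ≤ x n m / c0 ≤ C1 x n m` (`low`).  Let `128 n ≤ m`.
  (T0) `x (8 n) (m / 8) ≤ (C / c0)^2 x n m`: `c0 * x (8 n) (m / 8) ≤
  x n (8 n) * x (8 n) (m / 8) ≤ C x n (m / 8)` (`qm` with `k = l = 8 n`) and
  `x n (m / 8) * c0 ≤ x n (m / 8) * x (m / 8) m ≤ C x n m` (`k = l = m / 8`).
  (Td) let `8 n ≤ d ≤ m / 8` and let `G` be `x (8 n) (d / 2)` if `32 n ≤ d` and `1` otherwise.  Then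
  `G * x (2 d) m ≤ (C / c0)^2 x n m`.  If `32 n ≤ d`:
  `x (8 n) (d / 2) * x (2 d) m ≤ C x (8 n) m` (`qm` with `k = d / 2`, `l = 2 d ≤ 8 (d / 2)`), and
  `c0 x (8 n) m ≤ x n (8 n) x (8 n) m ≤ C x n m`; so the product is `≤ C^2 / c0 * x n m`.  If
  `d < 32 n`: `c0 x (2 d) m ≤ x n (2 d) x (2 d) m ≤ C x n m`.
  `y 2 (d / 4) ≤ C1 x 2 (d / 4)` (induction, `2 ≤ d / 4`, `d / 4 - 1 < m - n`), and
  `x 2 (d / 4) c0 ≤ x 2 (d / 4) x (d / 4) d ≤ C x 2 d`.  `y (2 d) m ≤ C1 x (2 d) m` (induction).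
  Hence the term with the index `d` is at most
  `12 d L * C1 (C / c0) x 2 d * C1 * (C / c0)^2 x n m`, and the sum over `d` is at most
  `12 L C1^2 (C / c0)^3 (∑ d x 2 d) x n m ≤ (C / c0)^2 x n m`, since `12 C1^2 = 48 (C / c0)^4`.
  (The sum over `Icc (8 n) (m / 8)` is at most the sum over `Icc 2 N`, nonnegative terms.)
* `mix_le`: `win_ind` for `x = xf p`, `y = yf a b`, `L = b - a` (`mxg_rec`, `yf_nonneg`,
  `yf_le_one`).
-/

namespace Pool.Agent.TriPerc

open MeasureTheory Set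

/-- Monotonicity, lower bound at bounded ratios and quasi-multiplicativity. -/
structure Qm (c0 C : ℝ) (N : ℤ) (x : ℤ → ℤ → ℝ) : Prop where
  pos : 0 < c0
  le : c0 ≤ 1
  one : 1 ≤ C
  nonneg : ∀ n m, 0 ≤ x n m
  anti : ∀ n n' m' m, n ≤ n' → n' ≤ m' → m' ≤ m → x n m ≤ x n' m'
  low : ∀ n m, 2 ≤ n → n ≤ m → m ≤ N → m ≤ 4096 * n → c0 ≤ x n m
  qm : ∀ n k l m, 2 ≤ n → n ≤ k → k ≤ l → l ≤ 8 * k → l ≤ m → m ≤ N →
    x n k * x l m ≤ C * x n m

private theorem qm_x8 {c0 C : ℝ} {N : ℤ} {x : ℤ → ℤ → ℝ} (hx : Qm c0 C N x) {n m : ℤ}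
    (hn : 2 ≤ n) (hnm : 8 * n ≤ m) (hm : m ≤ N) : c0 * x (8 * n) m ≤ C * x n m :=
  (mul_le_mul_of_nonneg_right (hx.low n (8 * n) hn (by omega) (by omega) (by omega))
    (hx.nonneg _ _)).trans (hx.qm n (8 * n) (8 * n) m hn (by omega) le_rfl (by omega) hnm hm)

private theorem qm_t0 {c0 C : ℝ} {N : ℤ} {x : ℤ → ℤ → ℝ} (hx : Qm c0 C N x) {n m : ℤ}
    (hn : 2 ≤ n) (hnm : 128 * n ≤ m) (hm : m ≤ N) :
    x (8 * n) (m / 8) ≤ (C / c0) ^ 2 * x n m := by
  have h1 := qm_x8 hx (m := m / 8) hn (by omega) (by omega)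
  have h2 : x n (m / 8) * c0 ≤ C * x n m :=
    (mul_le_mul_of_nonneg_left (hx.low (m / 8) m (by omega) (by omega) hm (by omega))
      (hx.nonneg _ _)).trans
      (hx.qm n (m / 8) (m / 8) m hn (by omega) le_rfl (by omega) (by omega) hm)
  have hc := hx.pos
  have hC : 0 < C := lt_of_lt_of_le one_pos hx.one
  have h3 : c0 ^ 2 * x (8 * n) (m / 8) ≤ C ^ 2 * x n m := by
    have e1 := mul_le_mul_of_nonneg_left h1 hc.le
    have e2 := mul_le_mul_of_nonneg_left h2 hC.le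
    nlinarith
  rw [div_pow, div_mul_eq_mul_div, le_div_iff₀ (by positivity)]
  linarith

private theorem qm_td {c0 C : ℝ} {N : ℤ} {x : ℤ → ℤ → ℝ} (hx : Qm c0 C N x) {n m d : ℤ}
    (hn : 2 ≤ n) (hd : 8 * n ≤ d) (hdm : d ≤ m / 8) (hm : m ≤ N) :
    (if 32 * n ≤ d then x (8 * n) (d / 2) else 1) * x (2 * d) m ≤ (C / c0) ^ 2 * x n m := by
  have hc := hx.pos
  have hC : 0 < C := lt_of_lt_of_le one_pos hx.one
  have hxn := hx.nonneg n m
  have hle := hx.le
  have hone := hx.one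
  split_ifs with h
  · have h1 := hx.qm (8 * n) (d / 2) (2 * d) m (by omega) (by omega) (by omega) (by omega)
      (by omega) hm
    have h2 := qm_x8 hx (m := m) hn (by omega) hm
    have e1 := mul_le_mul_of_nonneg_left h1 hc.le
    have e2 := mul_le_mul_of_nonneg_left h2 hC.le
    have h3 : c0 * (x (8 * n) (d / 2) * x (2 * d) m) ≤ C ^ 2 * x n m := by nlinarith
    have h4 : c0 ^ 2 * (x (8 * n) (d / 2) * x (2 * d) m) ≤ C ^ 2 * x n m := by
      have e3 : 0 ≤ x (8 * n) (d / 2) * x (2 * d) m := mul_nonneg (hx.nonneg _ _) (hx.nonneg _ _)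
      have e4 : c0 ^ 2 * (x (8 * n) (d / 2) * x (2 * d) m) ≤
          c0 * (x (8 * n) (d / 2) * x (2 * d) m) :=
        mul_le_mul_of_nonneg_right (by nlinarith) e3
      exact e4.trans h3
    rw [div_pow, div_mul_eq_mul_div, le_div_iff₀ (by positivity)]
    linarith
  · rw [one_mul]
    have h1 : c0 * x (2 * d) m ≤ C * x n m :=
      (mul_le_mul_of_nonneg_right (hx.low n (2 * d) hn (by omega) (by omega) (by omega))
        (hx.nonneg _ _)).trans
        (hx.qm n (2 * d) (2 * d) m hn (by omega) le_rfl (by omega) (by omega) hm)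
    have h2 : c0 ^ 2 * x (2 * d) m ≤ C ^ 2 * x n m := by
      have e1 := mul_le_mul_of_nonneg_left h1 hc.le
      have e2 : c0 * (C * x n m) ≤ C ^ 2 * x n m := by
        have e3 : 0 ≤ C * x n m := mul_nonneg hC.le hxn
        nlinarith
      nlinarith
    rw [div_pow, div_mul_eq_mul_div, le_div_iff₀ (by positivity)]
    linarith

private theorem qm_x1 {c0 C : ℝ} {N : ℤ} {x : ℤ → ℤ → ℝ} (hx : Qm c0 C N x) {d : ℤ}
    (hd : 16 ≤ d) (hN : d ≤ N) : x 2 (d / 4) ≤ C / c0 * x 2 d := by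
  have hc := hx.pos
  have h1 : x 2 (d / 4) * c0 ≤ C * x 2 d :=
    (mul_le_mul_of_nonneg_left (hx.low (d / 4) d (by omega) (by omega) hN (by omega))
      (hx.nonneg _ _)).trans
      (hx.qm 2 (d / 4) (d / 4) d le_rfl (by omega) le_rfl (by omega) (by omega) hN)
  rw [div_mul_eq_mul_div, le_div_iff₀ hc]
  exact h1

theorem win_ind {c0 C L : ℝ} {N : ℤ} {x y : ℤ → ℤ → ℝ} (hx : Qm c0 C N x)
    (hy : ∀ n m, 0 ≤ y n m) (hy1 : ∀ n m, y n m ≤ 1) (hL : 0 ≤ L)
    (hrec : ∀ n m, 2 ≤ n → 128 * n ≤ m → m ≤ N →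
      y n m ≤ x (8 * n) (m / 8) + ∑ d ∈ Finset.Icc (8 * n) (m / 8),
        12 * (d : ℝ) * L * (if 32 * n ≤ d then x (8 * n) (d / 2) else 1) *
          y 2 (d / 4) * y (2 * d) m)
    (hs : L * ∑ d ∈ Finset.Icc (2 : ℤ) N, (d : ℝ) * x 2 d ≤ (c0 / C) ^ 5 / 48) :
    ∀ n m, 2 ≤ n → n ≤ m → m ≤ N → y n m ≤ 2 * (C / c0) ^ 2 * x n m := by
  have hc := hx.pos
  have hC : 0 < C := lt_of_lt_of_le one_pos hx.one
  obtain ⟨K, hK⟩ : ∃ K, K = C / c0 := ⟨_, rfl⟩
  have hK0 : 0 < K := by rw [hK]; positivity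
  have hK1 : 1 ≤ K := by
    rw [hK, le_div_iff₀ hc, one_mul]
    exact hx.le.trans hx.one
  have hKc : 1 ≤ K * c0 := by
    rw [hK, div_mul_cancel₀ _ hc.ne']
    exact hx.one
  have hK5 : (c0 / C) ^ 5 = 1 / K ^ 5 := by
    rw [hK, ← one_div_div c0 C]
    rw [one_div, one_div, inv_pow, inv_inv]
  rw [hK5] at hs
  have key : ∀ k : ℕ, ∀ n m : ℤ, (m - n).toNat = k → 2 ≤ n → n ≤ m → m ≤ N →
      y n m ≤ 2 * K ^ 2 * x n m := by
    intro k
    induction k using Nat.strong_induction_on with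
    | _ k ih =>
      intro n m hk hn hnm hm
      have hxn := hx.nonneg n m
      rcases lt_or_ge m (128 * n) with h | h
      · have h1 := hx.low n m hn hnm hm (by omega)
        have h2 : 1 ≤ 2 * K ^ 2 * c0 := by nlinarith
        have h3 : 2 * K ^ 2 * c0 ≤ 2 * K ^ 2 * x n m :=
          mul_le_mul_of_nonneg_left h1 (by positivity)
        exact (hy1 n m).trans (h2.trans h3)
      · have h0 := qm_t0 hx hn h hm
        rw [← hK] at h0
        have hterm : ∀ d ∈ Finset.Icc (8 * n) (m / 8),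
            12 * (d : ℝ) * L * (if 32 * n ≤ d then x (8 * n) (d / 2) else 1) *
              y 2 (d / 4) * y (2 * d) m ≤
            48 * K ^ 7 * x n m * (L * ((d : ℝ) * x 2 d)) := by
          intro d hd
          obtain ⟨hd1, hd2⟩ := Finset.mem_Icc.1 hd
          have hd0 : (0 : ℝ) ≤ d := by
            have : (0 : ℤ) ≤ d := by omega
            exact_mod_cast this
          have e1 := qm_td hx hn hd1 hd2 hm
          rw [← hK] at e1
          have e2 := qm_x1 hx (d := d) (by omega) (by omega)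
          rw [← hK] at e2
          have e3 : y 2 (d / 4) ≤ 2 * K ^ 2 * x 2 (d / 4) :=
            ih _ (by omega) 2 (d / 4) rfl le_rfl (by omega) (by omega)
          have e4 : y (2 * d) m ≤ 2 * K ^ 2 * x (2 * d) m :=
            ih _ (by omega) (2 * d) m rfl (by omega) (by omega) hm
          obtain ⟨G, hG⟩ : ∃ G : ℝ, G = if 32 * n ≤ d then x (8 * n) (d / 2) else 1 := ⟨_, rfl⟩
          rw [← hG] at e1 ⊢
          have hG0 : 0 ≤ G := by
            rw [hG]
            split_ifs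
            · exact hx.nonneg _ _
            · exact zero_le_one
          have hx1 := hx.nonneg 2 d
          have e5 : y 2 (d / 4) ≤ 2 * K ^ 3 * x 2 d := by
            refine e3.trans ?_
            have := mul_le_mul_of_nonneg_left e2 (show 0 ≤ 2 * K ^ 2 by positivity)
            calc 2 * K ^ 2 * x 2 (d / 4) ≤ 2 * K ^ 2 * (K * x 2 d) := this
              _ = 2 * K ^ 3 * x 2 d := by ring
          have e6 : G * y (2 * d) m ≤ 2 * K ^ 4 * x n m := by
            calc G * y (2 * d) m ≤ G * (2 * K ^ 2 * x (2 * d) m) :=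
                  mul_le_mul_of_nonneg_left e4 hG0
              _ = 2 * K ^ 2 * (G * x (2 * d) m) := by ring
              _ ≤ 2 * K ^ 2 * (K ^ 2 * x n m) :=
                  mul_le_mul_of_nonneg_left e1 (by positivity)
              _ = 2 * K ^ 4 * x n m := by ring
          have e7 : y 2 (d / 4) * (G * y (2 * d) m) ≤
              (2 * K ^ 3 * x 2 d) * (2 * K ^ 4 * x n m) :=
            mul_le_mul e5 e6 (mul_nonneg hG0 (hy _ _)) (by positivity)
          calc 12 * (d : ℝ) * L * G * y 2 (d / 4) * y (2 * d) m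
              = 12 * (d : ℝ) * L * (y 2 (d / 4) * (G * y (2 * d) m)) := by ring
            _ ≤ 12 * (d : ℝ) * L * ((2 * K ^ 3 * x 2 d) * (2 * K ^ 4 * x n m)) :=
                mul_le_mul_of_nonneg_left e7 (by positivity)
            _ = 48 * K ^ 7 * x n m * (L * ((d : ℝ) * x 2 d)) := by ring
        have hsum : ∑ d ∈ Finset.Icc (8 * n) (m / 8), (d : ℝ) * x 2 d ≤
            ∑ d ∈ Finset.Icc (2 : ℤ) N, (d : ℝ) * x 2 d := by
          refine Finset.sum_le_sum_of_subset_of_nonneg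
            (Finset.Icc_subset_Icc (by omega) (by omega)) fun d hd _ => ?_
          have : (0 : ℤ) ≤ d := by
            have := (Finset.mem_Icc.1 hd).1
            omega
          exact mul_nonneg (by exact_mod_cast this) (hx.nonneg _ _)
        have h2 := hrec n m hn h hm
        have h3 : ∑ d ∈ Finset.Icc (8 * n) (m / 8),
            12 * (d : ℝ) * L * (if 32 * n ≤ d then x (8 * n) (d / 2) else 1) *
              y 2 (d / 4) * y (2 * d) m ≤ K ^ 2 * x n m := by
          refine (Finset.sum_le_sum hterm).trans ?_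
          rw [← Finset.mul_sum, ← Finset.mul_sum]
          calc 48 * K ^ 7 * x n m * (L * ∑ d ∈ Finset.Icc (8 * n) (m / 8), (d : ℝ) * x 2 d)
              ≤ 48 * K ^ 7 * x n m * (1 / K ^ 5 / 48) :=
                mul_le_mul_of_nonneg_left
                  ((mul_le_mul_of_nonneg_left hsum hL).trans hs) (by positivity)
            _ = K ^ 2 * x n m := by
                field_simp
        linarith
  intro n m hn hnm hm
  rw [← hK]
  exact key _ n m rfl hn hnm hm

theorem mix_le {c0 C a b p : ℝ} {N : ℤ} (hx : Qm c0 C N (xf p)) (h0 : 0 ≤ a) (ha : a ≤ p)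
    (hb : p ≤ b) (h1 : b ≤ 1)
    (hs : (b - a) * ∑ d ∈ Finset.Icc (2 : ℤ) N, (d : ℝ) * xf p 2 d ≤ (c0 / C) ^ 5 / 48)
    {n m : ℤ} (hn : 2 ≤ n) (hnm : n ≤ m) (hm : m ≤ N) :
    yf a b n m ≤ 2 * (C / c0) ^ 2 * xf p n m :=
  win_ind hx (fun _ _ => yf_nonneg) (fun _ _ => yf_le_one) (by linarith)
    (fun n m hn hnm _ => (mxg_rec h0 ha hb h1 (by omega) hnm).trans
      (add_le_add le_rfl (Finset.sum_le_sum fun d hd => by
        have hd1 := (Finset.mem_Icc.1 hd).1
        have hd0 : (0 : ℝ) ≤ d := by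
          have : (0 : ℤ) ≤ d := by omega
          exact_mod_cast this
        have h2 : yf a b 1 (d / 4) ≤ yf a b 2 (d / 4) := yf_anti (by norm_num) (by omega) le_rfl
        have h3 : (0 : ℝ) ≤ if 32 * n ≤ d then xf p (8 * n) (d / 2) else 1 := by
          split_ifs
          · exact xf_nonneg
          · exact zero_le_one
        have h4 : 0 ≤ b - a := by linarith
        have h5 : 0 ≤ yf a b (2 * d) m := yf_nonneg
        gcongr))) hs n m hn hnm hm

end Pool.Agent.TriPerc
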