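import Pool.Agent.TriPerc.FourD
import Pool.Agent.TriPerc.GrowC
import Pool.Agent.TriPerc.WinInd

/-!
# Square annuli and hexagonal annuli: `Qm` for `xf p`

`frp p n m` is the probability of `Fr (Op p w) 0 n m` (four arms across a SQUARE annulus), `xf p n m` the
probability of `Four (Op p w) 0 n m` (hexagonal annulus).  `QmFr` is the quasi-multiplicativity of
`frp`; here it is a hypothesis.

* `four_of_fr`: `Fr S z n m`, `1 ≤ n`, `2 n ≤ m` imply `Four S z (2 n) m`.  PROOF.  Let `u, v` be typed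
  and not joined, `x, y` the inner ends of their paths (joined to `u`, `v` in `S ∩ SA z n m`, with a
  neighbour in `Sq z (n - 1)`), so `sn (x - z) ≤ n`, `nrm (x - z) ≤ 2 n` (`nrm_le_sn`) and
  `m = sn (u - z) ≤ nrm (u - z)`.  `four_of_conn` with `D = SA z n m`, which contains `Ann z (2 n) m`
  (`nrm ≥ 2 n` implies `sn ≥ n`, `sn ≤ nrm`).
* `fr_of_four`: `Four S z n (2 m)`, `1 ≤ n`, `n + 1 ≤ m` imply `Fr S z (n + 1) m`.  PROOF.  Let `u ~ v` be one
  of the two crossings in `T = S ∩ Ann z n (2 m)`: `sn (u - z) ≤ n`, `sn (v - z) ≥ m`.  `Conn.last` with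
  the set `Sq z n`: there are `x ∈ Sq z n`, `y ∉ Sq z n` adjacent, `y ~ v` in `T \ Sq z n`.
  `sarm_from` (with `n + 1` in place of `n`) gives `b ∈ Rg z m`, `y ~ b` in `T ∩ SA z (n + 1) m`.  So `b` is
  typed (`Ty S z (n + 1) m b`) and `b ~ y ~ u` in `T`.  The same for the other crossing: `b'`.  If
  `b ~ b'` in `S ∩ SA z (n + 1) m ⊆ Ann z n (2 m)`, then the two crossings are joined in `T`.
* `fr_of_four1`: `Four S z 1 (2 m)`, `1 ≤ m` imply `Fr S z 1 m`: as before, but a vertex `u` with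
  `nrm (u - z) = 1` is adjacent to `z`, which is the only vertex of `Sq z 0`; all paths stay outside
  `Sq z 0`; `sarm_from` with `n = 1` directly from `u` (`sn (u - z) = 1`).
* `frp_low`: under `Rsw c p N`: for `1 ≤ n ≤ m ≤ N`, `m ≤ A n`: `frp p n m ≥ c'`, `c'` depends on `c` and `A`.
  PROOF.  `rsw_exN` with factor `2` and `grow`; for `n ≥ 2`: `frp p n m ≥ xf p (n - 1) (2 m) ≥
  C ((n - 1) / (2 m)) ^ (2 - a) ≥ C (1 / (4 A)) ^ 2` (`fr_of_four`), for `n = 1`: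
  `frp p 1 m ≥ xf p 1 (2 m)` (`fr_of_four1`).
* `frp_chain`: assume `QmFr`; under `Rsw c p N` with `D = D (c)`: for `1 ≤ n ≤ k ≤ m ≤ N`: if `k ≤ 60 n` then
  `frp p k m ≤ D frp p n m`; if `m ≤ 60 k` then `frp p n k ≤ D frp p n m`.  PROOF: `QmFr` and
  `frp_low` with `A = 60`.
* `qm_xf`: `Qm c0 C N (xf p)`.  PROOF.  `low`: `grow`: `xf p n m ≥ C' (n / m) ^ (2 - a) ≥
  C' / 4096 ^ 2`.  `anti`: `xf_anti`.  `qm`: let `2 ≤ n ≤ k ≤ l ≤ 8 k`, `l ≤ m ≤ N`, `r = n / 2 ≥ 1`.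
  `xf p n m ≥ frp p r m` (`four_of_fr`, `four_sub`, `2 r ≤ n`).
  (i) `n + 1 ≤ k / 2` and `l + 1 ≤ m / 2`: `xf p n k ≤ frp p (n + 1) (k / 2)`,
  `xf p l m ≤ frp p (l + 1) (m / 2)` (`fr_of_four`, `xf_anti`; `2 (k / 2) ≤ k`).
  `frp p (n + 1) (k / 2) ≤ D frp p (n + 1) (l + 1)` since `l + 1 ≤ 8 k + 1 ≤ 60 (k / 2)`; then `QmFr`:
  `frp p (n + 1) (l + 1) * frp p (l + 1) (m / 2) ≤ C frp p (n + 1) (m / 2)
  ≤ C D frp p (n + 1) m ≤ C D ^ 2 frp p r m` (`m ≤ 60 (m / 2)`, `n + 1 ≤ 60 r`).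
  (ii) `k / 2 ≤ n`, `l + 1 ≤ m / 2`: `xf p n k ≤ 1` and `xf p l m ≤ frp p (l + 1) (m / 2) ≤
  D ^ 2 frp p r m`, because `l + 1 ≤ 8 k + 1 ≤ 16 n + 9 ≤ 60 r`.
  (iii) `n + 1 ≤ k / 2`, `m / 2 ≤ l`: `xf p l m ≤ 1` and `xf p n k ≤ frp p (n + 1) (k / 2) ≤
  D frp p (n + 1) m ≤ D ^ 2 frp p r m`, because `m ≤ 2 l + 1 ≤ 16 k + 1 ≤ 60 (k / 2)`.
  (iv) otherwise `m ≤ 2 l + 1 ≤ 16 k + 1 ≤ 32 n + 17 ≤ 4096 n`, and `low` for `xf p n m`.
* `frp_ge`: under `Rsw c p N`, `2 ≤ n ≤ N`: `xf p 2 n ≤ D' frp p 1 n` (as (iii) with `frp_chain`; for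
  `n < 8` by `frp_low`).
-/

namespace Pool.Agent.TriPerc

open MeasureTheory Set

/-- Probability of four arms across a square annulus. -/
noncomputable def frp (p : ℝ) (n m : ℤ) : ℝ := (P {w | Fr (Op p w) 0 n m}).toReal

/-- Quasi-multiplicativity of four arms under the RSW hypothesis. -/
def QmFr : Prop := ∀ c : ℝ, 0 < c → ∃ C : ℝ, 0 < C ∧ ∀ (p : ℝ) (N : ℤ), Rsw c p N →
  ∀ n k m : ℤ, 1 ≤ n → n ≤ k → k ≤ m → m ≤ N → frp p n k * frp p k m ≤ C * frp p n m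

variable {S : Set V} {z : V} {n m : ℤ}

theorem four_of_fr (hn : 1 ≤ n) (hnm : 2 * n ≤ m) (h : Fr S z n m) : Four S z (2 * n) m := by
  obtain ⟨u, v, ⟨hu, x, y, hy, hxy, hux⟩, ⟨hv, x', y', hy', hxy', hvx⟩, huv⟩ := h
  have key : ∀ {x y u : V}, y ∈ Sq z (n - 1) → Adj x y → Conn (S ∩ SA z n m) u x →
      nrm (x - z) ≤ 2 * n := by
    intro x y u hy hxy hux
    have h1 := sn_adj hxy z
    have h2 : sn (y - z) ≤ n - 1 := hy
    rw [abs_le] at h1
    have h3 := nrm_le_sn (x - z)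
    omega
  have hm : ∀ {u : V}, u ∈ Rg z m → m ≤ nrm (u - z) := by
    intro u hu
    have h1 : sn (u - z) = m := hu
    rw [← h1]
    exact sn_le_nrm _
  refine four_of_conn (D := SA z n m) hux.symm hvx.symm ?_ (key hy hxy hux) (hm hu)
    (key hy' hxy' hvx) (hm hv) hnm ?_
  · intro h1
    exact huv ((hux.trans h1).trans hvx.symm)
  · rintro w ⟨h1, h2⟩
    have h3 := nrm_le_sn (w - z)
    have h4 := sn_le_nrm (w - z)
    exact ⟨by omega, by omega⟩

private theorem typed_end (hn : 1 ≤ n) (hnm : n + 1 ≤ m) {u v : V} (hu : nrm (u - z) ≤ n)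
    (hv : 2 * m ≤ nrm (v - z)) (h : Conn (S ∩ Ann z n (2 * m)) u v) :
    ∃ b, Ty S z (n + 1) m b ∧ Conn (S ∩ Ann z n (2 * m)) u b := by
  have hu1 : u ∈ Sq z n := (sn_le_nrm (u - z)).trans hu
  have hv0 : m ≤ sn (v - z) := by
    have h1 := nrm_le_sn (v - z)
    omega
  have hv1 : v ∉ Sq z n := by
    intro h1
    have h2 : sn (v - z) ≤ n := h1
    omega
  obtain ⟨x, y, hx, hy, hxy, hux, hyv⟩ := h.last hu1 hv1
  have hx' : sn (x - z) ≤ n := hx
  have hy' : n < sn (y - z) := not_le.1 hy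
  have hadj := abs_le.1 (sn_adj hxy z)
  have hsub : (S ∩ Ann z n (2 * m)) \ Sq z n ⊆ {x | n + 1 ≤ sn (x - z)} := by
    rintro w ⟨-, hw⟩
    have h2 : n < sn (w - z) := not_le.1 hw
    exact h2
  obtain ⟨b, hb, hyb⟩ := sarm_from hyv hsub (by omega : sn (y - z) ≤ m) hv0
  refine ⟨b, ⟨hb, y, x, ?_, hxy.symm, ?_⟩, ?_⟩
  · change sn (x - z) ≤ n + 1 - 1
    omega
  · refine (hyb.mono ?_).symm
    rintro w ⟨⟨⟨h1, -⟩, -⟩, h2⟩
    exact ⟨h1, h2⟩
  · have h1 : Conn (S ∩ Ann z n (2 * m)) x y :=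
      Conn.of_adj hux.right (hyv.left.1) hxy
    refine (hux.trans h1).trans (hyb.mono ?_)
    rintro w ⟨⟨h2, -⟩, -⟩
    exact h2

theorem fr_of_four (hn : 1 ≤ n) (hnm : n + 1 ≤ m) (h : Four S z n (2 * m)) :
    Fr S z (n + 1) m := by
  obtain ⟨u, v, u', v', hu, hv, hu', hv', h1, h2, h3⟩ := h
  obtain ⟨b, hb, hub⟩ := typed_end hn hnm hu hv h1
  obtain ⟨b', hb', hub'⟩ := typed_end hn hnm hu' hv' h2
  refine ⟨b, b', hb, hb', fun h4 => h3 ?_⟩
  have h5 : S ∩ SA z (n + 1) m ⊆ S ∩ Ann z n (2 * m) := by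
    rintro w ⟨hw, h6, h7⟩
    have h8 := nrm_le_sn (w - z)
    have h9 := sn_le_nrm (w - z)
    exact ⟨hw, by omega, by omega⟩
  exact (hub.trans (h4.mono h5)).trans hub'.symm

private theorem typed_end1 (hm : 1 ≤ m) {u v : V} (hu : nrm (u - z) ≤ 1)
    (hv : 2 * m ≤ nrm (v - z)) (h : Conn (S ∩ Ann z 1 (2 * m)) u v) :
    ∃ b, Ty S z 1 m b ∧ Conn (S ∩ Ann z 1 (2 * m)) u b := by
  have hv0 : m ≤ sn (v - z) := by
    have h1 := nrm_le_sn (v - z)
    omega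
  have hu1 : sn (u - z) ≤ m := by
    have h1 := sn_le_nrm (u - z)
    omega
  have hu2 : 1 ≤ nrm (u - z) := h.left.2.1
  have hsub : S ∩ Ann z 1 (2 * m) ⊆ {x | 1 ≤ sn (x - z)} := by
    rintro w ⟨-, hw, -⟩
    have h2 := nrm_le_sn (w - z)
    change 1 ≤ sn (w - z)
    omega
  obtain ⟨b, hb, hub⟩ := sarm_from h hsub hu1 hv0
  obtain ⟨y, hy, hy'⟩ := nrm_down (v := u) (z := z) (by omega)
  refine ⟨b, ⟨hb, u, y, ?_, hy, ?_⟩, ?_⟩
  · change sn (y - z) ≤ 1 - 1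
    have h1 := sn_le_nrm (y - z)
    omega
  · refine (hub.mono ?_).symm
    rintro w ⟨⟨h1, -⟩, h2⟩
    exact ⟨h1, h2⟩
  · exact hub.mono inter_subset_left

theorem fr_of_four1 (hm : 1 ≤ m) (h : Four S z 1 (2 * m)) : Fr S z 1 m := by
  obtain ⟨u, v, u', v', hu, hv, hu', hv', h1, h2, h3⟩ := h
  obtain ⟨b, hb, hub⟩ := typed_end1 hm hu hv h1
  obtain ⟨b', hb', hub'⟩ := typed_end1 hm hu' hv' h2
  refine ⟨b, b', hb, hb', fun h4 => h3 ?_⟩
  have h5 : S ∩ SA z 1 m ⊆ S ∩ Ann z 1 (2 * m) := by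
    rintro w ⟨hw, h6, h7⟩
    have h8 := nrm_le_sn (w - z)
    have h9 := sn_le_nrm (w - z)
    exact ⟨hw, by omega, by omega⟩
  exact (hub.trans (h4.mono h5)).trans hub'.symm

private theorem tmc {A B : Set Lab} (h : A ⊆ B) : (P A).toReal ≤ (P B).toReal :=
  ENNReal.toReal_mono (measure_ne_top P B) (measure_mono h)

theorem frp_low (c : ℝ) (hc : 0 < c) (A : ℤ) (hA : 1 ≤ A) : ∃ c' : ℝ, 0 < c' ∧
    ∀ (p : ℝ) (N : ℤ), Rsw c p N → ∀ n m : ℤ, 1 ≤ n → n ≤ m → m ≤ N → m ≤ A * n →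
    c' ≤ frp p n m := by
  obtain ⟨c2, hc2, hext⟩ := rsw_exN c hc 2 (by norm_num)
  obtain ⟨C, a, hC, ha, ha', hgrow⟩ := grow c2 hc2
  have hA0 : (0 : ℝ) < A := by exact_mod_cast (by omega : (0 : ℤ) < A)
  have hA1 : (1 : ℝ) ≤ A := by exact_mod_cast hA
  refine ⟨C * (1 / (4 * (A : ℝ))) ^ 2, by positivity, fun p N hR n m hn hnm hmN hmA => ?_⟩
  have hN : 1 ≤ N := by omega
  have hR2 := hext p N hN hR
  have key : ∀ x : ℝ, 1 / (4 * (A : ℝ)) ≤ x → x ≤ 1 →
      C * (1 / (4 * (A : ℝ))) ^ 2 ≤ C * x ^ (2 - a) := by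
    intro x hx hx1
    have h0 : 0 < 1 / (4 * (A : ℝ)) := by positivity
    refine mul_le_mul_of_nonneg_left ?_ hC.le
    have h1 : (1 / (4 * (A : ℝ))) ^ 2 ≤ x ^ 2 := by
      exact pow_le_pow_left₀ h0.le hx 2
    refine h1.trans ?_
    have h2 : x ^ 2 = x ^ (2 : ℝ) := by rw [Real.rpow_two]
    rw [h2]
    exact Real.rpow_le_rpow_of_exponent_ge (h0.trans_le hx) hx1 (by linarith)
  have hn0 : (1 : ℝ) ≤ n := by exact_mod_cast hn
  have hnm' : (n : ℝ) ≤ m := by exact_mod_cast hnm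
  have hmA' : (m : ℝ) ≤ A * n := by exact_mod_cast hmA
  have hm0 : (0 : ℝ) < m := by linarith
  rcases hn.eq_or_lt with h1 | h1
  · have h2 : xf p 1 (2 * m) ≤ frp p 1 m := tmc fun w hw => fr_of_four1 (by omega) hw
    have h3 := hgrow p (2 * N) hR2 1 (2 * m) le_rfl (by omega) (by omega)
    rw [← h1]
    refine le_trans ?_ (h3.trans h2)
    rw [← h1] at hmA'
    push_cast at hmA' ⊢
    refine key _ ?_ ?_
    · rw [div_le_div_iff₀ (by positivity) (by positivity)]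
      nlinarith
    · rw [div_le_one (by positivity)]
      have h5 : (1 : ℝ) ≤ m := by linarith
      linarith
  · have h2 : xf p (n - 1) (2 * m) ≤ frp p n m := by
      refine tmc fun w hw => ?_
      have h5 := fr_of_four (n := n - 1) (m := m) (by omega) (by omega) hw
      rwa [sub_add_cancel] at h5
    have h3 := hgrow p (2 * N) hR2 (n - 1) (2 * m) (by omega) (by omega) (by omega)
    refine le_trans ?_ (h3.trans h2)
    have hn2 : (2 : ℝ) ≤ n := by exact_mod_cast h1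
    push_cast
    refine key _ ?_ ?_
    · rw [div_le_div_iff₀ (by positivity) (by positivity)]
      nlinarith
    · rw [div_le_one (by positivity)]
      linarith

theorem frp_chain (H : QmFr) (c : ℝ) (hc : 0 < c) : ∃ D : ℝ, 0 < D ∧
    ∀ (p : ℝ) (N : ℤ), Rsw c p N → ∀ n k m : ℤ, 1 ≤ n → n ≤ k → k ≤ m → m ≤ N →
    (k ≤ 60 * n → frp p k m ≤ D * frp p n m) ∧ (m ≤ 60 * k → frp p n k ≤ D * frp p n m) := by
  obtain ⟨C, hC, hq⟩ := H c hc
  obtain ⟨c', hc', hlow⟩ := frp_low c hc 60 (by norm_num)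
  refine ⟨C / c', by positivity, fun p N hR n k m hn hnk hkm hmN => ⟨fun hk => ?_, fun hm => ?_⟩⟩
  · have h1 := hlow p N hR n k hn hnk (by omega) hk
    have h2 := hq p N hR n k m hn hnk hkm hmN
    have h3 : 0 ≤ frp p k m := ENNReal.toReal_nonneg
    rw [div_mul_eq_mul_div, le_div_iff₀ hc']
    nlinarith
  · have h1 := hlow p N hR k m (by omega) hkm hmN hm
    have h2 := hq p N hR n k m hn hnk hkm hmN
    have h3 : 0 ≤ frp p n k := ENNReal.toReal_nonneg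
    rw [div_mul_eq_mul_div, le_div_iff₀ hc']
    nlinarith

theorem qm_xf (H : QmFr) (c : ℝ) (hc : 0 < c) : ∃ c0 C : ℝ, ∀ (p : ℝ) (N : ℤ),
    Rsw c p N → Qm c0 C N (xf p) := by
  obtain ⟨C', a, hC', ha, ha', hgrow⟩ := grow c hc
  obtain ⟨C1, hC1, hq⟩ := H c hc
  obtain ⟨D, hD, hch⟩ := frp_chain H c hc
  obtain ⟨c0, hc0⟩ : ∃ c0, c0 = min (C' * (1 / 4096) ^ 2) 1 := ⟨_, rfl⟩
  have hc0p : 0 < c0 := by
    rw [hc0]
    exact lt_min (by positivity) one_pos
  have hc01 : c0 ≤ 1 := by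
    rw [hc0]
    exact min_le_right _ _
  refine ⟨c0, C1 * D ^ 3 + D ^ 2 + 1 / c0 + 1, fun p N hR => ?_⟩
  have hlow : ∀ n m, 2 ≤ n → n ≤ m → m ≤ N → m ≤ 4096 * n → c0 ≤ xf p n m := by
    intro n m hn hnm hmN hm
    have h1 := hgrow p N hR n m (by omega) hnm hmN
    refine le_trans ?_ h1
    rw [hc0]
    refine (min_le_left _ _).trans (mul_le_mul_of_nonneg_left ?_ hC'.le)
    have hn' : (2 : ℝ) ≤ n := by exact_mod_cast hn
    have hnm' : (n : ℝ) ≤ m := by exact_mod_cast hnm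
    have hm' : (m : ℝ) ≤ 4096 * n := by exact_mod_cast hm
    have hm0 : (0 : ℝ) < m := by linarith
    have hx : (1 : ℝ) / 4096 ≤ n / m := by
      rw [div_le_div_iff₀ (by norm_num) hm0]
      linarith
    have hx1 : (n : ℝ) / m ≤ 1 := by
      rw [div_le_one hm0]
      exact hnm'
    have h2 : ((1 : ℝ) / 4096) ^ 2 ≤ ((n : ℝ) / m) ^ 2 := pow_le_pow_left₀ (by norm_num) hx 2
    refine h2.trans ?_
    rw [← Real.rpow_two]
    exact Real.rpow_le_rpow_of_exponent_ge (by positivity) hx1 (by linarith)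
  refine ⟨hc0p, hc01, ?_, fun n m => xf_nonneg, fun n n' m' m h1 h2 h3 => xf_anti h1 h2 h3, hlow,
    ?_⟩
  · have : 0 < C1 * D ^ 3 + D ^ 2 + 1 / c0 := by positivity
    linarith
  · intro n k l m hn hnk hkl hl hlm hmN
    obtain ⟨r, hr⟩ : ∃ r, r = n / 2 := ⟨_, rfl⟩
    have hr1 : 1 ≤ r := by omega
    have F1 : frp p r m ≤ xf p n m := by
      refine tmc fun w hw => ?_
      exact four_sub (by omega) (by omega) le_rfl (four_of_fr hr1 (by omega) hw)
    have F2 : ∀ n k : ℤ, 1 ≤ n → n + 1 ≤ k / 2 → xf p n k ≤ frp p (n + 1) (k / 2) := by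
      intro n k hn hk
      refine (xf_anti le_rfl (by omega : n ≤ 2 * (k / 2)) (by omega)).trans ?_
      exact tmc fun w hw => fr_of_four hn hk hw
    have hx0 : 0 ≤ xf p n m := xf_nonneg
    have hf0 : ∀ n m : ℤ, 0 ≤ frp p n m := fun n m => ENNReal.toReal_nonneg
    obtain ⟨CC, hCC⟩ : ∃ CC, CC = C1 * D ^ 3 + D ^ 2 + 1 / c0 + 1 := ⟨_, rfl⟩
    have i1 : 0 < C1 * D ^ 3 := by positivity
    have i2 : 0 < D ^ 2 := by positivity
    have i3 : 0 < 1 / c0 := by positivity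
    have e1 : C1 * D ^ 3 ≤ CC := by rw [hCC]; linarith
    have e2 : D ^ 2 ≤ CC := by rw [hCC]; linarith
    have e3 : 1 / c0 ≤ CC := by rw [hCC]; linarith
    rw [← hCC]
    by_cases hA : n + 1 ≤ k / 2
    · have hxk := F2 n k (by omega) hA
      have hl1 : frp p (n + 1) m ≤ D * frp p r m :=
        (hch p N hR r (n + 1) m hr1 (by omega) (by omega) hmN).1 (by omega)
      by_cases hB : l + 1 ≤ m / 2
      · have hxl := F2 l m (by omega) hB
        have g1 : frp p (n + 1) (k / 2) ≤ D * frp p (n + 1) (l + 1) :=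
          (hch p N hR (n + 1) (k / 2) (l + 1) (by omega) hA (by omega) (by omega)).2 (by omega)
        have g2 : frp p (n + 1) (l + 1) * frp p (l + 1) (m / 2) ≤
            C1 * frp p (n + 1) (m / 2) :=
          hq p N hR (n + 1) (l + 1) (m / 2) (by omega) (by omega) hB (by omega)
        have g3 : frp p (n + 1) (m / 2) ≤ D * frp p (n + 1) m :=
          (hch p N hR (n + 1) (m / 2) m (by omega) (by omega) (by omega) hmN).2 (by omega)
        calc xf p n k * xf p l m ≤ frp p (n + 1) (k / 2) * frp p (l + 1) (m / 2) :=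
              mul_le_mul hxk hxl xf_nonneg (hf0 _ _)
          _ ≤ (D * frp p (n + 1) (l + 1)) * frp p (l + 1) (m / 2) :=
              mul_le_mul_of_nonneg_right g1 (hf0 _ _)
          _ = D * (frp p (n + 1) (l + 1) * frp p (l + 1) (m / 2)) := by ring
          _ ≤ D * (C1 * (D * (D * frp p r m))) := by
              refine mul_le_mul_of_nonneg_left (g2.trans ?_) hD.le
              refine mul_le_mul_of_nonneg_left (g3.trans ?_) hC1.le
              exact mul_le_mul_of_nonneg_left hl1 hD.le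
          _ = C1 * D ^ 3 * frp p r m := by ring
          _ ≤ CC * xf p n m := mul_le_mul e1 F1 (hf0 _ _) (i1.le.trans e1)
      · have g1 : frp p (n + 1) (k / 2) ≤ D * frp p (n + 1) m :=
          (hch p N hR (n + 1) (k / 2) m (by omega) hA (by omega) hmN).2 (by omega)
        calc xf p n k * xf p l m ≤ frp p (n + 1) (k / 2) * 1 :=
              mul_le_mul hxk xf_le_one xf_nonneg (hf0 _ _)
          _ ≤ D * (D * frp p r m) := by
              rw [mul_one]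
              exact g1.trans (mul_le_mul_of_nonneg_left hl1 hD.le)
          _ = D ^ 2 * frp p r m := by ring
          _ ≤ CC * xf p n m := mul_le_mul e2 F1 (hf0 _ _) (i2.le.trans e2)
    · by_cases hB : l + 1 ≤ m / 2
      · have hxl := F2 l m (by omega) hB
        have g1 : frp p (l + 1) (m / 2) ≤ D * frp p (l + 1) m :=
          (hch p N hR (l + 1) (m / 2) m (by omega) hB (by omega) hmN).2 (by omega)
        have g2 : frp p (l + 1) m ≤ D * frp p r m :=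
          (hch p N hR r (l + 1) m hr1 (by omega) (by omega) hmN).1 (by omega)
        calc xf p n k * xf p l m ≤ 1 * frp p (l + 1) (m / 2) :=
              mul_le_mul xf_le_one hxl xf_nonneg zero_le_one
          _ ≤ D * (D * frp p r m) := by
              rw [one_mul]
              exact g1.trans (mul_le_mul_of_nonneg_left g2 hD.le)
          _ = D ^ 2 * frp p r m := by ring
          _ ≤ CC * xf p n m := mul_le_mul e2 F1 (hf0 _ _) (i2.le.trans e2)
      · have g1 : c0 ≤ xf p n m := hlow n m hn (by omega) hmN (by omega)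
        calc xf p n k * xf p l m ≤ 1 * 1 := mul_le_mul xf_le_one xf_le_one xf_nonneg zero_le_one
          _ = 1 / c0 * c0 := by rw [one_mul, div_mul_cancel₀ _ hc0p.ne']
          _ ≤ CC * xf p n m := mul_le_mul e3 g1 hc0p.le (i3.le.trans e3)

theorem frp_ge (H : QmFr) (c : ℝ) (hc : 0 < c) : ∃ D : ℝ, 0 < D ∧ ∀ (p : ℝ) (N : ℤ),
    Rsw c p N → ∀ n : ℤ, 2 ≤ n → n ≤ N → xf p 2 n ≤ D * frp p 1 n := by
  obtain ⟨D, hD, hch⟩ := frp_chain H c hc
  obtain ⟨c', hc', hlow⟩ := frp_low c hc 8 (by norm_num)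
  refine ⟨D ^ 2 + 1 / c', by positivity, fun p N hR n hn hnN => ?_⟩
  have hf0 : ∀ n m : ℤ, 0 ≤ frp p n m := fun n m => ENNReal.toReal_nonneg
  have i2 : 0 < D ^ 2 := by positivity
  have i3 : 0 < 1 / c' := by positivity
  by_cases hn6 : 6 ≤ n
  · have g0 : xf p 2 n ≤ frp p 3 (n / 2) := by
      refine (xf_anti le_rfl (by omega : 2 ≤ 2 * (n / 2)) (by omega)).trans ?_
      refine tmc fun w hw => ?_
      have h5 := fr_of_four (n := 2) (m := n / 2) (by omega) (by omega) hw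
      exact h5
    have g1 : frp p 3 (n / 2) ≤ D * frp p 3 n :=
      (hch p N hR 3 (n / 2) n (by omega) (by omega) (by omega) hnN).2 (by omega)
    have g2 : frp p 3 n ≤ D * frp p 1 n :=
      (hch p N hR 1 3 n (by omega) (by omega) (by omega) hnN).1 (by omega)
    calc xf p 2 n ≤ D * (D * frp p 1 n) :=
          g0.trans (g1.trans (mul_le_mul_of_nonneg_left g2 hD.le))
      _ = D ^ 2 * frp p 1 n := by ring
      _ ≤ (D ^ 2 + 1 / c') * frp p 1 n :=
          mul_le_mul_of_nonneg_right (by linarith) (hf0 _ _)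
  · have g1 : c' ≤ frp p 1 n := hlow p N hR 1 n le_rfl (by omega) hnN (by omega)
    calc xf p 2 n ≤ 1 := xf_le_one
      _ = 1 / c' * c' := by rw [div_mul_cancel₀ _ hc'.ne']
      _ ≤ (D ^ 2 + 1 / c') * frp p 1 n :=
          mul_le_mul (by linarith) g1 hc'.le (by positivity)

end Pool.Agent.TriPerc
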