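import Pool.Agent.TriPerc.HiC

/-!
# Exponential decay of arms above the correlation length

`af p n` is the probability of a `p`-open arm across `Ann 0 n (2 n)`; `ac p n` the same for closed arms.

NET: for `n ≥ 1` let `s = (n + 1) / 2`.  Every `v : V` is within `nrm`-distance `n` of the vertex
`(s (v.1 / s), s (v.2 / s))` (both coordinates of the difference are in `[0, s - 1]`,
`2 (s - 1) ≤ n`).  The number of net points `z` with `nrm z ≤ R`, `n ≤ R`, is at most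
`(2 R / s + 1) ^ 2 ≤ (4 R / n + 1) ^ 2 ≤ 25 (R / n) ^ 2`.

* `arm_net` (private): let `n ≥ 1`; if `S` has an arm across
  `Ann 0 m (2 m)`, `m + 3 n ≤ t ≤ 2 m - 3 n`, then there is a net point `z` with
  `t - n ≤ nrm z ≤ t + n` and `Arm S z n (2 n)`.  PROOF.  The path visits a vertex `x` with
  `nrm x = t` (its norm changes by at most one per step; `Conn.exit`), let `z` be the net point
  of `x`.  The end `u` of the path with `nrm u ≤ m` has `nrm (u - z) ≥ t - n - m ≥ 2 n`; so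
  `x ~ u` is a path from `nrm (x - z) ≤ n` to `nrm (u - z) ≥ 2 n`, `arm_of_conn`.
* `arm_union`: `af p m ≤ 100 (m / n) ^ 2 af p n` for `1 ≤ n`, `8 n ≤ m`: `arm_net` with
  `t = m + 3 n`, union bound over the net points with `nrm z ≤ 2 m`, translation invariance of
  the arm event (`mp_comp (tr z)`).
* `arm_square`: `af p m ≤ (100 (m / n) ^ 2 af p n) ^ 2` for `1 ≤ n`, `16 n ≤ m`: use `arm_net` with
  `t = m + 3 n` and with `t' = m + 10 n` (`≤ 2 m - 3 n`): net points `z`, `z'` with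
  `nrm z ≤ m + 4 n`, `m + 9 n ≤ nrm z'`; the annuli `Ann z n (2 n)`, `Ann z' n (2 n)` are contained in
  `{nrm ≤ m + 6 n}` and `{m + 7 n ≤ nrm}`, so the two arm events are independent (`indep`, `ev_arm`);
  union bound over the pairs.
* `decay`: with `C3 = (100 * 256 ^ 2) ^ 2`: if `1 ≤ n`, `16 n ≤ m` and `C3 * af p n ≤ 1 / 2`, then
  `C3 * af p m ≤ (1 / 2) ^ ((m / n) ^ (1 / 4) / 4)`.  PROOF.  By `arm_square`, for
  `16 k ≤ m ≤ 256 k`, `1 ≤ k`: `C3 af p m ≤ (C3 af p k) ^ 2`.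
  Strong induction on `m`, for the claim `C3 af p m ≤ (1 / 2) ^ (2 ^ j)` whenever `16 ^ j n ≤ m` and
  `1 ≤ j` (`j : ℕ`).  If `m < 256 n` then `j = 1` and `C3 af p m ≤ (C3 af p n) ^ 2 ≤ (1 / 2) ^ 2`.  If `m ≥ 256 n`
  put `k = m / 16 ≥ 16 n`; `16 k ≤ m ≤ 256 k`, `16 ^ (j - 1) n ≤ k` for `j ≥ 2`, and the induction
  hypothesis for `k` with `max (j - 1) 1`.  Now take the largest `j` with `16 ^ j n ≤ m`; then
  `m / n < 16 ^ (j + 1)`, so `(m / n) ^ (1 / 4) < 2 ^ (j + 1) ≤ 4 * 2 ^ j`.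
* `af_le`: if `1 ≤ n`, `16 n ≤ m` and `C3 * af p n ≤ 1 / 2`, then `af p m ≤ af p n` (the same induction:
  `C3 af p m ≤ (C3 af p n)`, because `(C3 af p k) ^ 2 ≤ C3 af p k` when `C3 af p k ≤ 1 / 2`).
* `low_scale`: for every `e > 0` there is `d > 0` such that `0 ≤ p ≤ 1`, `1 ≤ m ≤ n`, `ph p m ≤ d`
  imply `ph p n ≤ e`.  PROOF.  `n ≤ 4096 m`: `hi_ph`.  Let `n > 4096 m`.  By `hi_arm` (scale
  `m + 1 ≤ 2 m ≤ 4096 m`) `af p (2 m) ≤ e'` with `e'` small, `C3 e' ≤ 1 / 2`.  Let `k = n / 8`; `k ≥ 32 m`, so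
  `af p k ≤ e'` by `af_le`.  An open crossing of `Par 0 n 0 n` from left to right visits a vertex
  `x` with `x.1 = n / 2`; let `z` be its net point (with `k` in place of `n`), `nrm (x - z) ≤ k`; the left
  end `u` of the path has `nrm (u - z) ≥ nrm (u - x) - k ≥ n / 2 - k ≥ 2 k`, so there is an arm across
  `Ann z k (2 k)`.  `nrm z ≤ nrm x + k ≤ 2 n + k`, so there are at most `25 (3 n / k) ^ 2 ≤ 10 ^ 6` such
  net points, and `ph p n ≤ 10 ^ 6 e' ≤ e`.
* `decay_cl`: the closed version of `decay`, by `flip_lev` (`ac p n = af (1 - p) n`).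
-/

namespace Pool.Agent.TriPerc

open MeasureTheory Set

/-- Probability of an open arm across `Ann 0 n (2 n)`. -/
noncomputable def af (p : ℝ) (n : ℤ) : ℝ := (P {w | Arm (Op p w) 0 n (2 * n)}).toReal

/-- Probability of a closed arm across `Ann 0 n (2 n)`. -/
noncomputable def ac (p : ℝ) (n : ℤ) : ℝ := (P {w | Arm (Cl p w) 0 n (2 * n)}).toReal

theorem ac_flip (p : ℝ) (n : ℤ) : ac p n = af (1 - p) n := by
  exact congrArg ENNReal.toReal (flip_lev (finite_ann 0 n (2 * n)) p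
    (fun T => Join T {v | nrm (v - 0) ≤ n} {v | 2 * n ≤ nrm (v - 0)}))

private theorem nrm_le_iff {v : V} {k : ℤ} :
    nrm v ≤ k ↔ |v.1| ≤ k ∧ |v.2| ≤ k ∧ |v.1 + v.2| ≤ k := by
  unfold nrm
  rw [max_le_iff, max_le_iff, and_assoc]

/-- the net point of a vertex -/
private def np (s : ℤ) (v : V) : V := (s * (v.1 / s), s * (v.2 / s))

private theorem np_near {n : ℤ} (hn : 1 ≤ n) (v : V) : nrm (v - np ((n + 1) / 2) v) ≤ n := by
  have hs : 1 ≤ (n + 1) / 2 := by omega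
  have hs2 : 2 * ((n + 1) / 2) ≤ n + 1 := by omega
  generalize (n + 1) / 2 = s at *
  have e1 : v.1 - s * (v.1 / s) = v.1 % s := by rw [Int.emod_def]
  have e2 : v.2 - s * (v.2 / s) = v.2 % s := by rw [Int.emod_def]
  have b1 := Int.emod_nonneg v.1 (by omega : s ≠ 0)
  have b2 := Int.emod_lt_of_pos v.1 (by omega : 0 < s)
  have b3 := Int.emod_nonneg v.2 (by omega : s ≠ 0)
  have b4 := Int.emod_lt_of_pos v.2 (by omega : 0 < s)
  rw [nrm_le_iff]
  change |v.1 - s * (v.1 / s)| ≤ n ∧ |v.2 - s * (v.2 / s)| ≤ n ∧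
    |v.1 - s * (v.1 / s) + (v.2 - s * (v.2 / s))| ≤ n
  rw [e1, e2]
  clear e1 e2
  generalize v.1 % s = a at b1 b2 ⊢
  generalize v.2 % s = b at b3 b4 ⊢
  have n1 : -n ≤ 0 := by omega
  exact ⟨abs_le.2 ⟨n1.trans b1, by omega⟩, abs_le.2 ⟨n1.trans b3, by omega⟩,
    abs_le.2 ⟨n1.trans (add_nonneg b1 b3), by omega⟩⟩

/-- the net points of norm at most `R` -/
private noncomputable def net (n R : ℤ) : Finset V :=
  (Finset.Icc (-(R / ((n + 1) / 2))) (R / ((n + 1) / 2)) ×ˢ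
    Finset.Icc (-(R / ((n + 1) / 2))) (R / ((n + 1) / 2))).image
    (fun q : ℤ × ℤ => (((n + 1) / 2 * q.1, (n + 1) / 2 * q.2) : V))

private theorem np_mem {n R : ℤ} (hn : 1 ≤ n) {v : V} (h : nrm (np ((n + 1) / 2) v) ≤ R) :
    np ((n + 1) / 2) v ∈ net n R := by
  have hs : 1 ≤ (n + 1) / 2 := by omega
  unfold net
  generalize (n + 1) / 2 = s at *
  obtain ⟨h1, h2, -⟩ := nrm_le_iff.1 h
  change |s * (v.1 / s)| ≤ R at h1
  change |s * (v.2 / s)| ≤ R at h2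
  obtain ⟨h3, h4⟩ := abs_le.1 h1
  obtain ⟨h5, h6⟩ := abs_le.1 h2
  have key : ∀ q : ℤ, -R ≤ s * q → s * q ≤ R → q ∈ Finset.Icc (-(R / s)) (R / s) := by
    intro q h7 h8
    have h9 : q ≤ R / s := (Int.le_ediv_iff_mul_le (by omega)).2 (by rw [mul_comm]; exact h8)
    have h10 : -q ≤ R / s := (Int.le_ediv_iff_mul_le (by omega)).2 (by
      rw [neg_mul, mul_comm]
      omega)
    exact Finset.mem_Icc.2 ⟨by omega, h9⟩
  exact Finset.mem_image.2 ⟨(v.1 / s, v.2 / s),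
    Finset.mem_product.2 ⟨key _ h3 h4, key _ h5 h6⟩, rfl⟩

private theorem net_card {n R : ℤ} (hn : 1 ≤ n) (hR : n ≤ R) :
    ((net n R).card : ℝ) ≤ 25 * ((R : ℝ) / n) ^ 2 := by
  have hs : 1 ≤ (n + 1) / 2 := by omega
  have hs2 : n ≤ 2 * ((n + 1) / 2) := by omega
  have h1 : (net n R).card ≤
      (R / ((n + 1) / 2) + 1 - -(R / ((n + 1) / 2))).toNat ^ 2 := by
    refine Finset.card_image_le.trans ?_
    rw [Finset.card_product, Int.card_Icc, sq]
  have h1' : ((net n R).card : ℝ) ≤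
      ((R / ((n + 1) / 2) + 1 - -(R / ((n + 1) / 2))).toNat : ℝ) ^ 2 := by exact_mod_cast h1
  refine h1'.trans ?_
  clear h1 h1'
  generalize (n + 1) / 2 = s at *
  have h2 : 0 ≤ R / s := Int.ediv_nonneg (by omega) (by omega)
  have h3 : ((R / s + 1 - -(R / s)).toNat : ℝ) = 2 * ((R / s : ℤ) : ℝ) + 1 := by
    have h : ((R / s + 1 - -(R / s)).toNat : ℤ) = 2 * (R / s) + 1 := by omega
    exact_mod_cast h
  have h4 : (R / s) * n ≤ 2 * R := by
    have h5 := Int.ediv_mul_le R (by omega : s ≠ 0)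
    nlinarith
  have h4' : ((R / s : ℤ) : ℝ) * n ≤ 2 * R := by exact_mod_cast h4
  have hn' : (0 : ℝ) < n := by exact_mod_cast (by omega : (0 : ℤ) < n)
  have hR' : (n : ℝ) ≤ R := by exact_mod_cast hR
  have h2' : (0 : ℝ) ≤ ((R / s : ℤ) : ℝ) := by exact_mod_cast h2
  rw [h3]
  have h5 : 2 * ((R / s : ℤ) : ℝ) + 1 ≤ 5 * ((R : ℝ) / n) := by
    rw [← mul_div_assoc, le_div_iff₀ hn']
    nlinarith
  calc (2 * ((R / s : ℤ) : ℝ) + 1) ^ 2 ≤ (5 * ((R : ℝ) / n)) ^ 2 :=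
        pow_le_pow_left₀ (by linarith) h5 2
    _ = 25 * ((R : ℝ) / n) ^ 2 := by ring

private theorem arm_shift (S : Set V) (z : V) (n m : ℤ) :
    Arm {v | tr z v ∈ S} 0 n m ↔ Arm S z n m := by
  have e : ∀ v : V, tr z v - z = v - 0 := fun v => by
    change v + z - z = v - 0
    rw [add_sub_cancel_right, sub_zero]
  have h := join_preimage (S := S ∩ Ann z n m) (A := {v | nrm (v - z) ≤ n})
    (B := {v | m ≤ nrm (v - z)}) (isAut_tr z)
  have e1 : tr z ⁻¹' (S ∩ Ann z n m) = {v | tr z v ∈ S} ∩ Ann 0 n m := by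
    ext v
    change (tr z v ∈ S ∧ n ≤ nrm (tr z v - z) ∧ nrm (tr z v - z) ≤ m) ↔
      (tr z v ∈ S ∧ n ≤ nrm (v - 0) ∧ nrm (v - 0) ≤ m)
    rw [e]
  have e2 : tr z ⁻¹' {v | nrm (v - z) ≤ n} = {v | nrm (v - 0) ≤ n} := by
    ext v
    change nrm (tr z v - z) ≤ n ↔ nrm (v - 0) ≤ n
    rw [e]
  have e3 : tr z ⁻¹' {v | m ≤ nrm (v - z)} = {v | m ≤ nrm (v - 0)} := by
    ext v
    change m ≤ nrm (tr z v - z) ↔ m ≤ nrm (v - 0)
    rw [e]
  rw [e1, e2, e3] at h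
  exact h

private theorem P_arm (p : ℝ) (z : V) (n : ℤ) :
    (P {w | Arm (Op p w) z n (2 * n)}).toReal = af p n := by
  have h := frame (tr z) (fun S => Arm S 0 n (2 * n)) p (ev_arm p 0 n (2 * n)).1.1
  have e : {w : Lab | Arm {v | tr z v ∈ Op p w} 0 n (2 * n)} =
      {w | Arm (Op p w) z n (2 * n)} := by
    ext w
    exact arm_shift _ _ _ _
  rw [af, ← h, ← e]

private theorem union_le (p : ℝ) {n R : ℤ} (hn : 1 ≤ n) (hR : n ≤ R) {A : Set Lab}
    (hA : ∀ w ∈ A, ∃ z ∈ net n R, Arm (Op p w) z n (2 * n)) :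
    (P A).toReal ≤ 25 * ((R : ℝ) / n) ^ 2 * af p n := by
  have h0 : A ⊆ ⋃ z ∈ net n R, {w | Arm (Op p w) z n (2 * n)} := by
    intro w hw
    obtain ⟨z, hz, hz'⟩ := hA w hw
    exact mem_iUnion₂.2 ⟨z, hz, hz'⟩
  have h0' : P.real (⋃ z ∈ net n R, {w | Arm (Op p w) z n (2 * n)}) ≤
      ∑ z ∈ net n R, P.real {w | Arm (Op p w) z n (2 * n)} :=
    measureReal_biUnion_finset_le (μ := P) (net n R) (fun z => {w | Arm (Op p w) z n (2 * n)})
  have h1 : P.real A ≤ ∑ z ∈ net n R, P.real {w | Arm (Op p w) z n (2 * n)} :=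
    (measureReal_mono h0 (measure_ne_top _ _)).trans h0'
  have h2 : ∀ z ∈ net n R, P.real {w | Arm (Op p w) z n (2 * n)} = af p n :=
    fun z _ => P_arm p z n
  rw [Finset.sum_congr rfl h2, Finset.sum_const, nsmul_eq_mul] at h1
  exact h1.trans (mul_le_mul_of_nonneg_right (net_card hn hR) ENNReal.toReal_nonneg)

private theorem nrm_tri {a b : V} : nrm a ≤ nrm b + nrm (a - b) ∧ nrm b ≤ nrm a + nrm (a - b) := by
  constructor
  · have h := nrm_add b (a - b)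
    rwa [add_sub_cancel] at h
  · have h := nrm_add a (b - a)
    rw [add_sub_cancel, ← neg_sub a b, nrm_neg] at h
    exact h

/-- an arm at a net point from a path which leaves a neighbourhood -/
private theorem arm_np {S : Set V} {n : ℤ} (hn : 1 ≤ n) {u y : V} (h : Conn S y u)
    (hu : 3 * n ≤ nrm (u - y)) :
    Arm S (np ((n + 1) / 2) y) n (2 * n) := by
  have h1 := np_near hn y
  refine arm_of_conn h h1 ?_ (by omega)
  have h2 := (nrm_tri (a := u - y) (b := u - np ((n + 1) / 2) y)).1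
  have e : u - y - (u - np ((n + 1) / 2) y) = -(y - np ((n + 1) / 2) y) := by abel
  rw [e, nrm_neg] at h2
  omega

private theorem arm_net {S : Set V} {n m t : ℤ} (hn : 1 ≤ n) (h1 : m + 3 * n ≤ t)
    (h2 : t ≤ 2 * m) (h : Arm S 0 m (2 * m)) : ∃ z : V, (∀ R, nrm z ≤ R → z ∈ net n R) ∧
      t - n ≤ nrm z ∧ nrm z ≤ t + n ∧ Arm S z n (2 * n) := by
  obtain ⟨u, hu, v, hv, hc⟩ := h
  have hu' : nrm u ≤ m := by
    have : nrm (u - 0) ≤ m := hu
    rwa [sub_zero] at this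
  have hv' : 2 * m ≤ nrm v := by
    have : 2 * m ≤ nrm (v - 0) := hv
    rwa [sub_zero] at this
  obtain ⟨x, y, hx, hy, hxy, hux, hyv⟩ := hc.exit (A := {x | nrm x < t})
    (by
      change nrm u < t
      omega)
    (by
      change ¬ nrm v < t
      omega)
  have hx' : nrm x < t := hx
  have hy' : ¬ nrm y < t := hy
  have ha := nrm_adj hxy 0
  rw [sub_zero, sub_zero, abs_le] at ha
  have hyt : nrm y = t := by omega
  have huy : Conn S y u := by
    have hux' : Conn S u x := hux.mono fun a ha => ha.1.1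
    exact (hux'.trans (Conn.of_adj hux'.right hyv.left.1 hxy)).symm
  have h3 := nrm_tri (a := u) (b := y)
  have h4 := np_near hn y
  have h5 := nrm_tri (a := y) (b := np ((n + 1) / 2) y)
  exact ⟨np ((n + 1) / 2) y, fun R hR => np_mem hn hR, by omega, by omega,
    arm_np hn huy (by omega)⟩

theorem arm_union {p : ℝ} {n m : ℤ} (hn : 1 ≤ n) (hm : 8 * n ≤ m) :
    af p m ≤ 100 * ((m : ℝ) / n) ^ 2 * af p n := by
  have h := union_le p hn (by omega : n ≤ 2 * m) (A := {w | Arm (Op p w) 0 m (2 * m)})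
    (fun w hw => by
      obtain ⟨z, hz, -, h2, h3⟩ := arm_net (t := m + 3 * n) hn le_rfl (by omega) hw
      exact ⟨z, hz _ (by omega), h3⟩)
  refine h.trans (le_of_eq ?_)
  push_cast
  ring

theorem arm_square {p : ℝ} {n m : ℤ} (hn : 1 ≤ n) (hm : 16 * n ≤ m) :
    af p m ≤ (100 * ((m : ℝ) / n) ^ 2 * af p n) ^ 2 := by
  classical
  obtain ⟨N1, hN1⟩ : ∃ N1, N1 = (net n (2 * m)).filter (fun z => nrm z ≤ m + 4 * n) := ⟨_, rfl⟩
  obtain ⟨N2, hN2⟩ : ∃ N2, N2 = (net n (2 * m)).filter (fun z => m + 9 * n ≤ nrm z) := ⟨_, rfl⟩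
  have hc1 : (N1.card : ℝ) ≤ 100 * ((m : ℝ) / n) ^ 2 := by
    have e1 : N1.card ≤ (net n (2 * m)).card := by
      rw [hN1]
      exact Finset.card_filter_le _ _
    have e2 : (N1.card : ℝ) ≤ ((net n (2 * m)).card : ℝ) := by exact_mod_cast e1
    refine (e2.trans (net_card hn (by omega))).trans (le_of_eq ?_)
    push_cast
    ring
  have hc2 : (N2.card : ℝ) ≤ 100 * ((m : ℝ) / n) ^ 2 := by
    have e1 : N2.card ≤ (net n (2 * m)).card := by
      rw [hN2]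
      exact Finset.card_filter_le _ _
    have e2 : (N2.card : ℝ) ≤ ((net n (2 * m)).card : ℝ) := by exact_mod_cast e1
    refine (e2.trans (net_card hn (by omega))).trans (le_of_eq ?_)
    push_cast
    ring
  have h0 : {w | Arm (Op p w) 0 m (2 * m)} ⊆ ⋃ q ∈ N1 ×ˢ N2,
      ({w | Arm (Op p w) q.1 n (2 * n)} ∩ {w | Arm (Op p w) q.2 n (2 * n)}) := by
    intro w hw
    obtain ⟨z, hz, -, h2, h3⟩ := arm_net (t := m + 3 * n) hn le_rfl (by omega) hw
    obtain ⟨z', hz', h2', h4, h3'⟩ := arm_net (t := m + 10 * n) hn (by omega) (by omega) hw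
    refine mem_iUnion₂.2 ⟨(z, z'), Finset.mem_product.2 ⟨?_, ?_⟩, h3, h3'⟩
    · rw [hN1]
      refine Finset.mem_filter.2 ⟨hz _ (by omega), ?_⟩
      change nrm z ≤ m + 4 * n
      omega
    · rw [hN2]
      refine Finset.mem_filter.2 ⟨hz' _ (by omega), ?_⟩
      change m + 9 * n ≤ nrm z'
      omega
  have h0' : P.real (⋃ q ∈ N1 ×ˢ N2,
      ({w | Arm (Op p w) q.1 n (2 * n)} ∩ {w | Arm (Op p w) q.2 n (2 * n)})) ≤
      ∑ q ∈ N1 ×ˢ N2,
      P.real ({w | Arm (Op p w) q.1 n (2 * n)} ∩ {w | Arm (Op p w) q.2 n (2 * n)}) :=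
    measureReal_biUnion_finset_le (μ := P) (N1 ×ˢ N2)
      (fun q => {w | Arm (Op p w) q.1 n (2 * n)} ∩ {w | Arm (Op p w) q.2 n (2 * n)})
  have h1 : P.real {w | Arm (Op p w) 0 m (2 * m)} ≤ ∑ q ∈ N1 ×ˢ N2,
      P.real ({w | Arm (Op p w) q.1 n (2 * n)} ∩ {w | Arm (Op p w) q.2 n (2 * n)}) :=
    (measureReal_mono h0 (measure_ne_top _ _)).trans h0'
  have h2 : ∀ q ∈ N1 ×ˢ N2,
      P.real ({w | Arm (Op p w) q.1 n (2 * n)} ∩ {w | Arm (Op p w) q.2 n (2 * n)}) =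
        af p n ^ 2 := by
    intro q hq
    obtain ⟨hq1, hq2⟩ := Finset.mem_product.1 hq
    rw [hN1] at hq1
    rw [hN2] at hq2
    have hq1' := (Finset.mem_filter.1 hq1).2
    have hq2' := (Finset.mem_filter.1 hq2).2
    have hd : Disjoint (Ann q.1 n (2 * n)) (Ann q.2 n (2 * n)) := by
      refine Set.disjoint_left.2 fun v hv hv' => ?_
      have e1 := (nrm_tri (a := v) (b := q.1)).1
      have e2 := (nrm_tri (a := v) (b := q.2)).2
      have e3 : nrm (v - q.1) ≤ 2 * n := hv.2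
      have e4 : nrm (v - q.2) ≤ 2 * n := hv'.2
      omega
    have e := congrArg ENNReal.toReal
      (indep (ev_arm p q.1 n (2 * n)).1 (ev_arm p q.2 n (2 * n)).1 hd)
    rw [ENNReal.toReal_mul, P_arm, P_arm] at e
    rw [sq]
    exact e
  rw [Finset.sum_congr rfl h2, Finset.sum_const, nsmul_eq_mul, Finset.card_product,
    Nat.cast_mul] at h1
  have haf : (0 : ℝ) ≤ af p n := ENNReal.toReal_nonneg
  refine h1.trans ?_
  have h3 : (N1.card : ℝ) * (N2.card : ℝ) ≤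
      (100 * ((m : ℝ) / n) ^ 2) * (100 * ((m : ℝ) / n) ^ 2) :=
    mul_le_mul hc1 hc2 (Nat.cast_nonneg _) (by positivity)
  calc (N1.card : ℝ) * (N2.card : ℝ) * af p n ^ 2
      ≤ (100 * ((m : ℝ) / n) ^ 2) * (100 * ((m : ℝ) / n) ^ 2) * af p n ^ 2 :=
        mul_le_mul_of_nonneg_right h3 (by positivity)
    _ = _ := by ring

private theorem step {p : ℝ} {k m : ℤ} (hk : 1 ≤ k) (hm : 16 * k ≤ m) (hm' : m ≤ 256 * k) :
    (100 * 256 ^ 2) ^ 2 * af p m ≤ ((100 * 256 ^ 2) ^ 2 * af p k) ^ 2 := by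
  have h1 := arm_square (p := p) hk hm
  have hk' : (0 : ℝ) < k := by exact_mod_cast (by omega : (0 : ℤ) < k)
  have hm0 : (0 : ℝ) ≤ m := by exact_mod_cast (by omega : (0 : ℤ) ≤ m)
  have h2 : (m : ℝ) / k ≤ 256 := by
    rw [div_le_iff₀ hk']
    exact_mod_cast hm'
  have haf : (0 : ℝ) ≤ af p k := ENNReal.toReal_nonneg
  have h3 : (100 * ((m : ℝ) / k) ^ 2 * af p k) ^ 2 ≤ (100 * 256 ^ 2 * af p k) ^ 2 := by
    gcongr
  calc (100 * 256 ^ 2) ^ 2 * af p m ≤ (100 * 256 ^ 2) ^ 2 * (100 * 256 ^ 2 * af p k) ^ 2 :=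
        mul_le_mul_of_nonneg_left (h1.trans h3) (by positivity)
    _ = _ := by ring

private theorem decay_aux {p : ℝ} {n : ℤ} (hn : 1 ≤ n)
    (h : (100 * 256 ^ 2) ^ 2 * af p n ≤ 1 / 2) (N : ℕ) : ∀ m : ℤ, m ≤ N → 16 * n ≤ m →
    (100 * 256 ^ 2) ^ 2 * af p m ≤ (100 * 256 ^ 2) ^ 2 * af p n ∧
    ∀ j : ℕ, 16 ^ (j + 1) * n ≤ m →
      (100 * 256 ^ 2) ^ 2 * af p m ≤ (1 / 2 : ℝ) ^ 2 ^ (j + 1) := by
  induction N using Nat.strong_induction_on with
  | _ N ih =>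
    intro m hmN hm
    have hpos : ∀ k : ℤ, (0 : ℝ) ≤ (100 * 256 ^ 2) ^ 2 * af p k := fun k =>
      mul_nonneg (by positivity) ENNReal.toReal_nonneg
    rcases lt_or_ge m (256 * n) with h1 | h1
    · have h2 := step (p := p) hn hm h1.le
      have h0 := hpos n
      constructor
      · nlinarith
      · intro j hj
        have hj0 : j = 0 := by
          by_contra hne
          have h3 : (16 : ℤ) ^ 2 ≤ 16 ^ (j + 1) := pow_le_pow_right₀ (by norm_num) (by omega)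
          nlinarith
        rw [hj0, zero_add, pow_one]
        exact h2.trans (pow_le_pow_left₀ h0 h 2)
    · have hk1 : 16 * n ≤ m / 16 := by omega
      have hk2 : 16 * (m / 16) ≤ m := by omega
      have hk3 : m ≤ 256 * (m / 16) := by omega
      obtain ⟨i1, i2⟩ := ih (m / 16).toNat (by omega) (m / 16) (by omega) hk1
      have h2 := step (p := p) (by omega : 1 ≤ m / 16) hk2 hk3
      have h0 := hpos (m / 16)
      constructor
      · nlinarith
      · intro j hj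
        rcases Nat.eq_zero_or_pos j with rfl | hj0
        · have h3 := i2 0 (by omega)
          rw [zero_add, pow_one] at h3 ⊢
          nlinarith
        · obtain ⟨i, rfl⟩ : ∃ i, j = i + 1 := ⟨j - 1, by omega⟩
          have hj' : 16 ^ (i + 1) * n * 16 ≤ m := by
            rw [pow_succ] at hj
            linarith
          have h3 := i2 i (by omega)
          refine h2.trans ((pow_le_pow_left₀ h0 h3 2).trans (le_of_eq ?_))
          rw [← pow_mul, ← pow_succ]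

theorem decay {p : ℝ} {n m : ℤ} (hn : 1 ≤ n) (hm : 16 * n ≤ m)
    (h : (100 * 256 ^ 2) ^ 2 * af p n ≤ 1 / 2) :
    (100 * 256 ^ 2) ^ 2 * af p m ≤ (1 / 2 : ℝ) ^ (((m : ℝ) / n) ^ (1 / 4 : ℝ) / 4) := by
  have hn' : (0 : ℝ) < n := by exact_mod_cast (by omega : (0 : ℤ) < n)
  have hm' : (16 : ℝ) * n ≤ m := by exact_mod_cast hm
  have hx : (16 : ℝ) ≤ (m : ℝ) / n := by
    rw [le_div_iff₀ hn']
    exact hm'
  obtain ⟨j, hj1, hj2⟩ := exists_nat_pow_near (by linarith : (1 : ℝ) ≤ (m : ℝ) / n)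
    (by norm_num : (1 : ℝ) < 16)
  have hj0 : j ≠ 0 := by
    rintro rfl
    rw [zero_add, pow_one] at hj2
    linarith
  obtain ⟨i, rfl⟩ := Nat.exists_eq_succ_of_ne_zero hj0
  have h1 : 16 ^ (i + 1) * n ≤ m := by
    rw [le_div_iff₀ hn'] at hj1
    exact_mod_cast hj1
  refine ((decay_aux hn h m.toNat m (by omega) hm).2 i h1).trans ?_
  rw [← Real.rpow_natCast]
  refine Real.rpow_le_rpow_of_exponent_ge (by norm_num) (by norm_num) ?_
  have h2 : ((m : ℝ) / n) ^ (1 / 4 : ℝ) ≤ ((16 : ℝ) ^ (i + 1 + 1)) ^ (1 / 4 : ℝ) :=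
    Real.rpow_le_rpow (by linarith) hj2.le (by norm_num)
  have h3 : ((16 : ℝ) ^ (i + 1 + 1)) ^ (1 / 4 : ℝ) = 2 ^ (i + 1 + 1) := by
    have e : (16 : ℝ) ^ (i + 1 + 1) = ((2 : ℝ) ^ (i + 1 + 1)) ^ (4 : ℝ) := by
      rw [show (4 : ℝ) = ((4 : ℕ) : ℝ) by norm_num, Real.rpow_natCast, ← pow_mul, mul_comm,
        pow_mul]
      norm_num
    rw [e, ← Real.rpow_mul (by positivity)]
    norm_num
  rw [h3] at h2
  push_cast
  have h4 : (2 : ℝ) ^ (i + 1 + 1) = 2 * 2 ^ (i + 1) := by rw [pow_succ, mul_comm]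
  have h5 : (0 : ℝ) < 2 ^ (i + 1) := by positivity
  rw [h4] at h2
  linarith

theorem af_le {p : ℝ} {n m : ℤ} (hn : 1 ≤ n) (hm : 16 * n ≤ m)
    (h : (100 * 256 ^ 2) ^ 2 * af p n ≤ 1 / 2) : af p m ≤ af p n :=
  le_of_mul_le_mul_left (decay_aux hn h m.toNat m (by omega) hm).1 (by positivity)

private theorem ph_net {p : ℝ} {n k : ℤ} (hk : 7 ≤ k) (h1 : 8 * k ≤ n) (h2 : n ≤ 8 * k + 7) :
    ph p n ≤ 10 ^ 6 * af p k := by
  have h := union_le p (by omega : 1 ≤ k) (by omega : k ≤ 3 * n) (A := oPH p 0 n 0 n)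
    (fun w hw => by
      obtain ⟨u, hu, v, hv, hc⟩ := hw
      have hu' : u.1 ≤ 0 := hu
      have hv' : n ≤ v.1 := hv
      obtain ⟨x, y, hx, hy, hxy, hux, hyv⟩ := hc.exit (A := {x | x.1 < n / 2})
        (by
          change u.1 < n / 2
          omega)
        (by
          change ¬ v.1 < n / 2
          omega)
      have hx' : x.1 < n / 2 := hx
      have hy' : ¬ y.1 < n / 2 := hy
      have ha := hxy.abs.1
      rw [abs_le] at ha
      obtain ⟨hyS, hy1, hy2, hy3, hy4⟩ := hyv.left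
      have huy : Conn (Op p w) y u := by
        have hux' : Conn (Op p w) u x := hux.mono fun a ha => ha.1.1
        exact (hux'.trans (Conn.of_adj hux'.right hyS hxy)).symm
      have h3 : n / 2 ≤ nrm (u - y) := by
        have e1 := (nrm_le_iff.1 (le_refl (nrm (u - y)))).1
        have e2 : (u - y).1 = u.1 - y.1 := rfl
        rw [e2, abs_le] at e1
        omega
      have h4 : nrm y ≤ 2 * n := by
        rw [nrm_le_iff]
        refine ⟨abs_le.2 ⟨?_, ?_⟩, abs_le.2 ⟨?_, ?_⟩, abs_le.2 ⟨?_, ?_⟩⟩ <;> omega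
      have h5 := np_near (by omega : 1 ≤ k) y
      have h6 := nrm_tri (a := y) (b := np ((k + 1) / 2) y)
      exact ⟨np ((k + 1) / 2) y, np_mem (by omega) (by omega),
        arm_np (by omega) huy (by omega)⟩)
  have haf : (0 : ℝ) ≤ af p k := ENNReal.toReal_nonneg
  refine h.trans (mul_le_mul_of_nonneg_right ?_ haf)
  have hk' : (0 : ℝ) < k := by exact_mod_cast (by omega : (0 : ℤ) < k)
  have h3 : ((3 * n : ℤ) : ℝ) / k ≤ 27 := by
    rw [div_le_iff₀ hk']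
    exact_mod_cast (by omega : 3 * n ≤ 27 * k)
  have h4 : (0 : ℝ) ≤ ((3 * n : ℤ) : ℝ) / k := by
    refine div_nonneg ?_ hk'.le
    exact_mod_cast (by omega : 0 ≤ 3 * n)
  have h5 := pow_le_pow_left₀ h4 h3 2
  linarith

theorem low_scale (e : ℝ) (he : 0 < e) : ∃ d : ℝ, 0 < d ∧ ∀ (p : ℝ) (m n : ℤ), 0 ≤ p →
    p ≤ 1 → 1 ≤ m → m ≤ n → ph p m ≤ d → ph p n ≤ e := by
  obtain ⟨e', he'⟩ : ∃ e' : ℝ, e' = min (e / 10 ^ 6) (1 / (2 * (100 * 256 ^ 2) ^ 2)) :=
    ⟨_, rfl⟩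
  have he0 : 0 < e' := by
    rw [he']
    exact lt_min (by positivity) (by positivity)
  have he1 : e' ≤ e / 10 ^ 6 := by
    rw [he']
    exact min_le_left _ _
  have he2 : e' ≤ 1 / (2 * (100 * 256 ^ 2) ^ 2) := by
    rw [he']
    exact min_le_right _ _
  obtain ⟨d1, hd1, h1⟩ := hi_arm e' he0
  obtain ⟨d2, hd2, h2⟩ := hi_ph e he
  refine ⟨min d1 d2, lt_min hd1 hd2, fun p m n hp0 hp1 hm hmn hph => ?_⟩
  rcases le_or_gt n (4096 * m) with hc | hc
  · exact h2 p m n hp0 hp1 hm (hph.trans (min_le_right _ _)) hmn hc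
  have h3 : af p (2 * m) ≤ e' :=
    h1 p m (2 * m) hp0 hp1 hm (hph.trans (min_le_left _ _)) (by omega) (by omega)
  have h4 : (100 * 256 ^ 2) ^ 2 * af p (2 * m) ≤ 1 / 2 := by
    have h5 := h3.trans he2
    rw [le_div_iff₀ (by positivity)] at h5
    linarith
  have h5 := af_le (p := p) (by omega : 1 ≤ 2 * m) (by omega : 16 * (2 * m) ≤ n / 8) h4
  have h6 := ph_net (p := p) (by omega : 7 ≤ n / 8) (by omega : 8 * (n / 8) ≤ n) (by omega)
  have h7 : e' * 10 ^ 6 ≤ e := (le_div_iff₀ (by positivity)).1 he1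
  linarith

end Pool.Agent.TriPerc
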