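import Pool.Agent.TriPerc.DefsA
import Mathlib.Probability.ProductMeasure

/-!
# Site percolation on the triangular lattice: the law of the labels

(The vertices, paths and events are in `DefsA`.)
-/

namespace Pool.Agent.TriPerc

open MeasureTheory

/-- The uniform law on `[0, 1]`. -/
noncomputable def unif : Measure ℝ := volume.restrict (Set.Icc 0 1)

instance : IsProbabilityMeasure unif := ⟨by simp [unif]⟩

/-- The law of the labels: independent uniform labels on all vertices. -/
noncomputable def P : Measure Lab := Measure.infinitePi (fun _ : V => unif)

instance : IsProbabilityMeasure P := by unfold P; infer_instance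

/-- `A` is a measurable event which depends on the labels in `s` only. -/
def Ev (s : Set V) (A : Set Lab) : Prop :=
  MeasurableSet A ∧ ∀ w w' : Lab, (∀ v ∈ s, w v = w' v) → w ∈ A → w' ∈ A

/-- Changing the labels of the vertices in `s` to those of `w'`. -/
noncomputable def mix (s : Set V) (w w' : Lab) : Lab := by
  classical
  exact fun v => if v ∈ s then w' v else w v

end Pool.Agent.TriPerc
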