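import Mathlib.Tactic

/-!
# Site percolation on the triangular lattice with i.i.d. uniform labels: definitions

Vertices are `V = ℤ × ℤ`; the six neighbours of `(a, b)` are `(a+1,b)`, `(a,b+1)`, `(a-1,b+1)`,
`(a-1,b)`, `(a,b-1)`, `(a+1,b-1)`.  The point `(a, b)` is the complex number
`a + b * exp (i pi / 3)`; `X v = 2 a + b` is twice its real part, `v.2 = b` its row.

Every vertex carries a label which is uniform on `[0, 1]`; a vertex is `p`-open if its label is
at most `p` and `p`-closed otherwise.  All levels `p` live on the same space `Lab = V → ℝ`, with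
the product measure `P`.

An event which becomes more likely when more vertices are open is a LOWER set of labels
(`IsLowerSet`), an event which becomes more likely when more vertices are closed is an UPPER set.
-/

namespace Pool.Agent.TriPerc


/-- The vertices of the triangular lattice. -/
abbrev V : Type := ℤ × ℤ

/-- The neighbour relation of the triangular lattice. -/
def Adj (u v : V) : Prop :=
  (v.1 = u.1 + 1 ∧ v.2 = u.2) ∨ (v.1 = u.1 ∧ v.2 = u.2 + 1) ∨ (v.1 = u.1 - 1 ∧ v.2 = u.2 + 1) ∨
  (v.1 = u.1 - 1 ∧ v.2 = u.2) ∨ (v.1 = u.1 ∧ v.2 = u.2 - 1) ∨ (v.1 = u.1 + 1 ∧ v.2 = u.2 - 1)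

instance (u v : V) : Decidable (Adj u v) := by unfold Adj; infer_instance

/-- `u` and `v` are joined by a path of the lattice all of whose vertices (ends included)
are in `S`. -/
def Conn (S : Set V) (u v : V) : Prop :=
  u ∈ S ∧ Relation.ReflTransGen (fun x y => Adj x y ∧ y ∈ S) u v

/-- Some vertex of `A` is joined to some vertex of `B` by a path in `S`. -/
def Join (S A B : Set V) : Prop := ∃ u ∈ A, ∃ v ∈ B, Conn S u v

/-- `S` is connected (the empty set is connected). -/
def IsConn (S : Set V) : Prop := ∀ u ∈ S, ∀ v ∈ S, Conn S u v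

/-- The component of `u` in `S` (empty if `u` is not in `S`). -/
def comp (S : Set V) (u : V) : Set V := {v | Conn S u v}

/-- The set of all vertices which are joined to `A` inside `S`. -/
def clus (S A : Set V) : Set V := {v | ∃ u ∈ A, Conn S u v}

/-- The outer vertex boundary of `K`. -/
def bd (K : Set V) : Set V := {v | v ∉ K ∧ ∃ u ∈ K, Adj u v}

/-- Twice the real part. -/
def X (v : V) : ℤ := 2 * v.1 + v.2

/-- The graph distance from `0`; its balls are hexagons. -/
def nrm (v : V) : ℤ := max (max |v.1| |v.2|) |v.1 + v.2|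

/-- The hexagonal ball of radius `n` round `z`. -/
def Ball (z : V) (n : ℤ) : Set V := {v | nrm (v - z) ≤ n}

/-- The rectangle `l ≤ X ≤ r`, `b ≤ row ≤ t`. -/
def Rec (l r b t : ℤ) : Set V := {v | l ≤ X v ∧ X v ≤ r ∧ b ≤ v.2 ∧ v.2 ≤ t}

/-- The parallelogram `l ≤ v.1 ≤ r`, `b ≤ v.2 ≤ t`. -/
def Par (l r b t : ℤ) : Set V := {v | l ≤ v.1 ∧ v.1 ≤ r ∧ b ≤ v.2 ∧ v.2 ≤ t}

/-- Horizontal crossing of the rectangle `Rec l r b t` by a path in `S`.  The left side of the
rectangle is the zigzag column `X ≤ l + 1`, the right side is the zigzag column `r - 1 ≤ X`. -/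
def HC (S : Set V) (l r b t : ℤ) : Prop :=
  Join (S ∩ Rec l r b t) {v | X v ≤ l + 1} {v | r - 1 ≤ X v}

/-- Vertical crossing of the rectangle `Rec l r b t` by a path in `S`. -/
def VC (S : Set V) (l r b t : ℤ) : Prop :=
  Join (S ∩ Rec l r b t) {v | v.2 ≤ b} {v | t ≤ v.2}

/-- Crossing of the parallelogram `Par l r b t` from left to right by a path in `S`. -/
def PH (S : Set V) (l r b t : ℤ) : Prop :=
  Join (S ∩ Par l r b t) {v | v.1 ≤ l} {v | r ≤ v.1}

/-- Crossing of the parallelogram `Par l r b t` from bottom to top by a path in `S`. -/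
def PV (S : Set V) (l r b t : ℤ) : Prop :=
  Join (S ∩ Par l r b t) {v | v.2 ≤ b} {v | t ≤ v.2}

/-! ### Symmetries -/

/-- `g` is an automorphism of the lattice. -/
def IsAut (g : V ≃ V) : Prop := ∀ u v, Adj (g u) (g v) ↔ Adj u v

/-- Translation by `z`. -/
def tr (z : V) : V ≃ V := Equiv.addRight z

/-- Rotation by 60 degrees round `0`. -/
def rot : V ≃ V where
  toFun v := (-v.2, v.1 + v.2)
  invFun v := (v.1 + v.2, -v.1)
  left_inv v := by ext <;> simp
  right_inv v := by ext <;> simp

/-- The reflection which exchanges the two coordinates. -/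
def swp : V ≃ V := Equiv.prodComm ℤ ℤ

/-- The reflection in the vertical line `X = m`. -/
def vref (m : ℤ) : V ≃ V where
  toFun v := (m - v.1 - v.2, v.2)
  invFun v := (m - v.1 - v.2, v.2)
  left_inv v := by ext <;> simp <;> ring
  right_inv v := by ext <;> simp <;> ring

/-- The reflection in the horizontal line `row = k`: the row `b` goes to `2 k - b` and the real
part is preserved. -/
def href (k : ℤ) : V ≃ V where
  toFun v := (v.1 + v.2 - k, 2 * k - v.2)
  invFun v := (v.1 + v.2 - k, 2 * k - v.2)
  left_inv v := by ext <;> simp <;> ring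
  right_inv v := by ext <;> simp <;> ring

/-! ### Labels -/

/-- Configurations of labels. -/
abbrev Lab : Type := V → ℝ

/-- The `p`-open vertices. -/
def Op (p : ℝ) (w : Lab) : Set V := {v | w v ≤ p}

/-- The `p`-closed vertices. -/
def Cl (p : ℝ) (w : Lab) : Set V := {v | p < w v}

end Pool.Agent.TriPerc
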