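import Pool.Agent.TriPerc.Osss
import Pool.Agent.TriPerc.Pth

/-!
# Exploration of the open clusters which touch the boundary of `M`

`M` is the union of the pairwise disjoint blocks `B i`, `bdi M = {u | u has a neighbour outside M}`.
For a given set `o` of open vertices outside `M` the tree explores the open clusters of `M` which
touch the boundary of `M`, block by block, and then decides whether `A1` and `A2` are joined by
an open path in `Q`.

CONSTRUCTION.  For `R : Finset ι` (asked blocks) and `O : Set V` (known open vertices) let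
`nxt R O i` mean: `i ∉ R` and there are `x ∈ B i` and `y` with `Adj x y` and (`y ∉ M` or
`y ∈ clus O (bdi M)`).  `expl k R O` (`k : ℕ` is the fuel): if `k = k' + 1` and there is `i` with
`nxt R O i`, choose one and take `node i (fun t => expl k' (insert i R) (O ∪ t))`; otherwise
`leaf (decide (Join (o ∪ (O ∩ Q)) A1 A2))`.  The tree for `o` is `expl (Fintype.card ι) ∅ ∅`.

(1) `Fresh R (expl k R O)`: induction on `k`.
(2) Let `S ⊆ M` be the set of the open vertices of `M` (`S = Op p w ∩ M`) and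
`O R = S ∩ ⋃ i ∈ R, B i`.  If `Fintype.card ι ≤ k + R.card` then `val (expl k R (O R)) w = 1` iff
`Join (o ∪ (S ∩ Q)) A1 A2`.  Induction on `k`: at a node use `O (insert i R) = O R ∪ (S ∩ B i)`
(`Op p w ∩ B i = S ∩ B i`).  At a leaf: claim `clus S (bdi M) ⊆ O R`.  If `k = 0` then `R = univ` and
`O R = S`.  Otherwise no `i` satisfies `nxt R (O R) i`.  Let `x ∈ clus S (bdi M)`; by induction
along the path from the boundary all its vertices are in `clus (O R) (bdi M)`: the first vertex
`u ∈ S` has a neighbour outside `M`; `u` is in some block `B i`, and `i ∈ R` (otherwise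
`nxt R (O R) i`), so `u ∈ O R`; if `x ∈ clus (O R) (bdi M)` and `x' ∈ S`, `Adj x x'`, `x' ∈ B j`, then
`j ∈ R` (otherwise `nxt R (O R) j`), so `x' ∈ O R`, `clus_adj`.
Then `Join (o ∪ (O R ∩ Q)) A1 A2 ↔ Join (o ∪ (S ∩ Q)) A1 A2`: `→` by monotonicity.  `←`: let a path
in `o ∪ (S ∩ Q)` start in `A1`, hence outside `M` (`hA`).  All its vertices in `M` are in
`clus S (bdi M) ⊆ O R`: induction along the path; if the previous vertex is outside `M`, the
vertex is in `S ∩ bdi M`; if the previous vertex is in `M`, it is in `clus S (bdi M)` by induction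
and `clus_adj` applies.  (Vertices of `o` in this statement: `o ∩ M = ∅`, take `o` with
`o ⊆ Q \ M`; for other `o` the statement (2) is not needed.)
(3) If `i ∈ rv (expl k R (O R)) w`, then there are `x ∈ B i`, `y` with `Adj x y` and `y ∉ M` or
`y ∈ clus S (bdi M)`: induction on `k`; at the node for `i` itself use `O R ⊆ S` and `clus_mono`.
Finally `Op p (mix M w0 w) ∩ Q = o ∪ (S ∩ Q)` with `o = Op p w0 ∩ (Q \ M)`, `S = Op p w ∩ M`.
-/

namespace Pool.Agent.TriPerc

open MeasureTheory Set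

/-- The vertices which have a neighbour outside `M`. -/
def bdi (M : Set V) : Set V := {u | ∃ v, v ∉ M ∧ Adj u v}

section Aux

open Classical

variable {ι : Type} [Fintype ι]

private def nxt (B : ι → Set V) (M : Set V) (R : Finset ι) (O : Set V) (i : ι) : Prop :=
  i ∉ R ∧ ∃ x ∈ B i, ∃ y, Adj x y ∧ (y ∉ M ∨ y ∈ clus O (bdi M))

private noncomputable def ex (B : ι → Set V) (M Q A1 A2 : Set V) (o : Set V) :
    ℕ → Finset ι → Set V → Tr ι
  | 0, _, O => .leaf (decide (Join (o ∪ (O ∩ Q)) A1 A2))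
  | k + 1, R, O =>
    if h : ∃ i, nxt B M R O i then
      .node h.choose (fun t => ex B M Q A1 A2 o k (insert h.choose R) (O ∪ t))
    else .leaf (decide (Join (o ∪ (O ∩ Q)) A1 A2))

private def OR (B : ι → Set V) (S : Set V) (R : Finset ι) : Set V :=
  {v | v ∈ S ∧ ∃ i ∈ R, v ∈ B i}

private theorem fresh_ex (B : ι → Set V) (M Q A1 A2 o : Set V) (k : ℕ) :
    ∀ (R : Finset ι) (O : Set V), (ex B M Q A1 A2 o k R O).Fresh (R : Set ι) := by
  induction k with
  | zero => intro R O; exact trivial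
  | succ k ih =>
    intro R O
    unfold ex
    split_ifs with h
    · refine ⟨?_, fun t => ?_⟩
      · have := h.choose_spec.1
        simpa using this
      · have := ih (insert h.choose R) (O ∪ t)
        rwa [Finset.coe_insert] at this
    · exact trivial

private theorem OR_sub (B : ι → Set V) (S : Set V) (R : Finset ι) : OR B S R ⊆ S := fun _ h => h.1

private theorem OR_insert (B : ι → Set V) {M : Set V} (hM : M = ⋃ i, B i) (U : Set V)
    (R : Finset ι) (i : ι) :
    OR B (U ∩ M) R ∪ (U ∩ B i) = OR B (U ∩ M) (insert i R) := by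
  ext v
  constructor
  · rintro (⟨h1, j, hj, hv⟩ | ⟨h1, h2⟩)
    · exact ⟨h1, j, Finset.mem_insert_of_mem hj, hv⟩
    · refine ⟨⟨h1, ?_⟩, i, Finset.mem_insert_self _ _, h2⟩
      rw [hM]
      exact mem_iUnion.2 ⟨i, h2⟩
  · rintro ⟨h1, j, hj, hv⟩
    rcases Finset.mem_insert.1 hj with h | h
    · subst h
      exact Or.inr ⟨h1.1, hv⟩
    · exact Or.inl ⟨h1, j, h, hv⟩

private theorem clus_OR {B : ι → Set V} {M S : Set V} (hM : M = ⋃ i, B i) (hS : S ⊆ M)
    {R : Finset ι} (H : ∀ i, ¬ nxt B M R (OR B S R) i) :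
    clus S (bdi M) ⊆ clus (OR B S R) (bdi M) := by
  rintro x ⟨u, hu, huS, hux⟩
  induction hux with
  | refl =>
    obtain ⟨v, hv, huv⟩ := hu
    have h1 : u ∈ ⋃ i, B i := by
      rw [← hM]
      exact hS huS
    obtain ⟨i, hi⟩ := mem_iUnion.1 h1
    have hR : i ∈ R := by
      by_contra hR
      exact H i ⟨hR, u, hi, v, huv, Or.inl hv⟩
    exact subset_clus ⟨⟨v, hv, huv⟩, huS, i, hR, hi⟩
  | @tail y z _ hyz ih =>
    have h1 : z ∈ ⋃ i, B i := by
      rw [← hM]
      exact hS hyz.2
    obtain ⟨i, hi⟩ := mem_iUnion.1 h1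
    have hR : i ∈ R := by
      by_contra hR
      exact H i ⟨hR, z, hi, y, hyz.1.symm, Or.inr ih⟩
    exact clus_adj ih ⟨hyz.2, i, hR, hi⟩ hyz.1

private theorem leaf_eq {B : ι → Set V} {M S Q A1 A2 o : Set V} (hM : M = ⋃ i, B i) (hS : S ⊆ M)
    (hA : Disjoint A1 M) (ho : Disjoint o M)
    {R : Finset ι} (H : ∀ i, ¬ nxt B M R (OR B S R) i) :
    Join (o ∪ (OR B S R ∩ Q)) A1 A2 ↔ Join (o ∪ (S ∩ Q)) A1 A2 := by
  constructor
  · intro h
    exact h.mono (union_subset_union_right _ (inter_subset_inter_left _ (OR_sub B S R)))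
      subset_rfl subset_rfl
  · rintro ⟨u, hu, v, hv, huv⟩
    refine ⟨u, hu, v, hv, ?_⟩
    have huM : u ∉ M := fun h => Set.disjoint_left.1 hA hu h
    have huo : u ∈ o := by
      rcases huv.1 with h | h
      · exact h
      · exact absurd (hS h.1) huM
    have key : ∀ z, Relation.ReflTransGen (fun x y => Adj x y ∧ y ∈ o ∪ (S ∩ Q)) u z →
        Conn (o ∪ (OR B S R ∩ Q)) u z ∧ (z ∈ M → z ∈ clus S (bdi M)) := by
      intro z hz
      induction hz with
      | refl => exact ⟨Conn.refl (Or.inl huo), fun h => absurd h huM⟩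
      | @tail y z _ hyz ih =>
        rcases hyz.2 with h | h
        · refine ⟨ih.1.trans (Conn.of_adj ih.1.right (Or.inl h) hyz.1), fun hz => ?_⟩
          exact absurd hz (Set.disjoint_left.1 ho h)
        · have hc : z ∈ clus S (bdi M) := by
            by_cases hy : y ∈ M
            · exact clus_adj (ih.2 hy) h.1 hyz.1
            · exact subset_clus ⟨⟨y, hy, hyz.1.symm⟩, h.1⟩
          have hO : z ∈ OR B S R := clus_subset (clus_OR hM hS H hc)
          exact ⟨ih.1.trans (Conn.of_adj ih.1.right (Or.inr ⟨hO, h.2⟩) hyz.1), fun _ => hc⟩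
    exact (key v huv.2).1

private theorem val_leaf (B : ι → Set V) (p : ℝ) (w : Lab) (c : Prop) :
    (Tr.leaf (decide c) : Tr ι).val B p w = 1 ↔ c := by
  by_cases h : c <;> simp [Tr.val, h]

private theorem val_ex {B : ι → Set V} {M Q A1 A2 o : Set V} {p : ℝ} (hM : M = ⋃ i, B i)
    (hA : Disjoint A1 M) (ho : Disjoint o M) (w : Lab) (k : ℕ) :
    ∀ R : Finset ι, Fintype.card ι ≤ k + R.card →
      ((ex B M Q A1 A2 o k R (OR B (Op p w ∩ M) R)).val B p w = 1 ↔
        Join (o ∪ ((Op p w ∩ M) ∩ Q)) A1 A2) := by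
  induction k with
  | zero =>
    intro R hR
    have hU : R = Finset.univ := by
      apply (Finset.card_eq_iff_eq_univ R).1
      apply le_antisymm (Finset.card_le_univ R)
      simpa using hR
    unfold ex
    rw [val_leaf]
    refine leaf_eq hM inter_subset_right hA ho fun i hi => ?_
    exact hi.1 (by rw [hU]; exact Finset.mem_univ i)
  | succ k ih =>
    intro R hR
    unfold ex
    split_ifs with h
    · have h1 := h.choose_spec.1
      change (ex B M Q A1 A2 o k (insert h.choose R)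
        (OR B (Op p w ∩ M) R ∪ (Op p w ∩ B h.choose))).val B p w = 1 ↔ _
      rw [OR_insert B hM]
      apply ih
      rw [Finset.card_insert_of_notMem h1]
      omega
    · rw [val_leaf]
      refine leaf_eq hM inter_subset_right hA ho fun i hi => h ⟨i, hi⟩

private theorem rv_ex {B : ι → Set V} {M Q A1 A2 o : Set V} {p : ℝ} (hM : M = ⋃ i, B i)
    (w : Lab) (k : ℕ) (i : ι) :
    ∀ R : Finset ι, i ∈ (ex B M Q A1 A2 o k R (OR B (Op p w ∩ M) R)).rv B p w →
      ∃ x ∈ B i, ∃ y, Adj x y ∧ (y ∉ M ∨ y ∈ clus (Op p w ∩ M) (bdi M)) := by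
  induction k with
  | zero =>
    intro R hR
    exact absurd hR (Set.notMem_empty i)
  | succ k ih =>
    intro R hR
    unfold ex at hR
    split_ifs at hR with h
    · change i ∈ insert h.choose ((ex B M Q A1 A2 o k (insert h.choose R)
        (OR B (Op p w ∩ M) R ∪ (Op p w ∩ B h.choose))).rv B p w) at hR
      rw [OR_insert B hM] at hR
      rcases hR with hR | hR
      · obtain ⟨x, hx, y, hxy, hy⟩ := h.choose_spec.2
        rw [hR]
        refine ⟨x, hx, y, hxy, hy.imp id fun hy' => ?_⟩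
        exact clus_mono (OR_sub B _ R) subset_rfl hy'
      · exact ih _ hR
    · exact absurd hR (Set.notMem_empty i)

end Aux

theorem expl {ι : Type} [Fintype ι] {B : ι → Set V} {M Q A1 A2 : Set V} {p : ℝ}
    (hd : ∀ i j, i ≠ j → Disjoint (B i) (B j)) (hM : M = ⋃ i, B i) (hA : Disjoint A1 M) :
    ∃ T : Set V → Tr ι, (∀ o, (T o).Fresh ∅) ∧
      (∀ w0 w : Lab, ((T (Op p w0 ∩ (Q \ M))).val B p w = 1 ↔
        Join (Op p (mix M w0 w) ∩ Q) A1 A2)) ∧
      ∀ (o : Set V) (w : Lab) (i : ι), i ∈ (T o).rv B p w →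
        ∃ x ∈ B i, ∃ y, Adj x y ∧ (y ∉ M ∨ y ∈ clus (Op p w ∩ M) (bdi M)) := by
  have hO0 : ∀ w : Lab, OR B (Op p w ∩ M) (∅ : Finset ι) = ∅ := by
    intro w
    ext v
    constructor
    · rintro ⟨_, i, hi, _⟩
      exact absurd hi (Finset.notMem_empty i)
    · intro h
      exact absurd h (Set.notMem_empty v)
  refine ⟨fun o => ex B M Q A1 A2 o (Fintype.card ι) ∅ ∅, fun o => ?_, fun w0 w => ?_,
    fun o w i hi => ?_⟩
  · have := fresh_ex B M Q A1 A2 o (Fintype.card ι) ∅ ∅
    rwa [Finset.coe_empty] at this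
  · have ho : Disjoint (Op p w0 ∩ (Q \ M)) M :=
      Set.disjoint_left.2 fun v hv hM' => hv.2.2 hM'
    have h1 := val_ex (Q := Q) (A2 := A2) (p := p) hM hA ho w (Fintype.card ι) ∅ (by simp)
    rw [hO0 w] at h1
    rw [h1]
    have h2 : Op p w0 ∩ (Q \ M) ∪ ((Op p w ∩ M) ∩ Q) = Op p (mix M w0 w) ∩ Q := by
      ext v
      by_cases hv : v ∈ M
      · simp [Op, mix, hv]
      · simp [Op, mix, hv]
    rw [h2]
  · refine rv_ex (Q := Q) (A1 := A1) (A2 := A2) (o := o) (p := p) hM w (Fintype.card ι) i ∅ ?_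
    rw [hO0 w]
    exact hi

end Pool.Agent.TriPerc
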