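import Pool.Agent.TriPerc.Route
import Pool.Agent.TriPerc.Std

/-!
# From coarse positions to standard positions

The fences at the sources are joined by tubes (`Tub`, coarse unit `2 u`) to the boxes `BE` on the
axes of
the four sides.

Two cases: outer (`ε = 1`): `m = 2 M u`, `2 n ≤ m`; the new parameters are `n' = n`, `m' = q' = 4
m`, the
tubes end at the coarse point `pt i 0 E` with `E = 8 M` (row `-2 q' = -16 M u` in the frame).  Inner
(`ε = -1`): `n = 2 M u`, `2 n ≤ m`, `m' = m`, `n' = q' = n / 4 = M u / 2`, `E = M / 8` (row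
`-(q' / 2) = -M u / 4`).  `M` is a power of two, `M ≥ 6400`.

Note `Xs ε u M k j a = cz 0 u (x0.1) (x0.2)` with the coarse point `x0 = pt k j (M + 6 ε 4 ^ a)`.

* `glue_tube` (one arm, deterministic).  PROOF.  `circ_set` gives a connected separating set
  `C ⊆ S ∩ Ann X (5κ) (10κ)`, `tube` a connected `T ⊆ S` in the union of the annuli of radii `u,
  2u` round the
  points of `Z`, which contains separating sets for all `e ∈ Z`.  The path from `f` to `y` meets `C`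
  (`circ_hit`: `nrm (f - X) ≤ 5 κ`, `nrm (y - X) ≥ 10 κ`).  `T` contains a vertex at distance `≤ 2
  u ≤ 5 κ`
  from `X` and the vertex `v1` found below, at distance `≥ 10 κ`, so `T` meets `C`.  Let `v1 ∈ T`
  be the
  vertex of the separating set round `pt i 0 E` on the vertical (in the frame `gf i`) half line
  which
  starts at the centre and goes away from the ring: in the frame
  `v1 = (0, -2 u E - t)` for `ε = 1`, `(0, -2 u E + t)` for `ε = -1`, `u ≤ t ≤ 2 u`.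
  So `y` and `v1` are joined in `K = (path) ∪ C ∪ T`.  Let `W = SA 0 n' m' ∪ BE ε q' i`; it
  contains the
  region `RF` of the path and `C` (`Sq X (30 κ)` has `|sn - q| ≤ 42 κ`).  For `v ∈ T`: if `v` is
  near `e ∈ Z` with
  `ε (sn e - M) ≤ B + 40` then `v ∈ SA 0 n' m'`; otherwise `e = pt i 0 r` and in the frame `|v.1|
  ≤ 2 u`,
  `|v.2 + 2 u r| ≤ 2 u`; if `sn v` is not in `[n', m']` then `v ∈ BE ε q' i` unless `v` is beyond
  the row
  `en ε q'`.  Let `A` be the set of the vertices of `SA 0 n' m'` and of the vertices with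
  `|v.1| ≤ 2 u` and `ε v.2 ≥ ε en` in the frame; the path from `y` to `v1` leaves `A`; at its first
  exit `x ∈ A`, `x' ∉ A` one has `x' ∈ T` near some `pt i 0 r`, beyond the row `en`, and `x` is in
  the row
  `en`, `|x.1| ≤ 2 u + 1 ≤ q' / 8` (it cannot be in `SA`: there `sn x` would be `n'` or `m'`, and
  `x'` is beyond
  the row `en`).  This `x` is the end `z`.
* `ext`: `route` with `Δ = DD κ`, `B = 32 * 4 ^ κ`, `L = 15 * 4 ^ κ + 3`, `τ = j`, `ρ i = 6 * 4 ^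
  (a i)`, the
  coarse radius `M`; this gives `Z i`.  `D i = Ann (Xs i) (5 κ i) (10 κ i) ∪ ⋃ e ∈ Z i, Ann (cz 0
  u e) u (2 u)`,
  `κ i = 4 ^ (a i) u`.  Check the hypotheses of `arms_harris1` for `R = RF`:
  `D i` and `D j` disjoint: two tubes: the centres have `sn`-distance `≥ 6 u > 4 u`; tube `i` and
  `Sq (Xs j) (30 κ j)`: the distance of the centres is `≥ 2 u L = 30 * 4 ^ κ u + 6 u > 30 κ j + 2
  u`;
  `Sq (Xs i) (10 κ i)` and `Sq (Xs j) (30 κ j)`: the distance of the centres is `≥ 2 u (DD κ - 6 *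
  4 ^ κ) >
  40 * 4 ^ κ u` (same side: `2 u DD κ`; different sides: `pt_far`).  `D i` is disjoint from `SA 0
  n m`: its
  vertices have `ε (sn v - q) > 0` (`12 κ > 10 κ`, `12 κ > 2 u`).
  `B i = {w | ¬ Arm (Co (!(alt σ i)) p w) (Xs i) (5 κ i) (10 κ i)} ∩ Tub (alt σ i) p 0 u (Z i)`,
  increasing in `alt σ i`; `P (B i) ≥ c ^ 6 (c ^ 6) ^ card (Z i)` (`circ_open`, `circ_closed`,
  `tub_prob`,
  `inc_harris2`), and `card (Z i) ≤ (2 * 9 M + 1) ^ 2` because `Z i ⊆ Sq 0 (9 M)`.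
  `glue_tube` shows that `FA ∩ ⋂ B i ⊆ ST` (same base vertices; `hB` gives `nrm (y - X) ≥ M u - 12
  κ ≥ 10 κ`).
-/

namespace Pool.Agent.TriPerc

open MeasureTheory

/-- The two cases: outer and inner. -/
def Cas (ε n m u M n' m' q' : ℤ) : Prop :=
  (ε = 1 ∧ m = 2 * M * u ∧ 1 ≤ n ∧ 2 * n ≤ m ∧ n' = n ∧ m' = 4 * m ∧ q' = 4 * m) ∨
  (ε = -1 ∧ n = 2 * M * u ∧ 2 * n ≤ m ∧ n' = n / 4 ∧ m' = m ∧ q' = n / 4)

/-- The end of the tubes in coarse coordinates. -/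
def EE (ε M : ℤ) : ℤ := if ε = 1 then 8 * M else M / 8

variable {ε n m u G D M n' m' q' j : ℤ} {κ a k : ℕ} {S : Set V} {f y : V}

private theorem ex_sn_cz (hu : 0 ≤ u) (e f : V) :
    sn (cz 0 u e.1 e.2 - cz 0 u f.1 f.2) = 2 * u * sn (e - f) := by
  have e1 : (cz 0 u e.1 e.2 - cz 0 u f.1 f.2).1 = 2 * u * (e - f).1 := by
    simp only [cz, zero_add, Prod.fst_sub]
    ring
  have e2 : (cz 0 u e.1 e.2 - cz 0 u f.1 f.2).2 = 2 * u * (e - f).2 := by
    simp only [cz, zero_add, Prod.snd_sub]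
    ring
  have h2u : |2 * u| = 2 * u := abs_of_nonneg (by omega)
  unfold sn
  rw [e1, e2, abs_mul (2 * u), abs_mul (2 * u), h2u,
    mul_max_of_nonneg _ _ (by omega : 0 ≤ 2 * u)]

private theorem ex_sn_cz0 (hu : 0 ≤ u) (e : V) : sn (cz 0 u e.1 e.2) = 2 * u * sn e := by
  have h := ex_sn_cz hu e 0
  have h1 : cz 0 u (0 : V).1 (0 : V).2 = 0 := by
    simp [cz]
  rw [h1, sub_zero, sub_zero] at h
  exact h

private theorem ex_near {v c : V} {r : ℤ} (h : sn (v - c) ≤ r) : |sn v - sn c| ≤ r :=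
  (sn_sub_ge v c).trans h

private theorem ex_pow (ha : a < κ) : (1 : ℤ) ≤ 4 ^ a ∧ (4 : ℤ) * 4 ^ a ≤ 4 ^ κ := by
  refine ⟨one_le_pow₀ (by norm_num), ?_⟩
  have h : (4 : ℤ) ^ (a + 1) ≤ 4 ^ κ := pow_le_pow_right₀ (by norm_num) ha
  rw [pow_succ] at h
  omega

private theorem ex_prm (hP : Prm κ G D M) : 6400 * 4 ^ κ + 6400 ≤ M ∧ ∃ M', M = 64 * M' := by
  obtain ⟨h1, h2, h3, e, he⟩ := hP
  refine ⟨by omega, ?_⟩
  have h4 : (1 : ℤ) ≤ 4 ^ κ := one_le_pow₀ (by norm_num)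
  have h6 : 6 ≤ e := by
    by_contra hcon
    have h7 : (2 : ℤ) ^ e ≤ 2 ^ 6 := pow_le_pow_right₀ (by norm_num) (by omega)
    norm_num at h7
    omega
  obtain ⟨d, rfl⟩ := Nat.exists_eq_add_of_le h6
  refine ⟨2 ^ d, ?_⟩
  rw [he, pow_add]
  norm_num

theorem xs_cz (ε u M : ℤ) (k : ℕ) (j : ℤ) (a : ℕ) :
    Xs ε u M k j a = cz 0 u (pt k j (M + ε * (6 * 4 ^ a))).1 (pt k j (M + ε * (6 * 4 ^ a))).2 := by
  unfold Xs cz pt
  rw [zero_add]
  split_ifs
  · ext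
    · rfl
    · change -(2 * u * M + 12 * ε * (4 ^ a * u)) = 2 * u * -(M + ε * (6 * 4 ^ a))
      ring
  · ext
    · change 2 * u * M + 12 * ε * (4 ^ a * u) = 2 * u * (M + ε * (6 * 4 ^ a))
      ring
    · rfl
  · ext
    · change -(2 * u * j) = 2 * u * -j
      ring
    · change 2 * u * M + 12 * ε * (4 ^ a * u) = 2 * u * (M + ε * (6 * 4 ^ a))
      ring
  · ext
    · change -(2 * u * M + 12 * ε * (4 ^ a * u)) = 2 * u * -(M + ε * (6 * 4 ^ a))
      ring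
    · change -(2 * u * j) = 2 * u * -j
      ring

private theorem ex_cas (hP : Prm κ G D M) (hu : 1 ≤ u) (hC : Cas ε n m u M n' m' q') :
    ∃ W : ℤ, M * u = 64 * W ∧ 100 * (4 ^ κ * u) + 100 * u ≤ W ∧
      ((ε = 1 ∧ m = 128 * W ∧ 1 ≤ n ∧ n ≤ 64 * W ∧ n' = n ∧ m' = 512 * W ∧ q' = 512 * W ∧
        2 * u * EE ε M = 1024 * W) ∨
      (ε = -1 ∧ n = 128 * W ∧ 256 * W ≤ m ∧ n' = 32 * W ∧ m' = m ∧ q' = 32 * W ∧
        2 * u * EE ε M = 16 * W)) := by
  obtain ⟨h1, M', hM'⟩ := ex_prm hP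
  refine ⟨M' * u, by rw [hM']; ring, ?_, ?_⟩
  · have h2 : 100 * 4 ^ κ + 100 ≤ M' := by omega
    have h3 := mul_le_mul_of_nonneg_right h2 (by omega : 0 ≤ u)
    linarith
  · have hq : 2 * M * u = 128 * (M' * u) := by
      rw [hM']
      ring
    rcases hC with ⟨e1, e2, e3, e4, e5, e6, e7⟩ | ⟨e1, e2, e4, e5, e6, e7⟩
    · left
      rw [hq] at e2
      refine ⟨e1, e2, e3, by omega, e5, by omega, by omega, ?_⟩
      unfold EE
      rw [if_pos e1, hM']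
      ring
    · right
      rw [hq] at e2
      refine ⟨e1, e2, by omega, by omega, e6, by omega, ?_⟩
      unfold EE
      rw [if_neg (by omega), show M / 8 = 8 * M' by omega]
      ring

private theorem ex_gf_pt {k : ℕ} (hk : k < 4) (R : ℤ) : gf k (pt k 0 R) = (0, -R) := by
  rw [pt_gf hk, gf_invol hk, mul_zero]

private theorem ex_cz_pt (k : ℕ) (r : ℤ) :
    cz 0 u (pt k 0 r).1 (pt k 0 r).2 = pt k 0 (2 * u * r) := by
  unfold cz pt
  rw [zero_add]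
  split_ifs
  · ext
    · change 2 * u * 0 = 0
      ring
    · change 2 * u * -r = -(2 * u * r)
      ring
  · ext
    · rfl
    · change 2 * u * 0 = 0
      ring
  · ext
    · change 2 * u * -0 = -0
      ring
    · rfl
  · ext
    · change 2 * u * -r = -(2 * u * r)
      ring
    · change 2 * u * -0 = -0
      ring

private theorem ex_sn0 {k : ℕ} (hk : k < 4) (v : V) : sn (gf k v) = sn v := by
  have h := gf_sn hk v 0
  rwa [gf_zero hk, sub_zero, sub_zero] at h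

private theorem ex_fr {k : ℕ} (hk : k < 4) {v : V} {R r : ℤ} (h : sn (v - pt k 0 R) ≤ r) :
    -r ≤ (gf k v).1 ∧ (gf k v).1 ≤ r ∧ -r ≤ (gf k v).2 + R ∧ (gf k v).2 + R ≤ r := by
  rw [← gf_sn hk, ex_gf_pt hk] at h
  unfold sn at h
  rw [max_le_iff, abs_le, abs_le] at h
  obtain ⟨⟨h1, h2⟩, h3, h4⟩ := h
  change -r ≤ (gf k v).1 - 0 at h1
  change (gf k v).1 - 0 ≤ r at h2
  change -r ≤ (gf k v).2 - -R at h3
  change (gf k v).2 - -R ≤ r at h4
  omega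

/-- The vertex of a separating set on a half line. -/
private theorem ex_half {k : ℕ} (hk : k < 4) {C : Set V} {R : ℤ} (hε : ε = 1 ∨ ε = -1)
    (hu : 1 ≤ u) (hC : C ⊆ Ann (pt k 0 R) u (2 * u))
    (hs : ∀ a b, nrm (a - pt k 0 R) ≤ u → 2 * u ≤ nrm (b - pt k 0 R) → ¬ Conn Cᶜ a b) :
    ∃ v ∈ C, ∃ t, u ≤ t ∧ t ≤ 2 * u ∧ gf k v = (0, -R - ε * t) := by
  have hn : ∀ t : ℤ, 0 ≤ t → nrm (gf k (0, -R - ε * t) - pt k 0 R) = t := by
    intro t ht
    have e1 : gf k (0, -R - ε * t) - pt k 0 R = gf k (0, -(ε * t)) := by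
      rw [pt_gf hk, mul_zero, sub_eq_add_neg, ← gf_neg hk, ← gf_add hk]
      congr 1
      ext
      · simp
      · simp only [Prod.snd_add, Prod.snd_neg]
        ring
    rw [e1, gf_nrm hk]
    unfold nrm
    rcases hε with rfl | rfl
    · simp [abs_of_nonneg ht, ht]
    · simp [abs_of_nonneg ht, ht]
  have h1 : Conn (gf k ⁻¹' {v | ∃ t, 0 ≤ t ∧ t ≤ 2 * u ∧ v = gf k (0, -R - ε * t)})
      (0, -R - ε * 0) (0, -R - ε * (2 * u)) := by
    refine conn_col fun c h1 h2 => ?_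
    have h3 : 0 ≤ ε * (-R - c) ∧ ε * (-R - c) ≤ 2 * u := by
      rcases hε with rfl | rfl
      · rw [min_eq_right (by omega)] at h1
        rw [max_eq_left (by omega)] at h2
        omega
      · rw [min_eq_left (by omega)] at h1
        rw [max_eq_right (by omega)] at h2
        omega
    refine ⟨ε * (-R - c), h3.1, h3.2, ?_⟩
    congr 1
    ext
    · rfl
    · change c = -R - ε * (ε * (-R - c))
      rcases hε with rfl | rfl <;> ring
  rw [conn_preimage (gf_aut hk)] at h1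
  obtain ⟨x, hxC, ⟨t, ht1, ht2, rfl⟩, -⟩ := circ_hit hs h1 (by rw [hn 0 le_rfl]; omega)
    (by rw [hn _ (by omega)])
  refine ⟨_, hxC, t, ?_, ht2, gf_invol hk _⟩
  have h2 := (hC hxC).1
  rwa [hn t ht1] at h2

/-- A separating set is not empty. -/
private theorem ex_ne {C : Set V} {c : V} (hu : 1 ≤ u)
    (hs : ∀ a b, nrm (a - c) ≤ u → 2 * u ≤ nrm (b - c) → ¬ Conn Cᶜ a b) : ∃ v, v ∈ C := by
  obtain ⟨x, hx, -⟩ := circ_hit hs (isConn_univ c trivial (c + (2 * u, 0)) trivial)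
    (by rw [sub_self, nrm_zero_iff.2 rfl]; omega)
    (by
      rw [add_sub_cancel_left]
      unfold nrm
      rw [add_zero]
      exact (le_abs_self _).trans (le_max_right _ _))
  exact ⟨x, hx⟩

/-- The vertices near the ring are in the region. -/
private theorem ex_reg {W : ℤ} {v : V} (_ : 1 ≤ W)
    (hcas : (ε = 1 ∧ m = 128 * W ∧ 1 ≤ n ∧ n ≤ 64 * W ∧ n' = n ∧ m' = 512 * W ∧
      q' = 512 * W ∧ 2 * u * EE ε M = 1024 * W) ∨
      (ε = -1 ∧ n = 128 * W ∧ 256 * W ≤ m ∧ n' = 32 * W ∧ m' = m ∧ q' = 32 * W ∧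
        2 * u * EE ε M = 16 * W)) (h : |sn v - 128 * W| ≤ W) : v ∈ SA 0 n' m' := by
  change n' ≤ sn (v - 0) ∧ sn (v - 0) ≤ m'
  rw [sub_zero]
  rw [abs_le] at h
  omega

private theorem ex_box {W : ℤ} {k : ℕ} {v : V} (_ : 1 ≤ W)
    (hcas : (ε = 1 ∧ m = 128 * W ∧ 1 ≤ n ∧ n ≤ 64 * W ∧ n' = n ∧ m' = 512 * W ∧
      q' = 512 * W ∧ 2 * u * EE ε M = 1024 * W) ∨
      (ε = -1 ∧ n = 128 * W ∧ 256 * W ≤ m ∧ n' = 32 * W ∧ m' = m ∧ q' = 32 * W ∧
        2 * u * EE ε M = 16 * W))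
    (h1 : -W ≤ (gf k v).1) (h2 : (gf k v).1 ≤ W)
    (h3 : ε * en ε q' ≤ ε * (gf k v).2) (h4 : ε * (gf k v).2 ≤ ε * (-q' - ε)) :
    v ∈ BE ε q' k := by
  unfold BE
  change gf k v ∈ if ε = 1 then Par (-(q' / 4)) (q' / 4) (-(2 * q')) (-q' - 1)
    else Par (-(q' / 8)) (q' / 8) (-q' + 1) (-(q' / 2))
  unfold en at h3
  rcases hcas with ⟨rfl, -, -, -, -, -, rfl, -⟩ | ⟨rfl, -, -, -, -, rfl, -⟩
  · rw [if_pos rfl] at h3 ⊢
    refine ⟨?_, ?_, ?_, ?_⟩ <;> omega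
  · rw [if_neg (by norm_num)] at h3 ⊢
    refine ⟨?_, ?_, ?_, ?_⟩ <;> omega

theorem glue_tube (hP : Prm κ G D M) (hu : 1 ≤ u) (hC : Cas ε n m u M n' m' q') (hk : k < 4)
    (hj : |j| + DD κ ≤ M) (ha : a < κ) (i : Fin 4) (Z : Finset V) (hZ : NbConn (Z : Set V))
    (h0 : pt k j (M + ε * (6 * 4 ^ a)) ∈ Z) (h1 : pt (i : ℕ) 0 (EE ε M) ∈ Z)
    (h2 : ∀ e ∈ Z, 6 * 4 ^ a ≤ ε * (sn e - M) ∧ ε * (sn e - M) ≤ ε * (EE ε M - M) ∧
      (ε * (sn e - M) ≤ 32 * 4 ^ κ + 40 ∨ ∃ r, 0 ≤ r ∧ e = pt (i : ℕ) 0 r))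
    (hf : nrm (f - Xs ε u M k j a) ≤ 5 * 4 ^ a * u)
    (hfy : Conn (S ∩ (SA 0 n m ∪ Sq (Xs ε u M k j a) (30 * 4 ^ a * u))) f y)
    (hy : M * u ≤ |sn y - 2 * M * u|)
    (hc : ¬ Arm Sᶜ (Xs ε u M k j a) (5 * 4 ^ a * u) (10 * 4 ^ a * u))
    (ht : ∀ e ∈ Z, ¬ Arm Sᶜ (cz 0 u e.1 e.2) u (2 * u)) :
    ∃ z, z ∈ BE ε q' (i : ℕ) ∧ (gf (i : ℕ) z).2 = en ε q' ∧
      Conn (S ∩ (SA 0 n' m' ∪ BE ε q' (i : ℕ))) z y := by
  obtain ⟨W, hW1, hW2, hcas⟩ := ex_cas hP hu hC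
  have hi := i.2
  obtain ⟨p1, p2⟩ := ex_pow ha
  obtain ⟨Q, hQ⟩ : ∃ x : ℤ, x = 4 ^ κ * u := ⟨_, rfl⟩
  obtain ⟨s, hs⟩ : ∃ x : ℤ, x = 4 ^ a * u := ⟨_, rfl⟩
  rw [← hQ] at hW2
  have hsu : u ≤ s := by
    rw [hs]
    exact le_mul_of_one_le_left (by omega) p1
  have hsQ : 4 * s ≤ Q := by
    rw [hs, hQ]
    have := mul_le_mul_of_nonneg_right p2 (by omega : 0 ≤ u)
    linarith
  have hWp : 1 ≤ W := by omega
  have hε : ε = 1 ∨ ε = -1 := by
    rcases hcas with h | h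
    · exact Or.inl h.1
    · exact Or.inr h.1
  have e5 : 5 * 4 ^ a * u = 5 * s := by
    rw [hs]
    ring
  have e10 : 10 * 4 ^ a * u = 10 * s := by
    rw [hs]
    ring
  have e30 : 30 * 4 ^ a * u = 30 * s := by
    rw [hs]
    ring
  have e2M : 2 * M * u = 128 * W := by linarith
  have hXc := xs_cz ε u M k j a
  obtain ⟨x, hx⟩ : ∃ x, x = Xs ε u M k j a := ⟨_, rfl⟩
  have hMb := (ex_prm hP).1
  have hsrc : sn (pt k j (M + ε * (6 * 4 ^ a))) = M + ε * (6 * 4 ^ a) := by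
    apply sn_pt hk
    unfold DD at hj
    rcases hε with rfl | rfl <;> omega
  have hsnx : sn x = 128 * W + 12 * (ε * s) := by
    rw [hx, hXc, ex_sn_cz0 (by omega), hsrc, hs]
    linear_combination e2M
  rw [← hx, e30] at hfy
  rw [← hx, e5] at hf
  rw [← hx, e5, e10] at hc
  rw [← hx] at hXc
  rw [hW1, e2M] at hy
  obtain ⟨C, hC1, -, hC2, hC3⟩ := circ_set (O := S) (by omega) (by omega) hc
  obtain ⟨T, hT1, hT2, hT3, hT4⟩ := tube Z hZ hu ht
  -- the path meets `C`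
  have hyx : 10 * s ≤ nrm (y - x) := by
    have h3 := sn_le_nrm (y - x)
    have h4 := sn_sub_ge y x
    rw [hsnx] at h4
    rw [abs_le] at h4
    rw [le_abs] at hy
    rcases hε with rfl | rfl <;> omega
  obtain ⟨x0, hx0C, hx0S, hx0⟩ := circ_hit hC3 hfy hf hyx
  -- `T` meets `C`
  obtain ⟨C0, hC0T, hC0A, -, hC0s⟩ := hT4 _ h0
  rw [← hXc] at hC0A hC0s
  obtain ⟨t0, ht0⟩ := ex_ne hu hC0s
  obtain ⟨C1, hC1T, hC1A, -, hC1s⟩ := hT4 _ h1
  rw [ex_cz_pt] at hC1A hC1s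
  obtain ⟨v1, hv1, t, ht1, ht2, hgv⟩ := ex_half hi hε hu hC1A hC1s
  have hsv : sn v1 = 2 * u * EE ε M + ε * t := by
    rw [← ex_sn0 hi, hgv]
    unfold sn
    change max |(0 : ℤ)| |-(2 * u * EE ε M) - ε * t| = _
    have h3 : -(2 * u * EE ε M) - ε * t = -(2 * u * EE ε M + ε * t) := by ring
    have h4 : 0 ≤ 2 * u * EE ε M + ε * t := by
      rcases hcas with ⟨rfl, hh⟩ | ⟨rfl, hh⟩ <;> omega
    rw [h3, abs_neg, abs_of_nonneg h4, abs_zero, max_eq_right h4]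
  have hv1x : 10 * s ≤ nrm (v1 - x) := by
    have h3 := sn_le_nrm (v1 - x)
    have h4 := sn_sub_ge v1 x
    rw [hsnx, hsv, abs_le] at h4
    rcases hcas with ⟨rfl, hh⟩ | ⟨rfl, hh⟩ <;> omega
  have ht0x : nrm (t0 - x) ≤ 5 * s := by
    have h3 := (hC0A ht0).2
    omega
  obtain ⟨x1, hx1C, hx1T, -⟩ := circ_hit hC3 (hT3 t0 (hC0T ht0) v1 (hC1T hv1)) ht0x hv1x
  -- the path from `y` to `v1`
  have hconn : Conn ((S ∩ (SA 0 n m ∪ Sq x (30 * s))) ∪ C ∪ T) y v1 :=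
    ((hfy.symm.trans hx0).mono fun v hv => Or.inl (Or.inl hv)).trans
      (((hC2 x0 hx0C x1 hx1C).mono fun v hv => Or.inl (Or.inr hv)).trans
        ((hT3 x1 hx1T v1 (hC1T hv1)).mono fun v hv => Or.inr hv))
  have hKS : ∀ v ∈ (S ∩ (SA 0 n m ∪ Sq x (30 * s))) ∪ C ∪ T, v ∈ S := by
    rintro v ((hv | hv) | hv)
    · exact hv.1
    · exact (hC1 hv).1
    · exact hT1 hv
  have hKR : ∀ v ∈ (S ∩ (SA 0 n m ∪ Sq x (30 * s))) ∪ C ∪ T, v ∈ SA 0 n' m' ∨
      ∃ R, 0 ≤ ε * (R - 128 * W) ∧ ε * (R - 128 * W) ≤ ε * (2 * u * EE ε M - 128 * W) ∧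
        -(2 * u) ≤ (gf (i : ℕ) v).1 ∧ (gf (i : ℕ) v).1 ≤ 2 * u ∧
        -(2 * u) ≤ (gf (i : ℕ) v).2 + R ∧ (gf (i : ℕ) v).2 + R ≤ 2 * u ∧
        12 * s ≤ ε * (R - 128 * W) := by
    rintro v ((⟨-, hv | hv⟩ | hv) | hv)
    · left
      have hv' : n ≤ sn (v - 0) ∧ sn (v - 0) ≤ m := hv
      change n' ≤ sn (v - 0) ∧ sn (v - 0) ≤ m'
      omega
    · left
      apply ex_reg hWp hcas
      have h3 := ex_near (show sn (v - x) ≤ 30 * s from hv)
      rw [hsnx, abs_le] at h3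
      rw [abs_le]
      rcases hε with rfl | rfl <;> omega
    · left
      apply ex_reg hWp hcas
      have h3 := ex_near ((sn_le_nrm (v - x)).trans (hC1 hv).2.2)
      rw [hsnx, abs_le] at h3
      rw [abs_le]
      rcases hε with rfl | rfl <;> omega
    · obtain ⟨e, he, hve⟩ := Set.mem_iUnion₂.1 (hT2 hv)
      obtain ⟨g1, g2, g3⟩ := h2 e he
      have h3 := (sn_le_nrm (v - cz 0 u e.1 e.2)).trans hve.2
      have k1 : 12 * s ≤ ε * (2 * u * sn e - 128 * W) := by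
        have := mul_le_mul_of_nonneg_right g1 (by omega : 0 ≤ 2 * u)
        rw [hs, ← e2M]
        linarith
      have k2 : ε * (2 * u * sn e - 128 * W) ≤ ε * (2 * u * EE ε M - 128 * W) := by
        have := mul_le_mul_of_nonneg_right g2 (by omega : 0 ≤ 2 * u)
        rw [← e2M]
        linarith
      rcases g3 with g3 | ⟨r, hr, rfl⟩
      · left
        apply ex_reg hWp hcas
        have k3 : ε * (2 * u * sn e - 128 * W) ≤ 64 * Q + 80 * u := by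
          have := mul_le_mul_of_nonneg_right g3 (by omega : 0 ≤ 2 * u)
          rw [hQ, ← e2M]
          linarith
        have h4 := ex_near h3
        rw [ex_sn_cz0 (by omega), abs_le] at h4
        rw [abs_le]
        rcases hε with rfl | rfl <;> omega
      · right
        rw [sn_pt hi (by rw [abs_zero]; exact hr)] at k1 k2
        rw [ex_cz_pt] at h3
        obtain ⟨f1, f2, f3, f4⟩ := ex_fr hi h3
        exact ⟨2 * u * r, by omega, k2, f1, f2, f3, f4, k1⟩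
  have hyA : y ∈ {v : V | v ∈ SA 0 n' m' ∨ (-(2 * u) ≤ (gf (i : ℕ) v).1 ∧
      (gf (i : ℕ) v).1 ≤ 2 * u ∧ ε * en ε q' ≤ ε * (gf (i : ℕ) v).2)} := by
    left
    rcases hfy.right.2 with hv | hv
    · have hv' : n ≤ sn (y - 0) ∧ sn (y - 0) ≤ m := hv
      change n' ≤ sn (y - 0) ∧ sn (y - 0) ≤ m'
      omega
    · apply ex_reg hWp hcas
      have h3 := ex_near (show sn (y - x) ≤ 30 * s from hv)
      rw [hsnx, abs_le] at h3
      rw [abs_le]
      rcases hε with rfl | rfl <;> omega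
  have hv1A : v1 ∉ {v : V | v ∈ SA 0 n' m' ∨ (-(2 * u) ≤ (gf (i : ℕ) v).1 ∧
      (gf (i : ℕ) v).1 ≤ 2 * u ∧ ε * en ε q' ≤ ε * (gf (i : ℕ) v).2)} := by
    rintro (h3 | ⟨-, -, h3⟩)
    · have h4 : n' ≤ sn (v1 - 0) ∧ sn (v1 - 0) ≤ m' := h3
      rw [sub_zero, hsv] at h4
      rcases hcas with ⟨rfl, hh⟩ | ⟨rfl, hh⟩ <;> omega
    · rw [hgv] at h3
      change ε * en ε q' ≤ ε * (-(2 * u * EE ε M) - ε * t) at h3
      unfold en at h3
      rcases hcas with ⟨rfl, hh⟩ | ⟨rfl, hh⟩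
      · rw [if_pos rfl] at h3
        omega
      · rw [if_neg (by norm_num)] at h3
        omega
  obtain ⟨z, z', hz, hz', hzz, hc1, hc2⟩ := hconn.exit hyA hv1A
  have hout : ε * (gf (i : ℕ) z').2 < ε * en ε q' ∧
      ∃ R, ε * (R - 128 * W) ≤ ε * (2 * u * EE ε M - 128 * W) ∧
        -(2 * u) ≤ (gf (i : ℕ) z').1 ∧ (gf (i : ℕ) z').1 ≤ 2 * u ∧
        (gf (i : ℕ) z').2 + R ≤ 2 * u := by
    rcases hKR z' hc2.left with h3 | ⟨R, -, r2, r3, r4, r5, r6, -⟩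
    · exact absurd (Or.inl h3) hz'
    · refine ⟨?_, R, r2, r3, r4, r6⟩
      by_contra hcon
      exact hz' (Or.inr ⟨r3, r4, not_lt.1 hcon⟩)
  obtain ⟨hlt, R, r2, r3, r4, r6⟩ := hout
  have hadj := ((gf_aut hi z z').2 hzz).abs
  have ha1 := abs_le.1 hadj.1
  have ha2 := abs_le.1 hadj.2.1
  have hzst : -(2 * u) ≤ (gf (i : ℕ) z).1 ∧ (gf (i : ℕ) z).1 ≤ 2 * u ∧
      ε * en ε q' ≤ ε * (gf (i : ℕ) z).2 := by
    rcases hz with h3 | h3
    · exfalso
      have h4 : n' ≤ sn (z - 0) ∧ sn (z - 0) ≤ m' := h3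
      rw [sub_zero, ← ex_sn0 hi] at h4
      have h5 : |(gf (i : ℕ) z).2| ≤ sn (gf (i : ℕ) z) := le_max_right _ _
      have h6 := neg_abs_le (gf (i : ℕ) z).2
      unfold en at hlt
      rcases hcas with ⟨rfl, hh⟩ | ⟨rfl, hh⟩
      · rw [if_pos rfl] at hlt
        omega
      · rw [if_neg (by norm_num)] at hlt
        have h7 : sn (gf (i : ℕ) z) ≤ 16 * W :=
          max_le (abs_le.2 ⟨by omega, by omega⟩) (abs_le.2 ⟨by omega, by omega⟩)
        omega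
    · exact h3
  obtain ⟨z1, z2, z3⟩ := hzst
  have hrow : (gf (i : ℕ) z).2 = en ε q' := by
    rcases hε with rfl | rfl <;> omega
  refine ⟨z, ?_, hrow, hc1.symm.mono ?_⟩
  · refine ex_box hWp hcas (by omega) (by omega) z3 ?_
    rw [hrow]
    unfold en
    rcases hcas with ⟨rfl, hh⟩ | ⟨rfl, hh⟩
    · rw [if_pos rfl]
      omega
    · rw [if_neg (by norm_num)]
      omega
  · rintro v ⟨hvK, hvA⟩
    refine ⟨hKS v hvK, ?_⟩
    rcases hvA with h3 | ⟨b1, b2, b3⟩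
    · exact Or.inl h3
    rcases hKR v hvK with h3 | ⟨R', s1, s2, s3, s4, s5, s6, s7⟩
    · exact Or.inl h3
    by_cases h3 : ε * (gf (i : ℕ) v).2 ≤ ε * (-q' - ε)
    · exact Or.inr (ex_box hWp hcas (by omega) (by omega) b3 h3)
    · left
      change n' ≤ sn (v - 0) ∧ sn (v - 0) ≤ m'
      rw [sub_zero, ← ex_sn0 hi]
      have h5 : |(gf (i : ℕ) v).2| ≤ sn (gf (i : ℕ) v) := le_max_right _ _
      have h6 := neg_abs_le (gf (i : ℕ) v).2
      rcases hcas with ⟨rfl, hh⟩ | ⟨rfl, hh⟩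
      · exact ⟨by omega, max_le (abs_le.2 ⟨by omega, by omega⟩)
          (abs_le.2 ⟨by omega, by omega⟩)⟩
      · exact ⟨by omega, max_le (abs_le.2 ⟨by omega, by omega⟩)
          (abs_le.2 ⟨by omega, by omega⟩)⟩

private theorem ex_ev (τ : Bool) (p : ℝ) (z : V) (n m : ℤ) :
    Ev (Ann z n m) {w | ¬ Arm (Co (!τ) p w) z n m} ∧
      Inc τ {w | ¬ Arm (Co (!τ) p w) z n m} := by
  cases τ
  · exact ⟨(ev_arm p z n m).1.compl, (ev_arm p z n m).2.compl⟩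
  · exact ⟨(ev_arm_cl p z n m).1.compl, (ev_arm_cl p z n m).2.compl⟩

private theorem ex_tub (τ : Bool) (p : ℝ) (x : V) (n : ℤ) (Z : Finset (ℤ × ℤ)) :
    Inc τ (Tub τ p x n Z) := by
  cases τ
  · exact (tub_low p x n Z).2
  · exact (tub_low p x n Z).1

private theorem ex_circ {c p : ℝ} {N : ℤ} (h : Rsw c p N) (τ : Bool) (z : V) {s : ℤ}
    (hs : 1 ≤ s) (hN : 5 * s ≤ N) :
    c ^ 6 ≤ (P {w | ¬ Arm (Co (!τ) p w) z (5 * s) (10 * s)}).toReal := by
  cases τ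
  · exact circ_closed h (by omega) (by omega) (by omega) (by omega)
  · exact circ_open h (by omega) (by omega) (by omega) (by omega)

/-- The probability of one tube with its fence. -/
private theorem ex_pb {c p : ℝ} {N : ℤ} (h : Rsw c p N) (τ : Bool) (z : V) {s : ℤ}
    (hu : 1 ≤ u) (hs : 1 ≤ s) (hN : 5 * s ≤ N) (hN' : u ≤ N) (Z : Finset (ℤ × ℤ)) {K : ℕ}
    (hK : Z.card ≤ K) :
    c ^ 6 * (c ^ 6) ^ K ≤
      (P ({w | ¬ Arm (Co (!τ) p w) z (5 * s) (10 * s)} ∩ Tub τ p 0 u Z)).toReal := by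
  have hc := h.1
  have hc1 : c ≤ 1 := h.2.1.trans (by norm_num)
  have e1 := ex_ev τ p z (5 * s) (10 * s)
  have e2 := ev_tub τ p 0 u Z
  have hfin : (Ann z (5 * s) (10 * s) ∪ ⋃ e ∈ Z, Ann (cz 0 u e.1 e.2) u (2 * u)).Finite :=
    (finite_ann _ _ _).union (Set.Finite.biUnion Z.finite_toSet fun e _ => finite_ann _ _ _)
  have h1 := inc_harris2 hfin (e1.1.mono Set.subset_union_left)
    (e2.mono Set.subset_union_right) e1.2 (ex_tub τ p 0 u Z)
  have h2 : (P {w | ¬ Arm (Co (!τ) p w) z (5 * s) (10 * s)}).toReal *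
      (P (Tub τ p 0 u Z)).toReal ≤
      (P ({w | ¬ Arm (Co (!τ) p w) z (5 * s) (10 * s)} ∩ Tub τ p 0 u Z)).toReal := by
    rw [← ENNReal.toReal_mul]
    exact ENNReal.toReal_mono (measure_ne_top P _) h1
  refine le_trans ?_ h2
  have h3 : (c ^ 6) ^ K ≤ (c ^ 6) ^ Z.card :=
    pow_le_pow_of_le_one (by positivity) (pow_le_one₀ hc.le hc1) hK
  exact mul_le_mul (ex_circ h τ z hs hN) (h3.trans (tub_prob h τ 0 hu hN' Z)) (by positivity)
    ENNReal.toReal_nonneg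

private theorem ex_card {Z : Finset V} (_ : 0 ≤ M) (h : ∀ e ∈ Z, sn e ≤ 8 * M) :
    Z.card ≤ (16 * M + 1).toNat * (16 * M + 1).toNat := by
  have h1 : Z ⊆ (Finset.Icc (-(8 * M)) (8 * M)) ×ˢ (Finset.Icc (-(8 * M)) (8 * M)) := by
    intro e he
    have h2 : max |e.1| |e.2| ≤ 8 * M := h e he
    rw [max_le_iff, abs_le, abs_le] at h2
    exact Finset.mem_product.2 ⟨Finset.mem_Icc.2 h2.1, Finset.mem_Icc.2 h2.2⟩
  refine (Finset.card_le_card h1).trans ?_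
  rw [Finset.card_product, Int.card_Icc]
  have e : 8 * M + 1 - -(8 * M) = 16 * M + 1 := by ring
  rw [e]

theorem ext (c : ℝ) (hc : 0 < c) (κ : ℕ) (G D M : ℤ) (hP : Prm κ G D M) : ∃ C : ℝ, 0 < C ∧
    ∀ (p : ℝ) (N : ℤ), Rsw c p N → ∀ ε n m u n' m' q' : ℤ, 1 ≤ u → 2 * M * u ≤ N →
    Cas ε n m u M n' m' q' → ∀ (Base : (Fin 4 → V) → Prop) (σ : Bool),
    (∀ y, Base y → ∀ i, M * u ≤ |sn (y i) - 2 * M * u|) → ∀ k j a, Src κ M k j a →
    (P (FA ε Base p σ n m u M k j a)).toReal ≤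
      C * (P (ST ε Base p σ n' m' q')).toReal := by
  obtain ⟨hM0, -⟩ := ex_prm hP
  have hq4 : (1 : ℤ) ≤ 4 ^ κ := one_le_pow₀ (by norm_num)
  set K : ℕ := (16 * M + 1).toNat * (16 * M + 1).toNat with hK
  set r : ℝ := c ^ 6 * (c ^ 6) ^ K with hr
  have hr0 : 0 < r := by positivity
  refine ⟨(r ^ 4)⁻¹, by positivity, ?_⟩
  intro p N hR ε n m u n' m' q' hu hN hC Base σ hB k j a hS
  obtain ⟨W, hW1, hW2, hcas⟩ := ex_cas hP hu hC
  have hε : ε = 1 ∨ ε = -1 := by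
    rcases hcas with h | h
    · exact Or.inl h.1
    · exact Or.inr h.1
  have e2M : 2 * M * u = 128 * W := by linarith
  obtain ⟨Q, hQ⟩ : ∃ x : ℤ, x = 4 ^ κ * u := ⟨_, rfl⟩
  rw [← hQ] at hW2
  have hQu : u ≤ Q := by
    rw [hQ]
    exact le_mul_of_one_le_left (by omega) hq4
  obtain ⟨hS1, hS2⟩ := hS
  have hp := fun i => ex_pow (hS1 i).2.2
  -- the routes
  obtain ⟨Z, hZ1, hZ2, hZ3, hZ4, hZ5, hZ6⟩ := route (ε := ε) (M := M) (Δ := DD κ)
    (B := 32 * 4 ^ κ) (L := 15 * 4 ^ κ + 3) (E := EE ε M) (k := k) (τ := j)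
    (ρ := fun i => 6 * 4 ^ (a i)) hε (by omega) (by omega) (by unfold DD; omega)
    (by unfold DD; omega)
    (by unfold EE; split_ifs <;> omega)
    (by
      unfold EE
      rcases hε with rfl | rfl
      · rw [if_pos rfl]
        omega
      · rw [if_neg (by norm_num)]
        omega)
    (fun i => (hS1 i).1) (fun i => (hS1 i).2.1)
    (fun i => by
      have := hp i
      change 0 ≤ 6 * 4 ^ (a i) ∧ 6 * 4 ^ (a i) + (15 * 4 ^ κ + 3) ≤ (32 * 4 ^ κ : ℤ)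
      omega) hS2
  obtain ⟨s, hs⟩ : ∃ s : Fin 4 → ℤ, s = fun i => 4 ^ (a i) * u := ⟨_, rfl⟩
  have hsu : ∀ i, u ≤ s i := by
    intro i
    rw [hs]
    exact le_mul_of_one_le_left (by omega) (hp i).1
  have hsQ : ∀ i, 4 * s i ≤ Q := by
    intro i
    rw [hs, hQ]
    have := mul_le_mul_of_nonneg_right (hp i).2 (by omega : 0 ≤ u)
    change 4 * (4 ^ (a i) * u) ≤ 4 ^ κ * u
    linarith
  have e5 : ∀ i, 5 * 4 ^ (a i) * u = 5 * s i := by
    intro i
    rw [hs]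
    ring
  have e10 : ∀ i, 10 * 4 ^ (a i) * u = 10 * s i := by
    intro i
    rw [hs]
    ring
  have e30 : ∀ i, 30 * 4 ^ (a i) * u = 30 * s i := by
    intro i
    rw [hs]
    ring
  have g6 : ∀ i l, i ≠ l → ∀ e ∈ Z i, ∀ f ∈ Z l,
      6 * u ≤ sn (cz 0 u e.1 e.2 - cz 0 u f.1 f.2) := by
    intro i l hil e he f hf
    have h1 := mul_le_mul_of_nonneg_right (hZ4 i l hil e he f hf) (by omega : 0 ≤ 2 * u)
    rw [ex_sn_cz (by omega)]
    linarith
  have gL : ∀ i l, i ≠ l → ∀ e ∈ Z i,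
      30 * Q + 6 * u ≤ sn (cz 0 u e.1 e.2 - Xs ε u M (k l) (j l) (a l)) := by
    intro i l hil e he
    have h1 := mul_le_mul_of_nonneg_right (hZ5 i l hil e he) (by omega : 0 ≤ 2 * u)
    rw [xs_cz, ex_sn_cz (by omega), hQ]
    linarith
  set D : Fin 4 → Set V := fun i =>
    Ann (Xs ε u M (k i) (j i) (a i)) (5 * s i) (10 * s i) ∪
      ⋃ e ∈ Z i, Ann (cz 0 u e.1 e.2) u (2 * u) with hD
  have hDfin : ∀ i, (D i).Finite := fun i =>
    (finite_ann _ _ _).union (Set.Finite.biUnion (Z i).finite_toSet fun e _ => finite_ann _ _ _)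
  have hRfin : ∀ i, (RF ε u M n m k j a i).Finite := fun i =>
    (finite_sa _ _ _).union (finite_sq _ _)
  have tri : ∀ x y z : V, sn (x - z) ≤ sn (y - x) + sn (y - z) := by
    intro x y z
    have h1 := sn_add (x - y) (y - z)
    rw [sub_add_sub_cancel] at h1
    have h2 := sn_neg (x - y)
    rw [neg_sub] at h2
    omega
  have hdD : ∀ i l, i ≠ l → Disjoint (D i) (D l) := by
    intro i l hil
    have q1 := hsu i
    have q2 := hsu l
    have q3 := hsQ i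
    have q4 := hsQ l
    refine Set.disjoint_left.2 fun v hv hv' => ?_
    rcases hv with hv | hv <;> rcases hv' with hv' | hv'
    · have h1 := gL i l hil _ (hZ2 i)
      rw [← xs_cz] at h1
      have h2 := (sn_le_nrm _).trans hv.2
      have h3 := (sn_le_nrm _).trans hv'.2
      have h4 := tri (Xs ε u M (k i) (j i) (a i)) v (Xs ε u M (k l) (j l) (a l))
      omega
    · obtain ⟨f, hf, hvf⟩ := Set.mem_iUnion₂.1 hv'
      have h1 := gL l i (Ne.symm hil) f hf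
      have h2 := (sn_le_nrm _).trans hv.2
      have h3 := (sn_le_nrm _).trans hvf.2
      have h4 := tri (cz 0 u f.1 f.2) v (Xs ε u M (k i) (j i) (a i))
      omega
    · obtain ⟨f, hf, hvf⟩ := Set.mem_iUnion₂.1 hv
      have h1 := gL i l hil f hf
      have h2 := (sn_le_nrm _).trans hv'.2
      have h3 := (sn_le_nrm _).trans hvf.2
      have h4 := tri (cz 0 u f.1 f.2) v (Xs ε u M (k l) (j l) (a l))
      omega
    · obtain ⟨e, he, hve⟩ := Set.mem_iUnion₂.1 hv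
      obtain ⟨f, hf, hvf⟩ := Set.mem_iUnion₂.1 hv'
      have h1 := g6 i l hil e he f hf
      have h2 := (sn_le_nrm _).trans hve.2
      have h3 := (sn_le_nrm _).trans hvf.2
      have h4 := tri (cz 0 u e.1 e.2) v (cz 0 u f.1 f.2)
      omega
  have hDR : ∀ i l, i ≠ l → Disjoint (D i) (RF ε u M n m k j a l) := by
    intro i l hil
    have q1 := hsu i
    have q2 := hsu l
    have q3 := hsQ i
    have q4 := hsQ l
    have hnear : ∀ v ∈ D i, ∃ e ∈ Z i, ∃ ρ, sn (v - cz 0 u e.1 e.2) ≤ ρ ∧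
        ρ ≤ 10 * s i := by
      rintro v (hv | hv)
      · refine ⟨_, hZ2 i, 10 * s i, ?_, le_rfl⟩
        rw [← xs_cz]
        exact (sn_le_nrm _).trans hv.2
      · obtain ⟨f, hf, hvf⟩ := Set.mem_iUnion₂.1 hv
        exact ⟨f, hf, 2 * u, (sn_le_nrm _).trans hvf.2, by omega⟩
    refine Set.disjoint_left.2 fun v hv hv' => ?_
    obtain ⟨e, he, ρ, h1, h2⟩ := hnear v hv
    rcases hv' with hv' | hv'
    · have h3 := ex_near h1
      rw [ex_sn_cz0 (by omega), abs_le] at h3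
      have h4 := mul_le_mul_of_nonneg_right (hZ6 i e he).1 (by omega : 0 ≤ 2 * u)
      have h5 : 12 * s i ≤ ε * (2 * u * sn e - 128 * W) := by
        rw [hs, ← e2M]
        change 12 * (4 ^ (a i) * u) ≤ _
        linarith
      have h6 : n ≤ sn (v - 0) ∧ sn (v - 0) ≤ m := hv'
      rw [sub_zero] at h6
      rcases hcas with ⟨rfl, hh⟩ | ⟨rfl, hh⟩ <;> omega
    · have h3 : sn (v - Xs ε u M (k l) (j l) (a l)) ≤ 30 * 4 ^ (a l) * u := hv'
      rw [e30] at h3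
      have h4 := gL i l hil e he
      have h5 := tri (cz 0 u e.1 e.2) v (Xs ε u M (k l) (j l) (a l))
      omega
  set Bv : Fin 4 → Set Lab := fun i =>
    {w | ¬ Arm (Co (!(alt σ i)) p w) (Xs ε u M (k i) (j i) (a i)) (5 * s i) (10 * s i)} ∩
      Tub (alt σ i) p 0 u (Z i) with hBv
  have eB : ∀ i, Ev (D i) (Bv i) := fun i =>
    ((ex_ev _ _ _ _ _).1.mono Set.subset_union_left).inter
      ((ev_tub _ _ _ _ _).mono Set.subset_union_right)
  have mB : ∀ i, Inc (alt σ i) (Bv i) := fun i => inc_inter (ex_ev _ _ _ _ _).2 (ex_tub _ _ _ _ _)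
  have hcard : ∀ i, (Z i).card ≤ K := by
    intro i
    refine ex_card (by omega) fun e he => ?_
    have h1 := (hZ6 i e he).1
    have h2 := (hZ6 i e he).2.1
    have h3 := (hp i).1
    unfold EE at h2
    rcases hε with rfl | rfl
    · rw [if_pos rfl] at h2
      omega
    · change 6 * 4 ^ (a i) ≤ _ at h1
      omega
  have hPB : ∀ i, r ≤ (P (Bv i)).toReal := by
    intro i
    have q1 := hsu i
    have q3 := hsQ i
    exact ex_pb hR (alt σ i) _ hu (by omega) (by omega) (by omega) (Z i) (hcard i)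
  have key := arms_harris1 (p := p) (σ := alt σ) (Γ := fun z => Base (fun i => (z i).2) ∧
      ∀ i, nrm ((z i).1 - Xs ε u M (k i) (j i) (a i)) ≤ 5 * 4 ^ (a i) * u)
    hRfin hDfin hdD hDR eB mB
  have hsub : FA ε Base p σ n m u M k j a ∩ ⋂ i, Bv i ⊆ ST ε Base p σ n' m' q' := by
    rintro w ⟨⟨z, ⟨hz1, hz2⟩, hz3⟩, hw⟩
    have hw' := fun i => Set.mem_iInter.1 hw i
    have hg : ∀ i : Fin 4, ∃ x, x ∈ BE ε q' (i : ℕ) ∧ (gf (i : ℕ) x).2 = en ε q' ∧
        Conn (Co (alt σ i) p w ∩ (SA 0 n' m' ∪ BE ε q' (i : ℕ))) x (z i).2 := by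
      intro i
      refine glue_tube hP hu hC (hS1 i).1 (hS1 i).2.1 (hS1 i).2.2 i (Z i) (hZ1 i) (hZ2 i)
        (hZ3 i) (hZ6 i) (hz2 i) (hz3 i) (hB _ hz1 i) ?_ ?_
      · rw [e5, e10, ← co_not]
        exact (hw' i).1
      · rw [← co_not]
        exact (hw' i).2
    choose z' hz' hz'' hzc using hg
    exact ⟨fun i => (z' i, (z i).2), ⟨hz1, fun i => ⟨hz' i, hz'' i⟩⟩, hzc⟩
  have h1 : (P (FA ε Base p σ n m u M k j a)).toReal * ∏ i, (P (Bv i)).toReal ≤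
      (P (ST ε Base p σ n' m' q')).toReal := by
    rw [← ENNReal.toReal_prod, ← ENNReal.toReal_mul]
    exact ENNReal.toReal_mono (measure_ne_top P _) (key.trans (measure_mono hsub))
  have h2 : r ^ 4 ≤ ∏ i, (P (Bv i)).toReal := by
    have h3 : ∏ _i : Fin 4, r ≤ ∏ i, (P (Bv i)).toReal :=
      Finset.prod_le_prod (fun _ _ => hr0.le) fun i _ => hPB i
    rwa [Finset.prod_const, Finset.card_univ, Fintype.card_fin] at h3
  have h3 : (P (FA ε Base p σ n m u M k j a)).toReal * r ^ 4 ≤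
      (P (ST ε Base p σ n' m' q')).toReal :=
    (mul_le_mul_of_nonneg_left h2 ENNReal.toReal_nonneg).trans h1
  rw [inv_mul_eq_div, le_div_iff₀ (by positivity)]
  exact h3

end Pool.Agent.TriPerc
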