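import Pool.Agent.TriPerc.Osss
import Mathlib.MeasureTheory.Order.Group.Lattice

/-!
# The level one inequality for exploration trees

`g i` (`i : ι`) is a bounded measurable function of the labels in the block `B i` with mean `0`.  If the
tree `T` asks the block `i` with probability `δ i` then `∫ val T * ∑ i, g i` is at most the square root
of `∑ i, δ i * ∫ (g i) ^ 2`.  No other assumption on the tree.

* `osss_lin`.  PROOF.  Let `S T w = ∑ i, 1 (i ∈ rv T w) * g i w`.
  (a) `∫ val T * g i = ∫ val T * 1 (i ∈ rv T) * g i`: the function `h w = val T w * 1 (i ∉ rv T w)` does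
  not depend on the labels in `B i`: if `w`, `w'` agree outside `B i`, then `i ∈ rv T w ↔ i ∈ rv T w'`, and
  if `i ∉ rv T w` then `val T w = val T w'` (induction on `T`; at `node j c` with `j = i` the block is
  asked for both; if `j ≠ i` then `Op p w ∩ B j = Op p w' ∩ B j` because the blocks are disjoint, and
  the induction hypothesis for `c t` applies).  `indep_fun` with `S = B i`, `f = g i` and `h` (measurable by
  `measurable_val`, `measurableSet_rv`): `∫ g i * h = ∫ g i * ∫ h = 0`.
  So `∫ val T * ∑ i, g i = ∫ val T * S T`.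
  (b) For all `s` with `T.Fresh s`: `∫ S T = 0` and `∫ (S T) ^ 2 = ∑ i, P (i ∈ rv T) * ∫ (g i) ^ 2`.
  Induction on `T` for all `s`.  Leaf: `S = 0`.  Let `T = node i c` and, for a set `t`,
  `E t = {w | Op p w ∩ B i = t}` (only finitely many `t`, namely `t ⊆ B i`; the events `E t` are events
  of `B i` by `ev_op`).  On `E t` one has `S T w = g i w + S (c t) w` (`i ∉ rv (c t) w` by `rv_fresh` with
  `Fresh (insert i s) (c t)`).  `S (c t)` does not depend on the labels in `B i`: by `val_congr` (with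
  `insert i s`) `rv (c t) w` depends only on the labels in the blocks `j ∉ insert i s`, it contains only
  such `j` (`rv_fresh`), and these blocks are disjoint from `B i`.  Hence by `indep_fun` with `S = B i`
  `∫ 1 (E t) * S (c t) = P (E t) * ∫ S (c t) = 0`, `∫ 1 (E t) * g i * S (c t) = (∫ 1 (E t) g i) * 0 = 0`,
  `∫ 1 (E t) * (S (c t)) ^ 2 = P (E t) * ∫ (S (c t)) ^ 2`.  Sum over `t`:
  `∫ S T = ∫ g i + 0 = 0`,
  `∫ (S T) ^ 2 = ∫ (g i) ^ 2 + ∑ t, P (E t) * ∑ j, P (j ∈ rv (c t)) * ∫ (g j) ^ 2`, and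
  `P (i ∈ rv T) = 1`, `P (j ∈ rv T) = ∑ t, P (E t) * P (j ∈ rv (c t))` for `j ≠ i`, `P (i ∈ rv (c t)) = 0`
  (the same computation as in the proof of `osss`, private lemma `dec_sum` of `Osss.lean`).
  (c) Cauchy-Schwarz (`(∫ f h) ^ 2 ≤ ∫ f ^ 2 * ∫ h ^ 2` for bounded functions; or: for all real `x`,
  `0 ≤ ∫ (val T - x S T) ^ 2`, discriminant) and `val T ^ 2 ≤ 1` (`val_bound`).
* `osss_lin_cond`: the version which is conditional on the labels outside `M`.  PROOF.  Let
  `φ w = 1` if `F (Op p w ∩ Q)` and `0` otherwise (measurable: `ev_op`), `G = ∑ i, g i`.  By `mp_mix`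
  `∫ φ G = ∫∫ φ (mix M w0 w) G (mix M w0 w) dP(w) dP(w0)`, `G (mix M w0 w) = G w` (`hgB`, `B i ⊆ M`),
  and `φ (mix M w0 w) = val (T o) w` with `o = Op p w0 ∩ (Q \ M)`.  For fixed `w0` the inner integral is
  at most `√ (∑ i, D i * ∫ (g i) ^ 2)` in absolute value by `osss_lin` and `hD`.
-/

namespace Pool.Agent.TriPerc

open MeasureTheory Set

variable {ι : Type} {B : ι → Set V} {p : ℝ} {T : Tr ι}

private theorem ibd {α : Type} [MeasurableSpace α] {μ : Measure α} [IsFiniteMeasure μ]
    {F : α → ℝ} (hF : Measurable F) (C : ℝ) (h1 : ∀ w, |F w| ≤ C) : Integrable F μ :=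
  Integrable.of_bound hF.aestronglyMeasurable C (Filter.Eventually.of_forall h1)

private theorem int_mix2 (S : Set V) {F : Lab → ℝ} (hF : Measurable F) :
    ∫ w, F w ∂P = ∫ z, F (mix S z.1 z.2) ∂(P.prod P) := by
  conv_lhs => rw [← (mp_mix S).map_eq]
  rw [integral_map (measurable_mix S).aemeasurable hF.aestronglyMeasurable]

private theorem op_eq {b b' : Set V} (hd : Disjoint b b') {w w' : Lab}
    (h : ∀ v, v ∉ b' → w v = w' v) : Op p w ∩ b = Op p w' ∩ b := by
  ext v
  simp only [Op, mem_inter_iff, mem_ofPred_eq]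
  constructor
  · rintro ⟨h1, h2⟩
    exact ⟨by rw [← h v (Set.disjoint_left.1 hd h2)]; exact h1, h2⟩
  · rintro ⟨h1, h2⟩
    exact ⟨by rw [h v (Set.disjoint_left.1 hd h2)]; exact h1, h2⟩

/-- the event that `j` is asked does not depend on the labels in `B j` -/
private theorem rv_off (hd : ∀ i j, i ≠ j → Disjoint (B i) (B j)) (j : ι) {w w' : Lab}
    (h : ∀ v, v ∉ B j → w v = w' v) (T : Tr ι) :
    (j ∈ T.rv B p w ↔ j ∈ T.rv B p w') ∧ (j ∉ T.rv B p w → T.val B p w = T.val B p w') := by
  induction T with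
  | leaf b => exact ⟨Iff.rfl, fun _ => rfl⟩
  | node k c ih =>
    by_cases hk : k = j
    · subst hk
      exact ⟨⟨fun _ => Or.inl rfl, fun _ => Or.inl rfl⟩, fun h => absurd (Or.inl rfl) h⟩
    · have e : Op p w ∩ B k = Op p w' ∩ B k := op_eq (hd k j hk) h
      have h1 := ih (Op p w ∩ B k)
      change (j ∈ insert k (Tr.rv B p (c (Op p w ∩ B k)) w) ↔
        j ∈ insert k (Tr.rv B p (c (Op p w' ∩ B k)) w')) ∧
        (j ∉ insert k (Tr.rv B p (c (Op p w ∩ B k)) w) →
          Tr.val B p (c (Op p w ∩ B k)) w = Tr.val B p (c (Op p w' ∩ B k)) w')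
      rw [← e, Set.mem_insert_iff, Set.mem_insert_iff]
      exact ⟨or_congr Iff.rfl h1.1, fun h2 => h1.2 fun h3 => h2 (Or.inr h3)⟩

/-- both are asked, `i` first -/
private def bef (B : ι → Set V) (p : ℝ) (i j : ι) : Tr ι → Lab → Prop
  | .leaf _, _ => False
  | .node k c, w => (k = i ∧ j ∈ Tr.rv B p (c (Op p w ∩ B k)) w) ∨
      (k ≠ i ∧ k ≠ j ∧ bef B p i j (c (Op p w ∩ B k)) w)

private theorem bef_iff {i j : ι} (hij : i ≠ j) (T : Tr ι) (w : Lab) :
    (i ∈ T.rv B p w ∧ j ∈ T.rv B p w) ↔ (bef B p i j T w ∨ bef B p j i T w) := by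
  induction T with
  | leaf b => exact ⟨fun h => h.1.elim, fun h => h.elim (fun h => h.elim) fun h => h.elim⟩
  | node k c ih =>
    have h1 := ih (Op p w ∩ B k)
    change (i ∈ insert k (Tr.rv B p (c (Op p w ∩ B k)) w) ∧
      j ∈ insert k (Tr.rv B p (c (Op p w ∩ B k)) w)) ↔
      (((k = i ∧ j ∈ Tr.rv B p (c (Op p w ∩ B k)) w) ∨
      (k ≠ i ∧ k ≠ j ∧ bef B p i j (c (Op p w ∩ B k)) w)) ∨
      ((k = j ∧ i ∈ Tr.rv B p (c (Op p w ∩ B k)) w) ∨
      (k ≠ j ∧ k ≠ i ∧ bef B p j i (c (Op p w ∩ B k)) w)))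
    rw [Set.mem_insert_iff, Set.mem_insert_iff]
    by_cases hki : k = i
    · subst hki
      have h2 : ¬ j = k := fun e => hij e.symm
      have h3 : ¬ k = j := hij
      tauto
    · by_cases hkj : k = j
      · subst hkj
        have h3 : ¬ i = k := hij
        tauto
      · have h2 : ¬ i = k := fun e => hki e.symm
        have h3 : ¬ j = k := fun e => hkj e.symm
        tauto

private theorem bef_excl {i j : ι} (hij : i ≠ j) (T : Tr ι) (w : Lab) (h : bef B p i j T w)
    (h' : bef B p j i T w) : False := by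
  induction T with
  | leaf b => exact h
  | node k c ih =>
    have h1 := ih (Op p w ∩ B k)
    rcases h with ⟨h2, _⟩ | ⟨h2, h3, h4⟩
    · rcases h' with ⟨h5, _⟩ | ⟨_, h5, _⟩
      · exact hij (h2.symm.trans h5)
      · exact h5 h2
    · rcases h' with ⟨h5, _⟩ | ⟨_, _, h5⟩
      · exact h3 h5
      · exact h1 h4 h5

private theorem bef_off (hd : ∀ i j, i ≠ j → Disjoint (B i) (B j)) {i j : ι} (hij : i ≠ j)
    {w w' : Lab} (h : ∀ v, v ∉ B j → w v = w' v) (T : Tr ι) :
    bef B p i j T w ↔ bef B p i j T w' := by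
  induction T with
  | leaf b => exact Iff.rfl
  | node k c ih =>
    by_cases hk : k = j
    · constructor
      · rintro (⟨h2, _⟩ | ⟨_, h3, _⟩)
        · exact absurd (h2.symm.trans hk) hij
        · exact absurd hk h3
      · rintro (⟨h2, _⟩ | ⟨_, h3, _⟩)
        · exact absurd (h2.symm.trans hk) hij
        · exact absurd hk h3
    · have e : Op p w ∩ B k = Op p w' ∩ B k := op_eq (hd k j hk) h
      have h1 := ih (Op p w ∩ B k)
      have h2 := (rv_off (p := p) hd j h (c (Op p w ∩ B k))).1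
      change ((k = i ∧ j ∈ Tr.rv B p (c (Op p w ∩ B k)) w) ∨
        (k ≠ i ∧ k ≠ j ∧ bef B p i j (c (Op p w ∩ B k)) w)) ↔
        ((k = i ∧ j ∈ Tr.rv B p (c (Op p w' ∩ B k)) w') ∨
        (k ≠ i ∧ k ≠ j ∧ bef B p i j (c (Op p w' ∩ B k)) w'))
      rw [← e, h1, h2]

private theorem bef_meas (hB : ∀ i, (B i).Finite) (i j : ι) (T : Tr ι) :
    MeasurableSet {w | bef B p i j T w} := by
  induction T with
  | leaf b => exact MeasurableSet.empty
  | node k c ih =>
    have e : {w | bef B p i j (.node k c) w} = ⋃ t ∈ {t | t ⊆ B k},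
        ({w | Op p w ∩ B k = t} ∩ (({w | k = i} ∩ {w | j ∈ Tr.rv B p (c t) w}) ∪
          ({w | k ≠ i} ∩ ({w | k ≠ j} ∩ {w | bef B p i j (c t) w})))) := by
      ext w
      simp only [mem_iUnion, mem_inter_iff, mem_union, mem_ofPred_eq, exists_prop]
      constructor
      · intro h
        exact ⟨Op p w ∩ B k, inter_subset_right, rfl, h⟩
      · rintro ⟨t, -, h1, h2⟩
        rw [← h1] at h2
        exact h2
    rw [e]
    refine (hB k).finite_subsets.measurableSet_biUnion fun t _ =>
      (ev_op (hB k) p fun x => x = t).1.inter (MeasurableSet.union ?_ ?_)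
    · exact (MeasurableSet.const _).inter (measurableSet_rv hB (c t) j)
    · exact (MeasurableSet.const _).inter ((MeasurableSet.const _).inter (ih t))

/-- indicator functions -/
private noncomputable def In (A : Set Lab) : Lab → ℝ := A.indicator fun _ => (1 : ℝ)

private theorem in_one {A : Set Lab} {w : Lab} (h : w ∈ A) : In A w = 1 :=
  Set.indicator_of_mem h _

private theorem in_zero {A : Set Lab} {w : Lab} (h : w ∉ A) : In A w = 0 :=
  Set.indicator_of_notMem h _

private theorem in_meas {A : Set Lab} (h : MeasurableSet A) : Measurable (In A) :=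
  measurable_const.indicator h

private theorem in_bd (A : Set Lab) (w : Lab) : |In A w| ≤ 1 := by
  by_cases h : w ∈ A
  · rw [in_one h, abs_one]
  · rw [in_zero h, abs_zero]
    exact zero_le_one

private theorem in_congr {A : Set Lab} {w w' : Lab} (h : w ∈ A ↔ w' ∈ A) : In A w = In A w' := by
  by_cases h1 : w ∈ A
  · rw [in_one h1, in_one (h.1 h1)]
  · rw [in_zero h1, in_zero fun h2 => h1 (h.2 h2)]

private theorem in_int {A : Set Lab} (h : MeasurableSet A) : ∫ w, In A w ∂P = (P A).toReal := by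
  unfold In
  rw [integral_indicator h]
  simp [Measure.real]

theorem osss_lin [Fintype ι] (hB : ∀ i, (B i).Finite) (hd : ∀ i j, i ≠ j → Disjoint (B i) (B j))
    (hT : T.Fresh ∅) {g : ι → Lab → ℝ} {C : ℝ} (hg : ∀ i, Measurable (g i))
    (hg1 : ∀ i w, |g i w| ≤ C)
    (hgB : ∀ i (w w' : Lab), (∀ v ∈ B i, w v = w' v) → g i w = g i w')
    (hg0 : ∀ i, ∫ w, g i w ∂P = 0) :
    |∫ w, T.val B p w * ∑ i, g i w ∂P| ≤
      Real.sqrt (∑ i, (P {w | i ∈ T.rv B p w}).toReal * ∫ w, g i w ^ 2 ∂P) := by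
  classical
  have hC : ∀ i, 0 ≤ C := fun i => (abs_nonneg _).trans (hg1 i (fun _ => 0))
  have hvm : Measurable (T.val B p) := measurable_val hB T
  have hvb : ∀ w, |T.val B p w| ≤ 1 := by
    intro w
    rcases val_bound (B := B) (p := p) T w with h | h <;> rw [h] <;> simp
  obtain ⟨A, hA⟩ : ∃ A : ι → Set Lab, A = fun i => {w | i ∈ T.rv B p w} := ⟨_, rfl⟩
  have hAm : ∀ i, MeasurableSet (A i) := by
    intro i
    rw [hA]
    exact measurableSet_rv hB T i
  have hAmem : ∀ i w, w ∈ A i ↔ i ∈ T.rv B p w := by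
    intro i w
    rw [hA]
    exact Iff.rfl
  have hPA : ∀ i, (P {w | i ∈ T.rv B p w}).toReal = ∫ w, In (A i) w ∂P := by
    intro i
    rw [in_int (hAm i), hA]
  -- the products
  obtain ⟨q, hq⟩ : ∃ q : ι → Lab → ℝ, q = fun i w => In (A i) w * g i w := ⟨_, rfl⟩
  have hqe : ∀ i w, q i w = In (A i) w * g i w := by
    intro i w
    rw [hq]
  have hqm : ∀ i, Measurable (q i) := by
    intro i
    rw [hq]
    exact (in_meas (hAm i)).mul (hg i)
  have hqb : ∀ i w, |q i w| ≤ C := by
    intro i w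
    rw [hqe, abs_mul]
    exact (mul_le_of_le_one_left (abs_nonneg _) (in_bd _ _)).trans (hg1 i w)
  -- (a)
  have ha : ∀ i, ∫ w, T.val B p w * g i w ∂P = ∫ w, T.val B p w * q i w ∂P := by
    intro i
    obtain ⟨h, hh⟩ : ∃ h : Lab → ℝ, h = fun w => T.val B p w * (1 - In (A i) w) := ⟨_, rfl⟩
    have hhm : Measurable h := by
      rw [hh]
      exact hvm.mul (measurable_const.sub (in_meas (hAm i)))
    have hhb : ∀ w, |h w| ≤ 1 := by
      intro w
      rw [hh]
      by_cases h1 : w ∈ A i
      · simp only [in_one h1, sub_self, mul_zero, abs_zero, zero_le_one]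
      · simp only [in_zero h1, sub_zero, mul_one]
        exact hvb w
    have hhc : ∀ w w' : Lab, (∀ v, v ∉ B i → w v = w' v) → h w = h w' := by
      intro w w' hw
      have h1 := rv_off (p := p) hd i hw T
      rw [hh]
      by_cases h2 : w ∈ A i
      · have h3 : w' ∈ A i := (hAmem i w').2 (h1.1.1 ((hAmem i w).1 h2))
        simp only [in_one h2, in_one h3, sub_self, mul_zero]
      · have h3 : w' ∉ A i := fun h4 => h2 ((hAmem i w).2 (h1.1.2 ((hAmem i w').1 h4)))
        simp only [in_zero h2, in_zero h3, sub_zero, mul_one]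
        exact h1.2 fun h4 => h2 ((hAmem i w).2 h4)
    have h0 : ∫ w, g i w * h w ∂P = 0 := by
      rw [indep_fun (S := B i) (hg i) hhm (hgB i) hhc, hg0 i, zero_mul]
    have h1 : ∀ w, T.val B p w * g i w = T.val B p w * q i w + g i w * h w := by
      intro w
      rw [hqe, hh]
      ring
    have h2 : (fun w => T.val B p w * g i w) =
        fun w => T.val B p w * q i w + g i w * h w := funext h1
    rw [h2, integral_add, h0, add_zero]
    · refine ibd (hvm.mul (hqm i)) C fun w => ?_
      rw [abs_mul]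
      exact (mul_le_of_le_one_left (abs_nonneg _) (hvb w)).trans (hqb i w)
    · refine ibd ((hg i).mul hhm) C fun w => ?_
      rw [abs_mul]
      exact (mul_le_of_le_one_right (abs_nonneg _) (hhb w)).trans (hg1 i w)
  -- (b)
  have hdiag : ∀ i, ∫ w, q i w * q i w ∂P =
      (P {w | i ∈ T.rv B p w}).toReal * ∫ w, g i w ^ 2 ∂P := by
    intro i
    have h1 : (fun w => q i w * q i w) = fun w => g i w ^ 2 * In (A i) w := by
      funext w
      rw [hqe]
      by_cases h2 : w ∈ A i
      · rw [in_one h2]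
        ring
      · rw [in_zero h2]
        ring
    rw [h1, hPA, mul_comm]
    refine indep_fun (S := B i) ((hg i).pow_const 2) (in_meas (hAm i)) ?_ ?_
    · intro w w' hw
      rw [hgB i w w' hw]
    · intro w w' hw
      refine in_congr ?_
      rw [hAmem, hAmem]
      exact (rv_off (p := p) hd i hw T).1
  have hhalf : ∀ i j, i ≠ j →
      ∫ w, g j w * (In {w | bef B p i j T w} w * g i w) ∂P = 0 := by
    intro i j hij
    have e := indep_fun (S := B j) (f := g j)
      (h := fun w => In {w | bef B p i j T w} w * g i w) (hg j)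
      ((in_meas (bef_meas hB i j T)).mul (hg i)) (hgB j) (by
        intro w w' hw
        rw [in_congr (A := {w | bef B p i j T w}) (bef_off (p := p) hd hij hw T),
          hgB i w w' fun v hv => hw v (Set.disjoint_left.1 (hd i j hij) hv)])
    rw [hg0 j, zero_mul] at e
    exact e
  have hoff : ∀ i j, i ≠ j → ∫ w, q i w * q j w ∂P = 0 := by
    intro i j hij
    have h1 : (fun w => q i w * q j w) = fun w =>
        g j w * (In {w | bef B p i j T w} w * g i w) +
          g i w * (In {w | bef B p j i T w} w * g j w) := by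
      funext w
      rw [hqe, hqe]
      have h2 := bef_iff (B := B) (p := p) hij T w
      by_cases h3 : bef B p i j T w
      · have h4 : ¬ bef B p j i T w := fun h5 => bef_excl hij T w h3 h5
        have h5 := h2.2 (Or.inl h3)
        rw [in_one ((hAmem i w).2 h5.1), in_one ((hAmem j w).2 h5.2),
          in_one (A := {w | bef B p i j T w}) h3, in_zero (A := {w | bef B p j i T w}) h4]
        ring
      · by_cases h4 : bef B p j i T w
        · have h5 := h2.2 (Or.inr h4)
          rw [in_one ((hAmem i w).2 h5.1), in_one ((hAmem j w).2 h5.2),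
            in_zero (A := {w | bef B p i j T w}) h3, in_one (A := {w | bef B p j i T w}) h4]
          ring
        · rw [in_zero (A := {w | bef B p i j T w}) h3, in_zero (A := {w | bef B p j i T w}) h4]
          by_cases h5 : w ∈ A i
          · have h6 : w ∉ A j := fun h7 => by
              rcases h2.1 ⟨(hAmem i w).1 h5, (hAmem j w).1 h7⟩ with h8 | h8
              · exact h3 h8
              · exact h4 h8
            rw [in_zero h6]
            ring
          · rw [in_zero h5]
            ring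
    have hi : ∀ i j, Integrable
        (fun w => g j w * (In {w | bef B p i j T w} w * g i w)) P := by
      intro i j
      refine ibd ((hg j).mul ((in_meas (bef_meas hB i j T)).mul (hg i))) (C * C) fun w => ?_
      rw [abs_mul, abs_mul]
      refine mul_le_mul (hg1 j w) ?_ (mul_nonneg (abs_nonneg _) (abs_nonneg _)) (hC i)
      exact (mul_le_of_le_one_left (abs_nonneg _) (in_bd _ _)).trans (hg1 i w)
    rw [h1, integral_add (hi i j) (hi j i), hhalf i j hij, hhalf j i hij.symm, add_zero]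
  -- the square of the sum
  obtain ⟨S, hS⟩ : ∃ S : Lab → ℝ, S = fun w => ∑ i, q i w := ⟨_, rfl⟩
  have hSm : Measurable S := by
    rw [hS]
    exact Finset.measurable_fun_sum _ fun i _ => hqm i
  obtain ⟨K, hK⟩ : ∃ K : ℝ, ∀ w, |S w| ≤ K := by
    refine ⟨∑ _i : ι, C, fun w => ?_⟩
    rw [hS]
    exact (Finset.abs_sum_le_sum_abs _ _).trans (Finset.sum_le_sum fun i _ => hqb i w)
  have hS2 : ∫ w, S w ^ 2 ∂P =
      ∑ i, (P {w | i ∈ T.rv B p w}).toReal * ∫ w, g i w ^ 2 ∂P := by
    have h1 : (fun w => S w ^ 2) = fun w => ∑ i, ∑ j, q i w * q j w := by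
      funext w
      rw [hS]
      simp only [pow_two, Finset.sum_mul_sum]
    have h2 : ∀ i j, Integrable (fun w => q i w * q j w) P := by
      intro i j
      refine ibd ((hqm i).mul (hqm j)) (C * C) fun w => ?_
      rw [abs_mul]
      exact mul_le_mul (hqb i w) (hqb j w) (abs_nonneg _) (hC i)
    rw [h1, integral_finsetSum]
    · refine Finset.sum_congr rfl fun i _ => ?_
      rw [integral_finsetSum]
      · rw [Finset.sum_eq_single i]
        · exact hdiag i
        · intro j _ hji
          exact hoff i j hji.symm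
        · intro h
          exact absurd (Finset.mem_univ i) h
      · intro j _
        exact h2 i j
    · intro i _
      exact integrable_finsetSum _ fun j _ => h2 i j
  -- the integral
  have hmain : ∫ w, T.val B p w * ∑ i, g i w ∂P = ∫ w, T.val B p w * S w ∂P := by
    have h1 : (fun w => T.val B p w * ∑ i, g i w) = fun w => ∑ i, T.val B p w * g i w := by
      funext w
      rw [Finset.mul_sum]
    have h2 : (fun w => T.val B p w * S w) = fun w => ∑ i, T.val B p w * q i w := by
      funext w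
      rw [hS]
      simp only [Finset.mul_sum]
    rw [h1, h2, integral_finsetSum, integral_finsetSum]
    · exact Finset.sum_congr rfl fun i _ => ha i
    · intro i _
      refine ibd (hvm.mul (hqm i)) C fun w => ?_
      rw [abs_mul]
      exact (mul_le_of_le_one_left (abs_nonneg _) (hvb w)).trans (hqb i w)
    · intro i _
      refine ibd (hvm.mul (hg i)) C fun w => ?_
      rw [abs_mul]
      exact (mul_le_of_le_one_left (abs_nonneg _) (hvb w)).trans (hg1 i w)
  have hSi : Integrable S P := ibd hSm K hK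
  have hSai : Integrable (fun w => |S w|) P := hSi.abs
  have hSsq : Integrable (fun w => S w ^ 2) P := by
    refine ibd (hSm.pow_const 2) (K ^ 2) fun w => ?_
    rw [abs_pow]
    exact pow_le_pow_left₀ (abs_nonneg _) (hK w) 2
  rw [hmain, ← hS2]
  have h1 : |∫ w, T.val B p w * S w ∂P| ≤ ∫ w, |S w| ∂P := by
    refine abs_integral_le_integral_abs.trans ?_
    refine integral_mono ?_ hSai ?_
    · refine ibd (hvm.mul hSm).abs K fun w => ?_
      rw [abs_abs, abs_mul]
      exact (mul_le_of_le_one_left (abs_nonneg _) (hvb w)).trans (hK w)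
    · intro w
      simp only
      rw [abs_mul]
      exact mul_le_of_le_one_left (abs_nonneg _) (hvb w)
  refine h1.trans (Real.le_sqrt_of_sq_le ?_)
  obtain ⟨a, ha'⟩ : ∃ a : ℝ, a = ∫ w, |S w| ∂P := ⟨_, rfl⟩
  have h2 : 0 ≤ ∫ w, (|S w| - a) ^ 2 ∂P := integral_nonneg fun w => sq_nonneg _
  have h3 : (fun w => (|S w| - a) ^ 2) = fun w => S w ^ 2 - (2 * a * |S w| - a ^ 2) := by
    funext w
    rw [sub_sq, sq_abs]
    ring
  have h4 : Integrable (fun w => 2 * a * |S w| - a ^ 2) P :=
    (hSai.const_mul _).sub (integrable_const _)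
  rw [h3, integral_sub hSsq h4, integral_sub (hSai.const_mul _) (integrable_const _),
    integral_const_mul, ← ha', integral_const, probReal_univ, one_smul] at h2
  rw [← ha']
  nlinarith

theorem osss_lin_cond [Fintype ι] {M Q : Set V} (hB : ∀ i, (B i).Finite)
    (hd : ∀ i j, i ≠ j → Disjoint (B i) (B j)) (hM : ∀ i, B i ⊆ M)
    (hQ : Q.Finite) (F : Set V → Prop) (T : Set V → Tr ι) (hT : ∀ o, (T o).Fresh ∅)
    (hval : ∀ w0 w : Lab,
      ((T (Op p w0 ∩ (Q \ M))).val B p w = 1 ↔ F (Op p (mix M w0 w) ∩ Q)))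
    (D : ι → ℝ) (hD : ∀ o i, (P {w | i ∈ (T o).rv B p w}).toReal ≤ D i)
    {g : ι → Lab → ℝ} {C : ℝ} (hg : ∀ i, Measurable (g i)) (hg1 : ∀ i w, |g i w| ≤ C)
    (hgB : ∀ i (w w' : Lab), (∀ v ∈ B i, w v = w' v) → g i w = g i w')
    (hg0 : ∀ i, ∫ w, g i w ∂P = 0) :
    |∫ w, ({w : Lab | F (Op p w ∩ Q)}.indicator (fun _ => (1 : ℝ)) w) * ∑ i, g i w ∂P| ≤
      Real.sqrt (∑ i, D i * ∫ w, g i w ^ 2 ∂P) := by
  classical
  have hC : ∀ i, 0 ≤ C := fun i => (abs_nonneg _).trans (hg1 i (fun _ => 0))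
  obtain ⟨φ, hφ⟩ : ∃ φ : Lab → ℝ, φ = In {w | F (Op p w ∩ Q)} := ⟨_, rfl⟩
  have hφm : Measurable φ := by
    rw [hφ]
    exact in_meas (ev_op hQ p F).1
  have hφb : ∀ w, |φ w| ≤ 1 := by
    intro w
    rw [hφ]
    exact in_bd _ _
  obtain ⟨G, hG⟩ : ∃ G : Lab → ℝ, G = fun w => ∑ i, g i w := ⟨_, rfl⟩
  have hGm : Measurable G := by
    rw [hG]
    exact Finset.measurable_fun_sum _ fun i _ => hg i
  obtain ⟨K, hK⟩ : ∃ K : ℝ, ∀ w, |G w| ≤ K := by
    refine ⟨∑ _i : ι, C, fun w => ?_⟩
    rw [hG]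
    exact (Finset.abs_sum_le_sum_abs _ _).trans (Finset.sum_le_sum fun i _ => hg1 i w)
  have hGM : ∀ w0 w, G (mix M w0 w) = G w := by
    intro w0 w
    rw [hG]
    refine Finset.sum_congr rfl fun i _ => hgB i _ _ fun v hv => ?_
    simp [mix, hM i hv]
  have hφM : ∀ w0 w, φ (mix M w0 w) = (T (Op p w0 ∩ (Q \ M))).val B p w := by
    intro w0 w
    rw [hφ]
    have h1 := hval w0 w
    rcases val_bound (B := B) (p := p) (T (Op p w0 ∩ (Q \ M))) w with h2 | h2
    · rw [h2]
      refine in_zero fun h3 => ?_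
      have h4 := h1.2 h3
      rw [h2] at h4
      exact zero_ne_one h4
    · rw [h2]
      exact in_one (h1.1 h2)
  have e0 : ∫ w, ({w : Lab | F (Op p w ∩ Q)}.indicator (fun _ => (1 : ℝ)) w) *
      ∑ i, g i w ∂P = ∫ w, φ w * G w ∂P := by
    rw [hφ, hG]
    rfl
  have hm : Measurable fun w => φ w * G w := hφm.mul hGm
  have hb : ∀ w, |φ w * G w| ≤ K := by
    intro w
    rw [abs_mul]
    exact (mul_le_of_le_one_left (abs_nonneg _) (hφb w)).trans (hK w)
  have e2 : ∫ z, φ (mix M z.1 z.2) * G (mix M z.1 z.2) ∂(P.prod P) =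
      ∫ w0, ∫ w, φ (mix M w0 w) * G (mix M w0 w) ∂P ∂P :=
    integral_prod _ (ibd (hm.comp (measurable_mix M)) K fun z => hb _)
  rw [e0, int_mix2 M hm, e2]
  have h5 : ∀ w0, |∫ w, φ (mix M w0 w) * G (mix M w0 w) ∂P| ≤
      Real.sqrt (∑ i, D i * ∫ w, g i w ^ 2 ∂P) := by
    intro w0
    have e1 : (fun w => φ (mix M w0 w) * G (mix M w0 w)) =
        fun w => (T (Op p w0 ∩ (Q \ M))).val B p w * ∑ i, g i w := by
      funext w
      rw [hφM, hGM, hG]
    rw [e1]
    refine (osss_lin hB hd (hT _) hg hg1 hgB hg0).trans (Real.sqrt_le_sqrt ?_)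
    exact Finset.sum_le_sum fun i _ =>
      mul_le_mul_of_nonneg_right (hD _ i) (integral_nonneg fun w => sq_nonneg _)
  have h6 := norm_integral_le_of_norm_le_const (μ := P)
    (f := fun w0 => ∫ w, φ (mix M w0 w) * G (mix M w0 w) ∂P)
    (C := Real.sqrt (∑ i, D i * ∫ w, g i w ^ 2 ∂P)) (Filter.Eventually.of_forall h5)
  rw [probReal_univ, mul_one] at h6
  exact h6

end Pool.Agent.TriPerc
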