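import Pool.Agent.TriPerc.FoneB
import Pool.Agent.TriPerc.OsssB

/-!
# The four-arm exponent is larger than one

`xf_main`: `x 2 (11 K s) ≤ C K ^ (-1 - a) x 2 (4 s)` for `1 ≤ s`, `16 ≤ K` (`x = xf (1/2)`).
PROOF.  Let `n = 10 s + 1`, `H = 10 K n`, blocks `blk n i`, `i : Ix K`, `M = MKn n K`,
`Q = Par (-H) H (-H) H`, `A1 = {v | v.1 ≤ -H}`, `A2 = {v | H ≤ v.1}` (disjoint from `M`), the trees of
`expl`; `F S = Join S A1 A2`, so `F (Op p w ∩ Q)` is `PH (Op p w) (-H) H (-H) H`.  Let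
`z i = cn n i + (5 s, 5 s)`; `Ball (z i) (5 s) ⊆ blk n i`.  Let
`g i = ∑ v ∈ Ball (z i) s, hv (4 s) v` if `nrm i ≤ K / 2` and `g i = 0` otherwise.
`D i = C (2 / (K - 1 - nrm i)) ^ a ≤ C' K ^ (-a)` for `nrm i ≤ K / 2 ≤ K - 4` (`rv_arm`, `one_arm_up`) and
`D i = 1` otherwise.  `osss_lin_cond`, `sec_mom`: the integral of `1 (PH) * ∑ g i` is at most
`√ (C'' K ^ 2 K ^ (-a)) l ^ 2 x 2 l`, `l = 4 s`; the number of indices is at most `(2 K + 1) ^ 2`.
`cov_low` with `q = K n`: it is at least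
`card {i | nrm i ≤ K / 2} * card (Ball 0 s) * c x 2 (K n) ≥ c' K ^ 2 s ^ 2 x 2 (K n)`.
So `x 2 (K n) ≤ C K ^ (-1 - a / 2) x 2 l`, and `K n ≤ 11 K s`.

`xf_one`: `xf (1/2) n m ≤ C (n / m) ^ (1 + a)`.  PROOF.  For `n ≥ 4` let `s = n / 4`, `l = 4 s ∈ (n - 4, n]`,
`K = m / (11 s)`.  If `K < 16` then `m ≤ 176 s ≤ 44 n`, and the bound is trivial (`xf ≤ 1`).  Otherwise
`11 K s ≤ m` and `K ≥ m / (22 s) ≥ m / (6 n)`.  `Qm`: `x 2 n * x n m ≤ C x 2 m ≤ C x 2 (11 K s) ≤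
C C' K ^ (-1 - a) x 2 l` and `c0 x 2 l ≤ x l n * x 2 l ≤ C x 2 n`; `x 2 n > 0` (`grow`).  For `n < 4`
use `xf_anti` with `n' = 4` (or `m < 4`: trivial).
-/

namespace Pool.Agent.TriPerc

open MeasureTheory Set

private theorem nle {v : V} {m : ℤ} :
    nrm v ≤ m ↔ |v.1| ≤ m ∧ |v.2| ≤ m ∧ |v.1 + v.2| ≤ m := by
  unfold nrm
  simp only [max_le_iff, and_assoc]

private theorem card_up {z : V} {s : ℤ} (hs : 0 ≤ s) :
    (((finite_ball z s).toFinset.card : ℕ) : ℝ) ≤ (2 * (s : ℝ) + 1) ^ 2 := by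
  obtain ⟨k, rfl⟩ : ∃ k : ℕ, s = k := ⟨s.toNat, by omega⟩
  have h : (finite_ball z (k : ℤ)).toFinset ⊆
      Finset.Icc (z.1 - k) (z.1 + k) ×ˢ Finset.Icc (z.2 - k) (z.2 + k) := by
    intro v hv
    have hv0 : v ∈ Ball z (k : ℤ) := (Set.Finite.mem_toFinset _).1 hv
    have hv' : nrm (v - z) ≤ k := hv0
    obtain ⟨h1, h2, -⟩ := nle.1 hv'
    rw [abs_le] at h1 h2
    have e1 : (v - z).1 = v.1 - z.1 := rfl
    have e2 : (v - z).2 = v.2 - z.2 := rfl
    rw [Finset.mem_product, Finset.mem_Icc, Finset.mem_Icc]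
    exact ⟨⟨by omega, by omega⟩, ⟨by omega, by omega⟩⟩
  have h1 := Finset.card_le_card h
  rw [Finset.card_product, Int.card_Icc, Int.card_Icc] at h1
  have e1 : (z.1 + (k : ℤ) + 1 - (z.1 - k)).toNat = 2 * k + 1 := by omega
  have e2 : (z.2 + (k : ℤ) + 1 - (z.2 - k)).toNat = 2 * k + 1 := by omega
  rw [e1, e2] at h1
  have h2 : (((finite_ball z (k : ℤ)).toFinset.card : ℕ) : ℝ) ≤
      (((2 * k + 1) * (2 * k + 1) : ℕ) : ℝ) := Nat.cast_le.2 h1
  refine h2.trans (le_of_eq ?_)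
  push_cast
  ring

private theorem card_low {z : V} {s : ℤ} (hs : 0 ≤ s) :
    (s : ℝ) ^ 2 ≤ (((finite_ball z s).toFinset.card : ℕ) : ℝ) := by
  obtain ⟨k, rfl⟩ : ∃ k : ℕ, s = k := ⟨s.toNat, by omega⟩
  have h : (Finset.Icc (0 : ℤ) k ×ˢ Finset.Icc (-(k : ℤ)) 0).card ≤
      (finite_ball z (k : ℤ)).toFinset.card := by
    refine Finset.card_le_card_of_injOn (fun u : ℤ × ℤ => z + u) ?_ ?_
    · intro u hu
      rw [Finset.mem_coe, Finset.mem_product, Finset.mem_Icc, Finset.mem_Icc] at hu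
      rw [Finset.mem_coe, Set.Finite.mem_toFinset]
      change nrm (z + u - z) ≤ k
      rw [add_sub_cancel_left, nle]
      exact ⟨abs_le.2 ⟨by omega, by omega⟩, abs_le.2 ⟨by omega, by omega⟩,
        abs_le.2 ⟨by omega, by omega⟩⟩
    · intro u _ u' _ h
      exact add_left_cancel h
  rw [Finset.card_product, Int.card_Icc, Int.card_Icc] at h
  have e1 : ((k : ℤ) + 1 - 0).toNat = k + 1 := by omega
  have e2 : ((0 : ℤ) + 1 - -(k : ℤ)).toNat = k + 1 := by omega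
  rw [e1, e2] at h
  have h2 : (((k + 1) * (k + 1) : ℕ) : ℝ) ≤
      (((finite_ball z (k : ℤ)).toFinset.card : ℕ) : ℝ) := Nat.cast_le.2 h
  refine le_trans ?_ h2
  have h3 : (0 : ℝ) ≤ k := Nat.cast_nonneg k
  push_cast
  nlinarith

private theorem card_half {K : ℤ} (hK : 0 ≤ K) : ((K : ℝ) / 4) ^ 2 ≤
    ((((finite_ball 0 K).toFinset.filter fun i => 2 * nrm i ≤ K).card : ℕ) : ℝ) := by
  obtain ⟨k, hk1, hk2⟩ : ∃ k : ℕ, 4 * (k : ℤ) ≤ K ∧ K < 4 * (k + 1) :=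
    ⟨(K / 4).toNat, by omega, by omega⟩
  have h : (Finset.Icc (0 : ℤ) k ×ˢ Finset.Icc (0 : ℤ) k).card ≤
      ((finite_ball 0 K).toFinset.filter fun i => 2 * nrm i ≤ K).card := by
    refine Finset.card_le_card_of_injOn (fun u : ℤ × ℤ => u) ?_ fun u _ u' _ h => h
    intro u hu
    rw [Finset.mem_coe, Finset.mem_product, Finset.mem_Icc, Finset.mem_Icc] at hu
    have h1 : nrm u ≤ 2 * k := by
      rw [nle]
      exact ⟨abs_le.2 ⟨by omega, by omega⟩, abs_le.2 ⟨by omega, by omega⟩,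
        abs_le.2 ⟨by omega, by omega⟩⟩
    change u ∈ ((finite_ball 0 K).toFinset.filter fun i => 2 * nrm i ≤ K)
    rw [Finset.mem_filter, mem_ix]
    exact ⟨by omega, by omega⟩
  rw [Finset.card_product, Int.card_Icc] at h
  have e1 : ((k : ℤ) + 1 - 0).toNat = k + 1 := by omega
  rw [e1] at h
  have h2 : (((k + 1) * (k + 1) : ℕ) : ℝ) ≤
      ((((finite_ball 0 K).toFinset.filter fun i => 2 * nrm i ≤ K).card : ℕ) : ℝ) :=
    Nat.cast_le.2 h
  refine le_trans ?_ h2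
  have h3 : (0 : ℝ) ≤ K := by exact_mod_cast hK
  have h4 : (K : ℝ) < 4 * (k + 1) := by exact_mod_cast hk2
  push_cast
  nlinarith

private theorem ball_blk {s : ℤ} {i v u : V}
    (hv : nrm (v - (cn (10 * s + 1) i + (5 * s, 5 * s))) ≤ s) (hu : nrm (u - v) ≤ 4 * s) :
    u ∈ blk (10 * s + 1) i := by
  obtain ⟨h1, h2, -⟩ := nle.1 hv
  obtain ⟨h3, h4, -⟩ := nle.1 hu
  rw [abs_le] at h1 h2 h3 h4
  have e1 : (v - (cn (10 * s + 1) i + (5 * s, 5 * s))).1 =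
    v.1 - ((10 * s + 1) * i.1 + 5 * s) := rfl
  have e2 : (v - (cn (10 * s + 1) i + (5 * s, 5 * s))).2 =
    v.2 - ((10 * s + 1) * i.2 + 5 * s) := rfl
  have e3 : (u - v).1 = u.1 - v.1 := rfl
  have e4 : (u - v).2 = u.2 - v.2 := rfl
  exact ⟨by omega, by omega, by omega, by omega⟩

/-- the function of the block `i` -/
private noncomputable def fon (s K : ℤ) (i : V) (w : Lab) : ℝ :=
  if 2 * nrm i ≤ K then
    ∑ v ∈ (finite_ball (cn (10 * s + 1) i + (5 * s, 5 * s)) s).toFinset, hv (4 * s) v w else 0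

private theorem fon_pos {s K : ℤ} {i : V} (h : 2 * nrm i ≤ K) (w : Lab) : fon s K i w =
    ∑ v ∈ (finite_ball (cn (10 * s + 1) i + (5 * s, 5 * s)) s).toFinset, hv (4 * s) v w :=
  if_pos h

private theorem fon_neg {s K : ℤ} {i : V} (h : ¬ 2 * nrm i ≤ K) (w : Lab) : fon s K i w = 0 :=
  if_neg h

private theorem int_hv (l : ℤ) (v : V) : Integrable (hv l v) P :=
  Integrable.of_bound (measurable_hv l v).aestronglyMeasurable 1
    (Filter.Eventually.of_forall fun w => hv_bound l v w)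

private theorem fon_meas (s K : ℤ) (i : V) : Measurable (fon s K i) := by
  by_cases h : 2 * nrm i ≤ K
  · have e : fon s K i = fun w => ∑ v ∈ (finite_ball (cn (10 * s + 1) i +
        (5 * s, 5 * s)) s).toFinset, hv (4 * s) v w := funext fun w => fon_pos h w
    rw [e]
    exact Finset.measurable_fun_sum _ fun v _ => measurable_hv _ _
  · have e : fon s K i = fun _ => 0 := funext fun w => fon_neg h w
    rw [e]
    exact measurable_const

private theorem fon_bd {s K : ℤ} (hs : 0 ≤ s) (i : V) (w : Lab) :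
    |fon s K i w| ≤ (2 * (s : ℝ) + 1) ^ 2 := by
  by_cases h : 2 * nrm i ≤ K
  · rw [fon_pos h]
    refine (Finset.abs_sum_le_sum_abs _ _).trans ?_
    refine (Finset.sum_le_sum fun v _ => hv_bound (4 * s) v w).trans ?_
    rw [Finset.sum_const, nsmul_eq_mul, mul_one]
    exact card_up hs
  · rw [fon_neg h, abs_zero]
    positivity

private theorem fon_congr {s K : ℤ} (hs : 0 ≤ s) (i : V) (w w' : Lab)
    (h : ∀ v ∈ blk (10 * s + 1) i, w v = w' v) : fon s K i w = fon s K i w' := by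
  by_cases hi : 2 * nrm i ≤ K
  · rw [fon_pos hi, fon_pos hi]
    refine Finset.sum_congr rfl fun v hv => hv_congr (by omega) w w' fun u hu => h u ?_
    have hv0 : v ∈ Ball (cn (10 * s + 1) i + (5 * s, 5 * s)) s :=
      (Set.Finite.mem_toFinset _).1 hv
    exact ball_blk hv0 hu
  · rw [fon_neg hi, fon_neg hi]

private theorem fon_mean (s K : ℤ) (i : V) : ∫ w, fon s K i w ∂P = 0 := by
  by_cases h : 2 * nrm i ≤ K
  · simp only [fon_pos h]
    rw [integral_finsetSum _ fun v _ => int_hv _ _]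
    refine Finset.sum_eq_zero fun v _ => ?_
    have h1 := hv_mul (l := 4 * s) (v := v) (f := fun _ => 1) measurable_const
      (fun _ => by simp) (fun _ _ _ => rfl)
    simpa using h1
  · simp only [fon_neg h, integral_zero]

private theorem fon_low {c1 : ℝ} (hc1 : 0 < c1) (hcov : ∀ (q l : ℤ) (v : V), 8 ≤ q → 2 ≤ l →
    l ≤ q → |v.1| ≤ 6 * q → |v.2| ≤ 6 * q →
    c1 * xf (1 / 2) 2 q ≤ ∫ w, {w : Lab | PH (Op (1 / 2) w) (-(10 * q)) (10 * q) (-(10 * q))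
      (10 * q)}.indicator (fun _ => (1 : ℝ)) w * hv l v w ∂P) {s K : ℤ} (hs : 1 ≤ s)
    (hK : 16 ≤ K) :
    ((K : ℝ) / 4) ^ 2 * ((s : ℝ) ^ 2 * (c1 * xf (1 / 2) 2 (K * (10 * s + 1)))) ≤
      ∫ w, {w : Lab | PH (Op (1 / 2) w) (-(10 * (K * (10 * s + 1)))) (10 * (K * (10 * s + 1)))
        (-(10 * (K * (10 * s + 1)))) (10 * (K * (10 * s + 1)))}.indicator (fun _ => (1 : ℝ)) w *
        ∑ i : Ix K, fon s K i.1 w ∂P := by
  obtain ⟨q, hq⟩ : ∃ q : ℤ, q = K * (10 * s + 1) := ⟨_, rfl⟩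
  have hq1 : 16 * (10 * s + 1) ≤ q := by
    rw [hq]
    exact mul_le_mul_of_nonneg_right hK (by omega)
  rw [← hq]
  have hmS : MeasurableSet {w : Lab | PH (Op (1 / 2) w) (-(10 * q)) (10 * q) (-(10 * q))
      (10 * q)} :=
    (ev_op (finite_par (-(10 * q)) (10 * q) (-(10 * q)) (10 * q)) (1 / 2)
      (fun O => Join O {v | v.1 ≤ -(10 * q)} {v | 10 * q ≤ v.1})).1
  obtain ⟨φ, hφ⟩ : ∃ φ : Lab → ℝ, φ = {w : Lab | PH (Op (1 / 2) w) (-(10 * q)) (10 * q)
      (-(10 * q)) (10 * q)}.indicator (fun _ => (1 : ℝ)) := ⟨_, rfl⟩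
  have hcov' : ∀ v : V, |v.1| ≤ 6 * q → |v.2| ≤ 6 * q →
      c1 * xf (1 / 2) 2 q ≤ ∫ w, φ w * hv (4 * s) v w ∂P := by
    intro v h1 h2
    rw [hφ]
    exact hcov q (4 * s) v (by omega) (by omega) (by omega) h1 h2
  rw [← hφ]
  have hφm : Measurable φ := by
    rw [hφ]
    exact measurable_const.indicator hmS
  have hφ1 : ∀ w, |φ w| ≤ 1 := by
    intro w
    rw [hφ]
    by_cases h : w ∈ {w : Lab | PH (Op (1 / 2) w) (-(10 * q)) (10 * q)
      (-(10 * q)) (10 * q)}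
    · rw [Set.indicator_of_mem h, abs_one]
    · rw [Set.indicator_of_notMem h, abs_zero]
      exact zero_le_one
  have hI1 : ∀ v : V, Integrable (fun w => φ w * hv (4 * s) v w) P := fun v =>
    Integrable.of_bound (hφm.mul (measurable_hv _ _)).aestronglyMeasurable 1
      (Filter.Eventually.of_forall fun w => by
        rw [Real.norm_eq_abs, abs_mul]
        exact mul_le_one₀ (hφ1 w) (abs_nonneg _) (hv_bound _ _ _))
  have hI2 : ∀ i : V, Integrable (fun w => φ w * fon s K i w) P := fun i =>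
    Integrable.of_bound (hφm.mul (fon_meas s K i)).aestronglyMeasurable
      (1 * (2 * (s : ℝ) + 1) ^ 2)
      (Filter.Eventually.of_forall fun w => by
        rw [Real.norm_eq_abs, abs_mul]
        exact mul_le_mul (hφ1 w) (fon_bd (by omega) i w) (abs_nonneg _) zero_le_one)
  have hX : 0 ≤ c1 * xf (1 / 2) 2 q := mul_nonneg hc1.le xf_nonneg
  have e1 : ∫ w, φ w * ∑ i : Ix K, fon s K i.1 w ∂P =
      ∑ i : Ix K, ∫ w, φ w * fon s K i.1 w ∂P := by
    rw [← integral_finsetSum _ fun i _ => hI2 i.1]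
    refine integral_congr_ae (Filter.Eventually.of_forall fun w => ?_)
    exact Finset.mul_sum _ _ _
  rw [e1]
  have e2 : ∀ i : Ix K, (if 2 * nrm i.1 ≤ K then (s : ℝ) ^ 2 * (c1 * xf (1 / 2) 2 q) else 0) ≤
      ∫ w, φ w * fon s K i.1 w ∂P := by
    intro i
    split_ifs with h
    · simp only [fon_pos h, Finset.mul_sum]
      rw [integral_finsetSum _ fun v _ => hI1 v]
      have h1 : ∀ v ∈ (finite_ball (cn (10 * s + 1) i.1 + (5 * s, 5 * s)) s).toFinset,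
          c1 * xf (1 / 2) 2 q ≤ ∫ w, φ w * hv (4 * s) v w ∂P := by
        intro v hv
        have hv0 : v ∈ Ball (cn (10 * s + 1) i.1 + (5 * s, 5 * s)) s :=
          (Set.Finite.mem_toFinset _).1 hv
        have hv' : nrm (v - (cn (10 * s + 1) i.1 + (5 * s, 5 * s))) ≤ s := hv0
        obtain ⟨h1, h2, -⟩ := nle.1 hv'
        obtain ⟨h3, h4, -⟩ := nle.1 (le_refl (nrm i.1))
        have e1 : (v - (cn (10 * s + 1) i.1 + (5 * s, 5 * s))).1 =
          v.1 - ((10 * s + 1) * i.1.1 + 5 * s) := rfl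
        have e2 : (v - (cn (10 * s + 1) i.1 + (5 * s, 5 * s))).2 =
          v.2 - ((10 * s + 1) * i.1.2 + 5 * s) := rfl
        have e3 : |(10 * s + 1) * i.1.1| ≤ q := by
          rw [abs_mul, abs_of_nonneg (by omega : 0 ≤ 10 * s + 1), hq, mul_comm K]
          exact mul_le_mul_of_nonneg_left (by have := nrm_nonneg i.1; omega) (by omega)
        have e4 : |(10 * s + 1) * i.1.2| ≤ q := by
          rw [abs_mul, abs_of_nonneg (by omega : 0 ≤ 10 * s + 1), hq, mul_comm K]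
          exact mul_le_mul_of_nonneg_left (by have := nrm_nonneg i.1; omega) (by omega)
        rw [abs_le] at h1 h2 e3 e4
        exact hcov' v (abs_le.2 ⟨by omega, by omega⟩) (abs_le.2 ⟨by omega, by omega⟩)
      refine le_trans ?_ (Finset.sum_le_sum h1)
      rw [Finset.sum_const, nsmul_eq_mul]
      exact mul_le_mul_of_nonneg_right (card_low (by omega)) hX
    · simp only [fon_neg h, mul_zero, integral_zero]
      exact le_refl _
  refine le_trans ?_ (Finset.sum_le_sum fun i _ => e2 i)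
  rw [Finset.sum_coe_sort (finite_ball 0 K).toFinset
    (fun i => if 2 * nrm i ≤ K then (s : ℝ) ^ 2 * (c1 * xf (1 / 2) 2 q) else 0),
    ← Finset.sum_filter, Finset.sum_const, nsmul_eq_mul]
  exact mul_le_mul_of_nonneg_right (card_half (by omega)) (mul_nonneg (sq_nonneg _) hX)

private theorem fon_up {c C0 a0 Cs : ℝ} (hR : ∀ N : ℤ, Rsw c (1 / 2) N) (hC0 : 0 < C0)
    (ha0 : 0 < a0) (hCs : 0 < Cs)
    (hup : ∀ (p : ℝ) (N : ℤ), Rsw c p N → ∀ (z : V) (n m : ℤ), 1 ≤ n → n ≤ m → m ≤ N →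
      (P {w | Arm (Op p w) z n m}).toReal ≤ C0 * ((n : ℝ) / m) ^ a0 ∧
      (P {w | Arm (Cl p w) z n m}).toReal ≤ C0 * ((n : ℝ) / m) ^ a0)
    (hsec : ∀ (s : ℤ) (z : V), 1 ≤ s →
      ∫ w, (∑ v ∈ (finite_ball z s).toFinset, hv (4 * s) v w) ^ 2 ∂P ≤
        Cs * (((4 * s : ℤ) : ℝ) ^ 2 * xf (1 / 2) 2 (4 * s)) ^ 2) {s K : ℤ} (hs : 1 ≤ s)
    (hK : 16 ≤ K) :
    ∫ w, {w : Lab | PH (Op (1 / 2) w) (-(10 * (K * (10 * s + 1)))) (10 * (K * (10 * s + 1)))
        (-(10 * (K * (10 * s + 1)))) (10 * (K * (10 * s + 1)))}.indicator (fun _ => (1 : ℝ)) w *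
        ∑ i : Ix K, fon s K i.1 w ∂P ≤
      Real.sqrt ((2 * (K : ℝ) + 1) ^ 2 * (C0 * (16 / 3) ^ a0 * (K : ℝ) ^ (-a0) *
        (Cs * (((4 * s : ℤ) : ℝ) ^ 2 * xf (1 / 2) 2 (4 * s)) ^ 2))) := by
  have hK0 : (16 : ℝ) ≤ K := by exact_mod_cast hK
  obtain ⟨n, hn⟩ : ∃ n : ℤ, n = 10 * s + 1 := ⟨_, rfl⟩
  have hn1 : 1 ≤ n := by omega
  obtain ⟨H, hH⟩ : ∃ H : ℤ, H = 10 * (K * (10 * s + 1)) := ⟨_, rfl⟩
  have hHn : H = 10 * (K * n) := by rw [hH, hn]
  rw [← hH]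
  have hix : ∀ i : Ix K, nrm i.1 ≤ K := fun i => mem_ix.1 i.2
  have hA : Disjoint {v : V | v.1 ≤ -H} (MKn n K) := by
    rw [Set.disjoint_left]
    intro v hv hvM
    obtain ⟨i, hi⟩ := Set.mem_iUnion.1 hvM
    have h1 := blk_nrm hi
    have h2 := nrm_cn hn1 i.1
    have h3 := nrm_add (v - cn n i.1) (cn n i.1)
    rw [sub_add_cancel] at h3
    have h4 := (nle.1 (le_refl (nrm v))).1
    have h5 := neg_le_abs v.1
    have h6 : n * nrm i.1 ≤ K * n := by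
      rw [mul_comm]
      exact mul_le_mul_of_nonneg_right (hix i) (by omega)
    have h7 : n ≤ K * n := le_mul_of_one_le_left (by omega) (by omega)
    have h8 : v.1 ≤ -H := hv
    omega
  obtain ⟨T, hT, hval, hrv⟩ := expl (ι := Ix K) (B := fun i => blk n i.1) (M := MKn n K)
    (Q := Par (-H) H (-H) H) (A1 := {v | v.1 ≤ -H}) (A2 := {v | H ≤ v.1}) (p := 1 / 2)
    (fun i j hij => blk_disj hn1 fun h => hij (Subtype.ext h)) rfl hA
  obtain ⟨D, hD⟩ : ∃ D : Ix K → ℝ, D = fun i => if 2 * nrm i.1 ≤ K then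
      C0 * (16 / 3) ^ a0 * (K : ℝ) ^ (-a0) else 1 := ⟨_, rfl⟩
  have hDb : ∀ o (i : Ix K), (P {w | i ∈ (T o).rv (fun i => blk n i.1) (1 / 2) w}).toReal ≤
      D i := by
    intro o i
    rw [hD]
    change _ ≤ (if 2 * nrm i.1 ≤ K then C0 * (16 / 3) ^ a0 * (K : ℝ) ^ (-a0) else 1)
    split_ifs with h
    · have h1 : {w | i ∈ (T o).rv (fun i => blk n i.1) (1 / 2) w} ⊆
          {w | Arm (Op (1 / 2) w) (cn n i.1) (2 * n - 1) (n * (K - 1 - nrm i.1))} := by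
        intro w hw
        obtain ⟨x, hx, y, hxy, hy⟩ := hrv o w i hw
        exact rv_arm hn1 (by omega) hx hxy hy
      have hn0 := nrm_nonneg i.1
      have h2 : (P {w | i ∈ (T o).rv (fun i => blk n i.1) (1 / 2) w}).toReal ≤
          (P {w | Arm (Op (1 / 2) w) (cn n i.1) (2 * n - 1)
            (n * (K - 1 - nrm i.1))}).toReal :=
        ENNReal.toReal_mono (measure_ne_top P _) (measure_mono h1)
      have h3 : n * 3 ≤ n * (K - 1 - nrm i.1) :=
        mul_le_mul_of_nonneg_left (by omega) (by omega)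
      have h6 := (hup (1 / 2) (n * (K - 1 - nrm i.1)) (hR _) (cn n i.1) (2 * n - 1)
        (n * (K - 1 - nrm i.1)) (by omega) (by omega) le_rfl).1
      refine h2.trans (h6.trans ?_)
      have hnR : (1 : ℝ) ≤ n := by exact_mod_cast hn1
      have hdR : 3 * (K : ℝ) / 8 ≤ (K : ℝ) - 1 - (nrm i.1 : ℝ) := by
        have : 2 * (nrm i.1 : ℝ) ≤ (K : ℝ) := by exact_mod_cast h
        linarith
      have hcast : (((2 * n - 1 : ℤ)) : ℝ) / ((n * (K - 1 - nrm i.1) : ℤ) : ℝ) =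
          (2 * (n : ℝ) - 1) / ((n : ℝ) * ((K : ℝ) - 1 - (nrm i.1 : ℝ))) := by
        push_cast
        ring
      rw [hcast]
      have hd0 : 0 < (K : ℝ) - 1 - (nrm i.1 : ℝ) := by linarith
      have hr0 : 0 ≤ (2 * (n : ℝ) - 1) / ((n : ℝ) * ((K : ℝ) - 1 - (nrm i.1 : ℝ))) :=
        (div_pos (by linarith) (mul_pos (by linarith) hd0)).le
      have hr2 : (2 * (n : ℝ) - 1) / ((n : ℝ) * ((K : ℝ) - 1 - (nrm i.1 : ℝ))) ≤
          16 / 3 * (K : ℝ)⁻¹ := by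
        rw [← div_eq_mul_inv, div_div, div_le_div_iff₀ (mul_pos (by linarith) hd0)
          (by linarith)]
        have h7 : (n : ℝ) * (3 * (K : ℝ) / 8) ≤ n * ((K : ℝ) - 1 - (nrm i.1 : ℝ)) :=
          mul_le_mul_of_nonneg_left hdR (by linarith)
        nlinarith
      have h8 : ((2 * (n : ℝ) - 1) / ((n : ℝ) * ((K : ℝ) - 1 - (nrm i.1 : ℝ)))) ^ a0 ≤
          (16 / 3 * (K : ℝ)⁻¹) ^ a0 := Real.rpow_le_rpow hr0 hr2 ha0.le
      have h9 : (16 / 3 * (K : ℝ)⁻¹) ^ a0 = (16 / 3) ^ a0 * (K : ℝ) ^ (-a0) := by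
        rw [Real.mul_rpow (by norm_num) (by positivity), Real.rpow_neg (by linarith),
          Real.inv_rpow (by linarith)]
      rw [h9] at h8
      rw [mul_assoc]
      exact mul_le_mul_of_nonneg_left h8 hC0.le
    · exact ENNReal.toReal_le_of_le_ofReal (by norm_num) (by simpa using prob_le_one)
  have hmain := osss_lin_cond (ι := Ix K) (B := fun i => blk n i.1) (M := MKn n K)
    (Q := Par (-H) H (-H) H) (p := 1 / 2)
    (fun i => blk_fin n i.1) (fun i j hij => blk_disj hn1 fun h => hij (Subtype.ext h))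
    (fun i => Set.subset_iUnion (fun i : Ix K => blk n i.1) i) (finite_par _ _ _ _)
    (fun S => Join S {v | v.1 ≤ -H} {v | H ≤ v.1}) T hT hval D hDb
    (g := fun i w => fon s K i.1 w) (C := (2 * (s : ℝ) + 1) ^ 2) (fun i => fon_meas s K i.1)
    (fun i w => fon_bd (by omega) i.1 w)
    (fun i w w' h => fon_congr (by omega) i.1 w w' (by rw [← hn]; exact h))
    (fun i => fon_mean s K i.1)
  refine (le_abs_self _).trans (hmain.trans (Real.sqrt_le_sqrt ?_))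
  obtain ⟨Y, hY⟩ : ∃ Y : ℝ, Y = Cs * (((4 * s : ℤ) : ℝ) ^ 2 * xf (1 / 2) 2 (4 * s)) ^ 2 :=
    ⟨_, rfl⟩
  have hY0 : 0 ≤ Y := by
    rw [hY]
    positivity
  have hE0 : 0 ≤ C0 * (16 / 3) ^ a0 * (K : ℝ) ^ (-a0) := by positivity
  rw [← hY]
  have hterm : ∀ i : Ix K, D i * ∫ w, fon s K i.1 w ^ 2 ∂P ≤
      C0 * (16 / 3) ^ a0 * (K : ℝ) ^ (-a0) * Y := by
    intro i
    rw [hD]
    change (if 2 * nrm i.1 ≤ K then C0 * (16 / 3) ^ a0 * (K : ℝ) ^ (-a0) else 1) * _ ≤ _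
    split_ifs with h
    · refine mul_le_mul_of_nonneg_left ?_ hE0
      simp only [fon_pos h]
      rw [hY]
      exact hsec s _ hs
    · simp only [fon_neg h]
      simp only [ne_eq, OfNat.ofNat_ne_zero, not_false_eq_true, zero_pow, integral_zero,
        mul_zero]
      exact mul_nonneg hE0 hY0
  refine (Finset.sum_le_sum fun i _ => hterm i).trans ?_
  rw [Finset.sum_const, nsmul_eq_mul, Finset.card_univ, Fintype.card_coe]
  exact mul_le_mul_of_nonneg_right (card_up (by omega)) (mul_nonneg hE0 hY0)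

theorem xf_main : ∃ C a : ℝ, 0 < C ∧ 0 < a ∧ ∀ s K : ℤ, 1 ≤ s → 16 ≤ K →
    xf (1 / 2) 2 (11 * K * s) ≤ C * (K : ℝ) ^ (-1 - a) * xf (1 / 2) 2 (4 * s) := by
  obtain ⟨c, hR⟩ := rsw_half
  have hc := (hR 0).1
  obtain ⟨C0, a0, hC0, ha0, hup⟩ := one_arm_up c hc
  obtain ⟨Cs, hCs, hsec⟩ := sec_mom
  obtain ⟨c1, hc1, hcov⟩ := cov_low
  obtain ⟨C', hC'⟩ : ∃ C' : ℝ, C' = C0 * (16 / 3) ^ a0 := ⟨_, rfl⟩
  have hC'0 : 0 < C' := by
    rw [hC']
    positivity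
  obtain ⟨R, hRd⟩ : ∃ R : ℝ, R = C' * Cs + 1 := ⟨_, rfl⟩
  have hCC : 0 < C' * Cs := mul_pos hC'0 hCs
  have hR0 : 0 < R := by linarith
  have hR2 : C' * Cs ≤ R ^ 2 := by
    rw [hRd]
    nlinarith
  refine ⟨768 * R / c1, a0 / 2, by positivity, by positivity, fun s K hs hK => ?_⟩
  have h1 := fon_low hc1 hcov hs hK
  have h2 := fon_up hR hC0 ha0 hCs hup hsec hs hK
  have hK0 : (16 : ℝ) ≤ K := by exact_mod_cast hK
  have hs0 : (1 : ℝ) ≤ s := by exact_mod_cast hs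
  have hKp : (0 : ℝ) < K := by linarith
  obtain ⟨w, hw⟩ : ∃ w : ℝ, w = (K : ℝ) ^ (-(a0 / 2)) := ⟨_, rfl⟩
  have hw0 : 0 < w := by
    rw [hw]
    positivity
  have hw2 : (K : ℝ) ^ (-a0) = w ^ 2 := by
    rw [hw, ← Real.rpow_natCast, ← Real.rpow_mul hKp.le]
    congr 1
    push_cast
    ring
  have hw3 : (K : ℝ) ^ (-1 - a0 / 2) = (K : ℝ)⁻¹ * w := by
    rw [hw, sub_eq_add_neg, Real.rpow_add hKp, Real.rpow_neg_one]
  obtain ⟨y, hy⟩ : ∃ y : ℝ, y = xf (1 / 2) 2 (4 * s) := ⟨_, rfl⟩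
  have hy0 : 0 ≤ y := by
    rw [hy]
    exact xf_nonneg
  obtain ⟨X, hX⟩ : ∃ X : ℝ, X = xf (1 / 2) 2 (K * (10 * s + 1)) := ⟨_, rfl⟩
  rw [← hX] at h1
  rw [← hC', ← hy, hw2] at h2
  have h3 := h1.trans h2
  have h4 : (2 * (K : ℝ) + 1) ^ 2 * (C' * w ^ 2 * (Cs * (((4 * s : ℤ) : ℝ) ^ 2 * y) ^ 2)) ≤
      (3 * K * R * w * (16 * (s : ℝ) ^ 2 * y)) ^ 2 := by
    have e1 : ((4 * s : ℤ) : ℝ) ^ 2 = 16 * (s : ℝ) ^ 2 := by
      push_cast
      ring
    rw [e1]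
    have e2 : (2 * (K : ℝ) + 1) ^ 2 ≤ (3 * K) ^ 2 :=
      pow_le_pow_left₀ (by linarith) (by linarith) 2
    have e3 : (2 * (K : ℝ) + 1) ^ 2 * (C' * Cs) ≤ (3 * K) ^ 2 * R ^ 2 :=
      mul_le_mul e2 hR2 hCC.le (by positivity)
    calc (2 * (K : ℝ) + 1) ^ 2 * (C' * w ^ 2 * (Cs * (16 * (s : ℝ) ^ 2 * y) ^ 2))
        = ((2 * (K : ℝ) + 1) ^ 2 * (C' * Cs)) * (w * (16 * (s : ℝ) ^ 2 * y)) ^ 2 := by ring
      _ ≤ ((3 * K) ^ 2 * R ^ 2) * (w * (16 * (s : ℝ) ^ 2 * y)) ^ 2 :=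
          mul_le_mul_of_nonneg_right e3 (sq_nonneg _)
      _ = (3 * K * R * w * (16 * (s : ℝ) ^ 2 * y)) ^ 2 := by ring
  have h5 := h3.trans (Real.sqrt_le_sqrt h4)
  rw [Real.sqrt_sq (by positivity)] at h5
  have h6 : xf (1 / 2) 2 (11 * K * s) ≤ X := by
    rw [hX]
    have e1 : 16 * (10 * s + 1) ≤ K * (10 * s + 1) :=
      mul_le_mul_of_nonneg_right hK (by omega)
    refine xf_anti le_rfl (by omega) ?_
    have e2 : K * 1 ≤ K * s := mul_le_mul_of_nonneg_left hs (by omega)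
    have e3 : K * (10 * s + 1) = 10 * (K * s) + K * 1 := by ring
    have e4 : 11 * K * s = 11 * (K * s) := by ring
    omega
  refine h6.trans ?_
  rw [hw3, ← hy]
  have h7 : 768 * R / c1 * ((K : ℝ)⁻¹ * w) * y = 768 * R * w * y / (c1 * K) := by
    field_simp
  rw [h7, le_div_iff₀ (by positivity)]
  have h8 : (K * (s : ℝ) ^ 2) * (X * (c1 * K)) ≤ (K * (s : ℝ) ^ 2) * (768 * R * w * y) := by
    have e1 : (K * (s : ℝ) ^ 2) * (X * (c1 * K)) =
        16 * (((K : ℝ) / 4) ^ 2 * ((s : ℝ) ^ 2 * (c1 * X))) := by ring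
    rw [e1]
    linarith
  exact le_of_mul_le_mul_left h8 (by positivity)

/-- The four-arm exponent is larger than one. -/
theorem xf_one : ∃ C a : ℝ, 0 < C ∧ 0 < a ∧ ∀ n m : ℤ, 1 ≤ n → n ≤ m →
    xf (1 / 2) n m ≤ C * ((n : ℝ) / m) ^ (1 + a) := by
  obtain ⟨C0, a, hC0, ha, hmain⟩ := xf_main
  obtain ⟨c, hR⟩ := rsw_half
  have hc := (hR 0).1
  obtain ⟨c0, C1, hqm⟩ := qm_xf qmFr c hc
  obtain ⟨Cg, ag, hCg, hag, -, hgrow⟩ := grow c hc
  have hq0 := hqm (1 / 2) 0 (hR 0)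
  have hc0 := hq0.pos
  have hC1 : 0 < C1 := lt_of_lt_of_le one_pos hq0.one
  obtain ⟨Ca, hCa⟩ : ∃ Ca : ℝ, Ca = 44 ^ (1 + a) + C0 * C1 ^ 2 / c0 * 6 ^ (1 + a) :=
    ⟨_, rfl⟩
  have hCa0 : 0 < Ca := by
    rw [hCa]
    positivity
  have big : ∀ n m : ℤ, 4 ≤ n → n ≤ m → xf (1 / 2) n m ≤ Ca * ((n : ℝ) / m) ^ (1 + a) := by
    intro n m hn hnm
    have hnR : (4 : ℝ) ≤ n := by exact_mod_cast hn
    have hmR : (n : ℝ) ≤ m := by exact_mod_cast hnm
    have hm0 : (0 : ℝ) < m := by linarith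
    obtain ⟨s, hs1, hs2, hs3⟩ : ∃ s : ℤ, 1 ≤ s ∧ 4 * s ≤ n ∧ n < 4 * s + 4 :=
      ⟨n / 4, by omega, by omega, by omega⟩
    have hsR : (1 : ℝ) ≤ s := by exact_mod_cast hs1
    have hsR2 : 4 * (s : ℝ) ≤ n := by exact_mod_cast hs2
    obtain ⟨K, hK⟩ : ∃ K : ℤ, K = m / (11 * s) := ⟨_, rfl⟩
    have hK1 : 11 * s * K ≤ m := by
      rw [hK]
      exact Int.mul_ediv_self_le (by omega)
    have hK2 : m < 11 * s * (K + 1) := by
      rw [hK, mul_comm]
      have := Int.lt_ediv_add_one_mul_self m (by omega : 0 < 11 * s)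
      exact this
    rcases lt_or_ge K 16 with h16 | h16
    · have e1 : 11 * s * (K + 1) ≤ 11 * s * 16 := mul_le_mul_of_nonneg_left (by omega) (by omega)
      have e2 : (m : ℝ) ≤ 44 * n := by
        have : m ≤ 44 * n := by omega
        exact_mod_cast this
      have e3 : (1 : ℝ) / 44 ≤ (n : ℝ) / m := by
        rw [div_le_div_iff₀ (by norm_num) hm0]
        linarith
      have e4 : ((1 : ℝ) / 44) ^ (1 + a) ≤ ((n : ℝ) / m) ^ (1 + a) :=
        Real.rpow_le_rpow (by norm_num) e3 (by linarith)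
      have e5 : (44 : ℝ) ^ (1 + a) * (1 / 44) ^ (1 + a) = 1 := by
        rw [← Real.mul_rpow (by norm_num) (by norm_num)]
        norm_num
      refine xf_le_one.trans (e5.symm.le.trans ?_)
      refine mul_le_mul ?_ e4 (by positivity) hCa0.le
      rw [hCa]
      have : 0 < C0 * C1 ^ 2 / c0 * 6 ^ (1 + a) := by positivity
      linarith
    · have hx := hqm (1 / 2) m (hR m)
      have hKR : (16 : ℝ) ≤ K := by exact_mod_cast h16
      have hKp : (0 : ℝ) < K := by linarith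
      have f1 := hmain s K hs1 h16
      have f2 : xf (1 / 2) 2 m ≤ xf (1 / 2) 2 (11 * K * s) := by
        refine xf_anti le_rfl ?_ ?_
        · have : 16 * s ≤ K * s := mul_le_mul_of_nonneg_right h16 (by omega)
          have e : 11 * K * s = 11 * (K * s) := by ring
          omega
        · have e : 11 * K * s = 11 * s * K := by ring
          omega
      have f3 := hx.qm 2 n n m le_rfl (by omega) le_rfl (by omega) hnm le_rfl
      have f4 := hx.low (4 * s) n (by omega) hs2 hnm (by omega)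
      have f5 := hx.qm 2 (4 * s) (4 * s) n le_rfl (by omega) le_rfl (by omega) hs2 hnm
      have f6 : 0 < xf (1 / 2) 2 n := by
        refine lt_of_lt_of_le ?_ (hgrow (1 / 2) n (hR n) 2 n (by omega) (by omega) le_rfl)
        have : (0 : ℝ) < n := by linarith
        push_cast
        positivity
      obtain ⟨u, hu⟩ : ∃ u : ℝ, u = (K : ℝ) ^ (-1 - a) := ⟨_, rfl⟩
      have hu0 : 0 < u := by
        rw [hu]
        positivity
      rw [← hu] at f1
      have y0 : 0 ≤ xf (1 / 2) 2 (4 * s) := xf_nonneg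
      have f7 : c0 * xf (1 / 2) 2 (4 * s) ≤ C1 * xf (1 / 2) 2 n := by
        refine le_trans ?_ f5
        rw [mul_comm]
        exact mul_le_mul_of_nonneg_left f4 y0
      have f8 : xf (1 / 2) 2 (4 * s) ≤ C1 * xf (1 / 2) 2 n / c0 := by
        rw [le_div_iff₀ hc0]
        linarith
      have f9 : xf (1 / 2) 2 n * xf (1 / 2) n m ≤
          xf (1 / 2) 2 n * (C0 * C1 ^ 2 / c0 * u) := by
        calc xf (1 / 2) 2 n * xf (1 / 2) n m ≤ C1 * xf (1 / 2) 2 m := f3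
          _ ≤ C1 * (C0 * u * xf (1 / 2) 2 (4 * s)) :=
              mul_le_mul_of_nonneg_left (f2.trans f1) hC1.le
          _ ≤ C1 * (C0 * u * (C1 * xf (1 / 2) 2 n / c0)) :=
              mul_le_mul_of_nonneg_left (mul_le_mul_of_nonneg_left f8 (by positivity)) hC1.le
          _ = xf (1 / 2) 2 n * (C0 * C1 ^ 2 / c0 * u) := by
              field_simp
      have f10 := le_of_mul_le_mul_left f9 f6
      refine f10.trans ?_
      have g1 : (m : ℝ) / (6 * n) ≤ K := by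
        rw [div_le_iff₀ (by linarith)]
        have : (m : ℝ) < 11 * s * (K + 1) := by exact_mod_cast hK2
        have g2 : 11 * (s : ℝ) * (K + 1) ≤ 11 * s * (17 / 16 * K) :=
          mul_le_mul_of_nonneg_left (by linarith) (by linarith)
        have g3 : 4 * (s : ℝ) * K ≤ n * K := mul_le_mul_of_nonneg_right hsR2 hKp.le
        nlinarith
      have g0 : (0 : ℝ) < m / (6 * n) := div_pos hm0 (by linarith)
      have g4 : u ≤ ((m : ℝ) / (6 * n)) ^ (-1 - a) := by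
        rw [hu]
        exact Real.rpow_le_rpow_of_nonpos g0 g1 (by linarith)
      have g5 : ((m : ℝ) / (6 * n)) ^ (-1 - a) = 6 ^ (1 + a) * ((n : ℝ) / m) ^ (1 + a) := by
        rw [← Real.mul_rpow (by norm_num) (by positivity)]
        have e1 : (6 : ℝ) * ((n : ℝ) / m) = ((m : ℝ) / (6 * n))⁻¹ := by
          rw [inv_div]
          ring
        rw [e1, Real.inv_rpow g0.le, ← Real.rpow_neg g0.le]
        congr 1
        ring
      rw [g5] at g4
      calc C0 * C1 ^ 2 / c0 * u ≤ C0 * C1 ^ 2 / c0 * (6 ^ (1 + a) * ((n : ℝ) / m) ^ (1 + a)) :=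
            mul_le_mul_of_nonneg_left g4 (by positivity)
        _ = (C0 * C1 ^ 2 / c0 * 6 ^ (1 + a)) * ((n : ℝ) / m) ^ (1 + a) := by ring
        _ ≤ Ca * ((n : ℝ) / m) ^ (1 + a) := by
            refine mul_le_mul_of_nonneg_right ?_ (by positivity)
            rw [hCa]
            have : (0 : ℝ) < 44 ^ (1 + a) := by positivity
            linarith
  refine ⟨(Ca + 1) * 4 ^ (1 + a), a, by positivity, ha, fun n m hn hnm => ?_⟩
  have hnR : (1 : ℝ) ≤ n := by exact_mod_cast hn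
  have hmR : (n : ℝ) ≤ m := by exact_mod_cast hnm
  have hm0 : (0 : ℝ) < m := by linarith
  have key : ∀ r : ℝ, 0 ≤ r → r ≤ 4 * ((n : ℝ) / m) →
      r ^ (1 + a) ≤ 4 ^ (1 + a) * ((n : ℝ) / m) ^ (1 + a) := by
    intro r hr0 hr
    rw [← Real.mul_rpow (by norm_num) (by positivity)]
    exact Real.rpow_le_rpow hr0 hr (by linarith)
  have hnm0 : (0 : ℝ) ≤ (n : ℝ) / m := by positivity
  rcases le_or_gt 4 n with h4 | h4
  · refine (big n m h4 hnm).trans ?_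
    have h1 := key ((n : ℝ) / m) hnm0 (by linarith)
    have h2 : (0 : ℝ) ≤ ((n : ℝ) / m) ^ (1 + a) := by positivity
    calc Ca * ((n : ℝ) / m) ^ (1 + a) ≤ (Ca + 1) * ((n : ℝ) / m) ^ (1 + a) :=
          mul_le_mul_of_nonneg_right (by linarith) h2
      _ ≤ (Ca + 1) * (4 ^ (1 + a) * ((n : ℝ) / m) ^ (1 + a)) :=
          mul_le_mul_of_nonneg_left h1 (by linarith)
      _ = (Ca + 1) * 4 ^ (1 + a) * ((n : ℝ) / m) ^ (1 + a) := by ring
  · rcases le_or_gt 4 m with hm4 | hm4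
    · have hm4' : (4 : ℝ) ≤ m := by exact_mod_cast hm4
      have h1 : xf (1 / 2) n m ≤ xf (1 / 2) 4 m := xf_anti h4.le hm4 le_rfl
      refine h1.trans ((big 4 m le_rfl hm4).trans ?_)
      have h2 := key ((((4 : ℤ) : ℝ)) / m) (by positivity) (by
        push_cast
        rw [← mul_div_assoc]
        exact div_le_div_of_nonneg_right (by linarith) hm0.le)
      have h3 : (0 : ℝ) ≤ 4 ^ (1 + a) * ((n : ℝ) / m) ^ (1 + a) := by positivity
      calc Ca * ((((4 : ℤ) : ℝ)) / m) ^ (1 + a)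
          ≤ Ca * (4 ^ (1 + a) * ((n : ℝ) / m) ^ (1 + a)) :=
            mul_le_mul_of_nonneg_left h2 hCa0.le
        _ ≤ (Ca + 1) * (4 ^ (1 + a) * ((n : ℝ) / m) ^ (1 + a)) :=
            mul_le_mul_of_nonneg_right (by linarith) h3
        _ = (Ca + 1) * 4 ^ (1 + a) * ((n : ℝ) / m) ^ (1 + a) := by ring
    · have h1 := key 1 zero_le_one (by
        rw [← mul_div_assoc, le_div_iff₀ hm0]
        have : (m : ℝ) ≤ 4 := by exact_mod_cast hm4.le
        linarith)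
      rw [Real.one_rpow] at h1
      refine xf_le_one.trans (h1.trans ?_)
      have h3 : (0 : ℝ) ≤ 4 ^ (1 + a) * ((n : ℝ) / m) ^ (1 + a) := by positivity
      calc 4 ^ (1 + a) * ((n : ℝ) / m) ^ (1 + a)
          = 1 * (4 ^ (1 + a) * ((n : ℝ) / m) ^ (1 + a)) := (one_mul _).symm
        _ ≤ (Ca + 1) * (4 ^ (1 + a) * ((n : ℝ) / m) ^ (1 + a)) :=
            mul_le_mul_of_nonneg_right (by linarith) h3
        _ = (Ca + 1) * 4 ^ (1 + a) * ((n : ℝ) / m) ^ (1 + a) := by ring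

end Pool.Agent.TriPerc
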