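import Pool.Agent.TriPerc.RusD

/-!
# The second moment of the signed number of four-arm vertices

`hv l v w` is `1/2` or `-1/2` (as the vertex `v` is open or closed at the level `1/2`) if `v` has four
arms in `Ann v 2 l`, and `0` otherwise.  It has mean `0` and depends on the labels in `Ball v l`.

* `measurable_hv`, `hv_bound`, `hv_congr`, `hv_mean`: PROOF.  `ev_four` (an event of `Ann v 2 l`, which does
  not contain `v`: `nrm 0 = 0`), `indep_fun` with `S = {v}`, `∫ (if w v ≤ 1/2 then 1/2 else -1/2) = 0`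
  (`prob_label`-type lemma: `P {w | w v ≤ 1/2} = 1/2` from `mp_update` or `ae_label`/`unif_Iic`).
* `sec_mom`: for `1 ≤ s`, `l = 4 s`: `∫ (∑ v ∈ Ball z s, hv l v) ^ 2 ≤ C (l ^ 2 x 2 l) ^ 2`,
  `x = xf (1/2)`.  PROOF.  Expand the square: `|∫ hv l v * hv l u| ≤ P (F v ∩ F u)` with
  `F v = {w | Four (Op (1/2) w) v 2 l}`.  Let `r = nrm (u - v) ≤ 2 s`.
  If `r < 16`: `P (F v ∩ F u) ≤ P (F v) = x 2 l` (`four_tr`).
  If `16 ≤ r`: put `q = r / 4 ≥ 4`.  `F v ∩ F u` is contained in the intersection of the three events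
  `Four v 2 q`, `Four u 2 q`, `Four v (8 q) l` (`four_sub`; `8 q ≤ 2 r ≤ 4 s = l`), whose supports
  `Ann v 2 q`, `Ann u 2 q`, `Ann v (8 q) l` are disjoint (`q + q < r`; `r + q < 8 q` since
  `8 q ≥ 2 r - 6 ≥ r + 10` and `4 q ≤ r`, more precisely `r + q < 8 q ⟸ r < 7 q`, `4 q ≥ r - 3`).  By
  `indep` twice and `four_tr`: `P (F v ∩ F u) ≤ (x 2 q) ^ 2 * x (8 q) l`.  With `Qm c0 C N x`
  (`qm_xf qmFr`, `rsw_half`): `x 2 q * x (8 q) l ≤ C x 2 l` (`qm` with `k = q`, `l = 8 q`) and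
  `x 2 q * c0 ≤ x 2 q * x q r ≤ C x 2 r` (`low`, `qm` with `k = l = q`).  So
  `P (F v ∩ F u) ≤ (C ^ 2 / c0) x 2 r * x 2 l`.
  Sum over `u` for fixed `v`: at most `(31) ^ 2` (or any constant) vertices `u` with `r < 16`; at most
  `12 r` vertices with `nrm (u - v) = r` (`card_sph`), and `∑ r ∈ Icc 2 (2 s), r x 2 r ≤
  ∑ r ∈ Icc 2 l, .. ≤ C3 l ^ 2 x 2 l` (`sum_le`, `grow`).  With `1 ≤ C4 l ^ 2 x 2 l` (`grow` with `n = 2`):
  the sum over `u` is at most `C5 (x 2 l) (l ^ 2 x 2 l)`.  The number of `v` is at most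
  `(2 s + 1) ^ 2 ≤ 9 s ^ 2 ≤ l ^ 2`.
-/

namespace Pool.Agent.TriPerc

open MeasureTheory Set

open Classical in
/-- The sign of `v` if `v` has four arms to distance `l`. -/
noncomputable def hv (l : ℤ) (v : V) (w : Lab) : ℝ :=
  if Four (Op (1 / 2) w) v 2 l then (if w v ≤ 1 / 2 then 1 / 2 else -1 / 2) else 0

private theorem nz (v : V) : nrm (v - v) = 0 := by
  rw [sub_self]
  exact nrm_zero_iff.2 rfl

private theorem four_iff {l : ℤ} {v : V} {w w' : Lab} (h : ∀ u ∈ Ann v 2 l, w u = w' u) :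
    Four (Op (1 / 2) w) v 2 l ↔ Four (Op (1 / 2) w') v 2 l :=
  ⟨(ev_four (1 / 2) v 2 l).2 w w' h,
    (ev_four (1 / 2) v 2 l).2 w' w fun u hu => (h u hu).symm⟩

open Classical in
/-- The sign of the vertex `v`. -/
private noncomputable def sgF (v : V) (w : Lab) : ℝ := if w v ≤ 1 / 2 then 1 / 2 else -1 / 2

private theorem measurable_sgF (v : V) : Measurable (sgF v) := by
  unfold sgF
  refine Measurable.ite ?_ measurable_const measurable_const
  exact measurableSet_le (measurable_pi_apply v) measurable_const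

private theorem int_sgF (v : V) : ∫ w, sgF v w ∂P = 0 := by
  have hm : MeasurableSet {w : Lab | w v ≤ 1 / 2} :=
    measurableSet_le (measurable_pi_apply v) measurable_const
  have h1 : (P {w : Lab | w v ≤ 1 / 2}).toReal = 1 / 2 := by
    have h5 := (measurePreserving_eval_infinitePi (fun _ : V => unif) v).measure_preimage
      (s := Set.Iic (1 / 2)) measurableSet_Iic.nullMeasurableSet
    have h6 : P {w : Lab | w v ≤ 1 / 2} = unif (Set.Iic (1 / 2)) := h5
    rw [h6, unif_Iic (by norm_num) (by norm_num), ENNReal.toReal_ofReal (by norm_num)]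
  have h2 : (fun w => sgF v w) = fun w =>
      Set.indicator {w : Lab | w v ≤ 1 / 2} (1 : Lab → ℝ) w - 1 / 2 := by
    funext w
    by_cases h : w v ≤ 1 / 2
    · have h' : w ∈ {w : Lab | w v ≤ 1 / 2} := h
      unfold sgF
      rw [if_pos h, Set.indicator_of_mem h', Pi.one_apply]
      norm_num
    · have h' : w ∉ {w : Lab | w v ≤ 1 / 2} := h
      unfold sgF
      rw [if_neg h, Set.indicator_of_notMem h']
      norm_num
  have hi : Integrable (Set.indicator {w : Lab | w v ≤ 1 / 2} (1 : Lab → ℝ)) P :=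
    (integrable_const (1 : ℝ)).indicator hm
  have h3 : P.real {w : Lab | w v ≤ 1 / 2} = 1 / 2 := h1
  rw [h2, integral_sub hi (integrable_const _), integral_indicator_one hm, h3, integral_const,
    probReal_univ, one_smul, sub_self]

theorem measurable_hv (l : ℤ) (v : V) : Measurable (hv l v) := by
  unfold hv
  refine Measurable.ite (ev_four (1 / 2) v 2 l).1 ?_ measurable_const
  refine Measurable.ite ?_ measurable_const measurable_const
  exact measurableSet_le (measurable_pi_apply v) measurable_const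

theorem hv_bound (l : ℤ) (v : V) (w : Lab) : |hv l v w| ≤ 1 := by
  unfold hv
  split_ifs <;> norm_num [abs_of_nonneg, abs_of_neg]

theorem hv_congr {l : ℤ} {v : V} (hl : 0 ≤ l) (w w' : Lab)
    (h : ∀ u, nrm (u - v) ≤ l → w u = w' u) : hv l v w = hv l v w' := by
  have h1 : w v = w' v := h v (by rw [nz]; exact hl)
  have h2 := four_iff (v := v) (w := w) (w' := w') fun u hu => h u hu.2
  unfold hv
  rw [h1]
  by_cases h3 : Four (Op (1 / 2) w) v 2 l
  · rw [if_pos h3, if_pos (h2.1 h3)]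
  · rw [if_neg h3, if_neg fun h4 => h3 (h2.2 h4)]

/-- `hv` times a bounded function of the other labels. -/
theorem hv_mul {l : ℤ} {v : V} {f : Lab → ℝ} (hf : Measurable f) (hf1 : ∀ w, |f w| ≤ 1)
    (h : ∀ w w' : Lab, (∀ u, u ≠ v → w u = w' u) → f w = f w') :
    ∫ w, f w * hv l v w ∂P = 0 := by
  have hG : MeasurableSet {w : Lab | Four (Op (1 / 2) w) v 2 l} := (ev_four (1 / 2) v 2 l).1
  have e : (fun w => f w * hv l v w) = fun w => sgF v w *
      (f w * Set.indicator {w : Lab | Four (Op (1 / 2) w) v 2 l} (1 : Lab → ℝ) w) := by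
    funext w
    by_cases h1 : Four (Op (1 / 2) w) v 2 l
    · have h2 : w ∈ {w : Lab | Four (Op (1 / 2) w) v 2 l} := h1
      rw [Set.indicator_of_mem h2]
      unfold hv sgF
      rw [if_pos h1, Pi.one_apply, mul_one, mul_comm]
    · have h2 : w ∉ {w : Lab | Four (Op (1 / 2) w) v 2 l} := h1
      rw [Set.indicator_of_notMem h2]
      unfold hv
      rw [if_neg h1, mul_zero, mul_zero]
  have hk := indep_fun (S := {v}) (f := sgF v)
    (h := fun w => f w * Set.indicator {w : Lab | Four (Op (1 / 2) w) v 2 l} (1 : Lab → ℝ) w)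
    (measurable_sgF v) (hf.mul (measurable_one.indicator hG)) ?_ ?_
  · rw [e, hk, int_sgF, zero_mul]
  · intro w w' hw
    unfold sgF
    rw [hw v rfl]
  · intro w w' hw
    rw [h w w' fun u hu => hw u hu]
    have h2 := four_iff (l := l) (v := v) (w := w) (w' := w') fun u hu => hw u fun h3 => by
      rw [Set.mem_singleton_iff] at h3
      have h4 := hu.1
      rw [h3, nz] at h4
      omega
    congr 1
    by_cases h1 : Four (Op (1 / 2) w) v 2 l
    · have h3 : w ∈ {w : Lab | Four (Op (1 / 2) w) v 2 l} := h1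
      have h4 : w' ∈ {w : Lab | Four (Op (1 / 2) w) v 2 l} := h2.1 h1
      rw [Set.indicator_of_mem h3, Set.indicator_of_mem h4]
      rfl
    · have h3 : w ∉ {w : Lab | Four (Op (1 / 2) w) v 2 l} := h1
      have h4 : w' ∉ {w : Lab | Four (Op (1 / 2) w) v 2 l} := fun h5 => h1 (h2.2 h5)
      rw [Set.indicator_of_notMem h3, Set.indicator_of_notMem h4]

private theorem int_hv (l : ℤ) (v u : V) : Integrable (fun w => hv l v w * hv l u w) P := by
  refine Integrable.of_bound ((measurable_hv l v).mul (measurable_hv l u)).aestronglyMeasurable 1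
    (Filter.Eventually.of_forall fun w => ?_)
  rw [Real.norm_eq_abs, abs_mul]
  exact mul_le_one₀ (hv_bound l v w) (abs_nonneg _) (hv_bound l u w)

private theorem hv_zero {l : ℤ} {v : V} {w : Lab} (h : ¬ Four (Op (1 / 2) w) v 2 l) :
    hv l v w = 0 := by
  unfold hv
  rw [if_neg h]

private theorem int_le (l : ℤ) (v u : V) : ∫ w, hv l v w * hv l u w ∂P ≤
    (P ({w | Four (Op (1 / 2) w) v 2 l} ∩ {w | Four (Op (1 / 2) w) u 2 l})).toReal := by
  have hm : MeasurableSet ({w : Lab | Four (Op (1 / 2) w) v 2 l} ∩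
      {w | Four (Op (1 / 2) w) u 2 l}) := (ev_four (1 / 2) v 2 l).1.inter (ev_four (1 / 2) u 2 l).1
  have hi : Integrable (Set.indicator ({w : Lab | Four (Op (1 / 2) w) v 2 l} ∩
      {w | Four (Op (1 / 2) w) u 2 l}) (1 : Lab → ℝ)) P :=
    (integrable_const (1 : ℝ)).indicator hm
  have h1 := integral_indicator_one (μ := P) hm
  refine le_trans (integral_mono (int_hv l v u) hi fun w => ?_) h1.le
  by_cases h2 : w ∈ {w : Lab | Four (Op (1 / 2) w) v 2 l} ∩ {w | Four (Op (1 / 2) w) u 2 l}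
  · rw [Set.indicator_of_mem h2]
    refine le_trans (le_abs_self _) ?_
    rw [abs_mul]
    exact mul_le_one₀ (hv_bound l v w) (abs_nonneg _) (hv_bound l u w)
  · rw [Set.indicator_of_notMem h2]
    by_cases h3 : Four (Op (1 / 2) w) v 2 l
    · have h4 : ¬ Four (Op (1 / 2) w) u 2 l := fun h4 => h2 ⟨h3, h4⟩
      change hv l v w * hv l u w ≤ 0
      rw [hv_zero h4, mul_zero]
    · change hv l v w * hv l u w ≤ 0
      rw [hv_zero h3, zero_mul]

private theorem tm {A B : Set Lab} (h : A ⊆ B) : (P A).toReal ≤ (P B).toReal :=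
  ENNReal.toReal_mono (measure_ne_top P B) (measure_mono h)

private theorem pair_far {c0 C : ℝ} {l r : ℤ} (hx : Qm c0 C l (xf (1 / 2))) {u v : V}
    (hr : nrm (u - v) = r) (h16 : 16 ≤ r) (hl : 2 * r ≤ l) :
    (P ({w | Four (Op (1 / 2) w) v 2 l} ∩ {w | Four (Op (1 / 2) w) u 2 l})).toReal ≤
      C ^ 2 / c0 * xf (1 / 2) 2 r * xf (1 / 2) 2 l := by
  obtain ⟨q, hq⟩ : ∃ q : ℤ, q = r / 4 := ⟨_, rfl⟩
  have q1 : 4 ≤ q := by omega
  have q2 : 4 * q ≤ r := by omega
  have q3 : r ≤ 4 * q + 3 := by omega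
  have e1 := ev_four (1 / 2) v 2 q
  have e2 := ev_four (1 / 2) u 2 q
  have e3 := ev_four (1 / 2) v (8 * q) l
  have d23 : Disjoint (Ann u 2 q) (Ann v (8 * q) l) := by
    rw [Set.disjoint_left]
    rintro x ⟨-, h1⟩ ⟨h2, -⟩
    have h3 := nrm_add (x - u) (u - v)
    rw [sub_add_sub_cancel, hr] at h3
    omega
  have d1 : Disjoint (Ann v 2 q) (Ann u 2 q ∪ Ann v (8 * q) l) := by
    rw [Set.disjoint_left]
    rintro x ⟨-, h1⟩ (⟨-, h2⟩ | ⟨h2, -⟩)
    · have h3 := nrm_add (x - v) (-(x - u))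
      rw [nrm_neg, ← sub_eq_add_neg, sub_sub_sub_cancel_left, hr] at h3
      omega
    · omega
  have e23 := (e2.mono (Set.subset_union_left (t := Ann v (8 * q) l))).inter
    (e3.mono (Set.subset_union_right (s := Ann u 2 q)))
  have hsub : {w : Lab | Four (Op (1 / 2) w) v 2 l} ∩ {w | Four (Op (1 / 2) w) u 2 l} ⊆
      {w | Four (Op (1 / 2) w) v 2 q} ∩ ({w | Four (Op (1 / 2) w) u 2 q} ∩
        {w | Four (Op (1 / 2) w) v (8 * q) l}) := fun w hw =>
    ⟨four_sub le_rfl (by omega) (by omega) hw.1, four_sub le_rfl (by omega) (by omega) hw.2,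
      four_sub (by omega) (by omega) le_rfl hw.1⟩
  have hP : (P ({w : Lab | Four (Op (1 / 2) w) v 2 q} ∩ ({w | Four (Op (1 / 2) w) u 2 q} ∩
      {w | Four (Op (1 / 2) w) v (8 * q) l}))).toReal =
      xf (1 / 2) 2 q * (xf (1 / 2) 2 q * xf (1 / 2) (8 * q) l) := by
    rw [indep e1 e23 d1, indep e2 e3 d23, four_tr (1 / 2) v 2 q, four_tr (1 / 2) u 2 q,
      four_tr (1 / 2) v (8 * q) l, ENNReal.toReal_mul, ENNReal.toReal_mul]
    rfl
  have k1 := hx.qm 2 q (8 * q) l le_rfl (by omega) (by omega) le_rfl (by omega) le_rfl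
  have k2 := hx.qm 2 q q r le_rfl (by omega) le_rfl (by omega) (by omega) (by omega)
  have k3 := hx.low q r (by omega) (by omega) (by omega) (by omega)
  have k4 : xf (1 / 2) 2 q ≤ C / c0 * xf (1 / 2) 2 r := by
    rw [div_mul_eq_mul_div, le_div_iff₀ hx.pos]
    exact (mul_le_mul_of_nonneg_left k3 (hx.nonneg _ _)).trans k2
  refine (tm hsub).trans ?_
  rw [hP]
  refine (mul_le_mul k4 k1 (mul_nonneg xf_nonneg xf_nonneg) ?_).trans (le_of_eq (by ring))
  exact le_trans xf_nonneg k4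

/-- The bound of the correlation at distance `d`, divided by `xf (1 / 2) 2 l`. -/
private noncomputable def bb (D : ℝ) (d : ℤ) : ℝ := if d < 16 then 1 else D * xf (1 / 2) 2 d

private theorem pair {c0 C : ℝ} {l : ℤ} (hx : Qm c0 C l (xf (1 / 2))) {u v : V}
    (hl : 2 * nrm (u - v) ≤ l) :
    (P ({w | Four (Op (1 / 2) w) v 2 l} ∩ {w | Four (Op (1 / 2) w) u 2 l})).toReal ≤
      bb (C ^ 2 / c0) (nrm (u - v)) * xf (1 / 2) 2 l := by
  unfold bb
  by_cases h : nrm (u - v) < 16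
  · rw [if_pos h, one_mul]
    refine (tm Set.inter_subset_left).trans (le_of_eq ?_)
    rw [four_tr (1 / 2) v 2 l]
    rfl
  · rw [if_neg h]
    exact pair_far hx rfl (not_lt.1 h) hl

private theorem card_ball (z : V) {s : ℤ} (hs : 1 ≤ s) :
    ((finite_ball z s).toFinset.card : ℝ) ≤ (2 * (s : ℝ) + 1) ^ 2 := by
  have h1 : (finite_ball z s).toFinset ⊆
      Finset.Icc (z.1 - s) (z.1 + s) ×ˢ Finset.Icc (z.2 - s) (z.2 + s) := by
    intro v hv
    rw [Set.Finite.mem_toFinset] at hv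
    have h2 : nrm (v - z) ≤ s := hv
    have h3 : |(v - z).1| ≤ s := le_trans ((le_max_left _ _).trans (le_max_left _ _)) h2
    have h4 : |(v - z).2| ≤ s := le_trans ((le_max_right _ _).trans (le_max_left _ _)) h2
    rw [Prod.fst_sub, abs_le] at h3
    rw [Prod.snd_sub, abs_le] at h4
    rw [Finset.mem_product, Finset.mem_Icc, Finset.mem_Icc]
    exact ⟨⟨by omega, by omega⟩, ⟨by omega, by omega⟩⟩
  have h2 := Finset.card_le_card h1
  rw [Finset.card_product, Int.card_Icc, Int.card_Icc,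
    show z.1 + s + 1 - (z.1 - s) = 2 * s + 1 by ring,
    show z.2 + s + 1 - (z.2 - s) = 2 * s + 1 by ring] at h2
  have h3 : ((2 * s + 1).toNat : ℤ) = 2 * s + 1 := Int.toNat_of_nonneg (by omega)
  have h4 : ((2 * s + 1).toNat : ℝ) = 2 * (s : ℝ) + 1 := by exact_mod_cast h3
  have h5 : ((finite_ball z s).toFinset.card : ℝ) ≤
      (((2 * s + 1).toNat * (2 * s + 1).toNat : ℕ) : ℝ) := Nat.cast_le.2 h2
  rw [Nat.cast_mul, h4] at h5
  rw [sq]
  exact h5

private theorem card_fib (B : Finset V) (v : V) {d : ℤ} (hd : 0 ≤ d) :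
    ((B.filter fun u => nrm (u - v) = d).card : ℝ) ≤ 12 * d + 1 := by
  rcases hd.eq_or_lt with rfl | hd
  · have h1 : (B.filter fun u => nrm (u - v) = 0) ⊆ {v} := by
      intro u hu
      rw [Finset.mem_filter, nrm_zero_iff, sub_eq_zero] at hu
      rw [Finset.mem_singleton]
      exact hu.2
    have h2 := Finset.card_le_card h1
    rw [Finset.card_singleton] at h2
    have h3 : ((B.filter fun u => nrm (u - v) = 0).card : ℝ) ≤ 1 := by exact_mod_cast h2
    rw [Int.cast_zero, mul_zero, zero_add]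
    exact h3
  · obtain ⟨S, hS, hc⟩ := card_sph d (by omega)
    have h1 : (B.filter fun u => nrm (u - v) = d).card ≤ S.card := by
      refine Finset.card_le_card_of_injOn (fun u => u - v) (fun u hu => ?_) fun u _ u' _ h => ?_
      · have hu' := (Finset.mem_filter.1 hu).2
        exact (hS _).2 hu'
      · exact sub_left_injective h
    have h2 : ((B.filter fun u => nrm (u - v) = d).card : ℝ) ≤ S.card := Nat.cast_le.2 h1
    linarith

private theorem sum_b {D : ℝ} {l : ℤ} (hD : 0 ≤ D) (B : Finset V) (v : V)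
    (hB : ∀ u ∈ B, 2 * nrm (u - v) ≤ l) :
    ∑ u ∈ B, bb D (nrm (u - v)) ≤
      2896 + 13 * D * ∑ d ∈ Finset.Icc (2 : ℤ) l, (d : ℝ) * xf (1 / 2) 2 d := by
  have hmap : ∀ u ∈ B, nrm (u - v) ∈ Finset.Icc (0 : ℤ) l := fun u hu => by
    have h1 := nrm_nonneg (u - v)
    have h2 := hB u hu
    exact Finset.mem_Icc.2 ⟨h1, by omega⟩
  rw [← Finset.sum_fiberwise_of_maps_to hmap]
  have h1 : ∀ d ∈ Finset.Icc (0 : ℤ) l, ∑ u ∈ B with nrm (u - v) = d, bb D (nrm (u - v)) ≤
      (if d ∈ Finset.Icc (0 : ℤ) 15 then (181 : ℝ) else 0) +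
        (if d ∈ Finset.Icc (2 : ℤ) l then 13 * D * ((d : ℝ) * xf (1 / 2) 2 d) else 0) := by
    intro d hd
    obtain ⟨hd0, hdl⟩ := Finset.mem_Icc.1 hd
    have hd0' : (0 : ℝ) ≤ d := by exact_mod_cast hd0
    have h2 : ∑ u ∈ B with nrm (u - v) = d, bb D (nrm (u - v)) =
        ∑ u ∈ B with nrm (u - v) = d, bb D d :=
      Finset.sum_congr rfl fun u hu => by rw [(Finset.mem_filter.1 hu).2]
    rw [h2, Finset.sum_const, nsmul_eq_mul]
    have h3 := card_fib B v hd0
    by_cases h4 : d < 16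
    · have h5 : d ∈ Finset.Icc (0 : ℤ) 15 := Finset.mem_Icc.2 ⟨hd0, by omega⟩
      have h6 : (d : ℝ) ≤ 15 := by exact_mod_cast (by omega : d ≤ 15)
      have h7 : 0 ≤ (if d ∈ Finset.Icc (2 : ℤ) l then 13 * D * ((d : ℝ) * xf (1 / 2) 2 d)
          else 0) := by
        split_ifs
        · have := xf_nonneg (p := 1 / 2) (n := 2) (m := d)
          positivity
        · exact le_rfl
      rw [if_pos h5]
      unfold bb
      rw [if_pos h4, mul_one]
      linarith
    · have h5 : d ∉ Finset.Icc (0 : ℤ) 15 := fun h6 => by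
        have := (Finset.mem_Icc.1 h6).2
        omega
      have h6 : d ∈ Finset.Icc (2 : ℤ) l := Finset.mem_Icc.2 ⟨by omega, hdl⟩
      rw [if_neg h5, if_pos h6, zero_add]
      unfold bb
      rw [if_neg h4]
      have h7 : (1 : ℝ) ≤ d := by exact_mod_cast (by omega : (1 : ℤ) ≤ d)
      have h8 : ((B.filter fun u => nrm (u - v) = d).card : ℝ) ≤ 13 * d := by linarith
      have h9 : 0 ≤ D * xf (1 / 2) 2 d := mul_nonneg hD xf_nonneg
      refine (mul_le_mul_of_nonneg_right h8 h9).trans (le_of_eq (by ring))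
  refine (Finset.sum_le_sum h1).trans ?_
  rw [Finset.sum_add_distrib, Finset.sum_ite_mem, Finset.sum_ite_mem, Finset.mul_sum]
  refine add_le_add ?_ ?_
  · refine (Finset.sum_le_sum_of_subset_of_nonneg Finset.inter_subset_right
      fun i _ _ => by norm_num).trans ?_
    rw [Finset.sum_const, Int.card_Icc, nsmul_eq_mul, show ((15 : ℤ) + 1 - 0).toNat = 16 from rfl]
    norm_num
  · refine Finset.sum_le_sum_of_subset_of_nonneg Finset.inter_subset_right fun i hi _ => ?_
    have h2 : (0 : ℝ) ≤ i := by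
      have := (Finset.mem_Icc.1 hi).1
      exact_mod_cast (by omega : (0 : ℤ) ≤ i)
    have := xf_nonneg (p := 1 / 2) (n := 2) (m := i)
    positivity

theorem sec_mom : ∃ C : ℝ, 0 < C ∧ ∀ (s : ℤ) (z : V), 1 ≤ s →
    ∫ w, (∑ v ∈ (finite_ball z s).toFinset, hv (4 * s) v w) ^ 2 ∂P ≤
      C * (((4 * s : ℤ) : ℝ) ^ 2 * xf (1 / 2) 2 (4 * s)) ^ 2 := by
  obtain ⟨c, hc⟩ := rsw_half
  obtain ⟨c0, C, hq⟩ := qm_xf qmFr c (hc 0).1
  obtain ⟨g, a, hg, ha, ha', hgr⟩ := grow c (hc 0).1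
  obtain ⟨D, hD⟩ : ∃ D : ℝ, D = C ^ 2 / c0 := ⟨_, rfl⟩
  have hQ0 := hq _ 0 (hc 0)
  have hC0 : 0 < C := lt_of_lt_of_le one_pos hQ0.one
  have hD0 : 0 < D := by
    rw [hD]
    have := hQ0.pos
    positivity
  refine ⟨2896 / (4 * g) + 13 * D * (C / (g * a)), by positivity, fun s z hs => ?_⟩
  obtain ⟨l, hl⟩ : ∃ l : ℤ, l = 4 * s := ⟨_, rfl⟩
  rw [← hl]
  obtain ⟨B, hB⟩ : ∃ B : Finset V, B = (finite_ball z s).toFinset := ⟨_, rfl⟩
  rw [← hB]
  have hBm : ∀ v ∈ B, nrm (v - z) ≤ s := fun v hv => by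
    rw [hB, Set.Finite.mem_toFinset] at hv
    exact hv
  have hQ : Qm c0 C l (xf (1 / 2)) := hq _ l (hc l)
  obtain ⟨X, hX⟩ : ∃ X : ℝ, X = xf (1 / 2) 2 l := ⟨_, rfl⟩
  have hX0 : 0 ≤ X := by
    rw [hX]
    exact xf_nonneg
  obtain ⟨M, hM⟩ : ∃ M : ℝ, M = (l : ℝ) ^ 2 * X := ⟨_, rfl⟩
  have hl4 : (4 : ℝ) ≤ l := by
    have : (4 : ℤ) ≤ l := by omega
    exact_mod_cast this
  have hM0 : 0 ≤ M := by
    rw [hM]
    positivity
  have hM4 : 4 * g ≤ M := by
    have h1 := hgr (1 / 2) l (hc l) 2 l (by norm_num) (by omega) le_rfl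
    have h2 : (2 / (l : ℝ)) ^ (2 : ℝ) ≤ (2 / (l : ℝ)) ^ (2 - a) :=
      Real.rpow_le_rpow_of_exponent_ge (by positivity)
        (by rw [div_le_one (by linarith)]; linarith) (by linarith)
    rw [Real.rpow_two] at h2
    have h3 : g * (2 / (l : ℝ)) ^ 2 ≤ X := by
      rw [hX]
      refine le_trans (mul_le_mul_of_nonneg_left h2 hg.le) ?_
      exact_mod_cast h1
    have h4 : (0 : ℝ) < (l : ℝ) := by linarith
    calc 4 * g = (l : ℝ) ^ 2 * (g * (2 / (l : ℝ)) ^ 2) := by
          field_simp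
          norm_num
      _ ≤ M := by
          rw [hM]
          exact mul_le_mul_of_nonneg_left h3 (by positivity)
  have hsum : ∑ d ∈ Finset.Icc (2 : ℤ) l, (d : ℝ) * xf (1 / 2) 2 d ≤ C / (g * a) * M := by
    have h1 := sum_le hQ hg ha (by linarith) (fun n m h1 h2 h3 =>
      hgr (1 / 2) m (hc m) n m (by omega) h2 le_rfl) (by omega : (2 : ℤ) ≤ l) le_rfl
    rw [hM, hX]
    exact h1
  have hrow : ∀ v ∈ B, ∑ u ∈ B, (P ({w | Four (Op (1 / 2) w) v 2 l} ∩
      {w | Four (Op (1 / 2) w) u 2 l})).toReal ≤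
      (2896 / (4 * g) + 13 * D * (C / (g * a))) * M * X := by
    intro v hv
    have h2r : ∀ u ∈ B, 2 * nrm (u - v) ≤ l := fun u hu => by
      have h1 := nrm_add (u - z) (-(v - z))
      rw [nrm_neg, ← sub_eq_add_neg, sub_sub_sub_cancel_right] at h1
      have h2 := hBm u hu
      have h3 := hBm v hv
      omega
    have h3 : ∑ u ∈ B, (P ({w | Four (Op (1 / 2) w) v 2 l} ∩
        {w | Four (Op (1 / 2) w) u 2 l})).toReal ≤
        ∑ u ∈ B, bb D (nrm (u - v)) * X := by
      refine Finset.sum_le_sum fun u hu => ?_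
      rw [hX, hD]
      exact pair hQ (h2r u hu)
    rw [← Finset.sum_mul] at h3
    refine h3.trans (mul_le_mul_of_nonneg_right ?_ hX0)
    refine (sum_b hD0.le B v h2r).trans ?_
    have h4 : (2896 : ℝ) ≤ 2896 / (4 * g) * M := by
      rw [div_mul_eq_mul_div, le_div_iff₀ (by positivity)]
      exact mul_le_mul_of_nonneg_left hM4 (by norm_num)
    have h5 : 13 * D * ∑ d ∈ Finset.Icc (2 : ℤ) l, (d : ℝ) * xf (1 / 2) 2 d ≤
        13 * D * (C / (g * a) * M) := mul_le_mul_of_nonneg_left hsum (by positivity)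
    calc _ ≤ 2896 / (4 * g) * M + 13 * D * (C / (g * a) * M) := add_le_add h4 h5
      _ = _ := by ring
  have hint : ∀ v u, Integrable (fun w => hv l v w * hv l u w) P := int_hv l
  have e : (fun w => (∑ v ∈ B, hv l v w) ^ 2) =
      fun w => ∑ v ∈ B, ∑ u ∈ B, hv l v w * hv l u w := by
    funext w
    rw [sq, Finset.sum_mul_sum]
  rw [e, integral_finsetSum _ fun v _ => integrable_finsetSum _ fun u _ => hint v u]
  have h1 : ∑ v ∈ B, ∫ w, ∑ u ∈ B, hv l v w * hv l u w ∂P ≤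
      ∑ v ∈ B, (2896 / (4 * g) + 13 * D * (C / (g * a))) * M * X := by
    refine Finset.sum_le_sum fun v hv => ?_
    rw [integral_finsetSum _ fun u _ => hint v u]
    exact (Finset.sum_le_sum fun u _ => int_le l v u).trans (hrow v hv)
  refine h1.trans ?_
  rw [Finset.sum_const, nsmul_eq_mul, ← hX, ← hM]
  have h2 : (B.card : ℝ) ≤ (l : ℝ) ^ 2 := by
    have h3 := card_ball z hs
    rw [← hB] at h3
    refine h3.trans ?_
    have h4 : (1 : ℝ) ≤ s := by exact_mod_cast hs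
    have h5 : (l : ℝ) = 4 * s := by
      rw [hl]
      push_cast
      ring
    rw [h5]
    nlinarith
  calc (B.card : ℝ) * ((2896 / (4 * g) + 13 * D * (C / (g * a))) * M * X)
      ≤ (l : ℝ) ^ 2 * ((2896 / (4 * g) + 13 * D * (C / (g * a))) * M * X) :=
        mul_le_mul_of_nonneg_right h2 (by positivity)
    _ = (2896 / (4 * g) + 13 * D * (C / (g * a))) * M * ((l : ℝ) ^ 2 * X) := by ring
    _ = _ := by
      rw [← hM]
      ring

end Pool.Agent.TriPerc
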