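import Pool.Agent.TriPerc.FoneA

/-!
# A four-arm vertex has a large covariance with the crossing event

* `pvt_four`: if `v` is pivotal for the crossing of `Par 0 N 0 N` and `Ball v l` is strictly inside
  (`l < v.1`, `v.1 + l < N`, the same for `v.2`), then `Four (Op t w) v 2 l`.  PROOF.  Let
  `S = Op t w \ {v}`, `D = Par 0 N 0 N`, `S0 = S ∩ D`.  `PH (Op t w ∪ {v})`: there are `x`, `y` with
  `x.1 ≤ 0`, `N ≤ y.1`, `Conn ((Op t w ∪ {v}) ∩ D) x y`; not `PH S` means that `x`, `y` are not joined in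
  `S0`.  `x ≠ v ≠ y` (coordinates).  `Conn.exit` with the set `comp S0 x` (or `conn_insert`-type lemma of
  `Pth.lean`; as in the proof of `piv_four` in `GrowA.lean`): there is `a` with `Conn S0 x a`, `Adj a v`, and in
  the same way `b` with `Conn S0 y b`, `Adj b v`.  `four_of_conn` for `S`, `D`, the paths `a ~ x`,
  `b ~ y`, not `a ~ b`; `nrm (a - v) = 1 ≤ 2`; `l ≤ nrm (x - v)` since `v.1 - x.1 ≥ v.1 > l`;
  `Ann v 2 l ⊆ D`.  Finally `Op t w` and `S` agree on `Ann v 2 l` (`four_congr`).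
* `pvt_cov`: for `v` as before: `∫ 1 (PH (Op (1/2) w) 0 N 0 N) * hv l v w = P (Pvt (1/2) N v) / 4`.  PROOF.
  Let `f w = 1 (PH (Op (1/2) w) 0 N 0 N)`, `f1 w = 1 (PH (Op (1/2) w ∪ {v}) 0 N 0 N)`,
  `f0 w = 1 (PH (Op (1/2) w \ {v}) 0 N 0 N)`; `f0`, `f1` do not depend on the label of `v`; `f = f1` if
  `w v ≤ 1/2` and `f = f0` otherwise.  So `f = (f0 + f1) / 2 + (f1 - f0) ε`, `ε = 1/2` or `-1/2`.
  `∫ (f0 + f1) / 2 * hv = 0` by `hv_mul`, and `(f1 - f0) ε hv = 1/4 * 1 (Pvt) * 1 (Four) = 1/4 * 1 (Pvt)`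
  by `pvt_four`.  (Measurability: `ev_of_fin`/`ev_op` with the finite set `Par 0 N 0 N`, `ev_pvt`.)
* `cov_low`: for `8 ≤ q`, `2 ≤ l ≤ q`, `|v.1| ≤ 6 q`, `|v.2| ≤ 6 q`:
  `c * xf (1/2) 2 q ≤ ∫ 1 (PH (Op (1/2) w) (-10q) (10q) (-10q) (10q)) * hv l v w`.  PROOF.  The
  translation by `(10 q, 10 q)` (`mp_comp (tr z)`, `four_tr` is the model) gives the integral of
  `pvt_cov` with `N = 20 q` and `v' = v + (10 q, 10 q)`, `4 q ≤ v'.1 ≤ 16 q`.  Let `m = 2 ^ i` with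
  `q ≤ 2 ^ i < 2 q` (`i ≥ 3`), `k = m / 4`, `m = 4 k`, `k ≥ 2`.  With the constants of `pvt_sto`, `sep_out'`,
  `frp_ge qmFr`, `rsw_half`: `xf (1/2) 2 q ≤ xf (1/2) 2 k ≤ D frp (1/2) 1 k = D ff (1/2) 1 k ≤
  D C P (StO (1/2) false 1 m) ≤ (D C / c1) P (Pvt (1/2) N v')` (`2 m ≤ 4 q`, `N = 20 q ≤ 64 m`).
-/

namespace Pool.Agent.TriPerc

open MeasureTheory Set

private theorem nrm_le {w : V} {m : ℤ} : nrm w ≤ m ↔ |w.1| ≤ m ∧ |w.2| ≤ m ∧ |w.1 + w.2| ≤ m := by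
  unfold nrm
  rw [max_le_iff, max_le_iff, and_assoc]

theorem pvt_four {t : ℝ} {N l : ℤ} {v : V} {w : Lab} (hl : 2 ≤ l) (h1 : l < v.1)
    (h2 : v.1 + l < N) (h3 : l < v.2) (h4 : v.2 + l < N) (hw : w ∈ Pvt t N v) :
    Four (Op t w) v 2 l := by
  obtain ⟨⟨x, hx, y, hy, hxy⟩, hno⟩ := hw
  have hx' : x.1 ≤ 0 := hx
  have hy' : N ≤ y.1 := hy
  obtain ⟨D, hD⟩ : ∃ D : Set V, D = Par 0 N 0 N := ⟨_, rfl⟩
  rw [← hD] at hxy
  have hno' : ¬ Conn ((Op t w \ {v}) ∩ D) x y := by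
    intro h
    rw [hD] at h
    exact hno ⟨x, hx, y, hy, h⟩
  have hxv : x ≠ v := fun h => by
    rw [h] at hx'
    omega
  have hyv : y ≠ v := fun h => by
    rw [h] at hy'
    omega
  have key : ∀ a b : V, Conn ((Op t w ∪ {v}) ∩ D) a b → a ≠ v →
      ¬ Conn ((Op t w \ {v}) ∩ D) a b →
      ∃ z, Conn ((Op t w \ {v}) ∩ D) z a ∧ nrm (z - v) ≤ 2 := by
    intro a b hab ha hnab
    have ha' : a ∈ (Op t w \ {v}) ∩ D := by
      obtain ⟨h5, h6⟩ := hab.left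
      rcases h5 with h5 | h5
      · exact ⟨⟨h5, ha⟩, h6⟩
      · exact absurd h5 ha
    obtain ⟨z, u, hz, hu, hzu, -, hub⟩ := hab.exit (A := comp ((Op t w \ {v}) ∩ D) a)
      (Conn.refl ha') hnab
    have huv : u = v := by
      by_contra h5
      refine hu (comp_adj hz ⟨⟨?_, h5⟩, hub.left.2⟩ hzu)
      rcases hub.left.1 with h6 | h6
      · exact h6
      · exact absurd h6 h5
    have h5 := abs_le.1 (nrm_adj hzu v)
    rw [huv, sub_self] at h5
    have h6 : nrm (0 : V) = 0 := nrm_zero_iff.2 rfl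
    have hz' : Conn ((Op t w \ {v}) ∩ D) a z := hz
    exact ⟨z, hz'.symm, by omega⟩
  obtain ⟨a, ha, han⟩ := key x y hxy hxv hno'
  obtain ⟨b, hb, hbn⟩ := key y x hxy.symm hyv fun h => hno' h.symm
  have hfx : l ≤ nrm (x - v) := by
    have h5 := (nrm_le.1 (le_refl (nrm (x - v)))).1
    have h6 := neg_abs_le (x - v).1
    have h7 : (x - v).1 = x.1 - v.1 := rfl
    omega
  have hfy : l ≤ nrm (y - v) := by
    have h5 := (nrm_le.1 (le_refl (nrm (y - v)))).1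
    have h6 := le_abs_self (y - v).1
    have h7 : (y - v).1 = y.1 - v.1 := rfl
    omega
  have hF : Four (Op t w \ {v}) v 2 l := by
    refine four_of_conn ha hb (fun h => hno' (ha.symm.trans (h.trans hb))) han hfx hbn hfy hl ?_
    intro z hz
    obtain ⟨h5, h6, -⟩ := nrm_le.1 hz.2
    rw [abs_le] at h5 h6
    have h7 : (z - v).1 = z.1 - v.1 := rfl
    have h8 : (z - v).2 = z.2 - v.2 := rfl
    rw [hD]
    exact ⟨by omega, by omega, by omega, by omega⟩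
  refine (four_congr ?_).1 hF
  ext z
  constructor
  · rintro ⟨⟨h5, -⟩, h6⟩
    exact ⟨h5, h6⟩
  · rintro ⟨h5, h6⟩
    refine ⟨⟨h5, fun h7 => ?_⟩, h6⟩
    have h8 := h6.1
    rw [show z = v from h7, sub_self, nrm_zero_iff.2 rfl] at h8
    omega

private theorem ph_congr {S T : Set V} {l r b t : ℤ} (h : S ∩ Par l r b t = T ∩ Par l r b t) :
    PH S l r b t ↔ PH T l r b t := by
  unfold PH
  rw [h]

private theorem ph_inc {S T : Set V} {l r b t : ℤ} (h : S ⊆ T) (k : PH S l r b t) :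
    PH T l r b t := by
  obtain ⟨x, hx, y, hy, hxy⟩ := k
  exact ⟨x, hx, y, hy, hxy.mono fun z hz => ⟨h hz.1, hz.2⟩⟩

private theorem meas_ph (F : Set V → Set V) (l r b t : ℤ)
    (hF : ∀ S, F (S ∩ Par l r b t) ∩ Par l r b t = F S ∩ Par l r b t) :
    MeasurableSet {w : Lab | PH (F (Op (1 / 2) w)) l r b t} := by
  have h := (ev_op (finite_par l r b t) (1 / 2) (fun T => PH (F T) l r b t)).1
  have e : {w : Lab | PH (F (Op (1 / 2) w ∩ Par l r b t)) l r b t} =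
      {w : Lab | PH (F (Op (1 / 2) w)) l r b t} := by
    ext w
    exact ph_congr (hF _)
  rwa [e] at h

private theorem int_bdd {f : Lab → ℝ} (hf : Measurable f) {C : ℝ} (h : ∀ w, |f w| ≤ C) :
    Integrable f P :=
  Integrable.of_bound hf.aestronglyMeasurable C (Filter.Eventually.of_forall h)

theorem pvt_cov {N l : ℤ} {v : V} (hl : 2 ≤ l) (h1 : l < v.1)
    (h2 : v.1 + l < N) (h3 : l < v.2) (h4 : v.2 + l < N) :
    ∫ w, {w : Lab | PH (Op (1 / 2) w) 0 N 0 N}.indicator (fun _ => (1 : ℝ)) w * hv l v w ∂P =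
      (P (Pvt (1 / 2) N v)).toReal / 4 := by
  classical
  obtain ⟨A1, hA1⟩ : ∃ A1 : Set Lab, A1 = {w | PH (Op (1 / 2) w ∪ {v}) 0 N 0 N} := ⟨_, rfl⟩
  obtain ⟨A0, hA0⟩ : ∃ A0 : Set Lab, A0 = {w | PH (Op (1 / 2) w \ {v}) 0 N 0 N} := ⟨_, rfl⟩
  have m1 : MeasurableSet A1 := by
    rw [hA1]
    refine meas_ph (fun S => S ∪ {v}) 0 N 0 N fun S => ?_
    ext z
    constructor
    · rintro ⟨h5 | h5, h6⟩
      · exact ⟨Or.inl h5.1, h6⟩
      · exact ⟨Or.inr h5, h6⟩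
    · rintro ⟨h5 | h5, h6⟩
      · exact ⟨Or.inl ⟨h5, h6⟩, h6⟩
      · exact ⟨Or.inr h5, h6⟩
  have m0 : MeasurableSet A0 := by
    rw [hA0]
    refine meas_ph (fun S => S \ {v}) 0 N 0 N fun S => ?_
    ext z
    constructor
    · rintro ⟨⟨h5, h7⟩, h6⟩
      exact ⟨⟨h5.1, h7⟩, h6⟩
    · rintro ⟨⟨h5, h7⟩, h6⟩
      exact ⟨⟨⟨h5, h6⟩, h7⟩, h6⟩
  have h01 : A0 ⊆ A1 := by
    rw [hA0, hA1]
    intro w hw
    exact ph_inc (fun z hz => Or.inl hz.1) hw
  have hP : Pvt (1 / 2) N v = A1 \ A0 := by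
    rw [hA0, hA1]
    rfl
  obtain ⟨g, hg⟩ : ∃ g : Lab → ℝ, g = fun w => (A0.indicator (fun _ => (1 : ℝ)) w +
      A1.indicator (fun _ => (1 : ℝ)) w) / 2 := ⟨_, rfl⟩
  have hgm : Measurable g := by
    rw [hg]
    exact ((measurable_const.indicator m0).add (measurable_const.indicator m1)).div_const 2
  have ind01 : ∀ (A : Set Lab) w, 0 ≤ A.indicator (fun _ => (1 : ℝ)) w ∧
      A.indicator (fun _ => (1 : ℝ)) w ≤ 1 := by
    intro A w
    by_cases h : w ∈ A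
    · rw [indicator_of_mem h]
      norm_num
    · rw [indicator_of_notMem h]
      norm_num
  have hg1 : ∀ w, |g w| ≤ 1 := by
    intro w
    have h5 := ind01 A0 w
    have h6 := ind01 A1 w
    rw [hg, abs_le]
    constructor <;> dsimp only <;> linarith [h5.1, h5.2, h6.1, h6.2]
  have hgc : ∀ w w' : Lab, (∀ u, u ≠ v → w u = w' u) → g w = g w' := by
    intro w w' h
    have e1 : (w ∈ A1) = (w' ∈ A1) := by
      rw [hA1]
      have : Op (1 / 2) w ∪ {v} = Op (1 / 2) w' ∪ {v} := by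
        ext z
        by_cases hz : z = v
        · exact ⟨fun _ => Or.inr hz, fun _ => Or.inr hz⟩
        · change (w z ≤ 1 / 2 ∨ z = v) ↔ (w' z ≤ 1 / 2 ∨ z = v)
          rw [h z hz]
      simp only [mem_ofPred_eq, this]
    have e0 : (w ∈ A0) = (w' ∈ A0) := by
      rw [hA0]
      have : Op (1 / 2) w \ {v} = Op (1 / 2) w' \ {v} := by
        ext z
        by_cases hz : z = v
        · exact ⟨fun h => absurd hz h.2, fun h => absurd hz h.2⟩
        · change (w z ≤ 1 / 2 ∧ ¬ z = v) ↔ (w' z ≤ 1 / 2 ∧ ¬ z = v)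
          rw [h z hz]
      simp only [mem_ofPred_eq, this]
    rw [hg]
    simp only [indicator, e1, e0]
  have key : ∀ w, {w : Lab | PH (Op (1 / 2) w) 0 N 0 N}.indicator (fun _ => (1 : ℝ)) w *
      hv l v w = g w * hv l v w + 1 / 4 * (Pvt (1 / 2) N v).indicator (fun _ => (1 : ℝ)) w := by
    intro w
    have h5 : (Pvt (1 / 2) N v).indicator (fun _ => (1 : ℝ)) w =
        A1.indicator (fun _ => (1 : ℝ)) w - A0.indicator (fun _ => (1 : ℝ)) w := by
      rw [hP]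
      by_cases h6 : w ∈ A0
      · rw [indicator_of_notMem (fun h => h.2 h6), indicator_of_mem h6,
          indicator_of_mem (h01 h6), sub_self]
      · by_cases h7 : w ∈ A1
        · rw [indicator_of_mem (show w ∈ A1 \ A0 from ⟨h7, h6⟩), indicator_of_mem h7,
            indicator_of_notMem h6, sub_zero]
        · rw [indicator_of_notMem (fun h => h7 h.1), indicator_of_notMem h7,
            indicator_of_notMem h6, sub_zero]
    by_cases hF : Four (Op (1 / 2) w) v 2 l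
    · by_cases hc : w v ≤ 1 / 2
      · have e1 : {w : Lab | PH (Op (1 / 2) w) 0 N 0 N}.indicator (fun _ => (1 : ℝ)) w =
            A1.indicator (fun _ => (1 : ℝ)) w := by
          have : Op (1 / 2) w ∪ {v} = Op (1 / 2) w := by
            rw [union_eq_left]
            rintro z rfl
            exact hc
          rw [hA1]
          simp only [indicator, mem_ofPred_eq, this]
        have e2 : hv l v w = 1 / 2 := by
          unfold hv
          rw [if_pos hF, if_pos hc]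
        rw [e1, e2, h5, hg]
        ring
      · have e1 : {w : Lab | PH (Op (1 / 2) w) 0 N 0 N}.indicator (fun _ => (1 : ℝ)) w =
            A0.indicator (fun _ => (1 : ℝ)) w := by
          have : Op (1 / 2) w \ {v} = Op (1 / 2) w := by
            ext z
            refine ⟨fun h => h.1, fun h => ⟨h, ?_⟩⟩
            rintro rfl
            exact hc h
          rw [hA0]
          simp only [indicator, mem_ofPred_eq, this]
        have e2 : hv l v w = -1 / 2 := by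
          unfold hv
          rw [if_pos hF, if_neg hc]
        rw [e1, e2, h5, hg]
        ring
    · have e1 : hv l v w = 0 := by
        unfold hv
        rw [if_neg hF]
      have e2 : w ∉ Pvt (1 / 2) N v := fun h => hF (pvt_four hl h1 h2 h3 h4 h)
      rw [e1, indicator_of_notMem e2]
      ring
  have hI1 : Integrable (fun w => g w * hv l v w) P := by
    refine int_bdd (C := 1) (hgm.mul (measurable_hv l v)) fun w => ?_
    rw [abs_mul]
    have h5 := hg1 w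
    have h6 := hv_bound l v w
    have h7 := abs_nonneg (g w)
    have h8 := abs_nonneg (hv l v w)
    nlinarith
  have hPm : MeasurableSet (Pvt (1 / 2) N v) := by
    rw [hP]
    exact m1.diff m0
  have hI2 : Integrable (fun w => 1 / 4 * (Pvt (1 / 2) N v).indicator (fun _ => (1 : ℝ)) w) P :=
    ((integrable_const (1 : ℝ)).indicator hPm).const_mul _
  simp only [key]
  rw [integral_add hI1 hI2, hv_mul hgm hg1 hgc, zero_add, integral_const_mul,
    integral_indicator_const _ hPm, smul_eq_mul, mul_one, Measure.real]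
  ring

private theorem par_tr (q : ℤ) (S : Set V) :
    PH (tr (10 * q, 10 * q) ⁻¹' S) (-(10 * q)) (10 * q) (-(10 * q)) (10 * q) ↔
      PH S 0 (20 * q) 0 (20 * q) := by
  have e0 : tr (10 * q, 10 * q) ⁻¹' (S ∩ Par 0 (20 * q) 0 (20 * q)) =
      tr (10 * q, 10 * q) ⁻¹' S ∩ Par (-(10 * q)) (10 * q) (-(10 * q)) (10 * q) := by
    ext z
    refine and_congr Iff.rfl ?_
    change (0 ≤ z.1 + 10 * q ∧ z.1 + 10 * q ≤ 20 * q ∧ 0 ≤ z.2 + 10 * q ∧
      z.2 + 10 * q ≤ 20 * q) ↔ (-(10 * q) ≤ z.1 ∧ z.1 ≤ 10 * q ∧ -(10 * q) ≤ z.2 ∧ z.2 ≤ 10 * q)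
    constructor
    · rintro ⟨h1, h2, h3, h4⟩
      exact ⟨by omega, by omega, by omega, by omega⟩
    · rintro ⟨h1, h2, h3, h4⟩
      exact ⟨by omega, by omega, by omega, by omega⟩
  have e1 : tr (10 * q, 10 * q) ⁻¹' {z : V | z.1 ≤ 0} = {z : V | z.1 ≤ -(10 * q)} := by
    ext z
    change z.1 + 10 * q ≤ 0 ↔ z.1 ≤ -(10 * q)
    constructor <;> intro h <;> omega
  have e2 : tr (10 * q, 10 * q) ⁻¹' {z : V | 20 * q ≤ z.1} = {z : V | 10 * q ≤ z.1} := by
    ext z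
    change 20 * q ≤ z.1 + 10 * q ↔ 10 * q ≤ z.1
    constructor <;> intro h <;> omega
  unfold PH
  rw [← e0, ← e1, ← e2]
  exact join_preimage (isAut_tr _)

private theorem four_pre (S : Set V) (z v : V) (n m : ℤ) :
    Four (tr z ⁻¹' S) v n m ↔ Four S (v + z) n m := by
  have e : tr z ⁻¹' S ∩ Ann v n m = tr z ⁻¹' (S ∩ Ann (v + z) n m) := by
    ext w
    change w + z ∈ S ∧ (n ≤ nrm (w - v) ∧ nrm (w - v) ≤ m) ↔
      w + z ∈ S ∧ (n ≤ nrm (w + z - (v + z)) ∧ nrm (w + z - (v + z)) ≤ m)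
    rw [add_sub_add_right_eq_sub]
  have c : ∀ a b, Conn (tr z ⁻¹' S ∩ Ann v n m) a b ↔
      Conn (S ∩ Ann (v + z) n m) (a + z) (b + z) := by
    intro a b
    rw [e]
    exact conn_preimage (isAut_tr z)
  have c' : ∀ a b, Conn (S ∩ Ann (v + z) n m) a b ↔
      Conn (tr z ⁻¹' S ∩ Ann v n m) (a - z) (b - z) := by
    intro a b
    rw [c, sub_add_cancel, sub_add_cancel]
  have d : ∀ a : V, a - (v + z) = a - z - v := fun a => by abel
  constructor
  · rintro ⟨a, b, a', b', hu, hv, hu', hv', h1, h2, h3⟩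
    refine ⟨a + z, b + z, a' + z, b' + z, ?_, ?_, ?_, ?_, (c a b).1 h1, (c a' b').1 h2,
      fun h => h3 ((c a a').2 h)⟩ <;> rwa [add_sub_add_right_eq_sub]
  · rintro ⟨a, b, a', b', hu, hv, hu', hv', h1, h2, h3⟩
    refine ⟨a - z, b - z, a' - z, b' - z, ?_, ?_, ?_, ?_, (c' a b).1 h1, (c' a' b').1 h2,
      fun h => h3 ((c' a a').2 h)⟩ <;> rwa [← d]

private theorem cov_tr (q l : ℤ) (v : V) :
    ∫ w, {w : Lab | PH (Op (1 / 2) w) (-(10 * q)) (10 * q) (-(10 * q))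
      (10 * q)}.indicator (fun _ => (1 : ℝ)) w * hv l v w ∂P =
    ∫ w, {w : Lab | PH (Op (1 / 2) w) 0 (20 * q) 0 (20 * q)}.indicator
      (fun _ => (1 : ℝ)) w * hv l (v + (10 * q, 10 * q)) w ∂P := by
  classical
  have mA : MeasurableSet {w : Lab | PH (Op (1 / 2) w) (-(10 * q)) (10 * q) (-(10 * q))
      (10 * q)} := by
    refine meas_ph (fun S => S) _ _ _ _ fun S => ?_
    rw [inter_assoc, inter_self]
  have mF : Measurable fun w : Lab => {w : Lab | PH (Op (1 / 2) w) (-(10 * q)) (10 * q)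
      (-(10 * q)) (10 * q)}.indicator (fun _ => (1 : ℝ)) w * hv l v w :=
    (measurable_const.indicator mA).mul (measurable_hv l v)
  have h1 := mp_comp (tr (10 * q, 10 * q))
  conv_lhs => rw [← h1.map_eq]
  rw [integral_map h1.measurable.aemeasurable mF.aestronglyMeasurable]
  congr 1
  funext w
  have e1 : {w : Lab | PH (Op (1 / 2) w) (-(10 * q)) (10 * q) (-(10 * q))
      (10 * q)}.indicator (fun _ => (1 : ℝ)) (fun u => w (tr (10 * q, 10 * q) u)) =
      {w : Lab | PH (Op (1 / 2) w) 0 (20 * q) 0 (20 * q)}.indicator (fun _ => (1 : ℝ)) w := by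
    simp only [indicator, mem_ofPred_eq, op_comp, par_tr]
  have e2 : hv l v (fun u => w (tr (10 * q, 10 * q) u)) = hv l (v + (10 * q, 10 * q)) w := by
    unfold hv
    simp only [op_comp, four_pre]
    rfl
  rw [e1, e2]

private theorem scale {q : ℤ} (hq : 8 ≤ q) : ∃ i : ℕ, q ≤ (2 : ℤ) ^ i ∧
    (2 : ℤ) ^ i < 2 * q ∧ 8 ≤ (2 : ℤ) ^ i ∧ (2 : ℤ) ^ i = 4 * ((2 : ℤ) ^ i / 4) := by
  obtain ⟨n, rfl⟩ : ∃ n : ℕ, q = n := ⟨q.toNat, by omega⟩
  have hn : 8 ≤ n := by omega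
  have h1 : 2 * n - 1 ≠ 0 := by omega
  have h2 := Nat.pow_log_le_self 2 h1
  have h3 := Nat.lt_pow_succ_log_self (b := 2) (by norm_num) (2 * n - 1)
  have h4 : 3 ≤ Nat.log 2 (2 * n - 1) := Nat.le_log_of_pow_le (by norm_num) (by omega)
  refine ⟨Nat.log 2 (2 * n - 1), ?_, ?_, ?_, ?_⟩
  · rw [pow_succ] at h3
    have : n ≤ 2 ^ Nat.log 2 (2 * n - 1) := by omega
    exact_mod_cast this
  · have : 2 ^ Nat.log 2 (2 * n - 1) < 2 * n := by omega
    exact_mod_cast this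
  · obtain ⟨k, hk⟩ := Nat.exists_eq_add_of_le h4
    rw [hk, pow_add]
    have : (1 : ℤ) ≤ 2 ^ k := one_le_pow₀ (by norm_num)
    norm_num
    omega
  · obtain ⟨k, hk⟩ := Nat.exists_eq_add_of_le h4
    rw [hk, pow_add]
    norm_num
    omega

theorem cov_low : ∃ c : ℝ, 0 < c ∧ ∀ (q l : ℤ) (v : V), 8 ≤ q → 2 ≤ l → l ≤ q →
    |v.1| ≤ 6 * q → |v.2| ≤ 6 * q →
    c * xf (1 / 2) 2 q ≤ ∫ w, {w : Lab | PH (Op (1 / 2) w) (-(10 * q)) (10 * q) (-(10 * q))
      (10 * q)}.indicator (fun _ => (1 : ℝ)) w * hv l v w ∂P := by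
  obtain ⟨c, hR⟩ := rsw_half
  have hc : 0 < c := (hR 1).1
  obtain ⟨C, hC, hS⟩ := sep_out' c hc
  obtain ⟨c1, hc1, hPv⟩ := pvt_sto c hc
  obtain ⟨D, hD, hF⟩ := frp_ge qmFr c hc
  refine ⟨c1 / (4 * D * C), by positivity, fun q l v hq hl hlq hv1 hv2 => ?_⟩
  rw [abs_le] at hv1 hv2
  obtain ⟨v', hv'⟩ : ∃ v' : V, v' = v + (10 * q, 10 * q) := ⟨_, rfl⟩
  have g1 : v'.1 = v.1 + 10 * q := by rw [hv']; rfl
  have g2 : v'.2 = v.2 + 10 * q := by rw [hv']; rfl
  rw [cov_tr, ← hv', pvt_cov hl (by omega) (by omega) (by omega) (by omega)]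
  obtain ⟨i, hi1, hi2, hi3, hi4⟩ := scale hq
  obtain ⟨m, hm⟩ : ∃ m : ℤ, m = (2 : ℤ) ^ i := ⟨_, rfl⟩
  rw [← hm] at hi1 hi2 hi3 hi4
  obtain ⟨k, hk⟩ : ∃ k : ℤ, k = m / 4 := ⟨_, rfl⟩
  rw [← hk] at hi4
  have hk2 : 2 ≤ k := by omega
  have f1 := hPv (1 / 2) (20 * q) m v' (hR _) (by omega) (by omega) (by omega) (by omega)
    (by omega) (by omega)
  have f2 := hS (1 / 2) (20 * q) (hR _) 1 k i false le_rfl (by omega) (by rw [← hm]; omega)
    (by rw [← hm]; omega) (by rw [← hm]; omega)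
  rw [← hm] at f2
  have f3 := hF (1 / 2) (20 * q) (hR _) k hk2 (by omega)
  have hff : frp (1 / 2) 1 k = ff (1 / 2) 1 k := rfl
  rw [hff] at f3
  have f4 : xf (1 / 2) 2 q ≤ xf (1 / 2) 2 k := xf_anti le_rfl hk2 (by omega)
  have f5 : xf (1 / 2) 2 q ≤ D * (C * (P (StO (1 / 2) false 1 m)).toReal) :=
    (f4.trans f3).trans (mul_le_mul_of_nonneg_left f2 hD.le)
  calc c1 / (4 * D * C) * xf (1 / 2) 2 q
      ≤ c1 / (4 * D * C) * (D * (C * (P (StO (1 / 2) false 1 m)).toReal)) :=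
        mul_le_mul_of_nonneg_left f5 (by positivity)
    _ = c1 * (P (StO (1 / 2) false 1 m)).toReal / 4 := by
        field_simp
    _ ≤ (P (Pvt (1 / 2) (20 * q) v')).toReal / 4 := by
        linarith

end Pool.Agent.TriPerc
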