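import Pool.Agent.TriPerc.NoBox
import Pool.Agent.TriPerc.Sqr

/-!
# The four-arm event of a square annulus (deterministic part)

Let `S` be a set of vertices (the open ones).  `Ty S z n m u` (typed vertex): `u` is on the outer ring
`Rg z m` and is joined inside `S ∩ SA z n m` to a vertex which has a neighbour in the inner square
`Sq z (n - 1)`.  `Fr S z n m`: there are two typed vertices which are not joined inside
`S ∩ SA z n m`, i.e. two different `S`-clusters of the annulus cross it.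
`kq z m v` is the `key` of the square of radius `m` round `z`.
`Inter a b a' b'` (interlaced keys): `a < b < a'` and (`b' < a` or `a' < b'`).

* `fr_of_two`: let `R` be a set disjoint from `Sq v s` which contains `SA v (s+1) r`, `s < r`; let
  `a, a'` have neighbours in `Sq v s`, let `a` be joined to `u` and `a'` to `u'` in `S ∩ R`, with
  `sn (u - v) ≥ r`, `sn (u' - v) ≥ r`, and suppose `a, a'` are not joined in `S ∩ R`.  Then
  `Fr S v (s+1) r`.  PROOF: `sarm_from` (the paths stay outside `Sq v s`, so in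
  `{s + 1 ≤ sn (· - v)}`) gives `b, b' ∈ Rg v r` joined to `a, a'` in `S ∩ SA v (s+1) r`.
* `fr_sub`: if `Fr S z n m` and `n ≤ n' ≤ m' ≤ m` then `Fr S z n' m'`.
  PROOF.  Let `u, v` be typed and not joined, `x, y` the inner ends of their paths.  If `n' = n` put
  `a = x`; otherwise take the last exit (`Conn.last`) of the path from `x` to `u` from the set
  `Sq z (n' - 1)`; it gives `a ∉ Sq z (n' - 1)`, adjacent to a vertex of `Sq z (n' - 1)`, and joined to
  `u` in `S ∩ SA z n m` minus this square.  By `sarm_from` `a` is joined to a vertex of `Rg z m'` inside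
  `S ∩ SA z n' m'` (this path is a path of the same cluster).  The same for `v`.  If the two new
  vertices were joined in the small annulus then `u, v` would be joined in the large one.
* `sep_box`: if `A, B` are disjoint, `p, p'` joined in `A ∩ Sq z m`, `q, q'` joined in `B ∩ Sq z m`, all
  four on `Rg z m`, `0 < m`, then their keys are not interlaced (`no_box'`, `sq_eq`, `rg_eq`).
* `ty_center`: a typed vertex is joined to `z` in `(S ∩ SA z n m) ∪ Sq z (n - 1)` (`isConn_sq`).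
* `ty_of_hit`: if `u ∈ Rg z m` is joined to a vertex of `Sq z (n - 1)` in
  `(S ∩ SA z n m) ∪ Sq z (n - 1)`, `n ≤ m`, then it is typed (`Conn.exit` for the complement of
  `Sq z (n - 1)`).
* `fr_alt`: `1 ≤ n ≤ m`, `Fr S z n m`.  Then there are `p, p'` typed for `S` and `q, q'` typed for
  `Sᶜ` with interlaced keys.
  PROOF.  Let `p, p'` be the two typed vertices, `key p < key p'` (exchange them if necessary; the
  keys are different because `p ≠ p'`, `key_inj`).  Apply `hexrim` to the box `Sq z m` and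
  `S' = S ∩ SA z n m`.  The first alternative says that `p, p'` are joined in `S'`: no.  So there are
  `q, q'` with interlaced keys, not in `S'`, joined in `S'ᶜ ∩ Sq z m ⊆ (Sᶜ ∩ SA z n m) ∪ Sq z (n-1)`.
  If this path avoids `Sq z (n - 1)`, then `q, q'` are joined in `B = Sᶜ ∩ SA z n m`, while `p, p'` are
  joined in the disjoint set `A = (S ∩ SA z n m) ∪ Sq z (n - 1)` (`ty_center` twice); contradiction
  to `sep_box`.  So it visits `Sq z (n - 1)`; by `ty_of_hit` both `q` and `q'` are typed for `Sᶜ`.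
  (Formally: either `Conn (Sᶜ ∩ SA z n m) q q'`, or there is a vertex of `Sq z (n-1)` joined to `q` and
  to `q'` in the union; use `Conn.exit` for the set `(Sq z (n-1))ᶜ`.)
* `fr_of_alt`: conversely, if `p, p'` are typed for `S`, `q, q'` typed for `Sᶜ`, `1 ≤ n ≤ m`, and the keys
  are interlaced, then `Fr S z n m` and `Fr Sᶜ z n m`.  PROOF: if `p, p'` were joined in
  `S ∩ SA z n m`, take `B = (Sᶜ ∩ SA z n m) ∪ Sq z (n - 1)` in `sep_box`.  The other one in the same way.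
* `fr_compl`: `Fr Sᶜ z n m ↔ Fr S z n m`.
* `fr_piv`: `B = Sq v s`, `Sq v r ⊆ SA z n m`, `0 ≤ s < r`, `1 ≤ n`.  If exactly one of
  `Fr (S ∪ B) z n m`, `Fr (S \ B) z n m` holds, then `Fr S v (s+1) r`.
  PROOF.  First case: `Fr (S \ B)` holds, `Fr (S ∪ B)` does not.  Let `u, u'` be typed for `S \ B` and
  not joined.  They are typed for `S ∪ B`, so they are joined in `(S ∪ B) ∩ SA z n m`; the path must
  visit `B`; its part before the first visit and after the last visit give `a, a'` adjacent to `B`,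
  joined to `u` resp. `u'` in `(S \ B) ∩ SA z n m`.  `a, a'` are not joined there.  `fr_of_two` with
  `R = SA z n m \ B`; `sn (u - v) ≥ m - sn (v - z) ≥ r` because the vertices of `Sq v r` have
  `sn (· - z) ≤ m` (take a vertex of `Sq v r` in the direction of the larger coordinate of
  `v - z`; if `u` had `sn (u - v) < r` then some vertex of `Sq v r` next to `u` would have
  `sn (· - z) = m + 1`).  Second case: take complements (`fr_compl`).
* `fr_ph`, `fr_pv`: if `PH (S ∪ B) l r b t` holds and `PH (S \ B) l r b t` does not, `B = Sq v s` and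
  `Sq v k ⊆ Par l r b t`, `0 ≤ s < k`, then `Fr S v (s+1) k`.  PROOF: the crossing path visits `B`; cut it at
  the first and at the last visit; `fr_of_two` with `R = Par l r b t \ B`.
-/

namespace Pool.Agent.TriPerc

/-- Typed vertices of the outer ring. -/
def Ty (S : Set V) (z : V) (n m : ℤ) (u : V) : Prop :=
  u ∈ Rg z m ∧ ∃ x, ∃ y ∈ Sq z (n - 1), Adj x y ∧ Conn (S ∩ SA z n m) u x

/-- The four-arm event: two different clusters of the annulus cross it. -/
def Fr (S : Set V) (z : V) (n m : ℤ) : Prop :=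
  ∃ u v, Ty S z n m u ∧ Ty S z n m v ∧ ¬ Conn (S ∩ SA z n m) u v

/-- The key on the ring of radius `m` round `z`. -/
def kq (z : V) (m : ℤ) (v : V) : ℤ := key (z.1 - m) (z.1 + m) (z.2 - m) (z.2 + m) v

/-- Interlaced keys. -/
def Inter (a b a' b' : ℤ) : Prop := a < b ∧ b < a' ∧ (b' < a ∨ a' < b')

variable {S A B R : Set V} {z u u' v a a' p p' q q' : V} {n m n' m' s r k l b t : ℤ}

private theorem rg_rim (hm : 0 ≤ m) (hu : u ∈ Rg z m) :
    u ∈ Rim (z.1 - m) (z.1 + m) (z.2 - m) (z.2 + m) := by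
  rw [← rg_eq hm z] at hu
  exact hu

private theorem rim_rg (hm : 0 ≤ m) (hu : u ∈ Rim (z.1 - m) (z.1 + m) (z.2 - m) (z.2 + m)) :
    u ∈ Rg z m := by
  rw [← rg_eq hm z]
  exact hu

theorem kq_inj (hm : 0 < m) (hu : u ∈ Rg z m) (hv : v ∈ Rg z m) (h : kq z m u = kq z m v) :
    u = v :=
  key_inj (by omega) (by omega) (rg_rim hm.le hu) (rg_rim hm.le hv) h

/-- A path which meets `B` and starts outside `B` reaches a neighbour of `B`. -/
private theorem reach_nb {T : Set V} {c : V} (h : Conn T u c) (hu : u ∉ B) (hc : c ∈ B) :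
    ∃ a, (∃ y ∈ B, Adj a y) ∧ Conn (T \ B) a u := by
  obtain ⟨x, y, h1, h2, h3, h4, -⟩ := h.exit (A := Bᶜ) hu (not_not_intro hc)
  exact ⟨x, ⟨y, not_not.1 h2, h3⟩, h4.symm.mono fun w hw => ⟨hw.1, hw.2⟩⟩

/-- A path either avoids `B` or meets `B`. -/
private theorem avoid_or {T : Set V} (h : Conn T u u') :
    Conn (T \ B) u u' ∨ ∃ c ∈ B, Conn T u c ∧ Conn T u' c := by
  by_cases hB : ∃ c ∈ B, Conn T u c
  · obtain ⟨c, hc, h1⟩ := hB
    exact Or.inr ⟨c, hc, h1, h.symm.trans h1⟩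
  · refine Or.inl (h.in_comp.mono fun w hw => ⟨comp_subset hw, fun hw' => hB ⟨w, hw', hw⟩⟩)

theorem fr_of_two (hs : 0 ≤ s) (hr : s < r) (hR : Disjoint R (Sq v s))
    (hR' : SA v (s + 1) r ⊆ R) (ha : ∃ y ∈ Sq v s, Adj a y) (ha' : ∃ y ∈ Sq v s, Adj a' y)
    (hu : Conn (S ∩ R) a u) (hu' : Conn (S ∩ R) a' u') (hur : r ≤ sn (u - v))
    (hur' : r ≤ sn (u' - v)) (hno : ¬ Conn (S ∩ R) a a') : Fr S v (s + 1) r := by
  have hout : S ∩ R ⊆ {x | s + 1 ≤ sn (x - v)} := by
    rintro x ⟨-, hx⟩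
    have h1 : ¬ sn (x - v) ≤ s := fun h => Set.disjoint_left.1 hR hx h
    show s + 1 ≤ sn (x - v)
    omega
  have key : ∀ {a u : V}, (∃ y ∈ Sq v s, Adj a y) → Conn (S ∩ R) a u → r ≤ sn (u - v) →
      ∃ b, Ty S v (s + 1) r b ∧ Conn (S ∩ R) a b := by
    rintro a u ⟨y, hy, hay⟩ h hur
    have h1 : sn (y - v) ≤ s := hy
    have h2 := abs_le.1 (sn_adj hay.symm v)
    obtain ⟨b, hb, h3⟩ := sarm_from h hout (by omega : sn (a - v) ≤ r) hur
    refine ⟨b, ⟨hb, a, y, ?_, hay, h3.symm.mono fun w hw => ⟨hw.1.1, hw.2⟩⟩,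
      h3.mono fun w hw => hw.1⟩
    show sn (y - v) ≤ s + 1 - 1
    omega
  obtain ⟨b, hb, h1⟩ := key ha hu hur
  obtain ⟨b', hb', h2⟩ := key ha' hu' hur'
  refine ⟨b, b', hb, hb', fun h3 => hno ?_⟩
  have h4 : Conn (S ∩ R) b b' := h3.mono fun w hw => ⟨hw.1, hR' hw.2⟩
  exact h1.trans (h4.trans h2.symm)

theorem fr_sub (hn : n ≤ n') (hnm : n' ≤ m') (hm : m' ≤ m) (h : Fr S z n m) :
    Fr S z n' m' := by
  have key : ∀ {u : V}, Ty S z n m u → ∃ b, Ty S z n' m' b ∧ Conn (S ∩ SA z n m) u b := by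
    rintro u ⟨hu, x, y, hy, hxy, h1⟩
    have hy' : sn (y - z) ≤ n - 1 := hy
    have hu' : sn (u - z) = m := hu
    have h2 : Conn (insert y (S ∩ SA z n m)) y u :=
      (Conn.of_adj (Set.mem_insert _ _) (Set.mem_insert_of_mem _ h1.right) hxy.symm).trans
        (h1.symm.mono (Set.subset_insert _ _))
    have hyA : y ∈ Sq z (n' - 1) := by
      show sn (y - z) ≤ n' - 1
      omega
    have huA : u ∉ Sq z (n' - 1) := by
      intro h3
      have h4 : sn (u - z) ≤ n' - 1 := h3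
      omega
    obtain ⟨x1, y1, h3, h4, h5, -, h6⟩ := h2.last hyA huA
    have h7 : Conn ((S ∩ SA z n m) \ Sq z (n' - 1)) y1 u := by
      refine h6.mono fun w hw => ⟨?_, hw.2⟩
      rcases hw.1 with rfl | h8
      · exact absurd hyA hw.2
      · exact h8
    have h8 : sn (x1 - z) ≤ n' - 1 := h3
    have h9 := abs_le.1 (sn_adj h5 z)
    obtain ⟨b, hb, h10⟩ := sarm_from (n := n') (m := m') (z := z) h7
      (fun w hw => by
        have h11 : ¬ sn (w - z) ≤ n' - 1 := hw.2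
        show n' ≤ sn (w - z)
        omega) (by omega) (by omega)
    refine ⟨b, ⟨hb, y1, x1, h3, h5.symm, ?_⟩, ?_⟩
    · exact h10.symm.mono fun w hw => ⟨hw.1.1.1, hw.2⟩
    · exact (h7.symm.mono fun w hw => hw.1).trans (h10.mono fun w hw => hw.1.1)
  obtain ⟨u, v, hu, hv, huv⟩ := h
  obtain ⟨b, hb, h1⟩ := key hu
  obtain ⟨b', hb', h2⟩ := key hv
  refine ⟨b, b', hb, hb', fun h3 => huv ?_⟩
  have h4 : Conn (S ∩ SA z n m) b b' := h3.mono fun w hw => ⟨hw.1, sa_sub hn hm hw.2⟩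
  exact h1.trans (h4.trans h2.symm)

theorem sep_box (hm : 0 < m) (hd : Disjoint A B) (hp : p ∈ Rg z m) (hp' : p' ∈ Rg z m)
    (hq : q ∈ Rg z m) (hq' : q' ∈ Rg z m) (hA : Conn (A ∩ Sq z m) p p')
    (hB : Conn (B ∩ Sq z m) q q') : ¬ Inter (kq z m p) (kq z m q) (kq z m p') (kq z m q') := by
  rintro ⟨h1, h2, h3⟩
  rw [sq_eq] at hA hB
  exact no_box' (by omega) (by omega) hd (rg_rim hm.le hp) (rg_rim hm.le hp') (rg_rim hm.le hq)
    (rg_rim hm.le hq') hA hB h1 h2 h3

private theorem center_mem (hn : 0 ≤ n) : z ∈ Sq z n := by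
  show sn (z - z) ≤ n
  rw [sub_self]
  have h : sn (0 : V) = 0 := by simp [sn]
  rw [h]
  exact hn

theorem ty_center (hn : 1 ≤ n) (h : Ty S z n m u) :
    Conn ((S ∩ SA z n m) ∪ Sq z (n - 1)) u z := by
  obtain ⟨-, x, y, hy, hxy, h1⟩ := h
  have hz : z ∈ Sq z (n - 1) := center_mem (by omega)
  exact (h1.mono Set.subset_union_left).trans ((Conn.of_adj (Or.inl h1.right) (Or.inr hy) hxy).trans
    ((isConn_sq z (n - 1) y hy z hz).mono Set.subset_union_right))

theorem ty_of_hit (hnm : n ≤ m) (hu : u ∈ Rg z m) (hv : v ∈ Sq z (n - 1))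
    (h : Conn ((S ∩ SA z n m) ∪ Sq z (n - 1)) u v) : Ty S z n m u := by
  have hu' : sn (u - z) = m := hu
  have h0 : u ∉ Sq z (n - 1) := by
    intro h1
    have h2 : sn (u - z) ≤ n - 1 := h1
    omega
  obtain ⟨a, ⟨y, hy, hay⟩, h1⟩ := reach_nb h h0 hv
  refine ⟨hu, a, y, hy, hay, h1.symm.mono fun w hw => ?_⟩
  rcases hw.1 with h2 | h2
  · exact h2
  · exact absurd h2 hw.2

theorem fr_alt (hn : 1 ≤ n) (hnm : n ≤ m) (h : Fr S z n m) :
    ∃ p q p' q', Ty S z n m p ∧ Ty S z n m p' ∧ Ty Sᶜ z n m q ∧ Ty Sᶜ z n m q' ∧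
      Inter (kq z m p) (kq z m q) (kq z m p') (kq z m q') := by
  have hm : 0 < m := by omega
  have key : ∀ {p p' : V}, Ty S z n m p → Ty S z n m p' → ¬ Conn (S ∩ SA z n m) p p' →
      kq z m p < kq z m p' → ∃ p q p' q', Ty S z n m p ∧ Ty S z n m p' ∧ Ty Sᶜ z n m q ∧
        Ty Sᶜ z n m q' ∧ Inter (kq z m p) (kq z m q) (kq z m p') (kq z m q') := by
    intro p p' hp hp' hno hlt
    obtain ⟨hpr, x, y, hy, hxy, h1⟩ := id hp
    obtain ⟨hpr', x', y', hy', hxy', h1'⟩ := id hp'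
    rcases hexrim (S := S ∩ SA z n m) (by omega) (by omega) (rg_rim hm.le hpr)
      (rg_rim hm.le hpr') h1.left h1'.left hlt with h2 | ⟨q, hq, q', hq', h3, h4, h5, h6⟩
    · exact absurd (h2.mono fun w hw => hw.1) hno
    · rw [← sq_eq] at h6
      have h7 : (S ∩ SA z n m)ᶜ ∩ Sq z m ⊆ (Sᶜ ∩ SA z n m) ∪ Sq z (n - 1) := by
        rintro w ⟨hw, hw'⟩
        have h8 : sn (w - z) ≤ m := hw'
        by_cases h9 : sn (w - z) ≤ n - 1
        · exact Or.inr h9
        · have h10 : w ∈ SA z n m := ⟨by omega, h8⟩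
          exact Or.inl ⟨fun h11 => hw ⟨h11, h10⟩, h10⟩
      have h8 := h6.mono h7
      have hqr := rim_rg hm.le hq
      have hqr' := rim_rg hm.le hq'
      have hin : Inter (kq z m p) (kq z m q) (kq z m p') (kq z m q') := ⟨h3, h4, h5⟩
      rcases avoid_or (B := Sq z (n - 1)) h8 with h9 | ⟨c, hc, h9, h10⟩
      · exfalso
        refine sep_box (A := (S ∩ SA z n m) ∪ Sq z (n - 1)) (B := Sᶜ ∩ SA z n m) hm ?_ hpr hpr'
          hqr hqr' ?_ ?_ hin
        · rw [Set.disjoint_left]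
          rintro w (hw | hw) hw'
          · exact hw'.1 hw.1
          · have h10 : sn (w - z) ≤ n - 1 := hw
            have h11 := hw'.2.1
            omega
        · refine ((ty_center hn hp).trans (ty_center hn hp').symm).mono fun w hw => ⟨hw, ?_⟩
          rcases hw with hw | hw
          · exact hw.2.2
          · have h10 : sn (w - z) ≤ n - 1 := hw
            show sn (w - z) ≤ m
            omega
        · refine h9.mono fun w hw => ?_
          rcases hw.1 with h10 | h10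
          · exact ⟨h10, h10.2.2⟩
          · exact absurd h10 hw.2
      · exact ⟨p, q, p', q', hp, hp', ty_of_hit hnm hqr hc h9, ty_of_hit hnm hqr' hc h10, hin⟩
  obtain ⟨p, p', hp, hp', hno⟩ := h
  rcases lt_trichotomy (kq z m p) (kq z m p') with h1 | h1 | h1
  · exact key hp hp' hno h1
  · have h2 := kq_inj hm hp.1 hp'.1 h1
    subst h2
    obtain ⟨-, x, y, -, -, h3⟩ := hp
    exact absurd (Conn.refl h3.left) hno
  · exact key hp' hp (fun h2 => hno h2.symm) h1

theorem fr_of_alt (hn : 1 ≤ n) (hnm : n ≤ m) (hp : Ty S z n m p) (hp' : Ty S z n m p')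
    (hq : Ty Sᶜ z n m q) (hq' : Ty Sᶜ z n m q')
    (h : Inter (kq z m p) (kq z m q) (kq z m p') (kq z m q')) :
    ¬ Conn (S ∩ SA z n m) p p' ∧ ¬ Conn (Sᶜ ∩ SA z n m) q q' := by
  have hm : 0 < m := by omega
  have hsub : ∀ T : Set V, T ∩ SA z n m ∪ Sq z (n - 1) ⊆ Sq z m := by
    rintro T w (hw | hw)
    · exact hw.2.2
    · have h10 : sn (w - z) ≤ n - 1 := hw
      show sn (w - z) ≤ m
      omega
  have hdis : ∀ T : Set V, Disjoint (T ∩ SA z n m) (Sq z (n - 1)) := by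
    intro T
    rw [Set.disjoint_left]
    intro w hw hw'
    have h10 : sn (w - z) ≤ n - 1 := hw'
    have h11 := hw.2.1
    omega
  have hdc : Disjoint (S ∩ SA z n m) (Sᶜ ∩ SA z n m) :=
    Set.disjoint_left.2 fun w hw hw' => hw'.1 hw.1
  constructor
  · intro h1
    refine sep_box (A := S ∩ SA z n m) (B := (Sᶜ ∩ SA z n m) ∪ Sq z (n - 1)) hm
      (Set.disjoint_union_right.2 ⟨hdc, hdis S⟩) hp.1 hp'.1 hq.1 hq'.1
      (h1.mono fun w hw => ⟨hw, hw.2.2⟩) ?_ h
    exact ((ty_center hn hq).trans (ty_center hn hq').symm).mono fun w hw => ⟨hw, hsub _ hw⟩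
  · intro h1
    refine sep_box (A := (S ∩ SA z n m) ∪ Sq z (n - 1)) (B := Sᶜ ∩ SA z n m) hm
      (Set.disjoint_union_left.2 ⟨hdc, (hdis Sᶜ).symm⟩) hp.1 hp'.1 hq.1 hq'.1 ?_
      (h1.mono fun w hw => ⟨hw, hw.2.2⟩) h
    exact ((ty_center hn hp).trans (ty_center hn hp').symm).mono fun w hw => ⟨hw, hsub _ hw⟩

private theorem fr_compl_aux (hn : 1 ≤ n) (hnm : n ≤ m) (h : Fr S z n m) : Fr Sᶜ z n m := by
  obtain ⟨p, q, p', q', hp, hp', hq, hq', hi⟩ := fr_alt hn hnm h
  exact ⟨q, q', hq, hq', (fr_of_alt hn hnm hp hp' hq hq' hi).2⟩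

theorem fr_compl (hn : 1 ≤ n) (hnm : n ≤ m) : Fr Sᶜ z n m ↔ Fr S z n m := by
  refine ⟨fun h => ?_, fr_compl_aux hn hnm⟩
  have h1 := fr_compl_aux hn hnm h
  rwa [compl_compl] at h1

/-- The part which is common to `fr_piv`, `fr_ph`, `fr_pv`: two vertices which are far away from
`v` and are joined in `(S ∪ Sq v s) ∩ D` but not in `(S \ Sq v s) ∩ D`. -/
private theorem fr_core {D : Set V} (hs : 0 ≤ s) (hr : s < r) (hsub : Sq v r ⊆ D)
    (h : Conn ((S ∪ Sq v s) ∩ D) u u') (h' : ¬ Conn ((S \ Sq v s) ∩ D) u u')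
    (hur : r ≤ sn (u - v)) (hur' : r ≤ sn (u' - v)) : Fr S v (s + 1) r := by
  have hn : ∀ x : V, r ≤ sn (x - v) → x ∉ Sq v s := by
    intro x hx hx'
    have h1 : sn (x - v) ≤ s := hx'
    omega
  have hm1 : ((S ∪ Sq v s) ∩ D) \ Sq v s ⊆ (S \ Sq v s) ∩ D := by
    rintro w ⟨⟨h1 | h1, h2⟩, h3⟩
    · exact ⟨⟨h1, h3⟩, h2⟩
    · exact absurd h1 h3
  have hm2 : ((S ∪ Sq v s) ∩ D) \ Sq v s ⊆ S ∩ (D \ Sq v s) := by
    rintro w ⟨⟨h1 | h1, h2⟩, h3⟩
    · exact ⟨h1, h2, h3⟩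
    · exact absurd h1 h3
  rcases avoid_or (B := Sq v s) h with h1 | ⟨c, hc, h1, h2⟩
  · exact absurd (h1.mono hm1) h'
  · obtain ⟨a, ha, h3⟩ := reach_nb h1 (hn u hur) hc
    obtain ⟨a', ha', h4⟩ := reach_nb h2 (hn u' hur') hc
    refine fr_of_two (R := D \ Sq v s) hs hr Set.disjoint_sdiff_left ?_ ha ha' (h3.mono hm2)
      (h4.mono hm2) hur hur' fun h5 => h' ?_
    · rintro w ⟨hw, hw'⟩
      refine ⟨hsub hw', fun h5 => ?_⟩
      have h6 : sn (w - v) ≤ s := h5
      omega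
    · have h6 : Conn ((S \ Sq v s) ∩ D) a a' := h5.mono fun w hw => ⟨⟨hw.1, hw.2.2⟩, hw.2.1⟩
      exact ((h3.symm.mono hm1).trans h6).trans (h4.mono hm1)

private theorem sq_box {l r b t : ℤ} (hk : 0 ≤ k) (hsub : Sq v k ⊆ Par l r b t) :
    l ≤ v.1 - k ∧ v.1 + k ≤ r ∧ b ≤ v.2 - k ∧ v.2 + k ≤ t := by
  rw [sq_eq] at hsub
  have h1 : ((v.1 - k, v.2 - k) : V) ∈ Par (v.1 - k) (v.1 + k) (v.2 - k) (v.2 + k) :=
    ⟨le_rfl, by show v.1 - k ≤ v.1 + k; omega, le_rfl, by show v.2 - k ≤ v.2 + k; omega⟩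
  have h2 : ((v.1 + k, v.2 + k) : V) ∈ Par (v.1 - k) (v.1 + k) (v.2 - k) (v.2 + k) :=
    ⟨by show v.1 - k ≤ v.1 + k; omega, le_rfl, by show v.2 - k ≤ v.2 + k; omega, le_rfl⟩
  have h3 := hsub h1
  have h4 := hsub h2
  exact ⟨h3.1, h4.2.1, h3.2.2.1, h4.2.2.2⟩

private theorem le_sn (h : k ≤ |(u - v).1| ∨ k ≤ |(u - v).2|) : k ≤ sn (u - v) := by
  unfold sn
  exact le_max_iff.2 h

private theorem rg_far (hk : 0 ≤ k) (hsub : Sq v k ⊆ SA z n m) (hu : u ∈ Rg z m) :
    k ≤ sn (u - v) := by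
  have hm : 0 ≤ m := by
    have h1 : sn (u - z) = m := hu
    rw [← h1]
    exact sn_nonneg _
  have h1 := hsub.trans sa_sub_sq
  rw [sq_eq z m] at h1
  obtain ⟨h2, h3, h4, h5⟩ := sq_box hk h1
  have h6 := (rg_rim hm hu).2
  refine le_sn ?_
  rw [le_abs', le_abs', Prod.fst_sub, Prod.snd_sub]
  omega

theorem fr_piv (hn : 1 ≤ n) (hs : 0 ≤ s) (hr : s < r) (hsub : Sq v r ⊆ SA z n m)
    (h : ¬ (Fr (S ∪ Sq v s) z n m ↔ Fr (S \ Sq v s) z n m)) : Fr S v (s + 1) r := by
  have hnm : n ≤ m := by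
    have h1 := hsub (center_mem (by omega))
    exact h1.1.trans h1.2
  have ty_mono : ∀ {S T : Set V} {x : V}, S ⊆ T → Ty S z n m x → Ty T z n m x := by
    rintro S T x hST ⟨h1, a, b, hb, hab, h2⟩
    exact ⟨h1, a, b, hb, hab, h2.mono fun w hw => ⟨hST hw.1, hw.2⟩⟩
  have key : ∀ S : Set V, Fr (S \ Sq v s) z n m → ¬ Fr (S ∪ Sq v s) z n m →
      Fr S v (s + 1) r := by
    rintro S ⟨u, u', hu, hu', h1⟩ h2
    have h3 : Conn ((S ∪ Sq v s) ∩ SA z n m) u u' := by
      by_contra h3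
      have h4 : S \ Sq v s ⊆ S ∪ Sq v s := fun w hw => Or.inl hw.1
      exact h2 ⟨u, u', ty_mono h4 hu, ty_mono h4 hu', h3⟩
    exact fr_core hs hr hsub h3 h1 (rg_far (by omega) hsub hu.1) (rg_far (by omega) hsub hu'.1)
  by_cases h1 : Fr (S \ Sq v s) z n m
  · exact key S h1 fun h2 => h ⟨fun _ => h1, fun _ => h2⟩
  · have h2 : Fr (S ∪ Sq v s) z n m := by
      by_contra h2
      exact h ⟨fun h3 => absurd h3 h2, fun h3 => absurd h3 h1⟩
    have e1 : S ∪ Sq v s = (Sᶜ \ Sq v s)ᶜ := by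
      ext w
      simp only [Set.mem_union, Set.mem_compl_iff, Set.mem_sdiff]
      tauto
    have e2 : S \ Sq v s = (Sᶜ ∪ Sq v s)ᶜ := by
      ext w
      simp only [Set.mem_union, Set.mem_compl_iff, Set.mem_sdiff]
      tauto
    rw [e1, fr_compl hn hnm] at h2
    rw [e2, fr_compl hn hnm] at h1
    exact (fr_compl (by omega) (by omega)).1 (key Sᶜ h2 h1)

theorem fr_ph (hs : 0 ≤ s) (hk : s < k) (hsub : Sq v k ⊆ Par l r b t)
    (h : PH (S ∪ Sq v s) l r b t) (h' : ¬ PH (S \ Sq v s) l r b t) : Fr S v (s + 1) k := by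
  obtain ⟨u, hu, u', hu', h1⟩ := h
  obtain ⟨h2, h3, h4, h5⟩ := sq_box (by omega) hsub
  have h6 : u.1 ≤ l := hu
  have h7 : r ≤ u'.1 := hu'
  refine fr_core hs hk hsub h1 (fun h8 => h' ⟨u, hu, u', hu', h8⟩) (le_sn (Or.inl ?_))
    (le_sn (Or.inl ?_))
  · rw [le_abs', Prod.fst_sub]
    omega
  · rw [le_abs', Prod.fst_sub]
    omega

theorem fr_pv (hs : 0 ≤ s) (hk : s < k) (hsub : Sq v k ⊆ Par l r b t)
    (h : PV (S ∪ Sq v s) l r b t) (h' : ¬ PV (S \ Sq v s) l r b t) : Fr S v (s + 1) k := by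
  obtain ⟨u, hu, u', hu', h1⟩ := h
  obtain ⟨h2, h3, h4, h5⟩ := sq_box (by omega) hsub
  have h6 : u.2 ≤ b := hu
  have h7 : t ≤ u'.2 := hu'
  refine fr_core hs hk hsub h1 (fun h8 => h' ⟨u, hu, u', hu', h8⟩) (le_sn (Or.inr ?_))
    (le_sn (Or.inr ?_))
  · rw [le_abs', Prod.snd_sub]
    omega
  · rw [le_abs', Prod.snd_sub]
    omega

/-- Version for a single vertex whose state is changed. -/
theorem fr_piv_one (hn : 1 ≤ n) (hr : 1 ≤ r) (hsub : Sq v r ⊆ SA z n m) {S' : Set V}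
    (hSS : ∀ x, x ≠ v → (x ∈ S ↔ x ∈ S')) (h : Fr S z n m) (h' : ¬ Fr S' z n m) :
    Fr S v 1 r := by
  have hv : ∀ w : V, w ∈ Sq v 0 ↔ w = v := by
    intro w
    constructor
    · intro hw
      rw [sq_eq] at hw
      obtain ⟨h1, h2, h3, h4⟩ := hw
      exact Prod.ext (by omega) (by omega)
    · rintro rfl
      exact center_mem le_rfl
  have h0 : ¬ (Fr (S ∪ Sq v 0) z n m ↔ Fr (S \ Sq v 0) z n m) := by
    by_cases hS : v ∈ S
    · have hS' : v ∉ S' := by
        intro hS'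
        have h1 : S = S' := by
          ext w
          by_cases hw : w = v
          · rw [hw]
            exact ⟨fun _ => hS', fun _ => hS⟩
          · exact hSS w hw
        rw [h1] at h
        exact h' h
      have e1 : S ∪ Sq v 0 = S := by
        ext w
        rw [Set.mem_union, hv]
        exact ⟨fun h1 => h1.elim id fun h2 => h2 ▸ hS, Or.inl⟩
      have e2 : S \ Sq v 0 = S' := by
        ext w
        rw [Set.mem_sdiff, hv]
        constructor
        · rintro ⟨h1, h2⟩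
          exact (hSS w h2).1 h1
        · intro h1
          have h2 : w ≠ v := fun h3 => hS' (h3 ▸ h1)
          exact ⟨(hSS w h2).2 h1, h2⟩
      rw [e1, e2]
      exact fun h1 => h' (h1.1 h)
    · have hS' : v ∈ S' := by
        by_contra hS'
        have h1 : S = S' := by
          ext w
          by_cases hw : w = v
          · rw [hw]
            exact ⟨fun h2 => absurd h2 hS, fun h2 => absurd h2 hS'⟩
          · exact hSS w hw
        rw [h1] at h
        exact h' h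
      have e1 : S ∪ Sq v 0 = S' := by
        ext w
        rw [Set.mem_union, hv]
        constructor
        · rintro (h1 | h1)
          · exact (hSS w fun h2 => hS (h2 ▸ h1)).1 h1
          · exact h1 ▸ hS'
        · intro h1
          by_cases h2 : w = v
          · exact Or.inr h2
          · exact Or.inl ((hSS w h2).2 h1)
      have e2 : S \ Sq v 0 = S := by
        ext w
        rw [Set.mem_sdiff, hv]
        exact ⟨fun h1 => h1.1, fun h1 => ⟨h1, fun h2 => hS (h2 ▸ h1)⟩⟩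
      rw [e1, e2]
      exact fun h1 => h' (h1.2 h)
  have h1 := fr_piv hn le_rfl (by omega : (0 : ℤ) < r) hsub h0
  rwa [zero_add] at h1

/-- Symmetries. -/
theorem fr_image {g : V ≃ V} (hg : IsAut g) (hsn : ∀ x y, sn (g x - g y) = sn (x - y)) :
    Fr (g ⁻¹' S) z n m ↔ Fr S (g z) n m := by
  have e1 : g ⁻¹' S ∩ SA z n m = g ⁻¹' (S ∩ SA (g z) n m) := by
    ext w
    show (w ∈ g ⁻¹' S ∧ (n ≤ sn (w - z) ∧ sn (w - z) ≤ m)) ↔
      (g w ∈ S ∧ (n ≤ sn (g w - g z) ∧ sn (g w - g z) ≤ m))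
    rw [hsn]
    rfl
  have hc : ∀ u v : V, Conn (g ⁻¹' S ∩ SA z n m) u v ↔ Conn (S ∩ SA (g z) n m) (g u) (g v) := by
    intro u v
    rw [e1]
    exact conn_preimage hg
  have ht : ∀ u : V, Ty (g ⁻¹' S) z n m u ↔ Ty S (g z) n m (g u) := by
    intro u
    constructor
    · rintro ⟨h1, x, y, hy, hxy, h2⟩
      refine ⟨?_, g x, g y, ?_, (hg x y).2 hxy, (hc u x).1 h2⟩
      · show sn (g u - g z) = m
        rw [hsn]
        exact h1
      · show sn (g y - g z) ≤ n - 1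
        rw [hsn]
        exact hy
    · rintro ⟨h1, x, y, hy, hxy, h2⟩
      obtain ⟨x, rfl⟩ := g.surjective x
      obtain ⟨y, rfl⟩ := g.surjective y
      refine ⟨?_, x, y, ?_, (hg x y).1 hxy, (hc u x).2 h2⟩
      · have h3 : sn (g u - g z) = m := h1
        rw [hsn] at h3
        exact h3
      · have h3 : sn (g y - g z) ≤ n - 1 := hy
        rw [hsn] at h3
        exact h3
  constructor
  · rintro ⟨u, v, hu, hv, h⟩
    exact ⟨g u, g v, (ht u).1 hu, (ht v).1 hv, fun h1 => h ((hc u v).2 h1)⟩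
  · rintro ⟨u, v, hu, hv, h⟩
    obtain ⟨u, rfl⟩ := g.surjective u
    obtain ⟨v, rfl⟩ := g.surjective v
    exact ⟨u, v, (ht u).2 hu, (ht v).2 hv, fun h1 => h ((hc u v).1 h1)⟩

end Pool.Agent.TriPerc
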