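import Pool.Agent.TriPerc.Pth
import Mathlib.Algebra.Order.Ring.Star
import Mathlib.Data.Int.Star

/-!
# The winding cochain and the grid lemma; two walks with interlaced ends meet

`th u v ∈ ℤ` for vertices `u, v`: it counts the signed crossings of the ray `b = -1/2, a > 0`:
`th u v = 1` if `u = (a, 0)` with `a ≥ 1` and `v` is in row `-1`; `th u v = -1` if `v = (a, 0)` with
`a ≥ 1` and `u` is in row `-1`; `0` otherwise.

`th_cell`: let `s` and `t` be zero or steps between neighbours (`s = u' - u` for adjacent or equal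
`u, u'`, the same for `t`), and let `w, w + s, w - t, w + s - t` be different from `0`.  Then
`th w (w + s) + th (w + s) (w + s - t) = th w (w - t) + th (w - t) (w + s - t)`.
PROOF: case analysis over the `7 x 7` steps; in each case unfold `th` and use `omega` (split the
`if`s); `w = (a, b)` is arbitrary.  (Geometrically: the parallelogram contains no lattice point
except its vertices.)

`grid`: let `f, g : ℕ → V`, `f i, f (i + 1)` adjacent for `i < I`, `g j, g (j + 1)` adjacent for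
`j < J`, `f i ≠ g j` for all `i ≤ I, j ≤ J`, and `F i j = f i - g j`.  Then the sum of `th` along
the sides `(0,0) → (I,0) → (I,J)` of the grid is equal to the sum along `(0,0) → (0,J) → (I,J)`.
PROOF: for `I = 0` or `J = 0` trivial.  Define `R i = ∑ j < J, th (F i j) (F i (j+1))` and
`B i j = th (F i j) (F (i+1) j)`.  By `th_cell` with `w = F i j`, `s = f (i+1) - f i`,
`t = g (j+1) - g j`: `B i j + th (F (i+1) j) (F (i+1) (j+1)) = th (F i j) (F i (j+1)) + B i (j+1)`.
Sum over `j < J`: `B i 0 + R (i+1) = R i + B i J` (telescoping).  Sum over `i < I`: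
`∑ B i 0 + R I = R 0 + ∑ B i J`.

`th_zero`: on a set which avoids the ray `a ≥ 1, b = 0`, all `th` vanish.
`th_neg`: if `u, v` are adjacent (or equal), both `≠ 0`, both not on the negative ray
`a ≤ -1, b = 0`, then `th u v = [u.2 ≥ 0] - [v.2 ≥ 0]`.
`th_low`: if `u, v` are adjacent (or equal), both `≠ 0` and in the rows `≤ 0`, then
`th u v = [u on the positive ray] - [v on the positive ray]`.
Also in rows `≥ 0` all `th` are `0`.  (All by unfolding and `omega`.)

## Meeting lemmas

All are proved by contradiction: if the walks do not meet, `grid` applies; each of the four sums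
telescopes by one of the potentials above:
`th u v = ψ u - ψ v` with `ψ = 0` (side avoids the positive ray, or side in rows `≥ 0`),
`ψ = [row ≥ 0]` (side avoids the negative ray), `ψ = [positive ray]` (side in rows `≤ 0`).
Write `F i j = f i - g j`.

`meetLR` (`f` from left to right, `g` from bottom to top).  Conditions: `g 0` is not above any
`f i`, `g J` is not below any `f i`; if `f 0` and `g j` are in the same row then `f 0` is not to
the right of `g j`; if `f I` and `g j` are in the same row then `f I` is not to the left of `g j`.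
Sum over `(0,0) → (I,0)`: rows `≥ 0`, so `0`.  Sum over `(I,0) → (I,J)`: avoids the negative ray, so
`[F I 0 row ≥ 0] - [F I J row ≥ 0] = 1 - [F I J row ≥ 0]`.  Sum over `(0,0) → (0,J)`: avoids the
positive ray, `0`.  Sum over `(0,J) → (I,J)`: rows `≤ 0`, so
`[F 0 J pos ray] - [F I J pos ray] = 0 - [F I J pos ray]`.  Now `F I J` is in a row `≤ 0`, is not
`0` and not on the negative ray, so `[row ≥ 0] = [pos ray]` for it.  Hence `1 = 0`.

`meetB` (`f` from the left side to the bottom, `g` from the right side to the bottom, and `f`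
arrives to the right of `g`).  Conditions: if `f 0` and `g j` are in the same row then `f 0` is not
to the right of `g j`; if `g 0` and `f i` are in the same row then `f i` is not to the right of
`g 0`; `f I` is not above any `g j`; `g J` is not above any `f i`; `f I` and `g J` are in the same
row and `g J` is to the left of `f I`.
Sums: `(0,0) → (I,0)`: avoids the positive ray, `0`.  `(I,0) → (I,J)`: rows `≤ 0`:
`[F I 0 pos] - [F I J pos] = 0 - 1`.  `(0,0) → (0,J)`: avoids the positive ray, `0`.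
`(0,J) → (I,J)`: rows `≥ 0`, `0`.  Hence `-1 = 0`.

`meetTR` (`f` from the top to the right side, `g` from the top, starting to the right of `f`, to
the bottom).  Conditions: `f 0` and `g 0` are in the same row, `(f 0).1 < (g 0).1`; `f 0` is not
below any `g j`, `g 0` is not below any `f i`; `g J` is not above any `f i`; if `f I` and `g j` are
in the same row then `f I` is not to the left of `g j`.
Sums: `(0,0) → (I,0)`: rows `≤ 0`: `[F 0 0 pos] - [F I 0 pos] = 0 - [F I 0 pos]`.
`(I,0) → (I,J)`: avoids the negative ray: `[F I 0 row ≥ 0] - [F I J row ≥ 0]`, and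
`F I J` is in a row `≥ 0`; `F I 0` is in a row `≤ 0` and not on the negative ray and not `0`:
`[F I 0 row ≥ 0] = [F I 0 pos]`.  Total: `-1`.  The other two sides are in rows `≥ 0`: `0`.

`meetTB` (`f` from the top to the bottom, `g` from the top, starting to the right of `f`, to the
bottom, arriving to the left of `f`).  Conditions: `f 0`, `g 0` in the same row with
`(f 0).1 < (g 0).1`, `f 0` not below any `g j`, `g 0` not below any `f i`, `f I`, `g J` in the same
row with `(g J).1 < (f I).1`, `f I` not above any `g j`, `g J` not above any `f i`.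
Sums: `(0,0) → (I,0) → (I,J)`: rows `≤ 0`: `[F 0 0 pos] - [F I J pos] = 0 - 1`; the other two
sides are in rows `≥ 0`: `0`.

The four `no_...` theorems are the same statements for `Conn` in disjoint sets `S`, `T`
(from `Conn.walk`).
-/

namespace Pool.Agent.TriPerc

/-- The winding cochain. -/
def th (u v : V) : ℤ :=
  if u.2 = 0 ∧ 1 ≤ u.1 ∧ v.2 = -1 then 1
  else if v.2 = 0 ∧ 1 ≤ v.1 ∧ u.2 = -1 then -1 else 0

private theorem Grid_adj_zero {u v : V} (h : Adj u v) : Adj 0 (v - u) := by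
  simp only [Adj, Prod.fst_sub, Prod.snd_sub, Prod.fst_zero, Prod.snd_zero] at *
  exact h.imp (fun h => by omega) (Or.imp (fun h => by omega) (Or.imp (fun h => by omega)
    (Or.imp (fun h => by omega) (Or.imp (fun h => by omega) (fun h => by omega)))))

private theorem Grid_adj_right {u v : V} (h : Adj u v) (w : V) : Adj (u - w) (v - w) := by
  simp only [Adj, Prod.fst_sub, Prod.snd_sub] at *
  exact h.imp (fun h => by omega) (Or.imp (fun h => by omega) (Or.imp (fun h => by omega)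
    (Or.imp (fun h => by omega) (Or.imp (fun h => by omega) (fun h => by omega)))))

private theorem Grid_adj_left {u v : V} (h : Adj u v) (w : V) : Adj (w - u) (w - v) := by
  simp only [Adj, Prod.fst_sub, Prod.snd_sub] at *
  rcases h with h | h | h | h | h | h
  · right; right; right; left; omega
  · right; right; right; right; left; omega
  · right; right; right; right; right; omega
  · left; omega
  · right; left; omega
  · right; right; left; omega

private theorem Grid_ne_zero {u : V} (h : u ≠ 0) : ¬ (u.1 = 0 ∧ u.2 = 0) :=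
  fun h' => h (Prod.ext h'.1 h'.2)

private theorem Grid_ne {u v : V} (h : u ≠ v) : ¬ (u.1 = v.1 ∧ u.2 = v.2) :=
  fun h' => h (Prod.ext h'.1 h'.2)

private theorem Grid_same {u v : V} (h : v.2 = u.2) : th u v = 0 := by
  unfold th
  rw [if_neg (by omega), if_neg (by omega)]

private theorem Grid_dn {u v : V} (h : v.2 = u.2 - 1) :
    th u v = if u.2 = 0 ∧ 1 ≤ u.1 then 1 else 0 := by
  unfold th
  by_cases k : u.2 = 0 ∧ 1 ≤ u.1
  · rw [if_pos k, if_pos ⟨k.1, k.2, by omega⟩]
  · rw [if_neg k, if_neg (fun k' => k ⟨k'.1, k'.2.1⟩), if_neg (by omega)]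

private theorem Grid_upp {u v : V} (h : v.2 = u.2 + 1) :
    th u v = if v.2 = 0 ∧ 1 ≤ v.1 then -1 else 0 := by
  unfold th
  rw [if_neg (by omega)]
  by_cases k : v.2 = 0 ∧ 1 ≤ v.1
  · rw [if_pos k, if_pos ⟨k.1, k.2, by omega⟩]
  · rw [if_neg k, if_neg (fun k' => k ⟨k'.1, k'.2.1⟩)]

private theorem Grid_three {s : V} (h : s = 0 ∨ Adj 0 s) : (s.2 = 0 ∧ -1 ≤ s.1 ∧ s.1 ≤ 1) ∨
    (s.2 = 1 ∧ -1 ≤ s.1 ∧ s.1 ≤ 0) ∨ (s.2 = -1 ∧ 0 ≤ s.1 ∧ s.1 ≤ 1) := by
  rcases h with rfl | h
  · left; simp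
  · simp only [Adj, Prod.fst_zero, Prod.snd_zero] at h
    rcases h with h | h | h | h | h | h
    · left; omega
    · right; left; omega
    · right; left; omega
    · left; omega
    · right; right; omega
    · right; right; omega

theorem th_cell (w s t : V) (hs : s = 0 ∨ Adj 0 s) (ht : t = 0 ∨ Adj 0 t) (h1 : w ≠ 0)
    (h2 : w + s ≠ 0) (h3 : w - t ≠ 0) (h4 : w + s - t ≠ 0) :
    th w (w + s) + th (w + s) (w + s - t) = th w (w - t) + th (w - t) (w + s - t) := by
  obtain ⟨a, b⟩ := w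
  obtain ⟨s1, s2⟩ := s
  obtain ⟨t1, t2⟩ := t
  replace h1 := Grid_ne_zero h1
  replace h2 := Grid_ne_zero h2
  replace h3 := Grid_ne_zero h3
  replace h4 := Grid_ne_zero h4
  replace hs := Grid_three hs
  replace ht := Grid_three ht
  simp only [Prod.mk_add_mk, Prod.mk_sub_mk] at *
  rcases hs with ⟨rfl, ks⟩ | ⟨rfl, ks⟩ | ⟨rfl, ks⟩ <;>
  rcases ht with ⟨rfl, kt⟩ | ⟨rfl, kt⟩ | ⟨rfl, kt⟩
  · rw [Grid_same (by simp), Grid_same (by simp), Grid_same (by simp), Grid_same (by simp)]
  · rw [Grid_same (by simp), Grid_dn (by simp), Grid_dn (by simp), Grid_same (by simp)]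
    split_ifs <;> simp only at * <;> omega
  · rw [Grid_same (by simp), Grid_upp (by simp), Grid_upp (by simp), Grid_same (by simp)]
    split_ifs <;> simp only at * <;> omega
  · rw [Grid_upp (by simp), Grid_same (by simp), Grid_same (by simp), Grid_upp (by simp)]
    split_ifs <;> simp only at * <;> omega
  · rw [Grid_upp (by simp), Grid_dn (by simp), Grid_dn (by simp), Grid_upp (by simp)]
    split_ifs <;> simp only at * <;> omega
  · rw [Grid_upp (by simp), Grid_upp (by simp), Grid_upp (by simp), Grid_upp (by simp)]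
    split_ifs <;> simp only at * <;> omega
  · rw [Grid_dn (by simp only; omega), Grid_same (by simp), Grid_same (by simp),
      Grid_dn (by simp only; omega)]
    split_ifs <;> simp only at * <;> omega
  · rw [Grid_dn (by simp only; omega), Grid_dn (by simp), Grid_dn (by simp),
      Grid_dn (by simp only; omega)]
    split_ifs <;> simp only at * <;> omega
  · rw [Grid_dn (by simp only; omega), Grid_upp (by simp), Grid_upp (by simp),
      Grid_dn (by simp only; omega)]
    split_ifs <;> simp only at * <;> omega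

theorem grid (f g : ℕ → V) (I J : ℕ) (hf : ∀ i < I, Adj (f i) (f (i + 1)))
    (hg : ∀ j < J, Adj (g j) (g (j + 1))) (hfg : ∀ i ≤ I, ∀ j ≤ J, f i ≠ g j) :
    ∑ i ∈ Finset.range I, th (f i - g 0) (f (i + 1) - g 0) +
      ∑ j ∈ Finset.range J, th (f I - g j) (f I - g (j + 1)) =
    ∑ j ∈ Finset.range J, th (f 0 - g j) (f 0 - g (j + 1)) +
      ∑ i ∈ Finset.range I, th (f i - g J) (f (i + 1) - g J) := by
  have cell : ∀ i < I, ∀ j < J, th (f i - g j) (f (i + 1) - g j) +
      th (f (i + 1) - g j) (f (i + 1) - g (j + 1)) =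
      th (f i - g j) (f i - g (j + 1)) + th (f i - g (j + 1)) (f (i + 1) - g (j + 1)) := by
    intro i hi j hj
    have e1 : f i - g j + (f (i + 1) - f i) = f (i + 1) - g j := by abel
    have e2 : f i - g j - (g (j + 1) - g j) = f i - g (j + 1) := by abel
    have e3 : f (i + 1) - g j - (g (j + 1) - g j) = f (i + 1) - g (j + 1) := by abel
    have := th_cell (f i - g j) (f (i + 1) - f i) (g (j + 1) - g j)
      (Or.inr (Grid_adj_zero (hf i hi))) (Or.inr (Grid_adj_zero (hg j hj)))
      (sub_ne_zero.mpr (hfg i (by omega) j (by omega)))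
      (by rw [e1]; exact sub_ne_zero.mpr (hfg (i + 1) (by omega) j (by omega)))
      (by rw [e2]; exact sub_ne_zero.mpr (hfg i (by omega) (j + 1) (by omega)))
      (by rw [e1, e3]; exact sub_ne_zero.mpr (hfg (i + 1) (by omega) (j + 1) (by omega)))
    rwa [e1, e2, e3] at this
  have row : ∀ i < I, ∀ n ≤ J, th (f i - g 0) (f (i + 1) - g 0) +
      ∑ j ∈ Finset.range n, th (f (i + 1) - g j) (f (i + 1) - g (j + 1)) =
      ∑ j ∈ Finset.range n, th (f i - g j) (f i - g (j + 1)) +
      th (f i - g n) (f (i + 1) - g n) := by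
    intro i hi n
    induction n with
    | zero => intro _; simp
    | succ n ih =>
      intro hn
      have h1 := ih (by omega)
      have h2 := cell i hi n (by omega)
      rw [Finset.sum_range_succ, Finset.sum_range_succ]
      linarith
  have col : ∀ n ≤ I, ∑ i ∈ Finset.range n, th (f i - g 0) (f (i + 1) - g 0) +
      ∑ j ∈ Finset.range J, th (f n - g j) (f n - g (j + 1)) =
      ∑ j ∈ Finset.range J, th (f 0 - g j) (f 0 - g (j + 1)) +
      ∑ i ∈ Finset.range n, th (f i - g J) (f (i + 1) - g J) := by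
    intro n
    induction n with
    | zero => intro _; simp
    | succ n ih =>
      intro hn
      have h1 := ih (by omega)
      have h2 := row n (by omega) J le_rfl
      rw [Finset.sum_range_succ, Finset.sum_range_succ]
      linarith
  exact col I le_rfl

private def Grid_rho (v : V) : ℤ := if 0 ≤ v.2 then 1 else 0

private def Grid_pp (v : V) : ℤ := if v.2 = 0 ∧ 1 ≤ v.1 then 1 else 0

private theorem Grid_tele (u : ℕ → V) (n : ℕ) (ψ : V → ℤ)
    (h : ∀ i < n, th (u i) (u (i + 1)) = ψ (u i) - ψ (u (i + 1))) :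
    ∑ i ∈ Finset.range n, th (u i) (u (i + 1)) = ψ (u 0) - ψ (u n) := by
  rw [Finset.sum_congr rfl (fun i hi => h i (Finset.mem_range.mp hi))]
  exact Finset.sum_range_sub' (fun i => ψ (u i)) n

private theorem Grid_zero (u : ℕ → V) (n : ℕ)
    (h : ∀ i ≤ n, ¬ ((u i).2 = 0 ∧ 1 ≤ (u i).1)) :
    ∑ i ∈ Finset.range n, th (u i) (u (i + 1)) = 0 := by
  refine Finset.sum_eq_zero (fun i hi => ?_)
  have hi' := Finset.mem_range.mp hi
  have h1 := h i (by omega)
  have h2 := h (i + 1) (by omega)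
  unfold th
  split_ifs <;> omega

private theorem Grid_up (u : ℕ → V) (n : ℕ) (h : ∀ i ≤ n, 0 ≤ (u i).2) :
    ∑ i ∈ Finset.range n, th (u i) (u (i + 1)) = 0 := by
  refine Finset.sum_eq_zero (fun i hi => ?_)
  have hi' := Finset.mem_range.mp hi
  have h1 := h i (by omega)
  have h2 := h (i + 1) (by omega)
  unfold th
  split_ifs <;> omega

private theorem Grid_negs (u : ℕ → V) (n : ℕ) (ha : ∀ i < n, Adj (u i) (u (i + 1)))
    (h0 : ∀ i ≤ n, u i ≠ 0) (h : ∀ i ≤ n, ¬ ((u i).2 = 0 ∧ (u i).1 ≤ -1)) :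
    ∑ i ∈ Finset.range n, th (u i) (u (i + 1)) = Grid_rho (u 0) - Grid_rho (u n) := by
  refine Grid_tele u n Grid_rho (fun i hi => ?_)
  have h1 := h i (by omega)
  have h2 := h (i + 1) (by omega)
  have h3 := Grid_ne_zero (h0 i (by omega))
  have h4 := Grid_ne_zero (h0 (i + 1) (by omega))
  have h5 := ha i hi
  unfold Adj at h5
  unfold th Grid_rho
  split_ifs <;> omega

private theorem Grid_low (u : ℕ → V) (n : ℕ) (ha : ∀ i < n, Adj (u i) (u (i + 1)))
    (h0 : ∀ i ≤ n, u i ≠ 0) (h : ∀ i ≤ n, (u i).2 ≤ 0) :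
    ∑ i ∈ Finset.range n, th (u i) (u (i + 1)) = Grid_pp (u 0) - Grid_pp (u n) := by
  refine Grid_tele u n Grid_pp (fun i hi => ?_)
  have h1 := h i (by omega)
  have h2 := h (i + 1) (by omega)
  have h3 := Grid_ne_zero (h0 i (by omega))
  have h4 := Grid_ne_zero (h0 (i + 1) (by omega))
  have h5 := ha i hi
  unfold Adj at h5
  unfold th Grid_pp
  split_ifs <;> omega

theorem meetLR (f g : ℕ → V) (I J : ℕ) (hf : ∀ i < I, Adj (f i) (f (i + 1)))
    (hg : ∀ j < J, Adj (g j) (g (j + 1)))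
    (hb : ∀ i ≤ I, (g 0).2 ≤ (f i).2) (ht : ∀ i ≤ I, (f i).2 ≤ (g J).2)
    (hl : ∀ j ≤ J, (f 0).2 = (g j).2 → (f 0).1 ≤ (g j).1)
    (hr : ∀ j ≤ J, (f I).2 = (g j).2 → (g j).1 ≤ (f I).1) :
    ∃ i ≤ I, ∃ j ≤ J, f i = g j := by
  by_contra hcon
  have hne : ∀ i ≤ I, ∀ j ≤ J, f i ≠ g j := fun i hi j hj h => hcon ⟨i, hi, j, hj, h⟩
  have G := grid f g I J hf hg hne
  have S1 : ∑ i ∈ Finset.range I, th (f i - g 0) (f (i + 1) - g 0) = 0 :=
    Grid_up (fun i => f i - g 0) I (fun i hi => by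
      have := hb i hi
      simp only [Prod.snd_sub]
      omega)
  have S2 : ∑ j ∈ Finset.range J, th (f I - g j) (f I - g (j + 1)) =
      Grid_rho (f I - g 0) - Grid_rho (f I - g J) :=
    Grid_negs (fun j => f I - g j) J (fun j hj => Grid_adj_left (hg j hj) _)
      (fun j hj => sub_ne_zero.mpr (hne I le_rfl j hj)) (fun j hj => by
        have := hr j hj
        simp only [Prod.snd_sub, Prod.fst_sub]
        omega)
  have S3 : ∑ j ∈ Finset.range J, th (f 0 - g j) (f 0 - g (j + 1)) = 0 :=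
    Grid_zero (fun j => f 0 - g j) J (fun j hj => by
      have := hl j hj
      simp only [Prod.snd_sub, Prod.fst_sub]
      omega)
  have S4 : ∑ i ∈ Finset.range I, th (f i - g J) (f (i + 1) - g J) =
      Grid_pp (f 0 - g J) - Grid_pp (f I - g J) :=
    Grid_low (fun i => f i - g J) I (fun i hi => Grid_adj_right (hf i hi) _)
      (fun i hi => sub_ne_zero.mpr (hne i hi J le_rfl)) (fun i hi => by
        have := ht i hi
        simp only [Prod.snd_sub]
        omega)
  rw [S1, S2, S3, S4] at G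
  have h1 := Grid_ne (hne I le_rfl J le_rfl)
  have h2 := hl J le_rfl
  have h3 := hr J le_rfl
  have h4 := hb I le_rfl
  have h5 := ht I le_rfl
  unfold Grid_rho Grid_pp at G
  simp only [Prod.snd_sub, Prod.fst_sub] at G
  split_ifs at G <;> omega

theorem meetB (f g : ℕ → V) (I J : ℕ) (hf : ∀ i < I, Adj (f i) (f (i + 1)))
    (hg : ∀ j < J, Adj (g j) (g (j + 1)))
    (hl : ∀ j ≤ J, (f 0).2 = (g j).2 → (f 0).1 ≤ (g j).1)
    (hr : ∀ i ≤ I, (g 0).2 = (f i).2 → (f i).1 ≤ (g 0).1)
    (hfb : ∀ j ≤ J, (f I).2 ≤ (g j).2) (hgb : ∀ i ≤ I, (g J).2 ≤ (f i).2)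
    (hlt : (g J).1 < (f I).1) :
    ∃ i ≤ I, ∃ j ≤ J, f i = g j := by
  by_contra hcon
  have hne : ∀ i ≤ I, ∀ j ≤ J, f i ≠ g j := fun i hi j hj h => hcon ⟨i, hi, j, hj, h⟩
  have G := grid f g I J hf hg hne
  have S1 : ∑ i ∈ Finset.range I, th (f i - g 0) (f (i + 1) - g 0) = 0 :=
    Grid_zero (fun i => f i - g 0) I (fun i hi => by
      have := hr i hi
      simp only [Prod.snd_sub, Prod.fst_sub]
      omega)
  have S2 : ∑ j ∈ Finset.range J, th (f I - g j) (f I - g (j + 1)) =
      Grid_pp (f I - g 0) - Grid_pp (f I - g J) :=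
    Grid_low (fun j => f I - g j) J (fun j hj => Grid_adj_left (hg j hj) _)
      (fun j hj => sub_ne_zero.mpr (hne I le_rfl j hj)) (fun j hj => by
        have := hfb j hj
        simp only [Prod.snd_sub]
        omega)
  have S3 : ∑ j ∈ Finset.range J, th (f 0 - g j) (f 0 - g (j + 1)) = 0 :=
    Grid_zero (fun j => f 0 - g j) J (fun j hj => by
      have := hl j hj
      simp only [Prod.snd_sub, Prod.fst_sub]
      omega)
  have S4 : ∑ i ∈ Finset.range I, th (f i - g J) (f (i + 1) - g J) = 0 :=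
    Grid_up (fun i => f i - g J) I (fun i hi => by
      have := hgb i hi
      simp only [Prod.snd_sub]
      omega)
  rw [S1, S2, S3, S4] at G
  have h1 := hfb J le_rfl
  have h2 := hgb I le_rfl
  have h3 := hr I le_rfl
  unfold Grid_pp at G
  simp only [Prod.snd_sub, Prod.fst_sub] at G
  split_ifs at G <;> omega

theorem meetTR (f g : ℕ → V) (I J : ℕ) (hf : ∀ i < I, Adj (f i) (f (i + 1)))
    (hg : ∀ j < J, Adj (g j) (g (j + 1)))
    (hft : ∀ j ≤ J, (g j).2 ≤ (f 0).2) (hgt : ∀ i ≤ I, (f i).2 ≤ (g 0).2)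
    (hlt : (f 0).1 < (g 0).1) (hgb : ∀ i ≤ I, (g J).2 ≤ (f i).2)
    (hr : ∀ j ≤ J, (f I).2 = (g j).2 → (g j).1 ≤ (f I).1) :
    ∃ i ≤ I, ∃ j ≤ J, f i = g j := by
  by_contra hcon
  have hne : ∀ i ≤ I, ∀ j ≤ J, f i ≠ g j := fun i hi j hj h => hcon ⟨i, hi, j, hj, h⟩
  have G := grid f g I J hf hg hne
  have S1 : ∑ i ∈ Finset.range I, th (f i - g 0) (f (i + 1) - g 0) =
      Grid_pp (f 0 - g 0) - Grid_pp (f I - g 0) :=
    Grid_low (fun i => f i - g 0) I (fun i hi => Grid_adj_right (hf i hi) _)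
      (fun i hi => sub_ne_zero.mpr (hne i hi 0 (by omega))) (fun i hi => by
        have := hgt i hi
        simp only [Prod.snd_sub]
        omega)
  have S2 : ∑ j ∈ Finset.range J, th (f I - g j) (f I - g (j + 1)) =
      Grid_rho (f I - g 0) - Grid_rho (f I - g J) :=
    Grid_negs (fun j => f I - g j) J (fun j hj => Grid_adj_left (hg j hj) _)
      (fun j hj => sub_ne_zero.mpr (hne I le_rfl j hj)) (fun j hj => by
        have := hr j hj
        simp only [Prod.snd_sub, Prod.fst_sub]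
        omega)
  have S3 : ∑ j ∈ Finset.range J, th (f 0 - g j) (f 0 - g (j + 1)) = 0 :=
    Grid_up (fun j => f 0 - g j) J (fun j hj => by
      have := hft j hj
      simp only [Prod.snd_sub]
      omega)
  have S4 : ∑ i ∈ Finset.range I, th (f i - g J) (f (i + 1) - g J) = 0 :=
    Grid_up (fun i => f i - g J) I (fun i hi => by
      have := hgb i hi
      simp only [Prod.snd_sub]
      omega)
  rw [S1, S2, S3, S4] at G
  have h1 := Grid_ne (hne I le_rfl 0 (by omega))
  have h2 := hr 0 (by omega)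
  have h3 := hgb I le_rfl
  have h4 := hgt I le_rfl
  have h5 := hgt 0 (by omega)
  have h6 := hft 0 (by omega)
  unfold Grid_rho Grid_pp at G
  simp only [Prod.snd_sub, Prod.fst_sub] at G
  split_ifs at G <;> omega

theorem meetTB (f g : ℕ → V) (I J : ℕ) (hf : ∀ i < I, Adj (f i) (f (i + 1)))
    (hg : ∀ j < J, Adj (g j) (g (j + 1)))
    (hft : ∀ j ≤ J, (g j).2 ≤ (f 0).2) (hgt : ∀ i ≤ I, (f i).2 ≤ (g 0).2)
    (hlt : (f 0).1 < (g 0).1) (hfb : ∀ j ≤ J, (f I).2 ≤ (g j).2)
    (hgb : ∀ i ≤ I, (g J).2 ≤ (f i).2) (hlt' : (g J).1 < (f I).1) :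
    ∃ i ≤ I, ∃ j ≤ J, f i = g j := by
  by_contra hcon
  have hne : ∀ i ≤ I, ∀ j ≤ J, f i ≠ g j := fun i hi j hj h => hcon ⟨i, hi, j, hj, h⟩
  have G := grid f g I J hf hg hne
  have S1 : ∑ i ∈ Finset.range I, th (f i - g 0) (f (i + 1) - g 0) =
      Grid_pp (f 0 - g 0) - Grid_pp (f I - g 0) :=
    Grid_low (fun i => f i - g 0) I (fun i hi => Grid_adj_right (hf i hi) _)
      (fun i hi => sub_ne_zero.mpr (hne i hi 0 (by omega))) (fun i hi => by
        have := hgt i hi
        simp only [Prod.snd_sub]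
        omega)
  have S2 : ∑ j ∈ Finset.range J, th (f I - g j) (f I - g (j + 1)) =
      Grid_pp (f I - g 0) - Grid_pp (f I - g J) :=
    Grid_low (fun j => f I - g j) J (fun j hj => Grid_adj_left (hg j hj) _)
      (fun j hj => sub_ne_zero.mpr (hne I le_rfl j hj)) (fun j hj => by
        have := hfb j hj
        simp only [Prod.snd_sub]
        omega)
  have S3 : ∑ j ∈ Finset.range J, th (f 0 - g j) (f 0 - g (j + 1)) = 0 :=
    Grid_up (fun j => f 0 - g j) J (fun j hj => by
      have := hft j hj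
      simp only [Prod.snd_sub]
      omega)
  have S4 : ∑ i ∈ Finset.range I, th (f i - g J) (f (i + 1) - g J) = 0 :=
    Grid_up (fun i => f i - g J) I (fun i hi => by
      have := hgb i hi
      simp only [Prod.snd_sub]
      omega)
  rw [S1, S2, S3, S4] at G
  have h3 := hgb I le_rfl
  have h4 := hfb J le_rfl
  have h5 := hgt 0 (by omega)
  have h6 := hft 0 (by omega)
  unfold Grid_pp at G
  simp only [Prod.snd_sub, Prod.fst_sub] at G
  split_ifs at G <;> omega

theorem no_LR {S T : Set V} (hd : Disjoint S T) {u u' w w' : V} (hf : Conn S u u')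
    (hg : Conn T w w') (hb : ∀ x ∈ S, w.2 ≤ x.2) (ht : ∀ x ∈ S, x.2 ≤ w'.2)
    (hl : ∀ y ∈ T, u.2 = y.2 → u.1 ≤ y.1) (hr : ∀ y ∈ T, u'.2 = y.2 → y.1 ≤ u'.1) : False := by
  obtain ⟨I, f, rfl, rfl, hf, hfS⟩ := hf.walk
  obtain ⟨J, g, rfl, rfl, hg, hgT⟩ := hg.walk
  obtain ⟨i, hi, j, hj, h⟩ := meetLR f g I J hf hg (fun i hi => hb _ (hfS i hi))
    (fun i hi => ht _ (hfS i hi)) (fun j hj => hl _ (hgT j hj)) (fun j hj => hr _ (hgT j hj))
  exact Set.disjoint_left.mp hd (hfS i hi) (h ▸ hgT j hj)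

theorem no_B {S T : Set V} (hd : Disjoint S T) {u u' w w' : V} (hf : Conn S u u')
    (hg : Conn T w w') (hl : ∀ y ∈ T, u.2 = y.2 → u.1 ≤ y.1)
    (hr : ∀ x ∈ S, w.2 = x.2 → x.1 ≤ w.1) (hfb : ∀ y ∈ T, u'.2 ≤ y.2)
    (hgb : ∀ x ∈ S, w'.2 ≤ x.2) (hlt : w'.1 < u'.1) : False := by
  obtain ⟨I, f, rfl, rfl, hf, hfS⟩ := hf.walk
  obtain ⟨J, g, rfl, rfl, hg, hgT⟩ := hg.walk
  obtain ⟨i, hi, j, hj, h⟩ := meetB f g I J hf hg (fun j hj => hl _ (hgT j hj))
    (fun i hi => hr _ (hfS i hi)) (fun j hj => hfb _ (hgT j hj))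
    (fun i hi => hgb _ (hfS i hi)) hlt
  exact Set.disjoint_left.mp hd (hfS i hi) (h ▸ hgT j hj)

theorem no_TR {S T : Set V} (hd : Disjoint S T) {u u' w w' : V} (hf : Conn S u u')
    (hg : Conn T w w') (hft : ∀ y ∈ T, y.2 ≤ u.2) (hgt : ∀ x ∈ S, x.2 ≤ w.2)
    (hlt : u.1 < w.1) (hgb : ∀ x ∈ S, w'.2 ≤ x.2)
    (hr : ∀ y ∈ T, u'.2 = y.2 → y.1 ≤ u'.1) : False := by
  obtain ⟨I, f, rfl, rfl, hf, hfS⟩ := hf.walk
  obtain ⟨J, g, rfl, rfl, hg, hgT⟩ := hg.walk
  obtain ⟨i, hi, j, hj, h⟩ := meetTR f g I J hf hg (fun j hj => hft _ (hgT j hj))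
    (fun i hi => hgt _ (hfS i hi)) hlt (fun i hi => hgb _ (hfS i hi))
    (fun j hj => hr _ (hgT j hj))
  exact Set.disjoint_left.mp hd (hfS i hi) (h ▸ hgT j hj)

theorem no_TB {S T : Set V} (hd : Disjoint S T) {u u' w w' : V} (hf : Conn S u u')
    (hg : Conn T w w') (hft : ∀ y ∈ T, y.2 ≤ u.2) (hgt : ∀ x ∈ S, x.2 ≤ w.2)
    (hlt : u.1 < w.1) (hfb : ∀ y ∈ T, u'.2 ≤ y.2) (hgb : ∀ x ∈ S, w'.2 ≤ x.2)
    (hlt' : w'.1 < u'.1) : False := by
  obtain ⟨I, f, rfl, rfl, hf, hfS⟩ := hf.walk
  obtain ⟨J, g, rfl, rfl, hg, hgT⟩ := hg.walk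
  obtain ⟨i, hi, j, hj, h⟩ := meetTB f g I J hf hg (fun j hj => hft _ (hgT j hj))
    (fun i hi => hgt _ (hfS i hi)) hlt (fun j hj => hfb _ (hgT j hj))
    (fun i hi => hgb _ (hfS i hi)) hlt'
  exact Set.disjoint_left.mp hd (hfS i hi) (h ▸ hgT j hj)

end Pool.Agent.TriPerc
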