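import Pool.Agent.TriPerc.Expl
import Pool.Agent.TriPerc.Four

/-!
# Blocks: geometry (deterministic)

`blk n i` is the block of size `n` with the index `i : V`; `Ix K` is the type of the indices with
`nrm i ≤ K`; `MKn n K` is the union of these blocks.  Write `z = (n * i.1, n * i.2)` for the corner.

* `blk_disj`, `blk_fin`.
* `blk_nrm`: `v ∈ blk n i` implies `nrm (v - z) ≤ 2 (n - 1)` (both coordinates of `v - z` are
  between `0` and `n - 1`).
* `out_far`: `v ∉ MKn n K`, `nrm i ≤ K` imply `n (K + 1 - nrm i) - 2 (n - 1) ≤ nrm (v - z)`: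
  `v` is in the block `j = (v.1 / n, v.2 / n)`, so `nrm j ≥ K + 1`, and `nrm (n j - n i) = n nrm (j - i)`,
  triangle inequality (`nrm_add`, `nrm_neg`).
* `rv_arm`: let `nrm i ≤ K - 4` and let `x ∈ blk n i`, `Adj x y`, `y ∉ M` or
  `y ∈ clus (S ∩ M) (bdi M)`, `M = MKn n K`.  Then `Arm S z (2 n - 1) (n (K - 1 - nrm i))`.  PROOF.
  `nrm (y - z) ≤ 2 n - 1`; `y ∉ M` is impossible since then
  `nrm (y - z) ≥ 5 n - 2 (n - 1) > 2 n - 1`.  Otherwise there is `u ∈ bdi M` with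
  `Conn (S ∩ M) u y`; `u` has a neighbour `v ∉ M`, so
  `nrm (u - z) ≥ n (K + 1 - nrm i) - 2 (n - 1) - 1 ≥ n (K - 1 - nrm i)`.  `arm_of_conn`.
* `piv_four`: let `H = 10 K n`, `nrm i ≤ K`, and let `S`, `S'` have the same vertices
  outside `blk n i`.  If `PV S (-H) H (-H) H` and not `PV S' (-H) H (-H) H`, then
  `Four S z (2 n - 1) (4 K n)` and `Four S' z (2 n - 1) (4 K n)`.  PROOF.  Let
  `D = Par (-H) H (-H) H`, `S0 = S \ blk n i = S' \ blk n i`.  There are `u`, `v` with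
  `Conn (S ∩ D) u v`, `u.2 ≤ -H`, `H ≤ v.2`.  `u, v ∉ blk n i` (norms), and `u`, `v` are not joined
  in `S0 ∩ D ⊆ S' ∩ D`.  `Conn.exit` with the set `comp (S0 ∩ D) u`: there is `x` in it, adjacent to
  some `y ∈ S ∩ D` outside it; so `y ∉ S0` (`comp_adj`), that is `y ∈ blk n i` and
  `nrm (x - z) ≤ 2 (n - 1) + 1`.  The same from `v`: `x' ∈ comp (S0 ∩ D) v`.  `four_of_conn` for
  `S0`, `D`, the paths `x ~ u`, `x' ~ v` (`nrm (u - z) ≥ H - K n ≥ 4 K n`), and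
  `Ann z (2 n - 1) (4 K n) ⊆ Ball 0 (5 K n) ⊆ D`.  Finally `S0`, `S`, `S'` agree on the annulus
  (`blk_nrm`), `four_congr`.
-/

namespace Pool.Agent.TriPerc

open MeasureTheory Set

/-- The block number `i` of size `n`. -/
def blk (n : ℤ) (i : V) : Set V := Par (n * i.1) (n * i.1 + n - 1) (n * i.2) (n * i.2 + n - 1)

/-- The indices of norm at most `K`. -/
abbrev Ix (K : ℤ) : Type := ↥(finite_ball 0 K).toFinset

/-- The union of the blocks with indices of norm at most `K`. -/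
def MKn (n K : ℤ) : Set V := ⋃ i : Ix K, blk n i.1

/-- The corner of the block. -/
def cn (n : ℤ) (i : V) : V := (n * i.1, n * i.2)

variable {n K : ℤ} {i j v x y : V} {S S' : Set V}

theorem mem_ix : i ∈ (finite_ball 0 K).toFinset ↔ nrm i ≤ K := by
  rw [Set.Finite.mem_toFinset]
  simp [Ball]

private theorem nrm_le {w : V} {m : ℤ} : nrm w ≤ m ↔ |w.1| ≤ m ∧ |w.2| ≤ m ∧ |w.1 + w.2| ≤ m := by
  unfold nrm
  rw [max_le_iff, max_le_iff, and_assoc]

private theorem dv {a q : ℤ} (hn : 1 ≤ n) : (n * q ≤ a ∧ a ≤ n * q + n - 1) ↔ a / n = q := by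
  constructor
  · rintro ⟨h1, h2⟩
    refine le_antisymm ?_ ?_
    · refine Int.lt_add_one_iff.1 ((Int.ediv_lt_iff_lt_mul (by omega)).2 ?_)
      have e : (q + 1) * n = n * q + n := by ring
      omega
    · refine (Int.le_ediv_iff_mul_le (by omega)).2 ?_
      rw [mul_comm]
      exact h1
  · rintro rfl
    have h1 := Int.emod_add_mul_ediv a n
    have h2 := Int.emod_nonneg a (b := n) (by omega)
    have h3 := Int.emod_lt_of_pos a (b := n) (by omega)
    omega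

private theorem mem_blk (hn : 1 ≤ n) : v ∈ blk n i ↔ v.1 / n = i.1 ∧ v.2 / n = i.2 := by
  rw [← dv hn, ← dv hn]
  unfold blk Par
  rw [Set.mem_ofPred_eq, and_assoc]

theorem blk_disj (hn : 1 ≤ n) (h : i ≠ j) : Disjoint (blk n i) (blk n j) := by
  rw [Set.disjoint_left]
  intro v h1 h2
  rw [mem_blk hn] at h1 h2
  exact h (Prod.ext (h1.1.symm.trans h2.1) (h1.2.symm.trans h2.2))

theorem blk_fin (n : ℤ) (i : V) : (blk n i).Finite := finite_par _ _ _ _

theorem blk_nrm (h : v ∈ blk n i) : nrm (v - cn n i) ≤ 2 * (n - 1) := by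
  obtain ⟨h1, h2, h3, h4⟩ := h
  rw [nrm_le]
  simp only [cn, Prod.fst_sub, Prod.snd_sub, abs_le]
  refine ⟨⟨?_, ?_⟩, ⟨?_, ?_⟩, ?_, ?_⟩ <;> omega

theorem nrm_cn (hn : 1 ≤ n) (i : V) : nrm (cn n i) = n * nrm i := by
  have h0 : (0 : ℤ) ≤ n := by omega
  unfold nrm cn
  simp only
  rw [← mul_add, abs_mul, abs_mul, abs_mul, abs_of_nonneg h0, mul_max_of_nonneg _ _ h0,
    mul_max_of_nonneg _ _ h0]

theorem out_far (hn : 1 ≤ n) (hi : nrm i ≤ K) (hv : v ∉ MKn n K) :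
    n * (K + 1 - nrm i) - 2 * (n - 1) ≤ nrm (v - cn n i) := by
  obtain ⟨j, hj⟩ : ∃ j : V, j = (v.1 / n, v.2 / n) := ⟨_, rfl⟩
  have hvj : v ∈ blk n j := by
    rw [mem_blk hn, hj]
    exact ⟨rfl, rfl⟩
  have hjK : K + 1 ≤ nrm j := by
    by_contra h
    apply hv
    exact Set.mem_iUnion.2 ⟨⟨j, mem_ix.2 (by omega)⟩, hvj⟩
  have h1 := blk_nrm hvj
  have h2 : cn n j - cn n i = cn n (j - i) := by
    unfold cn
    simp only [Prod.mk_sub_mk, Prod.fst_sub, Prod.snd_sub, mul_sub]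
  have h3 := nrm_add (v - cn n i) (-(v - cn n j))
  rw [nrm_neg, show v - cn n i + -(v - cn n j) = cn n j - cn n i by abel, h2, nrm_cn hn] at h3
  have h4 := nrm_add (j - i) i
  rw [sub_add_cancel] at h4
  have h5 : n * (K + 1 - nrm i) ≤ n * nrm (j - i) :=
    mul_le_mul_of_nonneg_left (by omega) (by omega)
  omega

theorem rv_arm (hn : 1 ≤ n) (hi : nrm i ≤ K - 4) (hx : x ∈ blk n i) (hxy : Adj x y)
    (hy : y ∉ MKn n K ∨ y ∈ clus (S ∩ MKn n K) (bdi (MKn n K))) :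
    Arm S (cn n i) (2 * n - 1) (n * (K - 1 - nrm i)) := by
  have h1 := blk_nrm hx
  have h2 := abs_le.1 (nrm_adj hxy (cn n i))
  obtain ⟨q, hq⟩ : ∃ q : ℤ, q = n * (K - 1 - nrm i) := ⟨_, rfl⟩
  have hq3 : n * 3 ≤ q := by
    rw [hq]
    exact mul_le_mul_of_nonneg_left (by omega) (by omega)
  have hq2 : n * (K + 1 - nrm i) = q + 2 * n := by
    rw [hq]
    ring
  rcases hy with hy | ⟨u, ⟨v, hv, huv⟩, hu⟩
  · exfalso
    have h3 := out_far (i := i) hn (by omega) hy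
    rw [hq2] at h3
    omega
  · have h3 := out_far (i := i) hn (by omega) hv
    rw [hq2] at h3
    have h4 := abs_le.1 (nrm_adj huv (cn n i))
    rw [← hq]
    exact arm_of_conn (hu.symm.mono Set.inter_subset_left) (by omega) (by omega) (by omega)

theorem piv_four (hn : 1 ≤ n) (hK : 1 ≤ K) (hi : nrm i ≤ K)
    (hS : ∀ v, v ∉ blk n i → (v ∈ S ↔ v ∈ S'))
    (h : PV S (-(10 * K * n)) (10 * K * n) (-(10 * K * n)) (10 * K * n))
    (h' : ¬ PV S' (-(10 * K * n)) (10 * K * n) (-(10 * K * n)) (10 * K * n)) :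
    Four S (cn n i) (2 * n - 1) (4 * K * n) ∧ Four S' (cn n i) (2 * n - 1) (4 * K * n) := by
  obtain ⟨q, hq⟩ : ∃ q : ℤ, q = K * n := ⟨_, rfl⟩
  have hqn : n ≤ q := by
    rw [hq]
    have h1 : 1 * n ≤ K * n := mul_le_mul_of_nonneg_right hK (by omega)
    omega
  rw [show 10 * K * n = 10 * q by rw [hq]; ring] at h h'
  rw [show 4 * K * n = 4 * q by rw [hq]; ring]
  have hz : nrm (cn n i) ≤ q := by
    rw [nrm_cn hn, hq, mul_comm K]
    exact mul_le_mul_of_nonneg_left hi (by omega)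
  obtain ⟨D, hD⟩ : ∃ D : Set V, D = Par (-(10 * q)) (10 * q) (-(10 * q)) (10 * q) := ⟨_, rfl⟩
  obtain ⟨z, hz'⟩ : ∃ z : V, z = cn n i := ⟨_, rfl⟩
  rw [← hz'] at hz ⊢
  have hbn : ∀ w ∈ blk n i, nrm (w - z) ≤ 2 * (n - 1) := by
    intro w hw
    rw [hz']
    exact blk_nrm hw
  have hfar : ∀ w : V, 10 * q ≤ nrm w → 9 * q ≤ nrm (w - z) := by
    intro w hw
    have h1 := nrm_add (w - z) z
    rw [sub_add_cancel] at h1
    omega
  obtain ⟨u, hu, v, hv, huv⟩ := h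
  rw [← hD] at huv
  have hu' : u.2 ≤ -(10 * q) := hu
  have hv' : 10 * q ≤ v.2 := hv
  have hun : 10 * q ≤ nrm u := by
    have h1 := (nrm_le.1 (le_refl (nrm u))).2.1
    have h2 := neg_abs_le u.2
    omega
  have hvn : 10 * q ≤ nrm v := by
    have h1 := (nrm_le.1 (le_refl (nrm v))).2.1
    have h2 := le_abs_self v.2
    omega
  have huf := hfar u hun
  have hvf := hfar v hvn
  have hub : u ∉ blk n i := fun h1 => by
    have := hbn u h1
    omega
  have hvb : v ∉ blk n i := fun h1 => by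
    have := hbn v h1
    omega
  have hno : ¬ Conn ((S \ blk n i) ∩ D) u v := by
    intro h1
    apply h'
    refine ⟨u, hu, v, hv, ?_⟩
    rw [← hD]
    refine h1.mono ?_
    rintro w ⟨⟨hw1, hw2⟩, hw3⟩
    exact ⟨(hS w hw2).1 hw1, hw3⟩
  have key : ∀ a b : V, Conn (S ∩ D) a b → a ∉ blk n i → ¬ Conn ((S \ blk n i) ∩ D) a b →
      ∃ x, Conn ((S \ blk n i) ∩ D) x a ∧ nrm (x - z) ≤ 2 * n - 1 := by
    intro a b hab ha hnab
    obtain ⟨x, y, hx, hy, hxy, -, hyb⟩ := hab.exit (A := comp ((S \ blk n i) ∩ D) a)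
      (Conn.refl ⟨⟨hab.left.1, ha⟩, hab.left.2⟩) hnab
    have hyb' : y ∈ blk n i := by
      by_contra h1
      exact hy (comp_adj hx ⟨⟨hyb.left.1, h1⟩, hyb.left.2⟩ hxy)
    have h1 := hbn y hyb'
    have h2 := abs_le.1 (nrm_adj hxy z)
    have hx' : Conn ((S \ blk n i) ∩ D) a x := hx
    exact ⟨x, hx'.symm, by omega⟩
  obtain ⟨x, hx, hxn⟩ := key u v huv hub hno
  obtain ⟨x', hx', hxn'⟩ := key v u huv.symm hvb fun h1 => hno h1.symm
  have hF : Four (S \ blk n i) z (2 * n - 1) (4 * q) := by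
    refine four_of_conn hx hx' (fun h1 => hno (hx.symm.trans (h1.trans hx'))) hxn (by omega)
      hxn' (by omega) (by omega) ?_
    intro w hw
    have h1 := hw.2
    have h2 := nrm_add (w - z) z
    rw [sub_add_cancel] at h2
    obtain ⟨h3, h4, -⟩ := nrm_le.1 (le_refl (nrm w))
    rw [abs_le] at h3 h4
    rw [hD]
    exact ⟨by omega, by omega, by omega, by omega⟩
  have hann : ∀ w ∈ Ann z (2 * n - 1) (4 * q), w ∉ blk n i := by
    intro w hw h1
    have h2 := hbn w h1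
    have h3 := hw.1
    omega
  constructor
  · refine (four_congr ?_).1 hF
    ext w
    constructor
    · rintro ⟨⟨h1, h2⟩, h3⟩
      exact ⟨h1, h3⟩
    · rintro ⟨h1, h3⟩
      exact ⟨⟨h1, hann w h3⟩, h3⟩
  · refine (four_congr ?_).1 hF
    ext w
    constructor
    · rintro ⟨⟨h1, h2⟩, h3⟩
      exact ⟨(hS w h2).1 h1, h3⟩
    · rintro ⟨h1, h3⟩
      exact ⟨⟨(hS w (hann w h3)).2 h1, hann w h3⟩, h3⟩

end Pool.Agent.TriPerc
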