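import Pool.Agent.TriPerc.RswC

/-!
# Extension of `Rsw` to larger scales and to strips

* `rsw_exN`: for all `c > 0` and `A ≥ 1` there is `c' > 0` such that `Rsw c p N`, `1 ≤ N` imply
  `Rsw c' p (A * N)`.  PROOF.  `c' = min (min c (1 / 4)) c1` with `c1` from `rsw_long c` with
  `K = 64 * A`.  For `n ≤ N` use `Rsw c p N`.  For `N < n ≤ A N` the rectangle
  `Rec l (l + 64 n) b (b + n)` contains `Rec l (l + 64 n) b (b + N)` (`hc_wide`), whose width is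
  `64 n ≤ 64 A N` (`hc_sub` from the crossing of `Rec l (l + 64 A N) b (b + N)`).
* `strip_ph`: for all `c > 0` and `K ≥ 1` there is `c' > 0` such that under `Rsw c p N` for
  `1 ≤ s ≤ N`, `s ≤ H ≤ K s`: the parallelogram `Par (-H) H (-s) s` is crossed from left to right by
  a `p`-open path with probability at least `c'`, and by a `p`-closed path too; the parallelogram
  `Par (-s) s (-H) H` is crossed from bottom to top by a `p`-open path with probability at least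
  `c'`, and by a `p`-closed path too.  PROOF.  Horizontal: a horizontal crossing of
  `Rec l (l + (8 K) * s) 0 s` with `l = -2 H - s - 1` (rows `0..s`, contained in `-s..s`): here
  `l + 8 K s ≥ 2 H + s + 1` as `8 K s ≥ 4 H + 2 s + 2`.  The path starts at `X ≤ l + 1`, so
  `2 v.1 = X v - v.2 ≤ -2 H - s - v.2 ≤ -2 H`, and ends at `X ≥ l + 8 K s - 1 ≥ 2 H + s`, so
  `2 v.1 ≥ 2 H`.  Cut it to `-H ≤ v.1 ≤ H`: last visit of `{v.1 ≤ -H}` (`Conn.last`), then the first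
  visit of `{H ≤ v.1}` (`Conn.exit`); a step changes `v.1` by at most one, so the part between is a
  crossing of `Par (-H) H (-s) s`.  Probability by `rsw_long` with `8 K`.  Vertical: the
  reflection `swp` (`isAut_swp`) exchanges the coordinates, `join_preimage`, `mp_comp`.
-/

namespace Pool.Agent.TriPerc

open MeasureTheory Set

private theorem mono_real {A B : Set Lab} (h : A ⊆ B) : (P A).toReal ≤ (P B).toReal :=
  ENNReal.toReal_mono (measure_ne_top P B) (measure_mono h)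

theorem rsw_exN (c : ℝ) (hc : 0 < c) (A : ℤ) (hA : 1 ≤ A) : ∃ c' : ℝ, 0 < c' ∧
    ∀ (p : ℝ) (N : ℤ), 1 ≤ N → Rsw c p N → Rsw c' p (A * N) := by
  obtain ⟨c1, hc1, hl⟩ := rsw_long c hc (64 * A) (by omega)
  refine ⟨min (min c (1 / 4)) c1, lt_min (lt_min hc (by norm_num)) hc1, fun p N hN h => ?_⟩
  refine ⟨lt_min (lt_min hc (by norm_num)) hc1, (min_le_left _ _).trans (min_le_right _ _),
    h.2.2.1, h.2.2.2.1, fun n hn hnA l b => ?_⟩
  by_cases hnN : n ≤ N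
  · obtain ⟨h1, h2⟩ := h.2.2.2.2 n hn hnN l b
    have h3 : min (min c (1 / 4)) c1 ≤ c := (min_le_left _ _).trans (min_le_left _ _)
    exact ⟨h3.trans h1, h3.trans h2⟩
  · obtain ⟨h1, h2⟩ := hl p N h N hN le_rfl l b
    have h3 : min (min c (1 / 4)) c1 ≤ c1 := min_le_right _ _
    have h4 : l + 64 * n ≤ l + 64 * A * N := by
      have : 64 * A * N = 64 * (A * N) := by ring
      omega
    have key : ∀ S : Set V, HC S l (l + 64 * A * N) b (b + N) → HC S l (l + 64 * n) b (b + n) :=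
      fun S hS => hc_wide le_rfl (by omega) (hc_sub le_rfl h4 (by omega) hS)
    exact ⟨(h3.trans h1).trans (mono_real fun w hw => key _ hw),
      (h3.trans h2).trans (mono_real fun w hw => key _ hw)⟩

private theorem ph_of_conn {S : Set V} {l r b t : ℤ} {u v : V}
    (h : Conn (S ∩ {z | b ≤ z.2 ∧ z.2 ≤ t}) u v) (hu : u.1 ≤ l)
    (hv : r ≤ v.1) (hbt : l ≤ r) : PH S l r b t := by
  have one : ∀ z, z ∈ S ∩ {z : V | b ≤ z.2 ∧ z.2 ≤ t} → z.1 ≤ l → r ≤ z.1 →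
      PH S l r b t := by
    intro z hz h1 h2
    exact ⟨z, h1, z, h2, Conn.refl ⟨hz.1, by omega, by omega, hz.2.1, hz.2.2⟩⟩
  by_cases hvl : v.1 ≤ l
  · exact one v h.right hvl hv
  obtain ⟨x, y, hx, hy, hxy, h1, h2⟩ := h.last (A := {z | z.1 ≤ l}) hu hvl
  replace hx : x.1 ≤ l := hx
  replace hy : ¬ y.1 ≤ l := hy
  have e1 := abs_le.1 hxy.abs.1
  by_cases hxr : r ≤ x.1
  · exact one x h1.right hx hxr
  have hc : Conn ((S ∩ {z : V | b ≤ z.2 ∧ z.2 ≤ t}) ∩ {z | l ≤ z.1}) x v := by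
    have hxS : x ∈ (S ∩ {z : V | b ≤ z.2 ∧ z.2 ≤ t}) ∩ {z | l ≤ z.1} :=
      ⟨h1.right, by show l ≤ x.1; omega⟩
    have hyS : y ∈ (S ∩ {z : V | b ≤ z.2 ∧ z.2 ≤ t}) ∩ {z | l ≤ z.1} :=
      ⟨h2.left.1, by show l ≤ y.1; omega⟩
    refine (Conn.of_adj hxS hyS hxy).trans (h2.mono ?_)
    rintro z ⟨hz, hz'⟩
    replace hz' : ¬ z.1 ≤ l := hz'
    exact ⟨hz, by show l ≤ z.1; omega⟩
  obtain ⟨x₁, y₁, hx₁, hy₁, hxy₁, h3, h4⟩ := hc.exit (A := {z | z.1 ≤ r - 1})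
    (by show x.1 ≤ r - 1; omega) (by show ¬ v.1 ≤ r - 1; omega)
  replace hx₁ : x₁.1 ≤ r - 1 := hx₁
  replace hy₁ : ¬ y₁.1 ≤ r - 1 := hy₁
  have e2 := abs_le.1 hxy₁.abs.1
  obtain ⟨⟨k1, k2, k3⟩, k4⟩ := h4.left
  replace k4 : l ≤ y₁.1 := k4
  obtain ⟨⟨⟨j1, j2, j3⟩, j4⟩, -⟩ := h3.right
  replace j4 : l ≤ x₁.1 := j4
  refine ⟨x, hx, y₁, by show r ≤ y₁.1; omega, Conn.trans (h3.mono ?_)
    (Conn.of_adj ⟨j1, j4, by omega, j2, j3⟩ ⟨k1, k4, by omega, k2, k3⟩ hxy₁)⟩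
  rintro z ⟨⟨⟨z1, z2, z3⟩, z4⟩, z5⟩
  replace z4 : l ≤ z.1 := z4
  replace z5 : z.1 ≤ r - 1 := z5
  exact ⟨z1, z4, by omega, z2, z3⟩

private theorem ph_of_hc {O : Set V} {s H M l : ℤ} (hsH : s ≤ H)
    (hl : l = -2 * H - s - 1)
    (hM : 4 * H + 2 * s + 2 ≤ M) (h : HC O l (l + M) 0 (0 + s)) : PH O (-H) H (-s) s := by
  obtain ⟨u, hu, v, hv, huv⟩ := h
  replace hu : X u ≤ l + 1 := hu
  replace hv : l + M - 1 ≤ X v := hv
  obtain ⟨-, u1, u2, u3, u4⟩ := huv.left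
  obtain ⟨-, v1, v2, v3, v4⟩ := huv.right
  unfold X at hu hv
  refine ph_of_conn (huv.mono ?_) (by omega) (by omega) (by omega)
  rintro z ⟨hz, z1, z2, z3, z4⟩
  exact ⟨hz, by omega, by omega⟩

private theorem pv_of_ph {O : Set V} {l r b t : ℤ} (h : PH {v | swp v ∈ O} l r b t) :
    PV O b t l r := by
  have h1 : Join (swp ⁻¹' (O ∩ Par b t l r)) (swp ⁻¹' {v | v.2 ≤ l}) (swp ⁻¹' {v | r ≤ v.2}) := by
    refine Join.mono h ?_ subset_rfl subset_rfl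
    rintro z ⟨hz, z1, z2, z3, z4⟩
    exact ⟨hz, z3, z4, z1, z2⟩
  exact (join_preimage isAut_swp).1 h1

theorem strip_ph (c : ℝ) (hc : 0 < c) (K : ℤ) (hK : 1 ≤ K) : ∃ c' : ℝ, 0 < c' ∧
    ∀ (p : ℝ) (N : ℤ), Rsw c p N → ∀ s H : ℤ, 1 ≤ s → s ≤ N → s ≤ H → H ≤ K * s →
    c' ≤ (P {w | PH (Op p w) (-H) H (-s) s}).toReal ∧
    c' ≤ (P {w | PH (Cl p w) (-H) H (-s) s}).toReal ∧
    c' ≤ (P {w | PV (Op p w) (-s) s (-H) H}).toReal ∧
    c' ≤ (P {w | PV (Cl p w) (-s) s (-H) H}).toReal := by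
  obtain ⟨c', hc', hl⟩ := rsw_long c hc (8 * K) (by omega)
  refine ⟨c', hc', fun p N h s H hs hsN hsH hHK => ?_⟩
  obtain ⟨h1, h2⟩ := hl p N h s hs hsN (-2 * H - s - 1) 0
  have hM : 4 * H + 2 * s + 2 ≤ 8 * K * s := by
    have e1 : 8 * K * s = 8 * (K * s) := by ring
    have e2 : s ≤ K * s := by nlinarith
    omega
  have a1 : c' ≤ (P {w | PH (Op p w) (-H) H (-s) s}).toReal :=
    h1.trans (mono_real fun w hw => ph_of_hc hsH rfl hM hw)
  have a2 : c' ≤ (P {w | PH (Cl p w) (-H) H (-s) s}).toReal :=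
    h2.trans (mono_real fun w hw => ph_of_hc hsH rfl hM hw)
  refine ⟨a1, a2, ?_, ?_⟩
  · have hm := (mp_comp swp).measure_preimage
      (s := {w | PH (Op p w) (-H) H (-s) s}) ev_oPH.1.nullMeasurableSet
    rw [← hm] at a1
    exact a1.trans (mono_real fun w hw => pv_of_ph hw)
  · have hm := (mp_comp swp).measure_preimage
      (s := {w | PH (Cl p w) (-H) H (-s) s}) ev_cPH.1.nullMeasurableSet
    rw [← hm] at a2
    exact a2.trans (mono_real fun w hw => pv_of_ph hw)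

end Pool.Agent.TriPerc
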