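import Pool.Agent.TriPerc.GrowA
import Pool.Agent.TriPerc.RswX

/-!
# Resampling the labels of `MKn n K` changes the crossing with positive probability

`grow_low`: under `Rsw c p N`, for `1 ≤ n`, `8 ≤ K`, `K n ≤ N`, with `H = 10 K n`: with probability at
least `c1 = c1 (c)`, `w` has an open crossing of `Par (-H) H (-H) H` from bottom to top and
`mix (MKn n K) w w'` has none.

PROOF.  Let `s = K n / 4` (`s ≥ 2`, `2 s ≤ K n / 2`, `s ≤ N`, `s ≤ H ≤ 80 s`), `M = MKn n K`,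
`A = {w | PV (Op p w) (-s) s (-H) H}`, `B = {w | PH (Cl p w) (-H) H (-s) s}`.  By `strip_ph` with
`K = 80`: `P A ≥ c'`, `P B ≥ c'`.  `w ∈ A` implies `PV (Op p w) (-H) H (-H) H` (larger parallelogram,
`Join.mono`), and `w'' ∈ B` implies `PH (Cl p w'') (-H) H (-H) H`, hence not
`PV (Op p w'') (-H) H (-H) H` (`par_not`, `cl_compl`).  So it is enough to show
`P.prod P {z | z.1 ∈ A, mix M z.1 z.2 ∈ B} = P A * P B` (`≥` is enough).  Let
`Vs = Par (-s) s (-H) H`, `Hs = Par (-H) H (-s) s`.  `Vs ∩ Hs = Par (-s) s (-s) s ⊆ M`: a vertex `v` of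
it has `nrm v ≤ 2 s ≤ K n / 2 < n (K + 1) - 2 (n - 1)` and `out_far` with `i = 0` (`cn n 0 = 0`).  For
`(w1, w2, w')` let `w = mix Vs w1 w2` (labels in `Vs` from `w2`).  The map
`((w1, w2), w') ↦ (w, w')` is measure preserving to `P.prod P` (`mp_mix`).  `w ∈ A` iff
`w2 ∈ A` (`A` is an event of `Vs`), and `mix M w w' ∈ B` iff `mix M w1 w' ∈ B` (`B` is an event
of `Hs`; on `Hs ∩ M` both have the labels of `w'`, on `Hs \ M`, which is disjoint from `Vs`, both
have the labels of `w1`).  These two depend on independent variables, and `mix M w1 w'` has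
the law `P`.  (Or: by Fubini and `indep_fun` with `S = Vs` for `f` = indicator of `A` and
`h w = P {w' | mix M (mix Vs w w3) w' ∈ B}` for a fixed `w3`.)
-/

namespace Pool.Agent.TriPerc

open MeasureTheory Set

private theorem mix_in {s : Set V} {w w' : Lab} {v : V} (h : v ∈ s) : mix s w w' v = w' v := by
  simp [mix, h]

private theorem mix_out {s : Set V} {w w' : Lab} {v : V} (h : v ∉ s) : mix s w w' v = w v := by
  simp [mix, h]

private theorem prod_eq {S T M : Set V} {A B : Set Lab} (hA : Ev S A) (hB : Ev T B)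
    (hM : S ∩ T ⊆ M) :
    (P.prod P) {z : Lab × Lab | z.1 ∈ A ∧ mix M z.1 z.2 ∈ B} = P A * P B := by
  have hE : MeasurableSet {z : Lab × Lab | z.1 ∈ A ∧ mix M z.1 z.2 ∈ B} :=
    (measurable_fst hA.1).inter (measurable_mix M hB.1)
  have mp1 : MeasurePreserving
      (Prod.map (fun z : Lab × Lab => mix S z.1 z.2) (id : Lab → Lab))
      ((P.prod P).prod P) (P.prod P) := (mp_mix S).prod (MeasurePreserving.id P)
  have mp2 : MeasurePreserving (Prod.map (Prod.swap : Lab × Lab → Lab × Lab) (id : Lab → Lab))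
      ((P.prod P).prod P) ((P.prod P).prod P) :=
    (Measure.measurePreserving_swap).prod (MeasurePreserving.id P)
  have mp3 := measurePreserving_prodAssoc P P P
  have mp4 := mp3.comp mp2
  have hF : MeasurableSet (A ×ˢ ((fun z : Lab × Lab => mix M z.1 z.2) ⁻¹' B)) :=
    hA.1.prod (measurable_mix M hB.1)
  have h1 := mp1.measure_preimage hE.nullMeasurableSet
  have h2 := mp4.measure_preimage hF.nullMeasurableSet
  rw [Measure.prod_prod, (mp_mix M).measure_preimage hB.1.nullMeasurableSet] at h2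
  rw [← h1, ← h2]
  congr 1
  ext ⟨⟨w1, w2⟩, w'⟩
  have e1 : mix S w1 w2 ∈ A ↔ w2 ∈ A :=
    ⟨hA.2 _ _ fun v hv => mix_in hv, hA.2 _ _ fun v hv => (mix_in hv).symm⟩
  have e2 : ∀ v ∈ T, mix M (mix S w1 w2) w' v = mix M w1 w' v := by
    intro v hv
    by_cases hvM : v ∈ M
    · rw [mix_in hvM, mix_in hvM]
    · have hvS : v ∉ S := fun h => hvM (hM ⟨h, hv⟩)
      rw [mix_out hvM, mix_out hvM, mix_out hvS]
  have e3 : mix M (mix S w1 w2) w' ∈ B ↔ mix M w1 w' ∈ B :=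
    ⟨hB.2 _ _ e2, hB.2 _ _ fun v hv => (e2 v hv).symm⟩
  exact and_congr e1 e3

private theorem sq_sub {n K s : ℤ} (hn : 1 ≤ n) (hK : 8 ≤ K) (hs : 4 * s ≤ K * n) (l r : ℤ) :
    Par (-s) s l r ∩ Par l r (-s) s ⊆ MKn n K := by
  intro v hv
  by_contra hc
  have h0 : nrm (0 : V) = 0 := nrm_zero_iff.2 rfl
  have h1 := out_far (i := (0 : V)) hn (by rw [h0]; omega) hc
  have h2 : cn n (0 : V) = 0 := by
    ext <;> simp [cn]
  rw [h0, h2, show v - 0 = v from sub_zero v, sub_zero] at h1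
  have h3 : nrm v ≤ 2 * s := by
    obtain ⟨⟨a1, a2, -, -⟩, ⟨-, -, b1, b2⟩⟩ := hv
    have hs0 : 0 ≤ s := by omega
    refine max_le (max_le (abs_le.2 ⟨by omega, by omega⟩) (abs_le.2 ⟨by omega, by omega⟩))
      (abs_le.2 ⟨by omega, by omega⟩)
  nlinarith

theorem grow_low (c : ℝ) (hc : 0 < c) : ∃ c1 : ℝ, 0 < c1 ∧
    ∀ (p : ℝ) (N : ℤ), Rsw c p N → ∀ n K : ℤ, 1 ≤ n → 8 ≤ K → K * n ≤ N →
    c1 ≤ ((P.prod P) {z : Lab × Lab |
      PV (Op p z.1) (-(10 * K * n)) (10 * K * n) (-(10 * K * n)) (10 * K * n) ∧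
      ¬ PV (Op p (mix (MKn n K) z.1 z.2)) (-(10 * K * n)) (10 * K * n) (-(10 * K * n))
        (10 * K * n)}).toReal := by
  obtain ⟨c', hc', h⟩ := strip_ph c hc 80 (by norm_num)
  refine ⟨c' * c', mul_pos hc' hc', fun p N hR n K hn hK hN => ?_⟩
  have hKn : 8 ≤ K * n := by nlinarith
  obtain ⟨s, hs⟩ : ∃ s : ℤ, s = K * n / 4 := ⟨_, rfl⟩
  obtain ⟨H, hH⟩ : ∃ H : ℤ, H = 10 * K * n := ⟨_, rfl⟩
  have hH' : H = 10 * (K * n) := by rw [hH]; ring
  rw [← hH]
  have hs1 : 1 ≤ s := by omega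
  have hs2 : s ≤ N := by omega
  have hs3 : s ≤ H := by omega
  have hs4 : H ≤ 80 * s := by omega
  have hs5 : 4 * s ≤ K * n := by omega
  obtain ⟨-, hB, hA, -⟩ := h p N hR s H hs1 hs2 hs3 hs4
  have eA : Ev (Par (-s) s (-H) H) {w | PV (Op p w) (-s) s (-H) H} :=
    ev_op (finite_par _ _ _ _) p
      (fun O => Join O {v | v.2 ≤ -H} {v | H ≤ v.2})
  have eB : Ev (Par (-H) H (-s) s) {w | PH (Cl p w) (-H) H (-s) s} :=
    ev_cl (finite_par _ _ _ _) p
      (fun O => Join O {v | v.1 ≤ -H} {v | H ≤ v.1})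
  have key := prod_eq eA eB (sq_sub (n := n) (K := K) hn hK hs5 (-H) H)
  have hle : (P.prod P) {z : Lab × Lab | z.1 ∈ {w | PV (Op p w) (-s) s (-H) H} ∧
      mix (MKn n K) z.1 z.2 ∈ {w | PH (Cl p w) (-H) H (-s) s}} ≤
      (P.prod P) {z : Lab × Lab | PV (Op p z.1) (-H) H (-H) H ∧
      ¬ PV (Op p (mix (MKn n K) z.1 z.2)) (-H) H (-H) H} := by
    refine measure_mono fun z hz => ⟨?_, fun hV => ?_⟩
    · refine Join.mono hz.1 (inter_subset_inter_right _ ?_) subset_rfl subset_rfl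
      rintro v ⟨h1, h2, h3, h4⟩
      exact ⟨by omega, by omega, h3, h4⟩
    · refine par_not (Cl p (mix (MKn n K) z.1 z.2)) (l := -H) (r := H) (b := -H) (t := H)
        (by omega) (by omega) ⟨?_, ?_⟩
      · refine Join.mono hz.2 (inter_subset_inter_right _ ?_) subset_rfl subset_rfl
        rintro v ⟨h1, h2, h3, h4⟩
        exact ⟨h1, h2, by omega, by omega⟩
      · rw [cl_compl, compl_compl]
        exact hV
  have h5 := ENNReal.toReal_mono (measure_ne_top _ _) hle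
  rw [key, ENNReal.toReal_mul] at h5
  exact (mul_le_mul hA hB hc'.le ENNReal.toReal_nonneg).trans h5

end Pool.Agent.TriPerc
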