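import Pool.Agent.TriPerc.Meas
import Pool.Agent.TriPerc.Rect

/-!
# Crossing events; the rhombus is crossed with probability at least `1/2` at `p = 1/2`

* For every level `p` the events `oHC p l r b t` (horizontal crossing of the rectangle by a
  `p`-open path) and `cHC` (by a `p`-closed path) are measurable and depend on the labels in
  `Rec l r b t` only (`ev_op`, `ev_cl`: the definition of `HC` uses `S ∩ Rec` only and `Rec` is
  finite); `oHC` is a lower set, `cHC` an upper set (`hc_mono`).  The same for `VC, PH, PV`.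
* `half`: `P (oPH (1/2) 0 n 0 n) ≥ 1/2` for `n ≥ 0`.
  PROOF.  By `par_or` the union of `oPH (1/2) 0 n 0 n` and of
  `B = {w | PV (Op (1/2) w)ᶜ 0 n 0 n}` is everything.  `P B ≤ P (oPH (1/2) 0 n 0 n)`: apply the
  measure preserving map `w ↦ (fun v => 1 - w (swp v))` (`mp_comp`, `mp_flip`): if `w ∈ B` there is
  a path from the bottom to the top of the rhombus on which `w > 1/2`; for `w' v = 1 - w (swp v)`
  the reflected path goes from the left to the right and `w' < 1/2` on it.  So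
  `B ⊆ preimage of oPH`.
* `half_c`: the same for closed crossings (`cPH`; here use that a label is a.s. not `1/2`, or argue
  in the same way with `1/2 < w`: the complement of `cPH` is contained in a vertical crossing by
  vertices with `w ≤ 1/2`, and almost surely `w ≠ 1/2`, `ae_label`).
* `shift_...`: translation by a vertex `z` moves `X` by `X z` and the row by `z.2` (`mp_comp` with
  `tr z`, `join_preimage`).  `refl_...`: the reflection `vref m` (`X ↦ 2 m - X`) exchanges the left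
  and the right side (`Join.symm`).  `flip_...`: at `p = 1/2` open and closed crossings have the
  same probability (`mp_flip`, `ae_label`: a label is a.s. not equal to `1/2`).
* `half_rec`: by `hc_of_ph` a crossing of the rhombus crosses `Rec n (2 n) 0 n`; the reflection
  `X ↦ 2 n - X` maps this rectangle to `Rec 0 n 0 n`.
* `oHC_lb` (all positions): a translation preserves the parity of `l + b`.  If `l + b` is even,
  translate to `l = b = 0` and use `hc_sub`; if it is odd, a crossing of `Rec (l-1) (l+m) b (b+n)`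
  crosses `Rec l (l+m) b (b+n)` (`hc_sub`), and `Rec (l-1) (l+m) b (b+n)` is a translate of
  `Rec 0 (m+1) 0 n`.  The same for closed crossings.
-/

namespace Pool.Agent.TriPerc

open MeasureTheory Set

/-- horizontal `p`-open crossing -/
def oHC (p : ℝ) (l r b t : ℤ) : Set Lab := {w | HC (Op p w) l r b t}
/-- horizontal `p`-closed crossing -/
def cHC (p : ℝ) (l r b t : ℤ) : Set Lab := {w | HC (Cl p w) l r b t}
/-- vertical `p`-open crossing -/
def oVC (p : ℝ) (l r b t : ℤ) : Set Lab := {w | VC (Op p w) l r b t}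
/-- vertical `p`-closed crossing -/
def cVC (p : ℝ) (l r b t : ℤ) : Set Lab := {w | VC (Cl p w) l r b t}
/-- left-right `p`-open crossing of a parallelogram -/
def oPH (p : ℝ) (l r b t : ℤ) : Set Lab := {w | PH (Op p w) l r b t}
/-- left-right `p`-closed crossing of a parallelogram -/
def cPH (p : ℝ) (l r b t : ℤ) : Set Lab := {w | PH (Cl p w) l r b t}

variable {p q : ℝ} {l r b t : ℤ}

theorem ev_oHC : Ev (Rec l r b t) (oHC p l r b t) :=
  ev_op (finite_rec l r b t) p fun T => Join T {v | X v ≤ l + 1} {v | r - 1 ≤ X v}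

theorem ev_cHC : Ev (Rec l r b t) (cHC p l r b t) :=
  ev_cl (finite_rec l r b t) p fun T => Join T {v | X v ≤ l + 1} {v | r - 1 ≤ X v}

theorem ev_oVC : Ev (Rec l r b t) (oVC p l r b t) :=
  ev_op (finite_rec l r b t) p fun T => Join T {v | v.2 ≤ b} {v | t ≤ v.2}

theorem ev_cVC : Ev (Rec l r b t) (cVC p l r b t) :=
  ev_cl (finite_rec l r b t) p fun T => Join T {v | v.2 ≤ b} {v | t ≤ v.2}

theorem ev_oPH : Ev (Par l r b t) (oPH p l r b t) :=
  ev_op (finite_par l r b t) p fun T => Join T {v | v.1 ≤ l} {v | r ≤ v.1}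

theorem ev_cPH : Ev (Par l r b t) (cPH p l r b t) :=
  ev_cl (finite_par l r b t) p fun T => Join T {v | v.1 ≤ l} {v | r ≤ v.1}

/-- The general form: crossings by `p`-open paths of a finite region `D`. -/
theorem ev_join {D A B : Set V} (hD : D.Finite) :
    Ev D {w | Join (Op p w ∩ D) A B} ∧ IsLowerSet {w | Join (Op p w ∩ D) A B} := by
  refine ⟨ev_op hD p fun T => Join T A B, ?_⟩
  intro w w' hle hw
  exact Join.mono hw (fun v hv => ⟨(hle v).trans hv.1, hv.2⟩) subset_rfl subset_rfl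

theorem ev_join_cl {D A B : Set V} (hD : D.Finite) :
    Ev D {w | Join (Cl p w ∩ D) A B} ∧ IsUpperSet {w | Join (Cl p w ∩ D) A B} := by
  refine ⟨ev_cl hD p fun T => Join T A B, ?_⟩
  intro w w' hle hw
  exact Join.mono hw (fun v hv => ⟨lt_of_lt_of_le hv.1 (hle v), hv.2⟩) subset_rfl subset_rfl

theorem low_oHC : IsLowerSet (oHC p l r b t) :=
  (ev_join (finite_rec l r b t)).2

theorem low_oVC : IsLowerSet (oVC p l r b t) :=
  (ev_join (finite_rec l r b t)).2

theorem up_cHC : IsUpperSet (cHC p l r b t) :=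
  (ev_join_cl (finite_rec l r b t)).2

theorem up_cVC : IsUpperSet (cVC p l r b t) :=
  (ev_join_cl (finite_rec l r b t)).2

theorem cHC_compl_oVC (hlr : l < r) (hbt : b ≤ t) : (oVC p l r b t)ᶜ = cHC p l r b t := by
  ext w
  have h1 := rec_or' (Op p w) hlr hbt
  have h2 := rec_not' (Op p w) hlr hbt
  show ¬ VC (Op p w) l r b t ↔ HC (Cl p w) l r b t
  rw [cl_compl]
  tauto

theorem cVC_compl_oHC (hlr : l < r) (hbt : b ≤ t) : (oHC p l r b t)ᶜ = cVC p l r b t := by
  ext w
  have h1 := rec_or (Op p w) hlr hbt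
  have h2 := rec_not (Op p w) hlr hbt
  show ¬ HC (Op p w) l r b t ↔ VC (Cl p w) l r b t
  rw [cl_compl]
  tauto

private theorem join_comp {g : V ≃ V} (hg : IsAut g) {D D' A A' B B' : Set V}
    (hD : g ⁻¹' D' = D) (hA : g ⁻¹' A' = A) (hB : g ⁻¹' B' = B) (S : Set V) :
    Join (g ⁻¹' S ∩ D) A B ↔ Join (S ∩ D') A' B' := by
  rw [← hD, ← hA, ← hB, ← Set.preimage_inter]
  exact join_preimage hg

private theorem P_join_op {g : V ≃ V} (hg : IsAut g) {D D' A A' B B' : Set V} (hDf : D.Finite)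
    (hD : g ⁻¹' D' = D) (hA : g ⁻¹' A' = A) (hB : g ⁻¹' B' = B) :
    P {w | Join (Op p w ∩ D') A' B'} = P {w | Join (Op p w ∩ D) A B} := by
  rw [← (mp_comp g).measure_preimage
    (ev_join (p := p) (A := A) (B := B) hDf).1.1.nullMeasurableSet]
  congr 1
  ext w
  exact (join_comp hg hD hA hB (Op p w)).symm

private theorem P_join_cl {g : V ≃ V} (hg : IsAut g) {D D' A A' B B' : Set V} (hDf : D.Finite)
    (hD : g ⁻¹' D' = D) (hA : g ⁻¹' A' = A) (hB : g ⁻¹' B' = B) :
    P {w | Join (Cl p w ∩ D') A' B'} = P {w | Join (Cl p w ∩ D) A B} := by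
  rw [← (mp_comp g).measure_preimage
    (ev_join_cl (p := p) (A := A) (B := B) hDf).1.1.nullMeasurableSet]
  congr 1
  ext w
  exact (join_comp hg hD hA hB (Cl p w)).symm

private theorem X_tr (z v : V) : X (tr z v) = X v + X z ∧ (tr z v).2 = v.2 + z.2 := by
  refine ⟨?_, rfl⟩
  show 2 * (v.1 + z.1) + (v.2 + z.2) = 2 * v.1 + v.2 + (2 * z.1 + z.2)
  ring

private theorem tr_rec (z : V) : tr z ⁻¹' Rec (l + X z) (r + X z) (b + z.2) (t + z.2) =
    Rec l r b t := by
  ext v
  obtain ⟨h1, h2⟩ := X_tr z v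
  show (l + X z ≤ X (tr z v) ∧ X (tr z v) ≤ r + X z ∧ b + z.2 ≤ (tr z v).2 ∧
    (tr z v).2 ≤ t + z.2) ↔ (l ≤ X v ∧ X v ≤ r ∧ b ≤ v.2 ∧ v.2 ≤ t)
  rw [h1, h2]
  constructor <;> rintro ⟨a1, a2, a3, a4⟩ <;> refine ⟨?_, ?_, ?_, ?_⟩ <;> omega

private theorem tr_left (z : V) : tr z ⁻¹' {v | X v ≤ l + X z + 1} = {v | X v ≤ l + 1} := by
  ext v
  have h1 := (X_tr z v).1
  show X (tr z v) ≤ l + X z + 1 ↔ X v ≤ l + 1
  rw [h1]
  constructor <;> intro h <;> omega

private theorem tr_right (z : V) : tr z ⁻¹' {v | r + X z - 1 ≤ X v} = {v | r - 1 ≤ X v} := by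
  ext v
  have h1 := (X_tr z v).1
  show r + X z - 1 ≤ X (tr z v) ↔ r - 1 ≤ X v
  rw [h1]
  constructor <;> intro h <;> omega

private theorem vref_rec (m : ℤ) : vref m ⁻¹' Rec (2 * m - r) (2 * m - l) b t =
    Rec l r b t := by
  ext v
  obtain ⟨h1, h2⟩ := X_vref m v
  show (2 * m - r ≤ X (vref m v) ∧ X (vref m v) ≤ 2 * m - l ∧ b ≤ (vref m v).2 ∧
    (vref m v).2 ≤ t) ↔ (l ≤ X v ∧ X v ≤ r ∧ b ≤ v.2 ∧ v.2 ≤ t)
  rw [h1, h2]
  constructor <;> rintro ⟨a1, a2, a3, a4⟩ <;> refine ⟨?_, ?_, a3, a4⟩ <;> omega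

private theorem vref_left (m : ℤ) : vref m ⁻¹' {v | X v ≤ 2 * m - r + 1} =
    {v | r - 1 ≤ X v} := by
  ext v
  have h1 := (X_vref m v).1
  show X (vref m v) ≤ 2 * m - r + 1 ↔ r - 1 ≤ X v
  rw [h1]
  constructor <;> intro h <;> omega

private theorem vref_right (m : ℤ) : vref m ⁻¹' {v | 2 * m - l - 1 ≤ X v} =
    {v | X v ≤ l + 1} := by
  ext v
  have h1 := (X_vref m v).1
  show 2 * m - l - 1 ≤ X (vref m v) ↔ X v ≤ l + 1
  rw [h1]
  constructor <;> intro h <;> omega

private theorem exists_tr {a c : ℤ} (h : (a + c) % 2 = 0) : ∃ z : V, X z = a ∧ z.2 = c := by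
  refine ⟨((a - c) / 2, c), ?_, rfl⟩
  show 2 * ((a - c) / 2) + c = a
  omega

theorem shift_oHC (z : V) :
    P (oHC p (l + X z) (r + X z) (b + z.2) (t + z.2)) = P (oHC p l r b t) :=
  P_join_op (isAut_tr z) (finite_rec l r b t) (tr_rec z) (tr_left z) (tr_right z)

theorem shift_cHC (z : V) :
    P (cHC p (l + X z) (r + X z) (b + z.2) (t + z.2)) = P (cHC p l r b t) :=
  P_join_cl (isAut_tr z) (finite_rec l r b t) (tr_rec z) (tr_left z) (tr_right z)

theorem refl_oHC (m : ℤ) : P (oHC p (2 * m - r) (2 * m - l) b t) = P (oHC p l r b t) := by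
  have h := P_join_op (p := p) (isAut_vref m) (finite_rec l r b t) (vref_rec (b := b) (t := t) m)
    (vref_left (r := r) m) (vref_right (l := l) m)
  have h2 : {w | Join (Op p w ∩ Rec l r b t) {v | r - 1 ≤ X v} {v | X v ≤ l + 1}} =
      oHC p l r b t := by
    ext w
    exact ⟨Join.symm, Join.symm⟩
  rw [h2] at h
  exact h

theorem refl_cHC (m : ℤ) : P (cHC p (2 * m - r) (2 * m - l) b t) = P (cHC p l r b t) := by
  have h := P_join_cl (p := p) (isAut_vref m) (finite_rec l r b t) (vref_rec (b := b) (t := t) m)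
    (vref_left (r := r) m) (vref_right (l := l) m)
  have h2 : {w | Join (Cl p w ∩ Rec l r b t) {v | r - 1 ≤ X v} {v | X v ≤ l + 1}} =
      cHC p l r b t := by
    ext w
    exact ⟨Join.symm, Join.symm⟩
  rw [h2] at h
  exact h

theorem oHC_lb {m n : ℤ} (hm : 1 ≤ m) (l b : ℤ) :
    P (oHC p 0 (m + 1) 0 n) ≤ P (oHC p l (l + m) b (b + n)) := by
  rcases Int.emod_two_eq_zero_or_one (l + b) with h | h
  · obtain ⟨z, h1, h2⟩ := exists_tr h
    have h3 := shift_oHC (p := p) (l := 0) (r := m) (b := 0) (t := n) z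
    rw [h1, h2, zero_add, zero_add, add_comm m l, add_comm n b] at h3
    rw [h3]
    exact measure_mono fun w hw => hc_sub le_rfl (by omega) (by omega) hw
  · obtain ⟨z, h1, h2⟩ := exists_tr (a := l - 1) (c := b) (by omega)
    have h3 := shift_oHC (p := p) (l := 0) (r := m + 1) (b := 0) (t := n) z
    rw [h1, h2, zero_add, zero_add, show m + 1 + (l - 1) = l + m by ring, add_comm n b] at h3
    rw [← h3]
    exact measure_mono fun w hw => hc_sub (by omega) le_rfl (by omega) hw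

theorem cHC_lb {m n : ℤ} (hm : 1 ≤ m) (l b : ℤ) :
    P (cHC p 0 (m + 1) 0 n) ≤ P (cHC p l (l + m) b (b + n)) := by
  rcases Int.emod_two_eq_zero_or_one (l + b) with h | h
  · obtain ⟨z, h1, h2⟩ := exists_tr h
    have h3 := shift_cHC (p := p) (l := 0) (r := m) (b := 0) (t := n) z
    rw [h1, h2, zero_add, zero_add, add_comm m l, add_comm n b] at h3
    rw [h3]
    exact measure_mono fun w hw => hc_sub le_rfl (by omega) (by omega) hw
  · obtain ⟨z, h1, h2⟩ := exists_tr (a := l - 1) (c := b) (by omega)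
    have h3 := shift_cHC (p := p) (l := 0) (r := m + 1) (b := 0) (t := n) z
    rw [h1, h2, zero_add, zero_add, show m + 1 + (l - 1) = l + m by ring, add_comm n b] at h3
    rw [← h3]
    exact measure_mono fun w hw => hc_sub (by omega) le_rfl (by omega) hw

private theorem flip_join {D A B : Set V} (hD : D.Finite) :
    P {w | Join (Cl (1 / 2) w ∩ D) A B} = P {w | Join (Op (1 / 2) w ∩ D) A B} := by
  rw [← mp_flip.measure_preimage
    (ev_join (p := 1 / 2) (A := A) (B := B) hD).1.1.nullMeasurableSet]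
  refine measure_congr ?_
  filter_upwards [ae_label (1 / 2)] with w hw
  have h1 : Op (1 / 2) (fun v => 1 - w v) = Cl (1 / 2) w := by
    ext v
    have h2 := (hw.1 v).2.2
    show 1 - w v ≤ 1 / 2 ↔ 1 / 2 < w v
    constructor
    · intro h
      exact lt_of_le_of_ne (by linarith) (Ne.symm h2)
    · intro h
      linarith
  refine propext ?_
  show Join (Cl (1 / 2) w ∩ D) A B ↔ Join (Op (1 / 2) (fun v => 1 - w v) ∩ D) A B
  rw [h1]

theorem flip_oHC : P (cHC (1 / 2) l r b t) = P (oHC (1 / 2) l r b t) :=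
  flip_join (finite_rec l r b t)

theorem flip_oVC : P (cVC (1 / 2) l r b t) = P (oVC (1 / 2) l r b t) :=
  flip_join (finite_rec l r b t)

theorem half {n : ℤ} (hn : 0 ≤ n) : 1 / 2 ≤ P (oPH (1 / 2) 0 n 0 n) := by
  set Ev1 : Set Lab := oPH (1 / 2) 0 n 0 n with hE
  set B : Set Lab := {w | PV (Op (1 / 2) w)ᶜ 0 n 0 n} with hB
  have hmE : MeasurableSet Ev1 := ev_oPH.1
  have hcov : (Set.univ : Set Lab) ⊆ Ev1 ∪ B := fun w _ => par_or (Op (1 / 2) w) hn hn
  have hmp : MeasurePreserving (fun w : Lab => fun v => 1 - w (swp v)) P P :=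
    mp_flip.comp (mp_comp swp)
  have hsub : B ⊆ (fun w : Lab => fun v => 1 - w (swp v)) ⁻¹' Ev1 := by
    intro w hw
    have h1 : Join ((Op (1 / 2) w)ᶜ ∩ Par 0 n 0 n) {v | v.2 ≤ 0} {v | n ≤ v.2} := hw
    have hpar : swp ⁻¹' Par 0 n 0 n = Par 0 n 0 n := by
      ext v
      show (0 ≤ v.2 ∧ v.2 ≤ n ∧ 0 ≤ v.1 ∧ v.1 ≤ n) ↔ (0 ≤ v.1 ∧ v.1 ≤ n ∧ 0 ≤ v.2 ∧ v.2 ≤ n)
      tauto
    have h2 := (join_comp isAut_swp hpar (A' := {v | v.2 ≤ 0}) (B' := {v | n ≤ v.2}) rfl rfl
      (Op (1 / 2) w)ᶜ).2 h1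
    refine Join.mono h2 (fun v hv => ⟨?_, hv.2⟩) subset_rfl subset_rfl
    have h3 : ¬ w (swp v) ≤ 1 / 2 := hv.1
    show 1 - w (swp v) ≤ 1 / 2
    linarith [not_le.1 h3]
  have h1 : P B ≤ P Ev1 :=
    (measure_mono hsub).trans_eq (hmp.measure_preimage hmE.nullMeasurableSet)
  have h2 : (1 : ENNReal) ≤ P Ev1 + P Ev1 := by
    calc (1 : ENNReal) = P Set.univ := measure_univ.symm
      _ ≤ P (Ev1 ∪ B) := measure_mono hcov
      _ ≤ P Ev1 + P B := measure_union_le _ _
      _ ≤ P Ev1 + P Ev1 := by gcongr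
  by_contra hlt
  rw [not_le] at hlt
  have h3 : P Ev1 + P Ev1 < 1 / 2 + 1 / 2 := ENNReal.add_lt_add hlt hlt
  rw [ENNReal.add_halves] at h3
  exact absurd h2 (not_le.2 h3)

/-- The basic rectangle: `X`-width `n`, height `n`. -/
theorem half_rec {n : ℤ} (hn : 1 ≤ n) : 1 / 2 ≤ P (oHC (1 / 2) 0 n 0 n) := by
  have h1 := refl_oHC (p := 1 / 2) (l := n) (r := 2 * n) (b := 0) (t := n) n
  rw [sub_self, show 2 * n - n = n by ring] at h1
  rw [h1]
  exact (half (by omega)).trans (measure_mono fun w hw => hc_of_ph hn hw)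

end Pool.Agent.TriPerc
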