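import Pool.Agent.TriPerc.Harris
import Pool.Agent.TriPerc.Pth

/-!
# Generalized FKG inequality; events explored from a cluster

`MM s1 s2 A`: with the labels outside `s1 ∪ s2` fixed, `A` is a lower event in the labels of `s1` and an
upper event in the labels of `s2`.

* `mp_flip_on`: changing `w v` into `1 - w v` for all `v ∈ s` preserves `P` (as `mp_flip`: check boxes; or
  compose `mp_mix` with `mp_flip`: `mix s w w'` has law `P` under `P.prod P`, and so has
  `mix s w (1 - w')`).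
* `harris_gen`: `s1, s2` finite and disjoint, `Ev s A` with `s` finite, `MM s1 s2 A`, `Ev (s1 ∪ s2) B`,
  `MM s1 s2 B`.  Then `P A * P B ≤ P (A ∩ B)`.
  PROOF.  By `mp_mix` with `s1 ∪ s2`, `P (A ∩ B) = ∫ P {w' | mix (s1 ∪ s2) w w' ∈ A ∩ B} dP(w)` and
  `P A = ∫ P {w' | mix (s1 ∪ s2) w w' ∈ A} dP(w)` (Fubini, see `mix_prod` in `Harris.lean`).  For fixed `w`
  put `A' = {w' | mix (s1 ∪ s2) w w' ∈ A}`; it depends on the labels in `s1 ∪ s2` only and
  `MM s1 s2 A'`; and `{w' | mix (s1 ∪ s2) w w' ∈ B} = B`.  Let `φ` be the flip on `s2`.  Then `φ ⁻¹' A'` and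
  `φ ⁻¹' B` are lower sets which depend on the finite set `s1 ∪ s2`; `harris_low` and `mp_flip_on` give
  `P A' * P B ≤ P (A' ∩ B)`.  Integrate over `w`.
* `harris_two`: the same with `B = B1 ∩ B2`, `B1` lower depending on `s1`, `B2` upper depending on `s2`:
  `P A * P B1 * P B2 ≤ P (A ∩ (B1 ∩ B2))` (by `indep`, `P (B1 ∩ B2) = P B1 * P B2`).
* `last_count`: events `E i`, `i < n`, such that
  `P (E i ∩ ⋃ j ∈ (i, n), E j) ≤ (1 - c) P (E i)` for all `i`; then `∑ P (E i) ≤ 1 / c`.
  PROOF: the events `E i \ ⋃ j > i, E j` are disjoint, and each has probability `≥ c P (E i)`.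
* `explore`: `D` finite, `L ⊆ D`, `C w = clus ((Co σ p w ∩ D) ∪ L) L` the cluster of `L` (all vertices of
  `L` included).  Let `Q c T` be any property of a set `c` and of a trace `T`, and for every `c` let `H c` be
  an event which depends only on the labels of a finite set minus `D ∩ (c ∪ bd c)`, with
  `P (H c) ≤ q`.  Then
  `P {w | Q (C w) (Co σ p w ∩ (D ∩ (C w ∪ bd (C w)))) ∧ w ∈ H (C w)} ≤ q * P {w | Q ...}`.
  PROOF.  For `c ⊆ D` let `E c = {w | C w = c ∧ Q c (Co σ p w ∩ (D ∩ (c ∪ bd c)))}`.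
  `Ev (D ∩ (c ∪ bd c)) (E c)`: if `w, w'` have the same labels there and `C w = c`, then `C w' = c` by
  `clus_eq` (the vertices of `c` are in `L` or of colour `σ` in `w`, hence in `w'`; the vertices of
  `D` adjacent to `c` and not in `c` have the other colour); measurability from `ev_of_fin`.
  By `indep` `P (E c ∩ H c) ≤ q * P (E c)`; sum over the finitely many `c ⊆ D` (the events `E c` are
  disjoint).
-/

namespace Pool.Agent.TriPerc

open MeasureTheory

/-- `A` is lower in the labels of `s1` and upper in the labels of `s2`, the others being fixed. -/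
def MM (s1 s2 : Set V) (A : Set Lab) : Prop :=
  ∀ w w' : Lab, (∀ v, v ∉ s1 → v ∉ s2 → w v = w' v) → (∀ v ∈ s1, w' v ≤ w v) →
    (∀ v ∈ s2, w v ≤ w' v) → w ∈ A → w' ∈ A

/-- The vertices of colour `σ`: open for `true`, closed for `false`. -/
def Co (σ : Bool) (p : ℝ) (w : Lab) : Set V := if σ then Op p w else Cl p w

variable {s s1 s2 : Set V} {A B B1 B2 : Set Lab}

theorem co_not (σ : Bool) (p : ℝ) (w : Lab) : Co (!σ) p w = (Co σ p w)ᶜ := by
  cases σ
  · simp only [Co, Bool.not_false, if_true, Bool.false_eq_true, if_false]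
    rw [cl_compl, compl_compl]
  · simp only [Co, Bool.not_true, if_true, Bool.false_eq_true, if_false]
    rw [cl_compl]

theorem co_mono (σ : Bool) (p : ℝ) {w w' : Lab} (h : ∀ v, if σ then w' v ≤ w v else w v ≤ w' v) :
    Co σ p w ⊆ Co σ p w' := by
  cases σ
  · intro v hv
    have h1 : p < w v := hv
    have h2 := h v
    simp only [Bool.false_eq_true, if_false] at h2
    exact lt_of_lt_of_le h1 h2
  · intro v hv
    have h1 : w v ≤ p := hv
    have h2 := h v
    simp only [if_true] at h2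
    exact le_trans h2 h1

theorem ev_co (hs : s.Finite) (σ : Bool) (p : ℝ) (Q : Set V → Prop) :
    Ev s {w | Q (Co σ p w ∩ s)} := by
  cases σ
  · exact ev_cl hs p Q
  · exact ev_op hs p Q

theorem MM.inter (hA : MM s1 s2 A) (hB : MM s1 s2 B) : MM s1 s2 (A ∩ B) := by
  intro w w' h h1 h2 hw
  exact ⟨hA w w' h h1 h2 hw.1, hB w w' h h1 h2 hw.2⟩

private theorem mix_in {s : Set V} {v : V} (hv : v ∈ s) (w w' : Lab) : mix s w w' v = w' v := by
  simp [mix, hv]

private theorem mix_out {s : Set V} {v : V} (hv : v ∉ s) (w w' : Lab) : mix s w w' v = w v := by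
  simp [mix, hv]

private theorem mix_prod (s : Set V) {E : Set Lab} (hE : MeasurableSet E) :
    P E = ∫⁻ w, P {w' | mix s w w' ∈ E} ∂P := by
  conv_lhs => rw [← (mp_mix s).map_eq]
  rw [Measure.map_apply (mp_mix s).measurable hE, Measure.prod_apply ((mp_mix s).measurable hE)]
  rfl

theorem mp_flip_on (s : Set V) [DecidablePred (· ∈ s)] :
    MeasurePreserving (fun w : Lab => fun v => if v ∈ s then 1 - w v else w v) P P := by
  have hm : Measurable (fun w : Lab => fun v => if v ∈ s then 1 - w v else w v) := by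
    refine measurable_pi_iff.2 fun v => ?_
    by_cases hv : v ∈ s
    · simp only [hv, if_true]
      exact measurable_const.sub (measurable_pi_apply v)
    · simp only [hv, if_false]
      exact measurable_pi_apply v
  refine ⟨hm, ?_⟩
  have h1 := (MeasurePreserving.id P).prod mp_flip
  have h2 := (mp_mix s).comp h1
  have h3 : (fun z : Lab × Lab => mix s z.1 z.2) ∘
      (Prod.map id fun w : Lab => fun v => 1 - w v) =
      (fun w : Lab => fun v => if v ∈ s then 1 - w v else w v) ∘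
        (fun z : Lab × Lab => mix s z.1 z.2) := by
    funext z v
    change mix s z.1 (fun v => 1 - z.2 v) v =
      if v ∈ s then 1 - mix s z.1 z.2 v else mix s z.1 z.2 v
    by_cases hv : v ∈ s
    · rw [mix_in hv, mix_in hv, if_pos hv]
    · rw [mix_out hv, mix_out hv, if_neg hv]
  rw [h3] at h2
  have h4 := h2.map_eq
  rw [← Measure.map_map hm (mp_mix s).measurable, (mp_mix s).map_eq] at h4
  exact h4

private theorem harris_aux (h1 : s1.Finite) (h2 : s2.Finite) (hd : Disjoint s1 s2)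
    (eA : Ev (s1 ∪ s2) A) (mA : MM s1 s2 A) (eB : Ev (s1 ∪ s2) B) (mB : MM s1 s2 B) :
    P A * P B ≤ P (A ∩ B) := by
  classical
  have hmp := mp_flip_on s2
  have key : ∀ A : Set Lab, Ev (s1 ∪ s2) A → MM s1 s2 A →
      Ev (s1 ∪ s2) ((fun w : Lab => fun v => if v ∈ s2 then 1 - w v else w v) ⁻¹' A) ∧
      IsLowerSet ((fun w : Lab => fun v => if v ∈ s2 then 1 - w v else w v) ⁻¹' A) := by
    intro A eA mA
    refine ⟨⟨hmp.measurable eA.1, ?_⟩, ?_⟩
    · intro w w' h hw
      refine eA.2 _ _ ?_ hw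
      intro v hv
      change (if v ∈ s2 then 1 - w v else w v) = if v ∈ s2 then 1 - w' v else w' v
      rw [h v hv]
    · intro w w' h hw
      have hw' : (fun v => if v ∈ s2 then 1 - w v else w v) ∈ A := hw
      have h3 : (fun v => if v ∈ s1 ∪ s2 then (if v ∈ s2 then 1 - w' v else w' v) else w v) ∈ A := by
        refine mA _ _ ?_ ?_ ?_ hw'
        · intro v hv1 hv2
          have hv : v ∉ s1 ∪ s2 := fun h => h.elim hv1 hv2
          simp only [hv, hv2, if_false]
        · intro v hv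
          have hv2 : v ∉ s2 := Set.disjoint_left.1 hd hv
          have hv3 : v ∈ s1 ∪ s2 := Or.inl hv
          simp only [hv3, hv2, if_true, if_false]
          exact h v
        · intro v hv
          have hv3 : v ∈ s1 ∪ s2 := Or.inr hv
          simp only [hv3, hv, if_true]
          have := h v
          linarith
      refine eA.2 _ _ ?_ h3
      intro v hv
      simp only [hv, if_true]
  obtain ⟨e1, l1⟩ := key A eA mA
  obtain ⟨e2, l2⟩ := key B eB mB
  have h3 := harris_low (h1.union h2) e1 e2 l1 l2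
  rw [← Set.preimage_inter, hmp.measure_preimage eA.1.nullMeasurableSet,
    hmp.measure_preimage eB.1.nullMeasurableSet,
    hmp.measure_preimage (eA.1.inter eB.1).nullMeasurableSet] at h3
  exact h3

theorem harris_gen (hs : s.Finite) (h1 : s1.Finite) (h2 : s2.Finite) (hd : Disjoint s1 s2)
    (eA : Ev s A) (mA : MM s1 s2 A) (eB : Ev (s1 ∪ s2) B) (mB : MM s1 s2 B) :
    P A * P B ≤ P (A ∩ B) := by
  have _ := hs
  rw [mix_prod (s1 ∪ s2) (eA.1.inter eB.1), mix_prod (s1 ∪ s2) eA.1, ← lintegral_mul_const']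
  swap
  · exact measure_ne_top _ _
  refine lintegral_mono fun w => ?_
  have hB : {w' | mix (s1 ∪ s2) w w' ∈ B} = B := by
    ext w'
    constructor
    · exact eB.2 _ _ fun v hv => mix_in hv _ _
    · exact eB.2 _ _ fun v hv => (mix_in hv _ _).symm
  have eA' : Ev (s1 ∪ s2) {w' | mix (s1 ∪ s2) w w' ∈ A} := by
    refine ⟨((mp_mix (s1 ∪ s2)).measurable.comp measurable_prodMk_left) eA.1,
      fun w' w'' h h' => ?_⟩
    refine eA.2 _ _ (fun v hv => ?_) h'
    by_cases hs : v ∈ s1 ∪ s2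
    · rw [mix_in hs, mix_in hs]
      exact h v hs
    · rw [mix_out hs, mix_out hs]
  have mA' : MM s1 s2 {w' | mix (s1 ∪ s2) w w' ∈ A} := by
    intro w' w'' h h1 h2 h'
    refine mA _ _ ?_ ?_ ?_ h'
    · intro v hv1 hv2
      have hv : v ∉ s1 ∪ s2 := fun h => h.elim hv1 hv2
      rw [mix_out hv, mix_out hv]
    · intro v hv
      rw [mix_in (Or.inl hv), mix_in (Or.inl hv)]
      exact h1 v hv
    · intro v hv
      rw [mix_in (Or.inr hv), mix_in (Or.inr hv)]
      exact h2 v hv
  have h3 := harris_aux h1 h2 hd eA' mA' eB mB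
  have h4 : {w' | mix (s1 ∪ s2) w w' ∈ A ∩ B} = {w' | mix (s1 ∪ s2) w w' ∈ A} ∩ B := by
    conv_rhs => rw [← hB]
    rfl
  rw [h4]
  exact h3

theorem harris_two (hs : s.Finite) (h1 : s1.Finite) (h2 : s2.Finite) (hd : Disjoint s1 s2)
    (eA : Ev s A) (mA : MM s1 s2 A) (eB1 : Ev s1 B1) (lB1 : IsLowerSet B1) (eB2 : Ev s2 B2)
    (uB2 : IsUpperSet B2) : P A * P B1 * P B2 ≤ P (A ∩ (B1 ∩ B2)) := by
  classical
  rw [mul_assoc, ← indep eB1 eB2 hd]
  refine harris_gen hs h1 h2 hd eA mA ((eB1.mono Set.subset_union_left).inter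
    (eB2.mono Set.subset_union_right)) ?_
  rintro w w' - h3 h4 ⟨h5, h6⟩
  constructor
  · have h7 : (fun v => if v ∈ s1 then w' v else w v) ∈ B1 := by
      refine lB1 ?_ h5
      intro v
      by_cases hv : v ∈ s1
      · simp only [hv, if_true]
        exact h3 v hv
      · simp only [hv, if_false]
        exact le_refl _
    refine eB1.2 _ _ ?_ h7
    intro v hv
    simp only [hv, if_true]
  · have h7 : (fun v => if v ∈ s2 then w' v else w v) ∈ B2 := by
      refine uB2 ?_ h6
      intro v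
      by_cases hv : v ∈ s2
      · simp only [hv, if_true]
        exact h4 v hv
      · simp only [hv, if_false]
        exact le_refl _
    refine eB2.2 _ _ ?_ h7
    intro v hv
    simp only [hv, if_true]

theorem last_count {n : ℕ} {c : ℝ} (hc : 0 < c) (hc1 : c ≤ 1) (E : ℕ → Set Lab)
    (hE : ∀ i, MeasurableSet (E i))
    (h : ∀ i < n, (P (E i ∩ ⋃ j ∈ Set.Ioo i n, E j)).toReal ≤ (1 - c) * (P (E i)).toReal) :
    ∑ i ∈ Finset.range n, (P (E i)).toReal ≤ 1 / c := by
  have _ := hc1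
  have hU : ∀ i, MeasurableSet (⋃ j ∈ Set.Ioo i n, E j) := fun i =>
    MeasurableSet.biUnion (Set.to_countable _) fun j _ => hE j
  have h1 : ∀ i ∈ Finset.range n,
      c * (P (E i)).toReal ≤ P.real (E i \ ⋃ j ∈ Set.Ioo i n, E j) := by
    intro i hi
    have h2 := h i (Finset.mem_range.1 hi)
    have h3 := measureReal_inter_add_sdiff (μ := P) (s := E i) (hU i)
    change P.real (E i ∩ ⋃ j ∈ Set.Ioo i n, E j) ≤ (1 - c) * P.real (E i) at h2
    change c * P.real (E i) ≤ _
    linarith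
  have h2 : ∑ i ∈ Finset.range n, P.real (E i \ ⋃ j ∈ Set.Ioo i n, E j) ≤ 1 := by
    rw [← measureReal_biUnion_finset]
    · exact measureReal_le_one
    · intro i hi j hj hij
      have key : ∀ i j, j < n → i < j → Disjoint (E i \ ⋃ k ∈ Set.Ioo i n, E k)
          (E j \ ⋃ k ∈ Set.Ioo j n, E k) := by
        intro i j hj hij
        refine Set.disjoint_left.2 fun w hw hw' => hw.2 ?_
        exact Set.mem_biUnion (x := j) ⟨hij, hj⟩ hw'.1
      have hi' : i < n := Finset.mem_range.1 hi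
      have hj' : j < n := Finset.mem_range.1 hj
      rcases lt_or_gt_of_ne hij with h3 | h3
      · exact key i j hj' h3
      · exact (key j i hi' h3).symm
    · exact fun i _ => (hE i).diff (hU i)
  have h3 := Finset.sum_le_sum h1
  rw [← Finset.mul_sum] at h3
  rw [le_div_iff₀ hc, mul_comm]
  exact h3.trans h2

theorem explore {D L F : Set V} (hD : D.Finite) (hL : L ⊆ D) (hF : F.Finite) (σ : Bool) (p : ℝ)
    (Q : Set V → Set V → Prop) (H : Set V → Set Lab) {q : ℝ} (hq0 : 0 ≤ q)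
    (hH : ∀ c, Ev (F \ (D ∩ (c ∪ bd c))) (H c)) (hq : ∀ c, (P (H c)).toReal ≤ q) :
    (P {w | Q (clus ((Co σ p w ∩ D) ∪ L) L)
        (Co σ p w ∩ (D ∩ (clus ((Co σ p w ∩ D) ∪ L) L ∪ bd (clus ((Co σ p w ∩ D) ∪ L) L)))) ∧
        w ∈ H (clus ((Co σ p w ∩ D) ∪ L) L)}).toReal ≤
      q * (P {w | Q (clus ((Co σ p w ∩ D) ∪ L) L)
        (Co σ p w ∩ (D ∩ (clus ((Co σ p w ∩ D) ∪ L) L ∪
          bd (clus ((Co σ p w ∩ D) ∪ L) L))))}).toReal := by
  classical
  have _ := hF
  have _ := hq0
  obtain ⟨C, hC⟩ : ∃ C : Lab → Set V, ∀ w, C w = clus ((Co σ p w ∩ D) ∪ L) L := ⟨_, fun _ => rfl⟩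
  simp only [← hC]
  have hCD : ∀ w, C w ⊆ D := by
    intro w
    rw [hC]
    exact clus_subset.trans (Set.union_subset Set.inter_subset_right hL)
  obtain ⟨E, hE⟩ : ∃ E : Set V → Set Lab, ∀ c, E c =
      {w | C w = c ∧ Q c (Co σ p w ∩ (D ∩ (c ∪ bd c)))} := ⟨_, fun _ => rfl⟩
  have hcolor : ∀ w w' v, w v = w' v → v ∈ Co σ p w → v ∈ Co σ p w' := by
    intro w w' v hv hw
    cases σ
    · have h1 : p < w v := hw
      change p < w' v
      rwa [← hv]
    · have h1 : w v ≤ p := hw
      change w' v ≤ p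
      rwa [← hv]
  have hEv : ∀ c, Ev (D ∩ (c ∪ bd c)) (E c) := by
    intro c
    constructor
    · have h1 := (ev_co hD σ p fun T => clus (T ∪ L) L = c ∧ Q c (T ∩ (D ∩ (c ∪ bd c)))).1
      have h2 : {w | clus (Co σ p w ∩ D ∪ L) L = c ∧
          Q c (Co σ p w ∩ D ∩ (D ∩ (c ∪ bd c)))} = E c := by
        rw [hE]
        ext w
        have h3 : Co σ p w ∩ D ∩ (D ∩ (c ∪ bd c)) = Co σ p w ∩ (D ∩ (c ∪ bd c)) := by
          ext x
          simp only [Set.mem_inter_iff]
          tauto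
        change (clus (Co σ p w ∩ D ∪ L) L = c ∧ Q c (Co σ p w ∩ D ∩ (D ∩ (c ∪ bd c)))) ↔
          (C w = c ∧ Q c (Co σ p w ∩ (D ∩ (c ∪ bd c))))
        rw [h3, hC]
      rw [← h2]
      exact h1
    · intro w w' hww hw
      rw [hE] at hw ⊢
      obtain ⟨h1, h2⟩ := hw
      have h3 : Co σ p w' ∩ (D ∩ (c ∪ bd c)) = Co σ p w ∩ (D ∩ (c ∪ bd c)) := by
        ext x
        constructor
        · rintro ⟨h4, h5⟩
          exact ⟨hcolor w' w x (hww x h5).symm h4, h5⟩
        · rintro ⟨h4, h5⟩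
          exact ⟨hcolor w w' x (hww x h5) h4, h5⟩
      refine ⟨?_, by rw [h3]; exact h2⟩
      rw [hC] at h1 ⊢
      have hcD : c ⊆ D := by
        rw [← h1, ← hC]
        exact hCD w
      refine clus_eq ?_ ?_ ?_
      · intro x hx
        have h4 : x ∈ (Co σ p w ∩ D) ∪ L := by
          rw [← h1] at hx
          exact clus_subset hx
        rcases h4 with h4 | h4
        · exact Or.inl ⟨hcolor w w' x (hww x ⟨h4.2, Or.inl hx⟩) h4.1, h4.2⟩
        · exact Or.inr h4
      · intro x hx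
        rw [← h1] at hx ⊢
        exact clus_conn hx
      · intro x hx hxc
        have hxL : x ∉ L := by
          intro h4
          apply hxc
          rw [← h1]
          exact subset_clus ⟨h4, Or.inr h4⟩
        refine ⟨hxL, fun k hk hkx => ?_⟩
        have hx' : x ∈ Co σ p w' ∩ D := hx.resolve_right hxL
        have h5 : x ∈ D ∩ (c ∪ bd c) := ⟨hx'.2, Or.inr ⟨hxc, k, hk, hkx⟩⟩
        apply hxc
        rw [← h1] at hk ⊢
        exact clus_adj hk (Or.inl ⟨hcolor w' w x (hww x h5).symm hx'.1, hx'.2⟩) hkx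
  have hfin : {c : Set V | c ⊆ D}.Finite := hD.finite_subsets
  have hu1 : {w | Q (C w) (Co σ p w ∩ (D ∩ (C w ∪ bd (C w)))) ∧ w ∈ H (C w)} =
      ⋃ c ∈ hfin.toFinset, (E c ∩ H c) := by
    ext w
    simp only [Set.mem_iUnion, Set.Finite.mem_toFinset, Set.mem_inter_iff, hE]
    constructor
    · rintro ⟨h1, h2⟩
      exact ⟨C w, hCD w, ⟨rfl, h1⟩, h2⟩
    · rintro ⟨c, -, ⟨h1, h2⟩, h3⟩
      subst h1
      exact ⟨h2, h3⟩
  have hu2 : {w | Q (C w) (Co σ p w ∩ (D ∩ (C w ∪ bd (C w))))} =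
      ⋃ c ∈ hfin.toFinset, E c := by
    ext w
    simp only [Set.mem_iUnion, Set.Finite.mem_toFinset, hE]
    constructor
    · intro h1
      exact ⟨C w, hCD w, rfl, h1⟩
    · rintro ⟨c, -, h1, h2⟩
      subst h1
      exact h2
  rw [hu1, hu2]
  change P.real _ ≤ q * P.real _
  rw [measureReal_biUnion_finset (μ := P) (s := hfin.toFinset) (f := E) (fun c _ c' _ hcc => by
    refine Set.disjoint_left.2 fun w hw hw' => hcc ?_
    rw [hE] at hw hw'
    exact hw.1.symm.trans hw'.1) fun c _ => (hEv c).1, Finset.mul_sum]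
  refine (measureReal_biUnion_finset_le _ _).trans (Finset.sum_le_sum fun c _ => ?_)
  have h1 : P (E c ∩ H c) = P (E c) * P (H c) := by
    refine indep (hEv c) (hH c) ?_
    exact Set.disjoint_left.2 fun x hx hx' => hx'.2 hx
  have h2 : P.real (E c ∩ H c) = P.real (E c) * P.real (H c) := by
    rw [measureReal_def, h1, ENNReal.toReal_mul]
    rfl
  rw [h2, mul_comm]
  exact mul_le_mul_of_nonneg_right (hq c) measureReal_nonneg

end Pool.Agent.TriPerc
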