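import Pool.Agent.TriPerc.RswE

/-!
# RSW for every `p`: rhombus crossings imply long crossings

Notation (all real numbers): `hh p w n` = probability of a horizontal `p`-open crossing of
`Rec 0 w 0 n`, `vv p w n` = vertical open crossing, `hcl`, `vcl` the same for `p`-closed paths,
`ph p n` = probability of a left-right open crossing of the rhombus `Par 0 n 0 n`.

* `mono`: `hh`, `hcl` decrease in `w` (`w ≥ 1`) and increase in `n`; `vv`, `vcl` increase in `w` and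
  decrease in `n` (`hc_sub`, `vc_sub`, `hc_wide`, `vc_wide`).
* `dual`: `vv p w n = 1 - hcl p w n`, `vcl p w n = 1 - hh p w n` (`cHC_compl_oVC`, ...).
* `gl_open`: if `s < A` are even, `a ≤ hh p A n`, `a ≤ vv p s n`, `a ≥ 0`, then
  `a ^ (2 k + 1) ≤ hh p (A + k (A - s)) n`: glue (`hc_glue`) the crossing of
  `[0, A + (k-1) (A - s)]` with that of `[k (A-s), k (A-s) + A]` by a vertical crossing of the
  overlap, which is `[k (A - s), k (A - s) + s]`; the positions are even, so translation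
  (`shift_oHC`) applies; `harris_low`.
* `gl_closed`: if `s < A` are even, `1 - a ≤ hcl p A n`, `1 - a ≤ vcl p s n`, then
  `1 - (2 k + 1) a ≤ hcl p (A + k (A - s)) n` (same gluing, union bound).
* `rh_hh`: `ph p n ≤ hh p n n` (as `half_rec`: `hc_of_ph` and the reflection `X ↦ 2 n - X`);
  `rh_vv`: `ph p n ≤ vv p (3 n) n`: by the reflection `swp` the rhombus is crossed from bottom to top
  with the same probability, and the rhombus is contained in `0 ≤ X ≤ 3 n`.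
* `rh_cl`: `hcl p (4 n) n + ph p n ≤ 1` for `n ≥ 3`: in the rotated frame a horizontal closed crossing
  of `Rec (-n-1) (2 n + 1) 0 n` by a path in `{u | rot u ∈ C}` gives a closed path in
  `-n ≤ v.1 ≤ 0` (`v = rot u`, `v.1 = - u.2`, `2 v.2 = X u + u.2`) from `v.2 ≤ 0` to `v.2 ≥ n`; cut it
  to `0 ≤ v.2 ≤ n`: a bottom-top closed crossing of a rhombus, which excludes the open left-right
  crossing (`par_not`).  Its probability is at least `hcl p (4 n) n` (`frame`, `cHC_lb`: width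
  `3 n + 2`, and `3 n + 3 ≤ 4 n`).

Now fix `τ > 0`, `a = τ / 2000`.
* `stepW`: let `n ≥ 800`, `τ ≤ ph p n`, and suppose `hh p (4 n) n < a`.  Let `g` be the largest
  `w ∈ [n, 4 n]` with `a ≤ hh p w n` (it exists by `rh_hh`, `g < 4 n`).  Then `a ≤ vv p s n` for every
  `s` with `101 g ≤ 100 s`.  PROOF.  Otherwise let `w0` be the least `w` with `a ≤ vv p w n`;
  `w0 ≤ 3 n` (`rh_vv`), and `100 w0 > 101 g` by monotonicity.  For `g < w < w0`: `hh p w n < a`,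
  `vv p w n < a`, so `vcl p w n > 1 - a`, `hcl p w n > 1 - a`.  Let `s` be the even one of
  `g + 1, g + 2` and `A` the even one of `w0 - 1, w0 - 2`: `vcl p s n ≥ 1 - a`, `hcl p A n ≥ 1 - a`,
  `A - s ≥ g / 100 - 4 ≥ n / 200`.  `gl_closed` with `k = 800` gives
  `hcl p (4 n) n ≥ 1 - 1601 a > 1 - τ`, contradiction to `rh_cl`.
* `fav`: if `a' ≤ hh p A n`, `a' ≤ vv p s n`, `s < A` even, `n ≤ 50 (A - s)`, `0 ≤ a'`, then
  `a' ^ (100 K + 1) ≤ hh p (K n) n` (`gl_open` with `k = 50 K`).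
* `long`: for `n ≥ 3000` with `τ ≤ ph p m'` for all `n ≤ m' ≤ 4 n` there is `n' ∈ {n, 2 n, 4 n}` with
  `c ≤ hh p (K n') n'`, where `c > 0` depends only on `τ`, `K`.
  PROOF.  If `hh p (4 n') n' ≥ a` for some `n' ∈ {n, 2 n, 4 n}`: `fav` with `A = 4 n'`, `s` the even
  one of `3 n', 3 n' + 1` (`rh_vv`).  Otherwise let `g1, g2, g4` be the numbers of `stepW` for
  `n, 2 n, 4 n`.  If `100 g_i ≥ 315 n_i` for one of them: `fav` with `A` the even one of
  `g_i, g_i - 1` and `s` the even one of `3 n_i, 3 n_i + 1`.  Otherwise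
  `g4 ≥ 4 n > (4 / 3.15) g1 > 1.21 g1`, so `g2 ≥ 1.1 g1` or `g4 ≥ 1.1 g2`.  Say `g' ≥ 1.1 g` for the
  heights `2 k` and `k`.  Apply `br2` with `n = k`, `2 m` = least even number with
  `101 g ≤ 100 (2 m)`, `r` the even one of `g', g' - 1`: `hh p (2 r - 2 m) (2 k) ≥ a1`, where
  `a1 = ((1 - sqrt (1 - a)) ^ 2) ^ 2 > 0` (`Rec (2 m - r) r` is an even translate of
  `Rec 0 (2 r - 2 m)`).  And `vv p s (2 k) ≥ a` for `s` = least even number with
  `101 g' ≤ 100 s`.  `A - s` with `A = 2 r - 2 m` is at least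
  `2 (g' - 1) - 1.01 g - 2 - 1.01 g' - 2 ≥ 0.99 g' - 1.01 g - 6 ≥ 0.07 g - 6 ≥ 0.05 k`; use `fav` at
  height `2 k` (`2 k ≤ 50 (A - s)`).
* `rsw_all`: the theorem.  Given `n ≥ 24000 + 8`, apply `long` with `n0 = n / 8` (integer division) and
  `16 K + 16` in place of `K`: `n' ≤ 4 n0 ≤ n`, and `(16 K + 16) n' ≥ K n + 1`; then height `n' ≤ n`, so
  `hh p (K n + 1) n ≥ c`, and `oHC_lb` gives all positions.  For smaller `n`: `τ ≤ ph p 1 ≤ 4 p`
  (a crossing contains an open vertex of `Par 0 1 0 1`), so every vertex is open with probability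
  `≥ τ / 4` and all the (at most `C K`) vertices of the rectangle are open with probability
  `≥ (τ / 4) ^ (C K)`; if they are all open the rectangle is crossed.
* `rsw_all_cl`: the same for closed crossings (exchange the colours: `mp_flip` maps `Cl p` to `Op (1-p)`
  almost surely; or prove everything for both).
-/

namespace Pool.Agent.TriPerc

open MeasureTheory Set

noncomputable def hh (p : ℝ) (w n : ℤ) : ℝ := (P (oHC p 0 w 0 n)).toReal
noncomputable def vv (p : ℝ) (w n : ℤ) : ℝ := (P (oVC p 0 w 0 n)).toReal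
noncomputable def hcl (p : ℝ) (w n : ℤ) : ℝ := (P (cHC p 0 w 0 n)).toReal
noncomputable def vcl (p : ℝ) (w n : ℤ) : ℝ := (P (cVC p 0 w 0 n)).toReal
noncomputable def ph (p : ℝ) (n : ℤ) : ℝ := (P (oPH p 0 n 0 n)).toReal

variable {p a : ℝ} {n w w' s A : ℤ}

private theorem tm {A B : Set Lab} (h : P A ≤ P B) : (P A).toReal ≤ (P B).toReal :=
  ENNReal.toReal_mono (measure_ne_top P B) h

private theorem pm {A B : Set Lab} (h : A ⊆ B) : (P A).toReal ≤ (P B).toReal :=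
  tm (measure_mono h)

private theorem p0 (A : Set Lab) : 0 ≤ (P A).toReal := ENNReal.toReal_nonneg

private theorem p1 (A : Set Lab) : (P A).toReal ≤ 1 := by
  have h := tm (A := A) (B := Set.univ) (measure_mono (Set.subset_univ _))
  rwa [measure_univ, ENNReal.toReal_one] at h

private theorem pc {A : Set Lab} (hA : MeasurableSet A) : (P Aᶜ).toReal = 1 - (P A).toReal := by
  rw [prob_compl_eq_one_sub hA, ENNReal.toReal_sub_of_le prob_le_one ENNReal.one_ne_top,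
    ENNReal.toReal_one]

private theorem pu {A B : Set Lab} (hB : MeasurableSet B) :
    (P A).toReal + (P B).toReal - 1 ≤ (P (A ∩ B)).toReal := by
  have h1 : (P (A ∪ B)).toReal + (P (A ∩ B)).toReal = (P A).toReal + (P B).toReal := by
    rw [← ENNReal.toReal_add (measure_ne_top _ _) (measure_ne_top _ _),
      ← ENNReal.toReal_add (measure_ne_top _ _) (measure_ne_top _ _),
      measure_union_add_inter A hB]
  have h2 := p1 (A ∪ B)
  linarith

private theorem hl {s : Set V} (hs : s.Finite) {A B : Set Lab} (hA : Ev s A) (hB : Ev s B)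
    (lA : IsLowerSet A) (lB : IsLowerSet B) {x y : ℝ} (hy : 0 ≤ y)
    (h1 : x ≤ (P A).toReal) (h2 : y ≤ (P B).toReal) : x * y ≤ (P (A ∩ B)).toReal := by
  have h4 : (P A * P B).toReal ≤ (P (A ∩ B)).toReal :=
    ENNReal.toReal_mono (measure_ne_top P _) (harris_low hs hA hB lA lB)
  rw [ENNReal.toReal_mul] at h4
  exact (mul_le_mul h1 h2 hy ENNReal.toReal_nonneg).trans h4

private theorem recs {l r b t l' r' : ℤ} (h1 : l ≤ l') (h2 : r' ≤ r) :
    Rec l' r' b t ⊆ Rec l r b t :=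
  fun _ hv => ⟨h1.trans hv.1, hv.2.1.trans h2, hv.2.2⟩

private theorem jc {g : V ≃ V} (hg : IsAut g) {D D' A A' B B' : Set V}
    (hD : g ⁻¹' D' = D) (hA : g ⁻¹' A' = A) (hB : g ⁻¹' B' = B) (S : Set V) :
    Join (g ⁻¹' S ∩ D) A B ↔ Join (S ∩ D') A' B' := by
  rw [← hD, ← hA, ← hB, ← Set.preimage_inter]
  exact join_preimage hg

private theorem pjo {g : V ≃ V} (hg : IsAut g) {D D' A A' B B' : Set V} (hDf : D.Finite)
    (hD : g ⁻¹' D' = D) (hA : g ⁻¹' A' = A) (hB : g ⁻¹' B' = B) :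
    P {w | Join (Op p w ∩ D') A' B'} = P {w | Join (Op p w ∩ D) A B} := by
  rw [← (mp_comp g).measure_preimage
    (ev_join (p := p) (A := A) (B := B) hDf).1.1.nullMeasurableSet]
  congr 1
  ext w
  exact (jc hg hD hA hB (Op p w)).symm

private theorem pjc {g : V ≃ V} (hg : IsAut g) {D D' A A' B B' : Set V} (hDf : D.Finite)
    (hD : g ⁻¹' D' = D) (hA : g ⁻¹' A' = A) (hB : g ⁻¹' B' = B) :
    P {w | Join (Cl p w ∩ D') A' B'} = P {w | Join (Cl p w ∩ D) A B} := by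
  rw [← (mp_comp g).measure_preimage
    (ev_join_cl (p := p) (A := A) (B := B) hDf).1.1.nullMeasurableSet]
  congr 1
  ext w
  exact (jc hg hD hA hB (Cl p w)).symm

private theorem X_tr (z v : V) : X (tr z v) = X v + X z ∧ (tr z v).1 = v.1 + z.1 ∧
    (tr z v).2 = v.2 + z.2 := by
  refine ⟨?_, rfl, rfl⟩
  show 2 * (v.1 + z.1) + (v.2 + z.2) = 2 * v.1 + v.2 + (2 * z.1 + z.2)
  ring

private theorem sh_o {d : ℤ} (hd : Even d) (w n : ℤ) :
    (P (oHC p d (d + w) 0 n)).toReal = hh p w n := by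
  obtain ⟨e, rfl⟩ := hd
  have h := shift_oHC (p := p) (l := 0) (r := w) (b := 0) (t := n) (e, 0)
  have hX : X (e, 0) = e + e := by
    show 2 * e + 0 = e + e
    ring
  rw [hX] at h
  simp only [zero_add, add_zero] at h
  rw [add_comm (e + e) w, h]
  rfl

private theorem sh_c {d : ℤ} (hd : Even d) (w n : ℤ) :
    (P (cHC p d (d + w) 0 n)).toReal = hcl p w n := by
  obtain ⟨e, rfl⟩ := hd
  have h := shift_cHC (p := p) (l := 0) (r := w) (b := 0) (t := n) (e, 0)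
  have hX : X (e, 0) = e + e := by
    show 2 * e + 0 = e + e
    ring
  rw [hX] at h
  simp only [zero_add, add_zero] at h
  rw [add_comm (e + e) w, h]
  rfl

private theorem tr_rec' (e w n : ℤ) :
    tr (e, 0) ⁻¹' Rec (e + e) (e + e + w) 0 n = Rec 0 w 0 n := by
  ext v
  have h := X_tr (e, 0) v
  have hX : X (e, 0) = e + e := by
    show 2 * e + 0 = e + e
    ring
  have h2 : (tr (e, 0) v).2 = v.2 + 0 := h.2.2
  rw [hX] at h
  show (e + e ≤ X (tr (e, 0) v) ∧ X (tr (e, 0) v) ≤ e + e + w ∧ 0 ≤ (tr (e, 0) v).2 ∧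
    (tr (e, 0) v).2 ≤ n) ↔ (0 ≤ X v ∧ X v ≤ w ∧ 0 ≤ v.2 ∧ v.2 ≤ n)
  rw [h.1, h2]
  omega

private theorem sh_ov {d : ℤ} (hd : Even d) (w n : ℤ) :
    (P (oVC p d (d + w) 0 n)).toReal = vv p w n := by
  obtain ⟨e, rfl⟩ := hd
  have h := pjo (p := p) (isAut_tr (e, 0)) (finite_rec 0 w 0 n) (tr_rec' e w n)
    (A' := {v | v.2 ≤ 0}) (A := {v | v.2 ≤ 0}) (B' := {v | n ≤ v.2}) (B := {v | n ≤ v.2})
    (by ext v; show v.2 + 0 ≤ 0 ↔ v.2 ≤ 0; rw [add_zero])
    (by ext v; show n ≤ v.2 + 0 ↔ n ≤ v.2; rw [add_zero])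
  exact congrArg ENNReal.toReal h

private theorem sh_cv {d : ℤ} (hd : Even d) (w n : ℤ) :
    (P (cVC p d (d + w) 0 n)).toReal = vcl p w n := by
  obtain ⟨e, rfl⟩ := hd
  have h := pjc (p := p) (isAut_tr (e, 0)) (finite_rec 0 w 0 n) (tr_rec' e w n)
    (A' := {v | v.2 ≤ 0}) (A := {v | v.2 ≤ 0}) (B' := {v | n ≤ v.2}) (B := {v | n ≤ v.2})
    (by ext v; show v.2 + 0 ≤ 0 ↔ v.2 ≤ 0; rw [add_zero])
    (by ext v; show n ≤ v.2 + 0 ↔ n ≤ v.2; rw [add_zero])
  exact congrArg ENNReal.toReal h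

theorem hh_anti (h1 : 1 ≤ w) (h : w ≤ w') : hh p w' n ≤ hh p w n :=
  pm fun _ hx => hc_sub le_rfl h (by omega) hx

theorem hh_mono {n' : ℤ} (h : n ≤ n') : hh p w n ≤ hh p w n' :=
  pm fun _ hx => hc_wide le_rfl h hx

theorem vv_mono (h : w ≤ w') : vv p w n ≤ vv p w' n :=
  pm fun _ hx => vc_wide le_rfl h hx

private theorem hcl_anti (h1 : 1 ≤ w) (h : w ≤ w') : hcl p w' n ≤ hcl p w n :=
  pm fun _ hx => hc_sub le_rfl h (by omega) hx

theorem vv_dual (hw : 1 ≤ w) (hn : 0 ≤ n) : vv p w n = 1 - hcl p w n := by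
  have h := pc (A := oVC p 0 w 0 n) ev_oVC.1
  rw [cHC_compl_oVC (by omega) hn] at h
  unfold vv hcl
  linarith

theorem vcl_dual (hw : 1 ≤ w) (hn : 0 ≤ n) : vcl p w n = 1 - hh p w n := by
  have h := pc (A := oHC p 0 w 0 n) ev_oHC.1
  rw [cVC_compl_oHC (by omega) hn] at h
  exact h

theorem gl_open (hn : 0 ≤ n) (hs : Even s) (hA : Even A) (h1 : 1 ≤ s) (hsA : s < A)
    (ha : 0 ≤ a) (h : a ≤ hh p A n) (h' : a ≤ vv p s n) (k : ℕ) :
    a ^ (2 * k + 1) ≤ hh p (A + k * (A - s)) n := by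
  induction k with
  | zero => simpa using h
  | succ k ih =>
    obtain ⟨D, hD⟩ : ∃ D : ℤ, D = A - s := ⟨_, rfl⟩
    have hDe : Even D := by
      rw [hD]
      exact hA.sub hs
    have hD1 : 1 ≤ D := by omega
    rw [← hD] at ih ⊢
    have hk : (0 : ℤ) ≤ k * D := by positivity
    obtain ⟨d, hd⟩ : ∃ d : ℤ, d = (k + 1 : ℕ) * D := ⟨_, rfl⟩
    have hd' : d = k * D + D := by
      rw [hd]
      push_cast
      ring
    have hde : Even d := by
      rw [hd]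
      exact hDe.mul_left _
    have e0 : A + (k + 1 : ℕ) * D = d + A := by rw [← hd]; ring
    have e1 : A + (k : ℤ) * D = d + s := by rw [hd', hD]; ring
    rw [e1] at ih
    rw [e0]
    have g1 : a ≤ (P (oHC p d (d + A) 0 n)).toReal := by rw [sh_o hde]; exact h
    have g2 : a ≤ (P (oVC p d (d + s) 0 n)).toReal := by rw [sh_ov hde]; exact h'
    have hd0 : 0 ≤ d := by omega
    have hfin := finite_rec 0 (d + A) 0 n
    have i1 := ((ev_oHC (p := p) (l := 0) (r := d + s) (b := 0) (t := n)).mono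
      (recs (b := 0) (t := n) le_rfl (show d + s ≤ d + A by omega)))
    have i2 := ((ev_oHC (p := p) (l := d) (r := d + A) (b := 0) (t := n)).mono
      (recs (b := 0) (t := n) hd0 (le_refl (d + A))))
    have i3 := ((ev_oVC (p := p) (l := d) (r := d + s) (b := 0) (t := n)).mono
      (recs (b := 0) (t := n) hd0 (show d + s ≤ d + A by omega)))
    have j1 := hl hfin i1 i2 low_oHC low_oHC ha ih g1
    have j2 := hl hfin (i1.inter i2) i3 (low_oHC.inter low_oHC) low_oVC ha j1 g2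
    have hpow : a ^ (2 * (k + 1) + 1) = a ^ (2 * k + 1) * a * a := by ring
    rw [hpow]
    refine j2.trans (pm ?_)
    rintro x ⟨⟨x1, x2⟩, x3⟩
    exact hc_glue hd0 (by omega) (by omega) hn x1 x2 x3

theorem gl_closed (hn : 0 ≤ n) (hs : Even s) (hA : Even A) (h1 : 1 ≤ s) (hsA : s < A)
    (h : 1 - a ≤ hcl p A n) (h' : 1 - a ≤ vcl p s n) (k : ℕ) :
    1 - (2 * k + 1) * a ≤ hcl p (A + k * (A - s)) n := by
  induction k with
  | zero => simpa using h
  | succ k ih =>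
    obtain ⟨D, hD⟩ : ∃ D : ℤ, D = A - s := ⟨_, rfl⟩
    have hDe : Even D := by
      rw [hD]
      exact hA.sub hs
    have hD1 : 1 ≤ D := by omega
    rw [← hD] at ih ⊢
    have hk : (0 : ℤ) ≤ k * D := by positivity
    obtain ⟨d, hd⟩ : ∃ d : ℤ, d = (k + 1 : ℕ) * D := ⟨_, rfl⟩
    have hd' : d = k * D + D := by
      rw [hd]
      push_cast
      ring
    have hde : Even d := by
      rw [hd]
      exact hDe.mul_left _
    have e0 : A + (k + 1 : ℕ) * D = d + A := by rw [← hd]; ring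
    have e1 : A + (k : ℤ) * D = d + s := by rw [hd', hD]; ring
    rw [e1] at ih
    rw [e0]
    have g1 : 1 - a ≤ (P (cHC p d (d + A) 0 n)).toReal := by rw [sh_c hde]; exact h
    have g2 : 1 - a ≤ (P (cVC p d (d + s) 0 n)).toReal := by rw [sh_cv hde]; exact h'
    have hd0 : 0 ≤ d := by omega
    have j1 := pu (A := cHC p 0 (d + s) 0 n) (B := cHC p d (d + A) 0 n) ev_cHC.1
    have j2 := pu (A := cHC p 0 (d + s) 0 n ∩ cHC p d (d + A) 0 n) (B := cVC p d (d + s) 0 n)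
      ev_cVC.1
    have j3 : (P (cHC p 0 (d + s) 0 n ∩ cHC p d (d + A) 0 n ∩ cVC p d (d + s) 0 n)).toReal ≤
        hcl p (d + A) n := by
      refine pm ?_
      rintro x ⟨⟨x1, x2⟩, x3⟩
      exact hc_glue hd0 (by omega) (by omega) hn x1 x2 x3
    have j4 : 1 - (2 * (k : ℝ) + 1) * a ≤ (P (cHC p 0 (d + s) 0 n)).toReal := ih
    push_cast
    linarith

theorem rh_hh (hn : 1 ≤ n) : ph p n ≤ hh p n n := by
  have h1 := refl_oHC (p := p) (l := n) (r := 2 * n) (b := 0) (t := n) n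
  rw [sub_self, show 2 * n - n = n by ring] at h1
  have h2 : ph p n ≤ (P (oHC p n (2 * n) 0 n)).toReal := pm fun x hx => hc_of_ph hn hx
  rw [← h1] at h2
  exact h2

theorem rh_vv (hn : 1 ≤ n) : ph p n ≤ vv p (3 * n) n := by
  have h := pjo (p := p) isAut_swp (finite_par 0 n 0 n) (D' := Par 0 n 0 n)
    (A' := {v | v.1 ≤ 0}) (A := {v | v.2 ≤ 0}) (B' := {v | n ≤ v.1}) (B := {v | n ≤ v.2})
    (by
      ext v
      show (0 ≤ v.2 ∧ v.2 ≤ n ∧ 0 ≤ v.1 ∧ v.1 ≤ n) ↔ (0 ≤ v.1 ∧ v.1 ≤ n ∧ 0 ≤ v.2 ∧ v.2 ≤ n)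
      tauto) rfl rfl
  have h2 : ph p n = (P {w | Join (Op p w ∩ Par 0 n 0 n) {v | v.2 ≤ 0} {v | n ≤ v.2}}).toReal :=
    congrArg ENNReal.toReal h
  rw [h2]
  refine pm fun x hx => Join.mono hx ?_ subset_rfl subset_rfl
  rintro v ⟨hv, v1, v2, v3, v4⟩
  refine ⟨hv, ?_, ?_, v3, v4⟩
  · unfold X
    omega
  · unfold X
    omega

/-- cutting a path in a vertical strip of a parallelogram -/
private theorem pv_of_conn {S : Set V} {l r b t : ℤ} {u v : V}
    (h : Conn (S ∩ {z | l ≤ z.1 ∧ z.1 ≤ r}) u v) (hu : u.2 ≤ b)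
    (hv : t ≤ v.2) (hbt : b ≤ t) : PV S l r b t := by
  have adj2 : ∀ {x y : V}, Adj x y → |y.2 - x.2| ≤ 1 := fun h => h.abs.2.1
  have one : ∀ z, z ∈ S ∩ {z : V | l ≤ z.1 ∧ z.1 ≤ r} → z.2 ≤ b → t ≤ z.2 →
      PV S l r b t := by
    intro z hz h1 h2
    exact ⟨z, h1, z, h2, Conn.refl ⟨hz.1, hz.2.1, hz.2.2, by omega, by omega⟩⟩
  by_cases hvl : v.2 ≤ b
  · exact one v h.right hvl hv
  obtain ⟨x, y, hx, hy, hxy, h1, h2⟩ := h.last (A := {z | z.2 ≤ b}) hu hvl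
  replace hx : x.2 ≤ b := hx
  replace hy : ¬ y.2 ≤ b := hy
  have e1 := abs_le.1 (adj2 hxy)
  by_cases hxr : t ≤ x.2
  · exact one x h1.right hx hxr
  have hc : Conn ((S ∩ {z : V | l ≤ z.1 ∧ z.1 ≤ r}) ∩ {z | b ≤ z.2}) x v := by
    have hxS : x ∈ (S ∩ {z : V | l ≤ z.1 ∧ z.1 ≤ r}) ∩ {z | b ≤ z.2} :=
      ⟨h1.right, by show b ≤ x.2; omega⟩
    have hyS : y ∈ (S ∩ {z : V | l ≤ z.1 ∧ z.1 ≤ r}) ∩ {z | b ≤ z.2} :=
      ⟨h2.left.1, by show b ≤ y.2; omega⟩
    refine (Conn.of_adj hxS hyS hxy).trans (h2.mono ?_)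
    rintro z ⟨hz, hz'⟩
    replace hz' : ¬ z.2 ≤ b := hz'
    exact ⟨hz, by show b ≤ z.2; omega⟩
  obtain ⟨x₁, y₁, hx₁, hy₁, hxy₁, h3, h4⟩ := hc.exit (A := {z | z.2 ≤ t - 1})
    (by show x.2 ≤ t - 1; omega) (by show ¬ v.2 ≤ t - 1; omega)
  replace hx₁ : x₁.2 ≤ t - 1 := hx₁
  replace hy₁ : ¬ y₁.2 ≤ t - 1 := hy₁
  have e2 := abs_le.1 (adj2 hxy₁)
  obtain ⟨⟨k1, k2, k3⟩, k4⟩ := h4.left
  replace k4 : b ≤ y₁.2 := k4
  obtain ⟨⟨⟨j1, j2, j3⟩, j4⟩, -⟩ := h3.right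
  replace j4 : b ≤ x₁.2 := j4
  refine ⟨x, hx, y₁, by show t ≤ y₁.2; omega, Conn.trans (h3.mono ?_)
    (Conn.of_adj ⟨j1, j2, j3, j4, by omega⟩ ⟨k1, k2, k3, k4, by omega⟩ hxy₁)⟩
  rintro z ⟨⟨⟨z1, z2, z3⟩, z4⟩, z5⟩
  replace z4 : b ≤ z.2 := z4
  replace z5 : z.2 ≤ t - 1 := z5
  exact ⟨z1, z2, z3, z4, by omega⟩

private theorem sh_ph (d n : ℤ) : (P (oPH p d (d + n) 0 n)).toReal = ph p n := by
  have h := pjo (p := p) (isAut_tr (d, 0)) (finite_par 0 n 0 n) (D' := Par d (d + n) 0 n)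
    (A' := {v | v.1 ≤ d}) (A := {v | v.1 ≤ 0}) (B' := {v | d + n ≤ v.1}) (B := {v | n ≤ v.1})
    (by
      ext v
      show (d ≤ v.1 + d ∧ v.1 + d ≤ d + n ∧ 0 ≤ v.2 + 0 ∧ v.2 + 0 ≤ n) ↔
        (0 ≤ v.1 ∧ v.1 ≤ n ∧ 0 ≤ v.2 ∧ v.2 ≤ n)
      omega)
    (by
      ext v
      show v.1 + d ≤ d ↔ v.1 ≤ 0
      omega)
    (by
      ext v
      show d + n ≤ v.1 + d ↔ n ≤ v.1
      omega)
  exact congrArg ENNReal.toReal h

theorem rh_cl (hn : 3 ≤ n) : hcl p (4 * n) n + ph p n ≤ 1 := by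
  set E1 : Set Lab := {w | HC {v | rot v ∈ Cl p w} (-n - 1) (2 * n + 1) 0 n} with hE1
  have hP1 : P E1 = P (cHC p (-n - 1) (2 * n + 1) 0 n) := by
    refine Eq.trans ?_ ((mp_comp rot).measure_preimage
      (ev_cHC (p := p) (l := -n - 1) (r := 2 * n + 1) (b := 0) (t := n)).1.nullMeasurableSet)
    rfl
  have h1 : hcl p (4 * n) n ≤ (P E1).toReal := by
    rw [hP1]
    have h2 : hcl p (4 * n) n ≤ hcl p (3 * n + 2 + 1) n := hcl_anti (by omega) (by omega)
    have h3 := tm (cHC_lb (p := p) (m := 3 * n + 2) (n := n) (by omega) (-n - 1) 0)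
    rw [show -n - 1 + (3 * n + 2) = 2 * n + 1 by ring, zero_add] at h3
    exact h2.trans h3
  have h2 : Disjoint E1 (oPH p (-n) 0 0 n) := by
    rw [Set.disjoint_left]
    intro w hw hw'
    refine par_not (Op p w) (l := -n) (r := 0) (b := 0) (t := n) (by omega) (by omega) ⟨hw', ?_⟩
    obtain ⟨u, hu, v, hv, huv⟩ := hw
    have hu' : X u ≤ -n - 1 + 1 := hu
    have hv' : 2 * n + 1 - 1 ≤ X v := hv
    have hc := (conn_image isAut_rot).2 huv
    obtain ⟨-, -, -, hu3, hu4⟩ := huv.left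
    obtain ⟨-, -, -, hv3, hv4⟩ := huv.right
    have f1 : ∀ x : V, (rot x).1 = -x.2 := fun x => rfl
    have f2 : ∀ x : V, 2 * (rot x).2 = X x + x.2 := fun x => by
      show 2 * (x.1 + x.2) = 2 * x.1 + x.2 + x.2
      ring
    have g1 := f2 u
    have g2 := f2 v
    refine pv_of_conn (hc.mono ?_) (u := rot u) (v := rot v) (by omega) (by omega) (by omega)
    rintro _ ⟨x, ⟨hx1, hx2, hx3, hx4, hx5⟩, rfl⟩
    refine ⟨?_, ?_, ?_⟩
    · rw [← cl_compl]
      exact hx1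
    · show -n ≤ (rot x).1
      rw [f1]
      omega
    · show (rot x).1 ≤ 0
      rw [f1]
      omega
  have h3 : ph p n = (P (oPH p (-n) 0 0 n)).toReal := by
    rw [← sh_ph (-n) n, neg_add_cancel]
  have h4 : (P E1).toReal + (P (oPH p (-n) 0 0 n)).toReal ≤ 1 := by
    rw [← ENNReal.toReal_add (measure_ne_top _ _) (measure_ne_top _ _),
      ← measure_union h2 ev_oPH.1]
    exact p1 _
  linarith

/-- the even one of `x`, `x - 1` -/
private theorem evd (x : ℤ) : ∃ y : ℤ, Even y ∧ x - 1 ≤ y ∧ y ≤ x := by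
  rcases Int.even_or_odd x with h | h
  · exact ⟨x, h, by omega, le_rfl⟩
  · exact ⟨x - 1, h.sub_odd odd_one, le_rfl, by omega⟩

/-- the even one of `x`, `x + 1` -/
private theorem evu (x : ℤ) : ∃ y : ℤ, Even y ∧ x ≤ y ∧ y ≤ x + 1 := by
  rcases Int.even_or_odd x with h | h
  · exact ⟨x, h, le_rfl, by omega⟩
  · exact ⟨x + 1, h.add_odd odd_one, by omega, le_rfl⟩

theorem stepW {t : ℝ} (ht : 0 < t) (hn : 800 ≤ n) (h : t ≤ ph p n)
    (h4 : hh p (4 * n) n < t / 2000) :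
    ∃ g : ℤ, n ≤ g ∧ g < 4 * n ∧ t / 2000 ≤ hh p g n ∧
      ∀ s : ℤ, 101 * g ≤ 100 * s → t / 2000 ≤ vv p s n := by
  have ha : t / 2000 ≤ t := by linarith
  obtain ⟨g, ⟨g1, g2, g3⟩, gm⟩ : ∃ g : ℤ, (n ≤ g ∧ g ≤ 4 * n ∧ t / 2000 ≤ hh p g n) ∧
      ∀ z : ℤ, (n ≤ z ∧ z ≤ 4 * n ∧ t / 2000 ≤ hh p z n) → z ≤ g :=
    Int.exists_greatest_of_bdd ⟨4 * n, fun z hz => hz.2.1⟩
      ⟨n, le_rfl, by omega, ha.trans (h.trans (rh_hh (by omega)))⟩
  have g4 : g < 4 * n := by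
    refine lt_of_le_of_ne g2 fun hc => ?_
    rw [hc] at g3
    linarith
  refine ⟨g, g1, g4, g3, fun s0 hs0 => ?_⟩
  by_contra hv
  rw [not_le] at hv
  have h3 : s0 < 3 * n := by
    by_contra hc
    have h5 : vv p (3 * n) n ≤ vv p s0 n := vv_mono (by omega)
    have h6 := rh_vv (p := p) (n := n) (by omega)
    linarith
  obtain ⟨A, hA, hA1, hA2⟩ := evd s0
  obtain ⟨s, hs, hs1, hs2⟩ := evu (g + 1)
  have hlt : hh p s n < t / 2000 := by
    have h5 : hh p s n ≤ hh p (g + 1) n := hh_anti (by omega) hs1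
    by_contra hc
    have := gm (g + 1) ⟨by omega, by omega, by linarith⟩
    omega
  have k1 : 1 - t / 2000 ≤ vcl p s n := by
    rw [vcl_dual (by omega) (by omega)]
    linarith
  have k2 : 1 - t / 2000 ≤ hcl p A n := by
    have h5 := vv_dual (p := p) (w := A) (n := n) (by omega) (by omega)
    have h6 : vv p A n ≤ vv p s0 n := vv_mono hA2
    linarith
  have k3 := gl_closed (p := p) (n := n) (by omega) hs hA (by omega) (by omega) k2 k1 800
  have k4 : hcl p (A + (800 : ℕ) * (A - s)) n ≤ hcl p (4 * n) n := by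
    refine hcl_anti (by omega) ?_
    push_cast
    omega
  have k5 := rh_cl (p := p) (n := n) (by omega)
  push_cast at k3 k4
  linarith

theorem fav (hn : 1 ≤ n) (hs : Even s) (hA : Even A) (h1 : 1 ≤ s) (hsA : s < A)
    (ha : 0 ≤ a) (h : a ≤ hh p A n) (h' : a ≤ vv p s n) (hk : n ≤ 50 * (A - s)) (K : ℕ)
    (hK : 1 ≤ K) : a ^ (100 * K + 1) ≤ hh p (K * n) n := by
  have h2 := gl_open (p := p) (n := n) (by omega) hs hA h1 hsA ha h h' (50 * K)
  rw [show 2 * (50 * K) + 1 = 100 * K + 1 by ring] at h2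
  refine h2.trans (hh_anti ?_ ?_)
  · have : (1 : ℤ) ≤ K := by exact_mod_cast hK
    nlinarith
  · have h3 : (K : ℤ) * n ≤ K * (50 * (A - s)) :=
      mul_le_mul_of_nonneg_left hk (by positivity)
    push_cast
    have h4 : (K : ℤ) * (50 * (A - s)) = 50 * K * (A - s) := by ring
    omega

/-- the case of a wide crossing -/
private theorem wide {t b : ℝ} (hb0 : 0 ≤ b) (hbt : b ≤ t) (hn : 3000 ≤ n) (h : t ≤ ph p n)
    (hg : 315 * n ≤ 100 * w) (hw : b ≤ hh p w n) (K : ℕ) (hK : 1 ≤ K) :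
    b ^ (100 * K + 1) ≤ hh p (K * n) n := by
  obtain ⟨A, hA, hA1, hA2⟩ := evd w
  obtain ⟨s, hs, hs1, hs2⟩ := evu (3 * n)
  have h1 : b ≤ hh p A n := hw.trans (hh_anti (by omega) hA2)
  have h2 : b ≤ vv p s n := hbt.trans (h.trans ((rh_vv (by omega)).trans (vv_mono hs1)))
  exact fav (by omega) hs hA (by omega) (by omega) hb0 h1 h2 (by omega) K hK

/-- the main step: the width grows from height `k` to height `2 k` -/
private theorem grow {k g g' : ℤ} {b : ℝ} (hb0 : 0 ≤ b) (hba : b ≤ a)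
    (hb1 : b ≤ ((1 - Real.sqrt (1 - a)) * (1 - Real.sqrt (1 - a))) ^ 2) (hk : 3000 ≤ k)
    (hg : k ≤ g) (hgg : 11 * g ≤ 10 * g')
    (hv : ∀ s : ℤ, 101 * g ≤ 100 * s → a ≤ vv p s k)
    (hh' : a ≤ hh p g' (2 * k)) (hv' : ∀ s : ℤ, 101 * g' ≤ 100 * s → a ≤ vv p s (2 * k))
    (K : ℕ) (hK : 1 ≤ K) : b ^ (100 * K + 1) ≤ hh p (K * (2 * k)) (2 * k) := by
  obtain ⟨m2, ⟨m, hm⟩, hm1, hm2⟩ := evu ((101 * g + 99) / 100)
  obtain ⟨r, hr, hr1, hr2⟩ := evd g'
  obtain ⟨s, hs, hs1, hs2⟩ := evu ((101 * g' + 99) / 100)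
  have e1 : m2 = 2 * m := by omega
  rw [e1] at hm1 hm2
  have h1 : a ≤ (P (oVC p 0 (2 * m) 0 k)).toReal := hv (2 * m) (by omega)
  have h2 : a ≤ (P (oHC p 0 r 0 (2 * k))).toReal := hh'.trans (hh_anti (by omega) hr2)
  have h3 := br2 (p := p) (m := m) (n := k) (r := r) (by omega) (by omega) (by omega)
  have q0 : 0 ≤ 1 - Real.sqrt (1 - a) := by
    have h4 : 0 ≤ a := hb0.trans hba
    have h5 : Real.sqrt (1 - a) ≤ Real.sqrt 1 := Real.sqrt_le_sqrt (by linarith)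
    rw [Real.sqrt_one] at h5
    linarith
  have q1 : 1 - Real.sqrt (1 - a) ≤ 1 - Real.sqrt (1 - (P (oVC p 0 (2 * m) 0 k)).toReal) := by
    have := Real.sqrt_le_sqrt (show 1 - (P (oVC p 0 (2 * m) 0 k)).toReal ≤ 1 - a by linarith)
    linarith
  have q2 : 1 - Real.sqrt (1 - a) ≤ 1 - Real.sqrt (1 - (P (oHC p 0 r 0 (2 * k))).toReal) := by
    have := Real.sqrt_le_sqrt (show 1 - (P (oHC p 0 r 0 (2 * k))).toReal ≤ 1 - a by linarith)
    linarith
  have q3 := mul_le_mul q1 q2 q0 (q0.trans q1)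
  have q4 := pow_le_pow_left₀ (mul_nonneg q0 q0) q3 2
  have h4 : b ≤ hh p (2 * r - 2 * m) (2 * k) := by
    have h5 : Even (2 * m - r) := (even_two_mul m).sub hr
    rw [← sh_o h5, show 2 * m - r + (2 * r - 2 * m) = r by ring]
    exact hb1.trans (q4.trans h3)
  exact fav (by omega) hs ((even_two_mul r).sub (even_two_mul m)) (by omega) (by omega) hb0 h4
    (hba.trans (hv' s (by omega))) (by omega) K hK

theorem long (t : ℝ) (ht : 0 < t) (K : ℕ) (hK : 1 ≤ K) : ∃ c : ℝ, 0 < c ∧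
    ∀ (p : ℝ) (n : ℤ), 3000 ≤ n → (∀ m : ℤ, n ≤ m → m ≤ 4 * n → t ≤ ph p m) →
    c ≤ hh p (K * n) n ∨ c ≤ hh p (K * (2 * n)) (2 * n) ∨ c ≤ hh p (K * (4 * n)) (4 * n) := by
  obtain ⟨a, ha⟩ : ∃ a : ℝ, a = t / 2000 := ⟨_, rfl⟩
  have ha0 : 0 < a := by
    rw [ha]
    positivity
  have hat : a ≤ t := by
    rw [ha]
    linarith
  have hq : 0 < 1 - Real.sqrt (1 - a) := by
    have h5 : Real.sqrt (1 - a) < 1 := by
      rw [Real.sqrt_lt' one_pos]
      linarith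
    linarith
  obtain ⟨b, hb⟩ : ∃ b : ℝ, b = min a (((1 - Real.sqrt (1 - a)) * (1 - Real.sqrt (1 - a))) ^ 2) :=
    ⟨_, rfl⟩
  have hb0 : 0 < b := by
    rw [hb]
    exact lt_min ha0 (by positivity)
  have hba : b ≤ a := by
    rw [hb]
    exact min_le_left _ _
  have hb1 : b ≤ ((1 - Real.sqrt (1 - a)) * (1 - Real.sqrt (1 - a))) ^ 2 := by
    rw [hb]
    exact min_le_right _ _
  refine ⟨b ^ (100 * K + 1), pow_pos hb0 _, fun p n hn hph => ?_⟩
  have hbt : b ≤ t := hba.trans hat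
  -- one height
  have one : ∀ k : ℤ, 3000 ≤ k → t ≤ ph p k → b ^ (100 * K + 1) ≤ hh p (K * k) k ∨
      ∃ g : ℤ, k ≤ g ∧ 100 * g < 315 * k ∧ a ≤ hh p g k ∧
        ∀ s : ℤ, 101 * g ≤ 100 * s → a ≤ vv p s k := by
    intro k hk hk'
    by_cases h1 : a ≤ hh p (4 * k) k
    · exact Or.inl (wide hb0.le hbt hk hk' (by omega) (hba.trans h1) K hK)
    · obtain ⟨g, g1, g2, g3, g4⟩ := stepW (p := p) (n := k) ht (by omega) hk'
        (by rw [← ha]; exact not_le.1 h1)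
      rw [← ha] at g3 g4
      by_cases h2 : 315 * k ≤ 100 * g
      · exact Or.inl (wide hb0.le hbt hk hk' h2 (hba.trans g3) K hK)
      · exact Or.inr ⟨g, g1, by omega, g3, g4⟩
  rcases one n hn (hph n le_rfl (by omega)) with h1 | ⟨g1, a1, b1, c1, d1⟩
  · exact Or.inl h1
  rcases one (2 * n) (by omega) (hph (2 * n) (by omega) (by omega)) with h1 | ⟨g2, a2, b2, c2, d2⟩
  · exact Or.inr (Or.inl h1)
  rcases one (4 * n) (by omega) (hph (4 * n) (by omega) (by omega)) with h1 | ⟨g4, a4, b4, c4, d4⟩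
  · exact Or.inr (Or.inr h1)
  by_cases h : 11 * g1 ≤ 10 * g2
  · exact Or.inr (Or.inl (grow hb0.le hba hb1 hn a1 h d1 c2 d2 K hK))
  · have e : 4 * n = 2 * (2 * n) := by ring
    rw [e] at a4 b4 c4 d4 ⊢
    exact Or.inr (Or.inr (grow (g := g2) hb0.le hba hb1 (by omega) a2 (by omega) d2 c4 d4 K hK))

/-- the probability that all vertices of a finite set are open -/
private theorem all_open (F : Finset V) (p : ℝ) :
    (P {w | ∀ v ∈ F, w v ≤ p}).toReal = ((unif (Set.Iic p)).toReal) ^ F.card := by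
  have h1 : {w : Lab | ∀ v ∈ F, w v ≤ p} = Set.pi (F : Set V) fun _ => Set.Iic p := by
    ext w
    simp [Set.mem_pi]
  rw [h1]
  unfold P
  rw [Measure.infinitePi_pi _ fun i _ => measurableSet_Iic, Finset.prod_const, ENNReal.toReal_pow]

private theorem one_open (p : ℝ) : ph p 1 ≤ 4 * (unif (Set.Iic p)).toReal := by
  have h1 : ∀ v : V, (P {w | w v ≤ p}).toReal = (unif (Set.Iic p)).toReal := by
    intro v
    have h := all_open {v} p
    rw [Finset.card_singleton, pow_one] at h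
    rw [← h]
    congr 2
    ext w
    simp
  have h2 : oPH p 0 1 0 1 ⊆ (({w | w (0, 0) ≤ p} ∪ {w | w (1, 0) ≤ p}) ∪ {w | w (0, 1) ≤ p}) ∪
      {w | w (1, 1) ≤ p} := by
    rintro w ⟨u, -, v, -, huv⟩
    obtain ⟨h3, h4, h5, h6, h7⟩ := huv.left
    have h3' : w u ≤ p := h3
    have h8 : u = (0, 0) ∨ u = (1, 0) ∨ u = (0, 1) ∨ u = (1, 1) := by
      obtain ⟨x, y⟩ := u
      simp only [Prod.mk.injEq] at h4 h5 h6 h7 ⊢
      omega
    rcases h8 with rfl | rfl | rfl | rfl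
    · exact Or.inl (Or.inl (Or.inl h3'))
    · exact Or.inl (Or.inl (Or.inr h3'))
    · exact Or.inl (Or.inr h3')
    · exact Or.inr h3'
  have hu : ∀ A B : Set Lab, (P (A ∪ B)).toReal ≤ (P A).toReal + (P B).toReal := by
    intro A B
    rw [← ENNReal.toReal_add (measure_ne_top _ _) (measure_ne_top _ _)]
    exact ENNReal.toReal_mono (by simp [measure_ne_top]) (measure_union_le A B)
  have h3 := pm h2
  have h4 := hu (({w | w (0, 0) ≤ p} ∪ {w | w (1, 0) ≤ p}) ∪ {w | w (0, 1) ≤ p})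
    {w | w (1, 1) ≤ p}
  have h5 := hu ({w | w (0, 0) ≤ p} ∪ {w | w (1, 0) ≤ p}) {w | w (0, 1) ≤ p}
  have h6 := hu {w | w (0, 0) ≤ p} {w | w (1, 0) ≤ p}
  rw [h1] at h4 h5 h6
  rw [h1] at h6
  have h7 : ph p 1 = (P (oPH p 0 1 0 1)).toReal := rfl
  rw [h7]
  linarith

theorem rsw_all (t : ℝ) (ht : 0 < t) (K : ℕ) (hK : 1 ≤ K) : ∃ c : ℝ, 0 < c ∧
    ∀ (p : ℝ), p ≤ 1 → ∀ n : ℤ, 1 ≤ n → (∀ m : ℤ, 1 ≤ m → m ≤ n → t ≤ ph p m) → ∀ l b : ℤ,
    c ≤ (P (oHC p l (l + K * n) b (b + n))).toReal := by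
  obtain ⟨c, hc, hlong⟩ := long t ht (16 * K + 16) (by omega)
  have hK1 : (1 : ℤ) ≤ K := by exact_mod_cast hK
  refine ⟨min c ((t / 4) ^ (24008 * K + 1)), lt_min hc (by positivity), fun p _ n hn hph l b => ?_⟩
  by_cases hbig : 24008 ≤ n
  · refine (min_le_left _ _).trans ?_
    have hKn : 0 < K * n := by positivity
    obtain ⟨m, hm1, hm2, hm3⟩ : ∃ m : ℤ, n - 7 ≤ 8 * m ∧ m ≤ n ∧
        c ≤ hh p ((16 * K + 16 : ℕ) * m) m := by
      rcases hlong p (n / 8) (by omega) (fun m h1 h2 => hph m (by omega) (by omega))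
        with h | h | h
      · exact ⟨n / 8, by omega, by omega, h⟩
      · exact ⟨2 * (n / 8), by omega, by omega, h⟩
      · exact ⟨4 * (n / 8), by omega, by omega, h⟩
    have h1 : K * n + 1 ≤ ((16 * K + 16 : ℕ) : ℤ) * m := by
      push_cast
      nlinarith
    have h2 : hh p ((16 * K + 16 : ℕ) * m) m ≤ hh p (K * n + 1) n :=
      (hh_anti (by omega) h1).trans (hh_mono hm2)
    exact hm3.trans (h2.trans (tm (oHC_lb (by omega) l b)))
  · refine (min_le_right _ _).trans ?_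
    have hKn : 0 < K * n := by positivity
    have hq := (hph 1 le_rfl hn).trans (one_open p)
    obtain ⟨q, hqd⟩ : ∃ q : ℝ, q = (unif (Set.Iic p)).toReal := ⟨_, rfl⟩
    rw [← hqd] at hq
    have hq1 : q ≤ 1 := by
      rw [hqd]
      have h := ENNReal.toReal_mono ENNReal.one_ne_top (prob_le_one (μ := unif) (s := Set.Iic p))
      rwa [ENNReal.toReal_one] at h
    obtain ⟨F, hF⟩ : ∃ F : Finset V, F = (Finset.Icc ((l - b + 1) / 2)
      ((l + K * n - b) / 2)).image fun c => (c, b) := ⟨_, rfl⟩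
    have hcard : F.card ≤ 24008 * K + 1 := by
      rw [hF]
      refine Finset.card_image_le.trans ?_
      rw [Int.card_Icc]
      have h1 : (K : ℤ) * n ≤ K * 24008 := mul_le_mul_of_nonneg_left (by omega) (by omega)
      omega
    have h1 : {w | ∀ v ∈ F, w v ≤ p} ⊆ oHC p l (l + K * n) b (b + n) := by
      intro w hw
      have hw' : ∀ v ∈ F, w v ≤ p := hw
      refine ⟨((l - b + 1) / 2, b), ?_, ((l + K * n - b) / 2, b), ?_, conn_row ?_⟩
      · show 2 * ((l - b + 1) / 2) + b ≤ l + 1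
        omega
      · show l + K * n - 1 ≤ 2 * ((l + K * n - b) / 2) + b
        omega
      · intro c h1 h2
        rw [min_eq_left (by omega)] at h1
        rw [max_eq_right (by omega)] at h2
        refine ⟨hw' _ ?_, ?_, ?_, le_rfl, ?_⟩
        · rw [hF, Finset.mem_image]
          exact ⟨c, Finset.mem_Icc.2 ⟨h1, h2⟩, rfl⟩
        · show l ≤ 2 * c + b
          omega
        · show 2 * c + b ≤ l + K * n
          omega
        · show b ≤ b + n
          omega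
    refine le_trans ?_ (pm h1)
    rw [all_open, ← hqd]
    calc (t / 4) ^ (24008 * K + 1) ≤ q ^ (24008 * K + 1) :=
          pow_le_pow_left₀ (by positivity) (by linarith) _
      _ ≤ q ^ F.card := pow_le_pow_of_le_one (by linarith) hq1 hcard

private theorem flip {D A B : Set V} (hD : D.Finite) :
    P {w | Join (Cl p w ∩ D) A B} = P {w | Join (Op (1 - p) w ∩ D) A B} := by
  rw [← mp_flip.measure_preimage
    (ev_join (p := 1 - p) (A := A) (B := B) hD).1.1.nullMeasurableSet]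
  refine measure_congr ?_
  filter_upwards [ae_label p] with w hw
  have h1 : Op (1 - p) (fun v => 1 - w v) = Cl p w := by
    ext v
    have h2 := (hw.1 v).2.2
    show 1 - w v ≤ 1 - p ↔ p < w v
    constructor
    · intro h
      exact lt_of_le_of_ne (by linarith) (Ne.symm h2)
    · intro h
      linarith
  refine propext ?_
  show Join (Cl p w ∩ D) A B ↔ Join (Op (1 - p) (fun v => 1 - w v) ∩ D) A B
  rw [h1]

theorem rsw_all_cl (t : ℝ) (ht : 0 < t) (K : ℕ) (hK : 1 ≤ K) : ∃ c : ℝ, 0 < c ∧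
    ∀ (p : ℝ), 0 ≤ p → ∀ n : ℤ, 1 ≤ n →
    (∀ m : ℤ, 1 ≤ m → m ≤ n → t ≤ (P (cPH p 0 m 0 m)).toReal) → ∀ l b : ℤ,
    c ≤ (P (cHC p l (l + K * n) b (b + n))).toReal := by
  obtain ⟨c, hc, h⟩ := rsw_all t ht K hK
  refine ⟨c, hc, fun p hp n hn hph l b => ?_⟩
  have h1 : P (cHC p l (l + K * n) b (b + n)) = P (oHC (1 - p) l (l + K * n) b (b + n)) :=
    flip (finite_rec _ _ _ _)
  rw [h1]
  refine h (1 - p) (by linarith) n hn (fun m hm hm' => ?_) l b
  have h2 : P (cPH p 0 m 0 m) = P (oPH (1 - p) 0 m 0 m) := flip (finite_par _ _ _ _)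
  have h3 := hph m hm hm'
  rw [h2] at h3
  exact h3

end Pool.Agent.TriPerc
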