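import Pool.Agent.TriPerc.RswC
import Pool.Agent.TriPerc.RswF

/-!
# RSW with high probability: one step

`hh p w n` is the probability of an open horizontal crossing of `Rec 0 w 0 n`.

* `hi_step`: for every `e > 0` there is `d > 0` such that for even `n ≥ 2000`, even `w` with
  `9 n ≤ 10 w` and `hh p w n ≥ 1 - d`: either (A) there are even `w', n'` with `100 w' ≥ 97 w`,
  `n ≤ 2 n'`, `100 n' ≤ 53 n` and `hh p w' n' ≥ 1 - e`, or (B) there is an even `w'` with
  `100 w' ≥ 102 w` and `hh p w' n ≥ 1 - e`.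
  PROOF.  We may assume `e ≤ 1`.  `e1 = (e / 4) ^ 2`, `d = e1 ^ 240` (so `d ≤ e1 ≤ e`).  Let `w1` be even with
  `97 w ≤ 100 w1 ≤ 98 w`, `D = 2 (n / 200)` (even, `D ≥ 20`, `112 D ≥ n`, `100 D ≤ n`), `h2 = n / 2`
  (`n = 2 h2`), `n'` even with `h2 + 2 D ≤ n' ≤ h2 + 2 D + 1`, so `100 n' ≤ 53 n`.
  Claim: if `Rec 0 w1 0 n` has a horizontal crossing, then for some `j < 120` there is a
  horizontal crossing of `Rec 0 w1 (j D) (j D + n')` or a vertical crossing of
  `Rec 0 w1 (j D) (j D + h2)`.  Let `K` be a finite connected set (`Conn.finset`) in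
  `Op p w ∩ Rec 0 w1 0 n` which contains both ends of the crossing, `y1` and `y2` the smallest and the
  largest row of `K`.  If `y2 - y1 < h2 + D` take `j = y1 / D`: all rows of `K` are between `j D` and
  `j D + n'` (`hc_of_conn`).  Otherwise let `j D` be the first multiple of `D` with `y1 ≤ j D`; then
  `j D + h2 ≤ y2` and the path in `K` from a vertex of row `y1` to a vertex of row `y2` gives
  the vertical crossing (`vc_of_conn`).  Always `j ≤ 113`.
  These are `240` lower events of a finite set (`Rec 0 w1 0 (3 n)`), and their union has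
  probability `≥ hh p w1 n ≥ hh p w n ≥ 1 - e1 ^ 240` (`hh_anti`), so by `sqrt_trick_exists` one of
  them has probability `≥ 1 - e1`.  Horizontal: by `shift_oHC` with `z = (-j D / 2, j D)` (`X z = 0`) its
  probability is `hh p w1 n'`: alternative (A).  Vertical: its probability is `vv p w1 h2` (its
  complement is a closed horizontal crossing, `cHC_compl_oVC`, `shift_cHC`).  Then
  `br2` with `m = w1 / 2`, `n = h2`, `r = w` gives an open horizontal crossing of
  `Rec (w1 - w) w 0 n` with probability `≥ ((1 - sqrt e1) (1 - sqrt d)) ^ 2 ≥ (1 - sqrt e1) ^ 4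
  ≥ 1 - 4 sqrt e1 ≥ 1 - e`; its width is `2 w - w1`, and `w1 - w` is even (`shift_oHC` with
  `z = ((w - w1) / 2, 0)`): alternative (B) with `w' = 2 w - w1`.
* `hi_vert`: for `1 ≤ n`, `3 n + 2 ≤ k`: `hh p (3 n + 3) n ≤ vv p k n`.  PROOF: as `rsw_vert` in
  `RswC.lean` (with `64 n` replaced by `3 n + 2`): choose `b'` with `n - k ≤ 2 b' ≤ -2 n`
  and `l' = -b' - n - 1`.  A horizontal crossing of
  `Rec l' (l' + 3 n + 2) b' (b' + n)` by a path in `{u | rot u ∈ O}` becomes under `rot` a path in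
  `O`; with `v = rot u`, `2 v.2 = X u + u.2`, `X v = v.2 - 2 u.2`.  It starts at
  `2 v.2 ≤ l' + 1 + b' + n = 0` and ends at `2 v.2 ≥ l' + 3 n + 1 + b' = 2 n`; cut it to the rows
  `0..n` (last visit to `{row ≤ 0}`, first visit to `{n ≤ row}`; a step changes the row by at most one);
  there `X v` is between `-2 (b' + n)` and `n - 2 b'`, that is between `0` and `k`.
  Probability: `frame`-type invariance under `rot` (`mp_comp`, `op_comp`) and `oHC_lb` with
  `m = 3 n + 2`.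
-/

namespace Pool.Agent.TriPerc

open MeasureTheory Set

private theorem pm {A B : Set Lab} (h : A ⊆ B) : (P A).toReal ≤ (P B).toReal :=
  ENNReal.toReal_mono (measure_ne_top P B) (measure_mono h)

private theorem pc {A : Set Lab} (hA : MeasurableSet A) : (P Aᶜ).toReal = 1 - (P A).toReal := by
  rw [prob_compl_eq_one_sub hA, ENNReal.toReal_sub_of_le prob_le_one ENNReal.one_ne_top,
    ENNReal.toReal_one]

/-- the even one of `x`, `x - 1` -/
private theorem evd (x : ℤ) : ∃ y : ℤ, Even y ∧ x - 1 ≤ y ∧ y ≤ x := by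
  rcases Int.even_or_odd x with h | h
  · exact ⟨x, h, by omega, le_rfl⟩
  · exact ⟨x - 1, h.sub_odd odd_one, le_rfl, by omega⟩

/-- the even one of `x`, `x + 1` -/
private theorem evu (x : ℤ) : ∃ y : ℤ, Even y ∧ x ≤ y ∧ y ≤ x + 1 := by
  rcases Int.even_or_odd x with h | h
  · exact ⟨x, h, le_rfl, by omega⟩
  · exact ⟨x + 1, h.add_odd odd_one, by omega, le_rfl⟩

private theorem sh_o {p : ℝ} {d : ℤ} (hd : Even d) (w n : ℤ) :
    (P (oHC p d (d + w) 0 n)).toReal = hh p w n := by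
  obtain ⟨e, rfl⟩ := hd
  have h := shift_oHC (p := p) (l := 0) (r := w) (b := 0) (t := n) (e, 0)
  have hX : X (e, 0) = e + e := by
    show 2 * e + 0 = e + e
    ring
  rw [hX] at h
  simp only [zero_add, add_zero] at h
  rw [add_comm (e + e) w, h]
  rfl

/-- vertical even translates, horizontal crossings -/
private theorem up_o {p : ℝ} {d : ℤ} (hd : Even d) (w n : ℤ) :
    (P (oHC p 0 w d (d + n))).toReal = hh p w n := by
  obtain ⟨e, rfl⟩ := hd
  have h := shift_oHC (p := p) (l := 0) (r := w) (b := 0) (t := n) (-e, e + e)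
  have hX : X (-e, e + e) = 0 := by
    show 2 * -e + (e + e) = 0
    ring
  rw [hX] at h
  simp only [zero_add, add_zero] at h
  rw [add_comm (e + e) n, h]
  rfl

/-- vertical even translates, vertical crossings -/
private theorem up_v {p : ℝ} {d : ℤ} (hd : Even d) {w n : ℤ} (hw : 1 ≤ w) (hn : 0 ≤ n) :
    (P (oVC p 0 w d (d + n))).toReal = vv p w n := by
  have h1 := pc (A := oVC p 0 w d (d + n)) ev_oVC.1
  rw [cHC_compl_oVC (by omega) (by omega)] at h1
  have h2 := vv_dual (p := p) hw hn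
  have h3 : (P (cHC p 0 w d (d + n))).toReal = hcl p w n := by
    obtain ⟨e, rfl⟩ := hd
    have h := shift_cHC (p := p) (l := 0) (r := w) (b := 0) (t := n) (-e, e + e)
    have hX : X (-e, e + e) = 0 := by
      show 2 * -e + (e + e) = 0
      ring
    rw [hX] at h
    simp only [zero_add, add_zero] at h
    rw [add_comm (e + e) n, h]
    rfl
  linarith

/-- The deterministic part: a horizontal crossing stays in a strip or contains a vertical
crossing. -/
private theorem split_rows {O : Set V} {w n D h n' : ℤ} (hw : 1 ≤ w) (hD : 1 ≤ D) (hh0 : 0 ≤ h)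
    (hn' : h + 2 * D ≤ n') (hH : HC O 0 w 0 n) :
    ∃ j : ℤ, 0 ≤ j ∧ j * D ≤ n + D ∧
      (HC O 0 w (j * D) (j * D + n') ∨ VC O 0 w (j * D) (j * D + h)) := by
  obtain ⟨u, hu, v, hv, huv⟩ := hH
  obtain ⟨K, hK, huK, hvK, hKc⟩ := huv.finset
  obtain ⟨x, hxK, hx⟩ := K.exists_min_image (fun z => z.2) ⟨u, huK⟩
  obtain ⟨y, hyK, hy⟩ := K.exists_max_image (fun z => z.2) ⟨u, huK⟩
  have hx1 : 0 ≤ x.2 := (hK hxK).2.2.2.1
  have hx2 : x.2 ≤ n := (hK hxK).2.2.2.2
  have hu' : X u ≤ 0 + 1 := hu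
  have hv' : w - 1 ≤ X v := hv
  by_cases hc : y.2 - x.2 < h + D
  · obtain ⟨j, hj⟩ : ∃ j : ℤ, j = x.2 / D := ⟨_, rfl⟩
    have hj0 : 0 ≤ j := by
      rw [hj]
      exact Int.ediv_nonneg hx1 (by omega)
    have e1 : j * D ≤ x.2 := by
      rw [hj]
      exact Int.ediv_mul_le _ (by omega)
    have e2 : x.2 < j * D + D := by
      have := Int.lt_ediv_add_one_mul_self x.2 (show 0 < D by omega)
      rw [← hj, add_mul, one_mul] at this
      exact this
    refine ⟨j, hj0, by omega, Or.inl ?_⟩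
    have hcon : Conn (O ∩ {z | j * D ≤ z.2 ∧ z.2 ≤ j * D + n'}) u v := by
      refine (hKc u huK v hvK).mono ?_
      intro z hz
      have h1 := hx z hz
      have h2 := hy z hz
      refine ⟨(hK hz).1, ?_, ?_⟩
      · show j * D ≤ z.2
        omega
      · show z.2 ≤ j * D + n'
        omega
    exact hc_of_conn hcon hu' hv' (by omega)
  · obtain ⟨j, hj⟩ : ∃ j : ℤ, j = (x.2 + (D - 1)) / D := ⟨_, rfl⟩
    have hj0 : 0 ≤ j := by
      rw [hj]
      exact Int.ediv_nonneg (by omega) (by omega)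
    have e1 : j * D ≤ x.2 + (D - 1) := by
      rw [hj]
      exact Int.ediv_mul_le _ (by omega)
    have e2 : x.2 + (D - 1) < j * D + D := by
      have := Int.lt_ediv_add_one_mul_self (x.2 + (D - 1)) (show 0 < D by omega)
      rw [← hj, add_mul, one_mul] at this
      exact this
    refine ⟨j, hj0, by omega, Or.inr ?_⟩
    have hcon : Conn (O ∩ {z | 0 ≤ X z ∧ X z ≤ w}) x y := by
      refine (hKc x hxK y hyK).mono ?_
      intro z hz
      exact ⟨(hK hz).1, (hK hz).2.1, (hK hz).2.2.1⟩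
    exact vc_of_conn hcon (by omega) (by omega) (by omega)

theorem hi_step (e : ℝ) (he : 0 < e) : ∃ d : ℝ, 0 < d ∧ ∀ (p : ℝ) (n w : ℤ), 2000 ≤ n →
    Even n → Even w → 9 * n ≤ 10 * w → 1 - d ≤ hh p w n →
    (∃ w' n' : ℤ, Even w' ∧ Even n' ∧ 97 * w ≤ 100 * w' ∧ n ≤ 2 * n' ∧ 100 * n' ≤ 53 * n ∧
      1 - e ≤ hh p w' n') ∨
    (∃ w' : ℤ, Even w' ∧ 102 * w ≤ 100 * w' ∧ 1 - e ≤ hh p w' n) := by
  obtain ⟨s, hs⟩ : ∃ s : ℝ, s = min e 1 / 4 := ⟨_, rfl⟩
  have hm1 : min e 1 ≤ e := min_le_left _ _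
  have hm2 : min e 1 ≤ 1 := min_le_right _ _
  have hm3 : 0 < min e 1 := lt_min he one_pos
  have hs0 : 0 < s := by
    rw [hs]
    linarith
  have hs1 : 4 * s ≤ 1 := by
    rw [hs]
    linarith
  have hse : 4 * s ≤ e := by
    rw [hs]
    linarith
  have hq0 : 0 < s ^ 2 := by positivity
  have hqs : s ^ 2 ≤ s := by nlinarith
  have hq1 : s ^ 2 ≤ 1 := by linarith
  have hd1 : (s ^ 2) ^ 240 ≤ s ^ 2 := pow_le_of_le_one hq0.le hq1 (by norm_num)
  refine ⟨(s ^ 2) ^ 240, by positivity, fun p n w hn hne hwe hwn hH => ?_⟩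
  obtain ⟨w1, hw1e, hw1a, hw1b⟩ := evd (98 * w / 100)
  obtain ⟨D', hD'⟩ : ∃ D' : ℤ, D' = n / 200 := ⟨_, rfl⟩
  obtain ⟨D, hD⟩ : ∃ D : ℤ, D = D' + D' := ⟨_, rfl⟩
  obtain ⟨h2, hh2⟩ := hne
  obtain ⟨n', hn'e, hn'a, hn'b⟩ := evu (h2 + 2 * D)
  have hD20 : 20 ≤ D := by omega
  have hDn : n ≤ 112 * D := by omega
  have hDn' : 100 * D ≤ n := by omega
  have hDe : Even D := ⟨D', hD⟩
  have hw1 : 97 * w ≤ 100 * w1 := by omega
  have hw2 : 100 * w1 ≤ 98 * w := by omega
  have hjD : ∀ i : ℕ, i < 120 → 0 ≤ (i : ℤ) * D ∧ (i : ℤ) * D ≤ 119 * D := by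
    intro i hi
    exact ⟨by positivity, mul_le_mul_of_nonneg_right (by omega) (by omega)⟩
  obtain ⟨A, hA⟩ : ∃ A : Fin 240 → Set Lab, A = fun i : Fin 240 =>
      if (i : ℕ) < 120 then oHC p 0 w1 ((i : ℕ) * D) ((i : ℕ) * D + n')
      else oVC p 0 w1 (((i : ℕ) - 120 : ℕ) * D) (((i : ℕ) - 120 : ℕ) * D + h2) := ⟨_, rfl⟩
  have hfin := finite_rec 0 w1 0 (3 * n)
  have hsub : ∀ b t : ℤ, 0 ≤ b → t ≤ 3 * n → Rec 0 w1 b t ⊆ Rec 0 w1 0 (3 * n) :=
    fun b t h1 h3 v hv => ⟨hv.1, hv.2.1, h1.trans hv.2.2.1, hv.2.2.2.trans h3⟩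
  have hev : ∀ i, Ev (Rec 0 w1 0 (3 * n)) (A i) := by
    intro i
    have hi := i.2
    rw [hA]
    dsimp only
    split_ifs with h
    · obtain ⟨h3, h4⟩ := hjD i h
      exact ev_oHC.mono (hsub _ _ h3 (by omega))
    · obtain ⟨h3, h4⟩ := hjD ((i : ℕ) - 120) (by omega)
      exact ev_oVC.mono (hsub _ _ h3 (by omega))
  have hlow : ∀ i, IsLowerSet (A i) := by
    intro i
    rw [hA]
    dsimp only
    split_ifs with h
    · exact low_oHC
    · exact low_oVC
  have hun : oHC p 0 w1 0 n ⊆ ⋃ i, A i := by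
    intro x hx
    obtain ⟨j, hj0, hj1, hj⟩ := split_rows (O := Op p x) (w := w1) (n := n) (D := D) (h := h2)
      (n' := n') (by omega) (by omega) (by omega) hn'a hx
    have hj2 : j < 114 := by
      by_contra hc
      have : 114 * D ≤ j * D := mul_le_mul_of_nonneg_right (by omega) (by omega)
      omega
    obtain ⟨i, rfl⟩ := Int.eq_ofNat_of_zero_le hj0
    have hi : i < 114 := by exact_mod_cast hj2
    rw [Set.mem_iUnion]
    rcases hj with hj | hj
    · refine ⟨⟨i, by omega⟩, ?_⟩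
      rw [hA]
      dsimp only
      rw [if_pos (by omega)]
      exact hj
    · refine ⟨⟨i + 120, by omega⟩, ?_⟩
      rw [hA]
      dsimp only
      rw [if_neg (by omega), Nat.add_sub_cancel]
      exact hj
  have hpr : 1 - (s ^ 2) ^ 240 ≤ (P (⋃ i, A i)).toReal := by
    have h3 : hh p w n ≤ hh p w1 n := hh_anti (by omega) (by omega)
    exact hH.trans (h3.trans (pm hun))
  obtain ⟨i, hi⟩ := sqrt_trick_exists hfin hev hlow hq0.le (by norm_num) hpr
  rw [hA] at hi
  dsimp only at hi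
  split_ifs at hi with h
  · left
    rw [up_o (hDe.mul_left _)] at hi
    exact ⟨w1, n', hw1e, hn'e, hw1, by omega, by omega, by linarith⟩
  · right
    rw [up_v (hDe.mul_left _) (by omega) (by omega)] at hi
    obtain ⟨m, hm⟩ := hw1e
    have hm2 : w1 = 2 * m := by omega
    have hb := br2 (p := p) (m := m) (n := h2) (r := w) (by omega) (by omega) (by omega)
    have hn2 : 2 * h2 = n := by omega
    rw [hn2, ← hm2] at hb
    have hev2 : Even (w1 - w) := by
      have : Even w1 := ⟨m, hm⟩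
      exact this.sub hwe
    have h3 := sh_o (p := p) hev2 (2 * w - w1) n
    rw [show w1 - w + (2 * w - w1) = w by ring] at h3
    rw [h3] at hb
    refine ⟨2 * w - w1, (even_two_mul w).sub ⟨m, hm⟩, by omega, ?_⟩
    have k1 : Real.sqrt (1 - (P (oVC p 0 w1 0 h2)).toReal) ≤ s := by
      rw [Real.sqrt_le_left hs0.le]
      have : 1 - s ^ 2 ≤ (P (oVC p 0 w1 0 h2)).toReal := hi
      linarith
    have k2 : Real.sqrt (1 - (P (oHC p 0 w 0 n)).toReal) ≤ s := by
      rw [Real.sqrt_le_left hs0.le]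
      have : 1 - (s ^ 2) ^ 240 ≤ (P (oHC p 0 w 0 n)).toReal := hH
      linarith
    have k3 : (1 - s) * (1 - s) ≤ (1 - Real.sqrt (1 - (P (oVC p 0 w1 0 h2)).toReal)) *
        (1 - Real.sqrt (1 - (P (oHC p 0 w 0 n)).toReal)) :=
      mul_le_mul (by linarith) (by linarith) (by linarith) (by linarith)
    have k4 : ((1 - s) * (1 - s)) ^ 2 ≤ hh p (2 * w - w1) n :=
      (pow_le_pow_left₀ (by nlinarith) k3 2).trans hb
    have k5 : 1 - 2 * s ≤ (1 - s) * (1 - s) := by nlinarith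
    have k6 : (1 - 2 * s) ^ 2 ≤ ((1 - s) * (1 - s)) ^ 2 :=
      pow_le_pow_left₀ (by linarith) k5 2
    nlinarith

theorem hi_vert {p : ℝ} {n k : ℤ} (hn : 1 ≤ n) (hk : 3 * n + 2 ≤ k) :
    hh p (3 * n + 3) n ≤ vv p k n := by
  have h1 := oHC_lb (p := p) (m := 3 * n + 2) (n := n) (by omega) (-1) (-n)
  rw [show -1 + (3 * n + 2) = 3 * n + 1 by ring, neg_add_cancel,
    show 3 * n + 2 + 1 = 3 * n + 3 by ring] at h1
  have h2 := frame rot (fun S => HC S (-1) (3 * n + 1) (-n) 0) p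
    (ev_oHC (p := p) (l := -1) (r := 3 * n + 1) (b := -n) (t := 0)).1
  have h3 : P (oHC p (-1) (3 * n + 1) (-n) 0) ≤ P (oVC p 0 k 0 n) := by
    show P {w | HC (Op p w) (-1) (3 * n + 1) (-n) 0} ≤ _
    rw [← h2]
    refine measure_mono fun w hw => ?_
    obtain ⟨u, hu, v, hv, huv⟩ := hw
    have hu' : X u ≤ -1 + 1 := hu
    have hv' : 3 * n + 1 - 1 ≤ X v := hv
    obtain ⟨-, -, -, hu3, hu4⟩ := huv.left
    obtain ⟨-, -, -, hv3, hv4⟩ := huv.right
    have f1 : ∀ x : V, X (rot x) = (rot x).2 - 2 * x.2 := fun x => by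
      show 2 * -x.2 + (x.1 + x.2) = x.1 + x.2 - 2 * x.2
      ring
    have f2 : ∀ x : V, 2 * (rot x).2 = X x + x.2 := fun x => by
      show 2 * (x.1 + x.2) = 2 * x.1 + x.2 + x.2
      ring
    have g1 := f2 u
    have g2 := f2 v
    set O' : Set V := {z | z ∈ Op p w ∧ ∃ x, z = rot x ∧ -n ≤ x.2 ∧ x.2 ≤ 0} with hO'
    have hc := (conn_image isAut_rot).2 huv
    have hc2 : Conn (O' ∩ {z | -3 * n - 3 ≤ X z ∧ X z ≤ 6 * n + 6}) (rot u) (rot v) := by
      refine hc.mono ?_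
      rintro _ ⟨x, ⟨hx1, hx2, hx3, hx4, hx5⟩, rfl⟩
      have g3 := f1 x
      have g4 := f2 x
      refine ⟨⟨hx1, x, rfl, hx4, hx5⟩, ?_, ?_⟩
      · show -3 * n - 3 ≤ X (rot x)
        omega
      · show X (rot x) ≤ 6 * n + 6
        omega
    have hvc := vc_of_conn (b := 0) (t := n) hc2 (by omega) (by omega) (by omega)
    refine Join.mono hvc ?_ subset_rfl subset_rfl
    rintro z ⟨⟨hz, x, rfl, hx4, hx5⟩, hz1, hz2, hz3, hz4⟩
    have g3 := f1 x
    refine ⟨hz, ?_, ?_, hz3, hz4⟩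
    · omega
    · omega
  exact ENNReal.toReal_mono (measure_ne_top P _) (h1.trans h3)

end Pool.Agent.TriPerc
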