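import Pool.Agent.TriPerc.HiA

/-!
# RSW with high probability: from one rhombus to long rectangles

* `hi_iter`: for every `k : ℕ` and `e > 0` there are `d > 0` and `n0` such that for all even
  `n ≥ n0`, even `w` with `9 n ≤ 10 w`, `320 * 100 ^ k * n ≤ 100 * 102 ^ k * w` and `hh p w n ≥ 1 - d`
  there are even `w'`, `n'` with `n ≤ 2 ^ k n'`, `n' ≤ n`, `32 n' ≤ 10 w'`, `hh p w' n' ≥ 1 - e`.
  PROOF by induction on `k`.  `k = 0`: `d = e`, `n0 = 1`, `w' = w`, `n' = n`.  Step: let `d_k`, `n0_k` belong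
  to `k`, `e`; take `d` from `hi_step d_k` and `n0 = max 2000 (2 n0_k)`.  Alternative (B) of
  `hi_step`: `w'` satisfies `102 w ≤ 100 w'`, so the hypothesis of `k` holds for `n`, `w'`.
  Alternative (A): `w'`, `n'` with `n' ≥ n / 2 ≥ n0_k`; `9 n' ≤ 10 w'`, and
  `320 * 100 ^ k * n' ≤ 100 * 102 ^ k * w'` because `w' ≥ 0.97 w`, `n' ≤ 0.53 n` and
  `0.53 * 1.02 ≤ 0.97`; the result has `n ≤ 2 n' ≤ 2 * 2 ^ k n''`.
* `hi_long`: for all `K ≥ 1` and `e > 0` there is `d > 0` such that `0 ≤ p ≤ 1`, `1 ≤ n` and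
  `ph p n ≥ 1 - d` imply: every rectangle `Rec l (l + K n) b (b + (n + 1))` has an open horizontal
  crossing with probability `≥ 1 - e`.
  PROOF.  We may assume `e ≤ 1`.  Let `k = 80`; `1.02 ^ 80 * 0.9 ≥ 3.2`.  Put `k1 = 20 * 2 ^ 80 * K`,
  `e1 = e / (2 k1 + 1)`, and `d1`, `n0` from `hi_iter 80 e1`; `N0 = max 4000 (2 ^ 81 (n0 + 100))` (any large
  number).  Case `n ≥ N0`, `d ≤ d1`.  Let `n2` be the even one of `n`, `n + 1` and `w2` the even one of
  `n - 1`, `n`.  `hh p w2 n2 ≥ hh p n n ≥ ph p n ≥ 1 - d1` (`hh_anti`, `hh_mono`, `rh_hh`) and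
  `9 n2 ≤ 10 w2`.  `hi_iter` gives `w'`, `n'` with `n2 ≤ 2 ^ 80 n'`, `n' ≤ n2 ≤ n + 1`, `32 n' ≤ 10 w'`,
  `hh p w' n' ≥ 1 - e1`; `n' ≥ 100`.  Let `s` be even, `3 n' + 2 ≤ s ≤ 3 n' + 4`.  `s < w'`,
  `10 (w' - s) ≥ n'`, and `vv p s n' ≥ hh p (3 n' + 3) n' ≥ hh p w' n' ≥ 1 - e1` (`hi_vert`,
  `hh_anti`).  `gl_open` with `A = w'`, `a = 1 - e1`, `k1`: `hh p (w' + k1 (w' - s)) n' ≥
  (1 - e1) ^ (2 k1 + 1) ≥ 1 - (2 k1 + 1) e1 = 1 - e` (Bernoulli).  Since
  `w' + k1 (w' - s) ≥ K n + 1` this gives `hh p (K n + 1) (n + 1) ≥ 1 - e`, and `oHC_lb` with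
  `m = K n` moves the rectangle to any place.
  Case `n < N0`: let `q = 1 - p`.  If all vertices of the rhombus `Par 0 n 0 n` are closed, it is not
  crossed, so `q ^ ((n + 1) ^ 2) ≤ 1 - ph p n ≤ d` and `q ^ ((N0 + 1) ^ 2) ≤ d`.  If all vertices of the
  rectangle are open (probability `≥ 1 - q * |Rec| ≥ 1 - q (K N0 + 2) (N0 + 2)`), then it is crossed
  (as in `rsw_all`, private lemmas for small `n` there; for instance `HC` holds for the set
  `univ`, since `VC` of the empty set is false, `rec_or`).  So `d ≤ (e / ((K N0 + 2) (N0 + 2))) ^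
  ((N0 + 1) ^ 2)` suffices.  Take the minimum of the two bounds for `d`.
-/

namespace Pool.Agent.TriPerc

open MeasureTheory Set

theorem hi_iter (k : ℕ) : ∀ e : ℝ, 0 < e → ∃ (d : ℝ) (n0 : ℤ), 0 < d ∧ 1 ≤ n0 ∧
    ∀ (p : ℝ) (n w : ℤ), n0 ≤ n → Even n → Even w → 9 * n ≤ 10 * w →
    320 * 100 ^ k * n ≤ 100 * 102 ^ k * w → 1 - d ≤ hh p w n →
    ∃ w' n' : ℤ, Even w' ∧ Even n' ∧ n ≤ 2 ^ k * n' ∧ n' ≤ n ∧ 32 * n' ≤ 10 * w' ∧
      1 - e ≤ hh p w' n' := by
  induction k with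
  | zero =>
    intro e he
    refine ⟨e, 1, he, le_rfl, fun p n w hn hen hew h9 h1 h2 => ⟨w, n, hew, hen, ?_, le_rfl, ?_, h2⟩⟩
    · rw [pow_zero, one_mul]
    · rw [pow_zero, mul_one, pow_zero, mul_one] at h1
      omega
  | succ k ih =>
    intro e he
    obtain ⟨dk, nk, hdk, hnk, hk⟩ := ih e he
    obtain ⟨d, hd, hstep⟩ := hi_step dk hdk
    refine ⟨d, max 2000 (2 * nk), hd, (by norm_num : (1 : ℤ) ≤ 2000).trans (le_max_left _ _),
      fun p n w hn hen hew h9 h1 h2 => ?_⟩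
    have hn1 : 2000 ≤ n := (le_max_left _ _).trans hn
    have hn2 : 2 * nk ≤ n := (le_max_right _ _).trans hn
    have hPpos : (0 : ℤ) < 100 ^ k := by positivity
    have hQpos : (0 : ℤ) < 102 ^ k := by positivity
    rw [pow_succ, pow_succ] at h1
    rcases hstep p n w hn1 hen hew h9 h2 with
      ⟨w', n', ew, en, a1, a2, a3, a4⟩ | ⟨w', ew, a1, a2⟩
    · have b1 : (100 : ℤ) ^ k * (100 * n') ≤ 100 ^ k * (53 * n) :=
        mul_le_mul_of_nonneg_left a3 hPpos.le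
      have b2 : (102 : ℤ) ^ k * (97 * w) ≤ 102 ^ k * (100 * w') :=
        mul_le_mul_of_nonneg_left a1 hQpos.le
      have b3 : (0 : ℤ) ≤ 102 ^ k * w' := mul_nonneg hQpos.le (by omega)
      obtain ⟨w'', n'', ew', en', c1, c2, c3, c4⟩ := hk p n' w' (by omega) en ew (by omega)
        (by linarith) a4
      refine ⟨w'', n'', ew', en', ?_, by omega, c3, c4⟩
      rw [pow_succ]
      linarith
    · have b2 : (102 : ℤ) ^ k * (102 * w) ≤ 102 ^ k * (100 * w') :=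
        mul_le_mul_of_nonneg_left a1 hQpos.le
      obtain ⟨w'', n'', ew', en', c1, c2, c3, c4⟩ := hk p n w' (by omega) hen ew (by omega)
        (by linarith) a2
      refine ⟨w'', n'', ew', en', ?_, c2, c3, c4⟩
      rw [pow_succ]
      linarith

private theorem tmB {A B : Set Lab} (h : P A ≤ P B) : (P A).toReal ≤ (P B).toReal :=
  ENNReal.toReal_mono (measure_ne_top P B) h

private theorem all_openB (F : Finset V) {p : ℝ} (h0 : 0 ≤ p) (h1 : p ≤ 1) :
    (P {w | ∀ v ∈ F, w v ≤ p}).toReal = p ^ F.card := by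
  have h2 : {w : Lab | ∀ v ∈ F, w v ≤ p} = Set.pi (F : Set V) fun _ => Set.Iic p := by
    ext w
    simp [Set.mem_pi]
  rw [h2]
  unfold P
  rw [Measure.infinitePi_pi _ fun i _ => measurableSet_Iic, Finset.prod_const, ENNReal.toReal_pow,
    unif_Iic h0 h1, ENNReal.toReal_ofReal h0]

private theorem all_closedB (F : Finset V) {p : ℝ} (h0 : 0 ≤ p) (h1 : p ≤ 1) :
    (P {w | ∀ v ∈ F, p < w v}).toReal = (1 - p) ^ F.card := by
  have h2 : {w : Lab | ∀ v ∈ F, p < w v} = Set.pi (F : Set V) fun _ => Set.Ioi p := by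
    ext w
    simp [Set.mem_pi]
  have h3 : (unif (Set.Ioi p)).toReal = 1 - p := by
    rw [← Set.compl_Iic, prob_compl_eq_one_sub measurableSet_Iic,
      ENNReal.toReal_sub_of_le prob_le_one ENNReal.one_ne_top, unif_Iic h0 h1,
      ENNReal.toReal_ofReal h0, ENNReal.toReal_one]
  rw [h2]
  unfold P
  rw [Measure.infinitePi_pi _ fun i _ => measurableSet_Ioi, Finset.prod_const, ENNReal.toReal_pow,
    h3]

/-- a closed column blocks the rhombus -/
private theorem ph_small {p : ℝ} {n : ℤ} (h0 : 0 ≤ p) (h1 : p ≤ 1) :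
    (1 - p) ^ ((n + 1).toNat) ≤ 1 - ph p n := by
  obtain ⟨F, hF⟩ : ∃ F : Finset V, F = (Finset.Icc (0 : ℤ) n).image fun j => ((0 : ℤ), j) :=
    ⟨_, rfl⟩
  have hcard : F.card ≤ (n + 1).toNat := by
    rw [hF]
    refine Finset.card_image_le.trans ?_
    rw [Int.card_Icc, sub_zero]
  have h2 : Disjoint {w : Lab | ∀ v ∈ F, p < w v} (oPH p 0 n 0 n) := by
    rw [Set.disjoint_left]
    rintro w hw ⟨u, hu, v, -, huv⟩
    have hu' : u.1 ≤ 0 := hu
    obtain ⟨h3, h4, h5, h6, h7⟩ := huv.left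
    have h3' : w u ≤ p := h3
    have h8 : u ∈ F := by
      rw [hF, Finset.mem_image]
      exact ⟨u.2, Finset.mem_Icc.2 ⟨h6, h7⟩, Prod.ext (le_antisymm h4 hu') rfl⟩
    have h9 : p < w u := hw u h8
    linarith
  have h4 : (P {w : Lab | ∀ v ∈ F, p < w v}).toReal + (P (oPH p 0 n 0 n)).toReal ≤ 1 := by
    rw [← ENNReal.toReal_add (measure_ne_top _ _) (measure_ne_top _ _),
      ← measure_union h2 ev_oPH.1]
    have h := tmB (A := {w : Lab | ∀ v ∈ F, p < w v} ∪ oPH p 0 n 0 n) (B := Set.univ)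
      (measure_mono (Set.subset_univ _))
    rwa [measure_univ, ENNReal.toReal_one] at h
  rw [all_closedB F h0 h1] at h4
  have h5 : (1 - p) ^ ((n + 1).toNat) ≤ (1 - p) ^ F.card :=
    pow_le_pow_of_le_one (by linarith) (by linarith) hcard
  have h6 : ph p n = (P (oPH p 0 n 0 n)).toReal := rfl
  rw [h6]
  linarith

/-- an open row crosses the rectangle -/
private theorem row_small {p : ℝ} {m h : ℤ} (h0 : 0 ≤ p) (h1 : p ≤ 1) (hm : 1 ≤ m) (hh' : 0 ≤ h)
    (l b : ℤ) :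
    1 - (m + 1) * (1 - p) ≤ (P (oHC p l (l + m) b (b + h))).toReal := by
  obtain ⟨F, hF⟩ : ∃ F : Finset V, F = (Finset.Icc ((l - b + 1) / 2)
    ((l + m - b) / 2)).image fun c => (c, b) := ⟨_, rfl⟩
  have hcard : F.card ≤ (m + 1).toNat := by
    rw [hF]
    refine Finset.card_image_le.trans ?_
    rw [Int.card_Icc]
    omega
  have hsub : {w | ∀ v ∈ F, w v ≤ p} ⊆ oHC p l (l + m) b (b + h) := by
    intro w hw
    have hw' : ∀ v ∈ F, w v ≤ p := hw
    refine ⟨((l - b + 1) / 2, b), ?_, ((l + m - b) / 2, b), ?_, conn_row ?_⟩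
    · show 2 * ((l - b + 1) / 2) + b ≤ l + 1
      omega
    · show l + m - 1 ≤ 2 * ((l + m - b) / 2) + b
      omega
    · intro c h1 h2
      rw [min_eq_left (by omega)] at h1
      rw [max_eq_right (by omega)] at h2
      refine ⟨hw' _ ?_, ?_, ?_, le_rfl, ?_⟩
      · rw [hF, Finset.mem_image]
        exact ⟨c, Finset.mem_Icc.2 ⟨h1, h2⟩, rfl⟩
      · show l ≤ 2 * c + b
        omega
      · show 2 * c + b ≤ l + m
        omega
      · show b ≤ b + h
        omega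
  refine le_trans ?_ (tmB (measure_mono hsub))
  rw [all_openB F h0 h1]
  have h2 : p ^ ((m + 1).toNat) ≤ p ^ F.card := pow_le_pow_of_le_one h0 h1 hcard
  have h3 := one_add_mul_le_pow (a := p - 1) (by linarith) ((m + 1).toNat)
  have h4 : (((m + 1).toNat : ℕ) : ℝ) = m + 1 := by
    have h5 : (((m + 1).toNat : ℕ) : ℤ) = m + 1 := Int.toNat_of_nonneg (by omega)
    have h6 : ((((m + 1).toNat : ℕ) : ℤ) : ℝ) = ((m + 1 : ℤ) : ℝ) := by rw [h5]
    rw [Int.cast_natCast] at h6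
    rw [h6]
    push_cast
    ring
  rw [h4, add_sub_cancel] at h3
  linarith

/-- the even one of `x`, `x - 1` -/
private theorem evdB (x : ℤ) : ∃ y : ℤ, Even y ∧ x - 1 ≤ y ∧ y ≤ x := by
  rcases Int.even_or_odd x with h | h
  · exact ⟨x, h, by omega, le_rfl⟩
  · exact ⟨x - 1, h.sub_odd odd_one, le_rfl, by omega⟩

/-- the even one of `x`, `x + 1` -/
private theorem evuB (x : ℤ) : ∃ y : ℤ, Even y ∧ x ≤ y ∧ y ≤ x + 1 := by
  rcases Int.even_or_odd x with h | h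
  · exact ⟨x, h, le_rfl, by omega⟩
  · exact ⟨x + 1, h.add_odd odd_one, by omega, le_rfl⟩

/-- the case of large `n` -/
private theorem big (K : ℤ) (hK : 1 ≤ K) (e : ℝ) (he : 0 < e) (he1 : e ≤ 1) :
    ∃ (d : ℝ) (N : ℤ), 0 < d ∧ 1 ≤ N ∧
    ∀ (p : ℝ) (n : ℤ), N ≤ n → 1 - d ≤ ph p n → ∀ l b : ℤ,
    1 - e ≤ (P (oHC p l (l + K * n) b (b + (n + 1)))).toReal := by
  obtain ⟨Q, hQ⟩ : ∃ Q : ℤ, Q = 2 ^ 80 := ⟨_, rfl⟩
  have hQ1 : 1 ≤ Q := by rw [hQ]; norm_num
  obtain ⟨k1, hk1⟩ : ∃ k1 : ℕ, (k1 : ℤ) = 20 * Q * K :=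
    ⟨(20 * Q * K).toNat, Int.toNat_of_nonneg (by positivity)⟩
  have hden : (0 : ℝ) < 2 * k1 + 1 := by positivity
  obtain ⟨d, n0, hd, hn0, hit⟩ := hi_iter 80 (e / (2 * k1 + 1)) (div_pos he hden)
  refine ⟨d, n0 + 100 * Q, hd, by omega, fun p n hn hph l b => ?_⟩
  obtain ⟨n2, en2, c1, c2⟩ := evuB n
  obtain ⟨w2, ew2, c3, c4⟩ := evdB n
  have h1 : 1 - d ≤ hh p w2 n2 :=
    (hph.trans (rh_hh (by omega))).trans ((hh_anti (by omega) c4).trans (hh_mono c1))
  have h9 : 9 * n2 ≤ 10 * w2 := by omega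
  obtain ⟨w', n', ew, en, a1, a2, a3, a4⟩ := hit p n2 w2 (by omega) en2 ew2 h9 (by
    have h2 : (320 : ℤ) * 100 ^ 80 ≤ 90 * 102 ^ 80 := by norm_num
    have h3 : (320 : ℤ) * 100 ^ 80 * n2 ≤ 90 * 102 ^ 80 * n2 :=
      mul_le_mul_of_nonneg_right h2 (by omega)
    have h4 : (10 : ℤ) * 102 ^ 80 * (9 * n2) ≤ 10 * 102 ^ 80 * (10 * w2) :=
      mul_le_mul_of_nonneg_left h9 (by norm_num)
    linarith) h1
  rw [← hQ] at a1
  have hn' : 100 ≤ n' := by
    have h2 : Q * 100 ≤ Q * n' := by omega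
    exact le_of_mul_le_mul_left h2 (by omega)
  obtain ⟨s, es, s1, s2⟩ := evuB (3 * n' + 2)
  have hsw : s < w' := by omega
  have hvv : 1 - e / (2 * k1 + 1) ≤ vv p s n' :=
    (a4.trans (hh_anti (w := 3 * n' + 3) (by omega) (by omega))).trans
      (hi_vert (by omega) s1)
  have hle1 : e / (2 * k1 + 1) ≤ 1 := by
    rw [div_le_one hden]
    have : (0 : ℝ) ≤ k1 := by positivity
    linarith
  have hgl := gl_open (p := p) (n := n') (by omega) es ew (by omega) hsw (by linarith) a4 hvv k1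
  have hbern := one_add_mul_le_pow (a := -(e / (2 * k1 + 1))) (by linarith) (2 * k1 + 1)
  have e1 : 1 + ((2 * k1 + 1 : ℕ) : ℝ) * -(e / (2 * k1 + 1)) = 1 - e := by
    push_cast
    field_simp
    ring
  rw [e1] at hbern
  have hbern' : 1 - e ≤ (1 - e / (2 * k1 + 1)) ^ (2 * k1 + 1) := by
    rw [sub_eq_add_neg 1 (e / (2 * k1 + 1))]
    exact hbern
  have hlen : K * n + 1 ≤ w' + k1 * (w' - s) := by
    rw [hk1]
    have h2 : n' ≤ 10 * (w' - s) := by omega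
    have h3 : (2 * Q * K) * n' ≤ (2 * Q * K) * (10 * (w' - s)) :=
      mul_le_mul_of_nonneg_left h2 (by positivity)
    have h4 : K * n ≤ K * (Q * n') := mul_le_mul_of_nonneg_left (by omega) (by omega)
    have h5 : 1 ≤ K * n := by
      have : 0 < K * n := mul_pos (by omega) (by omega)
      omega
    nlinarith
  have hKn : 1 ≤ K * n := by
    have : 0 < K * n := mul_pos (by omega) (by omega)
    omega
  have hfin : 1 - e ≤ hh p (K * n + 1) (n + 1) :=
    (hbern'.trans hgl).trans ((hh_anti (by omega) hlen).trans (hh_mono (by omega)))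
  exact hfin.trans (tmB (oHC_lb hKn l b))

theorem hi_long (K : ℤ) (hK : 1 ≤ K) (e : ℝ) (he : 0 < e) : ∃ d : ℝ, 0 < d ∧
    ∀ (p : ℝ) (n : ℤ), 0 ≤ p → p ≤ 1 → 1 ≤ n → 1 - d ≤ ph p n → ∀ l b : ℤ,
    1 - e ≤ (P (oHC p l (l + K * n) b (b + (n + 1)))).toReal := by
  obtain ⟨d1, N, hd1, hN, hbig⟩ := big K hK (min e 1) (lt_min he one_pos) (min_le_right _ _)
  have hKN : (0 : ℝ) < K * N + 1 := by
    have h1 : (1 : ℝ) ≤ K := by exact_mod_cast hK
    have h2 : (1 : ℝ) ≤ N := by exact_mod_cast hN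
    nlinarith
  refine ⟨min d1 ((e / (K * N + 1)) ^ (N.toNat)), lt_min hd1 (by positivity),
    fun p n h0 h1 hn hph l b => ?_⟩
  by_cases hc : N ≤ n
  · have h2 : 1 - d1 ≤ ph p n := by
      have := min_le_left d1 ((e / (K * N + 1)) ^ (N.toNat))
      linarith
    have h3 := hbig p n hc h2 l b
    have h4 := min_le_left e 1
    linarith
  · have hKn : 1 ≤ K * n := by
      have : 0 < K * n := mul_pos (by omega) (by omega)
      omega
    have h2 := row_small (m := K * n) (h := n + 1) h0 h1 hKn (by omega) l b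
    have h3 := ph_small (n := n) h0 h1
    have h4 : (1 - p) ^ (N.toNat) ≤ (1 - p) ^ ((n + 1).toNat) :=
      pow_le_pow_of_le_one (by linarith) (by linarith) (by omega)
    have h5 : (1 - p) ^ (N.toNat) ≤ (e / (K * N + 1)) ^ (N.toNat) := by
      have := min_le_right d1 ((e / (K * N + 1)) ^ (N.toNat))
      linarith
    have h6 : 1 - p ≤ e / (K * N + 1) :=
      le_of_pow_le_pow_left₀ (by omega) (by positivity) h5
    rw [le_div_iff₀ hKN] at h6
    have h7 : ((K * n : ℤ) : ℝ) ≤ K * N := by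
      have : K * n ≤ K * N := mul_le_mul_of_nonneg_left (by omega) (by omega)
      exact_mod_cast this
    have h8 : (((K * n : ℤ) : ℝ) + 1) * (1 - p) ≤ (K * N + 1) * (1 - p) :=
      mul_le_mul_of_nonneg_right (by linarith) (by linarith)
    linarith

end Pool.Agent.TriPerc
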