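import Pool.Agent.TriPerc.HiB

/-!
# Subcritical rhombus crossings: no arms and no crossings at larger scales

* `flip_lev`: `P {w | Q (Cl p w ∩ s)} = P {w | Q (Op (1 - p) w ∩ s)}` for finite `s`.  PROOF:
  `mp_flip`, `ae_label` (almost surely no label equals `p`), measurability by `ev_op`; see the
  private lemma `flip` in `RswF.lean`.
* `ph_dual`: `P (cPH p 0 n 0 n) = 1 - ph p n` for `1 ≤ n`: by `par_or`, `par_not` the
  complement of `oPH p 0 n 0 n` is the set of `w` with `PV (Cl p w) 0 n 0 n` (`cl_compl`), and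
  the reflection `swp` turns `PV` into `PH` (`join_preimage`, `mp_comp`).
* `ph_mono`: `ph p n ≤ ph q n` for `p ≤ q`.  `ph_half`: `1 / 2 ≤ ph (1 / 2) n` (`half`).
* `hi_arm`: for every `e > 0` there is `d > 0` such that `0 ≤ p ≤ 1`, `1 ≤ n`, `ph p n ≤ d`,
  `n + 1 ≤ m ≤ 4096 n` imply `P {Arm (Op p w) 0 m (2 m)} ≤ e`.  PROOF.
  `d` from `hi_long` with `K = 8 * 4096` and `e / 6`, applied to the level `1 - p`:
  `ph (1 - p) n = P (oPH (1 - p) 0 n 0 n) = P (cPH p 0 n 0 n) = 1 - ph p n ≥ 1 - d`.  So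
  `P (cHC p l (l + K n) b (b + (n + 1))) ≥ 1 - e / 6` for all `l`, `b` (`flip_lev`), and
  `P (cHC p (-2 (2 m)) (2 (2 m)) m (2 m)) ≥ 1 - e / 6` (`hc_sub`, `hc_wide`; `8 m ≤ K n`, `n + 1 ≤ m`).
  By `six` (with `O = Cl p w`) an open arm across `Ann 0 m (2 m)` implies that in one of the six
  frames this crossing does not exist; each frame has probability `≤ e / 6` (`frame`-type
  invariance under `fr 0 k`, see `circ_closed` in `RswC.lean`).
* `hi_ph`: for every `e > 0` there is `d > 0` such that `0 ≤ p ≤ 1`, `1 ≤ n`, `ph p n ≤ d`,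
  `n ≤ m ≤ 4096 n` imply `ph p m ≤ e`.  PROOF.  `m = n`: `d ≤ e`.  Let `n + 1 ≤ m`.  As in
  `hi_arm` rectangles of width `K n`, height `n + 1` have closed horizontal crossings with
  probability `≥ 1 - e`.  The parallelogram `Par 0 m 0 (n + 1)` is crossed from left to right by a
  closed path if `Rec (-1) (-1 + K n) 0 (n + 1)` is crossed horizontally (the path starts at
  `X ≤ 0`, row `≥ 0`, so `v.1 ≤ 0`, and ends at `X ≥ K n - 2 ≥ 2 m + n + 1`, so `v.1 ≥ m`; cut it at the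
  last visit of `{v.1 ≤ 0}` and the first visit of `{m ≤ v.1}`).  Hence
  `P {PH (Cl p w) 0 m 0 (n + 1)} ≥ 1 - e`, so `P {PH (Cl p w) 0 m 0 m} ≥ 1 - e`, and
  `ph_dual` for `m`.
-/

namespace Pool.Agent.TriPerc

open MeasureTheory Set

private theorem ph_of_conn {S : Set V} {l r b t : ℤ} {u v : V}
    (h : Conn (S ∩ {z | b ≤ z.2 ∧ z.2 ≤ t}) u v) (hu : u.1 ≤ l)
    (hv : r ≤ v.1) (hbt : l ≤ r) : PH S l r b t := by
  have one : ∀ z, z ∈ S ∩ {z : V | b ≤ z.2 ∧ z.2 ≤ t} → z.1 ≤ l → r ≤ z.1 →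
      PH S l r b t := by
    intro z hz h1 h2
    exact ⟨z, h1, z, h2, Conn.refl ⟨hz.1, by omega, by omega, hz.2.1, hz.2.2⟩⟩
  by_cases hvl : v.1 ≤ l
  · exact one v h.right hvl hv
  obtain ⟨x, y, hx, hy, hxy, h1, h2⟩ := h.last (A := {z | z.1 ≤ l}) hu hvl
  replace hx : x.1 ≤ l := hx
  replace hy : ¬ y.1 ≤ l := hy
  have e1 := abs_le.1 hxy.abs.1
  by_cases hxr : r ≤ x.1
  · exact one x h1.right hx hxr
  have hc : Conn ((S ∩ {z : V | b ≤ z.2 ∧ z.2 ≤ t}) ∩ {z | l ≤ z.1}) x v := by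
    have hxS : x ∈ (S ∩ {z : V | b ≤ z.2 ∧ z.2 ≤ t}) ∩ {z | l ≤ z.1} :=
      ⟨h1.right, by show l ≤ x.1; omega⟩
    have hyS : y ∈ (S ∩ {z : V | b ≤ z.2 ∧ z.2 ≤ t}) ∩ {z | l ≤ z.1} :=
      ⟨h2.left.1, by show l ≤ y.1; omega⟩
    refine (Conn.of_adj hxS hyS hxy).trans (h2.mono ?_)
    rintro z ⟨hz, hz'⟩
    replace hz' : ¬ z.1 ≤ l := hz'
    exact ⟨hz, by show l ≤ z.1; omega⟩
  obtain ⟨x₁, y₁, hx₁, hy₁, hxy₁, h3, h4⟩ := hc.exit (A := {z | z.1 ≤ r - 1})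
    (by show x.1 ≤ r - 1; omega) (by show ¬ v.1 ≤ r - 1; omega)
  replace hx₁ : x₁.1 ≤ r - 1 := hx₁
  replace hy₁ : ¬ y₁.1 ≤ r - 1 := hy₁
  have e2 := abs_le.1 hxy₁.abs.1
  obtain ⟨⟨k1, k2, k3⟩, k4⟩ := h4.left
  replace k4 : l ≤ y₁.1 := k4
  obtain ⟨⟨⟨j1, j2, j3⟩, j4⟩, -⟩ := h3.right
  replace j4 : l ≤ x₁.1 := j4
  refine ⟨x, hx, y₁, by show r ≤ y₁.1; omega, Conn.trans (h3.mono ?_)
    (Conn.of_adj ⟨j1, j4, by omega, j2, j3⟩ ⟨k1, k4, by omega, k2, k3⟩ hxy₁)⟩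
  rintro z ⟨⟨⟨z1, z2, z3⟩, z4⟩, z5⟩
  replace z4 : l ≤ z.1 := z4
  replace z5 : z.1 ≤ r - 1 := z5
  exact ⟨z1, z4, by omega, z2, z3⟩

private theorem flip_set {p : ℝ} {w : Lab} (hw : ∀ v, w v ≠ p) :
    Op (1 - p) (fun v => 1 - w v) = Cl p w := by
  ext v
  have h2 := hw v
  show 1 - w v ≤ 1 - p ↔ p < w v
  constructor
  · intro h
    exact lt_of_le_of_ne (by linarith) (Ne.symm h2)
  · intro h
    linarith

private theorem ph_swp (S : Set V) (n : ℤ) : PH (swp ⁻¹' S) 0 n 0 n ↔ PV S 0 n 0 n := by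
  have e : swp ⁻¹' Par 0 n 0 n = Par 0 n 0 n := by
    ext v
    show (0 ≤ v.2 ∧ v.2 ≤ n ∧ 0 ≤ v.1 ∧ v.1 ≤ n) ↔ (0 ≤ v.1 ∧ v.1 ≤ n ∧ 0 ≤ v.2 ∧ v.2 ≤ n)
    tauto
  have h := join_preimage (S := S ∩ Par 0 n 0 n) (A := {v | v.2 ≤ 0}) (B := {v | n ≤ v.2})
    isAut_swp
  rw [Set.preimage_inter, e] at h
  exact h

theorem flip_lev {s : Set V} (hs : s.Finite) (p : ℝ) (Q : Set V → Prop) :
    P {w : Lab | Q (Cl p w ∩ s)} = P {w : Lab | Q (Op (1 - p) w ∩ s)} := by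
  rw [← mp_flip.measure_preimage (ev_op hs (1 - p) Q).1.nullMeasurableSet]
  refine measure_congr ?_
  filter_upwards [ae_label p] with w hw
  refine propext ?_
  show Q (Cl p w ∩ s) ↔ Q (Op (1 - p) (fun v => 1 - w v) ∩ s)
  rw [flip_set fun v => (hw.1 v).2.2]

theorem ph_dual {p : ℝ} {n : ℤ} (hn : 1 ≤ n) : (P (cPH p 0 n 0 n)).toReal = 1 - ph p n := by
  have h1 : (oPH p 0 n 0 n)ᶜ = {w | PV (Cl p w) 0 n 0 n} := by
    ext w
    show ¬ PH (Op p w) 0 n 0 n ↔ PV (Cl p w) 0 n 0 n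
    rw [cl_compl]
    constructor
    · intro hw
      exact (par_or (Op p w) (by omega) (by omega)).resolve_left hw
    · intro hw hw'
      exact par_not (Op p w) (by omega) (by omega) ⟨hw', hw⟩
  have h2 : P {w | PV (Cl p w) 0 n 0 n} = P (cPH p 0 n 0 n) := by
    rw [← (mp_comp swp).measure_preimage
      (ev_cPH (p := p) (l := 0) (r := n) (b := 0) (t := n)).1.nullMeasurableSet]
    congr 1
    ext w
    exact (ph_swp (Cl p w) n).symm
  rw [← h2, ← h1, prob_compl_eq_one_sub ev_oPH.1,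
    ENNReal.toReal_sub_of_le prob_le_one ENNReal.one_ne_top, ENNReal.toReal_one]
  rfl

theorem ph_mono {p q : ℝ} {n : ℤ} (h : p ≤ q) : ph p n ≤ ph q n := by
  refine ENNReal.toReal_mono (measure_ne_top P _) (measure_mono fun w hw => ?_)
  exact Join.mono hw (Set.inter_subset_inter_left _ (op_mono h w)) subset_rfl subset_rfl

theorem ph_half {n : ℤ} (hn : 0 ≤ n) : 1 / 2 ≤ ph (1 / 2) n := by
  have h1 := ENNReal.toReal_mono (measure_ne_top P _) (half hn)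
  have h2 : ((1 : ENNReal) / 2).toReal = 1 / 2 := by simp
  rw [h2] at h1
  exact h1

/-- closed crossings of long rectangles -/
private theorem hi_closed (e : ℝ) (he : 0 < e) : ∃ d : ℝ, 0 < d ∧ ∀ (p : ℝ) (n : ℤ), 0 ≤ p →
    p ≤ 1 → 1 ≤ n → ph p n ≤ d → ∀ l b : ℤ,
    1 - e ≤ (P (cHC p l (l + 32768 * n) b (b + (n + 1)))).toReal := by
  obtain ⟨d, hd, h⟩ := hi_long 32768 (by norm_num) e he
  refine ⟨d, hd, fun p n h0 h1 hn hp l b => ?_⟩
  have e1 : P (cHC p l (l + 32768 * n) b (b + (n + 1))) =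
      P (oHC (1 - p) l (l + 32768 * n) b (b + (n + 1))) :=
    flip_lev (finite_rec _ _ _ _) p fun T => Join T {v | X v ≤ l + 1}
      {v | l + 32768 * n - 1 ≤ X v}
  have e2 : P (cPH p 0 n 0 n) = P (oPH (1 - p) 0 n 0 n) :=
    flip_lev (finite_par _ _ _ _) p fun T => Join T {v | v.1 ≤ 0} {v | n ≤ v.1}
  rw [e1]
  refine h (1 - p) n (by linarith) (by linarith) hn ?_ l b
  have h2 := ph_dual (p := p) hn
  rw [e2] at h2
  change 1 - d ≤ (P (oPH (1 - p) 0 n 0 n)).toReal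
  linarith

theorem hi_arm (e : ℝ) (he : 0 < e) : ∃ d : ℝ, 0 < d ∧ ∀ (p : ℝ) (n m : ℤ), 0 ≤ p → p ≤ 1 →
    1 ≤ n → ph p n ≤ d → n + 1 ≤ m → m ≤ 4096 * n →
    (P {w | Arm (Op p w) 0 m (2 * m)}).toReal ≤ e := by
  obtain ⟨d, hd, h⟩ := hi_closed (e / 6) (by positivity)
  refine ⟨d, hd, fun p n m h0 h1 hn hp hnm hm => ?_⟩
  have h2 := h p n h0 h1 hn hp (-2 * (2 * m)) m
  have h3 : 1 - e / 6 ≤ (P (cHC p (-2 * (2 * m)) (2 * (2 * m)) m (2 * m))).toReal := by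
    refine h2.trans (ENNReal.toReal_mono (measure_ne_top P _) (measure_mono fun w hw => ?_))
    exact hc_wide le_rfl (by omega) (hc_sub le_rfl (by omega) (by omega) hw)
  have h4 : ∀ k : Fin 6, (P {w | ¬ HC {v | (fr 0 k).symm v ∈ Cl p w} (-2 * (2 * m))
      (2 * (2 * m)) m (2 * m)}).toReal ≤ e / 6 := by
    intro k
    have h5 : P {w | ¬ HC {v | (fr 0 k).symm v ∈ Cl p w} (-2 * (2 * m))
        (2 * (2 * m)) m (2 * m)} = P (cHC p (-2 * (2 * m)) (2 * (2 * m)) m (2 * m))ᶜ :=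
      (mp_comp (fr 0 k).symm).measure_preimage ev_cHC.1.compl.nullMeasurableSet
    rw [h5, prob_compl_eq_one_sub ev_cHC.1,
      ENNReal.toReal_sub_of_le prob_le_one ENNReal.one_ne_top, ENNReal.toReal_one]
    linarith
  have h6 : {w | Arm (Op p w) 0 m (2 * m)} ⊆ ⋃ k : Fin 6,
      {w | ¬ HC {v | (fr 0 k).symm v ∈ Cl p w} (-2 * (2 * m)) (2 * (2 * m)) m (2 * m)} := by
    intro w hw
    by_contra hcon
    rw [Set.mem_iUnion] at hcon
    refine six (O := Cl p w) (z := 0) (n := m) (m := 2 * m) (by omega) (by omega)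
      (fun k hk => ?_) ?_
    · by_contra hc
      exact hcon ⟨⟨k, hk⟩, hc⟩
    · rw [cl_compl, compl_compl]
      exact hw
  have h7 : P {w | Arm (Op p w) 0 m (2 * m)} ≤ ∑ k : Fin 6,
      P {w | ¬ HC {v | (fr 0 k).symm v ∈ Cl p w} (-2 * (2 * m)) (2 * (2 * m)) m (2 * m)} :=
    (measure_mono h6).trans (measure_iUnion_fintype_le _ _)
  have h8 := ENNReal.toReal_mono (ENNReal.sum_ne_top.2 fun k _ => measure_ne_top P _) h7
  rw [ENNReal.toReal_sum fun k _ => measure_ne_top P _] at h8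
  refine h8.trans ((Finset.sum_le_sum fun k _ => h4 k).trans ?_)
  rw [Finset.sum_const, Finset.card_univ, Fintype.card_fin, nsmul_eq_mul]
  push_cast
  linarith

theorem hi_ph (e : ℝ) (he : 0 < e) : ∃ d : ℝ, 0 < d ∧ ∀ (p : ℝ) (n m : ℤ), 0 ≤ p → p ≤ 1 →
    1 ≤ n → ph p n ≤ d → n ≤ m → m ≤ 4096 * n → ph p m ≤ e := by
  obtain ⟨d, hd, h⟩ := hi_closed e he
  refine ⟨min d e, lt_min hd he, fun p n m h0 h1 hn hp hnm hm => ?_⟩
  rcases eq_or_lt_of_le hnm with rfl | hlt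
  · exact hp.trans (min_le_right _ _)
  · have h2 := h p n h0 h1 hn (hp.trans (min_le_left _ _)) (-1) 0
    have h3 : 1 - e ≤ (P (cPH p 0 m 0 m)).toReal := by
      refine h2.trans (ENNReal.toReal_mono (measure_ne_top P _) (measure_mono fun w hw => ?_))
      obtain ⟨u, hu, v, hv, huv⟩ := hw
      have hu' : 2 * u.1 + u.2 ≤ -1 + 1 := hu
      have hv' : -1 + 32768 * n - 1 ≤ 2 * v.1 + v.2 := hv
      obtain ⟨-, -, -, u3, u4⟩ := huv.left
      obtain ⟨-, -, -, v3, v4⟩ := huv.right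
      refine ph_of_conn (u := u) (v := v) (huv.mono ?_) (by omega) (by omega) (by omega)
      rintro z ⟨hz, -, -, z3, z4⟩
      exact ⟨hz, z3, by omega⟩
    have h4 := ph_dual (p := p) (n := m) (by omega)
    linarith

end Pool.Agent.TriPerc
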