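import Pool.Agent.TriPerc.Rsp

/-!
# Consequences of `Rsw`: single labels, larger scales, thin boxes, frames

* `rsw_lab`: under `Rsw c p N`, `1 ≤ N`, both colours of a vertex have probability at least `c / 2`.
  PROOF.  The rectangle `Rec 0 64 0 1` is crossed horizontally with probability `≥ c`; the path
  starts at a vertex with `0 ≤ X ≤ 1` in the rows `0, 1`: this is `(0, 0)` or `(0, 1)`.  So one of
  them is open: `c ≤ 2 P {w (0, 0) ≤ p} = 2 p` (`unif_Iic` and the law of one label).  For the closed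
  crossing: `c ≤ 2 (1 - p)`.
* `Rsw.down`: the constant may be decreased.
* `rsw_ext`: the scales may be enlarged by a factor `F`.  PROOF.  Take `c'` from `rsp` for
  `K = 200 F` (and `c' ≤ c`).  For `n ≤ F N` let `n' = min n N`, so `1 ≤ n' ≤ N`, `n ≤ F n'`.  A path which
  crosses `Par l' (l' + k) b (b + n')` from left to right, where `2 l' + b + n' ≤ l + 1` and
  `l + 64 n - 1 ≤ 2 (l' + k) + b`, is in the rows `b .. b + n'` and gives
  `HC .. l (l + 64 n) b (b + n)` (`hc_of_conn`, `hc_wide`); choose `l' = (l - b - n') / 2` and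
  `k = 33 n + n' + 4 ≤ 200 F n'`.
* `set_prob`: all vertices of a finite set have the colour `σ` with probability at least
  `(c / 2) ^ card`.  (Induction on the set with `indep`, or `harris_low_fin`.)
* `rspc`: as `rsp`, with the two colours in one statement, for all `0 ≤ n ≤ N` and `0 ≤ k ≤ K (n + 1)`.
  PROOF: for `n ≥ 1` use `rsp` with `2 K`; for `n = 0` the box is a row or a column of at most `K + 1`
  vertices; if all its vertices have the colour `σ` then it is crossed (`conn_row`, `conn_col`);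
  `set_prob`.
* `co_comp`: `Co σ p (w ∘ g) = g ⁻¹' Co σ p w`.  `prob_frame`: from `mp_comp`.
-/

namespace Pool.Agent.TriPerc

open MeasureTheory

variable {c c' p : ℝ} {N N' : ℤ}

private theorem pm {A B : Set Lab} (h : A ⊆ B) : (P A).toReal ≤ (P B).toReal :=
  ENNReal.toReal_mono (measure_ne_top P B) (measure_mono h)

private theorem lab_open (v : V) (h0 : 0 ≤ p) (h1 : p ≤ 1) :
    (P {w : Lab | w v ≤ p}).toReal = p := by
  have h2 : P {w : Lab | w v ≤ p} = unif (Set.Iic p) :=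
    (measurePreserving_eval_infinitePi (fun _ : V => unif) v).measure_preimage
      measurableSet_Iic.nullMeasurableSet
  rw [h2, unif_Iic h0 h1, ENNReal.toReal_ofReal h0]

private theorem meas_lab (v : V) : MeasurableSet {w : Lab | w v ≤ p} :=
  measurable_pi_apply v measurableSet_Iic

private theorem lab_closed (v : V) (h0 : 0 ≤ p) (h1 : p ≤ 1) :
    (P {w : Lab | p < w v}).toReal = 1 - p := by
  have h2 : {w : Lab | p < w v} = {w : Lab | w v ≤ p}ᶜ := by
    ext w
    exact (not_le (a := w v) (b := p)).symm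
  have h3 := probReal_compl_eq_one_sub (μ := P) (meas_lab (p := p) v)
  rw [h2]
  refine h3.trans ?_
  rw [Measure.real, lab_open v h0 h1]

theorem rsw_lab (h : Rsw c p N) (hN : 1 ≤ N) : c / 2 ≤ p ∧ p ≤ 1 - c / 2 := by
  obtain ⟨hc, hc4, hp0, hp1, hr⟩ := h
  obtain ⟨h1, h2⟩ := hr 1 le_rfl hN 0 0
  have key : ∀ S : Set V, HC S 0 (0 + 64 * 1) 0 (0 + 1) → (0, 0) ∈ S ∨ (0, 1) ∈ S := by
    rintro S ⟨u, hu, v, -, hc⟩
    obtain ⟨huS, hu1, hu2, hu3, hu4⟩ := hc.left
    have hu' : X u ≤ 0 + 1 := hu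
    obtain ⟨a, b⟩ := u
    change (0 : ℤ) ≤ 2 * a + b at hu1
    change 2 * a + b ≤ 0 + 1 at hu'
    change 0 ≤ b at hu3
    change b ≤ 0 + 1 at hu4
    have ha : a = 0 := by omega
    subst ha
    rcases (by omega : b = 0 ∨ b = 1) with rfl | rfl
    · exact Or.inl huS
    · exact Or.inr huS
  have h3 : (P (oHC p 0 (0 + 64 * 1) 0 (0 + 1))).toReal ≤
      (P {w : Lab | w (0, 0) ≤ p}).toReal + (P {w : Lab | w (0, 1) ≤ p}).toReal :=
    (pm fun w hw => key _ hw).trans
      (measureReal_union_le (μ := P) {w : Lab | w (0, 0) ≤ p} {w : Lab | w (0, 1) ≤ p})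
  have h4 : (P (cHC p 0 (0 + 64 * 1) 0 (0 + 1))).toReal ≤
      (P {w : Lab | p < w (0, 0)}).toReal + (P {w : Lab | p < w (0, 1)}).toReal :=
    (pm fun w hw => key _ hw).trans
      (measureReal_union_le (μ := P) {w : Lab | p < w (0, 0)} {w : Lab | p < w (0, 1)})
  rw [lab_open _ hp0.le hp1.le, lab_open _ hp0.le hp1.le] at h3
  rw [lab_closed _ hp0.le hp1.le, lab_closed _ hp0.le hp1.le] at h4
  constructor <;> linarith

theorem Rsw.down (h : Rsw c p N) (hc : 0 < c') (hcc : c' ≤ c) (hN : N' ≤ N) : Rsw c' p N' := by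
  obtain ⟨-, hc4, hp0, hp1, hr⟩ := h
  exact ⟨hc, hcc.trans hc4, hp0, hp1, fun n hn hnN l b =>
    ⟨hcc.trans (hr n hn (hnN.trans hN) l b).1, hcc.trans (hr n hn (hnN.trans hN) l b).2⟩⟩

private theorem hc_of_ph' {S : Set V} {l b n n' l' k : ℤ} (hn' : 1 ≤ n') (hnn : n' ≤ n)
    (hl : l' = (l - b - n') / 2) (hk : k = 33 * n + n' + 4)
    (h : PH S l' (l' + k) b (b + n')) : HC S l (l + 64 * n) b (b + n) := by
  obtain ⟨u, hu, v, hv, hc⟩ := h
  obtain ⟨-, -, -, hu3, hu4⟩ := hc.left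
  obtain ⟨-, -, -, hv3, hv4⟩ := hc.right
  have hu' : u.1 ≤ l' := hu
  have hv' : l' + k ≤ v.1 := hv
  refine hc_of_conn (u := u) (v := v) (hc.mono fun z hz => ⟨hz.1, hz.2.2.2.1, ?_⟩) ?_ ?_
    (by omega)
  · have := hz.2.2.2.2
    omega
  · unfold X
    omega
  · unfold X
    omega

theorem rsw_ext (c : ℝ) (hc : 0 < c) (F : ℤ) (hF : 1 ≤ F) : ∃ c' : ℝ, 0 < c' ∧ c' ≤ c ∧
    ∀ (p : ℝ) (N : ℤ), Rsw c p N → Rsw c' p (F * N) := by
  obtain ⟨c1, hc1, hc14, h1⟩ := rsp c hc (200 * F) (by omega)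
  refine ⟨min c1 c, lt_min hc1 hc, min_le_right _ _, fun p N h => ?_⟩
  obtain ⟨-, hc4, hp0, hp1, -⟩ := id h
  refine ⟨lt_min hc1 hc, (min_le_left _ _).trans hc14, hp0, hp1, fun n hn hnN l b => ?_⟩
  have hN : 1 ≤ N := by
    by_contra hcon
    have h2 : N ≤ 0 := by omega
    nlinarith
  have h3 : 1 ≤ min n N := le_min hn hN
  have h4 : n ≤ F * min n N := by
    rcases min_choice n N with h5 | h5
    · rw [h5]
      nlinarith
    · rw [h5]
      exact hnN
  obtain ⟨h5, h6, -, -⟩ := h1 p N h (min n N) h3 (min_le_right _ _) ((l - b - min n N) / 2) b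
    (33 * n + min n N + 4) (by omega) (by nlinarith)
  exact ⟨((min_le_left _ _).trans h5).trans
      (pm fun w hw => hc_of_ph' h3 (min_le_left _ _) rfl rfl hw),
    ((min_le_left _ _).trans h6).trans
      (pm fun w hw => hc_of_ph' h3 (min_le_left _ _) rfl rfl hw)⟩

theorem co_comp (σ : Bool) (p : ℝ) (g : V ≃ V) (w : Lab) :
    Co σ p (fun v => w (g v)) = g ⁻¹' Co σ p w := by
  cases σ <;> rfl

theorem prob_frame (g : V ≃ V) {A : Set Lab} (hA : MeasurableSet A) :
    P {w | (fun v => w (g v)) ∈ A} = P A :=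
  (mp_comp g).measure_preimage hA.nullMeasurableSet

theorem set_prob (h : Rsw c p N) (hN : 1 ≤ N) (σ : Bool) (A : Finset V) :
    (c / 2) ^ A.card ≤ (P {w | (A : Set V) ⊆ Co σ p w}).toReal := by
  classical
  obtain ⟨hc, hc4, hp0, hp1, -⟩ := id h
  obtain ⟨hl1, hl2⟩ := rsw_lab h hN
  have one : ∀ v : V, c / 2 ≤ (P {w : Lab | v ∈ Co σ p w}).toReal := by
    intro v
    cases σ
    · exact (by linarith : c / 2 ≤ 1 - p).trans_eq (lab_closed v hp0.le hp1.le).symm
    · exact hl1.trans_eq (lab_open v hp0.le hp1.le).symm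
  induction A using Finset.induction_on with
  | empty =>
    have e : {w : Lab | ((∅ : Finset V) : Set V) ⊆ Co σ p w} = Set.univ := by
      ext w
      simp
    rw [e, measure_univ]
    simp
  | insert v A hv ih =>
    have e : {w : Lab | ((insert v A : Finset V) : Set V) ⊆ Co σ p w} =
        {w | v ∈ Co σ p w} ∩ {w | (A : Set V) ⊆ Co σ p w} := by
      ext w
      change ((insert v A : Finset V) : Set V) ⊆ Co σ p w ↔
        v ∈ Co σ p w ∧ (A : Set V) ⊆ Co σ p w
      rw [Finset.coe_insert, Set.insert_subset_iff]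
    have e1 : {w : Lab | v ∈ Co σ p w} = {w | v ∈ Co σ p w ∩ {v}} := by
      ext w
      exact ⟨fun hw => ⟨hw, rfl⟩, fun hw => hw.1⟩
    have e2 : {w : Lab | (A : Set V) ⊆ Co σ p w} =
        {w | (A : Set V) ⊆ Co σ p w ∩ (A : Set V)} := by
      ext w
      exact ⟨fun hw a ha => ⟨hw ha, ha⟩, fun hw a ha => (hw ha).1⟩
    have i1 : Ev {v} {w : Lab | v ∈ Co σ p w} := by
      rw [e1]
      exact ev_co (Set.finite_singleton v) σ p (fun T => v ∈ T)
    have i2 : Ev (A : Set V) {w : Lab | (A : Set V) ⊆ Co σ p w} := by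
      rw [e2]
      exact ev_co A.finite_toSet σ p (fun T => (A : Set V) ⊆ T)
    have hd : Disjoint ({v} : Set V) (A : Set V) := by
      rw [Set.disjoint_singleton_left]
      exact fun h' => hv h'
    rw [e, indep i1 i2 hd, ENNReal.toReal_mul, Finset.card_insert_of_notMem hv, pow_succ,
      mul_comm]
    exact mul_le_mul (one v) ih (by positivity) ENNReal.toReal_nonneg

private theorem ph_row {S : Set V} {l b k : ℤ} (hk : 0 ≤ k)
    (h : ∀ a, l ≤ a → a ≤ l + k → (a, b) ∈ S) : PH S l (l + k) b (b + 0) := by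
  refine ⟨(l, b), le_refl l, (l + k, b), le_refl (l + k), conn_row fun a h1 h2 => ?_⟩
  rw [min_eq_left (by omega)] at h1
  rw [max_eq_right (by omega)] at h2
  exact ⟨h a h1 h2, h1, h2, le_refl b, by
    change b ≤ b + 0
    omega⟩

private theorem pv_col {S : Set V} {l b k : ℤ} (hk : 0 ≤ k)
    (h : ∀ a, b ≤ a → a ≤ b + k → (l, a) ∈ S) : PV S l (l + 0) b (b + k) := by
  refine ⟨(l, b), le_refl b, (l, b + k), le_refl (b + k), conn_col fun a h1 h2 => ?_⟩
  rw [min_eq_left (by omega)] at h1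
  rw [max_eq_right (by omega)] at h2
  exact ⟨h a h1 h2, le_refl l, by
    change l ≤ l + 0
    omega, h1, h2⟩

theorem rspc (c : ℝ) (hc : 0 < c) (K : ℤ) (hK : 1 ≤ K) : ∃ c' : ℝ, 0 < c' ∧ c' ≤ 1 / 4 ∧
    ∀ (p : ℝ) (N : ℤ), Rsw c p N → 1 ≤ N → ∀ n : ℤ, 0 ≤ n → n ≤ N → ∀ (σ : Bool) (l b k : ℤ),
    0 ≤ k → k ≤ K * (n + 1) →
    c' ≤ (P {w | PH (Co σ p w) l (l + k) b (b + n)}).toReal ∧
    c' ≤ (P {w | PV (Co σ p w) l (l + n) b (b + k)}).toReal := by
  classical
  obtain ⟨c1, hc1, hc14, h1⟩ := rsp c hc (2 * K) (by omega)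
  refine ⟨min c1 ((c / 2) ^ (K + 1).toNat), lt_min hc1 (by positivity),
    (min_le_left _ _).trans hc14, fun p N h hN n hn hnN σ l b k hk hkn => ?_⟩
  rcases (by omega : n = 0 ∨ 1 ≤ n) with rfl | hn1
  · have hc4 : c / 2 ≤ 1 := by linarith [h.2.1]
    have key : ∀ A : Finset V, A.card ≤ (K + 1).toNat →
        min c1 ((c / 2) ^ (K + 1).toNat) ≤ (P {w | (A : Set V) ⊆ Co σ p w}).toReal :=
      fun A hA => ((min_le_right _ _).trans
        (pow_le_pow_of_le_one (by positivity) hc4 hA)).trans (set_prob h hN σ A)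
    constructor
    · refine (key ((Finset.Icc l (l + k)).image fun a => (a, b)) ?_).trans (pm ?_)
      · refine Finset.card_image_le.trans ?_
        rw [Int.card_Icc]
        omega
      · intro w hw
        exact ph_row hk fun a h2 h3 => hw (Finset.mem_coe.2
          (Finset.mem_image.2 ⟨a, Finset.mem_Icc.2 ⟨h2, h3⟩, rfl⟩))
    · refine (key ((Finset.Icc b (b + k)).image fun a => (l, a)) ?_).trans (pm ?_)
      · refine Finset.card_image_le.trans ?_
        rw [Int.card_Icc]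
        omega
      · intro w hw
        exact pv_col hk fun a h2 h3 => hw (Finset.mem_coe.2
          (Finset.mem_image.2 ⟨a, Finset.mem_Icc.2 ⟨h2, h3⟩, rfl⟩))
  · obtain ⟨h2, h3, h4, h5⟩ := h1 p N h n hn1 hnN l b k hk (by nlinarith)
    cases σ
    · exact ⟨(min_le_left _ _).trans h3, (min_le_left _ _).trans h5⟩
    · exact ⟨(min_le_left _ _).trans h2, (min_le_left _ _).trans h4⟩

end Pool.Agent.TriPerc
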