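import Pool.Agent.TriPerc.LocP
import Pool.Agent.TriPerc.Ring
import Pool.Agent.TriPerc.RspB

/-!
# Landing on the ring of a square, from inside (`ε = 1`) or from outside (`ε = -1`)

`gg ε k` is the frame of side `k`: an involution which preserves the lattice and `sn`, and maps
`(ε * sg k * τ, -(ε * q))` to `pt k τ q`.  In this frame the side `k` of the ring of radius `q` is in the row
`-(ε * q)`, the region of the arms (`sn ≤ q` for `ε = 1`, `sn ≥ q` for `ε = -1`) is above this row, and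
the counterclockwise direction is the direction `s = ε * sg k` of the bottom row.
`R` is the region of the arms: `0 ≤ ε * (q - sn v)` for all `v ∈ R`, and `R` contains all `v` with
`0 ≤ ε * (q - sn v) ≤ h`.  `Far ε T R q y`: `y` is joined in `T ∩ R` to a vertex `z` with
`ε * (q - sn z) ≥ q / 2`.

* `gg_box`: the image of the box `Par (x - h) (x + h) (-(ε q)) (-(ε q) + h)` is in the region
  `0 ≤ ε (q - sn) ≤ h` (for `ε = 1`: `|v.1| ≤ q - 2`, `-q ≤ v.2 ≤ -q + h ≤ 0`; for `ε = -1`: `sn = v.2`).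
* `fst_ring`: let `y = pt k τ q` and `e` be ring vertices, `Far` in `T` resp. in `Tᶜ`, and let no vertex of
  the `T`-cluster of `y` on the ring be strictly between `e` and `y`.  Then in the frame of the side `k`
  the vertex `(a, b)`, `a = ε sg k τ`, `b = -(ε q)`, is the first vertex (`Fst`) in every box of centre `x`,
  `4 |a - x| ≤ h`, `|x| + h + 2 ≤ q`.
  PROOF.  Write `D` for the box, `T'` for the preimage of `T`.
  (i) Exit: let `y1` be a vertex of the bottom row of `D`, with `gg y1` joined in `T ∩ R` to `z`, `Far`.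
  As `h < q / 2`, `z` is not in the image of `D`.  Take the first exit (`Conn.exit`) of the path from
  `D`: `x1 ∈ D`, `y2 ∉ D`, adjacent, `gg y2 ∈ R`.  Then `x1 ∈ Tp`: for `ε = 1` because `y2.2 ≥ -q`; for
  `ε = -1` because `y2.2 = q - 1` would imply `|y2.1| ≤ |x| + h + 1 ≤ q - 1` and `sn < q`.
  So `y1` is joined to `Tp` in `T' ∩ D`.  The same for `Tᶜ` and `e`.
  (ii) Let `v ∈ Lp` be joined to `(a, b)` in `T' ∩ D`.  The ring vertex `gg v = pt k τv q`,
  `τv = ε sg k v.1 < τ`, is joined to `y` in `T ∩ R` (`gg_box`), its key `2 q k + τv + q` (`kq_pt`) is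
  smaller than the key of `y`.  By hypothesis not `Btw (key e) (key v) (key y)`, so
  `key v ≤ key e ≤ key y`, with strict inequalities because `e` has the other colour
  (`e ≠ gg v`, `e ≠ y`, `kq_inj`).  Hence `e = pt k τe q` with `τv < τe < τ` (`kq_inj`: this vertex has the
  same key), so `gg⁻¹ e` is in the bottom row of `D` between `v` and `(a, b)`.  It is joined to a vertex
  `z1 ∈ Tp` in `T'ᶜ ∩ D` by (i).  `v` and `(a, b)` are joined in `T' ∩ D`.  The keys on the rim of `D` are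
  interlaced: `z1` is not on the bottom row, or it is a corner, different from `v` and `(a, b)`.
  Contradiction to `no_box'`.
* `BadR`: some box on one of the four sides is bad (`BadL`), or there is an arm of some colour
  from distance `4 h` to distance `q / 4` from one of the four corners.
* `lnd_pt`: outside `BadR` a ring vertex which is `Far` is at distance `> 2 h` from the corners.  PROOF:
  `ring_pt`: `y = pt k τ q`; if `|τ| + 2 h ≥ q` let `e = pt k (± q) q` be the corner on the side of `τ`; then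
  `nrm (y - e) ≤ 2 h` (`nrm_pt`), and the end `z` of the path of `y` has
  `sn (z - e) ≥ |sn z - q| ≥ q / 2`: `hit_arm` gives the forbidden arm.
* `lnd_fence`: a landing vertex has a fence.  PROOF: `x = g (a / g)` (so `|a - x| < g`,
  `|x| + h + 2 ≤ q`), `fst_ring`, `w` is not in `BadL` for this box; transport by `gg`:
  `gg ε k (a, y0) = pt k τ (- ε y0)`; `co_comp` (`RspB`) or directly by unfolding `Co`, `Op`, `Cl`.
* `lnd_sep`: two landing vertices on the same side are at distance `> d` (both are in the box with the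
  centre `x` of the first one).
-/

namespace Pool.Agent.TriPerc

open MeasureTheory

/-- The frame of side `k`, outer (`ε = 1`) or inner (`ε = -1`). -/
def gg (ε : ℤ) (k : ℕ) : V ≃ V := if ε = 1 then gf k else neg.trans (gf k)

/-- `y` is joined in `T ∩ R` to a vertex far from the ring of radius `q`. -/
def Far (ε : ℤ) (T R : Set V) (q : ℤ) (y : V) : Prop :=
  ∃ z, Conn (T ∩ R) y z ∧ q / 2 ≤ ε * (q - sn z)

/-- The bad event of the ring of radius `q`. -/
def BadR (ε : ℤ) (p : ℝ) (q h g d : ℤ) (ks : Finset ℤ) : Set Lab :=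
  {w | (∃ k < 4, ∃ x : ℤ, g ∣ x ∧ |x| + h + 2 ≤ q ∧
      (fun v => w (gg ε k v)) ∈ BadL (ε * sg k) p x (-(ε * q)) h d ks) ∨
    ∃ e : V, |e.1| = q ∧ |e.2| = q ∧ ∃ σ : Bool, Arm (Co σ p w) e (4 * h) (q / 4)}

/-- Landing vertex of colour `σ` on the ring of radius `q`. -/
def Lnd (ε : ℤ) (σ : Bool) (p : ℝ) (w : Lab) (R : Set V) (q : ℤ) (y : V) : Prop :=
  Far ε (Co σ p w) R q y ∧
    ∃ e ∈ Rg 0 q, Far ε (Co (!σ) p w) R q e ∧ FirstAft (Co σ p w) R q e y

variable {ε q h g d x τ τ' : ℤ} {k : ℕ} {T R : Set V} {v e y : V} {p : ℝ} {w : Lab}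
  {σ σ' : Bool} {ks : Finset ℤ}

private theorem gg_one (k : ℕ) : gg 1 k = gf k := if_pos rfl

private theorem gg_neg (k : ℕ) : gg (-1) k = neg.trans (gf k) := if_neg (by norm_num)

private theorem neg_apply (v : V) : neg v = -v := rfl

theorem gg_pt (hε : ε = 1 ∨ ε = -1) (hk : k < 4) (τ q : ℤ) :
    gg ε k (ε * sg k * τ, -(ε * q)) = pt k τ q := by
  rw [pt_gf hk]
  rcases hε with rfl | rfl
  · rw [gg_one, one_mul, one_mul]
  · rw [gg_neg, Equiv.trans_apply, neg_apply]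
    congr 1
    ext
    · simp
    · simp

private theorem gg_cases (ε : ℤ) (k : ℕ) : gg ε k = gf k ∨ gg ε k = neg.trans (gf k) := by
  unfold gg
  split_ifs
  · exact Or.inl rfl
  · exact Or.inr rfl

theorem gg_aut (hk : k < 4) : IsAut (gg ε k) := by
  rcases gg_cases ε k with h | h
  · rw [h]
    exact gf_aut hk
  · rw [h]
    exact isAut_neg.trans (gf_aut hk)

theorem gg_sn (hk : k < 4) (x y : V) : sn (gg ε k x - gg ε k y) = sn (x - y) := by
  rcases gg_cases ε k with h | h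
  · rw [h]
    exact gf_sn hk x y
  · rw [h, Equiv.trans_apply, Equiv.trans_apply, gf_sn hk, neg_apply, neg_apply, ← sn_neg]
    congr 1
    abel

theorem gg_inv (hk : k < 4) (v : V) : gg ε k (gg ε k v) = v := by
  rcases gg_cases ε k with h | h
  · rw [h]
    exact gf_invol hk v
  · rw [h, Equiv.trans_apply, Equiv.trans_apply, neg_apply, neg_apply, gf_neg hk v, neg_neg]
    exact gf_invol hk v

theorem gg_zero (hk : k < 4) : gg ε k 0 = 0 := by
  rcases gg_cases ε k with h | h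
  · rw [h]
    exact gf_zero hk
  · rw [h, Equiv.trans_apply, neg_apply, neg_zero]
    exact gf_zero hk

private theorem gg_sn0 (hk : k < 4) (v : V) : sn (gg ε k v) = sn v := by
  have h := gg_sn (ε := ε) hk v 0
  rwa [gg_zero hk, sub_zero, sub_zero] at h

theorem gg_box (hε : ε = 1 ∨ ε = -1) (hk : k < 4) (h0 : 0 ≤ h) (hh : h ≤ q)
    (hx : |x| + h + 2 ≤ q) (hv : v ∈ Par (x - h) (x + h) (-(ε * q)) (-(ε * q) + h)) :
    0 ≤ ε * (q - sn (gg ε k v)) ∧ ε * (q - sn (gg ε k v)) ≤ h := by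
  rw [gg_sn0 hk]
  obtain ⟨h1, h2, h3, h4⟩ := hv
  have hx1 := le_abs_self x
  have hx2 := neg_abs_le x
  have e1 : |v.1| ≤ q - 2 := by
    rw [abs_le]
    constructor <;> omega
  unfold sn
  rcases hε with rfl | rfl
  · rw [one_mul] at h3 h4 ⊢
    have e2 : |v.2| = -v.2 := abs_of_nonpos (by omega)
    rw [e2]
    constructor
    · have : max |v.1| (-v.2) ≤ q := max_le (by omega) (by omega)
      omega
    · have := le_max_right |v.1| (-v.2)
      omega
  · have e2 : |v.2| = v.2 := abs_of_nonneg (by omega)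
    rw [e2]
    have e3 : max |v.1| v.2 = v.2 := max_eq_right (by omega)
    rw [e3]
    constructor <;> omega

/-! ### Interlaced pairs on the rim (copied from `Loc`) -/

private theorem ld_key_bot {l r b t : ℤ} (c : ℤ) : key l r b t (c, b) = c - l := by
  simp [key]

private theorem ld_key_top {l r b t : ℤ} {v : V} (hv : v ∈ Tp l r b t) (h : v.2 ≠ b) :
    r - l < key l r b t v := by
  obtain ⟨⟨h1, h2, h3, h4⟩, h5⟩ := hv
  unfold key
  rw [if_neg h]
  split_ifs <;> omega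

private theorem ld_rim_bot {l r b t : ℤ} (hbt : b < t) {x : ℤ} (h1 : l ≤ x) (h2 : x ≤ r) :
    ((x, b) : V) ∈ Rim l r b t :=
  ⟨⟨h1, h2, le_rfl, hbt.le⟩, Or.inr (Or.inr (Or.inl rfl))⟩

private theorem ld_rim_tp {l r b t : ℤ} {v : V} (hv : v ∈ Tp l r b t) : v ∈ Rim l r b t := by
  refine ⟨hv.1, ?_⟩
  rcases hv.2 with h | h | h
  · exact Or.inl h
  · exact Or.inr (Or.inl h)
  · exact Or.inr (Or.inr (Or.inr h))

private theorem ld_inter {l r b t : ℤ} {A B : Set V} {x1 m1 y1 : ℤ} {z : V} (hbt : b < t)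
    (hd : Disjoint A B) (hx : l ≤ x1) (hxm : x1 < m1) (hmy : m1 < y1) (hy : y1 ≤ r)
    (hA : Conn (A ∩ Par l r b t) (x1, b) (y1, b)) (hB : Conn (B ∩ Par l r b t) (m1, b) z)
    (hz : z ∈ Tp l r b t) : False := by
  have hlr : l < r := by omega
  have hzx : z ≠ (x1, b) := by
    rintro rfl
    exact Set.disjoint_left.1 hd hA.left.1 hB.right.1
  have hzy : z ≠ (y1, b) := by
    rintro rfl
    exact Set.disjoint_left.1 hd hA.right.1 hB.right.1
  refine no_box' hlr hbt hd (ld_rim_bot hbt hx (by omega)) (ld_rim_bot hbt (by omega) hy)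
    (ld_rim_bot hbt (by omega) (by omega)) (ld_rim_tp hz) hA hB ?_ ?_ ?_
  · rw [ld_key_bot, ld_key_bot]
    omega
  · rw [ld_key_bot, ld_key_bot]
    omega
  · by_cases h : z.2 = b
    · have hz' : z = (z.1, b) := Prod.ext rfl h
      rw [hz', ld_key_bot, ld_key_bot, ld_key_bot]
      have h1 : z.1 = l ∨ z.1 = r := by
        rcases hz.2 with h2 | h2 | h2
        · exact Or.inl h2
        · exact Or.inr h2
        · exfalso
          omega
      rcases h1 with h1 | h1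
      · left
        have h2 : z.1 ≠ x1 := fun h3 => hzx (by rw [hz', h3])
        omega
      · right
        have h2 : z.1 ≠ y1 := fun h3 => hzy (by rw [hz', h3])
        omega
    · right
      have h1 := ld_key_top hz h
      rw [ld_key_bot]
      omega

private theorem ld_inter_s {l r b t s : ℤ} {A B : Set V} {x1 m1 y1 : ℤ} {z : V}
    (hs : s = 1 ∨ s = -1) (hbt : b < t) (hd : Disjoint A B) (hx : l ≤ x1 ∧ x1 ≤ r)
    (hy : l ≤ y1 ∧ y1 ≤ r) (hxm : s * x1 < s * m1) (hmy : s * m1 < s * y1)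
    (hA : Conn (A ∩ Par l r b t) (x1, b) (y1, b)) (hB : Conn (B ∩ Par l r b t) (m1, b) z)
    (hz : z ∈ Tp l r b t) : False := by
  rcases hs with rfl | rfl
  · exact ld_inter hbt hd hx.1 (by omega) (by omega) hy.2 hA hB hz
  · exact ld_inter hbt hd hy.1 (by omega) (by omega) hx.2 hA.symm hB hz

private theorem s_cases (hε : ε = 1 ∨ ε = -1) (k : ℕ) : ε * sg k = 1 ∨ ε * sg k = -1 := by
  rcases hε with rfl | rfl <;> rcases sg_cases k with h | h <;> rw [h] <;> norm_num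

/-- Exit from the box through the three other sides. -/
private theorem ld_exit (hε : ε = 1 ∨ ε = -1) (hk : k < 4) (h16 : 16 ≤ h) (hh : 2 * h + 2 ≤ q)
    (hx : |x| + h + 2 ≤ q) (hR1 : ∀ v ∈ R, 0 ≤ ε * (q - sn v)) {c : ℤ} (hc : |c - x| ≤ h)
    (hy : Far ε T R q (gg ε k (c, -(ε * q)))) :
    ∃ z ∈ Tp (x - h) (x + h) (-(ε * q)) (-(ε * q) + h),
      Conn (gg ε k ⁻¹' T ∩ Par (x - h) (x + h) (-(ε * q)) (-(ε * q) + h)) (c, -(ε * q)) z := by
  obtain ⟨z, hz, hzf⟩ := hy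
  obtain ⟨b, hb⟩ : ∃ b, b = -(ε * q) := ⟨_, rfl⟩
  rw [← hb] at hz ⊢
  have hc' := abs_le.1 hc
  have hconn : Conn (gg ε k ⁻¹' (T ∩ R)) (c, b) (gg ε k z) := by
    rw [conn_preimage (gg_aut hk), gg_inv hk]
    exact hz
  have hcD : ((c, b) : V) ∈ Par (x - h) (x + h) b (b + h) := by
    refine ⟨?_, ?_, le_rfl, ?_⟩
    · change x - h ≤ c
      omega
    · change c ≤ x + h
      omega
    · change b ≤ b + h
      omega
  have hzD : gg ε k z ∉ Par (x - h) (x + h) b (b + h) := by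
    intro h1
    rw [hb] at h1
    have h2 := (gg_box hε hk (by omega) (by omega) hx h1).2
    rw [gg_inv hk] at h2
    omega
  obtain ⟨x1, y2, k1, k2, k3, k4, k5⟩ := hconn.exit hcD hzD
  refine ⟨x1, ⟨k1, ?_⟩, k4.mono ?_⟩
  · have hR := hR1 _ k5.left.2
    rw [gg_sn0 hk] at hR
    by_contra hne
    obtain ⟨p1, p2, p3, p4⟩ := k1
    have q2 : y2.2 < b ∧ x - h ≤ y2.1 ∧ y2.1 ≤ x + h := by
      have hn : ¬ (x - h ≤ y2.1 ∧ y2.1 ≤ x + h ∧ b ≤ y2.2 ∧ y2.2 ≤ b + h) := k2
      unfold Adj at k3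
      omega
    have hx1 := le_abs_self x
    have hx2 := neg_abs_le x
    have hadj2 : y2.2 = b - 1 := by
      unfold Adj at k3
      omega
    rcases hε with rfl | rfl
    · have h1 : |y2.2| ≤ sn y2 := le_max_right _ _
      have h2 := neg_abs_le y2.2
      omega
    · have h1 : sn y2 ≤ q - 1 := by
        unfold sn
        exact max_le (abs_le.2 ⟨by omega, by omega⟩) (abs_le.2 ⟨by omega, by omega⟩)
      omega
  · rintro v ⟨⟨h1, -⟩, h2⟩
    exact ⟨h1, h2⟩

theorem fst_ring (hε : ε = 1 ∨ ε = -1) (hk : k < 4) (h16 : 16 ≤ h) (hh : 2 * h + 2 ≤ q)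
    (hx : |x| + h + 2 ≤ q) (hR1 : ∀ v ∈ R, 0 ≤ ε * (q - sn v))
    (hR2 : ∀ v, 0 ≤ ε * (q - sn v) → ε * (q - sn v) ≤ h → v ∈ R)
    (ha : 4 * |ε * sg k * τ - x| ≤ h) (hy : Far ε T R q (pt k τ q)) (he : e ∈ Rg 0 q)
    (hfe : Far ε Tᶜ R q e) (hf : FirstAft T R q e (pt k τ q)) :
    Fst (ε * sg k) (gg ε k ⁻¹' T) (x - h) (x + h) (-(ε * q)) (-(ε * q) + h)
      (ε * sg k * τ) := by
  have hs := s_cases hε k
  have hgp : ∀ τ' : ℤ, gg ε k (ε * sg k * τ', -(ε * q)) = pt k τ' q :=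
    fun τ' => gg_pt hε hk τ' q
  have hexit : ∀ {T : Set V} {c : ℤ}, |c - x| ≤ h → Far ε T R q (gg ε k (c, -(ε * q))) →
      ∃ z ∈ Tp (x - h) (x + h) (-(ε * q)) (-(ε * q) + h),
        Conn (gg ε k ⁻¹' T ∩ Par (x - h) (x + h) (-(ε * q)) (-(ε * q) + h))
          (c, -(ε * q)) z :=
    fun hc hy => ld_exit hε hk h16 hh hx hR1 hc hy
  have hbox : ∀ v ∈ Par (x - h) (x + h) (-(ε * q)) (-(ε * q) + h), gg ε k v ∈ R := by
    intro v hv
    have h1 := gg_box hε hk (by omega) (by omega) hx hv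
    exact hR2 _ h1.1 h1.2
  generalize ε * sg k = s at *
  generalize -(ε * q) = b at *
  have ha' : |s * τ - x| ≤ h / 4 := by omega
  have ha2 := abs_le.1 ha'
  have hx1 := le_abs_self x
  have hx2 := neg_abs_le x
  refine ⟨hexit (by omega) (by rw [hgp]; exact hy), ?_⟩
  rintro v ⟨v1, v2, v3, v4⟩ hv
  obtain ⟨τv, hτv⟩ : ∃ τv, v.1 = s * τv := by
    rcases hs with rfl | rfl
    · exact ⟨v.1, by ring⟩
    · exact ⟨-v.1, by ring⟩
  have hvv : v = (s * τv, b) := Prod.ext hτv v1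
  have hlt : τv < τ := by
    rw [hτv] at v4
    rcases hs with rfl | rfl <;> omega
  have hτq : |τ| < q := by
    rw [abs_lt]
    rcases hs with rfl | rfl <;> constructor <;> omega
  have hτvq : |τv| < q := by
    rw [hτv] at v2 v3
    rw [abs_lt]
    rcases hs with rfl | rfl <;> constructor <;> omega
  have hkey := kq_pt hk hτq
  have hkeyv := kq_pt hk hτvq
  have hrg : ∀ τ', |τ'| < q → pt k τ' q ∈ Rg 0 q := by
    intro τ' hτ'
    change sn (pt k τ' q - 0) = q
    rw [sub_zero]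
    exact sn_pt hk hτ'.le
  have hconn : Conn (T ∩ R) (pt k τ q) (pt k τv q) := by
    rw [← hgp τ, ← hgp τv, ← conn_preimage (gg_aut hk), ← hvv]
    refine hv.mono ?_
    rintro u ⟨hu1, hu2⟩
    exact ⟨hu1, hbox u hu2⟩
  have hnb := hf _ (hrg τv hτvq) hconn
  have heT : e ∉ T := by
    obtain ⟨z, hz, -⟩ := hfe
    exact hz.left.1
  have hq0 : 0 < q := by omega
  have n1 : kq 0 q e ≠ kq 0 q (pt k τv q) := by
    intro h1
    have h2 := kq_inj hq0 he (hrg τv hτvq) h1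
    exact heT (h2 ▸ hconn.right.1)
  have n2 : kq 0 q e ≠ kq 0 q (pt k τ q) := by
    intro h1
    have h2 := kq_inj hq0 he (hrg τ hτq) h1
    exact heT (h2 ▸ hconn.left.1)
  unfold Btw at hnb
  rw [hkey] at hnb n2
  rw [hkeyv] at hnb n1
  obtain ⟨τe, hτe⟩ : ∃ τe, kq 0 q e = 2 * q * k + τe + q :=
    ⟨kq 0 q e - 2 * q * k - q, by ring⟩
  rw [hτe] at hnb n1 n2
  have hb1 : τv < τe ∧ τe < τ := by
    constructor <;> omega
  have hτeq : |τe| < q := by
    rw [abs_lt] at hτq hτvq ⊢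
    constructor <;> omega
  have hee : e = pt k τe q := by
    apply kq_inj hq0 he (hrg τe hτeq)
    rw [hτe, kq_pt hk hτeq]
  have hce : |s * τe - x| ≤ h := by
    rw [hτv] at v2 v3
    rw [abs_le]
    rcases hs with rfl | rfl <;> constructor <;> omega
  obtain ⟨z, hz, hzc⟩ := hexit (T := Tᶜ) hce (by rw [hgp, ← hee]; exact hfe)
  rw [hvv] at hv
  refine ld_inter_s (A := gg ε k ⁻¹' T) (B := gg ε k ⁻¹' Tᶜ) hs (by omega) ?_
    (x1 := s * τv) (y1 := s * τ) (m1 := s * τe) ⟨by omega, by omega⟩ ⟨by omega, by omega⟩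
    ?_ ?_ hv.symm hzc hz
  · rw [Set.disjoint_left]
    intro u hu hu'
    exact hu' hu
  · rcases hs with rfl | rfl <;> omega
  · rcases hs with rfl | rfl <;> omega

private theorem ld_snsub (u v : V) : |sn u - sn v| ≤ sn (u - v) := by
  have h1 := sn_add (u - v) v
  have h2 := sn_add (v - u) u
  rw [sub_add_cancel] at h1 h2
  have h3 : sn (v - u) = sn (u - v) := by rw [← sn_neg, neg_sub]
  rw [abs_le]
  constructor <;> omega

private theorem pt_corner (hk : k < 4) {q c : ℤ} (hq : 0 < q) (hc : c = q ∨ c = -q) :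
    |(pt k c q).1| = q ∧ |(pt k c q).2| = q := by
  have h4 : k = 0 ∨ k = 1 ∨ k = 2 ∨ k = 3 := by omega
  have a1 : |q| = q := abs_of_pos hq
  have a2 : |-q| = q := by rw [abs_neg, a1]
  have a3 : |c| = q := by
    rcases hc with rfl | rfl
    · exact a1
    · exact a2
  have a4 : |-c| = q := by rw [abs_neg, a3]
  rcases h4 with rfl | rfl | rfl | rfl
  · exact ⟨a3, a2⟩
  · exact ⟨a1, a3⟩
  · exact ⟨a4, a1⟩
  · exact ⟨a2, a4⟩

theorem lnd_pt (hε : ε = 1 ∨ ε = -1) (h0 : 1 ≤ h) (hq : 16 * h ≤ q)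
    (hw : w ∉ BadR ε p q h g d ks) (hy : y ∈ Rg 0 q) (hf : Far ε (Co σ p w) R q y) :
    ∃ k < 4, ∃ τ, |τ| + 2 * h < q ∧ y = pt k τ q := by
  obtain ⟨k, hk, τ, hτ, rfl⟩ := ring_pt (by omega) hy
  refine ⟨k, hk, τ, ?_, rfl⟩
  by_contra hcon
  push Not at hcon
  apply hw
  right
  obtain ⟨c, hc, hcτ⟩ : ∃ c, (c = q ∨ c = -q) ∧ |τ - c| ≤ 2 * h := by
    rcases le_total 0 τ with h1 | h1
    · rw [abs_of_nonneg h1] at hτ hcon
      exact ⟨q, Or.inl rfl, abs_le.2 ⟨by omega, by omega⟩⟩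
    · rw [abs_of_nonpos h1] at hτ hcon
      exact ⟨-q, Or.inr rfl, abs_le.2 ⟨by omega, by omega⟩⟩
  have hcorner := pt_corner hk (by omega : 0 < q) hc
  refine ⟨pt k c q, hcorner.1, hcorner.2, σ, ?_⟩
  obtain ⟨z, hz, hzf⟩ := hf
  have hn := nrm_pt hk τ c q q
  rw [sub_self, abs_zero, add_zero] at hn
  have hsn : sn (pt k c q) = q := by
    unfold sn
    rw [hcorner.1, hcorner.2, max_self]
  have h3 := ld_snsub z (pt k c q)
  rw [hsn] at h3
  have h4 : q / 2 ≤ |sn z - q| := by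
    rcases hε with rfl | rfl
    · have := neg_abs_le (sn z - q)
      omega
    · have := le_abs_self (sn z - q)
      omega
  exact hit_arm (hz.mono Set.inter_subset_left) (by omega) (by omega) (by omega)

/-- The box of a landing vertex. -/
private theorem lnd_box (hε : ε = 1 ∨ ε = -1) (k : ℕ) (hg : 2 ≤ g) (hh : h = 8 * g)
    (hτ : |τ| + 2 * h < q) : ∃ x, g ∣ x ∧ |x| + h + 2 ≤ q ∧ |ε * sg k * τ - x| < g := by
  have hs := s_cases hε k
  obtain ⟨a, ha⟩ : ∃ a, a = ε * sg k * τ := ⟨_, rfl⟩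
  have haτ : |a| = |τ| := by
    rw [ha, abs_mul]
    rcases hs with h1 | h1 <;> rw [h1] <;> simp
  rw [← ha]
  refine ⟨g * (a / g), dvd_mul_right _ _, ?_, ?_⟩
  · have h1 := Int.mul_ediv_add_emod a g
    have h2 := Int.emod_nonneg a (by omega : g ≠ 0)
    have h3 := Int.emod_lt_of_pos a (by omega : 0 < g)
    have h4 : |g * (a / g)| ≤ |a| + g := by
      have := le_abs_self a
      have := neg_abs_le a
      rw [abs_le]
      constructor <;> omega
    omega
  · have h1 := Int.mul_ediv_add_emod a g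
    have h2 := Int.emod_nonneg a (by omega : g ≠ 0)
    have h3 := Int.emod_lt_of_pos a (by omega : 0 < g)
    rw [abs_lt]
    constructor <;> omega

/-- A landing vertex is the first one in the boxes round it. -/
private theorem lnd_fst (hε : ε = 1 ∨ ε = -1) (hk : k < 4) (hg : 2 ≤ g) (hh : h = 8 * g)
    (hq : 16 * h ≤ q) (hR1 : ∀ v ∈ R, 0 ≤ ε * (q - sn v))
    (hR2 : ∀ v, 0 ≤ ε * (q - sn v) → ε * (q - sn v) ≤ h → v ∈ R)
    (hx : |x| + h + 2 ≤ q) (ha : 4 * |ε * sg k * τ - x| ≤ h)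
    (hl : Lnd ε σ p w R q (pt k τ q)) :
    Fst (ε * sg k) (Co σ p (fun v => w (gg ε k v))) (x - h) (x + h) (-(ε * q)) (-(ε * q) + h)
      (ε * sg k * τ) := by
  obtain ⟨h1, e, h2, h3, h4⟩ := hl
  rw [co_comp]
  rw [co_not] at h3
  exact fst_ring hε hk (by omega) (by omega) hx hR1 hR2 ha h1 h2 h3 h4

theorem lnd_fence (hε : ε = 1 ∨ ε = -1) (hk : k < 4) (hg : 2 ≤ g) (hh : h = 8 * g)
    (hq : 16 * h ≤ q) (hR1 : ∀ v ∈ R, 0 ≤ ε * (q - sn v))
    (hR2 : ∀ v, 0 ≤ ε * (q - sn v) → ε * (q - sn v) ≤ h → v ∈ R)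
    (hw : w ∉ BadR ε p q h g d ks) (hτ : |τ| + 2 * h < q)
    (hl : Lnd ε σ p w R q (pt k τ q)) :
    ∃ κ ∈ ks, ∃ r : ℤ, |r - (q + 12 * ε * κ)| ≤ 4 * κ ∧
      Conn (Co σ p w ∩ (R ∪ Sq (pt k τ q) (16 * κ))) (pt k τ q) (pt k τ r) := by
  obtain ⟨x, hgx, hxq, hax⟩ := lnd_box hε k hg hh hτ
  have ha4 : 4 * |ε * sg k * τ - x| ≤ h := by omega
  have hF := lnd_fst hε hk hg hh hq hR1 hR2 hxq ha4 hl
  by_contra hcon
  apply hw
  left
  refine ⟨k, hk, x, hgx, hxq, ε * sg k * τ, ha4, σ, hF, Or.inl fun κ hκ hfn => hcon ?_⟩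
  obtain ⟨y, hy1, hy2, hyc⟩ := hfn
  refine ⟨κ, hκ, -(ε * y), ?_, ?_⟩
  · rcases hε with rfl | rfl
    · rw [abs_le]
      constructor <;> omega
    · rw [abs_le]
      constructor <;> omega
  · have e1 : pt k τ (-(ε * y)) = gg ε k (ε * sg k * τ, y) := by
      rw [← gg_pt hε hk]
      congr 2
      rcases hε with rfl | rfl <;> ring
    rw [e1, ← gg_pt hε hk τ q, ← conn_preimage (gg_aut hk)]
    rw [co_comp] at hyc
    refine hyc.mono ?_
    rintro v ⟨hv1, hv2⟩
    refine ⟨hv1, ?_⟩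
    rcases hv2 with hv2 | hv2
    · left
      have h1 := gg_box hε hk (by omega) (by omega) hxq hv2
      exact hR2 _ h1.1 h1.2
    · right
      change sn (gg ε k v - gg ε k (ε * sg k * τ, -(ε * q))) ≤ 16 * κ
      rw [gg_sn hk]
      exact hv2

theorem lnd_sep (hε : ε = 1 ∨ ε = -1) (hk : k < 4) (hg : 2 ≤ g) (hh : h = 8 * g)
    (hq : 16 * h ≤ q) (hR1 : ∀ v ∈ R, 0 ≤ ε * (q - sn v))
    (hR2 : ∀ v, 0 ≤ ε * (q - sn v) → ε * (q - sn v) ≤ h → v ∈ R)
    (hw : w ∉ BadR ε p q h g d ks) (hd : d ≤ g) (hτ : |τ| + 2 * h < q) (hτ' : |τ'| + 2 * h < q)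
    (hl : Lnd ε σ p w R q (pt k τ q)) (hl' : Lnd ε σ' p w R q (pt k τ' q)) (hne : τ ≠ τ') :
    d < |τ - τ'| := by
  by_contra hcon
  push Not at hcon
  obtain ⟨x, hgx, hxq, hax⟩ := lnd_box hε k hg hh hτ
  have ha4 : 4 * |ε * sg k * τ - x| ≤ h := by omega
  have hs := s_cases hε k
  have haa : |ε * sg k * τ' - ε * sg k * τ| = |τ - τ'| := by
    rw [← mul_sub, abs_mul, abs_sub_comm τ τ']
    rcases hs with h1 | h1 <;> rw [h1] <;> simp
  have ha4' : 4 * |ε * sg k * τ' - x| ≤ h := by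
    have h1 := abs_sub_le (ε * sg k * τ') (ε * sg k * τ) x
    omega
  have hF := lnd_fst hε hk hg hh hq hR1 hR2 hxq ha4 hl
  have hF' := lnd_fst hε hk hg hh hq hR1 hR2 hxq ha4' hl'
  apply hw
  left
  refine ⟨k, hk, x, hgx, hxq, ε * sg k * τ, ha4, σ, hF, Or.inr ⟨ε * sg k * τ', σ', ?_, ha4',
    ?_, hF'⟩⟩
  · intro h1
    apply hne
    rcases hs with h2 | h2 <;> rw [h2] at h1 <;> omega
  · rw [haa]
    exact hcon

end Pool.Agent.TriPerc
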