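import Pool.Agent.TriPerc.Arms

/-!
# First vertices on the inner ring

`NC n a`: the vertex `a` of the ring `Rg 0 n` is not near a corner.  `cs T i`: `T` for `i = 0, 2`, `Tᶜ` for
`i = 1, 3`.

* `inner_sep`: let `p, p'` be joined to `a, a'` in `T ∩ SA 0 n m` and `q, q'` to `b, b'` in `Tᶜ ∩ SA 0 n m`,
  where `p, q, p', q'` are on the outer ring with interlaced keys, and `a, b, a', b'` on the inner ring, not
  near the corners.  Then the keys of `a, b, a', b'` on the inner ring are separated.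
  PROOF.  Let `a = pt ka τa n`, put `a⁻ = pt ka τa (n - 1)`; it is adjacent to `a` and to
  `pt ka τa (n - 2) ∈ Sq 0 (n - 2)`; the same for `a', b, b'`.  (1) `a ≠ b` etc. because of the colours;
  `a ≠ a'`: otherwise `p, p'` are joined in `A = T ∩ SA 0 n m`, while `q, q'` are joined in
  `B = (Tᶜ ∩ SA 0 n m) ∪ Sq 0 (n - 1)`: contradiction to `sep_box`.  The same for `b ≠ b'`.
  (2) Suppose the keys are not separated.  The four keys are different; so `b, b'` are on the same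
  open arc between `a` and `a'`.  The cyclic order of `a⁻, a'⁻, b⁻, b'⁻` on the ring `Rg 0 (n - 1)` is the
  same (`kq_pt`: lexicographic order of the pairs `(k, τ)`, as `|τ| < n - 2`).  So one of the two arcs of
  the ring `Rg 0 (n - 1)` between `b⁻` and `b'⁻` (`conn_arc`, `conn_arc'`, `rg_eq`) contains neither `a⁻` nor
  `a'⁻`; call it `α`.  `A = (T ∩ SA 0 n m) ∪ {a⁻, a'⁻} ∪ Sq 0 (n - 2)` and `B = (Tᶜ ∩ SA 0 n m) ∪ α` are
  disjoint, `p, p'` are joined in `A` (via `a, a⁻, Sq 0 (n - 2), a'⁻, a'`) and `q, q'` in `B`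
  (via `b, b⁻, α, b'⁻, b'`): contradiction to `sep_box`.
* `four_first_in`: the analogue of `four_first` for the inner ring.
  PROOF.  `fr_alt` gives `p, p'` typed for `S` and `q, q'` typed for `Sᶜ` with interlaced keys on the outer
  ring.  The ends of their paths are vertices with a neighbour in `Sq 0 (n - 1)`, so they are on
  `Rg 0 n`: `a, a', b, b'`.  By `hc` all ring vertices of these four clusters are `NC`.  For `p` take by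
  `first_ex` the first vertex after `b` of `{v ∈ Rg 0 n | Conn (S ∩ SA 0 n m) p v}`, the same for `p'`; for
  `q, q'` the first one after `a`.  By `inner_sep` the four new vertices have separated keys.  Sort
  them by the key; then the colours alternate: `T` is the colour of the first one.  `x i` is the
  outer vertex (`p, p', q` or `q'`) of the cluster number `i`; `Sep4` of the outer keys is invariant
  under the exchange of `p, p'`, of `q, q'` and of the two pairs.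
-/

namespace Pool.Agent.TriPerc

/-- Not near a corner. -/
def NC (n : ℤ) (a : V) : Prop := ∃ k < 4, ∃ τ, |τ| + 2 < n ∧ a = pt k τ n

/-- Alternating sets. -/
def cs (T : Set V) (i : Fin 4) : Set V := if i = 0 ∨ i = 2 then T else Tᶜ

variable {S T : Set V} {p p' q q' a a' b b' : V} {n m : ℤ}

theorem sep_symm {a b a' b' : ℤ} (h : Sep4 a b a' b') :
    Sep4 a' b a b' ∧ Sep4 a b' a' b ∧ Sep4 b a b' a' := by
  rcases h with ⟨h1, h2⟩ | ⟨h1, h2⟩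
  · refine ⟨Or.inr ⟨h2, h1⟩, Or.inr ⟨h1, h2⟩, Or.inr ⟨?_, ?_⟩⟩
    · unfold Btw at *
      omega
    · unfold Btw at *
      omega
  · refine ⟨Or.inl ⟨h2, h1⟩, Or.inl ⟨h1, h2⟩, Or.inl ⟨?_, ?_⟩⟩
    · unfold Btw at *
      omega
    · unfold Btw at *
      omega

private theorem mem_rg {v : V} {r : ℤ} : v ∈ Rg 0 r ↔ sn v = r := by
  change sn (v - 0) = r ↔ _
  rw [sub_zero]

private theorem mem_sq {v : V} {r : ℤ} : v ∈ Sq 0 r ↔ sn v ≤ r := by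
  change sn (v - 0) ≤ r ↔ _
  rw [sub_zero]

private theorem mem_sa {v : V} {r r' : ℤ} : v ∈ SA 0 r r' ↔ r ≤ sn v ∧ sn v ≤ r' := by
  change r ≤ sn (v - 0) ∧ sn (v - 0) ≤ r' ↔ _
  rw [sub_zero]

private theorem adj_pt {k : ℕ} (hk : k < 4) (τ q : ℤ) : Adj (pt k τ q) (pt k τ (q - 1)) := by
  have h4 : k = 0 ∨ k = 1 ∨ k = 2 ∨ k = 3 := by omega
  rcases h4 with rfl | rfl | rfl | rfl
  · exact Or.inr (Or.inl ⟨rfl, show -(q - 1) = -q + 1 by ring⟩)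
  · exact Or.inr (Or.inr (Or.inr (Or.inl ⟨rfl, rfl⟩)))
  · exact Or.inr (Or.inr (Or.inr (Or.inr (Or.inl ⟨rfl, rfl⟩))))
  · exact Or.inl ⟨show -(q - 1) = -q + 1 by ring, rfl⟩

private theorem lt_pt {k k' : ℕ} {τ τ' n : ℤ} (hk : k < 4) (hk' : k' < 4) (h : |τ| + 2 < n)
    (h' : |τ'| + 2 < n) : (kq 0 n (pt k τ n) < kq 0 n (pt k' τ' n)) ↔
      (kq 0 (n - 1) (pt k τ (n - 1)) < kq 0 (n - 1) (pt k' τ' (n - 1))) := by
  rw [kq_pt hk (by omega), kq_pt hk' (by omega), kq_pt hk (by omega), kq_pt hk' (by omega)]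
  have h1 := abs_lt.1 (show |τ| < n - 2 by omega)
  have h2 := abs_lt.1 (show |τ'| < n - 2 by omega)
  have h4 : k = 0 ∨ k = 1 ∨ k = 2 ∨ k = 3 := by omega
  have h4' : k' = 0 ∨ k' = 1 ∨ k' = 2 ∨ k' = 3 := by omega
  rcases h4 with rfl | rfl | rfl | rfl <;> rcases h4' with rfl | rfl | rfl | rfl <;>
    push_cast <;> omega

/-- two vertices of a ring are joined on the ring avoiding two other vertices which do not
separate them -/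
private theorem arc_ex {r : ℤ} (hr : 0 < r) {u v w w' : V} (hu : u ∈ Rg 0 r) (hv : v ∈ Rg 0 r)
    (h1 : kq 0 r w ≠ kq 0 r u) (h2 : kq 0 r w ≠ kq 0 r v) (h3 : kq 0 r w' ≠ kq 0 r u)
    (h4 : kq 0 r w' ≠ kq 0 r v)
    (hs : ¬ Sep4 (kq 0 r w) (kq 0 r u) (kq 0 r w') (kq 0 r v)) :
    ∃ α : Set V, α ⊆ Rg 0 r ∧ w ∉ α ∧ w' ∉ α ∧ Conn α u v := by
  have hR : Rim ((0 : V).1 - r) ((0 : V).1 + r) ((0 : V).2 - r) ((0 : V).2 + r) = Rg 0 r :=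
    rg_eq hr.le 0
  have hlr : (0 : V).1 - r < (0 : V).1 + r := by omega
  have hbt : (0 : V).2 - r < (0 : V).2 + r := by omega
  have key : ∀ {u v : V}, u ∈ Rg 0 r → v ∈ Rg 0 r → kq 0 r w ≠ kq 0 r u → kq 0 r w ≠ kq 0 r v →
      kq 0 r w' ≠ kq 0 r u → kq 0 r w' ≠ kq 0 r v →
      ¬ Sep4 (kq 0 r w) (kq 0 r u) (kq 0 r w') (kq 0 r v) → kq 0 r u ≤ kq 0 r v →
      ∃ α : Set V, α ⊆ Rg 0 r ∧ w ∉ α ∧ w' ∉ α ∧ Conn α u v := by
    intro u v hu hv h1 h2 h3 h4 hs hle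
    rw [← hR] at hu hv
    have c1 := conn_arc hlr hbt hu hv hle
    have c2 := conn_arc' hlr hbt hu hv hle
    rw [hR] at c1 c2
    by_cases hw : kq 0 r u ≤ kq 0 r w ∧ kq 0 r w ≤ kq 0 r v
    · refine ⟨_, fun x hx => hx.1, ?_, ?_, c2⟩
      · rintro ⟨-, h5⟩
        change kq 0 r w ≤ kq 0 r u ∨ kq 0 r v ≤ kq 0 r w at h5
        omega
      · rintro ⟨-, h5⟩
        change kq 0 r w' ≤ kq 0 r u ∨ kq 0 r v ≤ kq 0 r w' at h5
        refine hs (Or.inr ⟨?_, ?_⟩)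
        · unfold Btw
          omega
        · unfold Btw
          omega
    · refine ⟨_, fun x hx => hx.1, ?_, ?_, c1⟩
      · rintro ⟨-, h5⟩
        exact hw h5
      · rintro ⟨-, h5⟩
        change kq 0 r u ≤ kq 0 r w' ∧ kq 0 r w' ≤ kq 0 r v at h5
        refine hs (Or.inl ⟨?_, ?_⟩)
        · unfold Btw
          omega
        · unfold Btw
          omega
  rcases le_total (kq 0 r u) (kq 0 r v) with hle | hle
  · exact key hu hv h1 h2 h3 h4 hs hle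
  · have hs' : ¬ Sep4 (kq 0 r w) (kq 0 r v) (kq 0 r w') (kq 0 r u) := by
      unfold Sep4 at hs ⊢
      tauto
    obtain ⟨α, a1, a2, a3, a4⟩ := key hv hu h2 h1 h4 h3 hs' hle
    exact ⟨α, a1, a2, a3, a4.symm⟩

private theorem nc_rg {n : ℤ} {a : V} (h : NC n a) : a ∈ Rg 0 n := by
  obtain ⟨k, hk, τ, hτ, rfl⟩ := h
  rw [mem_rg]
  exact sn_pt hk (by omega)

theorem inner_sep (hn : 4 ≤ n) (hnm : n ≤ m) (hp : p ∈ Rg 0 m) (hp' : p' ∈ Rg 0 m)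
    (hq : q ∈ Rg 0 m) (hq' : q' ∈ Rg 0 m)
    (h : Inter (kq 0 m p) (kq 0 m q) (kq 0 m p') (kq 0 m q'))
    (ha : Conn (T ∩ SA 0 n m) p a) (ha' : Conn (T ∩ SA 0 n m) p' a')
    (hb : Conn (Tᶜ ∩ SA 0 n m) q b) (hb' : Conn (Tᶜ ∩ SA 0 n m) q' b')
    (ca : NC n a) (ca' : NC n a') (cb : NC n b) (cb' : NC n b') :
    Sep4 (kq 0 n a) (kq 0 n b) (kq 0 n a') (kq 0 n b') := by
  by_contra hS
  have hm : 0 < m := by omega
  have ra := nc_rg ca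
  have ra' := nc_rg ca'
  have rb := nc_rg cb
  have rb' := nc_rg cb'
  have haT : a ∈ T := ha.right.1
  have haT' : a' ∈ T := ha'.right.1
  have hbT : b ∉ T := hb.right.1
  have hbT' : b' ∉ T := hb'.right.1
  have ne : ∀ {x y : V}, x ∈ T → y ∉ T → x ∈ Rg 0 n → y ∈ Rg 0 n → kq 0 n x ≠ kq 0 n y := by
    intro x y hx hy rx ry h1
    exact hy (kq_inj (by omega) rx ry h1 ▸ hx)
  have n1 := ne haT hbT ra rb
  have n2 := ne haT hbT' ra rb'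
  have n3 := ne haT' hbT ra' rb
  have n4 := ne haT' hbT' ra' rb'
  clear ne
  obtain ⟨ka, hka, τa, hτa, rfl⟩ := ca
  obtain ⟨ka', hka', τa', hτa', rfl⟩ := ca'
  obtain ⟨kb, hkb, τb, hτb, rfl⟩ := cb
  obtain ⟨kb', hkb', τb', hτb', rfl⟩ := cb'
  have e1 := lt_pt hka hkb hτa hτb
  have e2 := lt_pt hkb hka hτb hτa
  have e3 := lt_pt hka hkb' hτa hτb'
  have e4 := lt_pt hkb' hka hτb' hτa
  have e5 := lt_pt hka' hkb hτa' hτb
  have e6 := lt_pt hkb hka' hτb hτa'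
  have e7 := lt_pt hka' hkb' hτa' hτb'
  have e8 := lt_pt hkb' hka' hτb' hτa'
  have e9 := lt_pt hka hka' hτa hτa'
  have e10 := lt_pt hka' hka hτa' hτa
  have e11 := lt_pt hkb hkb' hτb hτb'
  have e12 := lt_pt hkb' hkb hτb' hτb
  have hS1 : ¬ Sep4 (kq 0 (n - 1) (pt ka τa (n - 1))) (kq 0 (n - 1) (pt kb τb (n - 1)))
      (kq 0 (n - 1) (pt ka' τa' (n - 1))) (kq 0 (n - 1) (pt kb' τb' (n - 1))) := by
    unfold Sep4 Btw at hS ⊢
    rw [← e1, ← e2, ← e3, ← e4, ← e5, ← e6, ← e7, ← e8, ← e9, ← e10]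
    exact hS
  have sub : ∀ {k : ℕ} {τ : ℤ}, k < 4 → |τ| + 2 < n → pt k τ (n - 1) ∈ Rg 0 (n - 1) :=
    fun hk hτ => mem_rg.2 (sn_pt hk (by omega))
  have sub2 : ∀ {k : ℕ} {τ : ℤ}, k < 4 → |τ| + 2 < n → pt k τ (n - 2) ∈ Sq 0 (n - 2) :=
    fun hk hτ => mem_sq.2 (sn_pt hk (by omega)).le
  obtain ⟨α, α1, α2, α3, α4⟩ := arc_ex (r := n - 1) (by omega) (sub hkb hτb) (sub hkb' hτb')
    (w := pt ka τa (n - 1)) (w' := pt ka' τa' (n - 1)) (by omega) (by omega) (by omega)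
    (by omega) hS1
  clear e1 e2 e3 e4 e5 e6 e7 e8 e9 e10 e11 e12 hS hS1 n1 n2 n3 n4
  have hα : ∀ x ∈ α, sn x = n - 1 := fun x hx => mem_rg.1 (α1 hx)
  have hd : Disjoint (T ∩ SA 0 n m ∪ ({pt ka τa (n - 1), pt ka' τa' (n - 1)} ∪ Sq 0 (n - 2)))
      (Tᶜ ∩ SA 0 n m ∪ α) := by
    rw [Set.disjoint_left]
    rintro x (⟨h1, h2⟩ | (h1 | h1) | h1) (⟨h3, h4⟩ | h3)
    · exact h3 h1
    · have h5 := (mem_sa.1 h2).1
      have h6 := hα x h3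
      omega
    · have h5 := (mem_sa.1 h4).1
      rw [h1, sn_pt hka (by omega)] at h5
      omega
    · rw [h1] at h3
      exact α2 h3
    · have h5 := (mem_sa.1 h4).1
      rw [Set.mem_singleton_iff.1 h1, sn_pt hka' (by omega)] at h5
      omega
    · rw [Set.mem_singleton_iff.1 h1] at h3
      exact α3 h3
    · have h5 := (mem_sa.1 h4).1
      have h6 := mem_sq.1 h1
      omega
    · have h5 := hα x h3
      have h6 := mem_sq.1 h1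
      omega
  have hA : Conn ((T ∩ SA 0 n m ∪ ({pt ka τa (n - 1), pt ka' τa' (n - 1)} ∪ Sq 0 (n - 2))) ∩
      Sq 0 m) p p' := by
    have hsub1 : T ∩ SA 0 n m ⊆ (T ∩ SA 0 n m ∪ ({pt ka τa (n - 1), pt ka' τa' (n - 1)} ∪
        Sq 0 (n - 2))) ∩ Sq 0 m := fun x hx => ⟨Or.inl hx, mem_sq.2 (mem_sa.1 hx.2).2⟩
    have hsub2 : Sq 0 (n - 2) ⊆ (T ∩ SA 0 n m ∪ ({pt ka τa (n - 1), pt ka' τa' (n - 1)} ∪
        Sq 0 (n - 2))) ∩ Sq 0 m := fun x hx => ⟨Or.inr (Or.inr hx), sq_mono (by omega) hx⟩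
    have m1 : pt ka τa (n - 1) ∈ (T ∩ SA 0 n m ∪ ({pt ka τa (n - 1), pt ka' τa' (n - 1)} ∪
        Sq 0 (n - 2))) ∩ Sq 0 m :=
      ⟨Or.inr (Or.inl (Or.inl rfl)), mem_sq.2 (by rw [sn_pt hka (by omega)]; omega)⟩
    have m2 : pt ka' τa' (n - 1) ∈ (T ∩ SA 0 n m ∪ ({pt ka τa (n - 1), pt ka' τa' (n - 1)} ∪
        Sq 0 (n - 2))) ∩ Sq 0 m :=
      ⟨Or.inr (Or.inl (Or.inr rfl)), mem_sq.2 (by rw [sn_pt hka' (by omega)]; omega)⟩
    have j1 := adj_pt hka τa n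
    have j2 := adj_pt hka τa (n - 1)
    have j3 := adj_pt hka' τa' n
    have j4 := adj_pt hka' τa' (n - 1)
    rw [show n - 1 - 1 = n - 2 by ring] at j2 j4
    have c1 := (ha.mono hsub1).trans (Conn.of_adj (hsub1 ha.right) m1 j1)
    have c2 := c1.trans (Conn.of_adj m1 (hsub2 (sub2 hka hτa)) j2)
    have c3 := (ha'.mono hsub1).trans (Conn.of_adj (hsub1 ha'.right) m2 j3)
    have c4 := c3.trans (Conn.of_adj m2 (hsub2 (sub2 hka' hτa')) j4)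
    have c5 := (isConn_sq 0 (n - 2) _ (sub2 hka hτa) _ (sub2 hka' hτa')).mono hsub2
    exact c2.trans (c5.trans c4.symm)
  have hB : Conn ((Tᶜ ∩ SA 0 n m ∪ α) ∩ Sq 0 m) q q' := by
    have hsub1 : Tᶜ ∩ SA 0 n m ⊆ (Tᶜ ∩ SA 0 n m ∪ α) ∩ Sq 0 m :=
      fun x hx => ⟨Or.inl hx, mem_sq.2 (mem_sa.1 hx.2).2⟩
    have hsub2 : α ⊆ (Tᶜ ∩ SA 0 n m ∪ α) ∩ Sq 0 m :=
      fun x hx => ⟨Or.inr hx, mem_sq.2 (by rw [hα x hx]; omega)⟩
    have c1 := (hb.mono hsub1).trans (Conn.of_adj (hsub1 hb.right) (hsub2 α4.left)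
      (adj_pt hkb τb n))
    have c2 := (hb'.mono hsub1).trans (Conn.of_adj (hsub1 hb'.right) (hsub2 α4.right)
      (adj_pt hkb' τb' n))
    exact c1.trans ((α4.mono hsub2).trans c2.symm)
  exact sep_box hm hd hp hp' hq hq' hA hB h

private theorem sep_sort {a b c d : ℤ} (h : Sep4 a b c d) :
    (a < b ∧ b < c ∧ c < d) ∨ (b < c ∧ c < d ∧ d < a) ∨ (c < d ∧ d < a ∧ a < b) ∨
      (d < a ∧ a < b ∧ b < c) ∨ (a < d ∧ d < c ∧ c < b) ∨ (d < c ∧ c < b ∧ b < a) ∨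
      (c < b ∧ b < a ∧ a < d) ∨ (b < a ∧ a < d ∧ d < c) := by
  rcases h with ⟨h1 | h1 | h1, h2 | h2 | h2⟩ | ⟨h1 | h1 | h1, h2 | h2 | h2⟩
  · exact absurd h1 (by omega)
  · exact Or.inr (Or.inr (Or.inr (Or.inl (by omega))))
  · exact Or.inl (by omega)
  · exact Or.inr (Or.inl (by omega))
  · exact absurd h1 (by omega)
  · exact absurd h1 (by omega)
  · exact Or.inr (Or.inr (Or.inl (by omega)))
  · exact absurd h1 (by omega)
  · exact absurd h1 (by omega)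
  · exact absurd h1 (by omega)
  · exact Or.inr (Or.inr (Or.inr (Or.inr (Or.inr (Or.inr (Or.inr (by omega)))))))
  · exact Or.inr (Or.inr (Or.inr (Or.inr (Or.inl (by omega)))))
  · exact Or.inr (Or.inr (Or.inr (Or.inr (Or.inr (Or.inl (by omega))))))
  · exact absurd h1 (by omega)
  · exact absurd h1 (by omega)
  · exact Or.inr (Or.inr (Or.inr (Or.inr (Or.inr (Or.inr (Or.inl (by omega)))))))
  · exact absurd h1 (by omega)
  · exact absurd h1 (by omega)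

/-- the data of one of the four vertices -/
private def Dat (T : Set V) (n m : ℤ) (y x e : V) : Prop :=
  y ∈ Rg 0 n ∧ x ∈ Rg 0 m ∧ Conn (T ∩ SA 0 n m) y x ∧ e ∈ Rg 0 n ∧
    (∃ z ∈ Rg 0 m, Conn (Tᶜ ∩ SA 0 n m) e z) ∧ FirstAft T (SA 0 n m) n e y

private theorem assemble {S T : Set V} {n m : ℤ} (hT : T = S ∨ T = Sᶜ)
    {y0 y1 y2 y3 x0 x1 x2 x3 e0 e1 e2 e3 : V}
    (d0 : Dat T n m y0 x0 e0) (d1 : Dat Tᶜ n m y1 x1 e1) (d2 : Dat T n m y2 x2 e2)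
    (d3 : Dat Tᶜ n m y3 x3 e3) (h01 : kq 0 n y0 < kq 0 n y1) (h12 : kq 0 n y1 < kq 0 n y2)
    (h23 : kq 0 n y2 < kq 0 n y3)
    (hs : Sep4 (kq 0 m x0) (kq 0 m x1) (kq 0 m x2) (kq 0 m x3)) :
    ∃ T : Set V, (T = S ∨ T = Sᶜ) ∧ ∃ y x e : Fin 4 → V, (∀ i, y i ∈ Rg 0 n) ∧
      (∀ i j, i < j → kq 0 n (y i) < kq 0 n (y j)) ∧
      (∀ i, x i ∈ Rg 0 m ∧ Conn (cs T i ∩ SA 0 n m) (y i) (x i)) ∧
      Sep4 (kq 0 m (x 0)) (kq 0 m (x 1)) (kq 0 m (x 2)) (kq 0 m (x 3)) ∧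
      ∀ i, e i ∈ Rg 0 n ∧ (∃ z ∈ Rg 0 m, Conn ((cs T i)ᶜ ∩ SA 0 n m) (e i) z) ∧
        FirstAft (cs T i) (SA 0 n m) n (e i) (y i) := by
  have c0 : cs T 0 = T := rfl
  have c1 : cs T 1 = Tᶜ := rfl
  have c2 : cs T 2 = T := rfl
  have c3 : cs T 3 = Tᶜ := rfl
  obtain ⟨a0, a1, a2, a3, a4, a5⟩ := d0
  obtain ⟨b0, b1, b2, b3, b4, b5⟩ := d1
  obtain ⟨f0, f1, f2, f3, f4, f5⟩ := d2
  obtain ⟨g0, g1, g2, g3, g4, g5⟩ := d3
  refine ⟨T, hT, ![y0, y1, y2, y3], ![x0, x1, x2, x3], ![e0, e1, e2, e3], ?_, ?_, ?_, hs, ?_⟩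
  · intro i
    fin_cases i
    · exact a0
    · exact b0
    · exact f0
    · exact g0
  · intro i j hij
    fin_cases i <;> fin_cases j <;> first
      | exact absurd hij (by decide)
      | exact h01
      | exact h12
      | exact h23
      | exact h01.trans h12
      | exact h12.trans h23
      | exact (h01.trans h12).trans h23
  · intro i
    fin_cases i
    · exact ⟨a1, a2⟩
    · exact ⟨b1, b2⟩
    · exact ⟨f1, f2⟩
    · exact ⟨g1, g2⟩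
  · intro i
    fin_cases i
    · exact ⟨a3, a4, a5⟩
    · exact ⟨b3, b4, b5⟩
    · exact ⟨f3, f4, f5⟩
    · exact ⟨g3, g4, g5⟩

private theorem ty_inner {T : Set V} {n m : ℤ} {u : V} (h : Ty T 0 n m u) :
    ∃ a ∈ Rg 0 n, Conn (T ∩ SA 0 n m) u a := by
  obtain ⟨-, x, y, hy, hxy, hc⟩ := h
  refine ⟨x, ?_, hc⟩
  have h1 := (mem_sa.1 hc.right.2).1
  have h2 := mem_sq.1 hy
  have h3 := abs_le.1 (sn_adj hxy 0)
  rw [sub_zero, sub_zero] at h3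
  rw [mem_rg]
  omega

private theorem dat_ex {T : Set V} {n m : ℤ} (hn : 4 ≤ n) {u a z e : V} (hu : u ∈ Rg 0 m)
    (ha : a ∈ Rg 0 n) (hua : Conn (T ∩ SA 0 n m) u a) (hz : z ∈ Rg 0 m) (he : e ∈ Rg 0 n)
    (hze : Conn (Tᶜ ∩ SA 0 n m) z e) : ∃ y, Dat T n m y u e := by
  obtain ⟨y, ⟨hy1, hy2⟩, hy3⟩ := first_ex (q := n) (e := e) (by omega)
    (C := {x | x ∈ Rg 0 n ∧ Conn (T ∩ SA 0 n m) u x}) (fun x hx => hx.1) ⟨a, ha, hua⟩ he
    (fun h1 => hze.right.1 h1.2.right.1)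
  exact ⟨y, hy1, hu, hy2.symm, he, ⟨z, hz, hze.symm⟩, fun v hv1 hv2 => hy3 v ⟨hv1, hy2.trans hv2⟩⟩

theorem four_first_in (hn : 4 ≤ n) (hnm : n ≤ m) (h : Fr S 0 n m)
    (hc : ∀ T : Set V, T = S ∨ T = Sᶜ → ∀ a ∈ Rg 0 n, ∀ p ∈ Rg 0 m,
      Conn (T ∩ SA 0 n m) a p → NC n a) :
    ∃ T : Set V, (T = S ∨ T = Sᶜ) ∧ ∃ y x e : Fin 4 → V, (∀ i, y i ∈ Rg 0 n) ∧
      (∀ i j, i < j → kq 0 n (y i) < kq 0 n (y j)) ∧
      (∀ i, x i ∈ Rg 0 m ∧ Conn (cs T i ∩ SA 0 n m) (y i) (x i)) ∧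
      Sep4 (kq 0 m (x 0)) (kq 0 m (x 1)) (kq 0 m (x 2)) (kq 0 m (x 3)) ∧
      ∀ i, e i ∈ Rg 0 n ∧ (∃ z ∈ Rg 0 m, Conn ((cs T i)ᶜ ∩ SA 0 n m) (e i) z) ∧
        FirstAft (cs T i) (SA 0 n m) n (e i) (y i) := by
  obtain ⟨p, q, p', q', hp, hp', hq, hq', hI⟩ := fr_alt (by omega) hnm h
  obtain ⟨a, ra, hpa⟩ := ty_inner hp
  obtain ⟨b, rb, hqb⟩ := ty_inner hq
  obtain ⟨a', ra', hpa'⟩ := ty_inner hp'
  obtain ⟨b', rb', hqb'⟩ := ty_inner hq'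
  have hpac : Conn (Sᶜᶜ ∩ SA 0 n m) p a := by rwa [compl_compl]
  obtain ⟨y, dy⟩ := dat_ex hn hp.1 ra hpa hq.1 rb hqb
  obtain ⟨y', dy'⟩ := dat_ex hn hp'.1 ra' hpa' hq.1 rb hqb
  obtain ⟨w, dw⟩ := dat_ex hn hq.1 rb hqb hp.1 ra hpac
  obtain ⟨w', dw'⟩ := dat_ex hn hq'.1 rb' hqb' hp.1 ra hpac
  have hsep := inner_sep hn hnm hp.1 hp'.1 hq.1 hq'.1 hI dy.2.2.1.symm dy'.2.2.1.symm
    dw.2.2.1.symm dw'.2.2.1.symm (hc S (Or.inl rfl) y dy.1 p hp.1 dy.2.2.1)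
    (hc S (Or.inl rfl) y' dy'.1 p' hp'.1 dy'.2.2.1)
    (hc Sᶜ (Or.inr rfl) w dw.1 q hq.1 dw.2.2.1)
    (hc Sᶜ (Or.inr rfl) w' dw'.1 q' hq'.1 dw'.2.2.1)
  have cy : Dat Sᶜᶜ n m y p b := by rwa [compl_compl]
  have cy' : Dat Sᶜᶜ n m y' p' b := by rwa [compl_compl]
  have hS : S = S ∨ S = Sᶜ := Or.inl rfl
  have hS' : Sᶜ = S ∨ Sᶜ = Sᶜ := Or.inr rfl
  have o : Sep4 (kq 0 m p) (kq 0 m q) (kq 0 m p') (kq 0 m q') := by
    unfold Inter at hI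
    unfold Sep4 Btw
    omega
  have hcases : (kq 0 n y < kq 0 n w ∧ kq 0 n w < kq 0 n y' ∧ kq 0 n y' < kq 0 n w') ∨
      (kq 0 n w < kq 0 n y' ∧ kq 0 n y' < kq 0 n w' ∧ kq 0 n w' < kq 0 n y) ∨
      (kq 0 n y' < kq 0 n w' ∧ kq 0 n w' < kq 0 n y ∧ kq 0 n y < kq 0 n w) ∨
      (kq 0 n w' < kq 0 n y ∧ kq 0 n y < kq 0 n w ∧ kq 0 n w < kq 0 n y') ∨
      (kq 0 n y < kq 0 n w' ∧ kq 0 n w' < kq 0 n y' ∧ kq 0 n y' < kq 0 n w) ∨
      (kq 0 n w' < kq 0 n y' ∧ kq 0 n y' < kq 0 n w ∧ kq 0 n w < kq 0 n y) ∨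
      (kq 0 n y' < kq 0 n w ∧ kq 0 n w < kq 0 n y ∧ kq 0 n y < kq 0 n w') ∨
      (kq 0 n w < kq 0 n y ∧ kq 0 n y < kq 0 n w' ∧ kq 0 n w' < kq 0 n y') := by
    exact sep_sort hsep
  have o' := (sep_symm o).2.1
  rcases hcases with ⟨g1, g2, g3⟩ | ⟨g1, g2, g3⟩ | ⟨g1, g2, g3⟩ | ⟨g1, g2, g3⟩ |
    ⟨g1, g2, g3⟩ | ⟨g1, g2, g3⟩ | ⟨g1, g2, g3⟩ | ⟨g1, g2, g3⟩
  · exact assemble hS dy dw dy' dw' g1 g2 g3 o
  · exact assemble hS' dw cy' dw' cy g1 g2 g3 (sep_rot o)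
  · exact assemble hS dy' dw' dy dw g1 g2 g3 (sep_rot (sep_rot o))
  · exact assemble hS' dw' cy dw cy' g1 g2 g3 (sep_rot (sep_rot (sep_rot o)))
  · exact assemble hS dy dw' dy' dw g1 g2 g3 o'
  · exact assemble hS' dw' cy' dw cy g1 g2 g3 (sep_rot o')
  · exact assemble hS dy' dw dy dw' g1 g2 g3 (sep_rot (sep_rot o'))
  · exact assemble hS' dw cy dw' cy' g1 g2 g3 (sep_rot (sep_rot (sep_rot o')))

end Pool.Agent.TriPerc
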