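import Pool.Agent.TriPerc.Land
import Pool.Agent.TriPerc.RingI

/-!
# Four landing vertices give four arms which end at coarse positions

Parameters: `u ≥ 1` is the unit, the ring has the radius `2 M u`; `Prm κ G D M` is the relation between
the constants.  `Src κ M k j a`: admissible coarse positions: the source number `i` is on the side
`k i`, its coarse coordinate is `j i` (in units `2 u`), its scale is `4 ^ (a i) * u`; the sources are in
cyclic order and separated by `DD κ`.  `Xs` is the centre of the fence, outside (`ε = 1`) or inside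
(`ε = -1`) the ring.  `FA`: four arms of alternating colours from the fences to base vertices
`y i` with `Base y`; the arm number `i` uses `SA 0 n m` and the square `Sq (Xs i) (30 * 4 ^ (a i) * u)`.

* `land_src`: let the four landing vertices `y i` have increasing keys.  `q = 2 M u`, `h = 8 G u`,
  `g = G u`, `d = D u`.  PROOF.  `R = SA 0 n m` has `0 ≤ ε (q - sn v)` and contains all `v` with
  `0 ≤ ε (q - sn v) ≤ h` (`h ≤ q / 16`).  `lnd_pt`: `y i = pt (k i) (τ i) q`, `|τ i| + 2 h < q`.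
  `lnd_fence`: `κ' = 4 ^ (a i) u`, `a i < κ`, and `r` with `|r - (q + 12 ε κ')| ≤ 4 κ'` and a path in
  `Co ∩ (R ∪ Sq (y i) (16 κ'))` from `y i` to `f i = pt (k i) (τ i) r`.  Let `j i = (τ i + u) / (2 u)`, so
  `|τ i - 2 u j i| ≤ u`.  Then `nrm (f i - Xs i) ≤ u + 4 κ' ≤ 5 κ'` (`nrm_pt`) and
  `Sq (y i) (16 κ') ⊆ Sq (Xs i) (30 κ')` (`sn ≤ nrm ≤ u + 12 κ'`).  `Src`: `2 u |j i| ≤ |τ i| + u <
  2 M u - 16 G u + u`, so `|j i| ≤ M - 8 G`.  Order: for `i < i'` `kq_pt` gives `k i < k i'`, or `k i = k i'`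
  and `τ i < τ i'`; in the second case `lnd_sep` gives `τ i' - τ i > D u`, so
  `2 (j i' - j i) > D - 2 ≥ 100 * 4 ^ κ + 98`.
* `land_out`: `four_first` (with `T = Co σ p w`, `co_not`), `Far 1 ..`: a typed vertex is joined to a
  vertex `x` with a neighbour in `Sq 0 (n - 1)`, so `sn x = n` and `q / 2 ≤ q - n`.
* `land_in`: `four_first_in`; `hc` by `lnd_pt`; `Far (-1) ..`: joined to a vertex of `Rg 0 m`,
  `m - q ≥ q / 2`.
-/

namespace Pool.Agent.TriPerc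

open MeasureTheory

/-- The separation of the sources in coarse units. -/
def DD (κ : ℕ) : ℤ := 47 * 4 ^ κ + 43

/-- The relation between the constants. -/
def Prm (κ : ℕ) (G D M : ℤ) : Prop :=
  100 * 4 ^ κ + 100 ≤ D ∧ D ≤ G ∧ 64 * G ≤ M ∧ ∃ e : ℕ, M = 2 ^ e

/-- Admissible sources. -/
def Src (κ : ℕ) (M : ℤ) (k : Fin 4 → ℕ) (j : Fin 4 → ℤ) (a : Fin 4 → ℕ) : Prop :=
  (∀ i, k i < 4 ∧ |j i| + DD κ ≤ M ∧ a i < κ) ∧
    ∀ i i' : Fin 4, i < i' → k i < k i' ∨ (k i = k i' ∧ j i + DD κ ≤ j i')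

/-- The centre of a fence. -/
def Xs (ε u M : ℤ) (k : ℕ) (j : ℤ) (a : ℕ) : V :=
  pt k (2 * u * j) (2 * u * M + 12 * ε * (4 ^ a * u))

/-- Base condition for arms which start at the inner square. -/
def BaseO (n : ℤ) (y : Fin 4 → V) : Prop := ∀ i, ∃ x ∈ Sq 0 (n - 1), Adj (y i) x

/-- Base condition for arms which start at the outer ring. -/
def BaseI (m : ℤ) (y : Fin 4 → V) : Prop :=
  (∀ i, y i ∈ Rg 0 m) ∧ Sep4 (kq 0 m (y 0)) (kq 0 m (y 1)) (kq 0 m (y 2)) (kq 0 m (y 3))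

/-- The regions of the arms. -/
def RF (ε u M n m : ℤ) (k : Fin 4 → ℕ) (j : Fin 4 → ℤ) (a : Fin 4 → ℕ) (i : Fin 4) : Set V :=
  SA 0 n m ∪ Sq (Xs ε u M (k i) (j i) (a i)) (30 * 4 ^ (a i) * u)

/-- Four arms from the fences at the sources to base vertices. -/
def FA (ε : ℤ) (Base : (Fin 4 → V) → Prop) (p : ℝ) (σ : Bool) (n m u M : ℤ) (k : Fin 4 → ℕ)
    (j : Fin 4 → ℤ) (a : Fin 4 → ℕ) : Set Lab :=
  Arms (alt σ) p (RF ε u M n m k j a) fun z =>
    Base (fun i => (z i).2) ∧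
      ∀ i, nrm ((z i).1 - Xs ε u M (k i) (j i) (a i)) ≤ 5 * 4 ^ (a i) * u

variable {ε n m u G D M : ℤ} {κ : ℕ} {p : ℝ} {w : Lab} {σ : Bool}
  {Base : (Fin 4 → V) → Prop}

/-- The coarse coordinate. -/
private theorem la_coarse {u τ : ℤ} (hu : 1 ≤ u) :
    ∃ j : ℤ, -u ≤ τ - 2 * u * j ∧ τ - 2 * u * j ≤ u := by
  refine ⟨(τ + u) / (2 * u), ?_⟩
  have h1 := Int.mul_ediv_add_emod (τ + u) (2 * u)
  have h2 := Int.emod_nonneg (τ + u) (by omega : 2 * u ≠ 0)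
  have h3 := Int.emod_lt_of_pos (τ + u) (by omega : 0 < 2 * u)
  constructor <;> omega

/-- The geometry of the fence. -/
private theorem la_geo {κ' τ r q : ℤ} {k : ℕ} {ε u j M : ℤ} {a : ℕ} (hk : k < 4)
    (hε : ε = 1 ∨ ε = -1) (hκ : κ' = 4 ^ a * u) (hu : u ≤ κ') (hq : q = 2 * M * u)
    (h1 : -u ≤ τ - 2 * u * j) (h2 : τ - 2 * u * j ≤ u) (hr : |r - (q + 12 * ε * κ')| ≤ 4 * κ') :
    nrm (pt k τ r - Xs ε u M k j a) ≤ 5 * 4 ^ a * u ∧
      Sq (pt k τ q) (16 * κ') ⊆ Sq (Xs ε u M k j a) (30 * 4 ^ a * u) := by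
  have e1 : 2 * u * M + 12 * ε * (4 ^ a * u) = q + 12 * ε * κ' := by
    rw [hκ, hq]
    ring
  have e2 : 5 * 4 ^ a * u = 5 * κ' := by
    rw [hκ]
    ring
  have e3 : 30 * 4 ^ a * u = 30 * κ' := by
    rw [hκ]
    ring
  unfold Xs
  rw [e1, e2, e3]
  have h3 : |τ - 2 * u * j| ≤ u := abs_le.2 ⟨h1, h2⟩
  constructor
  · have h4 := nrm_pt hk τ (2 * u * j) r (q + 12 * ε * κ')
    omega
  · intro v hv
    have hv' : sn (v - pt k τ q) ≤ 16 * κ' := hv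
    change sn (v - pt k (2 * u * j) (q + 12 * ε * κ')) ≤ 30 * κ'
    have h4 := nrm_pt hk τ (2 * u * j) q (q + 12 * ε * κ')
    have h5 := sn_le_nrm (pt k τ q - pt k (2 * u * j) (q + 12 * ε * κ'))
    have h6 := sn_add (v - pt k τ q) (pt k τ q - pt k (2 * u * j) (q + 12 * ε * κ'))
    rw [sub_add_sub_cancel] at h6
    have h7 : |q - (q + 12 * ε * κ')| ≤ 12 * κ' := by
      rw [abs_le]
      rcases hε with rfl | rfl <;> constructor <;> omega
    omega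

/-- The distance of coarse positions. -/
private theorem la_bd {u τ j M G : ℤ} {κ : ℕ} (hu : 1 ≤ u) (hG : DD κ ≤ 8 * G)
    (h1 : -u ≤ τ - 2 * u * j) (h2 : τ - 2 * u * j ≤ u)
    (h3 : |τ| + 2 * (8 * (G * u)) < 2 * M * u) : |j| + DD κ ≤ M := by
  have h4 := abs_le.1 (show |τ| ≤ 2 * M * u - 2 * (8 * (G * u)) - 1 by omega)
  have h5 : |j| ≤ M - 8 * G := by
    rw [abs_le]
    constructor
    · by_contra hcon
      have h6 : j ≤ -(M - 8 * G) - 1 := by omega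
      have h7 : u * j ≤ u * (-(M - 8 * G) - 1) := mul_le_mul_of_nonneg_left h6 (by omega)
      nlinarith
    · by_contra hcon
      have h6 : M - 8 * G + 1 ≤ j := by omega
      have h7 : u * (M - 8 * G + 1) ≤ u * j := mul_le_mul_of_nonneg_left h6 (by omega)
      nlinarith
  omega

private theorem la_sep {u τ τ' j j' D : ℤ} {κ : ℕ} (hu : 1 ≤ u) (hD : 100 * 4 ^ κ + 100 ≤ D)
    (h2 : τ - 2 * u * j ≤ u) (h2' : -u ≤ τ - 2 * u * j) (h1' : -u ≤ τ' - 2 * u * j')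
    (h3' : τ' - 2 * u * j' ≤ u) (h : D * u < τ' - τ) : j + DD κ ≤ j' := by
  have h4 : (D - 2) * u < 2 * (j' - j) * u := by nlinarith
  have h5 : D - 2 < 2 * (j' - j) := lt_of_mul_lt_mul_right h4 (by omega)
  have h6 : (1 : ℤ) ≤ 4 ^ κ := one_le_pow₀ (by norm_num)
  unfold DD
  omega

theorem land_src (hP : Prm κ G D M) (hu : 1 ≤ u)
    (hq : (ε = 1 ∧ m = 2 * M * u ∧ 2 * n ≤ m) ∨ (ε = -1 ∧ n = 2 * M * u ∧ 2 * n ≤ m))
    (hw : w ∉ BadR ε p (2 * M * u) (8 * (G * u)) (G * u) (D * u) (scl u κ))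
    (y x : Fin 4 → V) (hy : ∀ i, y i ∈ Rg 0 (2 * M * u))
    (hkey : ∀ i j, i < j → kq 0 (2 * M * u) (y i) < kq 0 (2 * M * u) (y j))
    (hl : ∀ i, Lnd ε (alt σ i) p w (SA 0 n m) (2 * M * u) (y i))
    (hx : ∀ i, Conn (Co (alt σ i) p w ∩ SA 0 n m) (y i) (x i)) (hB : Base x) :
    ∃ k j a, Src κ M k j a ∧ w ∈ FA ε Base p σ n m u M k j a := by
  obtain ⟨hP1, hP2, hP3, -⟩ := hP
  have h4k : (1 : ℤ) ≤ 4 ^ κ := one_le_pow₀ (by norm_num)
  have hG200 : 200 ≤ G := by omega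
  have hGu : G ≤ G * u := le_mul_of_one_le_right (by omega) hu
  have hDG : D * u ≤ G * u := mul_le_mul_of_nonneg_right hP2 (by omega)
  have hGM : 64 * (G * u) ≤ M * u := by
    have := mul_le_mul_of_nonneg_right hP3 (by omega : 0 ≤ u)
    linarith
  have hqM : 2 * M * u = 2 * (M * u) := by ring
  have hε : ε = 1 ∨ ε = -1 := by
    rcases hq with h | h
    · exact Or.inl h.1
    · exact Or.inr h.1
  have h16 : 16 * (8 * (G * u)) ≤ 2 * M * u := by omega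
  have hR1 : ∀ v ∈ SA 0 n m, 0 ≤ ε * (2 * M * u - sn v) := by
    rintro v ⟨hv1, hv2⟩
    rw [sub_zero] at hv1 hv2
    rcases hq with ⟨rfl, h2, h3⟩ | ⟨rfl, h2, h3⟩ <;> omega
  have hR2 : ∀ v, 0 ≤ ε * (2 * M * u - sn v) → ε * (2 * M * u - sn v) ≤ 8 * (G * u) →
      v ∈ SA 0 n m := by
    intro v hv1 hv2
    change n ≤ sn (v - 0) ∧ sn (v - 0) ≤ m
    rw [sub_zero]
    rcases hq with ⟨rfl, h2, h3⟩ | ⟨rfl, h2, h3⟩ <;> omega
  have hpt := fun i => lnd_pt hε (by omega) h16 hw (hy i) (hl i).1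
  choose k hk τ hτ hyp using hpt
  have hl' : ∀ i, Lnd ε (alt σ i) p w (SA 0 n m) (2 * M * u) (pt (k i) (τ i) (2 * M * u)) :=
    fun i => by
      rw [← hyp i]
      exact hl i
  have hfe := fun i => lnd_fence hε (hk i) (by omega) rfl h16 hR1 hR2 hw (hτ i) (hl' i)
  choose κ' hκ' r hr hcon using hfe
  have hκ2 : ∀ i, ∃ a : ℕ, a < κ ∧ κ' i = 4 ^ a * u := by
    intro i
    obtain ⟨a, ha, ha'⟩ := Finset.mem_image.1 (hκ' i)
    exact ⟨a, Finset.mem_range.1 ha, ha'.symm⟩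
  choose a ha haκ using hκ2
  have hco := fun i => la_coarse (u := u) (τ := τ i) hu
  choose j hj1 hj2 using hco
  have hκu : ∀ i, u ≤ κ' i := by
    intro i
    rw [haκ i]
    exact le_mul_of_one_le_left (by omega) (one_le_pow₀ (by norm_num))
  refine ⟨k, j, a, ⟨fun i => ⟨hk i, la_bd hu ?_ (hj1 i) (hj2 i) (hτ i), ha i⟩, ?_⟩, ?_⟩
  · unfold DD
    omega
  · intro i i' hii
    have h1 := hkey i i' hii
    have hτ1 : |τ i| < 2 * M * u := by
      have := hτ i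
      omega
    have hτ2 : |τ i'| < 2 * M * u := by
      have := hτ i'
      omega
    rw [hyp i, hyp i', kq_pt (hk i) hτ1, kq_pt (hk i') hτ2] at h1
    rw [abs_lt] at hτ1 hτ2
    rcases lt_trichotomy (k i) (k i') with h2 | h2 | h2
    · exact Or.inl h2
    · right
      refine ⟨h2, ?_⟩
      rw [h2] at h1
      have h3 : τ i < τ i' := by omega
      have hl2 := hl' i
      rw [h2] at hl2
      have h4 := lnd_sep hε (hk i') (by omega) rfl h16 hR1 hR2 hw hDG (hτ i) (hτ i') hl2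
        (hl' i') h3.ne
      rw [abs_sub_comm, abs_of_pos (by omega)] at h4
      exact la_sep hu hP1 (hj2 i) (hj1 i) (hj1 i') (hj2 i') h4
    · exfalso
      have h3 : (k i' : ℤ) + 1 ≤ k i := by exact_mod_cast h2
      have h4 : 2 * (2 * M * u) * ((k i' : ℤ) + 1) ≤ 2 * (2 * M * u) * (k i : ℤ) :=
        mul_le_mul_of_nonneg_left h3 (by omega)
      linarith [hτ1.1, hτ2.2]
  · have hgeo := fun i => la_geo (κ' := κ' i) (a := a i) (j := j i) (M := M) (hk i) hε (haκ i)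
      (hκu i) rfl (hj1 i) (hj2 i) (hr i)
    refine ⟨fun i => (pt (k i) (τ i) (r i), x i), ⟨hB, fun i => (hgeo i).1⟩, fun i => ?_⟩
    have h1 : Conn (Co (alt σ i) p w ∩ RF ε u M n m k j a i)
        (pt (k i) (τ i) (2 * M * u)) (pt (k i) (τ i) (r i)) := by
      refine (hcon i).mono ?_
      rintro v ⟨hv1, hv2 | hv2⟩
      · exact ⟨hv1, Or.inl hv2⟩
      · exact ⟨hv1, Or.inr ((hgeo i).2 hv2)⟩
    have h2 : Conn (Co (alt σ i) p w ∩ RF ε u M n m k j a i) (y i) (x i) := by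
      refine (hx i).mono ?_
      rintro v ⟨hv1, hv2⟩
      exact ⟨hv1, Or.inl hv2⟩
    rw [hyp i] at h2
    exact h1.symm.trans h2

private theorem la_co {S T : Set V} (hS : S = Op p w) (hT : T = S ∨ T = Sᶜ) :
    ∃ σ, T = Co σ p w ∧ Tᶜ = Co (!σ) p w := by
  rcases hT with rfl | rfl
  · refine ⟨true, hS, ?_⟩
    rw [co_not]
    exact congrArg _ hS
  · refine ⟨false, ?_, ?_⟩
    · rw [hS]
      exact (cl_compl p w).symm
    · rw [co_not, hS]
      exact congrArg _ (cl_compl p w).symm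

private theorem la_far {T : Set V} {n q : ℤ} {y : V} (hnq : 2 * n ≤ q) (h : Ty T 0 n q y) :
    ∃ x, (∃ z ∈ Sq 0 (n - 1), Adj x z) ∧ Conn (T ∩ SA 0 n q) y x ∧ q / 2 ≤ 1 * (q - sn x) := by
  obtain ⟨-, x, z, hz, hxz, hc⟩ := h
  refine ⟨x, ⟨z, hz, hxz⟩, hc, ?_⟩
  have hz' : sn (z - 0) ≤ n - 1 := hz
  have h1 := abs_le.1 (sn_adj hxz 0)
  have h2 : sn (x - 0) ≤ n := by omega
  rw [sub_zero] at h2
  omega

theorem land_out (hP : Prm κ G D M) (hu : 1 ≤ u) (hn : 1 ≤ n) (hm : 2 * n ≤ 2 * M * u)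
    (hw : w ∉ BadR 1 p (2 * M * u) (8 * (G * u)) (G * u) (D * u) (scl u κ))
    (h : Fr (Op p w) 0 n (2 * M * u)) :
    ∃ σ k j a, Src κ M k j a ∧ w ∈ FA 1 (BaseO n) p σ n (2 * M * u) u M k j a := by
  obtain ⟨T, hT, y0, y1, y2, y3, e0, e1, e2, e3, k1, k2, k3, t0, t1, t2, t3, s0, s1, s2, s3,
    f0, f1, f2, f3⟩ := four_first hn (by omega) h
  obtain ⟨σ, hσ1, hσ2⟩ := la_co rfl hT
  have hTT : (Tᶜ)ᶜ = T := compl_compl T
  have key : ∀ {τ : Bool} {T' : Set V} {y e : V}, T' = Co τ p w → T'ᶜ = Co (!τ) p w →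
      Ty T' 0 n (2 * M * u) y → Ty T'ᶜ 0 n (2 * M * u) e →
      FirstAft T' (SA 0 n (2 * M * u)) (2 * M * u) e y →
      Lnd 1 τ p w (SA 0 n (2 * M * u)) (2 * M * u) y := by
    intro τ T' y e hT1 hT2 hy he hf
    obtain ⟨x, -, hx1, hx2⟩ := la_far hm hy
    obtain ⟨x', -, hx1', hx2'⟩ := la_far hm he
    rw [hT1] at hx1 hf
    rw [hT2] at hx1'
    exact ⟨⟨x, hx1, hx2⟩, e, he.1, ⟨x', hx1', hx2'⟩, hf⟩
  have hσ3 : (Tᶜ)ᶜ = Co (!(!σ)) p w := by rw [hTT, Bool.not_not, hσ1]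
  have a0 : alt σ 0 = σ := rfl
  have a1 : alt σ 1 = !σ := rfl
  have a2 : alt σ 2 = σ := rfl
  have a3 : alt σ 3 = !σ := rfl
  obtain ⟨x0, b0, c0, -⟩ := la_far hm t0
  obtain ⟨x1, b1, c1, -⟩ := la_far hm t1
  obtain ⟨x2, b2, c2, -⟩ := la_far hm t2
  obtain ⟨x3, b3, c3, -⟩ := la_far hm t3
  have l0 := key hσ1 hσ2 t0 s0 f0
  have l1 := key hσ2 hσ3 t1 (by rw [hTT]; exact s1) f1
  have l2 := key hσ1 hσ2 t2 s2 f2
  have l3 := key hσ2 hσ3 t3 (by rw [hTT]; exact s3) f3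
  rw [hσ1] at c0 c2
  rw [hσ2] at c1 c3
  refine ⟨σ, land_src hP hu (Or.inl ⟨rfl, rfl, hm⟩) hw ![y0, y1, y2, y3] ![x0, x1, x2, x3]
    ?_ ?_ ?_ ?_ ?_⟩
  · intro i
    fin_cases i
    · exact t0.1
    · exact t1.1
    · exact t2.1
    · exact t3.1
  · intro i i' hii
    fin_cases i <;> fin_cases i' <;> simp at hii ⊢ <;> omega
  · intro i
    fin_cases i
    · exact l0
    · exact l1
    · exact l2
    · exact l3
  · intro i
    fin_cases i
    · exact c0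
    · exact c1
    · exact c2
    · exact c3
  · intro i
    fin_cases i
    · exact b0
    · exact b1
    · exact b2
    · exact b3

theorem land_in (hP : Prm κ G D M) (hu : 1 ≤ u) (hm : 2 * (2 * M * u) ≤ m)
    (hw : w ∉ BadR (-1) p (2 * M * u) (8 * (G * u)) (G * u) (D * u) (scl u κ))
    (h : Fr (Op p w) 0 (2 * M * u) m) :
    ∃ σ k j a, Src κ M k j a ∧ w ∈ FA (-1) (BaseI m) p σ (2 * M * u) m u M k j a := by
  obtain ⟨hP1, hP2, hP3, -⟩ := id hP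
  have h4k : (1 : ℤ) ≤ 4 ^ κ := one_le_pow₀ (by norm_num)
  have hG200 : 200 ≤ G := by omega
  have hGu : G ≤ G * u := le_mul_of_one_le_right (by omega) hu
  have hGM : 64 * (G * u) ≤ M * u := by
    have := mul_le_mul_of_nonneg_right hP3 (by omega : 0 ≤ u)
    linarith
  have hqM : 2 * M * u = 2 * (M * u) := by ring
  have hfar : ∀ {τ : Bool} {y z : V}, z ∈ Rg 0 m →
      Conn (Co τ p w ∩ SA 0 (2 * M * u) m) y z →
      Far (-1) (Co τ p w) (SA 0 (2 * M * u) m) (2 * M * u) y := by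
    intro τ y z hz hc
    refine ⟨z, hc, ?_⟩
    have hz' : sn (z - 0) = m := hz
    rw [sub_zero] at hz'
    omega
  obtain ⟨T, hT, y, x, e, hy, hk, hx, hs, he⟩ := four_first_in (by omega) (by omega) h (by
    intro T hT a ha q hq hc
    obtain ⟨σ, hσ1, -⟩ := la_co rfl hT
    rw [hσ1] at hc
    obtain ⟨k, hk, τ, hτ, hak⟩ := lnd_pt (Or.inr rfl) (by omega)
      (by omega : 16 * (8 * (G * u)) ≤ 2 * M * u) hw ha (hfar hq hc)
    exact ⟨k, hk, τ, by omega, hak⟩)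
  obtain ⟨σ, hσ1, hσ2⟩ := la_co rfl hT
  have hcs : ∀ i, cs T i = Co (alt σ i) p w ∧ (cs T i)ᶜ = Co (!(alt σ i)) p w := by
    intro i
    unfold cs alt
    split_ifs
    · exact ⟨hσ1, hσ2⟩
    · rw [Bool.not_not, compl_compl]
      exact ⟨hσ2, hσ1⟩
  refine ⟨σ, land_src hP hu (Or.inr ⟨rfl, rfl, hm⟩) hw y x hy hk ?_ ?_
    ⟨fun i => (hx i).1, hs⟩⟩
  · intro i
    obtain ⟨h1, ⟨z, hz, h2⟩, h3⟩ := he i
    rw [(hcs i).2] at h2
    rw [(hcs i).1] at h3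
    have h4 := (hx i).2
    rw [(hcs i).1] at h4
    exact ⟨hfar (hx i).1 h4, e i, h1, hfar hz h2, h3⟩
  · intro i
    rw [← (hcs i).1]
    exact (hx i).2

end Pool.Agent.TriPerc
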