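import Pool.Agent.TriPerc.NoBox
import Pool.Agent.TriPerc.Rsp

/-!
# Landing of arms on a straight boundary (deterministic part)

`D = Par l r b t` is a box; its bottom row is a piece of the boundary of a large region `B` which
contains `D`; the rows below `b` are outside `B`.  The sign `s = 1` or `s = -1` is the direction in
which the bottom row is read: `Lp` is the part of the bottom row strictly before the vertex
`(a, b)`, `Rp` the part from `(a, b)` on.  `Tp` is the union of the three other sides of `D`.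
Standing assumptions: `s = 1 ∨ s = -1`, `l + 2 ≤ a`, `a + 2 ≤ r`, `b + 2 ≤ t`.  Put `t0 = (a, b)` and
`l0 = (a - s, b) ∈ Lp`.

* `Ch s S ..` : the cluster of `Lp` in `(S ∩ D) ∪ Lp` (all of `Lp` is included).  It is connected; a vertex
  of `S ∩ D` which is adjacent to it belongs to it, so `bd Ch ∩ D ⊆ Sᶜ`.
* `Gc .. c`: the vertices below the row `b`, and the component of `t0` in `D \ c` without `bd c`
  (the region which has not been seen after the exploration of `c`).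
* `Fst s T ..`: `t0` is joined to `Tp` in `T ∩ D` but to no vertex of `Lp`: it is the first vertex, on the
  bottom row, of its `T`-cluster, which reaches the other sides.
* `Ie s S ..` (interface end at `(l0, t0)`): `Ch` does not meet `Rp`, and `l0` is joined by `S` to the sides
  of the smaller box `D' = Par (l+1) (r-1) b (t-1)`.
* `Fnc T ..` (fence at scale `k`): `t0` is joined in `T` to a vertex `(a, y)` below the box,
  `b - 16 k ≤ y ≤ b - 8 k`, inside `D ∪ Sq t0 (16 k)`.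

`ie_of_fst`: `Fst s Sᶜ` implies `Ie s S`.
PROOF.  Let `K` be the `Sᶜ`-cluster of `t0` in `D`; it is disjoint from `Ch` (`Ch ⊆ S ∪ Lp`, `K ∩ Lp = ∅`).
(1) Let `r0 ∈ Ch ∩ Rp`.  `r0 ≠ t0` since `t0 ∈ Sᶜ`, `t0 ∉ Lp`.  `l0, r0` are joined in `Ch`, `t0, z` are
joined in `K`, `z ∈ Tp`.  The keys on the rim of `D` are interlaced: for `s = 1` `l0 < t0 < r0 < z` (the
vertex `z` is not `(l, b) ∈ Lp` and `z ≠ r0`); for `s = -1` `r0 < t0 < l0` and `z` is after `l0` or is the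
corner `(l, b)`, before `r0`.  Contradiction to `no_box'`.
(2) `l0 ∈ S`, otherwise it is in `K ∩ Lp`.  Apply `hexrim` to `D`, the set `S' = S ∪ Tp` and the two
vertices `l0` and `z0`, where `z0` is the corner `(r, t)` (both in `S'`; for `s = ±1` the key of `l0` is
smaller).  If they are joined in `S' ∩ D`: cut the path at its first vertex in `Tp`; the part before
is in `S ∩ (D \ Tp) = S ∩ D'` and its last vertex is adjacent to `Tp`, so it is in `Tp (l+1) ..`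
(if it is `l0` itself this is also right).  Otherwise there are `q, q'` not in `S'`, on the rim, so on
the bottom row, on different sides of `l0`, joined in `Sᶜ ∩ D`.  One of them, `q1`, is in `Lp` and
the other one, `q2`, is in `Rp`.  If the path meets `K` or `q2 = t0`, then `q1 ∈ K ∩ Lp`, no.  Otherwise
the path joins `q1` and `q2`, `t0` is between them and is joined to `z` in `K`: contradiction to
`no_box'` as in (1).
`ie_opp`: `Ie s S` implies `t0 ∉ S` and `t0` is joined by `Sᶜ` to the sides of `D'` inside `D'`.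
PROOF.  If `t0 ∈ S` then `t0 ∈ Ch ∩ Rp`.  Apply `hexrim` to `D`, `S' = Sᶜ ∪ Tp`, `t0` and `z0 = (r, t)`.  In the
first alternative cut the path at its first vertex in `Tp`.  In the second there are `q1 ∈ Lp`,
`q2 ∈ Rp` (bottom row, not in `Tp`, on different sides of `t0`) joined in `S ∩ D`; so `q2 ∈ Ch`,
contradiction.
`ie_two`: let `Ie s S` hold at `a` and `Ie s S'` at `a'` with `s a < s a'`, `S' = S` or `S' = Sᶜ`.  Then one of
`u = (a', b)`, `u = (a' - s, b)` is joined to the sides of `D'` in `(S ∩ D') \ (Ch ∪ bd Ch)`, `Ch` for `a`.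
PROOF.  If `S' = S` take `u = (a' - s, b) ∈ Rp` and its `S`-path; if `S' = Sᶜ` take `u = (a', b) ∈ Rp` and its
`S`-path from `ie_opp`.  No vertex of the path is in `Ch` (otherwise `u ∈ Ch ∩ Rp`), and none is in
`bd Ch` because it is in `S ∩ D`.
`ie_trace`: `Ie` depends only on `Ch` and on the trace of `S` on `D ∩ (Ch ∪ bd Ch)`: the vertices joined
to `l0` in `S ∩ D'` are in `Ch`.
`fence`: let `Fst s T` hold at `a`, `S = Tᶜ`, `G = Gc .. (Ch s S ..)`, `1 ≤ k`, and let `Sq t0 (16 k)` be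
between the left, right and top sides of `D`.  Suppose `Z = (T ∩ G) ∪ Gᶜ` has the four crossings
`Cr4 Z t0 (8 k) (16 k)`.  Then `Fnc T .. k`.
PROOF.  Let `HB, HT` be the bottom and the top crossing, `VR` the vertical crossing on the side of
`Rp` (right for `s = 1`, left for `s = -1`), `VL` the other one.  Two consecutive ones meet
(`ph_sub`, `pv_sub`, `ph_meet_pv` for the corner box; use finite connected sets, `Conn.finset`).
`HB` contains a vertex `(a, y)`, `b - 16 k ≤ y ≤ b - 8 k` (`hit_col`).  So there is a path in `Z` from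
`(a, y)` along `HB`, `VR`, `HT`, `VL` to the first vertex `e` of `VL` in the row `b`, `e ∈ Lp`.  All its
vertices are in `W`: rows `≤ b - 8 k`, or in the columns of `VR`, or rows `≥ b + 8 k`, or in the columns of
`VL` with row `≥ b`; and in `Sq t0 (16 k)`.  `(a, y) ∈ G`, `e ∉ G`.  Let `x ∈ G`, `y' ∉ G` be the first exit
(`Conn.exit`): the path up to `x` is in `Z ∩ G ⊆ T`.  `y'` is in the component `U` of `t0` in `D \ Ch` and
in `bd Ch`: if `x` is below the row `b` then `x` is in the columns of `VR`, `y'` is in the row `b` and in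
`Rp ⊆ U`, and `y' ∉ G` gives `y' ∈ bd Ch`; if `x ∈ U \ bd Ch` then `y' ∈ D`, `y' ∉ Ch` (otherwise
`x ∈ bd Ch`), so `y' ∈ U` and `y' ∈ bd Ch`.  In particular `y' ∈ T`.  (`Rp ⊆ U`: `Rp` is a row segment
disjoint from `Ch`, `ie_of_fst`.)
Let `e2` be the first vertex in a row `≥ b` after the last visit of the rows `< b` of this path from
`(a, y)` to `y'` (`Conn.last`): `e2` is in the row `b`, in `Rp`, at distance `≥ 8 k - 1` from `t0`, and is
joined to `y'` in `T ∩ D`.  `y'` is adjacent to `Ch`, so `e2` and `l0` are joined in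
`A = (path from e2 to y') ∪ Ch`.  `t0` is joined to `z ∈ Tp` in `K` (the `T`-cluster of `t0` in `D`),
`K ∩ Ch = ∅`.  If `K` did not meet the path from `e2` to `y'`, then `A, K` would be disjoint, with
interlaced ends (`l0 < t0 < e2 < z` as above): `no_box'`.  So the path is in `K`, and `t0` is joined to
`e2` in `T ∩ D` and further to `(a, y)`.
-/

namespace Pool.Agent.TriPerc

/-- The part of the bottom row before `(a, b)`. -/
def Lp (s l r b a : ℤ) : Set V := {v | v.2 = b ∧ l ≤ v.1 ∧ v.1 ≤ r ∧ s * v.1 < s * a}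

/-- The part of the bottom row from `(a, b)` on. -/
def Rp (s l r b a : ℤ) : Set V := {v | v.2 = b ∧ l ≤ v.1 ∧ v.1 ≤ r ∧ s * a ≤ s * v.1}

/-- The three other sides. -/
def Tp (l r b t : ℤ) : Set V := {v | v ∈ Par l r b t ∧ (v.1 = l ∨ v.1 = r ∨ v.2 = t)}

/-- The cluster of the wired first part of the bottom row. -/
def Ch (s : ℤ) (S : Set V) (l r b t a : ℤ) : Set V :=
  clus ((S ∩ Par l r b t) ∪ Lp s l r b a) (Lp s l r b a)

/-- The unseen region after the exploration of `c`. -/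
def Gc (l r b t a : ℤ) (c : Set V) : Set V :=
  {v | v.2 < b} ∪ (comp (Par l r b t \ c) (a, b) \ bd c)

/-- `(a, b)` is the first bottom vertex of a `T`-cluster which reaches the other sides. -/
def Fst (s : ℤ) (T : Set V) (l r b t a : ℤ) : Prop :=
  (∃ z ∈ Tp l r b t, Conn (T ∩ Par l r b t) (a, b) z) ∧
    ∀ v ∈ Lp s l r b a, ¬ Conn (T ∩ Par l r b t) (a, b) v

/-- Interface end. -/
def Ie (s : ℤ) (S : Set V) (l r b t a : ℤ) : Prop :=
  Disjoint (Ch s S l r b t a) (Rp s l r b a) ∧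
    ∃ z ∈ Tp (l + 1) (r - 1) b (t - 1),
      Conn (S ∩ Par (l + 1) (r - 1) b (t - 1)) (a - s, b) z

/-- Fence at scale `k`. -/
def Fnc (T : Set V) (l r b t a k : ℤ) : Prop :=
  ∃ y, b - 16 * k ≤ y ∧ y ≤ b - 8 * k ∧
    Conn (T ∩ (Par l r b t ∪ Sq (a, b) (16 * k))) (a, b) (a, y)

variable {s l r b t a a' k : ℤ} {S S' T : Set V} {c : Set V}

/-! ### Membership -/

private theorem lp_sub_par (hbt : b ≤ t) : Lp s l r b a ⊆ Par l r b t := by
  rintro v ⟨h1, h2, h3, -⟩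
  exact ⟨h2, h3, h1.ge, h1.le.trans hbt⟩

private theorem lp_sub_ch : Lp s l r b a ⊆ Ch s S l r b t a :=
  fun _ hv => subset_clus ⟨hv, Or.inr hv⟩

private theorem ch_closed {u v : V} (hu : u ∈ Ch s S l r b t a)
    (h : Conn (S ∩ Par l r b t) u v) : v ∈ Ch s S l r b t a := by
  obtain ⟨x, hx, hc⟩ := hu
  exact ⟨x, hx, hc.trans (h.mono Set.subset_union_left)⟩

private theorem l0_mem (hs : s = 1 ∨ s = -1) (h1 : l + 2 ≤ a) (h2 : a + 2 ≤ r) :
    ((a - s, b) : V) ∈ Lp s l r b a := by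
  rcases hs with rfl | rfl
  · refine ⟨rfl, ?_, ?_, ?_⟩
    · change l ≤ a - 1
      omega
    · change a - 1 ≤ r
      omega
    · change 1 * (a - 1) < 1 * a
      omega
  · refine ⟨rfl, ?_, ?_, ?_⟩
    · change l ≤ a - -1
      omega
    · change a - -1 ≤ r
      omega
    · change -1 * (a - -1) < -1 * a
      omega

private theorem adj_l0 (hs : s = 1 ∨ s = -1) : Adj ((a - s, b) : V) (a, b) := by
  rcases hs with rfl | rfl
  · refine Or.inl ⟨?_, rfl⟩
    change a = a - 1 + 1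
    omega
  · refine Or.inr (Or.inr (Or.inr (Or.inl ⟨?_, rfl⟩)))
    change a = a - -1 - 1
    omega

private theorem t0_mem (h1 : l + 2 ≤ a) (h2 : a + 2 ≤ r) (hbt : b ≤ t) :
    ((a, b) : V) ∈ Par l r b t := by
  refine ⟨?_, ?_, le_rfl, hbt⟩
  · change l ≤ a
    omega
  · change a ≤ r
    omega

private theorem s_adj (hs : s = 1 ∨ s = -1) {u v : V} (h : Adj u v) :
    s * u.1 - 1 ≤ s * v.1 ∧ s * v.1 ≤ s * u.1 + 1 := by
  unfold Adj at h
  rcases hs with rfl | rfl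
  · constructor <;> omega
  · constructor <;> omega

/-! ### Interlaced pairs on the rim -/

private theorem key_bot (c : ℤ) : key l r b t (c, b) = c - l := by
  simp [key]

private theorem key_top {v : V} (hv : v ∈ Tp l r b t) (h : v.2 ≠ b) :
    r - l < key l r b t v := by
  obtain ⟨⟨h1, h2, h3, h4⟩, h5⟩ := hv
  unfold key
  rw [if_neg h]
  split_ifs <;> omega

private theorem rim_bot (hbt : b < t) {x : ℤ} (h1 : l ≤ x) (h2 : x ≤ r) :
    ((x, b) : V) ∈ Rim l r b t :=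
  ⟨⟨h1, h2, le_rfl, hbt.le⟩, Or.inr (Or.inr (Or.inl rfl))⟩

private theorem rim_tp {v : V} (hv : v ∈ Tp l r b t) : v ∈ Rim l r b t := by
  refine ⟨hv.1, ?_⟩
  rcases hv.2 with h | h | h
  · exact Or.inl h
  · exact Or.inr (Or.inl h)
  · exact Or.inr (Or.inr (Or.inr h))

private theorem inter {A B : Set V} {x1 m1 y1 : ℤ} {z : V} (hbt : b < t) (hd : Disjoint A B)
    (hx : l ≤ x1) (hxm : x1 < m1) (hmy : m1 < y1) (hy : y1 ≤ r)
    (hA : Conn (A ∩ Par l r b t) (x1, b) (y1, b)) (hB : Conn (B ∩ Par l r b t) (m1, b) z)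
    (hz : z ∈ Tp l r b t) : False := by
  have hlr : l < r := by omega
  have hzx : z ≠ (x1, b) := by
    rintro rfl
    exact Set.disjoint_left.1 hd hA.left.1 hB.right.1
  have hzy : z ≠ (y1, b) := by
    rintro rfl
    exact Set.disjoint_left.1 hd hA.right.1 hB.right.1
  refine no_box' hlr hbt hd (rim_bot hbt hx (by omega)) (rim_bot hbt (by omega) hy)
    (rim_bot hbt (by omega) (by omega)) (rim_tp hz) hA hB ?_ ?_ ?_
  · rw [key_bot, key_bot]
    omega
  · rw [key_bot, key_bot]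
    omega
  · by_cases h : z.2 = b
    · have hz' : z = (z.1, b) := Prod.ext rfl h
      rw [hz', key_bot, key_bot, key_bot]
      have h1 : z.1 = l ∨ z.1 = r := by
        rcases hz.2 with h2 | h2 | h2
        · exact Or.inl h2
        · exact Or.inr h2
        · exfalso
          omega
      rcases h1 with h1 | h1
      · left
        have h2 : z.1 ≠ x1 := fun h3 => hzx (by rw [hz', h3])
        omega
      · right
        have h2 : z.1 ≠ y1 := fun h3 => hzy (by rw [hz', h3])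
        omega
    · right
      have h1 := key_top hz h
      rw [key_bot]
      omega

private theorem inter_s {A B : Set V} {x1 m1 y1 : ℤ} {z : V} (hs : s = 1 ∨ s = -1)
    (hbt : b < t) (hd : Disjoint A B) (hx : l ≤ x1 ∧ x1 ≤ r) (hy : l ≤ y1 ∧ y1 ≤ r)
    (hxm : s * x1 < s * m1) (hmy : s * m1 < s * y1)
    (hA : Conn (A ∩ Par l r b t) (x1, b) (y1, b)) (hB : Conn (B ∩ Par l r b t) (m1, b) z)
    (hz : z ∈ Tp l r b t) : False := by
  rcases hs with rfl | rfl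
  · exact inter hbt hd hx.1 (by omega) (by omega) hy.2 hA hB hz
  · exact inter hbt hd hy.1 (by omega) (by omega) hx.2 hA.symm hB hz

/-- from a vertex of `S` on the bottom row: a path in `S` to the three other sides, or a path in
the complement which separates -/
private theorem hexcut {x : ℤ} (hc1 : l < x) (hc2 : x < r) (hbt : b + 2 ≤ t)
    (hS : ((x, b) : V) ∈ S) :
    (∃ z ∈ Tp (l + 1) (r - 1) b (t - 1),
      Conn (S ∩ Par (l + 1) (r - 1) b (t - 1)) (x, b) z) ∨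
    ∃ c1 c2, l < c1 ∧ c1 < x ∧ x < c2 ∧ c2 < r ∧
      Conn (Sᶜ ∩ Par l r b t) (c1, b) (c2, b) := by
  have hbt' : b < t := by omega
  have hlr : l < r := by omega
  have hz0 : ((r, t) : V) ∈ Tp l r b t :=
    ⟨⟨hlr.le, le_rfl, hbt'.le, le_rfl⟩, Or.inr (Or.inl rfl)⟩
  have htb : ((r, t) : V).2 ≠ b := by
    change t ≠ b
    omega
  have hk0 := key_top hz0 htb
  have hkey : key l r b t (x, b) < key l r b t (r, t) := by
    rw [key_bot]
    omega
  rcases hexrim hlr hbt' (S := S ∪ Tp l r b t) (rim_bot hbt' hc1.le hc2.le) (rim_tp hz0)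
    (Or.inl hS) (Or.inr hz0) hkey with h | ⟨q, hq, q', hq', k1, k2, k3, hcon⟩
  · left
    have hin : ((x, b) : V) ∈ Par (l + 1) (r - 1) b (t - 1) := by
      refine ⟨?_, ?_, le_rfl, ?_⟩
      · change l + 1 ≤ x
        omega
      · change x ≤ r - 1
        omega
      · change b ≤ t - 1
        omega
    have hout : ((r, t) : V) ∉ Par (l + 1) (r - 1) b (t - 1) := by
      rintro ⟨-, h2, -⟩
      have h3 : r ≤ r - 1 := h2
      omega
    obtain ⟨x', y', hx', hy', hadj, hc3, hc4⟩ := h.exit hin hout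
    refine ⟨x', ⟨hx', ?_⟩, hc3.mono ?_⟩
    · obtain ⟨p1, p2, p3, p4⟩ := hx'
      obtain ⟨q1, q2, q3, q4⟩ := hc4.left.2
      by_contra hne
      apply hy'
      unfold Adj at hadj
      refine ⟨?_, ?_, ?_, ?_⟩ <;> omega
    · rintro v ⟨⟨h1 | h1, h2⟩, h3⟩
      · exact ⟨h1, h3⟩
      · exfalso
        obtain ⟨p1, p2, p3, p4⟩ := h3
        have h4 := h1.2
        omega
  · right
    have bot : ∀ v ∈ Rim l r b t, v ∉ Tp l r b t → v.2 = b ∧ l < v.1 ∧ v.1 < r := by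
      rintro v ⟨hv, h1⟩ hnv
      have h2 : ¬ (v.1 = l ∨ v.1 = r ∨ v.2 = t) := fun h3 => hnv ⟨hv, h3⟩
      obtain ⟨p1, p2, p3, p4⟩ := hv
      refine ⟨?_, ?_, ?_⟩ <;> omega
    obtain ⟨b1, b2, b3⟩ := bot q hq fun h => hcon.left.1 (Or.inr h)
    obtain ⟨b1', b2', b3'⟩ := bot q' hq' fun h => hcon.right.1 (Or.inr h)
    have e1 : q = (q.1, b) := Prod.ext rfl b1
    have e2 : q' = (q'.1, b) := Prod.ext rfl b1'
    rw [e1, key_bot, key_bot] at k1
    rw [e2, key_bot, key_bot] at k3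
    rw [e1, e2] at hcon
    refine ⟨q'.1, q.1, b2', ?_, ?_, b3, hcon.symm.mono ?_⟩
    · omega
    · omega
    · rintro v ⟨h1, h2⟩
      exact ⟨fun h3 => h1 (Or.inl h3), h2⟩

theorem ch_sub : Ch s S l r b t a ⊆ Par l r b t ∪ Lp s l r b a := by
  intro v hv
  rcases clus_subset hv with h | h
  · exact Or.inl h.2
  · exact Or.inr h

theorem ch_conn (hs : s = 1 ∨ s = -1) : IsConn (Ch s S l r b t a) := by
  intro u hu v hv
  obtain ⟨x, hx, hxu⟩ := clus_conn hu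
  obtain ⟨y, hy, hyv⟩ := clus_conn hv
  have h1 : Conn (Lp s l r b a) (x.1, b) (y.1, b) := by
    refine conn_row fun c hc1 hc2 => ?_
    obtain ⟨-, x1, x2, x3⟩ := hx
    obtain ⟨-, y1, y2, y3⟩ := hy
    rcases hs with rfl | rfl
    · refine ⟨rfl, ?_, ?_, ?_⟩
      · change l ≤ c
        omega
      · change c ≤ r
        omega
      · change 1 * c < 1 * a
        omega
    · refine ⟨rfl, ?_, ?_, ?_⟩
      · change l ≤ c
        omega
      · change c ≤ r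
        omega
      · change -1 * c < -1 * a
        omega
  have ex : x = (x.1, b) := Prod.ext rfl hx.1
  have ey : y = (y.1, b) := Prod.ext rfl hy.1
  rw [← ex, ← ey] at h1
  exact hxu.symm.trans ((h1.mono lp_sub_ch).trans hyv)

theorem ch_bd : bd (Ch s S l r b t a) ∩ Par l r b t ⊆ Sᶜ := by
  rintro v ⟨⟨hv, u, hu, hadj⟩, hvP⟩ hvS
  exact hv (clus_adj hu (Or.inl ⟨hvS, hvP⟩) hadj)

private theorem ch_sub_par (hbt : b ≤ t) : Ch s S l r b t a ⊆ Par l r b t := by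
  intro v hv
  rcases ch_sub hv with h | h
  · exact h
  · exact lp_sub_par hbt h

private theorem ch_comp {x : V} (h : ∀ v ∈ Lp s l r b a, ¬ Conn (Sᶜ ∩ Par l r b t) x v) :
    Disjoint (Ch s S l r b t a) (comp (Sᶜ ∩ Par l r b t) x) := by
  rw [Set.disjoint_left]
  intro v hv hv'
  rcases clus_subset hv with h1 | h1
  · exact (comp_subset hv').1 h1.1
  · exact h v h1 hv'

private theorem comp_inter {A : Set V} {x v : V} (hA : A ⊆ Par l r b t) (h : Conn A x v) :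
    Conn (comp A x ∩ Par l r b t) x v :=
  h.in_comp.mono fun _ hw => ⟨hw, hA (comp_subset hw)⟩

theorem ie_of_fst (hs : s = 1 ∨ s = -1) (h1 : l + 2 ≤ a) (h2 : a + 2 ≤ r) (h3 : b + 2 ≤ t)
    (h : Fst s Sᶜ l r b t a) : Ie s S l r b t a := by
  obtain ⟨⟨z, hz, hzc⟩, hF⟩ := h
  have hbt : b < t := by omega
  have hK := ch_comp hF
  have hKc := comp_inter Set.inter_subset_right hzc
  have hl0 : ((a - s, b) : V) ∈ Lp s l r b a := l0_mem hs h1 h2
  have hl0C : ((a - s, b) : V) ∈ Ch s S l r b t a := lp_sub_ch hl0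
  have ht0 : ((a, b) : V) ∉ Ch s S l r b t a := by
    intro h4
    exact Set.disjoint_left.1 hK h4 (Conn.refl hzc.left)
  refine ⟨?_, ?_⟩
  · rw [Set.disjoint_left]
    intro v hv hvR
    obtain ⟨v1, v2, v3, v4⟩ := hvR
    have ev : v = (v.1, b) := Prod.ext rfl v1
    have hne : v.1 ≠ a := by
      intro h4
      apply ht0
      rw [ev, h4] at hv
      exact hv
    have hlt : s * a < s * v.1 := by
      rcases hs with rfl | rfl
      · omega
      · omega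
    have hA : Conn (Ch s S l r b t a ∩ Par l r b t) (a - s, b) (v.1, b) := by
      rw [← ev]
      exact (ch_conn hs _ hl0C v hv).mono fun w hw => ⟨hw, ch_sub_par hbt.le hw⟩
    exact inter_s hs hbt hK ⟨hl0.2.1, hl0.2.2.1⟩ ⟨v2, v3⟩ hl0.2.2.2 hlt hA hKc hz
  · have hl0S : ((a - s, b) : V) ∈ S := by
      by_contra h4
      refine hF _ hl0 (Conn.of_adj hzc.left ⟨h4, lp_sub_par hbt.le hl0⟩ (adj_l0 hs).symm)
    have hb1 : l < a - s ∧ a - s < r := by
      rcases hs with rfl | rfl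
      · omega
      · omega
    rcases hexcut hb1.1 hb1.2 h3 hl0S with h4 | ⟨c1, c2, k1, k2, k3, k4, hcon⟩
    · exact h4
    · exfalso
      obtain ⟨x1, y1, hx, hy, hxm, hmy, hc⟩ : ∃ x1 y1 : ℤ, (l < x1 ∧ x1 < r) ∧
          (l < y1 ∧ y1 < r) ∧ s * x1 < s * a ∧ s * a ≤ s * y1 ∧
          Conn (Sᶜ ∩ Par l r b t) (x1, b) (y1, b) := by
        rcases hs with rfl | rfl
        · exact ⟨c1, c2, ⟨k1, by omega⟩, ⟨by omega, k4⟩, by omega, by omega, hcon⟩
        · exact ⟨c2, c1, ⟨by omega, k4⟩, ⟨k1, by omega⟩, by omega, by omega, hcon.symm⟩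
      have hxL : ((x1, b) : V) ∈ Lp s l r b a := ⟨rfl, hx.1.le, hx.2.le, hxm⟩
      rcases hmy.eq_or_lt with h4 | h4
      · have h5 : y1 = a := by
          rcases hs with rfl | rfl
          · omega
          · omega
        rw [h5] at hc
        exact hF _ hxL hc.symm
      · have hd : Disjoint (comp (Sᶜ ∩ Par l r b t) (x1, b))
            (comp (Sᶜ ∩ Par l r b t) (a, b)) := by
          rw [Set.disjoint_left]
          intro w hw hw'
          exact hF _ hxL (Conn.trans hw' (Conn.symm hw))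
        exact inter_s hs hbt hd ⟨hx.1.le, hx.2.le⟩ ⟨hy.1.le, hy.2.le⟩ hxm h4
          (comp_inter Set.inter_subset_right hc) hKc hz

theorem ie_opp (hs : s = 1 ∨ s = -1) (h1 : l + 2 ≤ a) (h2 : a + 2 ≤ r) (h3 : b + 2 ≤ t)
    (h : Ie s S l r b t a) : ((a, b) : V) ∉ S ∧ ∃ z ∈ Tp (l + 1) (r - 1) b (t - 1),
      Conn (Sᶜ ∩ Par (l + 1) (r - 1) b (t - 1)) (a, b) z := by
  obtain ⟨hd, -⟩ := h
  have hbt : b < t := by omega
  have hl0 : ((a - s, b) : V) ∈ Lp s l r b a := l0_mem hs h1 h2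
  have hl0C : ((a - s, b) : V) ∈ Ch s S l r b t a := lp_sub_ch hl0
  have ht0R : ((a, b) : V) ∈ Rp s l r b a := by
    refine ⟨rfl, ?_, ?_, le_rfl⟩
    · change l ≤ a
      omega
    · change a ≤ r
      omega
  have ht0 : ((a, b) : V) ∉ S := by
    intro h4
    exact Set.disjoint_left.1 hd
      (clus_adj hl0C (Or.inl ⟨h4, t0_mem h1 h2 hbt.le⟩) (adj_l0 hs)) ht0R
  refine ⟨ht0, ?_⟩
  rcases hexcut (S := Sᶜ) (by omega : l < a) (by omega : a < r) h3 ht0 with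
    h4 | ⟨c1, c2, k1, k2, k3, k4, hcon⟩
  · exact h4
  · exfalso
    rw [compl_compl] at hcon
    obtain ⟨x1, y1, hx, hy, hxm, hmy, hc⟩ : ∃ x1 y1 : ℤ, (l < x1 ∧ x1 < r) ∧
        (l < y1 ∧ y1 < r) ∧ s * x1 < s * a ∧ s * a ≤ s * y1 ∧
        Conn (S ∩ Par l r b t) (x1, b) (y1, b) := by
      rcases hs with rfl | rfl
      · exact ⟨c1, c2, ⟨k1, by omega⟩, ⟨by omega, k4⟩, by omega, by omega, hcon⟩
      · exact ⟨c2, c1, ⟨by omega, k4⟩, ⟨k1, by omega⟩, by omega, by omega, hcon.symm⟩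
    have hxL : ((x1, b) : V) ∈ Lp s l r b a := ⟨rfl, hx.1.le, hx.2.le, hxm⟩
    have hyR : ((y1, b) : V) ∈ Rp s l r b a := ⟨rfl, hy.1.le, hy.2.le, hmy⟩
    exact Set.disjoint_left.1 hd (ch_closed (lp_sub_ch hxL) hc) hyR

private theorem in_sub : Par (l + 1) (r - 1) b (t - 1) ⊆ Par l r b t := by
  rintro v ⟨p1, p2, p3, p4⟩
  refine ⟨?_, ?_, p3, ?_⟩ <;> omega

private theorem ie_path (hd : Disjoint (Ch s S l r b t a) (Rp s l r b a)) {u z : V}
    (hu : u ∈ Rp s l r b a) (h : Conn (S ∩ Par (l + 1) (r - 1) b (t - 1)) u z) :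
    Conn ((S ∩ Par (l + 1) (r - 1) b (t - 1)) \
        (Ch s S l r b t a ∪ bd (Ch s S l r b t a))) u z := by
  refine h.in_comp.mono fun v hv => ⟨comp_subset hv, ?_⟩
  have hv' : Conn (S ∩ Par (l + 1) (r - 1) b (t - 1)) u v := hv
  rintro (h1 | h1)
  · exact Set.disjoint_left.1 hd (ch_closed h1
      (hv'.symm.mono (Set.inter_subset_inter_right S in_sub))) hu
  · exact ch_bd ⟨h1, in_sub hv'.right.2⟩ hv'.right.1

theorem ie_two (hs : s = 1 ∨ s = -1) (h1 : l + 2 ≤ a) (h2 : a + 2 ≤ r) (h3 : b + 2 ≤ t)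
    (h1' : l + 2 ≤ a') (h2' : a' + 2 ≤ r) (h : Ie s S l r b t a) (hS : S' = S ∨ S' = Sᶜ)
    (h' : Ie s S' l r b t a') (haa : s * a < s * a') :
    ∃ u : V, (u = (a', b) ∨ u = (a' - s, b)) ∧ ∃ z ∈ Tp (l + 1) (r - 1) b (t - 1),
      Conn ((S ∩ Par (l + 1) (r - 1) b (t - 1)) \
        (Ch s S l r b t a ∪ bd (Ch s S l r b t a))) u z := by
  rcases hS with rfl | rfl
  · obtain ⟨z, hz, hc⟩ := h'.2
    refine ⟨(a' - s, b), Or.inr rfl, z, hz, ie_path h.1 ?_ hc⟩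
    have h4 := l0_mem (s := s) (b := b) hs h1' h2'
    refine ⟨rfl, h4.2.1, h4.2.2.1, ?_⟩
    change s * a ≤ s * (a' - s)
    rcases hs with rfl | rfl
    · omega
    · omega
  · obtain ⟨-, z, hz, hc⟩ := ie_opp hs h1' h2' h3 h'
    rw [compl_compl] at hc
    refine ⟨(a', b), Or.inl rfl, z, hz, ie_path h.1 ?_ hc⟩
    refine ⟨rfl, ?_, ?_, haa.le⟩
    · change l ≤ a'
      omega
    · change a' ≤ r
      omega

theorem ie_trace (hs : s = 1 ∨ s = -1) (h1 : l + 2 ≤ a) (h2 : a + 2 ≤ r) (h3 : b + 2 ≤ t) :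
    Ie s S l r b t a ↔ (Disjoint (Ch s S l r b t a) (Rp s l r b a) ∧
      ∃ z ∈ Tp (l + 1) (r - 1) b (t - 1),
        Conn ((S ∩ (Par l r b t ∩ (Ch s S l r b t a ∪ bd (Ch s S l r b t a)))) ∩
          Par (l + 1) (r - 1) b (t - 1)) (a - s, b) z) := by
  refine and_congr_right fun hd => ?_
  constructor
  · rintro ⟨z, hz, hc⟩
    refine ⟨z, hz, hc.in_comp.mono fun v hv => ?_⟩
    have hv' : Conn (S ∩ Par (l + 1) (r - 1) b (t - 1)) (a - s, b) v := hv
    have hvS := hv'.right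
    refine ⟨⟨hvS.1, in_sub hvS.2, Or.inl ?_⟩, hvS.2⟩
    exact ch_closed (lp_sub_ch (l0_mem hs h1 h2))
      (hv'.mono (Set.inter_subset_inter_right S in_sub))
  · rintro ⟨z, hz, hc⟩
    exact ⟨z, hz, hc.mono fun v hv => ⟨hv.1.1, hv.2⟩⟩

private theorem ph_set (h : PH S l r b t) :
    ∃ K : Set V, K ⊆ S ∩ Par l r b t ∧ IsConn K ∧ PH K l r b t := by
  obtain ⟨u, hu, v, hv, hc⟩ := h
  obtain ⟨K, hK, huK, hvK, hKc⟩ := hc.finset
  exact ⟨K, hK, hKc, u, hu, v, hv, (hKc u huK v hvK).mono fun x hx => ⟨hx, (hK hx).2⟩⟩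

private theorem pv_set (h : PV S l r b t) :
    ∃ K : Set V, K ⊆ S ∩ Par l r b t ∧ IsConn K ∧ PV K l r b t := by
  obtain ⟨u, hu, v, hv, hc⟩ := h
  obtain ⟨K, hK, huK, hvK, hKc⟩ := hc.finset
  exact ⟨K, hK, hKc, u, hu, v, hv, (hKc u huK v hvK).mono fun x hx => ⟨hx, (hK hx).2⟩⟩

private theorem meet {K1 K2 : Set V} {l1 r1 b1 t1 l2 r2 b2 t2 : ℤ} (h1 : PH K1 l1 r1 b1 t1)
    (h2 : PV K2 l2 r2 b2 t2) (hl : l1 ≤ l2) (hlr : l2 ≤ r2) (hr : r2 ≤ r1) (hb : b2 ≤ b1)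
    (hbt : b1 ≤ t1) (ht : t1 ≤ t2) : ∃ z, z ∈ K1 ∧ z ∈ K2 := by
  have h3 := ph_sub (l' := l2) (r' := r2) (b' := b1) (t' := t1) hl hr hlr le_rfl le_rfl h1
  have h4 := pv_sub (l' := l2) (r' := r2) (b' := b1) (t' := t1) hb ht hbt le_rfl le_rfl h2
  obtain ⟨z, ⟨u, -, v, hv, hc⟩, -, ⟨u', -, v', hv', hc'⟩, -⟩ := ph_meet_pv h3 h4
  have e1 : v = z := hv
  have e2 : v' = z := hv'
  refine ⟨z, ?_, ?_⟩
  · rw [← e1]
    exact hc.right.1
  · rw [← e2]
    exact hc'.right.1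

private theorem route {Z : Set V} {r1 r2 l1 l2 : ℤ} (hk : 1 ≤ k)
    (hHB : PH Z (a - 16 * k) (a + 16 * k) (b - 16 * k) (b - 8 * k))
    (hHT : PH Z (a - 16 * k) (a + 16 * k) (b + 8 * k) (b + 16 * k))
    (hR : PV Z r1 r2 (b - 16 * k) (b + 16 * k)) (hL : PV Z l1 l2 (b - 16 * k) (b + 16 * k))
    (r0 : a - 16 * k ≤ r1) (r12 : r1 ≤ r2) (r3 : r2 ≤ a + 16 * k)
    (l0 : a - 16 * k ≤ l1) (l12 : l1 ≤ l2) (l3 : l2 ≤ a + 16 * k) :
    ∃ y, b - 16 * k ≤ y ∧ y ≤ b - 8 * k ∧ ∃ e : V, e.2 = b ∧ l1 ≤ e.1 ∧ e.1 ≤ l2 ∧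
      Conn (Z ∩ (Par (a - 16 * k) (a + 16 * k) (b - 16 * k) (b - 8 * k) ∪
        Par r1 r2 (b - 16 * k) (b + 16 * k) ∪
        Par (a - 16 * k) (a + 16 * k) (b + 8 * k) (b + 16 * k) ∪
        Par l1 l2 b (b + 16 * k))) (a, y) e := by
  obtain ⟨K1, s1, c1, p1⟩ := ph_set hHB
  obtain ⟨K2, s2, c2, p2⟩ := pv_set hR
  obtain ⟨K3, s3, c3, p3⟩ := ph_set hHT
  obtain ⟨K4, s4, c4, p4⟩ := pv_set hL
  obtain ⟨z12, z1, z2⟩ := meet p1 p2 r0 r12 r3 le_rfl (by omega) (by omega)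
  obtain ⟨z32, z3, z2'⟩ := meet p3 p2 r0 r12 r3 (by omega) (by omega) le_rfl
  obtain ⟨z34, z3', z4⟩ := meet p3 p4 l0 l12 l3 (by omega) (by omega) le_rfl
  obtain ⟨u, hu, v, hv, hc⟩ := p1
  have hu' : u.1 ≤ a - 16 * k := hu
  have hv' : a + 16 * k ≤ v.1 := hv
  obtain ⟨x, hx, hxa, -, -⟩ := hit_col (a := a) hc (by omega) (by omega)
  have ex : x = (a, x.2) := Prod.ext hxa rfl
  obtain ⟨-, -, hx3, hx4⟩ := hx.2
  obtain ⟨u4, hu4, v4, hv4, hc4⟩ := p4
  have hu4' : u4.2 ≤ b - 16 * k := hu4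
  obtain ⟨-, -, hz3, -⟩ := (s3 z3').2
  have hzA : z34 ∈ {v : V | b < v.2} := by
    change b < z34.2
    omega
  have huA : u4 ∉ {v : V | b < v.2} := by
    intro h
    have h' : b < u4.2 := h
    omega
  obtain ⟨x5, e, hx5, he, hadj, hc5, hc6⟩ :=
    (c4 z34 z4 u4 hc4.left.1).exit hzA huA
  have hx5' : b < x5.2 := hx5
  have he' : ¬ b < e.2 := he
  have heK := hc6.left
  obtain ⟨q1, q2, q3, q4⟩ := (s4 heK).2
  have heb : e.2 = b := by
    unfold Adj at hadj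
    omega
  refine ⟨x.2, hx3, hx4, e, heb, q1, q2, ?_⟩
  rw [← ex]
  have w1 : Conn (Z ∩ (Par (a - 16 * k) (a + 16 * k) (b - 16 * k) (b - 8 * k) ∪
        Par r1 r2 (b - 16 * k) (b + 16 * k) ∪
        Par (a - 16 * k) (a + 16 * k) (b + 8 * k) (b + 16 * k) ∪
        Par l1 l2 b (b + 16 * k))) x z12 :=
    (c1 x hx.1 z12 z1).mono fun w hw => ⟨(s1 hw).1, Or.inl (Or.inl (Or.inl (s1 hw).2))⟩
  have w2 : Conn (Z ∩ (Par (a - 16 * k) (a + 16 * k) (b - 16 * k) (b - 8 * k) ∪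
        Par r1 r2 (b - 16 * k) (b + 16 * k) ∪
        Par (a - 16 * k) (a + 16 * k) (b + 8 * k) (b + 16 * k) ∪
        Par l1 l2 b (b + 16 * k))) z12 z32 :=
    (c2 z12 z2 z32 z2').mono fun w hw => ⟨(s2 hw).1, Or.inl (Or.inl (Or.inr (s2 hw).2))⟩
  have w3 : Conn (Z ∩ (Par (a - 16 * k) (a + 16 * k) (b - 16 * k) (b - 8 * k) ∪
        Par r1 r2 (b - 16 * k) (b + 16 * k) ∪
        Par (a - 16 * k) (a + 16 * k) (b + 8 * k) (b + 16 * k) ∪
        Par l1 l2 b (b + 16 * k))) z32 z34 :=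
    (c3 z32 z3 z34 z3').mono fun w hw => ⟨(s3 hw).1, Or.inl (Or.inr (s3 hw).2)⟩
  have w4 : Conn (Z ∩ (Par (a - 16 * k) (a + 16 * k) (b - 16 * k) (b - 8 * k) ∪
        Par r1 r2 (b - 16 * k) (b + 16 * k) ∪
        Par (a - 16 * k) (a + 16 * k) (b + 8 * k) (b + 16 * k) ∪
        Par l1 l2 b (b + 16 * k))) z34 x5 := by
    refine hc5.mono fun w hw => ⟨(s4 hw.1).1, Or.inr ?_⟩
    obtain ⟨g1, g2, g3, g4⟩ := (s4 hw.1).2
    exact ⟨g1, g2, le_of_lt hw.2, g4⟩
  have w5 : e ∈ Z ∩ (Par (a - 16 * k) (a + 16 * k) (b - 16 * k) (b - 8 * k) ∪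
        Par r1 r2 (b - 16 * k) (b + 16 * k) ∪
        Par (a - 16 * k) (a + 16 * k) (b + 8 * k) (b + 16 * k) ∪
        Par l1 l2 b (b + 16 * k)) :=
    ⟨(s4 heK).1, Or.inr ⟨q1, q2, heb.ge, q4⟩⟩
  exact w1.trans (w2.trans (w3.trans (w4.trans (Conn.of_adj w4.right w5 hadj))))

/-- The region of the route. -/
private def Wr (s b a k : ℤ) : Set V :=
  {v | v ∈ Par (a - 16 * k) (a + 16 * k) (b - 16 * k) (b + 16 * k) ∧
    (v.2 ≤ b - 8 * k ∨ s * a + 8 * k ≤ s * v.1 ∨ b + 8 * k ≤ v.2 ∨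
      (s * v.1 ≤ s * a - 8 * k ∧ b ≤ v.2))}

private theorem route_s {Z : Set V} (hs : s = 1 ∨ s = -1) (hk : 1 ≤ k)
    (h1 : l < a - 16 * k) (h2 : a + 16 * k < r) (hZ : Cr4 Z (a, b) (8 * k) (16 * k)) :
    ∃ y, b - 16 * k ≤ y ∧ y ≤ b - 8 * k ∧ ∃ e ∈ Lp s l r b a, Conn (Z ∩ Wr s b a k) (a, y) e := by
  obtain ⟨z1, z2, z3, z4⟩ := hZ
  rcases hs with rfl | rfl
  · obtain ⟨y, hy1, hy2, e, he, e1, e2, hc⟩ := route hk z1 z2 z4 z3
      (by change a - 16 * k ≤ a + 8 * k; omega) (by change a + 8 * k ≤ a + 16 * k; omega)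
      (by change a + 16 * k ≤ a + 16 * k; omega) (by change a - 16 * k ≤ a - 16 * k; omega)
      (by change a - 16 * k ≤ a - 8 * k; omega) (by change a - 8 * k ≤ a + 16 * k; omega)
    have e1' : a - 16 * k ≤ e.1 := e1
    have e2' : e.1 ≤ a - 8 * k := e2
    refine ⟨y, hy1, hy2, e, ⟨he, by omega, by omega, by omega⟩, hc.mono fun v hv => ⟨hv.1, ?_⟩⟩
    rcases hv.2 with ((h | h) | h) | h
    · obtain ⟨g1, g2, g3, g4⟩ := h
      refine ⟨⟨g1, g2, g3, ?_⟩, Or.inl g4⟩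
      omega
    · obtain ⟨g1, g2, g3, g4⟩ := h
      change a + 8 * k ≤ v.1 at g1
      change v.1 ≤ a + 16 * k at g2
      refine ⟨⟨?_, g2, g3, g4⟩, Or.inr (Or.inl ?_)⟩
      · omega
      · omega
    · obtain ⟨g1, g2, g3, g4⟩ := h
      refine ⟨⟨g1, g2, ?_, g4⟩, Or.inr (Or.inr (Or.inl g3))⟩
      omega
    · obtain ⟨g1, g2, g3, g4⟩ := h
      change a - 16 * k ≤ v.1 at g1
      change v.1 ≤ a - 8 * k at g2
      refine ⟨⟨g1, ?_, ?_, g4⟩, Or.inr (Or.inr (Or.inr ⟨?_, g3⟩))⟩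
      · omega
      · omega
      · omega
  · obtain ⟨y, hy1, hy2, e, he, e1, e2, hc⟩ := route hk z1 z2 z3 z4
      (by change a - 16 * k ≤ a - 16 * k; omega) (by change a - 16 * k ≤ a - 8 * k; omega)
      (by change a - 8 * k ≤ a + 16 * k; omega) (by change a - 16 * k ≤ a + 8 * k; omega)
      (by change a + 8 * k ≤ a + 16 * k; omega) (by change a + 16 * k ≤ a + 16 * k; omega)
    have e1' : a + 8 * k ≤ e.1 := e1
    have e2' : e.1 ≤ a + 16 * k := e2
    refine ⟨y, hy1, hy2, e, ⟨he, by omega, by omega, by omega⟩, hc.mono fun v hv => ⟨hv.1, ?_⟩⟩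
    rcases hv.2 with ((h | h) | h) | h
    · obtain ⟨g1, g2, g3, g4⟩ := h
      refine ⟨⟨g1, g2, g3, ?_⟩, Or.inl g4⟩
      omega
    · obtain ⟨g1, g2, g3, g4⟩ := h
      change a - 16 * k ≤ v.1 at g1
      change v.1 ≤ a - 8 * k at g2
      refine ⟨⟨g1, ?_, g3, g4⟩, Or.inr (Or.inl ?_)⟩
      · omega
      · omega
    · obtain ⟨g1, g2, g3, g4⟩ := h
      refine ⟨⟨g1, g2, ?_, g4⟩, Or.inr (Or.inr (Or.inl g3))⟩
      omega
    · obtain ⟨g1, g2, g3, g4⟩ := h
      change a + 8 * k ≤ v.1 at g1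
      change v.1 ≤ a + 16 * k at g2
      refine ⟨⟨?_, g2, ?_, g4⟩, Or.inr (Or.inr (Or.inr ⟨?_, g3⟩))⟩
      · omega
      · omega
      · omega

theorem fence (hs : s = 1 ∨ s = -1) (hk : 1 ≤ k) (h1 : l < a - 16 * k) (h2 : a + 16 * k < r)
    (h3 : b + 16 * k < t) (h : Fst s T l r b t a)
    (hZ : Cr4 ((T ∩ Gc l r b t a (Ch s Tᶜ l r b t a)) ∪ (Gc l r b t a (Ch s Tᶜ l r b t a))ᶜ)
      (a, b) (8 * k) (16 * k)) : Fnc T l r b t a k := by
  have hbt : b < t := by omega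
  obtain ⟨⟨z, hz, hzc⟩, hF⟩ := h
  have hF' : ∀ v ∈ Lp s l r b a, ¬ Conn (Tᶜᶜ ∩ Par l r b t) (a, b) v := by
    rw [compl_compl]
    exact hF
  have hIe : Ie s Tᶜ l r b t a := by
    refine ie_of_fst hs (by omega) (by omega) (by omega) ⟨⟨z, hz, ?_⟩, hF'⟩
    rw [compl_compl]
    exact hzc
  have hK := ch_comp hF'
  rw [compl_compl] at hK
  obtain ⟨C, hC⟩ : ∃ C, C = Ch s Tᶜ l r b t a := ⟨_, rfl⟩
  have hdis : Disjoint C (Rp s l r b a) := hC ▸ hIe.1
  have hLC : Lp s l r b a ⊆ C := hC ▸ lp_sub_ch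
  have hCP : C ⊆ Par l r b t := hC ▸ ch_sub_par hbt.le
  have hCc : IsConn C := hC ▸ ch_conn hs
  have hCbd : bd C ∩ Par l r b t ⊆ T := by
    have h4 := ch_bd (s := s) (S := Tᶜ) (l := l) (r := r) (b := b) (t := t) (a := a)
    rw [compl_compl, ← hC] at h4
    exact h4
  rw [← hC] at hK hZ
  have ht0P : ((a, b) : V) ∈ Par l r b t := t0_mem (by omega) (by omega) hbt.le
  have hRU : Rp s l r b a ⊆ comp (Par l r b t \ C) (a, b) := by
    intro v hv
    have h4 : Conn (Rp s l r b a) (a, b) (v.1, b) := by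
      obtain ⟨-, v2, v3, v4⟩ := hv
      refine conn_row fun c hc1 hc2 => ?_
      rcases hs with rfl | rfl
      · refine ⟨rfl, ?_, ?_, ?_⟩
        · change l ≤ c
          omega
        · change c ≤ r
          omega
        · change 1 * a ≤ 1 * c
          omega
      · refine ⟨rfl, ?_, ?_, ?_⟩
        · change l ≤ c
          omega
        · change c ≤ r
          omega
        · change -1 * a ≤ -1 * c
          omega
    have ev : v = (v.1, b) := Prod.ext rfl hv.1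
    rw [← ev] at h4
    refine h4.mono fun w hw => ⟨?_, fun hwC => Set.disjoint_left.1 hdis hwC hw⟩
    obtain ⟨w1, w2, w3, -⟩ := hw
    exact ⟨w2, w3, w1.ge, w1.le.trans hbt.le⟩
  obtain ⟨y, hy1, hy2, e, heL, hcon⟩ := route_s hs hk h1 h2 hZ
  have hWD : ∀ v ∈ Wr s b a k, b ≤ v.2 → v ∈ Par l r b t := by
    rintro v ⟨⟨g1, g2, g3, g4⟩, -⟩ hvb
    refine ⟨?_, ?_, hvb, ?_⟩ <;> omega
  have hyb : y < b := by omega
  have hyG : ((a, y) : V) ∈ Gc l r b t a C := Or.inl hyb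
  have heG : e ∉ Gc l r b t a C := by
    rintro (h4 | h4)
    · have h5 : e.2 < b := h4
      have h6 := heL.1
      omega
    · exact (comp_subset h4.1).2 (hLC heL)
  obtain ⟨x, y', hx, hy', hadj, hc1, hc2⟩ := hcon.exit hyG heG
  have hxW : x ∈ Wr s b a k := hc1.right.1.2
  have hy'W : y' ∈ Wr s b a k := hc2.left.2
  have hy'b : b ≤ y'.2 := by
    by_contra h4
    exact hy' (Or.inl (not_le.1 h4))
  have hy'D : y' ∈ Par l r b t := hWD y' hy'W hy'b
  have hstep : ∀ {x y : V}, x ∈ Wr s b a k → x.2 < b → Adj x y → b ≤ y.2 →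
      y.2 = b ∧ s * a < s * y.1 := by
    intro x y hx hxb hxy hyb'
    obtain ⟨-, h5⟩ := hx
    have h6 := (s_adj hs hxy).1
    have h7 : x.2 = b - 1 ∧ y.2 = b := by
      unfold Adj at hxy
      omega
    refine ⟨h7.2, ?_⟩
    omega
  have hU : y' ∈ comp (Par l r b t \ C) (a, b) := by
    rcases hx with hx | hx
    · obtain ⟨h5, h6⟩ := hstep hxW hx hadj hy'b
      exact hRU ⟨h5, hy'D.1, hy'D.2.1, h6.le⟩
    · have hy'C : y' ∉ C := fun h4 => hx.2 ⟨(comp_subset hx.1).2, y', h4, hadj.symm⟩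
      exact comp_adj hx.1 ⟨hy'D, hy'C⟩ hadj
  have hbd : y' ∈ bd C := by
    by_contra h4
    exact hy' (Or.inr ⟨hU, h4⟩)
  have hy'T : y' ∈ T := hCbd ⟨hbd, hy'D⟩
  have hcT : Conn (T ∩ Wr s b a k) (a, y) y' := by
    have h4 : Conn (T ∩ Wr s b a k) (a, y) x := hc1.mono (by
      rintro v ⟨⟨h5 | h5, h6⟩, h7⟩
      · exact ⟨h5.1, h6⟩
      · exact absurd h7 h5)
    exact h4.trans (Conn.of_adj h4.right ⟨hy'T, hy'W⟩ hadj)
  have hyA : ((a, y) : V) ∈ {v : V | v.2 < b} := hyb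
  have hy'A : y' ∉ {v : V | v.2 < b} := fun h4 => absurd h4 (not_lt.2 hy'b)
  obtain ⟨x2, e2, hx2, he2, hadj2, hc3, hc4⟩ := hcT.last hyA hy'A
  have he2b : b ≤ e2.2 := not_lt.1 he2
  obtain ⟨he2b', he2s⟩ := hstep hc3.right.2 hx2 hadj2 he2b
  have hc5 : Conn (T ∩ Par l r b t) e2 y' := hc4.mono (by
    rintro v ⟨⟨h5, h6⟩, h7⟩
    exact ⟨h5, hWD v h6 (not_lt.1 h7)⟩)
  have he2e : e2 = (e2.1, b) := Prod.ext rfl he2b'
  have he2D : e2 ∈ Par l r b t := hc5.left.2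
  have hl0 : ((a - s, b) : V) ∈ Lp s l r b a := l0_mem hs (by omega) (by omega)
  have hjoin : Conn (T ∩ Par l r b t) (a, b) e2 := by
    by_contra hno
    obtain ⟨-, w, hwC, hwadj⟩ := hbd
    have hd : Disjoint (C ∪ comp (T ∩ Par l r b t) e2) (comp (T ∩ Par l r b t) (a, b)) := by
      rw [Set.disjoint_left]
      rintro v (h4 | h4) h5
      · exact Set.disjoint_left.1 hK h4 h5
      · exact hno (Conn.trans h5 (Conn.symm h4))
    have hA : Conn ((C ∪ comp (T ∩ Par l r b t) e2) ∩ Par l r b t) (a - s, b) (e2.1, b) := by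
      rw [← he2e]
      have h4 : Conn ((C ∪ comp (T ∩ Par l r b t) e2) ∩ Par l r b t) (a - s, b) w :=
        (hCc _ (hLC hl0) w hwC).mono fun v hv => ⟨Or.inl hv, hCP hv⟩
      have h5 : Conn ((C ∪ comp (T ∩ Par l r b t) e2) ∩ Par l r b t) y' e2 :=
        (comp_inter Set.inter_subset_right hc5).symm.mono
          fun v hv => ⟨Or.inr hv.1, hv.2⟩
      exact h4.trans ((Conn.of_adj h4.right h5.left hwadj).trans h5)
    exact inter_s hs hbt hd ⟨hl0.2.1, hl0.2.2.1⟩ ⟨he2D.1, he2D.2.1⟩ hl0.2.2.2 he2s hA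
      (comp_inter Set.inter_subset_right hzc) hz
  refine ⟨y, hy1, hy2, ?_⟩
  have hWS : Wr s b a k ⊆ Sq (a, b) (16 * k) := by
    intro v hv
    rw [sq_eq]
    exact hv.1
  have g1 : Conn (T ∩ (Par l r b t ∪ Sq (a, b) (16 * k))) (a, b) e2 :=
    hjoin.mono fun v hv => ⟨hv.1, Or.inl hv.2⟩
  have g2 : Conn (T ∩ (Par l r b t ∪ Sq (a, b) (16 * k))) x2 (a, y) :=
    hc3.symm.mono fun v hv => ⟨hv.1, Or.inr (hWS hv.2)⟩
  exact g1.trans ((Conn.of_adj g1.right g2.left hadj2.symm).trans g2)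

end Pool.Agent.TriPerc
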