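import Pool.Agent.TriPerc.Loc
import Pool.Agent.TriPerc.OneArm

/-!
# Landing of arms on a straight boundary (probabilities)

The box is `Par (x-h) (x+h) b (b+h)`; positions `a` with `4 |a - x| ≤ h`.  `σ, σ'` are colours.
* `arm_up`: under `Rsw c p N`, `1 ≤ n`, `3 n ≤ 2 m`... the one-arm probability of an annulus of
  ratio at least `4/3` is at most `1 - c ^ 6`: `circ_open`, `circ_closed`
  (`P (Arm) = 1 - P (¬ Arm)`).
* `ie_fresh`: the abstract step.  Let `H c` be events with `P (H c) ≤ q` for all `c`, where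
  `H c` depends only on the labels of a finite set minus `D ∩ (c ∪ bd c)`.  Then
  `P {Ie s (Co σ p w) at a, and w ∈ H (Ch ..)} ≤ q P {Ie s (Co σ p w) at a}`.  PROOF: `explore` with
  `L = Lp`, and `Q c T := Disjoint c Rp ∧ ∃ z ∈ Tp (l+1) .., Conn (T ∩ Par (l+1) ..) (a - s, b) z`;
  `ie_trace` identifies `Q` with `Ie`.
* `ie_next`: `P (Ie_a ∧ ∃ a' beyond a within distance d, ∃ σ', Ie_a') ≤ q P (Ie_a)` where `q` bounds the
  probability of an arm of colour `σ` across `Ann (a, b) (d + 1) m`, `4 m ≤ 3 h - 4`, `d + 1 ≤ m`.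
  PROOF: `ie_two` and `hit_arm`: the path found in `ie_two` starts at a vertex `u` with
  `nrm (u - (a, b)) ≤ d + 1` and ends at a vertex `z` with `sn (z - (a, b)) ≥ m`; so it is in the event
  `H c = {w | Arm (Co σ p w \ (c ∪ bd c)...) (a, b) (d+1) m}`, more precisely
  `H c = {w | Arm ((Co σ p w ∩ D) \ (c ∪ bd c)) (a, b) (d + 1) m}`, which is contained in
  `{w | Arm (Co σ p w) (a, b) (d + 1) m}` and depends on the labels of `D \ (c ∪ bd c)`.
  (`Co σ' p w` is `Co σ p w` or its complement, `co_not`.)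
* `ie_sum`: `∑_{a} ∑_{σ} P (Ie s (Co σ p w) at a) ≤ 1 / c ^ 6`.  PROOF: for fixed `a` the two colours
  exclude each other (`(a - s, b)` has one colour), so `E a = Ie_a,true ∪ Ie_a,false` satisfies
  `P (E a) = ∑_σ`.  Enumerate the positions in the direction `s` (`i ↦ x - s (h / 4) + s i`);
  `last_count` with the constant `c ^ 6`, the hypothesis is `ie_next` with `d = h / 2 + 1`,
  `m = (3 h - 4) / 4`, and `arm_up` (`h ≥ 64`).
* `ie_fence`: `P (Fst s (Co σ p w) at a and no fence Fnc (Co σ p w) .. k for k = 4 ^ i u, i < κ)`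
  `≤ (1 - c') ^ κ P (Ie s (Co (!σ) p w) at a)`.  PROOF: `ie_of_fst`, `fence`, `ie_fresh` with
  `H c = {w | ∀ i < κ, ¬ Cr4 ((Co σ p w ∩ Gc c) ∪ (Gc c)ᶜ) (a, b) (8 k_i) (16 k_i)}`; this depends on the
  labels of `Gc c ∩ Sq (a, b) (16 k)`, which is disjoint from `D ∩ (c ∪ bd c)`; it is contained in
  `{w | ∀ i < κ, ¬ Cr4 (Co σ p w) (a, b) (8 k_i) (16 k_i)}` (`cr4_mono`), whose probability is at most
  `(1 - c') ^ κ` by `cr4_prob` and independence (`indep_iInter`; the annuli `SA (a, b) (8 k_i) (16 k_i)`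
  are disjoint as `k_(i+1) = 4 k_i`).
* `badL_prob`: union bound.  If `w ∈ BadL` then for some `a, σ`: `Fst` at `a` without fence, or two
  different positions `a, a'` at distance `≤ d` with `Fst`; call `a` the first one in the direction
  `s`; by `ie_of_fst` both have `Ie` (for the opposite colours) and `ie_next` applies.  The sum over
  `a, σ` is at most `(1 / c ^ 6) ((1 - c') ^ κ + C ((d + 1) / m) ^ α)` (`one_arm_up`).  Choose `κ`, then `Θ`.
-/

namespace Pool.Agent.TriPerc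

open MeasureTheory

/-- The bad event of a boundary box of half width and height `h`, centred at the column `x`, on the
row `b`: some first landing vertex has no fence at the scales `k ∈ ks`, or two of them are at
distance at most `d`. -/
def BadL (s : ℤ) (p : ℝ) (x b h d : ℤ) (ks : Finset ℤ) : Set Lab :=
  {w | ∃ a : ℤ, 4 * |a - x| ≤ h ∧ ∃ σ : Bool,
    Fst s (Co σ p w) (x - h) (x + h) b (b + h) a ∧
    ((∀ k ∈ ks, ¬ Fnc (Co σ p w) (x - h) (x + h) b (b + h) a k) ∨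
      ∃ a' : ℤ, ∃ σ' : Bool, a' ≠ a ∧ 4 * |a' - x| ≤ h ∧ |a' - a| ≤ d ∧
        Fst s (Co σ' p w) (x - h) (x + h) b (b + h) a')}

/-- The scales `u, 4 u, 16 u, ...`. -/
def scl (u : ℤ) (κ : ℕ) : Finset ℤ := (Finset.range κ).image fun i => 4 ^ i * u

variable {s x b h d a m : ℤ} {p c q : ℝ} {N : ℤ}

private theorem lp_mono {A B : Set Lab} (h : A ⊆ B) : (P A).toReal ≤ (P B).toReal :=
  ENNReal.toReal_mono (measure_ne_top P B) (measure_mono h)

private theorem lp_compl {A : Set Lab} (hA : MeasurableSet A) :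
    (P A).toReal = 1 - (P Aᶜ).toReal := by
  rw [prob_compl_eq_one_sub hA, ENNReal.toReal_sub_of_le prob_le_one ENNReal.one_ne_top,
    ENNReal.toReal_one]
  ring

theorem arm_up (hR : Rsw c p N) (σ : Bool) (z : V) {n m : ℤ} (hn : 1 ≤ n) (hm : m ≤ N)
    (h : 4 * n ≤ 3 * m) : (P {w | Arm (Co σ p w) z n m}).toReal ≤ 1 - c ^ 6 := by
  cases σ
  · have h1 := circ_open (z := z) hR hn (show n < m by omega) (by omega) (by omega)
    have h3 := lp_compl (ev_arm_cl p z n m).1.1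
    have h4 : {w | Arm (Cl p w) z n m}ᶜ = {w | ¬ Arm (Cl p w) z n m} := rfl
    rw [h4] at h3
    have h5 : {w | Arm (Co false p w) z n m} = {w | Arm (Cl p w) z n m} := rfl
    rw [h5]
    linarith
  · have h1 := circ_closed (z := z) hR hn (show n < m by omega) (by omega) (by omega)
    have h3 := lp_compl (ev_arm p z n m).1.1
    have h4 : {w | Arm (Op p w) z n m}ᶜ = {w | ¬ Arm (Op p w) z n m} := rfl
    rw [h4] at h3
    have h5 : {w | Arm (Co true p w) z n m} = {w | Arm (Op p w) z n m} := rfl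
    rw [h5]
    linarith

private theorem lp_nrm {u : V} {n : ℤ} :
    nrm u ≤ n ↔ |u.1| ≤ n ∧ |u.2| ≤ n ∧ |u.1 + u.2| ≤ n := by
  unfold nrm
  rw [max_le_iff, max_le_iff, and_assoc]

private theorem lp_bounds (hh : 16 ≤ h) (ha : 4 * |a - x| ≤ h) :
    x - h + 2 ≤ a ∧ a + 2 ≤ x + h := by
  have h1 := abs_le.1 (show |a - x| ≤ h / 4 by omega)
  omega

private theorem lp_sub (hh : 0 ≤ h) :
    Lp s (x - h) (x + h) b a ⊆ Par (x - h) (x + h) b (b + h) := by
  rintro v ⟨h1, h2, h3, -⟩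
  exact ⟨h2, h3, h1.ge, by omega⟩

private theorem lp_par {l r b t : ℤ} : Par (l + 1) (r - 1) b (t - 1) ⊆ Par l r b t := by
  rintro v ⟨h1, h2, h3, h4⟩
  exact ⟨by omega, by omega, h3, by omega⟩

theorem ie_fresh (hs : s = 1 ∨ s = -1) (hh : 16 ≤ h) (ha : 4 * |a - x| ≤ h) (σ : Bool) (p : ℝ)
    (H : Set V → Set Lab) {F : Set V} (hF : F.Finite) (hq : 0 ≤ q)
    (hH : ∀ c, Ev (F \ (Par (x - h) (x + h) b (b + h) ∩ (c ∪ bd c))) (H c))
    (hHq : ∀ c, (P (H c)).toReal ≤ q) :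
    (P {w | Ie s (Co σ p w) (x - h) (x + h) b (b + h) a ∧
      w ∈ H (Ch s (Co σ p w) (x - h) (x + h) b (b + h) a)}).toReal ≤
    q * (P {w | Ie s (Co σ p w) (x - h) (x + h) b (b + h) a}).toReal := by
  obtain ⟨h1, h2⟩ := lp_bounds hh ha
  have h3 : b + 2 ≤ b + h := by omega
  have key := explore (D := Par (x - h) (x + h) b (b + h)) (L := Lp s (x - h) (x + h) b a)
    (finite_par _ _ _ _) (lp_sub (by omega)) hF σ p
    (fun c T => Disjoint c (Rp s (x - h) (x + h) b a) ∧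
      ∃ z ∈ Tp (x - h + 1) (x + h - 1) b (b + h - 1),
        Conn (T ∩ Par (x - h + 1) (x + h - 1) b (b + h - 1)) (a - s, b) z) H hq hH hHq
  have e : ∀ w : Lab, Ie s (Co σ p w) (x - h) (x + h) b (b + h) a ↔ _ :=
    fun w => ie_trace (S := Co σ p w) hs h1 h2 h3
  simp only [e]
  exact key

theorem ie_next (hs : s = 1 ∨ s = -1) (hh : 16 ≤ h) (ha : 4 * |a - x| ≤ h) (hd : 0 ≤ d)
    (hdm : d + 1 ≤ m) (hm : 4 * m ≤ 3 * h - 4) (σ : Bool) (p : ℝ)
    (hq : (P {w | Arm (Co σ p w) (a, b) (d + 1) m}).toReal ≤ q) :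
    (P {w | Ie s (Co σ p w) (x - h) (x + h) b (b + h) a ∧ ∃ a' : ℤ, ∃ σ' : Bool,
      4 * |a' - x| ≤ h ∧ s * a < s * a' ∧ |a' - a| ≤ d ∧
      Ie s (Co σ' p w) (x - h) (x + h) b (b + h) a'}).toReal ≤
    q * (P {w | Ie s (Co σ p w) (x - h) (x + h) b (b + h) a}).toReal := by
  obtain ⟨h1, h2⟩ := lp_bounds hh ha
  have h3 : b + 2 ≤ b + h := by omega
  have hax := abs_le.1 (show |a - x| ≤ h / 4 by omega)
  have hq0 : 0 ≤ q := ENNReal.toReal_nonneg.trans hq
  have key := ie_fresh (b := b) hs hh ha σ p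
    (fun c => {w | Arm (Co σ p w ∩ (Par (x - h) (x + h) b (b + h) \
      (Par (x - h) (x + h) b (b + h) ∩ (c ∪ bd c)))) (a, b) (d + 1) m})
    (F := Par (x - h) (x + h) b (b + h)) (finite_par _ _ _ _) hq0
    (fun c => ev_co ((finite_par _ _ _ _).subset Set.sdiff_subset) σ p
      (fun S => Arm S (a, b) (d + 1) m))
    (fun c => (lp_mono fun w hw => arm_mono Set.inter_subset_left hw).trans hq)
  refine (lp_mono ?_).trans key
  rintro w ⟨hI, a', σ', ha', haa, hd', hI'⟩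
  obtain ⟨h1', h2'⟩ := lp_bounds hh ha'
  have hax' := abs_le.1 hd'
  have hS : Co σ' p w = Co σ p w ∨ Co σ' p w = (Co σ p w)ᶜ := by
    by_cases he : σ' = σ
    · left
      rw [he]
    · right
      rw [← co_not, Bool.eq_not_of_ne he]
  obtain ⟨u, hu, z, hz, hc⟩ := ie_two hs h1 h2 h3 h1' h2' hI hS hI' haa
  refine ⟨hI, arm_of_conn (u := u) (v := z) (hc.mono ?_) ?_ ?_ hdm⟩
  · rintro v ⟨⟨v1, v2⟩, v3⟩
    exact ⟨v1, lp_par v2, fun h4 => v3 h4.2⟩
  · rw [lp_nrm]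
    rcases hu with rfl | rfl
    · simp only [Prod.fst_sub, Prod.snd_sub, sub_self, abs_zero, add_zero]
      omega
    · have h4 : |a' - s - a| ≤ d + 1 := by
        rw [abs_le]
        omega
      simp only [Prod.fst_sub, Prod.snd_sub, sub_self, abs_zero, add_zero]
      omega
  · obtain ⟨k1, k2, -⟩ := lp_nrm.1 (le_refl (nrm (z - (a, b))))
    simp only [Prod.fst_sub, Prod.snd_sub] at k1 k2
    have k3 := abs_le.1 k1
    have k4 := abs_le.1 k2
    obtain ⟨-, hz | hz | hz⟩ := hz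
    · omega
    · omega
    · omega

private theorem ie_inter {S : Set V} {l r b t a : ℤ} :
    Ie s (S ∩ Par l r b t) l r b t a ↔ Ie s S l r b t a := by
  have h1 : Ch s (S ∩ Par l r b t) l r b t a = Ch s S l r b t a := by
    unfold Ch
    rw [Set.inter_assoc, Set.inter_self]
  have h2 : (S ∩ Par l r b t) ∩ Par (l + 1) (r - 1) b (t - 1) =
      S ∩ Par (l + 1) (r - 1) b (t - 1) := by
    rw [Set.inter_assoc, Set.inter_eq_right.2 lp_par]
  unfold Ie
  rw [h1, h2]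

private theorem ev_ie (σ : Bool) (p : ℝ) (l r b t a : ℤ) :
    Ev (Par l r b t) {w | Ie s (Co σ p w) l r b t a} := by
  have h1 := ev_co (finite_par l r b t) σ p (fun S => Ie s S l r b t a)
  simp only [ie_inter] at h1
  exact h1

private theorem ie_dis (p : ℝ) (l r b t a : ℤ) :
    Disjoint {w | Ie s (Co true p w) l r b t a} {w | Ie s (Co false p w) l r b t a} := by
  rw [Set.disjoint_left]
  rintro w ⟨-, z, -, hz⟩ ⟨-, z', -, hz'⟩
  have h1 : ((a - s, b) : V) ∈ Op p w := hz.left.1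
  have h2 : ((a - s, b) : V) ∈ Cl p w := hz'.left.1
  have h3 : w (a - s, b) ≤ p := h1
  have h4 : p < w (a - s, b) := h2
  exact absurd h3 (not_le.2 h4)

theorem ie_sum (hs : s = 1 ∨ s = -1) (hh : 64 ≤ h) (hR : Rsw c p N) (hN : h ≤ N) (x b : ℤ) :
    ∑ a ∈ (Finset.Icc (x - h) (x + h)).filter (fun a => 4 * |a - x| ≤ h),
      ((P {w | Ie s (Co true p w) (x - h) (x + h) b (b + h) a}).toReal +
       (P {w | Ie s (Co false p w) (x - h) (x + h) b (b + h) a}).toReal) ≤ 1 / c ^ 6 := by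
  have hc : 0 < c := hR.1
  have hc4 : c ≤ 1 / 4 := hR.2.1
  have hc6 : 0 < c ^ 6 := by positivity
  have hc6' : c ^ 6 ≤ 1 := pow_le_one₀ hc.le (by linarith)
  obtain ⟨K, hK⟩ : ∃ K : ℕ, (K : ℤ) = h / 4 := ⟨(h / 4).toNat, Int.toNat_of_nonneg (by omega)⟩
  obtain ⟨I, hI⟩ : ∃ I : Bool → ℤ → Set Lab,
      I = fun σ a => {w | Ie s (Co σ p w) (x - h) (x + h) b (b + h) a} := ⟨_, rfl⟩
  have hIm : ∀ σ a, MeasurableSet (I σ a) := fun σ a => by
    rw [hI]
    exact (ev_ie σ p _ _ _ _ a).1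
  have hPE : ∀ a, (P (I true a ∪ I false a)).toReal =
      (P (I true a)).toReal + (P (I false a)).toReal := fun a => by
    refine measureReal_union ?_ (hIm false a)
    rw [hI]
    exact ie_dis p _ _ _ _ a
  have hlast := last_count (n := 2 * K + 1) hc6 hc6'
    (fun i : ℕ => I true (x + s * ((i : ℤ) - K)) ∪ I false (x + s * ((i : ℤ) - K)))
    (fun i => (hIm _ _).union (hIm _ _)) (fun i hi => by
      obtain ⟨a, hadef⟩ : ∃ a : ℤ, a = x + s * ((i : ℤ) - K) := ⟨_, rfl⟩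
      have ha : 4 * |a - x| ≤ h := by
        have h1 : |a - x| ≤ K := by
          rw [abs_le]
          rcases hs with rfl | rfl <;> omega
        omega
      have hstep : ∀ σ, (P {w | Ie s (Co σ p w) (x - h) (x + h) b (b + h) a ∧
          ∃ a' : ℤ, ∃ σ' : Bool, 4 * |a' - x| ≤ h ∧ s * a < s * a' ∧ |a' - a| ≤ 2 * K ∧
          Ie s (Co σ' p w) (x - h) (x + h) b (b + h) a'}).toReal ≤
          (1 - c ^ 6) * (P (I σ a)).toReal := by
        intro σ
        rw [hI]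
        exact ie_next (m := (3 * h - 4) / 4) hs (by omega) ha (by omega) (by omega) (by omega) σ p
          (arm_up hR σ (a, b) (by omega) (by omega) (by omega))
      rw [← hadef, hPE, mul_add]
      refine (lp_mono ?_).trans ((measureReal_union_le _ _).trans
        (add_le_add (hstep true) (hstep false)))
      rintro w ⟨hw, hw'⟩
      simp only [Set.mem_iUnion] at hw'
      obtain ⟨j, hj, hw'⟩ := hw'
      obtain ⟨hj1, hj2⟩ := hj
      obtain ⟨a', ha'def⟩ : ∃ a' : ℤ, a' = x + s * ((j : ℤ) - K) := ⟨_, rfl⟩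
      rw [← ha'def] at hw'
      have k1 : 4 * |a' - x| ≤ h := by
        have h1 : |a' - x| ≤ K := by
          rw [abs_le]
          rcases hs with rfl | rfl <;> omega
        omega
      have k2 : s * a < s * a' := by
        rcases hs with rfl | rfl <;> omega
      have k3 : |a' - a| ≤ 2 * K := by
        rw [abs_le]
        rcases hs with rfl | rfl <;> omega
      have k4 : ∃ a' : ℤ, ∃ σ' : Bool, 4 * |a' - x| ≤ h ∧ s * a < s * a' ∧ |a' - a| ≤ 2 * K ∧
          Ie s (Co σ' p w) (x - h) (x + h) b (b + h) a' := by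
        rw [hI] at hw'
        rcases hw' with hw' | hw'
        · exact ⟨a', true, k1, k2, k3, hw'⟩
        · exact ⟨a', false, k1, k2, k3, hw'⟩
      rw [hI] at hw
      rcases hw with hw | hw
      · exact Or.inl ⟨hw, k4⟩
      · exact Or.inr ⟨hw, k4⟩)
  refine le_of_eq_of_le ?_ hlast
  have hIt : ∀ a, {w | Ie s (Co true p w) (x - h) (x + h) b (b + h) a} = I true a := fun a => by
    rw [hI]
  have hIf : ∀ a, {w | Ie s (Co false p w) (x - h) (x + h) b (b + h) a} = I false a :=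
    fun a => by rw [hI]
  simp only [hIt, hIf, ← hPE]
  refine Finset.sum_nbij' (fun a => (s * (a - x) + K).toNat) (fun i : ℕ => x + s * ((i : ℤ) - K))
    ?_ ?_ ?_ ?_ ?_
  · intro a ha
    simp only [Finset.mem_filter, Finset.mem_Icc] at ha
    have h1 := abs_le.1 (show |a - x| ≤ h / 4 by omega)
    rw [Finset.mem_range]
    rcases hs with rfl | rfl <;> omega
  · intro i hi
    rw [Finset.mem_range] at hi
    simp only [Finset.mem_filter, Finset.mem_Icc]
    have h1 : |x + s * ((i : ℤ) - K) - x| ≤ K := by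
      rw [abs_le]
      rcases hs with rfl | rfl <;> omega
    have h2 := abs_le.1 h1
    omega
  · intro a ha
    simp only [Finset.mem_filter, Finset.mem_Icc] at ha
    have h1 := abs_le.1 (show |a - x| ≤ h / 4 by omega)
    rcases hs with rfl | rfl <;> omega
  · intro i hi
    rw [Finset.mem_range] at hi
    rcases hs with rfl | rfl <;> omega
  · intro a ha
    simp only [Finset.mem_filter, Finset.mem_Icc] at ha
    have h1 := abs_le.1 (show |a - x| ≤ h / 4 by omega)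
    have h2 : x + s * ((((s * (a - x) + K).toNat : ℕ) : ℤ) - K) = a := by
      rcases hs with rfl | rfl <;> omega
    rw [h2]

private theorem cr4_loc {S : Set V} {z : V} {n m : ℤ} (hn : 0 ≤ n) (hnm : n ≤ m)
    (h : Cr4 S z n m) : Cr4 (S ∩ Sq z m) z n m := by
  have key : ∀ l r b t : ℤ, z.1 - m ≤ l → r ≤ z.1 + m → z.2 - m ≤ b → t ≤ z.2 + m →
      S ∩ Par l r b t ⊆ (S ∩ Sq z m) ∩ Par l r b t := by
    intro l r b t h1 h2 h3 h4
    rintro v ⟨v1, v2⟩
    refine ⟨⟨v1, ?_⟩, v2⟩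
    rw [sq_eq]
    obtain ⟨k1, k2, k3, k4⟩ := v2
    exact ⟨by omega, by omega, by omega, by omega⟩
  obtain ⟨h1, h2, h3, h4⟩ := h
  exact ⟨Join.mono h1 (key _ _ _ _ (by omega) (by omega) (by omega) (by omega)) subset_rfl
      subset_rfl,
    Join.mono h2 (key _ _ _ _ (by omega) (by omega) (by omega) (by omega)) subset_rfl subset_rfl,
    Join.mono h3 (key _ _ _ _ (by omega) (by omega) (by omega) (by omega)) subset_rfl subset_rfl,
    Join.mono h4 (key _ _ _ _ (by omega) (by omega) (by omega) (by omega)) subset_rfl subset_rfl⟩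

/-- Independent scales. -/
private theorem cr4_scales {c' : ℝ} (h4 : c' ≤ 1 / 4) {z : V} {σ : Bool} {u : ℤ} (hu : 1 ≤ u)
    {κ : ℕ} (h : ∀ i < κ, c' ≤
      (P {w | Cr4 (Co σ p w) z (8 * (4 ^ i * u)) (16 * (4 ^ i * u))}).toReal) :
    (P {w | ∀ i < κ, ¬ Cr4 (Co σ p w) z (8 * (4 ^ i * u)) (16 * (4 ^ i * u))}).toReal ≤
      (1 - c') ^ κ := by
  have hpos : ∀ i : ℕ, (1 : ℤ) ≤ 4 ^ i * u := fun i => by
    have h1 : (1 : ℤ) ≤ 4 ^ i := one_le_pow₀ (by norm_num)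
    nlinarith
  have hev : ∀ i : Fin κ, Ev (SA z (8 * (4 ^ (i : ℕ) * u)) (16 * (4 ^ (i : ℕ) * u)))
      {w | Cr4 (Co σ p w) z (8 * (4 ^ (i : ℕ) * u)) (16 * (4 ^ (i : ℕ) * u))}ᶜ := fun i =>
    (ev_cr4 σ p z (by have := hpos i; omega)).compl
  have hlt : ∀ i j : ℕ, i < j → 4 * (4 ^ i * u) ≤ 4 ^ j * u := by
    intro i j hij
    have h1 : (4 : ℤ) ^ (i + 1) ≤ 4 ^ j := pow_le_pow_right₀ (by norm_num) hij
    have h2 : (4 : ℤ) * (4 ^ i * u) = 4 ^ (i + 1) * u := by ring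
    rw [h2]
    exact mul_le_mul_of_nonneg_right h1 (by omega)
  have hdis : ∀ i j : ℕ, i < j → Disjoint (SA z (8 * (4 ^ i * u)) (16 * (4 ^ i * u)))
      (SA z (8 * (4 ^ j * u)) (16 * (4 ^ j * u))) := by
    intro i j hij
    rw [Set.disjoint_left]
    rintro v ⟨-, h1⟩ ⟨h2, -⟩
    have h3 := hlt i j hij
    have h5 := hpos i
    omega
  have h1 := indep_iInter hev (fun i j hij => by
    rcases lt_or_gt_of_ne (fun h => hij (Fin.ext h) : (i : ℕ) ≠ j) with h6 | h6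
    · exact hdis _ _ h6
    · exact (hdis _ _ h6).symm)
  have h2 : {w | ∀ i < κ, ¬ Cr4 (Co σ p w) z (8 * (4 ^ i * u)) (16 * (4 ^ i * u))} =
      ⋂ i : Fin κ, {w | Cr4 (Co σ p w) z (8 * (4 ^ (i : ℕ) * u)) (16 * (4 ^ (i : ℕ) * u))}ᶜ := by
    ext w
    simp only [Set.mem_iInter]
    constructor
    · intro hw i
      exact hw i i.2
    · intro hw i hi
      exact hw ⟨i, hi⟩
  rw [h2, h1, ENNReal.toReal_prod]
  have h3 : ∀ i ∈ (Finset.univ : Finset (Fin κ)),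
      (P {w | Cr4 (Co σ p w) z (8 * (4 ^ (i : ℕ) * u)) (16 * (4 ^ (i : ℕ) * u))}ᶜ).toReal ≤
        1 - c' := by
    intro i _
    have h5 := lp_compl (hev i).1
    rw [compl_compl] at h5
    have h6 := h i i.2
    linarith
  calc _ ≤ ∏ _i : Fin κ, (1 - c') :=
        Finset.prod_le_prod (fun _ _ => ENNReal.toReal_nonneg) h3
    _ = (1 - c') ^ κ := by rw [Finset.prod_const, Finset.card_univ, Fintype.card_fin]

theorem ie_fence (c : ℝ) (hc : 0 < c) : ∃ c' : ℝ, 0 < c' ∧ c' ≤ 1 / 4 ∧ ∀ (p : ℝ) (N : ℤ),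
    Rsw c p N → ∀ (s x b h a u : ℤ) (κ : ℕ) (σ : Bool), (s = 1 ∨ s = -1) → 4 * |a - x| ≤ h →
    1 ≤ u → 32 * 4 ^ κ * u ≤ h → h ≤ N →
    (P {w | Fst s (Co σ p w) (x - h) (x + h) b (b + h) a ∧ ∀ k ∈ scl u κ,
      ¬ Fnc (Co σ p w) (x - h) (x + h) b (b + h) a k}).toReal ≤
    (1 - c') ^ κ * (P {w | Ie s (Co (!σ) p w) (x - h) (x + h) b (b + h) a}).toReal := by
  obtain ⟨c', hc0, hc4, hcr⟩ := cr4_prob c hc
  refine ⟨c', hc0, hc4, fun p N hR s x b h a u κ σ hs ha hu hκ hN => ?_⟩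
  have hpos : ∀ i : ℕ, (1 : ℤ) ≤ 4 ^ i * u := fun i => by
    have h1 : (1 : ℤ) ≤ 4 ^ i := one_le_pow₀ (by norm_num)
    nlinarith
  have hκ' : 32 * (4 ^ κ * u) ≤ h := by rwa [← mul_assoc]
  have hlt : ∀ i < κ, 4 * (4 ^ i * u) ≤ 4 ^ κ * u := by
    intro i hi
    have h1 : (4 : ℤ) ^ (i + 1) ≤ 4 ^ κ := pow_le_pow_right₀ (by norm_num) hi
    have h2 : (4 : ℤ) * (4 ^ i * u) = 4 ^ (i + 1) * u := by ring
    rw [h2]
    exact mul_le_mul_of_nonneg_right h1 (by omega)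
  have hh : 32 ≤ h := by
    have := hpos κ
    omega
  obtain ⟨h1, h2⟩ := lp_bounds (show 16 ≤ h by omega) ha
  have h3 : b + 2 ≤ b + h := by omega
  have hax := abs_le.1 (show |a - x| ≤ h / 4 by omega)
  have hq0 : (0 : ℝ) ≤ (1 - c') ^ κ := pow_nonneg (by linarith) _
  obtain ⟨D, hD⟩ : ∃ D : Set V, D = Par (x - h) (x + h) b (b + h) := ⟨_, rfl⟩
  obtain ⟨F, hF⟩ : ∃ F : Set V, F = Sq (a, b) (16 * (4 ^ κ * u)) := ⟨_, rfl⟩
  have hFf : F.Finite := hF ▸ finite_sq _ _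
  obtain ⟨G, hG⟩ : ∃ G : Set V → Set V, G = Gc (x - h) (x + h) b (b + h) a := ⟨_, rfl⟩
  have hGd : ∀ c v, v ∈ G c → v ∉ D ∩ (c ∪ bd c) := by
    rintro c v hv ⟨v1, v2⟩
    rw [hG] at hv
    rw [hD] at v1
    rcases hv with hv | ⟨hv, hv'⟩
    · have h4 : v.2 < b := hv
      have h5 : b ≤ v.2 := v1.2.2.1
      omega
    · rcases v2 with v2 | v2
      · exact (comp_subset hv).2 v2
      · exact hv' v2
  have key := ie_fresh (b := b) hs (by omega) ha (!σ) p
    (fun c => {w | ∀ i < κ, ¬ Cr4 (((Co σ p w ∩ (F \ (D ∩ (c ∪ bd c)))) ∩ G c) ∪ (G c)ᶜ) (a, b)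
      (8 * (4 ^ i * u)) (16 * (4 ^ i * u))}) (F := F) hFf hq0
    (fun c => by
      rw [← hD]
      exact ev_co (hFf.subset Set.sdiff_subset) σ p (fun S => ∀ i < κ,
        ¬ Cr4 ((S ∩ G c) ∪ (G c)ᶜ) (a, b) (8 * (4 ^ i * u)) (16 * (4 ^ i * u))))
    (fun c => by
      refine (lp_mono ?_).trans (cr4_scales (p := p) (σ := σ) (z := (a, b)) hc4 hu
        fun i hi => ?_)
      · intro w hw i hi hcr4
        refine hw i hi (cr4_mono ?_ (cr4_loc (by have := hpos i; omega)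
          (by have := hpos i; omega) hcr4))
        rintro v ⟨v1, v2⟩
        by_cases hv : v ∈ G c
        · refine Or.inl ⟨⟨v1, ?_, hGd c v hv⟩, hv⟩
          rw [hF]
          refine sq_mono ?_ v2
          have k1 := hlt i hi
          have k2 := hpos i
          omega
        · exact Or.inr hv
      · have h4 := hcr p N hR (a, b) (8 * (4 ^ i * u)) σ (by have := hpos i; omega)
          (by have := hlt i hi; omega)
        have h5 : 2 * (8 * (4 ^ i * u)) = 16 * (4 ^ i * u) := by ring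
        rwa [h5] at h4)
  refine (lp_mono ?_).trans key
  rintro w ⟨hw1, hw2⟩
  have e1 : (Co (!σ) p w)ᶜ = Co σ p w := by rw [co_not, compl_compl]
  have e2 : (Co σ p w)ᶜ = Co (!σ) p w := (co_not σ p w).symm
  refine ⟨ie_of_fst hs h1 h2 h3 (by rwa [e1]), fun i hi hcr4 => ?_⟩
  have h4 := hlt i hi
  have h5 := hpos i
  refine hw2 (4 ^ i * u) (Finset.mem_image.2 ⟨i, Finset.mem_range.2 hi, rfl⟩) ?_
  refine fence hs h5 (by omega) (by omega) (by omega) hw1 ?_
  rw [e2, ← hG]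
  refine cr4_mono ?_ hcr4
  rintro v (⟨⟨v1, -⟩, v2⟩ | hv)
  · exact Or.inl ⟨v1, v2⟩
  · exact Or.inr hv

/-- The sum over positions and colours. -/
private theorem lp_union (Sf : Finset ℤ) (E : ℤ → Bool → Set Lab) :
    (P {w | ∃ a ∈ Sf, ∃ σ, w ∈ E a σ}).toReal ≤
      ∑ a ∈ Sf, ((P (E a true)).toReal + (P (E a false)).toReal) := by
  have h1 : {w | ∃ a ∈ Sf, ∃ σ, w ∈ E a σ} = ⋃ a ∈ Sf, (E a true ∪ E a false) := by
    ext w
    simp only [Set.mem_iUnion, Set.mem_union, exists_prop]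
    constructor
    · rintro ⟨a, ha, σ, hw⟩
      refine ⟨a, ha, ?_⟩
      cases σ
      · exact Or.inr hw
      · exact Or.inl hw
    · rintro ⟨a, ha, hw | hw⟩
      · exact ⟨a, ha, true, hw⟩
      · exact ⟨a, ha, false, hw⟩
  rw [h1]
  refine (measureReal_biUnion_finset_le Sf _).trans (Finset.sum_le_sum fun a _ => ?_)
  exact measureReal_union_le _ _

theorem badL_prob (c : ℝ) (hc : 0 < c) (ε : ℝ) (hε : 0 < ε) : ∃ κ : ℕ, ∃ Θ : ℤ, 1 ≤ Θ ∧
    ∀ (p : ℝ) (N : ℤ), Rsw c p N → ∀ s x b h d u : ℤ, (s = 1 ∨ s = -1) → 1 ≤ u → 1 ≤ d →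
    Θ * d ≤ h → Θ * u ≤ h → h ≤ N → (P (BadL s p x b h d (scl u κ))).toReal ≤ ε := by
  obtain ⟨c', hc0, hc4, hfen⟩ := ie_fence c hc
  obtain ⟨C, α, hC, hα, harm⟩ := one_arm_up c hc
  have hδ : 0 < ε * c ^ 6 / 2 := by positivity
  obtain ⟨κ, hκ⟩ : ∃ κ : ℕ, (1 - c') ^ κ < ε * c ^ 6 / 2 :=
    exists_pow_lt_of_lt_one hδ (by linarith)
  -- the ratio of the scales
  obtain ⟨t, ht0, ht⟩ : ∃ t : ℝ, 0 < t ∧ C * t ^ α ≤ ε * c ^ 6 / 2 := by
    refine ⟨(ε * c ^ 6 / 2 / C) ^ (1 / α), by positivity, ?_⟩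
    rw [← Real.rpow_mul (by positivity), one_div_mul_cancel hα.ne', Real.rpow_one]
    rw [mul_div_cancel₀ _ hC.ne']
  obtain ⟨M, hM⟩ := exists_nat_gt (4 / t)
  refine ⟨κ, max 64 (max (32 * 4 ^ κ) (M : ℤ)), le_trans (by norm_num) (le_max_left _ _), ?_⟩
  intro p N hR s x b h d u hs hu hd hΘd hΘu hN
  obtain ⟨Θ, hΘ⟩ : ∃ Θ : ℤ, Θ = max 64 (max (32 * 4 ^ κ) (M : ℤ)) := ⟨_, rfl⟩
  rw [← hΘ] at hΘd hΘu
  have hΘ1 : 64 ≤ Θ := hΘ ▸ le_max_left _ _
  have hΘ2 : 32 * 4 ^ κ ≤ Θ := hΘ ▸ (le_max_left _ _).trans (le_max_right _ _)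
  have hΘ3 : (M : ℤ) ≤ Θ := hΘ ▸ (le_max_right _ _).trans (le_max_right _ _)
  have hh : 64 * d ≤ h := (mul_le_mul_of_nonneg_right hΘ1 (by omega)).trans hΘd
  have hh' : 32 * 4 ^ κ * u ≤ h := (mul_le_mul_of_nonneg_right hΘ2 (by omega)).trans hΘu
  obtain ⟨m, hm⟩ : ∃ m : ℤ, m = (3 * h - 4) / 4 := ⟨_, rfl⟩
  have hratio : ((d + 1 : ℤ) : ℝ) / (m : ℤ) ≤ t := by
    have hm0 : (0 : ℝ) < (m : ℤ) := by exact_mod_cast (by omega : 0 < m)
    rw [div_le_iff₀ hm0]
    have h1 : (4 : ℝ) ≤ t * Θ := by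
      have h2 : 4 / t ≤ (Θ : ℝ) := hM.le.trans (by exact_mod_cast hΘ3)
      rw [div_le_iff₀ ht0] at h2
      linarith
    have h2 : ((d + 1 : ℤ) : ℝ) ≤ 2 * d := by
      have : d + 1 ≤ 2 * d := by omega
      exact_mod_cast this
    have h3 : (Θ : ℝ) * d ≤ 2 * (m : ℝ) := by
      have : Θ * d ≤ 2 * m := by omega
      exact_mod_cast this
    have hd0 : (0 : ℝ) < (d : ℝ) := by exact_mod_cast (by omega : 0 < d)
    have h5 : (4 : ℝ) * d ≤ t * Θ * d := mul_le_mul_of_nonneg_right h1 hd0.le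
    have h6 : t * (Θ * d) ≤ t * (2 * (m : ℝ)) := mul_le_mul_of_nonneg_left h3 ht0.le
    have h7 : t * Θ * d = t * (Θ * d) := by ring
    linarith
  have hq : ∀ (σ : Bool) (a : ℤ), (P {w | Arm (Co σ p w) (a, b) (d + 1) m}).toReal ≤
      ε * c ^ 6 / 2 := by
    intro σ a
    have h1 := harm p N hR (a, b) (d + 1) m (by omega) (by omega) (by omega)
    have h2 : C * (((d + 1 : ℤ) : ℝ) / (m : ℤ)) ^ α ≤ ε * c ^ 6 / 2 := by
      refine (mul_le_mul_of_nonneg_left (Real.rpow_le_rpow ?_ hratio hα.le) hC.le).trans ht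
      have k1 : (0 : ℝ) ≤ ((d + 1 : ℤ) : ℝ) := by exact_mod_cast (by omega : 0 ≤ d + 1)
      have k2 : (0 : ℝ) ≤ (m : ℤ) := by exact_mod_cast (by omega : 0 ≤ m)
      exact div_nonneg k1 k2
    cases σ
    · exact h1.2.trans h2
    · exact h1.1.trans h2
  obtain ⟨Sf, hSf⟩ : ∃ Sf : Finset ℤ,
      Sf = (Finset.Icc (x - h) (x + h)).filter (fun a => 4 * |a - x| ≤ h) := ⟨_, rfl⟩
  have hmem : ∀ a, 4 * |a - x| ≤ h → a ∈ Sf := by
    intro a ha
    have h1 := abs_le.1 (show |a - x| ≤ h / 4 by omega)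
    rw [hSf, Finset.mem_filter, Finset.mem_Icc]
    exact ⟨by omega, ha⟩
  have hmem' : ∀ a ∈ Sf, 4 * |a - x| ≤ h := by
    intro a ha
    rw [hSf, Finset.mem_filter] at ha
    exact ha.2
  obtain ⟨E, hE⟩ : ∃ E : ℤ → Bool → Set Lab, E = fun a σ =>
      {w | Fst s (Co (!σ) p w) (x - h) (x + h) b (b + h) a ∧ ∀ k ∈ scl u κ,
        ¬ Fnc (Co (!σ) p w) (x - h) (x + h) b (b + h) a k} ∪
      {w | Ie s (Co σ p w) (x - h) (x + h) b (b + h) a ∧ ∃ a' : ℤ, ∃ σ' : Bool,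
        4 * |a' - x| ≤ h ∧ s * a < s * a' ∧ |a' - a| ≤ d ∧
        Ie s (Co σ' p w) (x - h) (x + h) b (b + h) a'} := ⟨_, rfl⟩
  have hEP : ∀ a ∈ Sf, ∀ σ, (P (E a σ)).toReal ≤
      (ε * c ^ 6) * (P {w | Ie s (Co σ p w) (x - h) (x + h) b (b + h) a}).toReal := by
    intro a ha σ
    have ha' := hmem' a ha
    have k1 := hfen p N hR s x b h a u κ (!σ) hs ha' hu hh' hN
    rw [Bool.not_not] at k1
    have k2 := ie_next (b := b) (m := m) hs (by omega) ha' (show 0 ≤ d by omega) (by omega)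
      (by omega) σ p (hq σ a)
    have k3 : (0 : ℝ) ≤ (P {w | Ie s (Co σ p w) (x - h) (x + h) b (b + h) a}).toReal :=
      ENNReal.toReal_nonneg
    have k4 := mul_le_mul_of_nonneg_right hκ.le k3
    rw [hE]
    refine (measureReal_union_le _ _).trans ((add_le_add (k1.trans k4) k2).trans_eq ?_)
    ring
  have hsub : BadL s p x b h d (scl u κ) ⊆ {w | ∃ a ∈ Sf, ∃ σ, w ∈ E a σ} := by
    have hIe : ∀ (w : Lab) (a : ℤ) (σ : Bool), 4 * |a - x| ≤ h →
        Fst s (Co σ p w) (x - h) (x + h) b (b + h) a →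
        Ie s (Co (!σ) p w) (x - h) (x + h) b (b + h) a := by
      intro w a σ ha hf
      obtain ⟨h1, h2⟩ := lp_bounds (show 16 ≤ h by omega) ha
      have e1 : (Co (!σ) p w)ᶜ = Co σ p w := by rw [co_not, compl_compl]
      exact ie_of_fst hs h1 h2 (by omega) (by rwa [e1])
    rintro w ⟨a, ha, σ, hf, hw | ⟨a', σ', hne, ha', hd', hf'⟩⟩
    · refine ⟨a, hmem a ha, !σ, ?_⟩
      rw [hE]
      left
      rw [Set.mem_ofPred_eq, Bool.not_not]
      exact ⟨hf, hw⟩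
    · rcases lt_trichotomy (s * a) (s * a') with h1 | h1 | h1
      · refine ⟨a, hmem a ha, !σ, ?_⟩
        rw [hE]
        exact Or.inr ⟨hIe w a σ ha hf, a', !σ', ha', h1, hd', hIe w a' σ' ha' hf'⟩
      · exfalso
        rcases hs with rfl | rfl <;> omega
      · refine ⟨a', hmem a' ha', !σ', ?_⟩
        rw [hE]
        refine Or.inr ⟨hIe w a' σ' ha' hf', a, !σ, ha, h1, ?_, hIe w a σ ha hf⟩
        rw [abs_sub_comm]
        exact hd'
  refine (lp_mono hsub).trans ((lp_union Sf E).trans ?_)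
  have hsum := ie_sum (c := c) (p := p) (N := N) hs (by omega : 64 ≤ h) hR hN x b
  rw [← hSf] at hsum
  have hc6 : 0 < c ^ 6 := by positivity
  calc ∑ a ∈ Sf, ((P (E a true)).toReal + (P (E a false)).toReal)
      ≤ ∑ a ∈ Sf, (ε * c ^ 6) *
        ((P {w | Ie s (Co true p w) (x - h) (x + h) b (b + h) a}).toReal +
          (P {w | Ie s (Co false p w) (x - h) (x + h) b (b + h) a}).toReal) := by
        refine Finset.sum_le_sum fun a ha => ?_
        rw [mul_add]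
        exact add_le_add (hEP a ha true) (hEP a ha false)
    _ = (ε * c ^ 6) * ∑ a ∈ Sf,
        ((P {w | Ie s (Co true p w) (x - h) (x + h) b (b + h) a}).toReal +
          (P {w | Ie s (Co false p w) (x - h) (x + h) b (b + h) a}).toReal) := by
        rw [Finset.mul_sum]
    _ ≤ (ε * c ^ 6) * (1 / c ^ 6) := mul_le_mul_of_nonneg_left hsum (by positivity)
    _ = ε := by
        field_simp

end Pool.Agent.TriPerc
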