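import Pool.Agent.TriPerc.Box
import Pool.Agent.TriPerc.Grid
import Pool.Agent.TriPerc.Jan

/-!
# Planarity of a box: crossing paths with interlaced ends meet (uniqueness), and one of two
# crossing paths exists (existence)

`no_box`: `S, T` disjoint; `p, p'` and `q, q'` rim vertices of the box with
`key p < key q < key p' < key q'`; then `p, p'` are not joined in `S ∩ Par` or `q, q'` are not joined in
`T ∩ Par`.

PROOF.  Let `f` be a walk from `p` to `p'` in `S ∩ Par`, `g` a walk from `q` to `q'` in `T ∩ Par`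
(`Conn.walk`).  They do not meet, so `grid` gives
`Σ_i th (f i - q) (f (i+1) - q) + Σ_j th (p' - g j) (p' - g (j+1))
 = Σ_j th (p - g j) (p - g (j+1)) + Σ_i th (f i - q') (f (i+1) - q')`.
Each of the four sums is a difference of a potential at the two ends (see the private lemmas of
`Grid.lean`; reprove them here if necessary: along a walk with adjacent steps which avoids `0`,
`th u v = ψ u - ψ v` with `ψ = 0` if the walk avoids the positive ray (`row 0, a ≥ 1`) or is in rows
`≥ 0`; with `ψ u = [u.2 ≥ 0]` if it avoids the negative ray (`row 0, a ≤ -1`); with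
`ψ u = [u on the positive ray]` if it is in rows `≤ 0`).
For a rim vertex `q` and `u` in the box put `A q u :=`
`0` if `q.2 = b`; else `0` if `q.1 = r`; else `[u.2 = t and u.1 > q.1]` if `q.2 = t`; else `[u.2 ≥ q.2]`.
Then `Σ_i th (f i - q) (f (i+1) - q) = A q p - A q p'`: the vectors `f i - q` are in rows `≥ 0` in the
first case, avoid the positive ray in the second, are in rows `≤ 0` in the third, avoid the
negative ray in the fourth.
For a rim vertex `p` and `v` in the box put `B p v :=`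
`[v.2 = b and v.1 < p.1]` if `p.2 = b`; else `[p.2 ≥ v.2]` if `p.1 = r`; else `0`.
Then `Σ_j th (p - g j) (p - g (j+1)) = B p q - B p q'` (vectors `p - g j`: rows `≤ 0` in the first
case, avoid the negative ray in the second, rows `≥ 0` or avoid the positive ray otherwise).
Hence `A q p - A q p' + B p' q - B p' q' = B p q - B p q' + A q' p - A q' p'`.
For distinct rim vertices `p, q`: `A q p - B p q = τ p - [key p > key q]` with `τ p = 0` if `p.2 = b` or
`p.1 = r`, and `τ p = 1` otherwise (16 cases).  The four instances and the identity give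
`[key p > key q] - [key p' > key q] - [key p > key q'] + [key p' > key q'] = 0`, but for
`key p < key q < key p' < key q'` the left side is `0 - 1 - 0 + 0`.

`hexrim`: `p, p' ∈ S` rim vertices with `key p < key p'`.  Then `p, p'` are joined in `S ∩ Par`, or there
are rim vertices `q, q'` not in `S`, `key p < key q < key p'` and `key q' < key p` or `key p' < key q'`,
which are joined in `Sᶜ ∩ Par`.

PROOF.  If `Adj p p'` clear.  Otherwise their keys are not cyclically consecutive (`key_succ`,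
`key_wrap`).  Apply `jan_walls` with `D = Par \ {p, p'}`,
`W1 = {p} ∪ {x outside, clamp x = p}`, `W3 = {p'} ∪ {x outside, clamp x = p'}`,
`W2 = {x outside, key (clamp x) strictly between}`, `W4 =` the other outside vertices,
`O = S`, `x = p`, `y = p'`.  `x, y` are joined in `W1 ∪ W2 ∪ W3` (step from `p` to an outside neighbour
of the fibre of `p`, `out_nbr`, then `conn_out`), and in `W1 ∪ W4 ∪ W3` (`conn_out'`).
First alternative: a path in `(D ∩ S) ∪ W1 ∪ W3` from `p` to `p'`.  By `Conn.between` (`A = W1`,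
`B = W3`) either `W1, W3` are adjacent — impossible: `p, p'` are not adjacent, fibres are adjacent
only if the keys are `Cyc` (`cyc_out`), and `p` is adjacent to a vertex outside with clamp `p'` only if
`Adj p p'` (`cyc_touch`) — or there is a path in `(D ∩ S) \ ...` from a neighbour of `W1` to a
neighbour of `W3`; such a neighbour is adjacent to `p` (`cyc_touch`), and similarly for `p'`; so `p, p'`
are joined in `S ∩ Par`.
Second alternative: a vertex of `W2` is joined to a vertex of `W4` in `(D \ S) ∪ W2 ∪ W4`.  `W2, W4` are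
not adjacent (`cyc_out`; the keys of `W2` and `W4` are separated by those of `p` and `p'`).
`Conn.between` gives a path in `D \ S` whose first vertex `q` is adjacent to `W2` and whose last one
`q'` is adjacent to `W4`.  By `cyc_touch` the key of `q` is between those of `p` and `p'` (weakly) and
`q ≠ p, p'` because these are in `S`; similarly for `q'`.
-/

namespace Pool.Agent.TriPerc

variable {l r b t : ℤ} {S T : Set V} {p p' q q' : V}

private theorem adj_right {u v : V} (h : Adj u v) (w : V) : Adj (u - w) (v - w) := by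
  simp only [Adj, Prod.fst_sub, Prod.snd_sub] at *
  refine h.imp ?_ (Or.imp ?_ (Or.imp ?_ (Or.imp ?_ (Or.imp ?_ ?_)))) <;>
    exact fun ⟨_, _⟩ => ⟨by omega, by omega⟩

private theorem adj_left {u v : V} (h : Adj u v) (w : V) : Adj (w - u) (w - v) := by
  simp only [Adj, Prod.fst_sub, Prod.snd_sub] at *
  rcases h with ⟨_, _⟩ | ⟨_, _⟩ | ⟨_, _⟩ | ⟨_, _⟩ | ⟨_, _⟩ | ⟨_, _⟩
  · exact Or.inr (Or.inr (Or.inr (Or.inl ⟨by omega, by omega⟩)))
  · exact Or.inr (Or.inr (Or.inr (Or.inr (Or.inl ⟨by omega, by omega⟩))))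
  · exact Or.inr (Or.inr (Or.inr (Or.inr (Or.inr ⟨by omega, by omega⟩))))
  · exact Or.inl ⟨by omega, by omega⟩
  · exact Or.inr (Or.inl ⟨by omega, by omega⟩)
  · exact Or.inr (Or.inr (Or.inl ⟨by omega, by omega⟩))

private theorem ne_zero' {u : V} (h : u ≠ 0) : ¬ (u.1 = 0 ∧ u.2 = 0) :=
  fun h' => h (Prod.ext h'.1 h'.2)

private def rho (v : V) : ℤ := if 0 ≤ v.2 then 1 else 0

private def pp (v : V) : ℤ := if v.2 = 0 ∧ 1 ≤ v.1 then 1 else 0

private theorem tele (u : ℕ → V) (n : ℕ) (ψ : V → ℤ)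
    (h : ∀ i < n, th (u i) (u (i + 1)) = ψ (u i) - ψ (u (i + 1))) :
    ∑ i ∈ Finset.range n, th (u i) (u (i + 1)) = ψ (u 0) - ψ (u n) := by
  rw [Finset.sum_congr rfl (fun i hi => h i (Finset.mem_range.mp hi))]
  exact Finset.sum_range_sub' (fun i => ψ (u i)) n

private theorem s_zero (u : ℕ → V) (n : ℕ)
    (h : ∀ i ≤ n, ¬ ((u i).2 = 0 ∧ 1 ≤ (u i).1)) :
    ∑ i ∈ Finset.range n, th (u i) (u (i + 1)) = 0 := by
  refine Finset.sum_eq_zero (fun i hi => ?_)
  have hi' := Finset.mem_range.mp hi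
  have h1 := h i (by omega)
  have h2 := h (i + 1) (by omega)
  unfold th
  split_ifs <;> omega

private theorem s_up (u : ℕ → V) (n : ℕ) (h : ∀ i ≤ n, 0 ≤ (u i).2) :
    ∑ i ∈ Finset.range n, th (u i) (u (i + 1)) = 0 := by
  refine Finset.sum_eq_zero (fun i hi => ?_)
  have hi' := Finset.mem_range.mp hi
  have h1 := h i (by omega)
  have h2 := h (i + 1) (by omega)
  unfold th
  split_ifs <;> omega

private theorem s_neg (u : ℕ → V) (n : ℕ) (ha : ∀ i < n, Adj (u i) (u (i + 1)))
    (h0 : ∀ i ≤ n, u i ≠ 0) (h : ∀ i ≤ n, ¬ ((u i).2 = 0 ∧ (u i).1 ≤ -1)) :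
    ∑ i ∈ Finset.range n, th (u i) (u (i + 1)) = rho (u 0) - rho (u n) := by
  refine tele u n rho (fun i hi => ?_)
  have h1 := h i (by omega)
  have h2 := h (i + 1) (by omega)
  have h3 := ne_zero' (h0 i (by omega))
  have h4 := ne_zero' (h0 (i + 1) (by omega))
  have h5 := ha i hi
  unfold Adj at h5
  unfold th rho
  split_ifs <;> omega

private theorem s_low (u : ℕ → V) (n : ℕ) (ha : ∀ i < n, Adj (u i) (u (i + 1)))
    (h0 : ∀ i ≤ n, u i ≠ 0) (h : ∀ i ≤ n, (u i).2 ≤ 0) :
    ∑ i ∈ Finset.range n, th (u i) (u (i + 1)) = pp (u 0) - pp (u n) := by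
  refine tele u n pp (fun i hi => ?_)
  have h1 := h i (by omega)
  have h2 := h (i + 1) (by omega)
  have h3 := ne_zero' (h0 i (by omega))
  have h4 := ne_zero' (h0 (i + 1) (by omega))
  have h5 := ha i hi
  unfold Adj at h5
  unfold th pp
  split_ifs <;> omega

/-- The potential of the walks relative to a rim vertex. -/
private def AA (r b t : ℤ) (q u : V) : ℤ :=
  if q.2 = b then 0 else if q.1 = r then 0
  else if q.2 = t then (if u.2 = t ∧ q.1 < u.1 then 1 else 0)
  else (if q.2 ≤ u.2 then 1 else 0)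

private def BB (r b : ℤ) (p v : V) : ℤ :=
  if p.2 = b then (if v.2 = b ∧ v.1 < p.1 then 1 else 0)
  else if p.1 = r then (if v.2 ≤ p.2 then 1 else 0) else 0

private theorem sum_A (f : ℕ → V) (n : ℕ) (ha : ∀ i < n, Adj (f i) (f (i + 1)))
    (hf : ∀ i ≤ n, f i ∈ Par l r b t) (hq : q ∈ Rim l r b t) (hne : ∀ i ≤ n, f i ≠ q) :
    ∑ i ∈ Finset.range n, th (f i - q) (f (i + 1) - q) = AA r b t q (f 0) - AA r b t q (f n) := by
  have hq1 := hq.2
  have h0 : ∀ i ≤ n, f i - q ≠ 0 := fun i hi => sub_ne_zero.2 (hne i hi)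
  have ha' : ∀ i < n, Adj (f i - q) (f (i + 1) - q) := fun i hi => adj_right (ha i hi) q
  have hf' : ∀ i ≤ n, l ≤ (f i).1 ∧ (f i).1 ≤ r ∧ b ≤ (f i).2 ∧ (f i).2 ≤ t := hf
  unfold AA
  by_cases c1 : q.2 = b
  · rw [if_pos c1, if_pos c1, sub_zero]
    refine s_up (fun i => f i - q) n fun i hi => ?_
    have := hf' i hi
    simp only [Prod.snd_sub]
    omega
  · rw [if_neg c1, if_neg c1]
    by_cases c2 : q.1 = r
    · rw [if_pos c2, if_pos c2, sub_zero]
      refine s_zero (fun i => f i - q) n fun i hi => ?_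
      have := hf' i hi
      simp only [Prod.snd_sub, Prod.fst_sub]
      omega
    · rw [if_neg c2, if_neg c2]
      by_cases c3 : q.2 = t
      · rw [if_pos c3, if_pos c3]
        have h1 := s_low (fun i => f i - q) n ha' h0 fun i hi => by
          have := hf' i hi
          simp only [Prod.snd_sub]
          omega
        rw [h1]
        have e : ∀ u : V, pp (u - q) = if u.2 = t ∧ q.1 < u.1 then 1 else 0 := by
          intro u
          unfold pp
          simp only [Prod.snd_sub, Prod.fst_sub]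
          split_ifs <;> omega
        rw [e, e]
      · rw [if_neg c3, if_neg c3]
        have h1 := s_neg (fun i => f i - q) n ha' h0 fun i hi => by
          have := hf' i hi
          simp only [Prod.snd_sub, Prod.fst_sub]
          omega
        rw [h1]
        have e : ∀ u : V, rho (u - q) = if q.2 ≤ u.2 then 1 else 0 := by
          intro u
          unfold rho
          simp only [Prod.snd_sub]
          split_ifs <;> omega
        rw [e, e]

private theorem sum_B (g : ℕ → V) (n : ℕ) (ha : ∀ i < n, Adj (g i) (g (i + 1)))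
    (hg : ∀ i ≤ n, g i ∈ Par l r b t) (hp : p ∈ Rim l r b t) (hne : ∀ i ≤ n, p ≠ g i) :
    ∑ i ∈ Finset.range n, th (p - g i) (p - g (i + 1)) = BB r b p (g 0) - BB r b p (g n) := by
  have hp1 := hp.2
  have h0 : ∀ i ≤ n, p - g i ≠ 0 := fun i hi => sub_ne_zero.2 (hne i hi)
  have ha' : ∀ i < n, Adj (p - g i) (p - g (i + 1)) := fun i hi => adj_left (ha i hi) p
  have hg' : ∀ i ≤ n, l ≤ (g i).1 ∧ (g i).1 ≤ r ∧ b ≤ (g i).2 ∧ (g i).2 ≤ t := hg
  unfold BB
  by_cases c1 : p.2 = b
  · rw [if_pos c1, if_pos c1]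
    have h1 := s_low (fun i => p - g i) n ha' h0 fun i hi => by
      have := hg' i hi
      simp only [Prod.snd_sub]
      omega
    rw [h1]
    have e : ∀ u : V, pp (p - u) = if u.2 = b ∧ u.1 < p.1 then 1 else 0 := by
      intro u
      unfold pp
      simp only [Prod.snd_sub, Prod.fst_sub]
      split_ifs <;> omega
    rw [e, e]
  · rw [if_neg c1, if_neg c1]
    by_cases c2 : p.1 = r
    · rw [if_pos c2, if_pos c2]
      have h1 := s_neg (fun i => p - g i) n ha' h0 fun i hi => by
        have := hg' i hi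
        simp only [Prod.snd_sub, Prod.fst_sub]
        omega
      rw [h1]
      have e : ∀ u : V, rho (p - u) = if u.2 ≤ p.2 then 1 else 0 := by
        intro u
        unfold rho
        simp only [Prod.snd_sub]
        split_ifs <;> omega
      rw [e, e]
    · rw [if_neg c2, if_neg c2, sub_zero]
      by_cases c3 : p.2 = t
      · refine s_up (fun i => p - g i) n fun i hi => ?_
        have := hg' i hi
        simp only [Prod.snd_sub]
        omega
      · refine s_zero (fun i => p - g i) n fun i hi => ?_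
        have := hg' i hi
        simp only [Prod.snd_sub, Prod.fst_sub]
        omega

private theorem pair (hlr : l < r) (hbt : b < t) (hp : p ∈ Rim l r b t) (hq : q ∈ Rim l r b t)
    (hne : p ≠ q) : AA r b t q p - BB r b p q =
      (if p.2 = b ∨ p.1 = r then 0 else 1) -
        (if key l r b t q < key l r b t p then 1 else 0) := by
  obtain ⟨⟨hp1, hp2, hp3, hp4⟩, hp5⟩ := hp
  obtain ⟨⟨hq1, hq2, hq3, hq4⟩, hq5⟩ := hq
  have hne' : ¬ (p.1 = q.1 ∧ p.2 = q.2) := fun h => hne (Prod.ext h.1 h.2)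
  obtain ⟨p1, p2⟩ := p
  obtain ⟨q1, q2⟩ := q
  simp only at *
  unfold AA BB key
  simp only
  split_ifs <;> omega

private theorem key_ne (hlr : l < r) (hbt : b < t) (hp : p ∈ Rim l r b t)
    (hp' : p' ∈ Rim l r b t) (hadj : ¬ Adj p p') (h : key l r b t p < key l r b t p') :
    ¬ Cyc l r b t (key l r b t p) (key l r b t p') := by
  have k1 := key_nonneg hlr hbt hp
  have k2 := key_nonneg hlr hbt hp'
  rintro (h1 | h1)
  · have h2 := abs_le.1 h1
    exact hadj (key_succ hlr hbt hp hp' (by omega))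
  · rw [abs_of_neg (by omega)] at h1
    exact hadj (key_wrap hlr hbt hp hp' (by omega) (by omega))

private theorem cyc_symm {k k' : ℤ} (h : Cyc l r b t k k') : Cyc l r b t k' k := by
  unfold Cyc at *
  rwa [abs_sub_comm k' k]

theorem no_box (hlr : l < r) (hbt : b < t) (hd : Disjoint S T)
    (hp : p ∈ Rim l r b t) (hp' : p' ∈ Rim l r b t) (hq : q ∈ Rim l r b t)
    (hq' : q' ∈ Rim l r b t) (hS : Conn (S ∩ Par l r b t) p p')
    (hT : Conn (T ∩ Par l r b t) q q') (h1 : key l r b t p < key l r b t q)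
    (h2 : key l r b t q < key l r b t p') (h3 : key l r b t p' < key l r b t q') : False := by
  obtain ⟨I, f, rfl, rfl, hf, hfS⟩ := hS.walk
  obtain ⟨J, g, rfl, rfl, hg, hgT⟩ := hT.walk
  have hne : ∀ i ≤ I, ∀ j ≤ J, f i ≠ g j := fun i hi j hj h =>
    Set.disjoint_left.1 hd (hfS i hi).1 (h ▸ (hgT j hj).1)
  have G := grid f g I J hf hg hne
  rw [sum_A f I hf (fun i hi => (hfS i hi).2) hq fun i hi => hne i hi 0 (Nat.zero_le _),
    sum_B g J hg (fun j hj => (hgT j hj).2) hp' fun j hj => hne I le_rfl j hj,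
    sum_B g J hg (fun j hj => (hgT j hj).2) hp fun j hj => hne 0 (Nat.zero_le _) j hj,
    sum_A f I hf (fun i hi => (hfS i hi).2) hq' fun i hi => hne i hi J le_rfl] at G
  have e1 := pair hlr hbt hp hq (hne 0 (Nat.zero_le _) 0 (Nat.zero_le _))
  have e2 := pair hlr hbt hp' hq (hne I le_rfl 0 (Nat.zero_le _))
  have e3 := pair hlr hbt hp hq' (hne 0 (Nat.zero_le _) J le_rfl)
  have e4 := pair hlr hbt hp' hq' (hne I le_rfl J le_rfl)
  rw [if_neg (by omega)] at e1
  rw [if_pos h2] at e2
  rw [if_neg (by omega)] at e3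
  rw [if_neg (by omega)] at e4
  omega

/-- The symmetric form: interlaced in either way. -/
theorem no_box' (hlr : l < r) (hbt : b < t) (hd : Disjoint S T)
    (hp : p ∈ Rim l r b t) (hp' : p' ∈ Rim l r b t) (hq : q ∈ Rim l r b t)
    (hq' : q' ∈ Rim l r b t) (hS : Conn (S ∩ Par l r b t) p p')
    (hT : Conn (T ∩ Par l r b t) q q') (h1 : key l r b t p < key l r b t q)
    (h2 : key l r b t q < key l r b t p')
    (h3 : key l r b t q' < key l r b t p ∨ key l r b t p' < key l r b t q') : False := by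
  rcases h3 with h3 | h3
  · exact no_box hlr hbt hd.symm hq' hq hp hp' hT.symm hS h3 h1 h2
  · exact no_box hlr hbt hd hp hp' hq hq' hS hT h1 h2 h3

theorem hexrim (hlr : l < r) (hbt : b < t) (hp : p ∈ Rim l r b t) (hp' : p' ∈ Rim l r b t)
    (hpS : p ∈ S) (hpS' : p' ∈ S) (h : key l r b t p < key l r b t p') :
    Conn (S ∩ Par l r b t) p p' ∨
    ∃ q ∈ Rim l r b t, ∃ q' ∈ Rim l r b t, key l r b t p < key l r b t q ∧
      key l r b t q < key l r b t p' ∧
      (key l r b t q' < key l r b t p ∨ key l r b t p' < key l r b t q') ∧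
      Conn (Sᶜ ∩ Par l r b t) q q' := by
  classical
  by_cases hadj : Adj p p'
  · exact Or.inl (Conn.of_adj ⟨hpS, hp.1⟩ ⟨hpS', hp'.1⟩ hadj)
  have hcyc := key_ne hlr hbt hp hp' hadj h
  have k1 := key_nonneg hlr hbt hp
  have k2 := key_nonneg hlr hbt hp'
  have hK : ∀ x, x ∉ Par l r b t → 0 ≤ key l r b t (clamp l r b t x) ∧
      key l r b t (clamp l r b t x) < rlen l r b t := fun x hx =>
    key_nonneg hlr hbt (clamp_rim hlr.le hbt.le hx)
  have hKp : ∀ x, x ∉ Par l r b t → key l r b t (clamp l r b t x) = key l r b t p →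
      clamp l r b t x = p := fun x hx h => key_inj hlr hbt (clamp_rim hlr.le hbt.le hx) hp h
  have hKp' : ∀ x, x ∉ Par l r b t → key l r b t (clamp l r b t x) = key l r b t p' →
      clamp l r b t x = p' := fun x hx h => key_inj hlr hbt (clamp_rim hlr.le hbt.le hx) hp' h
  obtain ⟨W1, hW1⟩ : ∃ W : Set V, W = {x | x = p ∨ (x ∉ Par l r b t ∧ clamp l r b t x = p)} :=
    ⟨_, rfl⟩
  obtain ⟨W3, hW3⟩ : ∃ W : Set V, W = {x | x = p' ∨ (x ∉ Par l r b t ∧ clamp l r b t x = p')} :=
    ⟨_, rfl⟩
  obtain ⟨W2, hW2⟩ : ∃ W : Set V, W = {x | x ∉ Par l r b t ∧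
    key l r b t p < key l r b t (clamp l r b t x) ∧
    key l r b t (clamp l r b t x) < key l r b t p'} := ⟨_, rfl⟩
  obtain ⟨W4, hW4⟩ : ∃ W : Set V, W = {x | x ∉ Par l r b t ∧
    (key l r b t (clamp l r b t x) < key l r b t p ∨
    key l r b t p' < key l r b t (clamp l r b t x))} := ⟨_, rfl⟩
  obtain ⟨D, hD⟩ : ∃ W : Set V, W = {x | x ∈ Par l r b t ∧ x ≠ p ∧ x ≠ p'} := ⟨_, rfl⟩
  have m1 : ∀ v : V, v ∈ W1 ↔ v = p ∨ (v ∉ Par l r b t ∧ clamp l r b t v = p) := fun v => by
    rw [hW1]; rfl
  have m3 : ∀ v : V, v ∈ W3 ↔ v = p' ∨ (v ∉ Par l r b t ∧ clamp l r b t v = p') := fun v => by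
    rw [hW3]; rfl
  have m2 : ∀ v : V, v ∈ W2 ↔ v ∉ Par l r b t ∧
      key l r b t p < key l r b t (clamp l r b t v) ∧
      key l r b t (clamp l r b t v) < key l r b t p' := fun v => by
    rw [hW2]; rfl
  have m4 : ∀ v : V, v ∈ W4 ↔ v ∉ Par l r b t ∧
      (key l r b t (clamp l r b t v) < key l r b t p ∨
      key l r b t p' < key l r b t (clamp l r b t v)) := fun v => by
    rw [hW4]; rfl
  have mD : ∀ v : V, v ∈ D ↔ v ∈ Par l r b t ∧ v ≠ p ∧ v ≠ p' := fun v => by
    rw [hD]; rfl
  have hpp : p ≠ p' := fun e => by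
    rw [e] at h
    exact lt_irrefl _ h
  have hcov : ∀ v, v ∈ D ∨ v ∈ W1 ∨ v ∈ W2 ∨ v ∈ W3 ∨ v ∈ W4 := by
    intro v
    rw [mD, m1, m2, m3, m4]
    by_cases hv : v ∈ Par l r b t
    · by_cases e1 : v = p
      · exact Or.inr (Or.inl (Or.inl e1))
      · by_cases e2 : v = p'
        · exact Or.inr (Or.inr (Or.inr (Or.inl (Or.inl e2))))
        · exact Or.inl ⟨hv, e1, e2⟩
    · right
      rcases lt_trichotomy (key l r b t (clamp l r b t v)) (key l r b t p) with e | e | e
      · exact Or.inr (Or.inr (Or.inr ⟨hv, Or.inl e⟩))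
      · exact Or.inl (Or.inr ⟨hv, hKp v hv e⟩)
      · rcases lt_trichotomy (key l r b t (clamp l r b t v)) (key l r b t p') with e' | e' | e'
        · exact Or.inr (Or.inl ⟨hv, e, e'⟩)
        · exact Or.inr (Or.inr (Or.inl (Or.inr ⟨hv, hKp' v hv e'⟩)))
        · exact Or.inr (Or.inr (Or.inr ⟨hv, Or.inr e'⟩))
  have d1 : Disjoint D W1 := by
    rw [Set.disjoint_left]
    intro v hv hv'
    rw [mD] at hv
    rw [m1] at hv'
    rcases hv' with e | e
    · exact hv.2.1 e
    · exact e.1 hv.1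
  have d2 : Disjoint D W2 := by
    rw [Set.disjoint_left]
    intro v hv hv'
    rw [mD] at hv
    rw [m2] at hv'
    exact hv'.1 hv.1
  have d3 : Disjoint D W3 := by
    rw [Set.disjoint_left]
    intro v hv hv'
    rw [mD] at hv
    rw [m3] at hv'
    rcases hv' with e | e
    · exact hv.2.2 e
    · exact e.1 hv.1
  have d4 : Disjoint D W4 := by
    rw [Set.disjoint_left]
    intro v hv hv'
    rw [mD] at hv
    rw [m4] at hv'
    exact hv'.1 hv.1
  have d12 : Disjoint W1 W2 := by
    rw [Set.disjoint_left]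
    intro v hv hv'
    rw [m1] at hv
    rw [m2] at hv'
    rcases hv with e | e
    · rw [e] at hv'
      exact hv'.1 hp.1
    · rw [e.2] at hv'
      omega
  have d14 : Disjoint W1 W4 := by
    rw [Set.disjoint_left]
    intro v hv hv'
    rw [m1] at hv
    rw [m4] at hv'
    rcases hv with e | e
    · rw [e] at hv'
      exact hv'.1 hp.1
    · rw [e.2] at hv'
      omega
  have d13 : Disjoint W1 W3 := by
    rw [Set.disjoint_left]
    intro v hv hv'
    rw [m1] at hv
    rw [m3] at hv'
    rcases hv with e | e <;> rcases hv' with e' | e'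
    · exact hpp (e.symm.trans e')
    · exact e'.1 (e ▸ hp.1)
    · exact e.1 (e' ▸ hp'.1)
    · exact hpp (e.2.symm.trans e'.2)
  have d23 : Disjoint W2 W3 := by
    rw [Set.disjoint_left]
    intro v hv' hv
    rw [m3] at hv
    rw [m2] at hv'
    rcases hv with e | e
    · rw [e] at hv'
      exact hv'.1 hp'.1
    · rw [e.2] at hv'
      omega
  have d34 : Disjoint W3 W4 := by
    rw [Set.disjoint_left]
    intro v hv hv'
    rw [m3] at hv
    rw [m4] at hv'
    rcases hv with e | e
    · rw [e] at hv'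
      exact hv'.1 hp'.1
    · rw [e.2] at hv'
      omega
  have d24 : Disjoint W2 W4 := by
    rw [Set.disjoint_left]
    intro v hv hv'
    rw [m2] at hv
    rw [m4] at hv'
    omega
  obtain ⟨x0, hx0, hx0', hx0a⟩ := out_nbr hlr hbt hp
  obtain ⟨y0, hy0, hy0', hy0a⟩ := out_nbr hlr hbt hp'
  have hp1 : p ∈ W1 := (m1 p).2 (Or.inl rfl)
  have hp3 : p' ∈ W3 := (m3 p').2 (Or.inl rfl)
  have hx1 : x0 ∈ W1 := (m1 x0).2 (Or.inr ⟨hx0, hx0'⟩)
  have hy3 : y0 ∈ W3 := (m3 y0).2 (Or.inr ⟨hy0, hy0'⟩)
  have h123 : Conn (W1 ∪ W2 ∪ W3) p p' := by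
    have c := conn_out hlr hbt hx0 hy0 (by rw [hx0', hy0']; exact h.le)
    rw [hx0', hy0'] at c
    refine (Conn.of_adj (Or.inl (Or.inl hp1)) (Or.inl (Or.inl hx1)) hx0a).trans
      ((c.mono ?_).trans (Conn.of_adj (Or.inr hy3) (Or.inr hp3) hy0a.symm))
    rintro x ⟨hx, e1, e2⟩
    rcases e1.lt_or_eq with e1 | e1
    · rcases e2.lt_or_eq with e2 | e2
      · exact Or.inl (Or.inr ((m2 x).2 ⟨hx, e1, e2⟩))
      · exact Or.inr ((m3 x).2 (Or.inr ⟨hx, hKp' x hx e2⟩))
    · exact Or.inl (Or.inl ((m1 x).2 (Or.inr ⟨hx, hKp x hx e1.symm⟩)))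
  have h143 : Conn (W1 ∪ W4 ∪ W3) p p' := by
    have c := conn_out' hlr hbt hx0 hy0 (by rw [hx0', hy0']; exact h.le)
    rw [hx0', hy0'] at c
    refine (Conn.of_adj (Or.inl (Or.inl hp1)) (Or.inl (Or.inl hx1)) hx0a).trans
      ((c.mono ?_).trans (Conn.of_adj (Or.inr hy3) (Or.inr hp3) hy0a.symm))
    rintro x ⟨hx, e1 | e1⟩
    · rcases e1.lt_or_eq with e1 | e1
      · exact Or.inl (Or.inr ((m4 x).2 ⟨hx, Or.inl e1⟩))
      · exact Or.inl (Or.inl ((m1 x).2 (Or.inr ⟨hx, hKp x hx e1⟩)))
    · rcases e1.lt_or_eq with e1 | e1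
      · exact Or.inl (Or.inr ((m4 x).2 ⟨hx, Or.inr e1⟩))
      · exact Or.inr ((m3 x).2 (Or.inr ⟨hx, hKp' x hx e1.symm⟩))
  rcases jan_walls D W1 W2 W3 W4 hcov d1 d2 d3 d4 d12 d13 d14 d23 d24 d34 p p' hp1 hp3 h123 h143 S
    with hc | ⟨u, hu, v, hv, hc⟩
  · left
    obtain ⟨x, hx, y, hy, -, -, hxy | ⟨x', y', hxx, hyy, hxy⟩⟩ := hc.between hp1 hp3 d13
    · exfalso
      rw [m1] at hx
      rw [m3] at hy
      rcases hx with e | e <;> rcases hy with e' | e'
      · rw [e, e'] at hxy
        exact hadj hxy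
      · rw [e] at hxy
        have := (cyc_touch hlr hbt hp.1 e'.1 hxy).2.1
        rw [e'.2] at this
        exact hcyc this
      · rw [e'] at hxy
        have := (cyc_touch hlr hbt hp'.1 e.1 hxy.symm).2.1
        rw [e.2] at this
        exact hcyc (cyc_symm this)
      · have := cyc_out hlr hbt e.1 e'.1 hxy
        rw [e.2, e'.2] at this
        exact hcyc this
    · have hsub : ((D ∩ S) ∪ W1 ∪ W3) \ (W1 ∪ W3) ⊆ D ∩ S := by
        rintro z ⟨(hz | hz) | hz, hz'⟩
        · exact hz
        · exact absurd (Or.inl hz) hz'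
        · exact absurd (Or.inr hz) hz'
      have hc' := hxy.mono hsub
      have hx'D := hc'.left
      have hy'D := hc'.right
      have hxD := (mD x').1 hx'D.1
      have hyD := (mD y').1 hy'D.1
      have a1 : Adj p x' := by
        rw [m1] at hx
        rcases hx with e | e
        · rw [← e]
          exact hxx
        · rcases (cyc_touch hlr hbt hxD.1 e.1 hxx.symm).2.2 with e' | e'
          · exact absurd (e'.trans e.2) hxD.2.1
          · rw [e.2] at e'
            exact e'.symm
      have a2 : Adj y' p' := by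
        rw [m3] at hy
        rcases hy with e | e
        · rw [← e]
          exact hyy
        · rcases (cyc_touch hlr hbt hyD.1 e.1 hyy).2.2 with e' | e'
          · exact absurd (e'.trans e.2) hyD.2.2
          · rw [e.2] at e'
            exact e'
      have hc'' : Conn (S ∩ Par l r b t) x' y' := hc'.mono fun z hz => ⟨hz.2, ((mD z).1 hz.1).1⟩
      exact (Conn.of_adj (S := S ∩ Par l r b t) ⟨hpS, hp.1⟩ hc''.left a1).trans
        (hc''.trans (Conn.of_adj hc''.right ⟨hpS', hp'.1⟩ a2))
  · right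
    obtain ⟨x, hx, y, hy, -, -, hxy | ⟨x', y', hxx, hyy, hxy⟩⟩ := hc.between hu hv d24
    · exfalso
      rw [m2] at hx
      rw [m4] at hy
      have c := cyc_out hlr hbt hx.1 hy.1 hxy
      have k3 := hK x hx.1
      have k4 := hK y hy.1
      rcases c with c | c
      · have c' := abs_le.1 c
        omega
      · rcases abs_eq (by omega) |>.1 c with c' | c' <;> omega
    · have hsub : ((D \ S) ∪ W2 ∪ W4) \ (W2 ∪ W4) ⊆ D \ S := by
        rintro z ⟨(hz | hz) | hz, hz'⟩
        · exact hz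
        · exact absurd (Or.inl hz) hz'
        · exact absurd (Or.inr hz) hz'
      have hc' := hxy.mono hsub
      have hx'D := hc'.left
      have hy'D := hc'.right
      have hxD := (mD x').1 hx'D.1
      have hyD := (mD y').1 hy'D.1
      rw [m2] at hx
      rw [m4] at hy
      obtain ⟨t1, t2, -⟩ := cyc_touch hlr hbt hxD.1 hx.1 hxx.symm
      obtain ⟨t3, t4, -⟩ := cyc_touch hlr hbt hyD.1 hy.1 hyy
      have k3 := hK x hx.1
      have k4 := hK y hy.1
      have k5 := key_nonneg hlr hbt t1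
      have k6 := key_nonneg hlr hbt t3
      have n1 : key l r b t x' ≠ key l r b t p := fun e => hxD.2.1 (key_inj hlr hbt t1 hp e)
      have n2 : key l r b t x' ≠ key l r b t p' := fun e => hxD.2.2 (key_inj hlr hbt t1 hp' e)
      have n3 : key l r b t y' ≠ key l r b t p := fun e => hyD.2.1 (key_inj hlr hbt t3 hp e)
      have n4 : key l r b t y' ≠ key l r b t p' := fun e => hyD.2.2 (key_inj hlr hbt t3 hp' e)
      have hc3 : Conn (Sᶜ ∩ Par l r b t) x' y' :=
        hc'.mono fun z hz => ⟨hz.2, ((mD z).1 hz.1).1⟩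
      refine ⟨x', t1, y', t3, ?_, ?_, ?_, hc3⟩
      · rcases t2 with c | c
        · have c' := abs_le.1 c
          omega
        · rcases abs_eq (by omega) |>.1 c with c' | c' <;> omega
      · rcases t2 with c | c
        · have c' := abs_le.1 c
          omega
        · rcases abs_eq (by omega) |>.1 c with c' | c' <;> omega
      · rcases t4 with c | c
        · have c' := abs_le.1 c
          omega
        · rcases abs_eq (by omega) |>.1 c with c' | c' <;> omega

end Pool.Agent.TriPerc
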