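import Mathlib.Algebra.Order.Ring.Star
import Mathlib.Tactic

/-!
# The stepping lemma

Let `f` be a function on `[q0, p0]` with values in `[0, 1]` (a crossing probability at the level
`t`) and `F > 0` (the number of four-arm points at the level `t`) such that
(1) `c * θ * (q2 - q1) ≤ f q2 - f q1` if `θ ≤ F t` for all `t ∈ [q1, q2]` (Russo's formula), and
(2) `F q' ≤ C F q` if `|q' - q| * F q ≤ e0` (stability).
Then `(p0 - q0) * F p0 ≤ M`, with `M` depending on `c`, `C`, `e0` only.

PROOF.  `C ≥ 1` by (2) with `q' = q`.  Put `e1 = e0 / C` and `κ = c e0 / C ^ 2 > 0`.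
Claim: for every `j : ℕ` and every `p ∈ [q0, p0]` with `f p - f q0 < j κ`:
`(p - q0) F p ≤ j * e1 * C ^ j`.  For `j = 0` the hypothesis is `f p < f q0`, which
contradicts (1) with `θ = 0`.  Step: let `f p - f q0 < (j + 1) κ` and `s = p - e1 / F p`.  If
`s ≤ q0`, then `(p - q0) F p ≤ e1`.  Let `s > q0`.  For `t ∈ [s, p]`: `|t - p| F p ≤ e1 ≤ e0`, so
`F t ≤ C F p`, hence `|p - t| F t ≤ C e1 = e0` and `F p ≤ C F t`.  By (1) with `θ = F p / C`:
`f p - f s ≥ c (F p / C) (e1 / F p) = κ`, so `f s - f q0 < j κ` and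
`(s - q0) F s ≤ j e1 C ^ j`.  Finally `(p - q0) F p = e1 + (s - q0) F p ≤ e1 + C (s - q0) F s
≤ e1 + C j e1 C ^ j ≤ (j + 1) e1 C ^ (j + 1)`.
Take `j` with `j κ > 1`.
-/

namespace Pool.Agent.TriPerc

theorem step_lemma (c C e0 : ℝ) (hc : 0 < c) (hC : 1 ≤ C) (he : 0 < e0) : ∃ M : ℝ, 0 < M ∧
    ∀ (f F : ℝ → ℝ) (q0 p0 : ℝ), q0 ≤ p0 →
    (∀ t, q0 ≤ t → t ≤ p0 → 0 < F t) → (∀ t, 0 ≤ f t) → (∀ t, f t ≤ 1) →
    (∀ q1 q2 θ, q0 ≤ q1 → q1 ≤ q2 → q2 ≤ p0 → 0 ≤ θ → (∀ t, q1 ≤ t → t ≤ q2 → θ ≤ F t) →
      c * θ * (q2 - q1) ≤ f q2 - f q1) →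
    (∀ q q', q0 ≤ q → q ≤ p0 → q0 ≤ q' → q' ≤ p0 → |q' - q| * F q ≤ e0 → F q' ≤ C * F q) →
    (p0 - q0) * F p0 ≤ M := by
  have hC0 : 0 < C := lt_of_lt_of_le one_pos hC
  obtain ⟨J, hJ⟩ := exists_nat_gt (1 / (c * e0 / C ^ 2))
  refine ⟨(J + 1) * (e0 / C) * C ^ (J + 1), by positivity, ?_⟩
  intro f F q0 p0 hqp hF f0 f1 hR hS
  have hκ : 0 < c * e0 / C ^ 2 := by positivity
  have claim : ∀ j : ℕ, ∀ p, q0 ≤ p → p ≤ p0 → f p - f q0 < j * (c * e0 / C ^ 2) →
      (p - q0) * F p ≤ j * (e0 / C) * C ^ j := by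
    intro j
    induction j with
    | zero =>
      intro p h1 h2 h3
      have := hR q0 p 0 le_rfl h1 h2 le_rfl (fun t h h' => (hF t h (h'.trans h2)).le)
      simp at h3 this
      linarith
    | succ j ih =>
      intro p h1 h2 h3
      have hFp := hF p h1 h2
      have he1 : 0 < e0 / C := by positivity
      set s := p - e0 / C / F p with hs
      have hsp : s ≤ p := by
        have : 0 < e0 / C / F p := by positivity
        linarith
      have hmul : e0 / C / F p * F p = e0 / C := by
        field_simp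
      have hpow : (1 : ℝ) ≤ C ^ (j + 1) := one_le_pow₀ hC
      rcases le_or_gt s q0 with h | h
      · have h4 : (p - q0) * F p ≤ e0 / C := by
          have : (p - q0) * F p ≤ (e0 / C / F p) * F p :=
            mul_le_mul_of_nonneg_right (by linarith) hFp.le
          linarith
        have h5 : e0 / C ≤ ((j + 1 : ℕ) : ℝ) * (e0 / C) * C ^ (j + 1) := by
          have h6 : (1 : ℝ) ≤ ((j + 1 : ℕ) : ℝ) := by
            push_cast
            have : (0 : ℝ) ≤ j := Nat.cast_nonneg j
            linarith
          calc e0 / C = 1 * (e0 / C) * 1 := by ring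
            _ ≤ ((j + 1 : ℕ) : ℝ) * (e0 / C) * C ^ (j + 1) := by gcongr
        linarith
      · have key : ∀ t, s ≤ t → t ≤ p → F p ≤ C * F t := by
          intro t ht ht'
          have hFt := hF t (by linarith) (by linarith)
          have h4 : |t - p| * F p ≤ e0 / C := by
            rw [abs_of_nonpos (by linarith)]
            have : -(t - p) * F p ≤ (e0 / C / F p) * F p :=
              mul_le_mul_of_nonneg_right (by linarith) hFp.le
            linarith
          have h5 : e0 / C ≤ e0 := div_le_self he.le hC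
          have h6 := hS p t h1 h2 (by linarith) (by linarith) (h4.trans h5)
          refine hS t p (by linarith) (by linarith) h1 h2 ?_
          rw [abs_of_nonneg (by linarith)]
          have h7 : |t - p| = p - t := by rw [abs_of_nonpos (by linarith)]; ring
          rw [h7] at h4
          calc (p - t) * F t ≤ (p - t) * (C * F p) :=
                mul_le_mul_of_nonneg_left h6 (by linarith)
            _ = C * ((p - t) * F p) := by ring
            _ ≤ C * (e0 / C) := by gcongr
            _ = e0 := by field_simp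
        have h8 := hR s p (F p / C) h.le hsp h2 (by positivity) (fun t ht ht' => by
          rw [div_le_iff₀ hC0]
          linarith [key t ht ht'])
        have h9 : c * (F p / C) * (p - s) = c * e0 / C ^ 2 := by
          have : p - s = e0 / C / F p := by rw [hs]; ring
          rw [this]
          field_simp
        rw [h9] at h8
        have h10 := ih s h.le (by linarith) (by push_cast at h3; linarith)
        have h11 := key s le_rfl hsp
        have h12 : (p - q0) * F p = e0 / C + (s - q0) * F p := by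
          have : p - q0 = e0 / C / F p + (s - q0) := by rw [hs]; ring
          rw [this, add_mul, hmul]
        rw [h12]
        have h13 : (s - q0) * F p ≤ C * ((s - q0) * F s) := by
          calc (s - q0) * F p ≤ (s - q0) * (C * F s) :=
                mul_le_mul_of_nonneg_left h11 (by linarith)
            _ = C * ((s - q0) * F s) := by ring
        have h14 : C * ((s - q0) * F s) ≤ C * (j * (e0 / C) * C ^ j) := by gcongr
        have h15 : C * (j * (e0 / C) * C ^ j) = j * (e0 / C) * C ^ (j + 1) := by ring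
        have h16 : e0 / C ≤ e0 / C * C ^ (j + 1) := le_mul_of_one_le_right he1.le hpow
        push_cast
        nlinarith
  have h := claim (J + 1) p0 hqp le_rfl (by
    have h1 : f p0 - f q0 ≤ 1 := by linarith [f1 p0, f0 q0]
    have h2 : 1 < (J : ℝ) * (c * e0 / C ^ 2) := by
      rwa [div_lt_iff₀ hκ] at hJ
    push_cast
    nlinarith)
  push_cast at h
  exact h

end Pool.Agent.TriPerc
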