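import Pool.Agent.TriPerc.WinInd

/-!
# Sums over scales

Let `Qm c0 C N x` and `g (n / m) ^ (2 - a) ≤ x n m` for `2 ≤ n ≤ m ≤ N`, `0 < g`, `0 < a ≤ 1`.
* `gro_le`: for `2 ≤ m ≤ r ≤ N`: `m ^ 2 x 2 m ≤ (C / g) (m / r) ^ a r ^ 2 x 2 r`.  PROOF: `qm` with
  `k = l = m`: `x 2 m * g (m / r) ^ (2 - a) ≤ x 2 m * x m r ≤ C x 2 r`; multiply by
  `m ^ 2 / (g (m / r) ^ (2 - a))`; `m ^ 2 (r / m) ^ (2 - a) = (m / r) ^ a r ^ 2`.
* `sum_le`: for `2 ≤ m ≤ N`: `∑ d ∈ Icc 2 m, d x 2 d ≤ (C / (g a)) m ^ 2 x 2 m`.  PROOF: by `gro_le`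
  `d x 2 d ≤ (C / g) d ^ (a - 1) m ^ (-a) m ^ 2 x 2 m`, and `∑ d ∈ 1..m, d ^ (a - 1) ≤ m ^ a / a`
  (induction on `m`: `(m + 1) ^ a - m ^ a ≥ a (m + 1) ^ (a - 1)`, concavity of `t ^ a`, for instance
  from Bernoulli's inequality `(1 - 1 / (m + 1)) ^ a ≤ 1 - a / (m + 1)`,
  `Real.one_add_mul_self_le_rpow_one_add` or `Real.rpow_one_add_le_one_add_mul_self`).
-/

namespace Pool.Agent.TriPerc

theorem gro_le {c0 C g a : ℝ} {N : ℤ} {x : ℤ → ℤ → ℝ} (hx : Qm c0 C N x) (hg : 0 < g)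
    (ha : 0 < a) (ha1 : a ≤ 1)
    (h : ∀ n m : ℤ, 2 ≤ n → n ≤ m → m ≤ N → g * ((n : ℝ) / m) ^ (2 - a) ≤ x n m)
    {m r : ℤ} (hm : 2 ≤ m) (hmr : m ≤ r) (hr : r ≤ N) :
    (m : ℝ) ^ 2 * x 2 m ≤ C / g * ((m : ℝ) / r) ^ a * ((r : ℝ) ^ 2 * x 2 r) := by
  have hm0 : (0 : ℝ) < m := by
    have : (0 : ℤ) < m := by omega
    exact_mod_cast this
  have hr0 : (0 : ℝ) < r := by
    have : (0 : ℤ) < r := by omega
    exact_mod_cast this
  obtain ⟨t, ht⟩ : ∃ t : ℝ, t = (m : ℝ) / r := ⟨_, rfl⟩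
  have ht0 : 0 < t := by
    rw [ht]
    positivity
  have hmt : (m : ℝ) = t * r := by
    rw [ht]
    field_simp
  have h1 := h m r hm hmr hr
  rw [← ht] at h1 ⊢
  have h2 := hx.qm 2 m m r le_rfl hm le_rfl (by omega) hmr hr
  have h3 : x 2 m * (g * t ^ (2 - a)) ≤ C * x 2 r :=
    (mul_le_mul_of_nonneg_left h1 (hx.nonneg _ _)).trans h2
  have h4 : t ^ a * t ^ (2 - a) = t ^ 2 := by
    rw [← Real.rpow_add ht0, add_sub_cancel, Real.rpow_two]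
  have hta : 0 < t ^ a := Real.rpow_pos_of_pos ht0 a
  have h5 : (m : ℝ) ^ 2 * x 2 m = t ^ a * (r : ℝ) ^ 2 / g * (x 2 m * (g * t ^ (2 - a))) := by
    rw [hmt, mul_pow, ← h4]
    field_simp
  rw [h5]
  calc t ^ a * (r : ℝ) ^ 2 / g * (x 2 m * (g * t ^ (2 - a)))
      ≤ t ^ a * (r : ℝ) ^ 2 / g * (C * x 2 r) := mul_le_mul_of_nonneg_left h3 (by positivity)
    _ = C / g * t ^ a * ((r : ℝ) ^ 2 * x 2 r) := by ring

private theorem ws_sum {a : ℝ} (ha : 0 < a) (ha1 : a ≤ 1) (m : ℤ) (hm : 1 ≤ m) :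
    ∑ d ∈ Finset.Icc (2 : ℤ) m, (d : ℝ) ^ (a - 1) ≤ (m : ℝ) ^ a / a := by
  induction m, hm using Int.leInduction with
  | base =>
    rw [Finset.Icc_eq_empty (by norm_num), Finset.sum_empty]
    positivity
  | succ m hm ih =>
    have h1 : Finset.Icc (2 : ℤ) (m + 1) = insert (m + 1) (Finset.Icc 2 m) := by
      ext d
      simp only [Finset.mem_Icc, Finset.mem_insert]
      omega
    rw [h1, Finset.sum_insert (by simp)]
    have hm0 : (0 : ℝ) < m := by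
      have : (0 : ℤ) < m := by omega
      exact_mod_cast this
    have hs : (0 : ℝ) < (m : ℝ) + 1 := by linarith
    have h2 : (m : ℝ) ^ a + a * ((m : ℝ) + 1) ^ (a - 1) ≤ ((m : ℝ) + 1) ^ a := by
      have h3 := rpow_one_add_le_one_add_mul_self (s := -(1 / ((m : ℝ) + 1))) (p := a)
        (by
          have : 1 / ((m : ℝ) + 1) ≤ 1 := by
            rw [div_le_one hs]
            linarith
          linarith) ha.le ha1
      have h4 : 1 + -(1 / ((m : ℝ) + 1)) = (m : ℝ) / (m + 1) := by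
        field_simp
        ring
      have hp : 0 < ((m : ℝ) + 1) ^ a := Real.rpow_pos_of_pos hs a
      rw [h4, Real.div_rpow hm0.le hs.le, div_le_iff₀ hp] at h3
      rw [Real.rpow_sub_one hs.ne' a]
      have h6 : (1 + a * -(1 / ((m : ℝ) + 1))) * ((m : ℝ) + 1) ^ a =
          ((m : ℝ) + 1) ^ a - a * (((m : ℝ) + 1) ^ a / ((m : ℝ) + 1)) := by ring
      linarith
    push_cast
    rw [le_div_iff₀ ha] at ih ⊢
    linarith

theorem sum_le {c0 C g a : ℝ} {N : ℤ} {x : ℤ → ℤ → ℝ} (hx : Qm c0 C N x) (hg : 0 < g)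
    (ha : 0 < a) (ha1 : a ≤ 1)
    (h : ∀ n m : ℤ, 2 ≤ n → n ≤ m → m ≤ N → g * ((n : ℝ) / m) ^ (2 - a) ≤ x n m)
    {m : ℤ} (hm : 2 ≤ m) (hN : m ≤ N) :
    ∑ d ∈ Finset.Icc (2 : ℤ) m, (d : ℝ) * x 2 d ≤ C / (g * a) * ((m : ℝ) ^ 2 * x 2 m) := by
  have hm0 : (0 : ℝ) < m := by
    have : (0 : ℤ) < m := by omega
    exact_mod_cast this
  obtain ⟨M, hM⟩ : ∃ M : ℝ, M = (m : ℝ) ^ 2 * x 2 m := ⟨_, rfl⟩
  have hM0 : 0 ≤ M := by
    rw [hM]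
    exact mul_nonneg (by positivity) (hx.nonneg _ _)
  have hC : 0 < C := lt_of_lt_of_le one_pos hx.one
  have hma : 0 < (m : ℝ) ^ a := Real.rpow_pos_of_pos hm0 a
  have h1 : ∀ d ∈ Finset.Icc (2 : ℤ) m,
      (d : ℝ) * x 2 d ≤ C / g * M / (m : ℝ) ^ a * (d : ℝ) ^ (a - 1) := by
    intro d hd
    obtain ⟨hd1, hd2⟩ := Finset.mem_Icc.1 hd
    have hd0 : (0 : ℝ) < d := by
      have : (0 : ℤ) < d := by omega
      exact_mod_cast this
    have h2 := gro_le hx hg ha ha1 h hd1 hd2 hN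
    rw [← hM, Real.div_rpow hd0.le hm0.le] at h2
    rw [Real.rpow_sub_one hd0.ne']
    have h3 : (d : ℝ) * x 2 d = (d : ℝ) ^ 2 * x 2 d / d := by field_simp
    rw [h3, div_le_iff₀ hd0]
    refine h2.trans (le_of_eq ?_)
    field_simp
  refine (Finset.sum_le_sum h1).trans ?_
  rw [← Finset.mul_sum]
  refine (mul_le_mul_of_nonneg_left (ws_sum ha ha1 m (by omega)) (by positivity)).trans
    (le_of_eq ?_)
  rw [← hM]
  field_simp

end Pool.Agent.TriPerc
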