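import Pool.Agent.TriPerc.Cmp
import Pool.Agent.TriPerc.Decay
import Pool.Agent.TriPerc.Step
import Pool.Agent.TriPerc.WinSum

/-!
# The near-critical window: a level with a macroscopic crossing probability is close to `1/2`

`RusFr`: Russo's formula with the lower bound of the pivotal probabilities by four arms
  (hypothesis).

`off`: assume `QmFr`, `RusFr`.  For every `e > 0` there is `M` such that for `0 ≤ q ≤ 1 / 2`, `2
  ≤ n` and
`e ≤ ph q n`: `(1 / 2 - q) * (n ^ 2 * xf (1 / 2) 2 n) ≤ M`.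
PROOF.
(1) There is `c = c (e) > 0` with `Rsw c t n` for all `t ∈ [q, 1 / 2]`.  Let `d` be given by
  `low_scale (e / 2)`.
  For `1 ≤ m ≤ n`: `ph t m > d`, since otherwise `ph t n ≤ e / 2 < e ≤ ph q n ≤ ph t n`
  (`ph_mono`).
  `rsw_all d 64` (with `n := m`) gives the open crossings.  `P (cPH t 0 m 0 m) = 1 - ph t m ≥
  1 - ph (1/2) m = 1 / 2` (`ph_dual`, `ph_mono`; `ph (1/2) m = 1 / 2`, because
  `1 - ph (1/2) m = P (cPH (1/2) 0 m 0 m) = P (oPH (1/2) 0 m 0 m)` by `flip_lev`), and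
  `rsw_all_cl (1/2) 64` gives the closed crossings.  `0 < t`: for `t ≤ 0` almost surely no vertex
  is `t`-open, and `ph t n = 0`.  Take the minimum of the constants and `1 / 4`.
(2) Let `c0, C` be from `qm_xf` for `c`, `g, a` from `grow` for `c` (`a ≤ 1 / 2`), `D` from
  `frp_ge`, `c'` from
  `RusFr`.  Put `f t = ph t n` for `t ∈ [q, 1/2]` (outside of this interval take the value at the
  nearest end point, or any function with values in `[0, 1]`), `F t = n ^ 2 * xf t 2 n`; `F t >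
  0` by
  `grow`.  (h1): if `θ ≤ F t` on `[q1, q2]` then `θ / D ≤ n ^ 2 frp t 1 n` (`frp_ge`), so by
  `RusFr`
  `(c' / D) θ (q2 - q1) ≤ f q2 - f q1`.  (h2): let `λ = |q' - q1|`, `λ F q1 ≤ e0`, with
  `2 (C / (g a)) e0 = (c0 / C) ^ 5 / 48`, `A = max (q1 - λ) 0`, `B = min (q1 + λ) 1`; `A ≤ q1, q'
  ≤ B`,
  `B - A ≤ 2 λ`; by `sum_le` `(B - A) ∑ d ∈ Icc 2 n, d xf q1 2 d ≤ 2 λ (C / (g a)) F q1 ≤
  (c0 / C) ^ 5 / 48`, so by `mix_le` and `xf_le_yf` (`2 < n`): `xf q' 2 n ≤ yf A B 2 n ≤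
  2 (C / c0) ^ 2 xf q1 2 n`.  For `n = 2`: `xf q' 2 2 ≤ 1 ≤ xf q1 2 2 / c0`.
(3) `step_lemma` with `p0 = 1 / 2`, `q0 = q`.
-/

namespace Pool.Agent.TriPerc

open MeasureTheory Set

/-- Russo's formula with four arms as a lower bound of the pivotal probabilities. -/
def RusFr : Prop := ∀ c : ℝ, 0 < c → ∃ c' : ℝ, 0 < c' ∧ ∀ (N : ℤ) (q1 q2 : ℝ), 1 ≤ N →
  q1 ≤ q2 → (∀ t, q1 ≤ t → t ≤ q2 → Rsw c t N) → ∀ θ : ℝ, 0 ≤ θ →
  (∀ t, q1 ≤ t → t ≤ q2 → θ ≤ (N : ℝ) ^ 2 * frp t 1 N) →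
  c' * θ * (q2 - q1) ≤ ph q2 N - ph q1 N

private theorem ph_one_half {m : ℤ} (hm : 1 ≤ m) : ph (1 / 2) m = 1 / 2 := by
  have h1 := ph_dual (p := 1 / 2) hm
  have h2 := flip_lev (finite_par 0 m 0 m) (1 / 2)
    (fun T => Join T {v | v.1 ≤ 0} {v | m ≤ v.1})
  have h3 : (1 : ℝ) - 1 / 2 = 1 / 2 := by norm_num
  rw [h3] at h2
  have h4 : (P (cPH (1 / 2) 0 m 0 m)).toReal = ph (1 / 2) m := congrArg ENNReal.toReal h2
  linarith

private theorem ph_zero {t : ℝ} (n : ℤ) (ht : t ≤ 0) : ph t n = 0 := by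
  have h1 : P (oPH t 0 n 0 n) = 0 := by
    have h2 : ∀ᵐ w ∂P, w ∉ oPH t 0 n 0 n := by
      filter_upwards [ae_label t] with w hw
      rintro ⟨u, -, v, -, huv⟩
      have h3 : w u ≤ t := huv.left.1
      have h4 := (hw.1 u).1
      have h5 := (hw.1 u).2.2
      exact h5 (le_antisymm h3 (ht.trans h4))
    exact measure_eq_zero_iff_ae_notMem.2 h2
  unfold ph
  rw [h1, ENNReal.toReal_zero]

private theorem ph_nonneg (t : ℝ) (n : ℤ) : 0 ≤ ph t n := ENNReal.toReal_nonneg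

private theorem ph_le_one (t : ℝ) (n : ℤ) : ph t n ≤ 1 := by
  have h := ENNReal.toReal_mono ENNReal.one_ne_top (prob_le_one (μ := P) (s := oPH t 0 n 0 n))
  rwa [ENNReal.toReal_one] at h

theorem rsw_of_ph (e : ℝ) (he : 0 < e) : ∃ c : ℝ, 0 < c ∧ ∀ (q t : ℝ) (n : ℤ), 0 ≤ q →
    q ≤ t → t ≤ 1 / 2 → 1 ≤ n → e ≤ ph q n → Rsw c t n := by
  obtain ⟨d, hd, hlow⟩ := low_scale (e / 2) (by positivity)
  obtain ⟨c1, hc1, h1⟩ := rsw_all d hd 64 (by norm_num)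
  obtain ⟨c2, hc2, h2⟩ := rsw_all_cl (1 / 2) (by norm_num) 64 (by norm_num)
  refine ⟨min (min c1 c2) (1 / 4), lt_min (lt_min hc1 hc2) (by norm_num), ?_⟩
  intro q t n hq hqt ht hn he1
  have hqn : ph q n ≤ ph t n := ph_mono hqt
  have ht0 : 0 < t := by
    by_contra hc
    have h3 := ph_zero n (not_lt.1 hc)
    linarith
  have hdm : ∀ m : ℤ, 1 ≤ m → m ≤ n → d ≤ ph t m := by
    intro m hm hmn
    by_contra hc
    have h3 := hlow t m n ht0.le (by linarith) hm hmn (not_le.1 hc).le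
    linarith
  have hcm : ∀ m : ℤ, 1 ≤ m → m ≤ n → 1 / 2 ≤ (P (cPH t 0 m 0 m)).toReal := by
    intro m hm _
    rw [ph_dual hm]
    have h3 : ph t m ≤ ph (1 / 2) m := ph_mono ht
    rw [ph_one_half hm] at h3
    linarith
  refine ⟨lt_min (lt_min hc1 hc2) (by norm_num), min_le_right _ _, ht0, by linarith, ?_⟩
  intro m hm hmn l b
  have h3 := h1 t (by linarith) m hm (fun k hk hkm => hdm k hk (hkm.trans hmn)) l b
  have h4 := h2 t ht0.le m hm (fun k hk hkm => hcm k hk (hkm.trans hmn)) l b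
  have e64 : ((64 : ℕ) : ℤ) = 64 := rfl
  rw [e64] at h3 h4
  exact ⟨((min_le_left _ _).trans (min_le_left _ _)).trans h3,
    ((min_le_left _ _).trans (min_le_right _ _)).trans h4⟩

theorem off (H : QmFr) (R : RusFr) (e : ℝ) (he : 0 < e) : ∃ M : ℝ, 0 < M ∧
    ∀ (q : ℝ) (n : ℤ), 0 ≤ q → q ≤ 1 / 2 → 2 ≤ n → e ≤ ph q n →
    (1 / 2 - q) * ((n : ℝ) ^ 2 * xf (1 / 2) 2 n) ≤ M := by
  by_cases hex : ∃ (q : ℝ) (n : ℤ), 0 ≤ q ∧ q ≤ 1 / 2 ∧ 2 ≤ n ∧ e ≤ ph q n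
  swap
  · exact ⟨1, one_pos, fun q n h1 h2 h3 h4 => absurd ⟨q, n, h1, h2, h3, h4⟩ hex⟩
  obtain ⟨c, hc, hrsw⟩ := rsw_of_ph e he
  obtain ⟨c0, C, hqm⟩ := qm_xf H c hc
  obtain ⟨g, a, hg, ha, ha2, hgrow⟩ := grow c hc
  obtain ⟨D, hD, hfrp⟩ := frp_ge H c hc
  obtain ⟨c', hc', hrus⟩ := R c hc
  obtain ⟨hc0, hc1, hC1⟩ : 0 < c0 ∧ c0 ≤ 1 ∧ 1 ≤ C := by
    obtain ⟨q, n, h1, h2, h3, h4⟩ := hex
    have h5 := hqm q n (hrsw q q n h1 le_rfl h2 (by omega) h4)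
    exact ⟨h5.pos, h5.le, h5.one⟩
  have hC : 0 < C := lt_of_lt_of_le one_pos hC1
  have hr1 : 1 ≤ C / c0 := by
    rw [le_div_iff₀ hc0]
    linarith
  have hCs1 : 1 ≤ 2 * (C / c0) ^ 2 := by nlinarith
  have hCs2 : 1 ≤ 2 * (C / c0) ^ 2 * c0 := by
    have h1 : C / c0 * c0 = C := div_mul_cancel₀ C hc0.ne'
    have h2 : 2 * (C / c0) ^ 2 * c0 = 2 * (C / c0) * C := by
      calc 2 * (C / c0) ^ 2 * c0 = 2 * (C / c0) * (C / c0 * c0) := by ring
        _ = 2 * (C / c0) * C := by rw [h1]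
    rw [h2]
    nlinarith
  obtain ⟨e0, he0⟩ : ∃ e0 : ℝ, e0 = (c0 / C) ^ 5 / 48 * (g * a) / (2 * C) := ⟨_, rfl⟩
  have he0p : 0 < e0 := by
    rw [he0]
    positivity
  have he0' : 2 * (C / (g * a)) * e0 = (c0 / C) ^ 5 / 48 := by
    rw [he0]
    field_simp
  obtain ⟨M, hM, hstep⟩ := step_lemma (c' / D) (2 * (C / c0) ^ 2) e0 (by positivity) hCs1 he0p
  refine ⟨M, hM, ?_⟩
  intro q n hq hq2 hn hen
  have hn0 : (0 : ℝ) < n := by exact_mod_cast (by omega : (0 : ℤ) < n)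
  have hR : ∀ t, q ≤ t → t ≤ 1 / 2 → Rsw c t n := fun t h1 h2 =>
    hrsw q t n hq h1 h2 (by omega) hen
  refine hstep (fun t => ph t n) (fun t => (n : ℝ) ^ 2 * xf t 2 n) q (1 / 2) hq2 ?_
    (fun t => ph_nonneg t n) (fun t => ph_le_one t n) ?_ ?_
  · intro t h1 h2
    have h3 := hgrow t n (hR t h1 h2) 2 n (by norm_num) hn le_rfl
    have h4 : 0 < g * (((2 : ℤ) : ℝ) / n) ^ (2 - a) := by positivity
    have h5 : 0 < xf t 2 n := lt_of_lt_of_le h4 h3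
    positivity
  · intro q1 q2 θ h1 h2 h3 h4 h5
    have h6 := hrus n q1 q2 (by omega) h2 (fun t k1 k2 => hR t (h1.trans k1) (k2.trans h3))
      (θ / D) (by positivity) (fun t k1 k2 => by
        have k3 := h5 t k1 k2
        have k4 := hfrp t n (hR t (h1.trans k1) (k2.trans h3)) n hn le_rfl
        rw [div_le_iff₀ hD]
        have k5 : (n : ℝ) ^ 2 * xf t 2 n ≤ (n : ℝ) ^ 2 * (D * frp t 1 n) :=
          mul_le_mul_of_nonneg_left k4 (by positivity)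
        calc θ ≤ (n : ℝ) ^ 2 * xf t 2 n := k3
          _ ≤ (n : ℝ) ^ 2 * (D * frp t 1 n) := k5
          _ = (n : ℝ) ^ 2 * frp t 1 n * D := by ring)
    calc c' / D * θ * (q2 - q1) = c' * (θ / D) * (q2 - q1) := by ring
      _ ≤ _ := h6
  · intro q1 q' h1 h2 h3 h4 h5
    have hQ := hqm q1 n (hR q1 h1 h2)
    have hmain : xf q' 2 n ≤ 2 * (C / c0) ^ 2 * xf q1 2 n := by
      by_cases hn2 : n = 2
      · subst hn2
        have k1 := hQ.low 2 2 le_rfl le_rfl le_rfl (by norm_num)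
        calc xf q' 2 2 ≤ 1 := xf_le_one
          _ ≤ 2 * (C / c0) ^ 2 * c0 := hCs2
          _ ≤ 2 * (C / c0) ^ 2 * xf q1 2 2 := mul_le_mul_of_nonneg_left k1 (by positivity)
      · have hn3 : 2 < n := by omega
        obtain ⟨lam, hlam⟩ : ∃ lam : ℝ, lam = |q' - q1| := ⟨_, rfl⟩
        have hl0 : 0 ≤ lam := by
          rw [hlam]
          exact abs_nonneg _
        have hl1 : q' - q1 ≤ lam := by
          rw [hlam]
          exact le_abs_self _
        have hl2 : -(q' - q1) ≤ lam := by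
          rw [hlam]
          exact neg_le_abs _
        have hA0 : 0 ≤ max (q1 - lam) 0 := le_max_right _ _
        have hA1 : max (q1 - lam) 0 ≤ q1 := max_le (by linarith) (by linarith)
        have hA2 : max (q1 - lam) 0 ≤ q' := max_le (by linarith) (by linarith)
        have hB0 : min (q1 + lam) 1 ≤ 1 := min_le_right _ _
        have hB1 : q1 ≤ min (q1 + lam) 1 := le_min (by linarith) (by linarith)
        have hB2 : q' ≤ min (q1 + lam) 1 := le_min (by linarith) (by linarith)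
        have hAB : min (q1 + lam) 1 - max (q1 - lam) 0 ≤ 2 * lam := by
          have k1 : min (q1 + lam) 1 ≤ q1 + lam := min_le_left _ _
          have k2 : q1 - lam ≤ max (q1 - lam) 0 := le_max_left _ _
          linarith
        have hsum := sum_le hQ hg ha (by linarith) (fun k m k1 k2 k3 =>
          hgrow q1 n (hR q1 h1 h2) k m (by omega) k2 k3) hn le_rfl
        have hs0 : 0 ≤ ∑ d ∈ Finset.Icc (2 : ℤ) n, (d : ℝ) * xf q1 2 d := by
          refine Finset.sum_nonneg fun d hd => mul_nonneg ?_ xf_nonneg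
          have := (Finset.mem_Icc.1 hd).1
          exact_mod_cast (by omega : (0 : ℤ) ≤ d)
        have hs : (min (q1 + lam) 1 - max (q1 - lam) 0) *
            ∑ d ∈ Finset.Icc (2 : ℤ) n, (d : ℝ) * xf q1 2 d ≤ (c0 / C) ^ 5 / 48 := by
          rw [← hlam] at h5
          calc (min (q1 + lam) 1 - max (q1 - lam) 0) *
              ∑ d ∈ Finset.Icc (2 : ℤ) n, (d : ℝ) * xf q1 2 d
              ≤ (2 * lam) * ∑ d ∈ Finset.Icc (2 : ℤ) n, (d : ℝ) * xf q1 2 d :=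
                mul_le_mul_of_nonneg_right hAB hs0
            _ ≤ (2 * lam) * (C / (g * a) * ((n : ℝ) ^ 2 * xf q1 2 n)) :=
                mul_le_mul_of_nonneg_left hsum (by positivity)
            _ = 2 * (C / (g * a)) * (lam * ((n : ℝ) ^ 2 * xf q1 2 n)) := by ring
            _ ≤ 2 * (C / (g * a)) * e0 := mul_le_mul_of_nonneg_left h5 (by positivity)
            _ = (c0 / C) ^ 5 / 48 := he0'
        have k1 := mix_le hQ hA0 hA1 hB1 hB0 hs (n := 2) (m := n) le_rfl hn le_rfl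
        exact (xf_le_yf hA2 hB2 hn3).trans k1
    calc (n : ℝ) ^ 2 * xf q' 2 n ≤ (n : ℝ) ^ 2 * (2 * (C / c0) ^ 2 * xf q1 2 n) :=
          mul_le_mul_of_nonneg_left hmain (by positivity)
      _ = 2 * (C / c0) ^ 2 * ((n : ℝ) ^ 2 * xf q1 2 n) := by ring

end Pool.Agent.TriPerc
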