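import Pool.Agent.TriPerc.Meas

/-!
# The OSSS inequality for exploration trees

`Tr ι`: decision trees.  `node i c` asks for the set `t = Op p w ∩ B i` of the `p`-open vertices of
the block `B i` and continues with the tree `c t`; `leaf b` returns `b`.  `Tr.val`: the value (0 or
1), `Tr.rv`: the set of the blocks which are asked, `Tr.Fresh s T`: the tree never asks a block of
`s` and never asks a block twice.

* `indep_fun`: if `f` depends on the labels in `s` only and `h` on the labels outside `s` only
  (both measurable and bounded), then `∫ f h dP = ∫ f dP ∫ h dP`.  PROOF.  By `mp_mix` the left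
  side is `∫ f (mix s w w') h (mix s w w') d(P.prod P) = ∫ f w' h w d(P.prod P)`
  (`mix s w w'` agrees with `w'` on `s` and with `w` outside `s`), and `integral_prod_mul`.
* `val_congr`: if `Fresh s T` and `w`, `w'` have the same labels in all `B j`, `j ∉ s`, then
  `val T w = val T w'` and `rv T w = rv T w'` (induction on `T`, for all `s`); moreover
  `rv T w ∩ s = ∅`.
* `measurable_val`, `measurableSet_rv`: induction on `T`; the sets `{w | Op p w ∩ B i = t}` are
  measurable and only finitely many `t ⊆ B i` occur, so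
  `val (node i c) w = ∑ t, indicator of {Op p w ∩ B i = t} * val (c t) w` (sum over the finite
  set of subsets of `B i`).
* `osss`: let the blocks be finite and pairwise disjoint, `Fresh ∅ T`, `g` measurable with
  `|g| ≤ 1`.  Then
  `|∫ val T g - ∫ val T ∫ g| ≤ ∑ i, P (i ∈ rv T) * Inf i g`,
  `Inf i g = ∫ |g z.1 - g (mix (B i) z.1 z.2)| d(P.prod P)`.
  PROOF.  Induction on `T`, for all `s` with `Fresh s T` and all `g`.  Leaf: the left side is `0`.
  Let `T = node i c` and `g' w = ∫ g (mix (B i) w w') dP(w')`; it is measurable, `|g'| ≤ 1`, it does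
  not depend on the labels in `B i`, and `∫ g' = ∫ g` (`mp_mix`, Fubini).
  (1) `|∫ val T g - ∫ val T g'| ≤ ∫ |g - g'| ≤ Inf i g`, and `P (i ∈ rv T) = 1`.
  (2) For `t ⊆ B i` let `E t = {w | Op p w ∩ B i = t}`.  On `E t`: `val T = val (c t)`,
  `rv T = insert i (rv (c t))`.  As `Fresh (insert i s) (c t)`, `val (c t)` and `rv (c t)` do not
  depend on the labels in `B i` (`val_congr`, the blocks are disjoint).  By `indep_fun`:
  `∫ val T g' = ∑ t, P (E t) ∫ val (c t) g'`, `∫ val T = ∑ t, P (E t) ∫ val (c t)`, and for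
  `j ≠ i`: `P (j ∈ rv T) = ∑ t, P (E t) P (j ∈ rv (c t))`.  The induction hypothesis for
  `c t`, `g'`: `|∫ val T g' - ∫ val T ∫ g'| ≤ ∑ t, P (E t) ∑ j, P (j ∈ rv (c t)) Inf j g'`.
  `P (i ∈ rv (c t)) = 0`.  For `j ≠ i`: `Inf j g' ≤ Inf j g`, because
  `mix (B i) (mix (B j) w w') w'' = mix (B j) (mix (B i) w w'') w'`, so
  `Inf j g' ≤ ∫∫∫ |g (mix (B i) w w'') - g (mix (B j) (mix (B i) w w'') w')|` and
  `mix (B i) w w''` has the law `P` (`mp_mix`).
  The sum of (1) and (2) is the claim.
-/

namespace Pool.Agent.TriPerc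

open MeasureTheory Set

/-- Decision trees which ask for the open vertices of blocks. -/
inductive Tr (ι : Type) : Type
  | leaf : Bool → Tr ι
  | node : ι → (Set V → Tr ι) → Tr ι

variable {ι : Type}

/-- The value of the tree. -/
noncomputable def Tr.val (B : ι → Set V) (p : ℝ) : Tr ι → Lab → ℝ
  | .leaf b, _ => if b then 1 else 0
  | .node i c, w => Tr.val B p (c (Op p w ∩ B i)) w

/-- The set of the blocks which are asked. -/
def Tr.rv (B : ι → Set V) (p : ℝ) : Tr ι → Lab → Set ι
  | .leaf _, _ => ∅
  | .node i c, w => insert i (Tr.rv B p (c (Op p w ∩ B i)) w)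

/-- No block of `s` is asked and no block is asked twice. -/
def Tr.Fresh : Set ι → Tr ι → Prop
  | _, .leaf _ => True
  | s, .node i c => i ∉ s ∧ ∀ t, Tr.Fresh (insert i s) (c t)

/-- The influence of the block `b` on `g`. -/
noncomputable def inf (b : Set V) (g : Lab → ℝ) : ℝ :=
  ∫ z, |g z.1 - g (mix b z.1 z.2)| ∂(P.prod P)

variable {B : ι → Set V} {p : ℝ} {T : Tr ι} {s : Set ι} {w w' : Lab} {S : Set V}

private theorem int_mix (S : Set V) {F : Lab → ℝ} (hF : Measurable F) :
    ∫ w, F w ∂P = ∫ z, F (mix S z.1 z.2) ∂(P.prod P) := by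
  conv_lhs => rw [← (mp_mix S).map_eq]
  rw [integral_map (measurable_mix S).aemeasurable hF.aestronglyMeasurable]

private theorem ib {α : Type} [MeasurableSpace α] {μ : Measure α} [IsFiniteMeasure μ]
    {F : α → ℝ} (hF : Measurable F) (C : ℝ) (h1 : ∀ w, |F w| ≤ C) : Integrable F μ :=
  Integrable.of_bound hF.aestronglyMeasurable C (Filter.Eventually.of_forall h1)

theorem indep_fun {f h : Lab → ℝ} (hf : Measurable f) (hh : Measurable h)
    (hfs : ∀ w w' : Lab, (∀ v ∈ S, w v = w' v) → f w = f w')
    (hhs : ∀ w w' : Lab, (∀ v, v ∉ S → w v = w' v) → h w = h w') :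
    ∫ w, f w * h w ∂P = (∫ w, f w ∂P) * ∫ w, h w ∂P := by
  have h0 : ∫ w, f w * h w ∂P = ∫ z, (f * h) (mix S z.1 z.2) ∂(P.prod P) :=
    int_mix S (hf.mul hh)
  rw [h0]
  have e : (fun z : Lab × Lab => (f * h) (mix S z.1 z.2)) = fun z => h z.1 * f z.2 := by
    funext z
    have e1 : f (mix S z.1 z.2) = f z.2 := hfs _ _ fun v hv => by simp [mix, hv]
    have e2 : h (mix S z.1 z.2) = h z.1 := hhs _ _ fun v hv => by simp [mix, hv]
    rw [Pi.mul_apply, e1, e2, mul_comm]
  rw [e, integral_prod_mul, mul_comm]

theorem val_bound (T : Tr ι) (w : Lab) : T.val B p w = 0 ∨ T.val B p w = 1 := by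
  induction T with
  | leaf b => by_cases h : b = true <;> simp [Tr.val, h]
  | node i c ih => exact ih _

theorem val_congr (hT : T.Fresh s) (h : ∀ j, j ∉ s → ∀ v ∈ B j, w v = w' v) :
    T.val B p w = T.val B p w' ∧ T.rv B p w = T.rv B p w' := by
  induction T generalizing s with
  | leaf b => exact ⟨rfl, rfl⟩
  | node i c ih =>
    have e : Op p w ∩ B i = Op p w' ∩ B i := by
      ext v
      simp only [Op, mem_inter_iff, mem_ofPred_eq]
      constructor
      · rintro ⟨h1, h2⟩
        exact ⟨by rw [← h i hT.1 v h2]; exact h1, h2⟩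
      · rintro ⟨h1, h2⟩
        exact ⟨by rw [h i hT.1 v h2]; exact h1, h2⟩
    have h1 := ih (Op p w ∩ B i) (hT.2 _) fun j hj => h j fun hj' => hj (Or.inr hj')
    change Tr.val B p (c (Op p w ∩ B i)) w = Tr.val B p (c (Op p w' ∩ B i)) w' ∧
      insert i (Tr.rv B p (c (Op p w ∩ B i)) w) = insert i (Tr.rv B p (c (Op p w' ∩ B i)) w')
    rw [← e]
    exact ⟨h1.1, by rw [h1.2]⟩

theorem rv_fresh (hT : T.Fresh s) {j : ι} (hj : j ∈ s) : j ∉ T.rv B p w := by
  induction T generalizing s with
  | leaf b => exact fun h => h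
  | node i c ih =>
    rintro (h | h)
    · exact hT.1 (h ▸ hj)
    · exact ih _ (hT.2 _) (Or.inr hj) h

theorem measurable_val (hB : ∀ i, (B i).Finite) (T : Tr ι) : Measurable (T.val B p) := by
  induction T with
  | leaf b =>
    have : (Tr.leaf b : Tr ι).val B p = fun _ => if b then (1 : ℝ) else 0 := rfl
    rw [this]
    exact measurable_const
  | node i c ih =>
    intro U hU
    have e : Tr.val B p (.node i c) ⁻¹' U = ⋃ t ∈ {t | t ⊆ B i},
        ({w | Op p w ∩ B i = t} ∩ Tr.val B p (c t) ⁻¹' U) := by
      ext w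
      simp only [mem_preimage, mem_iUnion, mem_inter_iff, mem_ofPred_eq, exists_prop]
      constructor
      · intro h
        exact ⟨Op p w ∩ B i, inter_subset_right, rfl, h⟩
      · rintro ⟨t, -, h1, h2⟩
        change Tr.val B p (c (Op p w ∩ B i)) w ∈ U
        rw [h1]
        exact h2
    rw [e]
    exact (hB i).finite_subsets.measurableSet_biUnion fun t _ =>
      (ev_op (hB i) p fun x => x = t).1.inter (ih t hU)

theorem measurableSet_rv (hB : ∀ i, (B i).Finite) (T : Tr ι) (j : ι) :
    MeasurableSet {w | j ∈ T.rv B p w} := by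
  induction T with
  | leaf b => exact MeasurableSet.empty
  | node i c ih =>
    by_cases hj : j = i
    · have : {w | j ∈ Tr.rv B p (.node i c) w} = Set.univ := by
        ext w
        exact ⟨fun _ => trivial, fun _ => Or.inl hj⟩
      rw [this]
      exact MeasurableSet.univ
    · have e : {w | j ∈ Tr.rv B p (.node i c) w} = ⋃ t ∈ {t | t ⊆ B i},
          ({w | Op p w ∩ B i = t} ∩ {w | j ∈ Tr.rv B p (c t) w}) := by
        ext w
        simp only [mem_iUnion, mem_inter_iff, mem_ofPred_eq, exists_prop]
        constructor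
        · rintro (h | h)
          · exact absurd h hj
          · exact ⟨Op p w ∩ B i, inter_subset_right, rfl, h⟩
        · rintro ⟨t, -, h1, h2⟩
          refine Or.inr ?_
          rw [h1]
          exact h2
      rw [e]
      exact (hB i).finite_subsets.measurableSet_biUnion fun t _ =>
        (ev_op (hB i) p fun x => x = t).1.inter (ih t)

/-- The average of `g` over the labels in `b`. -/
private noncomputable def avg (b : Set V) (g : Lab → ℝ) (w : Lab) : ℝ := ∫ x, g (mix b w x) ∂P

private theorem avg_meas (b : Set V) {g : Lab → ℝ} (hg : Measurable g) :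
    Measurable (avg b g) := by
  have h : Measurable (fun z : Lab × Lab => g (mix b z.1 z.2)) := hg.comp (measurable_mix b)
  exact h.stronglyMeasurable.integral_prod_right'.measurable

private theorem avg_bound (b : Set V) {g : Lab → ℝ} (hg1 : ∀ w, |g w| ≤ 1) (w : Lab) :
    |avg b g w| ≤ 1 := by
  have h := norm_integral_le_of_norm_le_const (μ := P) (f := fun x => g (mix b w x)) (C := 1)
    (Filter.Eventually.of_forall fun x => hg1 _)
  rw [probReal_univ, mul_one] at h
  exact h

private theorem avg_congr (b : Set V) (g : Lab → ℝ) (w w' : Lab)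
    (h : ∀ v, v ∉ b → w v = w' v) : avg b g w = avg b g w' := by
  unfold avg
  congr 1
  funext x
  congr 1
  funext v
  unfold mix
  by_cases hv : v ∈ b
  · simp [hv]
  · simp [hv, h v hv]

private theorem mix_slice (b : Set V) (w : Lab) : Measurable (fun x => mix b w x) :=
  (measurable_mix b).comp (measurable_const.prodMk measurable_id)

private theorem avg_int (b : Set V) {g : Lab → ℝ} (hg : Measurable g) (hg1 : ∀ w, |g w| ≤ 1) :
    ∫ w, avg b g w ∂P = ∫ w, g w ∂P := by
  rw [int_mix b hg]
  exact (integral_prod _ (ib (hg.comp (measurable_mix b)) 1 fun z => hg1 _)).symm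

private theorem inf_nonneg (b : Set V) (g : Lab → ℝ) : 0 ≤ inf b g :=
  integral_nonneg fun _ => abs_nonneg _

private theorem inf_meas (b : Set V) {g : Lab → ℝ} (hg : Measurable g) :
    Measurable (fun z : Lab × Lab => |g z.1 - g (mix b z.1 z.2)|) :=
  ((hg.comp measurable_fst).sub (hg.comp (measurable_mix b))).norm

private theorem abs_sub_le_two {a b : ℝ} (ha : |a| ≤ 1) (hb : |b| ≤ 1) : |a - b| ≤ 2 := by
  rw [abs_le] at *
  constructor <;> linarith [ha.1, ha.2, hb.1, hb.2]

private theorem avg_diff (b : Set V) {g : Lab → ℝ} (hg : Measurable g)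
    (hg1 : ∀ w, |g w| ≤ 1) : ∫ w, |g w - avg b g w| ∂P ≤ inf b g := by
  have hi : Integrable (fun z : Lab × Lab => |g z.1 - g (mix b z.1 z.2)|) (P.prod P) :=
    ib (inf_meas b hg) 2 fun z => by
      rw [abs_abs]
      exact abs_sub_le_two (hg1 _) (hg1 _)
  unfold inf
  rw [integral_prod _ hi]
  refine integral_mono ?_ hi.integral_prod_left ?_
  · exact ib (hg.sub (avg_meas b hg)).norm 2 fun w => by
      rw [abs_abs]
      exact abs_sub_le_two (hg1 _) (avg_bound b hg1 _)
  · intro w
    have hI : Integrable (fun x => g (mix b w x)) P :=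
      ib (hg.comp (mix_slice b w)) 1 fun x => hg1 _
    have h1 : g w - avg b g w = ∫ x, (g w - g (mix b w x)) ∂P := by
      rw [integral_sub (integrable_const _) hI, integral_const, probReal_univ]
      simp [avg]
    change |g w - avg b g w| ≤ ∫ x, |g w - g (mix b w x)| ∂P
    rw [h1]
    exact abs_integral_le_integral_abs

private theorem mix_comm {b b' : Set V} (hd : Disjoint b b') (w x y : Lab) :
    mix b (mix b' w y) x = mix b' (mix b w x) y := by
  funext v
  unfold mix
  by_cases h1 : v ∈ b
  · have h2 : v ∉ b' := Set.disjoint_left.1 hd h1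
    simp [h1, h2]
  · simp [h1]

private theorem inf_avg {b b' : Set V} (hd : Disjoint b b') {g : Lab → ℝ} (hg : Measurable g)
    (hg1 : ∀ w, |g w| ≤ 1) : inf b' (avg b g) ≤ inf b' g := by
  obtain ⟨H, hH⟩ : ∃ H : Lab × Lab → ℝ, H = fun z => |g z.1 - g (mix b' z.1 z.2)| := ⟨_, rfl⟩
  have hHm : Measurable H := by
    rw [hH]
    exact inf_meas b' hg
  have hH2 : ∀ z, |H z| ≤ 2 := by
    intro z
    rw [hH]
    simp only [abs_abs]
    exact abs_sub_le_two (hg1 _) (hg1 _)
  have hm3 : Measurable (fun y : (Lab × Lab) × Lab => H (mix b y.1.1 y.2, y.1.2)) := by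
    refine hHm.comp (Measurable.prodMk ?_ (measurable_snd.comp measurable_fst))
    exact (measurable_mix b).comp
      ((measurable_fst.comp measurable_fst).prodMk measurable_snd)
  have hm2 : Measurable (fun z : Lab × Lab => ∫ x, H (mix b z.1 x, z.2) ∂P) :=
    hm3.stronglyMeasurable.integral_prod_right'.measurable
  have hb2 : ∀ z : Lab × Lab, |∫ x, H (mix b z.1 x, z.2) ∂P| ≤ 2 := by
    intro z
    have h := norm_integral_le_of_norm_le_const (μ := P) (f := fun x => H (mix b z.1 x, z.2))
      (C := 2) (Filter.Eventually.of_forall fun x => hH2 _)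
    rw [probReal_univ, mul_one] at h
    exact h
  have hi2 : Integrable (fun z : Lab × Lab => ∫ x, H (mix b z.1 x, z.2) ∂P) (P.prod P) :=
    ib hm2 2 hb2
  have h1 : inf b' (avg b g) ≤ ∫ z, ∫ x, H (mix b z.1 x, z.2) ∂P ∂(P.prod P) := by
    unfold inf
    refine integral_mono ?_ hi2 ?_
    · exact ib (inf_meas b' (avg_meas b hg)) 2 fun z => by
        rw [abs_abs]
        exact abs_sub_le_two (avg_bound b hg1 _) (avg_bound b hg1 _)
    · intro z
      have h2 : avg b g z.1 - avg b g (mix b' z.1 z.2) =
          ∫ x, (g (mix b z.1 x) - g (mix b (mix b' z.1 z.2) x)) ∂P := by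
        have hI : ∀ w, Integrable (fun x => g (mix b w x)) P := fun w =>
          ib (hg.comp (mix_slice b w)) 1 fun x => hg1 _
        rw [integral_sub (hI _) (hI _)]
        rfl
      change |avg b g z.1 - avg b g (mix b' z.1 z.2)| ≤ _
      rw [h2]
      refine abs_integral_le_integral_abs.trans (le_of_eq ?_)
      congr 1
      funext x
      rw [mix_comm hd, hH]
  refine h1.trans (le_of_eq ?_)
  rw [integral_prod_symm _ hi2]
  have h3 : ∀ y : Lab, ∫ w, ∫ x, H (mix b w x, y) ∂P ∂P = ∫ w, H (w, y) ∂P := by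
    intro y
    have hy : Measurable (fun w => H (w, y)) := hHm.comp (measurable_id.prodMk measurable_const)
    rw [int_mix b hy]
    exact (integral_prod _ (ib (hy.comp (measurable_mix b)) 2 fun z => hH2 _)).symm
  have h4 : (fun y : Lab => ∫ w, ∫ x, H (mix b w x, y) ∂P ∂P) = fun y => ∫ w, H (w, y) ∂P :=
    funext h3
  change ∫ y, ∫ w, ∫ x, H (mix b w x, y) ∂P ∂P ∂P = _
  rw [h4]
  unfold inf
  rw [← hH]
  exact (integral_prod_symm _ (ib hHm 2 hH2)).symm

private theorem dec_sum {b : Set V} (hb : b.Finite) {F : Set V → Lab → ℝ}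
    (hF : ∀ t, Measurable (F t)) (h1 : ∀ t w, |F t w| ≤ 1)
    (h2 : ∀ t (w w' : Lab), (∀ v, v ∉ b → w v = w' v) → F t w = F t w') :
    ∫ w, F (Op p w ∩ b) w ∂P =
      ∑ t ∈ hb.finite_subsets.toFinset, P.real {w | Op p w ∩ b = t} * ∫ w, F t w ∂P := by
  classical
  have hE : ∀ t : Set V, Ev b {w | Op p w ∩ b = t} := fun t => ev_op hb p (fun x => x = t)
  have hIm : ∀ t : Set V,
      Measurable (({w | Op p w ∩ b = t} : Set Lab).indicator (fun _ => (1 : ℝ))) :=
    fun t => measurable_const.indicator (hE t).1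
  have e : ∀ w, F (Op p w ∩ b) w = ∑ t ∈ hb.finite_subsets.toFinset,
      ({w | Op p w ∩ b = t} : Set Lab).indicator (fun _ => (1 : ℝ)) w * F t w := by
    intro w
    rw [Finset.sum_eq_single (Op p w ∩ b)]
    · rw [Set.indicator_of_mem (show w ∈ {w' | Op p w' ∩ b = Op p w ∩ b} from rfl), one_mul]
    · intro t _ ht
      rw [Set.indicator_of_notMem (show w ∉ {w' | Op p w' ∩ b = t} from
        fun h => ht (Eq.symm h)), zero_mul]
    · intro h
      refine absurd ?_ h
      rw [Set.Finite.mem_toFinset]
      exact Set.inter_subset_right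
  have e' : (fun w => F (Op p w ∩ b) w) = fun w => ∑ t ∈ hb.finite_subsets.toFinset,
      ({w | Op p w ∩ b = t} : Set Lab).indicator (fun _ => (1 : ℝ)) w * F t w := funext e
  rw [e', integral_finsetSum]
  · refine Finset.sum_congr rfl fun t _ => ?_
    rw [indep_fun (S := b) (hIm t) (hF t) ?_ (h2 t)]
    · congr 1
      rw [integral_indicator (hE t).1]
      simp
    · intro w w' h
      by_cases hw : w ∈ {w | Op p w ∩ b = t}
      · rw [Set.indicator_of_mem hw, Set.indicator_of_mem ((hE t).2 w w' h hw)]
      · rw [Set.indicator_of_notMem hw, Set.indicator_of_notMem fun hw' =>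
          hw ((hE t).2 w' w (fun v hv => (h v hv).symm) hw')]
  · intro t _
    refine ib ((hIm t).mul (hF t)) 1 fun w => ?_
    rw [abs_mul]
    refine mul_le_one₀ ?_ (abs_nonneg _) (h1 t w)
    by_cases hw : w ∈ {w | Op p w ∩ b = t}
    · rw [Set.indicator_of_mem hw, abs_one]
    · rw [Set.indicator_of_notMem hw, abs_zero]
      exact zero_le_one

private theorem osss_aux [Fintype ι] (hB : ∀ i, (B i).Finite)
    (hd : ∀ i j, i ≠ j → Disjoint (B i) (B j)) (T : Tr ι) :
    ∀ (s : Set ι), T.Fresh s → ∀ g : Lab → ℝ, Measurable g → (∀ w, |g w| ≤ 1) →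
    |∫ w, T.val B p w * g w ∂P - (∫ w, T.val B p w ∂P) * ∫ w, g w ∂P| ≤
      ∑ i, (P {w | i ∈ T.rv B p w}).toReal * inf (B i) g := by
  classical
  induction T with
  | leaf a =>
    intro s _ g _ _
    have h1 : ∫ w, (Tr.leaf a : Tr ι).val B p w * g w ∂P -
        (∫ w, (Tr.leaf a : Tr ι).val B p w ∂P) * ∫ w, g w ∂P = 0 := by
      simp only [Tr.val]
      rw [integral_const_mul, integral_const, probReal_univ]
      simp
    rw [h1, abs_zero]
    exact Finset.sum_nonneg fun i _ => mul_nonneg ENNReal.toReal_nonneg (inf_nonneg _ _)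
  | node i c ih =>
    intro s hT g hg hg1
    have hvb : ∀ (T : Tr ι) (w : Lab), |T.val B p w| ≤ 1 := by
      intro T w
      rcases val_bound (B := B) (p := p) T w with h | h <;> rw [h] <;> simp
    have hvm : ∀ T : Tr ι, Measurable (T.val B p) := measurable_val hB
    obtain ⟨g', hg'⟩ : ∃ g' : Lab → ℝ, g' = avg (B i) g := ⟨_, rfl⟩
    have hgm : Measurable g' := by
      rw [hg']
      exact avg_meas (B i) hg
    have hgb : ∀ w, |g' w| ≤ 1 := by
      rw [hg']
      exact avg_bound (B i) hg1
    have hgc : ∀ w w' : Lab, (∀ v, v ∉ B i → w v = w' v) → g' w = g' w' := by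
      rw [hg']
      exact avg_congr (B i) g
    have hgi : ∫ w, g' w ∂P = ∫ w, g w ∂P := by
      rw [hg']
      exact avg_int (B i) hg hg1
    have hcong : ∀ t (w w' : Lab), (∀ v, v ∉ B i → w v = w' v) →
        (c t).val B p w = (c t).val B p w' ∧ (c t).rv B p w = (c t).rv B p w' := by
      intro t w w' h
      refine val_congr (hT.2 t) fun j hj v hv => h v fun hv' => ?_
      have hji : j ≠ i := fun e => hj (Or.inl e)
      exact Set.disjoint_left.1 (hd j i hji) hv hv'
    -- the decompositions
    obtain ⟨Q, hQ⟩ : ∃ Q : Set V → ℝ, Q = fun t => P.real {w | Op p w ∩ B i = t} := ⟨_, rfl⟩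
    have d1 : ∫ w, (Tr.node i c).val B p w * g' w ∂P =
        ∑ t ∈ (hB i).finite_subsets.toFinset, Q t * ∫ w, (c t).val B p w * g' w ∂P := by
      rw [hQ]
      refine dec_sum (p := p) (hB i) (F := fun t w => (c t).val B p w * g' w)
        (fun t => (hvm _).mul hgm) ?_ ?_
      · intro t w
        rw [abs_mul]
        exact mul_le_one₀ (hvb _ _) (abs_nonneg _) (hgb w)
      · intro t w w' h
        rw [(hcong t w w' h).1, hgc w w' h]
    have d2 : ∫ w, (Tr.node i c).val B p w ∂P =
        ∑ t ∈ (hB i).finite_subsets.toFinset, Q t * ∫ w, (c t).val B p w ∂P := by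
      rw [hQ]
      exact dec_sum (p := p) (hB i) (F := fun t w => (c t).val B p w)
        (fun t => hvm _) (fun t w => hvb _ _) fun t w w' h => (hcong t w w' h).1
    have d3 : ∀ j, j ≠ i → (P {w | j ∈ (Tr.node i c).rv B p w}).toReal =
        ∑ t ∈ (hB i).finite_subsets.toFinset,
          Q t * (P {w | j ∈ (c t).rv B p w}).toReal := by
      intro j hj
      have h1 := dec_sum (p := p) (hB i)
        (F := fun t => ({w | j ∈ (c t).rv B p w} : Set Lab).indicator (fun _ => (1 : ℝ)))
        (fun t => measurable_const.indicator (measurableSet_rv hB (c t) j)) ?_ ?_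
      · have h2 : ∀ t, ∫ w, ({w | j ∈ (c t).rv B p w} : Set Lab).indicator
            (fun _ => (1 : ℝ)) w ∂P = (P {w | j ∈ (c t).rv B p w}).toReal := by
          intro t
          rw [integral_indicator (measurableSet_rv hB (c t) j)]
          simp [Measure.real]
        have h3 : ∫ w, ({w' | j ∈ (c (Op p w ∩ B i)).rv B p w'} : Set Lab).indicator
            (fun _ => (1 : ℝ)) w ∂P = (P {w | j ∈ (Tr.node i c).rv B p w}).toReal := by
          have h4 : (fun w => ({w' | j ∈ (c (Op p w ∩ B i)).rv B p w'} : Set Lab).indicator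
              (fun _ => (1 : ℝ)) w) =
              ({w | j ∈ (Tr.node i c).rv B p w} : Set Lab).indicator (fun _ => (1 : ℝ)) := by
            funext w
            have h5 : j ∈ (Tr.node i c).rv B p w ↔ j ∈ (c (Op p w ∩ B i)).rv B p w := by
              constructor
              · rintro (h | h)
                · exact absurd h hj
                · exact h
              · exact Or.inr
            by_cases h6 : j ∈ (c (Op p w ∩ B i)).rv B p w
            · rw [Set.indicator_of_mem (show w ∈ {w' | j ∈ (c (Op p w ∩ B i)).rv B p w'}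
                from h6), Set.indicator_of_mem (show w ∈ {w | j ∈ (Tr.node i c).rv B p w}
                from h5.2 h6)]
            · rw [Set.indicator_of_notMem (show w ∉ {w' | j ∈ (c (Op p w ∩ B i)).rv B p w'}
                from h6), Set.indicator_of_notMem
                (show w ∉ {w | j ∈ (Tr.node i c).rv B p w} from fun h => h6 (h5.1 h))]
          rw [h4, integral_indicator (measurableSet_rv hB _ j)]
          simp [Measure.real]
        rw [← h3, h1, hQ]
        exact Finset.sum_congr rfl fun t _ => by rw [h2]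
      · intro t w
        by_cases hw : w ∈ {w | j ∈ (c t).rv B p w}
        · rw [Set.indicator_of_mem hw, abs_one]
        · rw [Set.indicator_of_notMem hw, abs_zero]
          exact zero_le_one
      · intro t w w' h
        have h5 : w ∈ {w | j ∈ (c t).rv B p w} ↔ w' ∈ {w | j ∈ (c t).rv B p w} := by
          change j ∈ (c t).rv B p w ↔ j ∈ (c t).rv B p w'
          rw [(hcong t w w' h).2]
        by_cases hw : w ∈ {w | j ∈ (c t).rv B p w}
        · rw [Set.indicator_of_mem hw, Set.indicator_of_mem (h5.1 hw)]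
        · rw [Set.indicator_of_notMem hw, Set.indicator_of_notMem fun h => hw (h5.2 h)]
    have hQ0 : ∀ t, 0 ≤ Q t := by
      intro t
      rw [hQ]
      exact measureReal_nonneg
    -- the second part
    have p2 : |∫ w, (Tr.node i c).val B p w * g' w ∂P -
        (∫ w, (Tr.node i c).val B p w ∂P) * ∫ w, g' w ∂P| ≤
        ∑ j ∈ Finset.univ.erase i,
          (P {w | j ∈ (Tr.node i c).rv B p w}).toReal * inf (B j) g := by
      rw [d1, d2, Finset.sum_mul, ← Finset.sum_sub_distrib]
      calc _ ≤ ∑ t ∈ (hB i).finite_subsets.toFinset,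
            |Q t * (∫ w, (c t).val B p w * g' w ∂P) -
              Q t * (∫ w, (c t).val B p w ∂P) * ∫ w, g' w ∂P| :=
            Finset.abs_sum_le_sum_abs _ _
        _ ≤ ∑ t ∈ (hB i).finite_subsets.toFinset,
            Q t * ∑ j, (P {w | j ∈ (c t).rv B p w}).toReal * inf (B j) g' := by
            refine Finset.sum_le_sum fun t _ => ?_
            rw [mul_assoc, ← mul_sub, abs_mul, abs_of_nonneg (hQ0 t)]
            exact mul_le_mul_of_nonneg_left (ih t (insert i s) (hT.2 t) g' hgm hgb) (hQ0 t)
        _ ≤ ∑ t ∈ (hB i).finite_subsets.toFinset, ∑ j ∈ Finset.univ.erase i,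
            Q t * (P {w | j ∈ (c t).rv B p w}).toReal * inf (B j) g := by
            refine Finset.sum_le_sum fun t _ => ?_
            rw [← Finset.add_sum_erase _ _ (Finset.mem_univ i)]
            have h0 : {w | i ∈ (c t).rv B p w} = ∅ := by
              ext w
              constructor
              · intro h
                exact absurd h (rv_fresh (hT.2 t) (Or.inl rfl))
              · intro h
                exact h.elim
            rw [h0, measure_empty, ENNReal.toReal_zero, zero_mul, zero_add, Finset.mul_sum]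
            refine Finset.sum_le_sum fun j hj => ?_
            have hji : j ≠ i := Finset.ne_of_mem_erase hj
            rw [mul_assoc]
            refine mul_le_mul_of_nonneg_left (mul_le_mul_of_nonneg_left ?_
              ENNReal.toReal_nonneg) (hQ0 t)
            rw [hg']
            exact inf_avg (hd i j hji.symm) hg hg1
        _ = ∑ j ∈ Finset.univ.erase i,
            (P {w | j ∈ (Tr.node i c).rv B p w}).toReal * inf (B j) g := by
            rw [Finset.sum_comm]
            refine Finset.sum_congr rfl fun j hj => ?_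
            rw [d3 j (Finset.ne_of_mem_erase hj), Finset.sum_mul]
    -- the first part
    have p1 : |∫ w, (Tr.node i c).val B p w * g w ∂P -
        ∫ w, (Tr.node i c).val B p w * g' w ∂P| ≤ inf (B i) g := by
      have i1 : Integrable (fun w => (Tr.node i c).val B p w * g w) P :=
        ib ((hvm _).mul hg) 1 fun w => by
          rw [abs_mul]
          exact mul_le_one₀ (hvb _ _) (abs_nonneg _) (hg1 w)
      have i2 : Integrable (fun w => (Tr.node i c).val B p w * g' w) P :=
        ib ((hvm _).mul hgm) 1 fun w => by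
          rw [abs_mul]
          exact mul_le_one₀ (hvb _ _) (abs_nonneg _) (hgb w)
      rw [← integral_sub i1 i2]
      have h1 := avg_diff (B i) hg hg1
      rw [← hg'] at h1
      refine (abs_integral_le_integral_abs.trans ?_).trans h1
      refine integral_mono (i1.sub i2).abs ?_ ?_
      · exact ib (hg.sub hgm).norm 2 fun w => by
          rw [abs_abs]
          exact abs_sub_le_two (hg1 _) (hgb _)
      · intro w
        simp only
        rw [← mul_sub, abs_mul]
        exact mul_le_of_le_one_left (abs_nonneg _) (hvb _ _)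
    have hPi : (P {w | i ∈ (Tr.node i c).rv B p w}).toReal = 1 := by
      have : {w | i ∈ (Tr.node i c).rv B p w} = Set.univ := by
        ext w
        constructor
        · intro _
          trivial
        · intro _
          exact Or.inl rfl
      rw [this, measure_univ, ENNReal.toReal_one]
    rw [← Finset.add_sum_erase _ _ (Finset.mem_univ i), hPi, one_mul, ← hgi]
    rw [← hgi] at *
    calc _ = |(∫ w, (Tr.node i c).val B p w * g w ∂P -
            ∫ w, (Tr.node i c).val B p w * g' w ∂P) +
          (∫ w, (Tr.node i c).val B p w * g' w ∂P -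
            (∫ w, (Tr.node i c).val B p w ∂P) * ∫ w, g' w ∂P)| := by
          congr 1
          ring
      _ ≤ _ := (abs_add_le _ _).trans (add_le_add p1 p2)

theorem osss [Fintype ι] (hB : ∀ i, (B i).Finite) (hd : ∀ i j, i ≠ j → Disjoint (B i) (B j))
    (hT : T.Fresh ∅) {g : Lab → ℝ} (hg : Measurable g) (hg1 : ∀ w, |g w| ≤ 1) :
    |∫ w, T.val B p w * g w ∂P - (∫ w, T.val B p w ∂P) * ∫ w, g w ∂P| ≤
      ∑ i, (P {w | i ∈ T.rv B p w}).toReal * inf (B i) g := by
  exact osss_aux hB hd T ∅ hT g hg hg1

end Pool.Agent.TriPerc
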