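import Pool.Agent.TriPerc.DefsA

/-!
# Every closed 1-cochain mod 2 on the triangular lattice is a gradient (`H^1 = 0`)

`h1`: let `φ u v ∈ Z/2` be symmetric and suppose that for every triangle (three mutually adjacent
vertices) the sum of the three values is `0`.  Then there is `h : V → Z/2` with
`φ u v = h u + h v` for all adjacent `u, v`.

PROOF.  (1) `exists_sum`: for every `g : ℤ → Z/2` and `c` there is `f : ℤ → Z/2` with `f 0 = c`
and `f (i + 1) = f i + g i` for all `i`: put
`f i = c + ∑ j ∈ Finset.Ico 0 i, g j + ∑ j ∈ Finset.Ico i 0, g j`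
(for `i ≥ 0` the second sum is empty, for `i < 0` the first one is empty and
`Ico i 0 = insert i (Ico (i + 1) 0)`; in `Z/2` signs do not matter).

(2) Let `r` be such a function for `g i = φ (i, 0) (i + 1, 0)`, `c = 0`, and for every `a` let
`k a` be such a function for `g j = φ (a, j) (a, j + 1)`, `c = r a`.  Put `h (a, b) = k a b`.
Then `φ (a, b) (a, b + 1) = h (a, b) + h (a, b + 1)` by construction (char 2).

(3) Claim: `φ (a, b) (a + 1, b) = h (a, b) + h (a + 1, b)` for all `b`.  For `b = 0` by the choice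
of `r`.  Step between `b` and `b + 1` (both directions): the two triangles
`(a, b), (a + 1, b), (a, b + 1)` and `(a + 1, b), (a, b + 1), (a + 1, b + 1)` share the edge
`(a + 1, b), (a, b + 1)`; adding the two relations, this edge cancels and
`φ (a, b) (a + 1, b) + φ (a, b) (a, b + 1) + φ (a + 1, b) (a + 1, b + 1)
  + φ (a, b + 1) (a + 1, b + 1) = 0`; insert (2).  Use `Int.induction_on`.

(4) The edge `(a, b + 1), (a + 1, b)`: from the triangle `(a, b), (a + 1, b), (a, b + 1)`, (2), (3).

(5) Every adjacent pair is one of these three kinds up to exchanging the two ends (`φ` is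
symmetric).

`h1_int` is the same for antisymmetric integer valued cochains (same proof with signs:
`f i = c + ∑ j ∈ Ico 0 i, g j - ∑ j ∈ Ico i 0, g j`).
-/

namespace Pool.Agent.TriPerc

private theorem exists_gen {G : Type*} [AddCommGroup G] (g : ℤ → G) (c : G) :
    ∃ f : ℤ → G, f 0 = c ∧ ∀ i, f (i + 1) = f i + g i := by
  refine ⟨fun i => c + ∑ j ∈ Finset.Ico 0 i, g j - ∑ j ∈ Finset.Ico i 0, g j, by simp,
    fun i => ?_⟩
  beta_reduce
  rcases le_or_gt 0 i with h | h
  · have h1 : Finset.Ico (i + 1) 0 = ∅ := Finset.Ico_eq_empty (by omega)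
    have h2 : Finset.Ico i 0 = ∅ := Finset.Ico_eq_empty (by omega)
    have h3 : Finset.Ico 0 (i + 1) = insert i (Finset.Ico 0 i) := by
      ext x
      simp only [Finset.mem_Ico, Finset.mem_insert]
      omega
    rw [h1, h2, h3, Finset.sum_insert (by simp), Finset.sum_empty]
    abel
  · have h1 : Finset.Ico 0 (i + 1) = ∅ := Finset.Ico_eq_empty (by omega)
    have h2 : Finset.Ico 0 i = ∅ := Finset.Ico_eq_empty (by omega)
    have h3 : Finset.Ico i 0 = insert i (Finset.Ico (i + 1) 0) := by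
      ext x
      simp only [Finset.mem_Ico, Finset.mem_insert]
      omega
    rw [h1, h2, h3, Finset.sum_insert (by simp), Finset.sum_empty]
    abel

private theorem h1_gen {G : Type*} [CommRing G] (φ : V → V → G) (hs : ∀ u v, φ u v = - φ v u)
    (ht : ∀ u v w, Adj u v → Adj v w → Adj u w → φ u v + φ v w + φ w u = 0) :
    ∃ h : V → G, ∀ u v, Adj u v → φ u v = h v - h u := by
  obtain ⟨r, -, hr⟩ := exists_gen (fun i => φ (i, 0) (i + 1, 0)) 0
  choose k hk0 hk using fun a : ℤ => exists_gen (fun j => φ (a, j) (a, j + 1)) (r a)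
  have hV : ∀ a b, φ (a, b) (a, b + 1) = k a (b + 1) - k a b := by
    intro a b
    rw [hk]
    ring
  have t1 : ∀ a b, φ (a, b) (a + 1, b) + φ (a + 1, b) (a, b + 1) = φ (a, b) (a, b + 1) := by
    intro a b
    have h1 := ht (a, b) (a + 1, b) (a, b + 1) (by simp [Adj]) (by simp [Adj]) (by simp [Adj])
    rw [hs (a, b + 1) (a, b)] at h1
    linear_combination h1
  have t2 : ∀ a b, φ (a + 1, b) (a, b + 1) + φ (a, b + 1) (a + 1, b + 1) =
      φ (a + 1, b) (a + 1, b + 1) := by
    intro a b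
    have h1 := ht (a + 1, b) (a, b + 1) (a + 1, b + 1) (by simp [Adj]) (by simp [Adj])
      (by simp [Adj])
    rw [hs (a + 1, b + 1) (a + 1, b)] at h1
    linear_combination h1
  have hH : ∀ a b, φ (a, b) (a + 1, b) = k (a + 1) b - k a b := by
    intro a b
    induction b using Int.induction_on with
    | zero =>
      rw [hk0, hk0, hr]
      ring
    | succ i ih =>
      have h1 := t1 a i
      have h2 := t2 a i
      rw [hV] at h1 h2
      linear_combination ih - h1 + h2
    | pred i ih =>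
      have h1 := t1 a (-(i : ℤ) - 1)
      have h2 := t2 a (-(i : ℤ) - 1)
      rw [hV] at h1 h2
      have e : (-(i : ℤ) - 1 + 1) = -(i : ℤ) := by ring
      rw [e] at h1 h2
      linear_combination ih + h1 - h2
  have hD : ∀ a b, φ (a + 1, b) (a, b + 1) = k a (b + 1) - k (a + 1) b := by
    intro a b
    have h1 := t1 a b
    rw [hV, hH] at h1
    linear_combination h1
  refine ⟨fun v => k v.1 v.2, ?_⟩
  rintro ⟨a, b⟩ ⟨c, d⟩ h
  simp only [Adj] at h
  rcases h with ⟨rfl, rfl⟩ | ⟨rfl, rfl⟩ | ⟨rfl, rfl⟩ | ⟨rfl, rfl⟩ | ⟨rfl, rfl⟩ | ⟨rfl, rfl⟩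
  · exact hH a d
  · exact hV c b
  · have h1 := hD (a - 1) b
    rw [sub_add_cancel] at h1
    exact h1
  · have h1 := hH (a - 1) d
    rw [sub_add_cancel] at h1
    rw [hs, h1]
    ring
  · have h1 := hV c (b - 1)
    rw [sub_add_cancel] at h1
    rw [hs, h1]
    ring
  · have h1 := hD a (b - 1)
    rw [sub_add_cancel] at h1
    rw [hs, h1]
    ring

theorem exists_sum (g : ℤ → ZMod 2) (c : ZMod 2) :
    ∃ f : ℤ → ZMod 2, f 0 = c ∧ ∀ i, f (i + 1) = f i + g i := exists_gen g c

theorem exists_sum_int (g : ℤ → ℤ) (c : ℤ) :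
    ∃ f : ℤ → ℤ, f 0 = c ∧ ∀ i, f (i + 1) = f i + g i := exists_gen g c

theorem h1 (φ : V → V → ZMod 2) (hs : ∀ u v, φ u v = φ v u)
    (ht : ∀ u v w, Adj u v → Adj v w → Adj u w → φ u v + φ v w + φ u w = 0) :
    ∃ h : V → ZMod 2, ∀ u v, Adj u v → φ u v = h u + h v := by
  have key : ∀ x : ZMod 2, - x = x := by decide
  obtain ⟨h, hh⟩ := h1_gen φ (fun u v => by rw [key, hs]) fun u v w h1 h2 h3 => by
    rw [hs w u]
    exact ht u v w h1 h2 h3
  refine ⟨h, fun u v huv => ?_⟩
  rw [hh u v huv, sub_eq_add_neg, key, add_comm]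

theorem h1_int (φ : V → V → ℤ) (hs : ∀ u v, φ u v = - φ v u)
    (ht : ∀ u v w, Adj u v → Adj v w → Adj u w → φ u v + φ v w + φ w u = 0) :
    ∃ h : V → ℤ, ∀ u v, Adj u v → φ u v = h v - h u := h1_gen φ hs ht

end Pool.Agent.TriPerc
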