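import Pool.Agent.TriPerc.Ring
import Pool.Agent.TriPerc.Rsp

/-!
# Routing of four paths from four points near a ring to the centres of the four sides

Pure combinatorics on the integer lattice with the four neighbour relation `Nb` (`NbConn`).
Sources: `pt (k i) (τ i) (M + ε * ρ i)`, `i = 0, 1, 2, 3`, in cyclic order (`hs`), pairwise separated by
`Δ`, at distance `≥ Δ` from the corners.  Target of the source `i`: the point `pt i 0 E` on the axis of
side `i`.  `ε = 1`: the paths are outside the ring of radius `M`, `E ≥ M + B + 40`; `ε = -1`: inside,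
`3 ≤ E ≤ M - B - 40`.

CONSTRUCTION.  `c i = 4 - i` if `(k i, τ i) < (i, 0)` lexicographically (`k i < i` or `k i = i ∧ τ i < 0`),
type R; otherwise `c i = 5 + i`, type L.  `r i = M + ε (B + 4 c i)`.  The path `Z i` is the union of
* the radial segment `pt (k i) (τ i) ρ`, `ρ` between `M + ε ρ i` and `r i`;
* the arc of the ring `Rg 0 (r i)` between `pt (k i) (τ i) (r i)` and `pt i 0 (r i)`: the ring vertices
  whose key is between the two keys (an interval of keys; `kq_pt`);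
* the radial segment `pt i 0 ρ`, `ρ` between `r i` and `E`.
Each piece is connected for `Nb` (consecutive keys differ by one coordinate step), and they have
common points.  `4 ≤ 4 c i ≤ 32`.

DISTANCES.  (a) Two points of the rings of radii `r, r'` are at `sn`-distance `≥ |r - r'|`; the numbers
`c i` are different (R types: `4, 3, 2, 1`; L types: `5, 6, 7, 8`), so two arcs are at distance `≥ 4`.
(b) Points `pt k τ ρ`, `pt k' σ ρ'` with `k ≠ k'`, `|τ| ≤ min ρ M - Δ'`: the distance is at least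
`Δ'` resp. `ρ'`-dependent: for adjacent sides the coordinates give `|ρ' ∓ τ| ≥ ρ' - |τ|`; for opposite
sides `ρ + ρ'`.  For a source segment (`|τ i| ≤ M - Δ`) against any point on another side with radius
`≥ M - B - 32` this is `≥ Δ - B - 32 ≥ L + 3`; for a target segment (`τ = 0`) it is
`≥` the radius of the other point `≥ 3`.  (c) On the same side the distance is at least the
difference of the tangential coordinates and at least the difference of the radii.
Now let `i ≠ j`.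
* source segment `i` against source segment `j`: (b), or same side and `|τ i - τ j| ≥ Δ`.
* target segments: different sides, (b).
* source segment `i` against target segment `j`: (b) unless `k i = j`; if `k i = j` and `|τ i| ≤ 2`: if
  `i < j` then `i` is of type L (`(k i, τ i) > (i, 0)`), and `(k j, τ j) ≥ (k i, τ i + Δ)` so `j` is of type
  L and `c j ≥ c i + 1`: the radii are separated by `4`.  If `i > j`: `i` is of type R, `j` is of type R
  (`(k j, τ j) ≤ (k i, τ i - Δ)`), `c j ≥ c i + 1`.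
* source segment `i` against arc `j`: only the points of the arc on the side `k i` with tangential
  coordinate within `2` of `τ i` matter.  `j` of type R (arc from `(k j, τ j)` up to `(j, 0)`): if `i < j`,
  `(k i, τ i) ≤ (k j, τ j - Δ)`: no such points.  If `i > j` and `(k i, τ i) ≤ (j, 2)`, then
  `(k i, τ i) < (i, 0)`, type R, `c i < c j`.  `j` of type L (arc from `(j, 0)` up to `(k j, τ j)`):
  if `i > j` no such points; if `i < j` and `(k i, τ i) ≥ (j, -2)` then `i` is of type L and `c i < c j`.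
* target segment `i` against arc `j`: `j` of type R: `i > j`: the arc has no points on the side `i`.
  `i < j` and `(k j, τ j) ≤ (i, 2)`: then `(k i, τ i) ≤ (i, 2 - Δ) < (i, 0)` or `k i < k j ≤ i`; type R and
  `c i > c j`.  `j` of type L: `i < j`: no points on the side `i`.  `i > j` and `(k j, τ j) ≥ (i, -2)`: then
  `(k i, τ i) > (i, 0)`, type L, `c i > c j`.
* distance `≥ L` of `Z i` from the source point `j`: source segment: `Δ`, (b); the arcs and the target
  segments have radii which differ from that of the source point by `≥ B + 4 - ρ j ≥ L`.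
-/

namespace Pool.Agent.TriPerc

variable {ε M Δ B L E : ℤ} {k : Fin 4 → ℕ} {τ ρ : Fin 4 → ℤ}

private theorem cases4 {a : ℕ} (h : a < 4) : a = 0 ∨ a = 1 ∨ a = 2 ∨ a = 3 := by omega

private theorem pt0 (τ q : ℤ) : pt 0 τ q = (τ, -q) := rfl

private theorem pt1 (τ q : ℤ) : pt 1 τ q = (q, τ) := rfl

private theorem pt2 (τ q : ℤ) : pt 2 τ q = (-τ, q) := rfl

private theorem pt3 (τ q : ℤ) : pt 3 τ q = (-q, -τ) := rfl

/-- The ring distance. -/
theorem sn_sub_ge (u v : V) : |sn u - sn v| ≤ sn (u - v) := by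
  have h1 := sn_add (u - v) v
  have h2 := sn_add (v - u) u
  have h3 := sn_neg (u - v)
  rw [sub_add_cancel] at h1 h2
  rw [neg_sub] at h3
  rw [abs_le]
  omega

/-- Points on different sides. -/
theorem pt_far {a b : ℕ} (ha : a < 4) (hb : b < 4) (hab : a ≠ b) {s r s' r' : ℤ} (h0 : 0 ≤ r)
    (h0' : 0 ≤ r') (hs' : |s'| ≤ r') : r' - |s| ≤ sn (pt a s r - pt b s' r') := by
  have h1 := le_abs_self s
  have h2 := neg_le_abs s
  rw [abs_le] at hs'
  unfold sn
  rw [le_max_iff, le_abs, le_abs]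
  rcases cases4 ha with rfl | rfl | rfl | rfl <;> rcases cases4 hb with rfl | rfl | rfl | rfl
  all_goals
    first
    | exact absurd rfl hab
    | (simp only [pt0, pt1, pt2, pt3, Prod.fst_sub, Prod.snd_sub]
       omega)

/-- Separation of two points given by their sides and coordinates. -/
private theorem far {a b : ℕ} {s s' q q' D : ℤ} (ha : a < 4) (hb : b < 4) (h1 : -q ≤ s)
    (h2 : s ≤ q) (h1' : -q' ≤ s') (h2' : s' ≤ q')
    (h : (q + D ≤ q' ∨ q' + D ≤ q) ∨ (a = b ∧ (s + D ≤ s' ∨ s' + D ≤ s)) ∨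
      (a ≠ b ∧ ((D + s ≤ q' ∧ D - s ≤ q') ∨ (D + s' ≤ q ∧ D - s' ≤ q)))) :
    D ≤ sn (pt a s q - pt b s' q') := by
  have e1 := sn_pt ha (abs_le.2 ⟨h1, h2⟩)
  have e2 := sn_pt hb (abs_le.2 ⟨h1', h2'⟩)
  rcases h with h | ⟨rfl, h⟩ | ⟨hab, h⟩
  · have h3 := sn_sub_ge (pt a s q) (pt b s' q')
    rw [e1, e2, abs_le] at h3
    omega
  · unfold sn
    rw [le_max_iff, le_abs, le_abs]
    rcases cases4 ha with rfl | rfl | rfl | rfl
    all_goals
      simp only [pt0, pt1, pt2, pt3, Prod.fst_sub, Prod.snd_sub]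
      omega
  · rcases h with h | h
    · have h3 := pt_far ha hb hab (s := s) (r := q) (s' := s') (r' := q') (by omega) (by omega)
        (abs_le.2 ⟨h1', h2'⟩)
      have h4 : |s| ≤ q' - D := abs_le.2 ⟨by omega, by omega⟩
      omega
    · have h3 := pt_far hb ha hab.symm (s := s') (r := q') (s' := s) (r' := q) (by omega)
        (by omega) (abs_le.2 ⟨h1, h2⟩)
      have h4 : |s'| ≤ q - D := abs_le.2 ⟨by omega, by omega⟩
      have h5 := sn_neg (pt b s' q' - pt a s q)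
      rw [neg_sub] at h5
      omega

private theorem nb_symm {e f : V} (h : Nb e f) : Nb f e := by
  unfold Nb at *
  rcases h with ⟨h1, h2⟩ | ⟨h1, h2⟩
  · exact Or.inl ⟨h1.symm, by rwa [abs_sub_comm]⟩
  · exact Or.inr ⟨h1.symm, by rwa [abs_sub_comm]⟩

private theorem nbconn_path {f : ℤ → V} {x y : ℤ}
    (h : ∀ t, x ≤ t → t < y → Nb (f t) (f (t + 1))) :
    NbConn (((Finset.Icc x y).image f : Finset V) : Set V) := by
  have hmem : ∀ t, x ≤ t → t ≤ y → f t ∈ (((Finset.Icc x y).image f : Finset V) : Set V) :=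
    fun t h1 h2 => Finset.mem_coe.2 (Finset.mem_image_of_mem f (Finset.mem_Icc.2 ⟨h1, h2⟩))
  have up : ∀ t, x ≤ t → ∀ n : ℕ, t + n ≤ y → Relation.ReflTransGen
      (fun a b => Nb a b ∧ b ∈ (((Finset.Icc x y).image f : Finset V) : Set V))
      (f t) (f (t + n)) := by
    intro t ht n
    induction n with
    | zero =>
      intro _
      rw [Nat.cast_zero, add_zero]
    | succ n ih =>
      intro hn
      rw [Nat.cast_succ] at hn ⊢
      refine (ih (by omega)).tail ?_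
      rw [← add_assoc]
      exact ⟨h _ (by omega) (by omega), hmem _ (by omega) (by omega)⟩
  have dn : ∀ t, x ≤ t → ∀ n : ℕ, t + n ≤ y → Relation.ReflTransGen
      (fun a b => Nb a b ∧ b ∈ (((Finset.Icc x y).image f : Finset V) : Set V))
      (f (t + n)) (f t) := by
    intro t ht n
    induction n with
    | zero =>
      intro _
      rw [Nat.cast_zero, add_zero]
    | succ n ih =>
      intro hn
      rw [Nat.cast_succ] at hn ⊢
      refine Relation.ReflTransGen.head ?_ (ih (by omega))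
      rw [← add_assoc]
      exact ⟨nb_symm (h _ (by omega) (by omega)), hmem _ (by omega) (by omega)⟩
  intro e he e' he'
  obtain ⟨t, ht, rfl⟩ := Finset.mem_image.1 (Finset.mem_coe.1 he)
  obtain ⟨t', ht', rfl⟩ := Finset.mem_image.1 (Finset.mem_coe.1 he')
  rw [Finset.mem_Icc] at ht ht'
  rcases le_total t t' with h1 | h1
  · obtain ⟨n, hn⟩ := Int.eq_ofNat_of_zero_le (sub_nonneg.2 h1)
    have h2 : t' = t + n := by omega
    rw [h2]
    exact up t ht.1 n (by omega)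
  · obtain ⟨n, hn⟩ := Int.eq_ofNat_of_zero_le (sub_nonneg.2 h1)
    have h2 : t = t' + n := by omega
    rw [h2]
    exact dn t' ht'.1 n (by omega)

private theorem nbconn_mono {S T : Set V} (h : S ⊆ T) {e f : V}
    (h1 : Relation.ReflTransGen (fun a b => Nb a b ∧ b ∈ S) e f) :
    Relation.ReflTransGen (fun a b => Nb a b ∧ b ∈ T) e f :=
  Relation.ReflTransGen.mono (fun _ _ hab => ⟨hab.1, h hab.2⟩) _ _ h1

private theorem nbconn_union {S T : Finset V} (hS : NbConn (S : Set V))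
    (hT : NbConn (T : Set V)) {x : V} (hx : x ∈ S) (hx' : x ∈ T) :
    NbConn ((S ∪ T : Finset V) : Set V) := by
  have s1 : (S : Set V) ⊆ ((S ∪ T : Finset V) : Set V) := by
    intro v hv
    rw [Finset.coe_union]
    exact Or.inl hv
  have s2 : (T : Set V) ⊆ ((S ∪ T : Finset V) : Set V) := by
    intro v hv
    rw [Finset.coe_union]
    exact Or.inr hv
  intro e he f hf
  rw [Finset.coe_union] at he hf
  rcases he with he | he <;> rcases hf with hf | hf
  · exact nbconn_mono s1 (hS e he f hf)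
  · exact (nbconn_mono s1 (hS e he x hx)).trans (nbconn_mono s2 (hT x hx' f hf))
  · exact (nbconn_mono s2 (hT e he x hx')).trans (nbconn_mono s1 (hS x hx f hf))
  · exact nbconn_mono s2 (hT e he f hf)

/-- The ring vertex with the key `κ`. -/
private def rp (r κ : ℤ) : V := pt (κ / (2 * r)).toNat (κ % (2 * r) - r) r

private theorem rp_eq {r : ℤ} (a : ℕ) {s : ℤ} (h1 : -r ≤ s) (h2 : s < r) :
    rp r (2 * r * a + s + r) = pt a s r := by
  have h3 := (Int.ediv_emod_unique (a := 2 * r * a + s + r) (b := 2 * r) (r := s + r)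
    (q := (a : ℤ)) (by omega)).2 ⟨by ring, by omega, by omega⟩
  unfold rp
  rw [h3.1, h3.2, Int.toNat_natCast, add_sub_cancel_right]

private theorem rp_spec {r κ : ℤ} (hr : 0 < r) (h0 : 0 ≤ κ) (h8 : κ < 8 * r) :
    ∃ a : ℕ, a < 4 ∧ ∃ s, -r ≤ s ∧ s < r ∧ κ = 2 * r * a + s + r ∧ rp r κ = pt a s r := by
  have h1 := Int.emod_nonneg κ (show 2 * r ≠ 0 by omega)
  have h2 := Int.emod_lt_of_pos κ (show 0 < 2 * r by omega)
  have h3 := Int.mul_ediv_add_emod κ (2 * r)
  have h4 : 0 ≤ κ / (2 * r) := Int.ediv_nonneg h0 (by omega)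
  have h5 : κ / (2 * r) < 4 := by
    apply Int.ediv_lt_of_lt_mul (by omega)
    omega
  have h6 : (((κ / (2 * r)).toNat : ℕ) : ℤ) = κ / (2 * r) := Int.toNat_of_nonneg h4
  refine ⟨(κ / (2 * r)).toNat, by omega, κ % (2 * r) - r, by omega, by omega, ?_, rfl⟩
  rw [h6]
  omega

private theorem rp_nb {r κ : ℤ} (hr : 0 < r) (h0 : 0 ≤ κ) (h8 : κ + 1 < 8 * r) :
    Nb (rp r κ) (rp r (κ + 1)) := by
  obtain ⟨a, ha, s, h1, h2, h3, h4⟩ := rp_spec hr h0 (by omega)
  rw [h4]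
  by_cases hs : s + 1 < r
  · have h5 : κ + 1 = 2 * r * a + (s + 1) + r := by
      rw [h3]
      ring
    rw [h5, rp_eq a (by omega) hs]
    rcases cases4 ha with rfl | rfl | rfl | rfl
    · refine Or.inr ⟨rfl, ?_⟩
      rw [pt0, pt0]
      simp
    · refine Or.inl ⟨rfl, ?_⟩
      rw [pt1, pt1]
      simp
    · refine Or.inr ⟨rfl, ?_⟩
      rw [pt2, pt2]
      simp
    · refine Or.inl ⟨rfl, ?_⟩
      rw [pt3, pt3]
      simp
  · have hs' : s = r - 1 := by omega
    have h5 : κ + 1 = 2 * r * ((a + 1 : ℕ) : ℤ) + (-r) + r := by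
      rw [h3, hs']
      push_cast
      ring
    have ha' : a < 3 := by
      rcases cases4 ha with rfl | rfl | rfl | rfl
      · omega
      · omega
      · omega
      · exfalso
        push_cast at h5
        omega
    rw [h5, rp_eq (a + 1) (by omega) (by omega), hs']
    have ha3 : a = 0 ∨ a = 1 ∨ a = 2 := by omega
    rcases ha3 with rfl | rfl | rfl
    · refine Or.inr ⟨rfl, ?_⟩
      change |(r - 1) - r| = 1
      simp
    · rw [pt1]
      change Nb (r, r - 1) (- -r, r)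
      rw [neg_neg]
      refine Or.inl ⟨rfl, ?_⟩
      simp
    · rw [pt2]
      change Nb (-(r - 1), r) (-r, - -r)
      rw [neg_neg]
      refine Or.inr ⟨rfl, ?_⟩
      simp

private theorem rad_nb {a : ℕ} (ha : a < 4) {e m s t : ℤ} (he : e = 1 ∨ e = -1) :
    Nb (pt a s (m + e * t)) (pt a s (m + e * (t + 1))) := by
  have h1 : |(m + e * t) - (m + e * (t + 1))| = 1 := by
    rcases he with rfl | rfl
    · rw [show (m + 1 * t) - (m + 1 * (t + 1)) = -1 by ring]
      simp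
    · rw [show (m + -1 * t) - (m + -1 * (t + 1)) = 1 by ring]
      simp
  rcases cases4 ha with rfl | rfl | rfl | rfl
  · refine Or.inl ⟨rfl, ?_⟩
    change |-(m + e * t) - -(m + e * (t + 1))| = 1
    have h2 : -(m + e * t) - -(m + e * (t + 1)) = -((m + e * t) - (m + e * (t + 1))) := by ring
    rw [h2, abs_neg, h1]
  · refine Or.inr ⟨rfl, ?_⟩
    exact h1
  · refine Or.inl ⟨rfl, ?_⟩
    exact h1
  · refine Or.inr ⟨rfl, ?_⟩
    change |-(m + e * t) - -(m + e * (t + 1))| = 1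
    have h2 : -(m + e * t) - -(m + e * (t + 1)) = -((m + e * t) - (m + e * (t + 1))) := by ring
    rw [h2, abs_neg, h1]

private theorem lex_le {r s s' : ℤ} {a b : ℕ} (h1 : -r ≤ s) (h2 : s < r) (h1' : -r ≤ s')
    (h2' : s' < r) :
    2 * r * a + s + r ≤ 2 * r * b + s' + r ↔ a < b ∨ (a = b ∧ s ≤ s') := by
  have hr : 0 < r := by omega
  rcases lt_trichotomy a b with h | h | h
  · have h3 : (a : ℤ) + 1 ≤ b := by exact_mod_cast h
    have h4 : 2 * r * ((a : ℤ) + 1) ≤ 2 * r * b := mul_le_mul_of_nonneg_left h3 (by omega)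
    refine ⟨fun _ => Or.inl h, fun _ => ?_⟩
    rw [mul_add, mul_one] at h4
    linarith
  · subst h
    constructor
    · intro h3
      exact Or.inr ⟨rfl, by linarith⟩
    · rintro (h3 | ⟨-, h3⟩)
      · omega
      · linarith
  · have h3 : (b : ℤ) + 1 ≤ a := by exact_mod_cast h
    have h4 : 2 * r * ((b : ℤ) + 1) ≤ 2 * r * a := mul_le_mul_of_nonneg_left h3 (by omega)
    rw [mul_add, mul_one] at h4
    constructor
    · intro h5
      exfalso
      linarith
    · rintro (h5 | ⟨h5, -⟩) <;> omega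

private theorem key_rng {r s : ℤ} {a : ℕ} (ha : a < 4) (h1 : -r ≤ s) (h2 : s < r) :
    0 ≤ 2 * r * a + s + r ∧ 2 * r * a + s + r < 8 * r := by
  rcases cases4 ha with rfl | rfl | rfl | rfl <;> push_cast <;> omega

/-- The three pieces of a path. -/
private def Desc (ε M B E : ℤ) (i ki : ℕ) (τi ρi ci : ℤ) (a : ℕ) (s t : ℤ) : Prop :=
  (a = ki ∧ s = τi ∧ ρi ≤ t ∧ t ≤ B + 4 * ci) ∨
  (t = B + 4 * ci ∧ (ki < i ∨ (ki = i ∧ τi < 0)) ∧ (ki < a ∨ (ki = a ∧ τi ≤ s)) ∧
    (a < i ∨ (a = i ∧ s ≤ 0))) ∨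
  (t = B + 4 * ci ∧ (i < ki ∨ (ki = i ∧ 0 ≤ τi)) ∧ (i < a ∨ (i = a ∧ 0 ≤ s)) ∧
    (a < ki ∨ (a = ki ∧ s ≤ τi))) ∨
  (a = i ∧ s = 0 ∧ B + 4 * ci ≤ t ∧ t ≤ ε * (E - M))

/-- The type of a path. -/
private def Typ (i ki : ℕ) (τi ci : ℤ) : Prop :=
  ((ki < i ∨ (ki = i ∧ τi < 0)) ∧ ci = 4 - (i : ℤ)) ∨
  ((i < ki ∨ (ki = i ∧ 0 ≤ τi)) ∧ ci = 5 + (i : ℤ))

private theorem sep_lt {ε M Δ B L E : ℤ} {i j ki kj a b : ℕ} {τi τj ρi ρj ci cj s s' t t' : ℤ}
    (hε : ε = 1 ∨ ε = -1) (hL : 3 ≤ L) (hB : 0 ≤ B) (hΔ : B + 40 + L ≤ Δ) (hM : Δ ≤ M)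
    (hE : 3 ≤ E) (hE' : B + 40 ≤ ε * (E - M)) (hi : i < 4) (hj : j < 4)
    (hij : i < j) (hτi : -(M - Δ) ≤ τi ∧ τi ≤ M - Δ) (hτj : -(M - Δ) ≤ τj ∧ τj ≤ M - Δ)
    (hρi : 0 ≤ ρi ∧ ρi + L ≤ B) (hρj : 0 ≤ ρj ∧ ρj + L ≤ B)
    (hs : ki < kj ∨ (ki = kj ∧ τi + Δ ≤ τj)) (hTi : Typ i ki τi ci) (hTj : Typ j kj τj cj)
    (h : Desc ε M B E i ki τi ρi ci a s t) (h' : Desc ε M B E j kj τj ρj cj b s' t') :
    ((M + ε * t) + 3 ≤ (M + ε * t') ∨ (M + ε * t') + 3 ≤ (M + ε * t)) ∨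
      (a = b ∧ (s + 3 ≤ s' ∨ s' + 3 ≤ s)) ∨
      (a ≠ b ∧ ((3 + s ≤ M + ε * t' ∧ 3 - s ≤ M + ε * t') ∨
        (3 + s' ≤ M + ε * t ∧ 3 - s' ≤ M + ε * t))) := by
  unfold Typ at hTi hTj
  unfold Desc at h h'
  rcases hTi with hTi | hTi <;> rcases hTj with hTj | hTj <;>
    rcases h with h | h | h | h <;> rcases h' with h' | h' | h' | h' <;>
    rcases hε with rfl | rfl <;> omega

private theorem sep_src {ε M Δ B L E : ℤ} {i j ki kj a : ℕ} {τi τj ρi ρj ci s t : ℤ}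
    (hε : ε = 1 ∨ ε = -1) (hL : 3 ≤ L) (hB : 0 ≤ B) (hΔ : B + 40 + L ≤ Δ) (hM : Δ ≤ M)
    (hE : 3 ≤ E) (hE' : B + 40 ≤ ε * (E - M)) (hi : i < 4) (hj : j < 4)
    (hτi : -(M - Δ) ≤ τi ∧ τi ≤ M - Δ) (hτj : -(M - Δ) ≤ τj ∧ τj ≤ M - Δ)
    (hρi : 0 ≤ ρi ∧ ρi + L ≤ B) (hρj : 0 ≤ ρj ∧ ρj + L ≤ B)
    (hs : (ki < kj ∨ (ki = kj ∧ τi + Δ ≤ τj)) ∨ (kj < ki ∨ (kj = ki ∧ τj + Δ ≤ τi)))
    (hTi : Typ i ki τi ci) (h : Desc ε M B E i ki τi ρi ci a s t) :
    ((M + ε * t) + L ≤ (M + ε * ρj) ∨ (M + ε * ρj) + L ≤ (M + ε * t)) ∨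
      (a = kj ∧ (s + L ≤ τj ∨ τj + L ≤ s)) ∨
      (a ≠ kj ∧ ((L + s ≤ M + ε * ρj ∧ L - s ≤ M + ε * ρj) ∨
        (L + τj ≤ M + ε * t ∧ L - τj ≤ M + ε * t))) := by
  unfold Typ at hTi
  unfold Desc at h
  rcases hTi with hTi | hTi <;> rcases h with h | h | h | h <;> rcases hs with hs | hs <;>
    rcases hε with rfl | rfl <;> omega

theorem route (hε : ε = 1 ∨ ε = -1) (hL : 3 ≤ L) (hB : 0 ≤ B) (hΔ : B + 40 + L ≤ Δ)
    (hM : Δ ≤ M) (hE : 3 ≤ E) (hE' : B + 40 ≤ ε * (E - M)) (hk : ∀ i, k i < 4)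
    (hτ : ∀ i, |τ i| + Δ ≤ M) (hρ : ∀ i, 0 ≤ ρ i ∧ ρ i + L ≤ B)
    (hs : ∀ i j, i < j → k i < k j ∨ (k i = k j ∧ τ i + Δ ≤ τ j)) :
    ∃ Z : Fin 4 → Finset V, (∀ i, NbConn (Z i : Set V)) ∧
      (∀ i, pt (k i) (τ i) (M + ε * ρ i) ∈ Z i) ∧ (∀ i : Fin 4, pt (i : ℕ) 0 E ∈ Z i) ∧
      (∀ i j, i ≠ j → ∀ e ∈ Z i, ∀ f ∈ Z j, 3 ≤ sn (e - f)) ∧
      (∀ i j, i ≠ j → ∀ e ∈ Z i, L ≤ sn (e - pt (k j) (τ j) (M + ε * ρ j))) ∧
      ∀ i, ∀ e ∈ Z i, ρ i ≤ ε * (sn e - M) ∧ ε * (sn e - M) ≤ ε * (E - M) ∧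
        (ε * (sn e - M) ≤ B + 40 ∨ ∃ r, 0 ≤ r ∧ e = pt (i : ℕ) 0 r) := by
  have hτ' : ∀ i, -(M - Δ) ≤ τ i ∧ τ i ≤ M - Δ := by
    intro i
    have h1 := hτ i
    have h2 := abs_le.1 (show |τ i| ≤ M - Δ by omega)
    exact h2
  obtain ⟨c, hc⟩ : ∃ c : Fin 4 → ℤ, ∀ i : Fin 4, Typ (i : ℕ) (k i) (τ i) (c i) := by
    refine ⟨fun i => if k i < (i : ℕ) ∨ (k i = (i : ℕ) ∧ τ i < 0) then 4 - ((i : ℕ) : ℤ)
      else 5 + ((i : ℕ) : ℤ), fun i => ?_⟩
    by_cases h : k i < (i : ℕ) ∨ (k i = (i : ℕ) ∧ τ i < 0)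
    · exact Or.inl ⟨h, if_pos h⟩
    · exact Or.inr ⟨by omega, if_neg h⟩
  have hc8 : ∀ i, 1 ≤ c i ∧ c i ≤ 8 := by
    intro i
    have h1 := hc i
    have h2 := i.2
    unfold Typ at h1
    omega
  set r : Fin 4 → ℤ := fun i => M + ε * (B + 4 * c i) with hr
  have hrr : ∀ i, r i = M + ε * (B + 4 * c i) := fun i => rfl
  have hrp : ∀ i, -(r i) ≤ τ i ∧ τ i < r i ∧ 0 < r i := by
    intro i
    have h1 := hc8 i
    have h2 := hτ' i
    rw [hrr]
    rcases hε with rfl | rfl <;> omega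
  set ks : Fin 4 → ℤ := fun i => 2 * r i * k i + τ i + r i with hks
  set kt : Fin 4 → ℤ := fun i => 2 * r i * ((i : ℕ) : ℤ) + 0 + r i with hkt
  have hksr : ∀ i, 0 ≤ ks i ∧ ks i < 8 * r i := fun i =>
    key_rng (hk i) (hrp i).1 (hrp i).2.1
  have hktr : ∀ i, 0 ≤ kt i ∧ kt i < 8 * r i := fun i =>
    key_rng i.2 (by have := (hrp i).2.2; omega) (hrp i).2.2
  have eks : ∀ i, rp (r i) (ks i) = pt (k i) (τ i) (r i) := fun i =>
    rp_eq (k i) (hrp i).1 (hrp i).2.1
  have ekt : ∀ i, rp (r i) (kt i) = pt (i : ℕ) 0 (r i) := fun i =>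
    rp_eq (i : ℕ) (by have := (hrp i).2.2; omega) (hrp i).2.2
  set Z : Fin 4 → Finset V := fun i =>
    ((Finset.Icc (ρ i) (B + 4 * c i)).image (fun t => pt (k i) (τ i) (M + ε * t)) ∪
      (Finset.Icc (min (ks i) (kt i)) (max (ks i) (kt i))).image (rp (r i))) ∪
      (Finset.Icc (B + 4 * c i) (ε * (E - M))).image (fun t => pt (i : ℕ) 0 (M + ε * t))
    with hZ
  have m1 : ∀ i t, ρ i ≤ t → t ≤ B + 4 * c i → pt (k i) (τ i) (M + ε * t) ∈
      (Finset.Icc (ρ i) (B + 4 * c i)).image (fun t => pt (k i) (τ i) (M + ε * t)) :=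
    fun i t h1 h2 => Finset.mem_image.2 ⟨t, Finset.mem_Icc.2 ⟨h1, h2⟩, rfl⟩
  have m2 : ∀ i κ, min (ks i) (kt i) ≤ κ → κ ≤ max (ks i) (kt i) → rp (r i) κ ∈
      (Finset.Icc (min (ks i) (kt i)) (max (ks i) (kt i))).image (rp (r i)) :=
    fun i t h1 h2 => Finset.mem_image.2 ⟨t, Finset.mem_Icc.2 ⟨h1, h2⟩, rfl⟩
  have m3 : ∀ (i : Fin 4) t, B + 4 * c i ≤ t → t ≤ ε * (E - M) →
      pt (i : ℕ) 0 (M + ε * t) ∈ (Finset.Icc (B + 4 * c i) (ε * (E - M))).image
        (fun t => pt (i : ℕ) 0 (M + ε * t)) :=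
    fun i t h1 h2 => Finset.mem_image.2 ⟨t, Finset.mem_Icc.2 ⟨h1, h2⟩, rfl⟩
  have b1 : ∀ i, ρ i ≤ B + 4 * c i := fun i => by
    have h1 := hρ i
    have h2 := hc8 i
    omega
  have b2 : ∀ i, B + 4 * c i ≤ ε * (E - M) := fun i => by
    have h2 := hc8 i
    omega
  have hdesc : ∀ i, ∀ e ∈ Z i, ∃ (a : ℕ) (s t : ℤ), a < 4 ∧ -(M + ε * t) ≤ s ∧
      s ≤ M + ε * t ∧ e = pt a s (M + ε * t) ∧
      Desc ε M B E (i : ℕ) (k i) (τ i) (ρ i) (c i) a s t := by
    intro i e he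
    have h8 := hc8 i
    have hτi := hτ' i
    have hρi := hρ i
    rcases Finset.mem_union.1 he with he | he
    · rcases Finset.mem_union.1 he with he | he
      · obtain ⟨t, ht, rfl⟩ := Finset.mem_image.1 he
        rw [Finset.mem_Icc] at ht
        refine ⟨k i, τ i, t, hk i, ?_, ?_, rfl, Or.inl ⟨rfl, rfl, ht.1, ht.2⟩⟩
        · rcases hε with rfl | rfl <;> omega
        · rcases hε with rfl | rfl <;> omega
      · obtain ⟨κ, hκ, rfl⟩ := Finset.mem_image.1 he
        rw [Finset.mem_Icc] at hκ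
        have g1 := hksr i
        have g2 := hktr i
        have g3 := (hrp i).2.2
        obtain ⟨a, ha, s, s1, s2, hκs, e1⟩ := rp_spec (r := r i) (κ := κ) g3 (by omega)
          (by omega)
        refine ⟨a, s, B + 4 * c i, ha, s1, s2.le, e1, ?_⟩
        have l1 := lex_le (a := k i) (b := a) (hrp i).1 (hrp i).2.1 s1 s2
        have l2 := lex_le (a := a) (b := k i) s1 s2 (hrp i).1 (hrp i).2.1
        have l3 := lex_le (r := r i) (s := 0) (a := (i : ℕ)) (b := a) (by omega) g3 s1 s2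
        have l4 := lex_le (r := r i) (s' := 0) (a := a) (b := (i : ℕ)) s1 s2 (by omega) g3
        have l5 := lex_le (r := r i) (s' := 0) (a := k i) (b := (i : ℕ)) (hrp i).1
          (hrp i).2.1 (by omega) g3
        have l6 := lex_le (r := r i) (s := 0) (a := (i : ℕ)) (b := k i) (by omega) g3
          (hrp i).1 (hrp i).2.1
        rw [← hκs] at l1 l2 l3 l4
        have eks' : ks i = 2 * r i * k i + τ i + r i := rfl
        have ekt' : kt i = 2 * r i * ((i : ℕ) : ℤ) + 0 + r i := rfl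
        rw [← eks'] at l1 l2 l5 l6
        rw [← ekt'] at l3 l4 l5 l6
        have hT := hc i
        unfold Typ at hT
        unfold Desc
        rcases hT with ⟨hT, -⟩ | ⟨hT, -⟩
        · have h1 : ks i ≤ kt i := l5.2 (by omega)
          rw [min_eq_left h1, max_eq_right h1] at hκ
          exact Or.inr (Or.inl ⟨rfl, hT, l1.1 hκ.1, l4.1 hκ.2⟩)
        · have h1 : kt i ≤ ks i := l6.2 (by omega)
          rw [min_eq_right h1, max_eq_left h1] at hκ
          exact Or.inr (Or.inr (Or.inl ⟨rfl, hT, l3.1 hκ.1, l2.1 hκ.2⟩))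
    · obtain ⟨t, ht, rfl⟩ := Finset.mem_image.1 he
      rw [Finset.mem_Icc] at ht
      refine ⟨(i : ℕ), 0, t, i.2, ?_, ?_, rfl,
        Or.inr (Or.inr (Or.inr ⟨rfl, rfl, ht.1, ht.2⟩))⟩
      · rcases hε with rfl | rfl <;> omega
      · rcases hε with rfl | rfl <;> omega
  refine ⟨Z, ?_, ?_, ?_, ?_, ?_, ?_⟩
  · intro i
    have c1 := nbconn_path (f := fun t => pt (k i) (τ i) (M + ε * t)) (x := ρ i)
      (y := B + 4 * c i) fun t _ _ => rad_nb (hk i) hε
    have c2 := nbconn_path (f := rp (r i)) (x := min (ks i) (kt i)) (y := max (ks i) (kt i))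
      fun t h1 h2 => by
        have g1 := hksr i
        have g2 := hktr i
        exact rp_nb (hrp i).2.2 (by omega) (by omega)
    have c3 := nbconn_path (f := fun t => pt (i : ℕ) 0 (M + ε * t)) (x := B + 4 * c i)
      (y := ε * (E - M)) fun t _ _ => rad_nb i.2 hε
    have x1 := m1 i (B + 4 * c i) (b1 i) le_rfl
    have x2 := m2 i (ks i) (min_le_left _ _) (le_max_left _ _)
    have x3 := m2 i (kt i) (min_le_right _ _) (le_max_right _ _)
    have x4 := m3 i (B + 4 * c i) le_rfl (b2 i)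
    rw [eks i] at x2
    rw [ekt i] at x3
    exact nbconn_union (nbconn_union c1 c2 x1 x2) c3 (Finset.mem_union_right _ x3) x4
  · intro i
    exact Finset.mem_union_left _ (Finset.mem_union_left _ (m1 i (ρ i) le_rfl (b1 i)))
  · intro i
    have h1 := m3 i (ε * (E - M)) (b2 i) le_rfl
    have h2 : M + ε * (ε * (E - M)) = E := by
      rcases hε with rfl | rfl <;> ring
    rw [h2] at h1
    exact Finset.mem_union_right _ h1
  · have key : ∀ i j : Fin 4, i < j → ∀ e ∈ Z i, ∀ f ∈ Z j, 3 ≤ sn (e - f) := by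
      intro i j hij e he f hf
      obtain ⟨a, s, t, ha, q1, q2, rfl, hd⟩ := hdesc i e he
      obtain ⟨b, s', t', hb, q1', q2', rfl, hd'⟩ := hdesc j f hf
      exact far ha hb q1 q2 q1' q2' (sep_lt hε hL hB hΔ hM hE hE' i.2 j.2 hij (hτ' i) (hτ' j)
        (hρ i) (hρ j) (hs i j hij) (hc i) (hc j) hd hd')
    intro i j hij e he f hf
    rcases lt_or_gt_of_ne hij with h | h
    · exact key i j h e he f hf
    · have h1 := key j i h f hf e he
      have h2 := sn_neg (f - e)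
      rw [neg_sub] at h2
      omega
  · intro i j hij e he
    obtain ⟨a, s, t, ha, q1, q2, rfl, hd⟩ := hdesc i e he
    have hτj := hτ' j
    have hρj := hρ j
    refine far ha (hk j) q1 q2 ?_ ?_ (sep_src hε hL hB hΔ hM hE hE' i.2 j.2 (hτ' i) (hτ' j)
      (hρ i) (hρ j) ?_ (hc i) hd)
    · rcases hε with rfl | rfl <;> omega
    · rcases hε with rfl | rfl <;> omega
    · rcases lt_or_gt_of_ne hij with h | h
      · exact Or.inl (hs i j h)
      · exact Or.inr (hs j i h)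
  · intro i e he
    obtain ⟨a, s, t, ha, q1, q2, rfl, hd⟩ := hdesc i e he
    have e1 := sn_pt ha (abs_le.2 ⟨q1, q2⟩)
    have h2 : ε * (sn (pt a s (M + ε * t)) - M) = t := by
      rw [e1]
      rcases hε with rfl | rfl <;> ring
    rw [h2]
    have h8 := hc8 i
    have hρi := hρ i
    unfold Desc at hd
    refine ⟨by omega, by omega, ?_⟩
    rcases hd with hd | hd | hd | hd
    · exact Or.inl (by omega)
    · exact Or.inl (by omega)
    · exact Or.inl (by omega)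
    · refine Or.inr ⟨M + ε * t, ?_, ?_⟩
      · omega
      · rw [hd.1, hd.2.1]

end Pool.Agent.TriPerc
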