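import Pool.Agent.TriPerc.Grid
import Pool.Agent.TriPerc.Jan

/-!
# RSW for every `p`, deterministic part (reflection of the leftmost vertical crossing)

`m ≥ 1`, `n ≥ 1`, `2 m + 2 ≤ r`.  `S = Rec 0 (2 m) 0 n`, `R = Rec 0 r 0 (2 n)`, `sig = href n` the
reflection in the row `n` (it preserves `X` and maps `R` to itself; it fixes the row `n`).
`O` is the set of black vertices.
`lc O` = white cluster of the left side of `S`, inside `S`; `exl c` = `c`, its neighbours in `S`, and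
the left column (`X ≤ 1`) of `S`.

* `no_LB`: meeting lemma: a path in `S` from `u` on the left to `u'` at the bottom, and a path in `T`
  from `w` at the bottom to `w'` at the top with `w.1 < u'.1`, meet.  PROOF as in `Grid.lean`, with
  `F i j = f i - g j`: `F 0 j` avoids the positive ray; `F I j` is in rows `≤ 0`; `F i 0` is in rows
  `≥ 0`; `F i J` is in rows `≤ 0`; `F I 0` is on the positive ray.  `grid` gives
  `0 + (1 - [F I J pos]) = 0 + (0 - [F I J pos])`, contradiction.  (The lemmas about `th` in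
  `Grid.lean` may be private: reprove the telescoping sums.)
* `arcV_or`: `Join (O ∩ S) {row ≤ 0, X ≤ m + 1} {n ≤ row}` or
  `Join (Oᶜ ∩ S) {X ≤ 1} {2 m - 1 ≤ X or (row ≤ 0 and m ≤ X)}`.  PROOF: `jan_walls` with `D = S`,
  `W1 = {row < 0, X ≤ m}`, `W2 = {X < 0, 0 ≤ row ≤ n}`, `W3 = {row > n}`,
  `W4 = {X > 2 m, 0 ≤ row ≤ n} ∪ {row < 0, X > m}` and `Conn.between`; a vertex of `S` adjacent to
  `W1` is in row `0` with `X ≤ m + 1`, adjacent to `W2`: `X ≤ 1`, adjacent to `W3`: row `n`, adjacent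
  to `W4`: `X ≥ 2 m - 1` or row `0` and `X ≥ m`.
* `vl_iff`: `Vl O := Join (O ∩ S) {row ≤ 0, X ≤ m + 1} {n ≤ row}` holds iff `lc O` contains no vertex
  with `2 m - 1 ≤ X` and no vertex with `row ≤ 0` and `m ≤ X`.  PROOF: `arcV_or`; conversely, if both
  a black path from the foot `w` (row `0`, `X w ≤ m + 1`) to the top and a white path from the left
  side to `u'` exist: if `2 m - 1 ≤ X u'`: `no_LR` (the white path is horizontal); if `u'` is in row
  `0`, `m ≤ X u'`: `u' ≠ w`, same row, equal parity of `X`, `X w ≤ m + 1`, so `X w < X u'`: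
  `no_LB`.
* `cover`: `HC O 0 r 0 (2 n)` implies, for `e = exl c` (any `c`), `E = e ∪ sig ⁻¹' e`, that there is a
  path in `(O \ E) ∩ R` from a neighbour of `e` or from a neighbour of `sig ⁻¹' e` to the right
  side.  PROOF: the crossing starts at `X ≤ 1`, so in `E` (a vertex of `R` with `X ≤ 1` is in `S` or
  its mirror image is); it ends at `X ≥ r - 1 > 2 m`, outside `E`; last exit from `E`
  (`Conn.last`).
* `keyG`: if `Vl O` and `Join ((O \ E) ∩ R) (neighbours of e) {r - 1 ≤ X}` for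
  `e = exl (lc O)`, then `Xa O := Join (O ∩ R) {row ≤ 0, X ≤ m + 1} {r - 1 ≤ X}`.
  PROOF.  Let `c = lc O`, `O' = exl c \ c`.  All vertices of `O'` are black (a white vertex of
  `S` adjacent to `c` or in the left column is in `c`).  `lc O' = c` (`clus_eq`: the complement of
  `O'` in `S` is `c` and the vertices of `S` outside `exl c`, which are not adjacent to `c` and not
  in the left column).  By `vl_iff` (applied to `O` and to `O'`), `Vl O'`: there is a path `Gam` in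
  `O' ∩ S` from a foot `f` (row `0`, `X ≤ m + 1`) to the row `n`.  Let `T` = vertices of `Gam` and
  their mirror images; `T` is a connected set which joins row `0` to row `2 n` (the vertex of
  `Gam` in row `n` is its own mirror image).  Let `y ∉ E`, `y ∈ O`, be the start of the path to the
  right side, adjacent to `x ∈ e`.  First `x ∉ c`: otherwise, if `y ∈ S`, then `y ∈ e`; if `y` is in
  row `n + 1`, then `x` is in row `n`, `sig x = x`, `sig y` is in `S` (if `X y ≤ 2 m`) and adjacent to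
  `x ∈ c`, so `sig y ∈ e`, `y ∈ E`; if `X y > 2 m`, then `X x ≥ 2 m - 1`, contradiction to `vl_iff`.
  So `x ∈ O'`, black.  Claim `x ∈ Gam`.  Otherwise take the path: left column of `S`, inside `c` to a
  neighbour of `x` (`clus_conn`), `x` (if `X x ≤ 1` start at `x`), `y`, and on outside `E` to the
  right side: a path from `X ≤ 1` to `X ≥ r - 1` inside `R` which does not meet `T`: `c` and `Gam` are
  disjoint; a vertex of `c` whose mirror image is in `Gam` is in row `n` and its own mirror image;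
  the same for `x`; `T ⊆ E`.  This contradicts `no_LR`.  So `x ∈ Gam`, and `Gam` joins it in `O ∩ S`
  to the foot; `y` joins it to the right side.
* `joinG`: `Xa O` and `Xa (vref m ⁻¹' O)` imply `HC O (2 m - r) r 0 (2 n)`.  PROOF: the first path
  joins `g'` (row `0`, `X g' ≤ m + 1`) to `X ≥ r - 1` in `Rec 0 r 0 (2 n)`; the second one (reflected:
  `vref m` maps `Rec 0 r` to `Rec (2 m - r) (2 m)`) joins `f'` (row `0`, `m - 1 ≤ X f'`) to
  `X ≤ 2 m - r + 1`.  Both are in `Rec (2 m - r) r 0 (2 n)`.  If they are in the same component of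
  `O ∩ Rec ...`, done.  Otherwise `f' ≠ g'` are not adjacent, in the same row, so `X g' < X f'`
  (`X g' ≥ X f'` would give `X g' = X f'` or `X g' = X f' + 2`), and `no_B` applies.
* `lc_eq_iff`, `lc_prop`: as `cc_eq_iff`, `cc_prop` in `RswA`.
-/

namespace Pool.Agent.TriPerc

/-- white cluster of the left side of `S` -/
def lc (m n : ℤ) (O : Set V) : Set V := clus (Oᶜ ∩ Rec 0 (2 * m) 0 n) {v | X v ≤ 1}

/-- explored set -/
def exl (m n : ℤ) (c : Set V) : Set V :=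
  {v | v ∈ Rec 0 (2 * m) 0 n ∧ (v ∈ c ∨ (∃ u ∈ c, Adj u v) ∨ X v ≤ 1)}

/-- the neighbours of a set -/
def nb (e : Set V) : Set V := {v | ∃ u ∈ e, Adj u v}

/-- a vertical crossing of `S` with its foot on the left half -/
def Vl (m n : ℤ) (O : Set V) : Prop :=
  Join (O ∩ Rec 0 (2 * m) 0 n) {v | v.2 ≤ 0 ∧ X v ≤ m + 1} {v | n ≤ v.2}

/-- a path in `R` from the left half of the bottom of `S` to the right side of `R` -/
def Xa (m n r : ℤ) (O : Set V) : Prop :=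
  Join (O ∩ Rec 0 r 0 (2 * n)) {v | v.2 ≤ 0 ∧ X v ≤ m + 1} {v | r - 1 ≤ X v}

/-- fresh path from a neighbour of `e` to the right side, outside `e` and its mirror image -/
def Jf (n r : ℤ) (O e : Set V) : Prop :=
  Join ((O ∩ {v | v ∉ e ∧ href n v ∉ e}) ∩ Rec 0 r 0 (2 * n)) (nb e) {v | r - 1 ≤ X v}

variable {m n r : ℤ} {O : Set V}

private theorem walls (D W1 W2 W3 W4 : Set V)
    (hcov : ∀ v, v ∈ D ∨ v ∈ W1 ∨ v ∈ W2 ∨ v ∈ W3 ∨ v ∈ W4)
    (d1 : Disjoint D W1) (d2 : Disjoint D W2) (d3 : Disjoint D W3) (d4 : Disjoint D W4)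
    (d12 : Disjoint W1 W2) (d13 : Disjoint W1 W3) (d14 : Disjoint W1 W4) (d23 : Disjoint W2 W3)
    (d24 : Disjoint W2 W4) (d34 : Disjoint W3 W4) (x y : V) (hx : x ∈ W1) (hy : y ∈ W3)
    (h123 : Conn (W1 ∪ W2 ∪ W3) x y) (h143 : Conn (W1 ∪ W4 ∪ W3) x y)
    (n13 : ∀ a ∈ W1, ∀ b ∈ W3, ¬ Adj a b) (n24 : ∀ a ∈ W2, ∀ b ∈ W4, ¬ Adj a b) (O : Set V) :
    (∃ a ∈ W1, ∃ b ∈ W3, ∃ x' y', Adj a x' ∧ Adj y' b ∧ Conn (O ∩ D) x' y') ∨
      (∃ a ∈ W2, ∃ b ∈ W4, ∃ x' y', Adj a x' ∧ Adj y' b ∧ Conn (Oᶜ ∩ D) x' y') := by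
  rcases jan_walls D W1 W2 W3 W4 hcov d1 d2 d3 d4 d12 d13 d14 d23 d24 d34 x y hx hy h123 h143 O
    with h | h
  · left
    obtain ⟨a, ha, b, hb, -, -, h1⟩ := h.between hx hy d13
    rcases h1 with h1 | ⟨x', y', h2, h3, h4⟩
    · exact absurd h1 (n13 a ha b hb)
    · refine ⟨a, ha, b, hb, x', y', h2, h3, h4.mono ?_⟩
      rintro v ⟨hv, hn⟩
      rcases hv with (hv | hv) | hv
      · exact ⟨hv.2, hv.1⟩
      · exact absurd (Or.inl hv) hn
      · exact absurd (Or.inr hv) hn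
  · right
    obtain ⟨u, hu, v, hv, h⟩ := h
    obtain ⟨a, ha, b, hb, -, -, h1⟩ := h.between hu hv d24
    rcases h1 with h1 | ⟨x', y', h2, h3, h4⟩
    · exact absurd h1 (n24 a ha b hb)
    · refine ⟨a, ha, b, hb, x', y', h2, h3, h4.mono ?_⟩
      rintro v ⟨hv, hn⟩
      rcases hv with (hv | hv) | hv
      · exact ⟨hv.2, hv.1⟩
      · exact absurd (Or.inl hv) hn
      · exact absurd (Or.inr hv) hn

private theorem mS {v : V} :
    v ∈ Rec 0 (2 * m) 0 n ↔ 0 ≤ X v ∧ X v ≤ 2 * m ∧ 0 ≤ v.2 ∧ v.2 ≤ n := Iff.rfl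

private theorem lc_closed {v : V} (hv : v ∈ exl m n (lc m n O)) (h : v ∉ O) : v ∈ lc m n O := by
  obtain ⟨h1, h2 | ⟨u, hu, huv⟩ | h2⟩ := hv
  · exact h2
  · exact clus_adj hu ⟨h, h1⟩ huv
  · exact subset_clus ⟨h2, h, h1⟩

private theorem lc_prop' (O : Set V) : lc m n O ⊆ Oᶜ ∩ Rec 0 (2 * m) 0 n ∧
    ∀ x ∈ lc m n O, ∃ u ∈ lc m n O, X u ≤ 1 ∧ Conn (lc m n O) u x := by
  refine ⟨clus_subset, fun x hx => ?_⟩
  obtain ⟨u, hu, h1⟩ := clus_conn hx
  exact ⟨u, h1.left, hu, h1⟩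

theorem no_LB {S T : Set V} (hd : Disjoint S T) {u u' w w' : V} (hf : Conn S u u')
    (hg : Conn T w w') (hl : ∀ y ∈ T, u.2 = y.2 → u.1 ≤ y.1) (hfb : ∀ y ∈ T, u'.2 ≤ y.2)
    (hgb : ∀ x ∈ S, w.2 ≤ x.2) (hgt : ∀ x ∈ S, x.2 ≤ w'.2) (hlt : w.1 < u'.1) : False := by
  obtain ⟨z, hz⟩ : ∃ z : V, z = (w'.1, w'.2 + 1) := ⟨_, rfl⟩
  have hz1 : z.1 = w'.1 := by rw [hz]
  have hz2 : z.2 = w'.2 + 1 := by rw [hz]
  have hadj : Adj z w' := Or.inr (Or.inr (Or.inr (Or.inr (Or.inl ⟨by omega, by omega⟩))))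
  have hzS : z ∉ S := fun h => by
    have := hgt z h
    omega
  have hd' : Disjoint S (T ∪ {z}) := by
    rw [Set.disjoint_left] at hd ⊢
    rintro x hx (h | h)
    · exact hd hx h
    · rw [Set.mem_singleton_iff] at h
      exact hzS (h ▸ hx)
  have hg' : Conn (T ∪ {z}) z w := by
    have h1 : Conn (T ∪ {z}) w' w := (hg.mono Set.subset_union_left).symm
    exact (Conn.of_adj (Or.inr rfl) h1.left hadj).trans h1
  have hu := hgt u hf.left
  have hu' := hgt u' hf.right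
  refine no_B hd' hf hg' ?_ ?_ ?_ hgb hlt
  · rintro y (hy | hy) he
    · exact hl y hy he
    · rw [Set.mem_singleton_iff] at hy
      subst hy
      omega
  · intro x hx he
    have := hgt x hx
    omega
  · rintro y (hy | hy)
    · exact hfb y hy
    · rw [Set.mem_singleton_iff] at hy
      subst hy
      omega

theorem arcV_or (hm : 1 ≤ m) (hn : 1 ≤ n) (O : Set V) :
    Vl m n O ∨ Join (Oᶜ ∩ Rec 0 (2 * m) 0 n) {v | X v ≤ 1}
      {v | 2 * m - 1 ≤ X v ∨ (v.2 ≤ 0 ∧ m ≤ X v)} := by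
  obtain ⟨W1, hW1⟩ : ∃ W : Set V, W = {v | v.2 < 0 ∧ X v ≤ m} := ⟨_, rfl⟩
  obtain ⟨W2, hW2⟩ : ∃ W : Set V, W = {v | X v < 0 ∧ 0 ≤ v.2 ∧ v.2 ≤ n} := ⟨_, rfl⟩
  obtain ⟨W3, hW3⟩ : ∃ W : Set V, W = {v | n < v.2} := ⟨_, rfl⟩
  obtain ⟨W4, hW4⟩ : ∃ W : Set V, W = {v | (2 * m < X v ∧ 0 ≤ v.2 ∧ v.2 ≤ n) ∨
    (v.2 < 0 ∧ m < X v)} := ⟨_, rfl⟩
  have m1 : ∀ v : V, v ∈ W1 ↔ v.2 < 0 ∧ X v ≤ m := fun v => by rw [hW1]; rfl
  have m2 : ∀ v : V, v ∈ W2 ↔ X v < 0 ∧ 0 ≤ v.2 ∧ v.2 ≤ n := fun v => by rw [hW2]; rfl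
  have m3 : ∀ v : V, v ∈ W3 ↔ n < v.2 := fun v => by rw [hW3]; rfl
  have m4 : ∀ v : V, v ∈ W4 ↔ (2 * m < X v ∧ 0 ≤ v.2 ∧ v.2 ≤ n) ∨ (v.2 < 0 ∧ m < X v) :=
    fun v => by rw [hW4]; rfl
  clear hW1 hW2 hW3 hW4
  have e1 : ((-(n + 1), -1) : V) ∈ W1 := by
    rw [m1]
    unfold X
    simp only
    omega
  have e3 : ∀ a, ((a, n + 1) : V) ∈ W3 := by
    intro a
    rw [m3]
    simp only
    omega
  have c1 : ∀ c, 0 ≤ c → c ≤ n → ((-(n + 1), c) : V) ∈ W2 := by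
    intro c h1 h2
    rw [m2]
    unfold X
    simp only
    omega
  have c3 : ∀ c, 0 ≤ c → c ≤ n → ((m + 1, c) : V) ∈ W4 := by
    intro c h1 h2
    rw [m4]
    unfold X
    simp only
    omega
  have r2 : ∀ a, ((a, -1) : V) ∈ W1 ∪ W4 ∪ W3 := by
    intro a
    rcases le_or_gt (X (a, -1)) m with h | h
    · exact Or.inl (Or.inl ((m1 _).2 ⟨by simp only; omega, h⟩))
    · exact Or.inl (Or.inr ((m4 _).2 (Or.inr ⟨by simp only; omega, h⟩)))
  have h123 : Conn (W1 ∪ W2 ∪ W3) (-(n + 1), -1) (m + 1, n + 1) := by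
    refine (conn_col (b' := n + 1) ?_).trans (conn_row (a' := m + 1) fun c _ _ =>
      Or.inr (e3 c))
    intro c h1 h2
    rw [min_eq_left (by omega)] at h1
    rw [max_eq_right (by omega)] at h2
    rcases lt_or_ge n c with h3 | h3
    · obtain rfl : c = n + 1 := by omega
      exact Or.inr (e3 _)
    · rcases lt_or_ge c 0 with h4 | h4
      · obtain rfl : c = -1 := by omega
        exact Or.inl (Or.inl e1)
      · exact Or.inl (Or.inr (c1 c h4 h3))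
  have h143 : Conn (W1 ∪ W4 ∪ W3) (-(n + 1), -1) (m + 1, n + 1) := by
    refine (conn_row (a' := m + 1) fun c _ _ => r2 c).trans (conn_col ?_)
    intro c h1 h2
    rw [min_eq_left (by omega)] at h1
    rw [max_eq_right (by omega)] at h2
    rcases lt_or_ge n c with h3 | h3
    · obtain rfl : c = n + 1 := by omega
      exact Or.inr (e3 _)
    · rcases lt_or_ge c 0 with h4 | h4
      · obtain rfl : c = -1 := by omega
        exact r2 _
      · exact Or.inl (Or.inr (c3 c h4 h3))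
  have key := walls (Rec 0 (2 * m) 0 n) W1 W2 W3 W4
    (by intro v; rw [mS, m1, m2, m3, m4]; omega)
    (Set.disjoint_left.2 fun v h1 h2 => by rw [mS] at h1; rw [m1] at h2; omega)
    (Set.disjoint_left.2 fun v h1 h2 => by rw [mS] at h1; rw [m2] at h2; omega)
    (Set.disjoint_left.2 fun v h1 h2 => by rw [mS] at h1; rw [m3] at h2; omega)
    (Set.disjoint_left.2 fun v h1 h2 => by rw [mS] at h1; rw [m4] at h2; omega)
    (Set.disjoint_left.2 fun v h1 h2 => by rw [m1] at h1; rw [m2] at h2; omega)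
    (Set.disjoint_left.2 fun v h1 h2 => by rw [m1] at h1; rw [m3] at h2; omega)
    (Set.disjoint_left.2 fun v h1 h2 => by rw [m1] at h1; rw [m4] at h2; omega)
    (Set.disjoint_left.2 fun v h1 h2 => by rw [m2] at h1; rw [m3] at h2; omega)
    (Set.disjoint_left.2 fun v h1 h2 => by rw [m2] at h1; rw [m4] at h2; omega)
    (Set.disjoint_left.2 fun v h1 h2 => by rw [m3] at h1; rw [m4] at h2; omega)
    (-(n + 1), -1) (m + 1, n + 1) e1 (e3 _) h123 h143
    (fun a ha b hb hab => by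
      rw [m1] at ha
      rw [m3] at hb
      unfold Adj X at *
      omega)
    (fun a ha b hb hab => by
      rw [m2] at ha
      rw [m4] at hb
      unfold Adj X at *
      omega) O
  rcases key with ⟨a, ha, b, hb, x', y', h1, h2, h3⟩ | ⟨a, ha, b, hb, x', y', h1, h2, h3⟩
  · left
    have k1 := h3.left.2
    have k2 := h3.right.2
    rw [mS] at k1 k2
    rw [m1] at ha
    rw [m3] at hb
    refine ⟨x', ?_, y', ?_, h3⟩
    · show x'.2 ≤ 0 ∧ X x' ≤ m + 1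
      unfold Adj X at *
      omega
    · show n ≤ y'.2
      unfold Adj X at *
      omega
  · right
    have k1 := h3.left.2
    have k2 := h3.right.2
    rw [mS] at k1 k2
    rw [m2] at ha
    rw [m4] at hb
    refine ⟨x', ?_, y', ?_, h3⟩
    · show X x' ≤ 1
      unfold Adj X at *
      omega
    · show 2 * m - 1 ≤ X y' ∨ (y'.2 ≤ 0 ∧ m ≤ X y')
      unfold Adj X at *
      omega

theorem vl_iff (hm : 1 ≤ m) (hn : 1 ≤ n) (O : Set V) :
    Vl m n O ↔ ∀ v ∈ lc m n O, X v < 2 * m - 1 ∧ (v.2 ≤ 0 → X v < m) := by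
  constructor
  · rintro ⟨f, hf, t, ht, h⟩ v ⟨u, hu, hv⟩
    replace hf : f.2 ≤ 0 ∧ X f ≤ m + 1 := hf
    replace ht : n ≤ t.2 := ht
    replace hu : X u ≤ 1 := hu
    have hd : Disjoint (Oᶜ ∩ Rec 0 (2 * m) 0 n) (O ∩ Rec 0 (2 * m) 0 n) := by
      rw [Set.disjoint_left]
      intro x h1 h2
      exact h1.1 h2.1
    have bS : ∀ x ∈ Oᶜ ∩ Rec 0 (2 * m) 0 n, 0 ≤ X x ∧ X x ≤ 2 * m ∧ 0 ≤ x.2 ∧ x.2 ≤ n :=
      fun x hx => hx.2
    have bT : ∀ x ∈ O ∩ Rec 0 (2 * m) 0 n, 0 ≤ X x ∧ X x ≤ 2 * m ∧ 0 ≤ x.2 ∧ x.2 ≤ n :=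
      fun x hx => hx.2
    have hl : ∀ y ∈ O ∩ Rec 0 (2 * m) 0 n, u.2 = y.2 → u.1 ≤ y.1 := by
      intro y hy he
      have h2 := bT y hy
      unfold X at *
      omega
    refine ⟨?_, fun hv0 => ?_⟩
    · by_contra hc
      refine no_LR hd hv h ?_ ?_ hl ?_
      · intro x hx
        have h2 := bS x hx
        omega
      · intro x hx
        have h2 := bS x hx
        omega
      · intro y hy he
        have h2 := bT y hy
        unfold X at *
        omega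
    · by_contra hc
      have b1 := bT f h.left
      have b2 := bS v hv.right
      have hne : f ≠ v := fun h2 => Set.disjoint_left.1 hd hv.right (h2 ▸ h.left)
      have hlt : f.1 < v.1 := by
        by_contra h2
        refine hne (Prod.ext ?_ (by omega))
        unfold X at *
        omega
      refine no_LB hd hv h hl ?_ ?_ ?_ hlt
      · intro y hy
        have h2 := bT y hy
        omega
      · intro x hx
        have h2 := bS x hx
        omega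
      · intro x hx
        have h2 := bS x hx
        omega
  · intro h
    rcases arcV_or hm hn O with h1 | ⟨u, hu, v, hv, h1⟩
    · exact h1
    · exfalso
      have h2 := h v ⟨u, hu, h1⟩
      replace hv : 2 * m - 1 ≤ X v ∨ (v.2 ≤ 0 ∧ m ≤ X v) := hv
      omega

theorem cover (hm : 1 ≤ m) (hn : 1 ≤ n) (hr : 2 * m + 2 ≤ r) (c : Set V)
    (h : HC O 0 r 0 (2 * n)) :
    Jf n r O (exl m n c) ∨
      Join ((O ∩ {v | v ∉ exl m n c ∧ href n v ∉ exl m n c}) ∩ Rec 0 r 0 (2 * n))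
        (nb (href n ⁻¹' exl m n c)) {v | r - 1 ≤ X v} := by
  obtain ⟨u, hu, v, hv, h⟩ := h
  replace hu : X u ≤ 0 + 1 := hu
  replace hv : r - 1 ≤ X v := hv
  have hexl : ∀ v, v ∈ exl m n c ↔ (0 ≤ X v ∧ X v ≤ 2 * m ∧ 0 ≤ v.2 ∧ v.2 ≤ n) ∧
      (v ∈ c ∨ (∃ u ∈ c, Adj u v) ∨ X v ≤ 1) := fun v => Iff.rfl
  generalize exl m n c = e at *
  obtain ⟨E, hE⟩ : ∃ E : Set V, E = {v | v ∈ e ∨ href n v ∈ e} := ⟨_, rfl⟩
  have mE : ∀ v, v ∈ E ↔ v ∈ e ∨ href n v ∈ e := fun v => by rw [hE]; rfl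
  clear hE
  have huR : 0 ≤ X u ∧ X u ≤ r ∧ 0 ≤ u.2 ∧ u.2 ≤ 2 * n := h.left.2
  have huE : u ∈ E := by
    rw [mE, hexl, hexl, (X_href n u).1, (X_href n u).2]
    rcases le_or_gt u.2 n with h1 | h1
    · exact Or.inl ⟨⟨huR.1, by omega, huR.2.2.1, h1⟩, Or.inr (Or.inr (by omega))⟩
    · exact Or.inr ⟨⟨huR.1, by omega, by omega, by omega⟩, Or.inr (Or.inr (by omega))⟩
  have hvE : v ∉ E := by
    rw [mE, hexl, hexl, (X_href n v).1, (X_href n v).2]
    rintro (⟨⟨-, h1, -, -⟩, -⟩ | ⟨⟨-, h1, -, -⟩, -⟩) <;> omega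
  obtain ⟨x, y, hx, hy, hxy, -, h2⟩ := h.last huE hvE
  have h3 : Conn ((O ∩ {v | v ∉ e ∧ href n v ∉ e}) ∩ Rec 0 r 0 (2 * n)) y v := by
    refine h2.mono ?_
    rintro z ⟨⟨hz1, hz2⟩, hz3⟩
    rw [mE, not_or] at hz3
    exact ⟨⟨hz1, hz3⟩, hz2⟩
  rcases (mE x).1 hx with h4 | h4
  · exact Or.inl ⟨y, ⟨x, h4, hxy⟩, v, hv, h3⟩
  · exact Or.inr ⟨y, ⟨x, h4, hxy⟩, v, hv, h3⟩

theorem keyG (hm : 1 ≤ m) (hn : 1 ≤ n) (hr : 2 * m + 2 ≤ r) (h : Vl m n O)
    (hJ : Jf n r O (exl m n (lc m n O))) : Xa m n r O := by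
  obtain ⟨hp1, hp2⟩ := lc_prop' (m := m) (n := n) O
  have hlow := (vl_iff hm hn O).1 h
  have hcl : ∀ v ∈ exl m n (lc m n O), v ∉ O → v ∈ lc m n O := fun v hv h' => lc_closed hv h'
  have hexl : ∀ v, v ∈ exl m n (lc m n O) ↔
      (0 ≤ X v ∧ X v ≤ 2 * m ∧ 0 ≤ v.2 ∧ v.2 ≤ n) ∧
      (v ∈ lc m n O ∨ (∃ u ∈ lc m n O, Adj u v) ∨ X v ≤ 1) := fun v => Iff.rfl
  generalize lc m n O = c at *
  generalize exl m n c = e at *
  have heS : ∀ v ∈ e, 0 ≤ X v ∧ X v ≤ 2 * m ∧ 0 ≤ v.2 ∧ v.2 ≤ n := fun v hv => ((hexl v).1 hv).1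
  have hce : ∀ v ∈ c, v ∈ e := fun v hv => (hexl v).2 ⟨(hp1 hv).2, Or.inl hv⟩
  have hfix : ∀ v : V, v.2 = n → href n v = v := by
    intro v hv
    refine Prod.ext ?_ ?_
    · show v.1 + v.2 - n = v.1
      omega
    · show 2 * n - v.2 = v.2
      omega
  -- the artificial colouring
  obtain ⟨O', hO'⟩ : ∃ O' : Set V, O' = {v | v ∈ e ∧ v ∉ c} := ⟨_, rfl⟩
  have mO' : ∀ v, v ∈ O' ↔ v ∈ e ∧ v ∉ c := fun v => by rw [hO']; rfl
  clear hO'
  have hO'O : ∀ v ∈ O', v ∈ O := by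
    intro v hv
    rw [mO'] at hv
    by_contra h1
    exact hv.2 (hcl v hv.1 h1)
  have hlc : lc m n O' = c := by
    refine clus_eq (fun v hv => ⟨fun h1 => ((mO' v).1 h1).2 hv, (hp1 hv).2⟩)
      (fun x hx => ?_) (fun x hx hxc => ?_)
    · obtain ⟨u, hu, h3, h4⟩ := hp2 x hx
      exact ⟨u, h3, h4⟩
    · have hxe : x ∉ e := fun h1 => hx.1 ((mO' x).2 ⟨h1, hxc⟩)
      refine ⟨fun h3 => ?_, fun k hk h3 => ?_⟩
      · exact hxe ((hexl x).2 ⟨hx.2, Or.inr (Or.inr h3)⟩)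
      · exact hxe ((hexl x).2 ⟨hx.2, Or.inr (Or.inl ⟨k, hk, h3⟩)⟩)
  have hVl : Vl m n O' := by
    rw [vl_iff hm hn, hlc]
    exact hlow
  obtain ⟨f, hf, t, ht, hft⟩ := hVl
  replace hf : f.2 ≤ 0 ∧ X f ≤ m + 1 := hf
  replace ht : n ≤ t.2 := ht
  obtain ⟨y, ⟨x, hx, hxy⟩, v, hv, hyv⟩ := hJ
  replace hv : r - 1 ≤ X v := hv
  have hxS := heS x hx
  have hyR : 0 ≤ X y ∧ X y ≤ r ∧ 0 ≤ y.2 ∧ y.2 ≤ 2 * n := hyv.left.2
  have hyE : y ∉ e ∧ href n y ∉ e := hyv.left.1.2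
  -- x is black
  have hxc : x ∉ c := by
    intro h1
    have h2 := hlow x h1
    have h3 : ¬ (X y ≤ 2 * m ∧ y.2 ≤ n) := by
      rintro ⟨h3, h4⟩
      exact hyE.1 ((hexl y).2 ⟨⟨hyR.1, h3, hyR.2.2.1, h4⟩, Or.inr (Or.inl ⟨x, h1, hxy⟩)⟩)
    have h4 : X y ≤ 2 * m := by
      unfold Adj X at *
      omega
    have h5 : x.2 = n ∧ y.2 = n + 1 := by
      unfold Adj X at *
      omega
    refine hyE.2 ((hexl _).2 ⟨?_, Or.inr (Or.inl ⟨x, h1, ?_⟩)⟩)
    · rw [(X_href n y).1, (X_href n y).2]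
      omega
    · have h6 := (isAut_href n x y).2 hxy
      rwa [hfix x h5.1] at h6
  have hxO' : x ∈ O' := (mO' x).2 ⟨hx, hxc⟩
  obtain ⟨Γ, hΓ⟩ : ∃ Γ : Set V, Γ = comp (O' ∩ Rec 0 (2 * m) 0 n) f := ⟨_, rfl⟩
  have hΓe : ∀ z ∈ Γ, z ∈ e ∧ z ∉ c := by
    intro z hz
    rw [hΓ] at hz
    exact (mO' z).1 (comp_subset hz).1
  have hft' : Conn Γ f t := by
    rw [hΓ]
    exact hft.in_comp
  have hΓm : ∀ z, Conn (O' ∩ Rec 0 (2 * m) 0 n) f z ↔ z ∈ Γ := fun z => by rw [hΓ]; rfl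
  clear hΓ
  have hvv : ∀ z : V, href n (href n z) = z := by
    intro z
    refine Prod.ext ?_ ?_
    · show z.1 + z.2 - n + (2 * n - z.2) - n = z.1
      ring
    · show 2 * n - (2 * n - z.2) = z.2
      ring
  have hT : Conn (Γ ∪ href n ⁻¹' Γ) f (href n f) := by
    have h1 := heS t (hΓe t hft'.right).1
    have h2 : Conn (href n ⁻¹' Γ) t (href n f) := by
      rw [conn_preimage (isAut_href n), hvv, hfix t (by omega)]
      exact hft'.symm
    exact (hft'.mono Set.subset_union_left).trans (h2.mono Set.subset_union_right)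
  have hrow : ∀ z, z.2 ≤ n → href n z ∈ Γ → z ∈ Γ := by
    intro z hz1 hz2
    have h1 := heS _ (hΓe _ hz2).1
    rw [(X_href n z).2] at h1
    rwa [hfix z (by omega)] at hz2
  have claim : x ∈ Γ := by
    by_contra hxΓ
    obtain ⟨A, hA⟩ : ∃ A : Set V, A = c ∪ {x} ∪
      ((O ∩ {v | v ∉ e ∧ href n v ∉ e}) ∩ Rec 0 r 0 (2 * n)) := ⟨_, rfl⟩
    have mA : ∀ z, z ∈ A ↔ (z ∈ c ∨ z = x) ∨ (z ∈ O ∧ z ∉ e ∧ href n z ∉ e) ∧
        (0 ≤ X z ∧ X z ≤ r ∧ 0 ≤ z.2 ∧ z.2 ≤ 2 * n) := fun z => by rw [hA]; rfl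
    have hxA : x ∈ A := (mA x).2 (Or.inl (Or.inr rfl))
    have hyA : Conn A y v := hyv.mono (by rw [hA]; exact Set.subset_union_right)
    clear hA
    have hstart : ∃ u0, X u0 ≤ 1 ∧ Conn A u0 x := by
      by_cases h1 : X x ≤ 1
      · exact ⟨x, h1, Conn.refl hxA⟩
      · obtain ⟨-, h2 | ⟨k, hk, h2⟩ | h2⟩ := (hexl x).1 hx
        · exact absurd h2 hxc
        · obtain ⟨u0, -, h3, h4⟩ := hp2 k hk
          have h5 : Conn A u0 k := h4.mono fun z hz => (mA z).2 (Or.inl (Or.inl hz))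
          exact ⟨u0, h3, h5.trans (Conn.of_adj h5.right hxA h2)⟩
        · exact absurd h2 h1
    obtain ⟨u0, hu0, hu0x⟩ := hstart
    have hpath : Conn A u0 v := hu0x.trans ((Conn.of_adj hxA hyA.left hxy).trans hyA)
    have hd : Disjoint A (Γ ∪ href n ⁻¹' Γ) := by
      rw [Set.disjoint_left]
      intro z hz hz'
      rcases (mA z).1 hz with (h1 | h1) | ⟨⟨-, h1, h2⟩, -⟩
      · have h2 := heS z (hce z h1)
        have h3 : z ∈ Γ := by
          rcases hz' with h3 | h3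
          · exact h3
          · exact hrow z h2.2.2.2 h3
        exact (hΓe z h3).2 h1
      · subst h1
        refine hxΓ ?_
        rcases hz' with h3 | h3
        · exact h3
        · exact hrow z hxS.2.2.2 h3
      · rcases hz' with h3 | h3
        · exact h1 (hΓe z h3).1
        · exact h2 (hΓe _ h3).1
    have bA : ∀ z ∈ A, 0 ≤ z.2 ∧ z.2 ≤ 2 * n := by
      intro z hz
      rcases (mA z).1 hz with (h1 | h1) | ⟨-, h1⟩
      · have h2 := heS z (hce z h1)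
        omega
      · subst h1
        omega
      · omega
    have bT : ∀ z ∈ Γ ∪ href n ⁻¹' Γ, 0 ≤ X z ∧ X z ≤ 2 * m := by
      rintro z (hz | hz)
      · have h2 := heS z (hΓe z hz).1
        omega
      · have h2 := heS _ (hΓe _ hz).1
        rw [(X_href n z).1] at h2
        omega
    have bf := heS f (hΓe f hft'.left).1
    refine no_LR hd hpath hT ?_ ?_ ?_ ?_
    · intro z hz
      have h1 := bA z hz
      omega
    · intro z hz
      have h1 := bA z hz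
      rw [(X_href n f).2]
      omega
    · intro z hz he
      have h1 := bT z hz
      unfold X at *
      omega
    · intro z hz he
      have h1 := bT z hz
      unfold X at *
      omega
  have hfx := (hΓm x).2 claim
  have h1 : Conn (O ∩ Rec 0 r 0 (2 * n)) f x := by
    refine hfx.mono ?_
    rintro z ⟨hz1, hz2, hz3, hz4, hz5⟩
    exact ⟨hO'O z hz1, hz2, by omega, hz4, by omega⟩
  have h2 : Conn (O ∩ Rec 0 r 0 (2 * n)) y v := hyv.mono fun z hz => ⟨hz.1.1, hz.2⟩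
  exact ⟨f, hf, v, hv, h1.trans ((Conn.of_adj h1.right h2.left hxy).trans h2)⟩

theorem joinG (hm : 1 ≤ m) (hn : 1 ≤ n) (hr : 2 * m + 2 ≤ r) (h : Xa m n r O)
    (h' : Xa m n r (vref m ⁻¹' O)) : HC O (2 * m - r) r 0 (2 * n) := by
  obtain ⟨g, hg, v, hv, h⟩ := h
  obtain ⟨f0, hf0, w0, hw0, h'⟩ := h'
  replace hg : g.2 ≤ 0 ∧ X g ≤ m + 1 := hg
  replace hv : r - 1 ≤ X v := hv
  replace hf0 : f0.2 ≤ 0 ∧ X f0 ≤ m + 1 := hf0
  replace hw0 : r - 1 ≤ X w0 := hw0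
  have h2 : Conn (O ∩ Rec (2 * m - r) r 0 (2 * n)) g v := by
    refine h.mono ?_
    rintro z ⟨hz1, hz2, hz3, hz4, hz5⟩
    exact ⟨hz1, by omega, hz3, hz4, hz5⟩
  have h3 : Conn (O ∩ Rec (2 * m - r) r 0 (2 * n)) (vref m f0) (vref m w0) := by
    rw [← conn_preimage (isAut_vref m)]
    refine h'.mono ?_
    rintro z ⟨hz1, hz2, hz3, hz4, hz5⟩
    refine ⟨hz1, ?_, ?_, ?_, ?_⟩
    · rw [(X_vref m z).1]
      omega
    · rw [(X_vref m z).1]
      omega
    · rw [(X_vref m z).2]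
      exact hz4
    · rw [(X_vref m z).2]
      exact hz5
  obtain ⟨f, hf⟩ : ∃ f, f = vref m f0 := ⟨_, rfl⟩
  obtain ⟨w, hw⟩ : ∃ w, w = vref m w0 := ⟨_, rfl⟩
  rw [← hf, ← hw] at h3
  have x1 := (X_vref m f0).1
  have x2 := (X_vref m f0).2
  have x3 := (X_vref m w0).1
  rw [← hf] at x1 x2
  rw [← hw] at x3
  clear h h' hf hw
  generalize hB : O ∩ Rec (2 * m - r) r 0 (2 * n) = B at *
  have bB : ∀ z ∈ B, 2 * m - r ≤ X z ∧ X z ≤ r ∧ 0 ≤ z.2 ∧ z.2 ≤ 2 * n := by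
    intro z hz
    rw [← hB] at hz
    exact hz.2
  by_cases hc : Conn B w v
  · refine ⟨w, ?_, v, hv, ?_⟩
    · show X w ≤ 2 * m - r + 1
      omega
    · rw [hB]
      exact hc
  exfalso
  have hd : Disjoint (comp B w) (comp B v) := by
    rw [Set.disjoint_left]
    intro z h4 h5
    have h6 : Conn B w z := h4
    have h7 : Conn B v z := h5
    exact hc (h6.trans h7.symm)
  have hS : ∀ x ∈ comp B w, 2 * m - r ≤ X x ∧ X x ≤ r ∧ 0 ≤ x.2 ∧ x.2 ≤ 2 * n :=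
    fun x hx => bB x (comp_subset hx)
  have hT : ∀ x ∈ comp B v, 2 * m - r ≤ X x ∧ X x ≤ r ∧ 0 ≤ x.2 ∧ x.2 ≤ 2 * n :=
    fun x hx => bB x (comp_subset hx)
  have k1 := h3.symm.in_comp
  have k2 := h2.symm.in_comp
  have q1 := hS _ k1.right
  have q2 := hT _ k2.right
  have hne : f ≠ g := fun h4 => Set.disjoint_left.1 hd k1.right (h4 ▸ k2.right)
  have hna : ¬ Adj f g := fun h4 =>
    Set.disjoint_left.1 hd (comp_adj k1.right (comp_subset k2.right) h4) k2.right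
  have hlt : g.1 < f.1 := by
    by_contra h4
    have h5 : g.1 = f.1 ∨ g.1 = f.1 + 1 := by
      unfold X at *
      omega
    rcases h5 with h5 | h5
    · exact hne (Prod.ext h5.symm (by omega))
    · exact hna (Or.inl ⟨h5, by omega⟩)
  refine no_B hd k1 k2 ?_ ?_ ?_ ?_ hlt
  · intro y hy he
    have h4 := hT y hy
    unfold X at *
    omega
  · intro y hy he
    have h4 := hS y hy
    unfold X at *
    omega
  · intro y hy
    have h4 := hT y hy
    omega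
  · intro y hy
    have h4 := hS y hy
    omega

theorem lc_eq_iff {c : Set V} (hc : c ⊆ Rec 0 (2 * m) 0 n)
    (hj : ∀ x ∈ c, ∃ u ∈ c, X u ≤ 1 ∧ Conn c u x) :
    lc m n O = c ↔ (∀ v ∈ c, v ∉ O) ∧ ∀ v ∈ exl m n c, v ∉ c → v ∈ O := by
  constructor
  · rintro rfl
    refine ⟨fun v hv => ((lc_prop' O).1 hv).1, fun v hv h1 => ?_⟩
    by_contra h2
    exact h1 (lc_closed hv h2)
  · rintro ⟨h1, h2⟩
    refine clus_eq (fun v hv => ⟨h1 v hv, hc hv⟩) (fun x hx => ?_) (fun x hx hxc => ?_)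
    · obtain ⟨u, hu, h3, h4⟩ := hj x hx
      exact ⟨u, h3, h4⟩
    · refine ⟨fun h3 => ?_, fun k hk h3 => ?_⟩
      · exact hx.1 (h2 x ⟨hx.2, Or.inr (Or.inr h3)⟩ hxc)
      · exact hx.1 (h2 x ⟨hx.2, Or.inr (Or.inl ⟨k, hk, h3⟩)⟩ hxc)

theorem lc_prop (O : Set V) : lc m n O ⊆ Rec 0 (2 * m) 0 n ∧
    ∀ x ∈ lc m n O, ∃ u ∈ lc m n O, X u ≤ 1 ∧ Conn (lc m n O) u x := by
  exact ⟨fun _ hv => ((lc_prop' O).1 hv).2, (lc_prop' O).2⟩

/-- A vertical crossing of `S` has its foot on the left half or on the right half. -/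
theorem vc_halves (h : VC O 0 (2 * m) 0 n) : Vl m n O ∨ Vl m n (vref m ⁻¹' O) := by
  obtain ⟨u, hu, v, hv, h⟩ := h
  replace hu : u.2 ≤ 0 := hu
  by_cases h1 : X u ≤ m + 1
  · exact Or.inl ⟨u, ⟨hu, h1⟩, v, hv, h⟩
  · right
    have hvv : ∀ z : V, vref m (vref m z) = z := by
      intro z
      refine Prod.ext ?_ rfl
      show m - (m - z.1 - z.2) - z.2 = z.1
      ring
    refine ⟨vref m u, ?_, vref m v, hv, ?_⟩
    · show (vref m u).2 ≤ 0 ∧ X (vref m u) ≤ m + 1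
      rw [(X_vref m u).1, (X_vref m u).2]
      omega
    · have h2 : Conn (vref m ⁻¹' (O ∩ Rec 0 (2 * m) 0 n)) (vref m u) (vref m v) := by
        rw [conn_preimage (isAut_vref m), hvv, hvv]
        exact h
      refine h2.mono ?_
      rintro z ⟨hz1, hz2, hz3, hz4, hz5⟩
      rw [(X_vref m z).1] at hz2 hz3
      rw [(X_vref m z).2] at hz4 hz5
      exact ⟨hz1, by omega, by omega, hz4, hz5⟩

end Pool.Agent.TriPerc
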