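import Pool.Agent.TriPerc.Half
import Pool.Agent.TriPerc.Harris
import Pool.Agent.TriPerc.RswD

/-!
# RSW for every `p`: probability part of the reflection argument

Notation of `RswD`: `S = Rec 0 (2 m) 0 n`, `R = Rec 0 r 0 (2 n)`, `2 m + 2 ≤ r`, `m, n ≥ 1`.
`v = P (oVC p 0 (2 m) 0 n)`, `h = P (oHC p 0 r 0 (2 n))`.

* `vl_prob`: `P {w | Vl m n (Op p w)} ≥ 1 - sqrt (1 - v)`: by `vc_halves` the event `oVC` is contained
  in the union of `{Vl}` and its mirror image under `vref m` (which has the same probability by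
  `mp_comp`); both are lower events, so the probability `q` of `{Vl}` satisfies
  `1 - v ≥ (1 - q) ^ 2` (`harris_up` for the complements, or `sqrt_trick`).
* `jf_prob`: for every `c ⊆ S`: `P {w | Jf n r (Op p w) (exl m n c)} ≥ 1 - sqrt (1 - h)`: `cover`, the
  second event of `cover` is the mirror image of the first one under `href n` (`R` is invariant,
  `X` is preserved; note that `href n` is an involution), same probability, both lower; the same
  square root argument.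
* `ev_lc`: `{w | lc m n (Op p w) = c}` depends on the labels in `exl m n c` only (`lc_eq_iff`,
  `lc_prop`); `ev_jf`: `{w | Jf n r (Op p w) e}` depends on the labels in
  `{v ∈ R | v ∉ e, href n v ∉ e}`.
* `xa_prob`: `P {w | Xa m n r (Op p w)} ≥ (1 - sqrt (1 - v)) (1 - sqrt (1 - h))`: sum over all
  `c ⊆ S` (finitely many) which satisfy the condition of `vl_iff`: the events
  `{lc = c} ∩ {Jf (exl c)}` are disjoint, contained in `{Xa}` (`keyG`), and
  `P ({lc = c} ∩ {Jf (exl c)}) = P {lc = c} P {Jf (exl c)}` (`indep`); the sum of the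
  `P {lc = c}` is `P {Vl}`.
* `br2`: `P (oHC p (2 m - r) r 0 (2 n)) ≥ ((1 - sqrt (1 - v)) (1 - sqrt (1 - h))) ^ 2`: `joinG`,
  `harris_low`, and the mirror image of `{Xa}` has the same probability (`mp_comp` for `vref m`).
-/

namespace Pool.Agent.TriPerc

open MeasureTheory Set

variable {m n r : ℤ} {p : ℝ}

private theorem ev_pre {s : Set V} {A : Set Lab} (g : V ≃ V) (hA : Ev s A) :
    Ev (g '' s) {w : Lab | (fun v => w (g v)) ∈ A} := by
  refine ⟨(mp_comp g).measurable hA.1, fun w w' hw h => ?_⟩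
  exact hA.2 _ _ (fun v hv => hw (g v) (mem_image_of_mem g hv)) h

private theorem low_pre {A : Set Lab} (g : V ≃ V) (hA : IsLowerSet A) :
    IsLowerSet {w : Lab | (fun v => w (g v)) ∈ A} := by
  intro w w' hle hw
  have h1 : (fun v => w' (g v)) ≤ fun v => w (g v) := fun v => hle (g v)
  exact hA h1 hw

private theorem P_pre {s : Set V} {A : Set Lab} (g : V ≃ V) (hA : Ev s A) :
    P {w : Lab | (fun v => w (g v)) ∈ A} = P A :=
  (mp_comp g).measure_preimage hA.1.nullMeasurableSet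

private theorem sq2 {s : Set V} (hs : s.Finite) {A B C : Set Lab} (hA : Ev s A) (hB : Ev s B)
    (lA : IsLowerSet A) (lB : IsLowerSet B) (hP : P B = P A) (hC : C ⊆ A ∪ B) :
    1 - Real.sqrt (1 - (P C).toReal) ≤ (P A).toReal := by
  have h1 : P Aᶜ * P Bᶜ ≤ P (Aᶜ ∩ Bᶜ) := harris_up hs hA.compl hB.compl lA.compl lB.compl
  have cr : ∀ D : Set Lab, MeasurableSet D → (P Dᶜ).toReal = 1 - (P D).toReal := fun D hD => by
    rw [prob_compl_eq_one_sub hD, ENNReal.toReal_sub_of_le prob_le_one ENNReal.one_ne_top,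
      ENNReal.toReal_one]
  have h2 : (P Aᶜ).toReal * (P Bᶜ).toReal ≤ (P (Aᶜ ∩ Bᶜ)).toReal := by
    rw [← ENNReal.toReal_mul]
    exact ENNReal.toReal_mono (measure_ne_top _ _) h1
  rw [← compl_union, cr _ hA.1, cr _ hB.1, cr _ (hA.1.union hB.1), hP] at h2
  have h3 : (P C).toReal ≤ (P (A ∪ B)).toReal :=
    ENNReal.toReal_mono (measure_ne_top _ _) (measure_mono hC)
  have h4 : (1 - (P A).toReal) ^ 2 ≤ 1 - (P C).toReal := by
    rw [sq]
    linarith
  have h5 := Real.le_sqrt_of_sq_le h4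
  linarith

private theorem vref2 (m : ℤ) (v : V) : vref m (vref m v) = v := by
  ext
  · show m - (m - v.1 - v.2) - v.2 = v.1
    ring
  · rfl

private theorem href2 (n : ℤ) (v : V) : href n (href n v) = v := by
  ext
  · show v.1 + v.2 - n + (2 * n - v.2) - n = v.1
    ring
  · show 2 * n - (2 * n - v.2) = v.2
    ring

private theorem vref_im (m n : ℤ) : vref m '' Rec 0 (2 * m) 0 n ⊆ Rec 0 (2 * m) 0 n := by
  rintro _ ⟨v, ⟨a1, a2, a3, a4⟩, rfl⟩
  obtain ⟨h1, h2⟩ := X_vref m v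
  show 0 ≤ X (vref m v) ∧ X (vref m v) ≤ 2 * m ∧ 0 ≤ (vref m v).2 ∧ (vref m v).2 ≤ n
  rw [h1, h2]
  refine ⟨?_, ?_, a3, a4⟩ <;> omega

private theorem href_rec (n r : ℤ) (v : V) :
    href n v ∈ Rec 0 r 0 (2 * n) ↔ v ∈ Rec 0 r 0 (2 * n) := by
  obtain ⟨h1, h2⟩ := X_href n v
  show (0 ≤ X (href n v) ∧ X (href n v) ≤ r ∧ 0 ≤ (href n v).2 ∧ (href n v).2 ≤ 2 * n) ↔
    (0 ≤ X v ∧ X v ≤ r ∧ 0 ≤ v.2 ∧ v.2 ≤ 2 * n)
  rw [h1, h2]
  constructor <;> rintro ⟨a1, a2, a3, a4⟩ <;> refine ⟨a1, a2, ?_, ?_⟩ <;> omega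

private theorem href_im (n r : ℤ) : href n '' Rec 0 r 0 (2 * n) ⊆ Rec 0 r 0 (2 * n) := by
  rintro _ ⟨v, hv, rfl⟩
  exact (href_rec n r v).2 hv

theorem vl_prob (hm : 1 ≤ m) (hn : 1 ≤ n) :
    1 - Real.sqrt (1 - (P (oVC p 0 (2 * m) 0 n)).toReal) ≤
      (P {w | Vl m n (Op p w)}).toReal := by
  have h1 := ev_join (p := p) (D := Rec 0 (2 * m) 0 n) (A := {v | v.2 ≤ 0 ∧ X v ≤ m + 1})
    (B := {v | n ≤ v.2}) (finite_rec _ _ _ _)
  have h2 : Ev (Rec 0 (2 * m) 0 n) {w | Vl m n (Op p w)} := h1.1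
  have h3 : IsLowerSet {w | Vl m n (Op p w)} := h1.2
  refine sq2 (finite_rec 0 (2 * m) 0 n) h2 ((ev_pre (vref m) h2).mono (vref_im m n)) h3
    (low_pre (vref m) h3) (P_pre (vref m) h2) fun w hw => ?_
  exact vc_halves hw

theorem ev_jf {e : Set V} :
    Ev {v | v ∈ Rec 0 r 0 (2 * n) ∧ v ∉ e ∧ href n v ∉ e} {w | Jf n r (Op p w) e} ∧
      IsLowerSet {w | Jf n r (Op p w) e} := by
  have hfin : {v | v ∈ Rec 0 r 0 (2 * n) ∧ v ∉ e ∧ href n v ∉ e}.Finite :=
    (finite_rec 0 r 0 (2 * n)).subset fun v hv => hv.1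
  have h1 := ev_join (p := p) (A := nb e) (B := {v | r - 1 ≤ X v}) hfin
  have h2 : {w | Jf n r (Op p w) e} = {w | Join (Op p w ∩
      {v | v ∈ Rec 0 r 0 (2 * n) ∧ v ∉ e ∧ href n v ∉ e}) (nb e) {v | r - 1 ≤ X v}} := by
    ext w
    have h3 : (Op p w ∩ {v | v ∉ e ∧ href n v ∉ e}) ∩ Rec 0 r 0 (2 * n) =
        Op p w ∩ {v | v ∈ Rec 0 r 0 (2 * n) ∧ v ∉ e ∧ href n v ∉ e} := by
      ext v
      constructor
      · rintro ⟨⟨a1, a2⟩, a3⟩
        exact ⟨a1, a3, a2⟩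
      · rintro ⟨a1, a3, a2⟩
        exact ⟨⟨a1, a2⟩, a3⟩
    show Join ((Op p w ∩ {v | v ∉ e ∧ href n v ∉ e}) ∩ Rec 0 r 0 (2 * n)) (nb e)
      {v | r - 1 ≤ X v} ↔ _
    rw [h3]
    exact Iff.rfl
  rw [h2]
  exact h1

private theorem mir (O e : Set V) :
    Join ((O ∩ {v | v ∉ e ∧ href n v ∉ e}) ∩ Rec 0 r 0 (2 * n))
      (nb (href n ⁻¹' e)) {v | r - 1 ≤ X v} → Jf n r (href n ⁻¹' O) e := by
  intro h
  refine Join.mono ((join_preimage (isAut_href n)).2 h) ?_ ?_ ?_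
  · rintro v ⟨⟨h1, h2, h3⟩, h4⟩
    refine ⟨⟨h1, ?_, h2⟩, (href_rec n r v).1 h4⟩
    rwa [href2] at h3
  · rintro v ⟨u, hu, ha⟩
    refine ⟨href n u, hu, ?_⟩
    have h1 := (isAut_href n u (href n v)).2 ha
    rwa [href2] at h1
  · intro v hv
    have h1 : r - 1 ≤ X (href n v) := hv
    rwa [(X_href n v).1] at h1

theorem jf_prob (hm : 1 ≤ m) (hn : 1 ≤ n) (hr : 2 * m + 2 ≤ r) (c : Set V) :
    1 - Real.sqrt (1 - (P (oHC p 0 r 0 (2 * n))).toReal) ≤
      (P {w | Jf n r (Op p w) (exl m n c)}).toReal := by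
  obtain ⟨h1, h3⟩ := ev_jf (n := n) (r := r) (p := p) (e := exl m n c)
  have h2 : Ev (Rec 0 r 0 (2 * n)) {w | Jf n r (Op p w) (exl m n c)} :=
    h1.mono fun v hv => hv.1
  refine sq2 (finite_rec 0 r 0 (2 * n)) h2 ((ev_pre (href n) h2).mono (href_im n r)) h3
    (low_pre (href n) h3) (P_pre (href n) h2) fun w hw => ?_
  rcases cover hm hn hr c hw with h4 | h4
  · exact Or.inl h4
  · exact Or.inr (mir _ _ h4)

theorem ev_lc {c : Set V} (hc : c ⊆ Rec 0 (2 * m) 0 n) :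
    Ev (exl m n c) {w | lc m n (Op p w) = c} := by
  by_cases hj : ∀ x ∈ c, ∃ u ∈ c, X u ≤ 1 ∧ Conn c u x
  · have hfin : (exl m n c).Finite := (finite_rec 0 (2 * m) 0 n).subset fun v hv => hv.1
    refine ev_of_fin hfin {p} fun w w' h hw => ?_
    have h1 := h p (Finset.mem_singleton_self p)
    have h2 : ∀ v ∈ exl m n c, (v ∈ Op p w ↔ v ∈ Op p w') := fun v hv =>
      ⟨fun h3 => (h1.subset ⟨h3, hv⟩).1, fun h3 => (h1.superset ⟨h3, hv⟩).1⟩
    obtain ⟨h3, h4⟩ := (lc_eq_iff hc hj).1 (show lc m n (Op p w) = c from hw)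
    refine (lc_eq_iff hc hj).2 ⟨fun v hv h5 => h3 v hv ((h2 v ⟨hc hv, Or.inl hv⟩).2 h5),
      fun v hv hvc => (h2 v hv).1 (h4 v hv hvc)⟩
  · have h1 : {w | lc m n (Op p w) = c} = ∅ := by
      ext w
      refine ⟨fun hw => hj ?_, fun hw => absurd hw (notMem_empty w)⟩
      have h2 := (lc_prop (m := m) (n := n) (Op p w)).2
      rw [show lc m n (Op p w) = c from hw] at h2
      exact h2
    rw [h1]
    exact ev_empty

private theorem xa_aux (hm : 1 ≤ m) (hn : 1 ≤ n) (hr : 2 * m + 2 ≤ r) {β : ENNReal}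
    (hβ : ∀ c : Set V, β ≤ P {w | Jf n r (Op p w) (exl m n c)}) :
    β * P {w | Vl m n (Op p w)} ≤ P {w | Xa m n r (Op p w)} := by
  classical
  set Rf : Finset V := (finite_rec 0 (2 * m) 0 n).toFinset with hRf
  set I : Finset (Finset V) := Rf.powerset.filter fun c =>
    ∀ v ∈ c, X v < 2 * m - 1 ∧ (v.2 ≤ 0 → X v < m) with hI
  have hsubI : ∀ c ∈ I, (c : Set V) ⊆ Rec 0 (2 * m) 0 n := fun c hc v hv => by
    have h1 := Finset.mem_powerset.1 (Finset.mem_filter.1 hc).1 (Finset.mem_coe.1 hv)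
    exact (finite_rec 0 (2 * m) 0 n).mem_toFinset.1 h1
  set E : Finset V → Set Lab := fun c => {w | lc m n (Op p w) = (c : Set V)} with hE
  set J : Finset V → Set Lab := fun c => {w | Jf n r (Op p w) (exl m n (c : Set V))} with hJ
  have h1 : P {w | Vl m n (Op p w)} ≤ ∑ c ∈ I, P (E c) := by
    refine (measure_mono ?_).trans (measure_biUnion_finset_le I E)
    intro w hw
    have h2 := (vl_iff hm hn (Op p w)).1 hw
    have h3 : (lc m n (Op p w)).Finite :=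
      (finite_rec 0 (2 * m) 0 n).subset (lc_prop (Op p w)).1
    refine mem_iUnion₂.2 ⟨h3.toFinset, ?_, ?_⟩
    · refine Finset.mem_filter.2 ⟨Finset.mem_powerset.2 fun v hv => ?_, fun v hv => ?_⟩
      · exact (finite_rec 0 (2 * m) 0 n).mem_toFinset.2
          ((lc_prop (Op p w)).1 (h3.mem_toFinset.1 hv))
      · exact h2 v (h3.mem_toFinset.1 hv)
    · show lc m n (Op p w) = (h3.toFinset : Set V)
      rw [h3.coe_toFinset]
  have h2 : ∑ c ∈ I, P (E c ∩ J c) ≤ P {w | Xa m n r (Op p w)} := by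
    rw [← measure_biUnion_finset]
    · refine measure_mono fun w hw => ?_
      obtain ⟨c, hc, h3, h4⟩ := mem_iUnion₂.1 hw
      have h5 : lc m n (Op p w) = (c : Set V) := h3
      refine keyG hm hn hr ((vl_iff hm hn _).2 ?_) ?_
      · rw [h5]
        exact fun v hv => (Finset.mem_filter.1 hc).2 v (Finset.mem_coe.1 hv)
      · rw [h5]
        exact h4
    · intro c _ d _ hcd
      refine Set.disjoint_left.2 fun w h3 h4 => hcd ?_
      have h5 : lc m n (Op p w) = (c : Set V) := h3.1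
      have h6 : lc m n (Op p w) = (d : Set V) := h4.1
      exact Finset.coe_injective (h5.symm.trans h6)
    · intro c hc
      exact (ev_lc (hsubI c hc)).1.inter (ev_jf (e := exl m n (c : Set V))).1.1
  have h3 : ∀ c ∈ I, β * P (E c) ≤ P (E c ∩ J c) := by
    intro c hc
    rw [indep (ev_lc (hsubI c hc)) (ev_jf (e := exl m n (c : Set V))).1
      (Set.disjoint_left.2 fun v hv hv' => hv'.2.1 hv), mul_comm]
    gcongr
    exact hβ c
  calc β * P {w | Vl m n (Op p w)} ≤ β * ∑ c ∈ I, P (E c) := by gcongr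
    _ = ∑ c ∈ I, β * P (E c) := Finset.mul_sum _ _ _
    _ ≤ ∑ c ∈ I, P (E c ∩ J c) := Finset.sum_le_sum h3
    _ ≤ P {w | Xa m n r (Op p w)} := h2

private theorem sq_nonneg' (A : Set Lab) : 0 ≤ 1 - Real.sqrt (1 - (P A).toReal) := by
  have h1 : 0 ≤ (P A).toReal := ENNReal.toReal_nonneg
  have h2 : Real.sqrt (1 - (P A).toReal) ≤ 1 := Real.sqrt_le_one.2 (by linarith)
  linarith

theorem xa_prob (hm : 1 ≤ m) (hn : 1 ≤ n) (hr : 2 * m + 2 ≤ r) :
    (1 - Real.sqrt (1 - (P (oVC p 0 (2 * m) 0 n)).toReal)) *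
      (1 - Real.sqrt (1 - (P (oHC p 0 r 0 (2 * n))).toReal)) ≤
      (P {w | Xa m n r (Op p w)}).toReal := by
  have h0 := sq_nonneg' (oHC p 0 r 0 (2 * n))
  have h1 := xa_aux (p := p) hm hn hr
    (β := ENNReal.ofReal (1 - Real.sqrt (1 - (P (oHC p 0 r 0 (2 * n))).toReal)))
    (fun c => ENNReal.ofReal_le_of_le_toReal (jf_prob hm hn hr c))
  have h2 := ENNReal.toReal_mono (measure_ne_top _ _) h1
  rw [ENNReal.toReal_mul, ENNReal.toReal_ofReal h0] at h2
  calc (1 - Real.sqrt (1 - (P (oVC p 0 (2 * m) 0 n)).toReal)) *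
      (1 - Real.sqrt (1 - (P (oHC p 0 r 0 (2 * n))).toReal))
      ≤ (P {w | Vl m n (Op p w)}).toReal *
        (1 - Real.sqrt (1 - (P (oHC p 0 r 0 (2 * n))).toReal)) :=
        mul_le_mul_of_nonneg_right (vl_prob hm hn) h0
    _ = (1 - Real.sqrt (1 - (P (oHC p 0 r 0 (2 * n))).toReal)) *
        (P {w | Vl m n (Op p w)}).toReal := mul_comm _ _
    _ ≤ (P {w | Xa m n r (Op p w)}).toReal := h2

theorem br2 (hm : 1 ≤ m) (hn : 1 ≤ n) (hr : 2 * m + 2 ≤ r) :
    ((1 - Real.sqrt (1 - (P (oVC p 0 (2 * m) 0 n)).toReal)) *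
      (1 - Real.sqrt (1 - (P (oHC p 0 r 0 (2 * n))).toReal))) ^ 2 ≤
      (P (oHC p (2 * m - r) r 0 (2 * n))).toReal := by
  have h1 := ev_join (p := p) (D := Rec 0 r 0 (2 * n)) (A := {v | v.2 ≤ 0 ∧ X v ≤ m + 1})
    (B := {v | r - 1 ≤ X v}) (finite_rec _ _ _ _)
  have h2 : Ev (Rec 0 r 0 (2 * n)) {w | Xa m n r (Op p w)} := h1.1
  have h3 : IsLowerSet {w | Xa m n r (Op p w)} := h1.2
  set M1 : Set Lab := {w | Xa m n r (Op p w)} with hM1
  set M2 : Set Lab := {w : Lab | (fun v => w (vref m v)) ∈ M1} with hM2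
  have hfin : (Rec 0 r 0 (2 * n) ∪ vref m '' Rec 0 r 0 (2 * n)).Finite :=
    (finite_rec _ _ _ _).union ((finite_rec _ _ _ _).image _)
  have h5 : P M2 = P M1 := P_pre (vref m) h2
  have h6 : P M1 * P M2 ≤ P (M1 ∩ M2) :=
    harris_low hfin (h2.mono subset_union_left)
      ((ev_pre (vref m) h2).mono subset_union_right) h3 (low_pre (vref m) h3)
  have h7 : P (M1 ∩ M2) ≤ P (oHC p (2 * m - r) r 0 (2 * n)) :=
    measure_mono fun w hw => joinG hm hn hr hw.1 hw.2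
  have h8 := ENNReal.toReal_mono (measure_ne_top _ _) (h6.trans h7)
  rw [ENNReal.toReal_mul, h5, ← sq] at h8
  refine le_trans ?_ h8
  have h9 := xa_prob (p := p) hm hn hr
  have h10 := mul_nonneg (sq_nonneg' (oVC p 0 (2 * m) 0 n)) (sq_nonneg' (oHC p 0 r 0 (2 * n)))
  exact pow_le_pow_left₀ h10 h9 2

end Pool.Agent.TriPerc
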