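import Pool.Agent.TriPerc.RswF

/-!
# Russo's formula as a lower bound

`Pvt t N v`: the vertex `v` is pivotal at the level `t` for the crossing of `Par 0 N 0 N`.
`russo_lb`: if `v` is pivotal with probability at least `e` for all `v` in `B` and all levels
`t ∈ [q1, q2]`, then `|B| e (q2 - q1) ≤ ph q2 N - ph q1 N`.
The events `q1 < w v ≤ q2`, `v` pivotal at the level `w v`, are almost surely disjoint.
-/

namespace Pool.Agent.TriPerc

open MeasureTheory Set

/-- The vertex `v` is pivotal at the level `t`. -/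
def Pvt (t : ℝ) (N : ℤ) (v : V) : Set Lab :=
  {w | PH (Op t w ∪ {v}) 0 N 0 N ∧ ¬ PH (Op t w \ {v}) 0 N 0 N}

variable {t q1 q2 e : ℝ} {N : ℤ} {v u : V} {w : Lab}

private theorem ph_cut {S : Set V} {l r b t : ℤ} : PH S l r b t ↔ PH (S ∩ Par l r b t) l r b t := by
  unfold PH
  rw [inter_assoc, inter_self]

private theorem ph_incl {S T : Set V} {l r b t : ℤ} (h : S ∩ Par l r b t ⊆ T) (k : PH S l r b t) :
    PH T l r b t := by
  obtain ⟨x, hx, y, hy, hxy⟩ := k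
  exact ⟨x, hx, y, hy, hxy.mono fun z hz => ⟨h hz, hz.2⟩⟩

/-- Only the labels of the other vertices matter. -/
theorem ev_pvt (t : ℝ) (N : ℤ) (v : V) : Ev (Par 0 N 0 N \ {v}) (Pvt t N v) := by
  refine ev_of_fin ((finite_par 0 N 0 N).subset sdiff_subset) {t} fun w w' h hw => ?_
  have h1 := h t (Finset.mem_singleton_self t)
  have h2 : ∀ x ∈ Par 0 N 0 N, x ≠ v → (x ∈ Op t w ↔ x ∈ Op t w') := by
    intro x hx hxv
    have h3 := Set.ext_iff.1 h1 x
    constructor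
    · intro h4
      exact (h3.1 ⟨h4, hx, hxv⟩).1
    · intro h4
      exact (h3.2 ⟨h4, hx, hxv⟩).1
  refine ⟨ph_incl ?_ hw.1, fun k => hw.2 (ph_incl ?_ k)⟩
  · rintro x ⟨hx, hx'⟩
    by_cases hxv : x = v
    · exact Or.inr hxv
    · rcases hx with hx | hx
      · exact Or.inl ((h2 x hx' hxv).1 hx)
      · exact absurd hx hxv
  · rintro x ⟨⟨hx, hxv⟩, hx'⟩
    exact ⟨(h2 x hx' hxv).2 hx, hxv⟩

/-- `v` has a label in `(q1, q2]` and is pivotal at the level of its label. -/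
private def Av (q1 q2 : ℝ) (N : ℤ) (v : V) : Set Lab :=
  {w | q1 < w v ∧ w v ≤ q2 ∧ w ∈ Pvt (w v) N v}

private theorem ev_av : Ev (insert v (Par 0 N 0 N)) (Av q1 q2 N v) := by
  refine ev_order_lev ((finite_par 0 N 0 N).insert v) {q1, q2} fun w w' h1 h2 hw => ?_
  obtain ⟨h3, h4, h5⟩ := hw
  have hv : v ∈ insert v (Par 0 N 0 N) := mem_insert _ _
  have h6 : ∀ x ∈ Par 0 N 0 N, (x ∈ Op (w v) w ↔ x ∈ Op (w' v) w') := fun x hx =>
    h1 x (mem_insert_of_mem _ hx) v hv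
  refine ⟨?_, (h2 q2 (by simp) v hv).1 h4, ph_incl ?_ h5.1, fun k => h5.2 (ph_incl ?_ k)⟩
  · by_contra hc
    exact absurd ((h2 q1 (by simp) v hv).2 (not_lt.1 hc)) (not_le.2 h3)
  · rintro x ⟨hx, hx'⟩
    rcases hx with hx | hx
    · exact Or.inl ((h6 x hx').1 hx)
    · exact Or.inr hx
  · rintro x ⟨⟨hx, hxv⟩, hx'⟩
    exact ⟨(h6 x hx').2 hx, hxv⟩

private theorem av_prob (h0 : 0 ≤ q1) (h12 : q1 ≤ q2) (h1 : q2 ≤ 1)
    (h : ∀ t, q1 ≤ t → t ≤ q2 → ENNReal.ofReal e ≤ P (Pvt t N v)) :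
    ENNReal.ofReal e * ENNReal.ofReal (q2 - q1) ≤ P (Av q1 q2 N v) := by
  classical
  have hm := (ev_av (q1 := q1) (q2 := q2) (N := N) (v := v)).1
  rw [← (mp_update v).measure_preimage hm.nullMeasurableSet,
    Measure.prod_apply_symm ((mp_update v).measurable hm)]
  have h2 : unif (Ioc q1 q2) = ENNReal.ofReal (q2 - q1) := by
    have h7 : Set.Ioc q1 q2 ∩ Set.Icc 0 1 = Set.Ioc q1 q2 :=
      Set.inter_eq_left.2 fun x hx => ⟨h0.trans hx.1.le, hx.2.trans h1⟩
    rw [unif, Measure.restrict_apply measurableSet_Ioc, h7, Real.volume_Ioc]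
  rw [← h2, ← setLIntegral_const, ← lintegral_indicator measurableSet_Ioc]
  refine lintegral_mono fun t => ?_
  by_cases ht : t ∈ Ioc q1 q2
  · rw [indicator_of_mem ht]
    refine (h t ht.1.le ht.2).trans (measure_mono fun w hw => ?_)
    change Function.update w v t ∈ Av q1 q2 N v
    refine ⟨?_, ?_, ?_⟩
    · rw [Function.update_self]
      exact ht.1
    · rw [Function.update_self]
      exact ht.2
    · rw [Function.update_self]
      refine (ev_pvt t N v).2 _ _ (fun x hx => ?_) hw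
      rw [Function.update_of_ne]
      exact hx.2
  · rw [indicator_of_notMem ht]
    exact zero_le

private theorem av_disj {w : Lab} (h : w ∈ Av q1 q2 N v) (h' : w ∈ Av q1 q2 N u)
    (hlt : w u < w v) : False := by
  refine h.2.2.2 (ph_incl ?_ h'.2.2.1)
  rintro x ⟨hx | hx, -⟩
  · refine ⟨le_trans hx hlt.le, ?_⟩
    rintro rfl
    exact absurd hx (not_le.2 hlt)
  · rw [mem_singleton_iff] at hx
    subst hx
    refine ⟨hlt.le, ?_⟩
    rintro rfl
    exact lt_irrefl _ hlt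

theorem russo_lb (h0 : 0 ≤ q1) (h12 : q1 ≤ q2) (h1 : q2 ≤ 1) (B : Finset V) (he : 0 ≤ e)
    (h : ∀ t, q1 ≤ t → t ≤ q2 → ∀ v ∈ B, e ≤ (P (Pvt t N v)).toReal) :
    (B.card : ℝ) * e * (q2 - q1) ≤ ph q2 N - ph q1 N := by
  have hE : ∀ v ∈ B, ENNReal.ofReal e * ENNReal.ofReal (q2 - q1) ≤ P (Av q1 q2 N v) := by
    intro v hv
    refine av_prob h0 h12 h1 fun t ht ht' => ?_
    rw [← ENNReal.ofReal_toReal (measure_ne_top P (Pvt t N v))]
    exact ENNReal.ofReal_le_ofReal (h t ht ht' v hv)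
  have hdis : (B : Set V).Pairwise (Function.onFun (AEDisjoint P) (Av q1 q2 N)) := by
    intro v _ u _ hvu
    have h2 : Av q1 q2 N v ∩ Av q1 q2 N u ⊆ {w | ¬ ∀ u v, u ≠ v → w u ≠ w v} := by
      rintro w ⟨k1, k2⟩ hinj
      rcases lt_trichotomy (w u) (w v) with h3 | h3 | h3
      · exact av_disj k1 k2 h3
      · exact hinj u v hvu.symm h3
      · exact av_disj k2 k1 h3
    have h3 : ∀ᵐ w ∂P, ∀ u v, u ≠ v → w u ≠ w v := by
      filter_upwards [ae_label 0] with w hw using hw.2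
    exact measure_mono_null h2 h3
  have hsum : P (⋃ v ∈ B, Av q1 q2 N v) = ∑ v ∈ B, P (Av q1 q2 N v) :=
    measure_biUnion_finset₀ hdis fun v _ => (ev_av (v := v)).1.nullMeasurableSet
  have hsub : (⋃ v ∈ B, Av q1 q2 N v) ∪ oPH q1 0 N 0 N ⊆ oPH q2 0 N 0 N := by
    rintro w (hw | hw)
    · obtain ⟨v, -, h2, h3, h4, -⟩ := mem_iUnion₂.1 hw
      refine ph_incl ?_ h4
      rintro x ⟨hx | hx, -⟩
      · exact le_trans hx h3
      · rw [mem_singleton_iff] at hx
        subst hx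
        exact h3
    · exact ph_incl (fun x hx => le_trans hx.1 h12) hw
  have hdis2 : Disjoint (⋃ v ∈ B, Av q1 q2 N v) (oPH q1 0 N 0 N) := by
    refine Set.disjoint_left.2 fun w hw hw' => ?_
    obtain ⟨v, -, h2, h3, -, h5⟩ := mem_iUnion₂.1 hw
    refine h5 (ph_incl ?_ hw')
    rintro x ⟨hx, -⟩
    refine ⟨le_trans hx h2.le, ?_⟩
    rintro rfl
    exact absurd hx (not_le.2 h2)
  have h2 : (∑ v ∈ B, P (Av q1 q2 N v)) + P (oPH q1 0 N 0 N) ≤ P (oPH q2 0 N 0 N) := by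
    rw [← hsum, ← measure_union hdis2 ev_oPH.1]
    exact measure_mono hsub
  have h3 : (B.card : ENNReal) * (ENNReal.ofReal e * ENNReal.ofReal (q2 - q1)) ≤
      ∑ v ∈ B, P (Av q1 q2 N v) := by
    rw [← nsmul_eq_mul, ← Finset.sum_const]
    exact Finset.sum_le_sum hE
  have h4 := (add_le_add_left h3 (P (oPH q1 0 N 0 N))).trans h2
  have h5 := ENNReal.toReal_mono (measure_ne_top P _) h4
  rw [ENNReal.toReal_add (by
      refine ENNReal.mul_ne_top (ENNReal.natCast_ne_top _) (ENNReal.mul_ne_top ?_ ?_) <;>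
      exact ENNReal.ofReal_ne_top) (measure_ne_top P _), ENNReal.toReal_mul,
    ENNReal.toReal_mul, ENNReal.toReal_natCast, ENNReal.toReal_ofReal he,
    ENNReal.toReal_ofReal (sub_nonneg.2 h12)] at h5
  have h6 : (P (oPH q1 0 N 0 N)).toReal = ph q1 N := rfl
  have h7 : (P (oPH q2 0 N 0 N)).toReal = ph q2 N := rfl
  rw [h6, h7] at h5
  linarith

end Pool.Agent.TriPerc
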