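import Pool.Agent.TriPerc.Ring
import Pool.Agent.TriPerc.Rsp
import Pool.Agent.TriPerc.RusA

/-!
# A vertex with four standard arms is pivotal, deterministic part

* `ph_hit`: the path of a horizontal crossing meets every path which crosses vertically.
* `corr_glue`: an arm which reaches the far end of the box, a horizontal crossing of the box and a
  vertical crossing of the corridor.
* `corr_gf`: the same in the frame `gf i`.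
* `pvt_of_arms`: two open arms to the left and right, two closed arms to the bottom and top.
-/

namespace Pool.Agent.TriPerc

open MeasureTheory Set

variable {S T : Set V} {l r b t m n L N : ℤ} {x y v : V}

theorem ph_hit (h : PH S l r b t) : ∃ u, ∀ (T : Set V) (x y : V), Conn (T ∩ Par l r b t) x y →
    x.2 ≤ b → t ≤ y.2 → ∃ z, Conn (T ∩ Par l r b t) x z ∧ Conn (S ∩ Par l r b t) u z := by
  obtain ⟨u, hu, u', hu', h1⟩ := h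
  refine ⟨u, fun T x y hxy hx hy => ?_⟩
  have h2 : PH (comp (S ∩ Par l r b t) u) l r b t :=
    ⟨u, hu, u', hu', h1.in_comp.mono fun z hz => ⟨hz, (comp_subset hz).2⟩⟩
  have h3 : PV (comp (T ∩ Par l r b t) x) l r b t :=
    ⟨x, hx, y, hy, hxy.in_comp.mono fun z hz => ⟨hz, (comp_subset hz).2⟩⟩
  obtain ⟨z, ⟨a, -, z', hz', h4⟩, -, ⟨a', -, z'', hz'', h5⟩, -⟩ := ph_meet_pv h2 h3
  rw [mem_singleton_iff] at hz' hz''
  rw [hz'] at h4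
  rw [hz''] at h5
  exact ⟨z, h5.right.1, h4.right.1⟩

theorem corr_glue (hm : 4 ≤ m) (hL : 2 * m ≤ L)
    (h : Conn (S ∩ (SA 0 n m ∪ Par (-(m / 4)) (m / 4) (-(2 * m)) (-m - 1))) x y)
    (hx : x ∈ SA 0 n m) (hy : y.2 ≤ -(2 * m))
    (hB1 : PH S (-(m / 4)) (m / 4) (-(2 * m)) (-m - 1))
    (hB2 : PV S (-(m / 4)) (m / 4) (-L) (-m - 1)) :
    ∃ z, z.2 ≤ -L ∧
      Conn (S ∩ (SA 0 n m ∪ Par (-(m / 4)) (m / 4) (-L) (-m - 1))) x z := by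
  have hsa : ∀ u ∈ SA 0 n m, -m ≤ u.2 := by
    rintro u ⟨-, hu⟩
    rw [sub_zero] at hu
    have := (abs_le.1 ((le_max_right _ _).trans hu)).1
    exact this
  obtain ⟨a, b, ha, hb, hab, h1, h2⟩ := h.last (A := {u | -m ≤ u.2}) (hsa x hx)
    (by change ¬ -m ≤ y.2; omega)
  replace ha : -m ≤ a.2 := ha
  replace hb : ¬ -m ≤ b.2 := hb
  have hbox : ((S ∩ (SA 0 n m ∪ Par (-(m / 4)) (m / 4) (-(2 * m)) (-m - 1))) \
      {u | -m ≤ u.2}) ⊆ S ∩ Par (-(m / 4)) (m / 4) (-(2 * m)) (-m - 1) := by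
    rintro u ⟨⟨h3, h4 | h4⟩, h5⟩
    · exact absurd (hsa u h4) h5
    · exact ⟨h3, h4⟩
  have h3 : Conn (S ∩ Par (-(m / 4)) (m / 4) (-(2 * m)) (-m - 1)) b y := h2.mono hbox
  have hb' : -m - 1 ≤ b.2 := by
    have := abs_le.1 hab.abs.2.1
    omega
  obtain ⟨u, hu⟩ := ph_hit hB1
  obtain ⟨z, h4, h5⟩ := hu S y b h3.symm hy hb'
  obtain ⟨x2, hx2, y2, hy2, h6⟩ := hB2
  have h7 : PV (comp (S ∩ Par (-(m / 4)) (m / 4) (-L) (-m - 1)) x2) (-(m / 4)) (m / 4) (-(2 * m))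
      (-m - 1) := by
    refine pv_sub (b := -L) (by omega) le_rfl (by omega) le_rfl le_rfl ?_
    exact ⟨x2, hx2, y2, hy2, h6.in_comp.mono fun z hz => ⟨hz, (comp_subset hz).2⟩⟩
  obtain ⟨x3, hx3, y3, hy3, h8⟩ := h7
  obtain ⟨z', h9, h10⟩ := hu _ x3 y3 h8 hx3 hy3
  have s1 : S ∩ (SA 0 n m ∪ Par (-(m / 4)) (m / 4) (-(2 * m)) (-m - 1)) ⊆
      S ∩ (SA 0 n m ∪ Par (-(m / 4)) (m / 4) (-L) (-m - 1)) := by
    rintro q ⟨hq, hq' | ⟨q1, q2, q3, q4⟩⟩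
    · exact ⟨hq, Or.inl hq'⟩
    · exact ⟨hq, Or.inr ⟨q1, q2, by omega, q4⟩⟩
  have s2 : S ∩ Par (-(m / 4)) (m / 4) (-(2 * m)) (-m - 1) ⊆
      S ∩ (SA 0 n m ∪ Par (-(m / 4)) (m / 4) (-L) (-m - 1)) := by
    rintro q ⟨hq, q1, q2, q3, q4⟩
    exact ⟨hq, Or.inr ⟨q1, q2, by omega, q4⟩⟩
  have s3 : S ∩ Par (-(m / 4)) (m / 4) (-L) (-m - 1) ⊆
      S ∩ (SA 0 n m ∪ Par (-(m / 4)) (m / 4) (-L) (-m - 1)) := fun q hq => ⟨hq.1, Or.inr hq.2⟩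
  refine ⟨x2, hx2, ?_⟩
  have h11 : Conn (S ∩ Par (-(m / 4)) (m / 4) (-L) (-m - 1)) x2 z' := h9.right.1
  exact (h.mono s1).trans ((h4.mono s2).trans ((h5.symm.mono s2).trans ((h10.mono s2).trans
    (h11.symm.mono s3))))

private theorem pre_par {g : V ≃ V} (hg : IsAut g) {A : Set V}
    (h : Conn (g ⁻¹' A) x y) : Conn A (g x) (g y) := by
  have h1 := (conn_image hg).2 h
  refine h1.mono ?_
  rintro _ ⟨z, hz, rfl⟩
  exact hz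

theorem corr_gf {k : ℕ} (hk : k < 4) (hm : 4 ≤ m) (hL : 2 * m ≤ L)
    (h : Conn (S ∩ (SA 0 n m ∪ gf k ⁻¹' Par (-(m / 4)) (m / 4) (-(2 * m)) (-m - 1))) x y)
    (hx : x ∈ SA 0 n m) (hy : (gf k y).2 ≤ -(2 * m))
    (hB1 : PH (gf k ⁻¹' S) (-(m / 4)) (m / 4) (-(2 * m)) (-m - 1))
    (hB2 : PV (gf k ⁻¹' S) (-(m / 4)) (m / 4) (-L) (-m - 1)) :
    ∃ z, (gf k z).2 ≤ -L ∧
      Conn (S ∩ (SA 0 n m ∪ gf k ⁻¹' Par (-(m / 4)) (m / 4) (-L) (-m - 1))) x z := by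
  have hsa : ∀ u, u ∈ SA 0 n m ↔ gf k u ∈ SA 0 n m := by
    intro u
    have h1 := gf_sn hk u 0
    rw [gf_zero hk] at h1
    change n ≤ sn (u - 0) ∧ sn (u - 0) ≤ m ↔ n ≤ sn (gf k u - 0) ∧ sn (gf k u - 0) ≤ m
    rw [← h1, sub_zero (gf k u)]
  have h1 : Conn (gf k ⁻¹' S ∩ (SA 0 n m ∪ Par (-(m / 4)) (m / 4) (-(2 * m)) (-m - 1)))
      (gf k x) (gf k y) := by
    refine pre_par (gf_aut hk) (h.mono ?_)
    rintro u ⟨h2, h3⟩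
    refine ⟨?_, ?_⟩
    · change gf k (gf k u) ∈ S
      rwa [gf_invol hk]
    · rcases h3 with h3 | h3
      · exact Or.inl ((hsa u).1 h3)
      · exact Or.inr h3
  obtain ⟨z, hz, h2⟩ := corr_glue hm hL h1 ((hsa x).1 hx) hy hB1 hB2
  refine ⟨gf k z, by rwa [gf_invol hk], ?_⟩
  have h3 := pre_par (A := S ∩ (SA 0 n m ∪ gf k ⁻¹' Par (-(m / 4)) (m / 4) (-L) (-m - 1)))
    (gf_aut hk) (h2.mono ?_)
  · rwa [gf_invol hk] at h3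
  · rintro u ⟨h4, h5⟩
    refine ⟨h4, ?_⟩
    rcases h5 with h5 | h5
    · exact Or.inl ((hsa u).1 h5)
    · refine Or.inr ?_
      change gf k (gf k u) ∈ Par (-(m / 4)) (m / 4) (-L) (-m - 1)
      rwa [gf_invol hk]

theorem pvt_of_arms {p : ℝ} {w : Lab} (hv : v ∈ Par 0 N 0 N)
    (a0 : ∃ x y, Adj x v ∧ Conn (Cl p w ∩ Par 0 N 0 N) x y ∧ y.2 ≤ 0)
    (a1 : ∃ x y, Adj x v ∧ Conn (Op p w ∩ Par 0 N 0 N) x y ∧ N ≤ y.1)
    (a2 : ∃ x y, Adj x v ∧ Conn (Cl p w ∩ Par 0 N 0 N) x y ∧ N ≤ y.2)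
    (a3 : ∃ x y, Adj x v ∧ Conn (Op p w ∩ Par 0 N 0 N) x y ∧ y.1 ≤ 0) : w ∈ Pvt p N v := by
  obtain ⟨x0, y0, k0, h0, e0⟩ := a0
  obtain ⟨x1, y1, k1, h1, e1⟩ := a1
  obtain ⟨x2, y2, k2, h2, e2⟩ := a2
  obtain ⟨x3, y3, k3, h3, e3⟩ := a3
  have hN : 0 ≤ N := by
    obtain ⟨q1, q2, -, -⟩ := hv
    omega
  have glue : ∀ (S T : Set V) (x y x' y' : V), S ⊆ T → v ∈ T → Adj x v → Adj x' v →
      Conn (S ∩ Par 0 N 0 N) x y → Conn (S ∩ Par 0 N 0 N) x' y' →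
      Conn (T ∩ Par 0 N 0 N) y y' := by
    intro S T x y x' y' hST hvT kx kx' hx hx'
    have s : S ∩ Par 0 N 0 N ⊆ T ∩ Par 0 N 0 N := fun q hq => ⟨hST hq.1, hq.2⟩
    have i1 : Conn (T ∩ Par 0 N 0 N) x v := Conn.of_adj (s hx.left) ⟨hvT, hv⟩ kx
    have i2 : Conn (T ∩ Par 0 N 0 N) v x' := Conn.of_adj ⟨hvT, hv⟩ (s hx'.left) kx'.symm
    exact (hx.mono s).symm.trans (i1.trans (i2.trans (hx'.mono s)))
  refine ⟨?_, fun hph => ?_⟩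
  · exact ⟨y3, e3, y1, e1, glue _ _ _ _ _ _ (subset_union_left) (Or.inr rfl) k3 k1 h3 h1⟩
  · refine par_not (Op p w \ {v}) hN hN ⟨hph, y0, e0, y2, e2,
      glue _ _ _ _ _ _ ?_ (fun h => h.2 rfl) k0 k2 h0 h2⟩
    intro q hq h
    exact absurd (show w q ≤ p from h.1) (not_le.2 hq)

end Pool.Agent.TriPerc
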