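import Pool.Agent.TriPerc.Std

/-!
# Extension and gluing of standard four-arm events

All proofs use `arms_harris1` or `arms_harris`, with corridor events which are intersections of
crossings of colour `alt σ i` in the frame `gf i`; their probability is bounded below by `inc_harris2`,
`prob_frame`, `co_comp`, `rspc`.  `C` is the inverse of the product of the lower bounds.

* `sto_ext`: `P (StO p σ n m) ≤ C P (StO p σ n (2 m))`, `4 ≤ m ≤ N`.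
  `D i = gf i ⁻¹' Par (-(m/4)) (m/4) (-4m) (-m-1)`; these sets are pairwise disjoint, and disjoint from
  `SA 0 n m ∪ BE 1 m j`, `j ≠ i`.  `B i`: in the frame, `PH` of `Par (-(m/4)) (m/4) (-2m) (-m-1)` and `PV` of
  `Par (-(m/4)) (m/4) (-4m) (-m-1)` in the colour `alt σ i`.
  Deterministic part: the arm number `i` goes from a base vertex, `sn ≤ m`, to the row `-2m` inside
  `SA 0 n m ∪ BE 1 m i`; the part after the last visit of `SA 0 n m` (`Conn.last`) starts in the row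
  `-m-1` and is in the box, so it is a `PV` crossing of `Par (-(m/4)) (m/4) (-2m) (-m-1)` and meets the
  `PH` crossing; the long `PV` crossing contains a crossing of this box too (`pv_sub`) and meets the same
  `PH` crossing (`ph_meet_pv` gives for the path `K` of the crossing: every crossing path meets `K`; work
  with finite connected sets, `Conn.finset`).  So the base vertex is joined to the row `-4m` in
  `SA 0 n m ∪ Par (-(m/4)) (m/4) (-4m) (-m-1) ⊆ SA 0 n (2m) ∪ BE 1 (2m) i`.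
* `sti_ext`: `P (StI p σ (2 n) m) ≤ C P (StI p σ n m)`, `2 ≤ n`, `2 n ≤ m`.  The same with
  `D i = gf i ⁻¹' Par (-(n/4)) (n/4) (-2n+1) (-(n/2))` (disjoint since `n / 4 < n / 2`), `B i`: `PH` of
  `Par (-(n/4)) (n/4) (-2n+1) (-n)` and `PV` of `Par (-(n/8)) (n/8) (-2n+1) (-(n/2))`.  The arm crosses the
  first box from the row `-2n+1` to the row `-n`.
* `st_glue`: `P (StO p σ n l ∩ StI p σ (8 l) m) ≤ C P {w | Fr (Op p w) 0 n m}` for `1 ≤ n ≤ l`, `4 ≤ l`,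
  `8 l ≤ m`, `8 l ≤ N`.
  `D i = gf i ⁻¹' Par (-l) l (-8l+1) (-l-1)`: pairwise disjoint, disjoint from `SA 0 n l ∪ BE 1 l j` and from
  `SA 0 (8l) m ∪ BE (-1) (8l) j` for `j ≠ i`.  `B i`: `PH` of `Par (-(l/4)) (l/4) (-2l) (-l-1)`, `PV` of
  `Par (-(l/4)) (l/4) (-8l+1) (-l-1)` and `PH` of `Par (-l) l (-8l+1) (-4l)`.
  The outer arm crosses the first box, the inner arm crosses
  `Par (-l) l (-8l+1) (-4l)` (this is the box `BE (-1) (8l) i` in the frame), and the `PV` crossing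
  crosses both (`pv_sub`).  So the base vertex of the outer arm (adjacent to `Sq 0 (n - 1)`) is joined
  in the colour `alt σ i` to the base vertex `x i ∈ Rg 0 m` of the inner arm, inside `SA 0 n m`.  The
  keys of the `x i` are separated: `fr_of_sep` (and `co_not`, `fr_compl`).
-/

namespace Pool.Agent.TriPerc

open MeasureTheory

private theorem pmm {A B : Set Lab} (h : P A ≤ P B) : (P A).toReal ≤ (P B).toReal :=
  ENNReal.toReal_mono (measure_ne_top P B) h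

private theorem pmm2 {x : ENNReal} {B : Set Lab} (h : x ≤ P B) : x.toReal ≤ (P B).toReal :=
  ENNReal.toReal_mono (measure_ne_top P B) h

/-- horizontal crossing in a frame -/
private def EH (g : V ≃ V) (τ : Bool) (p : ℝ) (l r b t : ℤ) : Set Lab :=
  {w | PH (g ⁻¹' Co τ p w) l r b t}

/-- vertical crossing in a frame -/
private def EV (g : V ≃ V) (τ : Bool) (p : ℝ) (l r b t : ℤ) : Set Lab :=
  {w | PV (g ⁻¹' Co τ p w) l r b t}

private theorem ev_gen {D : Set V} (hD : D.Finite) {g : V ≃ V} {τ : Bool} {p : ℝ}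
    {l r b t : ℤ} (hs : ∀ v ∈ Par l r b t, g v ∈ D) :
    Ev D (EH g τ p l r b t) ∧ Ev D (EV g τ p l r b t) := by
  have e : ∀ w, g ⁻¹' (Co τ p w ∩ D) ∩ Par l r b t = g ⁻¹' Co τ p w ∩ Par l r b t := by
    intro w
    ext v
    constructor
    · rintro ⟨⟨h1, h2⟩, h3⟩
      exact ⟨h1, h3⟩
    · rintro ⟨h1, h3⟩
      exact ⟨⟨h1, hs v h3⟩, h3⟩
  constructor
  · have h := ev_co hD τ p (fun T => PH (g ⁻¹' T) l r b t)
    have e1 : {w : Lab | PH (g ⁻¹' (Co τ p w ∩ D)) l r b t} = EH g τ p l r b t := by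
      ext w
      change Join (g ⁻¹' (Co τ p w ∩ D) ∩ Par l r b t) _ _ ↔
        Join (g ⁻¹' Co τ p w ∩ Par l r b t) _ _
      rw [e w]
    rwa [e1] at h
  · have h := ev_co hD τ p (fun T => PV (g ⁻¹' T) l r b t)
    have e1 : {w : Lab | PV (g ⁻¹' (Co τ p w ∩ D)) l r b t} = EV g τ p l r b t := by
      ext w
      change Join (g ⁻¹' (Co τ p w ∩ D) ∩ Par l r b t) _ _ ↔
        Join (g ⁻¹' Co τ p w ∩ Par l r b t) _ _
      rw [e w]
    rwa [e1] at h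

private theorem inc_gen {g : V ≃ V} {τ : Bool} {p : ℝ} {l r b t : ℤ} :
    Inc τ (EH g τ p l r b t) ∧ Inc τ (EV g τ p l r b t) :=
  ⟨inc_co τ p (fun T => PH (g ⁻¹' T) l r b t)
    fun _ _ hST h => phs_mono (Set.preimage_mono hST) h,
   inc_co τ p (fun T => PV (g ⁻¹' T) l r b t)
    fun _ _ hST h => pvs_mono (Set.preimage_mono hST) h⟩

private theorem prob_gen {g : V ≃ V} {τ : Bool} {p : ℝ} {l r b t : ℤ} :
    P (EH g τ p l r b t) = P {w | PH (Co τ p w) l r b t} ∧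
      P (EV g τ p l r b t) = P {w | PV (Co τ p w) l r b t} := by
  have h0 := ev_gen (finite_par l r b t) (g := Equiv.refl V) (τ := τ) (p := p) (l := l) (r := r)
    (b := b) (t := t) (fun v hv => hv)
  have h1 : MeasurableSet {w | PH (Co τ p w) l r b t} := h0.1.1
  have h2 : MeasurableSet {w | PV (Co τ p w) l r b t} := h0.2.1
  constructor
  · rw [← prob_frame g h1]
    congr 1
    ext w
    change PH (g ⁻¹' Co τ p w) l r b t ↔ PH (Co τ p fun v => w (g v)) l r b t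
    rw [co_comp]
  · rw [← prob_frame g h2]
    congr 1
    ext w
    change PV (g ⁻¹' Co τ p w) l r b t ↔ PV (Co τ p fun v => w (g v)) l r b t
    rw [co_comp]

private theorem low_ex (c : ℝ) (hc : 0 < c) (K : ℤ) (hK : 1 ≤ K) : ∃ c' : ℝ, 0 < c' ∧
    ∀ (p : ℝ) (N : ℤ), Rsw c p N → 1 ≤ N → ∀ (g : V ≃ V) (τ : Bool) (l r b t : ℤ),
    l ≤ r → b ≤ t →
    (t - b ≤ N → r - l ≤ K * (t - b + 1) → c' ≤ (P (EH g τ p l r b t)).toReal) ∧
    (r - l ≤ N → t - b ≤ K * (r - l + 1) → c' ≤ (P (EV g τ p l r b t)).toReal) := by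
  obtain ⟨c', hc', -, h⟩ := rspc c hc K hK
  refine ⟨c', hc', fun p N hR hN g τ l r b t hlr hbt => ⟨fun h1 h2 => ?_, fun h1 h2 => ?_⟩⟩
  · have h3 := (h p N hR hN (t - b) (by omega) h1 τ l b (r - l) (by omega) h2).1
    rw [prob_gen.1]
    have e1 : l + (r - l) = r := by ring
    have e2 : b + (t - b) = t := by ring
    rw [e1, e2] at h3
    exact h3
  · have h3 := (h p N hR hN (r - l) (by omega) h1 τ l b (t - b) (by omega) h2).2
    rw [prob_gen.2]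
    have e1 : l + (r - l) = r := by ring
    have e2 : b + (t - b) = t := by ring
    rw [e1, e2] at h3
    exact h3

private theorem two_low {D : Set V} (hD : D.Finite) {τ : Bool} {A B : Set Lab}
    (eA : Ev D A) (eB : Ev D B) (mA : Inc τ A) (mB : Inc τ B) {a b : ℝ} (hb : 0 ≤ b)
    (hA : a ≤ (P A).toReal) (hB : b ≤ (P B).toReal) : a * b ≤ (P (A ∩ B)).toReal := by
  have h2 : (P A * P B).toReal ≤ (P (A ∩ B)).toReal :=
    pmm2 (inc_harris2 hD eA eB mA mB)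
  rw [ENNReal.toReal_mul] at h2
  exact (mul_le_mul hA hB hb ENNReal.toReal_nonneg).trans h2

private theorem four_low {A A' : Set Lab} {B : Fin 4 → Set Lab} {κ : ℝ} (hκ : 0 < κ)
    (hB : ∀ i, κ ≤ (P (B i)).toReal) (hh : P A * ∏ i, P (B i) ≤ P (A ∩ ⋂ i, B i))
    (hsub : A ∩ ⋂ i, B i ⊆ A') : (P A).toReal ≤ 1 / κ ^ 4 * (P A').toReal := by
  have h1 : (P A * ∏ i, P (B i)).toReal ≤ (P A').toReal := pmm2 (hh.trans (measure_mono hsub))
  rw [ENNReal.toReal_mul, ENNReal.toReal_prod] at h1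
  have h2 : κ ^ 4 ≤ ∏ i, (P (B i)).toReal := by
    calc κ ^ 4 = ∏ _i : Fin 4, κ := by simp
      _ ≤ _ := Finset.prod_le_prod (fun _ _ => hκ.le) (fun i _ => hB i)
  have h3 : (P A).toReal * κ ^ 4 ≤ (P A').toReal :=
    (mul_le_mul_of_nonneg_left h2 ENNReal.toReal_nonneg).trans h1
  rw [one_div, ← div_eq_inv_mul, le_div_iff₀ (by positivity)]
  exact h3

private theorem sn_le' {v : V} {m : ℤ} :
    sn v ≤ m ↔ -m ≤ v.1 ∧ v.1 ≤ m ∧ -m ≤ v.2 ∧ v.2 ≤ m := by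
  unfold sn
  rw [max_le_iff, abs_le, abs_le]
  tauto

private theorem le_sn' {v : V} {m : ℤ} :
    m ≤ sn v ↔ m ≤ v.1 ∨ m ≤ -v.1 ∨ m ≤ v.2 ∨ m ≤ -v.2 := by
  unfold sn
  rw [le_max_iff, le_abs, le_abs]
  tauto

private theorem mem_sa' {v : V} {n m : ℤ} : v ∈ SA 0 n m ↔ n ≤ sn v ∧ sn v ≤ m := by
  change n ≤ sn (v - 0) ∧ sn (v - 0) ≤ m ↔ _
  rw [sub_zero]

private theorem sn_gf {k : ℕ} (hk : k < 4) (v : V) : sn (gf k v) = sn v := by
  have h := gf_sn hk v 0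
  rw [gf_zero hk, sub_zero, sub_zero] at h
  exact h

private theorem adj_box {x y : V} (h : Adj x y) : x.1 - 1 ≤ y.1 ∧ y.1 ≤ x.1 + 1 ∧
    x.2 - 1 ≤ y.2 ∧ y.2 ≤ x.2 + 1 := by
  unfold Adj at h
  omega

private theorem be1 (q : ℤ) (i : ℕ) :
    BE 1 q i = {v | gf i v ∈ Par (-(q / 4)) (q / 4) (-(2 * q)) (-q - 1)} := by
  unfold BE
  simp

private theorem be2 (q : ℤ) (i : ℕ) :
    BE (-1) q i = {v | gf i v ∈ Par (-(q / 8)) (q / 8) (-q + 1) (-(q / 2))} := by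
  unfold BE
  have h : ¬ ((-1 : ℤ) = 1) := by norm_num
  simp only [h, if_false]

private theorem en1 (q : ℤ) : en 1 q = -(2 * q) := by
  unfold en
  simp

private theorem en2 (q : ℤ) : en (-1) q = -(q / 2) := by
  unfold en
  have h : ¬ ((-1 : ℤ) = 1) := by norm_num
  simp only [h, if_false]

private theorem mem_fr {k : ℕ} (hk : k < 4) {X : Set V} {v : V} (h : v ∈ X) :
    gf k v ∈ {u | gf k u ∈ X} := by
  change gf k (gf k v) ∈ X
  rwa [gf_invol hk]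

private theorem arm_frame {k : ℕ} (hk : k < 4) {S X : Set V} {n m : ℤ} {a b : V}
    (h : Conn (S ∩ (SA 0 n m ∪ {v | gf k v ∈ X})) a b) :
    Conn (gf k ⁻¹' S ∩ (SA 0 n m ∪ X)) (gf k a) (gf k b) := by
  have h1 : Conn (gf k ⁻¹' (S ∩ (SA 0 n m ∪ {v | gf k v ∈ X}))) (gf k a) (gf k b) := by
    rw [conn_preimage (gf_aut hk), gf_invol hk, gf_invol hk]
    exact h
  refine h1.mono ?_
  rintro v ⟨h2, h3⟩
  refine ⟨h2, h3.imp (fun h4 => ?_) (fun h4 => ?_)⟩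
  · rw [mem_sa', sn_gf hk] at h4
    exact mem_sa'.2 h4
  · have h5 : gf k (gf k v) ∈ X := h4
    rwa [gf_invol hk] at h5

private theorem arm_back {k : ℕ} (hk : k < 4) {S X : Set V} {n m : ℤ} {a b : V}
    (h : Conn (gf k ⁻¹' S ∩ (SA 0 n m ∪ X)) a b) :
    Conn (S ∩ (SA 0 n m ∪ {v | gf k v ∈ X})) (gf k a) (gf k b) := by
  rw [← conn_preimage (gf_aut hk)]
  refine h.mono ?_
  rintro v ⟨h2, h3⟩
  refine ⟨h2, h3.imp (fun h4 => ?_) (fun h4 => ?_)⟩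
  · rw [mem_sa', sn_gf hk]
    exact mem_sa'.1 h4
  · change gf k (gf k v) ∈ X
    rwa [gf_invol hk]

private theorem join_box {S : Set V} {l r b t l' r' b' t' : ℤ} {a x y y' : V}
    (hP : Conn (S ∩ Par l r b t) a x) (ha : (a.2 ≤ b ∧ t ≤ x.2) ∨ (t ≤ a.2 ∧ x.2 ≤ b))
    (hH : PH S l r b t) (hV : Conn (S ∩ Par l' r' b' t') y y') (hy : y.2 ≤ b')
    (hy' : t' ≤ y'.2) (hl : l ≤ l') (hr : r' ≤ r) (hb : b' ≤ b) (ht : t ≤ t') (hbt : b ≤ t) :
    Conn (S ∩ (Par l r b t ∪ Par l' r' b' t')) y x := by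
  obtain ⟨u, hu, u', hu', hH⟩ := hH
  obtain ⟨KH, kh1, kh2, kh3, kh4⟩ := hH.finset
  obtain ⟨KP, kp1, kp2, kp3, kp4⟩ := hP.finset
  obtain ⟨KV, kv1, kv2, kv3, kv4⟩ := hV.finset
  have pH : PH (KH : Set V) l r b t :=
    ⟨u, hu, u', hu', (kh4 u kh2 u' kh3).mono fun v hv => ⟨hv, (kh1 hv).2⟩⟩
  have pP : PV (KP : Set V) l r b t := by
    rcases ha with h | h
    · exact ⟨a, h.1, x, h.2, (kp4 a kp2 x kp3).mono fun v hv => ⟨hv, (kp1 hv).2⟩⟩
    · exact ⟨x, h.2, a, h.1, (kp4 x kp3 a kp2).mono fun v hv => ⟨hv, (kp1 hv).2⟩⟩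
  have pV : PV (KV : Set V) l r b t := pv_sub hb ht hbt hl hr
    ⟨y, hy, y', hy', (kv4 y kv2 y' kv3).mono fun v hv => ⟨hv, (kv1 hv).2⟩⟩
  obtain ⟨z1, h1, -, h2, -⟩ := ph_meet_pv pH pP
  obtain ⟨z2, h3, -, h4, -⟩ := ph_meet_pv pH pV
  have mm : ∀ {T A : Set V} {z : V}, Join (T ∩ Par l r b t) A {z} → z ∈ T := by
    rintro T A z ⟨u, -, v, hv, hc⟩
    have h5 : v = z := hv
    subst h5
    exact hc.right.1
  have c1 := (kv4 y kv2 z2 (mm h4)).mono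
    (T := S ∩ (Par l r b t ∪ Par l' r' b' t')) fun v hv => ⟨(kv1 hv).1, Or.inr (kv1 hv).2⟩
  have c2 := (kh4 z2 (mm h3) z1 (mm h1)).mono
    (T := S ∩ (Par l r b t ∪ Par l' r' b' t')) fun v hv => ⟨(kh1 hv).1, Or.inl (kh1 hv).2⟩
  have c3 := (kp4 z1 (mm h2) x kp3).mono
    (T := S ∩ (Par l r b t ∪ Par l' r' b' t')) fun v hv => ⟨(kp1 hv).1, Or.inl (kp1 hv).2⟩
  exact c1.trans (c2.trans c3)

private theorem out_exit {S : Set V} {n m : ℤ} {a b : V} (hm : 4 ≤ m)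
    (h : Conn (S ∩ (SA 0 n m ∪ Par (-(m / 4)) (m / 4) (-(2 * m)) (-m - 1))) a b)
    (ha : a ∈ Par (-(m / 4)) (m / 4) (-(2 * m)) (-m - 1)) (hb : sn b ≤ m) :
    ∃ x, -m - 1 ≤ x.2 ∧ Conn (S ∩ Par (-(m / 4)) (m / 4) (-(2 * m)) (-m - 1)) a x ∧
      Conn (S ∩ (SA 0 n m ∪ Par (-(m / 4)) (m / 4) (-(2 * m)) (-m - 1))) x b := by
  have hb' : b ∉ Par (-(m / 4)) (m / 4) (-(2 * m)) (-m - 1) := by
    rintro ⟨-, -, -, h4⟩
    have := sn_le'.1 hb
    omega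
  obtain ⟨x, y, hx, hy, hxy, h1, h2⟩ := h.exit ha hb'
  have hyS : y ∈ SA 0 n m := by
    rcases h2.left.2 with h3 | h3
    · exact h3
    · exact absurd h3 hy
  have h3 := sn_le'.1 (mem_sa'.1 hyS).2
  have h4 := adj_box hxy
  refine ⟨x, by omega, h1.mono fun v hv => ⟨hv.1.1, hv.2⟩, ?_⟩
  exact (Conn.of_adj h1.right.1 h2.left hxy).trans h2

private theorem in_exit {S : Set V} {q m : ℤ} {a b : V} (hq : 2 ≤ q)
    (h : Conn (S ∩ (SA 0 q m ∪ Par (-(q / 8)) (q / 8) (-q + 1) (-(q / 2)))) a b)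
    (ha : a ∈ Par (-(q / 8)) (q / 8) (-q + 1) (-(q / 2))) (hb : q ≤ sn b) :
    ∃ x, x.2 ≤ -q + 1 ∧ Conn (S ∩ Par (-(q / 8)) (q / 8) (-q + 1) (-(q / 2))) a x ∧
      Conn (S ∩ (SA 0 q m ∪ Par (-(q / 8)) (q / 8) (-q + 1) (-(q / 2)))) x b := by
  have hb' : b ∉ Par (-(q / 8)) (q / 8) (-q + 1) (-(q / 2)) := by
    rintro ⟨h1, h2, h3, h4⟩
    have := le_sn'.1 hb
    omega
  obtain ⟨x, y, hx, hy, hxy, h1, h2⟩ := h.exit ha hb'
  have hyS : y ∈ SA 0 q m := by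
    rcases h2.left.2 with h3 | h3
    · exact h3
    · exact absurd h3 hy
  have h3 := le_sn'.1 (mem_sa'.1 hyS).1
  have h4 := adj_box hxy
  have hx' := hx
  obtain ⟨x1, x2, x3, x4⟩ := hx'
  refine ⟨x, by omega, h1.mono fun v hv => ⟨hv.1.1, hv.2⟩, ?_⟩
  exact (Conn.of_adj h1.right.1 h2.left hxy).trans h2

/-- the corridor sets -/
private def DD' (A β α : ℤ) (i : Fin 4) : Set V := {v | gf (i : ℕ) v ∈ Par (-A) A (-β) (-α)}

private theorem dd_fin (A β α : ℤ) (i : Fin 4) : (DD' A β α i).Finite :=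
  (finite_par (-A) A (-β) (-α)).preimage (gf (i : ℕ)).injective.injOn

private theorem dd_sn {A β α : ℤ} {i : Fin 4} (_h0 : 0 ≤ A) (h1 : A < α) {v : V}
    (hv : v ∈ DD' A β α i) : α ≤ sn v ∧ sn v ≤ β := by
  obtain ⟨v1, v2, v3, v4⟩ : gf (i : ℕ) v ∈ Par (-A) A (-β) (-α) := hv
  rw [← sn_gf i.2 v]
  constructor
  · rw [le_sn']
    omega
  · rw [sn_le']
    omega

private theorem gf_cases (i : Fin 4) (v : V) :
    ((i : ℕ) = 0 ∧ gf (i : ℕ) v = v) ∨ ((i : ℕ) = 1 ∧ gf (i : ℕ) v = (-v.2, -v.1)) ∨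
    ((i : ℕ) = 2 ∧ gf (i : ℕ) v = (-v.1, -v.2)) ∨ ((i : ℕ) = 3 ∧ gf (i : ℕ) v = (v.2, v.1)) := by
  have h := i.2
  have h' : (i : ℕ) = 0 ∨ (i : ℕ) = 1 ∨ (i : ℕ) = 2 ∨ (i : ℕ) = 3 := by omega
  rcases h' with h | h | h | h
  · rw [h]
    exact Or.inl ⟨rfl, rfl⟩
  · rw [h]
    exact Or.inr (Or.inl ⟨rfl, rfl⟩)
  · rw [h]
    exact Or.inr (Or.inr (Or.inl ⟨rfl, rfl⟩))
  · rw [h]
    exact Or.inr (Or.inr (Or.inr ⟨rfl, rfl⟩))

private theorem dd_disj {A β α : ℤ} (_h0 : 0 ≤ A) (h1 : A < α) (i j : Fin 4) (hij : i ≠ j) :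
    Disjoint (DD' A β α i) (DD' A β α j) := by
  rw [Set.disjoint_left]
  intro v hi hj
  have hij' : (i : ℕ) ≠ (j : ℕ) := fun h => hij (Fin.ext h)
  obtain ⟨a1, a2, a3, a4⟩ : gf (i : ℕ) v ∈ Par (-A) A (-β) (-α) := hi
  obtain ⟨b1, b2, b3, b4⟩ : gf (j : ℕ) v ∈ Par (-A) A (-β) (-α) := hj
  rcases gf_cases i v with ⟨ci, hi⟩ | ⟨ci, hi⟩ | ⟨ci, hi⟩ | ⟨ci, hi⟩ <;>
  rcases gf_cases j v with ⟨cj, hj⟩ | ⟨cj, hj⟩ | ⟨cj, hj⟩ | ⟨cj, hj⟩ <;>
  first
  | exact hij' (ci.trans cj.symm)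
  | (rw [hi] at a1 a2 a3 a4
     rw [hj] at b1 b2 b3 b4
     simp only at a1 a2 a3 a4 b1 b2 b3 b4
     omega)

private theorem dd_sa {A β α n m : ℤ} (h0 : 0 ≤ A) (h1 : A < α) (h : m < α ∨ β < n)
    (i : Fin 4) : Disjoint (DD' A β α i) (SA 0 n m) := by
  rw [Set.disjoint_left]
  intro v hv hv'
  have h2 := dd_sn h0 h1 hv
  have h3 := mem_sa'.1 hv'
  omega

private theorem sb_disj {A β α n m : ℤ} (h0 : 0 ≤ A) (h1 : A < α) (h : m < α ∨ β < n)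
    {X : Fin 4 → Set V} (hX : ∀ i, X i ⊆ DD' A β α i) (i j : Fin 4) (hij : i ≠ j) :
    Disjoint (DD' A β α i) (SA 0 n m ∪ X j) := by
  rw [Set.disjoint_union_right]
  exact ⟨dd_sa h0 h1 h i, (dd_disj h0 h1 i j hij).mono_right (hX j)⟩

private theorem fin_reg (ε q n m : ℤ) (i : Fin 4) : (SA 0 n m ∪ BE ε q (i : ℕ)).Finite :=
  (finite_sa 0 n m).union (finite_be ε q i.2)

private theorem base_sn {n : ℤ} {y : Fin 4 → V} (h : BaseO n y) (i : Fin 4) : sn (y i) ≤ n := by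
  obtain ⟨x, hx, ha⟩ := h i
  have hx' : sn (x - 0) ≤ n - 1 := hx
  rw [sub_zero] at hx'
  have h1 := sn_le'.1 hx'
  have h2 := adj_box ha
  rw [sn_le']
  omega

private theorem rg_sn {m : ℤ} {v : V} (h : v ∈ Rg 0 m) : sn v = m := by
  have h1 : sn (v - 0) = m := h
  rwa [sub_zero] at h1

/-- one arm of `sto_ext` in the frame -/
private theorem out_arm {S : Set V} {n m : ℤ} {a b : V} (hm : 4 ≤ m) (hnm : n ≤ m)
    (h : Conn (S ∩ (SA 0 n m ∪ Par (-(m / 4)) (m / 4) (-(2 * m)) (-m - 1))) a b)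
    (ha : a ∈ Par (-(m / 4)) (m / 4) (-(2 * m)) (-m - 1)) (ha2 : a.2 = -(2 * m))
    (hb : sn b ≤ m) (hH : PH S (-(m / 4)) (m / 4) (-(2 * m)) (-m - 1))
    (hV : PV S (-(m / 4)) (m / 4) (-(4 * m)) (-m - 1)) :
    ∃ a', a' ∈ Par (-(2 * m / 4)) (2 * m / 4) (-(2 * (2 * m))) (-(2 * m) - 1) ∧
      a'.2 = -(2 * (2 * m)) ∧ Conn (S ∩ (SA 0 n (2 * m) ∪
        Par (-(2 * m / 4)) (2 * m / 4) (-(2 * (2 * m))) (-(2 * m) - 1))) a' b := by
  obtain ⟨x, hx, h1, h2⟩ := out_exit hm h ha hb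
  obtain ⟨y, hy, y', hy', hV⟩ := hV
  have h3 := join_box h1 (Or.inl ⟨ha2.le, hx⟩) hH hV hy hy' le_rfl le_rfl (by omega) le_rfl
    (by omega)
  have hyP : y ∈ Par (-(m / 4)) (m / 4) (-(4 * m)) (-m - 1) := hV.left.2
  have hy0 : y.2 ≤ -(4 * m) := hy
  obtain ⟨y1, y2, y3, y4⟩ := id hyP
  have sub1 : ∀ v, v ∈ Par (-(m / 4)) (m / 4) (-(4 * m)) (-m - 1) → v ∈ SA 0 n (2 * m) ∪
      Par (-(2 * m / 4)) (2 * m / 4) (-(2 * (2 * m))) (-(2 * m) - 1) := by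
    rintro v ⟨v1, v2, v3, v4⟩
    by_cases hv : v.2 ≤ -(2 * m) - 1
    · exact Or.inr ⟨by omega, by omega, by omega, hv⟩
    · left
      rw [mem_sa', le_sn', sn_le']
      omega
  have sub2 : ∀ v, v ∈ SA 0 n m ∪ Par (-(m / 4)) (m / 4) (-(2 * m)) (-m - 1) →
      v ∈ SA 0 n (2 * m) ∪
      Par (-(2 * m / 4)) (2 * m / 4) (-(2 * (2 * m))) (-(2 * m) - 1) := by
    rintro v (hv | ⟨v1, v2, v3, v4⟩)
    · left
      rw [mem_sa'] at hv ⊢
      omega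
    · exact sub1 v ⟨v1, v2, by omega, v4⟩
  refine ⟨y, ⟨by omega, by omega, by omega, by omega⟩, by omega, ?_⟩
  refine (h3.mono (T := S ∩ (SA 0 n (2 * m) ∪
    Par (-(2 * m / 4)) (2 * m / 4) (-(2 * (2 * m))) (-(2 * m) - 1)))
    fun v hv => ⟨hv.1, ?_⟩).trans (h2.mono fun v hv => ⟨hv.1, sub2 v hv.2⟩)
  rcases hv.2 with h4 | h4
  · exact sub2 v (Or.inr h4)
  · exact sub1 v h4

/-- one arm of `sti_ext` in the frame -/
private theorem in_arm {S : Set V} {n m : ℤ} {a b : V} (hn : 2 ≤ n) (hnm : 2 * n ≤ m)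
    (h : Conn (S ∩ (SA 0 (2 * n) m ∪
      Par (-(2 * n / 8)) (2 * n / 8) (-(2 * n) + 1) (-(2 * n / 2)))) a b)
    (ha : a ∈ Par (-(2 * n / 8)) (2 * n / 8) (-(2 * n) + 1) (-(2 * n / 2)))
    (ha2 : a.2 = -(2 * n / 2)) (hb : 2 * n ≤ sn b)
    (hH : PH S (-(n / 4)) (n / 4) (-(2 * n) + 1) (-n))
    (hV : PV S (-(n / 8)) (n / 8) (-(2 * n) + 1) (-(n / 2))) :
    ∃ a', a' ∈ Par (-(n / 8)) (n / 8) (-n + 1) (-(n / 2)) ∧
      a'.2 = -(n / 2) ∧ Conn (S ∩ (SA 0 n m ∪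
        Par (-(n / 8)) (n / 8) (-n + 1) (-(n / 2)))) a' b := by
  have e1 : 2 * n / 8 = n / 4 := by omega
  have e2 : 2 * n / 2 = n := by omega
  obtain ⟨x, hx, h1, h2⟩ := in_exit (by omega) h ha hb
  rw [e1, e2] at h1 h2
  rw [e2] at ha2
  obtain ⟨y, hy, y', hy', hV⟩ := hV
  have h3 := join_box h1 (Or.inr ⟨ha2.ge, hx⟩) hH hV hy hy' (by omega) (by omega) le_rfl
    (by omega) (by omega)
  have hyP : y' ∈ Par (-(n / 8)) (n / 8) (-(2 * n) + 1) (-(n / 2)) := hV.right.2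
  have hy0 : -(n / 2) ≤ y'.2 := hy'
  obtain ⟨y1, y2, y3, y4⟩ := id hyP
  have sub1 : ∀ v, v ∈ Par (-(n / 8)) (n / 8) (-(2 * n) + 1) (-(n / 2)) → v ∈ SA 0 n m ∪
      Par (-(n / 8)) (n / 8) (-n + 1) (-(n / 2)) := by
    rintro v ⟨v1, v2, v3, v4⟩
    by_cases hv : -n + 1 ≤ v.2
    · exact Or.inr ⟨by omega, by omega, hv, v4⟩
    · left
      rw [mem_sa', le_sn', sn_le']
      omega
  have sub2 : ∀ v, v ∈ SA 0 (2 * n) m ∪ Par (-(n / 4)) (n / 4) (-(2 * n) + 1) (-n) →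
      v ∈ SA 0 n m ∪ Par (-(n / 8)) (n / 8) (-n + 1) (-(n / 2)) := by
    rintro v (hv | ⟨v1, v2, v3, v4⟩)
    · left
      rw [mem_sa'] at hv ⊢
      omega
    · left
      rw [mem_sa', le_sn', sn_le']
      omega
  refine ⟨y', ⟨by omega, by omega, by omega, by omega⟩, by omega, ?_⟩
  refine ((hV.symm.mono (T := S ∩ (SA 0 n m ∪
    Par (-(n / 8)) (n / 8) (-n + 1) (-(n / 2)))) fun v hv => ⟨hv.1, sub1 v hv.2⟩).trans
    (h3.mono fun v hv => ⟨hv.1, ?_⟩)).trans (h2.mono fun v hv => ⟨hv.1, sub2 v hv.2⟩)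
  rcases hv.2 with h4 | h4
  · exact sub2 v (Or.inr h4)
  · exact sub1 v h4

theorem sto_ext (c : ℝ) (hc : 0 < c) : ∃ C : ℝ, 0 < C ∧ ∀ (p : ℝ) (N : ℤ), Rsw c p N →
    ∀ (n m : ℤ) (σ : Bool), 1 ≤ n → n ≤ m → 4 ≤ m → m ≤ N →
    (P (StO p σ n m)).toReal ≤ C * (P (StO p σ n (2 * m))).toReal := by
  obtain ⟨c', hc', hlow⟩ := low_ex c hc 32 (by norm_num)
  refine ⟨1 / (c' * c') ^ 4, by positivity, fun p N hR n m σ hn hnm hm hN => ?_⟩
  have hN1 : 1 ≤ N := by omega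
  have hsub : ∀ i : Fin 4, BE 1 m (i : ℕ) ⊆ DD' (m / 4) (4 * m) (m + 1) i := by
    intro i v hv
    rw [be1] at hv
    obtain ⟨v1, v2, v3, v4⟩ : gf (i : ℕ) v ∈ Par _ _ _ _ := hv
    exact ⟨v1, v2, by omega, by omega⟩
  have par1 : ∀ (i : Fin 4) (v : V), v ∈ Par (-(m / 4)) (m / 4) (-(4 * m)) (-m - 1) →
      gf (i : ℕ) v ∈ DD' (m / 4) (4 * m) (m + 1) i := by
    rintro i v ⟨v1, v2, v3, v4⟩
    exact mem_fr i.2 ⟨v1, v2, by omega, by omega⟩
  have evs : ∀ i : Fin 4, Ev (DD' (m / 4) (4 * m) (m + 1) i)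
      (EH (gf (i : ℕ)) (alt σ i) p (-(m / 4)) (m / 4) (-(2 * m)) (-m - 1)) := fun i =>
    (ev_gen (dd_fin _ _ _ i) fun v hv => par1 i v ⟨hv.1, hv.2.1, by
      have := hv.2.2.1
      omega, hv.2.2.2⟩).1
  have evs' : ∀ i : Fin 4, Ev (DD' (m / 4) (4 * m) (m + 1) i)
      (EV (gf (i : ℕ)) (alt σ i) p (-(m / 4)) (m / 4) (-(4 * m)) (-m - 1)) := fun i =>
    (ev_gen (dd_fin _ _ _ i) (par1 i)).2
  have hA := arms_harris1 (σ := alt σ) (p := p) (R := fun i => SA 0 n m ∪ BE 1 m (i : ℕ))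
    (D := DD' (m / 4) (4 * m) (m + 1))
    (Γ := fun z => BaseO n (fun i => (z i).2) ∧
      ∀ i : Fin 4, (z i).1 ∈ BE 1 m (i : ℕ) ∧ (gf (i : ℕ) (z i).1).2 = en 1 m)
    (B := fun i => EH (gf (i : ℕ)) (alt σ i) p (-(m / 4)) (m / 4) (-(2 * m)) (-m - 1) ∩
      EV (gf (i : ℕ)) (alt σ i) p (-(m / 4)) (m / 4) (-(4 * m)) (-m - 1))
    (fun i => fin_reg 1 m n m i) (fun i => dd_fin _ _ _ i)
    (fun i j hij => dd_disj (by omega) (by omega) i j hij)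
    (fun i j hij => sb_disj (by omega) (by omega) (Or.inl (by omega)) hsub i j hij)
    (fun i => (evs i).inter (evs' i)) (fun i => inc_inter inc_gen.1 inc_gen.2)
  refine four_low (κ := c' * c') (by positivity) (fun i => ?_) hA ?_
  · refine two_low (dd_fin _ _ _ i) (evs i) (evs' i) inc_gen.1 inc_gen.2 hc'.le ?_ ?_
    · exact (hlow p N hR hN1 _ _ _ _ _ _ (by omega) (by omega)).1 (by omega) (by omega)
    · exact (hlow p N hR hN1 _ _ _ _ _ _ (by omega) (by omega)).2 (by omega) (by omega)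
  · rintro w ⟨⟨z, ⟨hB, hz⟩, hcn⟩, hw⟩
    have key : ∀ i : Fin 4, ∃ a', a' ∈ BE 1 (2 * m) (i : ℕ) ∧
        (gf (i : ℕ) a').2 = en 1 (2 * m) ∧
        Conn (Co (alt σ i) p w ∩ (SA 0 n (2 * m) ∪ BE 1 (2 * m) (i : ℕ))) a' (z i).2 := by
      intro i
      have h1 := hcn i
      have h2 := (hz i).1
      have h3 := (hz i).2
      have hw1 := (Set.mem_iInter.1 hw i).1
      have hw2 := (Set.mem_iInter.1 hw i).2
      simp only [be1] at h1 h2
      rw [en1] at h3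
      have hb : sn (gf (i : ℕ) (z i).2) ≤ m := by
        rw [sn_gf i.2]
        exact (base_sn hB i).trans hnm
      obtain ⟨a', k1, k2, k3⟩ := out_arm hm hnm (arm_frame i.2 h1) h2 h3 hb hw1 hw2
      have k4 := arm_back i.2 k3
      rw [gf_invol i.2] at k4
      refine ⟨gf (i : ℕ) a', ?_, ?_, ?_⟩
      · rw [be1]
        exact mem_fr i.2 k1
      · rw [gf_invol i.2, en1]
        exact k2
      · rw [be1]
        exact k4
    choose a' h1 h2 h3 using key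
    exact ⟨fun i => (a' i, (z i).2), ⟨hB, fun i => ⟨h1 i, h2 i⟩⟩, h3⟩

theorem sti_ext (c : ℝ) (hc : 0 < c) : ∃ C : ℝ, 0 < C ∧ ∀ (p : ℝ) (N : ℤ), Rsw c p N →
    ∀ (n m : ℤ) (σ : Bool), 2 ≤ n → 2 * n ≤ m → n ≤ N →
    (P (StI p σ (2 * n) m)).toReal ≤ C * (P (StI p σ n m)).toReal := by
  obtain ⟨c', hc', hlow⟩ := low_ex c hc 32 (by norm_num)
  refine ⟨1 / (c' * c') ^ 4, by positivity, fun p N hR n m σ hn hnm hN => ?_⟩
  have hN1 : 1 ≤ N := by omega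
  have hsub : ∀ i : Fin 4, BE (-1) (2 * n) (i : ℕ) ⊆ DD' (n / 4) (2 * n - 1) (n / 2) i := by
    intro i v hv
    rw [be2] at hv
    obtain ⟨v1, v2, v3, v4⟩ : gf (i : ℕ) v ∈ Par _ _ _ _ := hv
    exact ⟨by omega, by omega, by omega, by omega⟩
  have par1 : ∀ (i : Fin 4) (v : V), v ∈ Par (-(n / 4)) (n / 4) (-(2 * n) + 1) (-(n / 2)) →
      gf (i : ℕ) v ∈ DD' (n / 4) (2 * n - 1) (n / 2) i := by
    rintro i v ⟨v1, v2, v3, v4⟩
    exact mem_fr i.2 ⟨v1, v2, by omega, by omega⟩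
  have evs : ∀ i : Fin 4, Ev (DD' (n / 4) (2 * n - 1) (n / 2) i)
      (EH (gf (i : ℕ)) (alt σ i) p (-(n / 4)) (n / 4) (-(2 * n) + 1) (-n)) := fun i =>
    (ev_gen (dd_fin _ _ _ i) fun v hv => par1 i v ⟨hv.1, hv.2.1, hv.2.2.1, by
      have := hv.2.2.2
      omega⟩).1
  have evs' : ∀ i : Fin 4, Ev (DD' (n / 4) (2 * n - 1) (n / 2) i)
      (EV (gf (i : ℕ)) (alt σ i) p (-(n / 8)) (n / 8) (-(2 * n) + 1) (-(n / 2))) := fun i =>
    (ev_gen (dd_fin _ _ _ i) fun v hv => par1 i v ⟨by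
      have := hv.1
      omega, by
      have := hv.2.1
      omega, hv.2.2.1, hv.2.2.2⟩).2
  have hA := arms_harris1 (σ := alt σ) (p := p)
    (R := fun i => SA 0 (2 * n) m ∪ BE (-1) (2 * n) (i : ℕ))
    (D := DD' (n / 4) (2 * n - 1) (n / 2))
    (Γ := fun z => BaseI m (fun i => (z i).2) ∧
      ∀ i : Fin 4, (z i).1 ∈ BE (-1) (2 * n) (i : ℕ) ∧
        (gf (i : ℕ) (z i).1).2 = en (-1) (2 * n))
    (B := fun i => EH (gf (i : ℕ)) (alt σ i) p (-(n / 4)) (n / 4) (-(2 * n) + 1) (-n) ∩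
      EV (gf (i : ℕ)) (alt σ i) p (-(n / 8)) (n / 8) (-(2 * n) + 1) (-(n / 2)))
    (fun i => fin_reg (-1) (2 * n) (2 * n) m i) (fun i => dd_fin _ _ _ i)
    (fun i j hij => dd_disj (by omega) (by omega) i j hij)
    (fun i j hij => sb_disj (by omega) (by omega) (Or.inr (by omega)) hsub i j hij)
    (fun i => (evs i).inter (evs' i)) (fun i => inc_inter inc_gen.1 inc_gen.2)
  refine four_low (κ := c' * c') (by positivity) (fun i => ?_) hA ?_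
  · refine two_low (dd_fin _ _ _ i) (evs i) (evs' i) inc_gen.1 inc_gen.2 hc'.le ?_ ?_
    · exact (hlow p N hR hN1 _ _ _ _ _ _ (by omega) (by omega)).1 (by omega) (by omega)
    · exact (hlow p N hR hN1 _ _ _ _ _ _ (by omega) (by omega)).2 (by omega) (by omega)
  · rintro w ⟨⟨z, ⟨hB, hz⟩, hcn⟩, hw⟩
    have key : ∀ i : Fin 4, ∃ a', a' ∈ BE (-1) n (i : ℕ) ∧
        (gf (i : ℕ) a').2 = en (-1) n ∧
        Conn (Co (alt σ i) p w ∩ (SA 0 n m ∪ BE (-1) n (i : ℕ))) a' (z i).2 := by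
      intro i
      have h1 := hcn i
      have h2 := (hz i).1
      have h3 := (hz i).2
      have hw1 := (Set.mem_iInter.1 hw i).1
      have hw2 := (Set.mem_iInter.1 hw i).2
      simp only [be2] at h1 h2
      rw [en2] at h3
      have hb : 2 * n ≤ sn (gf (i : ℕ) (z i).2) := by
        rw [sn_gf i.2, rg_sn (hB.1 i)]
        exact hnm
      obtain ⟨a', k1, k2, k3⟩ := in_arm hn hnm (arm_frame i.2 h1) h2 h3 hb hw1 hw2
      have k4 := arm_back i.2 k3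
      rw [gf_invol i.2] at k4
      refine ⟨gf (i : ℕ) a', ?_, ?_, ?_⟩
      · rw [be2]
        exact mem_fr i.2 k1
      · rw [gf_invol i.2, en2]
        exact k2
      · rw [be2]
        exact k4
    choose a' h1 h2 h3 using key
    exact ⟨fun i => (a' i, (z i).2), ⟨hB, fun i => ⟨h1 i, h2 i⟩⟩, h3⟩

/-- one arm of `st_glue` in the frame -/
private theorem glue_arm {S : Set V} {n l m : ℤ} {a b a2 b2 : V} (hl : 4 ≤ l) (hnl : n ≤ l)
    (hm : 8 * l ≤ m)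
    (h : Conn (S ∩ (SA 0 n l ∪ Par (-(l / 4)) (l / 4) (-(2 * l)) (-l - 1))) a b)
    (ha : a ∈ Par (-(l / 4)) (l / 4) (-(2 * l)) (-l - 1)) (ha2 : a.2 = -(2 * l))
    (hb : sn b ≤ l)
    (h' : Conn (S ∩ (SA 0 (8 * l) m ∪
      Par (-(8 * l / 8)) (8 * l / 8) (-(8 * l) + 1) (-(8 * l / 2)))) a2 b2)
    (ha' : a2 ∈ Par (-(8 * l / 8)) (8 * l / 8) (-(8 * l) + 1) (-(8 * l / 2)))
    (ha2' : a2.2 = -(8 * l / 2)) (hb' : 8 * l ≤ sn b2)
    (hH : PH S (-(l / 4)) (l / 4) (-(2 * l)) (-l - 1))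
    (hV : PV S (-(l / 4)) (l / 4) (-(8 * l) + 1) (-l - 1))
    (hH' : PH S (-l) l (-(8 * l) + 1) (-(4 * l))) :
    Conn (S ∩ SA 0 n m) b2 b := by
  have e1 : 8 * l / 8 = l := by omega
  have e2 : 8 * l / 2 = 4 * l := by omega
  obtain ⟨x, hx, h1, h2⟩ := out_exit hl h ha hb
  obtain ⟨x', hx', h1', h2'⟩ := in_exit (by omega) h' ha' hb'
  rw [e1, e2] at h1' h2'
  rw [e2] at ha2'
  obtain ⟨y, hy, y', hy', hV⟩ := hV
  have h3 := join_box h1 (Or.inl ⟨ha2.le, hx⟩) hH hV hy hy' le_rfl le_rfl (by omega)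
    le_rfl (by omega)
  have h4 := join_box h1' (Or.inr ⟨ha2'.ge, hx'⟩) hH' hV hy hy' (by omega) (by omega) le_rfl
    (by omega) (by omega)
  have sub1 : ∀ v, v ∈ Par (-l) l (-(8 * l) + 1) (-l - 1) → v ∈ SA 0 n m := by
    rintro v ⟨v1, v2, v3, v4⟩
    rw [mem_sa', le_sn', sn_le']
    omega
  have c1 : Conn (S ∩ SA 0 n m) y x := h3.mono fun v hv => ⟨hv.1, sub1 v (by
    rcases hv.2 with ⟨v1, v2, v3, v4⟩ | ⟨v1, v2, v3, v4⟩
    · exact ⟨by omega, by omega, by omega, by omega⟩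
    · exact ⟨by omega, by omega, by omega, by omega⟩)⟩
  have c2 : Conn (S ∩ SA 0 n m) y x' := h4.mono fun v hv => ⟨hv.1, sub1 v (by
    rcases hv.2 with ⟨v1, v2, v3, v4⟩ | ⟨v1, v2, v3, v4⟩
    · exact ⟨by omega, by omega, by omega, by omega⟩
    · exact ⟨by omega, by omega, by omega, by omega⟩)⟩
  have c3 : Conn (S ∩ SA 0 n m) x b := h2.mono fun v hv => ⟨hv.1, by
    rcases hv.2 with h5 | ⟨v1, v2, v3, v4⟩
    · rw [mem_sa'] at h5 ⊢
      omega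
    · exact sub1 v ⟨by omega, by omega, by omega, by omega⟩⟩
  have c4 : Conn (S ∩ SA 0 n m) x' b2 := h2'.mono fun v hv => ⟨hv.1, by
    rcases hv.2 with h5 | ⟨v1, v2, v3, v4⟩
    · rw [mem_sa'] at h5 ⊢
      omega
    · exact sub1 v ⟨by omega, by omega, by omega, by omega⟩⟩
  exact c4.symm.trans (c2.symm.trans (c1.trans c3))

private theorem conn_unframe {k : ℕ} (hk : k < 4) {S : Set V} {n m : ℤ} {a b : V}
    (h : Conn (gf k ⁻¹' S ∩ SA 0 n m) (gf k a) (gf k b)) : Conn (S ∩ SA 0 n m) a b := by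
  have h1 : Conn (gf k ⁻¹' (S ∩ SA 0 n m)) (gf k a) (gf k b) := h.mono fun v hv => ⟨hv.1, by
    have h2 := mem_sa'.1 hv.2
    change gf k v ∈ SA 0 n m
    rw [mem_sa', sn_gf hk]
    exact h2⟩
  rw [conn_preimage (gf_aut hk), gf_invol hk, gf_invol hk] at h1
  exact h1

theorem st_glue (c : ℝ) (hc : 0 < c) : ∃ C : ℝ, 0 < C ∧ ∀ (p : ℝ) (N : ℤ), Rsw c p N →
    ∀ (n l m : ℤ) (σ : Bool), 1 ≤ n → n ≤ l → 4 ≤ l → 8 * l ≤ m → 8 * l ≤ N →
    (P (StO p σ n l ∩ StI p σ (8 * l) m)).toReal ≤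
      C * (P {w | Fr (Op p w) 0 n m}).toReal := by
  obtain ⟨c', hc', hlow⟩ := low_ex c hc 32 (by norm_num)
  refine ⟨1 / (c' * c' * c') ^ 4, by positivity, fun p N hR n l m σ hn hnl hl hm hN => ?_⟩
  have hN1 : 1 ≤ N := by omega
  have hsub : ∀ i : Fin 4, BE 1 l (i : ℕ) ⊆ DD' l (8 * l - 1) (l + 1) i := by
    intro i v hv
    rw [be1] at hv
    obtain ⟨v1, v2, v3, v4⟩ : gf (i : ℕ) v ∈ Par _ _ _ _ := hv
    exact ⟨by omega, by omega, by omega, by omega⟩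
  have hsub' : ∀ i : Fin 4, BE (-1) (8 * l) (i : ℕ) ⊆ DD' l (8 * l - 1) (l + 1) i := by
    intro i v hv
    rw [be2] at hv
    obtain ⟨v1, v2, v3, v4⟩ : gf (i : ℕ) v ∈ Par _ _ _ _ := hv
    exact ⟨by omega, by omega, by omega, by omega⟩
  have par1 : ∀ (i : Fin 4) (v : V), v ∈ Par (-l) l (-(8 * l) + 1) (-l - 1) →
      gf (i : ℕ) v ∈ DD' l (8 * l - 1) (l + 1) i := by
    rintro i v ⟨v1, v2, v3, v4⟩
    exact mem_fr i.2 ⟨v1, v2, by omega, by omega⟩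
  have evs : ∀ i : Fin 4, Ev (DD' l (8 * l - 1) (l + 1) i)
      (EH (gf (i : ℕ)) (alt σ i) p (-(l / 4)) (l / 4) (-(2 * l)) (-l - 1)) := fun i =>
    (ev_gen (dd_fin _ _ _ i) fun v hv => par1 i v (by
      obtain ⟨v1, v2, v3, v4⟩ := hv
      exact ⟨by omega, by omega, by omega, by omega⟩)).1
  have evs' : ∀ i : Fin 4, Ev (DD' l (8 * l - 1) (l + 1) i)
      (EV (gf (i : ℕ)) (alt σ i) p (-(l / 4)) (l / 4) (-(8 * l) + 1) (-l - 1)) := fun i =>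
    (ev_gen (dd_fin _ _ _ i) fun v hv => par1 i v (by
      obtain ⟨v1, v2, v3, v4⟩ := hv
      exact ⟨by omega, by omega, by omega, by omega⟩)).2
  have evs2 : ∀ i : Fin 4, Ev (DD' l (8 * l - 1) (l + 1) i)
      (EH (gf (i : ℕ)) (alt σ i) p (-l) l (-(8 * l) + 1) (-(4 * l))) := fun i =>
    (ev_gen (dd_fin _ _ _ i) fun v hv => par1 i v (by
      obtain ⟨v1, v2, v3, v4⟩ := hv
      exact ⟨by omega, by omega, by omega, by omega⟩)).1
  have hA := arms_harris (σ := alt σ) (p := p) (R := fun i => SA 0 n l ∪ BE 1 l (i : ℕ))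
    (R' := fun i => SA 0 (8 * l) m ∪ BE (-1) (8 * l) (i : ℕ))
    (D := DD' l (8 * l - 1) (l + 1))
    (Γ := fun z => BaseO n (fun i => (z i).2) ∧
      ∀ i : Fin 4, (z i).1 ∈ BE 1 l (i : ℕ) ∧ (gf (i : ℕ) (z i).1).2 = en 1 l)
    (Γ' := fun z => BaseI m (fun i => (z i).2) ∧
      ∀ i : Fin 4, (z i).1 ∈ BE (-1) (8 * l) (i : ℕ) ∧
        (gf (i : ℕ) (z i).1).2 = en (-1) (8 * l))
    (B := fun i => EH (gf (i : ℕ)) (alt σ i) p (-(l / 4)) (l / 4) (-(2 * l)) (-l - 1) ∩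
      EV (gf (i : ℕ)) (alt σ i) p (-(l / 4)) (l / 4) (-(8 * l) + 1) (-l - 1) ∩
      EH (gf (i : ℕ)) (alt σ i) p (-l) l (-(8 * l) + 1) (-(4 * l)))
    (fun i => fin_reg 1 l n l i) (fun i => fin_reg (-1) (8 * l) (8 * l) m i)
    (fun i => dd_fin _ _ _ i)
    (fun i j hij => dd_disj (by omega) (by omega) i j hij)
    (fun i j hij => sb_disj (by omega) (by omega) (Or.inl (by omega)) hsub i j hij)
    (fun i j hij => sb_disj (by omega) (by omega) (Or.inr (by omega)) hsub' i j hij)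
    (fun i => ((evs i).inter (evs' i)).inter (evs2 i))
    (fun i => inc_inter (inc_inter inc_gen.1 inc_gen.2) inc_gen.1)
  refine four_low (κ := c' * c' * c') (by positivity) (fun i => ?_) hA ?_
  · refine two_low (dd_fin _ _ _ i) ((evs i).inter (evs' i)) (evs2 i)
      (inc_inter inc_gen.1 inc_gen.2) inc_gen.1 hc'.le ?_ ?_
    · refine two_low (dd_fin _ _ _ i) (evs i) (evs' i) inc_gen.1 inc_gen.2 hc'.le ?_ ?_
      · exact (hlow p N hR hN1 _ _ _ _ _ _ (by omega) (by omega)).1 (by omega) (by omega)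
      · exact (hlow p N hR hN1 _ _ _ _ _ _ (by omega) (by omega)).2 (by omega) (by omega)
    · exact (hlow p N hR hN1 _ _ _ _ _ _ (by omega) (by omega)).1 (by omega) (by omega)
  · rintro w ⟨⟨⟨z, ⟨hB, hz⟩, hcn⟩, z', ⟨hB', hz'⟩, hcn'⟩, hw⟩
    have key : ∀ i : Fin 4, Ty (Co (alt σ i) p w) 0 n m (z' i).2 := by
      intro i
      have h1 := hcn i
      have h2 := (hz i).1
      have h3 := (hz i).2
      have h1' := hcn' i
      have h2' := (hz' i).1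
      have h3' := (hz' i).2
      have hw1 := (Set.mem_iInter.1 hw i).1.1
      have hw2 := (Set.mem_iInter.1 hw i).1.2
      have hw3 := (Set.mem_iInter.1 hw i).2
      simp only [be1] at h1 h2
      simp only [be2] at h1' h2'
      rw [en1] at h3
      rw [en2] at h3'
      have hb : sn (gf (i : ℕ) (z i).2) ≤ l := by
        rw [sn_gf i.2]
        exact (base_sn hB i).trans hnl
      have hb' : 8 * l ≤ sn (gf (i : ℕ) (z' i).2) := by
        rw [sn_gf i.2, rg_sn (hB'.1 i)]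
        exact hm
      have h4 := glue_arm hl hnl hm (arm_frame i.2 h1) h2 h3 hb (arm_frame i.2 h1') h2' h3'
        hb' hw1 hw2 hw3
      obtain ⟨x, hx, hadj⟩ := hB i
      exact ⟨hB'.1 i, (z i).2, x, hx, hadj, conn_unframe i.2 h4⟩
    have a0 : alt σ 0 = σ := by simp [alt]
    have a1 : alt σ 1 = !σ := by simp [alt]
    have a2 : alt σ 2 = σ := by simp [alt]
    have a3 : alt σ 3 = !σ := by
      unfold alt
      rw [if_neg]
      decide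
    have t0 := key 0
    have t1 := key 1
    have t2 := key 2
    have t3 := key 3
    rw [a0] at t0
    rw [a1, co_not] at t1
    rw [a2] at t2
    rw [a3, co_not] at t3
    have hF : Fr (Co σ p w) 0 n m := fr_of_sep hn (by omega) t0 t1 t2 t3 hB'.2
    change Fr (Op p w) 0 n m
    cases σ
    · have h5 : Co false p w = (Op p w)ᶜ := cl_compl p w
      rw [h5] at hF
      exact (fr_compl hn (by omega)).1 hF
    · exact hF

end Pool.Agent.TriPerc
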