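import Pool.Agent.TriPerc.BadP
import Pool.Agent.TriPerc.Ext
import Pool.Agent.TriPerc.StdE

/-!
# Separation of arms at the outer ring

`ff p n m = P (Fr (Op p w) 0 n m)`, `s j = P (StO p true n (2 ^ j))`.

* `ff_anti`: `ff` decreases when the annulus grows (`fr_sub`).  `ev_fr`: support (`ev_op`).
* `src_fin`: for fixed `κ, M` the number of triples `(k, j, a)` with `Src κ M k j a` is finite
  (`k i < 4`, `|j i| ≤ M`, `a i < κ`).
* `step_out`: with the constants of `badR_prob` for `δ` and `C1 = 2 * (number of sources) * C` (`C` from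
  `ext`): for `q = 2 M u ≤ N`, `1 ≤ n`, `2 n ≤ q`:
  `ff p n q ≤ δ ff p n (q / 2) + C1 P (StO p true n (4 q))`.
  PROOF.  By `land_out` the event `Fr (Op p w) 0 n q` is contained in the union of
  `BadR ∩ Fr (Op p w) 0 n (q / 2)` and of the finitely many events `FA 1 (BaseO n) p σ n q u M k j a` with
  `Src κ M k j a`.  The first one is an intersection of independent events: `ev_badR` (support in
  `sn ≥ q - q / 4 > q / 2`), `ev_fr`, `indep`.  For the others `ext` with `Base = BaseO n`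
  (a vertex adjacent to `Sq 0 (n - 1)` has `sn ≤ n ≤ M u`), `ST 1 (BaseO n) p σ n (4 q) (4 q) = StO ..`,
  `sto_swap`.
* `sep_out`: `ff p n (2 ^ j) ≤ C s (j + 2)` for `n ≤ 2 ^ j`, `2 ^ (j + 2) ≤ N`.
  PROOF.  Let `C0 ≥ 1` be the constant of `sto_ext`, `δ = 1 / (2 C0)`, and `κ, G, D, M = 2 ^ e, C1` from
  `step_out`; `c'` from `sto_low` with `A = 2 ^ (e + 3)`; `C = max (1 / c') (2 C1)`.  Induction on `j`.  If
  `j ≤ e` or `2 ^ j < 2 n`, then `2 ^ (j + 2) ≤ A n` and `s (j + 2) ≥ c'`.  Otherwise let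
  `u = 2 ^ (j - e - 1)`, so `2 M u = 2 ^ j`; `step_out`, the induction hypothesis for `j - 1` and
  `s (j + 1) ≤ C0 s (j + 2)` give `ff ≤ δ C C0 s (j + 2) + C1 s (j + 2) ≤ C s (j + 2)`.
* `sep_out'`: `ff p n k ≤ C P (StO p σ n (2 ^ i))` if `1 ≤ n ≤ k`, `4 k ≤ 2 ^ i ≤ 64 k`, `2 ^ i ≤ N`.
  PROOF.  Let `2 ^ l ≤ k < 2 ^ (l + 1)`.  If `n ≤ 2 ^ l`: `ff p n k ≤ ff p n (2 ^ l) ≤ C s (l + 2)`, and
  `l + 2 ≤ i ≤ l + 6`: apply `sto_ext` at most four times.  If `n > 2 ^ l`: `k < 2 n`, `2 ^ i ≤ 128 n`: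
  `sto_low` with `A = 128`.  `sto_swap` for `σ = false`.
-/

namespace Pool.Agent.TriPerc

open MeasureTheory

/-- The four-arm probability of a square annulus. -/
noncomputable def ff (p : ℝ) (n m : ℤ) : ℝ := (P {w | Fr (Op p w) 0 n m}).toReal

variable {p : ℝ} {n m n' m' : ℤ}

theorem ff_anti (hn : n ≤ n') (hnm : n' ≤ m') (hm : m' ≤ m) : ff p n m ≤ ff p n' m' :=
  ENNReal.toReal_mono (measure_ne_top _ _) (measure_mono fun _ h => fr_sub hn hnm hm h)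

theorem ev_fr (p : ℝ) (n m : ℤ) : Ev (SA 0 n m) {w | Fr (Op p w) 0 n m} := by
  have h1 : ∀ S : Set V, Fr (S ∩ SA 0 n m) 0 n m ↔ Fr S 0 n m := by
    intro S
    unfold Fr Ty
    rw [Set.inter_assoc, Set.inter_self]
  have h2 := ev_op (finite_sa 0 n m) p (fun T => Fr T 0 n m)
  have h3 : {w : Lab | Fr (Op p w ∩ SA 0 n m) 0 n m} = {w | Fr (Op p w) 0 n m} := by
    ext w
    exact h1 _
  rwa [h3] at h2

private theorem ff_le_one (p : ℝ) (n m : ℤ) : ff p n m ≤ 1 := by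
  have h := ENNReal.toReal_mono ENNReal.one_ne_top
    (prob_le_one (μ := P) (s := {w | Fr (Op p w) 0 n m}))
  rwa [ENNReal.toReal_one] at h

private theorem ff_nonneg (p : ℝ) (n m : ℤ) : 0 ≤ ff p n m := ENNReal.toReal_nonneg

theorem src_fin (κ : ℕ) (M : ℤ) :
    {x : (Fin 4 → ℕ) × (Fin 4 → ℤ) × (Fin 4 → ℕ) | Src κ M x.1 x.2.1 x.2.2}.Finite := by
  have h1 : {f : Fin 4 → ℕ | ∀ i, f i ∈ Set.Iio 4}.Finite :=
    Set.Finite.pi' fun _ => Set.finite_Iio 4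
  have h2 : {f : Fin 4 → ℤ | ∀ i, f i ∈ Set.Icc (-M) M}.Finite :=
    Set.Finite.pi' fun _ => Set.finite_Icc _ _
  have h3 : {f : Fin 4 → ℕ | ∀ i, f i ∈ Set.Iio κ}.Finite :=
    Set.Finite.pi' fun _ => Set.finite_Iio κ
  refine (h1.prod (h2.prod h3)).subset ?_
  rintro ⟨k, j, a⟩ hx
  have hx' : Src κ M k j a := hx
  have hD : 0 ≤ DD κ := by
    unfold DD
    positivity
  refine ⟨fun i => (hx'.1 i).1, fun i => ?_, fun i => (hx'.1 i).2.2⟩
  have h4 : |j i| ≤ M := by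
    have := (hx'.1 i).2.1
    omega
  exact abs_le.1 h4

theorem step_out (c : ℝ) (hc : 0 < c) (δ : ℝ) (hδ : 0 < δ) : ∃ (e : ℕ) (C1 : ℝ), 0 < C1 ∧
    ∀ (p : ℝ) (N : ℤ), Rsw c p N → ∀ n u : ℤ, 1 ≤ u → 1 ≤ n → n ≤ 2 ^ e * u →
    2 * 2 ^ e * u ≤ N →
    ff p n (2 * 2 ^ e * u) ≤ δ * ff p n (2 ^ e * u) +
      C1 * (P (StO p true n (4 * (2 * 2 ^ e * u)))).toReal := by
  classical
  obtain ⟨κ, G, D, M, hP, hbad⟩ := badR_prob c hc δ hδ
  obtain ⟨hP1, hP2, hP3, e, rfl⟩ := id hP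
  obtain ⟨C, hC, hext⟩ := ext c hc κ G D (2 ^ e) hP
  have hfin := src_fin κ (2 ^ e)
  refine ⟨e, (2 * (hfin.toFinset.card : ℝ) + 1) * C, by positivity, ?_⟩
  intro p N hR n u hu hn hnu hN
  obtain ⟨q, hq⟩ : ∃ q : ℤ, q = 2 * 2 ^ e * u := ⟨_, rfl⟩
  have hMu : (2 : ℤ) ^ e * u = q / 2 := by
    rw [hq, mul_assoc]
    omega
  have hMu1 : (1 : ℤ) ≤ 2 ^ e * u := by
    have h1 : (1 : ℤ) ≤ 2 ^ e := one_le_pow₀ (by norm_num)
    nlinarith
  obtain ⟨Bd, hBd⟩ : ∃ Bd : Set Lab, Bd = BadR 1 p (2 * 2 ^ e * u) (8 * (G * u)) (G * u)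
    (D * u) (scl u κ) := ⟨_, rfl⟩
  obtain ⟨s4, hs4⟩ : ∃ s4 : ℝ, s4 = (P (StO p true n (4 * (2 * 2 ^ e * u)))).toReal :=
    ⟨_, rfl⟩
  have hs0 : 0 ≤ s4 := by
    rw [hs4]
    exact ENNReal.toReal_nonneg
  have hFA : ∀ (σ : Bool) k j a, Src κ (2 ^ e) k j a →
      (P (FA 1 (BaseO n) p σ n (2 * 2 ^ e * u) u (2 ^ e) k j a)).toReal ≤ C * s4 := by
    intro σ k j a hS
    have h1 := hext p N hR 1 n (2 * 2 ^ e * u) u n (4 * (2 * 2 ^ e * u))
      (4 * (2 * 2 ^ e * u)) hu hN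
      (Or.inl ⟨rfl, rfl, hn, by rw [mul_assoc]; omega, rfl, rfl, rfl⟩) (BaseO n) σ (by
        intro y hy i
        obtain ⟨x, hx, hxy⟩ := hy i
        have hx' : sn (x - 0) ≤ n - 1 := hx
        have h2 := abs_le.1 (sn_adj hxy 0)
        rw [sub_zero] at hx' h2
        rw [sub_zero] at h2
        have h3 : sn (y i) ≤ 2 ^ e * u := by omega
        rw [abs_sub_comm, mul_assoc]
        exact le_trans (by omega) (le_abs_self _)) k j a hS
    have h2 : P (ST 1 (BaseO n) p σ n (4 * (2 * 2 ^ e * u)) (4 * (2 * 2 ^ e * u))) =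
        P (StO p true n (4 * (2 * 2 ^ e * u))) := by
      cases σ
      · exact sto_swap p true n _
      · rfl
    rw [h2, ← hs4] at h1
    exact h1
  have hsub : {w : Lab | Fr (Op p w) 0 n (2 * 2 ^ e * u)} ⊆
      (Bd ∩ {w | Fr (Op p w) 0 n (2 ^ e * u)}) ∪ ⋃ x ∈ hfin.toFinset, ⋃ σ : Bool,
        FA 1 (BaseO n) p σ n (2 * 2 ^ e * u) u (2 ^ e) x.1 x.2.1 x.2.2 := by
    intro w hw
    have hw' : Fr (Op p w) 0 n (2 * 2 ^ e * u) := hw
    by_cases hb : w ∈ Bd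
    · left
      refine ⟨hb, fr_sub le_rfl hnu ?_ hw'⟩
      rw [mul_assoc]
      omega
    · right
      rw [hBd] at hb
      obtain ⟨σ, k, j, a, hS, hF⟩ := land_out hP hu hn (by rw [mul_assoc]; omega) hb hw'
      refine Set.mem_iUnion₂.2 ⟨(k, j, a), (Set.Finite.mem_toFinset hfin).2 hS, ?_⟩
      exact Set.mem_iUnion.2 ⟨σ, hF⟩
  have hind : P (Bd ∩ {w | Fr (Op p w) 0 n (2 ^ e * u)}) =
      P Bd * P {w | Fr (Op p w) 0 n (2 ^ e * u)} := by
    rw [hBd]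
    refine indep (ev_badR (Or.inl rfl) hP hu p) (ev_fr p n (2 ^ e * u)) ?_
    rw [Set.disjoint_left]
    rintro v ⟨h1, -⟩ ⟨-, h2⟩
    rw [mul_assoc] at h1
    omega
  have hb : (P Bd).toReal ≤ δ := by
    rw [hBd]
    exact hbad p N hR 1 u (Or.inl rfl) hu hN
  have h1 : P {w : Lab | Fr (Op p w) 0 n (2 * 2 ^ e * u)} ≤
      P Bd * P {w | Fr (Op p w) 0 n (2 ^ e * u)} + ∑ x ∈ hfin.toFinset, ∑ σ : Bool,
        P (FA 1 (BaseO n) p σ n (2 * 2 ^ e * u) u (2 ^ e) x.1 x.2.1 x.2.2) := by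
    refine (measure_mono hsub).trans ((measure_union_le _ _).trans (add_le_add hind.le ?_))
    refine (measure_biUnion_finset_le _ _).trans (Finset.sum_le_sum fun x _ => ?_)
    have h2 := measure_biUnion_finset_le (μ := P) Finset.univ (fun σ : Bool =>
      FA 1 (BaseO n) p σ n (2 * 2 ^ e * u) u (2 ^ e) x.1 x.2.1 x.2.2)
    refine le_trans (measure_mono ?_) h2
    intro w hw
    obtain ⟨σ, hσ⟩ := Set.mem_iUnion.1 hw
    exact Set.mem_iUnion₂.2 ⟨σ, Finset.mem_univ _, hσ⟩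
  have hne : ∑ x ∈ hfin.toFinset, ∑ σ : Bool,
        P (FA 1 (BaseO n) p σ n (2 * 2 ^ e * u) u (2 ^ e) x.1 x.2.1 x.2.2) ≠ ⊤ :=
    ENNReal.sum_ne_top.2 fun x _ => ENNReal.sum_ne_top.2 fun σ _ => measure_ne_top _ _
  have hne2 : P Bd * P {w | Fr (Op p w) 0 n (2 ^ e * u)} ≠ ⊤ :=
    ENNReal.mul_ne_top (measure_ne_top _ _) (measure_ne_top _ _)
  have h2 := ENNReal.toReal_mono (ENNReal.add_ne_top.2 ⟨hne2, hne⟩) h1
  rw [ENNReal.toReal_add hne2 hne, ENNReal.toReal_mul, ENNReal.toReal_sum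
    (fun x _ => ENNReal.sum_ne_top.2 fun σ _ => measure_ne_top _ _)] at h2
  have h3 : ∑ x ∈ hfin.toFinset, (∑ σ : Bool,
        P (FA 1 (BaseO n) p σ n (2 * 2 ^ e * u) u (2 ^ e) x.1 x.2.1 x.2.2)).toReal ≤
      ∑ _x ∈ hfin.toFinset, 2 * (C * s4) := by
    refine Finset.sum_le_sum fun x hx => ?_
    rw [ENNReal.toReal_sum (fun σ _ => measure_ne_top _ _), Fintype.sum_bool]
    have hx' : Src κ (2 ^ e) x.1 x.2.1 x.2.2 := (Set.Finite.mem_toFinset hfin).1 hx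
    have k1 := hFA true _ _ _ hx'
    have k2 := hFA false _ _ _ hx'
    linarith
  rw [Finset.sum_const, nsmul_eq_mul] at h3
  have h4 : (P Bd).toReal * (P {w | Fr (Op p w) 0 n (2 ^ e * u)}).toReal ≤
      δ * ff p n (2 ^ e * u) := mul_le_mul_of_nonneg_right hb ENNReal.toReal_nonneg
  have h5 : ff p n (2 * 2 ^ e * u) = (P {w : Lab | Fr (Op p w) 0 n (2 * 2 ^ e * u)}).toReal :=
    rfl
  rw [h5, ← hs4]
  have h6 : 0 ≤ C * s4 := mul_nonneg hC.le hs0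
  nlinarith

private theorem so_low {p c' s C : ℝ} {n m : ℤ} (hc' : 0 < c') (h : c' ≤ s) :
    ff p n m ≤ max (1 / c') C * s := by
  have h1 := ff_le_one p n m
  have h2 : 1 ≤ 1 / c' * s := by
    rw [one_div, ← div_eq_inv_mul, le_div_iff₀ hc', one_mul]
    exact h
  have h3 : 1 / c' * s ≤ max (1 / c') C * s :=
    mul_le_mul_of_nonneg_right (le_max_left _ _) (hc'.le.trans h)
  linarith

private theorem so_alg {C0 K C1 C f f' s s' : ℝ} (h0 : C0 ≤ K) (hK : 1 ≤ K) (hC1 : 0 ≤ C1)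
    (hC : 2 * C1 ≤ C) (hs : 0 ≤ s) (h1 : f ≤ 1 / (2 * K) * f' + C1 * s) (h2 : f' ≤ C * s')
    (h3 : s' ≤ C0 * s) : f ≤ C * s := by
  have hC0 : 0 ≤ C := by linarith
  have h4 : s' ≤ K * s := h3.trans (mul_le_mul_of_nonneg_right h0 hs)
  have h5 : f' ≤ C * (K * s) := h2.trans (mul_le_mul_of_nonneg_left h4 hC0)
  have h6 : 1 / (2 * K) * f' ≤ 1 / (2 * K) * (C * (K * s)) :=
    mul_le_mul_of_nonneg_left h5 (by positivity)
  have h7 : 1 / (2 * K) * (C * (K * s)) = C / 2 * s := by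
    have : K ≠ 0 := by linarith
    field_simp
  have h8 : C1 * s ≤ C / 2 * s := mul_le_mul_of_nonneg_right (by linarith) hs
  linarith

theorem sep_out (c : ℝ) (hc : 0 < c) : ∃ C : ℝ, 0 < C ∧ ∀ (p : ℝ) (N : ℤ), Rsw c p N →
    ∀ (n : ℤ) (j : ℕ), 1 ≤ n → n ≤ 2 ^ j → 2 ^ (j + 2) ≤ N →
    ff p n (2 ^ j) ≤ C * (P (StO p true n (2 ^ (j + 2)))).toReal := by
  obtain ⟨C0, hC0, hE⟩ := sto_ext c hc
  have hC1 : (1 : ℝ) ≤ max C0 1 := le_max_right _ _
  obtain ⟨e, C1, hC1', hS⟩ := step_out c hc (1 / (2 * max C0 1)) (by positivity)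
  obtain ⟨c', hc', hL⟩ := sto_low c hc (2 ^ (e + 3)) (one_le_pow₀ (by norm_num))
  refine ⟨max (1 / c') (2 * C1), lt_max_of_lt_left (by positivity), ?_⟩
  intro p N hR n j hn
  induction j with
  | zero =>
    intro hnj hjN
    have h1 : c' ≤ (P (StO p true n (2 ^ (0 + 2)))).toReal := by
      refine hL p N hR n _ true hn ?_ ?_ hjN
      · have : (2 : ℤ) ^ 0 = 1 := rfl
        have : (2 : ℤ) ^ (0 + 2) = 4 := rfl
        omega
      · have h2 : (2 : ℤ) ^ (e + 3) = 2 ^ e * 8 := by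
          rw [pow_add]
          norm_num
        have h3 : (1 : ℤ) ≤ 2 ^ e := one_le_pow₀ (by norm_num)
        have h4 : (2 : ℤ) ^ (0 + 2) = 4 := rfl
        rw [h2, h4]
        nlinarith
    exact so_low hc' h1
  | succ j ih =>
    intro hnj hjN
    have e1 : (2 : ℤ) ^ (j + 1) = 2 * 2 ^ j := by rw [pow_succ]; ring
    have e2 : (2 : ℤ) ^ (j + 1 + 2) = 8 * 2 ^ j := by rw [pow_add, pow_succ]; ring
    have e3 : (2 : ℤ) ^ (j + 2) = 4 * 2 ^ j := by rw [pow_add]; ring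
    have e4 : (1 : ℤ) ≤ 2 ^ j := one_le_pow₀ (by norm_num)
    by_cases hcase : j + 1 ≤ e ∨ (2 : ℤ) ^ (j + 1) < 2 * n
    · have h1 : c' ≤ (P (StO p true n (2 ^ (j + 1 + 2)))).toReal := by
        refine hL p N hR n _ true hn (by omega) ?_ hjN
        have h2 : (2 : ℤ) ^ (e + 3) = 8 * 2 ^ e := by rw [pow_add]; ring
        have h3 : (1 : ℤ) ≤ 2 ^ e := one_le_pow₀ (by norm_num)
        rw [h2]
        rcases hcase with h4 | h4
        · have h5 : (2 : ℤ) ^ (j + 1) ≤ 2 ^ e := pow_le_pow_right₀ (by norm_num) h4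
          nlinarith
        · nlinarith
      exact so_low hc' h1
    · push Not at hcase
      obtain ⟨hje, h2n⟩ := hcase
      obtain ⟨t, ht⟩ : ∃ t, j = e + t := ⟨j - e, by omega⟩
      have e5 : (2 : ℤ) ^ e * 2 ^ t = 2 ^ j := by rw [ht, pow_add]
      have e6 : 2 * (2 : ℤ) ^ e * 2 ^ t = 2 ^ (j + 1) := by rw [mul_assoc, e5, e1]
      have h1 := hS p N hR n (2 ^ t) (one_le_pow₀ (by norm_num)) hn (by rw [e5]; omega)
        (by rw [e6]; omega)
      rw [e5, e6] at h1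
      have e7 : 4 * (2 : ℤ) ^ (j + 1) = 2 ^ (j + 1 + 2) := by rw [e1, e2]; ring
      rw [e7] at h1
      have h2 := ih (by omega) (by omega)
      have h3 := hE p N hR n (2 ^ (j + 2)) true hn (by omega) (by omega) (by omega)
      have e8 : 2 * (2 : ℤ) ^ (j + 2) = 2 ^ (j + 1 + 2) := by rw [e3, e2]; ring
      rw [e8] at h3
      exact so_alg (le_max_left _ _) hC1 hC1'.le (le_max_right _ _) ENNReal.toReal_nonneg
        h1 h2 h3

theorem sep_out' (c : ℝ) (hc : 0 < c) : ∃ C : ℝ, 0 < C ∧ ∀ (p : ℝ) (N : ℤ), Rsw c p N →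
    ∀ (n k : ℤ) (i : ℕ) (σ : Bool), 1 ≤ n → n ≤ k → 4 * k ≤ 2 ^ i → 2 ^ i ≤ 64 * k →
    2 ^ i ≤ N → ff p n k ≤ C * (P (StO p σ n (2 ^ i))).toReal := by
  obtain ⟨C0, hC0, hE⟩ := sto_ext c hc
  obtain ⟨C2, hC2, hS⟩ := sep_out c hc
  obtain ⟨c', hc', hL⟩ := sto_low c hc 128 (by norm_num)
  have hK : (1 : ℝ) ≤ max C0 1 := le_max_right _ _
  refine ⟨max (1 / c') (C2 * max C0 1 ^ 4), lt_max_of_lt_left (by positivity), ?_⟩
  intro p N hR n k i σ hn hnk h4k h64 hiN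
  have hσ : P (StO p σ n (2 ^ i)) = P (StO p true n (2 ^ i)) := by
    cases σ
    · exact sto_swap p true n _
    · rfl
  rw [hσ]
  obtain ⟨l, hl1, hl2⟩ : ∃ l : ℕ, (2 : ℤ) ^ l ≤ k ∧ k < 2 ^ (l + 1) := by
    obtain ⟨K, hKk⟩ := Int.eq_ofNat_of_zero_le (by omega : 0 ≤ k)
    have hK0 : K ≠ 0 := by
      rintro rfl
      have : k = 0 := hKk
      omega
    refine ⟨Nat.log 2 K, ?_, ?_⟩
    · rw [hKk]
      exact_mod_cast Nat.pow_log_le_self 2 hK0
    · rw [hKk]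
      exact_mod_cast Nat.lt_pow_succ_log_self (by norm_num) K
  have e1 : (2 : ℤ) ^ (l + 1) = 2 * 2 ^ l := by rw [pow_succ]; ring
  by_cases hnl : n ≤ 2 ^ l
  · have e2 : (2 : ℤ) ^ (l + 2) = 4 * 2 ^ l := by rw [pow_add]; ring
    have e3 : (2 : ℤ) ^ (l + 7) = 128 * 2 ^ l := by rw [pow_add]; ring
    have h1 : l + 2 ≤ i := by
      by_contra hcon
      have h2 : (2 : ℤ) ^ i ≤ 2 ^ (l + 1) := pow_le_pow_right₀ (by norm_num) (by omega)
      omega
    have h2 : i < l + 7 := by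
      by_contra hcon
      have h3 : (2 : ℤ) ^ (l + 7) ≤ 2 ^ i := pow_le_pow_right₀ (by norm_num) (by omega)
      omega
    have hl0 : (1 : ℤ) ≤ 2 ^ l := one_le_pow₀ (by norm_num)
    have h3 := hS p N hR n l hn hnl (by omega)
    have h4 := ff_anti (p := p) (le_refl n) hnl hl1
    have key : ∀ t : ℕ, (2 : ℤ) ^ (l + 2 + t) ≤ N → (P (StO p true n (2 ^ (l + 2)))).toReal ≤
        max C0 1 ^ t * (P (StO p true n (2 ^ (l + 2 + t)))).toReal := by
      intro t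
      induction t with
      | zero =>
        intro _
        rw [pow_zero, one_mul, Nat.add_zero]
      | succ t ih =>
        intro ht
        have e4 : (2 : ℤ) ^ (l + 2 + (t + 1)) = 2 * 2 ^ (l + 2 + t) := by
          rw [← Nat.add_assoc, pow_succ]
          ring
        have e5 : (2 : ℤ) ^ (l + 2) ≤ 2 ^ (l + 2 + t) :=
          pow_le_pow_right₀ (by norm_num) (by omega)
        have h5 := ih (by omega)
        have h6 := hE p N hR n (2 ^ (l + 2 + t)) true hn (by omega) (by omega) (by omega)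
        rw [← e4] at h6
        have h7 : 0 ≤ (P (StO p true n (2 ^ (l + 2 + (t + 1))))).toReal :=
          ENNReal.toReal_nonneg
        have h8 := h6.trans (mul_le_mul_of_nonneg_right (le_max_left C0 1) h7)
        have h9 : (0 : ℝ) ≤ max C0 1 ^ t := by positivity
        calc (P (StO p true n (2 ^ (l + 2)))).toReal
            ≤ max C0 1 ^ t * (P (StO p true n (2 ^ (l + 2 + t)))).toReal := h5
          _ ≤ max C0 1 ^ t * (max C0 1 *
              (P (StO p true n (2 ^ (l + 2 + (t + 1))))).toReal) :=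
            mul_le_mul_of_nonneg_left h8 h9
          _ = max C0 1 ^ (t + 1) * (P (StO p true n (2 ^ (l + 2 + (t + 1))))).toReal := by
            ring
    have h5 := key (i - (l + 2)) (by rw [Nat.add_sub_cancel' h1]; exact hiN)
    rw [Nat.add_sub_cancel' h1] at h5
    have h6 : max C0 1 ^ (i - (l + 2)) ≤ max C0 1 ^ 4 := pow_le_pow_right₀ hK (by omega)
    have h7 : 0 ≤ (P (StO p true n (2 ^ i))).toReal := ENNReal.toReal_nonneg
    calc ff p n k ≤ C2 * (P (StO p true n (2 ^ (l + 2)))).toReal := h4.trans h3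
      _ ≤ C2 * (max C0 1 ^ 4 * (P (StO p true n (2 ^ i))).toReal) :=
        mul_le_mul_of_nonneg_left (h5.trans (mul_le_mul_of_nonneg_right h6 h7)) hC2.le
      _ = C2 * max C0 1 ^ 4 * (P (StO p true n (2 ^ i))).toReal := by ring
      _ ≤ max (1 / c') (C2 * max C0 1 ^ 4) * (P (StO p true n (2 ^ i))).toReal :=
        mul_le_mul_of_nonneg_right (le_max_right _ _) h7
  · exact so_low hc' (hL p N hR n _ true hn (by omega) (by omega) hiN)

end Pool.Agent.TriPerc
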