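import Pool.Agent.TriPerc.WinRec

/-!
# Stability of circuits: first part

* `circ_drop` (deterministic): `S0 ⊆ S1`, `n + r ≤ n1 ≤ m1`, `m1 + r ≤ m`, `1 ≤ n`, `1 ≤ r`.  Suppose `S1`
  contains a circuit of `Ann z n1 m1` (`¬ Arm S1ᶜ z n1 m1`) and `S0` contains no circuit of
  `Ann z n m` (`Arm S0ᶜ z n m`).  Then there are `u ∈ Ann z n1 m1`, `u ∈ S1`, `u ∉ S0`, and `S'` with
  `S0 ⊆ S' ⊆ S1` and `Four S'ᶜ u 1 r`.
  PROOF.  `circ_set` for `O = S1`: a set `C ⊆ S1 ∩ Ann z n1 m1` such that no path outside `C` goes from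
  `nrm (· - z) ≤ n1` to `m1 ≤ nrm (· - z)`.  `C` is finite.  Among the sets `T ⊆ C` with
  `Arm (S0 ∪ T)ᶜ z n m` (for instance `T = ∅`) let `T` be one with the maximal number of elements, and
  `S = S0 ∪ T`.  `T ≠ C`, since `(S0 ∪ C)ᶜ ⊆ Cᶜ` has no arm across `Ann z n m`.  Let `u ∈ C \ T`.  By
  maximality there is no arm of `(S ∪ {u})ᶜ` across `Ann z n m`; hence `u ∉ S` (in particular
  `u ∉ S0`).  Let `x ~ y` be an arm of `Sᶜ` across `Ann z n m` (`nrm (x - z) ≤ n`,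
  `m ≤ nrm (y - z)`), `A = Ann z n m`, `T' = (S ∪ {u})ᶜ`.  `x ≠ u ≠ y` (norms), so `x, y ∈ T' ∩ A`,
  and they are not joined in `T' ∩ A`.  `Conn.exit` for the path `x ~ y` in `Sᶜ ∩ A` and the set
  `comp (T' ∩ A) x`: there is `x1` in this component, adjacent to a vertex of `Sᶜ ∩ A` outside
  it, which is `u` (`comp_adj`).  The same from `y`: `y1 ∈ comp (T' ∩ A) y` is adjacent to `u`.
  `four_of_conn` for `T'`, `D = A`, the centre `u`, radii `1`, `r`: `nrm (x1 - u) = 1 = nrm (y1 - u)`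
  (`≤ 1` by `nrm_adj`), `nrm (x - u) ≥ nrm (u - z) - n ≥ r`, `nrm (y - u) ≥ m - m1 ≥ r`,
  `Ann u 1 r ⊆ A`, `x1`, `y1` are not joined in `T' ∩ A`.  So `Four T' u 1 r`; `S' = S ∪ {u}`.
* `mixed_cl`: for `a ≤ b`, `2 ≤ r`: the set `{w | ∃ S', Op a w ⊆ S' ∧ S' ⊆ Op b w ∧ Four S'ᶜ u 1 r}` is
  contained, up to a null set, in `{w | (fun v => 1 - w v) ∈ MxG (1 - b) (1 - a) u 1 r}`: for `w`
  without a label equal to `a` or `b` (`ae_label`): `Op (1 - b) (1 - w) = Cl b w ⊆ S'ᶜ` and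
  `S'ᶜ ⊆ Cl a w = Op (1 - a) (1 - w)`; `mxg_of_set`.
* `circ_stab`: for `0 ≤ a ≤ b ≤ 1`, `2 ≤ r`, `n + r ≤ n1 ≤ m1`, `m1 + r ≤ m`, `1 ≤ n`:
  `P {¬ Arm (Cl b w) 0 n1 m1} ≤ P {¬ Arm (Cl a w) 0 n m} + 20 m1 ^ 2 (b - a) yf (1 - b) (1 - a) 1 r`.
  PROOF.  `circ_drop` with `S0 = Op a w`, `S1 = Op b w` (`S0ᶜ = Cl a w`, `cl_compl`), union bound over
  `u ∈ Ann 0 n1 m1` (at most `13 m1 ^ 2` vertices: `card_sph`), independence of the label of `u` and
  of the labels in `Ann u 1 r` (`unif_Ioc`, `ev_mxg`, `indep`; the event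
  `{w | (1 - w) ∈ MxG ..}` is an event of `Ann u 1 r`), `mp_flip`, `mxg_tr`.
-/

namespace Pool.Agent.TriPerc

open MeasureTheory Set

variable {S0 S1 : Set V} {z u : V} {n n1 m1 m r : ℤ} {a b : ℝ}

theorem circ_drop (h01 : S0 ⊆ S1) (hn : 1 ≤ n) (hr : 1 ≤ r) (h1 : n + r ≤ n1) (h2 : n1 ≤ m1)
    (h3 : m1 + r ≤ m) (hS1 : ¬ Arm S1ᶜ z n1 m1) (hS0 : Arm S0ᶜ z n m) :
    ∃ u S', u ∈ Ann z n1 m1 ∧ u ∈ S1 ∧ u ∉ S0 ∧ S0 ⊆ S' ∧ S' ⊆ S1 ∧ Four S'ᶜ u 1 r := by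
  classical
  obtain ⟨C, hC, -, -, hsep⟩ := circ_set (by omega) h2 hS1
  have hCf : C.Finite := (finite_ann z n1 m1).subset fun v hv => (hC hv).2
  obtain ⟨T, hT, hmax⟩ := Finset.exists_max_image
    (hCf.toFinset.powerset.filter fun T : Finset V => Arm (S0 ∪ (T : Set V))ᶜ z n m) Finset.card
    ⟨∅, by simpa using hS0⟩
  rw [Finset.mem_filter, Finset.mem_powerset] at hT
  obtain ⟨hTC, x, hx, y, hy, hxy⟩ := hT
  have hTC' : ∀ v ∈ T, v ∈ C := fun v hv => hCf.mem_toFinset.1 (hTC hv)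
  have hx' : nrm (x - z) ≤ n := hx
  have hy' : m ≤ nrm (y - z) := hy
  obtain ⟨u, huC, huT⟩ : ∃ u ∈ C, u ∉ T := by
    by_contra hcon
    push Not at hcon
    refine hsep x y (by omega) (by omega) (hxy.mono ?_)
    rintro v ⟨hv, -⟩ hvC
    exact hv (Or.inr (hcon v hvC))
  have hno : ¬ Arm (S0 ∪ ((insert u T : Finset V) : Set V))ᶜ z n m := by
    intro h
    have h4 := hmax (insert u T) (by
      rw [Finset.mem_filter, Finset.mem_powerset]
      refine ⟨fun v hv => ?_, h⟩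
      rcases Finset.mem_insert.1 hv with rfl | hv
      · exact hCf.mem_toFinset.2 huC
      · exact hTC hv)
    rw [Finset.card_insert_of_notMem huT] at h4
    omega
  have hu0 : u ∉ S0 := by
    intro h
    apply hno
    refine ⟨x, hx, y, hy, hxy.mono ?_⟩
    rintro v ⟨hv, hv2⟩
    refine ⟨fun h5 => hv ?_, hv2⟩
    rcases h5 with h5 | h5
    · exact Or.inl h5
    · rw [Finset.mem_coe, Finset.mem_insert] at h5
      rcases h5 with rfl | h5
      · exact Or.inl h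
      · exact Or.inr h5
  obtain ⟨hu1, hu2, hu3⟩ := hC huC
  set A := Ann z n m with hA
  set T' := (S0 ∪ ((insert u T : Finset V) : Set V))ᶜ with hT'
  have hmemT' : ∀ v, v ∈ (S0 ∪ (T : Set V))ᶜ → v ≠ u → v ∈ T' := by
    rintro v hv hvu (h5 | h5)
    · exact hv (Or.inl h5)
    · rw [Finset.mem_coe, Finset.mem_insert] at h5
      rcases h5 with h5 | h5
      · exact hvu h5
      · exact hv (Or.inr h5)
  have hxu : x ≠ u := by
    rintro rfl
    omega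
  have hyu : y ≠ u := by
    rintro rfl
    omega
  have hxT : x ∈ T' ∩ A := ⟨hmemT' x hxy.left.1 hxu, hxy.left.2⟩
  have hyT : y ∈ T' ∩ A := ⟨hmemT' y hxy.right.1 hyu, hxy.right.2⟩
  have hnxy : ¬ Conn (T' ∩ A) x y := fun h => hno ⟨x, hx, y, hy, h⟩
  have key : ∀ x y : V, x ∈ T' ∩ A → ¬ Conn (T' ∩ A) x y →
      Conn ((S0 ∪ (T : Set V))ᶜ ∩ A) x y → ∃ x1, Conn (T' ∩ A) x x1 ∧ Adj x1 u := by
    intro x y hxT hnxy hxy
    obtain ⟨x1, x2, k1, k2, k3, k4, k5⟩ := hxy.exit (A := comp (T' ∩ A) x) (Conn.refl hxT) hnxy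
    refine ⟨x1, k1, ?_⟩
    have k6 : x2 = u := by
      by_contra hne
      apply k2
      exact comp_adj k1 ⟨hmemT' x2 k5.left.1 hne, k5.left.2⟩ k3
    rwa [k6] at k3
  obtain ⟨x1, hx1, hx1u⟩ := key x y hxT hnxy hxy
  obtain ⟨y1, hy1, hy1u⟩ := key y x hyT (fun h => hnxy h.symm) hxy.symm
  have h0 : nrm (u - u) = 0 := by
    rw [sub_self]
    exact nrm_zero_iff.2 rfl
  have hn1 : ∀ v, Adj v u → nrm (v - u) ≤ 1 := by
    intro v hv
    have h5 := nrm_adj hv.symm u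
    rw [h0, abs_le] at h5
    omega
  have htri : ∀ v : V, nrm (u - z) ≤ nrm (v - z) + nrm (v - u) ∧
      nrm (v - z) ≤ nrm (u - z) + nrm (v - u) := by
    intro v
    have h5 := nrm_add (v - z) (u - v)
    have h6 := nrm_add (v - u) (u - z)
    rw [show v - z + (u - v) = u - z by abel] at h5
    rw [show v - u + (u - z) = v - z by abel] at h6
    rw [show nrm (u - v) = nrm (v - u) by rw [← nrm_neg, neg_sub]] at h5
    constructor <;> omega
  have hfour : Four T' u 1 r := by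
    refine four_of_conn hx1.symm hy1.symm (fun h => hnxy (hx1.trans (h.trans hy1.symm)))
      (hn1 x1 hx1u) ?_ (hn1 y1 hy1u) ?_ hr (fun w hw => ?_)
    · have := (htri x).1
      omega
    · have := (htri y).2
      omega
    · obtain ⟨w1, w2⟩ := hw
      have := htri w
      exact ⟨by omega, by omega⟩
  refine ⟨u, S0 ∪ ((insert u T : Finset V) : Set V), ⟨hu2, hu3⟩, hu1, hu0,
    Set.subset_union_left, ?_, hfour⟩
  rintro v (hv | hv)
  · exact h01 hv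
  · rw [Finset.mem_coe, Finset.mem_insert] at hv
    rcases hv with rfl | hv
    · exact hu1
    · exact (hC (hTC' v hv)).1

/-- The event at the vertex `u`. -/
private def Ev8 (a b : ℝ) (r : ℤ) (u : V) : Set Lab :=
  {w : Lab | a < w u ∧ w u ≤ b} ∩ (fun w : Lab => fun v => 1 - w v) ⁻¹' MxG (1 - b) (1 - a) u 1 r

private theorem pr_ev8 (ha : 0 ≤ a) (hab : a ≤ b) (hb : b ≤ 1) (u : V) :
    (P (Ev8 a b r u)).toReal = (b - a) * yf (1 - b) (1 - a) 1 r := by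
  have hab' : 1 - b ≤ 1 - a := by linarith
  have e1 := (unif_Ioc ha hab hb u).1
  have e2 := ev_mxg hab' u 1 r
  have e3 : Ev (Ann u 1 r)
      ((fun w : Lab => fun v => 1 - w v) ⁻¹' MxG (1 - b) (1 - a) u 1 r) := by
    refine ⟨mp_flip.measurable e2.1, fun w w' h hw => e2.2 _ _ (fun v hv => ?_) hw⟩
    change 1 - w v = 1 - w' v
    rw [h v hv]
  have hd : Disjoint ({u} : Set V) (Ann u 1 r) := by
    rw [Set.disjoint_left]
    rintro x hx ⟨h2, -⟩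
    rw [Set.mem_singleton_iff] at hx
    subst hx
    rw [sub_self, nrm_zero_iff.2 rfl] at h2
    omega
  unfold Ev8
  rw [indep e1 e3 hd, ENNReal.toReal_mul, (unif_Ioc ha hab hb u).2,
    mp_flip.measure_preimage e2.1.nullMeasurableSet, mxg_tr]
  rfl

theorem circ_stab (ha : 0 ≤ a) (hab : a ≤ b) (hb : b ≤ 1) (hn : 1 ≤ n) (hr : 2 ≤ r)
    (h1 : n + r ≤ n1) (h2 : n1 ≤ m1) (h3 : m1 + r ≤ m) :
    (P {w | ¬ Arm (Cl b w) 0 n1 m1}).toReal ≤ (P {w | ¬ Arm (Cl a w) 0 n m}).toReal +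
      20 * (m1 : ℝ) ^ 2 * (b - a) * yf (1 - b) (1 - a) 1 r := by
  have hS : ∀ d : ℤ, ∃ s : Finset V, 1 ≤ d → (∀ v, v ∈ s ↔ nrm v = d) ∧
      (s.card : ℝ) ≤ 12 * d := by
    intro d
    by_cases hd : 1 ≤ d
    · obtain ⟨s, hs⟩ := card_sph d hd
      exact ⟨s, fun _ => hs⟩
    · exact ⟨∅, fun h => absurd h hd⟩
  choose S hS using hS
  have hsub : {w : Lab | ¬ Arm (Cl b w) 0 n1 m1} ≤ᵐ[P]
      ({w : Lab | ¬ Arm (Cl a w) 0 n m} ∪
        ⋃ d ∈ Finset.Icc n1 m1, ⋃ u ∈ S d, Ev8 a b r u : Set Lab) := by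
    filter_upwards [ae_label b] with w hw hw1
    have hw1' : ¬ Arm (Cl b w) 0 n1 m1 := hw1
    by_cases h5 : Arm (Cl a w) 0 n m
    · refine Or.inr ?_
      rw [cl_compl] at hw1' h5
      obtain ⟨u, S', k1, k2, k3, k4, k5, k6⟩ := circ_drop (S0 := Op a w) (S1 := Op b w)
        (fun v (hv : w v ≤ a) => le_trans hv hab) hn (by omega) h1 h2 h3 hw1' h5
      have k2' : w u ≤ b := k2
      have k3' : ¬ w u ≤ a := k3
      have hu1 : n1 ≤ nrm u := by have := k1.1; rwa [sub_zero] at this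
      have hu2 : nrm u ≤ m1 := by have := k1.2; rwa [sub_zero] at this
      rw [Set.mem_iUnion₂]
      refine ⟨nrm u, Finset.mem_Icc.2 ⟨hu1, hu2⟩, ?_⟩
      rw [Set.mem_iUnion₂]
      refine ⟨u, ((hS (nrm u) (by omega)).1 u).2 rfl, ⟨not_le.1 k3', k2'⟩, ?_⟩
      refine mxg_of_set (S := S'ᶜ) (by omega) ?_ ?_ k6
      · intro v hv hvS
        have hv1 : 1 - w v ≤ 1 - b := hv
        have hv2 : w v ≤ b := k5 hvS
        exact (hw.1 v).2.2 (by linarith)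
      · intro v hv
        have hv1 : ¬ w v ≤ a := fun h => hv (k4 h)
        change 1 - w v ≤ 1 - a
        linarith [not_le.1 hv1]
    · exact Or.inl h5
  have hr' : (P {w | ¬ Arm (Cl b w) 0 n1 m1}).toReal ≤ (P {w | ¬ Arm (Cl a w) 0 n m}).toReal +
      ∑ d ∈ Finset.Icc n1 m1, ∑ u ∈ S d, (P (Ev8 a b r u)).toReal := by
    have k1 : (P {w | ¬ Arm (Cl b w) 0 n1 m1}).toReal ≤ (P ({w : Lab | ¬ Arm (Cl a w) 0 n m} ∪
        ⋃ d ∈ Finset.Icc n1 m1, ⋃ u ∈ S d, Ev8 a b r u)).toReal :=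
      ENNReal.toReal_mono (measure_ne_top P _) (measure_mono_ae hsub)
    refine k1.trans ((measureReal_union_le _ _).trans (add_le_add le_rfl ?_))
    refine (measureReal_biUnion_finset_le _ _).trans (Finset.sum_le_sum fun d _ => ?_)
    exact measureReal_biUnion_finset_le _ _
  refine hr'.trans (add_le_add le_rfl ?_)
  have hy : 0 ≤ (b - a) * yf (1 - b) (1 - a) 1 r := mul_nonneg (sub_nonneg.2 hab) yf_nonneg
  have hm1 : (0 : ℝ) ≤ m1 := by exact_mod_cast (by omega : (0 : ℤ) ≤ m1)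
  have hterm : ∀ d ∈ Finset.Icc n1 m1, ∑ u ∈ S d, (P (Ev8 a b r u)).toReal ≤
      12 * (m1 : ℝ) * ((b - a) * yf (1 - b) (1 - a) 1 r) := by
    intro d hd
    rw [Finset.mem_Icc] at hd
    rw [Finset.sum_congr rfl fun u _ => pr_ev8 ha hab hb u, Finset.sum_const, nsmul_eq_mul]
    refine mul_le_mul_of_nonneg_right (((hS d (by omega)).2).trans ?_) hy
    have : (d : ℝ) ≤ m1 := by exact_mod_cast hd.2
    linarith
  refine (Finset.sum_le_sum hterm).trans ?_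
  rw [Finset.sum_const, nsmul_eq_mul]
  have hc : ((Finset.Icc n1 m1).card : ℝ) ≤ m1 := by
    rw [Int.card_Icc]
    have : (((m1 + 1 - n1).toNat : ℤ) : ℝ) ≤ (m1 : ℝ) := by
      rw [Int.toNat_of_nonneg (by omega)]
      exact_mod_cast (by omega : m1 + 1 - n1 ≤ m1)
    exact_mod_cast this
  have h12 : 0 ≤ 12 * (m1 : ℝ) * ((b - a) * yf (1 - b) (1 - a) 1 r) :=
    mul_nonneg (by linarith) hy
  calc ((Finset.Icc n1 m1).card : ℝ) * (12 * (m1 : ℝ) * ((b - a) * yf (1 - b) (1 - a) 1 r))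
      ≤ (m1 : ℝ) * (12 * (m1 : ℝ) * ((b - a) * yf (1 - b) (1 - a) 1 r)) :=
        mul_le_mul_of_nonneg_right hc h12
    _ = 12 * ((m1 : ℝ) ^ 2 * ((b - a) * yf (1 - b) (1 - a) 1 r)) := by ring
    _ ≤ 20 * ((m1 : ℝ) ^ 2 * ((b - a) * yf (1 - b) (1 - a) 1 r)) := by
        refine mul_le_mul_of_nonneg_right (by norm_num) (mul_nonneg (sq_nonneg _) hy)
    _ = _ := by ring

end Pool.Agent.TriPerc
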