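import Pool.Agent.TriPerc.RswC

/-!
# From circuits to `Rsw`

* `circ_meet` (deterministic): let `C` be a connected set which separates in `Ann z (8 s) (11 s)`
  (`C ⊆ Ann z (8 s) (11 s)`, no path outside `C` from `nrm (· - z) ≤ 8 s` to `11 s ≤ nrm (· - z)`), and
  let `C'` be the same for `z' = z + (4 s, 0)`, `1 ≤ s`.  Then `C ∩ C'` is not empty.  PROOF.  The
  straight path `z + (t, 0)`, `0 ≤ t ≤ 11 s`, meets `C` at some `t ≥ 8 s`: a vertex `x` with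
  `nrm (x - z') = |t - 4 s| ≤ 7 s`.  The path `z - (t, 0)` meets `C` at some `t ≥ 8 s`: a vertex `y`
  with `nrm (y - z') = t + 4 s ≥ 12 s`.  `x ~ y` in `C`, so `C` meets `C'` (`circ_hit` for `C'`).
* `chain`: let `1 ≤ s`, `z_i = z + (4 s i, 0)`, `i = 0..k`, and suppose that `S` contains a circuit of
  every `Ann z_i (8 s) (11 s)` (`¬ Arm Sᶜ z_i (8 s) (11 s)`).  Then there are `u`, `v` joined in
  `S ∩ {x | |x.2 - z.2| ≤ 11 s}` with `X u ≤ X z - 16 s`, `X z + 8 s k + 16 s ≤ X v`.  PROOF.  Separating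
  sets `C_i ⊆ S` (`circ_set`); the union is connected (`circ_meet`, `IsConn.union`, induction); `C_0`
  meets the path `z - (t, 0)` at `t ≥ 8 s`, `C_k` meets `z_k + (t, 0)` at `t ≥ 8 s`; `X (t, 0) = 2 t`;
  rows: `|x.2 - z.2| ≤ nrm (x - z_i) ≤ 11 s`.
* `circ_rsw`: for every `c > 0` there is `c' > 0` such that for `1 / 4 ≤ p ≤ 3 / 4`, `1 ≤ N`: if for all
  `1 ≤ s ≤ N` the probabilities of `¬ Arm (Cl p w) 0 (8 s) (11 s)` and of
  `¬ Arm (Op p w) 0 (8 s) (11 s)` are at least `c`, then `Rsw c' p N`.  PROOF.  Let `1 ≤ n ≤ N`.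
  `n ≥ 46`: `s = n / 23` (`s ≥ 2`, `22 s + 1 ≤ n`, `n ≤ 46 s`), `k = 400`, `z` with `z.2 = b + 11 s` and
  `X z ∈ {l + 16 s, l + 16 s + 1}`... (`X z ≡ z.2` mod 2; choose `X z ≤ l + 1 + 16 s`, `X z ≥ l + 16 s`).  If all
  `401` circuits exist then `chain` gives a path in the rows `b..b + n` from
  `X ≤ l + 1` to `X ≥ l + 16 s + 8 * 400 * s + 16 s ≥ l + 64 n`; `hc_of_conn` and `hc_sub`: a crossing of
  `Rec l (l + 64 n) b (b + n)`.  Probability `≥ c ^ 401` by `harris_low_fin` (open; the events are lower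
  events of a finite set, `ev_arm_cl` complement; translation invariance) and `harris_up_fin`
  (closed).
  `n < 46`: all vertices of the rectangle are open (closed) with probability
  `≥ (1 / 4) ^ |Rec| ≥ (1 / 4) ^ (65 * 46 * 47)`, and then it is crossed (`rec_or` with the empty set).
  `c' = min (1 / 4) (min (c ^ 401) ((1 / 4) ^ (65 * 46 * 47)))`.
-/

namespace Pool.Agent.TriPerc

open MeasureTheory Set

variable {S C C' : Set V} {z z' : V} {s : ℤ}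

private theorem nrm_flat {v : V} (h : v.2 = 0) : nrm v = |v.1| := by
  unfold nrm
  rw [h, abs_zero, add_zero, max_eq_left (abs_nonneg v.1), max_self]

private theorem hit_r {n m : ℤ} (hn : 0 ≤ n) (hnm : n ≤ m) (hC : C ⊆ Ann z n m)
    (hsep : ∀ u v, nrm (u - z) ≤ n → m ≤ nrm (v - z) → ¬ Conn Cᶜ u v) :
    ∃ x ∈ C, x.2 = z.2 ∧ z.1 + n ≤ x.1 ∧ x.1 ≤ z.1 + m := by
  have h : Conn {v : V | v.2 = z.2 ∧ z.1 ≤ v.1 ∧ v.1 ≤ z.1 + m} (z.1, z.2) (z.1 + m, z.2) := by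
    refine conn_row fun c h1 h2 => ⟨rfl, ?_, ?_⟩
    · show z.1 ≤ c
      omega
    · show c ≤ z.1 + m
      omega
  have h1 : nrm ((z.1, z.2) - z) ≤ n := by
    rw [nrm_flat (sub_self z.2)]
    show |z.1 - z.1| ≤ n
    rw [sub_self, abs_zero]
    exact hn
  have h2 : m ≤ nrm ((z.1 + m, z.2) - z) := by
    rw [nrm_flat (sub_self z.2)]
    show m ≤ |z.1 + m - z.1|
    rw [add_sub_cancel_left]
    exact le_abs_self m
  obtain ⟨x, hx, ⟨e1, e2, e3⟩, -⟩ := circ_hit hsep h h1 h2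
  refine ⟨x, hx, e1, ?_, e3⟩
  have h3 := (hC hx).1
  have h4 : (x - z).2 = 0 := by
    show x.2 - z.2 = 0
    omega
  rw [nrm_flat h4] at h3
  have h5 : (x - z).1 = x.1 - z.1 := rfl
  rw [h5, abs_of_nonneg (by omega)] at h3
  omega

private theorem hit_l {n m : ℤ} (hn : 0 ≤ n) (hnm : n ≤ m) (hC : C ⊆ Ann z n m)
    (hsep : ∀ u v, nrm (u - z) ≤ n → m ≤ nrm (v - z) → ¬ Conn Cᶜ u v) :
    ∃ x ∈ C, x.2 = z.2 ∧ z.1 - m ≤ x.1 ∧ x.1 ≤ z.1 - n := by
  have h : Conn {v : V | v.2 = z.2 ∧ z.1 - m ≤ v.1 ∧ v.1 ≤ z.1} (z.1, z.2) (z.1 - m, z.2) := by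
    refine conn_row fun c h1 h2 => ⟨rfl, ?_, ?_⟩
    · show z.1 - m ≤ c
      omega
    · show c ≤ z.1
      omega
  have h1 : nrm ((z.1, z.2) - z) ≤ n := by
    rw [nrm_flat (sub_self z.2)]
    show |z.1 - z.1| ≤ n
    rw [sub_self, abs_zero]
    exact hn
  have h2 : m ≤ nrm ((z.1 - m, z.2) - z) := by
    rw [nrm_flat (sub_self z.2)]
    show m ≤ |z.1 - m - z.1|
    rw [sub_sub_cancel_left, abs_neg]
    exact le_abs_self m
  obtain ⟨x, hx, ⟨e1, e2, e3⟩, -⟩ := circ_hit hsep h h1 h2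
  refine ⟨x, hx, e1, e2, ?_⟩
  have h3 := (hC hx).1
  have h4 : (x - z).2 = 0 := by
    show x.2 - z.2 = 0
    omega
  rw [nrm_flat h4] at h3
  have h5 : (x - z).1 = x.1 - z.1 := rfl
  rw [h5, abs_of_nonpos (by omega)] at h3
  omega

theorem circ_meet (hs : 1 ≤ s) (hz : z' = z + (4 * s, 0)) (hC : C ⊆ Ann z (8 * s) (11 * s))
    (hc : IsConn C)
    (hsep : ∀ u v, nrm (u - z) ≤ 8 * s → 11 * s ≤ nrm (v - z) → ¬ Conn Cᶜ u v)
    (hsep' : ∀ u v, nrm (u - z') ≤ 8 * s → 11 * s ≤ nrm (v - z') → ¬ Conn C'ᶜ u v) :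
    ∃ x, x ∈ C ∧ x ∈ C' := by
  obtain ⟨x, hx, x1, x2, x3⟩ := hit_r (by omega) (by omega) hC hsep
  obtain ⟨y, hy, y1, y2, y3⟩ := hit_l (by omega) (by omega) hC hsep
  have z1 : z'.1 = z.1 + 4 * s := by rw [hz]; rfl
  have z2 : z'.2 = z.2 := by
    rw [hz]
    exact add_zero z.2
  have h1 : nrm (x - z') ≤ 8 * s := by
    have h4 : (x - z').2 = 0 := by
      show x.2 - z'.2 = 0
      omega
    rw [nrm_flat h4]
    show |x.1 - z'.1| ≤ 8 * s
    rw [abs_le]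
    omega
  have h2 : 11 * s ≤ nrm (y - z') := by
    have h4 : (y - z').2 = 0 := by
      show y.2 - z'.2 = 0
      omega
    rw [nrm_flat h4]
    show 11 * s ≤ |y.1 - z'.1|
    rw [le_abs]
    omega
  obtain ⟨q, hq, hq', -⟩ := circ_hit hsep' (hc x hx y hy) h1 h2
  exact ⟨q, hq', hq⟩

theorem chain (hs : 1 ≤ s) (k : ℕ)
    (h : ∀ i : ℕ, i ≤ k → ¬ Arm Sᶜ (z + (4 * s * i, 0)) (8 * s) (11 * s)) :
    ∃ u v, Conn (S ∩ {x | |x.2 - z.2| ≤ 11 * s}) u v ∧ X u ≤ X z - 16 * s ∧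
      X z + 8 * s * k + 16 * s ≤ X v := by
  have hex : ∀ i : ℕ, i ≤ k → ∃ C : Set V, C ⊆ S ∩ Ann (z + (4 * s * i, 0)) (8 * s) (11 * s) ∧
      C.Nonempty ∧ IsConn C ∧ ∀ u v, nrm (u - (z + (4 * s * i, 0))) ≤ 8 * s →
        11 * s ≤ nrm (v - (z + (4 * s * i, 0))) → ¬ Conn Cᶜ u v := fun i hi =>
    circ_set (by omega) (by omega) (h i hi)
  choose! C hC using hex
  have hT : ∀ i ≤ k, C i ⊆ S ∩ {x | |x.2 - z.2| ≤ 11 * s} := by
    intro i hi x hx
    obtain ⟨h1, -, h2⟩ := (hC i hi).1 hx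
    refine ⟨h1, ?_⟩
    have h3 : (x - (z + (4 * s * (i : ℤ), 0))).2 = x.2 - z.2 := by
      show x.2 - (z.2 + 0) = x.2 - z.2
      rw [add_zero]
    have h4 : |(x - (z + (4 * s * (i : ℤ), 0))).2| ≤ nrm (x - (z + (4 * s * (i : ℤ), 0))) := by
      unfold nrm
      exact (le_max_right _ _).trans (le_max_left _ _)
    rw [h3] at h4
    exact h4.trans h2
  have hcon : ∀ i ≤ k, ∀ x ∈ C 0, ∀ y ∈ C i, Conn (S ∩ {x | |x.2 - z.2| ≤ 11 * s}) x y := by
    intro i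
    induction i with
    | zero =>
      intro hi x hx y hy
      exact ((hC 0 hi).2.2.1 x hx y hy).mono (hT 0 hi)
    | succ i ih =>
      intro hi x hx y hy
      have hi' : i ≤ k := by omega
      have hz : z + (4 * s * ((i + 1 : ℕ) : ℤ), 0) = z + (4 * s * (i : ℤ), 0) + (4 * s, 0) := by
        ext
        · show z.1 + 4 * s * ((i + 1 : ℕ) : ℤ) = z.1 + 4 * s * (i : ℤ) + 4 * s
          push_cast
          ring
        · show z.2 + 0 = z.2 + 0 + 0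
          rw [add_zero, add_zero]
      obtain ⟨q, q1, q2⟩ := circ_meet hs hz (fun v hv => ((hC i hi').1 hv).2) (hC i hi').2.2.1
        (hC i hi').2.2.2 (hC (i + 1) hi).2.2.2
      exact (ih hi' x hx q q1).trans (((hC (i + 1) hi).2.2.1 q q2 y hy).mono (hT _ hi))
  obtain ⟨u, hu, u1, u2, u3⟩ := hit_l (by omega) (by omega)
    (fun v hv => ((hC 0 (Nat.zero_le k)).1 hv).2) (hC 0 (Nat.zero_le k)).2.2.2
  obtain ⟨v, hv, v1, v2, v3⟩ := hit_r (by omega) (by omega)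
    (fun v hv => ((hC k le_rfl).1 hv).2) (hC k le_rfl).2.2.2
  refine ⟨u, v, hcon k le_rfl u hu v hv, ?_, ?_⟩
  · have e1 : (z + (4 * s * ((0 : ℕ) : ℤ), 0)).1 = z.1 := by
      show z.1 + 4 * s * ((0 : ℕ) : ℤ) = z.1
      simp
    have e2 : (z + (4 * s * ((0 : ℕ) : ℤ), 0)).2 = z.2 := by
      show z.2 + 0 = z.2
      rw [add_zero]
    rw [e1] at u3
    rw [e2] at u1
    unfold X
    omega
  · have e1 : (z + (4 * s * (k : ℤ), 0)).1 = z.1 + 4 * s * (k : ℤ) := rfl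
    have e2 : (z + (4 * s * (k : ℤ), 0)).2 = z.2 := by
      show z.2 + 0 = z.2
      rw [add_zero]
    rw [e1] at v2
    rw [e2] at v1
    unfold X
    nlinarith

private theorem arm_sh (S : Set V) (z : V) (n m : ℤ) :
    Arm {v | tr z v ∈ S} 0 n m ↔ Arm S z n m := by
  have e : ∀ v : V, tr z v - z = v - 0 := fun v => by
    change v + z - z = v - 0
    rw [add_sub_cancel_right, sub_zero]
  have h := join_preimage (S := S ∩ Ann z n m) (A := {v | nrm (v - z) ≤ n})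
    (B := {v | m ≤ nrm (v - z)}) (isAut_tr z)
  have e1 : tr z ⁻¹' (S ∩ Ann z n m) = {v | tr z v ∈ S} ∩ Ann 0 n m := by
    ext v
    change (tr z v ∈ S ∧ n ≤ nrm (tr z v - z) ∧ nrm (tr z v - z) ≤ m) ↔
      (tr z v ∈ S ∧ n ≤ nrm (v - 0) ∧ nrm (v - 0) ≤ m)
    rw [e]
  have e2 : tr z ⁻¹' {v | nrm (v - z) ≤ n} = {v | nrm (v - 0) ≤ n} := by
    ext v
    change nrm (tr z v - z) ≤ n ↔ nrm (v - 0) ≤ n
    rw [e]
  have e3 : tr z ⁻¹' {v | m ≤ nrm (v - z)} = {v | m ≤ nrm (v - 0)} := by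
    ext v
    change m ≤ nrm (tr z v - z) ↔ m ≤ nrm (v - 0)
    rw [e]
  rw [e1, e2, e3] at h
  exact h

private theorem P_cl (p : ℝ) (z : V) (n m : ℤ) :
    P {w | ¬ Arm (Cl p w) z n m} = P {w | ¬ Arm (Cl p w) 0 n m} := by
  have h : P {w : Lab | ¬ Arm {v | tr z v ∈ Cl p w} 0 n m} = P {w | ¬ Arm (Cl p w) 0 n m} :=
    (mp_comp (tr z)).measure_preimage (ev_arm_cl p 0 n m).1.compl.1.nullMeasurableSet
  rw [← h]
  congr 1
  ext w
  exact (arm_sh _ _ _ _).symm.not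

private theorem P_op (p : ℝ) (z : V) (n m : ℤ) :
    P {w | ¬ Arm (Op p w) z n m} = P {w | ¬ Arm (Op p w) 0 n m} := by
  have h : P {w : Lab | ¬ Arm {v | tr z v ∈ Op p w} 0 n m} = P {w | ¬ Arm (Op p w) 0 n m} :=
    (mp_comp (tr z)).measure_preimage (ev_arm p 0 n m).1.compl.1.nullMeasurableSet
  rw [← h]
  congr 1
  ext w
  exact (arm_sh _ _ _ _).symm.not

private theorem prod_pow {N : ℕ} {c : ℝ} {A : Fin N → Set Lab} (hc : 0 ≤ c)
    (h : ∀ i, c ≤ (P (A i)).toReal) {B : Set Lab} (h2 : ∏ i, P (A i) ≤ P B) :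
    c ^ N ≤ (P B).toReal := by
  have h3 : (∏ i, P (A i)).toReal ≤ (P B).toReal :=
    ENNReal.toReal_mono (measure_ne_top P B) h2
  rw [ENNReal.toReal_prod] at h3
  refine le_trans ?_ h3
  have h4 : ∏ _i : Fin N, c ≤ ∏ i, (P (A i)).toReal :=
    Finset.prod_le_prod (fun _ _ => hc) fun i _ => h i
  simpa using h4

/-- from the circuits to a crossing -/
private theorem hc_chain {T : Set V} {n l b : ℤ} (hs : 2 ≤ s) (h1 : 22 * s ≤ n)
    (h2 : n ≤ 46 * s) (h : ∀ i : Fin 401,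
      ¬ Arm Tᶜ (((l + 16 * s + 1 - b - 11 * s) / 2, b + 11 * s) + (4 * s * (i : ℕ), 0))
        (8 * s) (11 * s)) : HC T l (l + 64 * n) b (b + n) := by
  obtain ⟨z, hz⟩ : ∃ z : V, z = ((l + 16 * s + 1 - b - 11 * s) / 2, b + 11 * s) := ⟨_, rfl⟩
  have z1 : z.1 = (l + 16 * s + 1 - b - 11 * s) / 2 := by rw [hz]
  have z2 : z.2 = b + 11 * s := by rw [hz]
  have hX : l + 16 * s ≤ X z ∧ X z ≤ l + 16 * s + 1 := by
    unfold X
    omega
  rw [← hz] at h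
  obtain ⟨u, v, huv, hu, hv⟩ := chain (S := T) (z := z) (by omega) 400
    fun i hi => h ⟨i, by omega⟩
  rw [z2] at huv
  push_cast at hv
  refine hc_of_conn (huv.mono ?_) (by omega) (by omega) (by omega)
  rintro x ⟨x1, x2⟩
  have x3 : |x.2 - (b + 11 * s)| ≤ 11 * s := x2
  rw [abs_le] at x3
  exact ⟨x1, by omega, by omega⟩

private theorem chain_fin (s l b : ℤ) : (⋃ i : Fin 401,
    Ann (((l + 16 * s + 1 - b - 11 * s) / 2, b + 11 * s) + (4 * s * (i : ℕ), 0)) (8 * s)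
      (11 * s)).Finite :=
  Set.finite_iUnion fun _ => finite_ann _ _ _

private theorem big_op {c p : ℝ} {n l b : ℤ} (hc : 0 < c) (hs : 2 ≤ s) (h1 : 22 * s ≤ n)
    (h2 : n ≤ 46 * s) (h : c ≤ (P {w | ¬ Arm (Cl p w) 0 (8 * s) (11 * s)}).toReal) :
    c ^ 401 ≤ (P (oHC p l (l + 64 * n) b (b + n))).toReal := by
  obtain ⟨A, hA⟩ : ∃ A : Fin 401 → Set Lab, A = fun i : Fin 401 => {w | ¬ Arm (Cl p w)
      (((l + 16 * s + 1 - b - 11 * s) / 2, b + 11 * s) + (4 * s * (i : ℕ), 0)) (8 * s)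
      (11 * s)} := ⟨_, rfl⟩
  have hEv : ∀ i, Ev (⋃ i : Fin 401,
      Ann (((l + 16 * s + 1 - b - 11 * s) / 2, b + 11 * s) + (4 * s * (i : ℕ), 0)) (8 * s)
      (11 * s)) (A i) := by
    intro i
    rw [hA]
    exact (ev_arm_cl p _ _ _).1.compl.mono (Set.subset_iUnion (fun i : Fin 401 =>
      Ann (((l + 16 * s + 1 - b - 11 * s) / 2, b + 11 * s) + (4 * s * (i : ℕ), 0)) (8 * s)
      (11 * s)) i)
  have hlow : ∀ i, IsLowerSet (A i) := by
    intro i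
    rw [hA]
    exact (ev_arm_cl p _ _ _).2.compl
  have hP : ∀ i, c ≤ (P (A i)).toReal := by
    intro i
    rw [hA]
    show c ≤ (P {w | ¬ Arm (Cl p w)
      (((l + 16 * s + 1 - b - 11 * s) / 2, b + 11 * s) + (4 * s * (i : ℕ), 0)) (8 * s)
      (11 * s)}).toReal
    rw [P_cl]
    exact h
  refine prod_pow hc.le hP ((harris_low_fin (chain_fin s l b) hEv hlow).trans
    (measure_mono ?_))
  intro w hw
  rw [Set.mem_iInter] at hw
  show HC (Op p w) l (l + 64 * n) b (b + n)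
  refine hc_chain hs h1 h2 fun i => ?_
  have h3 := hw i
  rw [hA] at h3
  rw [← cl_compl]
  exact h3

private theorem big_cl {c p : ℝ} {n l b : ℤ} (hc : 0 < c) (hs : 2 ≤ s) (h1 : 22 * s ≤ n)
    (h2 : n ≤ 46 * s) (h : c ≤ (P {w | ¬ Arm (Op p w) 0 (8 * s) (11 * s)}).toReal) :
    c ^ 401 ≤ (P (cHC p l (l + 64 * n) b (b + n))).toReal := by
  obtain ⟨A, hA⟩ : ∃ A : Fin 401 → Set Lab, A = fun i : Fin 401 => {w | ¬ Arm (Op p w)
      (((l + 16 * s + 1 - b - 11 * s) / 2, b + 11 * s) + (4 * s * (i : ℕ), 0)) (8 * s)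
      (11 * s)} := ⟨_, rfl⟩
  have hEv : ∀ i, Ev (⋃ i : Fin 401,
      Ann (((l + 16 * s + 1 - b - 11 * s) / 2, b + 11 * s) + (4 * s * (i : ℕ), 0)) (8 * s)
      (11 * s)) (A i) := by
    intro i
    rw [hA]
    exact (ev_arm p _ _ _).1.compl.mono (Set.subset_iUnion (fun i : Fin 401 =>
      Ann (((l + 16 * s + 1 - b - 11 * s) / 2, b + 11 * s) + (4 * s * (i : ℕ), 0)) (8 * s)
      (11 * s)) i)
  have hup : ∀ i, IsUpperSet (A i) := by
    intro i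
    rw [hA]
    exact (ev_arm p _ _ _).2.compl
  have hP : ∀ i, c ≤ (P (A i)).toReal := by
    intro i
    rw [hA]
    show c ≤ (P {w | ¬ Arm (Op p w)
      (((l + 16 * s + 1 - b - 11 * s) / 2, b + 11 * s) + (4 * s * (i : ℕ), 0)) (8 * s)
      (11 * s)}).toReal
    rw [P_op]
    exact h
  refine prod_pow hc.le hP ((harris_up_fin (chain_fin s l b) hEv hup).trans
    (measure_mono ?_))
  intro w hw
  rw [Set.mem_iInter] at hw
  show HC (Cl p w) l (l + 64 * n) b (b + n)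
  refine hc_chain hs h1 h2 fun i => ?_
  have h3 := hw i
  rw [hA] at h3
  rw [cl_compl, compl_compl]
  exact h3

private theorem all_op (F : Finset V) {p : ℝ} (h0 : 0 ≤ p) (h1 : p ≤ 1) :
    (P {w | ∀ v ∈ F, w v ≤ p}).toReal = p ^ F.card := by
  have h2 : {w : Lab | ∀ v ∈ F, w v ≤ p} = Set.pi (F : Set V) fun _ => Set.Iic p := by
    ext w
    simp [Set.mem_pi]
  rw [h2]
  unfold P
  rw [Measure.infinitePi_pi _ fun i _ => measurableSet_Iic, Finset.prod_const, ENNReal.toReal_pow,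
    unif_Iic h0 h1, ENNReal.toReal_ofReal h0]

private theorem all_cl (F : Finset V) {p : ℝ} (h0 : 0 ≤ p) (h1 : p ≤ 1) :
    (P {w | ∀ v ∈ F, p < w v}).toReal = (1 - p) ^ F.card := by
  have h2 : {w : Lab | ∀ v ∈ F, p < w v} = Set.pi (F : Set V) fun _ => Set.Ioi p := by
    ext w
    simp [Set.mem_pi]
  have h3 : (unif (Set.Ioi p)).toReal = 1 - p := by
    rw [← Set.compl_Iic, prob_compl_eq_one_sub measurableSet_Iic,
      ENNReal.toReal_sub_of_le prob_le_one ENNReal.one_ne_top, unif_Iic h0 h1,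
      ENNReal.toReal_ofReal h0, ENNReal.toReal_one]
  rw [h2]
  unfold P
  rw [Measure.infinitePi_pi _ fun i _ => measurableSet_Ioi, Finset.prod_const, ENNReal.toReal_pow,
    h3]

/-- a straight row crosses the rectangle -/
private theorem hc_row {T : Set V} {n l b : ℤ} (hn : 1 ≤ n) (hn2 : n ≤ 45)
    (h : ∀ v ∈ (Finset.range 1441).image (fun i : ℕ => ((l - b) / 2 + (i : ℤ), b)), v ∈ T) :
    HC T l (l + 64 * n) b (b + n) := by
  have h1 : Conn (T ∩ {z | b ≤ z.2 ∧ z.2 ≤ b + n}) ((l - b) / 2, b)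
      ((l - b) / 2 + 32 * n, b) := by
    refine conn_row fun c c1 c2 => ⟨?_, le_rfl, ?_⟩
    · refine h _ (Finset.mem_image.2 ⟨(c - (l - b) / 2).toNat, Finset.mem_range.2 ?_, ?_⟩)
      · omega
      · rw [Int.toNat_of_nonneg (by omega)]
        ext
        · show (l - b) / 2 + (c - (l - b) / 2) = c
          ring
        · rfl
    · show b ≤ b + n
      omega
  refine hc_of_conn h1 ?_ ?_ (by omega)
  · show 2 * ((l - b) / 2) + b ≤ l + 1
    omega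
  · show l + 64 * n - 1 ≤ 2 * ((l - b) / 2 + 32 * n) + b
    omega

private theorem tmS {A B : Set Lab} (h : A ⊆ B) : (P A).toReal ≤ (P B).toReal :=
  ENNReal.toReal_mono (measure_ne_top P B) (measure_mono h)

private theorem pow_card {q : ℝ} (h0 : 1 / 4 ≤ q) (l b : ℤ) : (1 / 4 : ℝ) ^ 1441 ≤
    q ^ ((Finset.range 1441).image (fun i : ℕ => ((l - b) / 2 + (i : ℤ), b))).card := by
  have h1 : ((Finset.range 1441).image (fun i : ℕ => ((l - b) / 2 + (i : ℤ), b))).card ≤ 1441 := by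
    refine Finset.card_image_le.trans ?_
    rw [Finset.card_range]
  calc (1 / 4 : ℝ) ^ 1441 ≤ (1 / 4 : ℝ) ^
        ((Finset.range 1441).image (fun i : ℕ => ((l - b) / 2 + (i : ℤ), b))).card :=
        pow_le_pow_of_le_one (by norm_num) (by norm_num) h1
    _ ≤ _ := pow_le_pow_left₀ (by norm_num) h0 _

private theorem small_op {p : ℝ} {n l b : ℤ} (h0 : 1 / 4 ≤ p) (h1 : p ≤ 3 / 4) (hn : 1 ≤ n)
    (hn2 : n ≤ 45) : (1 / 4 : ℝ) ^ 1441 ≤ (P (oHC p l (l + 64 * n) b (b + n))).toReal := by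
  have h2 := all_op ((Finset.range 1441).image (fun i : ℕ => ((l - b) / 2 + (i : ℤ), b)))
    (p := p) (by linarith) (by linarith)
  refine (pow_card h0 l b).trans (h2.symm.le.trans (tmS fun w hw => ?_))
  exact hc_row hn hn2 fun v hv => hw v hv

private theorem small_cl {p : ℝ} {n l b : ℤ} (h0 : 1 / 4 ≤ p) (h1 : p ≤ 3 / 4) (hn : 1 ≤ n)
    (hn2 : n ≤ 45) : (1 / 4 : ℝ) ^ 1441 ≤ (P (cHC p l (l + 64 * n) b (b + n))).toReal := by
  have h2 := all_cl ((Finset.range 1441).image (fun i : ℕ => ((l - b) / 2 + (i : ℤ), b)))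
    (p := p) (by linarith) (by linarith)
  refine (pow_card (q := 1 - p) (by linarith) l b).trans (h2.symm.le.trans (tmS fun w hw => ?_))
  exact hc_row hn hn2 fun v hv => hw v hv

theorem circ_rsw (c : ℝ) (hc : 0 < c) : ∃ c' : ℝ, 0 < c' ∧ ∀ (p : ℝ) (N : ℤ), 1 / 4 ≤ p →
    p ≤ 3 / 4 → 1 ≤ N → (∀ s : ℤ, 1 ≤ s → s ≤ N →
      c ≤ (P {w | ¬ Arm (Cl p w) 0 (8 * s) (11 * s)}).toReal ∧
      c ≤ (P {w | ¬ Arm (Op p w) 0 (8 * s) (11 * s)}).toReal) → Rsw c' p N := by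
  have k1 : (0 : ℝ) < c ^ 401 := pow_pos hc _
  have k2 : (0 : ℝ) < (1 / 4 : ℝ) ^ 1441 := pow_pos (by norm_num) _
  have hc' : 0 < min (1 / 4) (min (c ^ 401) ((1 / 4 : ℝ) ^ 1441)) :=
    lt_min (by norm_num) (lt_min k1 k2)
  refine ⟨min (1 / 4) (min (c ^ 401) ((1 / 4 : ℝ) ^ 1441)), hc', ?_⟩
  intro p N hp0 hp1 _ h
  refine ⟨hc', min_le_left _ _, by linarith, by linarith, fun n hn hN l b => ?_⟩
  have m1 : min (1 / 4) (min (c ^ 401) ((1 / 4 : ℝ) ^ 1441)) ≤ c ^ 401 :=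
    (min_le_right _ _).trans (min_le_left _ _)
  have m2 : min (1 / 4) (min (c ^ 401) ((1 / 4 : ℝ) ^ 1441)) ≤ (1 / 4 : ℝ) ^ 1441 :=
    (min_le_right _ _).trans (min_le_right _ _)
  rcases le_total n 45 with hn2 | hn2
  · exact ⟨m2.trans (small_op hp0 hp1 hn hn2), m2.trans (small_cl hp0 hp1 hn hn2)⟩
  · rcases hn2.eq_or_lt with hn3 | hn3
    · exact ⟨m2.trans (small_op hp0 hp1 hn hn3.symm.le),
        m2.trans (small_cl hp0 hp1 hn hn3.symm.le)⟩
    · obtain ⟨h1, h2⟩ := h (n / 23) (by omega) (by omega)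
      exact ⟨m1.trans (big_op hc (by omega) (by omega) (by omega) h1),
        m1.trans (big_cl hc (by omega) (by omega) (by omega) h2)⟩

end Pool.Agent.TriPerc
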