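import Pool.Agent.TriPerc.Cmp
import Pool.Agent.TriPerc.StabA
import Pool.Agent.TriPerc.StabB
import Pool.Agent.TriPerc.WinSum

/-!
# Constants at the critical level; stability of RSW near the critical level

* `cst`: there are constants `c0, C, g, a > 0` (`a ≤ 1 / 2`) such that for all `N`:
  `Qm c0 C N (xf (1 / 2))` and `g (n / m) ^ (2 - a) ≤ xf (1 / 2) n m` for `1 ≤ n ≤ m`:
  `rsw_half`, `qm_xf`, `grow`.
* `stab`: assume `QmFr`.  There are `e0 > 0`, `c' > 0` such that for `2 ≤ N`, `0 ≤ λ ≤ 1 / 4` and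
  `λ * (N ^ 2 * xf (1 / 2) 2 N) ≤ e0`: (i) `yf (1 / 2 - λ) (1 / 2 + λ) n m ≤ C1 xf (1 / 2) n m` for
  `2 ≤ n ≤ m ≤ N`, (ii) `Rsw c' p N` for all `p ∈ [1 / 2 - λ, 1 / 2 + λ]`.
  PROOF.  (i): `mix_le` with `a = 1 / 2 - λ`, `b = 1 / 2 + λ`, `C1 = 2 (C / c0) ^ 2`: by `sum_le`
  `2 λ ∑ d ∈ Icc 2 N, d xf (1/2) 2 d ≤ 2 λ (C / (g a)) N ^ 2 xf (1/2) 2 N ≤ 2 (C / (g a)) e0 ≤
  (c0 / C) ^ 5 / 48`.
  (ii): let `1 ≤ s ≤ N`.  If `s ≥ 3`: `circ_stab` with `a = 1 / 2 - λ`, `b = 1 / 2`, `n = 8 s`,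
`n1 = 9 s`,
  `m1 = 10 s`, `m = 11 s`, `r = s`: `P {¬ Arm (Cl (1/2) w) 0 (9 s) (10 s)} ≥ c ^ 6` (`circ_open`,
  `rsw_half`), and
`20 (10 s) ^ 2 λ yf (1 / 2) (1 / 2 + λ) 1 s ≤ 2000 λ s ^ 2 yf (1/2 - λ) (1/2 + λ) 2 s ≤
  2000 C1 λ s ^ 2 xf (1/2) 2 s ≤ 2000 C1 (C / g) λ N ^ 2 xf (1/2) 2 N ≤ 2000 C1 (C / g) e0 ≤ c ^ 6
/ 2`
  (`yf_anti`, `yf_mono`, (i), `gro_le`).  So
`P {¬ Arm (Cl (1/2 - λ) w) 0 (8 s) (11 s)} ≥ c ^ 6 / 2`.  If
  `s ≤ 2`: with probability `≥ (1 / 4) ^ |Ann|` all vertices of `Ann 0 (8 s) (11 s)` are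
  `(1/2 - λ)`-open, a constant.  For `p ≥ 1 / 2 - λ` the probability of an open circuit is at
  least as large (`cl_mono`, `arm_mono`).  For closed circuits at the level `p ≤ 1 / 2 + λ`:
  `P {¬ Arm (Op p w) 0 n m} ≥ P {¬ Arm (Op (1/2 + λ) w) 0 n m} = P {¬ Arm (Cl (1/2 - λ) w) 0 n m}`
  (`flip_lev` or `mp_flip` and `ae_label`).  `circ_rsw` gives `Rsw c' p N`.
-/

namespace Pool.Agent.TriPerc

open MeasureTheory Set

theorem cst (H : QmFr) : ∃ c0 C g a : ℝ, 0 < g ∧ 0 < a ∧ a ≤ 1 / 2 ∧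
    (∀ N : ℤ, Qm c0 C N (xf (1 / 2))) ∧
    ∀ n m : ℤ, 1 ≤ n → n ≤ m → g * ((n : ℝ) / m) ^ (2 - a) ≤ xf (1 / 2) n m := by
  obtain ⟨c, hc⟩ := rsw_half
  obtain ⟨c0, C, hq⟩ := qm_xf H c (hc 0).1
  obtain ⟨g, a, hg, ha, ha', hgr⟩ := grow c (hc 0).1
  exact ⟨c0, C, g, a, hg, ha, ha', fun N => hq _ N (hc N),
    fun n m hn hnm => hgr _ m (hc m) n m hn hnm le_rfl⟩

private theorem tmC {A B : Set Lab} (h : A ⊆ B) : (P A).toReal ≤ (P B).toReal :=
  ENNReal.toReal_mono (measure_ne_top P B) (measure_mono h)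

private theorem all_openC (F : Finset V) {p : ℝ} (h0 : 0 ≤ p) (h1 : p ≤ 1) :
    (P {w | ∀ v ∈ F, w v ≤ p}).toReal = p ^ F.card := by
  have h2 : {w : Lab | ∀ v ∈ F, w v ≤ p} = Set.pi (F : Set V) fun _ => Set.Iic p := by
    ext w
    simp [Set.mem_pi]
  rw [h2]
  unfold P
  rw [Measure.infinitePi_pi _ fun i _ => measurableSet_Iic, Finset.prod_const, ENNReal.toReal_pow,
    unif_Iic h0 h1, ENNReal.toReal_ofReal h0]

private theorem arm_cut {S : Set V} {z : V} {n m : ℤ} :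
    Arm (S ∩ Ann z n m) z n m ↔ Arm S z n m := by
  unfold Arm
  rw [inter_assoc, inter_self]

private theorem flip_arm (p : ℝ) (n m : ℤ) :
    P {w | ¬ Arm (Op (1 - p) w) 0 n m} = P {w | ¬ Arm (Cl p w) 0 n m} := by
  have h := (ev_op (finite_ann 0 n m) (1 - p) (fun T => ¬ Arm T 0 n m)).1
  have e : {w : Lab | ¬ Arm (Op (1 - p) w ∩ Ann 0 n m) 0 n m} =
      {w | ¬ Arm (Op (1 - p) w) 0 n m} := by
    ext w
    exact not_congr arm_cut
  rw [e] at h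
  rw [← mp_flip.measure_preimage h.nullMeasurableSet]
  refine measure_congr ?_
  filter_upwards [ae_label p] with w hw
  refine propext ?_
  change ¬ Arm (Op (1 - p) (fun v => 1 - w v)) 0 n m ↔ ¬ Arm (Cl p w) 0 n m
  have h2 : Op (1 - p) (fun v => 1 - w v) = Cl p w := by
    ext v
    change 1 - w v ≤ 1 - p ↔ p < w v
    have h3 := (hw.1 v).2.2
    constructor
    · intro h4
      exact lt_of_le_of_ne (by linarith) h3.symm
    · intro h4
      linarith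
  rw [h2]

theorem stab (H : QmFr) : ∃ e0 c' C1 : ℝ, 0 < e0 ∧ 0 < c' ∧ 0 < C1 ∧ ∀ (N : ℤ) (lam : ℝ),
    2 ≤ N → 0 ≤ lam → lam ≤ 1 / 4 → lam * ((N : ℝ) ^ 2 * xf (1 / 2) 2 N) ≤ e0 →
    (∀ n m : ℤ, 2 ≤ n → n ≤ m → m ≤ N →
      yf (1 / 2 - lam) (1 / 2 + lam) n m ≤ C1 * xf (1 / 2) n m) ∧
    ∀ p : ℝ, 1 / 2 - lam ≤ p → p ≤ 1 / 2 + lam → Rsw c' p N := by
  obtain ⟨c, hc⟩ := rsw_half
  have hcp := (hc 0).1
  obtain ⟨c0, C, g, a, hg, ha, ha', hq, hgr⟩ := cst H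
  have hc0 := (hq 0).pos
  have hC1 := (hq 0).one
  have hC0 : 0 < C := by linarith
  obtain ⟨D, hD⟩ : ∃ D : ℝ, D = 2 * (C / c0) ^ 2 := ⟨_, rfl⟩
  have hDp : 0 < D := by rw [hD]; positivity
  obtain ⟨F, hF⟩ : ∃ F : Finset V, F = (finite_ball 0 22).toFinset := ⟨_, rfl⟩
  obtain ⟨c1, hc1⟩ : ∃ c1 : ℝ, c1 = min (c ^ 6 / 2) ((1 / 4 : ℝ) ^ F.card) := ⟨_, rfl⟩
  have hc1p : 0 < c1 := by rw [hc1]; exact lt_min (by positivity) (by positivity)
  obtain ⟨c', hc', hcr⟩ := circ_rsw c1 hc1p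
  refine ⟨min ((c0 / C) ^ 5 / 48 / (2 * (C / (g * a)))) (c ^ 6 / 2 / (2000 * D * (C / g))), c', D,
    lt_min (by positivity) (by positivity), hc', hDp, fun N lam hN h0 h1 hl => ?_⟩
  obtain ⟨W, hW⟩ : ∃ W : ℝ, W = (N : ℝ) ^ 2 * xf (1 / 2) 2 N := ⟨_, rfl⟩
  rw [← hW] at hl
  have hW0 : 0 ≤ W := by rw [hW]; exact mul_nonneg (sq_nonneg _) xf_nonneg
  have hlow : ∀ n m : ℤ, 2 ≤ n → n ≤ m → m ≤ N → g * ((n : ℝ) / m) ^ (2 - a) ≤ xf (1 / 2) n m :=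
    fun n m hn hnm _ => hgr n m (by omega) hnm
  have hl1 : lam * W * (2 * (C / (g * a))) ≤ (c0 / C) ^ 5 / 48 :=
    (le_div_iff₀ (by positivity)).1 (hl.trans (min_le_left _ _))
  have hl2 : lam * W * (2000 * D * (C / g)) ≤ c ^ 6 / 2 :=
    (le_div_iff₀ (by positivity)).1 (hl.trans (min_le_right _ _))
  have hi : ∀ n m : ℤ, 2 ≤ n → n ≤ m → m ≤ N →
      yf (1 / 2 - lam) (1 / 2 + lam) n m ≤ D * xf (1 / 2) n m := by
    intro n m hn hnm hm
    rw [hD]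
    refine mix_le (hq N) (by linarith) (by linarith) (by linarith) (by linarith) ?_ hn hnm hm
    have h2 := sum_le (hq N) hg ha (by linarith) hlow hN le_rfl
    rw [← hW] at h2
    calc (1 / 2 + lam - (1 / 2 - lam)) * ∑ d ∈ Finset.Icc (2 : ℤ) N, (d : ℝ) * xf (1 / 2) 2 d
        ≤ (1 / 2 + lam - (1 / 2 - lam)) * (C / (g * a) * W) :=
          mul_le_mul_of_nonneg_left h2 (by linarith)
      _ = lam * W * (2 * (C / (g * a))) := by ring
      _ ≤ (c0 / C) ^ 5 / 48 := hl1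
  refine ⟨hi, fun p hp1 hp2 => ?_⟩
  have key : ∀ s : ℤ, 1 ≤ s → s ≤ N →
      c1 ≤ (P {w | ¬ Arm (Cl (1 / 2 - lam) w) 0 (8 * s) (11 * s)}).toReal := by
    intro s hs hsN
    by_cases hs3 : 3 ≤ s
    · have hcc : c1 ≤ c ^ 6 / 2 := hc1.le.trans (min_le_left _ _)
      refine hcc.trans ?_
      have h2 := circ_open (z := 0) (n := 9 * s) (m := 10 * s) (hc s) (by omega) (by omega)
        (by omega) (by omega)
      have h3 := circ_stab (a := 1 / 2 - lam) (b := 1 / 2) (n := 8 * s) (n1 := 9 * s)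
        (m1 := 10 * s) (m := 11 * s) (r := s) (by linarith) (by linarith) (by norm_num)
        (by omega) (by omega) (by omega) (by omega) (by omega)
      have h4 : yf (1 - 1 / 2) (1 - (1 / 2 - lam)) 1 s ≤ D * xf (1 / 2) 2 s :=
        (yf_mono (by linarith) (by linarith)).trans
          ((yf_anti (n' := 2) (m' := s) (by omega) (by omega) le_rfl).trans
            (hi 2 s le_rfl (by omega) hsN))
      have h5 : (s : ℝ) ^ 2 * xf (1 / 2) 2 s ≤ C / g * W := by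
        have h6 := gro_le (hq N) hg ha (by linarith) hlow (by omega : 2 ≤ s) hsN le_rfl
        rw [← hW] at h6
        have hs0 : (0 : ℝ) < s := by exact_mod_cast (by omega : 0 < s)
        have hsN' : (s : ℝ) ≤ N := by exact_mod_cast hsN
        have h7 : ((s : ℝ) / N) ^ a ≤ 1 :=
          Real.rpow_le_one (div_nonneg hs0.le (hs0.le.trans hsN'))
            (div_le_one_of_le₀ hsN' (hs0.le.trans hsN')) ha.le
        refine h6.trans (mul_le_mul_of_nonneg_right ?_ hW0)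
        exact mul_le_of_le_one_right (by positivity) h7
      have h8 : 20 * ((10 * s : ℤ) : ℝ) ^ 2 * (1 / 2 - (1 / 2 - lam)) *
          yf (1 - 1 / 2) (1 - (1 / 2 - lam)) 1 s ≤ c ^ 6 / 2 := by
        calc 20 * ((10 * s : ℤ) : ℝ) ^ 2 * (1 / 2 - (1 / 2 - lam)) *
            yf (1 - 1 / 2) (1 - (1 / 2 - lam)) 1 s
            ≤ 20 * ((10 * s : ℤ) : ℝ) ^ 2 * (1 / 2 - (1 / 2 - lam)) * (D * xf (1 / 2) 2 s) :=
              mul_le_mul_of_nonneg_left h4 (mul_nonneg (by positivity) (by linarith))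
          _ = 2000 * D * lam * ((s : ℝ) ^ 2 * xf (1 / 2) 2 s) := by
              push_cast
              ring
          _ ≤ 2000 * D * lam * (C / g * W) := mul_le_mul_of_nonneg_left h5 (by positivity)
          _ = lam * W * (2000 * D * (C / g)) := by ring
          _ ≤ c ^ 6 / 2 := hl2
      linarith
    · have hcc : c1 ≤ (1 / 4 : ℝ) ^ F.card := hc1.le.trans (min_le_right _ _)
      refine hcc.trans ?_
      rw [← all_openC F (by norm_num) (by norm_num)]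
      refine tmC fun w hw harm => ?_
      obtain ⟨u, -, v, -, huv⟩ := harm
      have h2 := huv.1
      have h3 : nrm (u - 0) ≤ 22 := le_trans h2.2.2 (by omega)
      have h4 : u ∈ F := by
        rw [hF, Set.Finite.mem_toFinset]
        exact h3
      have h5 : w u ≤ 1 / 4 := hw u h4
      have h6 : 1 / 2 - lam < w u := h2.1
      linarith
  refine hcr p N (by linarith) (by linarith) (by omega) fun s hs hsN => ⟨?_, ?_⟩
  · exact (key s hs hsN).trans (tmC fun w hw harm => hw (arm_mono (cl_mono hp1 w) harm))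
  · refine (key s hs hsN).trans ?_
    rw [← flip_arm]
    refine tmC fun w hw harm => hw (arm_mono (op_mono ?_ w) harm)
    linarith

end Pool.Agent.TriPerc
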