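import Pool.Agent.TriPerc.MixG

/-!
# Mixed four arms: the first edge whose resolution destroys the four arms

`mxg_split`: let `w ∈ MxG a b 0 n m`, `a ≤ p ≤ b`, `1 ≤ n`, `128 n ≤ m`.  Then either there are four
arms of the single level `p` across `Ann 0 (8 n) (m / 8)`, or there is a vertex `u` in this annulus
with label in `(a, b]` which has mixed four arms across `Ann u 1 (nrm u / 4)`, with mixed four arms
across `Ann 0 (2 nrm u) m`, and four arms of the single level `p` across
`Ann 0 (8 n) (nrm u / 2)` if `32 n ≤ nrm u`.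

PROOF.  Let `F` be the finite set of the pairs `(x, y)` with `Adj x y` and both ends in
`Ann 0 (8 n) (m / 8)`; for `e = (x, y)` let `|e| = nrm x + nrm y`.  Call `R ⊆ F` good if it is
symmetric, initial (`e ∈ R`, `f ∈ F`, `|f| < |e|` imply `f ∈ R`) and there is a graph `G` with
`EG (Op a w) ≤ G ≤ EG (Op b w)`, `FourG G 0 n m` and
`G.Adj x y ↔ (EG (Op p w)).Adj x y` for all `(x, y) ∈ R`.  The empty set is good.  Let `R` be a good
set with the maximal number of elements, `G` its graph.

If `R = F`, then `FourG G 0 (8 n) (m / 8)` (`fg_sub`; `8 n < m / 8`) and `four_of_fg` with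
`S = Op p w` gives the first alternative (if `x, y` are in the annulus and `Adj x y` then
`(x, y) ∈ F = R`; if not `Adj x y` then neither graph has the edge).

Otherwise let `(x, y) ∈ F` be outside `R` with `|(x, y)|` minimal.
`R' = R ∪ {(x, y), (y, x)}` is symmetric and initial.  Let `H` be `G` with the edge `xy` changed to
its state in `EG (Op p w)`: `H.Adj s t ↔ (EG (Op p w)).Adj s t` if `{s, t} = {x, y}`, and
`H.Adj s t ↔ G.Adj s t` otherwise.  Then `EG (Op a w) ≤ H ≤ EG (Op b w)` and `H` agrees with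
`EG (Op p w)` on `R'`; as `R'` has more elements than `R` it is not good, so not `FourG H 0 n m`.
Hence `G` and `H` differ at `xy` (otherwise `FourG G ↔ FourG H` by `fg_congr`).  Since one of them
has the edge, `xy ∈ EG (Op b w)`; since one of them does not, `xy ∉ EG (Op a w)`.  So both
labels are `≤ b` and one of them is `> a`; let `u` be this end and `v` the other one.
`fg_switch` with `z = 0`, the centre `u` and `r = nrm u / 4`
(`2 ≤ r`, `n + r ≤ nrm u`, `nrm u + r ≤ m` because `8 n ≤ nrm u ≤ m / 8`) gives `FourG G u 1 r`.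
`fg_sub` gives `FourG G 0 (2 nrm u) m` (`2 nrm u < m`).  Finally if `32 n ≤ nrm u`, then
`8 n < nrm u / 2`; `fg_sub` gives `FourG G 0 (8 n) (nrm u / 2)`; a lattice edge `(s, t)` inside
`Ann 0 (8 n) (nrm u / 2)` is in `F` and has `nrm s + nrm t ≤ nrm u < nrm u + nrm v`
(`nrm v ≥ nrm u - 1 ≥ 1`), so it is in `R` by the minimality of `|(x, y)|`, and `four_of_fg`
applies.
-/

namespace Pool.Agent.TriPerc

open MeasureTheory Set

/-- Good sets of resolved edges. -/
private def GoodR (a b p : ℝ) (w : Lab) (n m : ℤ) (F R : Finset (V × V)) : Prop :=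
  R ⊆ F ∧ (∀ x y, (x, y) ∈ R → (y, x) ∈ R) ∧
  (∀ e ∈ R, ∀ f ∈ F, nrm f.1 + nrm f.2 < nrm e.1 + nrm e.2 → f ∈ R) ∧
  ∃ G : SimpleGraph V, EG (Op a w) ≤ G ∧ G ≤ EG (Op b w) ∧ FourG G 0 n m ∧
    ∀ x y, (x, y) ∈ R → (G.Adj x y ↔ (EG (Op p w)).Adj x y)

/-- The graph `G` with the edge `xy` changed to its state in `K`. -/
private def swG (G K : SimpleGraph V) (x y : V) : SimpleGraph V where
  Adj s t := (((s = x ∧ t = y) ∨ (s = y ∧ t = x)) ∧ K.Adj s t) ∨
    (¬ ((s = x ∧ t = y) ∨ (s = y ∧ t = x)) ∧ G.Adj s t)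
  symm := ⟨fun s t h => by
    rcases h with ⟨h1, h2⟩ | ⟨h1, h2⟩
    · exact Or.inl ⟨by tauto, h2.symm⟩
    · exact Or.inr ⟨by tauto, h2.symm⟩⟩
  loopless := ⟨fun s h => by
    rcases h with ⟨h1, h2⟩ | ⟨h1, h2⟩
    · exact h2.ne rfl
    · exact h2.ne rfl⟩

private theorem swG_on {G K : SimpleGraph V} {x y s t : V}
    (h : (s = x ∧ t = y) ∨ (s = y ∧ t = x)) : (swG G K x y).Adj s t ↔ K.Adj s t := by
  constructor
  · rintro (h1 | h1)
    · exact h1.2
    · exact absurd h h1.1
  · intro h1
    exact Or.inl ⟨h, h1⟩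

private theorem swG_off {G K : SimpleGraph V} {x y s t : V}
    (h : ¬ ((s = x ∧ t = y) ∨ (s = y ∧ t = x))) : (swG G K x y).Adj s t ↔ G.Adj s t := by
  constructor
  · rintro (h1 | h1)
    · exact absurd h1.1 h
    · exact h1.2
  · intro h1
    exact Or.inr ⟨h, h1⟩

theorem mxg_split {a b p : ℝ} {w : Lab} {n m : ℤ} (hn : 1 ≤ n) (hm : 128 * n ≤ m) (ha : a ≤ p)
    (hb : p ≤ b) (h : w ∈ MxG a b 0 n m) :
    Four (Op p w) 0 (8 * n) (m / 8) ∨ ∃ u : V, 8 * n ≤ nrm u ∧ nrm u ≤ m / 8 ∧ a < w u ∧
      w u ≤ b ∧ (32 * n ≤ nrm u → Four (Op p w) 0 (8 * n) (nrm u / 2)) ∧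
      w ∈ MxG a b u 1 (nrm u / 4) ∧ w ∈ MxG a b 0 (2 * nrm u) m := by
  classical
  obtain ⟨G0, h01, h02, h03⟩ := h
  have hfin : {e : V × V | Adj e.1 e.2 ∧ e.1 ∈ Ann 0 (8 * n) (m / 8) ∧
      e.2 ∈ Ann 0 (8 * n) (m / 8)}.Finite :=
    ((finite_ann 0 (8 * n) (m / 8)).prod (finite_ann 0 (8 * n) (m / 8))).subset
      fun e he => ⟨he.2.1, he.2.2⟩
  obtain ⟨F, hF⟩ : ∃ F : Finset (V × V), ∀ e, e ∈ F ↔ (Adj e.1 e.2 ∧
      e.1 ∈ Ann 0 (8 * n) (m / 8) ∧ e.2 ∈ Ann 0 (8 * n) (m / 8)) :=
    ⟨hfin.toFinset, fun e => by rw [Set.Finite.mem_toFinset]; rfl⟩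
  have h0 : GoodR a b p w n m F ∅ := by
    refine ⟨Finset.empty_subset _, ?_, ?_, G0, h01, h02, h03, ?_⟩
    · intro x y h
      exact absurd h (Finset.notMem_empty _)
    · intro x h
      exact absurd h (Finset.notMem_empty _)
    · intro x y h
      exact absurd h (Finset.notMem_empty _)
  obtain ⟨R, hR, hmax⟩ := Finset.exists_max_image
    (F.powerset.filter (GoodR a b p w n m F)) Finset.card
    ⟨∅, Finset.mem_filter.2 ⟨Finset.mem_powerset.2 (Finset.empty_subset _), h0⟩⟩
  obtain ⟨hRF, hsym, hini, G, hG1, hG2, hG3, hG4⟩ := (Finset.mem_filter.1 hR).2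
  have hGu : G ≤ EG univ := hG2.trans (eg_mono (subset_univ _))
  have hop : EG (Op a w) ≤ EG (Op p w) := eg_mono fun x (hx : w x ≤ a) => hx.trans ha
  have hop' : EG (Op p w) ≤ EG (Op b w) := eg_mono fun x (hx : w x ≤ p) => hx.trans hb
  by_cases hall : F ⊆ R
  · left
    refine four_of_fg (by omega) (fg_sub hGu (by omega) (by omega) (by omega) hG3) ?_
    intro x hx y hy
    by_cases hxy : Adj x y
    · exact hG4 x y (hall ((hF _).2 ⟨hxy, hx, hy⟩))
    · exact ⟨fun k => absurd (hGu k).1 hxy, fun k => absurd k.1 hxy⟩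
  · right
    obtain ⟨e0, he0, he0'⟩ := Finset.not_subset.1 hall
    obtain ⟨e, he, hmin⟩ := Finset.exists_min_image (F \ R)
      (fun e => nrm e.1 + nrm e.2) ⟨e0, Finset.mem_sdiff.2 ⟨he0, he0'⟩⟩
    obtain ⟨x, y⟩ := e
    obtain ⟨heF, heR⟩ := Finset.mem_sdiff.1 he
    obtain ⟨hxy, hxA, hyA⟩ := (hF _).1 heF
    simp only at hxy hxA hyA
    have heF' : (y, x) ∈ F := (hF _).2 ⟨hxy.symm, hyA, hxA⟩
    have hminF : ∀ f ∈ F, nrm f.1 + nrm f.2 < nrm x + nrm y → f ∈ R := by
      intro f hf hlt
      by_contra hcon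
      have := hmin f (Finset.mem_sdiff.2 ⟨hf, hcon⟩)
      simp only at this
      omega
    let H := swG G (EG (Op p w)) x y
    have hH1 : EG (Op a w) ≤ H := by
      intro s t hst
      by_cases hc : (s = x ∧ t = y) ∨ (s = y ∧ t = x)
      · exact (swG_on hc).2 (hop hst)
      · exact (swG_off hc).2 (hG1 hst)
    have hH2 : H ≤ EG (Op b w) := by
      intro s t hst
      by_cases hc : (s = x ∧ t = y) ∨ (s = y ∧ t = x)
      · exact hop' ((swG_on hc).1 hst)
      · exact hG2 ((swG_off hc).1 hst)
    have hHu : H ≤ EG univ := hH2.trans (eg_mono (subset_univ _))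
    have hHn : ¬ FourG H 0 n m := by
      intro hHF
      have hgood : GoodR a b p w n m F (insert (x, y) (insert (y, x) R)) := by
        refine ⟨?_, ?_, ?_, H, hH1, hH2, hHF, ?_⟩
        · intro f hf
          rcases Finset.mem_insert.1 hf with rfl | hf
          · exact heF
          · rcases Finset.mem_insert.1 hf with rfl | hf
            · exact heF'
            · exact hRF hf
        · intro s t hst
          rcases Finset.mem_insert.1 hst with hst | hst
          · rw [Prod.mk.injEq] at hst
            rw [hst.1, hst.2]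
            exact Finset.mem_insert_of_mem (Finset.mem_insert_self _ _)
          · rcases Finset.mem_insert.1 hst with hst | hst
            · rw [Prod.mk.injEq] at hst
              rw [hst.1, hst.2]
              exact Finset.mem_insert_self _ _
            · exact Finset.mem_insert_of_mem (Finset.mem_insert_of_mem (hsym s t hst))
        · intro f hf g hg hlt
          refine Finset.mem_insert_of_mem (Finset.mem_insert_of_mem ?_)
          rcases Finset.mem_insert.1 hf with rfl | hf
          · exact hminF g hg hlt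
          · rcases Finset.mem_insert.1 hf with rfl | hf
            · refine hminF g hg ?_
              simp only at hlt
              omega
            · exact hini f hf g hg hlt
        · intro s t hst
          by_cases hc : (s = x ∧ t = y) ∨ (s = y ∧ t = x)
          · exact swG_on hc
          · rcases Finset.mem_insert.1 hst with hst | hst
            · rw [Prod.mk.injEq] at hst
              exact absurd (Or.inl hst) hc
            · rcases Finset.mem_insert.1 hst with hst | hst
              · rw [Prod.mk.injEq] at hst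
                exact absurd (Or.inr hst) hc
              · exact (swG_off hc).trans (hG4 s t hst)
      have hcard := hmax _ (Finset.mem_filter.2 ⟨Finset.mem_powerset.2 hgood.1, hgood⟩)
      have hlt : R.card < (insert (x, y) (insert (y, x) R)).card := by
        refine Finset.card_lt_card ⟨fun f hf =>
          Finset.mem_insert_of_mem (Finset.mem_insert_of_mem hf), fun hc => heR ?_⟩
        exact hc (Finset.mem_insert_self _ _)
      omega
    have hdiff : ¬ (G.Adj x y ↔ H.Adj x y) := by
      intro hiff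
      refine hHn ((fg_congr fun s _ t _ => ?_).1 hG3)
      by_cases hc : (s = x ∧ t = y) ∨ (s = y ∧ t = x)
      · rcases hc with ⟨rfl, rfl⟩ | ⟨rfl, rfl⟩
        · exact hiff
        · rw [G.adj_comm, H.adj_comm]
          exact hiff
      · exact (swG_off hc).symm
    have hbb : (EG (Op b w)).Adj x y := by
      by_contra hcon
      exact hdiff ⟨fun k => absurd (hG2 k) hcon, fun k => absurd (hH2 k) hcon⟩
    have haa : ¬ (EG (Op a w)).Adj x y := by
      intro k
      exact hdiff ⟨fun _ => hH1 k, fun _ => hG1 k⟩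
    have key : ∀ u v : V, ((u = x ∧ v = y) ∨ (u = y ∧ v = x)) → a < w u → ∃ u : V,
        8 * n ≤ nrm u ∧ nrm u ≤ m / 8 ∧ a < w u ∧
        w u ≤ b ∧ (32 * n ≤ nrm u → Four (Op p w) 0 (8 * n) (nrm u / 2)) ∧
        w ∈ MxG a b u 1 (nrm u / 4) ∧ w ∈ MxG a b 0 (2 * nrm u) m := by
      intro u v huv hau
      have huv' : Adj u v := by
        rcases huv with ⟨rfl, rfl⟩ | ⟨rfl, rfl⟩
        · exact hxy
        · exact hxy.symm
      have huA : u ∈ Ann 0 (8 * n) (m / 8) := by
        rcases huv with ⟨rfl, rfl⟩ | ⟨rfl, rfl⟩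
        · exact hxA
        · exact hyA
      have hub : w u ≤ b := by
        rcases huv with ⟨rfl, rfl⟩ | ⟨rfl, rfl⟩
        · exact hbb.2.1
        · exact hbb.2.2
      have hsum : nrm x + nrm y = nrm u + nrm v := by
        rcases huv with ⟨rfl, rfl⟩ | ⟨rfl, rfl⟩
        · rfl
        · omega
      have hu1 : 8 * n ≤ nrm u := by
        have := huA.1
        rwa [sub_zero] at this
      have hu2 : nrm u ≤ m / 8 := by
        have := huA.2
        rwa [sub_zero] at this
      have hv1 := abs_le.1 (nrm_adj huv' 0)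
      rw [sub_zero, sub_zero] at hv1
      refine ⟨u, hu1, hu2, hau, hub, ?_, ?_, ?_⟩
      · intro h32
        refine four_of_fg (by omega) (fg_sub hGu (by omega) (by omega) (by omega) hG3) ?_
        intro s hs t ht
        by_cases hst : Adj s t
        · have hs1 := hs.1
          have hs2 := hs.2
          have ht1 := ht.1
          have ht2 := ht.2
          rw [sub_zero] at hs1 hs2 ht1 ht2
          refine hG4 s t (hminF (s, t) ((hF _).2 ⟨hst, ⟨?_, ?_⟩, ⟨?_, ?_⟩⟩) ?_)
          · change 8 * n ≤ nrm (s - 0)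
            rw [sub_zero]
            omega
          · change nrm (s - 0) ≤ m / 8
            rw [sub_zero]
            omega
          · change 8 * n ≤ nrm (t - 0)
            rw [sub_zero]
            omega
          · change nrm (t - 0) ≤ m / 8
            rw [sub_zero]
            omega
          · change nrm s + nrm t < nrm x + nrm y
            omega
        · exact ⟨fun k => absurd (hGu k).1 hst, fun k => absurd k.1 hst⟩
      · refine ⟨G, hG1, hG2, fg_switch (H := H) hGu hHu huv' ?_ hG3 hHn (by omega) ?_ ?_⟩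
        · intro s t h1 h2
          refine (swG_off ?_).symm
          rintro (h3 | h3)
          · rcases huv with ⟨rfl, rfl⟩ | ⟨rfl, rfl⟩
            · exact h1 h3
            · exact h2 h3
          · rcases huv with ⟨rfl, rfl⟩ | ⟨rfl, rfl⟩
            · exact h2 h3
            · exact h1 h3
        · rw [sub_zero]
          omega
        · rw [sub_zero]
          omega
      · exact ⟨G, hG1, hG2, fg_sub hGu (by omega) (by omega) le_rfl hG3⟩
    by_cases hax : w x ≤ a
    · have hay : a < w y := by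
        by_contra hcon
        exact haa ⟨hxy, hax, not_lt.1 hcon⟩
      exact key y x (Or.inr ⟨rfl, rfl⟩) hay
    · exact key x y (Or.inl ⟨rfl, rfl⟩) (not_le.1 hax)

end Pool.Agent.TriPerc
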